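import Pool.Agent.P.MP_053557_co.Basic2

/-! Parity and connectivity when all coefficients are nonzero. -/

namespace Pool.Agent.P.MP_053557_co

open Module Submodule

namespace Afp

variable {V : Type} [AddCommGroup V] [Module F V] {ι κ : Type} [Fintype ι] [DecidableEq ι]
  [Fintype κ] [DecidableEq κ] {a : Basis ι F V} {f : Basis κ F V}

omit [Fintype ι] [DecidableEq ι] [Fintype κ] [DecidableEq κ] in
theorem full_Gm (h : ∀ i l, f.repr (a i) l ≠ 0) {x : V} (hx : x ∈ Gm a) (l : κ) :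
    f.repr x l ≠ 0 := by
  obtain ⟨i, rfl | rfl⟩ := mem_Gm_iff.1 hx
  · exact h i l
  · simpa using h i l

omit [DecidableEq ι] [DecidableEq κ] in
theorem notD (h4 : 4 ≤ Fintype.card ι) (h : ∀ i l, f.repr (a i) l ≠ 0) {x : V} (hx : x ∈ Gm a) :
    x ∉ Dset (Tset f) := by
  intro hD
  rw [mem_Dset_iff_card, Finset.filter_true_of_mem fun l _ => full_Gm h hx l, Finset.card_univ,
    card_eq_card a f] at hD
  omega

omit [DecidableEq ι] [DecidableEq κ] in
theorem edge (h4 : 4 ≤ Fintype.card ι) (h : ∀ i l, f.repr (a i) l ≠ 0) {e : V} (he : e ∈ EE a f)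
    (h0 : e ≠ 0) : ∃ x ∈ Gm a, ∃ y ∈ Gm a, e = x - y := by
  obtain ⟨⟨x, hx, y, hy, rfl⟩, h2⟩ := he
  refine ⟨x, ⟨hx, ?_⟩, y, ⟨hy, ?_⟩, rfl⟩
  · rintro rfl
    exact notD h4 h (x := 0 - y) ⟨by simpa using neg_mem_Tset hy, h0⟩ h2
  · rintro rfl
    exact notD h4 h (x := x - 0) ⟨by simpa using hx, h0⟩ h2

omit [DecidableEq ι] [DecidableEq κ] in
theorem adj_card (h4 : 4 ≤ Fintype.card ι) (hT : ∀ i l, a.repr (f l) i ≠ 0) {x y : V}
    (hx : x ∈ Gm a) (hy : y ∈ Gm a) (h : Adj f x y) : (Df f x y).card = 2 := by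
  have e : Df f x y = Finset.univ.filter fun l => f.repr (x - y) l ≠ 0 := by
    ext l; simp [mem_Df, sub_eq_zero]
  have h1 := (mem_Dset_iff_card f).1 h.2
  have h2 : ¬ x - y ∈ Tset f := fun hc =>
    notD (a := f) (f := a) (by rw [card_eq_card a f]; exact h4) (fun l i => hT i l)
      ⟨hc, sub_ne_zero.2 h.1⟩ (sub_mem_Dset hx.1 hy.1)
  rw [mem_Tset_iff_card] at h2
  rw [e]
  omega

/-- The product of the coordinates. -/
noncomputable def pr (f : Basis κ F V) (x : V) : F := ∏ l, f.repr x l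

omit [DecidableEq κ] in
theorem pr_neg (x : V) : pr f (-x) = (-1) ^ Fintype.card κ * pr f x := by
  simp only [pr, map_neg, Finsupp.coe_neg, Pi.neg_apply]
  rw [Finset.prod_neg, Finset.card_univ]

omit [DecidableEq κ] in
theorem pr_eq {x y : V} (hx : ∀ l, f.repr x l ≠ 0) (hy : ∀ l, f.repr y l ≠ 0) :
    pr f x = (-1) ^ (Df f x y).card * pr f y := by
  have key : ∀ p q : F, p ≠ 0 → q ≠ 0 → p = (if p ≠ q then -1 else 1) * q := by decide
  rw [pr, pr, Finset.prod_congr rfl fun l _ => key _ _ (hx l) (hy l), Finset.prod_mul_distrib,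
    Finset.prod_ite, Finset.prod_const, Finset.prod_const_one, mul_one]
  rfl

omit [DecidableEq κ] in
theorem even_iff {x y : V} (hx : ∀ l, f.repr x l ≠ 0) (hy : ∀ l, f.repr y l ≠ 0) :
    Even (Df f x y).card ↔ pr f x = pr f y := by
  have h0 : pr f y ≠ 0 := Finset.prod_ne_zero_iff.2 fun l _ => hy l
  rw [pr_eq hx hy]
  rcases Nat.even_or_odd (Df f x y).card with h | h
  · simp [h, h.neg_one_pow]
  · rw [h.neg_one_pow]
    refine ⟨fun h' => absurd h' (Nat.not_even_iff_odd.2 h), fun h' => ?_⟩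
    rcases F_ne_cases h0 with h1 | h1 <;> rw [h1] at h' <;> exact absurd h' (by decide)

omit [Fintype κ] [DecidableEq κ] in
theorem conn (h : Tc a f) (S : Finset ι) (hS : S.Nonempty) (hU : S ≠ Finset.univ) :
    ∃ i ∈ S, ∃ i', i' ∉ S ∧ (Adj f (a i) (a i') ∨ Adj f (a i) (-a i')) := by
  by_contra hc
  push Not at hc
  obtain ⟨i0, hi0⟩ : ∃ i0, i0 ∉ S := by
    by_contra hn
    push Not at hn
    exact hU (Finset.eq_univ_iff_forall.2 hn)
  refine h.nsep0 (sep0 a (S : Set ι) hS (l0 := i0) hi0 fun e he i hi h1 m hm => ?_)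
  by_contra hmS
  have him : i ≠ m := fun hh => hmS (hh ▸ hi)
  have e1 := Dset_eq_two a he.1 him h1 hm
  have n1 : a i ≠ a m := fun hh => him (a.injective hh)
  have n2 : a i ≠ -a m := fun hh => by
    have := congrArg (fun z => a.repr z i) hh
    simp [single_ne him.symm] at this
  have h2 := smul_mem_Dset (a.repr e i) he.2
  obtain ⟨c1, c2⟩ := hc i hi m hmS
  rcases F_ne_cases h1 with p | p <;> rcases F_ne_cases hm with q | q <;> rw [p, q] at e1 <;>
    rw [p, e1] at h2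
  · exact c2 ⟨n2, by simpa using h2⟩
  · exact c1 ⟨n1, by simpa [sub_eq_add_neg] using h2⟩
  · exact c1 ⟨n1, by simpa [sub_eq_add_neg, add_comm] using h2⟩
  · exact c2 ⟨n2, by simpa [add_comm] using h2⟩

end Afp

open Afp

theorem s_afp : S_AFP := by
  intro V _ _ ι κ _ _ _ _ a f h hf hT
  have hadj : ∀ x ∈ Gm a, ∀ y ∈ Gm a, Adj f x y → pr f x = pr f y := fun x hx y hy hxy =>
    (even_iff (full_Gm hf hx) (full_Gm hf hy)).1 (by rw [adj_card h.four hT hx hy hxy]; exact even_two)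
  obtain ⟨i0⟩ : Nonempty ι := Fintype.card_pos_iff.1 (by have := h.four; omega)
  have hev : Even (Fintype.card ι) := by
    by_contra hn
    have ho : Odd (Fintype.card κ) := by rw [card_eq_card a f]; exact Nat.not_even_iff_odd.1 hn
    have h1 : ∀ x ∈ Gm a, a.constr F (fun i => pr f (a i)) x = pr f x := fun x hx => by
      obtain ⟨i, rfl | rfl⟩ := mem_Gm_iff.1 hx
      · rw [Basis.constr_basis]
      · rw [map_neg, Basis.constr_basis, pr_neg, ho.neg_one_pow, neg_one_mul]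
    have h2 : a.constr F (fun i => pr f (a i)) = 0 := h.spans.eq_zero fun e he => by
      by_cases h0 : e = 0
      · rw [h0, map_zero]
      obtain ⟨x, hx, y, hy, rfl⟩ := edge h.four hf he h0
      rw [map_sub, h1 x hx, h1 y hy, hadj x hx y hy ⟨sub_ne_zero.1 h0, he.2⟩, sub_self]
    have h3 := h1 _ (self_mem_Gm a i0)
    rw [h2] at h3
    exact Finset.prod_ne_zero_iff.2 (fun l _ => hf i0 l) h3.symm
  have hneg : ∀ x, pr f (-x) = pr f x := fun x => by
    rw [pr_neg, card_eq_card a f, hev.neg_one_pow, one_mul]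
  have hall : ∀ i, pr f (a i) = pr f (a i0) := by
    by_contra hn
    push Not at hn
    obtain ⟨i1, hi1⟩ := hn
    obtain ⟨i, hi, i', hi', hh⟩ := conn h (Finset.univ.filter fun i => pr f (a i) = pr f (a i0))
      ⟨i0, by simp⟩ fun hc => hi1 (by simpa using Finset.eq_univ_iff_forall.1 hc i1)
    simp only [Finset.mem_filter, Finset.mem_univ, true_and] at hi hi'
    apply hi'
    rw [← hi]
    rcases hh with hh | hh
    · exact (hadj _ (self_mem_Gm a i) _ (self_mem_Gm a i') hh).symm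
    · rw [hadj _ (self_mem_Gm a i) _ (neg_mem_Gm (self_mem_Gm a i')) hh, hneg]
  have hG : ∀ x ∈ Gm a, pr f x = pr f (a i0) := fun x hx => by
    obtain ⟨i, rfl | rfl⟩ := mem_Gm_iff.1 hx
    · exact hall i
    · rw [hneg, hall]
  exact ⟨hev, fun x hx y hy => (even_iff (full_Gm hf hx) (full_Gm hf hy)).2
    ((hG x hx).trans (hG y hy).symm), conn h⟩

theorem s_nc (hCM : S_CM) : S_NC := by
  intro V _ _ ι κ _ _ _ _ a f h4 hsp hf _
  refine or_iff_not_imp_left.2 fun hn => ?_
  unfold NC at hn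
  push Not at hn
  obtain ⟨i, c, hn⟩ := hn
  obtain ⟨e, he, h1, h2⟩ : ∃ e ∈ EE a f, a.repr e i = 1 ∧
      ∀ x ∈ EE a f, a.repr x i = 1 → f.repr x c = 0 → x = e := by
    by_cases hc : ∃ e ∈ EE a f, a.repr e i = 1 ∧ f.repr e c = 0
    · obtain ⟨e, he, h1, h2⟩ := hc
      exact ⟨e, he, h1, fun x hx p q => by_contra fun hne => hn x hx e he hne p h1 q h2⟩
    · obtain ⟨e, he, h1⟩ := exists_touch a (E := EE a f) (l := i) (x := a i)
        (hsp ▸ Submodule.mem_top) (by simp)
      exact ⟨a.repr e i • e, smul_mem_EE _ he, by simpa using F_sq h1,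
        fun x hx p q => absurd ⟨x, hx, p, q⟩ hc⟩
  refine hCM (Tset a) (Tset f) (a.coord i) (a i) e (f.repr (a i) c • f c) (isFrame_basis a)
    (isFrame_basis f) (by rw [finrank_eq_card_basis a]; exact h4) (self_mem_Tset a i) (by simp)
    (fun y hy n1 n2 => ?_) he h1 (fun x hx p => ?_) fun hc => ?_
  · by_contra h0
    have h3 := Tset_eq_smul a hy (i := i) h0
    rcases F_ne_cases h0 with q | q
    · exact n1 (by rw [h3, show a.repr y i = 1 from q, one_smul])
    · exact n2 (by rw [h3, show a.repr y i = -1 from q, neg_one_smul])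
  · by_cases q : f.repr x c = 0
    · refine ⟨_, smul_mem_Tset (f.repr (a i) c) (self_mem_Tset f c), ?_⟩
      rw [add_sub_cancel_right, h2 x hx p q]
      exact subset_span rfl
    · have h3 : x - a i ∈ Gm a := ⟨sub_mem_Tset_one a hx.1 p, fun h0 =>
        notD h4 hf (self_mem_Gm a i) (sub_eq_zero.1 h0 ▸ hx.2)⟩
      have h5 := full_Gm hf h3 c
      have key : ∀ s t : F, s ≠ 0 → t ≠ 0 → s - t ≠ 0 → t = -s := by decide
      have h6 : f.repr (a i) c = -f.repr x c := key _ _ q (hf i c) (by simpa using h5)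
      refine ⟨_, sub_mem_Tset f hx.2 q, ?_⟩
      rw [h6, neg_smul, ← sub_eq_add_neg, sub_self]
      exact zero_mem _
  · exact absurd (Tset_subset_Dset f hc) (notD h4 hf (self_mem_Gm a i))

end Pool.Agent.P.MP_053557_co
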