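import Pool.Agent.P.MP_053557_co.Basic2

/-! Removing a balancing vertex. -/

namespace Pool.Agent.P.MP_053557_co

open Module Submodule

namespace Bal

variable {V : Type} [AddCommGroup V] [Module F V] {κ : Type}

/-- A nonzero functional killing `f j` and the edges avoiding `j` has full support off `j`. -/
theorem full [Fintype κ] (f : Basis κ F V) {E : Set V} (hE : E ⊆ Dset (Tset f))
    (hns : ¬ Sep E 1) {j : κ} {χ : V →ₗ[F] F} (h0 : χ ≠ 0) (hj : χ (f j) = 0)
    (hk : ∀ e ∈ E, f.repr e j = 0 → χ e = 0) {l0 : κ} (hl0 : l0 ≠ j) : χ (f l0) ≠ 0 := by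
  intro hc
  apply hns
  have hne : ({l | χ (f l) ≠ 0} : Set κ).Nonempty := by
    by_contra hn
    apply h0
    refine f.ext fun l => ?_
    by_contra h1
    exact hn ⟨l, by simpa using h1⟩
  refine sepv f {l | χ (f l) ≠ 0} hne (j := j) (l0 := l0) (by simpa using hc) hl0 ?_
  intro e he l hl h1 m hm
  by_cases h2 : f.repr e j = 0
  · exact Or.inl (ends_in_supp f χ (hE he) (hk e he h2) h1 hl hm)
  · have hlj : l ≠ j := by rintro rfl; exact hl hj
    by_cases h3 : m = l
    · exact Or.inl (h3 ▸ hl)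
    by_cases h4 : m = j
    · exact Or.inr h4
    exact absurd (repr_eq_zero_of_Dset f (hE he) hlj h1 h2 h3 h4) hm

/-- The edges avoiding `j` span the common kernel. -/
theorem ker [Fintype κ] (f : Basis κ F V) {E : Set V} (hE : E ⊆ Dset (Tset f))
    (hns : ¬ Sep E 1) {j : κ} {χ : V →ₗ[F] F} (h0 : χ ≠ 0) (hj : χ (f j) = 0)
    (hk : ∀ e ∈ E, f.repr e j = 0 → χ e = 0) {x : V} (hx : f.repr x j = 0) (hχ : χ x = 0) :
    x ∈ span F {e | e ∈ E ∧ f.repr e j = 0} := by
  by_contra hn
  obtain ⟨φ, h1, h2⟩ := exists_functional hn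
  have hx0 : x ≠ 0 := by rintro rfl; simp at h1
  obtain ⟨l0, hl0⟩ := exists_repr_ne f hx0
  have hlj : l0 ≠ j := by rintro rfl; exact hl0 hx
  have h3 := full f hE hns h0 hj hk hlj
  refine full f hE hns (j := j)
    (χ := φ - φ (f j) • f.coord j - (φ (f l0) * χ (f l0)) • χ) ?_ ?_ ?_ hlj ?_
  · intro hc
    have := congrArg (fun g : V →ₗ[F] F => g x) hc
    simp [hx, h1, hχ] at this
  · simp [hj]
  · intro e he h4
    simp [h4, hk e he h4, h2 e (subset_span ⟨he, h4⟩)]
  · simp [single_ne hlj, mul_assoc, F_sq h3]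

end Bal

open Bal in
theorem s_bal (hRC : S_RC) : S_BAL := by
  intro V _ _ κ _ _ A f j hA hsp hns hnb
  have := Module.Finite.of_basis f
  obtain ⟨χ, h0, hj, hk⟩ := nbc f hnb
  have hE : Ed A (Tset f) ⊆ Dset (Tset f) := fun _ he => he.2
  obtain ⟨e0, he0, h1, h2⟩ : ∃ e0 ∈ Ed A (Tset f), f.repr e0 j = 1 ∧ χ e0 ≠ 0 := by
    have h3 : ∃ e ∈ Ed A (Tset f), χ e ≠ 0 := by
      by_contra hc
      push Not at hc
      exact h0 (hsp.eq_zero hc)
    obtain ⟨e, he, h4⟩ := h3
    have h5 : f.repr e j ≠ 0 := fun hc => h4 (hk e he hc)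
    rcases F_ne_cases h5 with h6 | h6
    · exact ⟨e, he, h6, h4⟩
    · exact ⟨-e, neg_mem_Ed he, by simp [h6], by simpa using h4⟩
  obtain ⟨g, hg⟩ := exists_basis_of_coords
    (fun l => if l = j then χ - χ e0 • f.coord j else f.coord l) (fun w hw => by
      have h3 : w = f.repr w j • f j := eq_smul_of_supp f j fun l hl => by
        simpa [hl] using hw l
      have h4 := hw j
      rw [h3] at h4
      have h5 : f.repr w j = 0 := by simpa [hj, h2] using h4
      rw [h3, h5, zero_smul]) (finrank_eq_card_basis f).symm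
  have hgj : ∀ x, g.repr x j = χ x - χ e0 * f.repr x j := fun x => by simp [hg]
  have hgl : ∀ l, l ≠ j → ∀ x, g.repr x l = f.repr x l := fun l hl x => by simp [hg, hl]
  have hsupp : ∀ e ∈ Ed A (Tset f), ∀ l, g.repr e l ≠ 0 → f.repr e l ≠ 0 := by
    intro e he l hl hc
    by_cases hlj : l = j
    · subst hlj
      rw [hgj, hk e he hc, hc] at hl
      simp at hl
    · rw [hgl l hlj] at hl
      exact hl hc
  have hco : ∀ l, l ≠ j → g.coord l = f.coord l := fun l hl => coord_eq_of_repr (hgl l hl)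
  refine ⟨g, ?_, hco, ?_⟩
  · refine hRC A (Tset f) g {j} hA (isFrame_basis f) (fun e he => ?_) (fun x hx => ?_)
      (fun m hm => ?_) (Or.inl ⟨j, j, fun m hm => Or.inl hm⟩)
    · rw [mem_Dset_iff]
      intro i k l hi hk' hl
      exact (mem_Dset_iff f).1 he.2 i k l (hsupp e he i hi) (hsupp e he k hk') (hsupp e he l hl)
    · have he : x ∈ Ed A (Tset f) := ⟨hA.subset_Dset hx.1, Tset_subset_Dset _ hx.2⟩
      rw [mem_Tset_iff]
      intro i k hi hk'
      exact (mem_Tset_iff f).1 hx.2 i k (hsupp x he i hi) (hsupp x he k hk')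
    · refine ⟨Tset f, isFrame_basis f, rr_right _ _, ?_⟩
      rw [hco m hm]
      exact isStar_coord f m
  · intro x hx
    have hx' : χ x - χ e0 * f.repr x j = 0 := by rw [← hgj]; simpa using hx
    have h3 := ker f hE hns h0 hj hk (x := x - f.repr x j • e0) (by simp [h1])
      (by simp only [map_sub, map_smul, smul_eq_mul]; linear_combination hx')
    have h4 : x = (x - f.repr x j • e0) + f.repr x j • e0 := by abel
    rw [h4]
    refine add_mem (span_mono (fun e he => ?_) h3) (smul_mem _ _ (subset_span ⟨he0, ?_⟩))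
    · exact ⟨he.1, by simp [hgj, he.2, hk e he.1 he.2]⟩
    · simp [hgj, h1]

end Pool.Agent.P.MP_053557_co
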