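import Pool.Agent.P.MP_053557_co.Basic2

/-! The steps `C2` and `CAP`. -/

namespace Pool.Agent.P.MP_053557_co

open Module Submodule

namespace C2x

theorem fa : ∀ c c' p1 p2 q1 q2 : F, p1 * q2 ≠ q1 * p2 → c * p1 + c' * p2 = 0 →
    c * q1 + c' * q2 = 0 → c = 0 ∧ c' = 0 := by decide

theorem fb : ∀ p1 p2 p3 q1 q2 q3 : F, p1 * q2 ≠ q1 * p2 → p1 * q3 ≠ q1 * p3 → p2 * q3 ≠ q2 * p3 →
    ∃ c c' : F, c ≠ 0 ∧ c' ≠ 0 ∧ c * p1 + c' * p2 - p3 = 0 ∧ c * q1 + c' * q2 - q3 = 0 := by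
  decide

set_option synthInstance.maxSize 1024 in
theorem fc : ∀ c c' p1 p2 q1 q2 : F, c ≠ 0 → c' ≠ 0 →
    (c * p1 = 0 ∧ c * q1 = 0) ∨ (c' * p2 = 0 ∧ c' * q2 = 0) ∨
      (c * p1 - c' * p2 = 0 ∧ c * q1 - c' * q2 = 0) ∨
      (c * p1 + c' * p2 = 0 ∧ c * q1 + c' * q2 = 0) → p1 * q2 = q1 * p2 := by decide

variable {V : Type} [AddCommGroup V] [Module F V] {ι κ : Type}

theorem dsp {E T : Set V} (hT : E ⊆ Dset T) {φ ψ χ : V →ₗ[F] F} (hNB : NB E φ) (d1 d2 : V)
    (hE : ∀ e ∈ E, φ e = 0 → (ψ e = 0 ∧ χ e = 0) ∨ e = d1 ∨ e = -d1 ∨ e = d2 ∨ e = -d2)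
    (hd : ψ d1 * χ d2 ≠ χ d1 * ψ d2) :
    DSp T (LinearMap.ker φ ⊓ (LinearMap.ker ψ ⊓ LinearMap.ker χ)) := by
  set W := LinearMap.ker φ ⊓ (LinearMap.ker ψ ⊓ LinearMap.ker χ) with hW
  intro x hx
  have h1 : span F {e | e ∈ E ∧ φ e = 0} ≤ span F (Dset T ∩ (W : Set V)) ⊔ span F {d1, d2} := by
    rw [span_le]
    rintro e ⟨he, h0⟩
    have m1 : d1 ∈ span F ({d1, d2} : Set V) := subset_span (by simp)
    have m2 : d2 ∈ span F ({d1, d2} : Set V) := subset_span (by simp)
    rcases hE e he h0 with h | rfl | rfl | rfl | rfl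
    · exact mem_sup_left (subset_span ⟨hT he, h0, h⟩)
    · exact mem_sup_right m1
    · exact mem_sup_right (neg_mem m1)
    · exact mem_sup_right m2
    · exact mem_sup_right (neg_mem m2)
  obtain ⟨w, hw, y, hy, rfl⟩ := mem_sup.1 (h1 (hNB x hx.1))
  obtain ⟨c, c', rfl⟩ := mem_span_pair.1 hy
  have h2 : w ∈ W := (span_le.2 Set.inter_subset_right : span F _ ≤ W) hw
  have h3 : c • d1 + c' • d2 ∈ W := (W.add_mem_iff_right h2).1 hx
  have h4 : c * ψ d1 + c' * ψ d2 = 0 := by simpa using h3.2.1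
  have h5 : c * χ d1 + c' * χ d2 = 0 := by simpa using h3.2.2
  have h6 := fa _ _ _ _ _ _ hd h4 h5
  simpa [h6.1, h6.2] using hw

theorem tri (hTQ : S_TQ) {T : Set V} (hT : IsFrame T) {φ ψ χ : V →ₗ[F] F}
    (hW : DSp T (LinearMap.ker φ ⊓ (LinearMap.ker ψ ⊓ LinearMap.ker χ))) {y1 y2 y3 : V}
    (m1 : y1 ∈ T) (m2 : y2 ∈ T) (m3 : y3 ∈ T) (z1 : φ y1 = 0) (z2 : φ y2 = 0) (z3 : φ y3 = 0) :
    ψ y1 * χ y2 = χ y1 * ψ y2 ∨ ψ y1 * χ y3 = χ y1 * ψ y3 ∨ ψ y2 * χ y3 = χ y2 * ψ y3 := by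
  by_contra hc
  push Not at hc
  obtain ⟨c, c', c0, c0', h1, h2⟩ := fb _ _ _ _ _ _ hc.1 hc.2.1 hc.2.2
  have h := (hTQ T _ hT hW).2.2 _ (hT.smul_mem c m1) _ (hT.smul_mem c' m2) _ m3
    (by simpa [z1, z2, z3] using And.intro h1 h2)
  refine hc.1 (fc c c' _ _ _ _ c0 c0' ?_)
  simpa only [mem_inf, LinearMap.mem_ker, map_add, map_sub, map_smul, smul_eq_mul, z1, z2,
    mul_zero, add_zero, sub_zero, true_and] using h

variable [Fintype ι] [DecidableEq ι] {a : Basis ι F V} {f : Basis κ F V} {j : κ} {I : Finset ι}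

/-- Edges with `β j = 0` that touch a vertex of `I`. -/
theorem touch (h : Sj a f j I) {e : V} (he : e ∈ EE a f) (h0 : f.repr e j = 0) {v : ι}
    (hv : v ∈ I) (h1 : a.repr e v ≠ 0) :
    ∃ w ∈ nbr a f I v, e = a v - a w ∨ e = -(a v - a w) := by
  rcases h.cls0 he.1 h0 with h2 | ⟨i, hi, i', hi', h2, rfl⟩
  · exact absurd (h2 v hv) h1
  · have h3 : i' ∈ nbr a f I i := mem_nbr.2 ⟨hi', h2.symm, he.2⟩
    by_cases h4 : i = v
    · exact ⟨i', h4 ▸ h3, Or.inl (by rw [h4])⟩
    · have h5 : i' = v := by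
        by_contra hc
        simp [single_ne h4, single_ne hc] at h1
      exact ⟨i, h5 ▸ nbr_symm hi h3, Or.inr (by rw [h5, neg_sub])⟩

end C2x

open C2x

theorem s_c2 (hSC0 : S_SC0) (hTQ : S_TQ) : S_C2 := by
  intro V _ _ ι κ _ _ _ _ a f j I u m m' l0 z h hu hm nu nm hm'u xm l0j l0m l0u zj zu zm
  have h1 : m ∈ nbr a f I u := by rw [nu]; simp
  have h2 : m' ∈ nbr a f I m := by rw [nm]; simp
  have hmu := (mem_nbr.1 h1).2.1
  have hm'm := (mem_nbr.1 h2).2.1
  have hcl : ∀ e ∈ EE a f, f.coord j e = 0 → (a.coord u e = 0 ∧ a.coord m e = 0) ∨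
      e = a u - a m ∨ e = -(a u - a m) ∨ e = a m - a m' ∨ e = -(a m - a m') := by
    intro e he h0
    by_cases h3 : a.repr e u = 0
    · by_cases h4 : a.repr e m = 0
      · exact Or.inl ⟨h3, h4⟩
      · obtain ⟨w, hw, h5⟩ := touch h he h0 hm h4
        rw [nm, Finset.mem_insert, Finset.mem_singleton] at hw
        rcases hw with rfl | rfl <;> rcases h5 with h5 | h5 <;> simp [h5]
    · obtain ⟨w, hw, h5⟩ := touch h he h0 hu h3
      rw [nu, Finset.mem_singleton] at hw
      subst hw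
      rcases h5 with h5 | h5 <;> simp [h5]
  have v1 : a.coord u (a u - a m) = 1 := by simp [single_ne hmu]
  have v2 : a.coord m (a u - a m) = -1 := by simp [single_ne hmu.symm]
  have v3 : a.coord u (a m - a m') = 0 := by simp [single_ne hmu, single_ne hm'u]
  have v4 : a.coord m (a m - a m') = 1 := by simp [single_ne hm'm]
  have hW := dsp (T := Tset f) (fun _ he => he.2) (h.tc.nbf j) _ _ hcl
    (by rw [v1, v2, v3, v4]; decide)
  have ht := @tri V _ _ hTQ _ (isFrame_basis f) _ _ _ hW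
  have hpar : ∀ e ∈ EE a f, ∀ e' ∈ EE a f, f.coord j e = 0 → f.coord j e' = 0 →
      a.coord m e ≠ 0 → ¬ (a.coord u e' = 0 ∧ a.coord m e' = 0) → a.coord m e' ≠ 0 ∧
      (a.coord u e * a.coord m e' = a.coord m e * a.coord u e' → e' = e ∨ e' = -e) := by
    intro e he e' he' z1 z2 n1 n2
    rcases hcl e he z1 with h3 | rfl | rfl | rfl | rfl
    · exact absurd h3.2 n1
    all_goals
      rcases (hcl e' he' z2).resolve_left n2 with rfl | rfl | rfl | rfl <;>
        simp only [map_neg, v1, v2, v3, v4, neg_neg, true_or, or_true, implies_true, and_true] <;>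
        first
          | decide
          | exact ⟨by decide, fun hc => absurd hc (by decide)⟩
  obtain ⟨G, g1, g2, g3⟩ := hSC0 (Tset a) (Tset f) f a m (isFrame_basis a) (isFrame_basis f)
    (rr_right _ _) (rr_left _ _) (h.tc.nba m) (h.tc.symm.two_supp m) ⟨j, l0, l0j.symm, xm, l0m⟩
    fun e he l1 l2 h12 b1 b2 c1 c2 => by
      by_contra hne
      have j1 : j ≠ l1 := fun hc => c1 (hc ▸ xm)
      have j2 : j ≠ l2 := fun hc => c2 (hc ▸ xm)
      have ej : f.repr e j = 0 := repr_eq_zero_of_Dset f he.2 h12 b1 b2 j1 j2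
      have ee := Dset_eq_two f he.2 h12 b1 b2
      have jz : ∀ (c : F) (l : κ), j ≠ l → f.coord j (c • f l) = 0 := fun c l hl => by
        simp [single_ne hl.symm]
      have jm : ∀ (c : F) (l : κ), c • f l ∈ Tset f := fun c l =>
        smul_mem_Tset c (self_mem_Tset f l)
      refine h.tc.nsep (sepv f {l | l ≠ j ∧ ¬ (a.repr (f l) u = 0 ∧ a.repr (f l) m = 0)}
        ⟨l0, l0j, fun hc => l0u hc.1⟩ (j := j) (l0 := z) (fun hc => hc.2 ⟨zu, zm⟩) zj
        fun e' he' l hl b3 l' b4 => ?_)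
      by_contra hcon
      simp only [Set.mem_ofPred_eq, not_or, not_and_not_right] at hcon
      obtain ⟨k1, k2⟩ := hcon.1 hcon.2
      have ll : l ≠ l' := fun hc => hl.2 (hc ▸ ⟨k1, k2⟩)
      have ej' : f.repr e' j = 0 :=
        repr_eq_zero_of_Dset f he'.2 ll b3 b4 hl.1.symm (Ne.symm hcon.2)
      have ee' := Dset_eq_two f he'.2 ll b3 b4
      have u4 : a.coord u e' = a.coord u (f.repr e' l • f l) := by
        conv_lhs => rw [ee']
        simp [k1]
      have m4 : a.coord m e' = a.coord m (f.repr e' l • f l) := by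
        conv_lhs => rw [ee']
        simp [k2]
      obtain ⟨p1, p2⟩ := hpar e he e' he' ej ej' hne (by
        rw [u4, m4]
        simpa [b3] using hl.2)
      have t1 := ht (jm 1 l0) (jm (f.repr e l1) l1) (jm (f.repr e l2) l2) (jz _ _ l0j.symm)
        (jz _ _ j1) (jz _ _ j2)
      have t2 := ht (jm 1 l0) (jm (f.repr e l1) l1) (jm (f.repr e' l) l) (jz _ _ l0j.symm)
        (jz _ _ j1) (jz _ _ hl.1.symm)
      have u5 : a.coord u e = a.coord u (f.repr e l1 • f l1) + a.coord u (f.repr e l2 • f l2) := by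
        rw [← map_add, ← ee]
      have m5 : a.coord m e = a.coord m (f.repr e l1 • f l1) + a.coord m (f.repr e l2 • f l2) := by
        rw [← map_add, ← ee]
      have n0 : a.coord u ((1 : F) • f l0) ≠ 0 := by simpa using l0u
      have n0' : a.coord m ((1 : F) • f l0) = 0 := by simpa using l0m
      have n1 : a.coord m (f.repr e l1 • f l1) ≠ 0 := by simp [b1, c1]
      have n2 : a.coord m (f.repr e l2 • f l2) ≠ 0 := by simp [b2, c2]
      rw [← u4, ← m4] at t2
      have h5 : e' = e ∨ e' = -e := p2 (by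
        rw [u5, m5]
        revert t1 t2 n0 n1 n2 p1
        rw [n0']
        generalize a.coord u ((1 : F) • f l0) = x0, a.coord u (f.repr e l1 • f l1) = x1,
          a.coord m (f.repr e l1 • f l1) = y1, a.coord u (f.repr e l2 • f l2) = x2,
          a.coord m (f.repr e l2 • f l2) = y2, a.coord u e' = x4, a.coord m e' = y4
        revert x0 x1 y1 x2 y2 x4 y4
        decide)
      have h6 : f.repr e l' ≠ 0 := by
        rcases h5 with rfl | rfl
        · exact b4
        · simpa using b4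
      exact h6 (repr_eq_zero_of_Dset f he.2 h12 b1 b2 (fun hc => c1 (hc ▸ k2))
        fun hc => c2 (hc ▸ k2))
  exact ⟨G, g1, g3.symm, g2.symm⟩

theorem s_cap (hTQ : S_TQ) (hC1 : S_C1) : S_CAP := by
  intro V _ _ ι κ _ _ _ _ a f j I u u' w w' t t' h hu hu' huu ⟨v, nu⟩ ⟨v', nu'⟩ ht ht' e1 e2
    hw wu wu' hw' w'u w'u' n1 n2
  have h1 : v ∈ nbr a f I u := by rw [nu]; simp
  have h2 : v' ∈ nbr a f I u' := by rw [nu']; simp
  have hvu := (mem_nbr.1 h1).2.1
  have hvu' := (mem_nbr.1 h2).2.1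
  have h3 : ¬ (v = u' ∧ v' = u) := by
    rintro ⟨rfl, rfl⟩
    have h4 := h.span_X (x := a v' - a w) (fun i hi => by
      have h1 : v' ≠ i := fun hc => hi (hc ▸ hu)
      have h2 : w ≠ i := fun hc => hi (hc ▸ hw)
      simp [single_ne h1, single_ne h2]) (by simp [h.in_I hu, h.in_I hw])
    have h5 := map_span_zero (a.coord v' + a.coord v) (by
      rintro e ⟨i, hi, i', hi', rfl⟩
      have he : a i - a i' ∈ EE a f :=
        ⟨sub_mem_Dset (self_mem_Tset a i) (self_mem_Tset a i'), (mem_nbr.1 hi').2.2⟩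
      have h0 : f.repr (a i - a i') j = 0 := by simp [h.in_I hi, h.in_I (mem_nbr.1 hi').1]
      by_cases h6 : a.repr (a i - a i') v' = 0
      · by_cases h7 : a.repr (a i - a i') v = 0
        · rw [LinearMap.add_apply, Basis.coord_apply, Basis.coord_apply, h6, h7, add_zero]
        · obtain ⟨k, hk, h8⟩ := touch h he h0 hu' h7
          rw [nu', Finset.mem_singleton] at hk
          subst hk
          rcases h8 with h8 | h8 <;> simp [h8, single_ne huu, single_ne huu.symm]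
      · obtain ⟨k, hk, h8⟩ := touch h he h0 hu h6
        rw [nu, Finset.mem_singleton] at hk
        subst hk
        rcases h8 with h8 | h8 <;> simp [h8, single_ne huu, single_ne huu.symm]) h4
    simp [single_ne huu, single_ne wu, single_ne wu'] at h5
  have h4 : v ≠ u' := fun hc => h3 ⟨hc, by
    have := nbr_symm hu (hc ▸ h1)
    rw [nu', Finset.mem_singleton] at this
    exact this.symm⟩
  have h5 : v' ≠ u := fun hc => h4 (by
    have := nbr_symm hu' (hc ▸ h2)
    rw [nu, Finset.mem_singleton] at this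
    exact this.symm)
  have hW := dsp (T := Tset f) (ψ := a.coord u) (χ := a.coord u') (fun _ he => he.2)
    (h.tc.nbf j) (a u - a v) (a u' - a v') (fun e he h0 => by
      by_cases h6 : a.repr e u = 0
      · by_cases h7 : a.repr e u' = 0
        · exact Or.inl ⟨h6, h7⟩
        · obtain ⟨k, hk, h8⟩ := touch h he h0 hu' h7
          rw [nu', Finset.mem_singleton] at hk
          subst hk
          exact Or.inr (Or.inr (Or.inr h8))
      · obtain ⟨k, hk, h8⟩ := touch h he h0 hu h6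
        rw [nu, Finset.mem_singleton] at hk
        subst hk
        exact Or.inr (h8.imp_right Or.inl))
    (by simp [single_ne hvu, single_ne hvu', single_ne h4, single_ne h5, single_ne huu,
      single_ne huu.symm])
  have htri := @tri V _ _ hTQ _ (isFrame_basis f) _ _ _ hW
  have b1 : f.repr (a u + t) j = 1 := by simp [h.in_I hu, h.ot ht]
  have b2 : f.repr (a u' + t') j = 1 := by simp [h.in_I hu', h.ot ht']
  have b3 : f.repr (-(a u + a w)) j = 1 := by simp [h.in_I hu, h.in_I hw]; decide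
  have b4 : f.repr (-(a u' + a w')) j = 1 := by simp [h.in_I hu', h.in_I hw']; decide
  have z : ∀ e, f.repr e j = 1 → f.coord j (e - f j) = 0 := fun e he => by simp [he]
  have m1 := sub_mem_Tset_one f e1 b1
  have m2 := sub_mem_Tset_one f e2 b2
  have m3 := sub_mem_Tset_one f n1 b3
  have m4 := sub_mem_Tset_one f n2 b4
  have t1 := htri m1 m2 m3 (z _ b1) (z _ b2) (z _ b3)
  have t2 := htri m1 m2 m4 (z _ b1) (z _ b2) (z _ b4)
  have t3 := htri m1 m3 m4 (z _ b1) (z _ b3) (z _ b4)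
  have t4 := htri m2 m3 m4 (z _ b2) (z _ b3) (z _ b4)
  simp only [map_sub, map_add, map_neg, Basis.coord_apply, repr_basis_self, ht.2 u hu,
    ht.2 u' hu', ht'.2 u hu, ht'.2 u' hu', repr_basis_ne a huu, repr_basis_ne a huu.symm,
    repr_basis_ne a wu, repr_basis_ne a wu', repr_basis_ne a w'u, repr_basis_ne a w'u']
    at t1 t2 t3 t4
  have x0 : a.repr (f j) u = 0 ∧ a.repr (f j) u' = 0 := by
    revert t1 t2 t3 t4
    generalize a.repr (f j) u = x, a.repr (f j) u' = x'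
    revert x x'
    decide
  rcases mem_Tset_iff_smul.1 m2 with h6 | ⟨l0, c, hc, h6⟩
  · have := congrArg (a.coord u') h6
    simp [ht'.2 u' hu', x0.2] at this
  · refine hC1 a f j I u l0 h hu x0.1 (fun h7 => ?_) ?_ (Or.inl ⟨v, nu⟩)
    · have := z _ b2
      rw [h6, h7] at this
      simp [hc] at this
    · have := congrArg (a.coord u) h6
      simpa [ht'.2 u hu, x0.1, single_ne huu.symm, hc] using this

end Pool.Agent.P.MP_053557_co
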