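import Pool.Agent.P.MP_053557_co.Basic2

/-! Existence and counting of cells. -/

namespace Pool.Agent.P.MP_053557_co

open Module Submodule

namespace Cell

section

variable {Q : Type} [AddCommGroup Q] [Module F Q]

open Classical in
/-- The sign of `w` relative to `u`. -/
noncomputable def sg (u w : Q) : F := if w = u then 1 else if w = -u then -1 else 0

omit [Module F Q] in
theorem sg_ne {u w : Q} (h : sg u w ≠ 0) : w = u ∨ w = -u := by
  by_contra hc
  push Not at hc
  exact h (by simp [sg, hc.1, hc.2])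

omit [Module F Q] in
theorem sg_self (u : Q) : sg u u = 1 := by simp [sg]

theorem sg_neg_self {u : Q} (hu : u ≠ 0) : sg u (-u) = -1 := by
  have h : -u ≠ u := fun hc => hu (eq_neg_self hc.symm)
  simp [sg, h]

omit [Module F Q] in
theorem sg_zero {u : Q} (hu : u ≠ 0) : sg u 0 = 0 := by
  by_contra hc
  rcases sg_ne hc with h | h
  · exact hu h.symm
  · exact hu (neg_eq_zero.1 h.symm)

theorem sg_neg {u : Q} (hu : u ≠ 0) (w : Q) : sg u (-w) = -sg u w := by
  by_cases h1 : w = u
  · rw [h1, sg_neg_self hu, sg_self]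
  by_cases h2 : w = -u
  · rw [h2, neg_neg, sg_neg_self hu, sg_self, neg_neg]
  have h3 : sg u w = 0 := by_contra fun hc => (sg_ne hc).elim h1 h2
  have h4 : sg u (-w) = 0 := by_contra fun hc => (sg_ne hc).elim
    (fun h => h2 (by rw [← h, neg_neg])) fun h => h1 (neg_injective h)
  rw [h3, h4, neg_zero]

theorem sg_smul {u w : Q} (hu : u ≠ 0) (h : w = u ∨ w = -u) : sg u w • u = w := by
  rcases h with h | h
  · rw [h, sg_self, one_smul]
  · rw [h, sg_neg_self hu, neg_smul, one_smul]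

end

variable {V : Type} [AddCommGroup V] [Module F V] {κ ρ ρ' : Type}

theorem reindex {b : Basis κ F V} {W : Submodule F V} {χ : ρ → V →ₗ[F] F} (h : Cells b W χ)
    (e : ρ' ≃ ρ) : Cells b W (fun q => χ (e q)) :=
  ⟨fun q => h.van (e q), fun x hx => h.ker x fun q => by simpa using hx (e.symm q),
    fun l q q' h1 h2 => e.injective (h.disj l _ _ h1 h2), fun q => h.ne (e q)⟩

theorem pi_surj [Fintype ρ] [DecidableEq ρ] {b : Basis κ F V} {W : Submodule F V}
    {χ : ρ → V →ₗ[F] F} (h : Cells b W χ) : LinearMap.range (LinearMap.pi χ) = ⊤ := by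
  rw [eq_top_iff, ← (Pi.basisFun F ρ).span_eq, span_le]
  rintro _ ⟨q, rfl⟩
  obtain ⟨l, hl⟩ := h.ne q
  refine ⟨χ q (b l) • b l, funext fun q' => ?_⟩
  by_cases hq : q' = q
  · subst hq
    simp [F_sq hl]
  · have h1 : χ q' (b l) = 0 := by_contra fun hc => hq (h.disj l q' q hc hl)
    simp [h1, hq]

theorem pi_ker {b : Basis κ F V} {W : Submodule F V} {χ : ρ → V →ₗ[F] F} (h : Cells b W χ)
    {x : V} : LinearMap.pi χ x = 0 ↔ x ∈ W := by
  rw [h.mem_iff, funext_iff]
  rfl

end Cell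

open Cell

theorem s_cell : S_CELL := by
  intro V _ _ κ _ _ b W hW
  classical
  let v : κ → V ⧸ W := fun l => W.mkQ (b l)
  let cl : V ⧸ W → Set (V ⧸ W) := fun u => {u, -u}
  let R : Set (Set (V ⧸ W)) := Set.range fun l : {l // v l ≠ 0} => cl (v l)
  have hfin : Finite R := Set.finite_range _
  let _ : Fintype R := Fintype.ofFinite R
  have hrep : ∀ q : R, ∃ l, v l ≠ 0 ∧ cl (v l) = q := fun q => by
    obtain ⟨l, hl⟩ := q.2
    exact ⟨l, l.2, hl⟩
  choose rep hne hcl using hrep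
  let χ : R → V →ₗ[F] F := fun q => b.constr F fun l => sg (v (rep q)) (v l)
  have hχ : ∀ q l, χ q (b l) = sg (v (rep q)) (v l) := fun q l => by simp [χ]
  have hclE : ∀ {u w : V ⧸ W}, (w = u ∨ w = -u) → cl w = cl u := by
    rintro u w (rfl | rfl)
    · rfl
    · simp only [cl, neg_neg]
      exact Set.pair_comm _ _
  have hdisj : ∀ l q q', χ q (b l) ≠ 0 → χ q' (b l) ≠ 0 → q = q' := by
    intro l q q' h1 h2
    rw [hχ] at h1 h2
    apply Subtype.ext
    rw [← hcl q, ← hcl q', ← hclE (sg_ne h1), ← hclE (sg_ne h2)]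
  have hT : ∀ q, ∀ y ∈ Tset b, χ q y = sg (v (rep q)) (W.mkQ y) := by
    rintro q y (rfl | ⟨l, rfl | rfl⟩)
    · rw [map_zero, map_zero, sg_zero (hne q)]
    · exact hχ q l
    · rw [map_neg, map_neg, sg_neg (hne q), hχ]
  have hsum : ∀ x, W.mkQ x = ∑ q, χ q x • v (rep q) := by
    have key : W.mkQ = ∑ q, (χ q).smulRight (v (rep q)) := by
      refine b.ext fun l => ?_
      simp only [LinearMap.sum_apply, LinearMap.smulRight_apply]
      by_cases hl : v l = 0
      · refine hl.trans (Finset.sum_eq_zero fun q _ => ?_).symm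
        rw [hχ, hl, sg_zero (hne q), zero_smul]
      · let q0 : R := ⟨cl (v l), ⟨l, hl⟩, rfl⟩
        have h0 : v l = v (rep q0) ∨ v l = -v (rep q0) := by
          have h1 : v l ∈ cl (v (rep q0)) := by
            rw [hcl q0]
            exact Or.inl rfl
          exact h1
        have h1 : χ q0 (b l) • v (rep q0) = v l := by rw [hχ, sg_smul (hne q0) h0]
        have h2 : χ q0 (b l) ≠ 0 := fun hc => hl (by rw [← h1, hc, zero_smul])
        rw [Finset.sum_eq_single q0, h1]
        · intro q _ hq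
          have h3 : χ q (b l) = 0 := by_contra fun hc => hq (hdisj l q q0 hc h2)
          rw [h3, zero_smul]
        · simp
    intro x
    rw [key]
    simp only [LinearMap.sum_apply, LinearMap.smulRight_apply]
  have hC : Cells b W χ := by
    refine ⟨fun q w hw => ?_, fun x hx => ?_, hdisj, fun q => ⟨rep q, ?_⟩⟩
    · refine map_span_zero (χ q) ?_ (hW hw)
      rintro _ ⟨⟨y, hy, z, hz, rfl⟩, he⟩
      have h1 : W.mkQ y = W.mkQ z := (Submodule.Quotient.eq W).2 he
      rw [map_sub, hT q y hy, hT q z hz, h1, sub_self]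
    · have h1 := hsum x
      simp only [hx, zero_smul, Finset.sum_const_zero] at h1
      exact (Submodule.Quotient.mk_eq_zero W).1 h1
    · rw [hχ, sg_self]
      exact one_ne_zero
  exact ⟨_, _, reindex hC (Fintype.equivFin R).symm⟩

theorem s_card : S_CARD := by
  intro V _ _ κ ρ _ _ _ _ b W χ h
  have := Module.Finite.of_basis b
  have h1 := LinearMap.finrank_range_add_finrank_ker (LinearMap.pi χ)
  have h2 : LinearMap.ker (LinearMap.pi χ) = W := by
    ext x
    exact pi_ker h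
  rw [pi_surj h, h2, finrank_top, finrank_eq_card_basis b, Module.finrank_fintype_fun_eq_card]
    at h1
  exact h1

theorem Cell.tch_card {V : Type} [AddCommGroup V] [Module F V] {κ ρ : Type} [Fintype κ]
    [DecidableEq κ] [Fintype ρ] [DecidableEq ρ] {b : Basis κ F V} {W : Submodule F V}
    {χ : ρ → V →ₗ[F] F} (h : Cells b W χ) :
    {l | Tch b W l}.ncard = {q | Big b W χ q}.ncard + finrank F W := by
  choose g hg using h.ne
  have h1 : g '' {q | Big b W χ q}ᶜ = {l | Tch b W l}ᶜ := by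
    ext l
    constructor
    · rintro ⟨q, hq, rfl⟩ ht
      exact hq ⟨g q, hg q, ht⟩
    · intro hl
      obtain ⟨q, c, -, hq⟩ := h.of_not_tch hl
      have key : ∀ m, χ q (b m) ≠ 0 → m = l := fun m hm => by_contra fun hc => hm (by
        rw [hq]
        simp [single_ne hc])
      refine ⟨q, ?_, key _ (hg q)⟩
      rintro ⟨m, hm, ht⟩
      exact hl (key m hm ▸ ht)
  have h2 : Function.Injective g := fun q q' hq => h.disj (g q) q q' (hg q) (hq ▸ hg q')
  have h3 := Set.ncard_image_of_injective {q | Big b W χ q}ᶜ h2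
  have h4 := Set.ncard_add_ncard_compl {q | Big b W χ q}
  have h5 := Set.ncard_add_ncard_compl {l | Tch b W l}
  have h6 := s_card b W χ h
  rw [h1] at h3
  rw [Nat.card_eq_fintype_card] at h4 h5
  omega

theorem s_cl : S_CL := by
  intro V _ _ κ ρ ρ' _ _ _ _ _ _ b W1 W2 χ ψ h1 h2 hs
  have := Module.Finite.of_basis b
  have h3 : {l | Tch b W1 l} ∪ {l | Tch b W2 l} = Set.univ := by
    refine Set.eq_univ_of_forall fun l => ?_
    have h4 : b l ∈ W1 ⊔ W2 := hs ▸ mem_top
    obtain ⟨w1, hw1, w2, hw2, h5⟩ := mem_sup.1 h4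
    by_contra hc
    have h6 : b.repr w1 l = 0 := by_contra fun h => hc (Or.inl ⟨w1, hw1, h⟩)
    have h7 : b.repr w2 l = 0 := by_contra fun h => hc (Or.inr ⟨w2, hw2, h⟩)
    have h8 := congrArg (fun x => b.repr x l) h5
    simp [h6, h7] at h8
  have h4 := Set.ncard_inter_add_ncard_union {l | Tch b W1 l} {l | Tch b W2 l}
  have h5 := Submodule.finrank_sup_add_finrank_inf_eq W1 W2
  rw [hs, finrank_top, finrank_eq_card_basis b] at h5
  rw [h3, Set.ncard_univ, Nat.card_eq_fintype_card, tch_card h1, tch_card h2] at h4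
  have h6 : Shd b W1 W2 = {l | Tch b W1 l} ∩ {l | Tch b W2 l} := rfl
  rw [h6]
  omega

theorem s_tq : S_TQ := by
  rintro V _ _ T W ⟨n, b, rfl⟩ hW
  obtain ⟨r, χ, h⟩ := s_cell b W hW
  have hF := isFrame_basis (Pi.basisFun F (Fin r))
  have hm : ∀ y ∈ Tset b, LinearMap.pi χ y ∈ Tset (Pi.basisFun F (Fin r)) := fun y hy =>
    (mem_Tset_iff _).2 fun q q' h1 h2 => h.T hy (by simpa using h1) (by simpa using h2)
  have hs : ∀ {x y : V}, x - y ∈ W ↔ LinearMap.pi χ x = LinearMap.pi χ y := by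
    intro x y
    rw [← pi_ker h, map_sub, sub_eq_zero]
  refine ⟨fun y1 h1 y2 h2 y3 h3 h4 h5 => ?_,
    fun y1 h1 y2 h2 y3 h3 y4 h4 h5 h6 h7 h8 h9 => ?_, fun y1 h1 y2 h2 y3 h3 h4 => ?_⟩
  · rw [← pi_ker h, map_add, map_add] at h4
    rw [← pi_ker h, ← pi_ker h, ← pi_ker h]
    exact T3 hF (hm _ h1) (hm _ h2) (hm _ h3) (fun hc => h5 (hs.2 hc)) h4
  · rw [hs, map_add, map_add] at h5
    rw [← pi_ker h, map_add]
    exact T4 hF (hm _ h1) (hm _ h2) (hm _ h3) (hm _ h4) (fun hc => h6 (hs.2 hc))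
      (fun hc => h7 (hs.2 hc)) (fun hc => h8 (hs.2 hc)) (fun hc => h9 (hs.2 hc)) h5
  · rw [hs, map_add] at h4
    rw [hs, ← pi_ker h, ← pi_ker h, ← pi_ker h, map_add, add_eq_zero_iff_eq_neg]
    exact Tadd hF (hm _ h1) (hm _ h2) (h4 ▸ hm _ h3)

end Pool.Agent.P.MP_053557_co
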