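import Pool.Agent.P.MP_053557_co.Basic2

/-! Contracting an edge at a vertex, and mixing the stars of two frames. -/

namespace Pool.Agent.P.MP_053557_co

open Module Submodule

namespace Cm

theorem exists_opt {β : Type} (P : β → Prop) (h : ∀ q q', P q → P q' → q = q') :
    ∃ m : Option β, ∀ q, P q → some q = m := by
  by_cases hex : ∃ q, P q
  · obtain ⟨q, hq⟩ := hex
    exact ⟨some q, fun q' hq' => by rw [h q' q hq' hq]⟩
  · exact ⟨none, fun q hq => absurd ⟨q, hq⟩ hex⟩

end Cm

theorem s_cm (hCELL : S_CELL) (hCARD : S_CARD) (hRC : S_RC) : S_CM := by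
  intro V _ _ A B σ x0 e u hA hB h4 hx0 hσ0 hσ he hσe hu hx0B
  have hfin := hB.finite
  have hB' := hB
  obtain ⟨n, f, rfl⟩ := hB
  have he0 : e ≠ 0 := by
    rintro rfl
    simp at hσe
  obtain ⟨r, χ, hc⟩ := hCELL f (span F {e}) (dSp_span (Set.singleton_subset_iff.2 he.2))
  have hcard := hCARD f _ χ hc
  rw [finrank_span_singleton he0, ← finrank_eq_card_basis f, Fintype.card_fin] at hcard
  let φ : Option (Fin r) → V →ₗ[F] F := fun o => o.elim σ fun q => χ q + χ q u • σ
  have hφ : ∀ q x, φ (some q) x = χ q x + χ q u * σ x := fun q x => by simp [φ]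
  have hφ0 : φ none = σ := rfl
  obtain ⟨g, hg⟩ := exists_basis_of_coords φ (fun w hw => by
    have h0 : σ w = 0 := hw none
    have h1 : w ∈ span F {e} := hc.ker w fun q => by simpa [hφ, h0] using hw (some q)
    obtain ⟨c, rfl⟩ := mem_span_singleton.1 h1
    have h2 : c = 0 := by simpa [hσe] using h0
    rw [h2, zero_smul]) (by rw [Fintype.card_option, Fintype.card_fin, hcard])
  have key1 : ∀ x ∈ Ed A (Tset f), σ x = 1 → ∀ q q', φ (some q) x ≠ 0 → φ (some q') x ≠ 0 →
      q = q' := by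
    intro x hx h1 q q' hq hq'
    obtain ⟨y, hy, hw⟩ := hu x hx h1
    have h2 : ∀ q, φ (some q) x = χ q y := fun q => by
      have h3 := hc.van q _ hw
      rw [map_sub, map_add] at h3
      rw [hφ, h1, mul_one]
      exact sub_eq_zero.1 h3
    rw [h2] at hq hq'
    exact hc.T hy hq hq'
  have keyD1 : ∀ x ∈ Ed A (Tset f), σ x = 1 → x ∈ Dset (Tset g) := by
    intro x hx h1
    rw [mem_Dset_iff]
    intro i j k hi hj hk
    rw [hg] at hi hj hk
    rcases i with _ | i <;> rcases j with _ | j <;> rcases k with _ | k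
    all_goals first
      | exact Or.inl rfl
      | exact Or.inr (Or.inl rfl)
      | exact Or.inr (Or.inr rfl)
      | exact Or.inl (congrArg some (key1 x hx h1 _ _ hi hj))
      | exact Or.inr (Or.inl (congrArg some (key1 x hx h1 _ _ hi hk)))
      | exact Or.inr (Or.inr (congrArg some (key1 x hx h1 _ _ hj hk)))
  have hED : Ed A (Tset f) ⊆ Dset (Tset g) := by
    intro x hx
    rcases F_cases (σ x) with h0 | h1 | h1
    · rw [mem_Dset_iff]
      intro i j k hi hj hk
      rw [hg] at hi hj hk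
      rcases i with _ | i
      · exact absurd h0 hi
      rcases j with _ | j
      · exact absurd h0 hj
      rcases k with _ | k
      · exact absurd h0 hk
      rw [hφ, h0, mul_zero, add_zero] at hi hj hk
      simpa using hc.D hx.2 hi hj hk
    · exact keyD1 x hx h1
    · simpa using neg_mem_Dset (keyD1 (-x) (neg_mem_Ed hx) (by simp [h1]))
  have keyT : x0 ∈ Tset f → x0 ∈ Tset g := by
    intro h1
    have h2 : ∀ q, φ (some q) x0 = 0 := fun q => by
      have h3 := hc.van q _ (hx0B h1)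
      rw [map_add] at h3
      rw [hφ, hσ0, mul_one]
      exact h3
    rw [mem_Tset_iff]
    intro i j hi hj
    rw [hg] at hi hj
    rcases i with _ | i
    · rcases j with _ | j
      · rfl
      · exact absurd (h2 j) hj
    · exact absurd (h2 i) hi
  have hT : A ∩ Tset f ⊆ Tset g := by
    intro x hx
    by_cases h1 : x = x0
    · subst h1
      exact keyT hx.2
    by_cases h2 : x = -x0
    · subst h2
      exact neg_mem_Tset (keyT (neg_mem_Tset_iff.1 hx.2))
    have h0 := hσ x hx.1 h1 h2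
    rw [mem_Tset_iff]
    intro i j hi hj
    rw [hg] at hi hj
    rcases i with _ | i
    · exact absurd h0 hi
    rcases j with _ | j
    · exact absurd h0 hj
    rw [hφ, h0, mul_zero, add_zero] at hi hj
    rw [hc.T hx.2 hi hj]
  have hsA : IsStar A σ := ⟨x0, hx0, hσ0, hσ⟩
  have hg0 : g.coord none = σ := coord_eq_of_repr fun x => hg none x
  have hold : ∀ q, ¬ (Big f (span F {e}) χ q ∨ χ q u ≠ 0) →
      IsStar (Tset f) (g.coord (some q)) := by
    intro q hq
    push Not at hq
    obtain ⟨l, c, hc0, -, hl⟩ := hc.single hq.1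
    have h1 : g.coord (some q) = χ q := coord_eq_of_repr fun x => by
      rw [hg, hφ, hq.2, zero_mul, add_zero]
    rw [h1]
    exact (isStar_iff f).2 ⟨l, c, hc0, hl⟩
  obtain ⟨m1, hm1⟩ := Cm.exists_opt (fun q => Big f (span F {e}) χ q) (by
    intro q q' hq hq'
    have tch : ∀ l, Tch f (span F {e}) l → f.repr e l ≠ 0 := fun l hl => by
      obtain ⟨e', he', h1⟩ := (tch_span_iff f).1 hl
      rwa [Set.mem_singleton_iff.1 he'] at h1
    have hq2 := hq
    obtain ⟨l, hl, ht⟩ := hq2
    obtain ⟨l', hl', ht'⟩ := hq'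
    obtain ⟨m, hml, hm⟩ := hc.exists_other hl ht
    rcases (mem_Dset_iff f).1 he.2 m l l' (tch m (hc.big_tch hq hm)) (tch l ht) (tch l' ht')
      with h | h | h
    · exact absurd h hml
    · exact hc.disj m q q' hm (h ▸ hl')
    · exact hc.disj l q q' hl (h ▸ hl'))
  obtain ⟨m2, hm2⟩ := Cm.exists_opt (fun q => χ q u ≠ 0) (by
    intro q q' hq hq'
    have h1 : ∀ q, φ (some q) e = χ q u := fun q => by
      rw [hφ, hσe, mul_one, hc.van q e (mem_span_singleton_self e), zero_add]
    exact key1 e he hσe q q' (by rwa [h1]) (by rwa [h1]))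
  have hN : ∀ q, (Big f (span F {e}) χ q ∨ χ q u ≠ 0) → some q = m1 ∨ some q = m2 :=
    fun q hq => hq.imp (hm1 q) (hm2 q)
  have hRr : Rr A (Tset f) (Tset g) := by
    refine hRC A (Tset f) g {m | ∃ q, m = some q ∧ (Big f (span F {e}) χ q ∨ χ q u ≠ 0)} hA hB'
      hED hT ?_ (Or.inl ⟨m1, m2, ?_⟩)
    · intro m hm
      rcases m with _ | q
      · exact ⟨A, hA, rr_left _ _, hg0 ▸ hsA⟩
      · exact ⟨Tset f, hB', rr_right _ _, hold q fun h => hm ⟨q, rfl, h⟩⟩
    · rintro m ⟨q, rfl, hq⟩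
      exact hN q hq
  obtain ⟨q, hq⟩ : ∃ q, ¬ (Big f (span F {e}) χ q ∨ χ q u ≠ 0) := by
    by_contra hall
    push Not at hall
    have hr : 3 ≤ r := by omega
    have e0 := hN ⟨0, by omega⟩ (hall _)
    have e1 := hN ⟨1, by omega⟩ (hall _)
    have e2 := hN ⟨2, by omega⟩ (hall _)
    rcases e0 with e0 | e0 <;> rcases e1 with e1 | e1 <;> rcases e2 with e2 | e2
    all_goals first
      | (have h := e0.trans e1.symm; simp at h)
      | (have h := e0.trans e2.symm; simp at h)
      | (have h := e1.trans e2.symm; simp at h)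
  exact ⟨Tset g, ⟨isFrame_basis g, hRr⟩, ⟨σ, hsA, hg0 ▸ isStar_coord g none⟩,
    ⟨_, isStar_coord g (some q), hold q hq⟩⟩

theorem s_mix (hRC : S_RC) : S_MIX := by
  intro V _ _ ι κ _ _ _ _ a f A0 B0 hcard hB0 hA0 hw hker
  have hfin : Module.Finite F V := Module.Finite.of_basis a
  let φ : ↥(A0ᶜ) ⊕ ↥B0 → V →ₗ[F] F := Sum.elim (fun i => a.coord i) fun l => f.coord l
  obtain ⟨g, hg⟩ := exists_basis_of_coords φ (fun w h => hker w
    (fun i hi => h (Sum.inl ⟨i, Finset.mem_compl.2 hi⟩)) fun l hl => h (Sum.inr ⟨l, hl⟩)) (by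
      rw [Fintype.card_sum, Fintype.card_coe, Fintype.card_coe, finrank_eq_card_basis a, ← hcard,
        Finset.card_compl_add_card])
  have wt : ∀ e ∈ EE a f, (Finset.univ.filter fun m => g.repr e m ≠ 0).card ≤
      (Finset.univ.filter fun i => a.repr e i ≠ 0).card := by
    intro e he
    have h1 := hw e he
    simp only [Finset.card_filter] at h1 ⊢
    rw [Fintype.sum_sum_type, ← Finset.sum_compl_add_sum A0]
    simp only [hg, φ, Sum.elim_inl, Sum.elim_inr, Basis.coord_apply]
    rw [Finset.sum_coe_sort A0ᶜ fun i => if a.repr e i ≠ 0 then 1 else 0,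
      Finset.sum_coe_sort B0 fun l => if f.repr e l ≠ 0 then 1 else 0]
    omega
  have hl : ∀ i, g.coord (Sum.inl i) = a.coord i := fun i => coord_eq_of_repr fun x => hg _ x
  have hr : ∀ l, g.coord (Sum.inr l) = f.coord l := fun l => coord_eq_of_repr fun x => hg _ x
  obtain ⟨l0, hl0⟩ := hB0
  obtain ⟨i0, hi0⟩ : ∃ i, i ∉ A0 := by
    by_contra h
    push Not at h
    exact hA0 (Finset.eq_univ_of_forall h)
  have hRr : Rr (Tset a) (Tset f) (Tset g) := by
    refine hRC _ _ g ∅ (isFrame_basis a) (isFrame_basis f) ?_ ?_ ?_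
      (Or.inl ⟨Sum.inr ⟨l0, hl0⟩, Sum.inr ⟨l0, hl0⟩, fun m hm => absurd hm (Set.notMem_empty m)⟩)
    · intro e he
      rw [mem_Dset_iff_card]
      exact (wt e he).trans ((mem_Dset_iff_card a).1 he.1)
    · intro e he
      rw [mem_Tset_iff_card]
      exact (wt e ⟨Tset_subset_Dset _ he.1, Tset_subset_Dset _ he.2⟩).trans
        ((mem_Tset_iff_card a).1 he.1)
    · rintro (i | l) -
      · exact ⟨_, isFrame_basis a, rr_left _ _, hl i ▸ isStar_coord a i⟩
      · exact ⟨_, isFrame_basis f, rr_right _ _, hr l ▸ isStar_coord f l⟩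
  exact ⟨Tset g, ⟨isFrame_basis g, hRr⟩,
    ⟨_, isStar_coord a i0, hl ⟨i0, Finset.mem_compl.2 hi0⟩ ▸ isStar_coord g _⟩,
    ⟨_, hr ⟨l0, hl0⟩ ▸ isStar_coord g _, isStar_coord f l0⟩⟩

end Pool.Agent.P.MP_053557_co
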