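import Pool.Agent.P.MP_053557_co.Basic2

/-! The two sporadic cores. -/

namespace Pool.Agent.P.MP_053557_co

open Module Submodule

namespace Cores

variable {V : Type} [AddCommGroup V] [Module F V]

/-- Normalisation of a pair of bases with full supports. -/
theorem reduce {ι κ : Type} [Fintype ι] [Fintype κ] (n : ℕ) (a : Basis ι F V) (f : Basis κ F V)
    (hn : Fintype.card ι = n + 1) (h1 : ∀ i l, f.repr (a i) l ≠ 0)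
    (h2 : ∀ i l, a.repr (f l) i ≠ 0) (h3 : ∀ x ∈ Gm a, ∀ y ∈ Gm a, Even (Df f x y).card) :
    ∃ a' f' : Basis (Fin (n + 1)) F V, Tset a = Tset a' ∧ Tset f = Tset f' ∧
      (∀ i l, f'.repr (a' i) l ≠ 0) ∧ (∀ i l, a'.repr (f' l) i ≠ 0) ∧
      (∀ i, Even (Finset.univ.filter fun l => (1 : F) ≠ f'.repr (a' i) l).card) ∧
      (∀ l, f'.repr (a' 0) l = 1) ∧ ∀ i, f'.repr (a' i) 0 = 1 := by
  classical
  let e1 : ι ≃ Fin (n + 1) := Fintype.equivFinOfCardEq hn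
  let e2 : κ ≃ Fin (n + 1) := Fintype.equivFinOfCardEq ((card_eq_card a f).trans hn)
  let a1 := a.reindex e1
  let f1 := f.reindex e2
  have ha1 : ∀ i, a1 i = a (e1.symm i) := fun i => by simp [a1]
  have hf1 : ∀ l, f1 l = f (e2.symm l) := fun l => by simp [f1]
  have ra1 : ∀ x i, a1.repr x i = a.repr x (e1.symm i) := fun x i => by simp [a1]
  have rf1 : ∀ x l, f1.repr x l = f.repr x (e2.symm l) := fun x l => by simp [f1]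
  have k1 : ∀ i l, f1.repr (a1 i) l ≠ 0 := fun i l => by rw [rf1, ha1]; exact h1 _ _
  have k2 : ∀ i l, a1.repr (f1 l) i ≠ 0 := fun i l => by rw [ra1, hf1]; exact h2 _ _
  obtain ⟨f2, hf2, rf2, tf2⟩ := resign f1 (fun l => f1.repr (a1 0) l) (k1 0)
  have k3 : ∀ i l, f2.repr (a1 i) l ≠ 0 := fun i l => by
    rw [rf2]; exact mul_ne_zero (k1 0 l) (k1 i l)
  obtain ⟨a2, ha2, ra2, ta2⟩ := resign a1 (fun i => f2.repr (a1 i) 0) fun i => k3 i 0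
  have t1 : Tset a = Tset a2 := by
    rw [ta2, Basis.coe_reindex, Tset_comp_equiv]
  have t2 : Tset f = Tset f2 := by
    rw [tf2, Basis.coe_reindex, Tset_comp_equiv]
  have c0 : ∀ l, f2.repr (a1 0) l = 1 := fun l => by rw [rf2]; exact F_sq (k1 0 l)
  have c1 : ∀ l, f2.repr (a2 0) l = 1 := fun l => by
    rw [ha2, map_smul, Finsupp.smul_apply, c0, c0, smul_eq_mul, mul_one]
  refine ⟨a2, f2, t1, t2, fun i l => ?_, fun i l => ?_, fun i => ?_, c1, fun i => ?_⟩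
  · rw [ha2, map_smul, Finsupp.smul_apply, smul_eq_mul]
    exact mul_ne_zero (k3 i 0) (k3 i l)
  · rw [ra2, hf2, map_smul, Finsupp.smul_apply, smul_eq_mul]
    exact mul_ne_zero (k3 i 0) (mul_ne_zero (k1 0 l) (k2 i l))
  · have g : ∀ j, a2 j ∈ Gm a := fun j => ⟨t1 ▸ self_mem_Tset a2 j, a2.ne_zero j⟩
    have h4 := h3 _ (g 0) _ (g i)
    have h5 : (Finset.univ.filter fun l => (1 : F) ≠ f2.repr (a2 i) l).card =
        (Df f (a2 0) (a2 i)).card := by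
      refine Finset.card_equiv e2.symm fun l => ?_
      rw [mem_Df, Finset.mem_filter, ← c1 l, rf2, rf2 (a2 i), ← rf1, ← rf1]
      simp [k1 0 l]
    rwa [h5]
  · rw [ha2, map_smul, Finsupp.smul_apply, smul_eq_mul]
    exact F_sq (k3 i 0)

/-- Reindexing and changing signs. -/
theorem finish {n : ℕ} (a f : Basis (Fin n) F V) (T : Fin n → Fin n → F) (σ τ : Fin n → Fin n)
    (hσ : Function.Injective σ) (hτ : Function.Injective τ) (ε δ : Fin n → F)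
    (hε : ∀ i, ε i ≠ 0) (hδ : ∀ l, δ l ≠ 0)
    (h : ∀ l i, δ l * ε i * f.repr (a (σ i)) (τ l) = T l i) :
    ∃ a' f' : Basis (Fin n) F V, Tset a = Tset a' ∧ Tset f = Tset f' ∧
      ∀ l i, f'.repr (a' i) l = T l i := by
  let e1 : Fin n ≃ Fin n := Equiv.ofBijective σ (Finite.injective_iff_bijective.1 hσ)
  let e2 : Fin n ≃ Fin n := Equiv.ofBijective τ (Finite.injective_iff_bijective.1 hτ)
  obtain ⟨a2, ha2, -, ta2⟩ := resign (a.reindex e1.symm) ε hε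
  obtain ⟨f2, -, rf2, tf2⟩ := resign (f.reindex e2.symm) δ hδ
  refine ⟨a2, f2, ?_, ?_, fun l i => ?_⟩
  · rw [ta2, Basis.coe_reindex, Tset_comp_equiv]
  · rw [tf2, Basis.coe_reindex, Tset_comp_equiv]
  · rw [rf2, ha2, map_smul, Finsupp.smul_apply, smul_eq_mul, ← h l i, mul_assoc]
    simp [e1, e2]

theorem col4 : ∀ c : Fin 4 → F, (∀ l, c l ≠ 0) → c 0 = 1 →
    Even (Finset.univ.filter fun l => (1 : F) ≠ c l).card → ∃ p : Fin 4, ∀ l, c l = had4 l p := by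
  decide +kernel

/-- The sign vector of a mask. -/
def sv (s : ℕ) (l : Fin 6) : F := if s.testBit l then -1 else 1

/-- The coordinate sum of a sign vector. -/
def d3 (x : ℕ) : ℕ := (55269814833808654667588814421831002516 >>> (2 * x)) % 4

/-- The nonzero even masks. -/
def ev : List ℕ := [6, 10, 12, 18, 20, 24, 30, 34, 36, 40, 46, 48, 54, 58, 60]

/-- Certificates: five masks, two permutations, two sign masks. -/
def certs : List (List ℕ) := [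
  [6, 10, 20, 40, 48, 0, 5, 4, 2, 1, 3, 0, 1, 2, 4, 5, 3, 0, 0],
  [6, 10, 20, 46, 54, 1, 4, 5, 3, 0, 2, 0, 1, 2, 3, 5, 4, 0, 6],
  [6, 10, 24, 36, 48, 0, 5, 3, 2, 1, 4, 0, 1, 2, 5, 4, 3, 0, 0],
  [6, 10, 24, 46, 58, 2, 4, 5, 3, 0, 1, 0, 1, 3, 2, 5, 4, 0, 6],
  [6, 10, 30, 36, 54, 1, 3, 5, 4, 0, 2, 0, 1, 2, 3, 4, 5, 0, 6],
  [6, 10, 30, 40, 58, 2, 3, 5, 4, 0, 1, 0, 1, 3, 2, 4, 5, 0, 6],
  [6, 12, 18, 40, 48, 0, 4, 5, 3, 1, 2, 0, 1, 2, 3, 5, 4, 0, 0],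
  [6, 12, 18, 46, 54, 1, 5, 4, 2, 0, 3, 0, 1, 2, 4, 5, 3, 0, 6],
  [6, 12, 24, 34, 48, 0, 3, 5, 4, 1, 2, 0, 1, 2, 3, 4, 5, 0, 0],
  [6, 12, 24, 46, 60, 2, 3, 5, 4, 1, 0, 0, 1, 3, 2, 4, 5, 0, 12],
  [6, 12, 30, 34, 54, 1, 5, 3, 2, 0, 4, 0, 1, 2, 5, 4, 3, 0, 6],
  [6, 12, 30, 40, 60, 2, 4, 5, 3, 1, 0, 0, 1, 3, 2, 5, 4, 0, 12],
  [6, 18, 24, 36, 40, 0, 5, 3, 2, 1, 4, 0, 1, 2, 5, 3, 4, 0, 0],
  [6, 18, 24, 54, 58, 2, 4, 1, 0, 3, 5, 0, 1, 3, 5, 2, 4, 0, 34],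
  [6, 18, 30, 36, 46, 1, 3, 5, 4, 0, 2, 0, 1, 2, 4, 3, 5, 0, 6],
  [6, 18, 30, 48, 58, 2, 3, 5, 4, 0, 1, 0, 1, 4, 2, 3, 5, 0, 6],
  [6, 20, 24, 34, 40, 0, 3, 5, 4, 1, 2, 0, 1, 2, 4, 3, 5, 0, 0],
  [6, 20, 24, 54, 60, 2, 3, 5, 4, 1, 0, 0, 1, 4, 2, 3, 5, 0, 12],
  [6, 20, 30, 34, 46, 1, 5, 3, 2, 0, 4, 0, 1, 2, 5, 3, 4, 0, 6],
  [6, 20, 30, 48, 60, 2, 4, 0, 1, 3, 5, 0, 1, 3, 5, 2, 4, 0, 48],
  [6, 34, 40, 54, 58, 2, 4, 1, 0, 3, 5, 0, 1, 3, 4, 2, 5, 0, 34],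
  [6, 34, 46, 48, 58, 2, 3, 1, 0, 4, 5, 0, 1, 4, 3, 2, 5, 0, 34],
  [6, 36, 40, 54, 60, 2, 3, 0, 1, 4, 5, 0, 1, 4, 3, 2, 5, 0, 48],
  [6, 36, 46, 48, 60, 2, 4, 0, 1, 3, 5, 0, 1, 3, 4, 2, 5, 0, 48],
  [10, 12, 18, 36, 48, 0, 4, 5, 3, 1, 2, 0, 1, 3, 2, 5, 4, 0, 0],
  [10, 12, 18, 46, 58, 1, 5, 3, 0, 2, 4, 0, 1, 2, 5, 4, 3, 0, 34],
  [10, 12, 20, 34, 48, 0, 3, 5, 4, 1, 2, 0, 1, 3, 2, 4, 5, 0, 0],
  [10, 12, 20, 46, 60, 2, 3, 5, 4, 1, 0, 0, 1, 2, 3, 4, 5, 0, 12],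
  [10, 12, 30, 34, 58, 1, 5, 4, 0, 2, 3, 0, 1, 2, 4, 5, 3, 0, 34],
  [10, 12, 30, 36, 60, 2, 4, 5, 3, 1, 0, 0, 1, 2, 3, 5, 4, 0, 12],
  [10, 18, 20, 36, 40, 0, 4, 3, 2, 1, 5, 0, 1, 3, 5, 2, 4, 0, 0],
  [10, 18, 20, 54, 58, 2, 5, 1, 0, 3, 4, 0, 1, 2, 5, 3, 4, 0, 34],
  [10, 18, 30, 40, 46, 1, 3, 5, 4, 0, 2, 0, 1, 3, 4, 2, 5, 0, 6],
  [10, 18, 30, 48, 54, 2, 3, 5, 4, 0, 1, 0, 1, 4, 3, 2, 5, 0, 6],
  [10, 20, 24, 34, 36, 0, 2, 5, 4, 1, 3, 0, 1, 3, 4, 2, 5, 0, 0],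
  [10, 20, 24, 58, 60, 3, 2, 5, 4, 1, 0, 0, 1, 4, 3, 2, 5, 0, 12],
  [10, 24, 30, 34, 46, 1, 5, 3, 2, 0, 4, 0, 1, 3, 5, 2, 4, 0, 6],
  [10, 24, 30, 48, 60, 2, 4, 0, 1, 3, 5, 0, 1, 2, 5, 3, 4, 0, 48],
  [10, 34, 36, 54, 58, 2, 5, 1, 0, 3, 4, 0, 1, 2, 4, 3, 5, 0, 34],
  [10, 34, 46, 48, 54, 2, 3, 1, 0, 4, 5, 0, 1, 4, 2, 3, 5, 0, 34],
  [10, 36, 40, 58, 60, 3, 2, 0, 1, 4, 5, 0, 1, 4, 2, 3, 5, 0, 48],
  [10, 40, 46, 48, 60, 2, 4, 0, 1, 3, 5, 0, 1, 2, 4, 3, 5, 0, 48],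
  [12, 18, 20, 34, 40, 0, 1, 5, 4, 2, 3, 0, 1, 4, 2, 3, 5, 0, 0],
  [12, 18, 20, 54, 60, 3, 1, 5, 4, 2, 0, 0, 1, 2, 4, 3, 5, 0, 12],
  [12, 18, 24, 34, 36, 0, 1, 5, 4, 2, 3, 0, 1, 4, 3, 2, 5, 0, 0],
  [12, 18, 24, 58, 60, 3, 1, 5, 4, 2, 0, 0, 1, 3, 4, 2, 5, 0, 12],
  [12, 20, 30, 40, 46, 1, 0, 4, 5, 3, 2, 0, 1, 4, 3, 2, 5, 0, 24],
  [12, 20, 30, 48, 54, 2, 0, 4, 5, 3, 1, 0, 1, 3, 4, 2, 5, 0, 24],
  [12, 24, 30, 36, 46, 1, 0, 4, 5, 3, 2, 0, 1, 4, 2, 3, 5, 0, 24],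
  [12, 24, 30, 48, 58, 2, 0, 4, 5, 3, 1, 0, 1, 2, 4, 3, 5, 0, 24],
  [12, 34, 36, 54, 60, 3, 1, 5, 4, 2, 0, 0, 1, 2, 5, 3, 4, 0, 12],
  [12, 34, 40, 58, 60, 3, 1, 5, 4, 2, 0, 0, 1, 3, 5, 2, 4, 0, 12],
  [12, 36, 46, 48, 54, 2, 0, 4, 5, 3, 1, 0, 1, 3, 5, 2, 4, 0, 24],
  [12, 40, 46, 48, 58, 2, 0, 4, 5, 3, 1, 0, 1, 2, 5, 3, 4, 0, 24],
  [18, 20, 30, 34, 58, 1, 5, 4, 0, 2, 3, 0, 1, 2, 3, 5, 4, 0, 34],
  [18, 20, 30, 36, 60, 2, 4, 5, 3, 1, 0, 0, 1, 2, 4, 5, 3, 0, 12],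
  [18, 24, 30, 34, 54, 1, 5, 4, 0, 2, 3, 0, 1, 3, 2, 5, 4, 0, 34],
  [18, 24, 30, 40, 60, 2, 4, 0, 1, 3, 5, 0, 1, 2, 5, 4, 3, 0, 48],
  [18, 34, 36, 46, 58, 2, 5, 1, 0, 3, 4, 0, 1, 2, 3, 4, 5, 0, 34],
  [18, 34, 40, 46, 54, 2, 5, 1, 0, 3, 4, 0, 1, 3, 2, 4, 5, 0, 34],
  [18, 36, 48, 58, 60, 3, 2, 0, 1, 4, 5, 0, 1, 3, 2, 4, 5, 0, 48],
  [18, 40, 48, 54, 60, 3, 2, 0, 1, 4, 5, 0, 1, 2, 3, 4, 5, 0, 48],
  [20, 24, 30, 36, 54, 1, 0, 4, 5, 3, 2, 0, 1, 3, 2, 4, 5, 0, 24],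
  [20, 24, 30, 40, 58, 2, 0, 4, 5, 3, 1, 0, 1, 2, 3, 4, 5, 0, 24],
  [20, 34, 36, 46, 60, 3, 1, 5, 4, 2, 0, 0, 1, 2, 5, 4, 3, 0, 12],
  [20, 34, 48, 58, 60, 3, 1, 0, 2, 4, 5, 0, 1, 3, 2, 5, 4, 0, 48],
  [20, 36, 40, 46, 54, 2, 0, 1, 5, 4, 3, 0, 1, 3, 2, 5, 4, 0, 24],
  [20, 40, 48, 54, 58, 3, 0, 2, 5, 4, 1, 0, 1, 2, 5, 4, 3, 0, 24],
  [24, 34, 40, 46, 60, 3, 1, 0, 2, 4, 5, 0, 1, 2, 4, 5, 3, 0, 48],
  [24, 34, 48, 54, 60, 3, 1, 0, 2, 4, 5, 0, 1, 2, 3, 5, 4, 0, 48],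
  [24, 36, 40, 46, 58, 3, 0, 1, 5, 4, 2, 0, 1, 2, 3, 5, 4, 0, 24],
  [24, 36, 48, 54, 58, 3, 0, 1, 5, 4, 2, 0, 1, 2, 4, 5, 3, 0, 24]]

def rowOk (q1 q2 q3 q4 q5 t0 t1 t2 t3 t4 t5 : ℕ) : Bool :=
  (List.range 64).any fun s => Nat.beq (d3 s) t0 && (Nat.beq (d3 (s ^^^ q1)) t1 &&
    (Nat.beq (d3 (s ^^^ q2)) t2 && (Nat.beq (d3 (s ^^^ q3)) t3 &&
      (Nat.beq (d3 (s ^^^ q4)) t4 && Nat.beq (d3 (s ^^^ q5)) t5))))

def allOk (q1 q2 q3 q4 q5 : ℕ) : Bool :=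
  rowOk q1 q2 q3 q4 q5 1 0 0 0 0 0 && (rowOk q1 q2 q3 q4 q5 0 1 0 0 0 0 &&
    (rowOk q1 q2 q3 q4 q5 0 0 1 0 0 0 && (rowOk q1 q2 q3 q4 q5 0 0 0 1 0 0 &&
      (rowOk q1 q2 q3 q4 q5 0 0 0 0 1 0 && rowOk q1 q2 q3 q4 q5 0 0 0 0 0 1))))

def chk : Bool :=
  ev.all fun q1 => ev.all fun q2 => !(decide (q1 < q2)) || ev.all fun q3 =>
    !(decide (q2 < q3)) || ev.all fun q4 => !(decide (q3 < q4)) || ev.all fun q5 =>
      !(decide (q4 < q5)) || !(allOk q1 q2 q3 q4 q5) ||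
        certs.any fun c => c.take 5 == [q1, q2, q3, q4, q5]

theorem chk_true : chk = true := by decide +kernel

/-- A permutation read from a certificate. -/
def perm (c : List ℕ) (k : ℕ) (i : Fin 6) : Fin 6 := Fin.ofNat 6 (c.getD (k + i) 0)

theorem certs_ok : ∀ c ∈ certs, Function.Injective (perm c 5) ∧ Function.Injective (perm c 11) ∧
    ∀ l i, sv (c.getD 18 0) l * sv (c.getD 17 0) i *
      sv ((0 :: c.take 5).getD (perm c 5 i) 0) (perm c 11 l) = conf6 l i := by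
  decide +kernel

theorem sv_ne (s : ℕ) (l : Fin 6) : sv s l ≠ 0 := by
  unfold sv
  split_ifs <;> decide

theorem sv_mul (s m : ℕ) (l : Fin 6) : sv s l * sv m l = sv (s ^^^ m) l := by
  unfold sv
  rw [Nat.testBit_xor]
  cases s.testBit l <;> cases m.testBit l <;> decide

theorem sum_sv : ∀ x < 64, ∀ b : Bool, ∑ l, sv x l = (if b then 1 else 0) →
    d3 x = if b then 1 else 0 := by
  decide +kernel

theorem exists_sv : ∀ w : Fin 6 → F, (∀ l, w l ≠ 0) → ∃ s < 64, ∀ l, w l = sv s l := by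
  decide +kernel

theorem mem_ev : ∀ s < 64, sv s 0 = 1 →
    Even (Finset.univ.filter fun l => (1 : F) ≠ sv s l).card → s = 0 ∨ s ∈ ev := by
  decide +kernel

theorem eq_zero_of_ones : ∀ s < 64, (∀ l, sv s l = 1) → s = 0 := by decide +kernel

theorem main6 (q : Fin 6 → ℕ) (hq : StrictMono q) (h0 : q 0 = 0) (h64 : ∀ i, q i < 64)
    (hev : ∀ i, q i = 0 ∨ q i ∈ ev)
    (hrow : ∀ i, ∃ s < 64, ∀ j, ∑ l, sv s l * sv (q j) l = if i = j then 1 else 0) :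
    ∃ σ τ : Fin 6 → Fin 6, Function.Injective σ ∧ Function.Injective τ ∧ ∃ e d : ℕ,
      ∀ l i, sv d l * sv e i * sv (q (σ i)) (τ l) = conf6 l i := by
  have hL : ∀ j : Fin 6, [0, q 1, q 2, q 3, q 4, q 5].getD j 0 = q j := fun j => by
    fin_cases j <;> simp [h0]
  have hm : ∀ i, i ≠ 0 → q i ∈ ev := fun i hi =>
    (hev i).resolve_left fun h => hi (hq.injective (h.trans h0.symm))
  have hone : ∀ i : Fin 6, rowOk (q 1) (q 2) (q 3) (q 4) (q 5) (if i = 0 then 1 else 0)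
      (if i = 1 then 1 else 0) (if i = 2 then 1 else 0) (if i = 3 then 1 else 0)
      (if i = 4 then 1 else 0) (if i = 5 then 1 else 0) = true := by
    intro i
    obtain ⟨s, hs, h⟩ := hrow i
    have h1 : ∀ j, d3 (s ^^^ q j) = if i = j then 1 else 0 := fun j => by
      have h2 := h j
      simp only [sv_mul] at h2
      simpa using sum_sv _ (Nat.xor_lt_two_pow (n := 6) hs (h64 j)) (decide (i = j))
        (by simpa using h2)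
    have h3 := h1 0
    rw [h0, Nat.xor_zero] at h3
    unfold rowOk
    rw [List.any_eq_true]
    refine ⟨s, List.mem_range.2 hs, ?_⟩
    simp only [h3, h1, Nat.beq_refl, Bool.and_self]
  have hall : allOk (q 1) (q 2) (q 3) (q 4) (q 5) = true := by
    unfold allOk
    simp only [Bool.and_eq_true]
    exact ⟨hone 0, hone 1, hone 2, hone 3, hone 4, hone 5⟩
  have hc := chk_true
  unfold chk at hc
  have c1 := List.all_eq_true.1 hc _ (hm 1 (by decide))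
  have c2 := List.all_eq_true.1 c1 _ (hm 2 (by decide))
  rw [decide_eq_true (hq (by decide : (1 : Fin 6) < 2)), Bool.not_true, Bool.false_or] at c2
  have c3 := List.all_eq_true.1 c2 _ (hm 3 (by decide))
  rw [decide_eq_true (hq (by decide : (2 : Fin 6) < 3)), Bool.not_true, Bool.false_or] at c3
  have c4 := List.all_eq_true.1 c3 _ (hm 4 (by decide))
  rw [decide_eq_true (hq (by decide : (3 : Fin 6) < 4)), Bool.not_true, Bool.false_or] at c4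
  have c5 := List.all_eq_true.1 c4 _ (hm 5 (by decide))
  rw [decide_eq_true (hq (by decide : (4 : Fin 6) < 5)), Bool.not_true, Bool.false_or, hall,
    Bool.not_true, Bool.false_or, List.any_eq_true] at c5
  obtain ⟨c, hcm, hce⟩ := c5
  rw [beq_iff_eq] at hce
  obtain ⟨i1, i2, i3⟩ := certs_ok c hcm
  refine ⟨_, _, i1, i2, c.getD 17 0, c.getD 18 0, fun l i => ?_⟩
  rw [← i3 l i, hce, hL]

end Cores

theorem s_h4 : S_H4 := by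
  intro V _ _ ι κ _ _ _ _ a f hn h1 h2 h3
  obtain ⟨a1, f1, t1, t2, k1, -, k3, -, k5⟩ := Cores.reduce 3 a f hn h1 h2 h3
  choose p hp using fun i => Cores.col4 (fun l => f1.repr (a1 i) l) (k1 i) (k5 i) (k3 i)
  have hinj : Function.Injective p := fun i j hij =>
    a1.injective (eq_of_repr f1 fun l => by rw [hp i l, hp j l, hij])
  let e : Fin 4 ≃ Fin 4 := Equiv.ofBijective p (Finite.injective_iff_bijective.1 hinj)
  obtain ⟨a2, f2, u1, u2, u3⟩ := Cores.finish a1 f1 had4 e.symm id e.symm.injective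
    Function.injective_id (fun _ => 1) (fun _ => 1) (fun _ => one_ne_zero) (fun _ => one_ne_zero)
    fun l i => by
      rw [one_mul, one_mul, id, hp]
      exact congrArg (had4 l) (e.apply_symm_apply i)
  exact Or.inl ⟨a2, f2, t1.trans u1, t2.trans u2, u3⟩

theorem s_k6 : S_K6 := by
  intro V _ _ ι κ _ _ _ _ a f hn h1 h2 h3
  obtain ⟨a1, f1, t1, t2, k1, k2, k3, k4, k5⟩ := Cores.reduce 5 a f hn h1 h2 h3
  choose p hp64 hp using fun i => Cores.exists_sv (fun l => f1.repr (a1 i) l) (k1 i)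
  choose w hw64 hw using fun i => Cores.exists_sv (fun l => a1.repr (f1 l) i) (k2 i)
  have hinj : Function.Injective p := fun i j hij =>
    a1.injective (eq_of_repr f1 fun l => by rw [hp i l, hp j l, hij])
  have hp0 : p 0 = 0 := Cores.eq_zero_of_ones _ (hp64 0) fun l => by rw [← hp 0 l]; exact k4 l
  let e := Tuple.sort p
  have hmono : StrictMono (p ∘ e) :=
    (Tuple.monotone_sort p).strictMono_of_injective (hinj.comp e.injective)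
  have hq0 : (p ∘ e) 0 = 0 := by
    have h4 := hmono.monotone (Fin.zero_le (e.symm 0))
    simpa [hp0] using h4
  obtain ⟨σ, τ, hσ, hτ, c, d, h⟩ := Cores.main6 (p ∘ e) hmono hq0 (fun i => hp64 _)
    (fun i => Cores.mem_ev _ (hp64 _) ((hp (e i) 0).symm.trans (k5 _)) (by
      have h5 := k3 (e i)
      simp only [hp (e i)] at h5
      exact h5))
    (fun i => ⟨w (e i), hw64 _, fun j => by
      have h5 := map_eq_sum f1 (a1.coord (e i)) (a1 (e j))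
      simp only [Basis.coord_apply, repr_basis, hp, hw, e.injective.eq_iff] at h5
      rw [if_congr eq_comm rfl rfl, h5]
      exact Finset.sum_congr rfl fun l _ => mul_comm _ _⟩)
  obtain ⟨a2, f2, u1, u2, u3⟩ := Cores.finish a1 f1 conf6 (e ∘ σ) τ (e.injective.comp hσ) hτ
    (Cores.sv c) (Cores.sv d) (Cores.sv_ne c) (Cores.sv_ne d) fun l i => by
      rw [hp]
      exact h l i
  exact Or.inr ⟨a2, f2, t1.trans u1, t2.trans u2, u3⟩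

end Pool.Agent.P.MP_053557_co
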