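import Pool.Agent.P.MP_053557_co.Basic2

/-!
The cube case: half period four and a joint of type one.
-/

namespace Pool.Agent.P.MP_053557_co

open Module Submodule

namespace Cube

variable {V : Type} [AddCommGroup V] [Module F V] {ι κ : Type}

/-- Flip two entries. -/
def fl (i j : Fin 8) (v : Fin 8 → F) : Fin 8 → F := fun l => if l = i ∨ l = j then -v l else v l

def z0 : Fin 8 → F := fun _ => 1
def z1 : Fin 8 → F := fl 0 1 z0
def z2 : Fin 8 → F := fl 2 3 z1
def z3 : Fin 8 → F := fl 4 5 z2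

/-- The sign matrix of the cube configuration. -/
def Z (h : Fin 8) : Fin 8 → Fin 8 → F :=
  ![z0, z1, z2, z3, fl 2 h z0, fl 4 7 z1, fl 6 1 z2, fl 0 3 z3]

def A0 : Finset (Fin 8) := {0, 1, 6, 7}
def B0 : Finset (Fin 8) := {0, 1, 2, 7}

theorem z_dist : ∀ h : Fin 8, h = 4 ∨ h = 5 → ∀ k k' : Fin 8, k ≠ k' →
    (∃ l, Z h k l ≠ Z h k' l) ∧ ∃ l, Z h k l ≠ -Z h k' l := by decide +kernel

theorem z_edge : ∀ h : Fin 8, h = 4 ∨ h = 5 → ∀ k k' : Fin 8, ∀ c c' : F,
    (Finset.univ.filter fun l => c * Z h k l - c' * Z h k' l ≠ 0).card ≤ 2 →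
    (B0.filter fun l => c * Z h k l - c' * Z h k' l ≠ 0).card ≤
      (A0.filter fun i => c * (if k = i then 1 else 0) - c' * (if k' = i then 1 else 0) ≠
        (0 : F)).card := by decide +kernel

theorem z_inv : ∀ h : Fin 8, h = 4 ∨ h = 5 → ∀ p q r s : F,
    (∀ l ∈ B0, p * Z h 0 l + q * Z h 1 l + r * Z h 6 l + s * Z h 7 l = 0) →
    p = 0 ∧ q = 0 ∧ r = 0 ∧ s = 0 := by decide +kernel

/-- Eight joints that are distinct up to sign form a resigned and reindexed basis. -/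
theorem exists_basis [Fintype ι] (a : Basis ι F V) (hc : Fintype.card ι = 8) (u : Fin 8 → V)
    (hu : ∀ k, u k ∈ Gm a) (hne : ∀ k k', k ≠ k' → u k ≠ u k' ∧ u k ≠ -u k') :
    ∃ b : Basis (Fin 8) F V, (∀ k, b k = u k) ∧ Tset b = Tset a := by
  have h1 : ∀ k, ∃ i, ∃ c : F, c ≠ 0 ∧ u k = c • a i := fun k => by
    rcases mem_Tset_iff_smul.1 (hu k).1 with h | h
    · exact absurd h (hu k).2
    · exact h
  choose idx ε hε hi using h1
  have hinj : Function.Injective idx := by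
    intro k k' h
    by_contra hk
    have h2 := hne k k' hk
    rw [hi k, hi k', h] at h2
    rcases F_ne_cases (hε k) with h3 | h3 <;> rcases F_ne_cases (hε k') with h4 | h4 <;>
      simp [h3, h4] at h2
  have hb : Function.Bijective idx :=
    (Fintype.bijective_iff_injective_and_card idx).2 ⟨hinj, by simp [hc]⟩
  let e : Fin 8 ≃ ι := Equiv.ofBijective idx hb
  obtain ⟨b, h2, -, h3⟩ := resign (a.reindex e.symm) ε hε
  refine ⟨b, fun k => ?_, ?_⟩
  · rw [h2, hi k]; simp [e]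
  · rw [h3, Basis.coe_reindex, Equiv.symm_symm, Tset_comp_equiv]

/-- The final mixing step. -/
theorem fin_mix (hmix : S_MIX) [Fintype ι] (a : Basis ι F V) (hc : Fintype.card ι = 8)
    (g : Basis (Fin 8) F V) (u : Fin 8 → V) (hu : ∀ k, u k ∈ Gm a) (h : Fin 8)
    (hh : h = 4 ∨ h = 5) (hZ : ∀ k l, g.repr (u k) l = Z h k l) : Succ (Tset a) (Tset g) := by
  obtain ⟨b, hb, hT⟩ := exists_basis a hc u hu fun k k' hk => by
    obtain ⟨⟨l, h1⟩, l', h2⟩ := z_dist h hh k k' hk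
    refine ⟨fun hc => h1 ?_, fun hc => h2 ?_⟩
    · rw [← hZ, ← hZ, hc]
    · rw [← hZ, ← hZ, hc]; simp
  rw [← hT]
  have hT' : ∀ y ∈ Tset b, ∃ k, ∃ c : F, y = c • b k := fun y hy => by
    rcases mem_Tset_iff_smul.1 hy with rfl | ⟨k, c, -, rfl⟩
    · exact ⟨0, 0, by simp⟩
    · exact ⟨k, c, rfl⟩
  refine hmix b g A0 B0 (by decide) (by decide) (by decide) ?_ ?_
  · rintro e ⟨⟨y, hy, z, hz, rfl⟩, he⟩
    obtain ⟨k, c, rfl⟩ := hT' y hy
    obtain ⟨k', c', rfl⟩ := hT' z hz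
    have h1 : ∀ l, g.repr (c • b k - c' • b k') l = c * Z h k l - c' * Z h k' l := fun l => by
      simp [hb, hZ]
    have h2 : ∀ i, b.repr (c • b k - c' • b k') i =
        c * (if k = i then 1 else 0) - c' * (if k' = i then 1 else 0) := fun i => by
      simp only [map_sub, map_smul, Finsupp.sub_apply, Finsupp.smul_apply, smul_eq_mul,
        repr_basis]
    rw [mem_Dset_iff_card] at he
    simp only [h1] at he
    simp only [h1, h2]
    exact z_edge h hh k k' c c' he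
  · intro w h1 h2
    have h3 : ∀ l, g.repr w l = b.repr w 0 * Z h 0 l + b.repr w 1 * Z h 1 l +
        b.repr w 6 * Z h 6 l + b.repr w 7 * Z h 7 l := fun l => by
      have := map_eq_sum b (g.coord l) w
      simp only [Basis.coord_apply, hb, hZ, Fin.sum_univ_eight] at this
      rw [this, h1 2 (by decide), h1 3 (by decide), h1 4 (by decide), h1 5 (by decide)]
      ring
    obtain ⟨p0, p1, p6, p7⟩ := z_inv h hh _ _ _ _ fun l hl => by rw [← h3]; exact h2 l hl
    refine eq_of_repr b fun i => ?_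
    by_cases hi : i ∈ A0
    · simp only [A0, Finset.mem_insert, Finset.mem_singleton] at hi
      rcases hi with rfl | rfl | rfl | rfl <;> simp [p0, p1, p6, p7]
    · simp [h1 i hi]

section Geo

variable [Fintype ι] [Fintype κ] [DecidableEq κ] {a : Basis ι F V} {f : Basis κ F V}
  {x : ℤ → V} {A B : ℤ → κ}

theorem repr_ne (h : Af a f) {y : V} (hy : y ∈ Gm a) (l : κ) : f.repr y l ≠ 0 := by
  obtain ⟨i, rfl | rfl⟩ := mem_Gm_iff.1 hy
  · exact h.full i l
  · simpa using h.full i l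

omit [DecidableEq κ] in
theorem df_trans (h : Af a f) {y z w : V} (hy : y ∈ Gm a) (hz : z ∈ Gm a) (hw : w ∈ Gm a)
    (l : κ) : l ∈ Df f y w ↔ ¬ (l ∈ Df f y z ↔ l ∈ Df f z w) := by
  classical
  have h1 := repr_ne h hy l
  have h2 := repr_ne h hz l
  have h3 := repr_ne h hw l
  simp only [mem_Df]
  revert h1 h2 h3
  generalize f.repr y l = p
  generalize f.repr z l = q
  generalize f.repr w l = r
  revert p q r
  decide

/-- Membership in the pair of a step. -/
def InK (A B : ℤ → κ) (r : ℤ) (l : κ) : Prop := l = A r ∨ l = B r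

theorem inK_dvd (h : Kc a f x 4 A B) {r r' : ℤ} {l : κ} (h1 : InK A B r l)
    (h2 : InK A B r' l) : (4 : ℤ) ∣ r - r' := by
  rcases h1 with h1 | h1 <;> rcases h2 with h2 | h2
  · exact (h.perA r r').1 (h1 ▸ h2)
  · exact absurd (h1 ▸ h2) (h.ab r r')
  · exact absurd (h2 ▸ h1) (h.ab r' r)
  · exact (h.perB r r').1 (h1 ▸ h2)

theorem inK_ne (h : Kc a f x 4 A B) {r r' : ℤ} {l l' : κ} (h1 : InK A B r l)
    (h2 : InK A B r' l') (h3 : ¬ (4 : ℤ) ∣ r - r') : l ≠ l' :=
  fun hc => h3 (inK_dvd h h1 (hc ▸ h2))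

theorem pair_per (h : Kc a f x 4 A B) {r r' : ℤ} (hr : (4 : ℤ) ∣ r - r') :
    ({A r, B r} : Finset κ) = {A r', B r'} := by
  rw [(h.perA r r').2 hr, (h.perB r r').2 hr]

theorem inK_per (h : Kc a f x 4 A B) {r r' : ℤ} (hr : (4 : ℤ) ∣ r - r') {l : κ}
    (hl : InK A B r l) : InK A B r' l := by
  unfold InK at *
  rwa [← (h.perA r r').2 hr, ← (h.perB r r').2 hr]

theorem pair_spec (h : Kc a f x 4 A B) {r : ℤ} {g g' : κ}
    (hg : ({g, g'} : Finset κ) = {A r, B r}) : InK A B r g ∧ InK A B r g' ∧ g ≠ g' := by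
  have h1 : g ∈ ({A r, B r} : Finset κ) := hg ▸ by simp
  have h2 : g' ∈ ({A r, B r} : Finset κ) := hg ▸ by simp
  refine ⟨by simpa [InK] using h1, by simpa [InK] using h2, fun hc => ?_⟩
  have h3 := congrArg Finset.card hg
  rw [Finset.card_pair (h.ab r r), hc] at h3
  simp at h3

omit [Fintype κ] in
theorem other {r : ℤ} {g : κ} (hg : InK A B r g) :
    ∃ g', ({g, g'} : Finset κ) = {A r, B r} := by
  rcases hg with rfl | rfl
  · exact ⟨_, rfl⟩
  · exact ⟨_, Finset.pair_comm _ _⟩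

theorem match_pair (h : Kc a f x 4 A B) {r r' : ℤ} {p q p' q' : κ}
    (he : ({p, q} : Finset κ) = {p', q'}) (h1 : InK A B r p) (h2 : InK A B r p')
    (h3 : InK A B r' q) (h4 : InK A B r' q') (hr : ¬ (4 : ℤ) ∣ r - r') : p = p' ∧ q = q' := by
  have e1 : p ∈ ({p', q'} : Finset κ) := he ▸ by simp
  have e2 : q ∈ ({p', q'} : Finset κ) := he ▸ by simp
  simp only [Finset.mem_insert, Finset.mem_singleton] at e1 e2
  exact ⟨e1.resolve_right (inK_ne h h1 h4 hr), e2.resolve_left (inK_ne h h2 h3 hr).symm⟩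

/-- A joint of type one at `s` has a link of type one at `s + 3`. -/
theorem step [DecidableEq ι] (hafb : S_AFB) (ht1 : S_T1) (h : Kc a f x 4 A B) {y : V} {s : ℤ}
    (hy : Ty1 a f x y s) : ∃ g g' k m : κ, ∃ y2 : V,
      ({g, g'} : Finset κ) = {A (s + 1), B (s + 1)} ∧ InK A B (s + 2) k ∧ InK A B s m ∧
      Df f y (x s) = {g, k} ∧ Ty1 a f x y2 (s + 3) ∧ Df f y2 (x (s + 3)) = {m, g'} := by
  obtain ⟨hadj, -⟩ := hafb a f h.af
  rcases ht1 a f x 4 A B y s h hy with ⟨h0, -⟩ |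
    ⟨-, g, g', k, k', -, m, -, y2, hg, hk, hd, -, ho, -, hd2, -, hm⟩
  · exact absurd rfl h0
  rw [pair_per h (r' := s + 2) (by omega)] at hk
  obtain ⟨m', hm'⟩ := other (A := A) (B := B) hm
  obtain ⟨g1, g2, g3⟩ := pair_spec h hg
  obtain ⟨k1, k2, k3⟩ := pair_spec h hk
  obtain ⟨m1, m2, m3⟩ := pair_spec h hm'
  have s0 : Df f (x s) (x (s + 1)) = {m, m'} := by rw [h.step, hm']
  have s1 : Df f (x (s + 1)) (x (s + 2)) = {g, g'} := by
    rw [hg, ← h.step]; congr 2; ring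
  have s2 : Df f (x (s + 2)) (x (s + 3)) = {k, k'} := by
    rw [hk, ← h.step]; congr 2; ring
  have s3 : Df f (x (s + 3)) (x (s + 3 + 1)) = {A (s + 3), B (s + 3)} := h.step _
  have n1 := inK_ne h m1 g1 (by omega)
  have n2 := inK_ne h m1 g2 (by omega)
  have n3 := inK_ne h m2 g1 (by omega)
  have n4 := inK_ne h m2 g2 (by omega)
  have n5 := inK_ne h m1 k1 (by omega)
  have n6 := inK_ne h m1 k2 (by omega)
  have n7 := inK_ne h m2 k1 (by omega)
  have n8 := inK_ne h m2 k2 (by omega)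
  have n9 := inK_ne h g1 k1 (by omega)
  have n10 := inK_ne h g1 k2 (by omega)
  have n11 := inK_ne h g2 k1 (by omega)
  have n12 := inK_ne h g2 k2 (by omega)
  have hx := h.geo.mem
  have key : Df f y2 (x (s + 3)) = {m', g'} := by
    ext l
    rw [df_trans h.af ho.1 hy.1.1 (hx _), df_trans h.af hy.1.1 (hx s) (hx _),
      df_trans h.af (hx s) (hx (s + 1)) (hx _), df_trans h.af (hx (s + 1)) (hx (s + 2)) (hx _),
      Df_comm f y2 y, hd2, hd, s0, s1, s2]
    simp only [Finset.mem_insert, Finset.mem_singleton]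
    grind
  have a3 : InK A B (s + 3) (A (s + 3)) := Or.inl rfl
  have b3 : InK A B (s + 3) (B (s + 3)) := Or.inr rfl
  refine ⟨g, g', k, m', y2, hg, k1, m2, hd, ⟨ho, ?_, fun hc => ?_, fun hc => ?_⟩, key⟩
  · rw [hadj _ ho.1 _ (hx _), key, Finset.card_pair n4]
  · rw [hadj _ ho.1 _ (hx _), show s + 3 - 1 = s + 2 by ring] at hc
    have : 2 < (Df f y2 (x (s + 2))).card := by
      have e : ∀ l, l ∈ Df f y2 (x (s + 2)) ↔ ¬ ((l = m' ∨ l = g') ↔ (l = k ∨ l = k')) := by
        intro l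
        rw [df_trans h.af ho.1 (hx (s + 3)) (hx _), key, Df_comm, s2]
        simp only [Finset.mem_insert, Finset.mem_singleton]
      refine Finset.two_lt_card_iff.2 ⟨m', g', k, ?_, ?_, ?_, n4, n7, n11⟩ <;> rw [e] <;> grind
    omega
  · rw [hadj _ ho.1 _ (hx _)] at hc
    have : 2 < (Df f y2 (x (s + 3 + 1))).card := by
      have e : ∀ l, l ∈ Df f y2 (x (s + 3 + 1)) ↔
          ¬ ((l = m' ∨ l = g') ↔ (l = A (s + 3) ∨ l = B (s + 3))) := by
        intro l
        rw [df_trans h.af ho.1 (hx (s + 3)) (hx _), key, s3]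
        simp only [Finset.mem_insert, Finset.mem_singleton]
      have c1 := inK_ne h m2 a3 (by omega)
      have c2 := inK_ne h m2 b3 (by omega)
      have c3 := inK_ne h g2 a3 (by omega)
      have c4 := inK_ne h g2 b3 (by omega)
      refine Finset.two_lt_card_iff.2 ⟨m', g', A (s + 3), ?_, ?_, ?_, n4, c1, c3⟩ <;> rw [e] <;> grind
    omega

/-- Coordinates adapted to eight named vertices. -/
theorem coords (h : Af a f) (hc : Fintype.card ι = 8) {z : V} (hz : z ∈ Gm a) (c : Fin 8 → κ)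
    (hinj : Function.Injective c) : ∃ g : Basis (Fin 8) F V, Tset g = Tset f ∧
      (∀ l, g.repr z l = 1) ∧ ∀ y ∈ Gm a, ∀ y' ∈ Gm a, ∀ i j, Df f y y' = {c i, c j} →
        ∀ v : Fin 8 → F, (∀ l, g.repr y' l = v l) → ∀ l, g.repr y l = fl i j v l := by
  have hb : Function.Bijective c :=
    (Fintype.bijective_iff_injective_and_card c).2 ⟨hinj, by simp [card_eq_card a f, hc]⟩
  let e : Fin 8 ≃ κ := Equiv.ofBijective c hb
  obtain ⟨g, -, h2, h3⟩ := resign (f.reindex e.symm) (fun l => f.repr z (c l))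
    fun l => repr_ne h hz _
  have h4 : ∀ y l, g.repr y l = f.repr z (c l) * f.repr y (c l) := fun y l => by
    rw [h2]; simp [e]
  refine ⟨g, ?_, fun l => ?_, fun y hy y' hy' i j hd v hv l => ?_⟩
  · rw [h3, Basis.coe_reindex, Equiv.symm_symm, Tset_comp_equiv]
  · rw [h4, F_sq (repr_ne h hz _)]
  · have h5 : c l ∈ Df f y y' ↔ l = i ∨ l = j := by
      rw [hd]; simp [hinj.eq_iff]
    rw [mem_Df] at h5
    have h6 := repr_ne h hy (c l)
    have h7 := repr_ne h hy' (c l)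
    unfold fl
    rw [← hv, h4, h4]
    by_cases hl : l = i ∨ l = j
    · rw [if_pos hl]
      have h8 := h5.2 hl
      revert h6 h7 h8
      generalize f.repr y (c l) = p
      generalize f.repr y' (c l) = q
      generalize f.repr z (c l) = r
      revert p q r
      decide
    · rw [if_neg hl]
      have h8 : f.repr y (c l) = f.repr y' (c l) := by_contra fun hc => hl (h5.1 hc)
      rw [h8]

end Geo

end Cube

open Cube in
theorem s_cube (hafb : S_AFB) (ht1 : S_T1) (hmix : S_MIX) : S_CUBE := by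
  intro V _ _ ι κ _ _ _ _ a f x A B y t h hy
  obtain ⟨a1, b1, k0, m3, y3, p1, hk0, hm3, d0, hy3, e3⟩ := step hafb ht1 h hy
  obtain ⟨a0, b0, k3, m6, y6, p0, hk3, hm6, d3, hy6, e6⟩ := step hafb ht1 h hy3
  obtain ⟨a3, b3, k6, m9, y9, p3, hk6, hm9, d6, hy9, e9⟩ := step hafb ht1 h hy6
  rw [pair_per h (r' := t) (by omega)] at p0
  rw [pair_per h (r' := t + 3) (by omega)] at p3
  have hm9' : InK A B (t + 2) m9 := inK_per h (by omega) hm9
  obtain ⟨b2, p2⟩ := other hm9'
  obtain ⟨i0, j0, n0⟩ := pair_spec h p0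
  obtain ⟨i1, j1, n1⟩ := pair_spec h p1
  obtain ⟨i2, j2, n2⟩ := pair_spec h p2
  obtain ⟨i3, j3, n3⟩ := pair_spec h p3
  obtain ⟨rfl, -⟩ := match_pair h (e3.symm.trans d3) hm3 i0 j1 (inK_per h (by omega) hk3)
    (by omega)
  obtain ⟨rfl, -⟩ := match_pair h (e6.symm.trans d6) hm6 i3 j0 (inK_per h (by omega) hk6)
    (by omega)
  let c : Fin 8 → κ := ![m3, b0, a1, b1, m9, b2, m6, b3]
  let r : Fin 8 → ℤ := ![t, t, t + 1, t + 1, t + 2, t + 2, t + 3, t + 3]
  have hr : ∀ i, InK A B (r i) (c i) := by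
    intro i
    fin_cases i
    exacts [i0, j0, i1, j1, i2, j2, i3, j3]
  have hinj : Function.Injective c := by
    intro i j hij
    have h1 := inK_dvd h (hr i) (hij ▸ hr j)
    fin_cases i <;> fin_cases j <;>
      first
        | rfl
        | exact absurd hij n0
        | exact absurd hij n1
        | exact absurd hij n2
        | exact absurd hij n3
        | exact absurd hij n0.symm
        | exact absurd hij n1.symm
        | exact absurd hij n2.symm
        | exact absurd hij n3.symm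
        | (exfalso; simp [r] at h1 <;> omega)
  have hc : Fintype.card ι = 8 := h.card
  have hx := h.geo.mem
  obtain ⟨g, hT, hz, hfl⟩ := coords h.af hc (hx t) c hinj
  obtain ⟨q, hq, hkq⟩ : ∃ q : Fin 8, (q = 4 ∨ q = 5) ∧ k0 = c q := by
    have : k0 ∈ ({m9, b2} : Finset κ) := by rw [p2]; simpa [InK] using hk0
    simp only [Finset.mem_insert, Finset.mem_singleton] at this
    rcases this with h1 | h1
    · exact ⟨4, Or.inl rfl, h1⟩
    · exact ⟨5, Or.inr rfl, h1⟩
  have anti : ∀ s, x (s + 4) = -x s := h.geo.anti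
  have x6 : x (t + 3 + 3) = -x (t + 2) := by rw [← anti]; congr 1; ring
  have x9 : x (t + 3 + 3 + 3) = x (t + 1) := by
    rw [show t + 3 + 3 + 3 = t + 1 + 4 + 4 by ring, anti, anti, neg_neg]
  have r0 : ∀ l, g.repr (x t) l = z0 l := hz
  have r1 := hfl _ (hx (t + 1)) _ (hx t) 0 1 (by rw [Df_comm, h.step, ← p0]; rfl) _ r0
  have r2 := hfl _ (hx (t + 2)) _ (hx (t + 1)) 2 3
    (by rw [Df_comm, show t + 2 = t + 1 + 1 by ring, h.step, ← p1]; rfl) _ r1
  have r3 := hfl _ (hx (t + 3)) _ (hx (t + 2)) 4 5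
    (by rw [Df_comm, show t + 3 = t + 2 + 1 by ring, h.step, ← p2]; rfl) _ r2
  have r4 := hfl _ hy.1.1 _ (hx t) 2 q (by rw [d0, hkq]; rfl) _ r0
  have r5 := hfl _ hy9.1.1 _ (hx (t + 1)) 4 7 (by rw [← x9, e9]; rfl) _ r1
  have r6 := hfl _ (neg_mem_Gm hy6.1.1) _ (hx (t + 2)) 6 1
    (by rw [← Df_neg, neg_neg, ← x6, e6]; rfl) _ r2
  have r7 := hfl _ hy3.1.1 _ (hx (t + 3)) 0 3 (by rw [e3]; rfl) _ r3
  rw [← hT]
  refine fin_mix hmix a hc g ![x t, x (t + 1), x (t + 2), x (t + 3), y, y9, -y6, y3]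
    (fun k => ?_) q hq fun k => ?_
  · fin_cases k
    exacts [hx _, hx _, hx _, hx _, hy.1.1, hy9.1.1, neg_mem_Gm hy6.1.1, hy3.1.1]
  · fin_cases k
    exacts [r0, r1, r2, r3, r4, r5, r6, r7]

end Pool.Agent.P.MP_053557_co
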