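import Pool.Agent.P.MP_053557_co.Basic2

/-! The disconnected case. -/

namespace Pool.Agent.P.MP_053557_co

open Module Submodule

namespace Disc2

variable {V : Type} [AddCommGroup V] [Module F V]

theorem le_span {E : Set V} {V1 V2 : Submodule F V} (hc : IsCompl V1 V2)
    (cov : ∀ e ∈ E, e ∈ V1 ∨ e ∈ V2) (hs : Spans E) : V1 ≤ span F (E ∩ (V1 : Set V)) := by
  intro x hx
  have h1 : (⊤ : Submodule F V) ≤ span F (E ∩ (V1 : Set V)) ⊔ V2 := by
    rw [← hs, span_le]
    intro e he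
    rcases cov e he with h | h
    · exact mem_sup_left (subset_span ⟨he, h⟩)
    · exact mem_sup_right h
  obtain ⟨y, hy, z, hz, rfl⟩ := mem_sup.1 (h1 (mem_top (x := x)))
  have hy1 : y ∈ V1 := (span_le.2 Set.inter_subset_right : span F (E ∩ (V1 : Set V)) ≤ V1) hy
  have hz1 : z ∈ V1 := by simpa using V1.sub_mem hx hy1
  have hz0 : z = 0 := by
    have : z ∈ V1 ⊓ V2 := ⟨hz1, hz⟩
    rwa [hc.inf_eq_bot, mem_bot] at this
  rw [hz0, add_zero]
  exact hy

theorem hybrid (hK : S_CARD) {A B : Set V} (hA : IsFrame A) (hB : IsFrame B)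
    {V1 V2 : Submodule F V} (hc : IsCompl V1 V2) (cov : ∀ e ∈ Ed A B, e ∈ V1 ∨ e ∈ V2)
    {n m r s : ℕ} {h1 : Basis (Fin n) F V} {h2 : Basis (Fin m) F V} (r1 : Rr A B (Tset h1))
    (r2 : Rr A B (Tset h2)) {χ : Fin r → V →ₗ[F] F} {ψ : Fin s → V →ₗ[F] F}
    (c1 : Cells h1 V2 χ) (c2 : Cells h2 V1 ψ) :
    ∃ G, Ok A B G ∧ (∀ q, IsStar G (χ q)) ∧ ∀ q, IsStar G (ψ q) := by
  have := hA.finite
  have k1 := hK h1 V2 χ c1
  have k2 := hK h2 V1 ψ c2
  have k3 := finrank_add_eq_of_isCompl hc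
  rw [← finrank_eq_card_basis h1] at k1
  rw [← finrank_eq_card_basis h2] at k2
  obtain ⟨g, hg⟩ := exists_basis_of_coords (Sum.elim χ ψ) (fun w hw => by
      have : w ∈ V1 ⊓ V2 := ⟨c2.ker w fun q => hw (Sum.inr q), c1.ker w fun q => hw (Sum.inl q)⟩
      rwa [hc.inf_eq_bot, mem_bot] at this) (by rw [Fintype.card_sum]; omega)
  refine ⟨Tset g, ⟨isFrame_basis g, hyb hA hB cov r1 r2 (V1.projection V2 hc)
    (V2.projection V1 hc.symm) (fun x hx => ?_) (fun x hx => ?_)
    (fun x hx => projection_apply_of_mem_left hc hx)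
    (fun x hx => projection_apply_of_mem_left hc.symm hx)⟩, fun q => ?_, fun q => ?_⟩
  · have e1 : ∀ q, χ q (V1.projection V2 hc x) = χ q x := fun q => by
      have := c1.van q _ (sub_projection_mem hc x)
      rw [map_sub, sub_eq_zero] at this
      exact this.symm
    have e2 : ∀ q, ψ q (V1.projection V2 hc x) = 0 := fun q =>
      c2.van q _ (projection_apply_mem hc x)
    rw [mem_Tset_iff]
    rintro (i | i) (j | j) hi hj <;> rw [hg] at hi hj
    · rw [Sum.elim_inl, e1] at hi hj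
      rw [c1.T hx hi hj]
    · exact absurd (e2 j) hj
    · exact absurd (e2 i) hi
    · exact absurd (e2 i) hi
  · have e1 : ∀ q, ψ q (V2.projection V1 hc.symm x) = ψ q x := fun q => by
      have := c2.van q _ (sub_projection_mem hc.symm x)
      rw [map_sub, sub_eq_zero] at this
      exact this.symm
    have e2 : ∀ q, χ q (V2.projection V1 hc.symm x) = 0 := fun q =>
      c1.van q _ (projection_apply_mem hc.symm x)
    rw [mem_Tset_iff]
    rintro (i | i) (j | j) hi hj <;> rw [hg] at hi hj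
    · exact absurd (e2 i) hi
    · exact absurd (e2 i) hi
    · exact absurd (e2 j) hj
    · rw [Sum.elim_inr, e1] at hi hj
      rw [c2.T hx hi hj]
  · have := isStar_coord g (Sum.inl q)
    rwa [coord_eq_of_repr (hg (Sum.inl q))] at this
  · have := isStar_coord g (Sum.inr q)
    rwa [coord_eq_of_repr (hg (Sum.inr q))] at this

theorem cell_star {n r : ℕ} {h : Basis (Fin n) F V} {W : Submodule F V}
    {χ : Fin r → V →ₗ[F] F} (c : Cells h W χ) {α : V →ₗ[F] F} (hα : IsStar (Tset h) α)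
    (h0 : ∀ x ∈ W, α x = 0) : ∃ q, IsStar (Tset h) (χ q) := by
  obtain ⟨l, d, hd, rfl⟩ := (isStar_iff h).1 hα
  obtain ⟨q, e, he, hq⟩ := c.of_not_tch (l := l) (by
    rintro ⟨w, hw, h1⟩
    have := h0 w hw
    simp [hd, h1] at this)
  exact ⟨q, (isStar_iff h).2 ⟨l, e, he, hq⟩⟩

theorem cell_ne {n r : ℕ} {h : Basis (Fin n) F V} {V1 V2 : Submodule F V} (hc : IsCompl V1 V2)
    (h1 : V1 ≠ ⊥) {χ : Fin r → V →ₗ[F] F} (c : Cells h V2 χ) : Nonempty (Fin r) := by
  by_contra hn
  rw [not_nonempty_iff] at hn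
  apply h1
  rw [← hc.inf_eq_bot, left_eq_inf]
  exact fun x _ => c.ker x fun q => hn.elim q

theorem disc1 (hC : S_CELL) (hK : S_CARD) : S_DISC1 := by
  intro V _ _ A B V1 V2 α β hA hB hc n1 n2 cov hs hα h0α hβ h0β
  obtain ⟨n, a, rfl⟩ := id hA
  obtain ⟨m, f, rfl⟩ := id hB
  have l1 := le_span hc cov hs
  have l2 := le_span hc.symm (fun e he => (cov e he).symm) hs
  obtain ⟨_, χa, a2⟩ := hC a V2 (l2.trans (span_mono fun _ he => ⟨he.1.1, he.2⟩))
  obtain ⟨_, ψa, a1⟩ := hC a V1 (l1.trans (span_mono fun _ he => ⟨he.1.1, he.2⟩))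
  obtain ⟨_, χf, f2⟩ := hC f V2 (l2.trans (span_mono fun _ he => ⟨he.1.2, he.2⟩))
  obtain ⟨_, ψf, f1⟩ := hC f V1 (l1.trans (span_mono fun _ he => ⟨he.1.2, he.2⟩))
  obtain ⟨G1, o1, s1, t1⟩ := hybrid hK hA hB hc cov (rr_left _ _) (rr_left _ _) a2 a1
  obtain ⟨G2, o2, s2, t2⟩ := hybrid hK hA hB hc cov (rr_left _ _) (rr_right _ _) a2 f1
  obtain ⟨G3, o3, s3, t3⟩ := hybrid hK hA hB hc cov (rr_right _ _) (rr_right _ _) f2 f1
  obtain ⟨q1⟩ := cell_ne hc n1 a2
  obtain ⟨q2⟩ := cell_ne hc.symm n2 f1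
  have e1 : Share (Tset a) G1 := by
    rcases h0α with h | h
    · obtain ⟨q, hq⟩ := cell_star a1 hα h
      exact ⟨_, hq, t1 q⟩
    · obtain ⟨q, hq⟩ := cell_star a2 hα h
      exact ⟨_, hq, s1 q⟩
  have e2 : Share G3 (Tset f) := by
    rcases h0β with h | h
    · obtain ⟨q, hq⟩ := cell_star f1 hβ h
      exact ⟨_, t3 q, hq⟩
    · obtain ⟨q, hq⟩ := cell_star f2 hβ h
      exact ⟨_, s3 q, hq⟩
  exact (sconn_share (ok_left hA _) o1 e1).trans'
    ((sconn_share o1 o2 ⟨_, s1 q1, s2 q1⟩).trans'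
      ((sconn_share o2 o3 ⟨_, t2 q2, t3 q2⟩).trans' (sconn_share o3 (ok_right _ hB) e2)))

theorem two_rank_le [Module.Finite F V] (k : ℕ) : ∀ S : Set V, S.ncard ≤ k → (0 : V) ∉ S →
    (∀ e ∈ S, -e ∈ S) → 2 * finrank F (span F S) ≤ S.ncard := by
  have : Finite V := Module.finite_of_finite F
  induction k with
  | zero =>
    intro S hk _ _
    have : S = ∅ := (Set.ncard_eq_zero (Set.toFinite S)).1 (by omega)
    subst this
    simp
  | succ k ih =>
    intro S hk h0 hn
    rcases S.eq_empty_or_nonempty with rfl | ⟨e, he⟩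
    · simp
    have hne : e ≠ -e := fun h => h0 (eq_neg_self h ▸ he)
    have hsub : ({e, -e} : Set V) ⊆ S := by
      rintro x (rfl | rfl)
      · exact he
      · exact hn _ he
    have h1 := Set.ncard_sdiff_add_ncard_of_subset hsub
    rw [Set.ncard_pair hne] at h1
    have h2 := ih (S \ {e, -e}) (by omega) (fun h => h0 h.1) (fun x hx => ⟨hn x hx.1, by
      rintro (h | h)
      · exact hx.2 (Or.inr (by rw [← h, neg_neg]; rfl))
      · exact hx.2 (Or.inl (neg_injective h))⟩)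
    have h3 : span F S ≤ span F (S \ {e, -e}) ⊔ span F {e} := by
      rw [span_le]
      intro x hx
      by_cases hx1 : x ∈ ({e, -e} : Set V)
      · rcases hx1 with rfl | rfl
        · exact mem_sup_right (subset_span rfl)
        · exact mem_sup_right (neg_mem (subset_span rfl))
      · exact mem_sup_left (subset_span ⟨hx, hx1⟩)
    have h4 := (Submodule.finrank_mono h3).trans (finrank_add_le_finrank_add_finrank _ _)
    have h5 : finrank F (span F ({e} : Set V)) ≤ 1 := by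
      simpa using finrank_span_le_card ({e} : Set V)
    omega

/-- A coloop among the edges. -/
def Col (E : Set V) : Prop :=
  ∃ e ∈ E, ∃ σ : V →ₗ[F] F, σ e = 1 ∧ ∀ x ∈ E, x ≠ e → x ≠ -e → σ x = 0

theorem col_of_touch (hD : S_DS1) {n : ℕ} (b : Basis (Fin n) F V) {E : Set V}
    (hE : E ⊆ Dset (Tset b)) (hn : ∀ e ∈ E, -e ∈ E) {V1 V2 : Submodule F V}
    (hc : IsCompl V1 V2) (cov : ∀ e ∈ E, e ∈ V1 ∨ e ∈ V2) (hs : Spans E) (n1 : V1 ≠ ⊥)
    (hr : 2 * finrank F V1 ≤ finrank F V) (ht : ∀ l, Tch b V1 l) : Col E := by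
  have := Module.Finite.of_basis b
  have : Finite V := Module.finite_of_finite F
  set E0 : Set V := (E ∩ (V1 : Set V)) \ {0} with hE0
  have sp : span F E0 = V1 := by
    rw [hE0, span_sdiff_singleton_zero]
    exact le_antisymm (span_le.2 Set.inter_subset_right) (le_span hc cov hs)
  have z0 : (0 : V) ∉ E0 := fun h => h.2 rfl
  have ng : ∀ e ∈ E0, -e ∈ E0 := fun e he =>
    ⟨⟨hn e he.1.1, V1.neg_mem he.1.2⟩, fun h => he.2 (neg_eq_zero.1 h)⟩
  have un : {l | ∃ e ∈ E0, b.repr e l ≠ 0}.ncard = finrank F V := by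
    have : {l | ∃ e ∈ E0, b.repr e l ≠ 0} = Set.univ := by
      refine Set.eq_univ_of_forall fun l => (tch_span_iff b).1 ?_
      rw [sp]
      exact ht l
    rw [this, Set.ncard_univ, finrank_eq_card_basis b, Nat.card_eq_fintype_card]
  have h1 := hD b E0 (fun e he => hE he.1.1) z0 ng (by rw [un, sp]; omega)
  rw [un, sp] at h1
  have h2 : E0.ncard ≤ 2 * finrank F V1 := by
    rcases h1 with h | h
    · exact h
    · omega
  obtain ⟨e, he⟩ : E0.Nonempty := by
    by_contra hc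
    rw [Set.not_nonempty_iff_eq_empty] at hc
    rw [hc, span_empty] at sp
    exact n1 sp.symm
  have hne : e ≠ -e := fun h => z0 (eq_neg_self h ▸ he)
  have hsub : ({e, -e} : Set V) ⊆ E0 := by
    rintro x (rfl | rfl)
    · exact he
    · exact ng _ he
  have h3 := Set.ncard_sdiff_add_ncard_of_subset hsub
  rw [Set.ncard_pair hne] at h3
  have h4 := two_rank_le _ (E0 \ {e, -e}) le_rfl (fun h => z0 h.1) (fun x hx => ⟨ng x hx.1, by
      rintro (h | h)
      · exact hx.2 (Or.inr (by rw [← h, neg_neg]; rfl))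
      · exact hx.2 (Or.inl (neg_injective h))⟩)
  have h5 : e ∉ span F (E0 \ {e, -e}) := by
    intro hm
    have h6 : V1 ≤ span F (E0 \ {e, -e}) := by
      rw [← sp, span_le]
      intro x hx
      by_cases hx1 : x ∈ ({e, -e} : Set V)
      · rcases hx1 with rfl | rfl
        · exact hm
        · exact neg_mem hm
      · exact subset_span ⟨hx, hx1⟩
    have := Submodule.finrank_mono h6
    omega
  obtain ⟨σ, s1, s2⟩ := exists_functional h5
  refine ⟨e, he.1.1, σ ∘ₗ V1.projection V2 hc, ?_, fun x hx x1 x2 => ?_⟩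
  · rw [LinearMap.comp_apply, projection_apply_of_mem_left hc he.1.2, s1]
  · rw [LinearMap.comp_apply]
    rcases cov x hx with h | h
    · rw [projection_apply_of_mem_left hc h]
      by_cases h0 : x = 0
      · rw [h0, map_zero]
      · exact s2 _ (subset_span ⟨⟨⟨hx, h⟩, h0⟩, by rintro (h | h) <;> contradiction⟩)
    · rw [(projection_apply_eq_zero_iff hc).2 h, map_zero]

theorem star_of_ncol (hD : S_DS1) {T E : Set V} (hT : IsFrame T) (hE : E ⊆ Dset T)
    (hn : ∀ e ∈ E, -e ∈ E) {V1 V2 : Submodule F V} (hc : IsCompl V1 V2)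
    (cov : ∀ e ∈ E, e ∈ V1 ∨ e ∈ V2) (hs : Spans E) (n1 : V1 ≠ ⊥) (n2 : V2 ≠ ⊥)
    (h : ¬ Col E) : ∃ α, IsStar T α ∧ ((∀ x ∈ V1, α x = 0) ∨ ∀ x ∈ V2, α x = 0) := by
  have := hT.finite
  obtain ⟨n, b, rfl⟩ := hT
  have k := finrank_add_eq_of_isCompl hc
  have : ∃ l, ¬ Tch b V1 l ∨ ¬ Tch b V2 l := by
    by_contra hh
    push Not at hh
    rcases le_total (finrank F V1) (finrank F V2) with h1 | h1
    · exact h (col_of_touch hD b hE hn hc cov hs n1 (by omega) fun l => (hh l).1)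
    · exact h (col_of_touch hD b hE hn hc.symm (fun e he => (cov e he).symm) hs n2 (by omega)
        fun l => (hh l).2)
  obtain ⟨l, hl⟩ := this
  refine ⟨b.coord l, isStar_coord b l, hl.imp (fun h1 x hx => ?_) fun h1 x hx => ?_⟩
  · by_contra h2
    exact h1 ⟨x, hx, h2⟩
  · by_contra h2
    exact h1 ⟨x, hx, h2⟩

theorem star_kill {T : Set V} (hT : IsFrame T) (h3 : 3 ≤ finrank F V) {e : V}
    (he : e ∈ Dset T) : ∃ α, IsStar T α ∧ ∀ x ∈ span F ({e} : Set V), α x = 0 := by
  obtain ⟨n, b, rfl⟩ := hT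
  obtain ⟨l, hl⟩ : ∃ l, b.repr e l = 0 := by
    by_contra hh
    push Not at hh
    have h1 := (mem_Dset_iff_card b).1 he
    rw [Finset.filter_true_of_mem fun l _ => hh l, Finset.card_univ,
      ← finrank_eq_card_basis b] at h1
    omega
  exact ⟨b.coord l, isStar_coord b l, fun x hx => map_span_zero _ (by simpa using hl) hx⟩

theorem disc (h1 : S_DISC1) (hD : S_DS1) : S_DISC := by
  intro V _ _ A B hA hB h4 hs ⟨V1, V2, t1, t2, cov, hr⟩
  have := hA.finite
  by_cases hcol : Col (Ed A B)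
  · obtain ⟨e, he, σ, s1, s2⟩ := hcol
    have hc : IsCompl (span F ({e} : Set V)) (LinearMap.ker σ) := by
      constructor
      · rw [disjoint_iff_inf_le]
        intro x hx
        obtain ⟨c, rfl⟩ := mem_span_singleton.1 hx.1
        have : σ (c • e) = 0 := hx.2
        rw [map_smul, s1, smul_eq_mul, mul_one] at this
        simp [this]
      · rw [codisjoint_iff_le_sup]
        intro x _
        refine mem_sup.2 ⟨σ x • e, smul_mem _ _ (subset_span rfl), x - σ x • e, ?_, by abel⟩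
        simp [s1]
    obtain ⟨α, a1, a2⟩ := star_kill hA (by omega) he.1
    obtain ⟨β, b1, b2⟩ := star_kill hB (by omega) he.2
    refine h1 A B _ _ α β hA hB hc ?_ ?_ (fun x hx => ?_) hs a1 (Or.inl a2) b1 (Or.inl b2)
    · rw [Ne, span_singleton_eq_bot]
      rintro rfl
      simp at s1
    · intro h0
      have k := finrank_add_eq_of_isCompl hc
      have h5 : finrank F (span F ({e} : Set V)) ≤ 1 := by
        simpa using finrank_span_le_card ({e} : Set V)
      rw [h0, finrank_bot] at k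
      omega
    · by_cases x1 : x = e
      · exact Or.inl (x1 ▸ subset_span rfl)
      by_cases x2 : x = -e
      · exact Or.inl (x2 ▸ neg_mem (subset_span rfl))
      · exact Or.inr (s2 x hx x1 x2)
  · have hc : IsCompl V1 V2 := by
      constructor
      · rw [disjoint_iff]
        exact Submodule.finrank_eq_zero.1 (by omega)
      · rw [codisjoint_iff_le_sup, ← hs, span_le]
        intro e he
        rcases cov e he with h | h
        · exact mem_sup_left h
        · exact mem_sup_right h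
    have n1 : V1 ≠ ⊥ := by
      rintro rfl
      exact t2 (by simpa using hc.sup_eq_top)
    have n2 : V2 ≠ ⊥ := by
      rintro rfl
      exact t1 (by simpa using hc.sup_eq_top)
    obtain ⟨α, a1, a2⟩ := star_of_ncol hD hA Set.inter_subset_left (fun _ => neg_mem_Ed) hc cov
      hs n1 n2 hcol
    obtain ⟨β, b1, b2⟩ := star_of_ncol hD hB Set.inter_subset_right (fun _ => neg_mem_Ed) hc cov
      hs n1 n2 hcol
    exact h1 A B V1 V2 α β hA hB hc n1 n2 cov hs a1 a2 b1 b2

end Disc2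

end Pool.Agent.P.MP_053557_co
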