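import Pool.Agent.P.MP_053557_co.Basic2

/-! Edge sets touching almost twice as many vertices as their rank. -/

namespace Pool.Agent.P.MP_053557_co

open Module Submodule

namespace Ds1

/-- Double counting: many points are covered exactly once. -/
theorem priv {α κ : Type} [DecidableEq κ] (T : Finset α) (s : α → Finset κ) :
    2 * (T.biUnion s).card ≤
      ((T.biUnion s).filter fun l => (T.filter fun d => l ∈ s d).card = 1).card +
        ∑ d ∈ T, (s d).card := by
  have h1 : ∑ d ∈ T, (s d).card = ∑ l ∈ T.biUnion s, (T.filter fun d => l ∈ s d).card := by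
    have h2 : ∀ d ∈ T, (s d).card = ∑ l ∈ T.biUnion s, if l ∈ s d then 1 else 0 := by
      intro d hd
      rw [← Finset.card_filter]
      congr 1
      ext l
      simp only [Finset.mem_filter, Finset.mem_biUnion]
      exact ⟨fun h => ⟨⟨d, hd, h⟩, h⟩, fun h => h.2⟩
    rw [Finset.sum_congr rfl h2, Finset.sum_comm]
    exact Finset.sum_congr rfl fun l _ => (Finset.card_filter _ _).symm
  rw [h1, Finset.card_filter, ← Finset.sum_add_distrib, mul_comm, ← smul_eq_mul,
    ← Finset.sum_const]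
  refine Finset.sum_le_sum fun l hl => ?_
  have h3 : 0 < (T.filter fun d => l ∈ s d).card := by
    obtain ⟨d, hd, h⟩ := Finset.mem_biUnion.1 hl
    exact Finset.card_pos.2 ⟨d, Finset.mem_filter.2 ⟨hd, h⟩⟩
  split_ifs with h <;> omega

variable {V : Type} [AddCommGroup V] [Module F V] {κ : Type} [Fintype κ] [DecidableEq κ]

/-- The support of a vector. -/
noncomputable def sp (b : Basis κ F V) (x : V) : Finset κ :=
  Finset.univ.filter fun l => b.repr x l ≠ 0

omit [DecidableEq κ] in
theorem mem_sp {b : Basis κ F V} {x : V} {l : κ} : l ∈ sp b x ↔ b.repr x l ≠ 0 := by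
  simp [sp]

/-- `e` is a combination of two overlapping vectors of `S`. -/
def Two (b : Basis κ F V) (S : Finset V) (e : V) : Prop :=
  ∃ d1 ∈ S, ∃ d2 ∈ S, d1 ≠ d2 ∧ ∃ c1 c2 : F, c1 ≠ 0 ∧ c2 ≠ 0 ∧ e = c1 • d1 + c2 • d2 ∧
    (sp b d1 ∪ sp b d2).card = 3 ∧ (sp b d1).card = 2 ∧ (sp b d2).card = 2

theorem key (b : Basis κ F V) (S : Finset V) (hD : ∀ d ∈ S, (sp b d).card ≤ 2)
    (hL : ∀ T ⊆ S, 2 * T.card ≤ (T.biUnion (sp b)).card + 1) {e : V}
    (he : e ∈ span F (S : Set V)) (h2 : (sp b e).card ≤ 2) (h0 : e ≠ 0) :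
    (∃ d ∈ S, e = d ∨ e = -d) ∨ Two b S e := by
  classical
  obtain ⟨c, -, hc⟩ := mem_span_finset.1 he
  set T := S.filter fun d => c d ≠ 0 with hT
  have hTS : T ⊆ S := Finset.filter_subset _ _
  have hcT : ∀ d ∈ T, c d ≠ 0 := fun d hd => (Finset.mem_filter.1 hd).2
  have heT : e = ∑ d ∈ T, c d • d := by
    rw [← hc, hT, Finset.sum_filter]
    refine Finset.sum_congr rfl fun d _ => ?_
    split_ifs with h
    · rfl
    · rw [not_not.1 h, zero_smul]
  have hP : ((T.biUnion (sp b)).filter fun l => (T.filter fun d => l ∈ sp b d).card = 1) ⊆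
      sp b e := by
    intro l hl
    obtain ⟨d, hd⟩ := Finset.card_eq_one.1 (Finset.mem_filter.1 hl).2
    have hd1 : d ∈ T.filter fun d => l ∈ sp b d := by rw [hd]; exact Finset.mem_singleton_self d
    rw [Finset.mem_filter] at hd1
    rw [mem_sp, heT, map_sum, Finset.sum_apply', Finset.sum_eq_single d]
    · rw [map_smul, Finsupp.smul_apply, smul_eq_mul]
      exact mul_ne_zero (hcT d hd1.1) (mem_sp.1 hd1.2)
    · intro d' hd' hne
      have : l ∉ sp b d' := fun h => by
        have h4 : d' ∈ T.filter fun d => l ∈ sp b d := Finset.mem_filter.2 ⟨hd', h⟩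
        rw [hd] at h4
        exact hne (Finset.mem_singleton.1 h4)
      rw [mem_sp, not_not] at this
      rw [map_smul, Finsupp.smul_apply, this, smul_zero]
    · intro h
      exact absurd hd1.1 h
  have h3 := priv T (sp b)
  have h4 := (Finset.card_le_card hP).trans h2
  have h5 : ∑ d ∈ T, (sp b d).card ≤ T.card * 2 := by
    simpa using Finset.sum_le_card_nsmul T (fun d => (sp b d).card) 2 fun d hd => hD d (hTS hd)
  have h6 := hL T hTS
  have h7 : T.card = 0 ∨ T.card = 1 ∨ T.card = 2 := by omega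
  rcases h7 with h7 | h7 | h7
  · rw [Finset.card_eq_zero.1 h7, Finset.sum_empty] at heT
    exact absurd heT h0
  · obtain ⟨d, hd⟩ := Finset.card_eq_one.1 h7
    have hdT : d ∈ T := by rw [hd]; exact Finset.mem_singleton_self d
    rw [hd, Finset.sum_singleton] at heT
    refine Or.inl ⟨d, hTS hdT, ?_⟩
    rcases F_ne_cases (hcT d hdT) with h | h <;> rw [h] at heT
    · left; simpa using heT
    · right; simpa using heT
  · obtain ⟨d1, d2, hne, hd⟩ := Finset.card_eq_two.1 h7
    have hd1 : d1 ∈ T := by rw [hd]; simp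
    have hd2 : d2 ∈ T := by rw [hd]; simp
    have e1 : T.biUnion (sp b) = sp b d1 ∪ sp b d2 := by rw [hd]; simp
    have e2 : ∑ d ∈ T, (sp b d).card = (sp b d1).card + (sp b d2).card := by
      rw [hd, Finset.sum_pair hne]
    have e3 : e = c d1 • d1 + c d2 • d2 := by rw [heT, hd, Finset.sum_pair hne]
    have b1 := hD d1 (hTS hd1)
    have b2 := hD d2 (hTS hd2)
    rw [e2] at h3
    have e4 : (T.biUnion (sp b)).card = (sp b d1 ∪ sp b d2).card := by rw [e1]
    refine Or.inr ⟨d1, hTS hd1, d2, hTS hd2, hne, c d1, c d2, hcT d1 hd1, hcT d2 hd2, e3,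
      ?_, ?_, ?_⟩ <;> omega

/-- Two short combinations of the same overlapping pair agree up to sign. -/
theorem same (b : Basis κ F V) {d1 d2 : V} (hu : (sp b d1 ∪ sp b d2).card = 3)
    (h1 : (sp b d1).card = 2) (h2 : (sp b d2).card = 2) {c1 c2 c3 c4 : F} (n1 : c1 ≠ 0)
    (n2 : c2 ≠ 0) (n3 : c3 ≠ 0) (n4 : c4 ≠ 0) (he : c1 • d1 + c2 • d2 ∈ Dset (Tset b))
    (he' : c3 • d1 + c4 • d2 ∈ Dset (Tset b)) :
    c3 • d1 + c4 • d2 = c1 • d1 + c2 • d2 ∨ c3 • d1 + c4 • d2 = -(c1 • d1 + c2 • d2) := by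
  have a1 := Finset.card_union_add_card_inter (sp b d1) (sp b d2)
  have a2 := Finset.card_sdiff_add_card_inter (sp b d1) (sp b d2)
  have a3 := Finset.card_sdiff_add_card_inter (sp b d2) (sp b d1)
  rw [Finset.inter_comm] at a3
  obtain ⟨l, hl⟩ := Finset.card_pos.1 (show 0 < (sp b d1 ∩ sp b d2).card by omega)
  obtain ⟨x, hx⟩ := Finset.card_pos.1 (show 0 < (sp b d1 \ sp b d2).card by omega)
  obtain ⟨y, hy⟩ := Finset.card_pos.1 (show 0 < (sp b d2 \ sp b d1).card by omega)
  simp only [Finset.mem_inter, Finset.mem_sdiff, mem_sp, not_not] at hl hx hy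
  have hz : ∀ c c' : F, c ≠ 0 → c' ≠ 0 → c • d1 + c' • d2 ∈ Dset (Tset b) →
      c * b.repr d1 l + c' * b.repr d2 l = 0 := by
    intro c c' n n' h
    have hxy : x ≠ y := by rintro rfl; exact hx.1 hy.2
    have hlx : l ≠ x := by rintro rfl; exact hl.2 hx.2
    have hly : l ≠ y := by rintro rfl; exact hl.1 hy.2
    have := repr_eq_zero_of_Dset b h hxy (by simp [hx.1, hx.2, n]) (by simp [hy.1, hy.2, n'])
      hlx hly
    simpa using this
  have z1 := hz c1 c2 n1 n2 he
  have z2 := hz c3 c4 n3 n4 he'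
  have hα := hl.1
  have hβ := hl.2
  generalize b.repr d1 l = α at z1 z2 hα
  generalize b.repr d2 l = β at z1 z2 hβ
  have : (c3 = c1 ∧ c4 = c2) ∨ (c3 = -c1 ∧ c4 = -c2) := by
    clear he he' hz
    revert c1 c2 c3 c4 α β
    decide
  rcases this with ⟨rfl, rfl⟩ | ⟨rfl, rfl⟩
  · exact Or.inl rfl
  · right
    rw [neg_smul, neg_smul, neg_add]

theorem third (b : Basis κ F V) (S : Finset V)
    (hL : ∀ T ⊆ S, 2 * T.card ≤ (T.biUnion (sp b)).card + 1) {d1 d2 d d' : V} (m1 : d1 ∈ S)
    (m2 : d2 ∈ S) (m : d ∈ S) (hne : d1 ≠ d2) (hd1 : d ≠ d1) (hd2 : d ≠ d2)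
    (hd' : d' = d1 ∨ d' = d2) (hu : (sp b d1 ∪ sp b d2).card = 3)
    (hu' : (sp b d' ∪ sp b d).card = 3) (h2 : (sp b d').card = 2) : False := by
  classical
  have h := hL {d, d1, d2} (by
    intro x hx
    simp only [Finset.mem_insert, Finset.mem_singleton] at hx
    rcases hx with rfl | rfl | rfl <;> assumption)
  rw [Finset.card_eq_three.2 ⟨d, d1, d2, hd1, hd2, hne, rfl⟩] at h
  have hs : sp b d' ⊆ sp b d1 ∪ sp b d2 := by
    rcases hd' with rfl | rfl
    · exact Finset.subset_union_left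
    · exact Finset.subset_union_right
  have e1 : ({d, d1, d2} : Finset V).biUnion (sp b) ⊆
      (sp b d' ∪ sp b d) ∪ (sp b d1 ∪ sp b d2) := by
    intro l hl
    simp only [Finset.biUnion_insert, Finset.singleton_biUnion, Finset.mem_union] at hl ⊢
    tauto
  have e2 : sp b d' ⊆ (sp b d' ∪ sp b d) ∩ (sp b d1 ∪ sp b d2) :=
    Finset.subset_inter Finset.subset_union_left hs
  have a1 := Finset.card_union_add_card_inter (sp b d' ∪ sp b d) (sp b d1 ∪ sp b d2)
  have a2 := Finset.card_le_card e1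
  have a3 := Finset.card_le_card e2
  omega

theorem uniq (b : Basis κ F V) (S : Finset V)
    (hL : ∀ T ⊆ S, 2 * T.card ≤ (T.biUnion (sp b)).card + 1) {e e' : V}
    (hD : e ∈ Dset (Tset b)) (hD' : e' ∈ Dset (Tset b)) (h : Two b S e) (h' : Two b S e') :
    e' = e ∨ e' = -e := by
  classical
  obtain ⟨d1, m1, d2, m2, hne, c1, c2, n1, n2, rfl, hu, k1, k2⟩ := h
  obtain ⟨d3, m3, d4, m4, hne', c3, c4, n3, n4, rfl, hu', k3, k4⟩ := h'
  by_cases h3 : d3 = d1 ∨ d3 = d2 <;> by_cases h4 : d4 = d1 ∨ d4 = d2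
  · rcases h3 with rfl | rfl <;> rcases h4 with rfl | rfl
    · exact absurd rfl hne'
    · exact same b hu k1 k2 n1 n2 n3 n4 hD hD'
    · rw [add_comm (c3 • _)] at hD' ⊢
      exact same b hu k1 k2 n1 n2 n4 n3 hD hD'
    · exact absurd rfl hne'
  · push Not at h4
    exact (third b S hL m1 m2 m4 hne h4.1 h4.2 h3 hu hu' k3).elim
  · push Not at h3
    rw [Finset.union_comm] at hu'
    exact (third b S hL m1 m2 m3 hne h3.1 h3.2 h4 hu hu' k4).elim
  · exfalso
    push Not at h3 h4
    have h := hL {d3, d4, d1, d2} (by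
      intro x hx
      simp only [Finset.mem_insert, Finset.mem_singleton] at hx
      rcases hx with rfl | rfl | rfl | rfl <;> assumption)
    have hc : ({d3, d4, d1, d2} : Finset V).card = 4 := by
      rw [Finset.card_insert_of_notMem (by simp [hne', h3.1, h3.2]),
        Finset.card_eq_three.2 ⟨d4, d1, d2, h4.1, h4.2, hne, rfl⟩]
    have e1 : ({d3, d4, d1, d2} : Finset V).biUnion (sp b) ⊆
        (sp b d3 ∪ sp b d4) ∪ (sp b d1 ∪ sp b d2) := by
      intro l hl
      simp only [Finset.biUnion_insert, Finset.singleton_biUnion, Finset.mem_union] at hl ⊢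
      tauto
    have a1 := Finset.card_union_le (sp b d3 ∪ sp b d4) (sp b d1 ∪ sp b d2)
    have a2 := Finset.card_le_card e1
    omega

end Ds1

open Ds1 in
theorem s_ds1 : S_DS1 := by
  intro V _ _ κ _ _ b E0 hE h0 hneg hr
  classical
  have : Module.Finite F V := Module.Finite.of_basis b
  obtain ⟨S, hSE, hcard, hspan, -⟩ := exists_finset_span_eq_linearIndepOn F E0
  have hD : ∀ d ∈ E0, (sp b d).card ≤ 2 := fun d hd => (mem_Dset_iff_card b).1 (hE hd)
  have hDS : ∀ d ∈ S, (sp b d).card ≤ 2 := fun d hd => hD d (hSE hd)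
  have hX : {l | ∃ e ∈ E0, b.repr e l ≠ 0} ⊆ (S.biUnion (sp b) : Finset κ) := by
    rintro l ⟨e, he, hl⟩
    obtain ⟨d, hd, h⟩ := exists_touch b (hspan ▸ subset_span he) hl
    exact Finset.mem_coe.2 (Finset.mem_biUnion.2 ⟨d, hd, mem_sp.2 h⟩)
  have hX1 := Set.ncard_le_ncard hX (Finset.finite_toSet _)
  rw [Set.ncard_coe_finset] at hX1
  have hL0 : ∀ T ⊆ S, (S.biUnion (sp b)).card + 2 * T.card ≤
      (T.biUnion (sp b)).card + 2 * S.card := by
    intro T hT
    have e1 : S.biUnion (sp b) ⊆ T.biUnion (sp b) ∪ (S \ T).biUnion (sp b) := by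
      rw [← Finset.union_biUnion, Finset.union_sdiff_of_subset hT]
    have a1 := (Finset.card_le_card e1).trans (Finset.card_union_le _ _)
    have a2 : ((S \ T).biUnion (sp b)).card ≤ (S \ T).card * 2 :=
      Finset.card_biUnion_le_card_mul _ _ _ fun d hd => hDS d (Finset.mem_sdiff.1 hd).1
    have a3 := Finset.card_sdiff_add_card_eq_card hT
    omega
  have hL : ∀ T ⊆ S, 2 * T.card ≤ (T.biUnion (sp b)).card + 1 := by
    intro T hT
    have := hL0 T hT
    omega
  have hkey : ∀ e ∈ E0, (∃ d ∈ S, e = d ∨ e = -d) ∨ Two b S e := fun e he =>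
    key b S hDS hL (hspan ▸ subset_span he) (hD e he) fun h => h0 (h ▸ he)
  have hpm : (S ∪ S.image fun d => -d).card ≤ 2 * S.card := by
    have a1 := Finset.card_union_le S (S.image fun d => -d)
    have a2 := Finset.card_image_le (s := S) (f := fun d => -d)
    omega
  have hmem : ∀ e, (∃ d ∈ S, e = d ∨ e = -d) → e ∈ S ∪ S.image fun d => -d := by
    rintro e ⟨d, hd, rfl | rfl⟩
    · exact Finset.mem_union_left _ hd
    · exact Finset.mem_union_right _ (Finset.mem_image_of_mem _ hd)
  by_cases hex : ∃ e ∈ E0, Two b S e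
  · right
    obtain ⟨e, he, hT⟩ := hex
    refine ⟨?_, ?_, ?_⟩
    · obtain ⟨d1, m1, d2, m2, hne, c1, c2, -, -, -, hu, -, -⟩ := hT
      have h := hL0 {d1, d2} (by
        intro x hx
        simp only [Finset.mem_insert, Finset.mem_singleton] at hx
        rcases hx with rfl | rfl <;> assumption)
      rw [Finset.card_pair hne] at h
      have e1 : ({d1, d2} : Finset V).biUnion (sp b) = sp b d1 ∪ sp b d2 := by simp
      rw [e1, hu] at h
      omega
    · have hs : E0 ⊆ (((S ∪ S.image fun d => -d) ∪ {e, -e} : Finset V) : Set V) := by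
        intro e' he'
        rw [Finset.mem_coe, Finset.mem_union]
        rcases hkey e' he' with h | h
        · exact Or.inl (hmem e' h)
        · right
          simpa using uniq b S hL (hE he) (hE he') hT h
      have a1 := Set.ncard_le_ncard hs (Finset.finite_toSet _)
      rw [Set.ncard_coe_finset] at a1
      have a2 := Finset.card_union_le (S ∪ S.image fun d => -d) {e, -e}
      have a3 : ({e, -e} : Finset V).card ≤ 2 := Finset.card_le_two
      omega
    · obtain ⟨d1, m1, d2, m2, hne, c1, c2, n1, n2, rfl, hu, k1, k2⟩ := hT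
      have hsm : ∀ c : F, c ≠ 0 → ∀ d ∈ E0, c • d ∈ E0 := by
        intro c hc d hd
        rcases F_ne_cases hc with rfl | rfl
        · simpa using hd
        · simpa using hneg d hd
      refine ⟨c1 • d1, hsm c1 n1 d1 (hSE m1), -(c2 • d2), hneg _ (hsm c2 n2 d2 (hSE m2)),
        by simpa using he, fun h => ?_⟩
      rw [neg_neg] at h
      have e1 : sp b d1 = sp b d2 := by
        ext l
        have := congrArg (fun z => b.repr z l) h
        simp only [map_smul, Finsupp.smul_apply, smul_eq_mul] at this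
        rw [mem_sp, mem_sp]
        constructor
        · intro h1 h2
          rw [h2, mul_zero] at this
          exact mul_ne_zero n1 h1 this
        · intro h2 h1
          rw [h1, mul_zero] at this
          exact mul_ne_zero n2 h2 this.symm
      rw [e1, Finset.union_self] at hu
      omega
  · left
    have hs : E0 ⊆ ((S ∪ S.image fun d => -d : Finset V) : Set V) := by
      intro e he
      rcases hkey e he with h | h
      · exact Finset.mem_coe.2 (hmem e h)
      · exact absurd ⟨e, he, h⟩ hex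
    have a1 := Set.ncard_le_ncard hs (Finset.finite_toSet _)
    rw [Set.ncard_coe_finset] at a1
    omega

end Pool.Agent.P.MP_053557_co
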