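import Pool.Agent.P.MP_053557_co.Basic2

/-! Counting the edges inside the support of a star: a tree or a triangle. -/

namespace Pool.Agent.P.MP_053557_co

open Module Submodule

namespace F1

variable {V : Type} [AddCommGroup V] [Module F V] {ι κ : Type}

/-- The edges `a i - a i'` inside `I`. -/
def E0 (a : Basis ι F V) (f : Basis κ F V) (I : Finset ι) : Set V :=
  {e | ∃ i ∈ I, ∃ i' ∈ nbr a f I i, e = a i - a i'}

theorem sub_inj (a : Basis ι F V) {i i' k k' : ι} (h1 : i' ≠ i) (h2 : k' ≠ k)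
    (h : a i - a i' = a k - a k') : i = k ∧ i' = k' := by
  have hk : i = k := by
    by_contra hc
    have h3 := congrArg (fun z => a.repr z i) h
    by_cases h4 : k' = i
    · subst h4
      simp [single_ne h1, single_ne (Ne.symm hc)] at h3
      exact F_one_ne_neg_one h3
    · simp [single_ne h1, single_ne (Ne.symm hc), single_ne h4] at h3
  subst hk
  exact ⟨rfl, a.injective (sub_right_injective h)⟩

theorem E0_card (a : Basis ι F V) (f : Basis κ F V) (I : Finset ι) :
    (E0 a f I).ncard = ∑ i ∈ I, (nbr a f I i).card := by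
  classical
  have h1 : E0 a f I = ((I.sigma (nbr a f I)).image fun p => a p.1 - a p.2 : Finset V) := by
    ext e
    simp only [E0, Set.mem_ofPred_eq, Finset.coe_image, Set.mem_image, Finset.mem_coe,
      Finset.mem_sigma]
    constructor
    · rintro ⟨i, hi, i', hi', rfl⟩
      exact ⟨⟨i, i'⟩, ⟨hi, hi'⟩, rfl⟩
    · rintro ⟨⟨i, i'⟩, ⟨hi, hi'⟩, rfl⟩
      exact ⟨i, hi, i', hi', rfl⟩
  rw [h1, Set.ncard_coe_finset, Finset.card_image_of_injOn, Finset.card_sigma]
  rintro ⟨i, i'⟩ hp ⟨k, k'⟩ hq h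
  simp only [Finset.mem_coe, Finset.mem_sigma] at hp hq
  obtain ⟨rfl, rfl⟩ := sub_inj a (mem_nbr.1 hp.2).2.1 (mem_nbr.1 hq.2).2.1 h
  rfl

theorem E0_sub (a : Basis ι F V) (f : Basis κ F V) (I : Finset ι) :
    E0 a f I ⊆ Dset (Tset f) := by
  rintro e ⟨i, -, i', hi', rfl⟩
  exact (mem_nbr.1 hi').2.2

theorem E0_subA (a : Basis ι F V) (f : Basis κ F V) (I : Finset ι) :
    E0 a f I ⊆ Dset (Tset a) := by
  rintro e ⟨i, -, i', -, rfl⟩
  exact sub_mem_Dset (self_mem_Tset a i) (self_mem_Tset a i')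

theorem E0_zero (a : Basis ι F V) (f : Basis κ F V) (I : Finset ι) : (0 : V) ∉ E0 a f I := by
  rintro ⟨i, -, i', hi', h⟩
  exact (mem_nbr.1 hi').2.1 (a.injective (sub_eq_zero.1 h.symm)).symm

theorem E0_neg (a : Basis ι F V) (f : Basis κ F V) (I : Finset ι) :
    ∀ e ∈ E0 a f I, -e ∈ E0 a f I := by
  rintro e ⟨i, hi, i', hi', rfl⟩
  exact ⟨i', (mem_nbr.1 hi').1, i, nbr_symm hi hi', by abel⟩

theorem E0_rank [Fintype ι] (a : Basis ι F V) (f : Basis κ F V) {I : Finset ι}
    (hI : I.Nonempty) : finrank F (span F (E0 a f I)) + 1 ≤ I.card := by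
  classical
  have := Module.Finite.of_basis a
  obtain ⟨i0, hi0⟩ := hI
  let S : Finset V := (I.erase i0).image fun i => a i - a i0
  have hm : ∀ i ∈ I, a i - a i0 ∈ span F (S : Set V) := by
    intro i hi
    by_cases h : i = i0
    · subst h; simp
    · exact subset_span (Finset.mem_coe.2 (Finset.mem_image.2 ⟨i, Finset.mem_erase.2 ⟨h, hi⟩, rfl⟩))
  have h1 : span F (E0 a f I) ≤ span F (S : Set V) := by
    refine span_le.2 ?_
    rintro e ⟨i, hi, i', hi', rfl⟩
    have : a i - a i' = (a i - a i0) - (a i' - a i0) := by abel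
    rw [this]
    exact sub_mem (hm i hi) (hm i' (mem_nbr.1 hi').1)
  have h2 : finrank F (span F (S : Set V)) ≤ S.card := finrank_span_finset_le_card S
  have h3 : S.card ≤ (I.erase i0).card := Finset.card_image_le
  have h4 := Finset.card_erase_add_one hi0
  have h5 := Submodule.finrank_mono h1
  omega

/-- Three edges of the shape `d1, d2, d1 - d2` form a triangle. -/
theorem triangle (a : Basis ι F V) (f : Basis κ F V) (I : Finset ι) {d1 d2 : V}
    (h1 : d1 ∈ E0 a f I) (h2 : d2 ∈ E0 a f I) (h3 : d1 - d2 ∈ E0 a f I) (h4 : d1 ≠ -d2) :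
    ∃ t1 t2 t3, t1 ∈ I ∧ t2 ∈ nbr a f I t1 ∧ t3 ∈ nbr a f I t1 ∧ t3 ∈ nbr a f I t2 := by
  have hD := E0_sub a f I h3
  have hA := (mem_Dset_iff a).1 (E0_subA a f I h3)
  have h0 : d1 - d2 ≠ 0 := fun hc => E0_zero a f I (hc ▸ h3)
  obtain ⟨i, hi, i', hi', rfl⟩ := h1
  obtain ⟨k, hk, k', hk', rfl⟩ := h2
  obtain ⟨hiI, hii, -⟩ := mem_nbr.1 hi'
  obtain ⟨hkI, hkk, -⟩ := mem_nbr.1 hk'
  by_cases hik : i = k
  · subst hik
    refine ⟨i, i', k', hi, hi', hk', mem_nbr.2 ⟨hkI, ?_, ?_⟩⟩
    · rintro rfl; exact h0 (sub_self _)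
    · have : a i' - a k' = -(a i - a i' - (a i - a k')) := by abel
      rw [this]; exact neg_mem_Dset hD
  by_cases hik' : i' = k'
  · subst hik'
    refine ⟨i', i, k, hiI, nbr_symm hi hi', nbr_symm hk hk', mem_nbr.2 ⟨hk, Ne.symm hik, ?_⟩⟩
    have : a i - a k = a i - a i' - (a k - a i') := by abel
    rw [this]; exact hD
  exfalso
  by_cases h5 : i = k'
  · subst h5
    have h6 : i' ≠ k := by
      rintro rfl; exact h4 (by abel)
    have := hA i i' k
      (by simp [single_ne hii, single_ne (Ne.symm hik)]; decide)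
      (by simp [single_ne hii.symm, single_ne h6.symm])
      (by simp [single_ne hik, single_ne h6])
    rcases this with h | h | h
    · exact hii h.symm
    · exact hik h
    · exact h6 h
  · have h7 : a.repr (a i - a i' - (a k - a k')) k ≠ 0 := by
      by_cases h8 : i' = k
      · subst h8
        simp [single_ne hik, single_ne hkk]; decide
      · simp [single_ne hik, single_ne h8, single_ne hkk]
    have := hA i k k'
      (by simp [single_ne hii, single_ne (Ne.symm hik), single_ne (Ne.symm h5)]) h7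
      (by simp [single_ne h5, single_ne hik', single_ne hkk.symm])
    rcases this with h | h | h
    · exact hik h
    · exact h5 h
    · exact hkk h.symm

section

variable [Fintype ι] [DecidableEq ι] {a : Basis ι F V} {f : Basis κ F V} {j : κ} {I : Finset ι}

/-- The data of a special class give the data of the triangle case. -/
theorem sd_of_sp (h : Sj a f j I) {C : Finset κ} {χ : V →ₗ[F] F} (hj : j ∉ C)
    (hs : SP a f j I C χ) : SD a f j I := by
  obtain ⟨e1, he1, e2, he2, b1, b2, c1, c2, ⟨m1, hm1, r1⟩, ⟨m2, hm2, r2⟩, hsum, d1, d2⟩ := hs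
  have n1 : e1 ≠ f j := by
    rintro rfl
    exact r1 (repr_basis_ne f fun hc => hj (hc ▸ hm1))
  have n2 : e2 ≠ f j := by
    rintro rfl
    exact r2 (repr_basis_ne f fun hc => hj (hc ▸ hm2))
  by_cases hd1 : DH a I e1
  · refine ⟨e1, he1, e2, he2, b1, b2, n1, hsum, hd1, ?_⟩
    by_cases hd2 : DH a I e2
    · exact Or.inl hd2
    · obtain ⟨b, hb, c, hc, hbc, he⟩ := (h.cls1 he2.1 b2).resolve_left hd2
      exact Or.inr ⟨b, hb, c, hc, hbc, he, d2.resolve_left hd2⟩
  · obtain ⟨b, hb, c, hc, hbc, he⟩ := (h.cls1 he1.1 b1).resolve_left hd1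
    by_cases hd2 : DH a I e2
    · refine ⟨e2, he2, e1, he1, b2, b1, n2, fun i hi => ?_, hd2,
        Or.inr ⟨b, hb, c, hc, hbc, he, d1.resolve_left hd1⟩⟩
      rw [add_comm e2 e1]; exact hsum i hi
    · exfalso
      have h5 := d2.resolve_left hd2 b hb c hc (he ▸ he1.2)
      rw [← he] at h5
      rw [h5, c2] at c1
      exact F_neg_one_ne_one c1

/-- The subspace whose cells are used. -/
def WW (a : Basis ι F V) (f : Basis κ F V) (j : κ) (I : Finset ι) : Submodule F V :=
  offS a (I : Set ι) ⊔ span F {f j}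

theorem ww_dsp (h : Sj a f j I) : DSp (Tset f) (WW a f j I) := by
  refine DSp.sup ?_ (dSp_span ?_)
  · intro x hx
    refine span_mono ?_ (h.span_O (x := x) fun i hi => hx i hi)
    exact fun e he => ⟨he.1.2, fun i hi => he.2 i hi⟩
  · rintro _ rfl
    exact Tset_subset_Dset f (self_mem_Tset f j)

theorem off_of_ww (h : Sj a f j I) {x : V} (hx : x ∈ WW a f j I) (h0 : f.repr x j = 0) :
    ∀ i ∈ I, a.repr x i = 0 := by
  obtain ⟨u, hu, z, hz, rfl⟩ := mem_sup.1 hx
  obtain ⟨c, rfl⟩ := mem_span_singleton.1 hz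
  have h1 : f.repr u j = 0 := by
    rw [repr_j_eq_sum h.hI]; exact Finset.sum_eq_zero fun i hi => hu i hi
  have hc : c = 0 := by simpa [h1] using h0
  intro i hi
  simpa [hc] using hu i hi

theorem E0_j (h : Sj a f j I) {x : V} (hx : x ∈ span F (E0 a f I)) : f.repr x j = 0 := by
  refine repr_span_zero f ?_ hx
  rintro e ⟨i, hi, i', hi', rfl⟩
  simp [h.in_I hi, h.in_I (mem_nbr.1 hi').1]

omit [Fintype ι] [DecidableEq ι] in
theorem E0_off {x : V} (hx : x ∈ span F (E0 a f I)) {o : ι} (ho : o ∉ I) : a.repr x o = 0 := by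
  refine repr_span_zero a ?_ hx
  rintro e ⟨i, hi, i', hi', rfl⟩
  have h1 : i ≠ o := fun hc => ho (hc ▸ hi)
  have h2 : i' ≠ o := fun hc => ho (hc ▸ (mem_nbr.1 hi').1)
  simp [single_ne h1, single_ne h2]

theorem rank_le_cells (h : Sj a f j I) {r : ℕ} {χ : Fin r → V →ₗ[F] F}
    (hc : Cells f (WW a f j I) χ) : finrank F (span F (E0 a f I)) ≤ r := by
  let Φ : span F (E0 a f I) →ₗ[F] (Fin r → F) := (LinearMap.pi χ).comp (span F (E0 a f I)).subtype
  have hinj : Function.Injective Φ := by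
    rw [injective_iff_map_eq_zero]
    intro w hw
    have h1 : (w : V) ∈ WW a f j I := hc.ker _ fun q => congrFun hw q
    have h2 := off_of_ww h h1 (E0_j h w.2)
    refine Subtype.ext (eq_of_repr a fun i => ?_)
    by_cases hi : i ∈ I
    · simp [h2 i hi]
    · simp [E0_off w.2 hi]
  simpa using LinearMap.finrank_le_finrank_of_injective hinj

theorem diff_mem (h : Sj a f j I) {i i' : ι} (hi : i ∈ I) (hi' : i' ∈ I) :
    a i - a i' ∈ span F (E0 a f I) :=
  h.span_X (x := a i - a i') (fun o ho => by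
    have h1 : i ≠ o := fun hc => ho (hc ▸ hi)
    have h2 : i' ≠ o := fun hc => ho (hc ▸ hi')
    simp [single_ne h1, single_ne h2]) (by simp [h.in_I hi, h.in_I hi'])

/-- Every class meets the set of vertices touched by the edges inside `I`. -/
theorem class_meets [Fintype κ] (h : Sj a f j I) {ρ : Type} {χ : ρ → V →ₗ[F] F}
    (hc : Cells f (WW a f j I) χ) (q : ρ) :
    ∃ l, χ q (f l) ≠ 0 ∧ ∃ e ∈ E0 a f I, f.repr e l ≠ 0 := by
  by_contra hn
  push Not at hn
  have h1 : ∀ e ∈ E0 a f I, χ q e = 0 := by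
    intro e he
    rw [map_eq_sum f]
    refine Finset.sum_eq_zero fun l _ => ?_
    by_cases hl : χ q (f l) = 0
    · simp [hl]
    · simp [hn l hl e he]
  have hO : ∀ o, o ∉ I → χ q (a o) = 0 := fun o ho =>
    hc.van q _ (mem_sup_left fun i hi => repr_basis_ne a fun hoi => ho (hoi ▸ hi))
  obtain ⟨i0, hi0⟩ : I.Nonempty := Finset.card_pos.1 (by have := h.two_le; omega)
  have hI : ∀ i ∈ I, χ q (a i) = χ q (a i0) := fun i hi => by
    have := map_span_zero (χ q) h1 (diff_mem h hi hi0)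
    rwa [map_sub, sub_eq_zero] at this
  have hall : ∀ x, χ q x = f.repr x j * χ q (a i0) := by
    intro x
    rw [map_eq_sum a, repr_j_eq_sum h.hI, Finset.sum_mul,
      ← Finset.sum_subset (Finset.subset_univ I) fun o _ ho => by simp [hO o ho]]
    exact Finset.sum_congr rfl fun i hi => by rw [hI i hi]
  have hj : χ q (f j) = 0 := hc.van q _ (mem_sup_right (subset_span rfl))
  have h0 : χ q (a i0) = 0 := by simpa [hj] using (hall (f j)).symm
  obtain ⟨l, hl⟩ := hc.ne q
  exact hl (by rw [hall, h0, mul_zero])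

/-- A class with only one touched vertex is special. -/
theorem spec_of_one [Fintype κ] (h : Sj a f j I) {ρ : Type} {χ : ρ → V →ₗ[F] F}
    (hc : Cells f (WW a f j I) χ) {q : ρ} {l : κ} (hl : χ q (f l) ≠ 0)
    (hu : ∀ m, χ q (f m) ≠ 0 → (∃ e ∈ E0 a f I, f.repr e m ≠ 0) → m = l) :
    Spec a f j I (Finset.univ.filter fun m => χ q (f m) ≠ 0) (χ q) l := by
  have hj : χ q (f j) = 0 := hc.van q _ (mem_sup_right (subset_span rfl))
  refine ⟨by simp [hj], by simp, fun x hx => hc.van q _ (mem_sup_left fun i hi => hx i hi),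
    fun m hm m' hm' => ?_, by simpa using hl, fun m hm hml i hi i' hi' => ?_⟩
  · rw [Finset.mem_filter] at hm hm'
    have h1 : m ≠ j := fun he => hm.2 (he ▸ hj)
    have h2 : m' ≠ j := fun he => hm'.2 (he ▸ hj)
    exact off_of_ww h (hc.diff hm.2 hm'.2) (by simp [single_ne h1, single_ne h2])
  · rw [Finset.mem_filter] at hm
    have h1 : ∀ e ∈ E0 a f I, f.repr e m = 0 := fun e he =>
      by_contra fun hne => hml (hu m hm.2 ⟨e, he, hne⟩)
    have := repr_span_zero f h1 (diff_mem h hi hi')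
    rwa [map_sub, Finsupp.sub_apply, sub_eq_zero] at this

end

/-- Counting lemma for disjoint families. -/
theorem count {r : ℕ} [DecidableEq κ] (X : Finset κ) (P : Fin r → Finset κ)
    (hsub : ∀ q, P q ⊆ X) (hdis : ∀ q q', q ≠ q' → Disjoint (P q) (P q')) :
    ∑ q, (P q).card ≤ X.card := by
  rw [← Finset.card_biUnion (s := Finset.univ) fun q _ q' _ hq => hdis q q' hq]
  exact Finset.card_le_card (Finset.biUnion_subset.2 fun q _ => hsub q)

end F1

theorem s_f1 (hCELL : S_CELL) (hDS : S_DS1) (hFa : S_F1a) (hFb : S_F1b) : S_F1 := by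
  intro V _ _ ι κ _ _ _ _ a f j I hst
  classical
  have h := hst.sj
  obtain ⟨r, χ, hc⟩ := hCELL f (F1.WW a f j I) (F1.ww_dsp h)
  set X : Finset κ := Finset.univ.filter fun l => ∃ e ∈ F1.E0 a f I, f.repr e l ≠ 0 with hX
  have hXc : {l | ∃ e ∈ F1.E0 a f I, f.repr e l ≠ 0}.ncard = X.card := by
    rw [← Set.ncard_coe_finset]; congr 1; ext l; simp [hX]
  let P : Fin r → Finset κ := fun q => X.filter fun l => χ q (f l) ≠ 0
  have hP : ∑ q, (P q).card ≤ X.card := F1.count X P (fun q => Finset.filter_subset _ _)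
    fun q q' hq => Finset.disjoint_left.2 fun l h1 h2 =>
      hq (hc.disj l q q' (Finset.mem_filter.1 h1).2 (Finset.mem_filter.1 h2).2)
  have hspec : ∀ q, (P q).card ≤ 1 →
      ∃ l, Spec a f j I (Finset.univ.filter fun m => χ q (f m) ≠ 0) (χ q) l := by
    intro q hq
    obtain ⟨l, hl, he⟩ := F1.class_meets h hc q
    refine ⟨l, F1.spec_of_one h hc hl fun m hm hme => ?_⟩
    exact Finset.card_le_one.1 hq m (by simp [P, hX, hm, hme]) l (by simp [P, hX, hl, he])
  have hpos : ∀ q, 1 ≤ (P q).card := by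
    intro q
    obtain ⟨l, hl, he⟩ := F1.class_meets h hc q
    exact Finset.card_pos.2 ⟨l, by simp [P, hX, hl, he]⟩
  have hone : ∀ q q', (P q).card ≤ 1 → (P q').card ≤ 1 → q = q' := by
    intro q q' h1 h2
    by_contra hq
    obtain ⟨l, s1⟩ := hspec q h1
    obtain ⟨l', s2⟩ := hspec q' h2
    refine hFb a f j I _ _ _ _ l l' h s1 s2 (hFa a f j I _ _ l hst s1)
      (hFa a f j I _ _ l' hst s2) (Finset.disjoint_left.2 fun m h3 h4 => ?_)
    exact hq (hc.disj m q q' (Finset.mem_filter.1 h3).2 (Finset.mem_filter.1 h4).2)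
  have hnone : (∀ q, 2 ≤ (P q).card) → 2 * r ≤ X.card := by
    intro h2
    have := Finset.card_nsmul_le_sum Finset.univ (fun q => (P q).card) 2 fun q _ => h2 q
    simp only [Finset.card_univ, Fintype.card_fin, smul_eq_mul] at this
    omega
  have hlow : 2 * r ≤ X.card + 1 := by
    by_cases h2 : ∀ q, 2 ≤ (P q).card
    · have := hnone h2; omega
    · push Not at h2
      obtain ⟨q0, hq0⟩ := h2
      have h3 := Finset.card_nsmul_le_sum (Finset.univ.erase q0) (fun q => (P q).card) 2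
        fun q hq => by
          by_contra h4
          exact (Finset.mem_erase.1 hq).1 (hone q q0 (by omega) (by omega))
      have h5 := Finset.add_sum_erase Finset.univ (fun q => (P q).card) (Finset.mem_univ q0)
      have h6 := Finset.card_erase_add_one (Finset.mem_univ q0)
      have h7 := hpos q0
      simp only [Finset.card_univ, Fintype.card_fin, smul_eq_mul] at h3 h5 h6
      omega
  have hrk := F1.rank_le_cells h hc
  have hrI := F1.E0_rank a f (I := I) (Finset.card_pos.1 (by have := h.two_le; omega))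
  have hE := F1.E0_card a f I
  rcases hDS f (F1.E0 a f I) (F1.E0_sub a f I) (F1.E0_zero a f I) (F1.E0_neg a f I)
    (by rw [hXc]; omega) with h1 | ⟨h1, h2, d1, hd1, d2, hd2, hd3, hd4⟩
  · left; omega
  · right
    obtain ⟨t1, t2, t3, k1, k2, k3, k4⟩ := F1.triangle a f I hd1 hd2 hd3 hd4
    refine ⟨t1, t2, t3, k1, k2, k3, k4, by omega, ?_⟩
    have h3 : ¬ ∀ q, 2 ≤ (P q).card := fun h3 => by
      have := hnone h3
      rw [hXc] at h1
      omega
    push Not at h3
    obtain ⟨q, hq⟩ := h3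
    obtain ⟨l, s⟩ := hspec q (by omega)
    exact F1.sd_of_sp h s.nj (hFa a f j I _ _ l hst s)

end Pool.Agent.P.MP_053557_co
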