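import Pool.Agent.P.MP_053557_co.Basic2

/-! Special classes: the two edges they produce, and their uniqueness. -/

namespace Pool.Agent.P.MP_053557_co

open Module Submodule

namespace F1A

variable {V : Type} [AddCommGroup V] [Module F V] {ι κ : Type} [Fintype ι] [DecidableEq ι]
  [Fintype κ] [DecidableEq κ] {a : Basis ι F V} {f : Basis κ F V} {j : κ} {I : Finset ι}
  {C : Finset κ} {χ : V →ₗ[F] F} {l : κ}

omit [Fintype ι] [DecidableEq ι] [Fintype κ] [DecidableEq κ] in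
theorem chi_j (hS : Spec a f j I C χ l) : χ (f j) = 0 := by
  by_contra h
  exact hS.nj ((hS.supp j).1 h)

omit [Fintype ι] [DecidableEq ι] [DecidableEq κ] in
theorem exists_end (hS : Spec a f j I C χ l) {e : V} (h : χ e ≠ 0) :
    ∃ m ∈ C, f.repr e m ≠ 0 := by
  by_contra hc
  push Not at hc
  refine h ?_
  rw [map_eq_sum f χ e]
  refine Finset.sum_eq_zero fun m _ => ?_
  by_cases hm : m ∈ C
  · rw [hc m hm, zero_mul]
  · rw [not_not.1 (mt (hS.supp m).1 hm), mul_zero]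

omit [Fintype κ] [DecidableEq κ] in
theorem form {e : V} (he : e ∈ Dset (Tset f)) (h1 : f.repr e j = 1) {m : κ} (hm : m ≠ j)
    (h : f.repr e m ≠ 0) : e = f j + f.repr e m • f m := by
  have := Dset_eq_two f he hm.symm (by rw [h1]; exact one_ne_zero) h
  rwa [h1, one_smul] at this

omit [Fintype ι] [DecidableEq ι] [Fintype κ] [DecidableEq κ] in
theorem chi_form (hS : Spec a f j I C χ l) {e : V} (he : e ∈ Dset (Tset f))
    (h1 : f.repr e j = 1) {m : κ} (hm : m ≠ j) (h : f.repr e m ≠ 0) :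
    χ e = f.repr e m * χ (f m) := by
  conv_lhs => rw [form he h1 hm h]
  rw [map_add, chi_j hS, zero_add, map_smul, smul_eq_mul]

omit [Fintype ι] [DecidableEq ι] [DecidableEq κ] in
theorem form' (hS : Spec a f j I C χ l) {e : V} (he : e ∈ Dset (Tset f))
    (h1 : f.repr e j = 1) (h : χ e ≠ 0) : ∃ m ∈ C, e = f j + (χ e * χ (f m)) • f m := by
  obtain ⟨m, hm, h2⟩ := exists_end hS h
  have hmj : m ≠ j := fun e => hS.nj (e ▸ hm)
  refine ⟨m, hm, ?_⟩
  rw [chi_form hS he h1 hmj h2, mul_assoc, F_sq ((hS.supp m).2 hm), mul_one]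
  exact form he h1 hmj h2

omit [Fintype ι] [DecidableEq ι] [DecidableEq κ] in
theorem sum_zero (hS : Spec a f j I C χ l) {e1 e2 : V} (he1 : e1 ∈ Dset (Tset f))
    (he2 : e2 ∈ Dset (Tset f)) (h1 : f.repr e1 j = 1) (h2 : f.repr e2 j = 1) (c1 : χ e1 = 1)
    (c2 : χ e2 = -1) : ∀ i ∈ I, a.repr (e1 + e2 + f j) i = 0 := by
  obtain ⟨m1, hm1, r1⟩ := form' hS he1 h1 (by rw [c1]; exact one_ne_zero)
  obtain ⟨m2, hm2, r2⟩ := form' hS he2 h2 (by rw [c2]; exact neg_ne_zero.2 one_ne_zero)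
  rw [c1] at r1
  rw [c2] at r2
  have : e1 + e2 + f j = χ (f m1) • f m1 - χ (f m2) • f m2 := by
    linear_combination (norm := module) r1 + r2 + three (f j)
  rw [this]
  exact hS.cls m1 hm1 m2 hm2

omit [Fintype ι] [DecidableEq ι] [Fintype κ] [DecidableEq κ] in
theorem chi_dh (hS : Spec a f j I C χ l) (i : ι) {t : V} (ht : OT a I t) :
    χ (a i + t) = χ (a i) := by
  rw [map_add, hS.van t ht.2, add_zero]

omit [Fintype κ] [DecidableEq κ] in
theorem beta_dh (h : Sj a f j I) {i : ι} (hi : i ∈ I) {t : V} (ht : OT a I t) :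
    f.repr (a i + t) j = 1 := by
  rw [map_add, Finsupp.add_apply, h.in_I hi, h.ot ht, add_zero]

omit [Fintype ι] in
theorem alpha_dh (i : ι) {t : V} (ht : OT a I t) {k : ι} (hk : k ∈ I) :
    a.repr (a i + t) k = if i = k then 1 else 0 := by
  rw [map_add, Finsupp.add_apply, ht.2 k hk, add_zero, repr_basis]

omit [DecidableEq κ] in
/-- The class is a single vertex. -/
theorem single (h : St a f j I) (hS : Spec a f j I C χ l) (hC : ∀ m ∈ C, m = l) :
    SP a f j I C χ := by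
  have hl : χ (f l) ≠ 0 := (hS.supp l).2 hS.mem
  have hχ : ∀ x, χ x = χ (f l) * f.repr x l := fun x => by
    conv_lhs => rw [eq_smul_coord f (φ := χ) (i := l) fun m hm =>
      not_not.1 fun k => hm (hC m ((hS.supp m).1 k))]
    simp
  have hI : ∀ i ∈ I, χ (a i) ≠ 0 := by
    intro i hi
    rw [hχ]
    refine mul_ne_zero hl (h.min l (fun o ho => ?_) i hi)
    by_contra k
    have := hS.van (a o) fun i hi => repr_basis_ne a fun e => k (e ▸ hi)
    rw [hχ] at this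
    exact mul_ne_zero hl ho this
  by_contra hn
  have uniq : ∀ i ∈ I, ∀ t, OT a I t → a i + t ∈ EE a f → ∀ i' ∈ I, ∀ t', OT a I t' →
      a i' + t' ∈ EE a f → i = i' := by
    intro i hi t ht he i' hi' t' ht' he'
    have n1 : χ (a i + t) ≠ 0 := by rw [chi_dh hS i ht]; exact hI i hi
    have n2 : χ (a i' + t') ≠ 0 := by rw [chi_dh hS i' ht']; exact hI i' hi'
    have b1 := beta_dh h.sj hi ht
    have b2 := beta_dh h.sj hi' ht'
    have key : χ (a i + t) = χ (a i' + t') := by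
      rcases F_ne_cases n1 with c1 | c1 <;> rcases F_ne_cases n2 with c2 | c2
      · rw [c1, c2]
      · exact absurd ⟨_, he, _, he', b1, b2, c1, c2, exists_end hS n1, exists_end hS n2,
          sum_zero hS he.2 he'.2 b1 b2 c1 c2, Or.inl ⟨i, hi, t, ht, rfl⟩,
          Or.inl ⟨i', hi', t', ht', rfl⟩⟩ hn
      · exact absurd ⟨_, he', _, he, b2, b1, c2, c1, exists_end hS n2, exists_end hS n1,
          sum_zero hS he'.2 he.2 b2 b1 c2 c1, Or.inl ⟨i', hi', t', ht', rfl⟩,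
          Or.inl ⟨i, hi, t, ht, rfl⟩⟩ hn
      · rw [c1, c2]
    obtain ⟨m, hm, r1⟩ := form' hS he.2 b1 n1
    obtain ⟨m', hm', r2⟩ := form' hS he'.2 b2 n2
    rw [hC m hm, key] at r1
    rw [hC m' hm', ← r1] at r2
    have k1 := alpha_dh (a := a) i ht hi
    rw [← r2, alpha_dh i' ht' hi, if_pos rfl] at k1
    by_contra k
    rw [if_neg (Ne.symm k)] at k1
    exact zero_ne_one k1
  obtain ⟨o, ho⟩ := h.hO
  obtain ⟨i0, hi0⟩ : ∃ i0, ∀ i ∈ I, ∀ t, OT a I t → a i + t ∈ EE a f → i = i0 := by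
    by_cases k : ∃ i ∈ I, ∃ t, OT a I t ∧ a i + t ∈ EE a f
    · obtain ⟨i', hi', t', ht', he'⟩ := k
      exact ⟨i', fun i hi t ht he => uniq i hi t ht he i' hi' t' ht' he'⟩
    · exact ⟨o, fun i hi t ht he => absurd ⟨i, hi, t, ht, he⟩ k⟩
  obtain ⟨l0, hl0, hne⟩ := Finset.exists_mem_ne (show 1 < I.card from h.sj.two_le) i0
  refine h.sj.tc.nsep (sepv a {o | o ∉ I} ⟨o, ho⟩ (j := i0) (l0 := l0) (fun k => k hl0) hne ?_)
  intro e he o' ho' h1 m hm
  by_cases hmI : m ∈ I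
  swap
  · exact Or.inl hmI
  right
  have he' := smul_mem_EE (a.repr e m) he
  have h2 : a.repr (a.repr e m • e) m = 1 := by simp [F_sq hm]
  have h3 : a.repr (a.repr e m • e) o' ≠ 0 := by simpa using ⟨hm, h1⟩
  rcases cls_at a I he'.1 h2 with ⟨t, ht, -, r⟩ | ⟨i, hi, -, r⟩
  · exact hi0 m hmI t ht (r ▸ he')
  · have n1 : a.repr (a m) o' = 0 := repr_basis_ne a fun e => ho' (e ▸ hmI)
    have n2 : a.repr (a i) o' = 0 := repr_basis_ne a fun e => ho' (e ▸ hi)
    rcases r with r | r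
    · rw [r, map_sub, Finsupp.sub_apply, n1, n2, sub_zero] at h3
      exact absurd rfl h3
    · rw [r, map_add, Finsupp.add_apply, n1, n2, add_zero] at h3
      exact absurd rfl h3

omit [DecidableEq κ] in
/-- An edge at `j` of prescribed sign with an end in the class other than `l`. -/
theorem exists_edge (h : Sj a f j I) (hS : Spec a f j I C χ l) {m0 : κ} (h0 : m0 ∈ C)
    (hl : m0 ≠ l) {c : F} (hc : c ≠ 0) :
    ∃ e ∈ EE a f, f.repr e j = 1 ∧ χ e = c ∧ ∃ m ∈ C, m ≠ l ∧ f.repr e m ≠ 0 := by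
  by_contra hn
  have one : ∀ e ∈ EE a f, f.repr e j = 1 → ∀ m ∈ C, m ≠ l → f.repr e m ≠ 0 →
      χ e + c = 0 ∧ ∀ k, f.repr e k ≠ 0 → k = m ∨ k = j := by
    intro e he h1 m hm hml h2
    have hmj : m ≠ j := fun e => hS.nj (e ▸ hm)
    have n1 : χ e ≠ 0 := by
      rw [chi_form hS he.2 h1 hmj h2]
      exact mul_ne_zero h2 ((hS.supp m).2 hm)
    have n2 : χ e ≠ c := fun k => hn ⟨e, he, h1, k, m, hm, hml, h2⟩
    refine ⟨?_, fun k hk => ?_⟩
    · have : ∀ c d : F, c ≠ 0 → d ≠ 0 → d ≠ c → d + c = 0 := by decide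
      exact this c _ hc n1 n2
    · by_contra k'
      push Not at k'
      exact hk (repr_eq_zero_of_Dset f he.2 hmj h2 (by rw [h1]; exact one_ne_zero) k'.1 k'.2)
  refine h.tc.nsep (sepf f {m | m ∈ C ∧ m ≠ l} ⟨m0, h0, hl⟩ (m1 := j) l (χ + c • f.coord j)
    (by simpa [chi_j hS] using hc) ?_)
  rintro e he m ⟨hm, hml⟩ h2
  have hψ : (χ + c • f.coord j) e = χ e + c * f.repr e j := by simp
  rw [hψ]
  rcases F_cases (f.repr e j) with h1 | h1 | h1
  · rcases h.cls0 he.1 h1 with k | ⟨i, hi, i', hi', -, r⟩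
    · have k0 := hS.van e k
      refine ⟨by rw [k0, h1, mul_zero, add_zero], fun k hk => ?_⟩
      have := (hS.supp k).1 (ends_in_supp f χ he.2 k0 h2 ((hS.supp m).2 hm) hk)
      by_cases hkl : k = l
      · exact Or.inr (Or.inr hkl)
      · exact Or.inl ⟨this, hkl⟩
    · rw [r, map_sub, Finsupp.sub_apply, hS.yon m hm hml i hi i' hi', sub_self] at h2
      exact absurd rfl h2
  · obtain ⟨k1, k2⟩ := one e he h1 m hm hml h2
    refine ⟨by rw [h1, mul_one, k1], fun k hk => ?_⟩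
    rcases k2 k hk with rfl | rfl
    · exact Or.inl ⟨hm, hml⟩
    · exact Or.inr (Or.inl rfl)
  · obtain ⟨k1, k2⟩ := one (-e) (neg_mem_Ed he) (by simp [h1]) m hm hml (by simpa using h2)
    refine ⟨?_, fun k hk => ?_⟩
    · rw [map_neg] at k1
      rw [h1]
      linear_combination -k1
    · rcases k2 k (by simpa using hk) with rfl | rfl
      · exact Or.inl ⟨hm, hml⟩
      · exact Or.inr (Or.inl rfl)

omit [Fintype κ] [DecidableEq κ] in
theorem dh_or_nu (h : Sj a f j I) (hS : Spec a f j I C χ l) {e : V} (he : e ∈ EE a f)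
    (h1 : f.repr e j = 1) {m : κ} (hm : m ∈ C) (hml : m ≠ l) (h2 : f.repr e m ≠ 0) :
    DH a I e ∨ NU a f I e := by
  refine (h.cls1 he.1 h1).imp_right ?_
  rintro ⟨b, hb, b', hb', -, r⟩ i hi i' hi' hd
  have hmj : m ≠ j := fun e => hS.nj (e ▸ hm)
  have k1 : f.repr (-(a i + a i')) j = 1 := by
    rw [map_neg, map_add, Finsupp.neg_apply, Finsupp.add_apply, h.in_I hi, h.in_I hi']
    decide
  have k2 : f.repr (-(a i + a i')) m = f.repr e m := by
    rw [r]
    simp only [map_neg, map_add, Finsupp.neg_apply, Finsupp.add_apply]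
    rw [hS.yon m hm hml i hi b hb, hS.yon m hm hml i' hi' b' hb']
  rw [form hd k1 hmj (k2 ▸ h2), k2]
  exact (form he.2 h1 hmj h2).symm

omit [Fintype κ] [DecidableEq κ] in
theorem two_dh (h : Sj a f j I) {e e' : V} (he : e ∈ EE a f) (h1 : f.repr e j = 1)
    (h' : DH a I e' ∨ NU a f I e') (hne : e ≠ e') : DH a I e ∨ DH a I e' := by
  rcases h.cls1 he.1 h1 with k | ⟨b, hb, b', hb', -, r⟩
  · exact Or.inl k
  · rcases h' with k | k
    · exact Or.inr k
    · exact absurd (r.trans (k b hb b' hb' (r ▸ he.2))) hne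

omit [Fintype ι] [Fintype κ] [DecidableEq κ] in
theorem core (hS : Spec a f j I C χ l) {e1 e2 e e' : V} (d1 : DH a I e1) (d2 : DH a I e2)
    (d : DH a I e) (he' : e' ∈ Dset (Tset a)) (c1 : χ e1 = 1) (c2 : χ e2 = -1) (c : χ e = 0)
    (s1 : ∀ i ∈ I, a.repr (e1 + e2 + f j) i = 0) (s2 : ∀ i ∈ I, a.repr (e + e' + f j) i = 0) :
    False := by
  obtain ⟨p, hp, t1, ht1, rfl⟩ := d1
  obtain ⟨q, hq, t2, ht2, rfl⟩ := d2
  obtain ⟨r, hr, t, ht, rfl⟩ := d
  rw [chi_dh hS _ ht1] at c1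
  rw [chi_dh hS _ ht2] at c2
  rw [chi_dh hS _ ht] at c
  have pq : p ≠ q := fun e => F_one_ne_neg_one (c1.symm.trans (e ▸ c2))
  have pr : p ≠ r := fun e => one_ne_zero (by rw [← c1, e, c])
  have qr : q ≠ r := fun e => neg_ne_zero.2 one_ne_zero (by rw [← c2, e, c])
  have key : ∀ i ∈ I, a.repr e' i = (if p = i then 1 else 0) + (if q = i then 1 else 0) -
      (if r = i then 1 else 0) := by
    intro i hi
    have k1 := s1 i hi
    have k2 := s2 i hi
    rw [map_add, map_add, Finsupp.add_apply, Finsupp.add_apply] at k1 k2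
    rw [alpha_dh p ht1 hi, alpha_dh q ht2 hi] at k1
    rw [alpha_dh r ht hi] at k2
    linear_combination k2 - k1
  rcases (mem_Dset_iff a).1 he' p q r (by simp [key p hp, pq.symm, pr.symm])
    (by simp [key q hq, pq, qr.symm]) (by simp [key r hr, pr, qr]) with k | k | k
  exacts [pq k, pr k, qr k]

omit [Fintype ι] [DecidableEq ι] [Fintype κ] [DecidableEq κ] in
theorem other {C' : Finset κ} {χ' : V →ₗ[F] F} {l' : κ} (hS : Spec a f j I C χ l)
    (hS' : Spec a f j I C' χ' l') (hd : Disjoint C C') {e : V} (he : e ∈ Dset (Tset f))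
    (h1 : f.repr e j = 1) (h : ∃ m ∈ C, f.repr e m ≠ 0) : χ' e = 0 := by
  obtain ⟨m, hm, h2⟩ := h
  rw [chi_form hS' he h1 (fun e => hS.nj (e ▸ hm)) h2,
    not_not.1 (mt (hS'.supp m).1 (Finset.disjoint_left.1 hd hm)), mul_zero]

end F1A

open F1A

theorem s_f1a : S_F1a := by
  intro V _ _ ι κ _ _ _ _ a f j I C χ l h hS
  by_cases hC : ∀ m ∈ C, m = l
  · exact single h hS hC
  push Not at hC
  obtain ⟨m0, h0, hl⟩ := hC
  obtain ⟨e1, he1, b1, c1, m1, hm1, l1, k1⟩ := exists_edge h.sj hS h0 hl one_ne_zero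
  obtain ⟨e2, he2, b2, c2, m2, hm2, l2, k2⟩ :=
    exists_edge h.sj hS h0 hl (neg_ne_zero.2 one_ne_zero)
  exact ⟨e1, he1, e2, he2, b1, b2, c1, c2, ⟨m1, hm1, k1⟩, ⟨m2, hm2, k2⟩,
    sum_zero hS he1.2 he2.2 b1 b2 c1 c2, dh_or_nu h.sj hS he1 b1 hm1 l1 k1,
    dh_or_nu h.sj hS he2 b2 hm2 l2 k2⟩

theorem s_f1b : S_F1b := by
  intro V _ _ ι κ _ _ _ _ a f j I C C' χ χ' l l' h hS hS'
    ⟨e1, he1, e2, he2, b1, b2, c1, c2, k1, k2, s, n1, n2⟩
    ⟨e3, he3, e4, he4, b3, b4, c3, c4, k3, k4, s', n3, n4⟩ hd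
  have z1 := other hS hS' hd he1.2 b1 k1
  have z2 := other hS hS' hd he2.2 b2 k2
  have z3 := other hS' hS hd.symm he3.2 b3 k3
  have z4 := other hS' hS hd.symm he4.2 b4 k4
  have m1 : (-1 : F) ≠ 0 := neg_ne_zero.2 one_ne_zero
  have d12 := two_dh h he1 b1 n2 fun e => F_one_ne_neg_one (c1.symm.trans (e ▸ c2))
  have d34 := two_dh h he3 b3 n4 fun e => F_one_ne_neg_one (c3.symm.trans (e ▸ c4))
  have d13 := two_dh h he1 b1 n3 fun e => one_ne_zero (by rw [← c1, e, z3])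
  have d14 := two_dh h he1 b1 n4 fun e => one_ne_zero (by rw [← c1, e, z4])
  have d23 := two_dh h he2 b2 n3 fun e => m1 (by rw [← c2, e, z3])
  have d24 := two_dh h he2 b2 n4 fun e => m1 (by rw [← c2, e, z4])
  by_cases p : DH a I e3 ∧ DH a I e4
  · rcases d12 with d | d
    · exact core hS' p.1 p.2 d he2.1 c3 c4 z1 s' s
    · exact core hS' p.1 p.2 d he1.1 c3 c4 z2 s' (by rwa [add_comm e2 e1])
  · have d1 : DH a I e1 := by_contra fun k => p ⟨d13.resolve_left k, d14.resolve_left k⟩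
    have d2 : DH a I e2 := by_contra fun k => p ⟨d23.resolve_left k, d24.resolve_left k⟩
    rcases d34 with d | d
    · exact core hS d1 d2 d he4.1 c1 c2 z3 s s'
    · exact core hS d1 d2 d he3.1 c1 c2 z4 s (by rwa [add_comm e4 e3])

end Pool.Agent.P.MP_053557_co
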