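import Pool.Agent.P.MP_053557_co.Stmts2

/-! The final theorem from the intermediate statements. -/

namespace Pool.Agent.P.MP_053557_co

open Module Submodule

namespace Final

theorem mem_of_inc {V E : Type} [DecidableEq V] (G : E → Sym2 V) {v : V} {e : E}
    (h : (inc G v e : F) ≠ 0) : v ∈ G e := by
  rw [← Sym2.mem_toMultiset, ← Multiset.count_pos]
  rcases Nat.eq_zero_or_pos (inc G v e) with h0 | h0
  · rw [h0] at h
    exact absurd rfl h
  · exact h0

theorem three_mem {V : Type} (z : Sym2 V) {i j k : V} (hi : i ∈ z) (hj : j ∈ z) (hk : k ∈ z) :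
    i = j ∨ i = k ∨ j = k := by
  induction z using Sym2.ind with
  | _ x y =>
    rw [Sym2.mem_iff] at hi hj hk
    rcases hi with rfl | rfl <;> rcases hj with rfl | rfl <;> rcases hk with rfl | rfl <;> simp

theorem signed_left {V W E : Type} [DecidableEq V] (G : E → Sym2 V) :
    IsSigned (Sum.elim (fun v e => (inc G v e : F)) 0 : V ⊕ W → E → F) := by
  rintro e (i | i) (j | j) (k | k) hi hj hk <;>
    first
    | exact absurd rfl hi
    | exact absurd rfl hj
    | exact absurd rfl hk
    | skip
  simpa using three_mem (G e) (mem_of_inc G hi) (mem_of_inc G hj) (mem_of_inc G hk)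

theorem signed_right {V W E : Type} [DecidableEq W] (H : E → Sym2 W) :
    IsSigned (Sum.elim 0 (fun w e => (inc H w e : F)) : V ⊕ W → E → F) := by
  rintro e (i | i) (j | j) (k | k) hi hj hk <;>
    first
    | exact absurd rfl hi
    | exact absurd rfl hj
    | exact absurd rfl hk
    | skip
  simpa using three_mem (H e) (mem_of_inc H hi) (mem_of_inc H hj) (mem_of_inc H hk)

theorem pad_left {V W E : Type} (M : V → E → F) (S : Set E) :
    LinearIndepOn F (fun e v => (Sum.elim M 0 : V ⊕ W → E → F) v e) S ↔
      LinearIndepOn F (fun e v => M v e) S := by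
  let f : (V → F) →ₗ[F] (V ⊕ W → F) :=
    { toFun := fun x => Sum.elim x 0
      map_add' := fun x y => by ext (v | v) <;> simp
      map_smul' := fun c x => by ext (v | v) <;> simp }
  have hf : Function.Injective f := fun x y h => funext fun v => congrFun h (Sum.inl v)
  have h1 : (fun e v => (Sum.elim M 0 : V ⊕ W → E → F) v e) = f ∘ fun e v => M v e := by
    ext e (v | v) <;> rfl
  rw [h1]
  exact f.linearIndepOn_iff_of_injOn hf.injOn

theorem pad_right {V W E : Type} (M : W → E → F) (S : Set E) :
    LinearIndepOn F (fun e v => (Sum.elim 0 M : V ⊕ W → E → F) v e) S ↔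
      LinearIndepOn F (fun e v => M v e) S := by
  let f : (W → F) →ₗ[F] (V ⊕ W → F) :=
    { toFun := fun x => Sum.elim 0 x
      map_add' := fun x y => by ext (v | v) <;> simp
      map_smul' := fun c x => by ext (v | v) <;> simp }
  have hf : Function.Injective f := fun x y h => funext fun v => congrFun h (Sum.inr v)
  have h1 : (fun e v => (Sum.elim 0 M : V ⊕ W → E → F) v e) = f ∘ fun e v => M v e := by
    ext e (v | v) <;> rfl
  rw [h1]
  exact f.linearIndepOn_iff_of_injOn hf.injOn

theorem signed_scale {ι E : Type} {M : ι → E → F} (h : IsSigned M) (ε : E → F) :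
    IsSigned fun i e => ε e * M i e := fun e i j k hi hj hk =>
  h e i j k (right_ne_zero_of_mul hi) (right_ne_zero_of_mul hj) (right_ne_zero_of_mul hk)

theorem reorient {ι E : Type} [DecidableEq ι] [Fintype E] [DecidableEq E] {M : ι → E → F}
    (h : IsSigned M) (T : Finset E) :
    Relation.EqvGen Step (fun i e => (if e ∈ T then -1 else 1) * M i e) M := by
  induction T using Finset.induction_on with
  | empty =>
    have : (fun i e => (if e ∈ (∅ : Finset E) then (-1 : F) else 1) * M i e) = M := by
      ext i e; simp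
    rw [this]
    exact Relation.EqvGen.refl _
  | insert x T hx ih =>
    refine Relation.EqvGen.trans _ _ _ (Relation.EqvGen.symm _ _ (Relation.EqvGen.rel _ _ ?_)) ih
    refine ⟨signed_scale h _, signed_scale h _, Or.inr ⟨x, ?_⟩⟩
    ext i e
    by_cases he : e = x
    · subst he
      simp [hx]
    · simp [he]

theorem span_le_of_ker {ι κ E : Type} [Fintype E] [DecidableEq E] (M : ι → E → F)
    (N : κ → E → F) (h : ∀ c : E → F, (∀ i, ∑ e, c e * M i e = 0) → ∀ k, ∑ e, c e * N k e = 0) :
    span F (Set.range N) ≤ span F (Set.range M) := by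
  rw [span_le]
  rintro _ ⟨k, rfl⟩
  by_contra hk
  obtain ⟨φ, h1, h2⟩ := exists_functional hk
  have key : ∀ x : E → F, φ x = ∑ e, φ (fun j => if e = j then 1 else 0) * x e := by
    intro x
    rw [LinearMap.pi_apply_eq_sum_univ]
    exact Finset.sum_congr rfl fun e _ => by rw [smul_eq_mul, mul_comm]
  have h3 := h (fun e => φ (fun j => if e = j then 1 else 0))
    (fun i => by rw [← key]; exact h2 _ (subset_span ⟨i, rfl⟩)) k
  rw [← key, h1] at h3
  exact one_ne_zero h3

theorem complete (hJ2 : S_J2) (hR : S_ROWS) {ι E : Type} [Fintype ι] [DecidableEq ι]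
    [Fintype E] [DecidableEq E] (M M' : ι → E → F) (hM : IsSigned M) (hM' : IsSigned M')
    (h : ∀ S : Set E, LinearIndepOn F (fun e v => M v e) S ↔
      LinearIndepOn F (fun e v => M' v e) S) : Relation.EqvGen Step M M' := by
  obtain ⟨ε, h1, h2⟩ := hJ2 _ _ h
  have he : ∀ e, ε e = if e ∈ Finset.univ.filter (fun e => ε e = -1) then -1 else 1 := by
    intro e
    rcases F_ne_cases (h1 e) with h3 | h3 <;> simp [h3, F_one_ne_neg_one]
  have h3 : ∀ c : E → F, (∀ i, ∑ e, c e * M i e = 0) ↔ ∀ i, ∑ e, c e * (ε e * M' i e) = 0 := by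
    intro c
    have h4 := h2 c
    rw [funext_iff, funext_iff] at h4
    simpa [Finset.sum_apply] using h4
  refine Relation.EqvGen.trans _ (fun i e => ε e * M' i e) _ ?_ ?_
  · refine hR _ _ hM (signed_scale hM' ε) (le_antisymm ?_ ?_)
    · exact span_le_of_ker _ _ fun c hc => (h3 c).2 hc
    · exact span_le_of_ker _ _ fun c hc => (h3 c).1 hc
  · have h4 := reorient hM' (Finset.univ.filter fun e => ε e = -1)
    have h5 : (fun i e => ε e * M' i e) = fun i e =>
        (if e ∈ Finset.univ.filter (fun e => ε e = -1) then -1 else 1) * M' i e := by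
      ext i e
      rw [← he e]
    rw [h5]
    exact h4

end Final

theorem s_final (hJ1 : S_J1) (hJ2 : S_J2) (hS : S_SOUND) (hR : S_ROWS) {V W E : Type}
    [Fintype V] [DecidableEq V] [Fintype W] [DecidableEq W] [Fintype E] [DecidableEq E]
    (G : E → Sym2 V) (H : E → Sym2 W) :
    (∀ S : Set E, LinearIndepOn ℝ (fun e v => (inc G v e : ℝ)) S ↔
      LinearIndepOn ℝ (fun e w => (inc H w e : ℝ)) S) ↔
    Relation.EqvGen Step
      (Sum.elim (fun v e => (inc G v e : ZMod 3)) 0 : V ⊕ W → E → ZMod 3)
      (Sum.elim 0 (fun w e => (inc H w e : ZMod 3))) := by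
  constructor
  · intro h
    refine Final.complete hJ2 hR _ _ (Final.signed_left G) (Final.signed_right H) fun S => ?_
    rw [Final.pad_left, Final.pad_right, ← hJ1 G S, ← hJ1 H S]
    exact h S
  · intro h S
    have h1 := hS _ _ h S
    rw [Final.pad_left, Final.pad_right, ← hJ1 G S, ← hJ1 H S] at h1
    exact h1

end Pool.Agent.P.MP_053557_co
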