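import Pool.Agent.P.MP_053557_co.Basic2

/-! Elementary properties of a geodesic, and the count of joints attached to it. -/

namespace Pool.Agent.P.MP_053557_co

open Module Submodule

namespace G1A

variable {V : Type} [AddCommGroup V] [Module F V] {ι κ ρ : Type} [Fintype ι] [DecidableEq ι]
  [Fintype κ] [DecidableEq κ] {a : Basis ι F V} {f : Basis κ F V} {x : ℤ → V} {L : ℕ}

omit [DecidableEq ι] [DecidableEq κ] in
theorem gm_ne (h : Af a f) {y : V} (hy : y ∈ Gm a) (l : κ) : f.repr y l ≠ 0 := by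
  obtain ⟨i, rfl | rfl⟩ := mem_Gm_iff.1 hy
  · exact h.full i l
  · simpa using h.full i l

omit [DecidableEq ι] [DecidableEq κ] in
theorem tri (h : Af a f) {u v w : V} (hu : u ∈ Gm a) (hv : v ∈ Gm a) (hw : w ∈ Gm a) (l : κ) :
    l ∈ Df f u w ↔ ¬ (l ∈ Df f u v ↔ l ∈ Df f v w) := by
  simp only [mem_Df]
  have h1 := gm_ne h hu l
  have h2 := gm_ne h hv l
  have h3 := gm_ne h hw l
  revert h1 h2 h3
  generalize f.repr u l = c
  generalize f.repr v l = d
  generalize f.repr w l = e
  revert c d e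
  decide

omit [DecidableEq κ] in
theorem eq_of_Df {u v : V} (h : (Df f u v).card = 0) : u = v := by
  rw [Finset.card_eq_zero] at h
  refine eq_of_repr f fun l => by_contra fun hc => ?_
  have : l ∈ Df f u v := mem_Df.2 hc
  simp [h] at this

theorem common (afb : S_AFB) (h : Af a f) {u v w : V} (hu : u ∈ Gm a) (hv : v ∈ Gm a)
    (hw : w ∈ Gm a) (h1 : Adj f u v) (h2 : Adj f v w) {l : κ} (l1 : l ∈ Df f u v)
    (l2 : l ∈ Df f v w) : u = w ∨ Adj f u w := by
  have A := (afb a f h).1
  have c1 := (A u hu v hv).1 h1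
  have c2 := (A v hv w hw).1 h2
  have hsub : Df f u w ⊆ (Df f u v).erase l ∪ (Df f v w).erase l := by
    intro m hm
    rw [tri h hu hv hw] at hm
    have : m ≠ l := by rintro rfl; exact hm ⟨fun _ => l2, fun _ => l1⟩
    simp only [Finset.mem_union, Finset.mem_erase]
    tauto
  have h3 := (Finset.card_le_card hsub).trans (Finset.card_union_le _ _)
  rw [Finset.card_erase_of_mem l1, Finset.card_erase_of_mem l2, c1, c2] at h3
  obtain ⟨k, hk⟩ := h.even u hu w hw
  by_cases h0 : (Df f u w).card = 0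
  · exact Or.inl (eq_of_Df h0)
  · exact Or.inr ((A u hu w hw).2 (by omega))

section geo

omit [Fintype ι] [DecidableEq ι] [Fintype κ] [DecidableEq κ]

theorem perL (g : Geo a f x L) (s k : ℤ) : x (s + k * L) = x s ∨ x (s + k * L) = -x s := by
  induction k using Int.induction_on with
  | zero => simp
  | succ k ih =>
    have := g.anti (s + k * L)
    rw [show s + (k + 1 : ℤ) * L = s + k * L + L by ring, this]
    rcases ih with h | h <;> simp [h]
  | pred k ih =>
    have := g.anti (s + (-k - 1 : ℤ) * L)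
    rw [show s + (-k - 1 : ℤ) * L + L = s + (-k : ℤ) * L by ring] at this
    rcases ih with h | h <;> rw [h] at this
    · exact Or.inr (by rw [this, neg_neg])
    · exact Or.inl (neg_injective this).symm

theorem per2 (g : Geo a f x L) (s : ℤ) : x (s + 2 * L) = x s := by
  rw [show s + 2 * L = s + L + L by ring, g.anti, g.anti, neg_neg]

theorem per2k (g : Geo a f x L) (s k : ℤ) : x (s + k * (2 * L)) = x s := by
  induction k using Int.induction_on with
  | zero => simp
  | succ k ih => rw [show s + (k + 1 : ℤ) * (2 * L) = s + k * (2 * L) + 2 * L by ring, per2 g, ih]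
  | pred k ih =>
    rw [← per2 g, show s + (-k - 1 : ℤ) * (2 * L) + 2 * L = s + (-k : ℤ) * (2 * L) by ring, ih]

theorem red2 (g : Geo a f x L) (s t : ℤ) : ∃ r : ℤ, 0 ≤ r ∧ r < 2 * L ∧ x t = x (s + r) := by
  have hL : (0 : ℤ) < 2 * L := by have := g.pos; omega
  refine ⟨(t - s) % (2 * L), Int.emod_nonneg _ hL.ne', Int.emod_lt_of_pos _ hL, ?_⟩
  rw [← per2k g (s + (t - s) % (2 * L)) ((t - s) / (2 * L))]
  congr 1
  have := Int.emod_add_ediv_mul (t - s) (2 * L)
  linarith

theorem red1 (g : Geo a f x L) (t : ℤ) : ∃ s : ℕ, s < L ∧ (x t = x s ∨ x t = -x s) := by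
  have hL : (0 : ℤ) < L := by have := g.pos; omega
  have h1 := Int.emod_nonneg t hL.ne'
  have h2 := Int.emod_lt_of_pos t hL
  refine ⟨(t % L).toNat, by omega, ?_⟩
  have h3 := perL g (t % L) (t / L)
  rwa [Int.emod_add_ediv_mul, ← Int.toNat_of_nonneg h1] at h3

theorem nb_geo (g : Geo a f x L) {s t : ℤ} (h : Adj f (x s) (x t)) :
    x t = x (s + 1) ∨ x t = x (s - 1) := by
  obtain ⟨r, r0, r1, hr⟩ := red2 g s t
  rw [hr] at h ⊢
  by_cases h0 : r = 0
  · subst h0; exact (h.1 (by simp)).elim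
  by_cases h1 : r = 1
  · subst h1; exact Or.inl rfl
  by_cases h2 : r = 2 * L - 1
  · right
    rw [← per2 g (s - 1), h2]
    congr 1; ring
  · exact (g.d1 s r (by omega) (by omega) h).elim

theorem near (g : Geo a f x L) {y : V} (hy : y ∈ Gm a) {s t : ℤ} (h1 : Adj f y (x s))
    (h2 : Adj f y (x t)) : x t = x s ∨ x t = x (s + 1) ∨ x t = x (s + 2) ∨ x t = x (s - 1) ∨
      x t = x (s - 2) := by
  obtain ⟨r, r0, r1, hr⟩ := red2 g s t
  rw [hr] at h2 ⊢
  have h3 : r ≤ 2 ∨ 2 * L - 2 ≤ r := by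
    by_contra hc
    exact g.d2 s r y hy (by omega) (by omega) h1 h2
  have : r = 0 ∨ r = 1 ∨ r = 2 ∨ r = 2 * L - 1 ∨ r = 2 * L - 2 := by omega
  rcases this with h | h | h | h | h
  · left; simp [h]
  · right; left; rw [h]
  · right; right; left; rw [h]
  · right; right; right; left
    rw [← per2 g (s - 1), h]; congr 1; ring
  · right; right; right; right
    rw [← per2 g (s - 2), h]; congr 1; ring

theorem off_neg (g : Geo a f x L) {y : V} (h : Off a x y) : Off a x (-y) :=
  ⟨neg_mem_Gm h.1, fun s hs => h.2 (s + L) (by rw [g.anti, ← hs, neg_neg])⟩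

end geo

omit [DecidableEq ι] in
theorem odd_flips (h : Af a f) (g : Geo a f x L) (l : κ) :
    Odd ((Finset.range L).filter fun s : ℕ => l ∈ Df f (x s) (x (s + 1))).card := by
  have key : ∀ n : ℕ, Odd ((Finset.range n).filter fun s : ℕ =>
      l ∈ Df f (x s) (x (s + 1))).card ↔ l ∈ Df f (x 0) (x n) := by
    intro n
    induction n with
    | zero => simp [mem_Df]
    | succ n ih =>
      rw [Finset.range_add_one, Finset.filter_insert, Nat.cast_succ,
        tri h (g.mem 0) (g.mem n) (g.mem (n + 1)), ← ih]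
      split_ifs with hn
      · rw [Finset.card_insert_of_notMem (by simp), Nat.odd_add_one]
        simp [hn]
      · simp [hn]
  rw [key, mem_Df]
  have h1 := g.anti 0
  rw [zero_add] at h1
  rw [h1, map_neg, Finsupp.neg_apply]
  have h2 := gm_ne h (g.mem 0) l
  revert h2
  generalize f.repr (x 0) l = c
  revert c
  decide

theorem card_le (afb : S_AFB) (h : Af a f) (g : Geo a f x L) : Fintype.card ι ≤ 2 * L := by
  have h1 : ∑ l : κ, ((Finset.range L).filter fun s : ℕ => l ∈ Df f (x s) (x (s + 1))).card =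
      ∑ s ∈ Finset.range L, (Df f (x s) (x (s + 1))).card := by
    simp only [Finset.card_filter]
    rw [Finset.sum_comm]
    refine Finset.sum_congr rfl fun s _ => ?_
    rw [← Finset.card_filter, Finset.filter_mem_eq_inter, Finset.univ_inter]
  rw [Finset.sum_congr rfl fun (s : ℕ) _ =>
    ((afb a f h).1 _ (g.mem s) _ (g.mem (s + 1))).1 (g.adj s)] at h1
  have h2 : ∑ _l : κ, 1 ≤ ∑ l : κ,
      ((Finset.range L).filter fun s : ℕ => l ∈ Df f (x s) (x (s + 1))).card :=
    Finset.sum_le_sum fun l _ => (odd_flips h g l).pos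
  rw [h1] at h2
  simp only [Finset.sum_const, Finset.card_univ, smul_eq_mul, mul_one, Finset.card_range] at h2
  rw [← card_eq_card a f]
  omega

theorem four_le (afb : S_AFB) (h : Af a f) (g : Geo a f x L) : 4 ≤ L := by
  have := card_le afb h g
  have := h.eight
  omega

theorem disj (afb : S_AFB) (h : Af a f) (g : Geo a f x L) (s : ℤ) :
    Disjoint (Df f (x (s - 1)) (x s)) (Df f (x s) (x (s + 1))) := by
  have h4 := four_le afb h g
  rw [Finset.disjoint_left]
  intro l l1 l2
  have h1 := g.adj (s - 1)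
  rw [sub_add_cancel] at h1
  have e : s + 1 = s - 1 + 2 := by ring
  rcases common afb h (g.mem _) (g.mem _) (g.mem _) h1 (g.adj s) l1 l2 with h2 | h2
  · exact g.d0 (s - 1) 2 (by omega) (by omega) (by rw [← e, h2])
  · exact g.d1 (s - 1) 2 (by omega) (by omega) (by rwa [← e])

theorem win (afb : S_AFB) (h : Af a f) (g : Geo a f x L) {y : V} {s : ℤ} (hy : Off a x y)
    (h1 : Adj f y (x s)) (h2 : Adj f y (x (s + 2))) : Adj f y (x (s + 1)) := by
  have A := (afb a f h).1
  have m0 := g.mem s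
  have m1 := g.mem (s + 1)
  have m2 := g.mem (s + 2)
  have a2 : Adj f (x (s + 1)) (x (s + 2)) := by
    have := g.adj (s + 1)
    rwa [show s + 1 + 1 = s + 2 by ring] at this
  have hd := disj afb h g (s + 1)
  rw [show s + 1 - 1 = s by ring, show s + 1 + 1 = s + 2 by ring] at hd
  by_cases hc : ∃ l ∈ Df f y (x s), l ∈ Df f (x s) (x (s + 1))
  · obtain ⟨l, l1, l2⟩ := hc
    rcases common afb h hy.1 m0 m1 h1 (g.adj s) l1 l2 with h3 | h3
    · exact (hy.2 _ h3).elim
    · exact h3
  exfalso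
  push Not at hc
  have cP := (A _ hy.1 _ m0).1 h1
  have cQ := (A _ hy.1 _ m2).1 h2
  have c1 := (A _ m0 _ m1).1 (g.adj s)
  have c2 := (A _ m1 _ m2).1 a2
  have hsub : Df f (x s) (x (s + 1)) ∪ Df f (x (s + 1)) (x (s + 2)) ⊆
      Df f y (x s) ∪ Df f y (x (s + 2)) := by
    intro l hl
    have t1 := tri h m0 m1 m2 l
    have t2 := tri h m0 hy.1 m2 l
    rw [Df_comm f (x s) y] at t2
    have t3 : l ∈ Df f (x s) (x (s + 1)) → l ∉ Df f (x (s + 1)) (x (s + 2)) :=
      fun hl => Finset.disjoint_left.1 hd hl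
    simp only [Finset.mem_union] at hl ⊢
    tauto
  have heq := Finset.eq_of_subset_of_card_le hsub (by
    rw [Finset.card_union_of_disjoint hd, c1, c2]
    exact (Finset.card_union_le _ _).trans (by omega))
  have hP : Df f y (x s) = Df f (x (s + 1)) (x (s + 2)) := by
    refine Finset.eq_of_subset_of_card_le (fun l hl => ?_) (by omega)
    have : l ∈ Df f (x s) (x (s + 1)) ∪ Df f (x (s + 1)) (x (s + 2)) :=
      heq ▸ Finset.mem_union_left _ hl
    exact (Finset.mem_union.1 this).resolve_left (hc l hl)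
  have hpar : y + x (s + 1) = x s + x (s + 2) := by
    refine eq_of_repr f fun l => ?_
    have t1 : l ∈ Df f y (x s) ↔ l ∈ Df f (x (s + 1)) (x (s + 2)) := by rw [hP]
    have t3 : l ∈ Df f (x s) (x (s + 1)) → l ∉ Df f (x (s + 1)) (x (s + 2)) :=
      fun hl => Finset.disjoint_left.1 hd hl
    simp only [mem_Df] at t1 t3
    simp only [map_add, Finsupp.add_apply]
    have n0 := gm_ne h hy.1 l
    have n1 := gm_ne h m0 l
    have n2 := gm_ne h m1 l
    have n3 := gm_ne h m2 l
    revert t1 t3 n0 n1 n2 n3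
    generalize f.repr y l = c
    generalize f.repr (x s) l = p
    generalize f.repr (x (s + 1)) l = q
    generalize f.repr (x (s + 2)) l = r
    revert c p q r
    decide
  rcases par hy.1 m1 m0 m2 hpar with h3 | h3 | h3
  · exact hy.2 _ h3.1
  · exact hy.2 _ h3.1
  · exact hy.2 (s + 1 + L) (by rw [g.anti]; exact h3.1)

/-- two neighbours of `x s` avoiding `c` -/
theorem two_nb (afb : S_AFB) (h : Af a f) (g : Geo a f x L) (s : ℤ) {c : κ}
    (hc : c ∈ Df f (x s) (x (s + 1)) ∨ c ∈ Df f (x s) (x (s - 1))) :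
    ∃ y, Off a x y ∧ Adj f y (x s) ∧ c ∉ Df f (x s) y := by
  obtain ⟨y, hy, y', hy', hne, a1, a2, c1, c2⟩ := (afb a f h).2.2.2.1 _ (g.mem s) c
  by_cases o1 : Off a x y
  · exact ⟨y, o1, a1.symm, c1⟩
  by_cases o2 : Off a x y'
  · exact ⟨y', o2, a2.symm, c2⟩
  exfalso
  simp only [Off, hy, hy', true_and, not_forall, not_not] at o1 o2
  obtain ⟨t, rfl⟩ := o1
  obtain ⟨t', rfl⟩ := o2
  rcases nb_geo g a1 with e1 | e1 <;> rcases nb_geo g a2 with e2 | e2
  · exact hne (e1.trans e2.symm)
  · rw [e1] at c1; rw [e2] at c2; tauto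
  · rw [e1] at c1; rw [e2] at c2; tauto
  · exact hne (e1.trans e2.symm)

theorem off_nb (afb : S_AFB) (h : Af a f) (g : Geo a f x L) (s : ℤ) :
    ∃ y, Off a x y ∧ Adj f y (x s) := by
  have c1 := ((afb a f h).1 _ (g.mem s) _ (g.mem (s + 1))).1 (g.adj s)
  obtain ⟨c, hc⟩ := Finset.card_pos.1 (show 0 < (Df f (x s) (x (s + 1))).card by omega)
  obtain ⟨y, h1, h2, -⟩ := two_nb afb h g s (Or.inl hc)
  exact ⟨y, h1, h2⟩

theorem uniq (afb : S_AFB) (h : Af a f) (g : Geo a f x L) {s : ℤ} {y : V} (hy : Off a x y)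
    (h1 : Adj f y (x s)) (hu : ∀ z, Off a x z → Adj f z (x s) → z = y) {t : ℤ}
    (h2 : Adj f y (x t)) : x t = x s := by
  have A := (afb a f h).1
  have key : ∀ u : ℤ, (u = s + 1 ∨ u = s - 1) → ¬ Adj f y (x u) := by
    intro u hu' h3
    have a1 : Adj f (x s) (x u) := by
      rcases hu' with rfl | rfl
      · exact g.adj s
      · have := g.adj (s - 1)
        rw [sub_add_cancel] at this
        exact this.symm
    have hd : Disjoint (Df f y (x s)) (Df f (x s) (x u)) := by
      rw [Finset.disjoint_right]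
      intro c hc
      obtain ⟨z, z1, z2, z3⟩ := two_nb afb h g s (c := c) (by rcases hu' with rfl | rfl <;> tauto)
      rwa [hu z z1 z2, Df_comm] at z3
    have hsub : Df f y (x s) ∪ Df f (x s) (x u) ⊆ Df f y (x u) := by
      intro l hl
      have t1 := tri h hy.1 (g.mem s) (g.mem u) l
      have t3 : l ∈ Df f y (x s) → l ∉ Df f (x s) (x u) :=
        fun hl => Finset.disjoint_left.1 hd hl
      simp only [Finset.mem_union] at hl
      tauto
    have := Finset.card_le_card hsub
    rw [Finset.card_union_of_disjoint hd, (A _ hy.1 _ (g.mem s)).1 h1,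
      (A _ (g.mem s) _ (g.mem u)).1 a1, (A _ hy.1 _ (g.mem u)).1 h3] at this
    omega
  rcases near g hy.1 h1 h2 with e | e | e | e | e
  · exact e
  · exact (key _ (Or.inl rfl) (e ▸ h2)).elim
  · exact (key _ (Or.inl rfl) (win afb h g hy h1 (e ▸ h2))).elim
  · exact (key _ (Or.inr rfl) (e ▸ h2)).elim
  · have := win afb h g hy (s := s - 2) (e ▸ h2) (by rwa [sub_add_cancel])
    exact (key _ (Or.inr (by ring)) this).elim

omit [DecidableEq κ] [Fintype ι] [Fintype κ] in
theorem exists_J (g : Geo a f x L) : ∃ J : Finset ι, J.card = L ∧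
    ∀ i, i ∈ J ↔ ∃ s, a i = x s := by
  choose idx hidx using fun s => mem_Gm_iff.1 (g.mem s)
  have hidx' : ∀ s i, (x s = a i ∨ x s = -a i) → idx s = i := by
    intro s i hi
    by_contra hc
    have h1 : a.repr (x s) i = 0 := by
      rcases hidx s with e | e <;> rw [e] <;> simp [single_ne hc]
    rcases hi with e | e <;> rw [e] at h1 <;> simp at h1
  refine ⟨(Finset.range L).image fun s : ℕ => idx s, ?_, fun i => ?_⟩
  · rw [Finset.card_image_of_injOn, Finset.card_range]
    intro s hs t ht hst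
    simp only [Finset.coe_range, Set.mem_Iio] at hs ht
    have hst' : idx s = idx t := hst
    have h1 : x s = x t ∨ x s = -x t := by
      rcases hidx s with e | e <;> rcases hidx t with e' | e' <;> rw [e, e', hst'] <;> simp
    rcases h1 with h1 | h1
    · by_contra hc
      rcases Nat.lt_or_gt_of_ne hc with h2 | h2
      · exact g.d0 s (t - s) (by omega) (by omega) (by rw [add_sub_cancel, h1])
      · exact g.d0 t (s - t) (by omega) (by omega) (by rw [add_sub_cancel, h1])
    · exact (g.d0 s (t + L - s) (by omega) (by omega)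
        (by rw [add_sub_cancel, g.anti, h1])).elim
  · simp only [Finset.mem_image, Finset.mem_range]
    constructor
    · rintro ⟨s, -, rfl⟩
      rcases hidx s with e | e
      · exact ⟨s, e.symm⟩
      · exact ⟨s + L, by rw [g.anti, e, neg_neg]⟩
    · rintro ⟨t, ht⟩
      obtain ⟨s, hs, h1⟩ := red1 g t
      refine ⟨s, hs, hidx' s i ?_⟩
      rcases h1 with h1 | h1
      · exact Or.inl (by rw [ht, h1])
      · exact Or.inr (by rw [ht, h1, neg_neg])

end G1A

open G1A in
theorem s_g1 (afb : S_AFB) (hcard : S_CARD) : S_G1 := by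
  intro V _ _ ι κ ρ _ _ _ _ _ _ a f x L χ hq
  have h := hq.af
  have g := hq.geo
  obtain ⟨J, hJ, hmem⟩ := exists_J g
  have hz : ∀ i, i ∉ J → ∀ w ∈ span F (Set.range x), a.repr w i = 0 := by
    intro i hi w hw
    refine repr_span_zero a ?_ hw
    rintro _ ⟨s, rfl⟩
    obtain ⟨j, hj⟩ := mem_Gm_iff.1 (g.mem s)
    have hij : j ≠ i := by
      rintro rfl
      rcases hj with e | e
      · exact hi ((hmem _).2 ⟨s, e.symm⟩)
      · exact hi ((hmem _).2 ⟨s + L, by rw [g.anti, e, neg_neg]⟩)
    rcases hj with e | e <;> rw [e] <;> simp [single_ne hij]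
  have hsp : span F (Set.range x) = span F (Set.range fun j : J => a j) := by
    refine le_antisymm (span_le.2 ?_) (span_le.2 ?_)
    · rintro _ ⟨s, rfl⟩
      obtain ⟨j, hj⟩ := mem_Gm_iff.1 (g.mem s)
      rcases hj with e | e
      · exact subset_span ⟨⟨j, (hmem _).2 ⟨s, e.symm⟩⟩, e.symm⟩
      · rw [e]
        exact neg_mem (subset_span ⟨⟨j, (hmem _).2 ⟨s + L, by rw [g.anti, e, neg_neg]⟩⟩, rfl⟩)
    · rintro _ ⟨j, rfl⟩
      obtain ⟨s, hs⟩ := (hmem _).1 j.2
      exact subset_span ⟨s, hs.symm⟩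
  have hfr : finrank F (span F (Set.range x)) = L := by
    rw [hsp, finrank_span_eq_card (show LinearIndependent F (fun j : J => a j) from
      a.linearIndependent.comp _ Subtype.val_injective),
      Fintype.card_coe, hJ]
  have h2 := hcard f _ χ hq.cells
  rw [hfr, card_eq_card a f] at h2
  have hoff : ∀ i, Off a x (a i) ↔ i ∉ J := by
    intro i
    simp [Off, self_mem_Gm, hmem]
  refine ⟨card_le afb h g, h2, ?_, fun y hy => ⟨fun hw => ?_, ?_⟩, fun l => ?_, odd_flips h g,
    disj afb h g, fun y s hy => win afb h g hy⟩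
  · have : {i | Off a x (a i)} = ((Jᶜ : Finset ι) : Set ι) := by
      ext i; simp [hoff]
    rw [this, Set.ncard_coe_finset, Finset.card_compl, hJ]
    omega
  · obtain ⟨i, hi⟩ := mem_Gm_iff.1 hy
    by_cases hiJ : i ∈ J
    · obtain ⟨s, hs⟩ := (hmem i).1 hiJ
      rcases hi with e | e
      · exact ⟨s, e.trans hs⟩
      · exact ⟨s + L, by rw [g.anti, e, hs]⟩
    · have := hz i hiJ y hw
      rcases hi with e | e <;> rw [e] at this <;> simp at this
  · rintro ⟨s, rfl⟩
    exact subset_span ⟨s, rfl⟩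
  · by_contra hc
    push Not at hc
    obtain ⟨y, hy, -⟩ := off_nb afb h g 0
    obtain ⟨i, hi⟩ := mem_Gm_iff.1 hy.1
    have : Off a x (a i) := by
      rcases hi with e | e
      · rwa [← e]
      · have := off_neg g hy
        rwa [e, neg_neg] at this
    exact h.fullT i l (hz i ((hoff i).1 this) _ (hq.cells.ker _ hc))

open G1A in
theorem s_cnt (afb : S_AFB) : S_CNT := by
  intro V _ _ ι κ ρ _ _ _ _ _ _ a f x L χ hq
  classical
  have h := hq.af
  have g := hq.geo
  have h4 := four_le afb h g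
  set I : Finset ι := Finset.univ.filter fun i => Off a x (a i) ∧ ∃ s, Adj f (a i) (x s) with hI
  have hI' : {i | Off a x (a i) ∧ ∃ s, Adj f (a i) (x s)} = (I : Set ι) := by
    ext i; simp [hI]
  rw [hI', Set.ncard_coe_finset]
  set Y : Finset V := I.image a ∪ I.image fun i => -a i with hY
  have hYc : Y.card ≤ 2 * I.card := by
    have : Y.card ≤ _ := Finset.card_union_le (I.image a) (I.image fun i => -a i)
    have := Finset.card_image_le (s := I) (f := a)
    have := Finset.card_image_le (s := I) (f := fun i => -a i)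
    omega
  have hY1 : ∀ y ∈ Y, Off a x y := by
    intro y hy
    simp only [hY, hI, Finset.mem_union, Finset.mem_image, Finset.mem_filter] at hy
    rcases hy with ⟨i, hi, rfl⟩ | ⟨i, hi, rfl⟩
    · exact hi.2.1
    · exact off_neg g hi.2.1
  have hY2 : ∀ y s, Off a x y → Adj f y (x s) → y ∈ Y := by
    intro y s hy ha
    simp only [hY, hI, Finset.mem_union, Finset.mem_image, Finset.mem_filter, Finset.mem_univ,
      true_and]
    obtain ⟨i, rfl | rfl⟩ := mem_Gm_iff.1 hy.1
    · exact Or.inl ⟨i, ⟨hy, s, ha⟩, rfl⟩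
    · refine Or.inr ⟨i, ⟨by simpa using off_neg g hy, s + L, ?_⟩, rfl⟩
      rw [g.anti]
      simpa using ha.neg
  set w : ℕ → ℕ := fun s => if (Y.filter fun y => Adj f y (x s)).card = 1 then 2 else 1 with hw
  have hsum : ∑ s ∈ Finset.range (2 * L), ∑ y ∈ Y with Adj f y (x s), w s =
      ∑ y ∈ Y, ∑ s ∈ (Finset.range (2 * L)).filter (fun s : ℕ => Adj f y (x s)), w s := by
    simp only [Finset.sum_filter]
    exact Finset.sum_comm
  have h1 : ∑ _s ∈ Finset.range (2 * L), 2 ≤
      ∑ s ∈ Finset.range (2 * L), ∑ y ∈ Y with Adj f y (x s), w s := by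
    refine Finset.sum_le_sum fun s _ => ?_
    obtain ⟨y, hy, ha⟩ := off_nb afb h g s
    have : 0 < (Y.filter fun y => Adj f y (x s)).card :=
      Finset.card_pos.2 ⟨y, Finset.mem_filter.2 ⟨hY2 y s hy ha, ha⟩⟩
    simp only [Finset.sum_const, smul_eq_mul, hw]
    split_ifs <;> omega
  have h2 : ∑ y ∈ Y, ∑ s ∈ (Finset.range (2 * L)).filter (fun s : ℕ => Adj f y (x s)), w s ≤ ∑ _y ∈ Y, 3 := by
    refine Finset.sum_le_sum fun y hy => ?_
    set S := (Finset.range (2 * L)).filter fun s : ℕ => Adj f y (x s) with hS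
    have hSm : ∀ s ∈ S, s < 2 * L ∧ Adj f y (x s) := fun s hs => by simpa [hS] using hs
    by_cases hc : ∃ s ∈ S, (Y.filter fun y => Adj f y (x s)).card = 1
    · obtain ⟨s, hs, hs1⟩ := hc
      have : S = {s} := by
        refine Finset.eq_singleton_iff_unique_mem.2 ⟨hs, fun t ht => ?_⟩
        have e := uniq afb h g (hY1 y hy) (hSm s hs).2 (fun z hz hz' =>
          Finset.card_le_one.1 hs1.le z (Finset.mem_filter.2 ⟨hY2 z s hz hz', hz'⟩) y
            (Finset.mem_filter.2 ⟨hy, (hSm s hs).2⟩)) (hSm t ht).2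
        have := (hSm s hs).1
        have := (hSm t ht).1
        by_contra hne
        rcases Nat.lt_or_gt_of_ne hne with h2 | h2
        · exact g.d0 t (s - t) (by omega) (by omega) (by rw [add_sub_cancel, e])
        · exact g.d0 s (t - s) (by omega) (by omega) (by rw [add_sub_cancel, e])
      rw [this, Finset.sum_singleton]
      simp [hw, hs1]
    · push Not at hc
      rw [Finset.sum_congr rfl fun s hs => (if_neg (hc s hs) : w s = 1)]
      simp only [Finset.sum_const, smul_eq_mul, mul_one]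
      by_contra hlt
      have hpair : ∀ s ∈ S, ∀ t ∈ S, s < t → t - s ≤ 2 ∨ 2 * L - 2 ≤ t - s := by
        intro s hs t ht hst
        by_contra hcc
        exact g.d2 s (t - s) y (hY1 y hy).1 (by omega) (by omega) (hSm s hs).2
          (by rw [add_sub_cancel]; exact (hSm t ht).2)
      let e := S.orderEmbOfFin rfl
      have hm : ∀ i, e i ∈ S := fun i => S.orderEmbOfFin_mem rfl i
      have l1 : e ⟨0, by omega⟩ < e ⟨1, by omega⟩ := e.strictMono (by simp [Fin.lt_def])
      have l2 : e ⟨1, by omega⟩ < e ⟨2, by omega⟩ := e.strictMono (by simp [Fin.lt_def])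
      have l3 : e ⟨2, by omega⟩ < e ⟨3, by omega⟩ := e.strictMono (by simp [Fin.lt_def])
      have p1 := hpair _ (hm _) _ (hm _) l1
      have p2 := hpair _ (hm _) _ (hm _) l2
      have p3 := hpair _ (hm _) _ (hm _) l3
      have p4 := hpair _ (hm _) _ (hm _) (l1.trans l2)
      have p5 := hpair _ (hm _) _ (hm _) (l2.trans l3)
      have p6 := hpair _ (hm _) _ (hm _) (l1.trans (l2.trans l3))
      have p7 := (hSm _ (hm ⟨3, by omega⟩)).1
      omega
  simp only [Finset.sum_const, Finset.card_range, smul_eq_mul] at h1 h2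
  simp only [Finset.sum_const, smul_eq_mul] at hsum
  omega

end Pool.Agent.P.MP_053557_co
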