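import Pool.Agent.P.MP_053557_co.Basic2

/-! The case of full supports: elementary facts and the shortest antipodal path. -/

namespace Pool.Agent.P.MP_053557_co

open Module Submodule

namespace GeoA

variable {V : Type} [AddCommGroup V] [Module F V] {ι κ : Type}

theorem exists_idx {a : Basis ι F V} {x : V} (hx : x ∈ Gm a) :
    ∃ i, a.repr x i ≠ 0 ∧ ∀ j, j ≠ i → a.repr x j = 0 := by
  obtain ⟨i, hi⟩ := exists_repr_ne a hx.2
  exact ⟨i, hi, fun j hj => by_contra fun hc => hj ((mem_Tset_iff a).1 hx.1 j i hc hi)⟩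

variable [Fintype ι] [DecidableEq ι] [Fintype κ] [DecidableEq κ] {a : Basis ι F V}
  {f : Basis κ F V}

theorem four (h : Af a f) {x y z w : V} (hx : x ∈ Gm a) (hy : y ∈ Gm a) (hz : z ∈ Gm a)
    (hw : w ∈ Gm a) :
    ∃ i, a.repr x i = 0 ∧ a.repr y i = 0 ∧ a.repr z i = 0 ∧ a.repr w i = 0 := by
  obtain ⟨i1, -, h1⟩ := exists_idx hx
  obtain ⟨i2, -, h2⟩ := exists_idx hy
  obtain ⟨i3, -, h3⟩ := exists_idx hz
  obtain ⟨i4, -, h4⟩ := exists_idx hw
  have h5 : ({i1, i2, i3, i4} : Finset ι).card < (Finset.univ : Finset ι).card := by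
    have h6 : ({i1, i2, i3, i4} : Finset ι).card ≤ 4 := Finset.card_le_four
    have h7 := h.eight
    rw [Finset.card_univ]
    omega
  obtain ⟨i, -, hi⟩ := Finset.exists_mem_notMem_of_card_lt_card h5
  simp only [Finset.mem_insert, Finset.mem_singleton, not_or] at hi
  exact ⟨i, h1 i hi.1, h2 i hi.2.1, h3 i hi.2.2.1, h4 i hi.2.2.2⟩

theorem full_Gm (h : Af a f) {x : V} (hx : x ∈ Gm a) (l : κ) : f.repr x l ≠ 0 := by
  obtain ⟨i, rfl | rfl⟩ := mem_Gm_iff.1 hx
  · exact h.full i l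
  · simpa using h.full i l

theorem not_edge (h : Af a f) {x : V} (hx : x ∈ Gm a) : x ∉ Dset (Tset f) := by
  intro hc
  rw [mem_Dset_iff_card, Finset.filter_true_of_mem fun l _ => full_Gm h hx l, Finset.card_univ,
    card_eq_card a f] at hc
  have := h.eight
  omega

theorem Df_eq (f : Basis κ F V) (x y : V) :
    Df f x y = Finset.univ.filter fun l => f.repr (x - y) l ≠ 0 := by
  ext l
  simp [mem_Df, sub_eq_zero]

theorem afb1 (h : Af a f) {x y : V} (hx : x ∈ Gm a) (hy : y ∈ Gm a) :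
    Adj f x y ↔ (Df f x y).card = 2 := by
  constructor
  · rintro ⟨h1, h2⟩
    rw [mem_Dset_iff_card, ← Df_eq] at h2
    obtain ⟨l, hl⟩ := exists_repr_ne f (sub_ne_zero.2 h1)
    have h3 : 0 < (Df f x y).card := Finset.card_pos.2 ⟨l, by rw [Df_eq]; simpa using hl⟩
    obtain ⟨m, hm⟩ := h.even x hx y hy
    omega
  · intro h1
    refine ⟨?_, by rw [mem_Dset_iff_card, ← Df_eq, h1]⟩
    rintro rfl
    simp [Df] at h1

theorem afb2 (h : Af a f) {x y z w : V} (hx : x ∈ Gm a) (hy : y ∈ Gm a) (hz : z ∈ Gm a)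
    (hw : w ∈ Gm a) (h1 : Adj f x y) (hd : Df f x y = Df f z w) :
    x - y = z - w ∨ x - y = w - z := by
  by_contra hc
  push Not at hc
  have hs : ∀ l, f.repr (x - y) l ≠ 0 ↔ f.repr (z - w) l ≠ 0 := by
    intro l
    have := congrArg (fun s => l ∈ s) hd
    simpa [Df_eq] using this
  obtain ⟨l, hl⟩ := exists_repr_ne f (sub_ne_zero.2 hc.1)
  obtain ⟨l', hl'⟩ := exists_repr_ne f (sub_ne_zero.2 hc.2)
  have k1 : ∀ c d : F, (c ≠ 0 ↔ d ≠ 0) → c - d ≠ 0 → c ≠ 0 ∧ c + d = 0 := by decide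
  have k2 : ∀ c d : F, (c ≠ 0 ↔ d ≠ 0) → c + d ≠ 0 → c ≠ 0 ∧ c - d = 0 := by decide
  have e1 : ∀ m, f.repr (x - y - (z - w)) m = f.repr (x - y) m - f.repr (z - w) m :=
    fun m => by rw [map_sub]; rfl
  have e2 : f.repr (x - y - (w - z)) l' = f.repr (x - y) l' + f.repr (z - w) l' := by
    rw [show x - y - (w - z) = x - y + (z - w) by abel, map_add]; rfl
  obtain ⟨a1, a2⟩ := k1 _ _ (hs l) (e1 l ▸ hl)
  obtain ⟨b1, b2⟩ := k2 _ _ (hs l') (e2 ▸ hl')
  have hne : l ≠ l' := by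
    rintro rfl
    exact hl (by rw [e1, b2])
  have h3 := eq_smul_of_supp f (x := x - y - (z - w)) l fun m hm => by
    rw [e1]
    by_cases hm' : m = l'
    · rw [hm', b2]
    · have h4 := repr_eq_zero_of_Dset f h1.2 hne a1 b1 hm hm'
      have h5 : f.repr (z - w) m = 0 := by_contra fun h6 => (hs m).2 h6 h4
      rw [h4, h5, sub_zero]
  obtain ⟨i, i1, i2, i3, i4⟩ := four h hx hy hz hw
  have h4 := congrArg (fun v => a.repr v i) h3
  simp only [map_sub, map_smul, Finsupp.coe_sub, Pi.sub_apply, i1, i2, i3, i4, sub_self,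
    Finsupp.coe_smul, Pi.smul_apply, smul_eq_mul] at h4
  rcases mul_eq_zero.1 h4.symm with h5 | h5
  · exact hl (by simpa using h5)
  · exact h.fullT i l h5

theorem afb3 (h : Af a f) {e : V} (he : e ∈ EE a f) (h0 : e ≠ 0) :
    ∃ x ∈ Gm a, ∃ y ∈ Gm a, Adj f x y ∧ e = x - y := by
  obtain ⟨⟨x, hx, y, hy, rfl⟩, h2⟩ := he
  have hy0 : y ≠ 0 := by
    rintro rfl
    rw [sub_zero] at h0 h2
    exact not_edge h ⟨hx, h0⟩ h2
  have hx0 : x ≠ 0 := by
    rintro rfl
    rw [zero_sub] at h2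
    exact not_edge h (neg_mem_Gm ⟨hy, hy0⟩) h2
  exact ⟨x, ⟨hx, hx0⟩, y, ⟨hy, hy0⟩, ⟨sub_ne_zero.1 h0, h2⟩, rfl⟩

theorem afb4 (h : Af a f) {x : V} (hx : x ∈ Gm a) (c : κ) :
    ∃ y ∈ Gm a, ∃ y' ∈ Gm a, y ≠ y' ∧ Adj f x y ∧ Adj f x y' ∧
      c ∉ Df f x y ∧ c ∉ Df f x y' := by
  have key : ∀ i, ∀ e ∈ EE a f, a.repr e i = 1 → f.repr e c = 0 →
      a i - e ∈ Gm a ∧ Adj f (a i) (a i - e) ∧ c ∉ Df f (a i) (a i - e) := by
    intro i e he h1 h2
    have h0 : e ≠ 0 := by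
      rintro rfl
      simp at h1
    refine ⟨⟨?_, fun h3 => ?_⟩, ⟨fun h3 => h0 ?_, by simpa using he.2⟩, by simp [mem_Df, h2]⟩
    · simpa using neg_mem_Tset (sub_mem_Tset_one a he.1 h1)
    · exact not_edge h (self_mem_Gm a i) (by rw [sub_eq_zero.1 h3]; exact he.2)
    · exact sub_eq_self.1 h3.symm
  obtain ⟨i, hi⟩ := mem_Gm_iff.1 hx
  obtain ⟨e, he, e', he', hne, h1, h2, h3, h4⟩ := h.nc i c
  obtain ⟨a1, a2, a3⟩ := key i e he h1 h3
  obtain ⟨b1, b2, b3⟩ := key i e' he' h2 h4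
  have hd : a i - e ≠ a i - e' := fun hc => hne (sub_right_injective hc)
  rcases hi with rfl | rfl
  · exact ⟨_, a1, _, b1, hd, a2, b2, a3, b3⟩
  · exact ⟨_, neg_mem_Gm a1, _, neg_mem_Gm b1, fun hc => hd (neg_injective hc), a2.neg, b2.neg,
      by rwa [Df_neg], by rwa [Df_neg]⟩

theorem afb5 (h : Af a f) (l : κ) {z : V} (hz : z ∈ Gm a) :
    ∃ x ∈ Gm a, ∃ y ∈ Gm a, ∃ x' ∈ Gm a, ∃ y' ∈ Gm a, Adj f x y ∧
      Adj f x' y' ∧ l ∈ Df f x y ∧ l ∈ Df f x' y' ∧ x - y ≠ x' - y' ∧ x - y ≠ y' - x' ∧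
      x ≠ z ∧ x ≠ -z ∧ y ≠ z ∧ y ≠ -z ∧ x' ≠ z ∧ x' ≠ -z ∧ y' ≠ z ∧ y' ≠ -z := by
  obtain ⟨c, hc, -⟩ := exists_idx hz
  have off : ∀ v : V, a.repr v c = 0 → v ≠ z ∧ v ≠ -z := by
    intro v hv
    constructor
    · rintro rfl
      exact hc hv
    · rintro rfl
      exact hc (by simpa using hv)
  have key : ∀ e ∈ EE f a, f.repr e l = 1 → a.repr e c = 0 → ∃ x ∈ Gm a, ∃ y ∈ Gm a,
      Adj f x y ∧ e = x - y ∧ l ∈ Df f x y ∧ a.repr x c = 0 ∧ a.repr y c = 0 := by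
    intro e he h1 h2
    have h0 : e ≠ 0 := by
      rintro rfl
      simp at h1
    obtain ⟨x, hx, y, hy, h3, rfl⟩ := afb3 h ⟨he.2, he.1⟩ h0
    have h4 : a.repr x c = a.repr y c := by simpa [sub_eq_zero] using h2
    have h5 : a.repr x c = 0 := by
      by_contra h6
      refine h3.1 ?_
      rw [Tset_eq_smul a hx.1 h6, Tset_eq_smul a hy.1 (h4 ▸ h6), h4]
    refine ⟨x, hx, y, hy, h3, rfl, ?_, h5, h4 ▸ h5⟩
    rw [Df_eq, Finset.mem_filter, h1]
    exact ⟨Finset.mem_univ _, one_ne_zero⟩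
  obtain ⟨e, he, e', he', hne, h1, h2, h3, h4⟩ := h.nct l c
  obtain ⟨x, hx, y, hy, a1, rfl, a2, a3, a4⟩ := key e he h1 h3
  obtain ⟨x', hx', y', hy', b1, rfl, b2, b3, b4⟩ := key e' he' h2 h4
  refine ⟨x, hx, y, hy, x', hx', y', hy', a1, b1, a2, b2, hne, fun h5 => ?_, (off x a3).1,
    (off x a3).2, (off y a4).1, (off y a4).2, (off x' b3).1, (off x' b3).2, (off y' b4).1,
    (off y' b4).2⟩
  rw [h5, ← neg_sub, map_neg, Finsupp.neg_apply, h2] at h1
  exact F_neg_one_ne_one h1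

end GeoA

namespace GeoA

variable {V : Type} [AddCommGroup V] [Module F V] {ι κ : Type}

/-- Walks of a given length between nonzero joints. -/
def Wk (a : Basis ι F V) (f : Basis κ F V) : ℕ → V → V → Prop
  | 0, u, v => u = v ∧ u ∈ Gm a
  | n + 1, u, v => ∃ w, Wk a f n u w ∧ v ∈ Gm a ∧ Adj f w v

variable {a : Basis ι F V} {f : Basis κ F V}

theorem Wk.right {n : ℕ} {u v : V} (h : Wk a f n u v) : v ∈ Gm a := by
  cases n with
  | zero => exact h.1 ▸ h.2
  | succ n => exact h.choose_spec.2.1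

theorem Wk.trans {m n : ℕ} {u v w : V} (h1 : Wk a f m u v) (h2 : Wk a f n v w) :
    Wk a f (m + n) u w := by
  induction n generalizing w with
  | zero => exact h2.1 ▸ h1
  | succ n ih =>
    obtain ⟨t, h3, h4, h5⟩ := h2
    exact ⟨t, ih h3, h4, h5⟩

theorem wk_one {u v : V} (hu : u ∈ Gm a) (hv : v ∈ Gm a) (h : Adj f u v) : Wk a f 1 u v :=
  ⟨u, ⟨rfl, hu⟩, hv, h⟩

theorem Wk.symm {n : ℕ} {u v : V} (h : Wk a f n u v) : Wk a f n v u := by
  induction n generalizing v with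
  | zero => exact ⟨h.1.symm, h.1 ▸ h.2⟩
  | succ n ih =>
    obtain ⟨t, h3, h4, h5⟩ := h
    rw [add_comm]
    exact (wk_one h4 h3.right h5.symm).trans (ih h3)

theorem Wk.exists_fun {n : ℕ} {u v : V} (h : Wk a f n u v) :
    ∃ p : ℕ → V, p 0 = u ∧ p n = v ∧ (∀ s ≤ n, p s ∈ Gm a) ∧
      ∀ s < n, Adj f (p s) (p (s + 1)) := by
  induction n generalizing v with
  | zero => exact ⟨fun _ => u, rfl, h.1, fun _ _ => h.2, fun s hs => absurd hs (by omega)⟩
  | succ n ih =>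
    obtain ⟨t, h3, h4, h5⟩ := h
    obtain ⟨p, p0, pn, pm, pa⟩ := ih h3
    refine ⟨fun s => if s ≤ n then p s else v, by simp [p0], by simp, fun s _ => ?_,
      fun s hs => ?_⟩
    · by_cases h6 : s ≤ n
      · simpa [h6] using pm s h6
      · simpa [h6] using h4
    · by_cases h6 : s < n
      · simpa [h6.le, Nat.succ_le_of_lt h6] using pa s h6
      · obtain rfl : s = n := by omega
        simpa [pn] using h5

theorem exists_anti [Fintype ι] [DecidableEq ι] [Fintype κ] [DecidableEq κ] (h : Af a f) :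
    ∃ n u, Wk a f n u (-u) := by
  classical
  by_contra hn
  have h8 := h.eight
  obtain ⟨i0⟩ : Nonempty ι := Fintype.card_pos_iff.1 (by omega)
  let R : V → Prop := fun y => ∃ n, Wk a f n (a i0) y
  have hR0 : R (a i0) := ⟨0, rfl, self_mem_Gm a i0⟩
  have step : ∀ {u v}, R u → v ∈ Gm a → Adj f u v → R v :=
    fun ⟨n, h1⟩ hv h2 => ⟨n + 1, _, h1, hv, h2⟩
  have dis : ∀ y, R y → ¬ R (-y) := fun y ⟨n, h1⟩ ⟨m, h2⟩ => hn ⟨_, y, h1.symm.trans h2⟩
  have all : ∀ i, R (a i) ∨ R (-a i) := by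
    by_contra hc
    push Not at hc
    obtain ⟨j, hj⟩ := hc
    obtain ⟨i, hi, i', hi', h1⟩ := h.conn (Finset.univ.filter fun i => R (a i) ∨ R (-a i))
      ⟨i0, by simp [hR0]⟩ fun he => by
        have h2 : j ∈ Finset.univ.filter fun i => R (a i) ∨ R (-a i) := by
          rw [he]; exact Finset.mem_univ j
        simp [hj.1, hj.2] at h2
    simp only [Finset.mem_filter, Finset.mem_univ, true_and] at hi hi'
    have m1 := self_mem_Gm a i'
    have m2 := neg_mem_Gm m1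
    rcases hi with hi | hi <;> rcases h1 with h1 | h1
    · exact hi' (Or.inl (step hi m1 h1))
    · exact hi' (Or.inr (step hi m2 h1))
    · exact hi' (Or.inr (step hi m2 h1.neg))
    · exact hi' (Or.inl (step hi m1 (by simpa using h1.neg)))
  let φ : V →ₗ[F] F := a.constr F fun i => if R (a i) then 1 else -1
  have hφ : ∀ i, φ (a i) = if R (a i) then 1 else -1 := fun i => a.constr_basis F _ i
  have val : ∀ y ∈ Gm a, φ y = if R y then 1 else -1 := by
    intro y hy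
    obtain ⟨i, rfl | rfl⟩ := mem_Gm_iff.1 hy
    · exact hφ i
    · rw [map_neg, hφ]
      by_cases h1 : R (a i)
      · rw [if_pos h1, if_neg (dis _ h1)]
      · rw [if_neg h1, if_pos ((all i).resolve_left h1), neg_neg]
  have hz : φ = 0 := by
    refine h.spans.eq_zero fun e he => ?_
    by_cases h0 : e = 0
    · rw [h0, map_zero]
    obtain ⟨x, hx, y, hy, h1, rfl⟩ := afb3 h he h0
    have h2 : R x ↔ R y := ⟨fun h3 => step h3 hy h1, fun h3 => step h3 hx h1.symm⟩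
    rw [map_sub, val x hx, val y hy]
    simp only [h2, sub_self]
  have h1 := hφ i0
  rw [hz, if_pos hR0] at h1
  exact zero_ne_one h1

/-- Sign of a half period. -/
def sg (q : ℤ) (v : V) : V := if Even q then v else -v

theorem sg_succ (q : ℤ) (v : V) : sg (q + 1) v = -sg q v := by
  by_cases h : Even q <;> simp [sg, Int.even_add_one, h]

theorem sg_neg (q : ℤ) (v : V) : sg q (-v) = -sg q v := by
  by_cases h : Even q <;> simp [sg, h]

theorem exists_per {L : ℕ} (hL : 0 < L) {u : V} (h : Wk a f L u (-u)) :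
    ∃ x : ℤ → V, (∀ s, x s ∈ Gm a) ∧ (∀ s, Adj f (x s) (x (s + 1))) ∧
      ∀ s, x (s + L) = -x s := by
  obtain ⟨p, p0, pn, pm, pa⟩ := h.exists_fun
  have hL' : (0 : ℤ) < L := by exact_mod_cast hL
  let x : ℤ → V := fun s => sg (s / L) (p (s % L).toNat)
  have e1 : ∀ (q : ℤ) (t : ℕ), t < L → x (t + L * q) = sg q (p t) := by
    intro q t ht
    have ht' : (t : ℤ) < L := by exact_mod_cast ht
    simp only [x]
    rw [Int.add_mul_ediv_left _ _ hL'.ne', Int.add_mul_emod_self_left,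
      Int.ediv_eq_zero_of_lt (by positivity) ht', Int.emod_eq_of_lt (by positivity) ht',
      zero_add, Int.toNat_natCast]
  have e2 : ∀ (q : ℤ) (t : ℕ), t ≤ L → x (t + L * q) = sg q (p t) := by
    intro q t ht
    rcases ht.lt_or_eq with ht | rfl
    · exact e1 q t ht
    · have h1 := e1 (q + 1) 0 hL
      rw [show ((0 : ℕ) : ℤ) + t * (q + 1) = t + t * q by push_cast; ring] at h1
      rw [h1, sg_succ, pn, p0, sg_neg]
  have dec : ∀ s : ℤ, ∃ (q : ℤ) (t : ℕ), t < L ∧ s = t + L * q := by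
    intro s
    have h1 := Int.emod_nonneg s hL'.ne'
    have h2 := Int.emod_lt_of_pos s hL'
    refine ⟨s / L, (s % L).toNat, by omega, ?_⟩
    rw [Int.toNat_of_nonneg h1, Int.emod_add_mul_ediv]
  refine ⟨x, fun s => ?_, fun s => ?_, fun s => ?_⟩
  · obtain ⟨q, t, ht, rfl⟩ := dec s
    rw [e1 q t ht, sg]
    split_ifs
    · exact pm t ht.le
    · exact neg_mem_Gm (pm t ht.le)
  · obtain ⟨q, t, ht, rfl⟩ := dec s
    rw [show (t : ℤ) + L * q + 1 = ((t + 1 : ℕ) : ℤ) + L * q by push_cast; ring, e1 q t ht,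
      e2 q (t + 1) ht, sg, sg]
    split_ifs
    · exact pa t ht
    · exact (pa t ht).neg
  · obtain ⟨q, t, ht, rfl⟩ := dec s
    rw [show (t : ℤ) + L * q + L = t + L * (q + 1) by ring, e1 q t ht, e1 (q + 1) t ht, sg_succ]

theorem exists_geo [Fintype ι] [DecidableEq ι] [Fintype κ] [DecidableEq κ] (h : Af a f) :
    ∃ x L, Geo a f x L := by
  classical
  have hex := exists_anti h
  obtain ⟨u, hu⟩ := Nat.find_spec hex
  set L := Nat.find hex with hLd
  have hmin : ∀ n v, Wk a f n v (-v) → L ≤ n := fun n v hv => Nat.find_min' hex ⟨v, hv⟩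
  have hL : 0 < L := by
    rcases Nat.eq_zero_or_pos L with h0 | h0
    · rw [h0] at hu
      exact absurd (eq_neg_self hu.1) hu.2.2
    · exact h0
  obtain ⟨x, xm, xa, xp⟩ := exists_per hL hu
  have along : ∀ (s : ℤ) (r : ℕ), Wk a f r (x s) (x (s + r)) := by
    intro s r
    induction r with
    | zero => exact ⟨by simp, xm s⟩
    | succ r ih =>
      refine ⟨_, ih, xm _, ?_⟩
      rw [Nat.cast_succ, ← add_assoc]
      exact xa _
  have short1 : ∀ (s r : ℤ) (m : ℕ), r ≤ L → Wk a f m (x s) (x (s + r)) → r ≤ m := by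
    intro s r m hr hw
    have h1 := hw.trans (along (s + r) (L - r).toNat)
    rw [Int.toNat_of_nonneg (by omega), show s + r + (L - r) = s + L by ring, xp] at h1
    have h2 := hmin _ _ h1
    omega
  have short : ∀ (s r : ℤ) (m : ℕ), Wk a f m (x s) (x (s + r)) → r ≤ m ∨ 2 * L - r ≤ m := by
    intro s r m hw
    by_cases hr : r ≤ L
    · exact Or.inl (short1 s r m hr hw)
    · refine Or.inr (short1 (s + r) (2 * L - r) m (by omega) ?_)
      rw [show s + r + (2 * L - r) = s + L + L by ring, xp, xp, neg_neg]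
      exact hw.symm
  refine ⟨x, L, hL, xm, xa, xp, fun s r h1 h2 h3 => ?_, fun s r h1 h2 h3 => ?_,
    fun s r y hy h1 h2 h3 h4 => ?_⟩
  · have := short s r 0 ⟨h3.symm, xm s⟩
    omega
  · have := short s r 1 (wk_one (xm _) (xm _) h3)
    omega
  · have := short s r 2 ((wk_one (xm _) hy h3.symm).trans (wk_one hy (xm _) h4))
    omega

theorem dsp_geo {x : ℤ → V} {L : ℕ} (h : Geo a f x L) :
    DSp (Tset f) (span F (Set.range x)) := by
  refine span_le.2 ?_
  rintro _ ⟨s, rfl⟩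
  have key : ∀ n : ℕ, x s - x (s + n) ∈
      span F (Dset (Tset f) ∩ (span F (Set.range x) : Set V)) := by
    intro n
    induction n with
    | zero => simp
    | succ n ih =>
      have h1 : x (s + n) - x (s + n + 1) ∈
          span F (Dset (Tset f) ∩ (span F (Set.range x) : Set V)) :=
        subset_span ⟨(h.adj _).2, Submodule.sub_mem _ (subset_span ⟨_, rfl⟩)
          (subset_span ⟨_, rfl⟩)⟩
      have h2 := Submodule.add_mem _ ih h1
      rwa [sub_add_sub_cancel, add_assoc, ← Nat.cast_succ] at h2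
  have h1 := key L
  rw [h.anti, sub_neg_eq_add, add_self_eq_neg] at h1
  exact (Submodule.neg_mem_iff _).1 h1

end GeoA

theorem s_afb : S_AFB := fun _ _ h =>
  ⟨fun _ hx _ hy => GeoA.afb1 h hx hy,
    fun _ hx _ hy _ hz _ hw h1 _ hd => GeoA.afb2 h hx hy hz hw h1 hd,
    fun _ he h0 => GeoA.afb3 h he h0, fun _ hx c => GeoA.afb4 h hx c,
    fun l _ hz => GeoA.afb5 h l hz⟩

theorem s_geo (hC : S_CELL) : S_GEO := by
  intro V _ _ ι κ _ _ _ _ a f h
  obtain ⟨x, L, hg⟩ := GeoA.exists_geo h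
  obtain ⟨r, χ, hc⟩ := hC f _ (GeoA.dsp_geo hg)
  exact ⟨x, L, r, χ, h, hg, hc⟩

end Pool.Agent.P.MP_053557_co
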