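import Pool.Agent.P.MP_053557_co.Basic2

/-! Gluing two frames along a two-separation whose first side has dimension two. -/

namespace Pool.Agent.P.MP_053557_co

open Module Submodule

namespace Glb2

variable {V : Type} [AddCommGroup V] [Module F V] {ι κ : Type}

theorem ind_of {T : Set V} (hT : IsFrame T) {X Y : V} (hX : X ∈ T) (hY : Y ∈ T)
    (hp : X - Y ∉ T) (s t : F) (h : s • X + t • Y = 0) : s = 0 ∧ t = 0 := by
  have h1 : X ≠ 0 := by
    rintro rfl
    exact hp (by simpa using hT.neg_mem hY)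
  have h2 : Y ≠ 0 := by
    rintro rfl
    exact hp (by simpa using hX)
  have h3 : X ≠ Y := by
    rintro rfl
    exact hp (by simpa using hT.zero_mem)
  have h4 : X ≠ -Y := by
    rintro rfl
    apply hp
    have : -Y - Y = Y := by linear_combination (norm := module) -three Y
    rw [this]; exact hY
  rcases F_cases s with rfl | rfl | rfl <;> rcases F_cases t with rfl | rfl | rfl
  · exact ⟨rfl, rfl⟩
  · exact absurd (by simpa using h) h2
  · exact absurd (by simpa using h) h2
  · exact absurd (by simpa using h) h1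
  · exact absurd (by linear_combination (norm := module) h) h4
  · exact absurd (by linear_combination (norm := module) h) h3
  · exact absurd (by simpa using h) h1
  · exact absurd (by linear_combination (norm := module) -h) h3
  · exact absurd (by linear_combination (norm := module) -h) h4

theorem span_two [Module.Finite F V] {W : Submodule F V} {X Y : V} (hX : X ∈ W) (hY : Y ∈ W)
    (hi : ∀ s t : F, s • X + t • Y = 0 → s = 0 ∧ t = 0) (h2 : finrank F W ≤ 2) :
    ∀ w ∈ W, ∃ s t : F, w = s • X + t • Y := by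
  have hli : LinearIndependent F ![X, Y] := LinearIndependent.pair_iff.2 hi
  have h1 : finrank F (span F (Set.range ![X, Y])) = 2 := by
    simpa using finrank_span_eq_card hli
  have h3 : span F (Set.range ![X, Y]) ≤ W := by
    rw [span_le]
    rintro _ ⟨i, rfl⟩
    fin_cases i
    · exact hX
    · exact hY
  have h4 : span F (Set.range ![X, Y]) = W := eq_of_le_of_finrank_le h3 (by rw [h1]; exact h2)
  intro w hw
  rw [← h4, mem_span_range_iff_exists_fun] at hw
  obtain ⟨c, hc⟩ := hw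
  exact ⟨c 0, c 1, by simpa [Fin.sum_univ_two] using hc.symm⟩

theorem not_mem_V2 {T : Set V} (hT : IsFrame T) {V1 V2 : Submodule F V} {p z : V}
    (hinf : V1 ⊓ V2 = span F {p}) (hp : p ∉ T) (hz : z ∈ T) (h1 : z ∈ V1) (h0 : z ≠ 0) :
    z ∉ V2 := by
  intro h2
  have h3 : z ∈ span F {p} := hinf ▸ ⟨h1, h2⟩
  obtain ⟨c, rfl⟩ := mem_span_singleton.1 h3
  have hc : c ≠ 0 := by rintro rfl; simp at h0
  apply hp
  have := hT.smul_mem c hz
  rwa [smul_smul, F_sq hc, one_smul] at this

/-- Coordinates at vertices outside `W` vanish on joints lying in `W`. -/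
theorem repr_zero (h : Basis ι F V) {W : Submodule F V} {X : V} (hX : X ∈ Tset h) (hW : X ∈ W)
    {l : ι} (hl : h l ∉ W) : h.repr X l = 0 := by
  by_contra hc
  apply hl
  have h1 := W.smul_mem (h.repr X l) hW
  nth_rewrite 2 [Tset_eq_smul h hX hc] at h1
  rwa [smul_smul, F_sq hc, one_smul] at h1

theorem repr_zero' (h : Basis ι F V) {W : Submodule F V} {X Y : V} (hX : X ∈ Tset h)
    (hY : Y ∈ Tset h) (hXW : X ∈ W) (hYW : Y ∈ W)
    (hs : ∀ w ∈ W, ∃ s t : F, w = s • X + t • Y) {l : ι} (hl : h l ∉ W) {w : V} (hw : w ∈ W) :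
    h.repr w l = 0 := by
  obtain ⟨s, t, rfl⟩ := hs w hw
  simp [repr_zero h hX hXW hl, repr_zero h hY hYW hl]

theorem basis_ne (g : Basis ι F V) {i j : ι} (hij : i ≠ j) : g i ≠ g j ∧ g i ≠ -g j := by
  constructor <;> intro h
  · have := congrArg (fun z => g.repr z i) h
    simp [single_ne hij.symm] at this
  · have := congrArg (fun z => g.repr z i) h
    simp [single_ne hij.symm] at this

/-- The frame made of the second side of `T` and one more joint `q`. -/
theorem glue (hRC : S_RC) {A B T : Set V} {V1 V2 : Submodule F V} {p q : V}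
    (hts : Ts A B V1 V2 p) (hT : Ok A B T) (hsj : SJ T V1 V2 p) (hq1 : q ∈ V1) (hq2 : q ∉ V2)
    (hs : ∀ w ∈ V1, ∃ s t : F, w = s • p + t • q)
    (hAB : ∀ x ∈ A ∩ B, x ∈ V1 → ∃ c : F, x = c • q) {ψ : V →ₗ[F] F} (hψq : ψ q = 1)
    (hψ : ∀ w ∈ V2, ψ w = 0) : ∃ G, Ok A B G ∧ Share T G ∧ IsStar G ψ := by
  classical
  obtain ⟨T2, P, ⟨m, v, hli, hsp, rfl⟩, hp2, hPT, hPid, hstar⟩ := hsj
  have hli' : LinearIndependent F (fun o : Option (Fin m) => Option.casesOn' o q v) :=
    hli.option (hsp ▸ hq2)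
  have hpV2 : p ∈ V2 := by
    have : p ∈ V1 ⊓ V2 := hts.inf ▸ mem_span_singleton_self p
    exact this.2
  have hV2 : V2 ≤ span F (Set.range fun o : Option (Fin m) => Option.casesOn' o q v) := by
    rw [← hsp]
    exact span_mono fun _ ⟨k, hk⟩ => ⟨some k, hk⟩
  have hsp' : ⊤ ≤ span F (Set.range fun o : Option (Fin m) => Option.casesOn' o q v) := by
    rw [← hts.sup]
    refine sup_le (fun w hw => ?_) hV2
    obtain ⟨s, t, rfl⟩ := hs w hw
    exact add_mem (smul_mem _ _ (hV2 hpV2)) (smul_mem _ _ (subset_span ⟨none, rfl⟩))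
  let g : Basis (Option (Fin m)) F V := Basis.mk hli' hsp'
  have gn : g none = q := by simp [g]
  have gs : ∀ k, g (some k) = v k := fun k => by simp [g]
  have hsub : Tset v ⊆ Tset g := by
    rintro x (rfl | ⟨k, h⟩)
    · exact zero_mem_Tset _
    · exact Or.inr ⟨some k, by rwa [gs]⟩
  have hqg : q ∈ Tset g := gn ▸ self_mem_Tset g none
  obtain ⟨m0, hm0⟩ : ∃ m0, p = v m0 ∨ p = -v m0 := hp2.resolve_left hts.pne
  have hold : ∀ o : Option (Fin m), o ∉ ({some m0, none} : Set (Option (Fin m))) →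
      IsStar T (g.coord o) := by
    intro o ho
    cases o with
    | none => simp at ho
    | some k =>
      have hk : k ≠ m0 := by simpa using ho
      have hk' : (some k : Option (Fin m)) ≠ some m0 := by simpa using hk
      have hne := basis_ne g hk'
      rw [gs, gs] at hne
      obtain ⟨φ, h1, h2, h3, h4⟩ := hstar (v k) (self_mem_Tset v k) (hli.ne_zero k)
        (by rcases hm0 with h | h <;> rw [h]; exacts [hne.1, hne.2])
        (by rcases hm0 with h | h <;> rw [h]; exacts [hne.2, by simpa using hne.1])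
      have : g.coord (some k) = φ := by
        refine g.ext fun o => ?_
        cases o with
        | none => rw [gn, h2 q hq1, ← gn]; simp
        | some k' =>
          by_cases hkk : k' = k
          · subst hkk
            rw [Basis.coord_apply, repr_basis_self, gs, h3]
          · have hk2 : (some k' : Option (Fin m)) ≠ some k := by simpa using hkk
            have hne2 := basis_ne g hk2
            rw [gs, gs] at hne2
            rw [Basis.coord_apply, repr_basis_ne g hk2, gs,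
              h4 _ (self_mem_Tset v k') hne2.1 hne2.2]
      rw [this]; exact h1
  have hR : Rr A B (Tset g) := by
    refine hRC A B g {some m0, none} hts.frA hts.frB ?_ ?_
      (fun o ho => ⟨T, hT.1, hT.2, hold o ho⟩) (Or.inl ⟨some m0, none, fun o ho => ho⟩)
    · intro e he
      rcases hts.cov e he with h | h
      · obtain ⟨s, t, rfl⟩ := hs e h
        exact add_mem_Dset (smul_mem_Tset _ (hsub hp2)) (smul_mem_Tset _ hqg)
      · obtain ⟨y, hy, z, hz, hyz⟩ := hT.2.ed_subset he
        rw [← hPid e h, hyz, map_sub]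
        exact sub_mem_Dset (hsub (hPT y hy)) (hsub (hPT z hz))
    · intro x hx
      rcases hts.cov x ⟨hts.frA.subset_Dset hx.1, hts.frB.subset_Dset hx.2⟩ with h | h
      · obtain ⟨c, rfl⟩ := hAB x hx h
        exact smul_mem_Tset _ hqg
      · rw [← hPid x h]
        exact hsub (hPT x (hT.2.inter_subset hx))
  refine ⟨Tset g, ⟨isFrame_basis g, hR⟩, ?_, ?_⟩
  · have hcard : 4 ≤ Fintype.card (Option (Fin m)) := by
      rw [← finrank_eq_card_basis g]; exact hts.four
    obtain ⟨o, ho⟩ : ∃ o, o ∉ ({some m0, none} : Finset (Option (Fin m))) := by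
      by_contra hc
      push Not at hc
      have h1 : (Finset.univ : Finset (Option (Fin m))).card ≤
          ({some m0, none} : Finset (Option (Fin m))).card :=
        Finset.card_le_card fun o _ => hc o
      have h2 : ({some m0, none} : Finset (Option (Fin m))).card ≤ 2 := Finset.card_le_two
      rw [Finset.card_univ] at h1
      omega
    exact ⟨g.coord o, hold o (by simpa using ho), isStar_coord g o⟩
  · refine isStar_of_supp g (i := none) (by rw [gn, hψq]; exact one_ne_zero) fun o ho => ?_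
    cases o with
    | none => exact absurd rfl ho
    | some k =>
      rw [gs]
      exact hψ _ (hsp ▸ subset_span ⟨k, rfl⟩)

/-- The case where one of the two joints of `T` in `V1` is not a joint of `T'`. -/
theorem caseA (hSJ : S_SJ) (hRC : S_RC) {A B T T' : Set V} {V1 V2 : Submodule F V} {p q : V}
    (hts : Ts A B V1 V2 p) (hT : Ok A B T) (hT' : Ok A B T') (hL : LB T V1 V2 p)
    (hL' : LB T' V1 V2 p) (hq1 : q ∈ V1) (hq2 : q ∉ V2)
    (hs : ∀ w ∈ V1, ∃ s t : F, w = s • p + t • q)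
    (hAB : ∀ x ∈ A ∩ B, x ∈ V1 → ∃ c : F, x = c • q) : SConn A B T T' := by
  obtain ⟨ψ, h1, h2⟩ := exists_functional hq2
  obtain ⟨G, hG, s1, s2⟩ := glue hRC hts hT (hSJ A B V1 V2 p T hts hT (Or.inr hL)) hq1 hq2 hs
    hAB h1 h2
  obtain ⟨G', hG', s1', s2'⟩ := glue hRC hts hT' (hSJ A B V1 V2 p T' hts hT' (Or.inr hL')) hq1
    hq2 hs hAB h1 h2
  exact ((sconn_share hT hG s1).trans' (sconn_share hG hG' ⟨ψ, s2, s2'⟩)).trans'
    (sconn_share hG' hT' s1'.symm)

/-- A functional killing `V2` that is nonzero on the joints outside `V1`. -/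
theorem exists_psi {T : Set V} (hT : IsFrame T) {V1 V2 : Submodule F V} {p : V}
    (hinf : V1 ⊓ V2 = span F {p}) (hL : LB T V1 V2 p) :
    ∃ ψ : V →ₗ[F] F, (∀ w ∈ V2, ψ w = 0) ∧ ∀ g ∈ T, g ∉ V1 → ψ g ≠ 0 := by
  obtain ⟨X, hX, Y, hY, -, hY1, hp, hpT, hg, -⟩ := hL
  have hY0 : Y ≠ 0 := by
    rintro rfl
    exact hpT (by rw [hp]; simpa using hX)
  obtain ⟨ψ, h1, h2⟩ := exists_functional (not_mem_V2 hT hinf hpT hY hY1 hY0)
  refine ⟨ψ, h2, fun g hgT hg1 h0 => ?_⟩
  rcases (hg g hgT).resolve_left hg1 with h | h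
  · have := h2 _ h
    simp [h0, h1] at this
  · have := h2 _ h
    simp [h0, h1] at this

/-- The star of a vertex outside `V1` is not balancing. -/
theorem nb_star [Fintype κ] {A B : Set V} {V1 V2 : Submodule F V} {p : V}
    (hts : Ts A B V1 V2 p) (f : Basis κ F V) (hT : Ok A B (Tset f)) (hL : LB (Tset f) V1 V2 p)
    (hz : ∀ l, f l ∉ V1 → ∀ w ∈ V1, f.repr w l = 0) {j : κ} (hj : f j ∉ V1) :
    NB (Ed A B) (f.coord j) := by
  by_contra hc
  obtain ⟨χ, h0, hχj, hχ⟩ := nbc f hc
  obtain ⟨ψ, hψ2, hψ⟩ := exists_psi hT.1 hts.inf hL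
  have hχ1 : ∀ w ∈ V1, χ w = 0 := fun w hw =>
    map_span_zero χ (fun e he => hχ e he.1 (hz j hj e he.2)) (hts.sp1 hw)
  have hC : {l | χ (f l) ≠ 0}.Nonempty := by
    by_contra hn
    refine h0 (f.ext fun l => ?_)
    by_contra h1
    exact hn ⟨l, h1⟩
  refine hts.nsep (sepf0 f {l | χ (f l) ≠ 0} hC (m1 := j) ψ (hψ _ (self_mem_Tset f j) hj) ?_)
  intro e he l hl h1
  have hl1 : f l ∉ V1 := fun h => hl (hχ1 _ h)
  have he2 : e ∈ V2 := (hts.cov e he).resolve_left fun h => h1 (hz l hl1 e h)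
  have heD := hT.2.ed_subset he
  refine ⟨hψ2 e he2, fun m hm => ?_⟩
  by_cases hej : f.repr e j = 0
  · exact Or.inl (ends_in_supp f χ heD (hχ e he hej) h1 hl hm)
  · have hlj : l ≠ j := by rintro rfl; exact hl hχj
    by_contra hn
    push Not at hn
    have hml : m ≠ l := by rintro rfl; exact hn.1 hl
    exact hm (repr_eq_zero_of_Dset f heD hlj h1 hej hml hn.2)

/-- No negative edge inside the support of a functional killing `V1`. -/
theorem no_neg [Fintype ι] [DecidableEq ι] {A B : Set V} {V1 V2 : Submodule F V} {p : V}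
    (hts : Ts A B V1 V2 p) (a : Basis ι F V) (hT : Ok A B (Tset a)) (hL : LB (Tset a) V1 V2 p)
    (hz : ∀ l, a l ∉ V1 → ∀ w ∈ V1, a.repr w l = 0) {β : V →ₗ[F] F}
    (hβ : ∀ w ∈ V1, β w = 0) (hNB : NB (Ed A B) β) {e : V} (he : e ∈ Ed A B) {i i' : ι}
    (hii : i ≠ i') (h1 : a.repr e i ≠ 0) (h2 : a.repr e i' ≠ 0) (h3 : β (a i) ≠ 0)
    (h4 : β (a i') ≠ 0) : β e = 0 := by
  obtain ⟨ψ, hψ2, hψ⟩ := exists_psi hT.1 hts.inf hL
  have hi1 : a i ∉ V1 := fun h => h3 (hβ _ h)
  have hi1' : a i' ∉ V1 := fun h => h4 (hβ _ h)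
  have hx := (s_split a (Ed A B) β hT.2.ed_subset hNB).2 (β (a i) • a i - β (a i') • a i')
    (fun l hl => by
      have k1 : i ≠ l := by rintro rfl; exact h3 hl
      have k2 : i' ≠ l := by rintro rfl; exact h4 hl
      simp [single_ne k1, single_ne k2])
    (by simp [F_sq h3, F_sq h4])
  have hx0 : ψ (β (a i) • a i - β (a i') • a i') = 0 := by
    refine map_span_zero ψ (fun d hd => ?_) hx
    rcases hts.cov d hd.1 with h | h
    · have : d = 0 := eq_of_repr a fun l => by
        by_cases hl : a l ∈ V1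
        · simpa using hd.2.2 l (hβ _ hl)
        · simpa using hz l hl d h
      rw [this, map_zero]
    · exact hψ2 d h
  have he2 : e ∈ V2 := (hts.cov e he).resolve_left fun h => h1 (hz i hi1 e h)
  have he0 := hψ2 e he2
  have hee := Dset_eq_two a (hT.2.ed_subset he) hii h1 h2
  rw [hee] at he0 ⊢
  simp only [map_add, map_sub, map_smul, smul_eq_mul] at he0 hx0 ⊢
  have k1 := F_sq (hψ _ (self_mem_Tset a i) hi1)
  have k2 := F_sq (hψ _ (self_mem_Tset a i') hi1')
  linear_combination (β (a i) * ψ (a i)) * he0 - a.repr e i * β (a i) * k1 -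
    a.repr e i' * β (a i') * k2 - a.repr e i' * ψ (a i') * hx0

end Glb2

open Glb2 in
theorem s_glb2 (hSJ : S_SJ) (hRC : S_RC) (hSC0 : S_SC0) : S_GLB2 := by
  intro V _ _ A B V1 V2 p T T' hts hT hT' hL hL' hd
  have hfin := hts.frA.finite
  obtain ⟨X, hX, Y, hY, hX1, hY1, hp, hpT, hrest⟩ := id hL
  have hi := ind_of hT.1 hX hY (hp ▸ hpT)
  have hs := span_two hX1 hY1 hi hd
  have hX0 : X ≠ 0 := fun h => one_ne_zero (hi 1 0 (by simp [h])).1
  have hY0 : Y ≠ 0 := fun h => one_ne_zero (hi 0 1 (by simp [h])).2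
  have hTV : ∀ s t : F, s • X + t • Y ∈ T → s = 0 ∨ t = 0 := by
    intro s t h
    rcases Tadd hT.1 (hT.1.smul_mem s hX) (hT.1.smul_mem t hY) h with k | k | k | k
    · exact Or.inl (hi s 0 (by simpa using k)).1
    · exact Or.inr (hi 0 t (by simpa using k)).2
    · exact Or.inl (hi s (-t) (by rw [k]; simp)).1
    · exact Or.inl (hi s t (by rw [k]; simp)).1
  by_cases hXT : X ∈ T'
  swap
  · refine caseA hSJ hRC hts hT hT' hL hL' hY1 (not_mem_V2 hT.1 hts.inf hpT hY hY1 hY0)
      (fun w hw => ?_) fun x hx h1 => ?_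
    · obtain ⟨s, t, rfl⟩ := hs w hw
      exact ⟨s, s + t, by rw [hp]; module⟩
    · obtain ⟨s, t, rfl⟩ := hs x h1
      by_cases h0 : s = 0
      · exact ⟨t, by simp [h0]⟩
      · have h2 := (hTV s t (hT.2.inter_subset hx)).resolve_left h0
        have h3 := hT'.1.smul_mem s (hT'.2.inter_subset hx)
        rw [h2, zero_smul, add_zero, smul_smul, F_sq h0, one_smul] at h3
        exact absurd h3 hXT
  by_cases hYT : Y ∈ T'
  swap
  · refine caseA hSJ hRC hts hT hT' hL hL' hX1 (not_mem_V2 hT.1 hts.inf hpT hX hX1 hX0)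
      (fun w hw => ?_) fun x hx h1 => ?_
    · obtain ⟨s, t, rfl⟩ := hs w hw
      exact ⟨-t, s + t, by rw [hp]; module⟩
    · obtain ⟨s, t, rfl⟩ := hs x h1
      by_cases h0 : t = 0
      · exact ⟨s, by simp [h0]⟩
      · have h2 := (hTV s t (hT.2.inter_subset hx)).resolve_right h0
        have h3 := hT'.1.smul_mem t (hT'.2.inter_subset hx)
        rw [h2, zero_smul, zero_add, smul_smul, F_sq h0, one_smul] at h3
        exact absurd h3 hYT
  obtain ⟨n, a, rfl⟩ := id hT.1
  obtain ⟨n', f, rfl⟩ := id hT'.1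
  have hza : ∀ l, a l ∉ V1 → ∀ w ∈ V1, a.repr w l = 0 := fun l hl w hw =>
    repr_zero' a hX hY hX1 hY1 hs hl hw
  have hzf : ∀ l, f l ∉ V1 → ∀ w ∈ V1, f.repr w l = 0 := fun l hl w hw =>
    repr_zero' f hXT hYT hX1 hY1 hs hl hw
  obtain ⟨j, hj⟩ : ∃ j, f j ∉ V1 := by
    by_contra hc
    push Not at hc
    refine hts.ne1 (eq_top_iff.2 ?_)
    rw [← f.span_eq, span_le]
    rintro _ ⟨l, rfl⟩
    exact hc l
  have hNB := nb_star hts f hT' hL' hzf hj
  obtain ⟨x, hx⟩ := exists_repr_ne a hX0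
  obtain ⟨y, hy⟩ := exists_repr_ne a hY0
  have hax : ∀ {Z : V} {z : Fin n}, Z ∈ Tset a → Z ∈ V1 → a.repr Z z ≠ 0 →
      f.repr (a z) j = 0 := by
    intro Z z h1 h2 h3
    refine hzf j hj _ (by_contra fun hc => h3 (repr_zero a h1 h2 hc))
  have hxy : x ≠ y := by
    rintro rfl
    have h1 := Tset_eq_smul a hX hx
    have h2 := Tset_eq_smul a hY hy
    refine hy (hi (a.repr Y x) (-a.repr X x) ?_).1
    conv_lhs => rw [h1, h2]
    simp only [map_smul, repr_basis_self, Finsupp.smul_apply, smul_eq_mul, mul_one]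
    module
  by_cases h2 : ∃ i i', i ≠ i' ∧ f.repr (a i) j ≠ 0 ∧ f.repr (a i') j ≠ 0
  · obtain ⟨G, hG, s1, s2⟩ := hSC0 A B a f j hts.frA hts.frB hT.2 hT'.2 hNB h2
      ⟨x, y, hxy, hax hX hX1 hx, hax hY hY1 hy⟩ fun e he i i' hii k1 k2 k3 k4 =>
        no_neg hts a hT hL hza (β := f.coord j) (fun w hw => hzf j hj w hw) hNB he hii k1 k2
          k3 k4
    exact (sconn_share hT hG s1).trans' (sconn_share hG hT' s2)
  · push Not at h2
    refine sconn_share hT hT' ?_
    by_cases h3 : ∃ i, f.repr (a i) j ≠ 0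
    · obtain ⟨i, hi⟩ := h3
      exact share_of_supp (i := i) (l := j) fun k hk => h2 i k hk.symm hi
    · push Not at h3
      exact share_of_supp (i := x) (l := j) fun k _ => h3 k

end Pool.Agent.P.MP_053557_co
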