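import Pool.Agent.P.MP_053557_co.Basic2

/-! Gluing two frames along a two-separation. -/

namespace Pool.Agent.P.MP_053557_co

open Module Submodule

namespace Glue

variable {V : Type} [AddCommGroup V] [Module F V] {ι : Type}

/-- A symmetric spanning set with dual functionals is a frame. -/
theorem frame_of_dual [Module.Finite F V] {G : Set V} (h0 : (0 : V) ∈ G)
    (hn : ∀ x ∈ G, -x ∈ G) (hs : ⊤ ≤ span F G)
    (hd : ∀ t ∈ G, t ≠ 0 → ∃ φ : V →ₗ[F] F, φ t = 1 ∧ ∀ y ∈ G, y ≠ t → y ≠ -t → φ y = 0) :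
    IsFrame G := by
  obtain ⟨b, hb, hsp, hli⟩ := exists_linearIndependent F G
  have hfin : b.Finite := hli.setFinite
  have := hfin.fintype
  have hG : G = Tset ((↑) : b → V) := by
    ext t
    constructor
    · intro ht
      by_cases h : t = 0
      · exact Or.inl h
      obtain ⟨φ, h1, h2⟩ := hd t ht h
      by_contra hc
      have h3 : ∀ y ∈ b, φ y = 0 := fun y hy => h2 y (hb hy)
        (fun h4 => hc (Or.inr ⟨⟨y, hy⟩, Or.inl h4.symm⟩))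
        fun h4 => hc (Or.inr ⟨⟨y, hy⟩, Or.inr (by simp [h4])⟩)
      have h4 : φ t = 0 := map_span_zero φ h3 (hsp ▸ hs mem_top)
      rw [h1] at h4
      exact one_ne_zero h4
    · rintro (rfl | ⟨i, rfl | rfl⟩)
      · exact h0
      · exact hb i.2
      · exact hn _ (hb i.2)
  rw [hG]
  refine isFrame_of_linInd hli ?_
  rw [Subtype.range_coe, hsp]
  exact hs

theorem dual_of_linInd {v : ι → V} (hv : LinearIndependent F v) {t : V} (ht : t ∈ Tset v)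
    (h0 : t ≠ 0) : ∃ φ : V →ₗ[F] F, φ t = 1 ∧ ∀ y ∈ Tset v, y ≠ t → y ≠ -t → φ y = 0 := by
  have key : ∀ i, ∃ φ : V →ₗ[F] F, φ (v i) = 1 ∧
      ∀ y ∈ Tset v, y ≠ v i → y ≠ -v i → φ y = 0 := by
    intro i
    obtain ⟨φ, h1, h2⟩ := exists_functional
      (hv.notMem_span_image (s := {i}ᶜ) (x := i) (by simp))
    refine ⟨φ, h1, ?_⟩
    have h3 : ∀ j, j ≠ i → φ (v j) = 0 := fun j hj => h2 _ (subset_span ⟨j, hj, rfl⟩)
    rintro y (rfl | ⟨j, rfl | rfl⟩) h4 h5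
    · simp
    · exact h3 j fun h => h4 (h ▸ rfl)
    · rw [map_neg, h3 j fun h => h5 (h ▸ rfl), neg_zero]
  rcases ht with rfl | ⟨i, rfl | rfl⟩
  · exact absurd rfl h0
  · exact key i
  · obtain ⟨φ, h1, h2⟩ := key i
    refine ⟨-φ, by simp [h1], fun y hy h3 h4 => ?_⟩
    simp [h2 y hy (by simpa using h4) h3]

theorem frame_dual {T : Set V} (hT : IsFrame T) {t : V} (ht : t ∈ T) (h0 : t ≠ 0) :
    ∃ φ : V →ₗ[F] F, φ t = 1 ∧ ∀ y ∈ T, y ≠ t → y ≠ -t → φ y = 0 := by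
  obtain ⟨n, b, rfl⟩ := hT
  exact dual_of_linInd b.linearIndependent ht h0

theorem span_Tset (v : ι → V) : span F (Tset v) = span F (Set.range v) := by
  refine le_antisymm (span_le.2 ?_) (span_mono ?_)
  · rintro x (rfl | ⟨i, rfl | rfl⟩)
    · exact zero_mem _
    · exact subset_span ⟨i, rfl⟩
    · exact neg_mem (subset_span ⟨i, rfl⟩)
  · rintro _ ⟨i, rfl⟩
    exact self_mem_Tset v i

theorem frame_span {T : Set V} (hT : IsFrame T) : span F T = ⊤ := by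
  obtain ⟨n, b, rfl⟩ := hT
  rw [span_Tset, b.span_eq]

theorem fron_span {W : Submodule F V} {T : Set V} (h : FrOn W T) : span F T = W := by
  obtain ⟨n, v, -, h2, rfl⟩ := h
  rw [span_Tset, h2]

theorem fron_dual {W : Submodule F V} {T : Set V} (h : FrOn W T) {t : V} (ht : t ∈ T)
    (h0 : t ≠ 0) : ∃ φ : V →ₗ[F] F, φ t = 1 ∧ ∀ y ∈ T, y ≠ t → y ≠ -t → φ y = 0 := by
  obtain ⟨n, v, h1, -, rfl⟩ := h
  exact dual_of_linInd h1 ht h0

theorem glue {W : Type} [AddCommGroup W] [Module F W] {V1 V2 : Submodule F V} {p : V}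
    (hp : V1 ⊓ V2 = span F {p}) (φ1 φ2 : V →ₗ[F] W) (h : φ1 p = φ2 p) :
    ∃ ψ : V →ₗ[F] W, (∀ x ∈ V1, ψ x = φ1 x) ∧ ∀ x ∈ V2, ψ x = φ2 x := by
  let f1 : V →ₗ.[F] W := φ1.toPMap V1
  let f2 : V →ₗ.[F] W := φ2.toPMap V2
  have h12 : ∀ (x : f1.domain) (y : f2.domain), (x : V) = y → f1 x = f2 y := by
    intro x y hxy
    change φ1 x = φ2 y
    have hx : (x : V) ∈ V1 ⊓ V2 := ⟨x.2, hxy ▸ y.2⟩
    rw [hp, mem_span_singleton] at hx
    obtain ⟨c, hc⟩ := hx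
    rw [← hxy, ← hc, map_smul, map_smul, h]
  obtain ⟨ψ, hψ⟩ := LinearMap.exists_extend (f1.sup f2 h12).toFun
  have key : ∀ z : (f1.sup f2 h12).domain, ψ z = (f1.sup f2 h12) z := fun z =>
    congrArg (fun g : (f1.sup f2 h12).domain →ₗ[F] W => g z) hψ
  refine ⟨ψ, fun x hx => ?_, fun x hx => ?_⟩
  · have h1 := LinearPMap.left_le_sup f1 f2 h12
    rw [key ⟨x, h1.1 hx⟩]
    exact (h1.2 (x := ⟨x, hx⟩) rfl).symm
  · have h1 := LinearPMap.right_le_sup f1 f2 h12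
    rw [key ⟨x, h1.1 hx⟩]
    exact (h1.2 (x := ⟨x, hx⟩) rfl).symm

theorem exists_third {A B : Set V} {V1 V2 : Submodule F V} {p : V} (h : Ts A B V1 V2 p)
    {T1 : Set V} (h1 : FrOn V1 T1) : ∃ t ∈ T1, t ≠ 0 ∧ t ≠ p ∧ t ≠ -p := by
  by_contra hc
  push Not at hc
  have hp : p ∈ V2 := (show p ∈ V1 ⊓ V2 from h.inf ▸ mem_span_singleton_self p).2
  have h2 : V1 ≤ V2 := by
    rw [← fron_span h1, span_le]
    intro t ht
    by_cases h3 : t = 0
    · rw [h3]; exact zero_mem _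
    by_cases h4 : t = p
    · rw [h4]; exact hp
    · rw [hc t ht h3 h4]; exact neg_mem hp
  exact h.ne2 (by rw [← h.sup, sup_eq_right.2 h2])

/-- The basic facts about the two joints of `LB`, with their dual functionals. -/
theorem lb_facts {A B T : Set V} {V1 V2 : Submodule F V} {p X Y : V} (h : Ts A B V1 V2 p)
    (hT : IsFrame T) (hX : X ∈ T) (hY : Y ∈ T) (hY1 : Y ∈ V1) (hp : p = X - Y) (hpT : p ∉ T) :
    Y ∉ V2 ∧ ∃ ξ η : V →ₗ[F] F, ξ X = 1 ∧ ξ Y = 0 ∧ η X = 0 ∧ η Y = 1 ∧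
      (∀ y ∈ T, y ≠ X → y ≠ -X → ξ y = 0) ∧ ∀ y ∈ T, y ≠ Y → y ≠ -Y → η y = 0 := by
  have hX0 : X ≠ 0 := by
    rintro rfl
    exact hpT (by rw [hp, zero_sub]; exact hT.neg_mem hY)
  have hY0 : Y ≠ 0 := by
    rintro rfl
    exact hpT (by rw [hp, sub_zero]; exact hX)
  have hXY : X ≠ Y := fun hc => h.pne (by rw [hp, hc, sub_self])
  have hXY' : X ≠ -Y := by
    intro hc
    have : p = Y := by
      rw [hp, hc]
      linear_combination (norm := module) -three Y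
    exact hpT (this ▸ hY)
  refine ⟨fun hc => ?_, ?_⟩
  · have h1 : Y ∈ V1 ⊓ V2 := ⟨hY1, hc⟩
    rw [h.inf, mem_span_singleton] at h1
    obtain ⟨c, hc⟩ := h1
    have hc0 : c ≠ 0 := by
      rintro rfl
      exact hY0 (by simpa using hc.symm)
    have : p = c • Y := by rw [← hc, smul_smul, F_sq hc0, one_smul]
    exact hpT (this ▸ hT.smul_mem c hY)
  · obtain ⟨ξ, h1, h2⟩ := frame_dual hT hX hX0
    obtain ⟨η, h3, h4⟩ := frame_dual hT hY hY0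
    exact ⟨ξ, η, h1, h2 Y hY hXY.symm fun hc => hXY' (by rw [hc, neg_neg]),
      h4 X hX hXY hXY', h3, h2, h4⟩

/-- The retraction fixing `V2` and sending the joints in `V1` to `0, ±X, ±Y`. -/
theorem lb_map {A B T : Set V} {V1 V2 : Submodule F V} {p X' Y' : V} (h : Ts A B V1 V2 p)
    (hT : IsFrame T) (hX : X' ∈ T) (hY : Y' ∈ T) (hY1 : Y' ∈ V1) (hp : p = X' - Y')
    (hpT : p ∉ T) (X Y : V) (hp' : p = X - Y) :
    ∃ P : V →ₗ[F] V, (∀ x ∈ V2, P x = x) ∧ P Y' = Y ∧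
      ∀ g ∈ T, g ∈ V1 → P g = 0 ∨ P g = X ∨ P g = -X ∨ P g = Y ∨ P g = -Y := by
  obtain ⟨-, ξ, η, h1, h2, h3, h4, h5, h6⟩ := lb_facts h hT hX hY hY1 hp hpT
  obtain ⟨P, hP1, hP2⟩ := glue h.inf (ξ.smulRight X + η.smulRight Y) LinearMap.id (by
    have q1 : ξ p = 1 := by rw [hp, map_sub, h1, h2, sub_zero]
    have q2 : η p = -1 := by rw [hp, map_sub, h3, h4, zero_sub]
    simp only [LinearMap.add_apply, LinearMap.smulRight_apply, LinearMap.id_apply, q1, q2]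
    rw [hp']
    module)
  refine ⟨P, hP2, by simp [hP1 _ hY1, h2, h4], fun g hg hg1 => ?_⟩
  rw [hP1 g hg1]
  by_cases a1 : g = X'
  · simp [a1, h1, h3]
  by_cases a2 : g = -X'
  · simp [a2, h1, h3]
  by_cases a3 : g = Y'
  · simp [a3, h2, h4]
  by_cases a4 : g = -Y'
  · simp [a4, h2, h4]
  simp [h5 g hg a1 a2, h6 g hg a3 a4]

end Glue

open Glue

theorem s_gjj : S_GJJ := by
  intro V _ _ A B V1 V2 p T T' h hT hT' ⟨T1, P1, f1, p1, m1, i1, s1⟩ ⟨T2, P2, f2, p2, m2, i2, s2⟩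
  have := h.frA.finite
  have u1 : ∀ x ∈ T1, x ∈ V1 := fun x hx => fron_span f1 ▸ subset_span hx
  have u2 : ∀ x ∈ T2, x ∈ V2 := fun x hx => fron_span f2 ▸ subset_span hx
  have d1 : ∀ t ∈ T1, t ≠ 0 → t ≠ p → t ≠ -p → ∃ φ : V →ₗ[F] F, IsStar T φ ∧ φ t = 1 ∧
      ∀ y ∈ T1 ∪ T2, y ≠ t → y ≠ -t → φ y = 0 := by
    intro t ht a0 a1 a2
    obtain ⟨φ, b1, b2, b3, b4⟩ := s1 t ht a0 a1 a2
    exact ⟨φ, b1, b3, fun y hy c1 c2 => hy.elim (fun hy => b4 y hy c1 c2)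
      fun hy => b2 y (u2 y hy)⟩
  have d2 : ∀ t ∈ T2, t ≠ 0 → t ≠ p → t ≠ -p → ∃ φ : V →ₗ[F] F, IsStar T' φ ∧ φ t = 1 ∧
      ∀ y ∈ T1 ∪ T2, y ≠ t → y ≠ -t → φ y = 0 := by
    intro t ht a0 a1 a2
    obtain ⟨φ, b1, b2, b3, b4⟩ := s2 t ht a0 a1 a2
    exact ⟨φ, b1, b3, fun y hy c1 c2 => hy.elim (fun hy => b2 y (u1 y hy))
      fun hy => b4 y hy c1 c2⟩
  have d0 : ∃ φ : V →ₗ[F] F, φ p = 1 ∧ ∀ y ∈ T1 ∪ T2, y ≠ p → y ≠ -p → φ y = 0 := by
    obtain ⟨φ1, a1, a2⟩ := fron_dual f1 p1 h.pne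
    obtain ⟨φ2, b1, b2⟩ := fron_dual f2 p2 h.pne
    obtain ⟨ψ, c1, c2⟩ := glue h.inf φ1 φ2 (a1.trans b1.symm)
    refine ⟨ψ, (c1 p (u1 p p1)).trans a1, fun y hy e1 e2 => ?_⟩
    rcases hy with hy | hy
    · rw [c1 y (u1 y hy), a2 y hy e1 e2]
    · rw [c2 y (u2 y hy), b2 y hy e1 e2]
  have hG : IsFrame (T1 ∪ T2) := by
    refine frame_of_dual (Or.inl ?_) ?_ ?_ ?_
    · obtain ⟨n, v, -, -, rfl⟩ := f1
      exact zero_mem_Tset v
    · obtain ⟨n, v, -, -, rfl⟩ := f1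
      obtain ⟨n', v', -, -, rfl⟩ := f2
      exact fun x hx => hx.imp neg_mem_Tset neg_mem_Tset
    · rw [span_union, fron_span f1, fron_span f2, h.sup]
    · intro t ht t0
      by_cases a1 : t = p
      · exact a1 ▸ d0
      by_cases a2 : t = -p
      · obtain ⟨φ, b1, b2⟩ := d0
        refine ⟨-φ, by simp [a2, b1], fun y hy c1 c2 => ?_⟩
        simp [b2 y hy (by simpa [a2] using c2) (a2 ▸ c1)]
      rcases ht with ht | ht
      · obtain ⟨φ, -, b⟩ := d1 t ht t0 a1 a2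
        exact ⟨φ, b⟩
      · obtain ⟨φ, -, b⟩ := d2 t ht t0 a1 a2
        exact ⟨φ, b⟩
  refine ⟨T1 ∪ T2, ⟨hG, hyb h.frA h.frB h.cov hT.2 hT'.2 P1 P2 (fun x hx => Or.inl (m1 x hx))
    (fun x hx => Or.inr (m2 x hx)) i1 i2⟩, ?_, ?_⟩
  · obtain ⟨t, ht, a0, a1, a2⟩ := exists_third h f1
    obtain ⟨φ, b1, b2, b3⟩ := d1 t ht a0 a1 a2
    exact ⟨φ, b1, t, Or.inl ht, b2, b3⟩
  · obtain ⟨t, ht, a0, a1, a2⟩ := exists_third h.symm f2
    obtain ⟨φ, b1, b2, b3⟩ := d2 t ht a0 a1 a2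
    exact ⟨φ, ⟨t, Or.inr ht, b2, b3⟩, b1⟩

theorem s_glb : S_GLB := by
  intro V _ _ A B V1 V2 p T T' h hT hT' ⟨X, hX, Y, hY, hX1, hY1, hp, hpT, hc, hs⟩
    ⟨X', hX', Y', hY', hX1', hY1', hp', hpT', hc', hs'⟩ h3
  have := h.frA.finite
  obtain ⟨hY2, ξ, η, e1, e2, e3, e4, e5, e6⟩ := lb_facts h hT'.1 hX' hY' hY1' hp' hpT'
  let G : Set V := {x | (x ∈ T ∧ x ∈ V1) ∨
    ∃ g ∈ T', g ∉ V1 ∧ g - Y' ∈ V2 ∧ (x = g - Y' + Y ∨ x = -(g - Y' + Y))}
  have hneg : ∀ x ∈ G, -x ∈ G := by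
    rintro x (⟨a1, a2⟩ | ⟨g, a1, a2, a3, rfl | rfl⟩)
    · exact Or.inl ⟨hT.1.neg_mem a1, neg_mem a2⟩
    · exact Or.inr ⟨g, a1, a2, a3, Or.inr rfl⟩
    · exact Or.inr ⟨g, a1, a2, a3, Or.inl (neg_neg _)⟩
  obtain ⟨P2, i2, y2, k2⟩ := lb_map h hT'.1 hX' hY' hY1' hp' hpT' X Y hp
  have m2 : ∀ x ∈ T', P2 x ∈ G := by
    have key : ∀ g ∈ T', g ∉ V1 → g - Y' ∈ V2 → P2 g ∈ G := by
      intro g a1 a2 a3
      refine Or.inr ⟨g, a1, a2, a3, Or.inl ?_⟩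
      rw [← i2 _ a3, ← y2, ← map_add, sub_add_cancel]
    intro x hx
    by_cases a1 : x ∈ V1
    · refine Or.inl ?_
      rcases k2 x hx a1 with a | a | a | a | a <;> rw [a]
      · exact ⟨hT.1.zero_mem, zero_mem _⟩
      · exact ⟨hX, hX1⟩
      · exact ⟨hT.1.neg_mem hX, neg_mem hX1⟩
      · exact ⟨hY, hY1⟩
      · exact ⟨hT.1.neg_mem hY, neg_mem hY1⟩
    rcases hc' x hx with a | a | a
    · exact absurd a a1
    · exact key x hx a1 a
    · have := hneg _ (key (-x) (hT'.1.neg_mem hx) (fun b => a1 (neg_mem_iff.1 b))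
        (by rw [show -x - Y' = -(x + Y') by abel]; exact neg_mem a))
      rwa [map_neg, neg_neg] at this
  obtain ⟨P1, m1, i1⟩ : ∃ P1 : V →ₗ[F] V, (∀ x ∈ T, P1 x ∈ G) ∧ ∀ x ∈ V1, P1 x = x := by
    obtain ⟨n, b, rfl⟩ := hT.1
    have a1 : ∀ x ∈ Tset b, x ∈ V1 → projS b {i | b i ∈ V1} x = x := by
      intro x hx hx1
      refine projS_eq_self b fun l hl => ?_
      have a2 := Tset_eq_smul b hx hl
      have a3 : b l = b.repr x l • x := by
        conv_rhs => rw [a2]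
        simp [smul_smul, F_sq hl]
      change b l ∈ V1
      rw [a3]
      exact smul_mem _ _ hx1
    refine ⟨projS b {i | b i ∈ V1}, fun x hx => Or.inl ?_, fun x hx => ?_⟩
    · by_cases a2 : x ∈ V1
      · rw [a1 x hx a2]; exact ⟨hx, a2⟩
      · rw [projS_eq_zero b fun l hl => by_contra fun a3 =>
          a2 (by rw [Tset_eq_smul b hx a3]; exact smul_mem _ _ hl)]
        exact ⟨zero_mem_Tset _, zero_mem _⟩
    · exact (span_le.2 fun y hy => a1 y hy.1 hy.2 :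
        span F (Tset b ∩ (V1 : Set V)) ≤ LinearMap.eqLocus (projS b {i | b i ∈ V1}) LinearMap.id)
        (hs hx)
  have d2 : ∀ g ∈ T', g ∉ V1 → g - Y' ∈ V2 → ∃ φ : V →ₗ[F] F, IsStar T' φ ∧
      φ (g - Y' + Y) = 1 ∧ ∀ y ∈ G, y ≠ g - Y' + Y → y ≠ -(g - Y' + Y) → φ y = 0 := by
    intro g a1 a2 a3
    obtain ⟨φ, b1, b2⟩ := frame_dual hT'.1 a1 fun b => a2 (b ▸ zero_mem _)
    have b3 : ∀ x ∈ V1, φ x = 0 := fun x hx => map_span_zero φ (fun y hy => b2 y hy.1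
      (fun b => a2 (b ▸ hy.2)) fun b => a2 (neg_mem_iff.1 (b ▸ hy.2))) (hs' hx)
    refine ⟨φ, ⟨g, a1, b1, b2⟩, by simp [b1, b3 _ hY1, b3 _ hY1'], ?_⟩
    have b4 : ∀ g' ∈ T', g' - Y' ∈ V2 → g' ≠ g → φ (g' - Y' + Y) = 0 := by
      intro g' c1 c2 c3
      have c4 : g' ≠ -g := by
        rintro rfl
        apply hY2
        have : Y' = (g - Y') + (-g - Y') := by
          linear_combination (norm := module) three Y'
        rw [this]
        exact add_mem a3 c2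
      simp [b2 g' c1 c3 c4, b3 _ hY1, b3 _ hY1']
    rintro y (⟨-, c1⟩ | ⟨g', c1, -, c2, rfl | rfl⟩) c3 c4
    · exact b3 y c1
    · exact b4 g' c1 c2 fun c => c3 (c ▸ rfl)
    · rw [map_neg, b4 g' c1 c2 fun c => c4 (c ▸ rfl), neg_zero]
  have hG : IsFrame G := by
    refine frame_of_dual (Or.inl ⟨hT.1.zero_mem, zero_mem _⟩) hneg ?_ ?_
    · rw [← h.sup]
      refine sup_le (hs.trans (span_mono fun x hx => Or.inl hx)) fun x hx => ?_
      rw [← i2 x hx]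
      exact (span_le.2 fun y hy => subset_span (m2 y hy) :
        span F T' ≤ (span F G).comap P2) (frame_span hT'.1 ▸ mem_top)
    · rintro t (⟨a1, a2⟩ | ⟨g, a1, a2, a3, rfl | rfl⟩) t0
      · obtain ⟨φ, b1, b2⟩ := frame_dual hT.1 a1 t0
        obtain ⟨ψ, c1, c2⟩ := glue h.inf φ (φ X • ξ + φ Y • η) (by
          have q1 : ξ p = 1 := by rw [hp', map_sub, e1, e2, sub_zero]
          have q2 : η p = -1 := by rw [hp', map_sub, e3, e4, zero_sub]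
          have q3 : φ p = φ X - φ Y := by rw [hp, map_sub]
          simp only [LinearMap.add_apply, LinearMap.smul_apply, smul_eq_mul, q1, q2, q3]
          ring)
        have c3 : ∀ g ∈ T', g ∉ V1 → g - Y' ∈ V2 → ψ (g - Y' + Y) = 0 := by
          intro g f1 f2 f3
          rw [map_add, c2 _ f3, c1 _ hY1]
          simp [e2, e4, e5 g f1 (fun f => f2 (f ▸ hX1')) (fun f => f2 (f ▸ neg_mem hX1')),
            e6 g f1 (fun f => f2 (f ▸ hY1')) (fun f => f2 (f ▸ neg_mem hY1'))]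
        refine ⟨ψ, (c1 t a2).trans b1, ?_⟩
        rintro y (⟨f1, f2⟩ | ⟨g, f1, f2, f3, rfl | rfl⟩) f4 f5
        · rw [c1 y f2, b2 y f1 f4 f5]
        · exact c3 g f1 f2 f3
        · rw [map_neg, c3 g f1 f2 f3, neg_zero]
      · obtain ⟨φ, -, b⟩ := d2 g a1 a2 a3
        exact ⟨φ, b⟩
      · obtain ⟨φ, -, b1, b2⟩ := d2 g a1 a2 a3
        refine ⟨-φ, by rw [LinearMap.neg_apply, map_neg, neg_neg, b1], fun y hy c1 c2 => ?_⟩
        rw [LinearMap.neg_apply, b2 y hy (by rwa [neg_neg] at c2) c1, neg_zero]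
  refine ⟨G, ⟨hG, hyb h.frA h.frB h.cov hT.2 hT'.2 P1 P2 m1 m2 i1 i2⟩, ?_, ?_⟩
  · obtain ⟨t, a1, a2, a0, a3, a4, a5, a6⟩ :
        ∃ t ∈ T, t ∈ V1 ∧ t ≠ 0 ∧ t ≠ X ∧ t ≠ -X ∧ t ≠ Y ∧ t ≠ -Y := by
      by_contra hn
      push Not at hn
      have b1 : V1 ≤ span F (Set.range ![X, Y]) := by
        refine hs.trans (span_le.2 fun t ht => ?_)
        have bX : X ∈ span F (Set.range ![X, Y]) := subset_span ⟨0, rfl⟩
        have bY : Y ∈ span F (Set.range ![X, Y]) := subset_span ⟨1, rfl⟩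
        by_cases c0 : t = 0
        · rw [c0]; exact zero_mem _
        by_cases c1 : t = X
        · rw [c1]; exact bX
        by_cases c2 : t = -X
        · rw [c2]; exact neg_mem bX
        by_cases c3 : t = Y
        · rw [c3]; exact bY
        · rw [hn t ht.1 ht.2 c0 c1 c2 c3]; exact neg_mem bY
      have b2 := finrank_mono b1
      have b3 : finrank F (span F (Set.range ![X, Y])) ≤ 2 := by
        exact (finrank_range_le_card (R := F) ![X, Y]).trans (by simp)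
      omega
    obtain ⟨φ, b1, b2⟩ := frame_dual hT.1 a1 a0
    have bX : φ X = 0 := b2 X hX a3.symm fun c => a4 (by rw [c, neg_neg])
    have bY : φ Y = 0 := b2 Y hY a5.symm fun c => a6 (by rw [c, neg_neg])
    obtain ⟨P, j2, z2, l2⟩ := lb_map h hT.1 hX hY hY1 hp hpT X Y hp
    have b3 : ∀ x ∈ V2, φ x = 0 := by
      intro x hx
      rw [← j2 x hx]
      refine map_span_zero (φ.comp P) (E := T) (fun g hg => ?_) (frame_span hT.1 ▸ mem_top)
      change φ (P g) = 0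
      by_cases c1 : g ∈ V1
      · rcases l2 g hg c1 with c | c | c | c | c <;> simp [c, bX, bY]
      have c2 : P g = g := by
        rcases hc g hg with c | c | c
        · exact absurd c c1
        · have := j2 _ c
          rw [map_sub, z2] at this
          exact sub_left_injective this
        · have := j2 _ c
          rw [map_add, z2] at this
          exact add_right_cancel this
      rw [c2]
      exact b2 g hg (fun c => c1 (c ▸ a2)) fun c => c1 (c ▸ neg_mem a2)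
    refine ⟨φ, ⟨t, a1, b1, b2⟩, t, Or.inl ⟨a1, a2⟩, b1, ?_⟩
    rintro y (⟨f1, -⟩ | ⟨g, -, -, f3, rfl | rfl⟩) f4 f5
    · exact b2 y f1 f4 f5
    · rw [map_add, b3 _ f3, bY, add_zero]
    · rw [map_neg, map_add, b3 _ f3, bY, add_zero, neg_zero]
  · obtain ⟨g, a1, a2, a3⟩ : ∃ g ∈ T', g ∉ V1 ∧ g - Y' ∈ V2 := by
      obtain ⟨g, a1, a2⟩ : ∃ g ∈ T', g ∉ V1 := by
        by_contra hn
        push Not at hn
        exact h.ne1 (eq_top_iff.2 (frame_span hT'.1 ▸ span_le.2 hn))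
      rcases hc' g a1 with a | a | a
      · exact absurd a a2
      · exact ⟨g, a1, a2, a⟩
      · exact ⟨-g, hT'.1.neg_mem a1, fun b => a2 (neg_mem_iff.1 b),
          by rw [show -g - Y' = -(g + Y') by abel]; exact neg_mem a⟩
    obtain ⟨φ, b1, b2, b3⟩ := d2 g a1 a2 a3
    exact ⟨φ, ⟨_, Or.inr ⟨g, a1, a2, a3, Or.inl rfl⟩, b2, b3⟩, b1⟩

end Pool.Agent.P.MP_053557_co
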