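import Pool.Agent.P.MP_053557_co.Basic2

/-! Hubs, the tetrahedron and the criteria for `Rr`. -/

namespace Pool.Agent.P.MP_053557_co

open Module Submodule

namespace Hub

variable {V : Type} [AddCommGroup V] [Module F V] {ι : Type}

theorem li3 (b : Basis ι F V) {y1 y2 y3 : V} (h1 : y1 ∈ Tset b) (h2 : y2 ∈ Tset b)
    (h3 : y3 ∈ Tset b) (h : LinearIndependent F ![y1, y2, y3]) :
    ∃ m1 m2 m3, ∃ c1 c2 c3 : F, m1 ≠ m2 ∧ m1 ≠ m3 ∧ m2 ≠ m3 ∧ c1 ≠ 0 ∧ c2 ≠ 0 ∧ c3 ≠ 0 ∧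
      y1 = c1 • b m1 ∧ y2 = c2 • b m2 ∧ y3 = c3 • b m3 := by
  have key : ∀ a1 a2 a3 : F, a1 • y1 + a2 • y2 + a3 • y3 = 0 → a1 = 0 ∧ a2 = 0 ∧ a3 = 0 := by
    intro a1 a2 a3 ha
    have := Fintype.linearIndependent_iff.1 h ![a1, a2, a3] (by simpa [Fin.sum_univ_three] using ha)
    exact ⟨this 0, this 1, this 2⟩
  rcases mem_Tset_iff_smul.1 h1 with rfl | ⟨m1, c1, hc1, rfl⟩
  · exact absurd (key 1 0 0 (by simp)).1 one_ne_zero
  rcases mem_Tset_iff_smul.1 h2 with rfl | ⟨m2, c2, hc2, rfl⟩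
  · exact absurd (key 0 1 0 (by simp)).2.1 one_ne_zero
  rcases mem_Tset_iff_smul.1 h3 with rfl | ⟨m3, c3, hc3, rfl⟩
  · exact absurd (key 0 0 1 (by simp)).2.2 one_ne_zero
  refine ⟨m1, m2, m3, c1, c2, c3, ?_, ?_, ?_, hc1, hc2, hc3, rfl, rfl, rfl⟩
  · rintro rfl
    exact hc2 (key c2 (-c1) 0 (by module)).1
  · rintro rfl
    exact hc3 (key c3 0 (-c1) (by module)).1
  · rintro rfl
    exact hc3 (key 0 c3 (-c2) (by module)).2.1

theorem li3' (b : Basis ι F V) {i j k : ι} (hij : i ≠ j) (hki : k ≠ i) (hkj : k ≠ j) {c : F}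
    (hc : c ≠ 0) : LinearIndependent F ![b i, -b j, c • b k] := by
  rw [Fintype.linearIndependent_iff]
  intro g hg
  simp only [Fin.sum_univ_three, Matrix.cons_val_zero, Matrix.cons_val_one, Matrix.cons_val] at hg
  have h0 := congrArg (fun x => b.repr x i) hg
  have h1 := congrArg (fun x => b.repr x j) hg
  have h2 := congrArg (fun x => b.repr x k) hg
  simp [single_ne hij, single_ne hij.symm, single_ne hki, single_ne hkj, single_ne hki.symm,
    single_ne hkj.symm, hc] at h0 h1 h2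
  intro t
  fin_cases t
  · exact h0
  · exact h1
  · exact h2

theorem cls (b : Basis ι F V) {i j : ι} (hij : i ≠ j) {v : V} (h1 : v ∈ Dset (Tset b))
    (h2 : v - (b i - b j) ∈ Dset (Tset b)) :
    (∃ k, ∃ c : F, k ≠ i ∧ k ≠ j ∧ c ≠ 0 ∧ v = b i + c • b k) ∨
    (∃ k, ∃ c : F, k ≠ i ∧ k ≠ j ∧ c ≠ 0 ∧ v = -b j + c • b k) ∨
    ∃ c1 c2 : F, v = c1 • b i + c2 • b j := by
  by_cases hp : ∀ k, k ≠ i → k ≠ j → b.repr v k = 0
  · exact Or.inr (Or.inr ⟨_, _, eq_two_of_supp b hij hp⟩)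
  push Not at hp
  obtain ⟨k, hki, hkj, hk⟩ := hp
  have a1 : b.repr v i = 0 ∨ b.repr v j = 0 := by
    by_contra hc
    push Not at hc
    exact hk (repr_eq_zero_of_Dset b h1 hij hc.1 hc.2 hki hkj)
  have a2 : b.repr v i = 1 ∨ b.repr v j = -1 := by
    by_contra hc
    push Not at hc
    have := repr_eq_zero_of_Dset b h2 hij
      (by simpa [single_ne hij.symm, sub_eq_zero] using hc.1)
      (by simpa [single_ne hij, add_eq_zero_iff_eq_neg] using hc.2) hki hkj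
    simp [single_ne hki.symm, single_ne hkj.symm] at this
    exact hk this
  by_cases hi : b.repr v i = 1
  · left
    have := Dset_eq_two b h1 hki.symm (by rw [hi]; exact one_ne_zero) hk
    rw [hi, one_smul] at this
    exact ⟨k, _, hki, hkj, hk, this⟩
  · right; left
    have hj : b.repr v j = -1 := a2.resolve_left hi
    have := Dset_eq_two b h1 hkj.symm (by rw [hj]; decide) hk
    rw [hj, neg_smul, one_smul] at this
    exact ⟨k, _, hki, hkj, hk, this⟩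

theorem not_D3 (b : Basis ι F V) {i j k : ι} (hij : i ≠ j) (hki : k ≠ i) (hkj : k ≠ j) {v : V}
    (h : v ∈ Dset (Tset b)) (hi : b.repr v i ≠ 0) (hj : b.repr v j ≠ 0) (hk : b.repr v k ≠ 0) :
    False := hk (repr_eq_zero_of_Dset b h hij hi hj hki hkj)

theorem two_mem (b : Basis ι F V) {i j : ι} (hij : i ≠ j) {c1 c2 : F} :
    c1 • b i + c2 • b j ∈ Tset b ↔ c1 = 0 ∨ c2 = 0 := by
  constructor
  · intro h
    by_contra hc
    push Not at hc
    exact hij ((mem_Tset_iff b).1 h i j (by simpa [single_ne hij.symm] using hc.1)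
      (by simpa [single_ne hij] using hc.2))
  · rintro (rfl | rfl)
    · simpa using smul_mem_Tset c2 (self_mem_Tset b j)
    · simpa using smul_mem_Tset c1 (self_mem_Tset b i)

theorem plane_fin : ∀ p p' : F × F, p.1 ≠ 0 → p.2 + 1 ≠ 0 → p'.1 - 1 ≠ 0 → p'.2 ≠ 0 →
    (p = (-1, 1) ∨ p' = (-1, 1)) ∨
    ((1, -1) + p' = p + 0 ∧ (1, -1) ≠ p' ∧ p ≠ 0 ∧ (1, -1) ≠ p) ∨
    (p + p' = (1, -1) + 0 ∧ p ≠ p' ∧ p ≠ (1, -1) ∧ p ≠ 0) ∨
    ((1, -1) + p = p' + 0 ∧ (1, -1) ≠ p ∧ p' ≠ 0 ∧ (1, -1) ≠ p') ∨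
    (p + 0 + p' = 0 ∧ p ≠ 0 ∧ (p - 0).1 ≠ 0 ∧ (p - 0).2 ≠ 0) ∨
    (p + p' + (1, -1) = 0 ∧ p ≠ p' ∧ (p - p').1 ≠ 0 ∧ (p - p').2 ≠ 0) := by
  rintro ⟨a, b⟩ ⟨c, d⟩
  rcases F_cases a with rfl | rfl | rfl <;> rcases F_cases b with rfl | rfl | rfl <;>
    rcases F_cases c with rfl | rfl | rfl <;> rcases F_cases d with rfl | rfl | rfl <;> decide

theorem plane (S : Set (F × F))
    (hl : ∀ p ∈ S, ∀ q ∈ S, ∀ r ∈ S, p ≠ q → p + q + r = 0 → (p - q).1 = 0 ∨ (p - q).2 = 0)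
    (hp : ∀ p ∈ S, ∀ q ∈ S, ∀ r ∈ S, ∀ w ∈ S, p ≠ q → r ≠ w → p ≠ r → p ≠ w → p + q ≠ r + w)
    (h0 : (0 : F × F) ∈ S) (hd : ((1, -1) : F × F) ∈ S) {p p' : F × F} (h1 : p ∈ S)
    (h2 : p' ∈ S) (a1 : p.1 ≠ 0) (a2 : p.2 + 1 ≠ 0) (a3 : p'.1 - 1 ≠ 0) (a4 : p'.2 ≠ 0) :
    False := by
  have hd0 : ((1, -1) : F × F) ≠ 0 := by decide
  rcases plane_fin p p' a1 a2 a3 a4 with (rfl | rfl) | h | h | h | h | h
  · exact absurd (hl _ hd _ h0 _ h1 hd0 (by decide)) (by decide)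
  · exact absurd (hl _ hd _ h0 _ h2 hd0 (by decide)) (by decide)
  · exact hp _ hd _ h2 _ h1 _ h0 h.2.1 h.2.2.1 h.2.2.2 hd0 h.1
  · exact hp _ h1 _ h2 _ hd _ h0 h.2.1 hd0 h.2.2.1 h.2.2.2 h.1
  · exact hp _ hd _ h1 _ h2 _ h0 h.2.1 h.2.2.1 h.2.2.2 hd0 h.1
  · exact (hl _ h1 _ h0 _ h2 h.2.1 h.1).elim h.2.2.1 h.2.2.2
  · exact (hl _ h1 _ h2 _ hd h.2.1 h.1).elim h.2.2.1 h.2.2.2

theorem core (b : Basis ι F V) (H : Set V) {i j : ι} (hij : i ≠ j) {x0 : V} (h0 : x0 ∈ H)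
    (h1 : x0 + (b i - b j) ∈ H)
    (hD : ∀ x ∈ H, ∀ y ∈ H, x - y ∈ Dset (Tset b))
    (hL : ∀ x ∈ H, ∀ y ∈ H, ∀ z ∈ H, x ≠ y → x + y + z = 0 → x - y ∈ Tset b)
    (hP : ∀ x ∈ H, ∀ y ∈ H, ∀ z ∈ H, ∀ w ∈ H, x ≠ y → z ≠ w → x ≠ z → x ≠ w → x + y ≠ z + w)
    (hT : ∀ x0 ∈ H, ∀ x1 ∈ H, ∀ x2 ∈ H, ∀ x3 ∈ H, ∀ y1 ∈ Tset b, ∀ y2 ∈ Tset b, ∀ y3 ∈ Tset b,
      LinearIndependent F ![y1, y2, y3] →
      ¬ (x1 - x0 = y1 + y2 ∧ x2 - x0 = y1 + y3 ∧ x3 - x0 = y2 + y3)) :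
    ∃ u, ∀ x ∈ H, x + u ∈ Tset b := by
  by_contra hc
  push Not at hc
  obtain ⟨x, hx, hxn⟩ := hc (b j - x0)
  obtain ⟨x', hx', hxn'⟩ := hc (-b i - x0)
  have hcl : ∀ x ∈ H, _ := fun x hx => cls b hij (hD x hx x0 h0) (by
    have := hD x hx _ h1
    rwa [← sub_sub] at this)
  have e1 : x + (b j - x0) = x - x0 + b j := by abel
  have e2 : x' + (-b i - x0) = x' - x0 - b i := by abel
  have e3 : x - x' = x - x0 - (x' - x0) := by abel
  rw [e1] at hxn
  rw [e2] at hxn'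
  have hxx := hD x hx x' hx'
  rw [e3] at hxx
  rcases hcl x hx with ⟨k, c, hki, hkj, hc, e⟩ | ⟨k, c, hki, hkj, hc, e⟩ | ⟨c1, c2, e⟩
  · rcases hcl x' hx' with ⟨k', c', hki', hkj', hc', e'⟩ | ⟨k', c', hki', hkj', hc', e'⟩ |
      ⟨c1', c2', e'⟩
    · refine hxn' ?_
      rw [e', add_sub_cancel_left]
      exact smul_mem_Tset _ (self_mem_Tset b k')
    · rw [e, e'] at hxx
      have h3 := repr_eq_zero_of_Dset b hxx hij
        (by simp [single_ne hki, single_ne hki', single_ne hij.symm])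
        (by simp [single_ne hkj, single_ne hkj', single_ne hij]) hki hkj
      have hkk : k' = k := by
        by_contra hkk
        simp [single_ne hki.symm, single_ne hkj.symm, single_ne hkk, hc] at h3
      subst hkk
      have hcc : c = c' := by
        simpa [single_ne hki.symm, single_ne hkj.symm, sub_eq_zero] using h3
      subst hcc
      exact hT x0 h0 _ h1 x hx x' hx' _ (self_mem_Tset b i) _ (neg_mem_Tset (self_mem_Tset b j))
        _ (smul_mem_Tset c (self_mem_Tset b k')) (li3' b hij hki hkj hc) ⟨by abel, e, e'⟩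
    · have e4 : x' - x0 - b i = (c1' - 1) • b i + c2' • b j := by rw [e']; module
      rw [e4, two_mem b hij] at hxn'
      push Not at hxn'
      rw [e, e'] at hxx
      refine not_D3 b hij hki hkj hxx ?_ ?_ ?_
      · have := hxn'.1
        simp only [ne_eq, sub_eq_zero] at this
        simpa [single_ne hki, single_ne hij.symm, sub_eq_zero] using fun h => this h.symm
      · simpa [single_ne hkj, single_ne hij] using hxn'.2
      · simpa [single_ne hki.symm, single_ne hkj.symm] using hc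
  · refine hxn ?_
    rw [e, neg_add_cancel_comm]
    exact smul_mem_Tset _ (self_mem_Tset b k)
  · have e4 : x - x0 + b j = c1 • b i + (c2 + 1) • b j := by rw [e]; module
    rw [e4, two_mem b hij] at hxn
    push Not at hxn
    rcases hcl x' hx' with ⟨k', c', hki', hkj', hc', e'⟩ | ⟨k', c', hki', hkj', hc', e'⟩ |
      ⟨c1', c2', e'⟩
    · refine hxn' ?_
      rw [e', add_sub_cancel_left]
      exact smul_mem_Tset _ (self_mem_Tset b k')
    · rw [e, e'] at hxx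
      refine not_D3 b hij hki' hkj' hxx ?_ ?_ ?_
      · simpa [single_ne hki', single_ne hij.symm] using hxn.1
      · simpa [single_ne hkj', single_ne hij] using hxn.2
      · simpa [single_ne hki'.symm, single_ne hkj'.symm] using hc'
    · have e5 : x' - x0 - b i = (c1' - 1) • b i + c2' • b j := by rw [e']; module
      rw [e5, two_mem b hij] at hxn'
      push Not at hxn'
      let φ : F × F → V := fun p => x0 + (p.1 • b i + p.2 • b j)
      have hinj : ∀ p q : F × F, p ≠ q → φ p ≠ φ q := by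
        intro p q hpq h
        have h3 := add_left_cancel h
        have h4 := congrArg (fun x => b.repr x i) h3
        have h5 := congrArg (fun x => b.repr x j) h3
        simp [single_ne hij, single_ne hij.symm] at h4 h5
        exact hpq (Prod.ext h4 h5)
      refine plane {p | φ p ∈ H} ?_ ?_ ?_ ?_ (p := (c1, c2)) (p' := (c1', c2')) ?_ ?_
        hxn.1 hxn.2 hxn'.1 hxn'.2
      · intro p hp q hq r hr hpq hs
        have h3 : p.1 + q.1 + r.1 = 0 := congrArg Prod.fst hs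
        have h4 : p.2 + q.2 + r.2 = 0 := congrArg Prod.snd hs
        have h5 := hL _ hp _ hq _ hr (hinj p q hpq) (by
          have : φ p + φ q + φ r =
              x0 + x0 + x0 + ((p.1 + q.1 + r.1) • b i + (p.2 + q.2 + r.2) • b j) := by
            simp only [φ]; module
          rw [this, h3, h4, three]; simp)
        have h6 : φ p - φ q = (p - q).1 • b i + (p - q).2 • b j := by
          simp only [φ, Prod.fst_sub, Prod.snd_sub]; module
        rwa [h6, two_mem b hij] at h5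
      · intro p hp q hq r hr w hw a1 a2 a3 a4 hs
        have h3 : p.1 + q.1 = r.1 + w.1 := congrArg Prod.fst hs
        have h4 : p.2 + q.2 = r.2 + w.2 := congrArg Prod.snd hs
        refine hP _ hp _ hq _ hr _ hw (hinj _ _ a1) (hinj _ _ a2) (hinj _ _ a3) (hinj _ _ a4) ?_
        have h5 : φ p + φ q = x0 + x0 + ((p.1 + q.1) • b i + (p.2 + q.2) • b j) := by
          simp only [φ]; module
        have h6 : φ r + φ w = x0 + x0 + ((r.1 + w.1) • b i + (r.2 + w.2) • b j) := by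
          simp only [φ]; module
        rw [h5, h6, h3, h4]
      · simpa [φ] using h0
      · simpa [φ, sub_eq_add_neg] using h1
      · have : φ (c1, c2) = x := by simp only [φ]; rw [← e]; abel
        exact Set.mem_of_eq_of_mem (s := H) this hx
      · have : φ (c1', c2') = x' := by simp only [φ]; rw [← e']; abel
        exact Set.mem_of_eq_of_mem (s := H) this hx'

theorem star_inj {T : Set V} {φ : V →ₗ[F] F} (h : IsStar T φ) {p q : V} (hp : p ∈ T)
    (hq : q ∈ T) (e : φ p = φ q) (h0 : φ p ≠ 0) : p = q := by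
  obtain ⟨x, -, h1, h2⟩ := h
  have a1 : p = x ∨ p = -x := by
    by_contra hc; push Not at hc; exact h0 (h2 p hp hc.1 hc.2)
  have a2 : q = x ∨ q = -x := by
    by_contra hc; push Not at hc; exact h0 (e.trans (h2 q hq hc.1 hc.2))
  rcases a1 with a1 | a1 <;> rcases a2 with a2 | a2
  · rw [a1, a2]
  · rw [a1, a2, map_neg, h1] at e; exact absurd e (by decide)
  · rw [a1, a2, map_neg, h1] at e; exact absurd e (by decide)
  · rw [a1, a2]

theorem star_tet {T : Set V} {φ : V →ₗ[F] F} (h : IsStar T φ) {p0 p1 p2 p3 y1 y2 y3 : V}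
    (h0 : p0 ∈ T) (h1 : p1 ∈ T) (h2 : p2 ∈ T) (h3 : p3 ∈ T) (e1 : p1 - p0 = y1 + y2)
    (e2 : p2 - p0 = y1 + y3) (e3 : p3 - p0 = y2 + y3) (a1 : φ y1 ≠ 0) (a2 : φ y2 = 0)
    (a3 : φ y3 = 0) (n1 : y2 + y3 ≠ 0) (n2 : y2 ≠ y3) : False := by
  have f1 := congrArg φ e1
  have f2 := congrArg φ e2
  have f3 := congrArg φ e3
  rw [map_sub, map_add, a2, add_zero] at f1
  rw [map_sub, map_add, a3, add_zero] at f2
  rw [map_sub, map_add, a2, a3, add_zero, sub_eq_zero] at f3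
  by_cases hz : φ p0 = 0
  · rw [hz, sub_zero] at f1 f2
    have := star_inj h h1 h2 (f1.trans f2.symm) (f1 ▸ a1)
    rw [this, e2] at e1
    exact n2 (add_left_cancel e1).symm
  · have := star_inj h h0 h3 f3.symm hz
    rw [this, sub_self] at e3
    exact n1 e3.symm

end Hub

theorem s_hub : S_HUB := by
  rintro V _ _ G H ⟨n, b, rfl⟩ hD hL hP hT
  by_cases hne : H.Nonempty
  swap
  · exact ⟨0, fun x hx => absurd ⟨x, hx⟩ hne⟩
  obtain ⟨x0, h0⟩ := hne
  by_cases hall : ∀ x ∈ H, x - x0 ∈ Tset b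
  · exact ⟨-x0, fun x hx => by simpa [sub_eq_add_neg] using hall x hx⟩
  push Not at hall
  obtain ⟨x1, h1, hn⟩ := hall
  rw [mem_Tset_iff] at hn
  push Not at hn
  obtain ⟨i, j, hi, hj, hij⟩ := hn
  have e := Dset_eq_two b (hD x1 h1 x0 h0) hij hi hj
  obtain ⟨b', hb, -, hT'⟩ := resign b
    (fun k => if k = i then b.repr (x1 - x0) i else if k = j then -b.repr (x1 - x0) j else 1)
    (fun k => by
      split_ifs
      · exact hi
      · exact neg_ne_zero.2 hj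
      · exact one_ne_zero)
  rw [← hT'] at hD hL hT ⊢
  refine Hub.core b' H hij h0 ?_ hD hL hP hT
  have e2 : x0 + (b' i - b' j) = x1 := by
    rw [hb i, hb j, if_pos rfl, if_neg hij.symm, if_pos rfl, neg_smul, sub_neg_eq_add, ← e]
    abel
  exact e2 ▸ h1

theorem s_tet : S_TET := by
  rintro V _ _ G ⟨n, b, rfl⟩ y1 h1 y2 h2 y3 h3 hli c hc a1 a2 a3
  obtain ⟨m1, m2, m3, c1, c2, c3, n12, n13, n23, z1, z2, z3, rfl, rfl, rfl⟩ :=
    Hub.li3 b h1 h2 h3 hli
  rw [mem_Tset_iff] at hc a1 a2 a3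
  have key : ∀ {i j : Fin n} {ci cj : F}, i ≠ j → ci ≠ 0 → cj ≠ 0 →
      (∀ k l, b.repr (c + (ci • b i + cj • b j)) k ≠ 0 →
        b.repr (c + (ci • b i + cj • b j)) l ≠ 0 → k = l) →
      b.repr c i ≠ 0 ∨ b.repr c j ≠ 0 := by
    intro i j ci cj hij hi hj h
    by_contra hn
    push Not at hn
    exact hij (h i j (by simpa [hn.1, single_ne hij.symm] using hi)
      (by simpa [hn.2, single_ne hij] using hj))
  rcases key n12 z1 z2 a1 with k1 | k1
  · rcases key n23 z2 z3 a3 with k2 | k2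
    · exact n12 (hc _ _ k1 k2)
    · exact n13 (hc _ _ k1 k2)
  · rcases key n13 z1 z3 a2 with k2 | k2
    · exact n12 (hc _ _ k2 k1)
    · exact n23 (hc _ _ k1 k2)

theorem s_rcrit : S_RCRIT := by
  intro V _ _ A B G hA hB hG hE hI hT u
  by_cases hu : u = 0
  · subst hu
    exact ⟨0, fun _ => rfl, fun x hx hx' => by
      rw [add_zero] at hx' ⊢
      exact hI ⟨hx, hx'⟩⟩
  obtain ⟨u', hu'⟩ := s_hub G {x | x ∈ A ∧ x + u ∈ B} hG
    (fun x hx y hy => hE ⟨sub_mem_Dset hx.1 hy.1, _, hx.2, _, hy.2, by abel⟩)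
    (fun x hx y hy z hz hxy h => hI ⟨T3' hA hx.1 hy.1 hz.1 hxy h, by
      have := T3' hB hx.2 hy.2 hz.2 (fun hc => hxy (add_right_cancel hc))
        (by linear_combination (norm := module) h + three u)
      rwa [add_sub_add_right_eq_sub] at this⟩)
    (fun x hx y hy z hz w hw a1 a2 a3 a4 h => by
      have h1 := T4 hA hx.1 hy.1 hz.1 hw.1 a1 a2 a3 a4 h
      have h2 := T4 hB hx.2 hy.2 hz.2 hw.2 (fun hc => a1 (add_right_cancel hc))
        (fun hc => a2 (add_right_cancel hc)) (fun hc => a3 (add_right_cancel hc))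
        (fun hc => a4 (add_right_cancel hc)) (by linear_combination (norm := module) h)
      exact hu (by linear_combination (norm := module) h1 - h2 + three u))
    (fun x0 h0 x1 h1 x2 h2 x3 h3 => hT u x0 h0.1 x1 h1.1 x2 h2.1 x3 h3.1 h0.2 h1.2 h2.2 h3.2)
  exact ⟨u', fun h => absurd h hu, fun x hx hx' => hu' x ⟨hx, hx'⟩⟩

theorem s_rc : S_RC := by
  intro V _ _ ρ _ _ A B g N hA hB hE hI hN hC
  have hG := isFrame_basis g
  refine s_rcrit A B _ hA hB hG hE hI ?_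
  rintro u x0 h0 x1 h1 x2 h2 x3 h3 b0 b1 b2 b3 y1 t1 y2 t2 y3 t3 hli ⟨e1, e2, e3⟩
  obtain ⟨m1, m2, m3, c1, c2, c3, n12, n13, n23, z1, z2, z3, f1, f2, f3⟩ :=
    Hub.li3 g t1 t2 t3 hli
  have nadd : ∀ {i j : ρ} {ci cj : F}, i ≠ j → ci ≠ 0 → ci • g i + cj • g j ≠ 0 := by
    intro i j ci cj hij hi h
    have := congrArg (fun x => g.repr x i) h
    simp [single_ne hij.symm, hi] at this
  have nsub : ∀ {i j : ρ} {ci cj : F}, i ≠ j → ci ≠ 0 → ci • g i ≠ cj • g j := by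
    intro i j ci cj hij hi h
    have := congrArg (fun x => g.repr x i) h
    simp [single_ne hij.symm, hi] at this
  have inN : ∀ {m m' m'' : ρ} {c c' c'' : F} {p1 p2 p3 : V}, m ≠ m' → m ≠ m'' → m' ≠ m'' →
      c ≠ 0 → c' ≠ 0 → p1 ∈ A → p2 ∈ A → p3 ∈ A → p1 + u ∈ B → p2 + u ∈ B → p3 + u ∈ B →
      p1 - x0 = c • g m + c' • g m' → p2 - x0 = c • g m + c'' • g m'' →
      p3 - x0 = c' • g m' + c'' • g m'' → m ∈ N := by
    intro m m' m'' c c' c'' p1 p2 p3 k1 k2 k3 k4 k5 q1 q2 q3 r1 r2 r3 s1 s2 s3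
    by_contra hm
    obtain ⟨h, -, hr, hs⟩ := hN m hm
    obtain ⟨v, -, hv⟩ := hr u
    exact Hub.star_tet hs (hv _ h0 b0) (hv _ q1 r1) (hv _ q2 r2) (hv _ q3 r3)
      ((add_sub_add_right_eq_sub _ _ _).trans s1) ((add_sub_add_right_eq_sub _ _ _).trans s2)
      ((add_sub_add_right_eq_sub _ _ _).trans s3) (by simpa using k4)
      (by simp [single_ne k1.symm]) (by simp [single_ne k2.symm]) (nadd k3 k5) (nsub k3 k5)
  have g1 := e1
  have g2 := e2
  have g3 := e3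
  rw [f1, f2] at g1
  rw [f1, f3] at g2
  rw [f2, f3] at g3
  have i1 : m1 ∈ N := inN n12 n13 n23 z1 z2 h1 h2 h3 b1 b2 b3 g1 g2 g3
  have i2 : m2 ∈ N := inN n12.symm n23 n13 z2 z1 h1 h3 h2 b1 b3 b2
    (g1.trans (add_comm _ _)) g3 g2
  have i3 : m3 ∈ N := inN n13.symm n23.symm n12 z3 z1 h2 h3 h1 b2 b3 b1
    (g2.trans (add_comm _ _)) (g3.trans (add_comm _ _)) g1
  rcases hC with ⟨k1, k2, hk⟩ | ⟨h, P, hr, hP, hfix⟩ | hC
  · rcases hk m1 i1 with a1 | a1 <;> rcases hk m2 i2 with a2 | a2 <;>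
      rcases hk m3 i3 with a3 | a3
    all_goals first
      | exact n12 (a1.trans a2.symm)
      | exact n13 (a1.trans a3.symm)
      | exact n23 (a2.trans a3.symm)
  · obtain ⟨v, -, hv⟩ := hr u
    have p1 : P y1 = y1 := by rw [f1, map_smul, hfix m1 i1]
    have p2 : P y2 = y2 := by rw [f2, map_smul, hfix m2 i2]
    have p3 : P y3 = y3 := by rw [f3, map_smul, hfix m3 i3]
    have key : ∀ {x y y' : V}, x ∈ A → x + u ∈ B → x - x0 = y + y' → P y = y → P y' = y' →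
        P (x0 + v) + (y + y') ∈ Tset g := by
      intro x y y' hx hx' e q q'
      have h4 := hP _ (hv x hx hx')
      have h5 : x + v = x0 + v + (y + y') := by rw [← e]; abel
      rwa [h5, map_add, map_add P y, q, q'] at h4
    exact s_tet _ hG y1 t1 y2 t2 y3 t3 hli (P (x0 + v)) (hP _ (hv _ h0 b0))
      (key h1 b1 e1 p1 p2) (key h2 b2 e2 p1 p3) (key h3 b3 e3 p2 p3)
  · have sp : ∀ {i j : ρ} {ci cj : F}, i ∈ N → j ∈ N → ci • g i + cj • g j ∈ span F (g '' N) :=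
      fun hi hj => add_mem (smul_mem _ _ (subset_span ⟨_, hi, rfl⟩))
        (smul_mem _ _ (subset_span ⟨_, hj, rfl⟩))
    obtain ⟨u', a0, a1, a2, a3⟩ := hC u x0 h0 x1 h1 x2 h2 x3 h3 b0 b1 b2 b3
      (fun h => nadd n12 z1 (by rw [← g1, h, sub_self]))
      (fun h => nadd n13 z1 (by rw [← g2, h, sub_self]))
      (fun h => nadd n23 z2 (by rw [← g3, h, sub_self]))
      (fun h => nsub n23 z2 (add_left_cancel (by rw [← g1, ← g2, h])))
      (fun h => nsub n13 z1 (add_left_cancel (a := c2 • g m2) (by rw [add_comm, ← g1, ← g3, h])))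
      (fun h => nsub n12 z1 (add_right_cancel (by rw [← g2, ← g3, h])))
      (g1 ▸ sp i1 i2) (g2 ▸ sp i1 i3) (g3 ▸ sp i2 i3)
    refine s_tet _ hG y1 t1 y2 t2 y3 t3 hli (x0 + u') a0 ?_ ?_ ?_
    · rwa [← e1, show x0 + u' + (x1 - x0) = x1 + u' by abel]
    · rwa [← e2, show x0 + u' + (x2 - x0) = x2 + u' by abel]
    · rwa [← e3, show x0 + u' + (x3 - x0) = x3 + u' by abel]

end Pool.Agent.P.MP_053557_co
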