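import Pool.Agent.P.MP_053557_co.Basic2

/-! Matrices with a full inverse: all rows light, and no heavy rows. -/

namespace Pool.Agent.P.MP_053557_co

open Module Submodule

namespace Hv

section basic

variable {ι ρ : Type}

theorem wt2_iff [Fintype ρ] (v : ρ → F) :
    Wt2 v ↔ ∀ a b c, v a ≠ 0 → v b ≠ 0 → v c ≠ 0 → a = b ∨ a = c ∨ b = c :=
  card_le_two_iff' _

theorem not_wt2 [Fintype ρ] {v : ρ → F} {a b c : ρ} (ha : v a ≠ 0) (hb : v b ≠ 0)
    (hc : v c ≠ 0) (hab : a ≠ b) (hac : a ≠ c) (hbc : b ≠ c) : ¬ Wt2 v := by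
  intro h
  rcases (wt2_iff v).1 h a b c ha hb hc with h | h | h <;> contradiction

theorem card_two_iff [Fintype ρ] [DecidableEq ρ] (P : ρ → Prop) [DecidablePred P] :
    (Finset.univ.filter P).card = 2 ↔ ∃ x y, x ≠ y ∧ ∀ q, P q ↔ q = x ∨ q = y := by
  rw [Finset.card_eq_two]
  constructor
  · rintro ⟨x, y, hxy, h⟩
    refine ⟨x, y, hxy, fun q => ?_⟩
    have : q ∈ Finset.univ.filter P ↔ q ∈ ({x, y} : Finset ρ) := by rw [h]
    simpa using this
  · rintro ⟨x, y, hxy, h⟩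
    refine ⟨x, y, hxy, ?_⟩
    ext q
    simpa using h q

theorem card_one_iff [Fintype ρ] (P : ρ → Prop) [DecidablePred P] :
    (Finset.univ.filter P).card = 1 ↔ ∃ x, ∀ q, P q ↔ q = x := by
  rw [Finset.card_eq_one]
  constructor
  · rintro ⟨x, h⟩
    refine ⟨x, fun q => ?_⟩
    have : q ∈ Finset.univ.filter P ↔ q ∈ ({x} : Finset ρ) := by rw [h]
    simpa using this
  · rintro ⟨x, h⟩
    refine ⟨x, ?_⟩
    ext q
    simpa using h q

/-- With two prescribed distinct elements, a set of size two is known. -/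
theorem two_of_two {P : ρ → Prop} (h : ∃ x y, x ≠ y ∧ ∀ q, P q ↔ q = x ∨ q = y) {a b : ρ}
    (ha : P a) (hb : P b) (hab : a ≠ b) (c : ρ) (hc : P c) : c = a ∨ c = b := by
  obtain ⟨x, y, -, h⟩ := h
  rw [h] at ha hb hc
  rcases ha with rfl | rfl <;> rcases hb with rfl | rfl <;> rcases hc with rfl | rfl <;> simp_all

theorem other_of_two {P : ρ → Prop} (h : ∃ x y, x ≠ y ∧ ∀ q, P q ↔ q = x ∨ q = y) (a : ρ) :
    ∃ b, b ≠ a ∧ P b := by
  obtain ⟨x, y, hxy, h⟩ := h
  by_cases hx : x = a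
  · exact ⟨y, fun hy => hxy (hx.trans hy.symm), (h y).2 (Or.inr rfl)⟩
  · exact ⟨x, hx, (h x).2 (Or.inl rfl)⟩

variable [Fintype ι] [DecidableEq ι] [Fintype ρ] [DecidableEq ρ] {M : ι → ρ → F} {N : ρ → ι → F}

theorem card_eq (h : OF M N) : Fintype.card ι = Fintype.card ρ := by
  refine Matrix.square_of_invertible (Matrix.of M) (Matrix.of N) ?_ ?_
  · ext p p'
    simp [Matrix.mul_apply, Matrix.one_apply, h.mn]
  · ext p p'
    simp [Matrix.mul_apply, Matrix.one_apply, h.nm]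

/-- Every row has at least two nonzero entries. -/
theorem row_two (h : OF M N) (h2 : 2 ≤ Fintype.card ι) (p : ι) :
    ∃ q q', q ≠ q' ∧ M p q ≠ 0 ∧ M p q' ≠ 0 := by
  by_contra hc
  push Not at hc
  have h1 := h.mn p p
  rw [if_pos rfl] at h1
  obtain ⟨q, hq⟩ : ∃ q, M p q ≠ 0 := by
    by_contra h0
    push Not at h0
    simp [h0] at h1
  obtain ⟨p', hp'⟩ := Fintype.exists_ne_of_one_lt_card (by omega : 1 < Fintype.card ι) p
  have h3 := h.mn p p'
  rw [if_neg (Ne.symm hp'), Finset.sum_eq_single q] at h3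
  · exact mul_ne_zero hq (h.full q p') h3
  · intro b _ hb
    rw [hc q b (Ne.symm hb) hq, zero_mul]
  · simp

/-- Every column has at least two nonzero entries. -/
theorem col_two (h : OF M N) (h2 : 2 ≤ Fintype.card ι) (q : ρ) :
    ∃ p p', p ≠ p' ∧ M p q ≠ 0 ∧ M p' q ≠ 0 := by
  by_contra hc
  push Not at hc
  have h1 := h.nm q q
  rw [if_pos rfl] at h1
  obtain ⟨p, hp⟩ : ∃ p, M p q ≠ 0 := by
    by_contra h0
    push Not at h0
    simp [h0] at h1
  have hce := card_eq h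
  obtain ⟨q', hq'⟩ := Fintype.exists_ne_of_one_lt_card (by omega : 1 < Fintype.card ρ) q
  have h3 := h.nm q' q
  rw [if_neg hq', Finset.sum_eq_single p] at h3
  · exact mul_ne_zero (h.full q' p) hp h3
  · intro b _ hb
    rw [hc p b (Ne.symm hb) hp, mul_zero]
  · simp

theorem row_card (h : OF M N) (h2 : 2 ≤ Fintype.card ι) {p : ι} (hp : Wt2 (M p)) :
    (Finset.univ.filter fun q => M p q ≠ 0).card = 2 := by
  apply le_antisymm hp
  obtain ⟨q, q', hqq, hq, hq'⟩ := row_two h h2 p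
  exact Finset.one_lt_card.2 ⟨q, by simpa using hq, q', by simpa using hq', hqq⟩

theorem col_card (h : OF M N) (h2 : 2 ≤ Fintype.card ι) (hw : ∀ p, Wt2 (M p)) (q : ρ) :
    (Finset.univ.filter fun p => M p q ≠ 0).card = 2 := by
  have hge : ∀ q, 2 ≤ (Finset.univ.filter fun p => M p q ≠ 0).card := by
    intro q
    obtain ⟨p, p', hpp, hp, hp'⟩ := col_two h h2 q
    exact Finset.one_lt_card.2 ⟨p, by simpa using hp, p', by simpa using hp', hpp⟩
  have hsum : ∑ q, (Finset.univ.filter fun p => M p q ≠ 0).card =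
      ∑ p, (Finset.univ.filter fun q => M p q ≠ 0).card := by
    simp only [Finset.card_filter]
    exact Finset.sum_comm
  have hs2 : ∑ q, (Finset.univ.filter fun p => M p q ≠ 0).card = ∑ _q : ρ, 2 := by
    rw [hsum, Finset.sum_congr rfl fun p _ => row_card h h2 (hw p)]
    simp [card_eq h]
  exact ((Finset.sum_eq_sum_iff_of_le fun q _ => hge q).1 hs2.symm q (Finset.mem_univ q)).symm

theorem shared (h : OF M N) (S : Set ι) (q0 : ρ) (hS : S.Nonempty) (hS' : ∃ p, p ∉ S) :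
    ∃ q, q ≠ q0 ∧ ∃ p ∈ S, ∃ p', p' ∉ S ∧ M p q ≠ 0 ∧ M p' q ≠ 0 := by
  classical
  by_contra hc
  push Not at hc
  set v : ρ → F := fun q => ∑ p, if p ∈ S then N q0 p * M p q else 0 with hv
  have hv0 : ∀ q, q ≠ q0 → v q = 0 := by
    intro q hq
    by_cases hex : ∃ p ∈ S, M p q ≠ 0
    · obtain ⟨p, hp, hpq⟩ := hex
      have h1 := h.nm q0 q
      rw [if_neg (Ne.symm hq)] at h1
      rw [← h1]
      refine Finset.sum_congr rfl fun r _ => ?_
      split_ifs with hr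
      · rfl
      · rw [hc q hq p hp r hr hpq, mul_zero]
    · push Not at hex
      refine Finset.sum_eq_zero fun r _ => ?_
      split_ifs with hr
      · rw [hex r hr, mul_zero]
      · rfl
  have hmul : ∀ p', v q0 * N q0 p' = if p' ∈ S then N q0 p' else 0 := by
    intro p'
    have e1 : ∑ q, v q * N q p' = v q0 * N q0 p' := by
      refine Finset.sum_eq_single q0 (fun b _ hb => by rw [hv0 b hb, zero_mul]) (by simp)
    rw [← e1]
    simp only [hv, Finset.sum_mul]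
    rw [Finset.sum_comm]
    have e2 : ∀ p, ∑ q, (if p ∈ S then N q0 p * M p q else 0) * N q p' =
        if p = p' then (if p ∈ S then N q0 p else 0) else 0 := by
      intro p
      by_cases hp : p ∈ S
      · simp only [hp, if_true, mul_assoc, ← Finset.mul_sum, h.mn]
        split_ifs <;> simp
      · simp [hp]
    rw [Finset.sum_congr rfl fun p _ => e2 p]
    simp
  obtain ⟨p, hp⟩ := hS
  obtain ⟨p', hp'⟩ := hS'
  have a1 := hmul p
  have a2 := hmul p'
  rw [if_pos hp] at a1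
  rw [if_neg hp'] at a2
  rcases mul_eq_zero.1 a2 with a3 | a3
  · rw [a3, zero_mul] at a1
    exact h.full q0 p a1.symm
  · exact h.full q0 p' a3

omit [Fintype ι] [DecidableEq ι] [DecidableEq ρ] in
theorem lk_not {p p' : ι} (hl : Lk M p p') {a b c : ρ} (hab : a ≠ b) (hac : a ≠ c) (hbc : b ≠ c)
    (ha : (M p a ≠ 0 ∧ M p' a = 0) ∨ (M p a = 0 ∧ M p' a ≠ 0))
    (hb : (M p b ≠ 0 ∧ M p' b = 0) ∨ (M p b = 0 ∧ M p' b ≠ 0))
    (hc : (M p c ≠ 0 ∧ M p' c = 0) ∨ (M p c = 0 ∧ M p' c ≠ 0)) : False := by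
  have k1 : ∀ x, ((M p x ≠ 0 ∧ M p' x = 0) ∨ (M p x = 0 ∧ M p' x ≠ 0)) →
      (M p - M p') x ≠ 0 ∧ (M p + M p') x ≠ 0 := by
    intro x hx
    rcases hx with ⟨h1, h2⟩ | ⟨h1, h2⟩
    · simp [h1, h2]
    · simp [h1, h2]
  rcases hl.2 with hw | hw
  · exact not_wt2 (k1 a ha).1 (k1 b hb).1 (k1 c hc).1 hab hac hbc hw
  · exact not_wt2 (k1 a ha).2 (k1 b hb).2 (k1 c hc).2 hab hac hbc hw

theorem lk_card (h : OF M N) (h3 : 3 ≤ Fintype.card ι) (hw : ∀ p, Wt2 (M p)) {p p' : ι}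
    (hl : Lk M p p') : (Finset.univ.filter fun q => M p q ≠ 0 ∧ M p' q ≠ 0).card = 1 := by
  classical
  have h2 : 2 ≤ Fintype.card ι := by omega
  have r1 := (card_two_iff _).1 (row_card h h2 (hw p))
  have r2 := (card_two_iff _).1 (row_card h h2 (hw p'))
  have cc := fun q => (card_two_iff _).1 (col_card h h2 hw q)
  rw [card_one_iff]
  obtain ⟨x, y, hxy, hp⟩ := r1
  have hx : M p x ≠ 0 := (hp x).2 (Or.inl rfl)
  have hy : M p y ≠ 0 := (hp y).2 (Or.inr rfl)
  by_cases ax : M p' x = 0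
  · by_cases ay : M p' y = 0
    · exfalso
      obtain ⟨z, hz, hz'⟩ := other_of_two r2 x
      have hzy : z ≠ y := fun e => hz' (e ▸ ay)
      have hz0 : M p z = 0 := by
        by_contra h0
        rcases (hp z).1 h0 with e | e <;> contradiction
      exact lk_not hl hxy (Ne.symm hz) (Ne.symm hzy) (Or.inl ⟨hx, ax⟩) (Or.inl ⟨hy, ay⟩)
        (Or.inr ⟨hz0, hz'⟩)
    · refine ⟨y, fun q => ⟨fun hq => ?_, fun hq => hq ▸ ⟨hy, ay⟩⟩⟩
      rcases (hp q).1 hq.1 with e | e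
      · exact absurd (e ▸ ax) hq.2
      · exact e
  · by_cases ay : M p' y = 0
    · refine ⟨x, fun q => ⟨fun hq => ?_, fun hq => hq ▸ ⟨hx, ax⟩⟩⟩
      rcases (hp q).1 hq.1 with e | e
      · exact e
      · exact absurd (e ▸ ay) hq.2
    · exfalso
      have hout : ∃ r, r ∉ ({p, p'} : Set ι) := by
        by_contra hno
        push Not at hno
        have : Fintype.card ι ≤ ({p, p'} : Finset ι).card := by
          rw [← Finset.card_univ]
          exact Finset.card_le_card fun r _ => by simpa using hno r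
        have := Finset.card_le_two (a := p) (b := p')
        omega
      obtain ⟨q, -, a, ha, b, hb, haq, hbq⟩ := shared h {p, p'} x ⟨p, by simp⟩ hout
      have hq : q = x ∨ q = y := by
        rcases ha with rfl | ha
        · exact (hp q).1 haq
        · rw [Set.mem_singleton_iff] at ha
          subst ha
          exact two_of_two r2 ax ay hxy q haq
      have hpq : M p q ≠ 0 := (hp q).2 hq
      have hpq' : M p' q ≠ 0 := by
        rcases hq with rfl | rfl
        · exact ax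
        · exact ay
      rcases two_of_two (cc q) hpq hpq' hl.1 b hbq with e | e
      · exact hb (by simp [e])
      · exact hb (by simp [e])

end basic

section contr

variable {ι ρ : Type}

/-- Contraction of a vector along `w` at the coordinate `q2`. -/
def ctr (w : ρ → F) (q2 : ρ) (v : ρ → F) : {q // q ≠ q2} → F :=
  fun q => v q - v q2 * w q2 * w q

theorem ctr_sub (w : ρ → F) (q2 : ρ) (u v : ρ → F) :
    ctr w q2 (u - v) = ctr w q2 u - ctr w q2 v := by
  funext q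
  simp only [ctr, Pi.sub_apply]
  ring

theorem ctr_add (w : ρ → F) (q2 : ρ) (u v : ρ → F) :
    ctr w q2 (u + v) = ctr w q2 u + ctr w q2 v := by
  funext q
  simp only [ctr, Pi.add_apply]
  ring

theorem ctr_self {w : ρ → F} {q2 : ρ} (h : w q2 ≠ 0) : ctr w q2 w = 0 := by
  funext q
  simp only [ctr, F_sq h, Pi.zero_apply]
  ring

theorem wt2_ctr [Fintype ρ] [DecidableEq ρ] {w : ρ → F} {q1 q2 : ρ}
    (hw : ∀ q, w q ≠ 0 → q = q1 ∨ q = q2) {v : ρ → F} (hv : Wt2 v) : Wt2 (ctr w q2 v) := by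
  have key : ∀ a : {q // q ≠ q2}, ctr w q2 v a ≠ 0 →
      ∃ g, v g ≠ 0 ∧ (g = a.1 ∨ (g = q2 ∧ a.1 = q1)) := by
    intro a ha
    by_cases h0 : v a = 0
    · simp only [ctr, h0, zero_sub, ne_eq, neg_eq_zero, mul_eq_zero, not_or] at ha
      refine ⟨q2, ha.1.1, Or.inr ⟨rfl, ?_⟩⟩
      rcases hw a ha.2 with e | e
      · exact e
      · exact absurd e a.2
    · exact ⟨a, h0, Or.inl rfl⟩
  have inj : ∀ (a b : {q // q ≠ q2}) (g : ρ), (g = a.1 ∨ (g = q2 ∧ a.1 = q1)) →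
      (g = b.1 ∨ (g = q2 ∧ b.1 = q1)) → a = b := by
    intro a b g ha hb
    apply Subtype.ext
    rcases ha with ha | ⟨ha, ha'⟩ <;> rcases hb with hb | ⟨hb, hb'⟩
    · exact ha.symm.trans hb
    · exact absurd (ha.symm.trans hb) a.2
    · exact absurd (hb.symm.trans ha) b.2
    · exact ha'.trans hb'.symm
  rw [wt2_iff] at hv ⊢
  intro a b c ha hb hc
  obtain ⟨ga, ha1, ha2⟩ := key a ha
  obtain ⟨gb, hb1, hb2⟩ := key b hb
  obtain ⟨gc, hc1, hc2⟩ := key c hc
  rcases hv ga gb gc ha1 hb1 hc1 with e | e | e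
  · exact Or.inl (inj a b ga ha2 (e ▸ hb2))
  · exact Or.inr (Or.inl (inj a c ga ha2 (e ▸ hc2)))
  · exact Or.inr (Or.inr (inj b c gb hb2 (e ▸ hc2)))

variable [Fintype ι] [DecidableEq ι] [Fintype ρ] [DecidableEq ρ] {M : ι → ρ → F} {N : ρ → ι → F}

/-- The contracted matrix. -/
def cM (M : ι → ρ → F) (p : ι) (q2 : ρ) : {r // r ≠ p} → {q // q ≠ q2} → F :=
  fun r => ctr (M p) q2 (M r)

theorem of_ctr (h : OF M N) {p : ι} {q2 : ρ} (h2 : M p q2 ≠ 0) :
    OF (cM M p q2) (fun (q : {q // q ≠ q2}) (r : {r // r ≠ p}) => N q r) := by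
  refine ⟨fun r r' => ?_, fun q q' => ?_, fun q r => h.full _ _⟩
  · have e1 := Fintype.sum_eq_add_sum_subtype_ne
      (fun q => (M r q - M r q2 * M p q2 * M p q) * N q r') q2
    have e2 : M r q2 - M r q2 * M p q2 * M p q2 = 0 := by
      rw [mul_assoc, F_sq h2]; ring
    simp only [e2, zero_mul, zero_add] at e1
    have e3 : ∑ q, (M r q - M r q2 * M p q2 * M p q) * N q r' =
        ∑ q, M r q * N q r' - M r q2 * M p q2 * ∑ q, M p q * N q r' := by
      rw [Finset.mul_sum, ← Finset.sum_sub_distrib]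
      exact Finset.sum_congr rfl fun q _ => by ring
    rw [h.mn, h.mn, if_neg (Ne.symm r'.2), mul_zero, sub_zero] at e3
    simp only [cM, ctr]
    rw [← e1, e3]
    simp only [Subtype.ext_iff]
  · have e1 := Fintype.sum_eq_add_sum_subtype_ne
      (fun r => N q r * (M r q' - M r q2 * M p q2 * M p q')) p
    have e2 : M p q' - M p q2 * M p q2 * M p q' = 0 := by
      rw [F_sq h2]; ring
    simp only [e2, mul_zero, zero_add] at e1
    have e3 : ∑ r, N q r * (M r q' - M r q2 * M p q2 * M p q') =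
        ∑ r, N q r * M r q' - (∑ r, N q r * M r q2) * (M p q2 * M p q') := by
      rw [Finset.sum_mul, ← Finset.sum_sub_distrib]
      exact Finset.sum_congr rfl fun q _ => by ring
    rw [h.nm, h.nm, if_neg q.2, zero_mul, sub_zero] at e3
    simp only [cM, ctr]
    rw [← e1, e3]
    simp only [Subtype.ext_iff]

omit [Fintype ι] [DecidableEq ι] in
theorem lk_ctr {p : ι} {q1 q2 : ρ} (hw : ∀ q, M p q ≠ 0 → q = q1 ∨ q = q2)
    {r r' : {r // r ≠ p}} (hl : Lk M r.1 r'.1) : Lk (cM M p q2) r r' := by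
  refine ⟨fun e => hl.1 (congrArg Subtype.val e), ?_⟩
  rcases hl.2 with h | h
  · left
    have := wt2_ctr hw h
    rwa [ctr_sub] at this
  · right
    have := wt2_ctr hw h
    rwa [ctr_add] at this

omit [Fintype ι] [DecidableEq ι] in
theorem light_ctr {p : ι} {q1 q2 : ρ} (hw : ∀ q, M p q ≠ 0 → q = q1 ∨ q = q2)
    (h2 : M p q2 ≠ 0) {r : {r // r ≠ p}} (hl : Lk M r.1 p) : Wt2 (cM M p q2 r) := by
  rcases hl.2 with h | h
  · have := wt2_ctr hw h
    rwa [ctr_sub, ctr_self h2, sub_zero] at this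
  · have := wt2_ctr hw h
    rwa [ctr_add, ctr_self h2, add_zero] at this

/-- The contradiction once all contracted rows are light. -/
theorem final (h : OF M N) {p : ι} {q1 q2 : ρ} (h12 : q1 ≠ q2)
    (hp : ∀ q, M p q ≠ 0 ↔ q = q1 ∨ q = q2)
    (H1 : ∀ p, ¬ Wt2 (M p) → ∃ p1 p2 p3, p1 ≠ p2 ∧ p1 ≠ p3 ∧ p2 ≠ p3 ∧ Lk M p p1 ∧ Lk M p p2 ∧
      Lk M p p3)
    (H3 : 4 ≤ {p | Wt2 (M p)}.ncard) (h3 : 3 ≤ Fintype.card {r // r ≠ p})
    (hall : ∀ r, Wt2 (cM M p q2 r)) (x : {r // r ≠ p}) (hx : ¬ Wt2 (M x)) : False := by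
  classical
  have hw : ∀ q, M p q ≠ 0 → q = q1 ∨ q = q2 := fun q => (hp q).1
  have hp1 : M p q1 ≠ 0 := (hp q1).2 (Or.inl rfl)
  have hp2 : M p q2 ≠ 0 := (hp q2).2 (Or.inr rfl)
  have h' := of_ctr h hp2
  have h2 : 2 ≤ Fintype.card {r // r ≠ p} := by omega
  have rr := fun r => (card_two_iff _).1 (row_card h' h2 (hall r))
  have cc := fun q => (card_two_iff _).1 (col_card h' h2 hall q)
  have ll := fun (r r' : {r // r ≠ p}) (hl : Lk M r.1 r'.1) =>
    (card_one_iff _).1 (lk_card h' h3 hall (lk_ctr hw hl))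
  set c1 : {q // q ≠ q2} := ⟨q1, h12⟩ with hc1
  have F1 : ∀ (r : {r // r ≠ p}) (q : {q // q ≠ q2}), q ≠ c1 → cM M p q2 r q = M r q := by
    intro r q hq
    have : M p q = 0 := by
      by_contra h0
      rcases hw q h0 with e | e
      · exact hq (Subtype.ext e)
      · exact q.2 e
    simp [cM, ctr, this]
  have F2 : ∀ r : {r // r ≠ p}, cM M p q2 r c1 = 0 → (M r q1 = 0 ↔ M r q2 = 0) := by
    intro r hr
    simp only [cM, ctr, hc1] at hr
    rw [sub_eq_zero.1 hr]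
    simp [hp1, hp2]
  have F3 : ∀ r : {r // r ≠ p}, M r q2 = 0 → Wt2 (M r) := by
    intro r hr
    have hr' := (wt2_iff _).1 (hall r)
    rw [wt2_iff]
    have k : ∀ a, M r a ≠ 0 → ∃ ha : a ≠ q2, cM M p q2 r ⟨a, ha⟩ ≠ 0 := by
      intro a ha
      refine ⟨fun e => ha (e ▸ hr), ?_⟩
      simpa [cM, ctr, hr] using ha
    intro a b c ha hb hc
    obtain ⟨a1, a2⟩ := k a ha
    obtain ⟨b1, b2⟩ := k b hb
    obtain ⟨c1, c2⟩ := k c hc
    simpa [Subtype.ext_iff] using hr' _ _ _ a2 b2 c2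
  have F4 : ∀ r : {r // r ≠ p}, cM M p q2 r c1 = 0 → Wt2 (M r) → M r q2 = 0 := by
    intro r hr hl
    by_contra h0
    have h1 : M r q1 ≠ 0 := fun e => h0 ((F2 r hr).1 e)
    obtain ⟨z, hz, hz'⟩ := other_of_two (rr r) c1
    rw [F1 r z hz] at hz'
    exact not_wt2 h1 h0 hz' h12 (fun e => hz (Subtype.ext e.symm)) (Ne.symm z.2) hl
  have star : ∀ r r' : {r // r ≠ p}, ¬ Wt2 (M r) → r' ≠ r → ∀ q, cM M p q2 r q ≠ 0 →
      cM M p q2 r' q ≠ 0 → Lk M r.1 r'.1 := by
    intro r r' hr hne q hq hq'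
    by_contra hnl
    have two : ∃ s1 s2 : {r // r ≠ p}, s1 ≠ s2 ∧ Lk M r.1 s1.1 ∧ Lk M r.1 s2.1 := by
      obtain ⟨p1, p2, p3, h12, h13, h23, l1, l2, l3⟩ := H1 r hr
      by_cases e1 : p1 = p
      · exact ⟨⟨p2, fun e => h12 (e1.trans e.symm)⟩, ⟨p3, fun e => h13 (e1.trans e.symm)⟩,
          fun e => h23 (congrArg Subtype.val e), l2, l3⟩
      · by_cases e2 : p2 = p
        · exact ⟨⟨p1, e1⟩, ⟨p3, fun e => h23 (e2.trans e.symm)⟩,
            fun e => h13 (congrArg Subtype.val e), l1, l3⟩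
        · exact ⟨⟨p1, e1⟩, ⟨p2, e2⟩, fun e => h12 (congrArg Subtype.val e), l1, l2⟩
    obtain ⟨s1, s2, hs, l1, l2⟩ := two
    have col : ∀ s : {r // r ≠ p}, Lk M r.1 s.1 →
        ∃ c, c ≠ q ∧ cM M p q2 r c ≠ 0 ∧ cM M p q2 s c ≠ 0 := by
      intro s hl
      obtain ⟨c, hc⟩ := ll r s hl
      have hc' := (hc c).2 rfl
      refine ⟨c, ?_, hc'⟩
      rintro rfl
      rcases two_of_two (cc c) hq hq' (Ne.symm hne) s hc'.2 with e | e
      · exact hl.1 (congrArg Subtype.val e.symm)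
      · exact hnl (e ▸ hl)
    obtain ⟨d1, a1, b1, e1⟩ := col s1 l1
    obtain ⟨d2, a2, b2, e2⟩ := col s2 l2
    have hd : d2 = d1 := by
      rcases two_of_two (rr r) hq b1 (Ne.symm a1) d2 b2 with e | e
      · exact absurd e a2
      · exact e
    subst hd
    have hr1 : r ≠ s1 := fun e => l1.1 (congrArg Subtype.val e)
    rcases two_of_two (cc d2) b1 e1 hr1 s2 e2 with e | e
    · exact l2.1 (congrArg Subtype.val e.symm)
    · exact hs e.symm
  have noshare : ∀ r r' : {r // r ≠ p}, ¬ Wt2 (M r) → cM M p q2 r c1 = 0 → Wt2 (M r') →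
      cM M p q2 r' c1 = 0 → ∀ q, cM M p q2 r q ≠ 0 → cM M p q2 r' q ≠ 0 → False := by
    intro r r' hr hrc hr' hrc' q hq hq'
    have hne : r' ≠ r := fun e => hr (e ▸ hr')
    have hl := star r r' hr hne q hq hq'
    obtain ⟨c, hc⟩ := ll r r' hl
    obtain ⟨z, hz, hz'⟩ := other_of_two (rr r) c
    have hz1 : z ≠ c1 := fun e => hz' (e ▸ hrc)
    have hz0 : cM M p q2 r' z = 0 := by
      by_contra h0
      exact hz ((hc z).1 ⟨hz', h0⟩)
    rw [F1 _ z hz1] at hz' hz0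
    have b2 : M r q2 ≠ 0 := fun e => hr (F3 r e)
    have b1 : M r q1 ≠ 0 := fun e => b2 ((F2 r hrc).1 e)
    have d2 : M r' q2 = 0 := F4 r' hrc' hr'
    have d1 : M r' q1 = 0 := (F2 r' hrc').2 d2
    exact lk_not hl h12 (fun e => hz1 (Subtype.ext e.symm)) (Ne.symm z.2) (Or.inl ⟨b1, d1⟩)
      (Or.inl ⟨b2, d2⟩) (Or.inl ⟨hz', hz0⟩)
  by_cases hS' : ∃ s' : {r // r ≠ p}, Wt2 (M s') ∧ cM M p q2 s' c1 = 0
  · obtain ⟨s', hs1, hs2⟩ := hS'
    by_cases hS : ∃ s : {r // r ≠ p}, ¬ Wt2 (M s) ∧ cM M p q2 s c1 = 0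
    · obtain ⟨s, hs3, hs4⟩ := hS
      obtain ⟨q, hq, a, ha, b, hb, haq, hbq⟩ := shared h'
        {r | (¬ Wt2 (M r) ∧ cM M p q2 r c1 = 0) ∨ (cM M p q2 r c1 ≠ 0 ∧ ∃ q, q ≠ c1 ∧
          cM M p q2 r q ≠ 0 ∧ ∃ s : {r // r ≠ p}, ¬ Wt2 (M s) ∧ cM M p q2 s c1 = 0 ∧
            cM M p q2 s q ≠ 0)} c1 ⟨s, Or.inl ⟨hs3, hs4⟩⟩
        ⟨s', fun hh => hh.elim (fun k => k.1 hs1) (fun k => k.1 hs2)⟩
      rcases ha with ⟨ha1, ha2⟩ | ⟨ha1, q', hq', ha2, t, ht1, ht2, ht3⟩
      · by_cases hbc : cM M p q2 b c1 = 0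
        · by_cases hbw : Wt2 (M b)
          · exact noshare a b ha1 ha2 hbw hbc q haq hbq
          · exact hb (Or.inl ⟨hbw, hbc⟩)
        · exact hb (Or.inr ⟨hbc, q, hq, hbq, a, ha1, ha2, haq⟩)
      · have hqq : q = q' := by
          rcases two_of_two (rr a) ha1 ha2 (Ne.symm hq') q haq with e | e
          · exact absurd e hq
          · exact e
        subst hqq
        have hat : a ≠ t := fun e => ha1 (e ▸ ht2)
        rcases two_of_two (cc q) haq ht3 hat b hbq with e | e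
        · subst e
          exact hb (Or.inr ⟨ha1, q, hq, ha2, t, ht1, ht2, ht3⟩)
        · subst e
          exact hb (Or.inl ⟨ht1, ht2⟩)
    · push Not at hS
      have hxc : cM M p q2 x c1 ≠ 0 := hS x hx
      obtain ⟨z, hz, hz'⟩ := other_of_two (rr x) c1
      obtain ⟨y, hy, hy'⟩ := other_of_two (cc z) x
      have hl := star x y hx hy z hz' hy'
      obtain ⟨c, hc⟩ := ll x y hl
      have hzc : z = c := (hc z).1 ⟨hz', hy'⟩
      have hyc : cM M p q2 y c1 = 0 := by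
        by_contra h0
        exact hz (hzc.trans ((hc c1).1 ⟨hxc, h0⟩).symm)
      have hyw : Wt2 (M y) := by
        by_contra h0
        exact hS y h0 hyc
      have d2 : M y q2 = 0 := F4 y hyc hyw
      have d1 : M y q1 = 0 := (F2 y hyc).2 d2
      have b2 : M x q2 ≠ 0 := fun e => hx (F3 x e)
      have b1 : M x q1 ≠ 0 := by
        intro e
        apply hx
        rw [wt2_iff]
        have k : ∀ a, M x a ≠ 0 → a = q2 ∨ a = z.1 := by
          intro a ha
          by_cases e2 : a = q2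
          · exact Or.inl e2
          · right
            have e1 : (⟨a, e2⟩ : {q // q ≠ q2}) ≠ c1 := fun e' => by
              have e3 : a = q1 := congrArg Subtype.val e'
              exact ha (e3 ▸ e)
            rcases two_of_two (rr x) hxc hz' (Ne.symm hz) ⟨a, e2⟩ (by rw [F1 x _ e1]; exact ha)
              with e' | e'
            · exact absurd e' e1
            · exact congrArg Subtype.val e'
        intro a b c ha hb hc
        rcases k a ha with e1 | e1 <;> rcases k b hb with e2 | e2 <;>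
          rcases k c hc with e3 | e3 <;> simp [e1, e2, e3]
      obtain ⟨u, hu, hu'⟩ := other_of_two (rr y) z
      have hu1 : u ≠ c1 := fun e => hu' (e ▸ hyc)
      have hu0 : cM M p q2 x u = 0 := by
        by_contra h0
        exact hu (((hc u).1 ⟨h0, hu'⟩).trans hzc.symm)
      rw [F1 _ u hu1] at hu' hu0
      exact lk_not hl h12 (fun e => hu1 (Subtype.ext e.symm)) (Ne.symm u.2) (Or.inl ⟨b1, d1⟩)
        (Or.inl ⟨b2, d2⟩) (Or.inr ⟨hu0, hu'⟩)
  · push Not at hS'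
    obtain ⟨r1, r2, -, hr⟩ := cc c1
    have hsub : {p | Wt2 (M p)} ⊆ ({p, r1.1, r2.1} : Set ι) := by
      intro r hr'
      by_cases e : r = p
      · simp [e]
      · rcases (hr ⟨r, e⟩).1 (hS' ⟨r, e⟩ hr') with e' | e'
        · simp [← e']
        · simp [← e']
    have a1 := Set.ncard_le_ncard hsub
    have a2 := Set.ncard_insert_le p ({r1.1, r2.1} : Set ι)
    have a3 := Set.ncard_insert_le r1.1 ({r2.1} : Set ι)
    rw [Set.ncard_singleton] at a3
    omega

end contr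

theorem hv_aux (n : ℕ) : ∀ {ι ρ : Type} [Fintype ι] [DecidableEq ι] [Fintype ρ] [DecidableEq ρ]
    (M : ι → ρ → F) (N : ρ → ι → F), Fintype.card ι < n → OF M N →
    (∀ p, ¬ Wt2 (M p) → ∃ p1 p2 p3, p1 ≠ p2 ∧ p1 ≠ p3 ∧ p2 ≠ p3 ∧ Lk M p p1 ∧ Lk M p p2 ∧
      Lk M p p3) →
    (∀ S : Set ι, S.Nonempty → (∀ p ∈ S, ¬ Wt2 (M p)) → ∃ p ∈ S, ∃ p', p' ∉ S ∧ Lk M p p') →
    4 ≤ {p | Wt2 (M p)}.ncard → ∀ p, Wt2 (M p) := by
  induction n with
  | zero => intro ι ρ _ _ _ _ M N hn; omega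
  | succ n ih =>
    intro ι ρ _ _ _ _ M N hn h H1 H2 H3 x0
    by_contra hx0
    obtain ⟨x, hx, p, hpw, hl⟩ := H2 {p | ¬ Wt2 (M p)} ⟨x0, hx0⟩ fun p hp => hp
    have hx : ¬ Wt2 (M x) := hx
    have hpw : Wt2 (M p) := not_not.1 hpw
    have hc4 : 4 ≤ Fintype.card ι := by
      have := Set.ncard_le_card {p | Wt2 (M p)}
      rw [Nat.card_eq_fintype_card] at this
      omega
    obtain ⟨q1, q2, h12, hp⟩ := (card_two_iff _).1 (row_card h (by omega) hpw)
    have hw : ∀ q, M p q ≠ 0 → q = q1 ∨ q = q2 := fun q => (hp q).1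
    have hp2 : M p q2 ≠ 0 := (hp q2).2 (Or.inr rfl)
    have hxp : x ≠ p := hl.1
    have hlt : Fintype.card {r // r ≠ p} < Fintype.card ι :=
      Fintype.card_subtype_lt (x := p) (by simp)
    have H3' : 4 ≤ {r | Wt2 (cM M p q2 r)}.ncard := by
      refine H3.trans (Set.ncard_le_ncard_of_injOn
        (fun r => if hr : r = p then (⟨x, hxp⟩ : {r // r ≠ p}) else ⟨r, hr⟩) ?_ ?_)
      · intro r hr
        by_cases e : r = p
        · simp only [e, dite_true]
          exact light_ctr hw hp2 (r := ⟨x, hxp⟩) hl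
        · simp only [e, dite_false]
          exact wt2_ctr hw hr
      · intro r hr r' hr' e
        by_cases e1 : r = p <;> by_cases e2 : r' = p
        · exact e1.trans e2.symm
        · simp only [e1, e2, dite_true, dite_false, Subtype.mk.injEq] at e
          exact absurd (e ▸ hr' : Wt2 (M x)) hx
        · simp only [e1, e2, dite_true, dite_false, Subtype.mk.injEq] at e
          exact absurd (e ▸ hr : Wt2 (M x)) hx
        · simpa [e1, e2] using e
    have h3 : 3 ≤ Fintype.card {r // r ≠ p} := by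
      have := Set.ncard_le_card {r | Wt2 (cM M p q2 r)}
      rw [Nat.card_eq_fintype_card] at this
      omega
    have hall : ∀ r, Wt2 (cM M p q2 r) := by
      refine ih (cM M p q2) _ (by omega) (of_ctr h hp2) ?_ ?_ H3'
      · intro r hr
        obtain ⟨p1, p2, p3, a12, a13, a23, l1, l2, l3⟩ := H1 r fun hh => hr (wt2_ctr hw hh)
        have np : ∀ s, Lk M r.1 s → s ≠ p := by
          rintro s hs rfl
          exact hr (light_ctr hw hp2 hs)
        exact ⟨⟨p1, np _ l1⟩, ⟨p2, np _ l2⟩, ⟨p3, np _ l3⟩,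
          fun e => a12 (congrArg Subtype.val e), fun e => a13 (congrArg Subtype.val e),
          fun e => a23 (congrArg Subtype.val e), lk_ctr hw l1, lk_ctr hw l2, lk_ctr hw l3⟩
      · intro S hS hSw
        obtain ⟨a, ha, b, hb, hab⟩ := H2 (Subtype.val '' S) (hS.image _) (by
          rintro _ ⟨r, hr, rfl⟩ hh
          exact hSw r hr (wt2_ctr hw hh))
        obtain ⟨r, hr, rfl⟩ := ha
        have hbp : b ≠ p := by
          rintro rfl
          exact hSw r hr (light_ctr hw hp2 hab)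
        exact ⟨r, hr, ⟨b, hbp⟩, fun hh => hb ⟨_, hh, rfl⟩, lk_ctr hw hab⟩
    exact final h h12 hp H1 H3 h3 hall ⟨x, hxp⟩ hx

end Hv

theorem s_al : S_AL := by
  intro ι ρ _ _ _ _ M N h h3 hw
  have h2 : 2 ≤ Fintype.card ι := by omega
  exact ⟨fun p => Hv.row_card h h2 (hw p), Hv.col_card h h2 hw,
    fun S q0 hS hS' => Hv.shared h S q0 hS hS', fun p p' hl => Hv.lk_card h h3 hw hl⟩

theorem s_hv : S_HV := by
  intro ι ρ _ _ _ _ M N h H1 H2 H3
  exact Hv.hv_aux _ M N (Nat.lt_succ_self _) h H1 H2 H3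

end Pool.Agent.P.MP_053557_co
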