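import Pool.Agent.P.MP_053557_co.Stmts2

/-! Real and ternary independence agree for incidence matrices of graphs. -/

namespace Pool.Agent.P.MP_053557_co

open Module Submodule

namespace J1

/-- Contracting one vector of a family. -/
theorem insert_iff {K X Y E : Type} [Field K] [AddCommGroup X] [Module K X] [AddCommGroup Y]
    [Module K Y] (v : E → X) (φ : X →ₗ[K] Y) {e : E} {s : Set E} (he : e ∉ s) (h0 : v e ≠ 0)
    (hk : LinearMap.ker φ = K ∙ v e) :
    LinearIndepOn K v (insert e s) ↔ LinearIndepOn K (φ ∘ v) s := by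
  rw [linearIndepOn_insert he, ← disjoint_span_singleton' h0, ← hk, Set.image_eq_range]
  exact ⟨fun h => LinearIndependent.map h.1 h.2,
    fun h => ⟨h.of_comp φ, Submodule.range_ker_disjoint (v := fun x : s => v x) h⟩⟩

variable {V E : Type} [DecidableEq V]

def U (a : ℤ) : Prop := a = 0 ∨ a = 1 ∨ a = -1

/-- Columns of oriented incidence matrices. -/
def Col (x : V → ℤ) : Prop := ∃ i j a b, U a ∧ U b ∧ x = Pi.single i a + Pi.single j b

/-- Pivot data. -/
def Piv (i : V) (w : V → ℤ) : Prop := ∃ j d, U d ∧ w = Pi.single i 1 + Pi.single j d ∧ w i = 1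

theorem Piv.col {i : V} {w : V → ℤ} (h : Piv i w) {y : V → ℤ} (hy : Col y) :
    Col (y - y i • w) := by
  obtain ⟨j, d, hd, hw, -⟩ := h
  have key : ∀ k a, U a → ∃ k' a', U a' ∧
      (Pi.single k a : V → ℤ) - (Pi.single k a : V → ℤ) i • w = Pi.single k' a' := by
    intro k a ha
    by_cases hk : k = i
    · subst hk
      refine ⟨j, -(a * d), ?_, ?_⟩
      · rcases ha with rfl | rfl | rfl <;> rcases hd with rfl | rfl | rfl <;> simp [U]
      · ext l
        simp only [hw, Pi.single_apply, Pi.sub_apply, Pi.smul_apply, Pi.add_apply, if_true,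
          smul_eq_mul]
        split_ifs <;> ring
    · exact ⟨k, a, ha, by simp [Ne.symm hk]⟩
  obtain ⟨k, l, a, b, ha, hb, rfl⟩ := hy
  obtain ⟨k', a', ha', h1⟩ := key k a ha
  obtain ⟨l', b', hb', h2⟩ := key l b hb
  refine ⟨k', l', a', b', ha', hb', ?_⟩
  rw [← h1, ← h2, Pi.add_apply, add_smul]
  abel

theorem Col.piv {x : V → ℤ} (h : Col x) (h0 : x ≠ 0) :
    ∃ (i : V) (w : V → ℤ) (c : ℤ), Piv i w ∧ (c = 1 ∨ c = -1 ∨ c = 2 ∨ c = -2) ∧ x = c • w := by
  have one : ∀ (i : V) (c : ℤ), (c = 1 ∨ c = -1 ∨ c = 2 ∨ c = -2) → x = Pi.single i c →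
      ∃ (i : V) (w : V → ℤ) (c : ℤ), Piv i w ∧ (c = 1 ∨ c = -1 ∨ c = 2 ∨ c = -2) ∧ x = c • w :=
    fun i c hc e => ⟨i, Pi.single i 1, c, ⟨i, 0, Or.inl rfl, by simp, by simp⟩, hc, by
      rw [e, ← Pi.single_smul]; simp⟩
  obtain ⟨i, j, a, b, ha, hb, hx⟩ := h
  by_cases hij : i = j
  · subst hij
    rw [← Pi.single_add] at hx
    refine one i (a + b) ?_ hx
    have : a + b ≠ 0 := fun e => h0 (by rw [hx, e, Pi.single_zero])
    unfold U at ha hb
    omega
  by_cases ha0 : a = 0
  · subst ha0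
    rw [Pi.single_zero, zero_add] at hx
    refine one j b ?_ hx
    have : b ≠ 0 := fun e => h0 (by rw [hx, e, Pi.single_zero])
    unfold U at hb
    omega
  refine ⟨i, Pi.single i 1 + Pi.single j (a * b), a, ⟨j, a * b, ?_, rfl, by simp [hij]⟩, ?_, ?_⟩
  · rcases ha with rfl | rfl | rfl <;> rcases hb with rfl | rfl | rfl <;> simp [U]
  · unfold U at ha
    omega
  · have h1 : a * (a * b) = b := by
      rcases ha with rfl | rfl | rfl
      · exact absurd rfl ha0
      · ring
      · ring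
    rw [hx, smul_add, ← Pi.single_smul, ← Pi.single_smul]
    simp [h1]

omit [DecidableEq V] in
theorem step {K : Type} [Field K] (h2 : (2 : K) ≠ 0) (M : E → V → ℤ) {e : E} {s : Set E}
    (he : e ∉ s) {i : V} {w : V → ℤ} {c : ℤ} (hw : w i = 1)
    (hc : c = 1 ∨ c = -1 ∨ c = 2 ∨ c = -2) (hx : M e = c • w) :
    LinearIndepOn K (fun e v => (M e v : K)) (insert e s) ↔
      LinearIndepOn K (fun e v => ((M e - M e i • w) v : K)) s := by
  have hc' : (c : K) ≠ 0 := by
    rcases hc with rfl | rfl | rfl | rfl <;> simp [h2]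
  let w' : V → K := fun v => (w v : K)
  have hw' : w' i = 1 := by simp [w', hw]
  have hx' : (fun v => (M e v : K)) = (c : K) • w' := by
    ext v; simp [hx, w']
  let φ : (V → K) →ₗ[K] (V → K) := LinearMap.id - (LinearMap.proj i).smulRight w'
  have hφ : ∀ y, φ y = y - y i • w' := fun y => rfl
  rw [insert_iff _ φ he]
  · refine iff_of_eq (congrArg (fun z => LinearIndepOn K z s) ?_)
    ext e v
    simp [hφ, w']
  · intro h
    have := congrFun (hx'.symm.trans h) i
    simp [hw', hc'] at this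
  · ext y
    rw [LinearMap.mem_ker, hφ, mem_span_singleton, hx']
    constructor
    · intro h
      exact ⟨y i * (c : K)⁻¹, by rw [smul_smul, inv_mul_cancel_right₀ hc', ← sub_eq_zero.1 h]⟩
    · rintro ⟨r, rfl⟩
      simp [hw', smul_smul]

theorem main {K K' : Type} [Field K] [Field K'] (h2 : (2 : K) ≠ 0) (h2' : (2 : K') ≠ 0)
    (s : Set E) (hs : s.Finite) : ∀ M : E → V → ℤ, (∀ e, Col (M e)) →
    (LinearIndepOn K (fun e v => (M e v : K)) s ↔
      LinearIndepOn K' (fun e v => (M e v : K')) s) := by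
  induction s, hs using Set.Finite.induction_on with
  | empty => simp
  | @insert e s he _ ih =>
    intro M hM
    by_cases h0 : M e = 0
    · refine iff_of_false (fun h => h.ne_zero (Set.mem_insert e s) ?_)
        fun h => h.ne_zero (Set.mem_insert e s) ?_ <;> ext v <;> simp [h0]
    obtain ⟨i, w, c, hp, hc, hx⟩ := (hM e).piv h0
    have hw : w i = 1 := hp.choose_spec.choose_spec.2.2
    rw [step h2 M he hw hc hx, step h2' M he hw hc hx]
    exact ih (fun e => M e - M e i • w) fun e => hp.col (hM e)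

end J1

theorem s_j1 : S_J1 := by
  intro V E _ _ _ _ G S
  have h := J1.main (K := ℝ) (K' := F) two_ne_zero (by decide) S (Set.toFinite S)
    (fun e v => (inc G v e : ℤ)) fun e => by
      obtain ⟨⟨u, w⟩, h⟩ := Quot.exists_rep (G e)
      refine ⟨u, w, 1, 1, Or.inr (Or.inl rfl), Or.inr (Or.inl rfl), ?_⟩
      ext v
      have : (G e).toMultiset = {u, w} := by rw [← h]; rfl
      simp only [inc, this, Multiset.insert_eq_cons, Multiset.count_cons, Multiset.count_singleton,
        Pi.add_apply, Pi.single_apply]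
      split_ifs <;> simp
  simpa using h

end Pool.Agent.P.MP_053557_co
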