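import Pool.Agent.P.MP_053557_co.Stmts2

/-! Uniqueness of ternary representations. -/

namespace Pool.Agent.P.MP_053557_co

open Module Submodule

namespace J2

variable {E X Y : Type} [AddCommGroup X] [Module F X] [AddCommGroup Y] [Module F Y]

/-- The elements of `S` killed by `φ` span the kernel of `φ` inside the span of `S`. -/
def Hyp (v : E → X) (S : Set E) (φ : X →ₗ[F] F) : Prop :=
  ∀ y ∈ span F (v '' S), φ y = 0 → y ∈ span F (v '' {x | x ∈ S ∧ φ (v x) = 0})

theorem exists_dual {W : Submodule F X} {x : X} (h : x ∉ W) :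
    ∃ ψ : X →ₗ[F] F, ψ x = 1 ∧ ∀ y ∈ W, ψ y = 0 := by
  obtain ⟨f, h1, h2⟩ := Submodule.exists_le_ker_of_notMem h
  refine ⟨(f x)⁻¹ • f, by simp [inv_mul_cancel₀ h1], fun y hy => ?_⟩
  have : f y = 0 := h2 hy
  simp [this]

theorem map_mem_span {v : E → X} {S : Set E} {W : Submodule F Y} (P : X →ₗ[F] Y)
    (h : ∀ x ∈ S, P (v x) ∈ W) {y : X} (hy : y ∈ span F (v '' S)) : P y ∈ W := by
  have : span F (v '' S) ≤ W.comap P := span_le.2 (by rintro _ ⟨x, hx, rfl⟩; exact h x hx)
  exact this hy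

theorem map_eq_on_span {v : E → X} {S : Set E} (P Q : X →ₗ[F] Y)
    (h : ∀ x ∈ S, P (v x) = Q (v x)) {y : X} (hy : y ∈ span F (v '' S)) : P y = Q y := by
  have := map_mem_span (W := ⊥) (P - Q) (fun x hx => by simp [h x hx]) hy
  simpa [sub_eq_zero] using this

theorem mem_span_insert' {v : E → X} {S : Set E} {x : E} {y : X}
    (hy : y ∈ span F (v '' insert x S)) : ∃ a : F, y - a • v x ∈ span F (v '' S) := by
  rw [Set.image_insert_eq, mem_span_insert] at hy
  obtain ⟨a, z, hz, rfl⟩ := hy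
  exact ⟨a, by simpa using hz⟩

/-- The property proved by induction. -/
def SepP (v : E → X) (S : Set E) : Prop :=
  ∀ p1 ∈ span F (v '' S), ∀ p2 ∈ span F (v '' S),
    (∀ φ, Hyp v S φ → φ p1 = 0 ∨ φ p2 = 0) →
    ∃ P : X →ₗ[F] X, (∀ x ∈ S, P (v x) = v x ∨ P (v x) = 0) ∧ P p1 = p1 ∧ P p2 = 0

theorem sep_coloop {v : E → X} {S : Set E} {x : E} (hx : v x ∉ span F (v '' S))
    (ih : SepP v S) : SepP v (insert x S) := by
  intro p1 hp1 p2 hp2 h
  obtain ⟨ψ, ψ1, ψ0⟩ := exists_dual hx
  have hproj : ∀ y ∈ span F (v '' insert x S), y - ψ y • v x ∈ span F (v '' S) := by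
    intro y hy
    obtain ⟨a, ha⟩ := mem_span_insert' hy
    have := ψ0 _ ha
    simp only [map_sub, map_smul, ψ1, smul_eq_mul, mul_one, sub_eq_zero] at this
    rw [this]; exact ha
  have hψ : Hyp v (insert x S) ψ := by
    intro y hy h0
    have := hproj y hy
    rw [h0, zero_smul, sub_zero] at this
    refine span_mono (Set.image_mono fun z hz => ?_) this
    exact ⟨Or.inr hz, ψ0 _ (subset_span ⟨z, hz, rfl⟩)⟩
  obtain ⟨P, hP, hP1, hP2⟩ := ih _ (hproj p1 hp1) _ (hproj p2 hp2) (by
    intro φ hφ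
    have h1 : Hyp v (insert x S) (φ - φ (v x) • ψ) := by
      intro y hy h0
      have h2 := hφ _ (hproj y hy) (by
        simp only [LinearMap.sub_apply, LinearMap.smul_apply, smul_eq_mul] at h0
        simp only [map_sub, map_smul, smul_eq_mul]
        linear_combination h0)
      have h3 : y = (y - ψ y • v x) + ψ y • v x := by abel
      rw [h3]
      refine add_mem (span_mono (Set.image_mono fun z hz => ?_) h2)
        (smul_mem _ _ (subset_span ⟨x, ⟨Or.inl rfl, by simp [ψ1]⟩, rfl⟩))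
      exact ⟨Or.inr hz.1, by simp [hz.2, ψ0 _ (subset_span ⟨z, hz.1, rfl⟩)]⟩
    rcases h _ h1 with h2 | h2
    · left
      simp only [LinearMap.sub_apply, LinearMap.smul_apply, smul_eq_mul] at h2
      simp only [map_sub, map_smul, smul_eq_mul]
      linear_combination h2
    · right
      simp only [LinearMap.sub_apply, LinearMap.smul_apply, smul_eq_mul] at h2
      simp only [map_sub, map_smul, smul_eq_mul]
      linear_combination h2)
  have key : ∀ c : F, (c = 1 ∨ c = 0) → (c = 1 ∨ ψ p1 = 0) → (c = 0 ∨ ψ p2 = 0) →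
      ∃ P : X →ₗ[F] X, (∀ z ∈ insert x S, P (v z) = v z ∨ P (v z) = 0) ∧ P p1 = p1 ∧
        P p2 = 0 := by
    intro c hc h1 h2
    refine ⟨P + ψ.smulRight (c • v x - P (v x)), ?_, ?_, ?_⟩
    · rintro z (rfl | hz)
      · rcases hc with rfl | rfl
        · left; simp [ψ1]
        · right; simp [ψ1]
      · simpa [ψ0 _ (subset_span ⟨z, hz, rfl⟩)] using hP z hz
    · simp only [map_sub, map_smul] at hP1
      simp only [LinearMap.add_apply, LinearMap.smulRight_apply]
      rcases h1 with rfl | h1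
      · linear_combination (norm := module) hP1
      · rw [h1] at hP1 ⊢
        linear_combination (norm := module) hP1
    · simp only [map_sub, map_smul] at hP2
      simp only [LinearMap.add_apply, LinearMap.smulRight_apply]
      rcases h2 with rfl | h2
      · linear_combination (norm := module) hP2
      · rw [h2] at hP2 ⊢
        linear_combination (norm := module) hP2
  rcases h ψ hψ with h1 | h1
  · exact key 0 (Or.inr rfl) (Or.inr h1) (Or.inl rfl)
  · exact key 1 (Or.inl rfl) (Or.inl rfl) (Or.inr h1)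

/-- One half of the step where the new element lies in the span of the old ones. -/
theorem sep_half {v : E → X} {S : Set E} {x : E} (hx : v x ∈ span F (v '' S))
    (ih : ∀ S' ⊆ S, SepP v S') {p1 p2 : X} (hp1 : p1 ∈ span F (v '' S))
    (P : X →ₗ[F] X) (hP : ∀ z ∈ S, P (v z) = v z ∨ P (v z) = 0) (h1 : P p1 = p1)
    (h2 : P p2 = 0) :
    (∃ R : X →ₗ[F] X, (∀ z ∈ insert x S, R (v z) = v z ∨ R (v z) = 0) ∧ R p1 = p1 ∧
      R p2 = 0 ∧ R (v x) = 0) ∨
    ∃ φ, Hyp v {z | z ∈ S ∧ P (v z) = v z} φ ∧ φ p1 ≠ 0 ∧ φ (P (v x)) ≠ 0 := by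
  have hm : ∀ y ∈ span F (v '' S), P y ∈ span F (v '' {z | z ∈ S ∧ P (v z) = v z}) := by
    intro y hy
    refine map_mem_span P (fun z hz => ?_) hy
    rcases hP z hz with h | h
    · rw [h]; exact subset_span ⟨z, ⟨hz, h⟩, rfl⟩
    · rw [h]; exact zero_mem _
  by_cases hc : ∀ φ, Hyp v {z | z ∈ S ∧ P (v z) = v z} φ → φ p1 = 0 ∨ φ (P (v x)) = 0
  · obtain ⟨P', hP', h3, h4⟩ := ih _ (fun z hz => hz.1) p1 (h1 ▸ hm p1 hp1) _ (hm _ hx) hc
    refine Or.inl ⟨P' ∘ₗ P, ?_, by simp [h1, h3], by simp [h2], by simp [h4]⟩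
    rintro z (rfl | hz)
    · right; simp [h4]
    · rcases hP z hz with h | h
      · simpa [h] using hP' z ⟨hz, h⟩
      · right; simp [h]
  · push Not at hc
    obtain ⟨φ, h3, h4, h5⟩ := hc
    exact Or.inr ⟨φ, h3, h4, h5⟩

theorem sep_span {v : E → X} {S : Set E} {x : E} (hx : v x ∈ span F (v '' S))
    (ih : ∀ S' ⊆ S, SepP v S') : SepP v (insert x S) := by
  have hsp : span F (v '' insert x S) = span F (v '' S) := by
    rw [Set.image_insert_eq, span_insert_eq_span hx]
  intro p1 hp1 p2 hp2 h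
  rw [hsp] at hp1 hp2
  obtain ⟨P, hP, h1, h2⟩ := ih S subset_rfl p1 hp1 p2 hp2 (by
    intro φ hφ
    refine h φ fun y hy h0 => ?_
    rw [hsp] at hy
    refine span_mono (Set.image_mono fun z hz => ?_) (hφ y hy h0)
    exact ⟨Or.inr hz.1, hz.2⟩)
  rcases sep_half hx ih hp1 P hP h1 h2 with ⟨R, hR, h3, h4, -⟩ | ⟨φ1, hφ1, a1, b1⟩
  · exact ⟨R, hR, h3, h4⟩
  have hQ : ∀ z ∈ S, (LinearMap.id - P : X →ₗ[F] X) (v z) = v z ∨
      (LinearMap.id - P : X →ₗ[F] X) (v z) = 0 := by
    intro z hz
    rcases hP z hz with h | h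
    · right; simp [h]
    · left; simp [h]
  rcases sep_half (p2 := p1) hx ih hp2 (LinearMap.id - P) hQ (by simp [h2]) (by simp [h1]) with
    ⟨R, hR, h3, h4, -⟩ | ⟨φ2, hφ2, a2, b2⟩
  · refine ⟨LinearMap.id - R, fun z hz => ?_, by simp [h4], by simp [h3]⟩
    rcases hR z hz with h | h
    · right; simp [h]
    · left; simp [h]
  exfalso
  set Q : X →ₗ[F] X := LinearMap.id - P with hQdef
  have hQa : ∀ y, Q y = y - P y := fun y => by simp [hQdef]
  have hm : ∀ (P : X →ₗ[F] X), (∀ z ∈ S, P (v z) = v z ∨ P (v z) = 0) →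
      ∀ y ∈ span F (v '' S), P y ∈ span F (v '' {z | z ∈ S ∧ P (v z) = v z}) := by
    intro P hP y hy
    refine map_mem_span P (fun z hz => ?_) hy
    rcases hP z hz with h | h
    · rw [h]; exact subset_span ⟨z, ⟨hz, h⟩, rfl⟩
    · rw [h]; exact zero_mem _
  let φ : X →ₗ[F] F := φ2 (Q (v x)) • φ1 ∘ₗ P - φ1 (P (v x)) • φ2 ∘ₗ Q
  have hφ : ∀ y, φ y = φ2 (Q (v x)) * φ1 (P y) - φ1 (P (v x)) * φ2 (Q y) := fun y => by
    simp [φ]
  have hH : Hyp v (insert x S) φ := by
    intro y hy h0
    rw [hsp] at hy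
    rw [hφ] at h0
    let t : F := φ1 (P y) / φ1 (P (v x))
    have ht : t * φ1 (P (v x)) = φ1 (P y) := div_mul_cancel₀ _ b1
    have hy' : y - t • v x ∈ span F (v '' S) := sub_mem hy (smul_mem _ _ hx)
    have e1 := hφ1 _ (hm P hP _ hy') (by
      simp only [map_sub, map_smul, smul_eq_mul]; linear_combination -ht)
    have e2 := hφ2 _ (hm Q hQ _ hy') (by
      simp only [map_sub, map_smul, smul_eq_mul]
      apply mul_left_cancel₀ b1
      linear_combination -h0 - φ2 (Q (v x)) * ht)
    have h3 : y = P (y - t • v x) + Q (y - t • v x) + t • v x := by rw [hQa]; abel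
    rw [h3]
    refine add_mem (add_mem (span_mono (Set.image_mono fun z hz => ?_) e1)
      (span_mono (Set.image_mono fun z hz => ?_) e2))
      (smul_mem _ _ (subset_span ⟨x, ⟨Or.inl rfl, by rw [hφ]; ring⟩, rfl⟩))
    · refine ⟨Or.inr hz.1.1, ?_⟩
      rw [hφ, hQa (v z), hz.1.2, hz.2]; simp
    · refine ⟨Or.inr hz.1.1, ?_⟩
      have h5 : P (v z) = 0 := by
        have := hz.1.2
        rw [hQa] at this
        simpa using this
      rw [hφ, hz.1.2, hz.2, h5]; simp
  rcases h φ hH with h3 | h3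
  · rw [hφ, hQa p1, h1] at h3
    simp only [sub_self, map_zero, mul_zero, sub_zero] at h3
    exact mul_ne_zero b2 a1 h3
  · rw [hφ, hQa p2, h2] at h3
    simp only [sub_zero, map_zero, mul_zero, zero_sub, neg_eq_zero] at h3
    exact mul_ne_zero b1 a2 h3

theorem sepP (v : E → X) (n : ℕ) : ∀ S : Set E, S.Finite → S.ncard ≤ n → SepP v S := by
  induction n with
  | zero =>
    intro S hS hn p1 hp1 p2 hp2 _
    have : S = ∅ := (Set.ncard_eq_zero hS).1 (by omega)
    subst this
    simp only [Set.image_empty, span_empty, mem_bot] at hp1 hp2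
    exact ⟨0, by simp, by simp [hp1], by simp⟩
  | succ n ih =>
    intro S hS hn
    rcases S.eq_empty_or_nonempty with rfl | ⟨x, hx⟩
    · exact ih ∅ hS (by simp)
    have h1 : (S \ {x}).ncard ≤ n := by
      have := Set.ncard_sdiff_singleton_of_mem hx
      omega
    have h2 : ∀ S' ⊆ S \ {x}, SepP v S' := fun S' hS' =>
      ih S' ((hS.subset Set.sdiff_subset).subset hS')
        ((Set.ncard_le_ncard hS' (hS.subset Set.sdiff_subset)).trans h1)
    have h3 : S = insert x (S \ {x}) := by simp [hx]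
    rw [h3]
    by_cases h4 : v x ∈ span F (v '' (S \ {x}))
    · exact sep_span h4 h2
    · exact sep_coloop h4 (h2 _ subset_rfl)

theorem mem_span_of_indep {v : E → X} {w : E → Y}
    (h : ∀ S : Set E, LinearIndepOn F v S ↔ LinearIndepOn F w S) {A : Set E} {x : E}
    (hx : v x ∈ span F (v '' A)) : w x ∈ span F (w '' A) := by
  obtain ⟨b, hb, -, h1, h2⟩ := exists_linearIndepOn_extension
    (linearIndepOn_empty F v) (Set.empty_subset A)
  refine span_mono (Set.image_mono hb) ?_
  by_cases hxb : x ∈ b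
  · exact subset_span ⟨x, hxb, rfl⟩
  have h3 : v x ∈ span F (v '' b) := span_le.2 h1 hx
  by_contra hc
  have h4 := (h _).2 ((linearIndepOn_insert hxb).2 ⟨(h _).1 h2, hc⟩)
  exact ((linearIndepOn_insert hxb).1 h4).2 h3

theorem maps {v : E → X} {w : E → Y}
    (h : ∀ S : Set E, LinearIndepOn F v S ↔ LinearIndepOn F w S) (S : Set E) (hS : S.Finite) :
    ∃ (ε : E → F) (T : X →ₗ[F] Y) (T' : Y →ₗ[F] X), (∀ e, ε e ≠ 0) ∧
      (∀ e ∈ S, T (v e) = ε e • w e) ∧ ∀ e ∈ S, T' (w e) = ε e • v e := by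
  classical
  induction S, hS using Set.Finite.induction_on with
  | empty => exact ⟨fun _ => 1, 0, 0, fun _ => one_ne_zero, by simp, by simp⟩
  | @insert x S hxS hS ih =>
    obtain ⟨ε, T, T', hε, hT, hT'⟩ := ih
    have h' : ∀ S : Set E, LinearIndepOn F w S ↔ LinearIndepOn F v S := fun S => (h S).symm
    have hne : ∀ z ∈ S, z ≠ x := fun z hz hc => hxS (hc ▸ hz)
    by_cases hx : v x ∈ span F (v '' S)
    · have hw : w x ∈ span F (w '' S) := mem_span_of_indep h hx
      have hsub : ∀ A ⊆ S, ∀ y ∈ span F (w '' A), T' y ∈ span F (v '' A) := fun A hA y hy =>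
        map_mem_span T' (fun z hz => by
          rw [hT' z (hA hz)]; exact smul_mem _ _ (subset_span ⟨z, hz, rfl⟩)) hy
      have hsub' : ∀ A ⊆ S, ∀ y ∈ span F (v '' A), T y ∈ span F (w '' A) := fun A hA y hy =>
        map_mem_span T (fun z hz => by
          rw [hT z (hA hz)]; exact smul_mem _ _ (subset_span ⟨z, hz, rfl⟩)) hy
      have hTT : T (T' (w x)) = w x := by
        have := map_eq_on_span (T ∘ₗ T') LinearMap.id (fun z hz => by
          simp [hT' z hz, hT z hz, smul_smul, F_sq (hε z)]) hw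
        simpa using this
      have hq : T' (w x) ∈ span F (v '' S) := hsub S subset_rfl _ hw
      have hker : ∀ (φ : X →ₗ[F] F) (y : X), y ∈ span F (v '' {z | z ∈ S ∧ φ (v z) = 0}) →
          φ y = 0 := fun φ y hy => by
        exact map_eq_on_span φ 0 (fun z hz => hz.2) hy
      obtain ⟨P, hP, h1, h2⟩ := sepP v _ S hS le_rfl _ (add_mem hx hq) _ (sub_mem hx hq) (by
        intro φ hφ
        have e1 : φ (v x) = 0 → φ (T' (w x)) = 0 := fun h0 =>
          hker φ _ (hsub _ (fun z hz => hz.1) _ (mem_span_of_indep h (hφ _ hx h0)))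
        have e2 : φ (T' (w x)) = 0 → φ (v x) = 0 := fun h0 => by
          have := hsub' _ (fun z hz => hz.1) _ (hφ _ hq h0)
          rw [hTT] at this
          exact hker φ _ (mem_span_of_indep h' this)
        simp only [map_add, map_sub]
        generalize φ (v x) = a at e1 e2
        generalize φ (T' (w x)) = b at e1 e2
        revert a b; decide)
      let σ : X →ₗ[F] X := P + P - LinearMap.id
      have hσ : ∀ y, σ y = P y + P y - y := fun y => by simp [σ]
      simp only [map_add, map_sub] at h1 h2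
      have s1 : σ (v x) = T' (w x) := by
        rw [hσ]; linear_combination (norm := module) h1 + h2
      have s2 : σ (T' (w x)) = v x := by
        rw [hσ]; linear_combination (norm := module) h1 - h2
      let δ : E → F := fun z => if P (v z) = v z then 1 else -1
      have hδ : ∀ z, δ z ≠ 0 := fun z => by
        simp only [δ]; split_ifs <;> decide
      have s3 : ∀ z ∈ S, σ (v z) = δ z • v z := by
        intro z hz
        simp only [δ]
        split_ifs with h3
        · rw [hσ, h3]; simp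
        · rw [hσ, (hP z hz).resolve_left h3]; simp
      refine ⟨Function.update (fun z => δ z * ε z) x 1, T ∘ₗ σ, σ ∘ₗ T', fun z => ?_, ?_, ?_⟩
      · by_cases hz : z = x
        · subst hz; simp
        · simp [Function.update_of_ne hz, hδ z, hε z]
      · rintro z (rfl | hz)
        · simp [s1, hTT]
        · simp [Function.update_of_ne (hne z hz), s3 z hz, hT z hz, smul_smul]
      · rintro z (rfl | hz)
        · simp [s2]
        · simp [Function.update_of_ne (hne z hz), s3 z hz, hT' z hz, smul_smul, mul_comm]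
    · have hw : w x ∉ span F (w '' S) := fun hc => hx (mem_span_of_indep h' hc)
      obtain ⟨ψ, ψ1, ψ0⟩ := exists_dual hx
      obtain ⟨ψ', ψ1', ψ0'⟩ := exists_dual hw
      refine ⟨Function.update ε x 1, T + ψ.smulRight (w x - T (v x)),
        T' + ψ'.smulRight (v x - T' (w x)), fun z => ?_, ?_, ?_⟩
      · by_cases hz : z = x
        · subst hz; simp
        · simp [Function.update_of_ne hz, hε z]
      · rintro z (rfl | hz)
        · simp [ψ1]
        · simp [Function.update_of_ne (hne z hz), hT z hz, ψ0 _ (subset_span ⟨z, hz, rfl⟩)]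
      · rintro z (rfl | hz)
        · simp [ψ1']
        · simp [Function.update_of_ne (hne z hz), hT' z hz, ψ0' _ (subset_span ⟨z, hz, rfl⟩)]

end J2

theorem s_j2 : S_J2 := by
  intro E X Y _ _ _ _ _ _ v w h
  obtain ⟨ε, T, T', hε, hT, hT'⟩ := J2.maps h Set.univ Set.finite_univ
  refine ⟨ε, hε, fun c => ⟨fun hc => ?_, fun hc => ?_⟩⟩
  · have := congrArg T hc
    simpa [map_sum, hT] using this
  · have := congrArg T' hc
    simpa [map_sum, hT', smul_smul, mul_assoc, F_sq (hε _)] using this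

end Pool.Agent.P.MP_053557_co
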