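import Pool.Agent.P.MP_053557_co.Basic2

/-! Every coordinate is flipped exactly once along the geodesic. -/

namespace Pool.Agent.P.MP_053557_co

open Module Submodule

namespace K2

variable {V : Type} [AddCommGroup V] [Module F V] {ι κ ρ : Type} [Fintype ι]
  [Fintype κ] [DecidableEq κ] {a : Basis ι F V} {f : Basis κ F V} {x : ℤ → V} {L : ℕ}
  {χ : ρ → V →ₗ[F] F}

omit [DecidableEq κ] in
theorem gm_ne (h : Af a f) {y : V} (hy : y ∈ Gm a) (l : κ) : f.repr y l ≠ 0 := by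
  rcases mem_Gm_iff.1 hy with ⟨i, rfl | rfl⟩
  · exact h.full i l
  · simpa using h.full i l

omit [DecidableEq κ] in
theorem df_tri (h : Af a f) {y u w : V} (hy : y ∈ Gm a) (hu : u ∈ Gm a) (hw : w ∈ Gm a)
    {l : κ} (h1 : l ∈ Df f y u) (h2 : l ∉ Df f y w) : l ∈ Df f u w := by
  rw [mem_Df] at *
  have := gm_ne h hy l
  have := gm_ne h hu l
  have := gm_ne h hw l
  intro hc
  push Not at h2
  exact h1 (h2.trans hc.symm)

omit [DecidableEq κ] in
theorem df_compl (h : Af a f) {y u : V} (hy : y ∈ Gm a) (hu : u ∈ Gm a) (l : κ) :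
    l ∈ Df f y u ∨ l ∈ Df f y (-u) := by
  rw [mem_Df, mem_Df, map_neg, Finsupp.neg_apply]
  have h2 := gm_ne h hu l
  revert h2
  generalize f.repr y l = c
  generalize f.repr u l = d
  revert c d
  decide

omit [Fintype ι] [DecidableEq κ] in
theorem mem_Df' {u w : V} {l : κ} : l ∈ Df f u w ↔ f.repr (u - w) l ≠ 0 := by
  rw [mem_Df, map_sub, Finsupp.sub_apply, sub_ne_zero]

omit [Fintype ι] [DecidableEq κ] in
theorem ex_end (φ : V →ₗ[F] F) {u w : V} (h : φ (u - w) ≠ 0) :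
    ∃ l ∈ Df f u w, φ (f l) ≠ 0 := by
  by_contra hc
  push Not at hc
  apply h
  rw [map_eq_sum f φ]
  refine Finset.sum_eq_zero fun l _ => ?_
  by_cases hl : l ∈ Df f u w
  · rw [hc l hl, mul_zero]
  · rw [mem_Df', not_not] at hl
    rw [hl, zero_mul]

omit [Fintype ι] in
theorem two_cls {W : Submodule F V} (hc : Cells f W χ) {u w : V} (h2 : (Df f u w).card = 2)
    {q1 q2 : ρ} (hq : q1 ≠ q2) (h1 : χ q1 (u - w) ≠ 0) (h1' : χ q2 (u - w) ≠ 0) :
    (∀ c ∈ Df f u w, ∀ q, χ q (f c) ≠ 0 → q = q1 ∨ q = q2) ∧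
    ∀ c ∈ Df f u w, ∀ c' ∈ Df f u w, ∀ q, χ q (f c) ≠ 0 → χ q (f c') ≠ 0 → c = c' := by
  obtain ⟨l1, m1, k1⟩ := ex_end (f := f) _ h1
  obtain ⟨l2, m2, k2⟩ := ex_end (f := f) _ h1'
  have hl : l1 ≠ l2 := by
    rintro rfl
    exact hq (hc.disj _ _ _ k1 k2)
  have hD : ({l1, l2} : Finset κ) = Df f u w := by
    refine Finset.eq_of_subset_of_card_le ?_ (by rw [h2, Finset.card_pair hl])
    intro z hz
    rcases Finset.mem_insert.1 hz with rfl | hz
    · exact m1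
    · rw [Finset.mem_singleton.1 hz]; exact m2
  rw [← hD]
  simp only [Finset.mem_insert, Finset.mem_singleton]
  constructor
  · rintro c (rfl | rfl) q hcq
    · exact Or.inl (hc.disj _ _ _ hcq k1)
    · exact Or.inr (hc.disj _ _ _ hcq k2)
  · rintro c (rfl | rfl) c' (rfl | rfl) q e1 e2
    · rfl
    · exact absurd ((hc.disj _ _ _ k1 e1).trans (hc.disj _ _ _ e2 k2)) hq
    · exact absurd ((hc.disj _ _ _ k1 e2).trans (hc.disj _ _ _ e1 k2)) hq
    · rfl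

omit [Fintype ι] [Fintype κ] [DecidableEq κ] in
theorem per_pos (g : Geo a f x L) (s : ℤ) (m : ℕ) : x (s + 2 * L * m) = x s := by
  induction m with
  | zero => simp
  | succ m ih =>
    have : s + 2 * L * ((m + 1 : ℕ) : ℤ) = s + 2 * L * m + L + L := by push_cast; ring
    rw [this, g.anti, g.anti, neg_neg, ih]

omit [Fintype ι] [Fintype κ] [DecidableEq κ] in
theorem per (g : Geo a f x L) (s m : ℤ) : x (s + 2 * L * m) = x s := by
  rcases Int.eq_nat_or_neg m with ⟨n, rfl | rfl⟩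
  · exact per_pos g s n
  · have := per_pos g (s + 2 * L * (-(n : ℤ))) n
    rw [← this]; congr 1; ring

omit [Fintype ι] [Fintype κ] [DecidableEq κ] in
theorem reduce (g : Geo a f x L) (s t : ℤ) : ∃ r : ℤ, 0 ≤ r ∧ r < 2 * L ∧ x t = x (s + r) := by
  have hL : (0 : ℤ) < 2 * L := by have := g.pos; omega
  refine ⟨(t - s) % (2 * L), Int.emod_nonneg _ hL.ne', Int.emod_lt_of_pos _ hL, ?_⟩
  rw [← per g (s + (t - s) % (2 * L)) ((t - s) / (2 * L))]
  congr 1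
  have := Int.emod_add_mul_ediv (t - s) (2 * L)
  linarith

omit [Fintype ι] [Fintype κ] [DecidableEq κ] in
theorem back (g : Geo a f x L) (s r : ℤ) : x (s + (2 * L - r)) = x (s - r) := by
  rw [← per g (s - r) 1]; congr 1; ring

omit [Fintype ι] [DecidableEq κ] in
theorem step_pos (g : Geo a f x L) (s : ℤ) (m : ℕ) :
    Df f (x (s + L * m)) (x (s + L * m + 1)) = Df f (x s) (x (s + 1)) := by
  induction m with
  | zero => simp
  | succ m ih =>
    have e1 : s + L * ((m + 1 : ℕ) : ℤ) = s + L * m + L := by push_cast; ring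
    have e2 : s + L * m + L + 1 = s + L * m + 1 + L := by ring
    rw [e1, e2, g.anti, g.anti, Df_neg, ih]

omit [Fintype ι] [DecidableEq κ] in
theorem step_per (g : Geo a f x L) (s m : ℤ) :
    Df f (x (s + L * m)) (x (s + L * m + 1)) = Df f (x s) (x (s + 1)) := by
  rcases Int.eq_nat_or_neg m with ⟨n, rfl | rfl⟩
  · exact step_pos g s n
  · have := step_pos g (s + L * (-(n : ℤ))) n
    rw [← this]; congr 2 <;> ring

omit [Fintype ι] [DecidableEq κ] in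
theorem step_red (g : Geo a f x L) (s : ℤ) : ∃ r : ℕ, r < L ∧
    Df f (x s) (x (s + 1)) = Df f (x r) (x (r + 1)) := by
  have hL : (0 : ℤ) < L := by have := g.pos; omega
  have h0 := Int.emod_nonneg s hL.ne'
  have h1 := Int.emod_lt_of_pos s hL
  refine ⟨(s % L).toNat, by omega, ?_⟩
  rw [Int.toNat_of_nonneg h0, ← step_per g (s % L) (s / L), Int.emod_add_mul_ediv]

omit [Fintype ι] [DecidableEq κ] in
theorem geo_adj (g : Geo a f x L) {s t : ℤ} (h : Adj f (x s) (x t)) :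
    ∃ r, Df f (x s) (x t) = Df f (x r) (x (r + 1)) := by
  obtain ⟨r, r0, r1, e⟩ := reduce g s t
  rw [e] at h ⊢
  by_cases h0 : r = 0
  · subst h0; exact absurd (by simp) h.1
  by_cases h1 : r = 1
  · subst h1; exact ⟨s, rfl⟩
  by_cases h2 : r = 2 * L - 1
  · subst h2
    refine ⟨s - 1, ?_⟩
    rw [back g, Df_comm]; congr 2; ring
  exact absurd h (g.d1 s r (by omega) (by omega))

omit [Fintype ι] [Fintype κ] [DecidableEq κ] in
theorem off_neg (g : Geo a f x L) {y : V} (h : Off a x y) : Off a x (-y) := by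
  refine ⟨neg_mem_Gm h.1, fun s hs => h.2 (s + L) ?_⟩
  rw [g.anti, ← hs, neg_neg]

/-- Number of steps of a half period flipping `l`. -/
noncomputable def cnt (f : Basis κ F V) (x : ℤ → V) (L : ℕ) (l : κ) : ℕ :=
  ((Finset.range L).filter fun s : ℕ => l ∈ Df f (x s) (x (s + 1))).card

omit [Fintype ι] in
theorem leaf_eq (g : Geo a f x L) {l : κ} (h : cnt f x L l = 1) {s t : ℤ}
    (hs : l ∈ Df f (x s) (x (s + 1))) (ht : l ∈ Df f (x t) (x (t + 1))) :
    Df f (x s) (x (s + 1)) = Df f (x t) (x (t + 1)) := by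
  obtain ⟨r, r1, e1⟩ := step_red g s
  obtain ⟨r', r2, e2⟩ := step_red g t
  rw [e1] at hs ⊢
  rw [e2] at ht ⊢
  have : r = r' := Finset.card_le_one.1 h.le r
    (Finset.mem_filter.2 ⟨Finset.mem_range.2 r1, hs⟩) r'
    (Finset.mem_filter.2 ⟨Finset.mem_range.2 r2, ht⟩)
  rw [this]

/-- The facts collected from the earlier lemmas. -/
structure Ctx (a : Basis ι F V) (f : Basis κ F V) (x : ℤ → V) (L : ℕ) (χ : ρ → V →ₗ[F] F) :
    Prop where
  gq : Gq a f x L χ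
  adj : ∀ y ∈ Gm a, ∀ z ∈ Gm a, Adj f y z ↔ (Df f y z).card = 2
  same : ∀ x ∈ Gm a, ∀ y ∈ Gm a, ∀ z ∈ Gm a, ∀ w ∈ Gm a, Adj f x y → Adj f z w →
    Df f x y = Df f z w → x - y = z - w ∨ x - y = w - z
  five : ∀ l, ∀ z ∈ Gm a, ∃ x ∈ Gm a, ∃ y ∈ Gm a, ∃ x' ∈ Gm a, ∃ y' ∈ Gm a, Adj f x y ∧
    Adj f x' y' ∧ l ∈ Df f x y ∧ l ∈ Df f x' y' ∧ x - y ≠ x' - y' ∧ x - y ≠ y' - x' ∧
    x ≠ z ∧ x ≠ -z ∧ y ≠ z ∧ y ≠ -z ∧ x' ≠ z ∧ x' ≠ -z ∧ y' ≠ z ∧ y' ≠ -z
  disj : ∀ s, Disjoint (Df f (x (s - 1)) (x s)) (Df f (x s) (x (s + 1)))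
  win : ∀ y s, Off a x y → Adj f y (x s) → Adj f y (x (s + 2)) → Adj f y (x (s + 1))
  cls : ∀ l, ∃ q, χ q (f l) ≠ 0
  row : ∀ y, Off a x y → ∃ q1 q2, q1 ≠ q2 ∧ ∀ q, χ q y ≠ 0 ↔ (q = q1 ∨ q = q2)
  col : ∀ q, ∃ y z, Off a x y ∧ Off a x z ∧ χ q y ≠ 0 ∧ χ q z ≠ 0 ∧ y ≠ z ∧ y ≠ -z ∧
    ∀ w, Off a x w → χ q w ≠ 0 → w = y ∨ w = -y ∨ w = z ∨ w = -z
  lk : ∀ y z, Off a x y → Off a x z → Adj f y z →
    ∃ q0, ∀ q, (χ q y ≠ 0 ∧ χ q z ≠ 0) ↔ q = q0

omit [DecidableEq κ] in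
theorem Ctx.van (h : Ctx a f x L χ) (q : ρ) (s : ℤ) : χ q (x s) = 0 :=
  h.gq.cells.van q _ (subset_span ⟨s, rfl⟩)

theorem Ctx.not_both (h : Ctx a f x L χ) {y u : V} (hy : y ∈ Gm a) (hu : u ∈ Gm a)
    (h1 : Adj f y u) (h2 : Adj f y (-u)) : False := by
  have c1 := (h.adj y hy u hu).1 h1
  have c2 := (h.adj y hy _ (neg_mem_Gm hu)).1 h2
  have hsub : (Finset.univ : Finset κ) ⊆ Df f y u ∪ Df f y (-u) := fun l _ =>
    Finset.mem_union.2 (df_compl h.gq.af hy hu l)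
  have h3 := (Finset.card_le_card hsub).trans (Finset.card_union_le _ _)
  rw [Finset.card_univ, card_eq_card a f] at h3
  have := h.gq.af.eight
  omega

theorem Ctx.geo_edge (h : Ctx a f x L χ) {y : V} (hy : Off a x y) {s : ℤ}
    (ha : Adj f y (x s)) :
    (∀ c ∈ Df f y (x s), ∀ q, χ q (f c) ≠ 0 → χ q y ≠ 0) ∧
    ∀ c ∈ Df f y (x s), ∀ c' ∈ Df f y (x s), ∀ q, χ q (f c) ≠ 0 → χ q (f c') ≠ 0 → c = c' := by
  obtain ⟨q1, q2, hq, hr⟩ := h.row y hy
  have e : ∀ q, χ q (y - x s) = χ q y := fun q => by rw [map_sub, h.van, sub_zero]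
  have := two_cls h.gq.cells ((h.adj y hy.1 _ (h.gq.geo.mem s)).1 ha) hq
    (by rw [e]; exact (hr q1).2 (Or.inl rfl)) (by rw [e]; exact (hr q2).2 (Or.inr rfl))
  exact ⟨fun c hc q hcq => (hr q).2 (this.1 c hc q hcq), this.2⟩

theorem Ctx.off_edge (h : Ctx a f x L χ) {y z : V} (hy : Off a x y) (hz : Off a x z)
    (ha : Adj f y z) :
    (∀ c ∈ Df f y z, ∀ q, χ q (f c) ≠ 0 →
      (χ q y ≠ 0 ∧ χ q z = 0) ∨ (χ q y = 0 ∧ χ q z ≠ 0)) ∧
    ∀ c ∈ Df f y z, ∀ c' ∈ Df f y z, ∀ q, χ q (f c) ≠ 0 → χ q (f c') ≠ 0 → c = c' := by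
  obtain ⟨q0, h0⟩ := h.lk y z hy hz ha
  have other : ∀ w, Off a x w → ∃ q1, q1 ≠ q0 ∧ χ q1 w ≠ 0 := by
    intro w hw
    obtain ⟨q1, q2, hq, hr⟩ := h.row w hw
    by_cases h1 : q1 = q0
    · exact ⟨q2, fun h2 => hq (h1.trans h2.symm), (hr q2).2 (Or.inr rfl)⟩
    · exact ⟨q1, h1, (hr q1).2 (Or.inl rfl)⟩
  obtain ⟨q1, n1, k1⟩ := other y hy
  obtain ⟨q2, n2, k2⟩ := other z hz
  have z1 : χ q1 z = 0 := by_contra fun hc => n1 ((h0 q1).1 ⟨k1, hc⟩)
  have z2 : χ q2 y = 0 := by_contra fun hc => n2 ((h0 q2).1 ⟨hc, k2⟩)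
  have hq : q1 ≠ q2 := by
    rintro rfl
    exact k1 z2
  have := two_cls h.gq.cells ((h.adj y hy.1 z hz.1).1 ha) hq
    (by rw [map_sub, z1, sub_zero]; exact k1) (by rw [map_sub, z2, zero_sub]; simpa using k2)
  refine ⟨fun c hc q hcq => ?_, this.2⟩
  rcases this.1 c hc q hcq with rfl | rfl
  · exact Or.inl ⟨k1, z1⟩
  · exact Or.inr ⟨z2, k2⟩

/-- An edge flipping `c` is a step or has an end seen by the class of `c`. -/
theorem Ctx.edge (h : Ctx a f x L χ) {u w : V} (hu : u ∈ Gm a) (hw : w ∈ Gm a)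
    (ha : Adj f u w) {c : κ} (hc : c ∈ Df f u w) {q : ρ} (hq : χ q (f c) ≠ 0) :
    (∃ r, Df f u w = Df f (x r) (x (r + 1))) ∨ (Off a x u ∧ χ q u ≠ 0) ∨
      (Off a x w ∧ χ q w ≠ 0) := by
  by_cases h1 : ∃ s, u = x s <;> by_cases h2 : ∃ s, w = x s
  · obtain ⟨s, rfl⟩ := h1
    obtain ⟨t, rfl⟩ := h2
    exact Or.inl (geo_adj h.gq.geo ha)
  · obtain ⟨s, rfl⟩ := h1
    have hw' : Off a x w := ⟨hw, fun t ht => h2 ⟨t, ht⟩⟩
    exact Or.inr (Or.inr ⟨hw', (h.geo_edge hw' ha.symm).1 c (by rwa [Df_comm]) q hq⟩)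
  · obtain ⟨s, rfl⟩ := h2
    have hu' : Off a x u := ⟨hu, fun t ht => h1 ⟨t, ht⟩⟩
    exact Or.inr (Or.inl ⟨hu', (h.geo_edge hu' ha).1 c hc q hq⟩)
  · have hu' : Off a x u := ⟨hu, fun t ht => h1 ⟨t, ht⟩⟩
    have hw' : Off a x w := ⟨hw, fun t ht => h2 ⟨t, ht⟩⟩
    rcases (h.off_edge hu' hw' ha).1 c hc q hq with h3 | h3
    · exact Or.inr (Or.inl ⟨hu', h3.1⟩)
    · exact Or.inr (Or.inr ⟨hw', h3.2⟩)

omit [DecidableEq κ] in
theorem Ctx.other (h : Ctx a f x L χ) {y : V} (hy : Off a x y) {q : ρ} (hq : χ q y ≠ 0) :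
    ∃ z, Off a x z ∧ ∀ w, Off a x w → χ q w ≠ 0 → w = y ∨ w = -y ∨ w = z ∨ w = -z := by
  obtain ⟨y0, z0, o1, o2, -, -, -, -, hall⟩ := h.col q
  rcases hall y hy hq with rfl | rfl | rfl | rfl
  · exact ⟨z0, o2, hall⟩
  · refine ⟨z0, o2, fun w hw hw' => ?_⟩
    rw [neg_neg]; have := hall w hw hw'; tauto
  · refine ⟨y0, o1, fun w hw hw' => ?_⟩
    have := hall w hw hw'; tauto
  · refine ⟨y0, o1, fun w hw hw' => ?_⟩
    rw [neg_neg]; have := hall w hw hw'; tauto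

theorem Ctx.reach (h : Ctx a f x L χ) {y : V} (hy : Off a x y) {q : ρ} (hq : χ q y ≠ 0)
    {c : κ} (hc : χ q (f c) ≠ 0) (hl : cnt f x L c = 1) :
    ∃ z ∈ Gm a, Adj f y z ∧ c ∈ Df f y z := by
  obtain ⟨z0, o2, hall⟩ := h.other hy hq
  have fin : ∀ u w, w ∈ Gm a → Adj f u w → c ∈ Df f u w → u ≠ z0 → u ≠ -z0 → Off a x u →
      χ q u ≠ 0 → ∃ z ∈ Gm a, Adj f y z ∧ c ∈ Df f y z := by
    intro u w hw ha hm n1 n2 hu hu'
    rcases hall u hu hu' with rfl | rfl | h3 | h3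
    · exact ⟨w, hw, ha, hm⟩
    · refine ⟨-w, neg_mem_Gm hw, by simpa using ha.neg, ?_⟩
      rw [← Df_neg, neg_neg]; exact hm
    · exact absurd h3 n1
    · exact absurd h3 n2
  obtain ⟨u, hu, w, hw, u', hu', w', hw', a1, a2, m1, m2, d1, d2, n1, n2, n3, n4, n5, n6, n7,
    n8⟩ := h.five c z0 o2.1
  rcases h.edge hu hw a1 m1 hc with ⟨r, hr⟩ | h3 | h3
  · rcases h.edge hu' hw' a2 m2 hc with ⟨r', hr'⟩ | h3 | h3
    · exfalso
      have e := leaf_eq h.gq.geo hl (hr ▸ m1) (hr' ▸ m2)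
      rcases h.same u hu w hw u' hu' w' hw' a1 a2 (hr.trans (e.trans hr'.symm)) with h4 | h4
      · exact d1 h4
      · exact d2 h4
    · exact fin u' w' hw' a2 m2 n5 n6 h3.1 h3.2
    · exact fin w' u' hu' a2.symm (by rwa [Df_comm]) n7 n8 h3.1 h3.2
  · exact fin u w hw a1 m1 n1 n2 h3.1 h3.2
  · exact fin w u hu a1.symm (by rwa [Df_comm]) n3 n4 h3.1 h3.2

theorem Ctx.pair (h : Ctx a f x L χ) {c c' m : κ} {q : ρ} {s : ℤ} (hne : c ≠ c')
    (l1 : cnt f x L c = 1) (l2 : cnt f x L c' = 1) (m1 : c ∈ Df f (x s) (x (s + 1)))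
    (m2 : c' ∈ Df f (x s) (x (s + 1))) (k1 : χ q (f c) ≠ 0) (k3 : χ q (f m) ≠ 0)
    (n1 : m ≠ c) (n2 : m ≠ c') : False := by
  have g := h.gq.geo
  let ψ : V →ₗ[F] F := χ q (f c) • f.coord c + χ q (f c') • f.coord c'
  have hψ : ∀ v, ψ v = χ q (f c) * f.repr v c + χ q (f c') * f.repr v c' := fun v => rfl
  have hD : ({c, c'} : Finset κ) = Df f (x s) (x (s + 1)) := by
    refine Finset.eq_of_subset_of_card_le ?_
      (by rw [(h.adj _ (g.mem s) _ (g.mem (s + 1))).1 (g.adj s), Finset.card_pair hne])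
    intro z hz
    rcases Finset.mem_insert.1 hz with rfl | hz
    · exact m1
    · rw [Finset.mem_singleton.1 hz]; exact m2
  have st : ∀ t, ψ (x (t + 1)) = ψ (x t) := by
    intro t
    rw [eq_comm, ← sub_eq_zero, ← map_sub]
    by_cases ht : Df f (x t) (x (t + 1)) = Df f (x s) (x (s + 1))
    · have e := eq_two_of_supp f (x := x t - x (t + 1)) hne fun k k1 k2 => by
        by_contra hc
        have := mem_Df'.2 hc
        rw [ht, ← hD] at this
        simp [k1, k2] at this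
      have e2 : χ q (x t - x (t + 1)) = 0 := by rw [map_sub, h.van, h.van, sub_zero]
      rw [e, map_add, map_smul, map_smul, smul_eq_mul, smul_eq_mul] at e2
      rw [hψ, ← e2]; ring
    · have z1 : f.repr (x t - x (t + 1)) c = 0 := by_contra fun hc =>
        ht (leaf_eq g l1 (mem_Df'.2 hc) m1)
      have z2 : f.repr (x t - x (t + 1)) c' = 0 := by_contra fun hc =>
        ht (leaf_eq g l2 (mem_Df'.2 hc) m2)
      rw [hψ, z1, z2]; ring
  have st2 : ∀ t, ∀ n : ℕ, ψ (x (t + n)) = ψ (x t) := by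
    intro t n
    induction n with
    | zero => simp
    | succ n ih => rw [← ih, ← st (t + n)]; congr 2; push_cast; ring
  have z : ∀ t, ψ (x t) = 0 := by
    intro t
    have := st2 t L
    rw [g.anti, map_neg] at this
    exact eq_neg_self (V := F) this.symm
  have hU := h.gq.cells.diff k1 k3
  have := map_span_zero ψ (E := Set.range x) (by rintro _ ⟨t, rfl⟩; exact z t) hU
  rw [hψ] at this
  simp [single_ne hne, single_ne n1, single_ne n2, k1] at this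

theorem Ctx.next (h : Ctx a f x L χ) {y : V} (hy : Off a x y) {s : ℤ} {c c' : κ} {q : ρ}
    (a1 : Adj f y (x s)) (a2 : Adj f y (x (s + 1))) (m1 : c ∈ Df f y (x s))
    (m2 : c' ∈ Df f y (x (s + 1))) (k1 : χ q (f c) ≠ 0) (k2 : χ q (f c') ≠ 0) (hne : c ≠ c') :
    c ∈ Df f (x s) (x (s + 1)) ∧ c' ∈ Df f (x s) (x (s + 1)) := by
  have g := h.gq.geo
  constructor
  · exact df_tri h.gq.af hy.1 (g.mem _) (g.mem _) m1 fun hc =>
      hne ((h.geo_edge hy a2).2 c hc c' m2 q k1 k2)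
  · rw [Df_comm]
    exact df_tri h.gq.af hy.1 (g.mem _) (g.mem _) m2 fun hc =>
      hne ((h.geo_edge hy a1).2 c m1 c' hc q k1 k2)

theorem Ctx.next2 (h : Ctx a f x L χ) {y : V} (hy : Off a x y) {s : ℤ} {c c' : κ} {q : ρ}
    (hq : χ q y ≠ 0) (a1 : Adj f y (x s)) (a2 : Adj f y (x (s + 2))) (m1 : c ∈ Df f y (x s))
    (m2 : c' ∈ Df f y (x (s + 2))) (k1 : χ q (f c) ≠ 0) (k2 : χ q (f c') ≠ 0) (hne : c ≠ c') :
    ∃ r, c ∈ Df f (x r) (x (r + 1)) ∧ c' ∈ Df f (x r) (x (r + 1)) := by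
  have a3 := h.win y s hy a1 a2
  have e : s + 2 = s + 1 + 1 := by ring
  rw [e] at a2 m2
  obtain ⟨d, m3, k3⟩ := ex_end (f := f) (χ q) (u := y) (w := x (s + 1))
    (by rw [map_sub, h.van, sub_zero]; exact hq)
  by_cases h1 : d = c
  · subst h1
    exact ⟨s + 1, h.next hy a3 a2 m3 m2 k3 k2 hne⟩
  by_cases h2 : d = c'
  · subst h2
    exact ⟨s, h.next hy a1 a3 m1 m3 k1 k3 hne⟩
  exfalso
  have b1 := (h.next hy a1 a3 m1 m3 k1 k3 (Ne.symm h1)).2
  have b2 := (h.next hy a3 a2 m3 m2 k3 k2 h2).1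
  have := h.disj (s + 1)
  rw [add_sub_cancel_right] at this
  exact Finset.disjoint_left.1 this b1 b2

theorem Ctx.two_geo (h : Ctx a f x L χ) {y : V} (hy : Off a x y) {s t : ℤ} {c c' : κ} {q : ρ}
    (hq : χ q y ≠ 0) (a1 : Adj f y (x s)) (a2 : Adj f y (x t)) (m1 : c ∈ Df f y (x s))
    (m2 : c' ∈ Df f y (x t)) (k1 : χ q (f c) ≠ 0) (k2 : χ q (f c') ≠ 0) (hne : c ≠ c') :
    ∃ r, c ∈ Df f (x r) (x (r + 1)) ∧ c' ∈ Df f (x r) (x (r + 1)) := by
  have g := h.gq.geo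
  obtain ⟨r, r0, r1, e⟩ := reduce g s t
  rw [e] at a2 m2
  by_cases h0 : r = 0
  · subst h0
    rw [add_zero] at m2
    exact absurd ((h.geo_edge hy a1).2 c m1 c' m2 q k1 k2) hne
  by_cases h1 : r = 1
  · subst h1; exact ⟨s, h.next hy a1 a2 m1 m2 k1 k2 hne⟩
  by_cases h2 : r = 2
  · subst h2; exact h.next2 hy hq a1 a2 m1 m2 k1 k2 hne
  by_cases h3 : r = 2 * L - 1
  · subst h3
    rw [back g] at a2 m2
    have e1 : s = s - 1 + 1 := by ring
    rw [e1] at a1 m1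
    exact ⟨s - 1, (h.next hy a2 a1 m2 m1 k2 k1 hne.symm).symm⟩
  by_cases h4 : r = 2 * L - 2
  · subst h4
    rw [back g] at a2 m2
    have e1 : s = s - 2 + 2 := by ring
    rw [e1] at a1 m1
    obtain ⟨r, b1, b2⟩ := h.next2 hy hq a2 a1 m2 m1 k2 k1 hne.symm
    exact ⟨r, b2, b1⟩
  exact absurd a2 (g.d2 s r y hy.1 (by omega) (by omega) a1)

theorem Ctx.two_off (h : Ctx a f x L χ) {y z z' : V} (hy : Off a x y) (hz : Off a x z)
    (hz' : Off a x z') {c c' : κ} {q : ρ} (hq : χ q y ≠ 0) (a1 : Adj f y z) (a2 : Adj f y z')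
    (m1 : c ∈ Df f y z) (m2 : c' ∈ Df f y z') (k1 : χ q (f c) ≠ 0) (k2 : χ q (f c') ≠ 0) :
    c = c' := by
  obtain ⟨q1, q2, hq12, hr⟩ := h.row y hy
  obtain ⟨p, hp, hpq, hall⟩ : ∃ p, χ p y ≠ 0 ∧ p ≠ q ∧ ∀ p', χ p' y ≠ 0 → p' = q ∨ p' = p := by
    rcases (hr q).1 hq with rfl | rfl
    · exact ⟨q2, (hr q2).2 (Or.inr rfl), hq12.symm, fun p' hp' => (hr p').1 hp'⟩
    · exact ⟨q1, (hr q1).2 (Or.inl rfl), hq12, fun p' hp' => ((hr p').1 hp').symm⟩
  obtain ⟨w, -, hw⟩ := h.other hy hp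
  have key : ∀ u, Off a x u → Adj f y u → ∀ d ∈ Df f y u, χ q (f d) ≠ 0 → u = w ∨ u = -w := by
    intro u hu au d md kd
    have z1 : χ q u = 0 := by
      rcases (h.off_edge hy hu au).1 d md q kd with h3 | h3
      · exact h3.2
      · exact absurd h3.1 hq
    obtain ⟨q0, h0⟩ := h.lk y u hy hu au
    have b := (h0 q0).2 rfl
    have hp0 : q0 = p := (hall q0 b.1).resolve_left fun hc => b.2 (hc ▸ z1)
    rcases hw u hu (hp0 ▸ b.2) with rfl | rfl | h3
    · exact absurd rfl au.1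
    · exfalso
      have c1 := (h.adj y hy.1 _ hu.1).1 au
      have hsub : (Finset.univ : Finset κ) ⊆ Df f y (-y) := fun l _ =>
        (df_compl h.gq.af hy.1 hy.1 l).resolve_left (by simp [mem_Df])
      have h3 := Finset.card_le_card hsub
      rw [Finset.card_univ, card_eq_card a f] at h3
      have := h.gq.af.eight
      omega
    · exact h3
  have hzz : z = z' := by
    rcases key z hz a1 c m1 k1 with e1 | e1 <;> rcases key z' hz' a2 c' m2 k2 with e2 | e2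
    · rw [e1, e2]
    · exact (h.not_both hy.1 hz.1 a1 (by rw [e1, ← e2]; exact a2)).elim
    · exact (h.not_both hy.1 hz'.1 a2 (by rw [e2, ← e1]; exact a1)).elim
    · rw [e1, e2]
  subst hzz
  exact (h.off_edge hy hz a1).2 c m1 c' m2 q k1 k2

theorem Ctx.three (h : Ctx a f x L χ) {q : ρ} {c1 c2 c3 : κ} (n12 : c1 ≠ c2) (n13 : c1 ≠ c3)
    (n23 : c2 ≠ c3) (l1 : cnt f x L c1 = 1) (l2 : cnt f x L c2 = 1) (l3 : cnt f x L c3 = 1)
    (k1 : χ q (f c1) ≠ 0) (k2 : χ q (f c2) ≠ 0) (k3 : χ q (f c3) ≠ 0) : False := by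
  obtain ⟨y, -, hy, -, hq, -⟩ := h.col q
  have kind : ∀ c, cnt f x L c = 1 → χ q (f c) ≠ 0 →
      (∃ s, Adj f y (x s) ∧ c ∈ Df f y (x s)) ∨ ∃ z, Off a x z ∧ Adj f y z ∧ c ∈ Df f y z := by
    intro c l k
    obtain ⟨z, hz, az, mz⟩ := h.reach hy hq k l
    by_cases hs : ∃ s, z = x s
    · obtain ⟨s, rfl⟩ := hs
      exact Or.inl ⟨s, az, mz⟩
    · exact Or.inr ⟨z, ⟨hz, fun s e => hs ⟨s, e⟩⟩, az, mz⟩
  have gg : ∀ c c' m, c ≠ c' → m ≠ c → m ≠ c' → cnt f x L c = 1 → cnt f x L c' = 1 →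
      χ q (f c) ≠ 0 → χ q (f c') ≠ 0 → χ q (f m) ≠ 0 →
      (∃ s, Adj f y (x s) ∧ c ∈ Df f y (x s)) → (∃ s, Adj f y (x s) ∧ c' ∈ Df f y (x s)) →
      False := by
    rintro c c' m hne n1 n2 l l' k k' km ⟨s, a1, m1⟩ ⟨t, a2, m2⟩
    obtain ⟨r, b1, b2⟩ := h.two_geo hy hq a1 a2 m1 m2 k k' hne
    exact h.pair hne l l' b1 b2 k km n1 n2
  have oo : ∀ c c', c ≠ c' → χ q (f c) ≠ 0 → χ q (f c') ≠ 0 →
      (∃ z, Off a x z ∧ Adj f y z ∧ c ∈ Df f y z) →
      (∃ z, Off a x z ∧ Adj f y z ∧ c' ∈ Df f y z) → False := by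
    rintro c c' hne k k' ⟨z, hz, a1, m1⟩ ⟨z', hz', a2, m2⟩
    exact hne (h.two_off hy hz hz' hq a1 a2 m1 m2 k k')
  rcases kind c1 l1 k1 with t1 | t1 <;> rcases kind c2 l2 k2 with t2 | t2
  · exact gg c1 c2 c3 n12 n13.symm n23.symm l1 l2 k1 k2 k3 t1 t2
  · rcases kind c3 l3 k3 with t3 | t3
    · exact gg c1 c3 c2 n13 n12.symm n23 l1 l3 k1 k3 k2 t1 t3
    · exact oo c2 c3 n23 k2 k3 t2 t3
  · rcases kind c3 l3 k3 with t3 | t3
    · exact gg c2 c3 c1 n23 n12 n13 l2 l3 k2 k3 k1 t2 t3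
    · exact oo c1 c3 n13 k1 k3 t1 t3
  · exact oo c1 c2 n12 k1 k2 t1 t2

theorem Ctx.leaves [Fintype ρ] (h : Ctx a f x L χ) :
    (Finset.univ.filter fun l => cnt f x L l = 1).card ≤ 2 * Fintype.card ρ := by
  classical
  choose cl hcl using h.cls
  rw [← Finset.card_univ (α := ρ)]
  refine Finset.card_le_mul_card_image_of_maps_to (f := cl) (fun _ _ => Finset.mem_univ _) 2
    fun q _ => ?_
  by_contra hc
  obtain ⟨c1, m1, c2, m2, c3, m3, n12, n13, n23⟩ := Finset.two_lt_card.1 (not_le.1 hc)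
  simp only [Finset.mem_filter, Finset.mem_univ, true_and] at m1 m2 m3
  exact h.three (q := q) n12 n13 n23 m1.1 m2.1 m3.1 (m1.2 ▸ hcl c1) (m2.2 ▸ hcl c2)
    (m3.2 ▸ hcl c3)

theorem Ctx.total (h : Ctx a f x L χ) : ∑ l, cnt f x L l = 2 * L := by
  have g := h.gq.geo
  unfold cnt
  simp only [Finset.card_filter]
  rw [Finset.sum_comm]
  have : ∀ s ∈ Finset.range L,
      (∑ l, if l ∈ Df f (x s) (x (s + 1)) then 1 else 0) = 2 := by
    intro s _
    rw [← Finset.card_filter, Finset.filter_mem_eq_inter, Finset.univ_inter]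
    exact (h.adj _ (g.mem _) _ (g.mem _)).1 (g.adj s)
  rw [Finset.sum_congr rfl this, Finset.sum_const, Finset.card_range, smul_eq_mul, mul_comm]

end K2

open K2 in
theorem s_k2 (hA : S_AFB) (hG : S_G1) (hL : S_LIGHT) (hAL : S_AL) : S_K2 := by
  classical
  intro V _ _ ι κ ρ _ _ _ _ _ _ a f x L χ h
  obtain ⟨A1, A2, -, -, A5⟩ := hA a f h.af
  obtain ⟨G1, G2, G3, -, G5, G6, G7, G8⟩ := hG a f x L χ h
  obtain ⟨L1, L2, N, hN⟩ := hL a f x L χ h
  have hcard : Fintype.card {i // Off a x (a i)} = Fintype.card ρ := by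
    rw [← G3, ← Nat.card_eq_fintype_card]
    exact (Set.ncard_def _).symm ▸ (Nat.card_coe_set_eq {i | Off a x (a i)})
  obtain ⟨B1, B2, -, B4⟩ := hAL _ N hN (by omega) fun p => L2 _ p.2
  have idx : ∀ y, Off a x y → ∃ p : {i // Off a x (a i)}, y = a p ∨ y = -a p := by
    intro y hy
    rcases mem_Gm_iff.1 hy.1 with ⟨i, rfl | rfl⟩
    · exact ⟨⟨i, hy⟩, Or.inl rfl⟩
    · exact ⟨⟨i, by simpa using off_neg h.geo hy⟩, Or.inr rfl⟩
  have sg : ∀ {y v : V}, y = v ∨ y = -v → ∀ q, χ q y ≠ 0 ↔ χ q v ≠ 0 := by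
    rintro y v (rfl | rfl) q <;> simp
  have C : Ctx a f x L χ := by
    refine ⟨h, A1, A2, A5, G7, G8, G5, ?_, ?_, ?_⟩
    · intro y hy
      obtain ⟨p, hp⟩ := idx y hy
      obtain ⟨q1, q2, hq, e⟩ := Finset.card_eq_two.1 (B1 p)
      refine ⟨q1, q2, hq, fun q => ?_⟩
      rw [sg hp]
      simpa using Finset.ext_iff.1 e q
    · intro q
      obtain ⟨p, p', hp, e⟩ := Finset.card_eq_two.1 (B2 q)
      have e' : ∀ r : {i // Off a x (a i)}, χ q (a r) ≠ 0 ↔ r = p ∨ r = p' := fun r => by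
        simpa using Finset.ext_iff.1 e r
      have hpp : (p : ι) ≠ p' := fun hc => hp (Subtype.ext hc)
      refine ⟨a p, a p', p.2, p'.2, (e' p).2 (Or.inl rfl), (e' p').2 (Or.inr rfl),
        fun hc => hpp (a.injective hc), fun hc => ?_, fun w hw hw' => ?_⟩
      · have := congrArg (fun z => a.repr z p) hc
        simp [single_ne hpp.symm] at this
      · obtain ⟨r, hr⟩ := idx w hw
        rcases (e' r).1 ((sg hr q).1 hw') with rfl | rfl <;> tauto
    · intro y z hy hz ha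
      obtain ⟨p, hp⟩ := idx y hy
      obtain ⟨p', hp'⟩ := idx z hz
      have w2 : ∀ e ∈ Dset (Tset f), Wt2 fun q => χ q e := fun e he =>
        (card_le_two_iff' _).2 fun q1 q2 q3 h1 h2 h3 => h.cells.D he h1 h2 h3
      have hne : p ≠ p' := by
        rintro rfl
        have hz2 : z = -y := by
          rcases hp with rfl | rfl <;> rcases hp' with rfl | rfl
          · exact absurd rfl ha.1
          · rfl
          · rw [neg_neg]
          · exact absurd rfl ha.1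
        subst hz2
        have c1 := (A1 y hy.1 _ hz.1).1 ha
        have hsub : (Finset.univ : Finset κ) ⊆ Df f y (-y) := fun l _ =>
          (df_compl h.af hy.1 hy.1 l).resolve_left (by simp [mem_Df])
        have h3 := Finset.card_le_card hsub
        rw [Finset.card_univ, card_eq_card a f] at h3
        have := h.af.eight
        omega
      have hlk : Lk (fun (p : {i // Off a x (a i)}) q => χ q (a p)) p p' := by
        refine ⟨hne, ?_⟩
        have d := ha.2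
        rcases hp with rfl | rfl <;> rcases hp' with rfl | rfl
        · left
          have := w2 _ d
          simp only [map_sub] at this
          exact this
        · right
          have := w2 _ d
          simp only [sub_neg_eq_add, map_add] at this
          exact this
        · right
          have := w2 _ (neg_mem_Dset d)
          simp only [neg_sub, sub_neg_eq_add, map_add, add_comm (χ _ (a p'))] at this
          exact this
        · left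
          have := w2 _ (neg_mem_Dset d)
          simp only [neg_sub_neg, neg_sub, map_sub] at this
          exact this
      obtain ⟨q0, e⟩ := Finset.card_eq_one.1 (B4 p p' hlk)
      refine ⟨q0, fun q => ?_⟩
      rw [sg hp, sg hp']
      simpa using Finset.ext_iff.1 e q
  have T := C.total
  have Lf := C.leaves
  have low : ∀ l ∈ (Finset.univ : Finset κ),
      3 ≤ cnt f x L l + 2 * (if cnt f x L l = 1 then 1 else 0) := by
    intro l _
    have : Odd (cnt f x L l) := G6 l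
    obtain ⟨m, hm⟩ := this
    split_ifs <;> omega
  have S := Finset.sum_le_sum low
  rw [Finset.sum_add_distrib, ← Finset.mul_sum, ← Finset.card_filter, T, Finset.sum_const,
    Finset.card_univ, card_eq_card a f, smul_eq_mul] at S
  refine ⟨by omega, fun y hy q hq c hc => C.reach hy hq hc ?_⟩
  have hall : (Finset.univ.filter fun l => cnt f x L l = 1) = Finset.univ := by
    apply Finset.eq_univ_of_card
    have := Finset.card_le_univ (Finset.univ.filter fun l => cnt f x L l = 1)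
    rw [card_eq_card a f] at this ⊢
    omega
  have : c ∈ Finset.univ.filter fun l => cnt f x L l = 1 := by rw [hall]; exact Finset.mem_univ _
  exact (Finset.mem_filter.1 this).2

end Pool.Agent.P.MP_053557_co
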