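import Pool.Agent.P.MP_053557_co.Basic2

/-! The situation where every coordinate is flipped exactly once along the geodesic. -/

namespace Pool.Agent.P.MP_053557_co

open Module Submodule

namespace KcAux

variable {V : Type} [AddCommGroup V] [Module F V] {ι κ ρ : Type}

theorem F_flip {u v : F} (hu : u ≠ 0) (hv : v ≠ 0) (h : u ≠ v) : v = -u := by
  revert u v; decide

theorem F_mx {c d p r u v : F} (hc : c ≠ 0) (hp : p ≠ 0) (hr : r ≠ 0)
    (h : (p - -p) * c + (r - -r) * d = 0) : u * p ≠ v * r ↔ u * c + v * d ≠ 0 := by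
  revert c d p r u v; decide

theorem F_sup {c d p r : F} (hc : c ≠ 0) (hp : p ≠ 0)
    (h : (p - -p) * c + (r - -r) * d = 0) : d ≠ 0 := by
  revert c d p r; decide

theorem full_ne [Fintype ι] [Fintype κ] {a : Basis ι F V} {f : Basis κ F V} (h : Af a f)
    {y : V} (hy : y ∈ Gm a) (l : κ) : f.repr y l ≠ 0 := by
  obtain ⟨i, rfl | rfl⟩ := mem_Gm_iff.1 hy
  · exact h.full i l
  · simpa using h.full i l

theorem card_le_Df [Fintype ι] [Fintype κ] {a : Basis ι F V} {f : Basis κ F V} (h : Af a f)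
    (y : V) {z : V} (hz : z ∈ Gm a) :
    Fintype.card κ ≤ (Df f y z).card + (Df f y (-z)).card := by
  classical
  refine le_trans ?_ (Finset.card_union_le _ _)
  rw [← Finset.card_univ]
  refine Finset.card_le_card fun l _ => ?_
  rw [Finset.mem_union, mem_Df, mem_Df]
  by_contra hc
  push Not at hc
  have h1 := full_ne h hz l
  have h2 : f.repr z l = -f.repr z l := by
    have h3 := hc.2
    rw [hc.1] at h3
    simpa using h3
  revert h1 h2
  generalize f.repr z l = u
  revert u; decide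

theorem off_neg {a : Basis ι F V} {f : Basis κ F V} {x : ℤ → V} {L : ℕ} (h : Geo a f x L)
    {y : V} (hy : Off a x y) : Off a x (-y) :=
  ⟨neg_mem_Gm hy.1, fun s hs => hy.2 (s + L) (by rw [h.anti, ← hs, neg_neg])⟩

theorem off_idx {a : Basis ι F V} {f : Basis κ F V} {x : ℤ → V} {L : ℕ} (h : Geo a f x L)
    {y : V} (hy : Off a x y) : ∃ p : {i // Off a x (a i)}, y = a p ∨ y = -a p := by
  obtain ⟨i, rfl | rfl⟩ := mem_Gm_iff.1 hy.1
  · exact ⟨⟨i, hy⟩, Or.inl rfl⟩
  · exact ⟨⟨i, by simpa using off_neg h hy⟩, Or.inr rfl⟩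

theorem step_per [Fintype κ] {a : Basis ι F V} {f : Basis κ F V} {x : ℤ → V} {L : ℕ}
    (h : Geo a f x L) {s t : ℤ} (hd : (L : ℤ) ∣ s - t) :
    Df f (x s) (x (s + 1)) = Df f (x t) (x (t + 1)) := by
  have hp : Function.Periodic (fun s => Df f (x s) (x (s + 1))) (L : ℤ) := by
    intro s
    have e : s + L + 1 = s + 1 + L := by ring
    simp only [e, h.anti, Df_neg]
  obtain ⟨k, hk⟩ := hd
  have e : s = t + k * L := by linarith
  rw [e]
  exact hp.int_mul k t

/-- Every coordinate is flipped exactly once. -/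
theorem once [Fintype κ] [DecidableEq κ] {L : ℕ} (hL : 0 < L) (D : ℤ → Finset κ)
    (hD : ∀ s, (D s).card = 2) (hper : ∀ s t, (L : ℤ) ∣ s - t → D s = D t)
    (hodd : ∀ l, Odd ((Finset.range L).filter fun s : ℕ => l ∈ D s).card)
    (hc : Fintype.card κ = 2 * L) :
    (∀ l, ∃ s, l ∈ D s) ∧ ∀ l s t, l ∈ D s → l ∈ D t → (L : ℤ) ∣ s - t := by
  have hsum : ∑ l : κ, ((Finset.range L).filter fun s : ℕ => l ∈ D s).card =
      ∑ _l : κ, 1 := by
    simp only [Finset.card_filter]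
    rw [Finset.sum_comm]
    simp only [← Finset.card_filter, Finset.filter_mem_eq_inter, Finset.univ_inter, hD]
    simp [hc, mul_comm]
  have hone := (Finset.sum_eq_sum_iff_of_le (s := Finset.univ) fun l _ => (hodd l).pos).1 hsum.symm
  constructor
  · intro l
    obtain ⟨s, hs⟩ := Finset.card_pos.1 (hodd l).pos
    exact ⟨s, (Finset.mem_filter.1 hs).2⟩
  · intro l s t hs ht
    have hL' : (0 : ℤ) < L := by exact_mod_cast hL
    have key : ∀ s, l ∈ D s → (s % L).toNat ∈ (Finset.range L).filter fun s : ℕ => l ∈ D s := by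
      intro s hs
      have h1 := Int.emod_nonneg s hL'.ne'
      have h2 := Int.emod_lt_of_pos s hL'
      rw [Finset.mem_filter, Finset.mem_range, Int.toNat_of_nonneg h1,
        hper (s % L) s (Int.ModEq.dvd (Int.mod_modEq s L).symm)]
      exact ⟨by omega, hs⟩
    have h3 := Finset.card_le_one.1 (hone l (Finset.mem_univ l)).ge _ (key s hs) _ (key t ht)
    have h4 := Int.emod_nonneg s hL'.ne'
    have h5 := Int.emod_nonneg t hL'.ne'
    exact Int.ModEq.dvd (show t % L = s % L by omega)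

end KcAux

open KcAux

theorem s_kc (hAFB : S_AFB) (hG1 : S_G1) (hLI : S_LIGHT) (hAL : S_AL) (hK2 : S_K2) : S_KC := by
  intro V _ _ ι κ ρ _ _ _ _ _ _ a f x L χ hq
  classical
  obtain ⟨b1, -, -, b4, -⟩ := hAFB a f hq.af
  obtain ⟨-, g2, g3, -, g5, g6, -, -⟩ := hG1 a f x L χ hq
  obtain ⟨l1, l2, N, hN⟩ := hLI a f x L χ hq
  obtain ⟨k1, k2⟩ := hK2 a f x L χ hq
  have geo := hq.geo
  have hC := hq.cells
  have hκ : Fintype.card κ = 2 * L := by rw [card_eq_card a f, k1]
  have hL4 : 4 ≤ L := by omega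
  let D : ℤ → Finset κ := fun s => Df f (x s) (x (s + 1))
  have hD : ∀ s, (D s).card = 2 := fun s => (b1 _ (geo.mem s) _ (geo.mem _)).1 (geo.adj s)
  have hper : ∀ s t, (L : ℤ) ∣ s - t → D s = D t := fun s t h => step_per geo h
  obtain ⟨hcov, huniq⟩ := once geo.pos D hD hper g6 hκ
  have hne : Nonempty κ := Fintype.card_pos_iff.1 (by omega)
  have hpick : ∀ S : Finset κ, ∃ u v : κ, S.card = 2 → u ≠ v ∧ S = {u, v} := by
    intro S
    by_cases hS : S.card = 2
    · obtain ⟨u, v, h1, h2⟩ := Finset.card_eq_two.1 hS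
      exact ⟨u, v, fun _ => ⟨h1, h2⟩⟩
    · exact ⟨hne.some, hne.some, fun h => absurd h hS⟩
  choose fa fb hf using hpick
  let A : ℤ → κ := fun s => fa (D s)
  let B : ℤ → κ := fun s => fb (D s)
  have hAB : ∀ s, A s ≠ B s := fun s => (hf _ (hD s)).1
  have hDe : ∀ s, D s = {A s, B s} := fun s => (hf _ (hD s)).2
  have hmem : ∀ s l, l ∈ D s ↔ l = A s ∨ l = B s := fun s l => by
    rw [hDe s, Finset.mem_insert, Finset.mem_singleton]
  have hA : ∀ s, A s ∈ D s := fun s => (hmem s _).2 (Or.inl rfl)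
  have hB : ∀ s, B s ∈ D s := fun s => (hmem s _).2 (Or.inr rfl)
  have hAe : ∀ s t, (L : ℤ) ∣ s - t → A s = A t := fun s t h => congrArg fa (hper s t h)
  have hBe : ∀ s t, (L : ℤ) ∣ s - t → B s = B t := fun s t h => congrArg fb (hper s t h)
  have hx0 : ∀ s l, f.repr (x s) l ≠ 0 := fun s l => full_ne hq.af (geo.mem s) l
  have hflip : ∀ s l, l ∈ D s → f.repr (x (s + 1)) l = -f.repr (x s) l := fun s l hl =>
    F_flip (hx0 s l) (hx0 _ l) (mem_Df.1 hl)
  have hstay : ∀ s l, l ∉ D s → f.repr (x (s + 1)) l = f.repr (x s) l := fun s l hl =>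
    (not_not.1 fun hc => hl (mem_Df.2 hc)).symm
  -- the functional on a pair kills the geodesic
  have hkill : ∀ s t, f.repr (x t) (A s) * f.repr (x s) (A s) =
      f.repr (x t) (B s) * f.repr (x s) (B s) := by
    intro s
    have hiff : ∀ t, f.repr (x (t + 1)) (A s) * f.repr (x s) (A s) =
        f.repr (x (t + 1)) (B s) * f.repr (x s) (B s) ↔
        f.repr (x t) (A s) * f.repr (x s) (A s) = f.repr (x t) (B s) * f.repr (x s) (B s) := by
      intro t
      by_cases h : (L : ℤ) ∣ s - t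
      · rw [hflip t _ (hper s t h ▸ hA s), hflip t _ (hper s t h ▸ hB s), neg_mul, neg_mul,
          neg_inj]
      · rw [hstay t _ fun hc => h (huniq _ s t (hA s) hc),
          hstay t _ fun hc => h (huniq _ s t (hB s) hc)]
    intro t
    refine Int.inductionOn' (motive := fun t => f.repr (x t) (A s) * f.repr (x s) (A s) =
      f.repr (x t) (B s) * f.repr (x s) (B s)) t s ?_ (fun k _ hk => (hiff k).2 hk)
      fun k _ hk => ?_
    · rw [F_sq (hx0 s _), F_sq (hx0 s _)]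
    · refine (hiff (k - 1)).1 ?_
      rw [sub_add_cancel]
      exact hk
  choose cls hcls using g5
  let Q : ℤ → ρ := fun s => cls (A s)
  have hQA : ∀ s, χ (Q s) (f (A s)) ≠ 0 := fun s => hcls _
  have hxU : ∀ s, x s ∈ span F (Set.range x) := fun s => subset_span ⟨s, rfl⟩
  have hout : ∀ s l, l ∉ D s → χ (Q s) (f l) = 0 := by
    intro s l hl
    by_contra hc
    have h1 := hC.diff (hQA s) hc
    have h2 := map_span_zero
      (f.repr (x s) (A s) • f.coord (A s) - f.repr (x s) (B s) • f.coord (B s))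
      (by
        rintro _ ⟨t, rfl⟩
        have := hkill s t
        simp only [LinearMap.sub_apply, LinearMap.smul_apply, Basis.coord_apply, smul_eq_mul]
        linear_combination this) h1
    have h3 : l ≠ A s := fun h => hl (h ▸ hA s)
    have h4 : l ≠ B s := fun h => hl (h ▸ hB s)
    simp [single_ne h3, single_ne h4, single_ne (hAB s), hx0, hQA] at h2
  have hval : ∀ s y, χ (Q s) y =
      f.repr y (A s) * χ (Q s) (f (A s)) + f.repr y (B s) * χ (Q s) (f (B s)) := by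
    intro s y
    rw [map_eq_sum f, ← Finset.sum_subset (Finset.subset_univ (D s))
      fun l _ hl => by rw [hout s l hl, mul_zero], hDe s, Finset.sum_pair (hAB s)]
  have hrel : ∀ s, (f.repr (x s) (A s) - -f.repr (x s) (A s)) * χ (Q s) (f (A s)) +
      (f.repr (x s) (B s) - -f.repr (x s) (B s)) * χ (Q s) (f (B s)) = 0 := by
    intro s
    have h1 := hC.van (Q s) _ (sub_mem (hxU s) (hxU (s + 1)))
    rw [hval, map_sub, Finsupp.sub_apply, Finsupp.sub_apply, hflip s _ (hA s),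
      hflip s _ (hB s)] at h1
    exact h1
  have hMx : ∀ y s, Mx f x A B y s ↔ χ (Q s) y ≠ 0 := fun y s => by
    rw [hval]
    exact F_mx (hQA s) (hx0 s _) (hx0 s _) (hrel s)
  have hin : ∀ s l, l ∈ D s → χ (Q s) (f l) ≠ 0 := by
    intro s l hl
    rcases (hmem s l).1 hl with rfl | rfl
    · exact hQA s
    · exact F_sup (hQA s) (hx0 s _) (hrel s)
  have hQ : ∀ s t, Q s = Q t ↔ (L : ℤ) ∣ s - t := fun s t =>
    ⟨fun h => huniq (A s) s t (hA s) (by_contra fun hc => hQA s (h ▸ hout t _ hc)),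
      fun h => congrArg cls (hAe s t h)⟩
  have hQs : ∀ q, ∃ s, Q s = q := by
    intro q
    obtain ⟨l, hl⟩ := hC.ne q
    obtain ⟨s, hs⟩ := hcov l
    exact ⟨s, hC.disj l _ _ (hin s l hs) hl⟩
  -- the matrix of the joints off the geodesic
  have hcard : 3 ≤ Fintype.card {i // Off a x (a i)} := by
    have h1 : Fintype.card {i // Off a x (a i)} = {i | Off a x (a i)}.ncard := by
      rw [← Nat.card_eq_fintype_card]
      rfl
    omega
  obtain ⟨a1, a2, a3, a4⟩ := hAL _ N hN hcard fun p => l2 _ p.2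
  have hsg : ∀ {y : V} {i : ι}, (y = a i ∨ y = -a i) → ∀ q, (χ q y ≠ 0 ↔ χ q (a i) ≠ 0) := by
    rintro y i (rfl | rfl) q
    · rfl
    · simp
  have hlk : ∀ {y y' : V} {p p' : {i // Off a x (a i)}}, (y = a p ∨ y = -a p) →
      (y' = a p' ∨ y' = -a p') → Adj f y y' →
      p ≠ p' ∧ ∃ q, ∀ q', (χ q' (a p) ≠ 0 ∧ χ q' (a p') ≠ 0) ↔ q' = q := by
    intro y y' p p' hy hy' hadj
    have hyG : y ∈ Gm a := mem_Gm_iff.2 ⟨p, hy⟩
    have hpp : p ≠ p' := by
      rintro rfl
      have h1 : y' = -y := by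
        rcases hy with h | h <;> rcases hy' with h' | h'
        · exact absurd (h.trans h'.symm) hadj.1
        · rw [h, h']
        · rw [h, h', neg_neg]
        · exact absurd (h.trans h'.symm) hadj.1
      have h2 := card_le_Df hq.af y hyG
      have h3 : Df f y y = ∅ := by
        ext l
        simp [mem_Df]
      rw [h3, ← h1, (b1 _ hyG _ (mem_Gm_iff.2 ⟨p, hy'⟩)).1 hadj] at h2
      simp at h2
      omega
    have hw : ∀ e ∈ Dset (Tset f), Wt2 fun q => χ q e := fun e he =>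
      (card_le_two_iff' _).2 fun _ _ _ h1 h2 h3 => hC.D he h1 h2 h3
    have hl : Lk (fun (p : {i // Off a x (a i)}) q => χ q (a p)) p p' := by
      refine ⟨hpp, ?_⟩
      rcases hy with rfl | rfl <;> rcases hy' with rfl | rfl
      · left
        have e : ((fun q => χ q (a p)) - fun q => χ q (a p')) = fun q => χ q (a p - a p') := by
          funext q; simp
        exact e ▸ hw _ hadj.2
      · right
        have e : ((fun q => χ q (a p)) + fun q => χ q (a p')) = fun q => χ q (a p - -a p') := by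
          funext q; simp
        exact e ▸ hw _ hadj.2
      · right
        have e : ((fun q => χ q (a p)) + fun q => χ q (a p')) =
            fun q => χ q (-(-a p - a p')) := by
          funext q; simp [add_comm]
        exact e ▸ hw _ (neg_mem_Dset hadj.2)
      · left
        have e : ((fun q => χ q (a p)) - fun q => χ q (a p')) =
            fun q => χ q (-(-a p - -a p')) := by
          funext q; simp [sub_eq_add_neg, add_comm]
        exact e ▸ hw _ (neg_mem_Dset hadj.2)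
    obtain ⟨q, hq1⟩ := Finset.card_eq_one.1 (a4 p p' hl)
    refine ⟨hpp, q, fun q' => ?_⟩
    rw [← Finset.mem_singleton, ← hq1, Finset.mem_filter]
    simp
  refine ⟨A, B, hq.af, geo, hL4, k1, hDe, fun s t h => ?_, fun s t => ⟨fun h => ?_, hAe s t⟩,
    fun s t => ⟨fun h => ?_, hBe s t⟩, fun l => ?_, fun y hy => ?_, fun s => ?_,
    fun S hS hS1 hS2 => ?_, fun y y' hy hy' hadj => ?_, fun y hy s hs c hc => ?_,
    fun y hy => ?_⟩
  · exact hAB t ((hAe s t (huniq _ s t (hA s) (h ▸ hB t))).symm.trans h)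
  · exact huniq _ s t (hA s) (h ▸ hA t)
  · exact huniq _ s t (hB s) (h ▸ hB t)
  · obtain ⟨s, hs⟩ := hcov l
    exact ⟨s, (hmem s l).1 hs⟩
  · obtain ⟨p, hp⟩ := off_idx geo hy
    obtain ⟨q1, q2, h12, h⟩ := Finset.card_eq_two.1 (a1 p)
    obtain ⟨s, rfl⟩ := hQs q1
    obtain ⟨t, rfl⟩ := hQs q2
    refine ⟨s, t, fun hd => h12 ((hQ s t).2 hd), fun r => ?_⟩
    rw [hMx, hsg hp, ← hQ, ← hQ, ← Finset.mem_singleton (a := Q t), ← Finset.mem_insert, ← h,
      Finset.mem_filter]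
    simp
  · obtain ⟨p, p', hpp, h⟩ := Finset.card_eq_two.1 (a2 (Q s))
    refine ⟨p, p', fun hc => hpp (Subtype.ext hc), fun m => ?_⟩
    rw [hMx]
    by_cases hm : Off a x (a m)
    · have h1 : (⟨m, hm⟩ : {i // Off a x (a i)}) ∈ ({p, p'} : Finset _) ↔
          χ (Q s) (a m) ≠ 0 := by
        rw [← h, Finset.mem_filter]
        simp
      rw [← h1, Finset.mem_insert, Finset.mem_singleton, Subtype.ext_iff, Subtype.ext_iff]
    · have h1 : ∃ t, a m = x t := by
        by_contra hc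
        push Not at hc
        exact hm ⟨self_mem_Gm a m, hc⟩
      obtain ⟨t, ht⟩ := h1
      refine iff_of_false (not_not.2 (ht ▸ hC.van _ _ (hxU t))) ?_
      rintro (rfl | rfl)
      · exact hm p.2
      · exact hm p'.2
  · obtain ⟨i, hi⟩ := hS1
    obtain ⟨j, hj, hj'⟩ := hS2
    obtain ⟨q, -, p, hp, p', hp', h1, h2⟩ := a3 {p | p.1 ∈ S} (Q 0) ⟨⟨i, hS i hi⟩, hi⟩
      ⟨⟨j, hj'⟩, hj⟩
    obtain ⟨s, rfl⟩ := hQs q
    exact ⟨s, p, hp, p', hp', (hMx _ s).2 h1, (hMx _ s).2 h2⟩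
  · obtain ⟨p, hp⟩ := off_idx geo hy
    obtain ⟨p', hp'⟩ := off_idx geo hy'
    obtain ⟨-, q, h⟩ := hlk hp hp' hadj
    obtain ⟨s, rfl⟩ := hQs q
    have h1 := (h _).2 rfl
    refine ⟨s, ?_, ?_, fun r h2 h3 => ?_⟩
    · rw [hMx, hsg hp]; exact h1.1
    · rw [hMx, hsg hp']; exact h1.2
    · rw [hMx, hsg hp] at h2
      rw [hMx, hsg hp'] at h3
      exact (hQ r s).1 ((h _).1 ⟨h2, h3⟩)
  · exact k2 y hy (Q s) ((hMx y s).1 hs) c (hin s c ((hmem s c).2 hc))
  · by_contra hc
    push Not at hc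
    obtain ⟨p, hp⟩ := off_idx geo hy
    obtain ⟨z1, m1, -, -, -, n1, -⟩ := b4 y hy.1 hne.some
    obtain ⟨c, hc1⟩ := Finset.card_pos.1
      (show 0 < (Df f y z1).card by rw [(b1 _ hy.1 _ m1).1 n1]; norm_num)
    obtain ⟨z2, m2, z3, m3, h23, n2, n3, c2, c3⟩ := b4 y hy.1 c
    have h12 : z1 ≠ z2 := fun h => c2 (h ▸ hc1)
    have h13 : z1 ≠ z3 := fun h => c3 (h ▸ hc1)
    have hoff : ∀ z ∈ Gm a, Adj f y z → Off a x z := fun z hz hn =>
      ⟨hz, fun s hs => hc s (hs ▸ hn)⟩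
    have hidx : ∀ {z z' : V} {u u' : {i // Off a x (a i)}}, (z = a u ∨ z = -a u) →
        (z' = a u' ∨ z' = -a u') → Adj f y z → Adj f y z' → z ≠ z' → u ≠ u' := by
      rintro z z' u u' hz hz' hn hn' hzz rfl
      have h1 : z' = -z := by
        rcases hz with h | h <;> rcases hz' with h' | h'
        · exact absurd (h.trans h'.symm) hzz
        · rw [h, h']
        · rw [h, h', neg_neg]
        · exact absurd (h.trans h'.symm) hzz
      have hzG : z ∈ Gm a := mem_Gm_iff.2 ⟨u, hz⟩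
      have h2 := card_le_Df hq.af y hzG
      rw [← h1, (b1 _ hy.1 _ hzG).1 hn, (b1 _ hy.1 _ (mem_Gm_iff.2 ⟨u, hz'⟩)).1 hn'] at h2
      omega
    obtain ⟨u1, e1⟩ := off_idx geo (hoff _ m1 n1)
    obtain ⟨u2, e2⟩ := off_idx geo (hoff _ m2 n2)
    obtain ⟨u3, e3⟩ := off_idx geo (hoff _ m3 n3)
    obtain ⟨d1, q1, r1⟩ := hlk hp e1 n1
    obtain ⟨d2, q2, r2⟩ := hlk hp e2 n2
    obtain ⟨d3, q3, r3⟩ := hlk hp e3 n3
    have s1 := (r1 _).2 rfl
    have s2 := (r2 _).2 rfl
    have s3 := (r3 _).2 rfl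
    have hcol : ∀ q (u u' : {i // Off a x (a i)}), p ≠ u → p ≠ u' → u ≠ u' → χ q (a p) ≠ 0 →
        χ q (a u) ≠ 0 → χ q (a u') ≠ 0 → False := by
      intro q u u' t1 t2 t3 t4 t5 t6
      rcases (card_le_two_iff' _).1 (a2 q).le p u u' t4 t5 t6 with h | h | h <;> contradiction
    rcases (card_le_two_iff' _).1 (a1 p).le q1 q2 q3 s1.1 s2.1 s3.1 with rfl | rfl | rfl
    · exact hcol _ _ _ d1 d2 (hidx e1 e2 n1 n2 h12) s1.1 s1.2 s2.2
    · exact hcol _ _ _ d1 d3 (hidx e1 e3 n1 n3 h13) s1.1 s1.2 s3.2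
    · exact hcol _ _ _ d2 d3 (hidx e2 e3 n2 n3 h23) s2.1 s2.2 s3.2

end Pool.Agent.P.MP_053557_co
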