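import Pool.Agent.P.MP_053557_co.Basic2

/-!
Vertices of small degree inside the support of a star.
-/

namespace Pool.Agent.P.MP_053557_co

open Module Submodule

namespace Leaf

variable {V : Type} [AddCommGroup V] [Module F V] {ι κ : Type}

theorem star_zero (a : Basis ι F V) (v : ι) :
    ∀ y ∈ Tset a, y ≠ a v → y ≠ -a v → a.coord v y = 0 := by
  rintro y (rfl | ⟨i, rfl | rfl⟩) h1 h2
  · exact map_zero _
  · exact repr_basis_ne a fun h => h1 (by rw [h])
  · rw [map_neg, neg_eq_zero]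
    exact repr_basis_ne a fun h => h2 (by rw [h])

theorem tet_ne {y1 y2 y3 : V} (h : LinearIndependent F ![y1, y2, y3]) (c1 c2 c3 : F)
    (e : c1 • y1 + c2 • y2 + c3 • y3 = 0) : c1 = 0 ∧ c2 = 0 ∧ c3 = 0 := by
  have h1 := Fintype.linearIndependent_iff.1 h ![c1, c2, c3] (by
    simpa [Fin.sum_univ_three] using e)
  exact ⟨h1 0, h1 1, h1 2⟩

variable [Fintype ι] [DecidableEq ι] {a : Basis ι F V} {f : Basis κ F V} {j : κ} {I : Finset ι}

omit [DecidableEq ι] in
theorem cm_at (hCM : S_CM) [Fintype κ] (h : Tc a f) (v : ι) {e : V} (u : V) (he : e ∈ EE a f)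
    (h1 : a.repr e v = 1)
    (h2 : ∀ x ∈ EE a f, a.repr x v = 1 → ∃ y ∈ Tset f, x + u - y ∈ span F {e})
    (h3 : a v ∈ Tset f → a v + u ∈ span F {e}) : Succ (Tset a) (Tset f) :=
  hCM _ _ (a.coord v) (a v) e u (isFrame_basis a) (isFrame_basis f) h.finrank (self_mem_Tset a v)
    (repr_basis_self a v) (star_zero a v) he h1 h2 h3

theorem edge_at (h : Sj a f j I) {v : ι} (hv : v ∈ I) {e : V} (he : e ∈ EE a f)
    (h0 : f.repr e j = 0) (h1 : a.repr e v ≠ 0) :
    ∃ w ∈ nbr a f I v, ∀ l, f.repr e l ≠ 0 ↔ f.repr (a v - a w) l ≠ 0 := by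
  rcases h.cls0 he.1 h0 with h2 | ⟨i, hi, i', hi', hii, rfl⟩
  · exact absurd (h2 v hv) h1
  by_cases h3 : i = v
  · subst h3
    exact ⟨i', mem_nbr.2 ⟨hi', hii.symm, he.2⟩, fun _ => Iff.rfl⟩
  by_cases h4 : i' = v
  · subst h4
    refine ⟨i, mem_nbr.2 ⟨hi, hii, by simpa using neg_mem_Dset he.2⟩, fun l => ?_⟩
    rw [← neg_sub, map_neg, Finsupp.neg_apply, neg_ne_zero]
  · exact absurd (by simp [single_ne h3, single_ne h4]) h1

end Leaf

open Leaf

theorem s_leaf (hCM : S_CM) : S_LEAF := by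
  intro V _ _ ι κ _ _ _ _ a f j I v w h hv hn hc
  obtain ⟨hw, hwv, hd⟩ := mem_nbr.1 (hn ▸ Finset.mem_singleton_self w : w ∈ nbr a f I v)
  have he : a v - a w ∈ EE a f := ⟨sub_mem_Dset (self_mem_Tset a v) (self_mem_Tset a w), hd⟩
  have h1 : a.repr (a v - a w) v = 1 := by simp [single_ne hwv]
  have hj : a v ∈ Tset f → a v = f j := fun hT => by
    have h2 := Tset_eq_smul f hT (i := j) (by rw [h.in_I hv]; exact one_ne_zero)
    rwa [h.in_I hv, one_smul] at h2
  have hsub : ∀ i ∈ I, i ≠ v → a v - a i ∈ Dset (Tset f) → i = w := fun i hi hiv hD =>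
    Finset.mem_singleton.1 (hn ▸ mem_nbr.2 ⟨hi, hiv, hD⟩)
  rcases hc with hc | ⟨hc0, hc⟩
  · refine cm_at hCM h.tc v (-f j) he h1 (fun x hx hx1 => ?_) fun hT => ?_
    · rcases cls_at a I hx.1 hx1 with ⟨t, ht, -, rfl⟩ | ⟨i, hi, hiv, rfl | rfl⟩
      · refine ⟨_, sub_mem_Tset_one f hx.2 (i := j) (by simp [h.in_I hv, h.ot ht]), ?_⟩
        rw [← sub_eq_add_neg, sub_self]
        exact zero_mem _
      · refine ⟨_, neg_mem_Tset (self_mem_Tset f j), ?_⟩
        rw [add_sub_cancel_right, hsub i hi hiv hx.2]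
        exact mem_span_singleton_self _
      · refine ⟨_, self_mem_Tset f j, ?_⟩
        rw [show a v + a i + -f j - f j = -(-(a v + a i) - f j) by
          linear_combination (norm := module) -three (f j)]
        exact neg_mem (hc i hi hiv (neg_mem_Dset hx.2))
    · rw [hj hT, add_neg_cancel]
      exact zero_mem _
  · refine cm_at hCM h.tc v (f j) he h1 (fun x hx hx1 => ?_) fun hT => absurd (hj hT) hc0
    rcases cls_at a I hx.1 hx1 with ⟨t, ht, -, rfl⟩ | ⟨i, hi, hiv, rfl | rfl⟩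
    · refine ⟨_, neg_mem_Tset (self_mem_Tset f j), ?_⟩
      rw [show a v + t + f j - -f j = a v + t - f j by
        linear_combination (norm := module) three (f j)]
      exact hc t ht hx.2
    · refine ⟨_, self_mem_Tset f j, ?_⟩
      rw [add_sub_cancel_right, hsub i hi hiv hx.2]
      exact mem_span_singleton_self _
    · refine ⟨_, neg_mem_Tset (sub_mem_Tset_one f (neg_mem_Dset hx.2) (i := j) ?_), ?_⟩
      · rw [map_neg, map_add, Finsupp.neg_apply, Finsupp.add_apply, h.in_I hv, h.in_I hi]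
        decide
      · rw [show a v + a i + f j - -(-(a v + a i) - f j) = 0 by abel]
        exact zero_mem _

theorem s_triad (hCM : S_CM) (hHUB : S_HUB) : S_TRIAD := by
  intro V _ _ ι κ _ _ _ _ a f j I v w w' c h hv hn hww h3 hDH hc hcv hneg huniq
  obtain ⟨hw, hwv, hd⟩ := mem_nbr.1 (hn ▸ by simp : w ∈ nbr a f I v)
  obtain ⟨hw', hwv', hd'⟩ := mem_nbr.1 (hn ▸ by simp : w' ∈ nbr a f I v)
  let g : Fin 3 → V := ![0, a v - a w, a v - a w']
  have hP : ∀ i, a.repr (g i) w = ![0, -1, 0] i := by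
    intro i
    fin_cases i <;> simp [g, single_ne hwv.symm, single_ne hww.symm]
  have hQ : ∀ i, a.repr (g i) w' = ![0, 0, -1] i := by
    intro i
    fin_cases i <;> simp [g, single_ne hwv'.symm, single_ne hww]
  obtain ⟨u, hu⟩ := hHUB (Tset f) (Set.range g) (isFrame_basis f) (by
    rintro _ ⟨i, rfl⟩ _ ⟨k, rfl⟩
    have h4 := neg_mem_Dset hd
    have h5 := neg_mem_Dset hd'
    have h6 := neg_mem_Dset h3
    rw [neg_sub] at h4 h5 h6
    fin_cases i <;> fin_cases k <;> simp [g, zero_mem_Dset, hd, hd', h3, h4, h5, h6]) (by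
    rintro _ ⟨i, rfl⟩ _ ⟨k, rfl⟩ _ ⟨m, rfl⟩ hik e
    have e1 := congrArg (fun x => a.repr x w) e
    have e2 := congrArg (fun x => a.repr x w') e
    simp only [map_add, Finsupp.add_apply, hP, hQ, map_zero, Finsupp.zero_apply] at e1 e2
    refine absurd (congrArg g ?_) hik
    clear hik e
    revert i k m
    decide) (by
    rintro _ ⟨i, rfl⟩ _ ⟨k, rfl⟩ _ ⟨m, rfl⟩ _ ⟨n, rfl⟩ hik hmn him hin e
    have e1 := congrArg (fun x => a.repr x w) e
    have e2 := congrArg (fun x => a.repr x w') e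
    simp only [map_add, Finsupp.add_apply, hP, hQ] at e1 e2
    have h4 : i = k ∨ m = n ∨ i = m ∨ i = n := by
      clear hik hmn him hin e
      revert i k m n
      decide
    rcases h4 with rfl | rfl | rfl | rfl <;> contradiction) (by
    rintro _ ⟨i, rfl⟩ _ ⟨k, rfl⟩ _ ⟨m, rfl⟩ _ ⟨n, rfl⟩ y1 - y2 - y3 - hy ⟨e1, e2, e3⟩
    have h4 : ∀ i k m n : Fin 3, i = k ∨ i = m ∨ i = n ∨ k = m ∨ k = n ∨ m = n := by decide
    rcases h4 i k m n with rfl | rfl | rfl | rfl | rfl | rfl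
    · exact one_ne_zero (tet_ne hy 1 1 0 (by linear_combination (norm := module) -e1)).1
    · exact one_ne_zero (tet_ne hy 1 0 1 (by linear_combination (norm := module) -e2)).1
    · exact one_ne_zero (tet_ne hy 0 1 1 (by linear_combination (norm := module) -e3)).2.1
    · exact one_ne_zero (tet_ne hy 0 1 (-1) (by linear_combination (norm := module) e2 - e1)).2.1
    · exact one_ne_zero (tet_ne hy 1 0 (-1) (by linear_combination (norm := module) e3 - e1)).1
    · exact one_ne_zero (tet_ne hy 1 (-1) 0 (by linear_combination (norm := module) e3 - e2)).1)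
  refine cm_at hCM h.tc v u (e := a v + a c)
    ⟨add_mem_Dset (self_mem_Tset a v) (self_mem_Tset a c), neg_neg (a v + a c) ▸ neg_mem_Dset hneg⟩
    (by simp [single_ne hcv]) (fun x hx hx1 => ?_) fun hT => ?_
  · rcases cls_at a I hx.1 hx1 with ⟨t, ht, -, rfl⟩ | ⟨i, hi, hiv, rfl | rfl⟩
    · exact absurd hx.2 (hDH t ht)
    · refine ⟨_, hu (a v - a i) ?_, by rw [sub_self]; exact zero_mem _⟩
      have h4 : i ∈ ({w, w'} : Finset ι) := hn ▸ mem_nbr.2 ⟨hi, hiv, hx.2⟩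
      rcases Finset.mem_insert.1 h4 with rfl | h4
      · exact ⟨1, rfl⟩
      · rw [Finset.mem_singleton.1 h4]
        exact ⟨2, rfl⟩
    · refine ⟨_, hu 0 ⟨0, rfl⟩, ?_⟩
      rw [zero_add, add_sub_cancel_right, huniq i hi hiv (neg_mem_Dset hx.2)]
      exact mem_span_singleton_self _
  · exact absurd (by rw [add_zero]; exact Tset_subset_Dset f hT) (hDH 0 (ot_zero a I))

theorem s_c1 (hSC0 : S_SC0) : S_C1 := by
  intro V _ _ ι κ _ _ _ _ a f j I v l0 h hv hj hl0 h0 hn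
  refine (hSC0 (Tset a) (Tset f) f a v (isFrame_basis a) (isFrame_basis f)
    (rr_right _ _) (rr_left _ _) (h.tc.nba v) (h.tc.symm.two_supp v) ⟨j, l0, hl0.symm, hj, h0⟩
    fun e he l1 l2 h12 e1 e2 j1 j2 => ?_).imp fun G hG => ⟨hG.1, hG.2.2.symm, hG.2.1.symm⟩
  by_contra hev
  have out : ∀ {m}, a.repr (f m) v = 0 → m ≠ l1 ∧ m ≠ l2 := fun hm =>
    ⟨fun e => j1 (e ▸ hm), fun e => j2 (e ▸ hm)⟩
  obtain ⟨w1, hw1, hd1⟩ := edge_at h hv he
    (repr_eq_zero_of_Dset f he.2 h12 e1 e2 (out hj).1 (out hj).2) hev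
  obtain ⟨-, hw1v, hD1⟩ := mem_nbr.1 hw1
  rw [hd1] at e1 e2
  refine h.tc.nsep (sepv f {l | a.repr (f l) v ≠ 0} ⟨l1, j1⟩ (j := j) (not_not.2 h0) hl0
    fun x hx l hl hxl m hm => ?_)
  by_contra hc
  obtain ⟨hm1, hm2⟩ := not_or.1 hc
  replace hm1 : a.repr (f m) v = 0 := not_not.1 hm1
  have hx0 : f.repr x j = 0 :=
    repr_eq_zero_of_Dset f hx.2 (fun e : l = m => hl (e ▸ hm1)) hxl hm
      (fun e : j = l => hl (e ▸ hj)) (Ne.symm hm2)
  by_cases hxv : a.repr x v = 0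
  · exact ends_in_supp f (a.coord v) hx.2 hxv hxl hl hm hm1
  obtain ⟨w2, hw2, hd2⟩ := edge_at h hv hx hx0 hxv
  obtain ⟨-, hw2v, hD2⟩ := mem_nbr.1 hw2
  rw [hd2] at hm
  have hm0 := repr_eq_zero_of_Dset f hD1 h12 e1 e2 (out hm1).1 (out hm1).2
  have hne : w1 ≠ w2 := fun e => hm (e ▸ hm0)
  have h3 : a v - a w1 - (a v - a w2) ∈ Dset (Tset f) := by
    rw [sub_sub_sub_cancel_left]
    rcases hn with ⟨w, hn⟩ | ⟨w, w', hn, -, h3⟩
    · rw [hn, Finset.mem_singleton] at hw1 hw2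
      exact absurd (hw1.trans hw2.symm) hne
    · rw [hn, Finset.mem_insert, Finset.mem_singleton] at hw1 hw2
      rcases hw1 with rfl | rfl <;> rcases hw2 with rfl | rfl
      · exact absurd rfl hne
      · exact neg_sub (a w1) (a w2) ▸ neg_mem_Dset h3
      · exact h3
      · exact absurd rfl hne
  have key : ∀ k, a.repr (f k) v ≠ 0 → f.repr (a v - a w1) k ≠ 0 → f.repr (a v - a w2) k ≠ 0 := by
    intro k hk h4 h5
    refine ends_in_supp f (a.coord v) h3 (by simp [single_ne hw1v, single_ne hw2v]) (i := k) ?_ hk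
      (k := m) ?_ hm1
    · rwa [map_sub, Finsupp.sub_apply, h5, sub_zero]
    · rwa [map_sub, Finsupp.sub_apply, hm0, zero_sub, neg_ne_zero]
  exact hm (repr_eq_zero_of_Dset f hD2 h12 (key l1 j1 e1) (key l2 j2 e2) (out hm1).1 (out hm1).2)

end Pool.Agent.P.MP_053557_co
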