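import Pool.Agent.P.MP_053557_co.Stmts2

/-! Lifting frames from the kernel of a common star. -/

namespace Pool.Agent.P.MP_053557_co

open Module Submodule

namespace Lift

variable {V : Type} [AddCommGroup V] [Module F V] {σ : V →ₗ[F] F}

/-- `σ` is the star of the joint `x` of the frame `T`. -/
structure St1 (T : Set V) (σ : V →ₗ[F] F) (x : V) : Prop where
  fr : IsFrame T
  mem : x ∈ T
  one : σ x = 1
  van : ∀ y ∈ T, y ≠ x → y ≠ -x → σ y = 0

variable {T : Set V} {x : V}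

theorem St1.val1 (h : St1 T σ x) {y : V} (hy : y ∈ T) (h1 : σ y = 1) : y = x := by
  by_contra hc
  by_cases h2 : y = -x
  · rw [h2, map_neg, h.one] at h1
    exact F_neg_one_ne_one h1
  · rw [h.van y hy hc h2] at h1
    exact zero_ne_one h1

theorem St1.valm (h : St1 T σ x) {y : V} (hy : y ∈ T) (h1 : σ y = -1) : y = -x := by
  have := h.val1 (h.fr.neg_mem hy) (by rw [map_neg, h1, neg_neg])
  rw [← this, neg_neg]

theorem St1.same (h : St1 T σ x) {y z : V} (hy : y ∈ T) (hz : z ∈ T) (hyz : y ≠ z)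
    (he : σ z = σ y) : σ y = 0 := by
  rcases F_cases (σ y) with h0 | h0 | h0
  · exact h0
  · exact absurd ((h.val1 hy h0).trans (h.val1 hz (he.trans h0)).symm) hyz
  · exact absurd ((h.valm hy h0).trans (h.valm hz (he.trans h0)).symm) hyz

theorem St1.frame (h : St1 T σ x) : IsFrame (Subtype.val ⁻¹' T : Set ↥(LinearMap.ker σ)) := by
  obtain ⟨n, b, rfl⟩ := h.fr
  obtain ⟨i, c, hc, he⟩ := (isStar_iff b).1 ⟨x, h.mem, h.one, h.van⟩
  refine isFrame_comap b _ {i} fun y => ?_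
  simp [he, hc]

theorem St1.edge0 (h : St1 T σ x) {e : ↥(LinearMap.ker σ)} (he : (e : V) ∈ Dset T) :
    e ∈ Dset (Subtype.val ⁻¹' T : Set ↥(LinearMap.ker σ)) := by
  obtain ⟨y, hy, z, hz, hyz⟩ := he
  by_cases h1 : y = z
  · refine ⟨0, h.fr.zero_mem, 0, h.fr.zero_mem, Subtype.ext ?_⟩
    simp [hyz, h1]
  · have h0 : σ y - σ z = 0 := by rw [← map_sub, ← hyz]; exact e.2
    have h2 : σ z = σ y := (sub_eq_zero.1 h0).symm
    have h3 := h.same hy hz h1 h2
    exact ⟨⟨y, h3⟩, hy, ⟨z, h2.trans h3⟩, hz, Subtype.ext hyz⟩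

theorem St1.edge1 (h : St1 T σ x) {e : V} (he : e ∈ Dset T) (h1 : σ e = 1) :
    ∃ y : ↥(LinearMap.ker σ), (y : V) ∈ T ∧ e = x + y := by
  obtain ⟨y, hy, z, hz, rfl⟩ := he
  rw [map_sub] at h1
  have key : ∀ p q : F, p - q = 1 → (p = 1 ∧ q = 0) ∨ (p = 0 ∧ q = -1) ∨ (p = -1 ∧ q = 1) := by
    decide
  rcases key _ _ h1 with ⟨h2, h3⟩ | ⟨h2, h3⟩ | ⟨h2, h3⟩
  · refine ⟨⟨-z, by simp [h3]⟩, h.fr.neg_mem hz, ?_⟩
    rw [h.val1 hy h2, sub_eq_add_neg]
  · refine ⟨⟨y, h2⟩, hy, ?_⟩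
    rw [h.valm hz h3]
    simp [add_comm]
  · refine ⟨0, h.fr.zero_mem, ?_⟩
    rw [h.valm hy h2, h.val1 hz h3]
    simp only [ZeroMemClass.coe_zero, add_zero]
    linear_combination (norm := module) -three x

theorem St1.eq_set (h : St1 T σ x) :
    T = {y | (∃ z ∈ (Subtype.val ⁻¹' T : Set ↥(LinearMap.ker σ)), y = (z : V)) ∨ y = x ∨ y = -x} := by
  ext y
  constructor
  · intro hy
    rcases F_cases (σ y) with h0 | h0 | h0
    · exact Or.inl ⟨⟨y, h0⟩, hy, rfl⟩
    · exact Or.inr (Or.inl (h.val1 hy h0))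
    · exact Or.inr (Or.inr (h.valm hy h0))
  · rintro (⟨z, hz, rfl⟩ | rfl | rfl)
    · exact hz
    · exact h.mem
    · exact h.fr.neg_mem h.mem

/-- Extending a basis of the kernel by a vector of value one. -/
theorem liftB {ι : Type} (g' : Basis ι F ↥(LinearMap.ker σ)) (hx : σ x = 1) :
    ∃ g : Basis (Option ι) F V, (∀ l, g (some l) = g' l) ∧ g.coord none = σ ∧
      (∀ l (y : ↥(LinearMap.ker σ)), g.coord (some l) y = g'.coord l y) ∧
      Tset g = {y | (∃ z ∈ Tset g', y = (z : V)) ∨ y = x ∨ y = -x} := by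
  classical
  let v : Option ι → V := fun o => o.elim x fun l => g' l
  have hsp : span F (Set.range fun l => (g' l : V)) = LinearMap.ker σ := by
    have h1 := Submodule.map_span (LinearMap.ker σ).subtype (Set.range g')
    rw [g'.span_eq, Submodule.map_subtype_top, ← Set.range_comp] at h1
    exact h1.symm
  have hli : LinearIndependent F v := by
    refine linearIndependent_option.2 ⟨?_, ?_⟩
    · exact g'.linearIndependent.map' (LinearMap.ker σ).subtype (Submodule.ker_subtype _)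
    · intro hc
      have h1 : x ∈ LinearMap.ker σ := hsp ▸ hc
      rw [LinearMap.mem_ker, hx] at h1
      exact one_ne_zero h1
  have hs : ⊤ ≤ span F (Set.range v) := by
    intro y _
    have h1 : y - σ y • x ∈ span F (Set.range v) := by
      have h2 : y - σ y • x ∈ span F (Set.range fun l => (g' l : V)) := by
        rw [hsp]; simp [hx]
      refine span_mono ?_ h2
      rintro _ ⟨l, rfl⟩
      exact ⟨some l, rfl⟩
    have h3 : σ y • x ∈ span F (Set.range v) := smul_mem _ _ (subset_span ⟨none, rfl⟩)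
    simpa using add_mem h1 h3
  let g := Basis.mk hli hs
  have g0 : g none = x := Basis.mk_apply hli hs none
  have g1 : ∀ l, g (some l) = g' l := fun l => Basis.mk_apply hli hs (some l)
  refine ⟨g, g1, ?_, fun l y => ?_, ?_⟩
  · refine g.ext ?_
    rintro (_ | l)
    · rw [Basis.coord_apply, repr_basis_self, g0, hx]
    · rw [Basis.coord_apply, repr_basis_ne g (Option.some_ne_none l), g1]
      exact ((g' l).2 : σ _ = 0).symm
  · have h1 : (g.coord (some l)).comp (LinearMap.ker σ).subtype = g'.coord l := by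
      refine g'.ext fun m => ?_
      simp only [LinearMap.comp_apply, Submodule.subtype_apply, Basis.coord_apply, ← g1,
        repr_basis, Option.some.injEq]
    exact LinearMap.congr_fun h1 y
  · ext y
    constructor
    · rintro (rfl | ⟨_ | l, rfl | rfl⟩)
      · exact Or.inl ⟨0, zero_mem_Tset _, rfl⟩
      · exact Or.inr (Or.inl g0)
      · exact Or.inr (Or.inr (by rw [g0]))
      · exact Or.inl ⟨g' l, self_mem_Tset _ l, g1 l⟩
      · exact Or.inl ⟨-g' l, neg_mem_Tset (self_mem_Tset _ l), by rw [g1]; rfl⟩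
    · rintro (⟨z, rfl | ⟨l, rfl | rfl⟩, rfl⟩ | rfl | rfl)
      · exact zero_mem_Tset _
      · exact Or.inr ⟨some l, Or.inl (g1 l).symm⟩
      · exact Or.inr ⟨some l, Or.inr (by rw [g1]; rfl)⟩
      · exact Or.inr ⟨none, Or.inl g0.symm⟩
      · exact Or.inr ⟨none, Or.inr (by rw [g0])⟩

theorem span_lift {ι : Type} (a' : Basis ι F ↥(LinearMap.ker σ)) (a : Basis (Option ι) F V)
    (h1 : ∀ l, a (some l) = a' l)
    (h2 : ∀ l (y : ↥(LinearMap.ker σ)), a.coord (some l) y = a'.coord l y)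
    {S' : Set ι} {S : Set (Option ι)} (hn : none ∈ S) (hS : ∀ l ∈ S', some l ∈ S)
    {φ : V →ₗ[F] F} {χ : ↥(LinearMap.ker σ) →ₗ[F] F} (hχ : χ ∈ span F (a'.coord '' S'))
    (hφ : ∀ y : ↥(LinearMap.ker σ), φ y = χ y) : φ ∈ span F (a.coord '' S) := by
  have key : ∃ ψ ∈ span F (a.coord '' S), ∀ y : ↥(LinearMap.ker σ), ψ y = χ y := by
    clear hφ
    induction hχ using span_induction with
    | mem χ h =>
      obtain ⟨l, hl, rfl⟩ := h
      exact ⟨_, subset_span ⟨some l, hS l hl, rfl⟩, h2 l⟩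
    | zero => exact ⟨0, zero_mem _, fun _ => rfl⟩
    | add χ χ' _ _ ih ih' =>
      obtain ⟨ψ, hψ, e⟩ := ih
      obtain ⟨ψ', hψ', e'⟩ := ih'
      exact ⟨ψ + ψ', add_mem hψ hψ', fun y => by simp [e, e']⟩
    | smul c χ _ ih =>
      obtain ⟨ψ, hψ, e⟩ := ih
      exact ⟨c • ψ, smul_mem _ _ hψ, fun y => by simp [e]⟩
  obtain ⟨ψ, hψ, e⟩ := key
  have h3 : φ - ψ = (φ - ψ) (a none) • a.coord none := by
    refine eq_smul_coord a ?_
    rintro (_ | l) hl
    · exact absurd rfl hl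
    · rw [h1, LinearMap.sub_apply, e, hφ, sub_self]
  have h4 : φ - ψ ∈ span F (a.coord '' S) := by
    rw [h3]
    exact smul_mem _ _ (subset_span ⟨none, hn, rfl⟩)
  simpa using add_mem h4 hψ

variable {A B : Set V} {xA xB : V}

theorem spans (hA : St1 A σ xA) (hB : St1 B σ xB) (hs : Spans (Ed A B)) :
    Spans (Ed (Subtype.val ⁻¹' A : Set ↥(LinearMap.ker σ)) (Subtype.val ⁻¹' B)) := by
  obtain ⟨e0, he0, h0⟩ : ∃ e0 ∈ Ed A B, σ e0 = 1 := by
    by_contra hc
    have h1 : span F (Ed A B) ≤ LinearMap.ker σ := by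
      rw [span_le]
      intro e he
      rcases F_cases (σ e) with h | h | h
      · exact h
      · exact absurd ⟨e, he, h⟩ hc
      · exact absurd ⟨-e, neg_mem_Ed he, by rw [map_neg, h, neg_neg]⟩ hc
    have h2 : σ xA = 0 := h1 (by rw [hs]; trivial)
    rw [hA.one] at h2
    exact one_ne_zero h2
  set W := span F (Ed (Subtype.val ⁻¹' A : Set ↥(LinearMap.ker σ)) (Subtype.val ⁻¹' B)) with hW
  have hone : ∀ e ∈ Ed A B, σ e = 1 → e - e0 ∈ W.map (LinearMap.ker σ).subtype := by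
    intro e he h1
    obtain ⟨y, hy, e1⟩ := hA.edge1 he.1 h1
    obtain ⟨y0, hy0, e2⟩ := hA.edge1 he0.1 h0
    obtain ⟨z, hz, e3⟩ := hB.edge1 he.2 h1
    obtain ⟨z0, hz0, e4⟩ := hB.edge1 he0.2 h0
    have e5 : e - e0 = (y : V) - y0 := by rw [e1, e2]; abel
    have e6 : e - e0 = (z : V) - z0 := by rw [e3, e4]; abel
    refine ⟨y - y0, subset_span ⟨⟨y, hy, y0, hy0, rfl⟩, ⟨z, hz, z0, hz0, Subtype.ext ?_⟩⟩,
      e5.symm⟩
    exact e5.symm.trans e6
  have hall : span F (Ed A B) ≤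
      (W.map (LinearMap.ker σ).subtype).comap (LinearMap.id - σ.smulRight e0) := by
    rw [span_le]
    intro e he
    show e - σ e • e0 ∈ W.map (LinearMap.ker σ).subtype
    rcases F_cases (σ e) with h | h | h
    · rw [h, zero_smul, sub_zero]
      exact ⟨⟨e, h⟩, subset_span ⟨hA.edge0 he.1, hB.edge0 he.2⟩, rfl⟩
    · rw [h, one_smul]
      exact hone e he h
    · have := neg_mem (hone (-e) (neg_mem_Ed he) (by rw [map_neg, h, neg_neg]))
      rw [h]
      have e1 : e - (-1 : F) • e0 = -(-e - e0) := by simp [add_comm]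
      rw [e1]
      exact this
  refine eq_top_iff.2 fun y _ => ?_
  have h1 : (y : V) - σ y • e0 ∈ W.map (LinearMap.ker σ).subtype := hall (by rw [hs]; trivial)
  rw [show σ y = 0 from y.2, zero_smul, sub_zero] at h1
  obtain ⟨z, hz, e⟩ := h1
  rwa [← Subtype.ext e]

theorem ok_lift (rc : S_RC) (hA : St1 A σ xA) (hB : St1 B σ xB)
    {G' : Set ↥(LinearMap.ker σ)} (hG : Ok (Subtype.val ⁻¹' A) (Subtype.val ⁻¹' B) G')
    {G : Set V} (hl : Lf A B σ xA xB G' G) : Ok A B G := by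
  obtain ⟨u', hu0, hu, rfl⟩ := hl
  obtain ⟨⟨n, g', rfl⟩, hR⟩ := hG
  have hx : σ (xA - u') = 1 := by rw [map_sub, hA.one, show σ u' = 0 from u'.2, sub_zero]
  obtain ⟨g, g1, g2, -, g4⟩ := liftB g' hx
  rw [← g4]
  have hin : ∀ z ∈ Tset g', (z : V) ∈ Tset g := fun z hz => by
    rw [g4]; exact Or.inl ⟨z, hz, rfl⟩
  have hxin : xA - u' ∈ Tset g := by rw [g4]; exact Or.inr (Or.inl rfl)
  have hone : ∀ e ∈ Ed A B, σ e = 1 → e ∈ Dset (Tset g) := by
    intro e he h1
    obtain ⟨y, hy, e1⟩ := hA.edge1 he.1 h1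
    obtain ⟨z, hz, e3⟩ := hB.edge1 he.2 h1
    have e4 : (y : V) + (xA - xB) = z := by
      linear_combination (norm := module) e3 - e1
    have h2 := hin _ (hu y hy (by rw [e4]; exact hz))
    have h3 := add_mem_Dset hxin h2
    rw [e1]
    have e5 : xA + (y : V) = xA - u' + ((y + u' : ↥(LinearMap.ker σ)) : V) := by
      rw [Submodule.coe_add]; abel
    rw [e5]
    exact h3
  have hjoint : ∀ y ∈ A ∩ B, σ y = 1 → y ∈ Tset g := by
    intro y hy h1
    have e1 := hA.val1 hy.1 h1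
    have e2 := hB.val1 hy.2 h1
    rw [hu0 (e1.symm.trans e2)] at hxin
    rw [e1]
    simpa using hxin
  refine ⟨isFrame_basis g, rc A B g (Set.range some) hA.fr hB.fr ?_ ?_ ?_ (Or.inr (Or.inr ?_))⟩
  · intro e he
    rcases F_cases (σ e) with h | h | h
    · obtain ⟨y, hy, z, hz, e1⟩ := hR.ed_subset (a := ⟨e, h⟩) ⟨hA.edge0 he.1, hB.edge0 he.2⟩
      exact ⟨y, hin y hy, z, hin z hz, congrArg Subtype.val e1⟩
    · exact hone e he h
    · simpa using neg_mem_Dset (hone (-e) (neg_mem_Ed he) (by rw [map_neg, h, neg_neg]))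
  · intro y hy
    rcases F_cases (σ y) with h | h | h
    · exact hin _ (hR.inter_subset (a := ⟨y, h⟩) hy)
    · exact hjoint y hy h
    · exact neg_mem_Tset_iff.1 (hjoint (-y) ⟨hA.fr.neg_mem hy.1, hB.fr.neg_mem hy.2⟩
        (by rw [map_neg, h, neg_neg]))
  · rintro (_ | m) hm
    · exact ⟨A, hA.fr, rr_left A B, g2 ▸ ⟨xA, hA.mem, hA.one, hA.van⟩⟩
    · exact absurd ⟨m, rfl⟩ hm
  · intro u x0 h0 x1 h1 x2 h2 x3 h3 k0 k1 k2 k3 n01 _ _ _ _ _ s1 s2 s3
    have hle : span F (g '' Set.range some) ≤ LinearMap.ker σ := by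
      rw [span_le]
      rintro _ ⟨_, ⟨l, rfl⟩, rfl⟩
      rw [g1]
      exact (g' l).2
    have hv : ∀ y, y - x0 ∈ span F (g '' Set.range some) → σ y = σ x0 := fun y hy => by
      have : σ (y - x0) = 0 := hle hy
      rwa [map_sub, sub_eq_zero] at this
    have z0 : σ x0 = 0 := hA.same h0 h1 n01 (hv _ s1)
    have zu : σ (x0 + u) = 0 := hB.same k0 k1 (fun hc => n01 (add_right_cancel hc))
      (by rw [map_add, map_add, hv _ s1])
    rw [map_add, z0, zero_add] at zu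
    obtain ⟨v, -, hv'⟩ := hR ⟨u, zu⟩
    exact ⟨v, hin _ (hv' ⟨x0, z0⟩ h0 k0), hin _ (hv' ⟨x1, (hv _ s1).trans z0⟩ h1 k1),
      hin _ (hv' ⟨x2, (hv _ s2).trans z0⟩ h2 k2), hin _ (hv' ⟨x3, (hv _ s3).trans z0⟩ h3 k3)⟩

theorem tm_lift (hA : σ xA = 1) {G' H' : Set ↥(LinearMap.ker σ)} {G H : Set V} (h : TM G' H')
    (hG : Lf A B σ xA xB G' G) (hH : Lf A B σ xA xB H' H) : TM G H := by
  obtain ⟨ι, i1, i2, a', b', C, r, rfl, rfl, htm⟩ := h
  obtain ⟨u, -, -, rfl⟩ := hG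
  obtain ⟨w, -, -, rfl⟩ := hH
  have hu : σ (xA - u) = 1 := by rw [map_sub, hA, show σ u = 0 from u.2, sub_zero]
  have hw : σ (xA - w) = 1 := by rw [map_sub, hA, show σ w = 0 from w.2, sub_zero]
  obtain ⟨a, a1, a2, a3, a4⟩ := liftB a' hu
  obtain ⟨b, -, b2, b3, b4⟩ := liftB b' hw
  refine ⟨Option ι, inferInstance, inferInstance, a, b, some '' C,
    fun o => o.elim 0 fun p => r p + 1, a4.symm, b4.symm, ?_, ?_⟩
  · rintro (_ | p) hp
    · rw [a2, b2, sub_self]
      exact zero_mem _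
    · have hp' : p ∉ C := fun hc => hp ⟨p, hc, rfl⟩
      refine span_lift a' a a1 a3 ?_ ?_ (htm.tri p hp') fun y => ?_
      · exact ⟨by simp, by simp⟩
      · rintro l ⟨h1, h2⟩
        exact ⟨by simpa using h1, by simpa using h2⟩
      · rw [LinearMap.sub_apply, LinearMap.sub_apply, a3, b3]
  · rcases htm.core with rfl | ⟨k, Z, x, hZ, hx, hc⟩
    · exact Or.inl (Set.image_empty _)
    · refine Or.inr ⟨k, Z, x.trans Function.Embedding.some, hZ, ?_, fun l => ?_⟩
      · rw [← hx, ← Set.range_comp]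
        rfl
      · refine span_lift a' a a1 a3 (S' := Cᶜ) (by simp) (fun l hl => by simpa using hl)
          (hc l) fun y => ?_
        simp only [LinearMap.sub_apply, LinearMap.sum_apply, LinearMap.smul_apply,
          Function.Embedding.trans_apply, Function.Embedding.some_apply, a3, b3]

end Lift

open Lift

theorem s_lift (rc : S_RC) : S_LIFT := by
  intro V _ _ A B σ xA xB fA fB mA oA vA mB oB vB
  have hA : St1 A σ xA := ⟨fA, mA, oA, vA⟩
  have hB : St1 B σ xB := ⟨fB, mB, oB, vB⟩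
  have hu : xA - xB ∈ LinearMap.ker σ := by rw [LinearMap.mem_ker, map_sub, oA, oB, sub_self]
  refine ⟨hA.frame, hB.frame, ?_, spans hA hB, ?_, ?_, fun G' hG => ⟨?_, fun G hl =>
    ok_lift rc hA hB hG hl⟩, fun G' H' G H h hG hH => tm_lift oA h hG hH⟩
  · obtain ⟨n, g', -⟩ := hA.frame
    obtain ⟨g, -⟩ := liftB g' oA
    rw [finrank_eq_card_basis g', finrank_eq_card_basis g, Fintype.card_option]
  · refine ⟨0, fun _ => rfl, fun y hy _ => by simpa using hy, ?_⟩
    simpa only [ZeroMemClass.coe_zero, sub_zero] using hA.eq_set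
  · refine ⟨⟨xA - xB, hu⟩, fun h => Subtype.ext (sub_eq_zero.2 h), fun y _ hy => hy, ?_⟩
    simpa only [sub_sub_cancel] using hB.eq_set
  · obtain ⟨u', h0, h1⟩ := hG.2 ⟨xA - xB, hu⟩
    exact ⟨_, u', fun h => h0 (Subtype.ext (sub_eq_zero.2 h)), fun y hy hy' => h1 y hy hy', rfl⟩

end Pool.Agent.P.MP_053557_co
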