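import Pool.Agent.P.MP_053557_co.Basic2

/-! Assembly of the connectivity theorem from the intermediate statements. -/

namespace Pool.Agent.P.MP_053557_co

open Module Submodule

theorem s_af8 (hGEO : S_GEO) (hKC : S_KC) (hT2 : S_T2) (hPET : S_PET) (hCUBE : S_CUBE)
    (hRNG : S_RNG) : S_AF8 := by
  intro V _ _ ι κ _ _ _ _ a f h
  obtain ⟨x, L, r, χ, hq⟩ := hGEO a f h
  obtain ⟨A, B, hk⟩ := hKC a f x L χ hq
  by_cases h1 : ∃ y t, Ty1 a f x y t
  · obtain ⟨y, t, hy⟩ := h1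
    by_cases h4 : L = 4
    · subst h4; exact hCUBE a f x A B y t hk hy
    · exact hPET a f x L A B y t hk h4 hy
  refine hRNG a f x L A B hk fun y hy => ?_
  obtain ⟨s, hs⟩ := hk.cyc y hy
  by_cases hm : Adj f y (x (s - 1)) <;> by_cases hp : Adj f y (x (s + 1))
  · exact ⟨s, hm, hs, hp⟩
  · by_cases hmm : Adj f y (x (s - 1 - 1))
    · exact ⟨s - 1, hmm, hm, by simpa using hs⟩
    · exact absurd (hT2 a f x L A B y (s - 1) hk hy hm (by simpa using hs) hmm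
        (by rwa [show s - 1 + 2 = s + 1 by ring])) h1
  · by_cases hpp : Adj f y (x (s + 2))
    · exact ⟨s + 1, by simpa using hs, hp, by rwa [show s + 1 + 1 = s + 2 by ring]⟩
    · exact absurd (hT2 a f x L A B y s hk hy hs hp hm hpp) h1
  · exact absurd ⟨y, s, hy, hs, hm, hp⟩ h1

section

variable {V : Type} [AddCommGroup V] [Module F V] {ι κ : Type} [Fintype ι] [DecidableEq ι]
  [Fintype κ] [DecidableEq κ]

theorem st_conn (hF1 : S_F1) (hTREE : S_TREE) (hTRI : S_TRI) (hTWO : S_TWO) (hR2a : S_R2a)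
    (hR2b : S_R2b) (hQUAD : S_QUAD) (a : Basis ι F V) (f : Basis κ F V) (j : κ) (I : Finset ι)
    (h : St a f j I) (ih : ∀ m, m < Fintype.card ι → MainAt m) :
    SConn (Tset a) (Tset f) (Tset a) (Tset f) := by
  have h2 := h.sj.two_le
  rcases h2.eq_or_lt with h3 | h3
  · obtain ⟨i1, i2, hne, rfl⟩ := Finset.card_eq_two.1 h3.symm
    rcases hTWO a f j i1 i2 hne h.sj with h4 | ⟨f', y, s0, fw, hT, hq⟩
    · exact absurd h4 h.nsucc
    have hns : ¬ Succ (Tset a) (Tset f') := hT ▸ h.nsucc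
    rw [← hT]
    by_cases h5 : s0 = fw ∨ s0 = -fw
    · exact absurd (hR2a a f' j i1 i2 y s0 fw hq h5) hns
    push Not at h5
    by_cases h6 : ∃ l, l ≠ j ∧ l ≠ y ∧ a.repr (f' l) i1 ≠ 0
    · exact absurd (hR2b a f' j i1 i2 y s0 fw hq h5.1 h5.2 h6) hns
    refine hQUAD a f' j i1 i2 y s0 fw hq h5.1 h5.2 (fun l hl h7 => ?_) ih
    by_contra h8
    exact h6 ⟨l, hl, h8, h7⟩
  · rcases hF1 a f j I h with h4 | ⟨t1, t2, t3, h5, h6, h7, h8, h9, h10⟩
    · exact absurd (hTREE a f j I h.sj h3 h4) h.nsucc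
    · exact absurd (hTRI a f j I t1 t2 t3 h.sj h5 h6 h7 h8 h9 h10) h.nsucc

theorem Tc.congr {a a' : Basis ι F V} {f : Basis κ F V} (h : Tc a f) (ε : ι → F)
    (hε : ∀ i, ε i ≠ 0) (h2 : ∀ x i, a'.repr x i = ε i * a.repr x i) (hT : Tset a' = Tset a) :
    Tc a' f := by
  have hE : EE a' f = EE a f := by rw [EE, hT]
  refine ⟨h.four, hE ▸ h.spans, hE ▸ h.nsep, fun i => ?_, hE ▸ h.nbf, hT ▸ h.nsh⟩
  have : a'.coord i = ε i • a.coord i := by ext x; simp [h2]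
  rw [hE, this]; exact (h.nba i).smul (hε i)

theorem notfull_conn (hF1 : S_F1) (hTREE : S_TREE) (hTRI : S_TRI) (hTWO : S_TWO)
    (hR2a : S_R2a) (hR2b : S_R2b) (hQUAD : S_QUAD) (a : Basis ι F V) (f : Basis κ F V)
    (h : Tc a f) (h0 : ∃ i l, f.repr (a i) l = 0) (ih : ∀ m, m < Fintype.card ι → MainAt m) :
    SConn (Tset a) (Tset f) (Tset a) (Tset f) := by
  by_cases hs : Succ (Tset a) (Tset f)
  · exact hs.sconn (isFrame_basis a) (isFrame_basis f)
  obtain ⟨i0, l0, h0⟩ := h0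
  let S : κ → Finset ι := fun l => Finset.univ.filter fun i => f.repr (a i) l ≠ 0
  obtain ⟨j, -, hj⟩ := Finset.exists_min_image Finset.univ (fun l => (S l).card)
    ⟨l0, Finset.mem_univ _⟩
  let ε : ι → F := fun i => if f.repr (a i) j = 0 then 1 else f.repr (a i) j
  have hε : ∀ i, ε i ≠ 0 := fun i => by
    by_cases h1 : f.repr (a i) j = 0 <;> simp [ε, h1]
  obtain ⟨a', h1, h2, hT⟩ := resign a ε hε
  have hne : ∀ i l, f.repr (a' i) l ≠ 0 ↔ f.repr (a i) l ≠ 0 := fun i l => by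
    simp [h1, hε i]
  have hmem : ∀ i l, i ∈ S l ↔ f.repr (a i) l ≠ 0 := fun i l => by simp [S]
  rw [← hT]
  refine st_conn hF1 hTREE hTRI hTWO hR2a hR2b hQUAD a' f j (S j)
    ⟨⟨h.congr ε hε h2 hT, fun i => ?_⟩, fun l hl i hi => ?_, ?_, hT ▸ hs⟩ ih
  · by_cases h3 : f.repr (a i) j = 0
    · simp [h1, hmem, h3]
    · simp [h1, hmem, h3, ε, F_sq h3]
  · have hsub : S l ⊆ S j := fun k hk => hl k ((hne k l).2 ((hmem k l).1 hk))
    have := Finset.eq_of_subset_of_card_le hsub (hj l (Finset.mem_univ _))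
    exact (hne i l).2 ((hmem i l).1 (this ▸ hi))
  · by_contra hc
    push Not at hc
    have h3 : S j = Finset.univ := Finset.eq_univ_of_forall hc
    have h4 := hj l0 (Finset.mem_univ _)
    have h5 : S l0 = Finset.univ := Finset.eq_univ_of_card _
      (le_antisymm (Finset.card_le_univ _) (by simpa [h3] using h4))
    exact (hmem i0 l0).1 (h5 ▸ Finset.mem_univ _) h0

theorem full_conn (hAFP : S_AFP) (hNC : S_NC) (hH4 : S_H4) (hK6 : S_K6) (hAF8 : S_AF8)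
    (a : Basis ι F V) (f : Basis κ F V) (h : Tc a f) (h1 : ∀ i l, f.repr (a i) l ≠ 0)
    (h2 : ∀ i l, a.repr (f l) i ≠ 0) : SConn (Tset a) (Tset f) (Tset a) (Tset f) := by
  have hA := isFrame_basis a
  have hB := isFrame_basis f
  obtain ⟨hev, hpar, hconn⟩ := hAFP a f h h1 h2
  obtain ⟨-, hpar', -⟩ := hAFP f a h.symm (fun l i => h2 i l) fun l i => h1 i l
  have h4 := h.four
  by_cases c4 : Fintype.card ι = 4
  · exact sconn_link (ok_left hA _) (ok_right _ hB) (Or.inr (Or.inl (hH4 a f c4 h1 h2 hpar)))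
  by_cases c6 : Fintype.card ι = 6
  · exact sconn_link (ok_left hA _) (ok_right _ hB) (Or.inr (Or.inl (hK6 a f c6 h1 h2 hpar)))
  have h8 : 8 ≤ Fintype.card ι := by obtain ⟨m, hm⟩ := hev; omega
  rcases hNC a f h4 h.spans h1 hpar with n1 | n1
  swap
  · exact n1.sconn hA hB
  rcases hNC f a h.symm.four h.symm.spans (fun l i => h2 i l) hpar' with n2 | n2
  swap
  · exact n2.symm.sconn hA hB
  exact (hAF8 a f ⟨h8, h.spans, h1, h2, hpar, hconn, n1, n2⟩).sconn hA hB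

/-- The number of balancing vertices. -/
noncomputable def nbad (a : Basis ι F V) (f : Basis κ F V) : ℕ := {l | ¬ NB (EE a f) (f.coord l)}.ncard

theorem bal_step (hBAL : S_BAL) (a : Basis ι F V) (f : Basis κ F V) (h4 : 4 ≤ Fintype.card ι)
    (hsp : Spans (EE a f)) (h1 : ¬ Sep (EE a f) 1) (j : κ) (hj : ¬ NB (EE a f) (f.coord j)) :
    ∃ g : Basis κ F V, Rr (Tset a) (Tset f) (Tset g) ∧ Share (Tset g) (Tset f) ∧
      nbad a g < nbad a f ∧ nbad g a ≤ nbad f a := by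
  obtain ⟨g, hr, hg, hn⟩ := hBAL (Tset a) f j (isFrame_basis a) hsp h1 hj
  have hsub : EE a f ⊆ EE a g := (rr_left _ _).ed_mono hr
  refine ⟨g, hr, ?_, ?_, ?_⟩
  · obtain ⟨l, hl⟩ := Fintype.exists_ne_of_one_lt_card (α := κ)
      (by rw [card_eq_card a f]; omega) j
    exact ⟨f.coord l, hg l hl ▸ isStar_coord g l, isStar_coord f l⟩
  · refine Set.ncard_lt_ncard ⟨fun l hl hc => ?_, fun hc => hc hj (hn.mono hsub)⟩
    by_cases h2 : l = j
    · exact hl (h2 ▸ hn.mono hsub)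
    · exact hl (hg l h2 ▸ hc.mono hsub)
  · refine Set.ncard_le_ncard fun i hi hc => hi (hc.mono ?_)
    rw [EE, EE, Ed_comm, Ed_comm (Tset g)]; exact hsub

theorem main_aux (hDISC : S_DISC) (hTWOSEP : S_TWOSEP) (hBAL : S_BAL) (hF1 : S_F1)
    (hTREE : S_TREE) (hTRI : S_TRI) (hTWO : S_TWO) (hR2a : S_R2a) (hR2b : S_R2b)
    (hQUAD : S_QUAD) (hAFP : S_AFP) (hNC : S_NC) (hH4 : S_H4) (hK6 : S_K6) (hAF8 : S_AF8)
    (h4 : 4 ≤ Fintype.card ι) (ih : ∀ m, m < Fintype.card ι → MainAt m) (N : ℕ) :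
    ∀ a f : Basis ι F V, nbad a f + nbad f a = N → Spans (EE a f) →
      SConn (Tset a) (Tset f) (Tset a) (Tset f) := by
  induction N using Nat.strong_induction_on with
  | _ N ih2 =>
  intro a f hN hsp
  have hA := isFrame_basis a
  have hB := isFrame_basis f
  have hfr : 4 ≤ finrank F V := by rwa [finrank_eq_card_basis a]
  by_cases h0 : Sep (EE a f) 0
  · exact hDISC _ _ hA hB hfr hsp h0
  by_cases h1 : Sep (EE a f) 1
  · exact hTWOSEP _ _ hA hB hfr hsp h0 h1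
  by_cases hb : ∃ j, ¬ NB (EE a f) (f.coord j)
  · obtain ⟨j, hj⟩ := hb
    obtain ⟨g, hr, hs, h2, h3⟩ := bal_step hBAL a f h4 hsp h1 j hj
    exact ((ih2 _ (by omega) a g rfl (hsp.mono ((rr_left _ _).ed_mono hr))).of_rr
      (rr_left _ _) hr).trans' (sconn_share ⟨isFrame_basis g, hr⟩ (ok_right _ hB) hs)
  have hE : EE f a = EE a f := Ed_comm _ _
  by_cases hb' : ∃ i, ¬ NB (EE f a) (a.coord i)
  · obtain ⟨i, hi⟩ := hb'
    obtain ⟨g, hr, hs, h2, h3⟩ := bal_step hBAL f a h4 (hE ▸ hsp) (hE ▸ h1) i hi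
    exact (sconn_share (ok_left hA _) ⟨isFrame_basis g, hr.symm⟩ hs.symm).trans'
      ((ih2 _ (by omega) g f rfl (hsp.mono (hr.symm.ed_mono (rr_right _ _)))).of_rr
        hr.symm (rr_right _ _))
  push Not at hb hb'
  by_cases hsh : Share (Tset a) (Tset f)
  · exact sconn_share (ok_left hA _) (ok_right _ hB) hsh
  have htc : Tc a f := ⟨h4, hsp, h1, hE ▸ hb', hb, hsh⟩
  by_cases z1 : ∃ i l, f.repr (a i) l = 0
  · exact notfull_conn hF1 hTREE hTRI hTWO hR2a hR2b hQUAD a f htc z1 ih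
  by_cases z2 : ∃ l i, a.repr (f l) i = 0
  · exact (notfull_conn hF1 hTREE hTRI hTWO hR2a hR2b hQUAD f a htc.symm z2 ih).swap.symm
  push Not at z1 z2
  exact full_conn hAFP hNC hH4 hK6 hAF8 a f htc z1 fun i l => z2 l i

end

theorem s_main (hDISC : S_DISC) (hTWOSEP : S_TWOSEP) (hBAL : S_BAL) (hF1 : S_F1)
    (hTREE : S_TREE) (hTRI : S_TRI) (hTWO : S_TWO) (hR2a : S_R2a) (hR2b : S_R2b)
    (hQUAD : S_QUAD) (hAFP : S_AFP) (hNC : S_NC) (hH4 : S_H4) (hK6 : S_K6) (hAF8 : S_AF8) :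
    S_MAIN := by
  intro n
  induction n using Nat.strong_induction_on with
  | _ n ih =>
  intro V _ _ A B hA hB hn h4 hsp
  obtain ⟨a, rfl⟩ := hA.exists_basis
  obtain ⟨f, rfl⟩ := hB.exists_basis
  exact main_aux hDISC hTWOSEP hBAL hF1 hTREE hTRI hTWO hR2a hR2b hQUAD hAFP hNC hH4 hK6 hAF8
    (by simpa [hn] using h4) (by simpa [hn] using ih) _ a f rfl hsp

end Pool.Agent.P.MP_053557_co
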