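import Pool.Agent.P.MP_053557_co.Basic2

/-! Normal forms of a frame at a two-separation. -/

namespace Pool.Agent.P.MP_053557_co

open Module Submodule

namespace Nf

variable {V : Type} [AddCommGroup V] [Module F V] {ι ρ : Type}

theorem mem_of_smul {W : Submodule F V} {c : F} (hc : c ≠ 0) {x : V} (h : c • x ∈ W) :
    x ∈ W := by
  have := W.smul_mem c h
  rwa [smul_smul, F_sq hc, one_smul] at this

theorem mem_of_supp [Fintype ι] (h : Basis ι F V) {W : Submodule F V} {w : V}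
    (hw : ∀ m, h.repr w m ≠ 0 → h m ∈ W) : w ∈ W := by
  rw [← h.sum_repr w]
  refine W.sum_mem fun m _ => ?_
  by_cases h0 : h.repr w m = 0
  · rw [h0, zero_smul]
    exact W.zero_mem
  · exact W.smul_mem _ (hw m h0)

theorem p_mem {A B : Set V} {V1 V2 : Submodule F V} {p : V} (h : Ts A B V1 V2 p) :
    p ∈ V1 ∧ p ∈ V2 := by
  have : p ∈ V1 ⊓ V2 := by
    rw [h.inf]
    exact mem_span_singleton_self p
  exact this

theorem eq_smul_p {V1 V2 : Submodule F V} {p : V} (h : V1 ⊓ V2 = span F {p}) {w : V}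
    (h1 : w ∈ V1) (h2 : w ∈ V2) : ∃ c : F, c • p = w := by
  have : w ∈ V1 ⊓ V2 := ⟨h1, h2⟩
  rw [h] at this
  exact mem_span_singleton.1 this

theorem dsp {A B T : Set V} {W : Submodule F V} (hr : Rr A B T)
    (h : W ≤ span F (Ed A B ∩ (W : Set V))) : DSp T W :=
  h.trans (span_mono fun _ he => ⟨hr.ed_subset he.1, he.2⟩)

theorem tch_or {h : Basis ι F V} {V1 V2 : Submodule F V} (hs : V1 ⊔ V2 = ⊤) (l : ι) :
    Tch h V1 l ∨ Tch h V2 l := by
  have : h l ∈ V1 ⊔ V2 := hs ▸ mem_top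
  obtain ⟨w1, h1, w2, h2, he⟩ := mem_sup.1 this
  by_cases h0 : h.repr w1 l = 0
  · refine Or.inr ⟨w2, h2, fun h' => ?_⟩
    have := repr_basis_self h l
    rw [← he, map_add, Finsupp.add_apply, h0, h', add_zero] at this
    exact zero_ne_one this
  · exact Or.inl ⟨w1, h1, h0⟩

theorem mem_of_nobig {h : Basis ι F V} {W : Submodule F V} {χ : ρ → V →ₗ[F] F}
    (hc : Cells h W χ) (hb : ∀ q, ¬ Big h W χ q) {l : ι} (hl : Tch h W l) : h l ∈ W :=
  hc.ker _ fun q => by_contra fun h0 => hb q ⟨l, h0, hl⟩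

theorem lb_case [Fintype ι] [DecidableEq ι] {ρ' : Type} {A B : Set V} {V1 V2 : Submodule F V}
    {p : V} {h : Basis ι F V} (ht : Ts A B V1 V2 p) (hr : Rr A B (Tset h))
    (hp : ∀ z ∈ Shd h V1 V2, h.repr p z ≠ 0) (h2 : (Shd h V1 V2).ncard = 2)
    {χ : ρ → V →ₗ[F] F} {ψ : ρ' → V →ₗ[F] F} (c1 : Cells h V1 χ) (c2 : Cells h V2 ψ)
    (b1 : ∀ q, ¬ Big h V1 χ q) (b2 : ∀ q q', Big h V2 ψ q → Big h V2 ψ q' → q = q') :
    LB (Tset h) V1 V2 p := by
  obtain ⟨p1, p2⟩ := p_mem ht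
  obtain ⟨x, y, hxy, hS⟩ := Set.ncard_eq_two.1 h2
  have hx : x ∈ Shd h V1 V2 := by rw [hS]; simp
  have hy : y ∈ Shd h V1 V2 := by rw [hS]; simp
  have hsupp : ∀ k, k ≠ x → k ≠ y → h.repr p k = 0 := by
    intro k hkx hky
    by_contra h0
    have : k ∈ Shd h V1 V2 := ⟨⟨p, p1, h0⟩, ⟨p, p2, h0⟩⟩
    rw [hS] at this
    rcases this with h' | h'
    · exact hkx h'
    · exact hky h'
  have hnot : ∀ z ∈ Shd h V1 V2, h z ∉ V2 := by
    intro z hz hz2
    obtain ⟨c, hc⟩ := eq_smul_p ht.inf (mem_of_nobig c1 b1 hz.1) hz2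
    obtain ⟨z', hz', hne⟩ : ∃ z' ∈ Shd h V1 V2, z ≠ z' := by
      by_cases hzx : z = x
      · exact ⟨y, hy, hzx ▸ hxy⟩
      · exact ⟨x, hx, hzx⟩
    have h1 := repr_basis_ne h hne
    rw [← hc, map_smul, Finsupp.smul_apply, smul_eq_mul] at h1
    have hc0 : c = 0 := (mul_eq_zero.1 h1).resolve_right (hp z' hz')
    rw [hc0, zero_smul] at hc
    exact h.ne_zero z hc.symm
  have hall : ∀ m, h m ∉ V2 := by
    intro m0 hm0
    refine ht.nsep (sep0 h {m | h m ∈ V2} ⟨m0, hm0⟩ (l0 := y) (hnot y hy) ?_)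
    intro e he l hl hel m hem
    by_cases hml : m = l
    · exact hml ▸ hl
    have hl2 : h l ∈ V2 := hl
    rcases ht.cov e he with h1 | h1
    · exact absurd hl2 (hnot l ⟨⟨e, h1, hel⟩, ⟨h l, hl2, by simp⟩⟩)
    · have he2 := Dset_eq_two h (hr.ed_subset he) hml hem hel
      refine mem_of_smul hem ?_
      have := V2.sub_mem h1 (V2.smul_mem (h.repr e l) hl2)
      rwa [sub_eq_of_eq_add he2] at this
  have hq : ∀ m, ∃ q, ψ q (h m) ≠ 0 := fun m => by
    by_contra hc
    push Not at hc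
    exact hall m (c2.ker _ hc)
  obtain ⟨qy, hqy⟩ := hq y
  have hpy := hp y hy
  have key : ∀ m, h m ∈ V1 ∨ h m - -(h.repr p y • h y) ∈ V2 ∨
      h m + -(h.repr p y • h y) ∈ V2 := by
    intro m
    rcases tch_or (h := h) ht.sup m with h1 | h1
    · exact Or.inl (mem_of_nobig c1 b1 h1)
    · right
      obtain ⟨q, hqm⟩ := hq m
      have e : q = qy := b2 q qy ⟨m, hqm, h1⟩ ⟨y, hqy, hy.2⟩
      subst e
      have hd := V2.smul_mem (ψ q (h m)) (c2.diff hqm hqy)
      rw [smul_sub, smul_smul, smul_smul, F_sq hqm, one_smul] at hd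
      have hc : ψ q (h m) * ψ q (h y) = -h.repr p y ∨ ψ q (h m) * ψ q (h y) = h.repr p y := by
        generalize ψ q (h m) = a at hqm
        generalize ψ q (h y) = b at hqy
        generalize h.repr p y = c at hpy
        revert a b c
        decide
      rcases hc with hc | hc
      · left
        rwa [hc, neg_smul] at hd
      · right
        rwa [hc, sub_eq_add_neg] at hd
  refine ⟨h.repr p x • h x, smul_mem_Tset _ (self_mem_Tset h x), -(h.repr p y • h y),
    neg_mem_Tset (smul_mem_Tset _ (self_mem_Tset h y)),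
    V1.smul_mem _ (mem_of_nobig c1 b1 hx.1), V1.neg_mem (V1.smul_mem _ (mem_of_nobig c1 b1 hy.1)),
    ?_, fun hT => hxy ((mem_Tset_iff h).1 hT x y (hp x hx) hpy), ?_, ?_⟩
  · rw [sub_neg_eq_add]
    exact eq_two_of_supp h hxy hsupp
  · rintro g (rfl | ⟨m, rfl | rfl⟩)
    · exact Or.inl V1.zero_mem
    · exact key m
    · rcases key m with h1 | h1 | h1
      · exact Or.inl (V1.neg_mem h1)
      · refine Or.inr (Or.inr ?_)
        have := V2.neg_mem h1
        rwa [neg_sub, sub_eq_neg_add] at this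
      · refine Or.inr (Or.inl ?_)
        have := V2.neg_mem h1
        rwa [neg_add, ← sub_eq_add_neg] at this
  · intro w hw
    exact mem_of_supp h fun m hm =>
      subset_span ⟨self_mem_Tset h m, mem_of_nobig c1 b1 ⟨w, hw, hm⟩⟩

open Classical in
theorem core [Fintype ι] (h : Basis ι F V) {V1 V2 : Submodule F V} {p Y : V} (J : Set ι)
    {x : ι} (ε : ι → F) (hε : ∀ m, ε m ≠ 0) (hx : x ∈ J) (hY : ∀ m ∈ J, h.repr Y m = 0)
    (hg : ∀ m ∈ J, ε m • h m - Y ∈ V2) (hp : p = ε x • h x - Y) (hout : ∀ m, m ∉ J → h m ∈ V1)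
    (hinf : V1 ⊓ V2 = span F {p}) : SJ (Tset h) V1 V2 p := by
  let u : J → V := fun m => ε m • h m - Y
  have hu : ∀ (m : J) (l : ι), l ∈ J → h.repr (u m) l = if (m : ι) = l then ε l else 0 := by
    intro m l hl
    simp only [u, map_sub, map_smul, Finsupp.sub_apply, Finsupp.smul_apply, hY l hl, repr_basis,
      smul_eq_mul, sub_zero]
    split_ifs with h0
    · rw [h0, mul_one]
    · rw [mul_zero]
  let P : V →ₗ[F] V := h.constr F fun m => if hm : m ∈ J then ε m • u ⟨m, hm⟩ else 0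
  have hPb : ∀ m, P (h m) = if hm : m ∈ J then ε m • u ⟨m, hm⟩ else 0 := fun m =>
    h.constr_basis F _ m
  have hPr : ∀ l ∈ J, ∀ w, h.repr (P w) l = h.repr w l := by
    intro l hl w
    have : (h.coord l) ∘ₗ P = h.coord l := by
      refine h.ext fun m => ?_
      rw [LinearMap.comp_apply, hPb, h.coord_apply, h.coord_apply, repr_basis]
      by_cases hm : m ∈ J
      · rw [dif_pos hm, map_smul, Finsupp.smul_apply, hu _ l hl, smul_eq_mul]
        split_ifs with h0
        · have h1 : m = l := h0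
          rw [h1, F_sq (hε l)]
        · rw [mul_zero]
      · rw [dif_neg hm, if_neg fun e : m = l => hm (e ▸ hl)]
        simp
    exact LinearMap.congr_fun this w
  have hPs : ∀ w, P w ∈ span F (Set.range u) := by
    intro w
    rw [← h.sum_repr w, map_sum]
    refine Submodule.sum_mem _ fun m _ => ?_
    rw [map_smul, hPb]
    refine smul_mem _ _ ?_
    split_ifs with hm
    · exact smul_mem _ _ (subset_span ⟨_, rfl⟩)
    · exact zero_mem _
  have hs2 : span F (Set.range u) ≤ V2 := span_le.2 (by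
    rintro _ ⟨m, rfl⟩
    exact hg m m.2)
  have hd1 : ∀ w, w - P w ∈ V1 := fun w => mem_of_supp h fun m hm => hout m fun hJ => hm (by
    rw [map_sub, Finsupp.sub_apply, hPr m hJ, sub_self])
  have hpu : p = u ⟨x, hx⟩ := hp
  have hP2 : ∀ w ∈ V2, P w = w := by
    intro w hw
    obtain ⟨c, hc⟩ := eq_smul_p hinf (hd1 w) (V2.sub_mem hw (hs2 (hPs w)))
    have h1 : h.repr (c • p) x = 0 := by
      rw [hc, map_sub, Finsupp.sub_apply, hPr x hx, sub_self]
    rw [map_smul, Finsupp.smul_apply, hpu, hu _ x hx, if_pos rfl, smul_eq_mul] at h1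
    rw [(mul_eq_zero.1 h1).resolve_right (hε x), zero_smul] at hc
    exact (sub_eq_zero.1 hc.symm).symm
  have hV1 : ∀ w ∈ V1, ∀ m ∈ J, m ≠ x → h.repr w m = 0 := by
    intro w hw m hm hmx
    have h1 : P w ∈ V1 := by
      have := V1.sub_mem hw (hd1 w)
      rwa [sub_sub_cancel] at this
    obtain ⟨c, hc⟩ := eq_smul_p hinf h1 (hs2 (hPs w))
    rw [← hPr m hm, ← hc, map_smul, Finsupp.smul_apply, hpu, hu _ m hm, if_neg hmx.symm,
      smul_zero]
  have hli : LinearIndependent F u := by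
    rw [Fintype.linearIndependent_iff]
    intro c hc m
    have h1 := congrArg (fun w => h.repr w m) hc
    simp only [map_sum, map_smul, Finsupp.coe_finsetSum, Finset.sum_apply, Finsupp.smul_apply,
      smul_eq_mul, map_zero, Finsupp.zero_apply] at h1
    rw [Finset.sum_eq_single m, hu m m m.2, if_pos rfl] at h1
    · exact (mul_eq_zero.1 h1).resolve_right (hε m)
    · intro k _ hk
      rw [hu k m m.2, if_neg fun e => hk (Subtype.ext e), mul_zero]
    · intro h0
      exact absurd (Finset.mem_univ m) h0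
  refine ⟨Tset u, P, ⟨Fintype.card J, u ∘ (Fintype.equivFin J).symm,
    hli.comp _ (Fintype.equivFin J).symm.injective, ?_, (Tset_comp_equiv u _).symm⟩,
    hpu ▸ self_mem_Tset u _, ?_, hP2, ?_⟩
  · rw [(Fintype.equivFin J).symm.surjective.range_comp]
    exact le_antisymm hs2 fun w hw => hP2 w hw ▸ hPs w
  · intro z hz
    rcases mem_Tset_iff_smul.1 hz with rfl | ⟨m, c, -, rfl⟩
    · rw [map_zero]
      exact zero_mem_Tset u
    · rw [map_smul, hPb]
      refine smul_mem_Tset _ ?_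
      split_ifs with hm
      · exact smul_mem_Tset _ (self_mem_Tset u _)
      · exact zero_mem_Tset u
  · intro t ht h0 h1 h2
    rcases mem_Tset_iff_smul.1 ht with rfl | ⟨m, c, hc, rfl⟩
    · exact absurd rfl h0
    have hmx : (m : ι) ≠ x := by
      intro e
      have e' : m = ⟨x, hx⟩ := Subtype.ext e
      rw [e', ← hpu] at h1 h2
      rcases F_ne_cases hc with rfl | rfl
      · exact h1 (one_smul _ _)
      · exact h2 (neg_one_smul _ _)
    refine ⟨(c * ε m) • h.coord m, (isStar_iff h).2 ⟨m, _, mul_ne_zero hc (hε m), rfl⟩,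
      fun w hw => ?_, ?_, ?_⟩
    · rw [LinearMap.smul_apply, h.coord_apply, hV1 w hw m m.2 hmx, smul_zero]
    · rw [LinearMap.smul_apply, h.coord_apply, map_smul, Finsupp.smul_apply, hu m m m.2,
        if_pos rfl, smul_eq_mul, smul_eq_mul, F_sq (mul_ne_zero hc (hε m))]
    · intro t' ht' h3 h4
      rcases mem_Tset_iff_smul.1 ht' with rfl | ⟨k, d, hd, rfl⟩
      · rw [map_zero]
      · by_cases hk : k = m
        · exfalso
          subst hk
          have : d = c ∨ d = -c := by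
            clear h0 h1 h2 h3 h4 ht ht'
            revert c d
            decide
          rcases this with rfl | rfl
          · exact h3 rfl
          · exact h4 (neg_smul _ _)
        · rw [LinearMap.smul_apply, h.coord_apply, map_smul, Finsupp.smul_apply, hu k m m.2,
            if_neg fun e => hk (Subtype.ext e), smul_zero, smul_zero]

theorem core' [Fintype ι] (h : Basis ι F V) {V1 V2 : Submodule F V} {p Y : V} {x : ι} {a : F}
    (ha : a ≠ 0) (hY : ∀ m, h.repr Y m ≠ 0 → h m ∈ V1 ∧ m ≠ x) (hp : p = a • h x - Y)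
    (hg : ∀ m, h m ∈ V1 ∨ h m - Y ∈ V2 ∨ h m + Y ∈ V2) (hinf : V1 ⊓ V2 = span F {p}) :
    SJ (Tset h) V1 V2 p := by
  have p2 : p ∈ V2 := by
    have : p ∈ V1 ⊓ V2 := by
      rw [hinf]
      exact mem_span_singleton_self p
    exact this.2
  have hex : ∀ m, ∃ c : F, c ≠ 0 ∧ (h m ∉ V1 ∨ m = x → c • h m - Y ∈ V2) ∧ (m = x → c = a) := by
    intro m
    by_cases hm : m = x
    · subst hm
      exact ⟨a, ha, fun _ => hp ▸ p2, fun _ => rfl⟩
    · rcases hg m with h1 | h1 | h1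
      · exact ⟨1, one_ne_zero, fun h' => absurd (h'.resolve_left (not_not.2 h1)) hm,
          fun h' => absurd h' hm⟩
      · exact ⟨1, one_ne_zero, fun _ => by rwa [one_smul], fun h' => absurd h' hm⟩
      · refine ⟨-1, neg_ne_zero.2 one_ne_zero, fun _ => ?_, fun h' => absurd h' hm⟩
        have := V2.neg_mem h1
        rwa [neg_add, ← sub_eq_add_neg, ← neg_one_smul F (h m)] at this
  choose ε hε h1 h2 using hex
  refine core h {m | h m ∉ V1 ∨ m = x} ε hε (Or.inr rfl) (fun m hm => ?_) h1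
    (by rw [h2 x rfl]; exact hp) (fun m hm => ?_) hinf
  · by_contra h0
    rcases hm with h' | h'
    · exact h' (hY m h0).1
    · exact (hY m h0).2 h'
  · by_contra h0
    exact hm (Or.inl h0)

end Nf

theorem s_nf (hcell : S_CELL) (hcl : S_CL) : S_NF := by
  intro V _ _ ι _ _ A B V1 V2 p h ht hr hp h2
  obtain ⟨r1, χ, c1⟩ := hcell h V1 (Nf.dsp hr ht.sp1)
  obtain ⟨r2, ψ, c2⟩ := hcell h V2 (Nf.dsp hr ht.sp2)
  have hc := hcl h V1 V2 χ ψ c1 c2 ht.sup
  rw [ht.inf, finrank_span_singleton ht.pne] at hc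
  obtain ⟨p1, p2⟩ := Nf.p_mem ht
  have z1 : {q | Big h V1 χ q}.ncard = 0 → ∀ q, ¬ Big h V1 χ q := fun h0 q hq =>
    Set.eq_empty_iff_forall_notMem.1 ((Set.ncard_eq_zero (Set.toFinite _)).1 h0) q hq
  have z2 : {q | Big h V2 ψ q}.ncard = 0 → ∀ q, ¬ Big h V2 ψ q := fun h0 q hq =>
    Set.eq_empty_iff_forall_notMem.1 ((Set.ncard_eq_zero (Set.toFinite _)).1 h0) q hq
  by_cases b1 : {q | Big h V1 χ q}.ncard = 0
  · by_cases b2 : {q | Big h V2 ψ q}.ncard = 0
    · left
      refine ⟨(mem_Tset_iff h).2 fun i j hi hj => ?_, fun x hx => ?_⟩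
      · exact (Set.ncard_le_one (Set.toFinite (Shd h V1 V2))).1 (by omega) i
          ⟨⟨p, p1, hi⟩, ⟨p, p2, hi⟩⟩ j ⟨⟨p, p1, hj⟩, ⟨p, p2, hj⟩⟩
      · rcases mem_Tset_iff_smul.1 hx with rfl | ⟨m, c, -, rfl⟩
        · exact Or.inl V1.zero_mem
        · rcases Nf.tch_or (h := h) ht.sup m with h1 | h1
          · exact Or.inl (V1.smul_mem _ (Nf.mem_of_nobig c1 (z1 b1) h1))
          · exact Or.inr (V2.smul_mem _ (Nf.mem_of_nobig c2 (z2 b2) h1))
    · refine Or.inr (Or.inl (Nf.lb_case ht hr hp (by omega) c1 c2 (z1 b1) fun q q' hq hq' => ?_))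
      exact (Set.ncard_le_one (Set.toFinite {q | Big h V2 ψ q})).1 (by omega) q hq q' hq'
  · rw [Shd_comm] at hp h2 hc
    refine Or.inr (Or.inr (Nf.lb_case ht.symm hr hp (by omega) c2 c1 (z2 (by omega))
      fun q q' hq hq' => ?_))
    exact (Set.ncard_le_one (Set.toFinite {q | Big h V1 χ q})).1 (by omega) q hq q' hq'

theorem s_sj : S_SJ := by
  intro V _ _ A B V1 V2 p T ht hok hc
  obtain ⟨n, h, rfl⟩ := hok.1
  rcases hc with ⟨h1, h2⟩ | ⟨X, hX, Y, hY, hX1, hY1, hp, hpT, hg, -⟩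
  · rcases mem_Tset_iff_smul.1 h1 with h0 | ⟨x, a, ha, hp⟩
    · exact absurd h0 ht.pne
    · refine Nf.core' h (Y := 0) (x := x) ha (fun m hm => absurd (by simp) hm)
        (by rw [sub_zero]; exact hp) (fun m => ?_) ht.inf
      rcases h2 _ (self_mem_Tset h m) with h' | h'
      · exact Or.inl h'
      · exact Or.inr (Or.inl (by rwa [sub_zero]))
  · rcases mem_Tset_iff_smul.1 hX with rfl | ⟨x, a, ha, rfl⟩
    · rw [zero_sub] at hp
      exact absurd (hp ▸ neg_mem_Tset hY) hpT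
    · refine Nf.core' h ha (fun m hm => ?_) hp (fun m => hg _ (self_mem_Tset h m)) ht.inf
      have hYe := Tset_eq_smul h hY hm
      refine ⟨Nf.mem_of_smul hm (hYe ▸ hY1), ?_⟩
      rintro rfl
      apply hpT
      rw [hp, hYe, ← sub_smul]
      exact smul_mem_Tset _ (self_mem_Tset h m)

end Pool.Agent.P.MP_053557_co
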