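import Pool.Agent.P.MP_053557_co.Basic2

/-! A connected graph whose cycle space splits has a pendant part: take a vertex met by both
edge classes and a component of the graph without that vertex. -/

namespace Pool.Agent.P.MP_053557_co

open Module Submodule

namespace Pend

variable {V : Type} [AddCommGroup V] [Module F V] {ι : Type}

theorem supp_sub (a : Basis ι F V) {i i' m : ι} (h : a.repr (a i - a i') m ≠ 0) :
    m = i ∨ m = i' := by
  by_contra hc
  push Not at hc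
  exact h (by simp [single_ne hc.1.symm, single_ne hc.2.symm])

/-- The second end of an edge. -/
theorem other (a : Basis ι F V) {I : Finset ι} {e : V}
    (he : ∃ i ∈ I, ∃ i' ∈ I, i ≠ i' ∧ e = a i - a i') {v : ι} (hv : a.repr e v ≠ 0) :
    v ∈ I ∧ ∃ x ∈ I, x ≠ v ∧ (∀ m, a.repr e m ≠ 0 → m = v ∨ m = x) ∧
      ∀ W : Submodule F V, e ∈ W → a v - a x ∈ W := by
  obtain ⟨i, hi, i', hi', hne, rfl⟩ := he
  rcases supp_sub a hv with rfl | rfl
  · exact ⟨hi, i', hi', hne.symm, fun m hm => supp_sub a hm, fun W h => h⟩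
  · refine ⟨hi', i, hi, hne, fun m hm => (supp_sub a hm).symm, fun W h => ?_⟩
    rw [← neg_sub]
    exact W.neg_mem h

/-- A vertex met by both classes. -/
theorem exists_cut (a : Basis ι F V) {I : Finset ι} {k : ι} {E1 E2 : Set V}
    (hE : ∀ e ∈ E1 ∪ E2, ∃ i ∈ I, ∃ i' ∈ I, i ≠ i' ∧ e = a i - a i')
    (hc : ∀ i ∈ I, a i - a k ∈ span F (E1 ∪ E2)) (h1 : E1.Nonempty) (h2 : E2.Nonempty) :
    ∃ v, (∃ e ∈ E1, a.repr e v ≠ 0) ∧ ∃ e ∈ E2, a.repr e v ≠ 0 := by
  classical
  by_contra hn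
  let φ : V →ₗ[F] F := a.constr F fun l => if ∃ e ∈ E1, a.repr e l ≠ 0 then 1 else 0
  have hφ : ∀ l, φ (a l) = if ∃ e ∈ E1, a.repr e l ≠ 0 then 1 else 0 := fun l => by simp [φ]
  have ends : ∀ {i i' : ι}, i ≠ i' → a.repr (a i - a i') i ≠ 0 ∧ a.repr (a i - a i') i' ≠ 0 :=
    fun h => by simp [single_ne h, single_ne h.symm]
  have hz : ∀ e ∈ E1 ∪ E2, φ e = 0 := by
    intro e he
    obtain ⟨i, -, i', -, hne, rfl⟩ := hE e he
    rw [map_sub, hφ, hφ]
    rcases he with he | he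
    · rw [if_pos ⟨_, he, (ends hne).1⟩, if_pos ⟨_, he, (ends hne).2⟩, sub_self]
    · rw [if_neg fun h => hn ⟨i, h, _, he, (ends hne).1⟩,
        if_neg fun h => hn ⟨i', h, _, he, (ends hne).2⟩, sub_self]
  obtain ⟨e1, he1⟩ := h1
  obtain ⟨e2, he2⟩ := h2
  obtain ⟨i, hi, i', -, hne, rfl⟩ := hE e1 (Or.inl he1)
  obtain ⟨j, hj, j', -, hne', rfl⟩ := hE e2 (Or.inr he2)
  have h3 := map_span_zero φ hz (hc i hi)
  have h4 := map_span_zero φ hz (hc j hj)
  rw [map_sub, hφ i, if_pos ⟨_, he1, (ends hne).1⟩] at h3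
  rw [map_sub, hφ j, if_neg fun h => hn ⟨j, h, _, he2, (ends hne').1⟩] at h4
  have h5 : (1 : F) = 0 := by linear_combination h3 - h4
  exact one_ne_zero h5

/-- The component of `x` after deleting `v`, together with `v`. -/
theorem side [DecidableEq ι] (a : Basis ι F V) {I : Finset ι} {k v x y : ι} {E : Set V}
    (hE : ∀ e ∈ E, ∃ i ∈ I, ∃ i' ∈ I, i ≠ i' ∧ e = a i - a i') (hv : v ∈ I) (hx : x ∈ I)
    (hy : y ∈ I) (hxv : x ≠ v) (hyv : y ≠ v) {e0 : V} (he0 : e0 ∈ E)
    (hs : ∀ m, a.repr e0 m ≠ 0 → m = v ∨ m = x)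
    (hw : ∀ W : Submodule F V, e0 ∈ W → a v - a x ∈ W)
    (hyx : a y - a x ∉ span F {e | e ∈ E ∧ a.repr e v = 0})
    (hkx : a k - a x ∉ span F {e | e ∈ E ∧ a.repr e v = 0}) :
    ∃ I' : Finset ι, ∃ k' ∈ I', I' ⊂ I ∧ 2 ≤ I'.card ∧ (k ∈ I' → k = k') ∧
      (∀ e ∈ E, ∀ i ∈ I', i ≠ k' → a.repr e i ≠ 0 → ∀ m, a.repr e m ≠ 0 → m ∈ I') ∧
      ∀ i ∈ I', a i - a k' ∈ span F {e | e ∈ E ∧ ∀ m, a.repr e m ≠ 0 → m ∈ I'} := by
  classical
  set W := span F {e | e ∈ E ∧ a.repr e v = 0} with hW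
  let C : Finset ι := I.filter fun z => a z - a x ∈ W
  have mC : ∀ z, z ∈ C ↔ z ∈ I ∧ a z - a x ∈ W := fun z => Finset.mem_filter
  have hxC : x ∈ C := (mC x).2 ⟨hx, by simp⟩
  have closed : ∀ e ∈ E, ∀ i ∈ C, a.repr e i ≠ 0 → a.repr e v = 0 →
      ∀ m, a.repr e m ≠ 0 → m ∈ C := by
    intro e he i hi h1 h0 m hm
    obtain ⟨-, z, hz, -, h2, h3⟩ := other a (hE e he) h1
    rcases h2 m hm with rfl | rfl
    · exact hi
    · refine (mC m).2 ⟨hz, ?_⟩
      have h4 : a i - a m ∈ W := h3 W (subset_span ⟨he, h0⟩)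
      have h5 := W.sub_mem ((mC i).1 hi).2 h4
      rwa [show a i - a x - (a i - a m) = a m - a x by abel] at h5
  refine ⟨insert v C, v, Finset.mem_insert_self _ _, ?_, ?_, ?_, ?_, ?_⟩
  · refine (Finset.ssubset_iff_of_subset ?_).2 ⟨y, hy, fun h => ?_⟩
    · exact Finset.insert_subset hv (Finset.filter_subset _ _)
    · rcases Finset.mem_insert.1 h with h | h
      · exact hyv h
      · exact hyx ((mC y).1 h).2
  · exact Finset.one_lt_card.2
      ⟨x, Finset.mem_insert_of_mem hxC, v, Finset.mem_insert_self _ _, hxv⟩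
  · intro h
    rcases Finset.mem_insert.1 h with h | h
    · exact h
    · exact (hkx ((mC k).1 h).2).elim
  · intro e he i hi hiv h1 m hm
    have hiC : i ∈ C := (Finset.mem_insert.1 hi).resolve_left hiv
    by_cases h0 : a.repr e v = 0
    · exact Finset.mem_insert_of_mem (closed e he i hiC h1 h0 m hm)
    · obtain ⟨-, z, -, -, h2, -⟩ := other a (hE e he) h0
      have h3 : i = z := (h2 i h1).resolve_left hiv
      rcases h2 m hm with rfl | rfl
      · exact Finset.mem_insert_self _ _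
      · exact h3 ▸ hi
  · intro i hi
    rcases Finset.mem_insert.1 hi with rfl | hiC
    · simp
    have h1 : a i - a x ∈ span F {e | e ∈ E ∧ ∀ m, a.repr e m ≠ 0 → m ∈ insert v C} := by
      have h2 := mem_span_inside a (C : Set ι) ((mC i).1 hiC).2 (fun e he => by
        by_cases h : ∃ l ∈ C, a.repr e l ≠ 0
        · obtain ⟨l, hl, h3⟩ := h
          exact Or.inl (closed e he.1 l hl h3 he.2)
        · push Not at h
          exact Or.inr h) (fun l hl => by
        rcases supp_sub a hl with rfl | rfl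
        · exact hiC
        · exact hxC)
      refine span_mono (fun e he => ?_) h2
      exact ⟨he.1.1, fun m hm => Finset.mem_insert_of_mem (he.2 m hm)⟩
    have h4 : a v - a x ∈ span F {e | e ∈ E ∧ ∀ m, a.repr e m ≠ 0 → m ∈ insert v C} := by
      refine hw _ (subset_span ⟨he0, fun m hm => ?_⟩)
      rcases hs m hm with rfl | rfl
      · exact Finset.mem_insert_self _ _
      · exact Finset.mem_insert_of_mem hxC
    have h5 := Submodule.sub_mem _ h1 h4
    rwa [show a i - a x - (a v - a x) = a i - a v by abel] at h5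

end Pend

theorem s_pend : S_PEND := by
  intro V _ _ ι _ _ a I k E1 E2 _ hE hc hd h1 h2
  obtain ⟨v, ⟨e1, he1, t1⟩, e2, he2, t2⟩ := Pend.exists_cut a hE hc h1 h2
  obtain ⟨hv, x, hx, hxv, s1, w1⟩ := Pend.other a (hE e1 (Or.inl he1)) t1
  obtain ⟨-, y, hy, hyv, s2, w2⟩ := Pend.other a (hE e2 (Or.inr he2)) t2
  have key : a y - a x ∉ span F {e | e ∈ E1 ∪ E2 ∧ a.repr e v = 0} := by
    intro h
    have h3 : {e | e ∈ E1 ∪ E2 ∧ a.repr e v = 0} =
        {e | e ∈ E1 ∧ a.repr e v = 0} ∪ {e | e ∈ E2 ∧ a.repr e v = 0} := by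
      ext e
      simp only [Set.mem_ofPred_eq, Set.mem_union, or_and_right]
    rw [h3, span_union] at h
    obtain ⟨p, hp, q, hq, hpq⟩ := Submodule.mem_sup.1 h
    have hp0 : a.repr p v = 0 := repr_span_zero a (fun e he => he.2) hp
    have hp1 : p ∈ span F E1 := span_mono (fun e he => he.1) hp
    have hq2 : q ∈ span F E2 := span_mono (fun e he => he.1) hq
    have m1 : a v - a x - p ∈ span F E1 := Submodule.sub_mem _ (w1 _ (subset_span he1)) hp1
    have m2 : a v - a x - p ∈ span F E2 := by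
      have h4 := Submodule.add_mem _ (w2 _ (subset_span he2)) hq2
      have h5 : a v - a y + q = a v - a x - p := by
        rw [show q = a y - a x - p by rw [← hpq]; abel]
        abel
      rwa [h5] at h4
    have h6 : a v - a x - p = 0 := by
      have h7 : a v - a x - p ∈ span F E1 ⊓ span F E2 := ⟨m1, m2⟩
      rwa [hd] at h7
    have h8 := congrArg (fun z => a.repr z v) h6
    simp [hp0, single_ne hxv] at h8
  by_cases hk : a k - a x ∈ span F {e | e ∈ E1 ∪ E2 ∧ a.repr e v = 0}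
  · refine Pend.side a hE hv hy hx hyv hxv (Or.inr he2) s2 w2 (fun h => key ?_) fun h => key ?_
    · rw [← neg_sub]
      exact Submodule.neg_mem _ h
    · have h3 := Submodule.sub_mem _ hk h
      rwa [show a k - a x - (a k - a y) = a y - a x by abel] at h3
  · exact Pend.side a hE hv hx hy hxv hyv (Or.inl he1) s1 w1 key hk

end Pool.Agent.P.MP_053557_co
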