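import Pool.Agent.P.MP_053557_co.Basic2

/-!
The Petersen configuration: a joint of type one on a geodesic of half length different from four.
-/

namespace Pool.Agent.P.MP_053557_co

open Module Submodule

namespace Pet

section

variable {V : Type} [AddCommGroup V] [Module F V] {ι κ : Type} [Fintype ι] [DecidableEq ι]
  [Fintype κ] [DecidableEq κ]

/-- Mixing stars when the whole sign matrix is known. -/
theorem mixfin (hmix : S_MIX) {τ : Type} [Fintype τ] [DecidableEq τ] (a : Basis ι F V)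
    (f : Basis κ F V) (hn : Fintype.card ι = Fintype.card τ) (w : τ → V)
    (hw : ∀ i, w i ∈ Gm a) (v : τ → κ) (hv : Function.Injective v) (r : τ → F)
    (hr : ∀ j, r j ≠ 0) (Z : τ → τ → F) (hZ : ∀ i j, f.repr (w i) (v j) = Z i j * r j)
    (hd : ∀ i i', i ≠ i' → (∃ j, Z i j ≠ Z i' j) ∧ ∃ j, Z i j ≠ -Z i' j)
    (A0 B0 : Finset τ) (hc : A0.card = B0.card) (hB : B0.Nonempty) (hA : A0 ≠ Finset.univ)
    (h1 : ∀ i i', ∀ c c' : F,
      (Finset.univ.filter fun j => c * Z i j + c' * Z i' j ≠ 0).card ≤ 2 →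
      (B0.filter fun j => c * Z i j + c' * Z i' j ≠ 0).card ≤
        (A0.filter fun k => (if i = k then c else 0) + (if i' = k then c' else 0) ≠ 0).card)
    (h2 : ∀ i ∈ A0, ∀ k ∈ A0, ∑ j ∈ B0, Z i j * Z k j = if i = k then 1 else 0) :
    Succ (Tset a) (Tset f) := by
  have hex : ∀ i, ∃ m : ι, ∃ c : F, c ≠ 0 ∧ w i = c • a m := by
    intro i
    obtain ⟨m, h | h⟩ := mem_Gm_iff.1 (hw i)
    · exact ⟨m, 1, one_ne_zero, by simpa using h⟩
    · exact ⟨m, -1, by decide, by simpa using h⟩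
  choose u ε hε hu using hex
  have hau : ∀ i, a (u i) = ε i • w i := by
    intro i
    rw [hu i, smul_smul, F_sq (hε i), one_smul]
  have uinj : Function.Injective u := by
    intro i i' h
    by_contra hne
    obtain ⟨⟨j, hj⟩, ⟨j', hj'⟩⟩ := hd i i' hne
    have e : w i = (ε i * ε i') • w i' := by
      rw [hu i, h, hau i', smul_smul]
    have k1 := hZ i j
    have k2 := hZ i j'
    rw [e, map_smul, Finsupp.smul_apply, hZ, smul_eq_mul, ← mul_assoc] at k1 k2
    have k1' := mul_right_cancel₀ (hr j) k1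
    have k2' := mul_right_cancel₀ (hr j') k2
    rcases F_ne_cases (mul_ne_zero (hε i) (hε i')) with h0 | h0
    · rw [h0, one_mul] at k1'
      exact hj k1'.symm
    · rw [h0, neg_one_mul] at k2'
      exact hj' k2'.symm
  have ubij : Function.Bijective u :=
    (Fintype.bijective_iff_injective_and_card u).2 ⟨uinj, hn.symm⟩
  have vbij : Function.Bijective v :=
    (Fintype.bijective_iff_injective_and_card v).2
      ⟨hv, by rw [card_eq_card a f, hn]⟩
  have hrep : ∀ i k, a.repr (w i) (u k) = if i = k then ε k else 0 := by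
    intro i k
    rw [hu i, map_smul, Finsupp.smul_apply, repr_basis]
    by_cases h : i = k
    · subst h; simp
    · have : u i ≠ u k := fun hc => h (uinj hc)
      simp [h, this]
  have hT : ∀ y ∈ Tset a, ∃ i, ∃ c : F, y = c • w i := by
    intro y hy
    obtain ⟨j0, -⟩ := hB
    rcases mem_Tset_iff_smul.1 hy with rfl | ⟨m, c, -, rfl⟩
    · exact ⟨j0, 0, by simp⟩
    · obtain ⟨i, rfl⟩ := ubij.2 m
      exact ⟨i, c * ε i, by rw [hau, smul_smul]⟩
  refine hmix a f (A0.image u) (B0.image v) ?_ (hB.image v) ?_ ?_ ?_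
  · rw [Finset.card_image_of_injective _ uinj, Finset.card_image_of_injective _ hv, hc]
  · intro h
    apply hA
    refine Finset.eq_univ_of_forall fun i => ?_
    have : u i ∈ A0.image u := h ▸ Finset.mem_univ _
    obtain ⟨k, hk, hki⟩ := Finset.mem_image.1 this
    exact uinj hki ▸ hk
  · rintro e ⟨⟨y, hy, z, hz, rfl⟩, he⟩
    obtain ⟨i, c, rfl⟩ := hT y hy
    obtain ⟨i', c', rfl⟩ := hT z hz
    have hf : ∀ j, f.repr (c • w i - c' • w i') (v j) ≠ 0 ↔ c * Z i j + -c' * Z i' j ≠ 0 := by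
      intro j
      have : f.repr (c • w i - c' • w i') (v j) = (c * Z i j + -c' * Z i' j) * r j := by
        simp only [map_sub, map_smul, Finsupp.sub_apply, Finsupp.smul_apply, hZ, smul_eq_mul]
        ring
      rw [this, mul_ne_zero_iff]
      exact ⟨fun h => h.1, fun h => ⟨h, hr j⟩⟩
    have ha : ∀ k, a.repr (c • w i - c' • w i') (u k) ≠ 0 ↔
        (if i = k then c else 0) + (if i' = k then -c' else 0) ≠ 0 := by
      intro k
      have : a.repr (c • w i - c' • w i') (u k) =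
          ((if i = k then c else 0) + (if i' = k then -c' else 0)) * ε k := by
        simp only [map_sub, map_smul, Finsupp.sub_apply, Finsupp.smul_apply, hrep, smul_eq_mul]
        split_ifs <;> ring
      rw [this, mul_ne_zero_iff]
      exact ⟨fun h => h.1, fun h => ⟨h, hε k⟩⟩
    rw [Finset.filter_image, Finset.filter_image, Finset.card_image_of_injective _ uinj,
      Finset.card_image_of_injective _ hv, Finset.filter_congr (fun j _ => hf j),
      Finset.filter_congr (fun k _ => ha k)]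
    refine h1 i i' c (-c') ?_
    rw [card_le_two_iff']
    intro j1 j2 j3 k1 k2 k3
    rcases (mem_Dset_iff f).1 he (v j1) (v j2) (v j3) ((hf _).2 k1) ((hf _).2 k2)
      ((hf _).2 k3) with h | h | h
    · exact Or.inl (hv h)
    · exact Or.inr (Or.inl (hv h))
    · exact Or.inr (Or.inr (hv h))
  · intro x hx0 hx1
    set c : τ → F := fun k => a.repr x (u k) * ε k with hcdef
    have hc0 : ∀ k, k ∉ A0 → c k = 0 := by
      intro k hk
      have : a.repr x (u k) = 0 := hx0 _ fun hm => by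
        obtain ⟨k', hk', h⟩ := Finset.mem_image.1 hm
        exact hk (uinj h ▸ hk')
      simp [hcdef, this]
    have hxs : x = ∑ k ∈ A0, c k • w k := by
      refine eq_of_repr a fun m => ?_
      obtain ⟨k, rfl⟩ := ubij.2 m
      simp only [map_sum, map_smul, Finsupp.finsetSum_apply, Finsupp.smul_apply, hrep,
        smul_eq_mul, mul_ite, mul_zero, Finset.sum_ite_eq']
      split_ifs with hk
      · simp only [hcdef]
        rw [mul_assoc, F_sq (hε k), mul_one]
      · have := hc0 k hk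
        simp only [hcdef] at this
        exact (mul_eq_zero.1 this).resolve_right (hε k)
    have hcol : ∀ j ∈ B0, ∑ k ∈ A0, c k * Z k j = 0 := by
      intro j hj
      have h0 := hx1 (v j) (Finset.mem_image_of_mem v hj)
      rw [hxs] at h0
      simp only [map_sum, map_smul, Finsupp.finsetSum_apply, Finsupp.smul_apply, hZ,
        smul_eq_mul, ← mul_assoc] at h0
      rw [← Finset.sum_mul] at h0
      exact (mul_eq_zero.1 h0).resolve_right (hr j)
    have hcz : ∀ k ∈ A0, c k = 0 := by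
      intro k hk
      have e1 : ∑ i ∈ A0, c i * ∑ j ∈ B0, Z i j * Z k j = c k := by
        rw [Finset.sum_congr rfl fun i hi => by rw [h2 i hi k hk]]
        simp [hk]
      rw [← e1]
      simp only [Finset.mul_sum]
      rw [Finset.sum_comm]
      refine Finset.sum_eq_zero fun j hj => ?_
      simp only [← mul_assoc]
      rw [← Finset.sum_mul, hcol j hj, zero_mul]
    rw [hxs]
    exact Finset.sum_eq_zero fun k hk => by rw [hcz k hk, zero_smul]

variable {a : Basis ι F V} {f : Basis κ F V} {x : ℤ → V} {L : ℕ} {A B : ℤ → κ}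

theorem full (h : Af a f) {z : V} (hz : z ∈ Gm a) (l : κ) : f.repr z l ≠ 0 := by
  obtain ⟨m, rfl | rfl⟩ := mem_Gm_iff.1 hz
  · exact h.full m l
  · simpa using h.full m l

theorem sgn (h : Af a f) {z z' : V} (hz : z ∈ Gm a) (hz' : z' ∈ Gm a) (l : κ) :
    f.repr z l = (if l ∈ Df f z z' then -1 else 1) * f.repr z' l := by
  have h1 := full h hz l
  have h2 := full h hz' l
  by_cases hl : l ∈ Df f z z'
  · rw [if_pos hl]
    rw [mem_Df] at hl
    revert hl h1 h2
    generalize f.repr z l = c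
    generalize f.repr z' l = d
    revert c d
    decide
  · rw [if_neg hl, one_mul]
    rw [mem_Df] at hl
    exact not_not.1 hl

theorem sdf (h : Af a f) {y z w : V} (hy : y ∈ Gm a) (hz : z ∈ Gm a) (hw : w ∈ Gm a) (l : κ) :
    l ∈ Df f y w ↔ ¬ (l ∈ Df f y z ↔ l ∈ Df f z w) := by
  have h1 := full h hy l
  have h2 := full h hz l
  have h3 := full h hw l
  simp only [mem_Df]
  revert h1 h2 h3
  generalize f.repr y l = c
  generalize f.repr z l = d
  generalize f.repr w l = e
  revert c d e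
  decide

theorem df_neg_left (h : Af a f) {y z : V} (hy : y ∈ Gm a) (hz : z ∈ Gm a) (l : κ) :
    l ∈ Df f (-y) z ↔ l ∉ Df f y z := by
  have h1 := full h hy l
  have h2 := full h hz l
  simp only [mem_Df, map_neg, Finsupp.neg_apply]
  revert h1 h2
  generalize f.repr y l = c
  generalize f.repr z l = d
  revert c d
  decide

/-- Membership in the pair of coordinates flipped by step `r`. -/
def InK (A B : ℤ → κ) (r : ℤ) (l : κ) : Prop := l = A r ∨ l = B r

theorem cls (h : Kc a f x L A B) {r r' : ℤ} {l : κ} (h1 : InK A B r l) (h2 : InK A B r' l) :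
    (L : ℤ) ∣ r - r' := by
  rcases h1 with rfl | rfl <;> rcases h2 with h2 | h2
  · exact (h.perA _ _).1 h2
  · exact absurd h2 (h.ab _ _)
  · exact absurd h2.symm (h.ab _ _)
  · exact (h.perB _ _).1 h2

theorem per (h : Kc a f x L A B) {r r' : ℤ} {l : κ} (hd : (L : ℤ) ∣ r - r')
    (h1 : InK A B r l) : InK A B r' l := by
  rcases h1 with rfl | rfl
  · exact Or.inl ((h.perA _ _).2 hd)
  · exact Or.inr ((h.perB _ _).2 hd)

theorem pair (h : Kc a f x L A B) {r : ℤ} {g g' : κ}
    (e : ({g, g'} : Finset κ) = {A r, B r}) :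
    g ≠ g' ∧ ∀ l, InK A B r l ↔ (l = g ∨ l = g') := by
  have hm : ∀ l, InK A B r l ↔ (l = g ∨ l = g') := by
    intro l
    have : l ∈ ({g, g'} : Finset κ) ↔ l ∈ ({A r, B r} : Finset κ) := by rw [e]
    simpa [InK] using this.symm
  refine ⟨?_, hm⟩
  rintro rfl
  have h1 := (hm _).1 (Or.inl rfl)
  have h2 := (hm _).1 (Or.inr rfl)
  simp only [or_self] at h1 h2
  exact h.ab r r (h1.trans h2.symm)

theorem other (h : Kc a f x L A B) {r : ℤ} {m : κ} (hm : InK A B r m) :
    ∃ mb, m ≠ mb ∧ ∀ l, InK A B r l ↔ (l = m ∨ l = mb) := by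
  rcases hm with rfl | rfl
  · exact ⟨B r, h.ab r r, fun l => Iff.rfl⟩
  · exact ⟨A r, (h.ab r r).symm, fun l => or_comm⟩

theorem step (h : Kc a f x L A B) (s : ℤ) (l : κ) :
    l ∈ Df f (x s) (x (s + 1)) ↔ InK A B s l := by
  rw [h.step]; simp [InK]

theorem mx_neg (y : V) (r : ℤ) : Mx f x A B (-y) r ↔ Mx f x A B y r := by
  simp [Mx]

/-- A joint of type one together with its two flipped coordinates. -/
def PP (a : Basis ι F V) (f : Basis κ F V) (x : ℤ → V) (A B : ℤ → κ) (y : V) (t : ℤ)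
    (g h : κ) : Prop :=
  Ty1 a f x y t ∧ InK A B (t + 1) g ∧ InK A B (t - 2) h ∧ Df f y (x t) = {g, h}

theorem mx_iff (hpos : S_POS) (h : Kc a f x L A B) {y : V} {t : ℤ} {g k : κ}
    (hy : Off a x y) (hadj : Adj f y (x t)) (e : Df f y (x t) = {g, k}) (r : ℤ) :
    Mx f x A B y r ↔ (InK A B r g ∨ InK A B r k) := by
  rw [(hpos a f x L A B h).2.2.1 y hy t r hadj, e]
  simp only [Finset.mem_insert, Finset.mem_singleton, InK]
  tauto

theorem not_dvd {L : ℕ} (h5 : 5 ≤ L) {d : ℤ} (h0 : d ≠ 0) (h1 : -5 < d) (h2 : d < 5) :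
    ¬ (L : ℤ) ∣ d := by
  intro h
  have := Int.le_of_dvd (abs_pos.2 h0) ((dvd_abs _ _).2 h)
  have h3 : |d| < 5 := abs_lt.2 ⟨h1, h2⟩
  omega

theorem next0 (hafb : S_AFB) (hpos : S_POS) (ht1 : S_T1) (h : Kc a f x L A B) (h4 : L ≠ 4)
    {y : V} {t : ℤ} (hy : Ty1 a f x y t) :
    ∃ g k, PP a f x A B y t g k ∧ ∃ y' mb, Ty1 a f x y' (t + 2) ∧ InK A B t mb ∧
      Df f y' (x (t + 2)) = {k, mb} := by
  have h5 : 5 ≤ L := by have := h.four; omega
  rcases ht1 a f x L A B y t h hy with ⟨-, hl⟩ | ⟨h0, -⟩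
  swap
  · exact absurd h0 h4
  obtain ⟨g, g', k, k', m, m', y', y'', e1, e2, e3, o1, -, e4, -, hm, -⟩ := hl
  obtain ⟨hgg, hg⟩ := pair h e1
  obtain ⟨-, hk⟩ := pair h e2
  obtain ⟨mb, hmb, hM⟩ := other h (r := t) (m := m) hm
  have ig : InK A B (t + 1) g := (hg _).2 (Or.inl rfl)
  have ig' : InK A B (t + 1) g' := (hg _).2 (Or.inr rfl)
  have ik : InK A B (t - 2) k := (hk _).2 (Or.inl rfl)
  have im : InK A B t m := hm
  have imb : InK A B t mb := (hM _).2 (Or.inr rfl)
  have ne : ∀ {r r' : ℤ} {l l' : κ}, InK A B r l → InK A B r' l' → r - r' ≠ 0 → -5 < r - r' →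
      r - r' < 5 → l ≠ l' := by
    intro r r' l l' i1 i2 d0 d1 d2 hc
    subst hc
    exact not_dvd h5 d0 d1 d2 (cls h i1 i2)
  have n1 : g ≠ k := ne ig ik (by omega) (by omega) (by omega)
  have n2 : g' ≠ k := ne ig' ik (by omega) (by omega) (by omega)
  have n3 : g ≠ m := ne ig im (by omega) (by omega) (by omega)
  have n4 : g' ≠ m := ne ig' im (by omega) (by omega) (by omega)
  have n5 : g ≠ mb := ne ig imb (by omega) (by omega) (by omega)
  have n6 : g' ≠ mb := ne ig' imb (by omega) (by omega) (by omega)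
  have n7 : k ≠ m := ne ik im (by omega) (by omega) (by omega)
  have n8 : k ≠ mb := ne ik imb (by omega) (by omega) (by omega)
  have e5 : Df f y' (x (t + 2)) = {k, mb} := by
    ext l
    have s1 := step h t l
    have s2 := step h (t + 1) l
    rw [show t + 1 + 1 = t + 2 by ring] at s2
    rw [sdf h.af o1.1 (h.geo.mem (t + 1)) (h.geo.mem _), sdf h.af o1.1 (h.geo.mem t) (h.geo.mem _),
      sdf h.af o1.1 hy.1.1 (h.geo.mem t), s1, s2, Df_comm f y' y, e3, e4, hg, hM]
    simp only [Finset.mem_insert, Finset.mem_singleton]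
    by_cases c1 : l = g
    · subst c1; simp [hgg, n1, n3, n5]
    by_cases c2 : l = g'
    · subst c2; simp [c1, n2, n4, n6]
    by_cases c3 : l = k
    · subst c3; simp [c1, c2, n7, n8]
    by_cases c4 : l = m
    · subst c4; simp [c1, c2, c3, hmb]
    simp [c1, c2, c3, c4]
  have adj : Adj f y' (x (t + 2)) := by
    rw [(hafb a f h.af).1 y' o1.1 _ (h.geo.mem _), e5, Finset.card_pair n8]
  have p4 := (hpos a f x L A B h).2.2.2 y' o1 (t + 2) adj
  refine ⟨g, k, ⟨hy, ig, ik, e3⟩, y', mb, ⟨o1, adj, ?_, ?_⟩, imb, e5⟩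
  · rw [p4.2, mx_iff hpos h o1 adj e5]
    rintro (c | c)
    · exact ne c ik (by omega) (by omega) (by omega) rfl
    · exact ne c imb (by omega) (by omega) (by omega) rfl
  · rw [p4.1, mx_iff hpos h o1 adj e5]
    rintro (c | c)
    · exact ne c ik (by omega) (by omega) (by omega) rfl
    · exact ne c imb (by omega) (by omega) (by omega) rfl

theorem five (hafb : S_AFB) (hpos : S_POS) (ht1 : S_T1) (h : Kc a f x L A B) (h4 : L ≠ 4)
    {y : V} {t : ℤ} (hy : Ty1 a f x y t) : L = 5 := by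
  have h5 : 5 ≤ L := by have := h.four; omega
  obtain ⟨g, k, ⟨-, -, ik, -⟩, y', mb, hy', -, e⟩ := next0 hafb hpos ht1 h h4 hy
  obtain ⟨g2, k2, ⟨-, ig2, ik2, e2⟩, -⟩ := next0 hafb hpos ht1 h h4 hy'
  have : k ∈ ({g2, k2} : Finset κ) := by rw [← e2, e]; simp
  rcases Finset.mem_insert.1 this with c | c
  · subst c
    have hd := cls h ig2 ik
    rw [show t + 2 + 1 - (t - 2) = 5 by ring] at hd
    have := Int.le_of_dvd (by norm_num) hd
    omega
  · rw [Finset.mem_singleton] at c
    subst c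
    exact absurd (cls h ik2 ik) (not_dvd h5 (by omega) (by omega) (by omega))

theorem next (hafb : S_AFB) (hpos : S_POS) (ht1 : S_T1) (h : Kc a f x 5 A B)
    {y : V} {t : ℤ} {g k : κ} (hy : PP a f x A B y t g k) :
    ∃ y' k', PP a f x A B y' (t + 2) k k' := by
  obtain ⟨g0, k0, ⟨-, -, ik0, e0⟩, y', mb, hy', imb, e⟩ :=
    next0 hafb hpos ht1 h (by norm_num) hy.1
  have hk : k0 = k := by
    have : k0 ∈ ({g, k} : Finset κ) := by rw [← hy.2.2.2, e0]; simp
    rcases Finset.mem_insert.1 this with c | c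
    · subst c
      have := cls h hy.2.1 ik0
      omega
    · simpa using c
  subst hk
  refine ⟨y', mb, hy', per h (by omega) ik0, ?_, e⟩
  rwa [show t + 2 - 2 = t by ring]

theorem close (hpos : S_POS) (h : Kc a f x 5 A B) {p0 p4 p5 : V} {t : ℤ}
    {g0 k0 k3 k4 k5 : κ} (h0 : PP a f x A B p0 t g0 k0) (h4 : PP a f x A B p4 (t + 8) k3 k4)
    (h5 : PP a f x A B p5 (t + 10) k4 k5) : k4 = g0 := by
  have m0 := mx_iff hpos h h0.1.1 h0.1.2.1 h0.2.2.2
  have m4 := mx_iff hpos h h4.1.1 h4.1.2.1 h4.2.2.2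
  have m5 := mx_iff hpos h h5.1.1 h5.1.2.1 h5.2.2.2
  have idx : ∀ y ∈ Gm a, ∃ i, (y = a i ∨ y = -a i) ∧ ∀ r, Mx f x A B y r ↔ Mx f x A B (a i) r := by
    intro y hy
    obtain ⟨i, rfl | rfl⟩ := mem_Gm_iff.1 hy
    · exact ⟨i, Or.inl rfl, fun _ => Iff.rfl⟩
    · exact ⟨i, Or.inr rfl, mx_neg _⟩
  obtain ⟨i0, e0, q0⟩ := idx p0 h0.1.1.1
  obtain ⟨i4, -, q4⟩ := idx p4 h4.1.1.1
  obtain ⟨i5, e5, q5⟩ := idx p5 h5.1.1.1
  obtain ⟨i, i', -, hc⟩ := h.cell (t + 1)
  have c0 := (hc i0).1 ((q0 _).1 ((m0 _).2 (Or.inl h0.2.1)))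
  have c4 := (hc i4).1 ((q4 _).1 ((m4 _).2 (Or.inr (per h (by omega) h4.2.2.1))))
  have c5 := (hc i5).1 ((q5 _).1 ((m5 _).2 (Or.inl (per h (by omega) h5.2.1))))
  have n4 : ¬ Mx f x A B (a i4) (t + 3) := by
    rw [← q4, m4]
    rintro (c | c)
    · have := cls h c h4.2.1
      omega
    · have := cls h c h4.2.2.1
      omega
  have d0 : i0 ≠ i4 := by
    rintro rfl
    exact n4 ((q0 _).1 ((m0 _).2 (Or.inr (per h (by omega) h0.2.2.1))))
  have d5 : i5 ≠ i4 := by
    rintro rfl
    exact n4 ((q5 _).1 ((m5 _).2 (Or.inr (per h (by omega) h5.2.2.1))))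
  have e05 : i5 = i0 := by
    rcases c0 with c0 | c0 <;> rcases c4 with c4 | c4 <;> rcases c5 with c5 | c5 <;>
      simp_all
  subst e05
  have hx : x (t + 10) = x t := by
    have a1 := h.geo.anti t
    have a2 := h.geo.anti (t + 5)
    push_cast at a1 a2
    rw [show t + 10 = t + 5 + 5 by ring, a2, a1, neg_neg]
  have e := h5.2.2.2
  rw [hx] at e
  have hpm : p5 = p0 ∨ p5 = -p0 := by
    rcases e0 with rfl | rfl <;> rcases e5 with rfl | rfl <;> simp
  rcases hpm with rfl | rfl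
  · have : k4 ∈ ({g0, k0} : Finset κ) := by rw [← h0.2.2.2, e]; simp
    rcases Finset.mem_insert.1 this with c | c
    · exact c
    · rw [Finset.mem_singleton] at c
      subst c
      have := cls h h5.2.1 h0.2.2.1
      omega
  · exfalso
    have iA : InK A B t (A t) := Or.inl rfl
    have := df_neg_left h.af h0.1.1.1 (h.geo.mem t) (A t)
    rw [e, h0.2.2.2] at this
    simp only [Finset.mem_insert, Finset.mem_singleton] at this
    by_cases c : A t = g0 ∨ A t = k0
    · rcases c with c | c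
      · have := cls h iA (c ▸ h0.2.1)
        omega
      · have := cls h iA (c ▸ h0.2.2.1)
        omega
    · rcases this.2 c with c | c
      · have := cls h iA (c ▸ h5.2.1)
        omega
      · have := cls h iA (c ▸ h5.2.2.1)
        omega

/-- The sign matrix of the Petersen configuration. -/
def ZP (i j : Fin 5 × Bool) : F :=
  (if i.2 = true ∧ j.2 = false ∧ (j.1 = i.1 + 1 ∨ j.1 = i.1 + 3) then -1 else 1) *
    (if j.1 < i.1 then -1 else 1)

def AP : Finset (Fin 5 × Bool) := {(0, false), (2, false), (3, true), (4, true)}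

def BP : Finset (Fin 5 × Bool) := {(4, true), (2, true), (1, false), (0, false)}

theorem zp_d : ∀ i i', i ≠ i' → (∃ j, ZP i j ≠ ZP i' j) ∧ ∃ j, ZP i j ≠ -ZP i' j := by
  decide +kernel

theorem zp_1 : ∀ i i', ∀ c c' : F,
    (Finset.univ.filter fun j => c * ZP i j + c' * ZP i' j ≠ 0).card ≤ 2 →
    (BP.filter fun j => c * ZP i j + c' * ZP i' j ≠ 0).card ≤
      (AP.filter fun k => (if i = k then c else 0) + (if i' = k then c' else 0) ≠ 0).card := by
  decide +kernel

theorem zp_2 : ∀ i ∈ AP, ∀ k ∈ AP, ∑ j ∈ BP, ZP i j * ZP k j = if i = k then 1 else 0 := by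
  decide +kernel

theorem fin (hpos : S_POS) (hmix : S_MIX) (h : Kc a f x 5 A B) (t : ℤ) (q : Fin 5 → V)
    (hq : ∀ s, q s ∈ Gm a) (av : Fin 5 → κ) (hav : ∀ s : Fin 5, InK A B (t + (s : ℕ)) (av s))
    (hd : ∀ s : Fin 5, Df f (q s) (x (t + (s : ℕ))) = {av (s + 1), av (s + 3)}) :
    Succ (Tset a) (Tset f) := by
  choose bv hne hb using fun s => other h (hav s)
  let v : Fin 5 × Bool → κ := fun j => if j.2 = true then bv j.1 else av j.1
  have hvK : ∀ j : Fin 5 × Bool, InK A B (t + (j.1 : ℕ)) (v j) := by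
    rintro ⟨s, _ | _⟩
    · exact hav s
    · exact (hb s _).2 (Or.inr rfl)
  have hv : Function.Injective v := by
    rintro ⟨s, b⟩ ⟨s', b'⟩ e
    have hs : s = s' := by
      have h1 := cls h (hvK (s, b)) (e ▸ hvK (s', b'))
      have h2 := s.2
      have h3 := s'.2
      apply Fin.ext
      simp only at h1
      omega
    subst hs
    cases b <;> cases b'
    · rfl
    · exact absurd e (hne s)
    · exact absurd e.symm (hne s)
    · rfl
  have hx : ∀ (s : Fin 5) (j : Fin 5 × Bool), f.repr (x (t + (s : ℕ))) (v j) =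
      (if j.1 < s then -1 else 1) * f.repr (x t) (v j) := by
    intro s j
    have hs := s.2
    have hj := j.1.2
    have p1 := (hpos a f x 5 A B h).1 t (t + (s : ℕ)) (t + (j.1 : ℕ)) (by omega) (by omega)
    have hm : v j ∈ Df f (x (t + (s : ℕ))) (x t) ↔ j.1 < s := by
      rw [Df_comm]
      have : v j ∈ Df f (x t) (x (t + (s : ℕ))) ↔ A (t + (j.1 : ℕ)) ∈ Df f (x t) (x (t + (s : ℕ))) := by
        rcases hvK j with e | e
        · rw [e]
        · rw [e, p1.2]
      rw [this, p1.1, Fin.lt_def]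
      constructor
      · rintro ⟨r, r1, r2, r3⟩
        omega
      · intro hlt
        exact ⟨t + (j.1 : ℕ), by omega, by omega, by simp⟩
    rw [sgn h.af (h.geo.mem _) (h.geo.mem t)]
    simp only [hm]
  let w : Fin 5 × Bool → V := fun i => if i.2 = true then q i.1 else x (t + (i.1 : ℕ))
  refine mixfin hmix a f (by rw [h.card]; simp) w ?_ v hv (fun j => f.repr (x t) (v j))
    (fun j => full h.af (h.geo.mem t) _) ZP ?_ zp_d AP BP (by decide) (by decide) (by decide)
    zp_1 zp_2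
  · rintro ⟨s, _ | _⟩
    · exact h.geo.mem _
    · exact hq s
  · rintro ⟨s, _ | _⟩ j
    · simpa [w, ZP] using hx s j
    · have hm : v j ∈ Df f (q s) (x (t + (s : ℕ))) ↔
          (j.2 = false ∧ (j.1 = s + 1 ∨ j.1 = s + 3)) := by
        rw [hd]
        have e1 : av (s + 1) = v (s + 1, false) := rfl
        have e3 : av (s + 3) = v (s + 3, false) := rfl
        rw [e1, e3, Finset.mem_insert, Finset.mem_singleton, hv.eq_iff, hv.eq_iff]
        obtain ⟨j1, j2⟩ := j
        simp only [Prod.mk.injEq]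
        tauto
      have e : w (s, true) = q s := rfl
      rw [e, sgn h.af (hq s) (h.geo.mem (t + (s : ℕ))), hx, ← mul_assoc]
      simp only [hm, ZP, true_and]

end

end Pet

theorem s_pet (hafb : S_AFB) (hpos : S_POS) (ht1 : S_T1) (hmix : S_MIX) : S_PET := by
  intro V _ _ ι κ _ _ _ _ a f x L A B y t h h4 hy
  have h5 := Pet.five hafb hpos ht1 h h4 hy
  subst h5
  obtain ⟨g0, k0, h0, -⟩ := Pet.next0 hafb hpos ht1 h h4 hy
  obtain ⟨p1, k1, h1⟩ := Pet.next hafb hpos ht1 h h0
  obtain ⟨p2, k2, h2⟩ := Pet.next hafb hpos ht1 h h1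
  obtain ⟨p3, k3, h3⟩ := Pet.next hafb hpos ht1 h h2
  obtain ⟨p4, k4, h4'⟩ := Pet.next hafb hpos ht1 h h3
  obtain ⟨p5, k5, h5⟩ := Pet.next hafb hpos ht1 h h4'
  rw [show t + 2 + 2 + 2 + 2 + 2 = t + 10 by ring] at h5
  rw [show t + 2 + 2 + 2 + 2 = t + 8 by ring] at h4'
  rw [show t + 2 + 2 + 2 = t + 6 by ring] at h3
  rw [show t + 2 + 2 = t + 4 by ring] at h2
  have hk := Pet.close hpos h h0 h4' h5
  subst hk
  have a1 : x (t + 1) = -x (t + 6) := by
    have := h.geo.anti (t + 1)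
    push_cast at this
    rw [show t + 6 = t + 1 + 5 by ring, this, neg_neg]
  have a3 : x (t + 3) = -x (t + 8) := by
    have := h.geo.anti (t + 3)
    push_cast at this
    rw [show t + 8 = t + 3 + 5 by ring, this, neg_neg]
  refine Pet.fin hpos hmix h t ![y, -p3, p1, -p4, p2] ?_ ![k1, k4, k2, k0, k3] ?_ ?_
  · intro s
    fin_cases s
    · exact h0.1.1.1
    · exact neg_mem_Gm h3.1.1.1
    · exact h1.1.1.1
    · exact neg_mem_Gm h4'.1.1.1
    · exact h2.1.1.1
  · intro s
    fin_cases s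
    · exact Pet.per h (by simp) h1.2.2.1
    · exact Pet.per h (by simp) h0.2.1
    · exact Pet.per h (by simp; omega) h2.2.2.1
    · exact Pet.per h (by simp; omega) h0.2.2.1
    · exact Pet.per h (by simp; omega) h3.2.2.1
  · intro s
    fin_cases s
    · simpa using h0.2.2.2
    · simpa [a1, Df_neg] using h3.2.2.2
    · simpa using h1.2.2.2
    · simpa [a3, Df_neg] using h4'.2.2.2
    · simpa using h2.2.2.2

end Pool.Agent.P.MP_053557_co
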