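import Pool.Agent.P.MP_053557_co.Stmts2

/-! From the connectivity theorem to explicit operations on frames. -/

namespace Pool.Agent.P.MP_053557_co

open Module Submodule

namespace Pn

variable {V : Type} [AddCommGroup V] [Module F V]

theorem tm_refl {A : Set V} (hA : IsFrame A) : TM A A := by
  obtain ⟨n, b, rfl⟩ := hA
  refine ⟨Fin n, inferInstance, inferInstance, b, b, ∅, fun _ => 0, rfl, rfl, ?_, Or.inl rfl⟩
  intro p _
  rw [sub_self]
  exact zero_mem _

theorem tm_core {A B : Set V} (h : CoreL A B) : TM A B := by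
  obtain ⟨k, Z, a, b, hZ, rfl, rfl, h⟩ := h
  refine ⟨Fin k, inferInstance, inferInstance, a, b, Set.univ, fun _ => 0, rfl, rfl, ?_,
    Or.inr ⟨k, Z, Function.Embedding.refl _, hZ, ?_, fun l => ?_⟩⟩
  · intro p hp
    exact absurd (Set.mem_univ p) hp
  · ext i
    simp
  · have h0 : b.coord l - ∑ i, Z l i • a.coord i = 0 := by
      refine a.ext fun j => ?_
      simp only [LinearMap.sub_apply, LinearMap.sum_apply, LinearMap.smul_apply,
        Basis.coord_apply, LinearMap.zero_apply, smul_eq_mul, h, repr_basis]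
      simp
    have h1 : b.coord ((Function.Embedding.refl (Fin k)) l) -
        ∑ i, Z l i • a.coord ((Function.Embedding.refl (Fin k)) i) = 0 := h0
    rw [h1]
    exact zero_mem _

theorem coreL_of_coreLink {A B : Set V} (h : CoreLink A B) : CoreL A B := by
  rcases h with ⟨a, b, h1, h2, h3⟩ | ⟨a, b, h1, h2, h3⟩
  · exact ⟨4, had4, a, b, Core.had, h1, h2, h3⟩
  · exact ⟨6, conf6, a, b, Core.conf, h1, h2, h3⟩

theorem of_rr {A B G H X Y : Set V} (hG : Rr A B G) (hH : Rr A B H) (h : TConn G H X Y) :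
    TConn A B X Y := by
  induction h with
  | refl => exact Relation.ReflTransGen.refl
  | tail _ h ih =>
    exact ih.tail ⟨⟨h.1.1, hG.comp hH h.1.2⟩, ⟨h.2.1.1, hG.comp hH h.2.1.2⟩, h.2.2⟩

/-- The statement in dimension `n`. -/
def PAt (n : ℕ) : Prop := ∀ {V : Type} [AddCommGroup V] [Module F V] (A B : Set V),
  IsFrame A → IsFrame B → finrank F V = n → Spans (Ed A B) → TConn A B A B

theorem share_step (hL : S_LIFT) (ih : ∀ m, m < finrank F V → PAt m) {A B : Set V}
    (hA : IsFrame A) (hB : IsFrame B) (hs : Spans (Ed A B)) (h : Share A B) :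
    TConn A B A B := by
  obtain ⟨σ, ⟨xA, a1, a2, a3⟩, ⟨xB, b1, b2, b3⟩⟩ := h
  obtain ⟨fA, fB, hr, hsp, lA, lB, hok, htm⟩ := hL A B σ xA xB hA hB a1 a2 a3 b1 b2 b3
  have h0 := ih (finrank F ↥(LinearMap.ker σ)) (by omega) _ _ fA fB rfl (hsp hs)
  have key : ∀ G', TConn (Subtype.val ⁻¹' A : Set ↥(LinearMap.ker σ)) (Subtype.val ⁻¹' B)
      (Subtype.val ⁻¹' A) G' → Ok (Subtype.val ⁻¹' A) (Subtype.val ⁻¹' B) G' →
      ∀ G, Lf A B σ xA xB G' G → TConn A B A G := by
    intro G' hc
    induction hc with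
    | refl =>
      intro ho G hG
      exact Relation.ReflTransGen.single
        ⟨ok_left hA B, (hok _ ho).2 G hG, Or.inl (htm _ _ _ _ (tm_refl fA) lA hG)⟩
    | tail _ hst ih2 =>
      intro ho H hH
      obtain ⟨G, hG⟩ := (hok _ hst.1).1
      refine (ih2 hst.1 G hG).tail ⟨(hok _ hst.1).2 G hG, (hok _ ho).2 H hH, ?_⟩
      rcases hst.2.2 with h1 | h1
      · exact Or.inl (htm _ _ _ _ h1 hG hH)
      · exact Or.inr (htm _ _ _ _ h1 hH hG)
  exact key _ h0 (ok_right _ fB) B lB

theorem share_ok (hL : S_LIFT) (ih : ∀ m, m < finrank F V → PAt m) {A B G H : Set V}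
    (hs : Spans (Ed A B)) (hG : Ok A B G) (hH : Ok A B H) (h : Share G H) : TConn A B G H :=
  of_rr hG.2 hH.2 (share_step hL ih hG.1 hH.1 (hs.mono (hG.2.ed_mono hH.2)) h)

theorem pat (hMAIN : S_MAIN) (hR3 : S_R3) (hL : S_LIFT) (n : ℕ) : PAt n := by
  induction n using Nat.strong_induction_on with
  | _ n ih =>
    intro V _ _ A B hA hB hn hs
    subst hn
    have := hA.finite
    by_cases h0 : finrank F V = 0
    · have hsub : Subsingleton V := Module.finrank_zero_iff.1 h0
      have : A = B := by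
        ext x
        rw [Subsingleton.elim x 0]
        exact ⟨fun _ => hB.zero_mem, fun _ => hA.zero_mem⟩
      subst this
      exact Relation.ReflTransGen.refl
    by_cases h3 : finrank F V ≤ 3
    · rcases hR3 A B hA hB (by omega) h3 with h | ⟨G, g1, g2, g3⟩ | h | h
      · exact share_step hL ih hA hB hs h
      · exact (share_ok hL ih hs (ok_left hA B) g1 g2).trans
          (share_ok hL ih hs g1 (ok_right A hB) g3)
      · exact Relation.ReflTransGen.single ⟨ok_left hA B, ok_right A hB, Or.inl (tm_core h)⟩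
      · exact Relation.ReflTransGen.single ⟨ok_left hA B, ok_right A hB, Or.inr (tm_core h)⟩
    · have h := hMAIN _ A B hA hB rfl (by omega) hs
      have key : ∀ G, SConn A B A G → TConn A B A G := by
        intro G hc
        induction hc with
        | refl => exact Relation.ReflTransGen.refl
        | tail _ hst ih2 =>
          obtain ⟨g1, g2, g3 | g3 | g3⟩ := hst
          · exact ih2.trans (share_ok hL ih hs g1 g2 g3)
          · exact ih2.tail ⟨g1, g2, Or.inl (tm_core (coreL_of_coreLink g3))⟩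
          · exact ih2.tail ⟨g1, g2, Or.inr (tm_core (coreL_of_coreLink g3))⟩
      exact key B h

theorem econn_symm {E0 A B : Set V} (h : EConn E0 A B) : EConn E0 B A := by
  induction h with
  | refl => exact Relation.ReflTransGen.refl
  | tail _ h2 ih => exact Relation.ReflTransGen.head ⟨h2.2.1, h2.1, h2.2.2.symm⟩ ih

theorem dec_end {ι : Type} [Fintype ι] [DecidableEq ι] {a b : Basis ι F V} {C : Set ι}
    {r : ι → ℕ} {E0 : Set V} (h : TMb a b C r) (hE : E0 ⊆ EE a b)
    (hl : ∀ p, p ∉ C → Lit a b C p) : EConn E0 (Tset a) (Tset b) := by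
  rcases h.core with hC | ⟨k, Z, x, hZ, hx, hin⟩
  · have hab : a = b := by
      refine Basis.repr_injective (LinearEquiv.ext fun y => Finsupp.ext fun i => ?_)
      have h1 := (hl i (by simp [hC])).2
      have h2 := LinearMap.congr_fun h1 y
      simpa using h2.symm
    subst hab
    exact Relation.ReflTransGen.refl
  · refine Relation.ReflTransGen.single ⟨fun e he => (hE he).1, fun e he => (hE he).2,
      Or.inl ⟨ι, inferInstance, inferInstance, a, b, rfl, rfl, ?_⟩⟩
    subst hx
    exact StarOp.exchange _ _ k Z hZ x (fun v hv => (hl v hv).2) hin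

theorem dec (hF : S_FIXS) (hR : S_ROTS) {ι : Type} [Fintype ι] [DecidableEq ι] {C : Set ι}
    {E0 : Set V} (hs : Spans E0) (m : ℕ) : ∀ (k : ℕ) (a b : Basis ι F V) (r : ι → ℕ),
    {p | ¬ Lit a b C p}.ncard ≤ m → {q : ι × ι | Bad a b C q.1 q.2}.ncard ≤ k →
    TMb a b C r → E0 ⊆ EE a b → EConn E0 (Tset a) (Tset b) := by
  induction m using Nat.strong_induction_on with
  | _ m ihm =>
    have grow : ∀ (a b a' b' : Basis ι F V) (r' : ι → ℕ), {p | ¬ Lit a b C p}.ncard ≤ m →
        (∀ w, Lit a b C w → Lit a' b' C w) → (∃ w, Lit a' b' C w ∧ ¬ Lit a b C w) →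
        TMb a' b' C r' → E0 ⊆ EE a' b' → EConn E0 (Tset a') (Tset b') := by
      intro a b a' b' r' hm h1 ⟨w, w1, w2⟩ ht hE
      have hlt : {p | ¬ Lit a' b' C p}.ncard < {p | ¬ Lit a b C p}.ncard := by
        refine Set.ncard_lt_ncard ⟨fun p hp hq => hp (h1 p hq), fun hc => ?_⟩ (Set.toFinite _)
        exact hc w2 w1
      exact ihm _ (lt_of_lt_of_le hlt hm) _ a' b' r' le_rfl le_rfl ht hE
    intro k
    induction k using Nat.strong_induction_on with
    | _ k ihk =>
      intro a b r hm hk ht hE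
      by_cases hl : ∀ p, p ∉ C → Lit a b C p
      · exact dec_end ht hE hl
      by_cases hb : ∀ p v, Bad a b C p v → Rig a b p v
      · push Not at hl
        obtain ⟨a', r', t', E', c1, l1, l2⟩ := hR a b C r E0 ht hE hl hb
        exact c1.trans (grow a b a' b r' hm l1 l2 t' E')
      · push Not at hb
        obtain ⟨p, v, b1, b2⟩ := hb
        obtain ⟨a', b', r', t', E', c1, c2, l1, l2⟩ := hF a b C r E0 p v ht hE hs b1 b2
        refine c1.trans (Relation.ReflTransGen.trans ?_ c2)
        by_cases hg : ∃ w, Lit a' b' C w ∧ ¬ Lit a b C w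
        · exact grow a b a' b' r' hm l1 hg t' E'
        · push Not at hg
          refine ihk _ (lt_of_lt_of_le (l2 hg) hk) a' b' r' (le_trans ?_ hm) le_rfl t' E'
          exact Set.ncard_le_ncard (fun p hp hq => hp (l1 p hq)) (Set.toFinite _)

theorem tm_econn (hF : S_FIXS) (hR : S_ROTS) {E0 G H : Set V} (hs : Spans E0) (h : TM G H)
    (hE : E0 ⊆ Ed G H) : EConn E0 G H := by
  obtain ⟨ι, _, _, a, b, C, r, rfl, rfl, ht⟩ := h
  exact dec hF hR hs _ _ a b r le_rfl le_rfl ht hE

end Pn

theorem s_pn (hMAIN : S_MAIN) (hR3 : S_R3) (hL : S_LIFT) : S_PN :=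
  fun A B hA hB hs => Pn.pat hMAIN hR3 hL _ A B hA hB rfl hs

theorem s_econn (hP : S_PN) (hF : S_FIXS) (hR : S_ROTS) : S_ECONN := by
  intro V _ _ A B E0 hA hB hE hs
  have h := hP A B hA hB (hs.mono hE)
  have key : ∀ G, TConn A B A G → EConn E0 A G := by
    intro G hc
    induction hc with
    | refl => exact Relation.ReflTransGen.refl
    | tail _ hst ih =>
      obtain ⟨g1, g2, g3 | g3⟩ := hst
      · exact ih.trans (Pn.tm_econn hF hR hs g3 (hE.trans (g1.2.ed_mono g2.2)))
      · exact ih.trans (Pn.econn_symm (Pn.tm_econn hF hR hs g3 (hE.trans (g2.2.ed_mono g1.2))))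
  exact key B h

end Pool.Agent.P.MP_053557_co
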