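import Pool.Agent.P.MP_053557_co.Basic2

/-! Position of the geodesic neighbours of a joint when every coordinate is flipped once. -/

namespace Pool.Agent.P.MP_053557_co

open Module Submodule

namespace Pos

variable {V : Type} [AddCommGroup V] [Module F V] {ι κ : Type} [Fintype ι]
  [DecidableEq ι] [Fintype κ] [DecidableEq κ] {a : Basis ι F V} {f : Basis κ F V}
  {x : ℤ → V} {L : ℕ} {A B : ℤ → κ}

omit [DecidableEq ι] [DecidableEq κ] in
theorem nz (h : Af a f) {y : V} (hy : y ∈ Gm a) (l : κ) : f.repr y l ≠ 0 := by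
  obtain ⟨i, rfl | rfl⟩ := mem_Gm_iff.1 hy
  · exact h.full i l
  · simpa using h.full i l

omit [DecidableEq ι] [DecidableEq κ] in
theorem tri (h : Af a f) {u v w : V} (hu : u ∈ Gm a) (hv : v ∈ Gm a) (hw : w ∈ Gm a) (l : κ) :
    l ∈ Df f u w ↔ ¬ (l ∈ Df f u v ↔ l ∈ Df f v w) := by
  simp only [mem_Df]
  have h1 := nz h hu l
  have h2 := nz h hv l
  have h3 := nz h hw l
  generalize f.repr u l = p at *
  generalize f.repr v l = q at *
  generalize f.repr w l = r at *
  revert p q r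
  decide

omit [DecidableEq ι] in
theorem BB (h : Kc a f x L A B) (r t : ℤ) : B r = B t ↔ A r = A t := by
  rw [h.perA, h.perB]

omit [DecidableEq ι] in
theorem stepA (h : Kc a f x L A B) (r t : ℤ) :
    A r ∈ Df f (x t) (x (t + 1)) ↔ A r = A t := by
  rw [h.step]
  simp [h.ab r t]

omit [DecidableEq ι] in
theorem stepB (h : Kc a f x L A B) (r t : ℤ) :
    B r ∈ Df f (x t) (x (t + 1)) ↔ A r = A t := by
  rw [h.step, ← BB h]
  simp [(h.ab t r).symm]

omit [DecidableEq ι] in
theorem AB (h : Kc a f x L A B) (s t r : ℤ) :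
    A r ∈ Df f (x s) (x t) ↔ B r ∈ Df f (x s) (x t) := by
  have hm := h.geo.mem
  induction t using Int.inductionOn' with
  | b => exact s
  | zero => simp [mem_Df]
  | succ k _ ih =>
    rw [tri h.af (hm s) (hm k) (hm (k + 1)), tri h.af (hm s) (hm k) (hm (k + 1)) (B r),
      stepA h, stepB h, show (A r ∈ Df f (x s) (x k) ↔ B r ∈ Df f (x s) (x k)) from ih]
  | pred k _ ih =>
    have e1 := stepA h r (k - 1)
    have e2 := stepB h r (k - 1)
    rw [sub_add_cancel, Df_comm] at e1 e2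
    rw [tri h.af (hm s) (hm k) (hm (k - 1)), tri h.af (hm s) (hm k) (hm (k - 1)) (B r),
      e1, e2, show (A r ∈ Df f (x s) (x k) ↔ B r ∈ Df f (x s) (x k)) from ih]

omit [DecidableEq ι] in
theorem Ane (h : Kc a f x L A B) {u v : ℤ} (h1 : u ≠ v) (h2 : u - v < L) (h3 : v - u < L) :
    A u ≠ A v := by
  rw [Ne, h.perA]
  intro hd
  have := Int.eq_zero_of_abs_lt_dvd hd (by rw [abs_lt]; constructor <;> omega)
  omega

omit [DecidableEq ι] in
theorem intv (h : Kc a f x L A B) (s r : ℤ) (n : ℕ) (hn : n ≤ L) :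
    A r ∈ Df f (x s) (x (s + n)) ↔ ∃ r', s ≤ r' ∧ r' < s + n ∧ A r = A r' := by
  have hm := h.geo.mem
  induction n with
  | zero =>
    simp only [Nat.cast_zero, add_zero, mem_Df, ne_eq, not_true_eq_false, false_iff]
    rintro ⟨r', h1, h2, -⟩
    omega
  | succ k ih =>
    have e : s + ((k + 1 : ℕ) : ℤ) = s + k + 1 := by push_cast; ring
    have ih' : A r ∈ Df f (x s) (x (s + k)) ↔ ∃ r', s ≤ r' ∧ r' < s + k ∧ A r = A r' :=
      ih (by omega)
    rw [e, tri h.af (hm s) (hm (s + k)) (hm (s + k + 1)), stepA h, ih']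
    constructor
    · intro hc
      by_cases h1 : A r = A (s + k)
      · exact ⟨s + k, by omega, by omega, h1⟩
      · have : ∃ r', s ≤ r' ∧ r' < s + k ∧ A r = A r' := by tauto
        obtain ⟨r', h2, h3, h4⟩ := this
        exact ⟨r', h2, by omega, h4⟩
    · rintro ⟨r', h1, h2, h3⟩ hc
      by_cases h4 : r' = s + k
      · subst h4
        obtain ⟨r'', h5, h6, h7⟩ := hc.2 h3
        exact Ane h (u := s + k) (v := r'') (by omega) (by omega) (by omega) (h3.symm.trans h7)
      · have h5 := hc.1 ⟨r', h1, by omega, h3⟩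
        exact Ane h (u := s + k) (v := r') (by omega) (by omega) (by omega) (h5.symm.trans h3)

omit [DecidableEq ι] in
theorem intv' (h : Kc a f x L A B) (s t r : ℤ) (h1 : s ≤ t) (h2 : t ≤ s + L) :
    A r ∈ Df f (x s) (x t) ↔ ∃ r', s ≤ r' ∧ r' < t ∧ A r = A r' := by
  obtain ⟨n, rfl⟩ : ∃ n : ℕ, t = s + n := ⟨(t - s).toNat, by omega⟩
  exact intv h s r n (by omega)

omit [DecidableEq ι] in
theorem mx_iff (h : Kc a f x L A B) {y : V} (hy : y ∈ Gm a) (s r : ℤ) :
    Mx f x A B y r ↔ ¬ (A r ∈ Df f y (x s) ↔ B r ∈ Df f y (x s)) := by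
  have hm := h.geo.mem
  have h0 : Mx f x A B y r ↔ ¬ (A r ∈ Df f y (x r) ↔ B r ∈ Df f y (x r)) := by
    simp only [Mx, mem_Df]
    have h1 := nz h.af hy (A r)
    have h2 := nz h.af hy (B r)
    have h3 := nz h.af (hm r) (A r)
    have h4 := nz h.af (hm r) (B r)
    generalize f.repr y (A r) = p at *
    generalize f.repr y (B r) = q at *
    generalize f.repr (x r) (A r) = u at *
    generalize f.repr (x r) (B r) = v at *
    revert p q u v
    decide
  rw [h0, tri h.af hy (hm r) (hm s), tri h.af hy (hm r) (hm s) (B r), AB h r s r]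
  tauto

theorem mx_adj (hB : S_AFB) (h : Kc a f x L A B) {y : V} (hy : Off a x y) (t r : ℤ)
    (hadj : Adj f y (x t)) :
    Mx f x A B y r ↔ (A r ∈ Df f y (x t) ∨ B r ∈ Df f y (x t)) := by
  rw [mx_iff h hy.1 t r]
  have hc := ((hB a f h.af).1 y hy.1 (x t) (h.geo.mem t)).1 hadj
  have hnb : ¬ (A r ∈ Df f y (x t) ∧ B r ∈ Df f y (x t)) := by
    rintro ⟨h1, h2⟩
    have he : ({A r, B r} : Finset κ) = Df f y (x t) := by
      refine Finset.eq_of_subset_of_card_le ?_ ?_
      · intro l hl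
        rcases Finset.mem_insert.1 hl with rfl | hl
        · exact h1
        · rw [Finset.mem_singleton.1 hl]; exact h2
      · rw [hc, Finset.card_pair (h.ab r r)]
    obtain ⟨s, s', -, hs⟩ := h.two y hy
    have h3 := (hs s).2 (Or.inl (by simp))
    rw [mx_iff h hy.1 t s, ← he, ← h.step, stepA h, stepB h] at h3
    exact h3 Iff.rfl
  tauto

omit [Fintype κ] in
theorem card_flip {D E : Finset κ} {p q : κ} (hpq : p ≠ q) (hD : D.card = 2)
    (hE : ∀ l, l ∈ E ↔ ¬ (l ∈ D ↔ l ∈ ({p, q} : Finset κ))) :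
    E.card = 2 ↔ ¬ (p ∈ D ↔ q ∈ D) := by
  by_cases hp : p ∈ D <;> by_cases hq : q ∈ D
  · have h1 : E = (D.erase p).erase q := by
      ext l
      rw [hE]
      by_cases h1 : l = p
      · subst h1; simp [hp]
      · by_cases h2 : l = q
        · subst h2; simp [hq]
        · simp [h1, h2]
    have h2 : E.card = 0 := by
      rw [h1, Finset.card_erase_of_mem (Finset.mem_erase.2 ⟨hpq.symm, hq⟩),
        Finset.card_erase_of_mem hp, hD]
    simp [h2, hp, hq]
  · have h1 : E = insert q (D.erase p) := by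
      ext l
      rw [hE]
      by_cases h1 : l = p
      · subst h1; simp [hp, hpq]
      · by_cases h2 : l = q
        · subst h2; simp [hq]
        · simp [h1, h2]
    have h2 : E.card = 2 := by
      rw [h1, Finset.card_insert_of_notMem (fun hc => hq (Finset.mem_of_mem_erase hc)),
        Finset.card_erase_of_mem hp, hD]
    simp [h2, hp, hq]
  · have h1 : E = insert p (D.erase q) := by
      ext l
      rw [hE]
      by_cases h1 : l = p
      · subst h1; simp [hp]
      · by_cases h2 : l = q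
        · subst h2; simp [hq, h1]
        · simp [h1, h2]
    have h2 : E.card = 2 := by
      rw [h1, Finset.card_insert_of_notMem (fun hc => hp (Finset.mem_of_mem_erase hc)),
        Finset.card_erase_of_mem hq, hD]
    simp [h2, hp, hq]
  · have h1 : E = insert p (insert q D) := by
      ext l
      rw [hE]
      by_cases h1 : l = p
      · subst h1; simp [hp]
      · by_cases h2 : l = q
        · subst h2; simp [hq]
        · simp [h1, h2]
    have h2 : E.card = 4 := by
      rw [h1, Finset.card_insert_of_notMem (by simp [hp, hpq]),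
        Finset.card_insert_of_notMem hq, hD]
    simp [h2, hp, hq]

theorem adj_succ (hB : S_AFB) (h : Kc a f x L A B) {y : V} (hy : y ∈ Gm a) (t : ℤ)
    (hadj : Adj f y (x t)) : Adj f y (x (t + 1)) ↔ Mx f x A B y t := by
  have hm := h.geo.mem
  have h1 := (hB a f h.af).1 y hy
  rw [h1 _ (hm _), mx_iff h hy t t]
  refine card_flip (h.ab t t) ((h1 _ (hm t)).1 hadj) fun l => ?_
  rw [tri h.af hy (hm t) (hm (t + 1)), h.step]

theorem adj_pred (hB : S_AFB) (h : Kc a f x L A B) {y : V} (hy : y ∈ Gm a) (t : ℤ)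
    (hadj : Adj f y (x t)) : Adj f y (x (t - 1)) ↔ Mx f x A B y (t - 1) := by
  have hm := h.geo.mem
  have h1 := (hB a f h.af).1 y hy
  rw [h1 _ (hm _), mx_iff h hy t (t - 1)]
  refine card_flip (h.ab (t - 1) (t - 1)) ((h1 _ (hm t)).1 hadj) fun l => ?_
  have e := h.step (t - 1)
  rw [sub_add_cancel, Df_comm] at e
  rw [tri h.af hy (hm t) (hm (t - 1)), e]

omit [Fintype ι] [DecidableEq ι] [Fintype κ] [DecidableEq κ] in
theorem per (h : Geo a f x L) (t k : ℤ) : x (t + 2 * L * k) = x t := by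
  have h2 : ∀ u, x (u + 2 * L) = x u := fun u => by
    rw [show u + 2 * (L : ℤ) = u + L + L by ring, h.anti, h.anti, neg_neg]
  induction k using Int.induction_on with
  | zero => simp
  | succ k ih => rw [show t + 2 * (L : ℤ) * (k + 1) = t + 2 * L * k + 2 * L by ring, h2, ih]
  | pred k ih =>
    rw [← h2, show t + 2 * (L : ℤ) * (-k - 1) + 2 * L = t + 2 * L * (-k) by ring, ih]

omit [Fintype ι] [DecidableEq ι] [Fintype κ] [DecidableEq κ] in
theorem red (h : Geo a f x L) (s t : ℤ) : ∃ t', s ≤ t' ∧ t' < s + 2 * L ∧ x t' = x t := by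
  have hL : (0 : ℤ) < 2 * L := by have := h.pos; omega
  refine ⟨s + (t - s) % (2 * L), ?_, ?_, ?_⟩
  · have := Int.emod_nonneg (t - s) hL.ne'
    omega
  · have := Int.emod_lt_of_pos (t - s) hL
    omega
  · rw [← per h _ ((t - s) / (2 * L))]
    congr 1
    have := Int.emod_add_mul_ediv (t - s) (2 * L)
    omega

omit [DecidableEq ι] in
theorem pair_iff (h : Kc a f x L A B) {g m : κ} {r0 r1 : ℤ} (hg : g = A r0 ∨ g = B r0)
    (hm : m = A r1 ∨ m = B r1) (hgm : g ≠ m) (r : ℤ) :
    ¬ (A r ∈ ({g, m} : Finset κ) ↔ B r ∈ ({g, m} : Finset κ)) ↔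
      ¬ (A r = A r0 ↔ A r = A r1) := by
  have h1 := h.ab r r0
  have h2 := h.ab r r1
  have h3 := (h.ab r0 r).symm
  have h4 := (h.ab r1 r).symm
  have h5 := BB h r r0
  have h6 := BB h r r1
  have h7 := BB h r0 r1
  simp only [Finset.mem_insert, Finset.mem_singleton]
  rcases hg with rfl | rfl <;> rcases hm with rfl | rfl
  · have : ¬ (A r = A r0 ∧ A r = A r1) := fun hc => hgm (hc.1.symm.trans hc.2)
    tauto
  · tauto
  · tauto
  · have : ¬ (A r = A r0 ∧ A r = A r1) := fun hc => hgm (h7.2 (hc.1.symm.trans hc.2))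
    tauto

theorem pr1 {p q r s : Prop} :
    ¬ (¬ (p ↔ r) ↔ ¬ (q ↔ s)) ↔ ¬ (¬ (r ↔ s) ↔ ¬ (p ↔ q)) := by tauto

theorem pr2 {p q : Prop} (h : p ∨ q) : ¬ ((p ∨ q) ↔ ¬ (q ↔ q)) := by tauto

theorem pr3 {p q : Prop} (h : ¬ (p ∧ q)) : ¬ ¬ ((p ∨ q) ↔ ¬ (q ↔ p)) := by tauto

theorem pr4 {p q r : Prop} (h1 : ¬ (p ∧ q)) (h2 : ¬ (p ∧ r)) (h3 : ¬ (q ∧ r)) :
    ¬ ((p ∨ q) ↔ ¬ (q ↔ r)) ↔ (p ∨ r) := by tauto

theorem pr5 {p q r : Prop} (hp : ¬ p) (hq : ¬ q) (hr : ¬ r) : ¬ ¬ (¬ (p ↔ q) ↔ r) := by tauto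

end Pos

open Pos

theorem s_pos (hB : S_AFB) : S_POS := by
  intro V _ _ ι κ _ _ _ _ a f x L A B h
  refine ⟨fun s t r h1 h2 => ⟨?_, (AB h s t r).symm⟩, fun y hy s r => mx_iff h hy s r,
    fun y hy t r hadj => mx_adj hB h hy t r hadj,
    fun y hy t hadj => ⟨adj_succ hB h hy.1 t hadj, adj_pred hB h hy.1 t hadj⟩⟩
  rw [intv' h s t r h1 h2]
  simp only [h.perA]

theorem s_t2 (hB : S_AFB) : S_T2 := by
  intro V _ _ ι κ _ _ _ _ a f x L A B y s h hy ha0 ha1 hn0 hn1
  have hm := h.geo.mem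
  have hL := h.four
  have hMs : Mx f x A B y s := (adj_succ hB h hy.1 s ha0).1 ha1
  have hMp : ¬ Mx f x A B y (s - 1) := fun hc => hn0 ((adj_pred hB h hy.1 s ha0).2 hc)
  have hMn : ¬ Mx f x A B y (s + 1) := fun hc => hn1 (by
    have := (adj_succ hB h hy.1 (s + 1) ha1).2 hc
    rwa [show s + 1 + 1 = s + 2 by ring] at this)
  obtain ⟨r0, hr0, hMy⟩ : ∃ r0, A s ≠ A r0 ∧ ∀ r, Mx f x A B y r ↔ (A r = A s ∨ A r = A r0) := by
    obtain ⟨u, v, huv, hM⟩ := h.two y hy
    simp only [← h.perA] at huv hM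
    rcases (hM s).1 hMs with h1 | h1
    · exact ⟨v, by rw [h1]; exact huv, fun r => by rw [hM, h1]⟩
    · exact ⟨u, by rw [h1]; exact fun hc => huv hc.symm, fun r => by rw [hM, h1, or_comm]⟩
  have hp0 : A (s - 1) ≠ A r0 := fun hc => hMp ((hMy _).2 (Or.inr hc))
  have hn0' : A (s + 1) ≠ A r0 := fun hc => hMn ((hMy _).2 (Or.inr hc))
  have hM0 : Mx f x A B y r0 := (hMy _).2 (Or.inr rfl)
  obtain ⟨g, hg, hgD⟩ : ∃ g, (g = A r0 ∨ g = B r0) ∧ g ∉ Df f y (x s) := by
    have := (mx_iff h hy.1 s r0).1 hM0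
    by_cases h1 : A r0 ∈ Df f y (x s)
    · exact ⟨B r0, Or.inr rfl, fun h2 => this (iff_of_true h1 h2)⟩
    · exact ⟨A r0, Or.inl rfl, h1⟩
  obtain ⟨z, hz, hyz, hgz⟩ := h.reach y hy r0 hM0 g hg
  have hzo : Off a x z := by
    refine ⟨hz, fun t ht => ?_⟩
    obtain ⟨t', h1, h2, h3⟩ := red h.geo (s - 2) t
    rw [ht, ← h3] at hyz hgz
    have hcase : t' = s - 2 ∨ t' = s - 1 ∨ t' = s ∨ t' = s + 1 ∨ t' = s + 2 ∨ s + 3 ≤ t' := by
      omega
    rcases hcase with rfl | rfl | rfl | rfl | rfl | h4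
    · refine h.geo.d2 (s - 2) 3 y hy.1 le_rfl (by omega) hyz ?_
      rwa [show s - 2 + 3 = s + 1 by ring]
    · exact hn0 hyz
    · exact hgD hgz
    · rw [tri h.af hy.1 (hm s) (hm (s + 1))] at hgz
      apply hgz
      refine iff_of_false hgD ?_
      rcases hg with rfl | rfl
      · rw [stepA h]; exact fun hc => hr0 hc.symm
      · rw [stepB h]; exact fun hc => hr0 hc.symm
    · exact hn1 hyz
    · refine h.geo.d2 s (t' - s) y hy.1 (by omega) (by omega) ha0 ?_
      rwa [show s + (t' - s) = t' by ring]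
  have hcz := ((hB a f h.af).1 y hy.1 z hz).1 hyz
  obtain ⟨m, hgm, hE⟩ : ∃ m, g ≠ m ∧ Df f y z = {g, m} := by
    obtain ⟨p, q, hpq, he⟩ := Finset.card_eq_two.1 hcz
    rw [he] at hgz
    rcases Finset.mem_insert.1 hgz with rfl | h1
    · exact ⟨q, hpq, he⟩
    · rw [Finset.mem_singleton] at h1
      subst h1
      exact ⟨p, hpq.symm, by rw [he, Finset.pair_comm]⟩
  obtain ⟨r1, hr1⟩ := h.cover m
  have hMz0 : ∀ r, Mx f x A B z r ↔
      ¬ ((A r = A s ∨ A r = A r0) ↔ ¬ (A r = A r0 ↔ A r = A r1)) := by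
    intro r
    rw [← hMy, ← pair_iff h hg hr1 hgm r, ← hE, mx_iff h hz s r, mx_iff h hy.1 s r,
      tri h.af hz hy.1 (hm s), tri h.af hz hy.1 (hm s) (B r), Df_comm f z y]
    exact pr1
  obtain ⟨s1, hs1y, hs1z, hs1⟩ := h.link y z hy hzo hyz
  simp only [← h.perA] at hs1
  have h01 : A r0 ≠ A r1 := by
    intro hc
    have e1 := hs1 s hMs (by rw [hMz0, ← hc]; exact pr2 (Or.inl rfl))
    have e2 := hs1 r0 hM0 (by rw [hMz0, ← hc]; exact pr2 (Or.inr rfl))
    exact hr0 (e1.trans e2.symm)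
  have hs1' : A s ≠ A r1 := by
    intro hc
    rw [hMz0, ← hc] at hs1z
    exact pr3 (fun hc => hr0 (hc.1.symm.trans hc.2)) hs1z
  have hMz : ∀ r, Mx f x A B z r ↔ (A r = A s ∨ A r = A r1) := by
    intro r
    rw [hMz0]
    have e1 : ¬ (A r = A s ∧ A r = A r0) := fun hc => hr0 (hc.1.symm.trans hc.2)
    have e2 : ¬ (A r = A s ∧ A r = A r1) := fun hc => hs1' (hc.1.symm.trans hc.2)
    have e3 : ¬ (A r = A r0 ∧ A r = A r1) := fun hc => h01 (hc.1.symm.trans hc.2)
    exact pr4 e1 e2 e3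
  obtain ⟨t, ht⟩ := h.cyc z hzo
  obtain ⟨t', h1, h2, h3⟩ := red h.geo (s - L) t
  rw [← h3] at ht
  have hin : A r0 ∈ Df f (x s) (x t') := by
    have e1 : ¬ Mx f x A B z r0 := by
      rw [hMz]
      rintro (hc | hc)
      · exact hr0 hc.symm
      · exact h01 hc
    rw [mx_adj hB h hzo t' r0 ht] at e1
    have e2 : g ∉ Df f z (x t') := by
      rcases hg with rfl | rfl
      · exact fun hc => e1 (Or.inl hc)
      · exact fun hc => e1 (Or.inr hc)
    have e3 : g ∈ Df f (x s) z := by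
      rw [tri h.af (hm s) hy.1 hz, Df_comm f (x s) y]
      exact fun hc => hgD (hc.2 hgz)
    have e4 : g ∈ Df f (x s) (x t') := by
      rw [tri h.af (hm s) hz (hm t')]
      exact fun hc => e2 (hc.1 e3)
    rcases hg with rfl | rfl
    · exact e4
    · exact (AB h s t' r0).2 e4
  have hout : ∀ r, A r ∈ Df f (x s) (x t') → A r = A s ∨ A r = A r0 ∨ A r = A r1 := by
    intro r hr
    by_contra hc
    have e1 : A r ∉ Df f y (x s) := fun hd => by
      have := (mx_adj hB h hy s r ha0).2 (Or.inl hd)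
      rw [hMy] at this
      exact hc (this.imp_right Or.inl)
    have e2 : A r ∉ Df f z (x t') := fun hd => by
      have := (mx_adj hB h hzo t' r ht).2 (Or.inl hd)
      rw [hMz] at this
      exact hc (this.imp_right Or.inr)
    have e3 : A r ∉ Df f y z := by
      rw [hE]
      have e4 := h.ab r r0
      have e5 := h.ab r r1
      simp only [Finset.mem_insert, Finset.mem_singleton]
      rintro (he | he)
      · rcases hg with rfl | rfl
        · exact hc (Or.inr (Or.inl he))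
        · exact e4 he
      · rcases hr1 with rfl | rfl
        · exact hc (Or.inr (Or.inr he))
        · exact e5 he
    rw [tri h.af (hm s) hz (hm t'), tri h.af (hm s) hy.1 hz, Df_comm f (x s) y] at hr
    exact pr5 e1 e3 e2 hr
  refine ⟨z, t', hzo, ht, ?_⟩
  rw [adj_pred hB h hz t' ht, adj_succ hB h hz t' ht, hMz, hMz]
  by_cases hst : s ≤ t'
  · have hI := fun r => intv' h s t' r hst (by omega)
    obtain ⟨r', e1, e2, e3⟩ := (hI r0).1 hin
    have e4 : r' ≠ s := by rintro rfl; exact hr0 e3.symm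
    have e5 : r' ≠ s + 1 := by rintro rfl; exact hn0' e3.symm
    have f1 : A (s + 1) = A r1 := by
      rcases hout (s + 1) ((hI _).2 ⟨s + 1, by omega, by omega, rfl⟩) with hc | hc | hc
      · exact absurd hc (Ane h (by omega) (by omega) (by omega))
      · exact absurd hc hn0'
      · exact hc
    have f2 : A (s + 2) = A r0 := by
      rcases hout (s + 2) ((hI _).2 ⟨s + 2, by omega, by omega, rfl⟩) with hc | hc | hc
      · exact absurd hc (Ane h (by omega) (by omega) (by omega))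
      · exact hc
      · exact absurd (hc.trans f1.symm) (Ane h (by omega) (by omega) (by omega))
    have f3 : t' = s + 3 := by
      by_contra hne
      rcases hout (s + 3) ((hI _).2 ⟨s + 3, by omega, by omega, rfl⟩) with hc | hc | hc
      · exact absurd hc (Ane h (by omega) (by omega) (by omega))
      · exact absurd (hc.trans f2.symm) (Ane h (by omega) (by omega) (by omega))
      · exact absurd (hc.trans f1.symm) (Ane h (by omega) (by omega) (by omega))
    subst f3
    rw [← f1]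
    refine ⟨?_, ?_⟩ <;> rintro (hc | hc) <;>
      exact absurd hc (Ane h (by omega) (by omega) (by omega))
  · have hI := fun r => intv' h t' s r (by omega) (by omega)
    rw [Df_comm] at hin
    simp only [Df_comm f (x s)] at hout
    obtain ⟨r', e1, e2, e3⟩ := (hI r0).1 hin
    have e5 : r' ≠ s - 1 := by rintro rfl; exact hp0 e3.symm
    have f1 : A (s - 1) = A r1 := by
      rcases hout (s - 1) ((hI _).2 ⟨s - 1, by omega, by omega, rfl⟩) with hc | hc | hc
      · exact absurd hc (Ane h (by omega) (by omega) (by omega))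
      · exact absurd hc hp0
      · exact hc
    have f2 : A (s - 2) = A r0 := by
      rcases hout (s - 2) ((hI _).2 ⟨s - 2, by omega, by omega, rfl⟩) with hc | hc | hc
      · exact absurd hc (Ane h (by omega) (by omega) (by omega))
      · exact hc
      · exact absurd (hc.trans f1.symm) (Ane h (by omega) (by omega) (by omega))
    have f3 : t' = s - 2 := by
      by_contra hne
      rcases hout (s - 3) ((hI _).2 ⟨s - 3, by omega, by omega, rfl⟩) with hc | hc | hc
      · exact absurd hc (Ane h (by omega) (by omega) (by omega))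
      · exact absurd (hc.trans f2.symm) (Ane h (by omega) (by omega) (by omega))
      · exact absurd (hc.trans f1.symm) (Ane h (by omega) (by omega) (by omega))
    subst f3
    rw [← f1]
    refine ⟨?_, ?_⟩ <;> rintro (hc | hc) <;>
      exact absurd hc (Ane h (by omega) (by omega) (by omega))

end Pool.Agent.P.MP_053557_co
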