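import Pool.Agent.P.MP_053557_co.Basic2

/-! The four point line and the lifting of frames along the quad. -/

namespace Pool.Agent.P.MP_053557_co

open Module Submodule

namespace Ql

variable {V : Type} [AddCommGroup V] [Module F V]

def c1 : Fin 4 → F := ![1, 0, 1, 1]
def c2 : Fin 4 → F := ![0, 1, 1, -1]

theorem qpt_eq (θ θ' : V) (w : Fin 4) : qpt θ θ' w = c1 w • θ + c2 w • θ' := by
  fin_cases w <;> simp [qpt, c1, c2, sub_eq_add_neg]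

theorem dec1 : ∀ u v u' v' u'' v'' : F, ¬ (u = 0 ∧ v = 0) → ¬ (u' = 0 ∧ v' = 0) →
    ¬ (u'' = 0 ∧ v'' = 0) → ∃ w, c1 w * u + c2 w * v ≠ 0 ∧ c1 w * u' + c2 w * v' ≠ 0 ∧
      c1 w * u'' + c2 w * v'' ≠ 0 := by decide +kernel

theorem dec2 : ∀ u v u' v' : F,
    (∀ c c' : F, c * u + c' * v = 0 → c * u' + c' * v' = 0 → c = 0 ∧ c' = 0) →
    ∃ w w' : Fin 4, w ≠ w' ∧ ∀ t, (c1 t * u + c2 t * v = 0 ∨ c1 t * u' + c2 t * v' = 0) ↔
      (t = w ∨ t = w') := by decide +kernel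

theorem u24 (G : Set V) (θ θ' : V) (hG : IsFrame G)
    (ind : ∀ c c' : F, c • θ + c' • θ' = 0 → c = 0 ∧ c' = 0)
    (hD : ∀ w, qpt θ θ' w ∈ Dset G) :
    ∃ w w' : Fin 4, w ≠ w' ∧ ∀ v, qpt θ θ' v ∈ G ↔ (v = w ∨ v = w') := by
  obtain ⟨n, b, rfl⟩ := hG
  have hr : ∀ w i, b.repr (qpt θ θ' w) i = c1 w * b.repr θ i + c2 w * b.repr θ' i := by
    intro w i; simp [qpt_eq]
  have h3 : ∀ i j k, ¬ (b.repr θ i = 0 ∧ b.repr θ' i = 0) → ¬ (b.repr θ j = 0 ∧ b.repr θ' j = 0) →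
      ¬ (b.repr θ k = 0 ∧ b.repr θ' k = 0) → i = j ∨ i = k ∨ j = k := by
    intro i j k hi hj hk
    obtain ⟨w, h1, h2, h3⟩ := dec1 _ _ _ _ _ _ hi hj hk
    exact (mem_Dset_iff b).1 (hD w) i j k (by rwa [hr]) (by rwa [hr]) (by rwa [hr])
  have hθ : θ ≠ 0 := fun h => one_ne_zero (ind 1 0 (by simp [h])).1
  obtain ⟨i, hi⟩ := exists_repr_ne b hθ
  have hi' : ¬ (b.repr θ i = 0 ∧ b.repr θ' i = 0) := fun h => hi h.1
  obtain ⟨j, hji, hj⟩ : ∃ j, j ≠ i ∧ ¬ (b.repr θ j = 0 ∧ b.repr θ' j = 0) := by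
    by_contra hc
    push Not at hc
    refine hi (neg_eq_zero.1 (ind (b.repr θ' i) (-b.repr θ i) (eq_of_repr b fun k => ?_)).2)
    by_cases hk : k = i
    · subst hk; simp [mul_comm]
    · simp [(hc k hk).1, (hc k hk).2]
  have h0 : ∀ k, k ≠ i → k ≠ j → b.repr θ k = 0 ∧ b.repr θ' k = 0 := by
    intro k hki hkj
    by_contra hk
    rcases h3 i j k hi' hj hk with h | h | h
    · exact hji h.symm
    · exact hki h.symm
    · exact hkj h.symm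
  obtain ⟨w, w', hw, h⟩ := dec2 (b.repr θ i) (b.repr θ' i) (b.repr θ j) (b.repr θ' j) (by
    intro c c' h1 h2
    refine ind c c' (eq_of_repr b fun k => ?_)
    by_cases hki : k = i
    · subst hki; simpa using h1
    by_cases hkj : k = j
    · subst hkj; simpa using h2
    simp [(h0 k hki hkj).1, (h0 k hki hkj).2])
  refine ⟨w, w', hw, fun v => ?_⟩
  rw [← h v, mem_Tset_iff, ← hr, ← hr]
  constructor
  · intro h1
    by_contra hc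
    push Not at hc
    exact hji (h1 j i hc.2 hc.1)
  · intro h1 k l hk hl
    have key : ∀ m, b.repr (qpt θ θ' v) m ≠ 0 → m = i ∨ m = j := by
      intro m hm
      by_contra hc
      push Not at hc
      simp [hr, (h0 m hc.1 hc.2).1, (h0 m hc.1 hc.2).2] at hm
    rcases key k hk with rfl | rfl <;> rcases key l hl with rfl | rfl <;> tauto

/-! ### Lifting along two extra joints -/

structure Du (U : Submodule F V) (β1 β2 : V →ₗ[F] F) (x1 x2 : V) : Prop where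
  mem : ∀ x, x ∈ U ↔ β1 x = 0 ∧ β2 x = 0
  h11 : β1 x1 = 1
  h12 : β1 x2 = 0
  h21 : β2 x1 = 0
  h22 : β2 x2 = 1

def Lf {U : Submodule F V} (G : Set U) (x1 x2 : V) : Set V :=
  {x | (∃ z ∈ G, x = (z : V)) ∨ x = x1 ∨ x = -x1 ∨ x = x2 ∨ x = -x2}

section lift

variable {U : Submodule F V} {β1 β2 : V →ₗ[F] F} {x1 x2 : V} {G : Set U}

theorem Du.symm (h : Du U β1 β2 x1 x2) : Du U β2 β1 x2 x1 :=
  ⟨fun x => (h.mem x).trans and_comm, h.h22, h.h21, h.h12, h.h11⟩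

theorem Lf_comm (G : Set U) (x1 x2 : V) : Lf G x1 x2 = Lf G x2 x1 := by
  ext x; exact or_congr_right (by tauto)

theorem Du.z1 (h : Du U β1 β2 x1 x2) (z : U) : β1 z = 0 := ((h.mem _).1 z.2).1
theorem Du.z2 (h : Du U β1 β2 x1 x2) (z : U) : β2 z = 0 := ((h.mem _).1 z.2).2

theorem coe_mem {z : U} (hz : z ∈ G) : (z : V) ∈ Lf G x1 x2 := Or.inl ⟨z, hz, rfl⟩

theorem Lf_cases {x : V} (hx : x ∈ Lf G x1 x2) : (∃ z ∈ G, x = (z : V)) ∨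
    (∃ c : F, c ≠ 0 ∧ x = c • x1) ∨ ∃ c : F, c ≠ 0 ∧ x = c • x2 := by
  rcases hx with h | rfl | rfl | rfl | rfl
  · exact Or.inl h
  · exact Or.inr (Or.inl ⟨1, one_ne_zero, by simp⟩)
  · exact Or.inr (Or.inl ⟨-1, by decide, by simp⟩)
  · exact Or.inr (Or.inr ⟨1, one_ne_zero, by simp⟩)
  · exact Or.inr (Or.inr ⟨-1, by decide, by simp⟩)

theorem Du.mem_of (h : Du U β1 β2 x1 x2) {z : U} (hx : (z : V) ∈ Lf G x1 x2) : z ∈ G := by
  rcases Lf_cases hx with ⟨z', hz, h1⟩ | ⟨c, hc, h1⟩ | ⟨c, hc, h1⟩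
  · rwa [Subtype.ext h1]
  · have := h.z1 z
    rw [h1] at this; simp [h.h11, hc] at this
  · have := h.z2 z
    rw [h1] at this; simp [h.h22, hc] at this

theorem Du.mul (h : Du U β1 β2 x1 x2) {x : V} (hx : x ∈ Lf G x1 x2) : β1 x * β2 x = 0 := by
  rcases Lf_cases hx with ⟨z, -, rfl⟩ | ⟨c, -, rfl⟩ | ⟨c, -, rfl⟩
  · simp [h.z1]
  · simp [h.h21]
  · simp [h.h12]

theorem Du.pair (h : Du U β1 β2 x1 x2) {x y : V} (hx : x ∈ Lf G x1 x2) (hy : y ∈ Lf G x1 x2)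
    (hne : x ≠ y) (hd : y - x ∈ U) : x ∈ U ∧ y ∈ U := by
  obtain ⟨h1, h2⟩ := (h.mem _).1 hd
  rw [map_sub, sub_eq_zero] at h1 h2
  rcases Lf_cases hx with ⟨z, -, rfl⟩ | ⟨c, hc, rfl⟩ | ⟨c, hc, rfl⟩ <;>
    rcases Lf_cases hy with ⟨z', -, rfl⟩ | ⟨c', hc', rfl⟩ | ⟨c', hc', rfl⟩ <;>
    simp_all [h.z1, h.z2, h.h11, h.h12, h.h21, h.h22, eq_comm]

theorem Du.dset (h : Du U β1 β2 x1 x2) (h0 : (0 : U) ∈ G) {z : U}
    (hz : (z : V) ∈ Dset (Lf G x1 x2)) : z ∈ Dset G := by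
  obtain ⟨x, hx, y, hy, he⟩ := hz
  by_cases hne : y = x
  · exact ⟨0, h0, 0, h0, Subtype.ext (by simp [he, hne])⟩
  obtain ⟨h1, h2⟩ := h.pair hy hx hne (he ▸ z.2)
  exact ⟨⟨x, h2⟩, h.mem_of hx, ⟨y, h1⟩, h.mem_of hy, Subtype.ext he⟩

theorem coe_dset {z : U} (hz : z ∈ Dset G) : (z : V) ∈ Dset (Lf G x1 x2) := by
  obtain ⟨x, hx, y, hy, rfl⟩ := hz
  exact ⟨x, coe_mem hx, y, coe_mem hy, rfl⟩

theorem Du.two (h : Du U β1 β2 x1 x2) {e : V} (he : e ∈ Dset (Lf G x1 x2)) (h1 : β1 e ≠ 0)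
    (h2 : β2 e ≠ 0) : e = β1 e • x1 + β2 e • x2 := by
  obtain ⟨x, hx, y, hy, rfl⟩ := he
  rcases Lf_cases hx with ⟨z, -, rfl⟩ | ⟨c, hc, rfl⟩ | ⟨c, hc, rfl⟩ <;>
    rcases Lf_cases hy with ⟨z', -, rfl⟩ | ⟨c', hc', rfl⟩ | ⟨c', hc', rfl⟩ <;>
    simp [h.z1, h.z2, h.h11, h.h12, h.h21, h.h22] at h1 h2 ⊢ <;> abel

theorem Du.star (h : Du U β1 β2 x1 x2) (G : Set U) : IsStar (Lf G x1 x2) β1 := by
  refine ⟨x1, Or.inr (Or.inl rfl), h.h11, ?_⟩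
  rintro y (⟨z, -, rfl⟩ | rfl | rfl | rfl | rfl) h1 h2
  · exact h.z1 z
  · exact absurd rfl h1
  · exact absurd rfl h2
  · exact h.h12
  · simp [h.h12]

theorem Du.star2 (h : Du U β1 β2 x1 x2) (G : Set U) : IsStar (Lf G x1 x2) β2 :=
  Lf_comm G x2 x1 ▸ h.symm.star G

theorem star_lift {ψ : U →ₗ[F] F} {Ψ : V →ₗ[F] F} (hs : IsStar G ψ) (he : ∀ z : U, Ψ z = ψ z)
    (h1 : Ψ x1 = 0) (h2 : Ψ x2 = 0) : IsStar (Lf G x1 x2) Ψ := by
  obtain ⟨z, hz, hz1, hz2⟩ := hs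
  refine ⟨z, coe_mem hz, by rw [he, hz1], ?_⟩
  rintro y (⟨z', hz', rfl⟩ | rfl | rfl | rfl | rfl) h3 h4
  · rw [he]
    exact hz2 z' hz' (fun hc => h3 (by rw [hc])) fun hc => h4 (by rw [hc]; rfl)
  all_goals simp [h1, h2]

theorem Du.proj (h : Du U β1 β2 x1 x2) (x : V) : x - β1 x • x1 - β2 x • x2 ∈ U := by
  simp [h.mem, h.h11, h.h12, h.h21, h.h22]

theorem Du.frame (h : Du U β1 β2 x1 x2) {T : Set V} (hT : IsFrame T)
    (he : T = Lf (Subtype.val ⁻¹' T : Set U) x1 x2) : IsFrame (Subtype.val ⁻¹' T : Set U) := by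
  have s1 := h.star (Subtype.val ⁻¹' T : Set U)
  have s2 := h.star2 (Subtype.val ⁻¹' T : Set U)
  rw [← he] at s1 s2
  obtain ⟨n, b, rfl⟩ := hT
  obtain ⟨i, c, hc, h1⟩ := (isStar_iff b).1 s1
  obtain ⟨j, d, hd, h2⟩ := (isStar_iff b).1 s2
  refine isFrame_comap b U {i, j} fun x => ?_
  simp [h.mem, h1, h2, hc, hd]

theorem Du.basis (h : Du U β1 β2 x1 x2) {n : ℕ} (g : Basis (Fin n) F U) :
    ∃ b : Basis (Fin n ⊕ Fin 2) F V, (∀ m, b (Sum.inl m) = g m) ∧ Tset b = Lf (Tset g) x1 x2 ∧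
      b.coord (Sum.inr 0) = β1 ∧ b.coord (Sum.inr 1) = β2 := by
  let v : Fin n ⊕ Fin 2 → V := Sum.elim (fun m => g m) ![x1, x2]
  have hli : LinearIndependent F v := by
    rw [Fintype.linearIndependent_iff]
    intro c hc
    have e1 := congrArg β1 hc
    have e2 := congrArg β2 hc
    simp [v, h.z1, h.z2, h.h11, h.h12, h.h21, h.h22] at e1 e2
    simp only [v, Fintype.sum_sum_type, Fin.sum_univ_two, e1, e2, zero_smul, add_zero,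
      Sum.elim_inl] at hc
    have e3 := Fintype.linearIndependent_iff.1 g.linearIndependent (fun m => c (Sum.inl m))
      (Subtype.ext (by simpa using hc))
    rintro (m | m)
    · exact e3 m
    · fin_cases m
      · exact e1
      · exact e2
  have hsp : ⊤ ≤ span F (Set.range v) := by
    intro x _
    have e1 := congrArg Subtype.val (g.sum_repr ⟨_, h.proj x⟩)
    simp only [AddSubmonoidClass.coe_finsetSum, SetLike.val_smul] at e1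
    have e2 : x = (x - β1 x • x1 - β2 x • x2) + β1 x • x1 + β2 x • x2 := by abel
    rw [e2, ← e1]
    refine add_mem (add_mem (sum_mem fun m _ => smul_mem _ _ (subset_span ⟨Sum.inl m, rfl⟩))
      (smul_mem _ _ (subset_span ⟨Sum.inr 0, rfl⟩))) (smul_mem _ _ (subset_span ⟨Sum.inr 1, rfl⟩))
  have hb : ∀ i, Basis.mk hli hsp i = v i := fun i => by simp
  refine ⟨Basis.mk hli hsp, fun m => hb _, ?_, ?_, ?_⟩
  · ext x
    simp only [Tset, Lf, hb, v, Set.mem_ofPred_eq, Sum.exists, Sum.elim_inl, Sum.elim_inr,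
      Fin.exists_fin_two, Matrix.cons_val_zero, Matrix.cons_val_one]
    constructor
    · rintro (rfl | ⟨m, rfl | rfl⟩ | h)
      · exact Or.inl ⟨0, Or.inl rfl, rfl⟩
      · exact Or.inl ⟨g m, Or.inr ⟨m, Or.inl rfl⟩, rfl⟩
      · exact Or.inl ⟨-g m, Or.inr ⟨m, Or.inr rfl⟩, rfl⟩
      · tauto
    · rintro (⟨z, rfl | ⟨m, rfl | rfl⟩, rfl⟩ | h)
      · exact Or.inl rfl
      · exact Or.inr (Or.inl ⟨m, Or.inl rfl⟩)
      · exact Or.inr (Or.inl ⟨m, Or.inr rfl⟩)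
      · tauto
  all_goals
    refine (Basis.mk hli hsp).ext fun i => ?_
    rw [Basis.coord_apply, repr_basis, hb]
    rcases i with m | m
    · simp [v, h.z1, h.z2]
    · fin_cases m <;> simp [v, h.h11, h.h12, h.h21, h.h22]

end lift

theorem star_two {T : Set V} {φ : V →ₗ[F] F} (h : IsStar T φ) {y y' : V} (hy : y ∈ T)
    (hy' : y' ∈ T) (h1 : φ y ≠ 0) (h2 : φ y' ≠ 0) : y = y' ∨ y = -y' := by
  obtain ⟨x, -, -, hx⟩ := h
  have k : ∀ t ∈ T, φ t ≠ 0 → t = x ∨ t = -x := fun t ht h0 => by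
    by_contra hc
    push Not at hc
    exact h0 (hx t ht hc.1 hc.2)
  rcases k y hy h1 with rfl | rfl <;> rcases k y' hy' h2 with h | h <;> simp [h]

theorem core_false {G H : Set V} (h : CoreLink G H) {z : V} (hz : z ∈ G) (h0 : z ≠ 0)
    (hD : z ∈ Dset H) : False := by
  rcases h with ⟨a, b, rfl, rfl, h⟩ | ⟨a, b, rfl, rfl, h⟩
  all_goals
    rcases mem_Tset_iff_smul.1 hz with rfl | ⟨i, c, hc, rfl⟩
    · exact h0 rfl
    have k : ∀ l, b.repr (c • a i) l ≠ 0 := fun l => by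
      rw [map_smul, Finsupp.smul_apply, h, smul_eq_mul]
      refine mul_ne_zero hc ?_
      clear hz h0 hD; revert l i; decide
    have := (mem_Dset_iff b).1 hD 0 1 2 (k _) (k _) (k _)
    revert this; decide

theorem two_of {p : Fin 4 → Prop} (h : ∃ w w' : Fin 4, w ≠ w' ∧ ∀ v, p v ↔ (v = w ∨ v = w'))
    {s t : Fin 4} (hst : s ≠ t) (hs : p s) (ht : p t) (v : Fin 4) : p v ↔ (v = s ∨ v = t) := by
  obtain ⟨w, w', -, h⟩ := h
  rw [h] at hs ht ⊢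
  rcases hs with rfl | rfl <;> rcases ht with rfl | rfl <;> tauto

/-! ### The quad -/

def lin (a1 a2 θ θ' : V) (c : Fin 4 → F) : V := c 0 • a1 + c 1 • a2 + c 2 • θ + c 3 • θ'

def ph (α1 α2 : V →ₗ[F] F) : Fin 4 → V →ₗ[F] F := ![α1, α2, α1 + α2, α2 - α1]

def p1 : Fin 4 → F := ![1, 0, 1, -1]
def p2 : Fin 4 → F := ![0, 1, 1, 1]

theorem ph_eq (α1 α2 : V →ₗ[F] F) (w : Fin 4) (x : V) :
    ph α1 α2 w x = p1 w * α1 x + p2 w * α2 x := by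
  fin_cases w <;> simp [ph, p1, p2]; ring

theorem dec3 : ∀ w w' : Fin 4, w ≠ w' → (p1 w * qtab w w' 0 + p2 w * qtab w w' 1 = 1 ∧
    p1 w * qtab w' w 0 + p2 w * qtab w' w 1 = 0) ∧
    ∀ u v : F, p1 w * u + p2 w * v = 0 → p1 w' * u + p2 w' * v = 0 → u = 0 ∧ v = 0 := by
  decide +kernel

def jt (w w' : Fin 4) : Fin 4 → Fin 4 → F :=
  ![qtab w w', qtab w' w, ![0, 0, c1 w, c2 w], ![0, 0, c1 w', c2 w']]

theorem dec4 : ∀ w w' : Fin 4, w ≠ w' → ∀ c d : F, c ≠ 0 → d ≠ 0 →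
    (∃ i j, ∃ s t : F, ∀ l, c * qtab 0 1 l + d * qtab 1 0 l = s * jt w w' i l - t * jt w w' j l) ∧
    ∃ i j, ∃ s t : F, ∀ l, c * qtab 2 3 l + d * qtab 3 2 l = s * jt w w' i l - t * jt w w' j l := by
  decide +kernel

theorem dec5 : ∀ u v : F, (u = 0 ∧ v = 0) ∨ (u ≠ 0 ∧ v ≠ 0) ∨ (u + v ≠ 0 ∧ v - u ≠ 0) := by decide

theorem dec6 : ∀ u v : F, u * v = 0 → (u + v) * (v - u) = 0 → u = 0 ∧ v = 0 := by decide

theorem dec7 : ∀ w w' : Fin 4, w ≠ w' → (∀ s : F, c1 w - s * c1 w' = 0 → c2 w - s * c2 w' ≠ 0) ∧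
    ∀ u v : F, c1 w * u + c2 w * v = 0 → c1 w' * u + c2 w' * v = 0 → u = 0 ∧ v = 0 := by
  decide +kernel

theorem QL_eq {U : Submodule F V} (a1 a2 θ θ' : V) {G : Set U} {w w' : Fin 4} (hw : w ≠ w')
    (h : ∀ v, (∃ z ∈ G, qpt θ θ' v = (z : V)) ↔ (v = w ∨ v = w')) :
    QL U a1 a2 θ θ' G = Lf G (lin a1 a2 θ θ' (qtab w w')) (lin a1 a2 θ θ' (qtab w' w)) := by
  ext x
  simp only [QL, Lf, lin, h, Set.mem_ofPred_eq]
  refine or_congr_right ⟨?_, ?_⟩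
  · rintro ⟨s, t, hst, rfl | rfl, rfl | rfl, h1⟩ <;> tauto
  · rintro (h1 | h1 | h1 | h1)
    · exact ⟨w, w', hw, Or.inl rfl, Or.inr rfl, Or.inl h1⟩
    · exact ⟨w, w', hw, Or.inl rfl, Or.inr rfl, Or.inr h1⟩
    · exact ⟨w', w, hw.symm, Or.inr rfl, Or.inl rfl, Or.inl h1⟩
    · exact ⟨w', w, hw.symm, Or.inr rfl, Or.inl rfl, Or.inr h1⟩

section quad

variable {A B : Set V} {U : Submodule F V} {α1 α2 : V →ₗ[F] F} {a1 a2 θ θ' : V}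
  (h : Qd A B U α1 α2 a1 a2 θ θ')
include h

theorem du {w w' : Fin 4} (hw : w ≠ w') : Du U (ph α1 α2 w) (ph α1 α2 w')
    (lin a1 a2 θ θ' (qtab w w')) (lin a1 a2 θ θ' (qtab w' w)) := by
  obtain ⟨t1, t2⟩ := (h.memU _).1 h.θU
  obtain ⟨t3, t4⟩ := (h.memU _).1 h.θU'
  have k1 : ∀ c, α1 (lin a1 a2 θ θ' c) = c 0 := fun c => by simp [lin, h.h11, h.h12, t1, t3]
  have k2 : ∀ c, α2 (lin a1 a2 θ θ' c) = c 1 := fun c => by simp [lin, h.h21, h.h22, t2, t4]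
  refine ⟨fun x => ?_, ?_, ?_, ?_, ?_⟩
  · rw [h.memU, ph_eq, ph_eq]
    exact ⟨fun k => by simp [k.1, k.2], fun k => (dec3 w w' hw).2 _ _ k.1 k.2⟩
  all_goals rw [ph_eq, k1, k2]
  · exact (dec3 w w' hw).1.1
  · exact (dec3 w w' hw).1.2
  · exact (dec3 w' w hw.symm).1.2
  · exact (dec3 w' w hw.symm).1.1

theorem eqA : A = Lf (Subtype.val ⁻¹' A : Set U) (lin a1 a2 θ θ' (qtab 0 1))
    (lin a1 a2 θ θ' (qtab 1 0)) := by
  ext x
  rw [h.hA]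
  have e1 : lin a1 a2 θ θ' (qtab 0 1) = a1 := by simp [lin, qtab]
  have e2 : lin a1 a2 θ θ' (qtab 1 0) = a2 := by simp [lin, qtab]
  rw [e1, e2]
  refine or_congr_left ⟨fun k => ⟨⟨x, k.2⟩, k.1, rfl⟩, ?_⟩
  rintro ⟨z, hz, rfl⟩
  exact ⟨hz, z.2⟩

theorem eqB : B = Lf (Subtype.val ⁻¹' B : Set U) (lin a1 a2 θ θ' (qtab 2 3))
    (lin a1 a2 θ θ' (qtab 3 2)) := by
  ext x
  rw [h.hB]
  have e1 : lin a1 a2 θ θ' (qtab 2 3) = -(a1 + a2) - (θ + θ') := by simp [lin, qtab]; abel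
  have e2 : lin a1 a2 θ θ' (qtab 3 2) = a1 - a2 + (θ - θ') := by simp [lin, qtab]; abel
  have e3 : -(-(a1 + a2) - (θ + θ')) = a1 + a2 + (θ + θ') := by abel
  unfold Lf
  rw [e1, e2, e3]
  refine or_congr_left ⟨fun k => ⟨⟨x, k.2⟩, k.1, rfl⟩, ?_⟩
  rintro ⟨z, hz, rfl⟩
  exact ⟨hz, z.2⟩

theorem qU (w : Fin 4) : qpt θ θ' w ∈ U := by
  rw [qpt_eq]; exact add_mem (smul_mem _ _ h.θU) (smul_mem _ _ h.θU')

theorem qA (w : Fin 4) : qpt θ θ' w ∈ Dset A := by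
  fin_cases w
  · exact h.frA.subset_Dset h.θA
  · exact h.frA.subset_Dset h.θA'
  · exact ⟨θ, h.θA, -θ', h.frA.neg_mem h.θA', by simp [qpt]⟩
  · exact ⟨θ, h.θA, θ', h.θA', rfl⟩

theorem qB (w : Fin 4) : qpt θ θ' w ∈ Dset B := by
  fin_cases w
  · refine ⟨_, h.frB.neg_mem h.sB, _, h.wB, ?_⟩
    change θ = _
    linear_combination (norm := module) three θ
  · refine ⟨_, h.wB, _, h.sB, ?_⟩
    change θ' = _
    linear_combination (norm := module) three θ'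
  · exact h.frB.subset_Dset h.sB
  · exact h.frB.subset_Dset h.wB

theorem q_ed {G : Set U} (hG : Ok (Subtype.val ⁻¹' A) (Subtype.val ⁻¹' B) G) (w : Fin 4) :
    (⟨_, qU h w⟩ : U) ∈ Dset G := by
  refine hG.2.ed_subset ⟨(du h (w := 0) (w' := 1) (by decide)).dset h.frA.zero_mem ?_,
    (du h (w := 2) (w' := 3) (by decide)).dset h.frB.zero_mem ?_⟩
  · rw [← eqA h]; exact qA h w
  · rw [← eqB h]; exact qB h w

theorem pairG {G : Set U} (hG : Ok (Subtype.val ⁻¹' A) (Subtype.val ⁻¹' B) G) :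
    ∃ w w' : Fin 4, w ≠ w' ∧ ∀ v, (∃ z ∈ G, qpt θ θ' v = (z : V)) ↔ (v = w ∨ v = w') := by
  have e : ∀ w, qpt (⟨θ, h.θU⟩ : U) ⟨θ', h.θU'⟩ w = ⟨_, qU h w⟩ := fun w =>
    Subtype.ext (by simp [qpt_eq])
  obtain ⟨w, w', hw, k⟩ := u24 G ⟨θ, h.θU⟩ ⟨θ', h.θU'⟩ hG.1
    (fun c c' hc => h.ind c c' (congrArg Subtype.val hc)) fun w => e w ▸ q_ed h hG w
  refine ⟨w, w', hw, fun v => ?_⟩
  rw [← k, e]
  exact ⟨fun ⟨z, hz, k1⟩ => by rwa [show (⟨_, qU h v⟩ : U) = z from Subtype.ext k1],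
    fun k1 => ⟨_, k1, rfl⟩⟩

theorem pre {T : Set V} (v : Fin 4) :
    (∃ z ∈ (Subtype.val ⁻¹' T : Set U), qpt θ θ' v = (z : V)) ↔ qpt θ θ' v ∈ T :=
  ⟨fun ⟨_, hz, k⟩ => k ▸ hz, fun k => ⟨⟨_, qU h v⟩, k, rfl⟩⟩

theorem old_star (w : Fin 4) : ∃ T, IsFrame T ∧ Rr A B T ∧ IsStar T (ph α1 α2 w) := by
  have d1 := du h (w := 0) (w' := 1) (by decide)
  have d2 := du h (w := 2) (w' := 3) (by decide)
  fin_cases w
  · exact ⟨A, h.frA, rr_left A B, by rw [eqA h]; exact d1.star _⟩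
  · exact ⟨A, h.frA, rr_left A B, by rw [eqA h]; exact d1.star2 _⟩
  · exact ⟨B, h.frB, rr_right A B, by rw [eqB h]; exact d2.star _⟩
  · exact ⟨B, h.frB, rr_right A B, by rw [eqB h]; exact d2.star2 _⟩

theorem ok_lift (rc : S_RC) {G : Set U} (hG : Ok (Subtype.val ⁻¹' A) (Subtype.val ⁻¹' B) G) :
    Ok A B (QL U a1 a2 θ θ' G) := by
  classical
  obtain ⟨w, w', hw, k⟩ := pairG h hG
  have d1 := du h (w := 0) (w' := 1) (by decide)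
  have d2 := du h (w := 2) (w' := 3) (by decide)
  obtain ⟨⟨n, g, rfl⟩, hR⟩ := hG
  obtain ⟨b, hb, hT, s1, s2⟩ := (du h hw).basis g
  rw [QL_eq a1 a2 θ θ' hw k, ← hT]
  refine ⟨isFrame_basis b, rc A B b (Set.range Sum.inl) h.frA h.frB ?_ ?_ ?_ (Or.inr (Or.inr ?_))⟩
  · rintro e ⟨e1, e2⟩
    rw [eqA h] at e1
    rw [eqB h] at e2
    have hj : ∀ i, lin a1 a2 θ θ' (jt w w' i) ∈ Tset b := by
      intro i
      rw [hT]
      fin_cases i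
      · exact Or.inr (Or.inl rfl)
      · exact Or.inr (Or.inr (Or.inr (Or.inl rfl)))
      · obtain ⟨z, hz, k1⟩ := (k w).2 (Or.inl rfl)
        exact Or.inl ⟨z, hz, by simp [← k1, lin, jt, qpt_eq]⟩
      · obtain ⟨z, hz, k1⟩ := (k w').2 (Or.inr rfl)
        exact Or.inl ⟨z, hz, by simp [← k1, lin, jt, qpt_eq]⟩
    have fin : ∀ (X Y : Fin 4 → F) (c d : F), (∃ i j, ∃ s t : F, ∀ l,
        c * X l + d * Y l = s * jt w w' i l - t * jt w w' j l) →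
        c • lin a1 a2 θ θ' X + d • lin a1 a2 θ θ' Y ∈ Dset (Tset b) := by
      rintro X Y c d ⟨i, j, s, t, k1⟩
      refine ⟨_, smul_mem_Tset s (hj i), _, smul_mem_Tset t (hj j), ?_⟩
      unfold lin
      linear_combination (norm := module) k1 0 • a1 + k1 1 • a2 + k1 2 • θ + k1 3 • θ'
    rcases dec5 (α1 e) (α2 e) with k1 | k1 | k1
    · rw [hT]
      exact coe_dset (z := ⟨e, (h.memU e).2 k1⟩)
        (hR.ed_subset ⟨d1.dset h.frA.zero_mem e1, d2.dset h.frB.zero_mem e2⟩)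
    · rw [d1.two e1 k1.1 k1.2]
      exact fin _ _ _ _ (dec4 w w' hw _ _ k1.1 k1.2).1
    · rw [d2.two e2 k1.1 k1.2]
      exact fin _ _ _ _ (dec4 w w' hw _ _ k1.1 k1.2).2
  · rintro x ⟨e1, e2⟩
    have hx := (h.memU x).2 (dec6 _ _ (d1.mul (eqA h ▸ e1)) (d2.mul (eqB h ▸ e2)))
    rw [hT]
    exact coe_mem (z := ⟨x, hx⟩) (hR.inter_subset ⟨e1, e2⟩)
  · rintro (m | m) hm
    · exact absurd ⟨m, rfl⟩ hm
    · fin_cases m
      · exact s1.symm ▸ old_star h w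
      · exact s2.symm ▸ old_star h w'
  · intro u x0 m0 x1 m1 x2 m2 x3 m3 n0 n1 n2 n3 d01 d02 d03 _ _ _ s1 s2 s3
    have hle : span F (b '' Set.range Sum.inl) ≤ U := by
      rw [span_le]
      rintro _ ⟨_, ⟨m, rfl⟩, rfl⟩
      rw [hb]; exact (g m).2
    have k1 := d1.pair (eqA h ▸ m0) (eqA h ▸ m1) d01 (hle s1)
    have k2 := (d1.pair (eqA h ▸ m0) (eqA h ▸ m2) d02 (hle s2)).2
    have k3 := (d1.pair (eqA h ▸ m0) (eqA h ▸ m3) d03 (hle s3)).2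
    have k4 := (d2.pair (eqB h ▸ n0) (eqB h ▸ n1) (by simpa using d01)
      (by simpa using hle s1)).1
    obtain ⟨u', -, k5⟩ := hR ⟨u, by simpa using U.sub_mem k4 k1.1⟩
    rw [hT]
    exact ⟨u', coe_mem (k5 ⟨x0, k1.1⟩ m0 n0), coe_mem (k5 ⟨x1, k1.2⟩ m1 n1),
      coe_mem (k5 ⟨x2, k2⟩ m2 n2), coe_mem (k5 ⟨x3, k3⟩ m3 n3)⟩

theorem star_new {G : Set U} (hG : Ok (Subtype.val ⁻¹' A) (Subtype.val ⁻¹' B) G) {v : Fin 4}
    (hv : ∃ z ∈ G, qpt θ θ' v = (z : V)) : IsStar (QL U a1 a2 θ θ' G) (ph α1 α2 v) := by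
  obtain ⟨w, w', hw, k⟩ := pairG h hG
  rw [QL_eq a1 a2 θ θ' hw k]
  rcases (k v).1 hv with rfl | rfl
  · exact (du h hw).star G
  · exact (du h hw).star2 G

theorem q_ne {w w' : Fin 4} (hw : w ≠ w') (s : F) : qpt θ θ' w ≠ s • qpt θ θ' w' := by
  intro k
  rw [qpt_eq, qpt_eq] at k
  obtain ⟨k1, k2⟩ := h.ind (c1 w - s * c1 w') (c2 w - s * c2 w')
    (by linear_combination (norm := module) k)
  exact (dec7 w w' hw).1 s k1 k2

theorem star_kill {G : Set U} (hG : Ok (Subtype.val ⁻¹' A) (Subtype.val ⁻¹' B) G)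
    {ψ : U →ₗ[F] F} (hs : IsStar G ψ) : ∃ v, (∃ z ∈ G, qpt θ θ' v = (z : V)) ∧
      c1 v * ψ ⟨θ, h.θU⟩ + c2 v * ψ ⟨θ', h.θU'⟩ = 0 := by
  obtain ⟨w, w', hw, k⟩ := pairG h hG
  have e : ∀ v z, qpt θ θ' v = (z : U) → c1 v * ψ ⟨θ, h.θU⟩ + c2 v * ψ ⟨θ', h.θU'⟩ = ψ z := by
    intro v z k1
    rw [← smul_eq_mul, ← smul_eq_mul, ← map_smul, ← map_smul, ← map_add]
    exact congrArg ψ (Subtype.ext (by simp [← k1, qpt_eq]))
  obtain ⟨z, hz, k1⟩ := (k w).2 (Or.inl rfl)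
  obtain ⟨z', hz', k2⟩ := (k w').2 (Or.inr rfl)
  by_cases z0 : ψ z = 0
  · exact ⟨w, ⟨z, hz, k1⟩, (e w z k1).trans z0⟩
  by_cases z1 : ψ z' = 0
  · exact ⟨w', ⟨z', hz', k2⟩, (e w' z' k2).trans z1⟩
  rcases star_two hs hz hz' z0 z1 with rfl | rfl
  · exact absurd (by simp [k1, k2]) (q_ne h hw 1)
  · exact absurd (by simp [k1, k2]) (q_ne h hw (-1))

theorem no_core {G H : Set U} (hG : Ok (Subtype.val ⁻¹' A) (Subtype.val ⁻¹' B) G)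
    (hH : Ok (Subtype.val ⁻¹' A) (Subtype.val ⁻¹' B) H) : ¬ CoreLink G H := by
  intro hc
  obtain ⟨w, w', hw, k⟩ := pairG h hG
  obtain ⟨z, hz, k1⟩ := (k w).2 (Or.inl rfl)
  refine core_false hc hz ?_ ?_
  · rintro rfl
    exact q_ne h hw 0 (by simpa using k1)
  · rw [← show (⟨_, qU h w⟩ : U) = z from Subtype.ext k1]
    exact q_ed h hH w

theorem share_lift {G H : Set U} (hG : Ok (Subtype.val ⁻¹' A) (Subtype.val ⁻¹' B) G)
    (hH : Ok (Subtype.val ⁻¹' A) (Subtype.val ⁻¹' B) H)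
    (hl : Link G H ∨ ∃ w, (∃ z ∈ G, qpt θ θ' w = (z : V)) ∧ ∃ z ∈ H, qpt θ θ' w = (z : V)) :
    Share (QL U a1 a2 θ θ' G) (QL U a1 a2 θ θ' H) := by
  by_cases hc : ∃ w, (∃ z ∈ G, qpt θ θ' w = (z : V)) ∧ ∃ z ∈ H, qpt θ θ' w = (z : V)
  · obtain ⟨w, h1, h2⟩ := hc
    exact ⟨_, star_new h hG h1, star_new h hH h2⟩
  rcases hl.resolve_right hc with ⟨ψ, s1, s2⟩ | k | k
  swap
  · exact absurd k (no_core h hG hH)
  swap
  · exact absurd k (no_core h hH hG)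
  obtain ⟨v, m1, k1⟩ := star_kill h hG s1
  obtain ⟨v', m2, k2⟩ := star_kill h hH s2
  obtain ⟨t1, t2⟩ := (dec7 v v' (by rintro rfl; exact hc ⟨v, m1, m2⟩)).2 _ _ k1 k2
  have d : Du U α1 α2 a1 a2 := ⟨h.memU, h.h11, h.h12, h.h21, h.h22⟩
  let P : V →ₗ[F] U := LinearMap.codRestrict U
    (LinearMap.id - α1.smulRight a1 - α2.smulRight a2) d.proj
  have hP : ∀ z : U, P z = z := fun z => Subtype.ext (by simp [P, d.z1, d.z2])
  have hl : ∀ c, (ψ ∘ₗ P) (lin a1 a2 θ θ' c) = 0 := by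
    intro c
    have e1 : P a1 = 0 := Subtype.ext (by simp [P, h.h11, h.h21])
    have e2 : P a2 = 0 := Subtype.ext (by simp [P, h.h12, h.h22])
    have e3 : ψ (P θ) = 0 := by rw [hP ⟨θ, h.θU⟩, t1]
    have e4 : ψ (P θ') = 0 := by rw [hP ⟨θ', h.θU'⟩, t2]
    simp [lin, e1, e2, e3, e4]
  obtain ⟨w, w', hw, k⟩ := pairG h hG
  obtain ⟨r, r', hr, k'⟩ := pairG h hH
  rw [QL_eq a1 a2 θ θ' hw k, QL_eq a1 a2 θ θ' hr k']
  exact ⟨ψ ∘ₗ P, star_lift s1 (fun z => by simp [hP]) (hl _) (hl _),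
    star_lift s2 (fun z => by simp [hP]) (hl _) (hl _)⟩

end quad

end Ql

theorem s_u24 : S_U24 := fun G θ θ' => Ql.u24 G θ θ'

theorem s_ql (rc : S_RC) : S_QL := by
  intro V _ _ A B U α1 α2 a1 a2 θ θ' h
  refine ⟨?_, ?_, fun G hG => Ql.ok_lift h rc hG, fun G H hG hH => Ql.share_lift h hG hH⟩
  · rw [Ql.QL_eq a1 a2 θ θ' (w := 0) (w' := 1) (by decide), ← Ql.eqA h]
    intro v
    rw [Ql.pre h]
    exact Ql.two_of (Ql.u24 A θ θ' h.frA h.ind (Ql.qA h)) (s := 0) (t := 1) (by decide)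
      h.θA h.θA' v
  · rw [Ql.QL_eq a1 a2 θ θ' (w := 2) (w' := 3) (by decide), ← Ql.eqB h]
    intro v
    rw [Ql.pre h]
    exact Ql.two_of (Ql.u24 B θ θ' h.frB h.ind (Ql.qB h)) (s := 2) (t := 3) (by decide)
      h.sB h.wB v

end Pool.Agent.P.MP_053557_co
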