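import Pool.Agent.P.MP_053557_co.Basic2

/-! The quad case: reduction to a subspace of codimension two. -/

namespace Pool.Agent.P.MP_053557_co

open Module Submodule

namespace Quad

variable {V : Type} [AddCommGroup V] [Module F V] {ι κ : Type}

/-- An edge lying in a coordinate subspace is an edge of the induced frame. -/
theorem dset_comap (b : Basis ι F V) (U : Submodule F V) (S : Set ι)
    (hU : ∀ x, x ∈ U ↔ ∀ i ∈ S, b.repr x i = 0) {e : ↥U} (he : (e : V) ∈ Dset (Tset b)) :
    e ∈ Dset (Subtype.val ⁻¹' Tset b : Set ↥U) := by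
  by_cases h0 : (e : V) = 0
  · refine ⟨0, zero_mem_Tset b, 0, zero_mem_Tset b, Subtype.ext ?_⟩
    simp [h0]
  obtain ⟨i, hi⟩ := exists_repr_ne b h0
  have hiS : i ∉ S := fun hc => hi ((hU _).1 e.2 i hc)
  have hb : b i ∈ U := (hU _).2 fun k hk => repr_basis_ne b fun hc => hiS (hc ▸ hk)
  refine ⟨e - b.repr e i • ⟨b i, hb⟩, ?_, -(b.repr e i • ⟨b i, hb⟩), ?_, by simp⟩
  · exact sub_mem_Tset b he hi
  · exact neg_mem_Tset (smul_mem_Tset _ (self_mem_Tset b i))

/-- Two nonzero vectors that differ up to sign are independent. -/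
theorem ind_of_joints {s t : V}
    (hs0 : s ≠ 0) (ht0 : t ≠ 0) (h1 : s ≠ t) (h2 : s ≠ -t) {c d : F} (h : c • s + d • t = 0) :
    c = 0 ∧ d = 0 := by
  rcases F_cases c with rfl | rfl | rfl <;> rcases F_cases d with rfl | rfl | rfl
  · exact ⟨rfl, rfl⟩
  · exact absurd (by simpa using h) ht0
  · exact absurd (by simpa using h) ht0
  · exact absurd (by simpa using h) hs0
  · exact absurd (by linear_combination (norm := module) h) h2
  · exact absurd (by linear_combination (norm := module) h) h1
  · exact absurd (by simpa using h) hs0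
  · exact absurd (by linear_combination (norm := module) -h) h1
  · exact absurd (by linear_combination (norm := module) -h) h2

/-- Lifting a chain of frames along the quad. -/
theorem lift_chain (hQL : S_QL) {A B : Set V} {U : Submodule F V} {α1 α2 : V →ₗ[F] F}
    {a1 a2 θ θ' : V} (hq : Qd A B U α1 α2 a1 a2 θ θ') {G H : Set ↥U}
    (h : SConn (Subtype.val ⁻¹' A) (Subtype.val ⁻¹' B) G H) :
    SConn A B (QL U a1 a2 θ θ' G) (QL U a1 a2 θ θ' H) := by
  obtain ⟨-, -, h3, h4⟩ := hQL A B U α1 α2 a1 a2 θ θ' hq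
  induction h with
  | refl => exact Relation.ReflTransGen.refl
  | tail _ h2 ih =>
    exact ih.trans' (sconn_share (h3 _ h2.1) (h3 _ h2.2.1)
      (h4 _ _ h2.1 h2.2.1 (Or.inl h2.2.2)))

/-- The case where the subspace is a plane. -/
theorem plane (hQL : S_QL) (hRC : S_RC) {A B : Set V} {U : Submodule F V} {α1 α2 : V →ₗ[F] F}
    {a1 a2 θ θ' : V} (hq : Qd A B U α1 α2 a1 a2 θ θ')
    (hA : IsFrame (Subtype.val ⁻¹' A : Set ↥U)) (hB : IsFrame (Subtype.val ⁻¹' B : Set ↥U))
    (hr : finrank F ↥U = 2) : SConn A B A B := by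
  classical
  have := hA.finite
  obtain ⟨h1, h2, h3, h4⟩ := hQL A B U α1 α2 a1 a2 θ θ' hq
  let t : ↥U := ⟨θ, hq.θU⟩
  let s : ↥U := ⟨θ + θ', U.add_mem hq.θU hq.θU'⟩
  have hli : LinearIndependent F ![t, s] := by
    rw [LinearIndependent.pair_iff]
    intro c d h
    have h5 : c • θ + d • (θ + θ') = 0 := congrArg Subtype.val h
    have h6 := hq.ind (c + d) d (by linear_combination (norm := module) h5)
    refine ⟨?_, h6.2⟩
    have := h6.1
    rw [h6.2, add_zero] at this
    exact this
  let g : Basis (Fin 2) F ↥U := basisOfLinearIndependentOfCardEqFinrank hli (by simp [hr])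
  have g0 : g 0 = t := by simp [g]
  have g1 : g 1 = s := by simp [g]
  have hθ0 : θ ≠ 0 := fun hc => by
    have := (hq.ind 1 0 (by simp [hc])).1
    exact one_ne_zero this
  have hθ0' : θ' ≠ 0 := fun hc => by
    have := (hq.ind 0 1 (by simp [hc])).2
    exact one_ne_zero this
  have hp : θ + θ' ≠ 0 := fun hc => by
    have := (hq.ind 1 1 (by simpa using hc)).2
    exact one_ne_zero this
  have hm : θ - θ' ≠ 0 := fun hc => by
    have := (hq.ind 1 (-1) (by linear_combination (norm := module) hc)).1
    exact one_ne_zero this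
  have nA : θ - θ' ∉ A := fun hc => by
    rw [sub_eq_add_neg] at hc
    rcases Tadd hq.frA hq.θA (hq.frA.neg_mem hq.θA') hc with h | h | h | h
    · exact hθ0 h
    · exact hθ0' (neg_eq_zero.1 h)
    · exact hp (by rw [h]; simp)
    · exact hm (by rw [h]; simp)
  have nB : θ' ∉ B := fun hc => by
    have h5 : (θ - θ') + -(θ + θ') = θ' := by
      linear_combination (norm := module) -three θ'
    rcases Tadd hq.frB hq.wB (hq.frB.neg_mem hq.sB) (h5.symm ▸ hc) with h | h | h | h
    · exact hm h
    · exact hp (neg_eq_zero.1 h)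
    · exact hθ0 (by linear_combination (norm := module) three θ - h)
    · exact hθ0' (by linear_combination (norm := module) h + three θ')
  have hok : Ok (Subtype.val ⁻¹' A : Set ↥U) (Subtype.val ⁻¹' B) (Tset g) := by
    refine ⟨isFrame_basis g, hRC _ _ g Set.univ hA hB (fun e _ => ?_) (fun x hx => ?_)
      (fun m hm => absurd (Set.mem_univ m) hm) (Or.inl ⟨0, 1, fun m _ => ?_⟩)⟩
    · rw [mem_Dset_iff]
      intro i j k _ _ _
      omega
    · rw [mem_Tset_iff]
      intro i j hi hj
      by_contra hij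
      have h01 : g.repr x 0 ≠ 0 ∧ g.repr x 1 ≠ 0 := by
        fin_cases i <;> fin_cases j
        · exact absurd rfl hij
        · exact ⟨hi, hj⟩
        · exact ⟨hj, hi⟩
        · exact absurd rfl hij
      have hx2 : x = g.repr x 0 • g 0 + g.repr x 1 • g 1 :=
        eq_two_of_supp g (by decide) fun k h0 h1 => by omega
      have hx3 : (x : V) = g.repr x 0 • θ + g.repr x 1 • (θ + θ') := by
        have := congrArg Subtype.val hx2
        rw [g0, g1] at this
        exact this
      have hxA : (x : V) ∈ A := hx.1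
      have hxB : (x : V) ∈ B := hx.2
      rcases F_ne_cases h01.1 with c1 | c1 <;> rcases F_ne_cases h01.2 with c2 | c2 <;>
        rw [c1, c2] at hx3
      · apply nA
        have : θ - θ' = -(x : V) := by
          linear_combination (norm := module) hx3 + three θ
        rw [this]; exact hq.frA.neg_mem hxA
      · apply nB
        have : θ' = -(x : V) := by linear_combination (norm := module) hx3
        rw [this]; exact hq.frB.neg_mem hxB
      · apply nB
        have : θ' = (x : V) := by linear_combination (norm := module) -hx3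
        rw [this]; exact hxB
      · apply nA
        have : θ - θ' = (x : V) := by
          linear_combination (norm := module) three θ - hx3
        rw [this]; exact hxA
    · omega
  have okA := ok_left hA (Subtype.val ⁻¹' B : Set ↥U)
  have okB := ok_right (Subtype.val ⁻¹' A : Set ↥U) hB
  have s1 := h4 _ _ okA hok (Or.inr ⟨0, ⟨t, hq.θA, rfl⟩, ⟨t, g0 ▸ self_mem_Tset g 0, rfl⟩⟩)
  have s2 := h4 _ _ hok okB (Or.inr ⟨2, ⟨s, g1 ▸ self_mem_Tset g 1, rfl⟩, ⟨s, hq.sB, rfl⟩⟩)
  rw [h1] at s1
  rw [h2] at s2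
  exact (sconn_share (ok_left hq.frA B) (h3 _ hok) s1).trans'
    (sconn_share (h3 _ hok) (ok_right A hq.frB) s2)

end Quad

theorem s_quad (hQL : S_QL) (hRC : S_RC) : S_QUAD := by
  intro V _ _ ι κ _ _ _ _ a f j i1 i2 y s0 fw h hs1 hs2 hK IH
  have hfin := Module.Finite.of_basis a
  have hsj : Sj a f j {i1, i2} := ⟨h.tc, fun i => by rw [h.hI]; simp⟩
  have hβ : ∀ x, f.repr x j = a.repr x i1 + a.repr x i2 := fun x => by
    rw [repr_j_eq_sum hsj.hI, Finset.sum_pair h.ne]
  have hy2 : a.repr (f y) i2 = -1 := by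
    have h1 := hβ (f y)
    rw [repr_basis_ne f h.yj, h.hy] at h1
    linear_combination -h1
  have hl1 : ∀ l, l ≠ j → l ≠ y → a.repr (f l) i1 = 0 := fun l h1 h2 =>
    by_contra fun hc => h2 (hK l h1 hc)
  have hl2 : ∀ l, l ≠ j → l ≠ y → a.repr (f l) i2 = 0 := fun l h1 h2 => by
    have h3 := hβ (f l)
    rw [repr_basis_ne f h1, hl1 l h1 h2] at h3
    linear_combination -h3
  have s02 : a.repr s0 i2 = 0 := by
    have h3 := hβ s0
    rw [h.s0j, h.s01] at h3
    linear_combination -h3
  have fw2 : a.repr fw i2 = 0 := by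
    have h3 := hβ fw
    rw [h.fwj, h.fw1] at h3
    linear_combination -h3
  have hα1 : ∀ x, a.repr x i1 = f.repr x y - f.repr x j := fun x => by
    have h1 : a.coord i1 = f.coord y - f.coord j := by
      refine f.ext fun l => ?_
      by_cases hj : l = j
      · subst hj; simp [h.x1, single_ne h.yj.symm]
      by_cases hy : l = y
      · subst hy; simp [h.hy, single_ne hj]
      simp [hl1 l hj hy, single_ne hj, single_ne hy]
    simpa using congrArg (fun φ : V →ₗ[F] F => φ x) h1
  let U : Submodule F V := LinearMap.ker ((a.coord i1).prod (a.coord i2))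
  have memU : ∀ x, x ∈ U ↔ a.repr x i1 = 0 ∧ a.repr x i2 = 0 := fun x => by
    simp [U]
  have hUa : ∀ x, x ∈ U ↔ ∀ i ∈ ({i1, i2} : Set ι), a.repr x i = 0 := fun x => by
    rw [memU]; simp
  have hUf : ∀ x, x ∈ U ↔ ∀ l ∈ ({j, y} : Set κ), f.repr x l = 0 := fun x => by
    rw [memU]
    simp only [Set.mem_insert_iff, Set.mem_singleton_iff, forall_eq_or_imp, forall_eq]
    have h1 := hβ x
    have h2 := hα1 x
    constructor
    · rintro ⟨h3, h4⟩
      exact ⟨by linear_combination h1 + h3 + h4, by linear_combination h1 - h2 + 2 * h3 + h4⟩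
    · rintro ⟨h3, h4⟩
      exact ⟨by linear_combination h2 + h4 - h3, by linear_combination -h1 - h2 + 2 * h3 - h4⟩
  have hrk : finrank F ↥U + 2 = Fintype.card ι := by
    have h1 := LinearMap.finrank_range_add_finrank_ker ((a.coord i1).prod (a.coord i2))
    have h2 : LinearMap.range ((a.coord i1).prod (a.coord i2)) = ⊤ := by
      rw [LinearMap.range_eq_top]
      rintro ⟨c, d⟩
      refine ⟨c • a i1 + d • a i2, ?_⟩
      simp [single_ne h.ne, single_ne h.ne.symm]
    rw [h2, finrank_top, finrank_eq_card_basis a] at h1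
    simp only [finrank_prod, finrank_self] at h1
    change 1 + 1 + finrank F ↥U = _ at h1
    omega
  have efj : f j = -(a i1 + a i2) - s0 := by linear_combination (norm := module) -h.hn
  have efy : f y = a i1 - a i2 + fw := by linear_combination (norm := module) -h.hd
  have eθ1 : -(s0 + fw) + (fw - s0) = s0 := by
    linear_combination (norm := module) -three s0
  have eθ2 : -(s0 + fw) - (fw - s0) = fw := by
    linear_combination (norm := module) -three fw
  have hθA : -(s0 + fw) ∈ Tset a := by
    obtain ⟨l, h1, h2, h3⟩ := h.he1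
    obtain rfl : l = y := hK l h1 (by rw [h2]; exact one_ne_zero)
    have h4 := sub_mem_Tset_one a h3 (i := i1) (by simp [h.x1, h.hy]; decide)
    have h5 : f j - f l - a i1 = -(s0 + fw) := by
      rw [efj, efy]; linear_combination (norm := module) -three (a i1)
    rwa [h5] at h4
  have hθA' : fw - s0 ∈ Tset a := by
    obtain ⟨l, h1, h2, h3⟩ := h.he2
    obtain rfl : l = y := hK l h1 (by rw [h2]; exact one_ne_zero)
    have h4 := sub_mem_Tset_one a h3 (i := i2) (by simp [h.x2, hy2]; decide)
    have h5 : f j + f l - a i2 = fw - s0 := by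
      rw [efj, efy]; linear_combination (norm := module) -three (a i2)
    rwa [h5] at h4
  have hind : ∀ c c' : F, c • -(s0 + fw) + c' • (fw - s0) = 0 → c = 0 ∧ c' = 0 := by
    intro c c' hc
    have h1 := Quad.ind_of_joints h.s0ne h.fwne hs1 hs2 (c := -(c + c'))
      (d := c' - c) (by linear_combination (norm := module) hc)
    have key : ∀ c c' : F, -(c + c') = 0 → c' - c = 0 → c = 0 ∧ c' = 0 := by decide
    exact key c c' h1.1 h1.2
  have hq : Qd (Tset a) (Tset f) U (a.coord i1) (a.coord i2) (a i1) (a i2) (-(s0 + fw))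
      (fw - s0) := by
    refine ⟨isFrame_basis a, isFrame_basis f, memU, by simp, ?_, ?_, by simp, ?_, ?_, hind,
      fun x => ⟨?_, ?_⟩, fun x => ⟨?_, ?_⟩, hθA, hθA', by rw [eθ1]; exact h.s0T,
      by rw [eθ2]; exact h.fwT⟩
    · simp [single_ne h.ne.symm]
    · simp [single_ne h.ne]
    · rw [memU]; simp [h.s01, h.fw1, s02, fw2]
    · rw [memU]; simp [h.s01, h.fw1, s02, fw2]
    · intro hx
      rcases hx with rfl | ⟨i, hi⟩
      · exact Or.inl ⟨zero_mem_Tset a, U.zero_mem⟩
      by_cases h1 : i = i1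
      · subst h1
        rcases hi with hi | hi
        · exact Or.inr (Or.inl hi)
        · exact Or.inr (Or.inr (Or.inl hi))
      by_cases h2 : i = i2
      · subst h2
        rcases hi with hi | hi
        · exact Or.inr (Or.inr (Or.inr (Or.inl hi)))
        · exact Or.inr (Or.inr (Or.inr (Or.inr hi)))
      refine Or.inl ⟨Or.inr ⟨i, hi⟩, (memU x).2 ?_⟩
      rcases hi with rfl | rfl <;> simp [single_ne h1, single_ne h2]
    · rintro (hx | rfl | rfl | rfl | rfl)
      · exact hx.1
      · exact self_mem_Tset a i1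
      · exact neg_mem_Tset (self_mem_Tset a i1)
      · exact self_mem_Tset a i2
      · exact neg_mem_Tset (self_mem_Tset a i2)
    · intro hx
      rw [eθ1, eθ2, ← efj, ← efy]
      have e3 : a i1 + a i2 + s0 = -f j := by rw [efj]; abel
      rw [e3]
      rcases hx with rfl | ⟨l, hl⟩
      · exact Or.inl ⟨zero_mem_Tset f, U.zero_mem⟩
      by_cases h1 : l = j
      · subst h1
        rcases hl with hl | hl
        · exact Or.inr (Or.inl hl)
        · exact Or.inr (Or.inr (Or.inl hl))
      by_cases h2 : l = y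
      · subst h2
        rcases hl with hl | hl
        · exact Or.inr (Or.inr (Or.inr (Or.inl hl)))
        · exact Or.inr (Or.inr (Or.inr (Or.inr hl)))
      refine Or.inl ⟨Or.inr ⟨l, hl⟩, (memU x).2 ?_⟩
      rcases hl with rfl | rfl <;> simp [hl1 l h1 h2, hl2 l h1 h2]
    · rw [eθ1, eθ2, ← efj, ← efy]
      have e3 : a i1 + a i2 + s0 = -f j := by rw [efj]; abel
      rw [e3]
      rintro (hx | rfl | rfl | rfl | rfl)
      · exact hx.1
      · exact self_mem_Tset f j
      · exact neg_mem_Tset (self_mem_Tset f j)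
      · exact self_mem_Tset f y
      · exact neg_mem_Tset (self_mem_Tset f y)
  have hA := isFrame_comap a U _ hUa
  have hB := isFrame_comap f U _ hUf
  have h4 := h.tc.four
  rcases (by omega : Fintype.card ι = 4 ∨ Fintype.card ι = 5 ∨ 6 ≤ Fintype.card ι) with
    hn | hn | hn
  · exact Quad.plane hQL hRC hq hA hB (by omega)
  · exfalso
    have hθ0 : -(s0 + fw) ≠ 0 := fun hc => one_ne_zero (hind 1 0 (by simp [hc])).1
    have hθ0' : fw - s0 ≠ 0 := fun hc => one_ne_zero (hind 0 1 (by simp [hc])).2
    obtain ⟨p, hp⟩ := exists_repr_ne a hθ0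
    obtain ⟨q, hq'⟩ := exists_repr_ne a hθ0'
    obtain ⟨o, -, ho⟩ := Finset.exists_mem_notMem_of_card_lt_card
      (s := ({i1, i2, p, q} : Finset ι)) (t := Finset.univ)
      (by rw [Finset.card_univ, hn]; exact lt_of_le_of_lt Finset.card_le_four (by norm_num))
    simp only [Finset.mem_insert, Finset.mem_singleton, not_or] at ho
    obtain ⟨o1, o2, o3, o4⟩ := ho
    have t1 : a.repr (-(s0 + fw)) o = 0 := by_contra fun hc =>
      o3 ((mem_Tset_iff a).1 hθA o p hc hp)
    have t2 : a.repr (fw - s0) o = 0 := by_contra fun hc =>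
      o4 ((mem_Tset_iff a).1 hθA' o q hc hq')
    have t3 : a.repr s0 o = 0 := by
      rw [← eθ1, map_add, Finsupp.add_apply, t1, t2, add_zero]
    have t4 : a.repr fw o = 0 := by
      rw [← eθ2, map_sub, Finsupp.sub_apply, t1, t2, sub_zero]
    have t5 : a.repr (f j) o = 0 := by
      rw [efj]; simp [t3, single_ne (Ne.symm o1), single_ne (Ne.symm o2)]
    have t6 : a.repr (f y) o = 0 := by
      rw [efy]; simp [t4, single_ne (Ne.symm o1), single_ne (Ne.symm o2)]
    obtain ⟨u, hu⟩ := exists_repr_ne f h.s0ne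
    obtain ⟨w, hw⟩ := exists_repr_ne f h.fwne
    have eu := Tset_eq_smul f h.s0T hu
    have ew := Tset_eq_smul f h.fwT hw
    have t7 : a.repr (f u) o = 0 := by
      rw [eu] at t3; simpa [hu] using t3
    have t8 : a.repr (f w) o = 0 := by
      rw [ew] at t4; simpa [hw] using t4
    have huj : u ≠ j := fun hc => hu (hc ▸ h.s0j)
    have hwj : w ≠ j := fun hc => hw (hc ▸ h.fwj)
    have huy : u ≠ y := fun hc => hu (by
      have h5 := hα1 s0
      rw [h.s01, h.s0j] at h5
      rw [hc]; linear_combination -h5)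
    have hwy : w ≠ y := fun hc => hw (by
      have h5 := hα1 fw
      rw [h.fw1, h.fwj] at h5
      rw [hc]; linear_combination -h5)
    have huw : u ≠ w := fun hc => by
      subst hc
      have h5 := Quad.ind_of_joints h.s0ne h.fwne hs1 hs2 (c := f.repr fw u)
        (d := -f.repr s0 u) (by
          have e1 : f.repr fw u • s0 = f.repr fw u • f.repr s0 u • f u := by rw [← eu]
          have e2 : f.repr s0 u • fw = f.repr s0 u • f.repr fw u • f u := by rw [← ew]
          linear_combination (norm := module) e1 - e2)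
      exact hw h5.1
    obtain ⟨l, l', hll, hl, hl'⟩ := h.tc.symm.two_supp o
    have n1 : l ≠ j := fun hc => hl (hc ▸ t5)
    have n2 : l ≠ y := fun hc => hl (hc ▸ t6)
    have n3 : l ≠ u := fun hc => hl (hc ▸ t7)
    have n4 : l ≠ w := fun hc => hl (hc ▸ t8)
    have m1 : l' ≠ j := fun hc => hl' (hc ▸ t5)
    have m2 : l' ≠ y := fun hc => hl' (hc ▸ t6)
    have m3 : l' ≠ u := fun hc => hl' (hc ▸ t7)
    have m4 : l' ≠ w := fun hc => hl' (hc ▸ t8)
    have hc6 : ({l, l', u, w, y, j} : Finset κ).card = 6 := by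
      rw [Finset.card_insert_of_notMem (by simp [hll, n1, n2, n3, n4]),
        Finset.card_insert_of_notMem (by simp [m1, m2, m3, m4]),
        Finset.card_insert_of_notMem (by simp [huw, huy, huj]),
        Finset.card_insert_of_notMem (by simp [hwy, hwj]),
        Finset.card_pair h.yj]
    have h6 := Finset.card_le_univ ({l, l', u, w, y, j} : Finset κ)
    rw [hc6, card_eq_card a f, hn] at h6
    omega
  · have hsp : Spans (Ed (Subtype.val ⁻¹' Tset a : Set ↥U) (Subtype.val ⁻¹' Tset f)) := by
      rw [Spans, eq_top_iff]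
      intro x _
      have h1 := hsj.span_O (x := (x : V)) (by simpa using (memU x).1 x.2)
      have h2 : span F {e | e ∈ EE a f ∧ ∀ i ∈ ({i1, i2} : Finset ι), a.repr e i = 0} ≤
          (span F (Ed (Subtype.val ⁻¹' Tset a : Set ↥U) (Subtype.val ⁻¹' Tset f))).map
            U.subtype := by
        rw [span_le]
        rintro e ⟨he, h3⟩
        have heU : e ∈ U := (memU e).2 (by simpa using h3)
        exact ⟨⟨e, heU⟩, subset_span ⟨Quad.dset_comap a U _ hUa he.1,
          Quad.dset_comap f U _ hUf he.2⟩, rfl⟩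
      obtain ⟨z, hz, hzx⟩ := h2 h1
      obtain rfl : z = x := Subtype.ext hzx
      exact hz
    have hch := IH (finrank F ↥U) (by omega) _ _ hA hB rfl (by omega) hsp
    have h5 := Quad.lift_chain hQL hq hch
    obtain ⟨e1, e2, -⟩ := hQL _ _ U _ _ _ _ _ _ hq
    rwa [e1, e2] at h5

end Pool.Agent.P.MP_053557_co
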