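import Pool.Agent.P.MP_053557_co.Basic2

/-! The edge set in the configuration `Q2`, and the case `s0 = ± fw`. -/

namespace Pool.Agent.P.MP_053557_co

open Module Submodule

namespace R2a

variable {V : Type} [AddCommGroup V] [Module F V] {ι κ : Type} [Fintype ι]
  [DecidableEq ι] [Fintype κ] [DecidableEq κ] {a : Basis ι F V} {f : Basis κ F V} {j : κ}
  {i1 i2 : ι} {y : κ} {s0 fw : V}

omit [Fintype κ] [DecidableEq κ] in
theorem sj (h : Q2 a f j i1 i2 y s0 fw) : Sj a f j {i1, i2} :=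
  ⟨h.tc, fun i => by rw [h.hI]; simp⟩

omit [Fintype κ] [DecidableEq κ] in
theorem beta (h : Q2 a f j i1 i2 y s0 fw) (x : V) :
    f.repr x j = a.repr x i1 + a.repr x i2 := by
  rw [repr_j_eq_sum (sj h).hI, Finset.sum_pair h.ne]

omit [Fintype ι] [DecidableEq ι] [Fintype κ] [DecidableEq κ] in
/-- Edges avoiding `i1` and `j` lie inside `K` or inside `Z`. -/
theorem kz {e : V} (he : e ∈ EE a f) (h1 : a.repr e i1 = 0) (h0 : f.repr e j = 0) :
    e ∈ EK a f j i1 ∨ e ∈ EZ a f j i1 := by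
  have hj : ∀ l, f.repr e l ≠ 0 → l ≠ j := by
    rintro l hl rfl; exact hl h0
  by_cases hc : ∃ l, f.repr e l ≠ 0 ∧ a.repr (f l) i1 ≠ 0
  · obtain ⟨l, hl, hl'⟩ := hc
    refine Or.inl ⟨he, h1, fun m hm => ⟨hj m hm, ?_⟩⟩
    exact ends_in_supp f (a.coord i1) he.2 (by simpa using h1) hl (by simpa using hl') hm
  · push Not at hc
    exact Or.inr ⟨he, fun l hl => ⟨hj l hl, hc l hl⟩⟩

omit [Fintype κ] [DecidableEq κ] in
theorem cls_one (h : Q2 a f j i1 i2 y s0 fw) {e : V} (he : e ∈ EE a f) (h1 : f.repr e j = 1) :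
    e = -(a i1 + a i2) ∨ ∃ l, l ≠ j ∧ a.repr (f l) i1 = 1 ∧ (e = f j - f l ∨ e = f j + f l) := by
  have ht := sub_mem_Tset_one f he.2 h1
  have ht0 : f.repr (e - f j) j = 0 := by simp [h1]
  by_cases hc : a.repr (e - f j) i1 = 0
  · left
    have h2 : a.repr e i1 = -1 := by
      have := hc
      rw [map_sub, Finsupp.sub_apply, h.x1] at this
      linear_combination this
    have h3 : a.repr e i2 = -1 := by
      have := beta h e
      rw [h1, h2] at this
      linear_combination -this + F_three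
    have := Dset_eq_two a he.1 h.ne (by rw [h2]; decide) (by rw [h3]; decide)
    rw [this, h2, h3]
    module
  · right
    have hne : e - f j ≠ 0 := by
      intro h0; rw [h0] at hc; simp at hc
    obtain ⟨l, hl⟩ := exists_repr_ne f hne
    have hlj : l ≠ j := by rintro rfl; exact hl ht0
    have h2 := Tset_eq_smul f ht hl
    have h3 : a.repr (f l) i1 ≠ 0 := by
      intro h0; apply hc; rw [h2]; simp [h0]
    refine ⟨l, hlj, (F_ne_cases h3).resolve_right (h.hK l hlj), ?_⟩
    rcases F_ne_cases hl with h4 | h4 <;> rw [h4] at h2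
    · right; linear_combination (norm := module) h2
    · left; linear_combination (norm := module) h2

omit [Fintype κ] [DecidableEq κ] in
theorem cls (h : Q2 a f j i1 i2 y s0 fw) {e : V} (he : e ∈ EE a f) :
    e ∈ EK a f j i1 ∨ e ∈ EZ a f j i1 ∨ e = a i1 - a i2 ∨ e = -(a i1 - a i2) ∨
    e = a i1 + a i2 ∨ e = -(a i1 + a i2) ∨ ∃ l, l ≠ j ∧ a.repr (f l) i1 = 1 ∧
      (e = f j - f l ∨ e = -(f j - f l) ∨ e = f j + f l ∨ e = -(f j + f l)) := by
  rcases F_cases (f.repr e j) with h0 | h0 | h0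
  · rcases (sj h).cls0 he.1 h0 with h1 | ⟨i, hi, i', hi', hne, rfl⟩
    · rcases kz he (h1 i1 (by simp)) h0 with h2 | h2
      · exact Or.inl h2
      · exact Or.inr (Or.inl h2)
    · simp only [Finset.mem_insert, Finset.mem_singleton] at hi hi'
      rcases hi with rfl | rfl <;> rcases hi' with rfl | rfl
      · exact absurd rfl hne
      · exact Or.inr (Or.inr (Or.inl rfl))
      · exact Or.inr (Or.inr (Or.inr (Or.inl (neg_sub _ _).symm)))
      · exact absurd rfl hne
  · refine Or.inr (Or.inr (Or.inr (Or.inr (Or.inr ?_))))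
    rcases cls_one h he h0 with h1 | ⟨l, h1, h2, h3 | h3⟩
    · exact Or.inl h1
    · exact Or.inr ⟨l, h1, h2, Or.inl h3⟩
    · exact Or.inr ⟨l, h1, h2, Or.inr (Or.inr (Or.inl h3))⟩
  · refine Or.inr (Or.inr (Or.inr (Or.inr ?_)))
    rcases cls_one h (neg_mem_Ed he) (by simp [h0]) with h1 | ⟨l, h1, h2, h3 | h3⟩
    · exact Or.inl (neg_injective h1)
    · exact Or.inr (Or.inr ⟨l, h1, h2, Or.inr (Or.inl (by rw [← h3, neg_neg]))⟩)
    · exact Or.inr (Or.inr ⟨l, h1, h2, Or.inr (Or.inr (Or.inr (by rw [← h3, neg_neg])))⟩)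

omit [Fintype ι] [DecidableEq ι] [DecidableEq κ] in
theorem alpha_of_Z {x : V} (hx : ∀ l, f.repr x l ≠ 0 → l ≠ j ∧ a.repr (f l) i1 = 0) :
    a.repr x i1 = 0 := by
  have := map_eq_sum f (a.coord i1) x
  simp only [Basis.coord_apply] at this
  rw [this]
  refine Finset.sum_eq_zero fun l _ => ?_
  by_cases hl : f.repr x l = 0
  · simp [hl]
  · simp [(hx l hl).2]

omit [Fintype κ] [DecidableEq κ] in
theorem span_kz (h : Q2 a f j i1 i2 y s0 fw) {x : V} (h1 : a.repr x i1 = 0)
    (h0 : f.repr x j = 0) : x ∈ span F (EK a f j i1 ∪ EZ a f j i1) := by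
  have h2 : a.repr x i2 = 0 := by
    have := beta h x
    rw [h0, h1] at this
    linear_combination -this
  refine span_mono (fun e he => ?_) ((sj h).span_O (x := x) fun i hi => ?_)
  · have h3 := he.2 i1 (by simp)
    have h4 := he.2 i2 (by simp)
    exact kz he.1 h3 (by rw [beta h, h3, h4, add_zero])
  · simp only [Finset.mem_insert, Finset.mem_singleton] at hi
    rcases hi with rfl | rfl
    · exact h1
    · exact h2

omit [DecidableEq κ] in
theorem span_z (h : Q2 a f j i1 i2 y s0 fw) {x : V}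
    (hx : ∀ l, f.repr x l ≠ 0 → l ≠ j ∧ a.repr (f l) i1 = 0) : x ∈ span F (EZ a f j i1) := by
  have h0 : f.repr x j = 0 := by_contra fun hc => (hx j hc).1 rfl
  refine span_mono (fun e he => ?_) (mem_span_inside f {l | l ≠ j ∧ a.repr (f l) i1 = 0}
    (span_kz h (alpha_of_Z hx) h0) (fun e he => ?_) hx)
  · refine ⟨?_, he.2⟩
    rcases he.1 with h1 | h1
    · exact h1.1
    · exact h1.1
  · rcases he with h1 | h1
    · exact Or.inr fun l hl => by_contra fun hc => (h1.2.2 l hc).2 hl.2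
    · exact Or.inl h1.2

end R2a

theorem s_qe : S_QE := by
  intro V _ _ ι κ _ _ _ _ a f j i1 i2 y s0 fw h
  have h2 : ∀ e ∈ EK a f j i1 ∪ EZ a f j i1, a.repr e i1 = 0 ∧ a.repr e i2 = 0 := by
    intro e he
    have h3 : a.repr e i1 = 0 ∧ f.repr e j = 0 := by
      rcases he with h1 | h1
      · exact ⟨h1.2.1, by_contra fun hc => (h1.2.2 j hc).1 rfl⟩
      · exact ⟨R2a.alpha_of_Z h1.2, by_contra fun hc => (h1.2 j hc).1 rfl⟩
    refine ⟨h3.1, ?_⟩
    have := R2a.beta h e
    rw [h3.1, h3.2] at this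
    linear_combination -this
  refine ⟨fun e he => R2a.cls h he, h2, fun x h1 hx => ?_, fun x hx => R2a.span_z h hx,
    fun l _ _ => ⟨?_, ?_⟩⟩
  · have h0 : f.repr x j = 0 := by_contra fun hc => (hx j hc).1 rfl
    refine span_mono (fun e he => ?_) (mem_span_inside f {l | l ≠ j ∧ a.repr (f l) i1 ≠ 0}
      (R2a.span_kz h h1 h0) (fun e he => ?_) hx)
    · refine ⟨?_, (h2 e he.1).1, he.2⟩
      rcases he.1 with h1 | h1
      · exact h1.1
      · exact h1.1
    · rcases he with h1 | h1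
      · exact Or.inl h1.2.2
      · exact Or.inr fun l hl => by_contra fun hc => hl.2 (h1.2 l hc).2
  · linear_combination (norm := module) h.hd - h.hn - three (a i1)
  · linear_combination (norm := module) -h.hd - h.hn - three (a i2)

namespace R2a

variable {V : Type} [AddCommGroup V] [Module F V] {ι κ : Type} [Fintype ι]
  [DecidableEq ι] [Fintype κ] [DecidableEq κ] {a : Basis ι F V} {f : Basis κ F V} {j : κ}
  {i1 i2 : ι} {y : κ} {s0 fw : V}

omit [DecidableEq κ] in
/-- The set `Z` is a single vertex. -/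
theorem z_single (h : Q2 a f j i1 i2 y s0 fw) (hs : s0 = fw ∨ s0 = -fw) {w : κ} {c : F}
    (hw : fw = c • f w) (hwj : w ≠ j) {l : κ} (hl : l ≠ j) (hl1 : a.repr (f l) i1 = 0) :
    l = w := by
  by_contra hlw
  refine h.tc.nsep (sepv f {m | m ≠ j ∧ a.repr (f m) i1 = 0 ∧ m ≠ w} ⟨l, hl, hl1, hlw⟩
    (j := w) (l0 := j) (fun hc => hc.1 rfl) hwj.symm fun e he m hm h1 m' hm' => ?_)
  have hmy : y ≠ m := by
    rintro rfl
    have := h.hy
    rw [hm.2.1] at this
    exact zero_ne_one this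
  have hd : f.repr (a i1 - a i2) m = 0 := by
    rw [h.hd, hw]; simp [single_ne hmy, single_ne hm.2.2.symm]
  have hn : f.repr (-(a i1 + a i2)) m = 0 := by
    rw [h.hn]
    rcases hs with rfl | rfl <;> rw [hw] <;> simp [single_ne hm.1.symm, single_ne hm.2.2.symm]
  rcases cls h he with h2 | h2 | rfl | rfl | rfl | rfl | ⟨k, -, hk, h2⟩
  · exact absurd hm.2.1 (h2.2.2 m h1).2
  · by_cases h3 : m' = w
    · exact Or.inr h3
    · exact Or.inl ⟨(h2.2 m' hm').1, (h2.2 m' hm').2, h3⟩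
  · exact absurd hd h1
  · exact absurd (by rw [map_neg, Finsupp.neg_apply, hd, neg_zero]) h1
  · exact absurd (by rwa [map_neg, Finsupp.neg_apply, neg_eq_zero] at hn) h1
  · exact absurd hn h1
  · have hkm : k ≠ m := by
      rintro rfl
      rw [hm.2.1] at hk
      exact zero_ne_one hk
    exfalso
    apply h1
    rcases h2 with rfl | rfl | rfl | rfl <;> simp [single_ne hm.1.symm, single_ne hkm]

omit [DecidableEq κ] in
/-- Edges at the vertex `w`. -/
theorem at_w (h : Q2 a f j i1 i2 y s0 fw) (hs : s0 = fw ∨ s0 = -fw) {w : κ} {c : F}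
    (hc : c ≠ 0) (hw : fw = c • f w) (hwj : w ≠ j) (hw1 : a.repr (f w) i1 = 0) {e : V}
    (he : e ∈ EE a f) (h1 : f.repr e w ≠ 0) :
    e = fw ∨ e = -fw ∨ e = a i1 - a i2 ∨ e = -(a i1 - a i2) ∨ e = a i1 + a i2 ∨
      e = -(a i1 + a i2) := by
  rcases cls h he with h2 | h2 | h2 | h2 | h2 | h2 | ⟨k, -, hk, h2⟩
  · exact absurd hw1 (h2.2.2 w h1).2
  · have h3 : e = f.repr e w • f w := eq_smul_of_supp f w fun m hm =>
      by_contra fun h4 => hm (z_single h hs hw hwj (h2.2 m h4).1 (h2.2 m h4).2)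
    rw [h3, hw]
    rcases F_ne_cases h1 with h4 | h4 <;> rcases F_ne_cases hc with rfl | rfl <;> simp [h4]
  · exact Or.inr (Or.inr (Or.inl h2))
  · exact Or.inr (Or.inr (Or.inr (Or.inl h2)))
  · exact Or.inr (Or.inr (Or.inr (Or.inr (Or.inl h2))))
  · exact Or.inr (Or.inr (Or.inr (Or.inr (Or.inr h2))))
  · have hkw : k ≠ w := by
      rintro rfl
      rw [hw1] at hk
      exact zero_ne_one hk
    exfalso
    apply h1
    rcases h2 with rfl | rfl | rfl | rfl <;> simp [single_ne hwj.symm, single_ne hkw]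

omit [Fintype κ] [DecidableEq κ] in
/-- The joint `fw` is not a joint of `a`. -/
theorem not_joint (h : Q2 a f j i1 i2 y s0 fw) (φ : V →ₗ[F] F) (hφ : φ fw = 1)
    (hE : ∀ e ∈ EE a f, φ e ≠ 0 → e = fw ∨ e = -fw ∨ e = a i1 - a i2 ∨ e = -(a i1 - a i2) ∨
      e = a i1 + a i2 ∨ e = -(a i1 + a i2)) (h12 : φ (a i1) = 0 ∨ φ (a i2) = 0) :
    fw ∉ Tset a := by
  intro hT
  obtain ⟨o, ho⟩ := exists_repr_ne a h.fwne
  have hfw := Tset_eq_smul a hT ho
  have ho1 : o ≠ i1 := by rintro rfl; exact ho h.fw1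
  have ho2 : o ≠ i2 := by
    rintro rfl
    have := beta h fw
    rw [h.fwj, h.fw1] at this
    exact ho (by linear_combination -this)
  have hφo : φ (a o) ≠ 0 := by
    intro h0
    rw [hfw] at hφ
    simp [h0] at hφ
  obtain ⟨i, hi⟩ : ∃ i, ∀ m, φ (a m) ≠ 0 → m ≠ i → m ≠ i1 ∧ m ≠ i2 := by
    rcases h12 with h0 | h0
    · exact ⟨i2, fun m hm hm' => ⟨by rintro rfl; exact hm h0, hm'⟩⟩
    · exact ⟨i1, fun m hm hm' => ⟨hm', by rintro rfl; exact hm h0⟩⟩
  have key : ∀ e ∈ EE a f, φ e ≠ 0 → ∀ m, m ≠ i1 → m ≠ i2 → a.repr e m ≠ 0 →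
      e = fw ∨ e = -fw := by
    intro e he h0 m h1 h2 h3
    rcases hE e he h0 with h4 | h4 | rfl | rfl | rfl | rfl
    · exact Or.inl h4
    · exact Or.inr h4
    all_goals simp [single_ne h1.symm, single_ne h2.symm] at h3
  by_cases hC : ∃ m, φ (a m) ≠ 0 ∧ m ≠ o ∧ m ≠ i
  · refine h.tc.nsep (sepf a {m | φ (a m) ≠ 0 ∧ m ≠ o ∧ m ≠ i} hC (m1 := o) i φ hφo
      fun e he l hl h1 => ?_)
    have h0 : φ e = 0 := by
      by_contra h0
      have h2 := hi l hl.1 hl.2.2
      have h3 : a.repr fw l = 0 := by rw [hfw]; simp [single_ne hl.2.1.symm]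
      rcases key e he h0 l h2.1 h2.2 h1 with rfl | rfl
      · exact h1 h3
      · simp [h3] at h1
    refine ⟨h0, fun m hm => ?_⟩
    have h2 := ends_in_supp a φ he.1 h0 h1 hl.1 hm
    by_cases h3 : m = o
    · exact Or.inr (Or.inl h3)
    by_cases h4 : m = i
    · exact Or.inr (Or.inr h4)
    exact Or.inl ⟨h2, h3, h4⟩
  · push Not at hC
    have := Module.Finite.of_basis a
    refine h.tc.nsep (deg3 (φ := a.coord o) (by have := h.tc.finrank; omega) (fun hc => ?_)
      (a o) (a i) fun e he h1 => ?_)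
    · have := congrArg (fun g : V →ₗ[F] F => g (a o)) hc
      simp at this
    have h1' : a.repr e o ≠ 0 := by simpa using h1
    have hm1 : a o ∈ span F ({a o, a i} : Set V) := subset_span (by simp)
    have hm2 : a i ∈ span F ({a o, a i} : Set V) := subset_span (by simp)
    by_cases h0 : φ e = 0
    · obtain ⟨m, hmo, hm, hm'⟩ := other_end a φ he.1 h0 h1' hφo
      have hmi := hC m hm' hmo
      subst hmi
      rw [Dset_eq_two a he.1 hmo.symm h1' hm]
      exact add_mem (smul_mem _ _ hm1) (smul_mem _ _ hm2)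
    · have h3 : fw ∈ span F ({a o, a i} : Set V) := by rw [hfw]; exact smul_mem _ _ hm1
      rcases key e he h0 o ho1 ho2 h1' with rfl | rfl
      · exact h3
      · exact neg_mem h3

end R2a

theorem s_r2a (hCM : S_CM) : S_R2a := by
  intro V _ _ ι κ _ _ _ _ a f j i1 i2 y s0 fw h hs
  obtain ⟨w, hc⟩ := exists_repr_ne f h.fwne
  have hw := Tset_eq_smul f h.fwT hc
  generalize f.repr fw w = c at hc hw
  have hwj : w ≠ j := by
    rintro rfl
    have := h.fwj
    rw [hw] at this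
    exact hc (by simpa using this)
  have hw1 : a.repr (f w) i1 = 0 := by
    have := h.fw1
    rw [hw] at this
    simpa [hc] using this
  have hyw : y ≠ w := by
    rintro rfl
    have := h.hy
    rw [hw1] at this
    exact zero_ne_one this
  obtain ⟨φ, hφ⟩ : ∃ φ : V →ₗ[F] F, ∀ x, φ x = c * f.repr x w := ⟨c • f.coord w, fun x => by simp⟩
  have hφw : φ fw = 1 := by rw [hφ, hw]; simp [F_sq hc]
  have hφy : φ (f y) = 0 := by rw [hφ, repr_basis_ne f hyw, mul_zero]
  have hφj : φ (f j) = 0 := by rw [hφ, repr_basis_ne f hwj.symm, mul_zero]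
  have hE : ∀ e ∈ EE a f, φ e ≠ 0 → e = fw ∨ e = -fw ∨ e = a i1 - a i2 ∨ e = -(a i1 - a i2) ∨
      e = a i1 + a i2 ∨ e = -(a i1 + a i2) := fun e he h0 =>
    R2a.at_w h hs hc hw hwj hw1 he fun h1 => h0 (by rw [hφ, h1, mul_zero])
  have hfwE : fw ∈ EE a f := by
    have h1 : fw ∈ span F (EZ a f j i1) := R2a.span_z h fun l hl => by
      have : l = w := by
        by_contra h2
        rw [hw] at hl
        simp [single_ne (Ne.symm h2)] at hl
      rw [this]; exact ⟨hwj, hw1⟩
    obtain ⟨e, he, h2⟩ := exists_touch f h1 (l := w) (by rw [hw]; simpa using hc)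
    have h3 : e = f.repr e w • f w := eq_smul_of_supp f w fun m hm =>
      by_contra fun h4 => hm (R2a.z_single h hs hw hwj (he.2 m h4).1 (he.2 m h4).2)
    have h4 : fw = (c * f.repr e w) • e := by
      conv_rhs => rw [h3]
      rw [hw, smul_smul]
      simp [mul_assoc, F_sq h2]
    rw [h4]
    exact smul_mem_EE _ he.1
  have hd : φ (a i1) - φ (a i2) = -1 := by
    rw [← map_sub, h.hd, map_sub, hφy, hφw, zero_sub]
  have hn : -(φ (a i1) + φ (a i2)) = φ s0 := by
    rw [← map_add, ← map_neg, h.hn, map_add, hφj, zero_add]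
  have hstar : ∀ x ∈ Tset f, x ≠ fw → x ≠ -fw → φ x = 0 := by
    intro x hx h1 h2
    by_contra h0
    have h3 : f.repr x w ≠ 0 := fun h3 => h0 (by rw [hφ, h3, mul_zero])
    have h4 := Tset_eq_smul f hx h3
    rw [hw] at h1 h2
    rcases F_ne_cases h3 with h5 | h5 <;> rw [h5] at h4 <;>
      rcases F_ne_cases hc with rfl | rfl <;> simp [h4] at h1 h2
  have t1 := self_mem_Tset a i1
  have t2 := self_mem_Tset a i2
  rcases hs with hs | hs
  · have v1 : φ (a i1) = -1 := by
      rw [hs, hφw] at hn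
      linear_combination hn - hd + (φ (a i1) + 1) * F_three
    have v2 : φ (a i2) = 0 := by rw [v1] at hd; linear_combination -hd
    refine Succ.symm (@hCM V _ _ (Tset f) (Tset a) φ fw fw (a i1) (isFrame_basis f) (isFrame_basis a)
      h.tc.finrank h.fwT hφw hstar ⟨hfwE.2, hfwE.1⟩ hφw (fun x hx h1 => ?_)
      fun hc => absurd hc (R2a.not_joint h φ hφw hE (Or.inr v2)))
    rcases hE x ⟨hx.2, hx.1⟩ (by rw [h1]; exact one_ne_zero) with
      rfl | rfl | rfl | rfl | rfl | rfl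
    · exact ⟨_, t1, by simp⟩
    · rw [map_neg, hφw] at h1; exact absurd h1 (by decide)
    · rw [map_sub, v1, v2] at h1; exact absurd h1 (by decide)
    · exact ⟨_, t2, by simp⟩
    · rw [map_add, v1, v2] at h1; exact absurd h1 (by decide)
    · exact ⟨_, neg_mem_Tset t2, by simp⟩
  · have v1 : φ (a i1) = 0 := by
      rw [hs, map_neg, hφw] at hn
      linear_combination hn - hd + φ (a i1) * F_three
    have v2 : φ (a i2) = 1 := by rw [v1] at hd; linear_combination -hd
    refine Succ.symm (@hCM V _ _ (Tset f) (Tset a) φ fw fw (-a i2) (isFrame_basis f) (isFrame_basis a)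
      h.tc.finrank h.fwT hφw hstar ⟨hfwE.2, hfwE.1⟩ hφw (fun x hx h1 => ?_)
      fun hc => absurd hc (R2a.not_joint h φ hφw hE (Or.inl v1)))
    rcases hE x ⟨hx.2, hx.1⟩ (by rw [h1]; exact one_ne_zero) with
      rfl | rfl | rfl | rfl | rfl | rfl
    · exact ⟨_, neg_mem_Tset t2, by simp⟩
    · rw [map_neg, hφw] at h1; exact absurd h1 (by decide)
    · rw [map_sub, v1, v2] at h1; exact absurd h1 (by decide)
    · refine ⟨_, neg_mem_Tset t1, ?_⟩
      rw [show -(a i1 - a i2) + -a i2 - -a i1 = 0 by abel]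
      exact zero_mem _
    · exact ⟨_, t1, by simp⟩
    · rw [map_neg, map_add, v1, v2] at h1; exact absurd h1 (by decide)

end Pool.Agent.P.MP_053557_co
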