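import Pool.Agent.P.MP_053557_co.Basic2

/-! The configuration `Q2` when `K` has at least two vertices and `s0 ≠ ± fw`. -/

namespace Pool.Agent.P.MP_053557_co

open Module Submodule

set_option linter.unusedSectionVars false

namespace R2b

variable {V : Type} [AddCommGroup V] [Module F V] {ι κ : Type} [Fintype ι] [DecidableEq ι]
  [Fintype κ] [DecidableEq κ] {a : Basis ι F V} {f : Basis κ F V} {j : κ} {i1 i2 : ι} {y : κ}
  {s0 fw : V}

theorem sum12 (h : Q2 a f j i1 i2 y s0 fw) (x : V) :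
    f.repr x j = a.repr x i1 + a.repr x i2 := by
  rw [repr_j_eq_sum (I := {i1, i2}) (fun i => by simpa using h.hI i), Finset.sum_pair h.ne]

theorem a2_f (h : Q2 a f j i1 i2 y s0 fw) {l : κ} (hl : l ≠ j) :
    a.repr (f l) i2 = -a.repr (f l) i1 := by
  have := sum12 h (f l)
  rw [repr_basis_ne f hl] at this
  linear_combination -this

theorem a1_one (h : Q2 a f j i1 i2 y s0 fw) {l : κ} (hl : l ≠ j) (h1 : a.repr (f l) i1 ≠ 0) :
    a.repr (f l) i1 = 1 := (F_ne_cases h1).resolve_right (h.hK l hl)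

theorem a1_eq (h : Q2 a f j i1 i2 y s0 fw) : a i1 = f j - f y + fw + s0 := by
  linear_combination (norm := module) three (a i1) - h.hd + h.hn

theorem a2_eq (h : Q2 a f j i1 i2 y s0 fw) : a i2 = f j + f y - fw + s0 := by
  linear_combination (norm := module) three (a i2) + h.hd + h.hn

/-- A nonzero joint of `f` killed by `α 1` and `β j`. -/
theorem zj {x : V} (hT : x ∈ Tset f) (hne : x ≠ 0) (h1 : a.repr x i1 = 0)
    (hj : f.repr x j = 0) : ∃ w, ∃ c : F, c ≠ 0 ∧ x = c • f w ∧ w ≠ j ∧ a.repr (f w) i1 = 0 := by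
  rcases mem_Tset_iff_smul.1 hT with h0 | ⟨w, c, hc, rfl⟩
  · exact absurd h0 hne
  refine ⟨w, c, hc, rfl, ?_, by simpa [hc] using h1⟩
  rintro rfl
  simp [hc] at hj

/-- The two vertices of `Z` carrying `fw` and `s0`. -/
theorem ww (h : Q2 a f j i1 i2 y s0 fw) (n1 : s0 ≠ fw) (n2 : s0 ≠ -fw) :
    ∃ w w', ∃ c c' : F, c ≠ 0 ∧ c' ≠ 0 ∧ fw = c • f w ∧ s0 = c' • f w' ∧ w ≠ w' ∧ w ≠ j ∧
      w' ≠ j ∧ a.repr (f w) i1 = 0 ∧ a.repr (f w') i1 = 0 := by
  obtain ⟨w, c, hc, h1, h2, h3⟩ := zj h.fwT h.fwne h.fw1 h.fwj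
  obtain ⟨w', c', hc', h1', h2', h3'⟩ := zj h.s0T h.s0ne h.s01 h.s0j
  refine ⟨w, w', c, c', hc, hc', h1, h1', ?_, h2, h2', h3, h3'⟩
  rintro rfl
  rcases F_ne_cases hc with rfl | rfl <;> rcases F_ne_cases hc' with rfl | rfl
  · exact n1 (by rw [h1, h1'])
  · exact n2 (by rw [h1, h1']; simp)
  · exact n2 (by rw [h1, h1']; simp)
  · exact n1 (by rw [h1, h1'])

theorem fw2 (h : Q2 a f j i1 i2 y s0 fw) : a.repr fw i2 = 0 := by
  have := sum12 h fw
  rw [h.fwj, h.fw1] at this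
  simpa using this.symm

theorem s02 (h : Q2 a f j i1 i2 y s0 fw) : a.repr s0 i2 = 0 := by
  have := sum12 h s0
  rw [h.s0j, h.s01] at this
  simpa using this.symm

/-- Differences of vertices of `K` are spanned by `EK`. -/
theorem dK (hQE : S_QE) (h : Q2 a f j i1 i2 y s0 fw) {l m : κ} (hl : l ≠ j)
    (hl1 : a.repr (f l) i1 = 1) (hm : m ≠ j) (hm1 : a.repr (f m) i1 = 1) :
    f l - f m ∈ span F (EK a f j i1) := by
  refine (hQE a f j i1 i2 y s0 fw h).2.2.1 _ (by simp [hl1, hm1]) fun k hk => ?_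
  by_cases h1 : l = k
  · subst h1; exact ⟨hl, by simp [hl1]⟩
  by_cases h2 : m = k
  · subst h2; exact ⟨hm, by simp [hm1]⟩
  simp [single_ne h1, single_ne h2] at hk

/-- The attachments at `i1`. -/
theorem att1 (hQE : S_QE) (h : Q2 a f j i1 i2 y s0 fw) (n1 : s0 ≠ fw) (n2 : s0 ≠ -fw) {l : κ}
    (hl : l ≠ j) (hl1 : a.repr (f l) i1 = 1) (hD : f j - f l ∈ Dset (Tset a)) :
    ∃ o, ∃ c : F, o ≠ i1 ∧ o ≠ i2 ∧ c ≠ 0 ∧ f y - f l - (s0 + fw) = c • a o := by
  obtain ⟨w, w', c, c', hc, hc', e1, e2, hww, hw, hw', z1, z2⟩ := ww h n1 n2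
  have q5 := ((hQE a f j i1 i2 y s0 fw h).2.2.2.2 l hl hl1).1
  have hT := sub_mem_Tset_one a hD (i := i1) (by simp [h.x1, hl1]; decide)
  have ht : f j - f l - a i1 = f y - f l - (s0 + fw) := by rw [q5]; abel
  rw [ht] at hT
  have hyw : y ≠ w := by rintro rfl; rw [h.hy] at z1; exact one_ne_zero z1
  have hlw : l ≠ w := by rintro rfl; rw [hl1] at z1; exact one_ne_zero z1
  rcases mem_Tset_iff_smul.1 hT with h0 | ⟨o, d, hd, h0⟩
  · have := congrArg (fun v => f.repr v w) h0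
    simp [e1, e2, single_ne hyw, single_ne hlw, single_ne hww.symm, hc] at this
  refine ⟨o, d, ?_, ?_, hd, h0⟩
  · rintro rfl
    have := congrArg (fun v => a.repr v o) h0
    simp [h.hy, hl1, h.s01, h.fw1] at this
    exact hd this.symm
  · rintro rfl
    have := congrArg (fun v => a.repr v o) h0
    simp [a2_f h h.yj, a2_f h hl, h.hy, hl1, s02 h, fw2 h] at this
    exact hd this.symm

/-- The attachments at `i2`. -/
theorem att2 (hQE : S_QE) (h : Q2 a f j i1 i2 y s0 fw) (n1 : s0 ≠ fw) (n2 : s0 ≠ -fw) {l : κ}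
    (hl : l ≠ j) (hl1 : a.repr (f l) i1 = 1) (hD : f j + f l ∈ Dset (Tset a)) :
    ∃ o, ∃ c : F, o ≠ i1 ∧ o ≠ i2 ∧ c ≠ 0 ∧ f l - f y + (fw - s0) = c • a o := by
  obtain ⟨w, w', c, c', hc, hc', e1, e2, hww, hw, hw', z1, z2⟩ := ww h n1 n2
  have q5 := ((hQE a f j i1 i2 y s0 fw h).2.2.2.2 l hl hl1).2
  have hT := sub_mem_Tset_one a hD (i := i2) (by simp [h.x2, a2_f h hl, hl1]; decide)
  have ht : f j + f l - a i2 = f l - f y + (fw - s0) := by rw [q5]; abel
  rw [ht] at hT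
  have hyw : y ≠ w := by rintro rfl; rw [h.hy] at z1; exact one_ne_zero z1
  have hlw : l ≠ w := by rintro rfl; rw [hl1] at z1; exact one_ne_zero z1
  rcases mem_Tset_iff_smul.1 hT with h0 | ⟨o, d, hd, h0⟩
  · have := congrArg (fun v => f.repr v w) h0
    simp [e1, e2, single_ne hyw, single_ne hlw, single_ne hww.symm, hc] at this
  refine ⟨o, d, ?_, ?_, hd, h0⟩
  · rintro rfl
    have := congrArg (fun v => a.repr v o) h0
    simp [h.hy, hl1, h.s01, h.fw1] at this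
    exact hd this.symm
  · rintro rfl
    have := congrArg (fun v => a.repr v o) h0
    simp [a2_f h h.yj, a2_f h hl, h.hy, hl1, s02 h, fw2 h] at this
    exact hd this.symm

/-- `o` carries an attachment at `i1`. -/
def A1 (a : Basis ι F V) (f : Basis κ F V) (j : κ) (i1 : ι) (y : κ) (s0 fw : V) (o : ι) :
    Prop :=
  ∃ l, l ≠ j ∧ a.repr (f l) i1 = 1 ∧ ∃ c : F, c ≠ 0 ∧ f y - f l - (s0 + fw) = c • a o

/-- `o` carries an attachment at `i2`. -/
def A2 (a : Basis ι F V) (f : Basis κ F V) (j : κ) (i1 : ι) (y : κ) (s0 fw : V) (o : ι) :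
    Prop :=
  ∃ l, l ≠ j ∧ a.repr (f l) i1 = 1 ∧ ∃ c : F, c ≠ 0 ∧ f l - f y + (fw - s0) = c • a o

theorem ends_two {e : V} {i o m : ι} {c : F} (he : e = a i + c • a o ∨ e = -(a i + c • a o))
    (hm : a.repr e m ≠ 0) : m = i ∨ m = o := by
  by_contra hc
  push Not at hc
  rcases he with rfl | rfl <;> simp [single_ne hc.1.symm, single_ne hc.2.symm] at hm

/-- Classification of the edges by their ends in `a`. -/
theorem cls (hQE : S_QE) (h : Q2 a f j i1 i2 y s0 fw) (n1 : s0 ≠ fw) (n2 : s0 ≠ -fw) {e : V}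
    (he : e ∈ EE a f) : e ∈ EK a f j i1 ∪ EZ a f j i1 ∨
    (a.repr e i1 ≠ 0 ∧ ∀ m, a.repr e m ≠ 0 → m = i1 ∨ m = i2) ∨
    (a.repr e i1 ≠ 0 ∧ ∃ o, A1 a f j i1 y s0 fw o ∧ ∀ m, a.repr e m ≠ 0 → m = i1 ∨ m = o) ∨
    (a.repr e i2 ≠ 0 ∧ ∃ o, A2 a f j i1 y s0 fw o ∧ ∀ m, a.repr e m ≠ 0 → m = i2 ∨ m = o) := by
  have hne := h.ne
  have q5 := (hQE a f j i1 i2 y s0 fw h).2.2.2.2
  rcases (hQE a f j i1 i2 y s0 fw h).1 e he with h1 | h1 | h1 | h1 | h1 | h1 |
    ⟨l, hl, hl1, h1⟩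
  · exact Or.inl (Or.inl h1)
  · exact Or.inl (Or.inr h1)
  · exact Or.inr (Or.inl ⟨by simp [h1, single_ne hne.symm], fun m hm =>
      ends_two (c := -1) (Or.inl (by rw [h1]; module)) hm⟩)
  · exact Or.inr (Or.inl ⟨by simp [h1, single_ne hne.symm], fun m hm =>
      ends_two (c := -1) (Or.inr (by rw [h1]; module)) hm⟩)
  · exact Or.inr (Or.inl ⟨by simp [h1, single_ne hne.symm], fun m hm =>
      ends_two (c := 1) (Or.inl (by rw [h1]; module)) hm⟩)
  · exact Or.inr (Or.inl ⟨by simp [h1, single_ne hne.symm], fun m hm =>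
      ends_two (c := 1) (Or.inr (by rw [h1]; module)) hm⟩)
  have k1 : (e = f j - f l ∨ e = -(f j - f l)) → (a.repr e i1 ≠ 0 ∧ ∃ o,
      A1 a f j i1 y s0 fw o ∧ ∀ m, a.repr e m ≠ 0 → m = i1 ∨ m = o) := by
    intro h2
    have hD : f j - f l ∈ Dset (Tset a) := by
      rcases h2 with h2 | h2
      · exact h2 ▸ he.1
      · have := neg_mem_Dset he.1
        rwa [h2, neg_neg] at this
    obtain ⟨o, c, o1, -, hc, ho⟩ := att1 hQE h n1 n2 hl hl1 hD
    rw [(q5 l hl hl1).1, ho] at h2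
    refine ⟨?_, o, ⟨l, hl, hl1, c, hc, ho⟩, fun m hm => ends_two h2 hm⟩
    rcases h2 with h2 | h2 <;> simp [h2, single_ne o1]
  have k2 : (e = f j + f l ∨ e = -(f j + f l)) → (a.repr e i2 ≠ 0 ∧ ∃ o,
      A2 a f j i1 y s0 fw o ∧ ∀ m, a.repr e m ≠ 0 → m = i2 ∨ m = o) := by
    intro h2
    have hD : f j + f l ∈ Dset (Tset a) := by
      rcases h2 with h2 | h2
      · exact h2 ▸ he.1
      · have := neg_mem_Dset he.1
        rwa [h2, neg_neg] at this
    obtain ⟨o, c, -, o2, hc, ho⟩ := att2 hQE h n1 n2 hl hl1 hD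
    rw [(q5 l hl hl1).2, ho] at h2
    refine ⟨?_, o, ⟨l, hl, hl1, c, hc, ho⟩, fun m hm => ends_two h2 hm⟩
    rcases h2 with h2 | h2 <;> simp [h2, single_ne o2]
  rcases h1 with h1 | h1 | h1 | h1
  · exact Or.inr (Or.inr (Or.inl (k1 (Or.inl h1))))
  · exact Or.inr (Or.inr (Or.inl (k1 (Or.inr h1))))
  · exact Or.inr (Or.inr (Or.inr (k2 (Or.inl h1))))
  · exact Or.inr (Or.inr (Or.inr (k2 (Or.inr h1))))

theorem A1.ne (h : Q2 a f j i1 i2 y s0 fw) {o : ι} (ho : A1 a f j i1 y s0 fw o) :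
    o ≠ i1 ∧ o ≠ i2 := by
  obtain ⟨l, hl, hl1, d, hd, h0⟩ := ho
  constructor
  · rintro rfl
    have := congrArg (fun v => a.repr v o) h0
    simp [h.hy, hl1, h.s01, h.fw1] at this
    exact hd this.symm
  · rintro rfl
    have := congrArg (fun v => a.repr v o) h0
    simp [a2_f h h.yj, a2_f h hl, h.hy, hl1, s02 h, fw2 h] at this
    exact hd this.symm

theorem A2.ne (h : Q2 a f j i1 i2 y s0 fw) {o : ι} (ho : A2 a f j i1 y s0 fw o) :
    o ≠ i1 ∧ o ≠ i2 := by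
  obtain ⟨l, hl, hl1, d, hd, h0⟩ := ho
  constructor
  · rintro rfl
    have := congrArg (fun v => a.repr v o) h0
    simp [h.hy, hl1, h.s01, h.fw1] at this
    exact hd this.symm
  · rintro rfl
    have := congrArg (fun v => a.repr v o) h0
    simp [a2_f h h.yj, a2_f h hl, h.hy, hl1, s02 h, fw2 h] at this
    exact hd this.symm

theorem exA1 (hQE : S_QE) (h : Q2 a f j i1 i2 y s0 fw) (n1 : s0 ≠ fw) (n2 : s0 ≠ -fw) :
    ∃ o, A1 a f j i1 y s0 fw o := by
  obtain ⟨l, hl, hl1, hD⟩ := h.he1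
  obtain ⟨o, c, -, -, hc, ho⟩ := att1 hQE h n1 n2 hl hl1 hD
  exact ⟨o, l, hl, hl1, c, hc, ho⟩

theorem exA2 (hQE : S_QE) (h : Q2 a f j i1 i2 y s0 fw) (n1 : s0 ≠ fw) (n2 : s0 ≠ -fw) :
    ∃ o, A2 a f j i1 y s0 fw o := by
  obtain ⟨l, hl, hl1, hD⟩ := h.he2
  obtain ⟨o, c, -, -, hc, ho⟩ := att2 hQE h n1 n2 hl hl1 hD
  exact ⟨o, l, hl, hl1, c, hc, ho⟩

/-- No vertex carries attachments from both sides. -/
theorem notA12 (h : Q2 a f j i1 i2 y s0 fw) (n1 : s0 ≠ fw) (n2 : s0 ≠ -fw) {o : ι}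
    (h1 : A1 a f j i1 y s0 fw o) (h2 : A2 a f j i1 y s0 fw o) : False := by
  obtain ⟨w, w', c, c', hc, hc', e1, e2, hww, hw, hw', z1, z2⟩ := ww h n1 n2
  obtain ⟨l, hl, hl1, d, hd, h0⟩ := h1
  obtain ⟨m, hm, hm1, d', hd', h0'⟩ := h2
  have hyw : y ≠ w := by rintro rfl; rw [h.hy] at z1; exact one_ne_zero z1
  have hlw : l ≠ w := by rintro rfl; rw [hl1] at z1; exact one_ne_zero z1
  have hmw : m ≠ w := by rintro rfl; rw [hm1] at z1; exact one_ne_zero z1
  have hyw' : y ≠ w' := by rintro rfl; rw [h.hy] at z2; exact one_ne_zero z2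
  have hlw' : l ≠ w' := by rintro rfl; rw [hl1] at z2; exact one_ne_zero z2
  have hmw' : m ≠ w' := by rintro rfl; rw [hm1] at z2; exact one_ne_zero z2
  have a1 := congrArg (fun v => f.repr v w) h0
  have a2 := congrArg (fun v => f.repr v w') h0
  have a3 := congrArg (fun v => f.repr v w) h0'
  have a4 := congrArg (fun v => f.repr v w') h0'
  simp [e1, e2, single_ne hyw, single_ne hlw, single_ne hmw, single_ne hyw', single_ne hlw',
    single_ne hmw', single_ne hww, single_ne hww.symm] at a1 a2 a3 a4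
  generalize f.repr (a o) w = p at a1 a3
  generalize f.repr (a o) w' = p' at a2 a4
  have fin : ∀ c c' d d' p p' : F, c ≠ 0 → c' ≠ 0 → -c = d * p → -c' = d * p' → c = d' * p →
      -c' = d' * p' → False := by
    intro c c'
    rcases F_cases c with rfl | rfl | rfl <;> rcases F_cases c' with rfl | rfl | rfl <;> decide
  exact fin c c' d d' p p' hc hc' a1 a2 a3 a4

/-- A closed part of `O` without attachments at `i1` is impossible. -/
theorem part (hQE : S_QE) (h : Q2 a f j i1 i2 y s0 fw) (n1 : s0 ≠ fw) (n2 : s0 ≠ -fw)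
    (P : Set ι) (hP : P.Nonempty) (hO : ∀ o ∈ P, o ≠ i1 ∧ o ≠ i2)
    (hcl : ∀ e ∈ EK a f j i1 ∪ EZ a f j i1, ∀ o ∈ P, a.repr e o ≠ 0 →
      ∀ m, a.repr e m ≠ 0 → m ∈ P)
    (hA : ∀ o ∈ P, ¬ A1 a f j i1 y s0 fw o) : False := by
  refine h.tc.nsep (sepv a P hP (j := i2) (l0 := i1) (fun hc => (hO _ hc).1 rfl) h.ne
    fun e he o ho h1 m hm => ?_)
  rcases cls hQE h n1 n2 he with h2 | ⟨-, h2⟩ | ⟨-, o', h3, h2⟩ | ⟨-, o', h3, h2⟩
  · exact Or.inl (hcl e h2 o ho h1 m hm)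
  · exact absurd (h2 o h1) (by have := hO o ho; tauto)
  · rcases h2 o h1 with rfl | rfl
    · exact absurd rfl (hO _ ho).1
    · exact absurd h3 (hA _ ho)
  · rcases h2 o h1 with rfl | rfl
    · exact absurd rfl (hO _ ho).2
    · rcases h2 m hm with rfl | rfl
      · exact Or.inr rfl
      · exact Or.inl ho

/-- A union of classes closed under the edges of `O` is trivial. -/
theorem noj (hQE : S_QE) (h : Q2 a f j i1 i2 y s0 fw) (n1 : s0 ≠ fw) (n2 : s0 ≠ -fw)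
    {ρ : Type} {χ : ρ → V →ₗ[F] F}
    (c1 : Cells a (span F (EK a f j i1) ⊔ span F (a '' {i1, i2})) χ)
    (z1 : ∀ l, l ∉ ({i1, i2} : Set ι) → ∃ q, χ q (a l) ≠ 0) (W : Submodule F V)
    (hW : ∀ x ∈ W, a.repr x i1 = 0 ∧ a.repr x i2 = 0)
    (hcl : ∀ e ∈ EK a f j i1 ∪ EZ a f j i1, ∀ o o', a o ∈ W → a.repr e o ≠ 0 →
      a.repr e o' ≠ 0 → a o' ∈ W)
    (hχ : ∀ q o o', χ q (a o) ≠ 0 → χ q (a o') ≠ 0 → a o ∈ W → a o' ∈ W)
    {p : ι} (p1 : p ≠ i1) (p2 : p ≠ i2) (hp : a p ∉ W) (o : ι) : a o ∉ W := by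
  intro ho
  have hO : ∀ o, a o ∈ W → o ≠ i1 ∧ o ≠ i2 := fun o ho =>
    ⟨by rintro rfl; simpa using (hW _ ho).1, by rintro rfl; simpa using (hW _ ho).2⟩
  obtain ⟨o0, ho0⟩ := exA1 hQE h n1 n2
  obtain ⟨q, hq⟩ := z1 o0 (by have := ho0.ne h; simp; tauto)
  have same : ∀ o', A1 a f j i1 y s0 fw o' → χ q (a o') ≠ 0 := by
    rintro o' ⟨l, hl, hl1, d, hd, h0⟩
    obtain ⟨m, hm, hm1, d', hd', h0'⟩ := ho0
    have h1 := c1.van q _ (mem_sup_left (dK hQE h hl hl1 hm hm1))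
    have h2 : f l - f m = d' • a o0 - d • a o' := by rw [← h0, ← h0']; abel
    rw [h2] at h1
    intro hc
    simp [hc, hd', hq] at h1
  by_cases h0 : a o0 ∈ W
  · refine part hQE h n1 n2 {o | o ≠ i1 ∧ o ≠ i2 ∧ a o ∉ W} ⟨p, p1, p2, hp⟩
      (fun o ho => ⟨ho.1, ho.2.1⟩) (fun e he o ho h1 m hm => ?_)
      fun o ho hA => ho.2.2 (hχ q o0 o hq (same o hA) h0)
    have h2 := (hQE a f j i1 i2 y s0 fw h).2.1 e he
    exact ⟨by rintro rfl; exact hm h2.1, by rintro rfl; exact hm h2.2,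
      fun hc => ho.2.2 (hcl e he m o hc hm h1)⟩
  · exact part hQE h n1 n2 {o | a o ∈ W} ⟨o, ho⟩ (fun o ho => hO o ho)
      (fun e he o ho h1 m hm => hcl e he o m ho h1 hm)
      fun o ho hA => h0 (hχ q o o0 (same o hA) hq ho)

theorem inO (hQE : S_QE) (h : Q2 a f j i1 i2 y s0 fw) (n1 : s0 ≠ fw) (n2 : s0 ≠ -fw) {e : V}
    (he : e ∈ EE a f) (h1 : a.repr e i1 = 0) (h2 : a.repr e i2 = 0) :
    e ∈ EK a f j i1 ∪ EZ a f j i1 := by
  rcases cls hQE h n1 n2 he with h3 | ⟨h3, -⟩ | ⟨h3, -⟩ | ⟨h3, -⟩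
  · exact h3
  · exact absurd h1 h3
  · exact absurd h1 h3
  · exact absurd h2 h3

/-- Applying `SC0` at a star vanishing on `i1`, `i2` and `C`. -/
theorem sc (hQE : S_QE) (hSC0 : S_SC0) (h : Q2 a f j i1 i2 y s0 fw) (n1 : s0 ≠ fw)
    (n2 : s0 ≠ -fw) (W : Submodule F V) (hW : ∀ o, a o ∉ W) (C : Set ι)
    (hC : ∀ e ∈ EK a f j i1 ∪ EZ a f j i1, (∀ m ∈ C, a.repr e m = 0) → e ∈ W) (l : κ)
    (l1 : f.repr (a i1) l = 0) (l2 : f.repr (a i2) l = 0) (lC : ∀ m ∈ C, f.repr (a m) l = 0) :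
    Succ (Tset a) (Tset f) := by
  have key : ∀ e ∈ EE a f, (∀ i, f.repr (a i) l = 0 → a.repr e i = 0) → e ∈ W := fun e he h1 =>
    hC e (inO hQE h n1 n2 he (h1 _ l1) (h1 _ l2)) fun m hm => h1 m (lC m hm)
  refine hSC0 (Tset a) (Tset f) a f l (isFrame_basis a) (isFrame_basis f) (rr_left _ _)
    (rr_right _ _) (h.tc.nbf l) (h.tc.two_supp l) ⟨i1, i2, h.ne, l1, l2⟩
    fun e he o o' hoo ho ho' hb hb' => ?_
  by_contra hne
  have he2 := Dset_eq_two a he.1 hoo ho ho'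
  set c := a.repr e o
  set c' := a.repr e o'
  have hsupp : ∀ (d d' : F) i, f.repr (a i) l = 0 → a.repr (d • a o + d' • a o') i = 0 := by
    intro d d' i hi
    have h1 : o ≠ i := by rintro rfl; exact hb hi
    have h2 : o' ≠ i := by rintro rfl; exact hb' hi
    simp [single_ne h1, single_ne h2]
  have h1 : e ∈ W := key e he fun i hi => by rw [he2]; exact hsupp _ _ i hi
  have h2 : f.repr (c • a o + (-c') • a o') l = 0 := by
    rw [he2] at hne
    simp only [map_add, map_smul, Finsupp.add_apply, Finsupp.smul_apply, smul_eq_mul] at hne ⊢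
    have fin : ∀ c c' p p' : F, c ≠ 0 → c' ≠ 0 → p ≠ 0 → p' ≠ 0 → c * p + c' * p' ≠ 0 →
        c * p + -c' * p' = 0 := by
      intro c c'
      rcases F_cases c with rfl | rfl | rfl <;> rcases F_cases c' with rfl | rfl | rfl <;> decide
    exact fin _ _ _ _ ho ho' hb hb' hne
  have h3 := (s_split a (EE a f) (f.coord l) (fun _ he => he.1) (h.tc.nbf l)).2
    (c • a o + (-c') • a o') (fun i hi => hsupp _ _ i hi) h2
  have h4 : c • a o + (-c') • a o' ∈ W :=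
    (span_le.2 fun e' he' => key e' he'.1 he'.2.2 : span F _ ≤ W) h3
  have h5 : a o = (-c) • (e + (c • a o + (-c') • a o')) := by
    have h6 := F_sq ho
    have h7 : (-c) • (e + (c • a o + (-c') • a o')) = (-(2 * (c * c))) • a o := by
      rw [he2]; module
    rw [h7, h6, F_two]; simp
  exact hW o (h5 ▸ W.smul_mem _ (W.add_mem h1 h4))

section rings

variable {ρ ρ' : Type} [Fintype ρ] [DecidableEq ρ] [Fintype ρ'] [DecidableEq ρ']
  {χ : ρ → V →ₗ[F] F} {ψ : ρ' → V →ₗ[F] F}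

theorem span_O (hQE : S_QE) (h : Q2 a f j i1 i2 y s0 fw) {E : Set V}
    (hE : E ⊆ EK a f j i1 ∪ EZ a f j i1) {x : V} (hx : x ∈ span F E) :
    a.repr x i1 = 0 ∧ a.repr x i2 = 0 :=
  have q2 := (hQE a f j i1 i2 y s0 fw h).2.1
  ⟨repr_span_zero a (fun e he => (q2 e (hE he)).1) hx,
    repr_span_zero a (fun e he => (q2 e (hE he)).2) hx⟩

theorem cell_ne {W : Submodule F V} (c : Cells a (W ⊔ span F (a '' {i1, i2})) χ) {q : ρ}
    {p : ι} (hp : χ q (a p) ≠ 0) : p ≠ i1 ∧ p ≠ i2 :=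
  ⟨by rintro rfl; exact hp (c.van q _ (mem_sup_right (subset_span ⟨p, by simp, rfl⟩))),
    by rintro rfl; exact hp (c.van q _ (mem_sup_right (subset_span ⟨p, by simp, rfl⟩)))⟩

/-- No joint is spanned after cutting the ring at a big class of `EZ`. -/
theorem nojZ (hQE : S_QE) (hRING : S_RING) (h : Q2 a f j i1 i2 y s0 fw) (n1 : s0 ≠ fw)
    (n2 : s0 ≠ -fw) (R : Rings a {i1, i2} (EK a f j i1) (EZ a f j i1) χ ψ) {q : ρ'}
    (hq : Big a (span F (EZ a f j i1)) ψ q) (o : ι) :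
    a o ∉ span F (EK a f j i1 ∪
      {e | e ∈ EZ a f j i1 ∧ ∀ m, ψ q (a m) ≠ 0 → a.repr e m = 0}) := by
  obtain ⟨r1, r2, r3, -⟩ := hRING a _ _ _ χ ψ q _ R hq rfl
  obtain ⟨p, hp, -⟩ := hq
  refine noj hQE h n1 n2 R.c1 R.z1 _ (fun x hx => span_O hQE h ?_ hx) r2 r3
    (cell_ne R.c2 hp).1 (cell_ne R.c2 hp).2 (r1 p hp) o
  rintro e (he | he)
  · exact Or.inl he
  · exact Or.inr he.1

/-- No joint is spanned after cutting the ring at a big class of `EK`. -/
theorem nojK (hQE : S_QE) (hRING : S_RING) (h : Q2 a f j i1 i2 y s0 fw) (n1 : s0 ≠ fw)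
    (n2 : s0 ≠ -fw) (R : Rings a {i1, i2} (EK a f j i1) (EZ a f j i1) χ ψ) {q : ρ}
    (hq : Big a (span F (EK a f j i1)) χ q) (o : ι) :
    a o ∉ span F (EZ a f j i1 ∪
      {e | e ∈ EK a f j i1 ∧ ∀ m, χ q (a m) ≠ 0 → a.repr e m = 0}) := by
  obtain ⟨r1, r2, -, r4⟩ := hRING a _ _ _ ψ χ q _ R.symm hq rfl
  obtain ⟨p, hp, -⟩ := hq
  refine noj hQE h n1 n2 R.c1 R.z1 _ (fun x hx => span_O hQE h ?_ hx)
    (fun e he => r2 e (Set.union_comm _ _ ▸ he)) r4
    (cell_ne R.c1 hp).1 (cell_ne R.c1 hp).2 (r1 p hp) o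
  rintro e (he | he)
  · exact Or.inr he
  · exact Or.inl he.1

/-- A star vanishing on `W`, `i1`, `i2` and one vertex of a class vanishes on the class. -/
theorem van_class {W : Submodule F V} (c : Cells a (W ⊔ span F (a '' {i1, i2})) χ) {l : κ}
    (hW : ∀ x ∈ W, f.repr x l = 0) (l1 : f.repr (a i1) l = 0) (l2 : f.repr (a i2) l = 0)
    {q : ρ} {o : ι} (ho : χ q (a o) ≠ 0) (h0 : f.repr (a o) l = 0) (m : ι)
    (hm : χ q (a m) ≠ 0) : f.repr (a m) l = 0 := by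
  have h1 : W ⊔ span F (a '' {i1, i2}) ≤ LinearMap.ker (f.coord l) := by
    refine sup_le (fun x hx => hW x hx) (span_le.2 ?_)
    rintro _ ⟨i, rfl | rfl, rfl⟩
    · exact l1
    · exact l2
  have h2 : f.repr (χ q (a m) • a m - χ q (a o) • a o) l = 0 := h1 (c.diff hm ho)
  simpa [h0, hm] using h2

/-- There is a third vertex in `K`. -/
theorem third (hQE : S_QE) (h : Q2 a f j i1 i2 y s0 fw)
    (y1 : f j - f y ∉ Dset (Tset a)) (y2 : f j + f y ∉ Dset (Tset a)) (l1 : κ) :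
    ∃ l, l ≠ j ∧ l ≠ y ∧ l ≠ l1 ∧ a.repr (f l) i1 = 1 := by
  by_contra hc
  push Not at hc
  have := Module.Finite.of_basis a
  obtain ⟨w', c', -, e2, -, z2⟩ := zj h.s0T h.s0ne h.s01 h.s0j
  have hyw : w' ≠ y := by rintro rfl; rw [h.hy] at z2; exact one_ne_zero z2
  refine h.tc.nsep (deg3 (by have := h.tc.finrank; omega) (φ := f.coord y)
    (fun h0 => by simpa using congrArg (fun g : V →ₗ[F] F => g (f y)) h0)
    (a i1 - a i2) (f y - f l1) fun e he h0 => ?_)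
  have h0' : f.repr e y ≠ 0 := h0
  have m1 : a i1 - a i2 ∈ span F ({a i1 - a i2, f y - f l1} : Set V) := subset_span (by simp)
  have m2 : f y - f l1 ∈ span F ({a i1 - a i2, f y - f l1} : Set V) := subset_span (by simp)
  rcases (hQE a f j i1 i2 y s0 fw h).1 e he with h1 | h1 | h1 | h1 | h1 | h1 |
    ⟨l, hl, hl1, h1⟩
  · obtain ⟨m, hm, h2, h3⟩ := other_end f (a.coord i1) he.2 h1.2.1 h0' (by simp [h.hy])
    have h4 := h1.2.2 m h2
    have h5 : m = l1 := by_contra fun h6 => hc m h4.1 hm h6 (a1_one h h4.1 h4.2)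
    subst h5
    have h6 := Dset_eq_two f he.2 hm.symm h0' h2
    have h7 := h1.2.1
    rw [h6] at h7
    simp [h.hy, a1_one h h4.1 h4.2] at h7
    have h8 : e = f.repr e y • (f y - f m) := by
      have h9 : f.repr e m = -f.repr e y := by linear_combination h7
      conv_lhs => rw [h6, h9]
      module
    rw [h8]; exact smul_mem _ _ m2
  · exact absurd (h1.2 y h0').2 (by simp [h.hy])
  · rw [h1]; exact m1
  · rw [h1]; exact neg_mem m1
  · exfalso
    have h2 : e = -(f j + s0) := by rw [h1, ← h.hn, neg_neg]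
    simp [h2, e2, single_ne h.yj.symm, single_ne hyw] at h0'
  · exfalso
    simp [h1, h.hn, e2, single_ne h.yj.symm, single_ne hyw] at h0'
  · exfalso
    by_cases hly : l = y
    · subst hly
      rcases h1 with h1 | h1 | h1 | h1
      · exact y1 (h1 ▸ he.1)
      · exact y1 (by have := neg_mem_Dset he.1; rwa [h1, neg_neg] at this)
      · exact y2 (h1 ▸ he.1)
      · exact y2 (by have := neg_mem_Dset he.1; rwa [h1, neg_neg] at this)
    · rcases h1 with h1 | h1 | h1 | h1 <;>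
        simp [h1, single_ne h.yj.symm, single_ne hly] at h0'

/-- An attachment at a vertex touched by `EZ`. -/
theorem caseA (hQE : S_QE) (hRING : S_RING) (hSC0 : S_SC0) (h : Q2 a f j i1 i2 y s0 fw)
    (n1 : s0 ≠ fw) (n2 : s0 ≠ -fw) (R : Rings a {i1, i2} (EK a f j i1) (EZ a f j i1) χ ψ)
    (y1 : f j - f y ∉ Dset (Tset a)) (y2 : f j + f y ∉ Dset (Tset a)) {o : ι}
    (ho : A1 a f j i1 y s0 fw o ∨ A2 a f j i1 y s0 fw o)
    (ht : Tch a (span F (EZ a f j i1)) o) : Succ (Tset a) (Tset f) := by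
  obtain ⟨w, w', c, c', hc, hc', e1, e2, hww, hw, hw', z1, z2⟩ := ww h n1 n2
  have hO : o ≠ i1 ∧ o ≠ i2 := ho.elim (fun h1 => h1.ne h) fun h1 => h1.ne h
  obtain ⟨q, hq⟩ := R.z2 o (by simp; tauto)
  have hex : ∃ l1, ∀ l, l ≠ y → l ≠ l1 → l ≠ w → l ≠ w' → f.repr (a o) l = 0 := by
    rcases ho with ⟨l1, -, -, d, hd, h0⟩ | ⟨l1, -, -, d, hd, h0⟩ <;>
      refine ⟨l1, fun l h1 h2 h3 h4 => ?_⟩ <;>
      have := congrArg (fun v => f.repr v l) h0 <;>
      simpa [e1, e2, single_ne h1.symm, single_ne h2.symm, single_ne h3.symm,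
        single_ne h4.symm, hd] using this
  obtain ⟨l1, hl1⟩ := hex
  obtain ⟨l, hl, hly, hll, hK⟩ := third hQE h y1 y2 l1
  have hlw : l ≠ w := by rintro rfl; rw [hK] at z1; exact one_ne_zero z1
  have hlw' : l ≠ w' := by rintro rfl; rw [hK] at z2; exact one_ne_zero z2
  have k1 : f.repr (a i1) l = 0 := by
    simp [a1_eq h, e1, e2, single_ne hl.symm, single_ne hly.symm, single_ne hlw.symm,
      single_ne hlw'.symm]
  have k2 : f.repr (a i2) l = 0 := by
    simp [a2_eq h, e1, e2, single_ne hl.symm, single_ne hly.symm, single_ne hlw.symm,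
      single_ne hlw'.symm]
  refine sc hQE hSC0 h n1 n2 _ (nojZ hQE hRING h n1 n2 R ⟨o, hq, ht⟩)
    {m | ψ q (a m) ≠ 0} (fun e he h1 => subset_span ?_) l k1 k2
    (van_class R.c2 (fun x hx => repr_span_zero f (fun e he => ?_) hx) k1 k2 hq
      (hl1 l hly hll hlw hlw'))
  · exact he.elim Or.inl fun he => Or.inr ⟨he, h1⟩
  · by_contra h1
    have := (he.2 l h1).2
    rw [hK] at this
    exact one_ne_zero this

/-- An attachment vertex not touched by `EZ` is touched by `EK`. -/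
theorem tchK (hQE : S_QE) (h : Q2 a f j i1 i2 y s0 fw) (n1 : s0 ≠ fw) (n2 : s0 ≠ -fw) {o : ι}
    (ho : A1 a f j i1 y s0 fw o ∨ A2 a f j i1 y s0 fw o)
    (ht : ¬ Tch a (span F (EZ a f j i1)) o) : Tch a (span F (EK a f j i1)) o := by
  by_contra hk
  have hO : o ≠ i1 ∧ o ≠ i2 := ho.elim (fun h1 => h1.ne h) fun h1 => h1.ne h
  have h0 : ∀ e ∈ EK a f j i1 ∪ EZ a f j i1, a.repr e o = 0 := by
    rintro e (he | he) <;> by_contra hc
    · exact hk ⟨e, subset_span he, hc⟩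
    · exact ht ⟨e, subset_span he, hc⟩
  rcases ho with ho | ho
  · refine h.tc.nsep (sepv a {o} ⟨o, rfl⟩ (j := i1) (l0 := i2) (fun hc => hO.2 hc.symm)
      h.ne.symm fun e he p hp h1 m hm => ?_)
    obtain rfl : p = o := hp
    rcases cls hQE h n1 n2 he with h2 | ⟨-, h2⟩ | ⟨-, o', h3, h2⟩ | ⟨-, o', h3, h2⟩
    · exact absurd (h0 e h2) h1
    · exact absurd (h2 p h1) (by tauto)
    · obtain rfl : p = o' := (h2 p h1).resolve_left hO.1
      exact (h2 m hm).symm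
    · obtain rfl : p = o' := (h2 p h1).resolve_left hO.2
      exact (notA12 h n1 n2 ho h3).elim
  · refine h.tc.nsep (sepv a {o} ⟨o, rfl⟩ (j := i2) (l0 := i1) (fun hc => hO.1 hc.symm)
      h.ne fun e he p hp h1 m hm => ?_)
    obtain rfl : p = o := hp
    rcases cls hQE h n1 n2 he with h2 | ⟨-, h2⟩ | ⟨-, o', h3, h2⟩ | ⟨-, o', h3, h2⟩
    · exact absurd (h0 e h2) h1
    · exact absurd (h2 p h1) (by tauto)
    · obtain rfl : p = o' := (h2 p h1).resolve_left hO.1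
      exact (notA12 h n1 n2 h3 ho).elim
    · obtain rfl : p = o' := (h2 p h1).resolve_left hO.2
      exact (h2 m hm).symm

/-- If `Z = {w, w'}`, every vertex of `O` is touched by `EK`. -/
theorem allK (hQE : S_QE) (h : Q2 a f j i1 i2 y s0 fw) {w w' : κ} {c c' : F} (hc : c ≠ 0)
    (hc' : c' ≠ 0) (e1 : fw = c • f w) (e2 : s0 = c' • f w')
    (hZ : ∀ l, l ≠ j → a.repr (f l) i1 = 0 → l = w ∨ l = w') {o1 o2 : ι}
    (h1 : A1 a f j i1 y s0 fw o1) (h2 : A2 a f j i1 y s0 fw o2)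
    (t1 : Tch a (span F (EK a f j i1)) o1) (t2 : Tch a (span F (EK a f j i1)) o2) {o : ι}
    (p1 : o ≠ i1) (p2 : o ≠ i2) : Tch a (span F (EK a f j i1)) o := by
  by_contra hk
  have hU : ∀ x ∈ span F (EK a f j i1), a.repr x o = 0 := fun x hx =>
    by_contra fun hc => hk ⟨x, hx, hc⟩
  have n1 : o1 ≠ o := by rintro rfl; exact hk t1
  have n2 : o2 ≠ o := by rintro rfl; exact hk t2
  obtain ⟨l, hl, hl1, d, hd, h0⟩ := h1
  obtain ⟨m, hm, hm1, d', hd', h0'⟩ := h2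
  have a1 := congrArg (fun v => a.repr v o) h0
  have a2 := congrArg (fun v => a.repr v o) h0'
  have a3 := hU _ (dK hQE h h.yj h.hy hl hl1)
  have a4 := hU _ (dK hQE h hm hm1 h.yj h.hy)
  have a5 := congrArg (fun v => a.repr v o) h.hd
  have a6 := congrArg (fun v => a.repr v o) h.hn
  simp only [map_sub, map_add, map_smul, map_neg, Finsupp.sub_apply, Finsupp.add_apply,
    Finsupp.neg_apply, Finsupp.smul_apply, smul_eq_mul, repr_basis_ne a n1, repr_basis_ne a n2,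
    repr_basis_ne a p1.symm, repr_basis_ne a p2.symm, mul_zero] at a1 a2 a3 a4 a5 a6
  have t3 := F_three
  have b1 : a.repr fw o = 0 := by
    linear_combination a1 - a2 - a3 + a4 + a.repr fw o * t3
  have b2 : a.repr s0 o = 0 := by
    linear_combination a1 + a2 - a3 - a4 + a.repr s0 o * t3
  have b3 : a.repr (f y) o = 0 := by linear_combination b1 - a5
  have b4 : a.repr (f j) o = 0 := by linear_combination -a6 - b2
  have b5 : a.coord o = 0 := by
    refine f.ext fun k => ?_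
    change a.repr (f k) o = 0
    by_cases hkj : k = j
    · rw [hkj]; exact b4
    by_cases hk1 : a.repr (f k) i1 = 0
    · rcases hZ k hkj hk1 with rfl | rfl
      · simpa [e1, hc] using b1
      · simpa [e2, hc'] using b2
    · have := hU _ (dK hQE h h.yj h.hy hkj (a1_one h hkj hk1))
      simpa [b3] using this
  simpa using congrArg (fun g : V →ₗ[F] F => g (a o)) b5

/-- If every vertex of `O` is touched by `EK`, every edge of `EZ` misses a big class. -/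
theorem other (hQE : S_QE) (h : Q2 a f j i1 i2 y s0 fw) (n1 : s0 ≠ fw) (n2 : s0 ≠ -fw)
    (R : Rings a {i1, i2} (EK a f j i1) (EZ a f j i1) χ ψ)
    (hK : ∀ o, o ≠ i1 → o ≠ i2 → Tch a (span F (EK a f j i1)) o) {e : V}
    (he : e ∈ EZ a f j i1) (hne : e ≠ 0) :
    ∃ q, Big a (span F (EZ a f j i1)) ψ q ∧ ∀ m, ψ q (a m) ≠ 0 → a.repr e m = 0 := by
  obtain ⟨w, w', c, c', hc, hc', e1, e2, hww, hw, hw', z1, z2⟩ := ww h n1 n2
  have q2 := (hQE a f j i1 i2 y s0 fw h).2.1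
  have q4 := (hQE a f j i1 i2 y s0 fw h).2.2.2.1
  have hcell : ∀ e ∈ EZ a f j i1, ∀ o, a.repr e o ≠ 0 → ∃ q, ψ q (a o) ≠ 0 := by
    intro e he o ho
    have := q2 e (Or.inr he)
    refine R.z2 o ?_
    rintro (rfl | rfl)
    · exact ho this.1
    · exact ho this.2
  have hvan : ∀ q, ∀ e ∈ EZ a f j i1, ψ q e = 0 := fun q e he =>
    R.c2.van q e (mem_sup_left (subset_span he))
  obtain ⟨o, ho⟩ := exists_repr_ne a hne
  obtain ⟨q, hq⟩ := hcell e he o ho
  have hend : ∀ m, a.repr e m ≠ 0 → ψ q (a m) ≠ 0 := fun m hm =>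
    ends_in_supp a (ψ q) he.1.1 (hvan q e he) ho hq hm
  by_cases hall : ∀ e' ∈ EZ a f j i1, ∀ m, a.repr e' m ≠ 0 → ψ q (a m) ≠ 0
  swap
  · push Not at hall
    obtain ⟨e', he', m, hm, hm0⟩ := hall
    obtain ⟨q', hq'⟩ := hcell e' he' m hm
    refine ⟨q', ⟨m, hq', e', subset_span he', hm⟩, fun k hk => by_contra fun hc => ?_⟩
    have := R.c2.disj k q q' (hend k hc) hk
    exact hq' (this ▸ hm0)
  exfalso
  obtain ⟨o', ho', h1, h2⟩ := other_end a (ψ q) he.1.1 (hvan q e he) ho hq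
  have hs := R.s2 q ⟨o, hq, e, subset_span he, ho⟩
  have hsh : ∀ e' ∈ EZ a f j i1, ∀ m, a.repr e' m ≠ 0 → m ∈ {l | ψ q (a l) ≠ 0 ∧
      l ∈ Shd a (span F (EK a f j i1)) (span F (EZ a f j i1))} := fun e' he' m hm =>
    ⟨hall e' he' m hm, hK m (cell_ne R.c2 (hall e' he' m hm)).1
      (cell_ne R.c2 (hall e' he' m hm)).2, e', subset_span he', hm⟩
  have htwo : ∀ e' ∈ EZ a f j i1, ∀ m, a.repr e' m ≠ 0 → m = o ∨ m = o' := by
    intro e' he' m hm
    obtain ⟨u, v, -, huv⟩ := Set.ncard_eq_two.1 hs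
    have k1 := hsh e he o ho
    have k2 := hsh e he o' h1
    have k3 := hsh e' he' m hm
    rw [huv] at k1 k2 k3
    simp only [Set.mem_insert_iff, Set.mem_singleton_iff] at k1 k2 k3
    rcases k1 with rfl | rfl <;> rcases k2 with rfl | rfl <;> tauto
  have hle : span F (EZ a f j i1) ≤ span F {e} := by
    refine span_le.2 fun e' he' => ?_
    have h3 : e' - (a.repr e' o * a.repr e o) • e =
        a.repr (e' - (a.repr e' o * a.repr e o) • e) o' • a o' := by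
      refine eq_smul_of_supp a o' fun m hm => ?_
      by_cases hmo : m = o
      · subst hmo
        simp [mul_assoc, F_sq ho]
      · have k1 : a.repr e' m = 0 := by_contra fun hc => (htwo e' he' m hc).elim hmo hm
        have k2 : a.repr e m = 0 := by_contra fun hc => (htwo e he m hc).elim hmo hm
        simp [k1, k2]
    have h4 : ψ q (e' - (a.repr e' o * a.repr e o) • e) = 0 := by
      simp [hvan q e he, hvan q e' he']
    rw [h3, map_smul, smul_eq_mul] at h4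
    rw [(mul_eq_zero.1 h4).resolve_right h2, zero_smul, sub_eq_zero] at h3
    rw [h3]
    exact smul_mem _ _ (subset_span rfl)
  have inZ : ∀ (d : F) k, k ≠ j → a.repr (f k) i1 = 0 → d • f k ∈ span F {e} := by
    intro d k hk hk1
    refine hle (q4 _ fun l hl => ?_)
    have : k = l := by_contra fun hc => by simp [single_ne hc] at hl
    exact this ▸ ⟨hk, hk1⟩
  obtain ⟨d, hd⟩ := mem_span_singleton.1 (inZ 1 w hw z1)
  obtain ⟨d', hd'⟩ := mem_span_singleton.1 (inZ 1 w' hw' z2)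
  have k1 := congrArg (fun v => f.repr v w) hd
  have k2 := congrArg (fun v => f.repr v w) hd'
  have k3 := congrArg (fun v => f.repr v w') hd'
  simp [single_ne hww.symm] at k1 k2 k3
  rcases k2 with k2 | k2
  · simp [k2] at k3
  · simp [k2] at k1

/-- The case `Z = {w, w'}` is impossible. -/
theorem caseZ (hQE : S_QE) (hRING : S_RING) (h : Q2 a f j i1 i2 y s0 fw) (n1 : s0 ≠ fw)
    (n2 : s0 ≠ -fw) (R : Rings a {i1, i2} (EK a f j i1) (EZ a f j i1) χ ψ) {w w' : κ}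
    {c c' : F} (hc : c ≠ 0) (hc' : c' ≠ 0) (e1 : fw = c • f w) (e2 : s0 = c' • f w')
    (hww : w ≠ w') (hw : w ≠ j) (z1 : a.repr (f w) i1 = 0)
    (hZ : ∀ l, l ≠ j → a.repr (f l) i1 = 0 → l = w ∨ l = w') {o1 o2 : ι}
    (h1 : A1 a f j i1 y s0 fw o1) (h2 : A2 a f j i1 y s0 fw o2)
    (t1 : Tch a (span F (EK a f j i1)) o1) (t2 : Tch a (span F (EK a f j i1)) o2) : False := by
  have := Module.Finite.of_basis a
  have hK : ∀ o, o ≠ i1 → o ≠ i2 → Tch a (span F (EK a f j i1)) o := fun o p1 p2 =>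
    allK hQE h hc hc' e1 e2 hZ h1 h2 t1 t2 p1 p2
  have key : ∀ e ∈ EZ a f j i1, e ≠ 0 → ∀ u ∈ span F (EK a f j i1), ∀ (d d' : F) o, d ≠ 0 →
      u + d' • e ≠ d • a o := by
    intro e he hne u hu d d' o hd h0
    obtain ⟨q, hq, h3⟩ := other hQE h n1 n2 R hK he hne
    refine nojZ hQE hRING h n1 n2 R hq o ?_
    have h4 : a o = d • (u + d' • e) := by rw [h0, smul_smul, F_sq hd, one_smul]
    rw [h4]
    exact smul_mem _ _ (add_mem (span_mono Set.subset_union_left hu)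
      (smul_mem _ _ (subset_span (Or.inr ⟨he, h3⟩))))
  refine h.tc.nsep (deg3 (by have := h.tc.finrank; omega) (φ := f.coord w)
    (fun h0 => by simpa using congrArg (fun g : V →ₗ[F] F => g (f w)) h0)
    (a i1 - a i2) (f w) fun e he h0 => ?_)
  have h0' : f.repr e w ≠ 0 := h0
  have m1 : a i1 - a i2 ∈ span F ({a i1 - a i2, f w} : Set V) := subset_span (by simp)
  have m2 : f w ∈ span F ({a i1 - a i2, f w} : Set V) := subset_span (by simp)
  rcases (hQE a f j i1 i2 y s0 fw h).1 e he with h3 | h3 | h3 | h3 | h3 | h3 |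
    ⟨l, hl, hl1, h3⟩
  · exact absurd z1 (h3.2.2 w h0').2
  · have h4 : e = f.repr e w • f w + f.repr e w' • f w' :=
      eq_two_of_supp f hww fun k k1 k2 => by_contra fun hk =>
        (hZ k (h3.2 k hk).1 (h3.2 k hk).2).elim k1 k2
    by_cases h5 : f.repr e w' = 0
    · rw [h4, h5, zero_smul, add_zero]; exact smul_mem _ _ m2
    exfalso
    have hne : e ≠ 0 := by rintro rfl; simp at h0'
    obtain ⟨l, hl, hl1, d, hd, k1⟩ := h1
    obtain ⟨m, hm, hm1, d', hd', k2⟩ := h2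
    have u1 := dK hQE h h.yj h.hy hl hl1
    have u2 := dK hQE h hm hm1 h.yj h.hy
    generalize f.repr e w = p at h4 h0'
    generalize f.repr e w' = p' at h4 h5
    have fin : ∀ c c' p p' : F, c ≠ 0 → c' ≠ 0 → p ≠ 0 → p' ≠ 0 →
        (p * c * p = c ∧ p * c * p' = c') ∨ (p * c * p = c ∧ p * c * p' = -c') := by
      intro c c'
      rcases F_cases c with rfl | rfl | rfl <;> rcases F_cases c' with rfl | rfl | rfl <;> decide
    have h6 : (p * c) • e = (p * c * p) • f w + (p * c * p') • f w' := by rw [h4]; module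
    rcases fin c c' p p' hc hc' h0' h5 with ⟨k3, k4⟩ | ⟨k3, k4⟩ <;> rw [k3, k4] at h6
    · refine key e h3 hne _ u1 d (-(p * c)) o1 hd ?_
      rw [← k1, neg_smul, h6, e1, e2]; abel
    · refine key e h3 hne _ u2 d' (p * c) o2 hd' ?_
      rw [← k2, h6, e1, e2]; module
  · rw [h3]; exact m1
  · rw [h3]; exact neg_mem m1
  · exfalso
    have h4 : e = -(f j + s0) := by rw [h3, ← h.hn, neg_neg]
    simp [h4, e2, single_ne hw.symm, single_ne hww.symm] at h0'
  · exfalso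
    simp [h3, h.hn, e2, single_ne hw.symm, single_ne hww.symm] at h0'
  · exfalso
    have hlw : l ≠ w := by rintro rfl; rw [hl1] at z1; exact one_ne_zero z1
    rcases h3 with h3 | h3 | h3 | h3 <;> simp [h3, single_ne hw.symm, single_ne hlw] at h0'

end rings

end R2b

open R2b in
theorem s_r2b (hQE : S_QE) (hRB : S_RB) (hRING : S_RING) (hSC0 : S_SC0) : S_R2b := by
  intro V _ _ ι κ _ _ _ _ a f j i1 i2 y s0 fw h n1 n2 hK
  obtain ⟨r, r', χ, ψ, R, y1, y2⟩ := hRB a f j i1 i2 y s0 fw h n1 n2 hK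
  obtain ⟨o1, h1⟩ := exA1 hQE h n1 n2
  obtain ⟨o2, h2⟩ := exA2 hQE h n1 n2
  by_cases t1 : Tch a (span F (EZ a f j i1)) o1
  · exact caseA hQE hRING hSC0 h n1 n2 R y1 y2 (Or.inl h1) t1
  by_cases t2 : Tch a (span F (EZ a f j i1)) o2
  · exact caseA hQE hRING hSC0 h n1 n2 R y1 y2 (Or.inr h2) t2
  have k1 := tchK hQE h n1 n2 (Or.inl h1) t1
  have k2 := tchK hQE h n1 n2 (Or.inr h2) t2
  obtain ⟨w, w', c, c', hc, hc', e1, e2, hww, hw, hw', z1, z2⟩ := ww h n1 n2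
  by_cases hZ : ∀ l, l ≠ j → a.repr (f l) i1 = 0 → l = w ∨ l = w'
  · exact (caseZ hQE hRING h n1 n2 R hc hc' e1 e2 hww hw z1 hZ h1 h2 k1 k2).elim
  push Not at hZ
  obtain ⟨l, hl, hl1, hlw, hlw'⟩ := hZ
  have hly : l ≠ y := by rintro rfl; rw [h.hy] at hl1; exact one_ne_zero hl1
  obtain ⟨q, hq⟩ := R.z1 o1 (by have := h1.ne h; simp; tauto)
  have b1 : f.repr (a i1) l = 0 := by
    simp [a1_eq h, e1, e2, single_ne hl.symm, single_ne hly.symm, single_ne hlw.symm,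
      single_ne hlw'.symm]
  have b2 : f.repr (a i2) l = 0 := by
    simp [a2_eq h, e1, e2, single_ne hl.symm, single_ne hly.symm, single_ne hlw.symm,
      single_ne hlw'.symm]
  have b3 : f.repr (a o1) l = 0 := by
    obtain ⟨m, -, hm1, d, hd, h0⟩ := h1
    have hlm : l ≠ m := by rintro rfl; rw [hm1] at hl1; exact one_ne_zero hl1
    have := congrArg (fun v => f.repr v l) h0
    simpa [e1, e2, single_ne hly.symm, single_ne hlm.symm, single_ne hlw.symm,
      single_ne hlw'.symm, hd] using this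
  refine sc hQE hSC0 h n1 n2 _ (nojK hQE hRING h n1 n2 R ⟨o1, hq, k1⟩)
    {m | χ q (a m) ≠ 0} (fun e he h3 => subset_span ?_) l b1 b2
    (van_class R.c1 (fun x hx => repr_span_zero f (fun e he => ?_) hx) b1 b2 hq b3)
  · exact he.elim (fun he => Or.inr ⟨he, h3⟩) Or.inl
  · exact by_contra fun h3 => (he.2.2 l h3).2 hl1

end Pool.Agent.P.MP_053557_co
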