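import Pool.Agent.P.MP_053557_co.Stmts2

/-! Pairs of frames in rank at most three. -/

namespace Pool.Agent.P.MP_053557_co

open Module Submodule

namespace R3

/-- The points of the plane with at least two nonzero coordinates. -/
def pt : Fin 10 → Fin 3 → F :=
  ![![0, 1, 1], ![0, 1, -1], ![1, 0, 1], ![1, 0, -1], ![1, 1, 0], ![1, -1, 0], ![1, 1, 1],
    ![1, 1, -1], ![1, -1, 1], ![1, -1, -1]]

def pf : Fin 6 → Fin 3 → Fin 3 :=
  ![![0, 1, 2], ![0, 2, 1], ![1, 0, 2], ![1, 2, 0], ![2, 0, 1], ![2, 1, 0]]

theorem pf_bij : ∀ s, Function.Bijective (pf s) := by decide +kernel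

def sg (n : ℕ) (i : Fin 3) : F := if n / 2 ^ (i : ℕ) % 2 = 1 then -1 else 1

theorem sg_ne (n : ℕ) (i : Fin 3) : sg n i ≠ 0 := by
  unfold sg; split_ifs <;> decide

/-- Representatives of the classes. -/
def rep : Fin 8 → Fin 3 → Fin 3 → F :=
  ![![![0, 1, 1], ![0, 1, -1], ![1, 0, 1]], ![![0, 1, 1], ![0, 1, -1], ![1, 1, 1]],
    ![![0, 1, 1], ![1, 0, 1], ![1, 1, 1]], ![![0, 1, 1], ![1, 0, 1], ![1, -1, 1]],
    ![![0, 1, 1], ![1, 1, 1], ![1, 1, -1]], ![![0, 1, 1], ![1, 0, 1], ![1, 1, 0]],
    ![![0, 1, 1], ![1, 1, -1], ![1, -1, 1]], ![![1, -1, -1], ![-1, 1, -1], ![-1, -1, 1]]]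

def tab : List ℕ :=
  [0, 239575745632345898503941616150226705317888,
   546014959196623830771186383177823633293312, 424672396148536507346118842002734091091968,
   547344189142055524578194757293916928753664, 425389553959572577674519453619145031172096,
   42579430388423434803492028551929020416, 773950975913900452161764127542607116042240,
   773206612414437440689233946690439196246016, 47190476487835337084223998314705600512,
   239745876430578865260529771299610157907968, 0,
   26919103824029247318211953064933328065, 691494738732389709895355830222436731717569,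
   36067319246257077986404916803592520841, 686721097307676225214643334259090045011849,
   1214180039635633708258938768582235947796484, 784691138119880938398160639529062917738433,
   789455091256772991617306295694224204500161, 48192630921997510701283019038717381380,
   545844828397757388094120927192877646266368, 24676030947355077279219587318173140163,
   0, 300993130181813813730598946271875429564432,
   32121503163814587549990928983978420248, 568295603477155428988047803041220399595520,
   720718055739766705798477877452686834602001, 1068533284919179495854534618818097390567424,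
   741815562734789103932886762472289304074244, 45286163749343320648248179779337984273,
   464145150711999156270152695510312272576512, 691664869536327064458346330992650840180675,
   300822999382313276163034235587461475730640, 0,
   569802825039449243281182562027956034994176, 481199270728404623389981755755102231080728,
   851544414167727872934616534009077506776145, 49306051165797793677137145617001503620,
   823568401550382277718863524351703824744448, 50261433784206684177010824353651168593,
   547174047959229344871730733467124103299072, 36056779999205463752203153665213596811,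
   32111119204232300657486681169666779176, 569632683698800138304415473365348250157056,
   0, 302361995709758449395515373720715297030176,
   722121884055596012348509146134409902231585, 743223420027056420713941010066367354263564,
   1069847764452120391732930974762916546887680, 67959550314532711219447472988180453665,
   465542883640836994747226544649642625384448, 686891030798628527753155621527005595436939,
   568468486193357165923140982672472547131392, 482560410580048269013376252429886071779112,
   302191844142338127079868776228763221886176, 0,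
   852885694706219714112034103797225938230369, 824978922328362136184812056077624822743040,
   3014670578779288482934298810801036, 3072978947312137187497093615523169,
   42589815615965805753599530597009637376, 1214350191204321719860439971762881454671877,
   720888196923861000331504415201852650508307, 851714565736415884536117737189722745216083,
   722292035623650198652257273744951850782755, 853055846274907725713535234920277407177827,
   0, 1291789292362636895246240155742401928978436,
   1293072999027902912070094349825068868263948, 78304610598877500915487224632165072896,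
   774121127481954677148777443699433418080256, 784861279303341446316699290245614241058755,
   1068703436487233720841547934970525646110720, 49316435759553550139357610649274604421,
   743393571595110607017689137681307080906765, 825149073896416361171825300176857086869504,
   1339431897571308532144605781024964011433989, 0,
   1239308380326369082347324985461278293110788, 76264456566572814043922245939148039053,
   773376753598531773909067159604472382046208, 789625232440233499537025465969501123120323,
   741985703918883398467093819784578493372421, 823738542734476610938696737265736742125568,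
   1070017905636214724951583596056232321400832, 3015304442765028969422767412272013,
   1340031965853140010061093934060235175174157, 1237947250858685637977300788817894349747076,
   0, 4650050648707834031508776815764357,
   47200861715377709214851067880937668608, 48203016149578568458065699144233650949,
   45296548976924378405030855486807742739, 50271818377962441819750852509297628499,
   67969935542113767795638532376285419811, 3073612811297877673989959995053411,
   80880157170590004364999780855115218944, 76472148442616373522561300684368733068,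
   4665264003335658784535830519178116, 0]

def cert (k0 k1 k2 : Fin 10) : ℕ :=
  tab.getD (10 * (k0 : ℕ) + k1) 0 / 2 ^ (14 * (k2 : ℕ)) % 2 ^ 14

def Good (k : Fin 3 → Fin 10) (c : ℕ) : Prop :=
  ∀ l i, sg (c / 64 % 8) l * (sg (c / 512 % 4) i *
    pt (k (pf (Fin.ofNat 6 (c % 8)) l)) (pf (Fin.ofNat 6 (c / 8 % 8)) i)) =
      rep (Fin.ofNat 8 (c / 2048)) l i

instance (k : Fin 3 → Fin 10) (c : ℕ) : Decidable (Good k c) := by unfold Good; infer_instance

theorem classify : ∀ k0 k1 k2 : Fin 10, Good ![k0, k1, k2] (cert k0 k1 k2) ∨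
    ∃ x0 x1 x2 : F, ¬ (x0 = 0 ∧ x1 = 0 ∧ x2 = 0) ∧
      ∀ l, pt (![k0, k1, k2] l) 0 * x0 + pt (![k0, k1, k2] l) 1 * x1 +
        pt (![k0, k1, k2] l) 2 * x2 = 0 := by
  decide +kernel

theorem row : ∀ r0 r1 r2 : F, (∃ i : Fin 3, ∀ j, j ≠ i → ![r0, r1, r2] j = 0) ∨
    ∃ k : Fin 10, ∃ c : F, c ≠ 0 ∧ ∀ j, c * ![r0, r1, r2] j = pt k j := by
  decide +kernel

variable {V : Type} [AddCommGroup V] [Module F V]

def Concl (A B : Set V) : Prop := Share A B ∨ Succ A B ∨ CoreL A B ∨ CoreL B A

/-- Signed permutation of a basis. -/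
theorem sp {ι : Type} (b : Basis ι F V) (σ : ι → ι) (hσ : Function.Bijective σ) (δ : ι → F)
    (hδ : ∀ i, δ i ≠ 0) : ∃ b' : Basis ι F V, (∀ i, b' i = δ i • b (σ i)) ∧
      (∀ x i, b'.repr x i = δ i * b.repr x (σ i)) ∧ Tset b' = Tset b := by
  obtain ⟨b', h1, h2, h3⟩ := resign (b.reindex (Equiv.ofBijective σ hσ).symm) δ hδ
  refine ⟨b', fun i => by simpa using h1 i, fun x i => by simpa using h2 x i, ?_⟩
  rw [h3, Basis.coe_reindex, Tset_comp_equiv]

/-- A frame containing a star of each side. -/
theorem succ_of (hRC : S_RC) {ι : Type} [Fintype ι] [DecidableEq ι] (a b : Basis ι F V)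
    (φ : ι → V →ₗ[F] F) (m0 m1 m2 i l : ι) (h0 : φ m0 = a.coord i) (h1 : φ m1 = b.coord l)
    (hm : ∀ m, m = m0 ∨ m = m1 ∨ m = m2) (hker : ∀ w, (∀ m, φ m w = 0) → w = 0)
    (hD : ∀ x ∈ EE a b, ∀ p q r, φ p x ≠ 0 → φ q x ≠ 0 → φ r x ≠ 0 → p = q ∨ p = r ∨ q = r)
    (hT : ∀ x ∈ Tset a ∩ Tset b, ∀ p q, φ p x ≠ 0 → φ q x ≠ 0 → p = q) :
    Succ (Tset a) (Tset b) := by
  have := Module.Finite.of_basis a
  obtain ⟨g, hg⟩ := exists_basis_of_coords φ hker (finrank_eq_card_basis a).symm
  have hc : ∀ m, g.coord m = φ m := fun m => coord_eq_of_repr (hg m)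
  have hA := isFrame_basis a
  refine ⟨Tset g, ⟨isFrame_basis g, ?_⟩, ⟨a.coord i, isStar_coord a i, ?_⟩,
    ⟨b.coord l, ?_, isStar_coord b l⟩⟩
  · refine hRC _ _ g {m | m ≠ m0} hA (isFrame_basis b) (fun x hx => ?_) (fun x hx => ?_)
      (fun m hm' => ?_) (Or.inl ⟨m1, m2, fun m hm' => (hm m).resolve_left hm'⟩)
    · rw [mem_Dset_iff]; simp only [hg]; exact hD x hx
    · rw [mem_Tset_iff]; simp only [hg]; exact hT x hx
    · have : m = m0 := by simpa using hm'
      subst this
      exact ⟨Tset a, hA, rr_left _ _, by rw [hc, h0]; exact isStar_coord a i⟩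
  · rw [← h0, ← hc]; exact isStar_coord g m0
  · rw [← h1, ← hc]; exact isStar_coord g m1

theorem repr3 (a b : Basis (Fin 3) F V) (K : Fin 3 → Fin 3 → F)
    (hK : ∀ l i, b.repr (a i) l = K l i) (x : V) (l : Fin 3) :
    b.repr x l = K l 0 * a.repr x 0 + K l 1 * a.repr x 1 + K l 2 * a.repr x 2 := by
  have := map_eq_sum a (b.coord l) x
  simp only [Basis.coord_apply, hK, Fin.sum_univ_three] at this
  rw [this]; ring

def ap (K : Fin 3 → Fin 3 → F) (x : Fin 3 → F) (l : Fin 3) : F :=
  K l 0 * x 0 + K l 1 * x 1 + K l 2 * x 2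

def W2 (x : Fin 3 → F) : Prop := x 0 = 0 ∨ x 1 = 0 ∨ x 2 = 0

def W1 (x : Fin 3 → F) : Prop := ∀ p q, x p ≠ 0 → x q ≠ 0 → p = q

instance (x : Fin 3 → F) : Decidable (W2 x) := by unfold W2; infer_instance

instance (x : Fin 3 → F) : Decidable (W1 x) := by unfold W1; infer_instance

theorem w2_iff {x : Fin 3 → F} :
    W2 x ↔ ∀ p q r, x p ≠ 0 → x q ≠ 0 → x r ≠ 0 → p = q ∨ p = r ∨ q = r := by
  constructor
  · intro h p q r hp hq hr
    have key : ∀ z p q r : Fin 3, p ≠ z → q ≠ z → r ≠ z → p = q ∨ p = r ∨ q = r := by decide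
    rcases h with h | h | h
    all_goals exact key _ p q r (fun e => hp (e ▸ h)) (fun e => hq (e ▸ h)) (fun e => hr (e ▸ h))
  · intro h
    by_contra hc
    unfold W2 at hc
    push Not at hc
    exact absurd (h 0 1 2 hc.1 hc.2.1 hc.2.2) (by decide)

/-- The finite conditions on a third star `ψ`. -/
def Sc (K : Fin 3 → Fin 3 → F) (i l : Fin 3) (ψ : Fin 3 → F) : Prop :=
  ∀ x0 x1 x2 : F,
    ((∀ m, ![![x0, x1, x2] i, ap K ![x0, x1, x2] l, ψ 0 * x0 + ψ 1 * x1 + ψ 2 * x2] m = 0) →
      x0 = 0 ∧ x1 = 0 ∧ x2 = 0) ∧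
    (W2 ![x0, x1, x2] → W2 (ap K ![x0, x1, x2]) →
      W2 ![![x0, x1, x2] i, ap K ![x0, x1, x2] l, ψ 0 * x0 + ψ 1 * x1 + ψ 2 * x2]) ∧
    (W1 ![x0, x1, x2] → W1 (ap K ![x0, x1, x2]) →
      W1 ![![x0, x1, x2] i, ap K ![x0, x1, x2] l, ψ 0 * x0 + ψ 1 * x1 + ψ 2 * x2])

instance (K : Fin 3 → Fin 3 → F) (i l : Fin 3) (ψ : Fin 3 → F) : Decidable (Sc K i l ψ) := by
  unfold Sc; infer_instance

theorem succ3 (hRC : S_RC) (a b : Basis (Fin 3) F V) (K : Fin 3 → Fin 3 → F)
    (hK : ∀ l i, b.repr (a i) l = K l i) (i l : Fin 3) (ψ : Fin 3 → F) (h : Sc K i l ψ) :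
    Succ (Tset a) (Tset b) := by
  have ha : ∀ x, (![a.repr x 0, a.repr x 1, a.repr x 2] : Fin 3 → F) = fun m => a.repr x m := by
    intro x; funext m; fin_cases m <;> rfl
  have hb : ∀ x, ap K (fun m => a.repr x m) = fun m => b.repr x m := by
    intro x; funext m; rw [repr3 a b K hK]; rfl
  let φ : Fin 3 → V →ₗ[F] F :=
    ![a.coord i, b.coord l, ψ 0 • a.coord 0 + ψ 1 • a.coord 1 + ψ 2 • a.coord 2]
  have hφ : ∀ x, (![a.repr x i, b.repr x l,
      ψ 0 * a.repr x 0 + ψ 1 * a.repr x 1 + ψ 2 * a.repr x 2] : Fin 3 → F) = fun m => φ m x := by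
    intro x; funext m; fin_cases m <;> simp [φ]
  have key := fun x => h (a.repr x 0) (a.repr x 1) (a.repr x 2)
  simp only [ha, hb, hφ] at key
  refine succ_of hRC a b φ 0 1 2 i l rfl rfl (by decide) (fun w hw => ?_) (fun x hx => ?_)
    (fun x hx => ?_)
  · obtain ⟨e0, e1, e2⟩ := (key w).1 hw
    refine eq_of_repr a fun m => ?_
    fin_cases m <;> simpa
  · exact w2_iff.1 ((key x).2.1 (w2_iff.2 ((mem_Dset_iff a).1 hx.1))
      (w2_iff.2 ((mem_Dset_iff b).1 hx.2)))
  · exact (key x).2.2 ((mem_Tset_iff a).1 hx.1) ((mem_Tset_iff b).1 hx.2)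

theorem rep_concl (hRC : S_RC) (a b : Basis (Fin 3) F V) (t : Fin 8)
    (hK : ∀ l i, b.repr (a i) l = rep t l i) : Concl (Tset a) (Tset b) := by
  fin_cases t
  · exact Or.inr (Or.inl (succ3 hRC a b _ hK 0 0 ![0, 1, 0] (by decide +kernel)))
  · exact Or.inr (Or.inl (succ3 hRC a b _ hK 1 1 ![1, 1, 1] (by decide +kernel)))
  · exact Or.inr (Or.inl (succ3 hRC a b _ hK 0 2 ![0, 1, 0] (by decide +kernel)))
  · exact Or.inr (Or.inl (succ3 hRC a b _ hK 0 2 ![0, 0, 1] (by decide +kernel)))
  · exact Or.inr (Or.inl (succ3 hRC a b _ hK 0 1 ![0, 1, 0] (by decide +kernel)))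
  · refine Or.inr (Or.inr (Or.inl ⟨3, _, a, b, Core.k4, rfl, rfl, fun l i => ?_⟩))
    rw [hK]; revert l i; decide +kernel
  · refine Or.inr (Or.inr (Or.inl ⟨3, _, a, b, Core.pinch, rfl, rfl, fun l i => ?_⟩))
    rw [hK]; revert l i; decide +kernel
  · refine Or.inr (Or.inr (Or.inr ⟨3, _, b, a, Core.k4, rfl, rfl, fun i l => ?_⟩))
    have h := fun m => repr3 a b _ hK (b l) m
    simp only [repr_basis] at h
    have ha : a.repr (b l) i = ![a.repr (b l) 0, a.repr (b l) 1, a.repr (b l) 2] i := by
      fin_cases i <;> rfl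
    rw [ha]
    revert h
    generalize a.repr (b l) 0 = x0
    generalize a.repr (b l) 1 = x1
    generalize a.repr (b l) 2 = x2
    clear hK ha
    revert x0 x1 x2 l i
    decide +kernel

theorem three_case (hRC : S_RC) (a b : Basis (Fin 3) F V) : Concl (Tset a) (Tset b) := by
  by_cases hS : Share (Tset a) (Tset b)
  · exact Or.inl hS
  have hr : ∀ l, ∃ k : Fin 10, ∃ c : F, c ≠ 0 ∧ ∀ j, c * b.repr (a j) l = pt k j := by
    intro l
    have e : ∀ j, ![b.repr (a 0) l, b.repr (a 1) l, b.repr (a 2) l] j = b.repr (a j) l := by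
      intro j; fin_cases j <;> rfl
    rcases row (b.repr (a 0) l) (b.repr (a 1) l) (b.repr (a 2) l) with ⟨i, hi⟩ | h
    · exact absurd (share_of_supp (i := i) (l := l) fun j hj => e j ▸ hi j hj) hS
    · simpa only [e] using h
  choose k c hc hk using hr
  obtain ⟨b1, -, hb1, hT1⟩ := resign b c hc
  have hk1 : ∀ l j, b1.repr (a j) l = pt (k l) j := fun l j => by rw [hb1, hk]
  have ek : (![k 0, k 1, k 2] : Fin 3 → Fin 10) = k := by
    funext m; fin_cases m <;> rfl
  rw [← hT1]
  rcases classify (k 0) (k 1) (k 2) with h | ⟨x0, x1, x2, hx, h⟩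
  · rw [ek] at h
    obtain ⟨a', ha1, -, haT⟩ := sp a _ (pf_bij (Fin.ofNat 6 (cert (k 0) (k 1) (k 2) / 8 % 8))) _
      (sg_ne (cert (k 0) (k 1) (k 2) / 512 % 4))
    obtain ⟨b', -, hb2, hbT⟩ := sp b1 _ (pf_bij (Fin.ofNat 6 (cert (k 0) (k 1) (k 2) % 8))) _
      (sg_ne (cert (k 0) (k 1) (k 2) / 64 % 8))
    rw [← haT, ← hbT]
    refine rep_concl hRC a' b' (Fin.ofNat 8 (cert (k 0) (k 1) (k 2) / 2048)) fun l i => ?_
    rw [hb2, ha1, map_smul, Finsupp.smul_apply, smul_eq_mul, hk1]
    exact h l i
  · exfalso
    rw [ek] at h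
    have hv : x0 • a 0 + x1 • a 1 + x2 • a 2 = 0 := by
      refine eq_of_repr b1 fun l => ?_
      simp only [map_add, map_smul, Finsupp.add_apply, Finsupp.smul_apply, smul_eq_mul, hk1,
        map_zero, Finsupp.zero_apply]
      linear_combination h l
    apply hx
    have e := fun m => congrArg (fun z => a.repr z m) hv
    exact ⟨by simpa using e 0, by simpa using e 1, by simpa using e 2⟩

theorem two_case (hRC : S_RC) (a b : Basis (Fin 2) F V) : Concl (Tset a) (Tset b) := by
  by_cases hS : Share (Tset a) (Tset b)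
  · exact Or.inl hS
  have hz : ∀ l j, b.repr (a j) l ≠ 0 := by
    intro l j h0
    refine hS (share_of_supp (i := j + 1) (l := l) fun m hm => ?_)
    have : m = j := by clear h0; revert m j; decide
    rw [this, h0]
  refine Or.inr (Or.inl (succ_of hRC a b ![a.coord 0, b.coord 0] 0 1 1 0 0 rfl rfl (by decide)
    (fun w hw => ?_) (fun x _ p q r _ _ _ => ?_) (fun x hx p q hp _ => ?_)))
  · have h0 : a.repr w 0 = 0 := hw 0
    have h1 : b.repr w 0 = 0 := hw 1
    have := map_eq_sum a (b.coord 0) w
    simp only [Basis.coord_apply, Fin.sum_univ_two, h0, h1, zero_mul, zero_add] at this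
    refine eq_of_repr a fun m => ?_
    fin_cases m
    · simpa using h0
    · simpa [hz 0 1] using this.symm
  · exact (by decide : ∀ p q r : Fin 2, p = q ∨ p = r ∨ q = r) p q r
  · exfalso
    rcases mem_Tset_iff_smul.1 hx.1 with rfl | ⟨j, c, hc, rfl⟩
    · simp at hp
    · exact absurd ((mem_Tset_iff b).1 hx.2 0 1 (by simp [hc, hz]) (by simp [hc, hz])) (by decide)

end R3

theorem s_r3 (hRC : S_RC) : S_R3 := by
  intro V _ _ A B hA hB h1 h3
  obtain ⟨a, rfl⟩ := hA.exists_basis
  obtain ⟨b, rfl⟩ := hB.exists_basis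
  generalize finrank F V = n at a b h1 h3
  interval_cases n
  · exact Or.inl (share_of_supp (i := 0) (l := 0) fun j hj => absurd (Subsingleton.elim _ _) hj)
  · exact R3.two_case hRC a b
  · exact R3.three_case hRC a b

end Pool.Agent.P.MP_053557_co
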