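import Pool.Agent.P.MP_053557_co.Basic2

/-! The ring structure in the configuration `Q2`. -/

namespace Pool.Agent.P.MP_053557_co

open Module Submodule

namespace Rb

variable {V : Type} [AddCommGroup V] [Module F V] {ι κ ρ ρ' : Type}

/-! ### Counting -/

theorem count [Fintype ι] [Fintype ρ] (Sh : Set ι) (B : Set ρ) (P : ρ → ι → Prop)
    (hd : ∀ l q q', P q l → P q' l → q = q')
    (h2 : ∀ q ∈ B, 2 ≤ {l | P q l ∧ l ∈ Sh}.ncard) :
    2 * B.ncard ≤ Sh.ncard ∧ (Sh.ncard ≤ 2 * B.ncard →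
      (∀ q ∈ B, {l | P q l ∧ l ∈ Sh}.ncard = 2) ∧ ∀ l ∈ Sh, ∃ q, P q l) := by
  classical
  let T : ρ → Finset ι := fun q => Finset.univ.filter fun l => P q l ∧ l ∈ Sh
  have hT : ∀ q, {l | P q l ∧ l ∈ Sh}.ncard = (T q).card := fun q => by
    rw [← Set.ncard_coe_finset]; congr 1; ext l; simp [T]
  let B' : Finset ρ := Finset.univ.filter fun q => q ∈ B
  have hB : B.ncard = B'.card := by
    rw [← Set.ncard_coe_finset]; congr 1; ext l; simp [B']
  let S' : Finset ι := Finset.univ.filter fun l => l ∈ Sh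
  have hS : Sh.ncard = S'.card := by
    rw [← Set.ncard_coe_finset]; congr 1; ext l; simp [S']
  have hU : (B'.biUnion T).card = ∑ q ∈ B', (T q).card := by
    refine Finset.card_biUnion fun q _ q' _ hq => ?_
    refine Finset.disjoint_left.2 fun l h1 h2 => hq ?_
    simp only [T, Finset.mem_filter] at h1 h2
    exact hd l q q' h1.2.1 h2.2.1
  have hsub : B'.biUnion T ⊆ S' := by
    intro l hl
    obtain ⟨q, -, h1⟩ := Finset.mem_biUnion.1 hl
    simp only [T, Finset.mem_filter] at h1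
    simpa [S'] using h1.2.2
  have hle : ∀ q ∈ B', 2 ≤ (T q).card := fun q hq => by
    rw [← hT]; exact h2 q (by simpa [B'] using hq)
  have h3 : ∑ _q ∈ B', 2 ≤ ∑ q ∈ B', (T q).card := Finset.sum_le_sum hle
  have h4 : ∑ _q ∈ B', 2 = 2 * B'.card := by simp [mul_comm]
  have h5 := Finset.card_le_card hsub
  refine ⟨by omega, fun h6 => ⟨fun q hq => ?_, fun l hl => ?_⟩⟩
  · have h7 : ∑ _q ∈ B', 2 = ∑ q ∈ B', (T q).card := by omega
    rw [hT]
    exact ((Finset.sum_eq_sum_iff_of_le hle).1 h7 q (by simpa [B'] using hq)).symm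
  · have h7 : B'.biUnion T = S' := Finset.eq_of_subset_of_card_le hsub (by omega)
    have h8 : l ∈ B'.biUnion T := by rw [h7]; simpa [S'] using hl
    obtain ⟨q, -, h1⟩ := Finset.mem_biUnion.1 h8
    simp only [T, Finset.mem_filter] at h1
    exact ⟨q, h1.2.1⟩

/-- A set with at most one element is contained in a singleton chosen inside a given class. -/
theorem pick [Fintype ι] {Sh : Set ι} {P : ι → Prop} (hP : ∃ l, P l)
    (h : ¬ 2 ≤ {l | P l ∧ l ∈ Sh}.ncard) : ∃ o, P o ∧ ∀ l, P l → l ∈ Sh → l = o := by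
  have h1 : {l | P l ∧ l ∈ Sh}.ncard ≤ 1 := by omega
  rw [Set.ncard_le_one_iff_subsingleton] at h1
  by_cases h2 : ∃ o, P o ∧ o ∈ Sh
  · obtain ⟨o, ho⟩ := h2
    exact ⟨o, ho.1, fun l hl hl' => h1 ⟨hl, hl'⟩ ho⟩
  · obtain ⟨o, ho⟩ := hP
    exact ⟨o, ho, fun l hl hl' => absurd ⟨l, hl, hl'⟩ h2⟩

/-! ### Adding the joints of `M` to a span of edges avoiding `M` -/

section W

variable {a : Basis ι F V} {M : Set ι} {E : Set V}

theorem repr_spanM {v : V} (hv : v ∈ span F (a '' M)) {l : ι} (hl : l ∉ M) :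
    a.repr v l = 0 := by
  refine repr_span_zero a ?_ hv
  rintro _ ⟨m, hm, rfl⟩
  exact repr_basis_ne a fun hc => hl (hc ▸ hm)

theorem memW (hE : ∀ e ∈ E, ∀ m ∈ M, a.repr e m = 0) {x : V}
    (hx : x ∈ span F E ⊔ span F (a '' M)) (h0 : ∀ m ∈ M, a.repr x m = 0) : x ∈ span F E := by
  obtain ⟨u, hu, v, hv, rfl⟩ := mem_sup.1 hx
  have : v = 0 := eq_of_repr a fun l => by
    by_cases hl : l ∈ M
    · have h1 := h0 l hl
      have h2 := repr_span_zero a (fun e he => hE e he l hl) hu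
      simpa [h2] using h1
    · simpa using repr_spanM hv hl
  simpa [this] using hu

theorem tchW {l : ι} (hl : l ∉ M) :
    Tch a (span F E ⊔ span F (a '' M)) l ↔ Tch a (span F E) l := by
  constructor
  · rintro ⟨x, hx, h⟩
    obtain ⟨u, hu, v, hv, rfl⟩ := mem_sup.1 hx
    exact ⟨u, hu, by simpa [repr_spanM hv hl] using h⟩
  · rintro ⟨x, hx, h⟩
    exact ⟨x, mem_sup_left hx, h⟩

theorem joint_memW {m : ι} (hm : m ∈ M) : a m ∈ span F E ⊔ span F (a '' M) :=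
  mem_sup_right (subset_span ⟨m, hm, rfl⟩)

theorem tchM {m : ι} (hm : m ∈ M) : Tch a (span F E ⊔ span F (a '' M)) m :=
  ⟨_, joint_memW hm, by simp⟩

variable {χ : ρ → V →ₗ[F] F}

theorem notM (h : Cells a (span F E ⊔ span F (a '' M)) χ) {q : ρ} {l : ι}
    (hl : χ q (a l) ≠ 0) : l ∉ M := fun hm => hl (h.van q _ (joint_memW hm))

theorem bigW (h : Cells a (span F E ⊔ span F (a '' M)) χ) {q : ρ} :
    Big a (span F E ⊔ span F (a '' M)) χ q ↔ Big a (span F E) χ q :=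
  ⟨fun ⟨l, h1, h2⟩ => ⟨l, h1, (tchW (notM h h1)).1 h2⟩,
    fun ⟨l, h1, h2⟩ => ⟨l, h1, (tchW (notM h h1)).2 h2⟩⟩

theorem big_tch [Fintype ι] (h : Cells a (span F E ⊔ span F (a '' M)) χ) {q : ρ}
    (hq : Big a (span F E) χ q) {l : ι} (hl : χ q (a l) ≠ 0) : Tch a (span F E) l :=
  (tchW (notM h hl)).1 (h.big_tch ((bigW h).2 hq) hl)

theorem big_other [Fintype ι] (h : Cells a (span F E ⊔ span F (a '' M)) χ) {q : ρ}
    (hq : Big a (span F E) χ q) {l : ι} (hl : χ q (a l) ≠ 0) :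
    ∃ m, m ≠ l ∧ χ q (a m) ≠ 0 :=
  h.exists_other hl (h.big_tch ((bigW h).2 hq) hl)

theorem vanE (h : Cells a (span F E ⊔ span F (a '' M)) χ) (q : ρ) {x : V}
    (hx : x ∈ span F E) : χ q x = 0 := h.van q x (mem_sup_left hx)

theorem dSpW (hE : E ⊆ Dset (Tset a)) : DSp (Tset a) (span F E ⊔ span F (a '' M)) := by
  refine (dSp_span hE).sup (dSp_span ?_)
  rintro _ ⟨m, -, rfl⟩
  exact Tset_subset_Dset _ (self_mem_Tset a m)

/-- Vertices outside `M` lying in no class. -/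
theorem noclass (hE : ∀ e ∈ E, ∀ m ∈ M, a.repr e m = 0)
    (h : Cells a (span F E ⊔ span F (a '' M)) χ) {l : ι} (hl : l ∉ M)
    (h0 : ∀ q, χ q (a l) = 0) : a l ∈ span F E :=
  memW hE (h.ker _ h0) fun m hm => repr_basis_ne a fun hc => hl (hc ▸ hm)

end W

/-- If one end of an edge of a subspace is a joint of the subspace, so is the other end. -/
theorem end_mem {a : Basis ι F V} {U : Submodule F V} {e : V} (he : e ∈ Dset (Tset a))
    (hU : e ∈ U) {l m : ι} (hl : a.repr e l ≠ 0) (hm : a.repr e m ≠ 0) (h : a l ∈ U) :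
    a m ∈ U := by
  by_cases hlm : l = m
  · exact hlm ▸ h
  have h1 := Dset_eq_two a he hlm hl hm
  have h2 : a.repr e m • a m ∈ U := by
    have : a.repr e m • a m = e - a.repr e l • a l := by
      linear_combination (norm := module) -h1
    rw [this]; exact sub_mem hU (smul_mem _ _ h)
  exact (smul_mem_iff U hm).1 h2

/-- Two joints with the same nonzero coordinate are equal. -/
theorem joint_eq {a : Basis ι F V} {s t : V} (hs : s ∈ Tset a) (ht : t ∈ Tset a) {m : ι}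
    (hm : a.repr t m ≠ 0) (h : a.repr (s - t) m = 0) : s = t := by
  have h1 : a.repr s m = a.repr t m := by simpa [sub_eq_zero] using h
  rw [Tset_eq_smul a hs (h1 ▸ hm), Tset_eq_smul a ht hm, h1]

theorem map_joint {a : Basis ι F V} {t : V} (ht : t ∈ Tset a) {m : ι} (hm : a.repr t m ≠ 0)
    (φ : V →ₗ[F] F) : φ t ≠ 0 ↔ φ (a m) ≠ 0 := by
  rw [Tset_eq_smul a ht hm]; simp [hm]

/-! ### The abstract configuration -/

structure Cx (a : Basis ι F V) (M : Set ι) (E E1 E2 A1 A2 : Set V) (i1 i2 : ι) (θ θ' : V) :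
    Prop where
  nsep : ¬ Sep E 1
  ne : i1 ≠ i2
  hM : ∀ o, o ∈ M ↔ o = i1 ∨ o = i2
  d1 : E1 ⊆ Dset (Tset a)
  d2 : E2 ⊆ Dset (Tset a)
  o1 : ∀ e ∈ E1, ∀ m ∈ M, a.repr e m = 0
  o2 : ∀ e ∈ E2, ∀ m ∈ M, a.repr e m = 0
  dir : ∀ x ∈ span F E1, x ∈ span F E2 → x = 0
  cov : ∀ x, (∀ m ∈ M, a.repr x m = 0) → x ∈ span F E1 ⊔ span F E2
  cls : ∀ e ∈ E, e ∈ E1 ∨ e ∈ E2 ∨ (∀ o, o ∉ M → a.repr e o = 0) ∨
    (∃ t ∈ A1, ∃ c : F, e = c • (a i1 + t)) ∨ ∃ t ∈ A2, ∃ c : F, e = c • (a i2 + t)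
  t1 : ∀ t ∈ A1, t ∈ Tset a ∧ t - θ ∈ span F E1
  t2 : ∀ t ∈ A2, t ∈ Tset a ∧ t - θ' ∈ span F E1
  m1 : θ ∈ span F E2
  m2 : θ' ∈ span F E2
  ind : ∀ c c' : F, c • θ + c' • θ' = 0 → c = 0 ∧ c' = 0
  n1 : A1.Nonempty
  n2 : A2.Nonempty
  big : ∀ t ∈ A1, ∀ t' ∈ A2, (∀ s ∈ A1, s = t) → (∀ s ∈ A2, s = t') →
    ∀ c : F, c ≠ 0 → t - θ ≠ c • (t' - θ')

variable {a : Basis ι F V} {M : Set ι} {E E1 E2 A1 A2 : Set V} {i1 i2 : ι} {θ θ' : V}

theorem Cx.symm (h : Cx a M E E1 E2 A1 A2 i1 i2 θ θ') : Cx a M E E1 E2 A2 A1 i2 i1 θ' θ where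
  nsep := h.nsep
  ne := h.ne.symm
  hM := fun o => (h.hM o).trans or_comm
  d1 := h.d1
  d2 := h.d2
  o1 := h.o1
  o2 := h.o2
  dir := h.dir
  cov := h.cov
  cls := fun e he => by
    rcases h.cls e he with h1 | h1 | h1 | h1 | h1
    · exact Or.inl h1
    · exact Or.inr (Or.inl h1)
    · exact Or.inr (Or.inr (Or.inl h1))
    · exact Or.inr (Or.inr (Or.inr (Or.inr h1)))
    · exact Or.inr (Or.inr (Or.inr (Or.inl h1)))
  t1 := h.t2
  t2 := h.t1
  m1 := h.m2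
  m2 := h.m1
  ind := fun c c' hc => (h.ind c' c (by rw [add_comm]; exact hc)).symm
  n1 := h.n2
  n2 := h.n1
  big := fun t ht t' ht' h1 h2 c hc h3 =>
    h.big t' ht' t ht h2 h1 c hc (by rw [h3, smul_smul, F_sq hc, one_smul])

theorem Cx.i1M (h : Cx a M E E1 E2 A1 A2 i1 i2 θ θ') : i1 ∈ M := (h.hM _).2 (Or.inl rfl)

theorem Cx.i2M (h : Cx a M E E1 E2 A1 A2 i1 i2 θ θ') : i2 ∈ M := (h.hM _).2 (Or.inr rfl)

theorem Cx.u1 (h : Cx a M E E1 E2 A1 A2 i1 i2 θ θ') {x : V} (hx : x ∈ span F E1) {m : ι}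
    (hm : m ∈ M) : a.repr x m = 0 := repr_span_zero a (fun e he => h.o1 e he m hm) hx

theorem Cx.u2 (h : Cx a M E E1 E2 A1 A2 i1 i2 θ θ') {x : V} (hx : x ∈ span F E2) {m : ι}
    (hm : m ∈ M) : a.repr x m = 0 := repr_span_zero a (fun e he => h.o2 e he m hm) hx

/-- Attachments avoid `M`. -/
theorem Cx.tM (h : Cx a M E E1 E2 A1 A2 i1 i2 θ θ') {t : V} (ht : t ∈ A1) {m : ι}
    (hm : m ∈ M) : a.repr t m = 0 := by
  have h1 := h.u1 (h.t1 t ht).2 hm
  have h2 := h.u2 h.m1 hm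
  simpa [h2] using h1

/-- The ends of an attaching edge. -/
theorem Cx.att (h : Cx a M E E1 E2 A1 A2 i1 i2 θ θ') {t : V} (ht : t ∈ A1) {c : F} {l : ι}
    (hl : l ∉ M) (h1 : a.repr (c • (a i1 + t)) l ≠ 0) :
    a.repr t l ≠ 0 ∧ ∀ m, a.repr (c • (a i1 + t)) m ≠ 0 → m = l ∨ m = i1 := by
  have hi : i1 ≠ l := fun hc => hl (hc ▸ h.i1M)
  have h2 : a.repr t l ≠ 0 := fun hc => h1 (by simp [hc, single_ne hi])
  refine ⟨h2, fun m hm => ?_⟩
  by_cases h3 : m = i1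
  · exact Or.inr h3
  have h4 : a.repr t m ≠ 0 := fun hc => hm (by simp [hc, single_ne (Ne.symm h3)])
  exact Or.inl ((mem_Tset_iff a).1 (h.t1 t ht).1 m l h4 h2)

/-- An attachment at a vertex not touched by `E1` is the only one. -/
theorem Cx.uniq (h : Cx a M E E1 E2 A1 A2 i1 i2 θ θ') {t : V} (ht : t ∈ A1) {l : ι}
    (h1 : a.repr t l ≠ 0) (h2 : ¬ Tch a (span F E1) l) : ∀ s ∈ A1, s = t := by
  intro s hs
  refine joint_eq (h.t1 s hs).1 (h.t1 t ht).1 h1 (by_contra fun hc => h2 ⟨s - t, ?_, hc⟩)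
  have : s - t = (s - θ) - (t - θ) := by abel
  rw [this]; exact sub_mem (h.t1 s hs).2 (h.t1 t ht).2

theorem Cx.thne (h : Cx a M E E1 E2 A1 A2 i1 i2 θ θ') : θ ≠ 0 := fun hc =>
  one_ne_zero (h.ind 1 0 (by simp [hc])).1

variable {χ : ρ → V →ₗ[F] F} {ψ : ρ' → V →ₗ[F] F}

theorem Cx.chi_t (h : Cx a M E E1 E2 A1 A2 i1 i2 θ θ')
    (hχ : Cells a (span F E1 ⊔ span F (a '' M)) χ) {t : V} (ht : t ∈ A1) (q : ρ) :
    χ q t = χ q θ := by
  have := vanE hχ q (h.t1 t ht).2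
  rwa [map_sub, sub_eq_zero] at this

theorem Cx.chi_ex (h : Cx a M E E1 E2 A1 A2 i1 i2 θ θ')
    (hχ : Cells a (span F E1 ⊔ span F (a '' M)) χ) : ∃ q, χ q θ ≠ 0 := by
  by_contra hc
  push Not at hc
  exact h.thne (h.dir θ (memW h.o1 (hχ.ker θ hc) fun m hm => h.u2 h.m1 hm) h.m1)

/-- The attachments of `i1` and of `i2` lie in different classes. -/
theorem Cx.chi_or (h : Cx a M E E1 E2 A1 A2 i1 i2 θ θ')
    (hχ : Cells a (span F E1 ⊔ span F (a '' M)) χ) (q : ρ) : χ q θ = 0 ∨ χ q θ' = 0 := by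
  by_contra hc
  push Not at hc
  obtain ⟨t, ht⟩ := h.n1
  obtain ⟨t', ht'⟩ := h.n2
  have h2 : χ q θ' • θ + (-χ q θ) • θ' ∈ span F E2 :=
    add_mem (smul_mem _ _ h.m1) (smul_mem _ _ h.m2)
  have h1 : χ q θ' • θ + (-χ q θ) • θ' ∈ span F E1 := by
    refine memW h.o1 (hχ.ker _ fun q' => ?_) fun m hm => h.u2 h2 hm
    by_cases hq : q' = q
    · subst hq; simp [mul_comm]
    · have h3 : χ q' θ = 0 := by_contra fun h4 => hq (hχ.T (h.t1 t ht).1
        (by rwa [h.chi_t hχ ht]) (by rw [h.chi_t hχ ht]; exact hc.1))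
      have h4 : χ q' θ' = 0 := by_contra fun h4 => hq (hχ.T (h.t2 t' ht').1
        (by rwa [h.symm.chi_t hχ ht']) (by rw [h.symm.chi_t hχ ht']; exact hc.2))
      simp [h3, h4]
  exact hc.2 (h.ind _ _ (h.dir _ h1 h2)).1

theorem Cx.big1_aux [Fintype ι] (h : Cx a M E E1 E2 A1 A2 i1 i2 θ θ')
    (hχ : Cells a (span F E1 ⊔ span F (a '' M)) χ) {q : ρ} (hq : Big a (span F E1) χ q)
    (h0 : χ q θ' = 0) :
    2 ≤ {l | χ q (a l) ≠ 0 ∧ l ∈ Shd a (span F E1) (span F E2)}.ncard := by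
  by_contra hc
  obtain ⟨o, ho, hsh⟩ := pick (P := fun l => χ q (a l) ≠ 0) (hχ.ne q) hc
  obtain ⟨o', ho1, ho2⟩ := big_other hχ hq ho
  have hoi : o ≠ i1 := fun h1 => notM hχ ho (h1 ▸ h.i1M)
  refine h.nsep (sepf a {l | χ q (a l) ≠ 0 ∧ l ≠ o} ⟨o', ho2, ho1⟩ (m1 := o) i1
    (χ q - χ q θ • a.coord i1) (by simpa [single_ne hoi] using ho) fun e he l hl h1 => ?_)
  have hlM := notM hχ hl.1
  rcases h.cls e he with h2 | h2 | h2 | ⟨t, ht, c, rfl⟩ | ⟨t, ht, c, rfl⟩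
  · have h3 : χ q e = 0 := vanE hχ q (subset_span h2)
    refine ⟨by simp [h3, h.o1 e h2 i1 h.i1M], fun m hm => ?_⟩
    by_cases h4 : m = o
    · exact Or.inr (Or.inl h4)
    · exact Or.inl ⟨ends_in_supp a (χ q) (h.d1 h2) h3 h1 hl.1 hm, h4⟩
  · exact absurd (hsh l hl.1 ⟨big_tch hχ hq hl.1, e, subset_span h2, h1⟩) hl.2
  · exact absurd (h2 l hlM) h1
  · refine ⟨?_, fun m hm => ?_⟩
    · simp [h.chi_t hχ ht, h.tM ht h.i1M, hχ.van q _ (joint_memW h.i1M), mul_comm]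
    · rcases (h.att ht hlM h1).2 m hm with rfl | rfl
      · exact Or.inl hl
      · exact Or.inr (Or.inr rfl)
  · have h3 := (map_joint (h.t2 t ht).1 (h.symm.att ht hlM h1).1 (χ q)).2 hl.1
    rw [h.symm.chi_t hχ ht] at h3
    exact absurd h0 h3

/-- Every big class on the first side has two shared vertices. -/
theorem Cx.big1 [Fintype ι] (h : Cx a M E E1 E2 A1 A2 i1 i2 θ θ')
    (hχ : Cells a (span F E1 ⊔ span F (a '' M)) χ) {q : ρ} (hq : Big a (span F E1) χ q) :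
    2 ≤ {l | χ q (a l) ≠ 0 ∧ l ∈ Shd a (span F E1) (span F E2)}.ncard := by
  rcases h.chi_or hχ q with h0 | h0
  · exact h.symm.big1_aux hχ hq h0
  · exact h.big1_aux hχ hq h0

theorem Cx.big2_aux [Fintype ι] (h : Cx a M E E1 E2 A1 A2 i1 i2 θ θ')
    (hψ : Cells a (span F E2 ⊔ span F (a '' M)) ψ) {q : ρ'} (hq : Big a (span F E2) ψ q)
    {o : ι} (ho : ψ q (a o) ≠ 0)
    (hun : ∀ l, ψ q (a l) ≠ 0 → l ≠ o → ¬ Tch a (span F E1) l)
    (hno : ∀ t ∈ A2, ∀ l, ψ q (a l) ≠ 0 → l ≠ o → a.repr t l = 0) : False := by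
  obtain ⟨o', ho1, ho2⟩ := big_other hψ hq ho
  have hoi : o ≠ i1 := fun h1 => notM hψ ho (h1 ▸ h.i1M)
  have hc : ∃ c : F, ∀ t ∈ A1, ∀ l, ψ q (a l) ≠ 0 → l ≠ o → a.repr t l ≠ 0 → ψ q t = c := by
    by_cases h1 : ∃ t ∈ A1, ∃ l, ψ q (a l) ≠ 0 ∧ l ≠ o ∧ a.repr t l ≠ 0
    · obtain ⟨t, ht, l, h2, h3, h4⟩ := h1
      exact ⟨ψ q t, fun s hs _ _ _ _ => by rw [h.uniq ht h4 (hun l h2 h3) s hs]⟩
    · exact ⟨0, fun t ht l h2 h3 h4 => absurd ⟨t, ht, l, h2, h3, h4⟩ h1⟩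
  obtain ⟨c0, hc⟩ := hc
  refine h.nsep (sepf a {l | ψ q (a l) ≠ 0 ∧ l ≠ o} ⟨o', ho2, ho1⟩ (m1 := o) i1
    (ψ q - c0 • a.coord i1) (by simpa [single_ne hoi] using ho) fun e he l hl h1 => ?_)
  have hlM := notM hψ hl.1
  rcases h.cls e he with h2 | h2 | h2 | ⟨t, ht, c, rfl⟩ | ⟨t, ht, c, rfl⟩
  · exact absurd ⟨e, subset_span h2, h1⟩ (hun l hl.1 hl.2)
  · have h3 : ψ q e = 0 := vanE hψ q (subset_span h2)
    refine ⟨by simp [h3, h.o2 e h2 i1 h.i1M], fun m hm => ?_⟩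
    by_cases h4 : m = o
    · exact Or.inr (Or.inl h4)
    · exact Or.inl ⟨ends_in_supp a (ψ q) (h.d2 h2) h3 h1 hl.1 hm, h4⟩
  · exact absurd (h2 l hlM) h1
  · obtain ⟨h3, h4⟩ := h.att ht hlM h1
    refine ⟨?_, fun m hm => ?_⟩
    · simp [hc t ht l hl.1 hl.2 h3, h.tM ht h.i1M, hψ.van q _ (joint_memW h.i1M), mul_comm]
    · rcases h4 m hm with rfl | rfl
      · exact Or.inl hl
      · exact Or.inr (Or.inr rfl)
  · exact absurd (hno t ht l hl.1 hl.2) (h.symm.att ht hlM h1).1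

/-- Every big class on the second side has two shared vertices. -/
theorem Cx.big2 [Fintype ι] (h : Cx a M E E1 E2 A1 A2 i1 i2 θ θ')
    (hψ : Cells a (span F E2 ⊔ span F (a '' M)) ψ) {q : ρ'} (hq : Big a (span F E2) ψ q) :
    2 ≤ {l | ψ q (a l) ≠ 0 ∧ l ∈ Shd a (span F E1) (span F E2)}.ncard := by
  by_contra hc
  obtain ⟨o, ho, hsh⟩ := pick (P := fun l => ψ q (a l) ≠ 0) (hψ.ne q) hc
  have hun : ∀ l, ψ q (a l) ≠ 0 → l ≠ o → ¬ Tch a (span F E1) l :=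
    fun l hl hlo ht => hlo (hsh l hl ⟨ht, big_tch hψ hq hl⟩)
  by_cases h2 : ∀ t ∈ A2, ∀ l, ψ q (a l) ≠ 0 → l ≠ o → a.repr t l = 0
  · exact h.big2_aux hψ hq ho hun h2
  by_cases h1 : ∀ t ∈ A1, ∀ l, ψ q (a l) ≠ 0 → l ≠ o → a.repr t l = 0
  · exact h.symm.big2_aux hψ hq ho hun h1
  push Not at h1 h2
  obtain ⟨t, ht, l, hl1, hl2, hl3⟩ := h1
  obtain ⟨t', ht', l', hl1', hl2', hl3'⟩ := h2
  have hT := (h.t1 t ht).1
  have hT' := (h.t2 t' ht').1
  have p1 : ψ q t ≠ 0 := (map_joint hT hl3 _).2 hl1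
  have p2 : ψ q t' ≠ 0 := (map_joint hT' hl3' _).2 hl1'
  have hx : t - (ψ q t * ψ q t') • t' ∈ span F E2 := by
    refine memW h.o2 (hψ.ker _ fun q' => ?_) fun m hm => by
      simp [h.tM ht hm, h.symm.tM ht' hm]
    by_cases hq' : q' = q
    · subst hq'; simp [mul_assoc, F_sq p2]
    · have h3 : ψ q' t = 0 := by_contra fun h4 => hq' (hψ.T hT h4 p1)
      have h4 : ψ q' t' = 0 := by_contra fun h4 => hq' (hψ.T hT' h4 p2)
      simp [h3, h4]
  refine h.big t ht t' ht' (h.uniq ht hl3 (hun l hl1 hl2))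
    (h.symm.uniq ht' hl3' (hun l' hl1' hl2')) _ (mul_ne_zero p1 p2) (sub_eq_zero.1 ?_)
  refine h.dir _ (sub_mem (h.t1 t ht).2 (smul_mem _ _ (h.t2 t' ht').2)) ?_
  have : t - θ - (ψ q t * ψ q t') • (t' - θ') =
      t - (ψ q t * ψ q t') • t' - θ + (ψ q t * ψ q t') • θ' := by module
  rw [this]
  exact add_mem (sub_mem hx h.m1) (smul_mem _ _ h.m2)

/-- The number of shared vertices. -/
theorem Cx.card_sh [Fintype ι] [DecidableEq ι] [Fintype ρ] [DecidableEq ρ] [Fintype ρ']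
    [DecidableEq ρ'] (hCL : S_CL) (h : Cx a M E E1 E2 A1 A2 i1 i2 θ θ')
    (hχ : Cells a (span F E1 ⊔ span F (a '' M)) χ)
    (hψ : Cells a (span F E2 ⊔ span F (a '' M)) ψ) :
    (Shd a (span F E1) (span F E2)).ncard =
      {q | Big a (span F E1) χ q}.ncard + {q | Big a (span F E2) ψ q}.ncard := by
  classical
  have hsup : (span F E1 ⊔ span F (a '' M)) ⊔ (span F E2 ⊔ span F (a '' M)) = ⊤ := by
    rw [eq_top_iff, ← a.span_eq, span_le]
    rintro _ ⟨l, rfl⟩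
    by_cases hl : l ∈ M
    · exact mem_sup_left (joint_memW hl)
    · obtain ⟨u, hu, v, hv, h1⟩ :=
        mem_sup.1 (h.cov (a l) fun m hm => repr_basis_ne a fun hc => hl (hc ▸ hm))
      rw [← h1]
      exact add_mem (mem_sup_left (mem_sup_left hu)) (mem_sup_right (mem_sup_left hv))
  have hinf : (span F E1 ⊔ span F (a '' M)) ⊓ (span F E2 ⊔ span F (a '' M)) =
      span F (a '' M) := by
    refine le_antisymm (fun x hx => ?_) (le_inf le_sup_right le_sup_right)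
    obtain ⟨u, hu, v, hv, rfl⟩ := mem_sup.1 hx.1
    have h1 : u ∈ span F E2 ⊔ span F (a '' M) := by
      have := sub_mem hx.2 (mem_sup_right hv)
      simpa using this
    rw [h.dir u hu (memW h.o2 h1 fun m hm => h.u1 hu hm)]
    simpa using hv
  have hfin : finrank F (span F (a '' M)) = M.ncard := by
    have h1 := finrank_span_eq_card
      (a.linearIndependent.comp (Subtype.val : M → ι) Subtype.val_injective)
    rw [Set.range_comp, Subtype.range_coe] at h1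
    rw [h1, Set.fintypeCard_eq_ncard]
  have hsh : Shd a (span F E1 ⊔ span F (a '' M)) (span F E2 ⊔ span F (a '' M)) =
      Shd a (span F E1) (span F E2) ∪ M := by
    ext l
    by_cases hl : l ∈ M
    · simp [Shd, hl, tchM hl]
    · simp [Shd, hl, tchW hl]
  have hdis : Disjoint (Shd a (span F E1) (span F E2)) M :=
    Set.disjoint_left.2 fun l ⟨⟨x, hx, h1⟩, _⟩ hl => h1 (h.u1 hx hl)
  have h1 := hCL a _ _ χ ψ hχ hψ hsup
  rw [hinf, hfin, hsh, Set.ncard_union_eq hdis] at h1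
  simp only [bigW hχ, bigW hψ] at h1
  omega

theorem Cx.z1 [Fintype ι] (h : Cx a M E E1 E2 A1 A2 i1 i2 θ θ')
    (hχ : Cells a (span F E1 ⊔ span F (a '' M)) χ)
    (hsh : ∀ l ∈ Shd a (span F E1) (span F E2), ∃ q, χ q (a l) ≠ 0) {l : ι} (hl : l ∉ M) :
    ∃ q, χ q (a l) ≠ 0 := by
  by_contra hc
  push Not at hc
  have key : ∀ {A1 A2 : Set V} {i1 i2 : ι} {θ θ' : V}, Cx a M E E1 E2 A1 A2 i1 i2 θ θ' →
      ∀ t ∈ A1, ∀ o, a o ∈ span F E1 → a.repr t o = 0 := by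
    intro A1 A2 i1 i2 θ θ' h t ht o ho
    by_contra h1
    obtain ⟨q, hq⟩ := h.chi_ex hχ
    rw [← h.chi_t hχ ht] at hq
    exact (map_joint (h.t1 t ht).1 h1 _).1 hq (vanE hχ q ho)
  refine h.nsep ((sep0 a {o | a o ∈ span F E1} ⟨l, noclass h.o1 hχ hl hc⟩ (l0 := i1)
    (fun h1 => by simpa using h.u1 h1 h.i1M) fun e he o ho h1 m hm => ?_).mono subset_rfl
    (by norm_num))
  have hoM : o ∉ M := fun h2 => by simpa using h.u1 ho h2
  rcases h.cls e he with h2 | h2 | h2 | ⟨t, ht, c, rfl⟩ | ⟨t, ht, c, rfl⟩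
  · exact end_mem (h.d1 h2) (subset_span h2) h1 hm ho
  · obtain ⟨q, hq⟩ := hsh o ⟨⟨_, ho, by simp⟩, e, subset_span h2, h1⟩
    exact absurd (vanE hχ q ho) hq
  · exact absurd (h2 o hoM) h1
  · exact absurd (key h t ht o ho) (h.att ht hoM h1).1
  · exact absurd (key h.symm t ht o ho) (h.symm.att ht hoM h1).1

theorem Cx.z2_aux [Fintype ι] (h : Cx a M E E1 E2 A1 A2 i1 i2 θ θ') {l : ι}
    (hl : a l ∈ span F E2) (hun : ∀ o, a o ∈ span F E2 → ¬ Tch a (span F E1) o) :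
    ∃ t ∈ A1, t = θ ∧ ∀ s ∈ A1, s = t := by
  by_cases h0 : ∃ t ∈ A1, ∃ o, a o ∈ span F E2 ∧ a.repr t o ≠ 0
  · obtain ⟨t, ht, o, ho, h1⟩ := h0
    refine ⟨t, ht, sub_eq_zero.1 (h.dir _ (h.t1 t ht).2 (sub_mem ?_ h.m1)),
      h.uniq ht h1 (hun o ho)⟩
    rw [Tset_eq_smul a (h.t1 t ht).1 h1]
    exact smul_mem _ _ ho
  exfalso
  refine h.nsep (sepv a {o | a o ∈ span F E2} ⟨l, hl⟩ (j := i2) (l0 := i1)
    (fun h1 => by simpa using h.u2 h1 h.i1M) h.ne fun e he o ho h1 m hm => ?_)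
  have hoM : o ∉ M := fun h2 => by simpa using h.u2 ho h2
  rcases h.cls e he with h2 | h2 | h2 | ⟨t, ht, c, rfl⟩ | ⟨t, ht, c, rfl⟩
  · exact absurd ⟨e, subset_span h2, h1⟩ (hun o ho)
  · exact Or.inl (end_mem (h.d2 h2) (subset_span h2) h1 hm ho)
  · exact absurd (h2 o hoM) h1
  · exact absurd ⟨t, ht, o, ho, (h.att ht hoM h1).1⟩ h0
  · rcases (h.symm.att ht hoM h1).2 m hm with rfl | rfl
    · exact Or.inl ho
    · exact Or.inr rfl

theorem Cx.z2 [Fintype ι] (h : Cx a M E E1 E2 A1 A2 i1 i2 θ θ')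
    (hψ : Cells a (span F E2 ⊔ span F (a '' M)) ψ)
    (hsh : ∀ l ∈ Shd a (span F E1) (span F E2), ∃ q, ψ q (a l) ≠ 0) {l : ι} (hl : l ∉ M) :
    ∃ q, ψ q (a l) ≠ 0 := by
  by_contra hc
  push Not at hc
  have hl2 := noclass h.o2 hψ hl hc
  have hun : ∀ o, a o ∈ span F E2 → ¬ Tch a (span F E1) o := fun o ho ht => by
    obtain ⟨q, hq⟩ := hsh o ⟨ht, _, ho, by simp⟩
    exact hq (vanE hψ q ho)
  obtain ⟨t, ht, h1, h2⟩ := h.z2_aux hl2 hun
  obtain ⟨t', ht', h1', h2'⟩ := h.symm.z2_aux hl2 hun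
  exact h.big t ht t' ht' h2 h2' 1 one_ne_zero (by simp [h1, h1'])

theorem Cx.not_att (h : Cx a M E E1 E2 A1 A2 i1 i2 θ θ')
    (hψ : Cells a (span F E2 ⊔ span F (a '' M)) ψ) (hz : ∀ l, l ∉ M → ∃ q, ψ q (a l) ≠ 0) :
    θ ∉ A1 := by
  intro ht
  obtain ⟨l, hl⟩ := exists_repr_ne a h.thne
  obtain ⟨q, hq⟩ := hz l fun hm => hl (h.tM ht hm)
  exact (map_joint (h.t1 θ ht).1 hl _).2 hq (vanE hψ q h.m1)

theorem Cx.rings [Fintype ι] [DecidableEq ι] (hCELL : S_CELL) (hCL : S_CL)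
    (h : Cx a M E E1 E2 A1 A2 i1 i2 θ θ') :
    ∃ (r r' : ℕ) (χ : Fin r → V →ₗ[F] F) (ψ : Fin r' → V →ₗ[F] F),
      Rings a M E1 E2 χ ψ ∧ θ ∉ A1 ∧ θ' ∉ A2 := by
  obtain ⟨r, χ, hχ⟩ := hCELL a _ (dSpW (M := M) h.d1)
  obtain ⟨r', ψ, hψ⟩ := hCELL a _ (dSpW (M := M) h.d2)
  have hc := h.card_sh hCL hχ hψ
  obtain ⟨k1, k2⟩ := count (Shd a (span F E1) (span F E2)) {q | Big a (span F E1) χ q}
    (fun q l => χ q (a l) ≠ 0) hχ.disj fun q hq => h.big1 hχ hq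
  obtain ⟨k3, k4⟩ := count (Shd a (span F E1) (span F E2)) {q | Big a (span F E2) ψ q}
    (fun q l => ψ q (a l) ≠ 0) hψ.disj fun q hq => h.big2 hψ hq
  obtain ⟨k5, k6⟩ := k2 (by omega)
  obtain ⟨k7, k8⟩ := k4 (by omega)
  have hz : ∀ l, l ∉ M → ∃ q, ψ q (a l) ≠ 0 := fun l hl => h.z2 hψ k8 hl
  refine ⟨r, r', χ, ψ, ⟨h.d1, h.d2, h.o1, h.o2, ?_, hχ, hψ, fun l hl => h.z1 hχ k6 hl, hz,
    k5, k7⟩, h.not_att hψ hz, h.symm.not_att hψ hz⟩
  rw [eq_bot_iff]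
  exact fun x hx => h.dir x hx.1 hx.2

/-! ### The concrete configuration -/

theorem ind2 {s w : V} (hs : s ≠ 0) (hw : w ≠ 0) (h1 : s ≠ w) (h2 : s ≠ -w) (c c' : F)
    (h : c • (-(s + w)) + c' • (w - s) = 0) : c = 0 ∧ c' = 0 := by
  rcases F_cases c with rfl | rfl | rfl <;> rcases F_cases c' with rfl | rfl | rfl
  · exact ⟨rfl, rfl⟩
  · exact absurd (by linear_combination (norm := module) -h) h1
  · exact absurd (by linear_combination (norm := module) h) h1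
  · exact absurd (by linear_combination (norm := module) -h) h2
  · exact absurd (by linear_combination (norm := module) h + three s) hs
  · exact absurd (by linear_combination (norm := module) h + three w) hw
  · exact absurd (by linear_combination (norm := module) h) h2
  · exact absurd (by linear_combination (norm := module) -h + three w) hw
  · exact absurd (by linear_combination (norm := module) -h + three s) hs

theorem suppZ {a : Basis ι F V} {f : Basis κ F V} {j : κ} {i1 : ι} {s : V} (hs : s ∈ Tset f)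
    (h1 : a.repr s i1 = 0) (hj : f.repr s j = 0) {l : κ} (hl : f.repr s l ≠ 0) :
    l ≠ j ∧ a.repr (f l) i1 = 0 := by
  refine ⟨fun hc => hl (hc ▸ hj), by_contra fun hc => ?_⟩
  exact (map_joint hs hl (a.coord i1)).2 (by simpa using hc) (by simpa using h1)

variable [Fintype ι] [DecidableEq ι] [Fintype κ] [DecidableEq κ] {f : Basis κ F V} {j y : κ}
  {s0 fw : V}

/-- The edges `f j - f l`, `f j + f l` cannot all use the same `l`. -/
theorem no_single (hQE : S_QE) (h : Q2 a f j i1 i2 y s0 fw)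
    (hex : ∃ l, l ≠ j ∧ l ≠ y ∧ a.repr (f l) i1 ≠ 0) {l : κ} (hl1 : a.repr (f l) i1 = 1)
    (hL : ∀ l', l' ≠ j → a.repr (f l') i1 = 1 →
      (f j - f l' ∈ Dset (Tset a) ∨ f j + f l' ∈ Dset (Tset a)) → l' = l) : False := by
  obtain ⟨hcls, -, -, -, -⟩ := hQE a f j i1 i2 y s0 fw h
  have hn : a i1 + a i2 = -(f j + s0) := by rw [← h.hn, neg_neg]
  have touch : ∀ e ∈ EE a f, ∀ m, m ≠ j → a.repr (f m) i1 ≠ 0 → m ≠ l → f.repr e m ≠ 0 →
      e ∈ EK a f j i1 ∨ (m = y ∧ (e = a i1 - a i2 ∨ e = -(a i1 - a i2))) := by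
    intro e he m hmj hm hml h1
    have hs : f.repr s0 m = 0 := by_contra fun hc => hm (suppZ h.s0T h.s01 h.s0j hc).2
    have hw : f.repr fw m = 0 := by_contra fun hc => hm (suppZ h.fwT h.fw1 h.fwj hc).2
    have hy : f.repr (a i1 - a i2) m ≠ 0 → m = y := fun h2 => by_contra fun hc => h2 (by
      rw [h.hd]; simp [hw, single_ne (Ne.symm hc)])
    have hp : f.repr (a i1 + a i2) m = 0 := by
      rw [hn]; simp [hs, single_ne (Ne.symm hmj)]
    rcases hcls e he with h2 | h2 | h2 | h2 | h2 | h2 | ⟨l', h3, h4, h2⟩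
    · exact Or.inl h2
    · exact absurd (h2.2 m h1).2 hm
    · exact Or.inr ⟨hy (h2 ▸ h1), Or.inl h2⟩
    · refine Or.inr ⟨hy fun hc => h1 ?_, Or.inr h2⟩
      rw [h2, map_neg, Finsupp.neg_apply, hc, neg_zero]
    · exact absurd (h2 ▸ hp) h1
    · exfalso; refine h1 ?_
      rw [h2, map_neg, Finsupp.neg_apply, hp, neg_zero]
    · have h5 : l' = l := hL l' h3 h4 (by
        rcases h2 with h2 | h2 | h2 | h2
        · exact Or.inl (h2 ▸ he.1)
        · exact Or.inl (by simpa [h2] using neg_mem_Dset he.1)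
        · exact Or.inr (h2 ▸ he.1)
        · refine Or.inr ?_
          have := neg_mem_Dset he.1
          rwa [h2, neg_neg] at this)
      subst h5
      exfalso; refine h1 ?_
      rcases h2 with h2 | h2 | h2 | h2 <;>
        simp [h2, single_ne (Ne.symm hmj), single_ne (Ne.symm hml)]
  by_cases hC : ∃ m, m ≠ j ∧ a.repr (f m) i1 ≠ 0 ∧ m ≠ y ∧ m ≠ l
  · refine h.tc.nsep (sepf f {m | m ≠ j ∧ a.repr (f m) i1 ≠ 0 ∧ m ≠ y ∧ m ≠ l} hC (m1 := y) l
      (a.coord i1) (by simp [h.hy]) fun e he m hm h1 => ?_)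
    rcases touch e he m hm.1 hm.2.1 hm.2.2.2 h1 with h2 | h2
    · refine ⟨by simpa using h2.2.1, fun m' hm' => ?_⟩
      by_cases h3 : m' = y
      · exact Or.inr (Or.inl h3)
      by_cases h4 : m' = l
      · exact Or.inr (Or.inr h4)
      exact Or.inl ⟨(h2.2.2 m' hm').1, (h2.2.2 m' hm').2, h3, h4⟩
    · exact absurd h2.1 hm.2.2.1
  push Not at hC
  obtain ⟨l0, h01, h02, h03⟩ := hex
  have hly : y ≠ l := by
    rw [← hC l0 h01 h03 h02]; exact h02.symm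
  have := Module.Finite.of_basis a
  have h4 := h.tc.finrank
  refine h.tc.nsep (deg3 (by omega) (φ := f.coord y) (fun hc => ?_) (a i1 - a i2) (f y - f l)
    fun e he h1 => ?_)
  · simpa using congrArg (fun g : V →ₗ[F] F => g (f y)) hc
  rcases touch e he y h.yj (by simp [h.hy]) hly (by simpa using h1) with h2 | ⟨-, h2 | h2⟩
  · have h5 : e = f.repr e y • f y + f.repr e l • f l :=
      eq_two_of_supp f hly fun m hm hm' => by_contra fun hc =>
        hm' (hC m (h2.2.2 m hc).1 (h2.2.2 m hc).2 hm)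
    have h6 : f.repr e l = -f.repr e y := by
      have h7 := h2.2.1
      rw [h5] at h7
      simp only [map_add, map_smul, Finsupp.add_apply, Finsupp.smul_apply, h.hy, hl1,
        smul_eq_mul, mul_one] at h7
      linear_combination h7
    have h8 : e = f.repr e y • (f y - f l) := by
      conv_lhs => rw [h5, h6]
      module
    rw [h8]
    exact smul_mem _ _ (subset_span (by simp))
  · exact h2 ▸ subset_span (by simp)
  · exact h2 ▸ neg_mem (subset_span (by simp))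

theorem cx (hQE : S_QE) (h : Q2 a f j i1 i2 y s0 fw) (n1 : s0 ≠ fw) (n2 : s0 ≠ -fw)
    (hex : ∃ l, l ≠ j ∧ l ≠ y ∧ a.repr (f l) i1 ≠ 0) :
    Cx a {i1, i2} (EE a f) (EK a f j i1) (EZ a f j i1)
      {t | ∃ l, l ≠ j ∧ a.repr (f l) i1 = 1 ∧ f j - f l ∈ Dset (Tset a) ∧
        t = f y - f l - (s0 + fw)}
      {t | ∃ l, l ≠ j ∧ a.repr (f l) i1 = 1 ∧ f j + f l ∈ Dset (Tset a) ∧
        t = f l - f y + (fw - s0)} i1 i2 (-(s0 + fw)) (fw - s0) := by
  obtain ⟨hcls, hz, hK, hZ, hatt⟩ := hQE a f j i1 i2 y s0 fw h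
  have o1 : ∀ e ∈ EK a f j i1, ∀ m ∈ ({i1, i2} : Set ι), a.repr e m = 0 := by
    rintro e he m (rfl | rfl)
    · exact (hz e (Or.inl he)).1
    · exact (hz e (Or.inl he)).2
  have o2 : ∀ e ∈ EZ a f j i1, ∀ m ∈ ({i1, i2} : Set ι), a.repr e m = 0 := by
    rintro e he m (rfl | rfl)
    · exact (hz e (Or.inr he)).1
    · exact (hz e (Or.inr he)).2
  have hs : s0 ∈ span F (EZ a f j i1) := hZ _ fun l hl => suppZ h.s0T h.s01 h.s0j hl
  have hw : fw ∈ span F (EZ a f j i1) := hZ _ fun l hl => suppZ h.fwT h.fw1 h.fwj hl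
  have hyl : ∀ l, l ≠ j → a.repr (f l) i1 = 1 → f y - f l ∈ span F (EK a f j i1) := by
    intro l hl h1
    refine hK _ (by simp [h.hy, h1]) fun m hm => ?_
    by_cases h2 : m = y
    · subst h2; exact ⟨h.yj, by simp [h.hy]⟩
    by_cases h3 : m = l
    · subst h3; exact ⟨hl, by simp [h1]⟩
    exact absurd (by simp [single_ne (Ne.symm h2), single_ne (Ne.symm h3)]) hm
  refine ⟨h.tc.nsep, h.ne, fun o => by simp, fun e he => he.1.1, fun e he => he.1.1, o1, o2,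
    fun x hx hx' => ?_, fun x hx => ?_, fun e he => ?_, ?_, ?_, neg_mem (add_mem hs hw),
    sub_mem hw hs, ind2 h.s0ne h.fwne n1 n2, ?_, ?_, ?_⟩
  · refine eq_of_repr f fun l => ?_
    rw [map_zero, Finsupp.zero_apply]
    by_contra hc
    obtain ⟨e, he, h1⟩ := exists_touch f hx hc
    obtain ⟨e', he', h2⟩ := exists_touch f hx' hc
    exact (he.2.2 l h1).2 (he'.2 l h2).2
  · have hj : f.repr x j = 0 := by
      have h1 := map_eq_sum a (f.coord j) x
      rw [Basis.coord_apply] at h1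
      rw [h1]
      refine Finset.sum_eq_zero fun i _ => ?_
      rw [Basis.coord_apply, h.hI]
      split_ifs with h2
      · rw [hx i h2, zero_mul]
      · rw [mul_zero]
    have h1 : projS f {l | l ≠ j ∧ a.repr (f l) i1 = 0} x ∈ span F (EZ a f j i1) := by
      refine hZ _ fun l hl => ?_
      rw [repr_projS] at hl
      by_contra hc
      exact hl (if_neg hc)
    have h2 : x - projS f {l | l ≠ j ∧ a.repr (f l) i1 = 0} x ∈ span F (EK a f j i1) := by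
      refine hK _ ?_ fun l hl => ?_
      · have h3 := repr_span_zero a (fun e he => o2 e he i1 (by simp)) h1
        simp [h3, hx i1 (by simp)]
      · rw [map_sub, Finsupp.sub_apply, repr_projS] at hl
        have h3 : l ≠ j := by
          rintro rfl
          simp [hj] at hl
        refine ⟨h3, fun hc => hl ?_⟩
        rw [if_pos ⟨h3, hc⟩, sub_self]
    exact mem_sup.2 ⟨_, h2, _, h1, by abel⟩
  · have hM : ∀ o, o ∉ ({i1, i2} : Set ι) → i1 ≠ o ∧ i2 ≠ o := fun o ho =>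
      ⟨fun hc => ho (by simp [hc]), fun hc => ho (by simp [hc])⟩
    rcases hcls e he with h2 | h2 | h2 | h2 | h2 | h2 | ⟨l, h3, h4, h2 | h2 | h2 | h2⟩
    · exact Or.inl h2
    · exact Or.inr (Or.inl h2)
    · exact Or.inr (Or.inr (Or.inl fun o ho => by
        simp [h2, single_ne (hM o ho).1, single_ne (hM o ho).2]))
    · exact Or.inr (Or.inr (Or.inl fun o ho => by
        simp [h2, single_ne (hM o ho).1, single_ne (hM o ho).2]))
    · exact Or.inr (Or.inr (Or.inl fun o ho => by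
        simp [h2, single_ne (hM o ho).1, single_ne (hM o ho).2]))
    · exact Or.inr (Or.inr (Or.inl fun o ho => by
        simp [h2, single_ne (hM o ho).1, single_ne (hM o ho).2]))
    · exact Or.inr (Or.inr (Or.inr (Or.inl ⟨_, ⟨l, h3, h4, h2 ▸ he.1, rfl⟩, 1, by
        rw [h2, (hatt l h3 h4).1, one_smul]⟩)))
    · refine Or.inr (Or.inr (Or.inr (Or.inl ⟨_, ⟨l, h3, h4, ?_, rfl⟩, -1, by
        rw [h2, (hatt l h3 h4).1, neg_one_smul]⟩)))
      have := neg_mem_Dset he.1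
      rwa [h2, neg_neg] at this
    · exact Or.inr (Or.inr (Or.inr (Or.inr ⟨_, ⟨l, h3, h4, h2 ▸ he.1, rfl⟩, 1, by
        rw [h2, (hatt l h3 h4).2, one_smul]⟩)))
    · refine Or.inr (Or.inr (Or.inr (Or.inr ⟨_, ⟨l, h3, h4, ?_, rfl⟩, -1, by
        rw [h2, (hatt l h3 h4).2, neg_one_smul]⟩)))
      have := neg_mem_Dset he.1
      rwa [h2, neg_neg] at this
  · rintro _ ⟨l, h1, h2, h3, rfl⟩
    constructor
    · have h4 := sub_mem_Tset_one a h3 (i := i1) (by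
        rw [map_sub, Finsupp.sub_apply, h.x1, h2]; decide)
      rwa [(hatt l h1 h2).1, add_sub_cancel_left] at h4
    · rw [sub_neg_eq_add, sub_add_cancel]; exact hyl l h1 h2
  · rintro _ ⟨l, h1, h2, h3, rfl⟩
    constructor
    · have k1 := repr_span_zero a (fun e he => o1 e he i2 (by simp)) (neg_mem (hyl l h1 h2))
      have k2 := repr_span_zero a (fun e he => o2 e he i2 (by simp)) (sub_mem hw hs)
      rw [neg_sub] at k1
      have h4 := sub_mem_Tset_one a h3 (i := i2) (by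
        rw [(hatt l h1 h2).2, map_add, map_add, Finsupp.add_apply, Finsupp.add_apply, k1, k2]
        simp)
      rwa [(hatt l h1 h2).2, add_sub_cancel_left] at h4
    · simpa using neg_mem (hyl l h1 h2)
  · obtain ⟨l, h1, h2, h3⟩ := h.he1
    exact ⟨_, l, h1, h2, h3, rfl⟩
  · obtain ⟨l, h1, h2, h3⟩ := h.he2
    exact ⟨_, l, h1, h2, h3, rfl⟩
  · rintro _ ⟨l, h1, h2, h3, rfl⟩ _ ⟨l', h1', h2', h3', rfl⟩ u1 u2 c hc h4
    have h5 : f y - f l = c • (f l' - f y) := by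
      rwa [sub_neg_eq_add, sub_add_cancel, add_sub_cancel_right] at h4
    have h6 : l = l' := by
      by_contra h7
      by_cases h8 : y = l
      · subst h8
        have := congrArg (fun v => f.repr v l') h5
        simp [single_ne h7] at this
        exact hc this.symm
      · have := congrArg (fun v => f.repr v l) h5
        simp [single_ne h8, single_ne (Ne.symm h7)] at this
    subst h6
    refine no_single hQE h hex h2 fun m k1 k2 k3 => f.injective ?_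
    rcases k3 with k3 | k3
    · have := u1 _ ⟨m, k1, k2, k3, rfl⟩
      linear_combination (norm := module) -this
    · have := u2 _ ⟨m, k1, k2, k3, rfl⟩
      linear_combination (norm := module) this

end Rb

theorem s_rb (hQE : S_QE) (hCELL : S_CELL) (hCL : S_CL) : S_RB := by
  intro V _ _ ι κ _ _ _ _ a f j i1 i2 y s0 fw h n1 n2 hex
  obtain ⟨r, r', χ, ψ, h1, h2, h3⟩ := (Rb.cx hQE h n1 n2 hex).rings hCELL hCL
  exact ⟨r, r', χ, ψ, h1, fun hc => h2 ⟨y, h.yj, h.hy, hc, by simp⟩,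
    fun hc => h3 ⟨y, h.yj, h.hy, hc, by simp⟩⟩

end Pool.Agent.P.MP_053557_co
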