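import Pool.Agent.P.MP_053557_co.Basic2

/-! The ring case: every joint off the geodesic has three consecutive neighbours on it. -/

namespace Pool.Agent.P.MP_053557_co

open Module Submodule

namespace Rng

variable {V : Type} [AddCommGroup V] [Module F V] {ι κ : Type} [Fintype ι] [DecidableEq ι]
  [Fintype κ] [DecidableEq κ] {a : Basis ι F V} {f : Basis κ F V} {x : ℤ → V} {L : ℕ}
  {A B : ℤ → κ}

/-- `l` is one of the two coordinates flipped by step `r`. -/
def In (A B : ℤ → κ) (l : κ) (r : ℤ) : Prop := l = A r ∨ l = B r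

/-- `y` is off the geodesic with centre `s`. -/
def Ct (a : Basis ι F V) (f : Basis κ F V) (x : ℤ → V) (y : V) (s : ℤ) : Prop :=
  Off a x y ∧ Adj f y (x (s - 1)) ∧ Adj f y (x s) ∧ Adj f y (x (s + 1))

/-- Everything that is used. -/
structure Cx (a : Basis ι F V) (f : Basis κ F V) (x : ℤ → V) (L : ℕ) (A B : ℤ → κ) :
    Prop where
  kc : Kc a f x L A B
  adj : ∀ x ∈ Gm a, ∀ y ∈ Gm a, Adj f x y ↔ (Df f x y).card = 2
  same : ∀ x ∈ Gm a, ∀ y ∈ Gm a, ∀ z ∈ Gm a, ∀ w ∈ Gm a, Adj f x y → Adj f z w →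
    Df f x y = Df f z w → x - y = z - w ∨ x - y = w - z
  edge : ∀ e ∈ EE a f, e ≠ 0 → ∃ x ∈ Gm a, ∃ y ∈ Gm a, Adj f x y ∧ e = x - y
  five : ∀ l, ∀ z ∈ Gm a, ∃ x ∈ Gm a, ∃ y ∈ Gm a, ∃ x' ∈ Gm a, ∃ y' ∈ Gm a, Adj f x y ∧
    Adj f x' y' ∧ l ∈ Df f x y ∧ l ∈ Df f x' y' ∧ x - y ≠ x' - y' ∧ x - y ≠ y' - x' ∧
    x ≠ z ∧ x ≠ -z ∧ y ≠ z ∧ y ≠ -z ∧ x' ≠ z ∧ x' ≠ -z ∧ y' ≠ z ∧ y' ≠ -z
  p1 : ∀ s t r : ℤ, s ≤ t → t ≤ s + L → (A r ∈ Df f (x s) (x t) ↔ ∃ r', s ≤ r' ∧ r' < t ∧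
      (L : ℤ) ∣ r - r') ∧ (B r ∈ Df f (x s) (x t) ↔ A r ∈ Df f (x s) (x t))
  p2 : ∀ y ∈ Gm a, ∀ s r : ℤ, Mx f x A B y r ↔ ¬ (A r ∈ Df f y (x s) ↔ B r ∈ Df f y (x s))
  p3 : ∀ y, Off a x y → ∀ t r : ℤ, Adj f y (x t) → (Mx f x A B y r ↔
      (A r ∈ Df f y (x t) ∨ B r ∈ Df f y (x t)))
  p4 : ∀ y, Off a x y → ∀ t : ℤ, Adj f y (x t) → (Adj f y (x (t + 1)) ↔ Mx f x A B y t) ∧
      (Adj f y (x (t - 1)) ↔ Mx f x A B y (t - 1))
  ctr : ∀ y, Off a x y → ∃ s, Adj f y (x (s - 1)) ∧ Adj f y (x s) ∧ Adj f y (x (s + 1))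

theorem dt {n r s t : ℤ} (h1 : n ∣ r - t) (h2 : n ∣ s - t) : n ∣ r - s := by
  have := dvd_sub h1 h2
  rwa [sub_sub_sub_cancel_right] at this

theorem dc {n r s : ℤ} (h : n ∣ r) (e : r = s) : n ∣ s := e ▸ h

theorem dn {n r s : ℤ} (h : n ∣ r) (e : -r = s) : n ∣ s := e ▸ dvd_neg.2 h

omit [DecidableEq κ] [Fintype κ] [DecidableEq ι] [Fintype ι] in
theorem mx_neg {y : V} {r : ℤ} : Mx f x A B (-y) r ↔ Mx f x A B y r := by
  simp [Mx]

theorem pxor {p q p' q' m n e e' : Prop} (k1 : p ↔ ¬ (e ↔ q)) (k2 : p' ↔ ¬ (e' ↔ q'))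
    (k3 : m ↔ ¬ (p ↔ p')) (k4 : n ↔ ¬ (q ↔ q')) (he : ¬ e) (he' : e') : m ↔ ¬ n := by
  rw [k3, k4, k1, k2]
  by_cases q <;> by_cases q' <;> simp [*]

theorem pm_symm {u v : V} (h : u = v ∨ u = -v) : v = u ∨ v = -u := by
  rcases h with rfl | rfl <;> simp

theorem pm_trans {u v w : V} (h : u = v ∨ u = -v) (h' : v = w ∨ v = -w) : u = w ∨ u = -w := by
  rcases h with rfl | rfl <;> rcases h' with rfl | rfl <;> simp

omit [DecidableEq ι] [Fintype ι] in
theorem idx_eq {i j : ι} (h : a i = a j ∨ a i = -a j) : i = j := by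
  by_contra hc
  have h1 := repr_basis_ne a hc
  rcases h with h | h <;> rw [h] at h1 <;> simp at h1

namespace Cx

variable (h : Cx a f x L A B)
include h

theorem nd {k : ℤ} (hk : (L : ℤ) ∣ k) (h1 : -L < k) (h2 : k < L) : k = 0 :=
  Int.eq_zero_of_abs_lt_dvd hk (abs_lt.2 ⟨h1, h2⟩)

theorem four : (4 : ℤ) ≤ L := by exact_mod_cast h.kc.four

theorem nd' {r s : ℤ} (hk : (L : ℤ) ∣ r - s) (h1 : s - 4 < r) (h2 : r < s + 4) : r = s := by
  have := h.four
  have := h.nd hk (by omega) (by omega)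
  omega

theorem mem (s : ℤ) : x s ∈ Gm a := h.kc.geo.mem s

theorem nz {y : V} (hy : y ∈ Gm a) (l : κ) : f.repr y l ≠ 0 := by
  obtain ⟨i, rfl | rfl⟩ := mem_Gm_iff.1 hy <;> simpa using h.kc.af.full i l

theorem xor {u v w : V} (hu : u ∈ Gm a) (hv : v ∈ Gm a) (hw : w ∈ Gm a) (l : κ) :
    l ∈ Df f u w ↔ ¬ (l ∈ Df f u v ↔ l ∈ Df f v w) := by
  simp only [mem_Df]
  have h1 := h.nz hu l
  have h2 := h.nz hv l
  have h3 := h.nz hw l
  generalize f.repr u l = c at *
  generalize f.repr v l = d at *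
  generalize f.repr w l = e at *
  revert c d e; decide

theorem negl {u v : V} (hu : u ∈ Gm a) (hv : v ∈ Gm a) (l : κ) :
    l ∈ Df f (-u) v ↔ l ∉ Df f u v := by
  simp only [mem_Df, map_neg, Finsupp.neg_apply]
  have h1 := h.nz hu l
  have h2 := h.nz hv l
  generalize f.repr u l = c at *
  generalize f.repr v l = d at *
  revert c d; decide

theorem no3 {u y v : V} (hu : u ∈ Gm a) (hy : y ∈ Gm a) (hv : v ∈ Gm a) (h1 : Adj f y u)
    (h2 : Adj f y v) (h3 : Adj f (-v) u) : False := by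
  have e1 := (h.adj _ hy _ hu).1 h1
  have e2 := (h.adj _ hy _ hv).1 h2
  have e3 := (h.adj _ (neg_mem_Gm hv) _ hu).1 h3
  have hs : Finset.univ ⊆ Df f y u ∪ Df f y v ∪ Df f (-v) u := fun l _ => by
    simp only [Finset.mem_union]
    have := h.xor hv hy hu l
    rw [h.negl hv hu, Df_comm f y v]
    tauto
  have h4 := (Finset.card_le_card hs).trans ((Finset.card_union_le _ _).trans
    (Nat.add_le_add_right (Finset.card_union_le _ _) _))
  have h5 := h.kc.af.eight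
  rw [Finset.card_univ, card_eq_card a f] at h4
  omega

theorem shift (k : ℤ) : (∀ s, x (s + L * k) = x s) ∨ ∀ s, x (s + L * k) = -x s := by
  have an := h.kc.geo.anti
  induction k using Int.induction_on with
  | zero => left; simp
  | succ k ih =>
    refine ih.symm.imp (fun e s => ?_) fun e s => ?_ <;>
      rw [show s + L * ((k : ℤ) + 1) = s + L * k + L by ring, an, e]
    simp
  | pred k ih =>
    have an' : ∀ s, x (s - L) = -x s := fun s => by
      have := an (s - L)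
      rw [sub_add_cancel] at this
      simp [this]
    refine ih.symm.imp (fun e s => ?_) fun e s => ?_ <;>
      rw [show s + L * (-(k : ℤ) - 1) = s + L * -k - L by ring, an', e]
    simp

theorem per2 (s k : ℤ) : x (s + 2 * L * k) = x s := by
  rw [show s + 2 * L * k = s + L * k + L * k by ring]
  rcases h.shift k with e | e <;> rw [e, e]
  simp

theorem off_neg {y : V} (hy : Off a x y) : Off a x (-y) :=
  ⟨neg_mem_Gm hy.1, fun s e => hy.2 (s + L) (by rw [h.kc.geo.anti, ← e, neg_neg])⟩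

theorem cshift {y : V} {s t : ℤ} (hy : Ct a f x y t) (hd : (L : ℤ) ∣ t - s) :
    Ct a f x y s ∨ Ct a f x (-y) s := by
  obtain ⟨k, hk⟩ := hd
  obtain ⟨h0, h1, h2, h3⟩ := hy
  rw [show t - 1 = s - 1 + L * k by omega] at h1
  rw [show t + 1 = s + 1 + L * k by omega] at h3
  rw [show t = s + L * k by omega] at h2
  rcases h.shift k with e | e <;> rw [e] at h1 h2 h3
  · exact Or.inl ⟨h0, h1, h2, h3⟩
  · exact Or.inr ⟨h.off_neg h0, by simpa using h1.neg, by simpa using h2.neg,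
      by simpa using h3.neg⟩

theorem in_dvd {l : κ} {r s : ℤ} (h1 : In A B l r) (h2 : In A B l s) : (L : ℤ) ∣ r - s := by
  rcases h1 with rfl | rfl <;> rcases h2 with e | e
  · exact (h.kc.perA _ _).1 e
  · exact absurd e (h.kc.ab _ _)
  · exact absurd e.symm (h.kc.ab _ _)
  · exact (h.kc.perB _ _).1 e

theorem in_eq {l : κ} {r s : ℤ} (h1 : In A B l r) (h2 : In A B l s) (h3 : s - 4 < r)
    (h4 : r < s + 4) : r = s := h.nd' (h.in_dvd h1 h2) h3 h4

theorem in_per {l : κ} {r s : ℤ} (h1 : In A B l r) (hd : (L : ℤ) ∣ r - s) : In A B l s :=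
  h1.imp (·.trans ((h.kc.perA _ _).2 hd)) (·.trans ((h.kc.perB _ _).2 hd))

theorem step {l : κ} {s : ℤ} : l ∈ Df f (x s) (x (s + 1)) ↔ In A B l s := by
  rw [h.kc.step, Finset.mem_insert, Finset.mem_singleton]; rfl

theorem step' {l : κ} {s : ℤ} : l ∈ Df f (x s) (x (s - 1)) ↔ In A B l (s - 1) := by
  rw [← h.step, sub_add_cancel, Df_comm]

theorem mx_per {y : V} (hy : y ∈ Gm a) {r s : ℤ} (h1 : Mx f x A B y r)
    (hd : (L : ℤ) ∣ r - s) : Mx f x A B y s := by
  rw [h.p2 y hy 0] at h1 ⊢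
  rwa [← (h.kc.perA _ _).2 hd, ← (h.kc.perB _ _).2 hd]

theorem off_of_mx {y : V} (hy : y ∈ Gm a) {r : ℤ} (h1 : Mx f x A B y r) : Off a x y :=
  ⟨hy, fun s e => by
    rw [h.p2 y hy s, ← e] at h1
    simp [mem_Df] at h1⟩

theorem mx0 {y : V} {s : ℤ} (hy : Ct a f x y s) : Mx f x A B y s :=
  (h.p4 y hy.1 s hy.2.2.1).1.1 hy.2.2.2

theorem mx1 {y : V} {s : ℤ} (hy : Ct a f x y s) : Mx f x A B y (s - 1) :=
  (h.p4 y hy.1 s hy.2.2.1).2.1 hy.2.1

theorem mx_dvd {y : V} {s r : ℤ} (hy : Ct a f x y s) (hr : Mx f x A B y r) :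
    (L : ℤ) ∣ r - s ∨ (L : ℤ) ∣ r - (s - 1) := by
  obtain ⟨u, v, -, e⟩ := h.kc.two y hy.1
  have h0 := (e _).1 (h.mx0 hy)
  have h1 := (e _).1 (h.mx1 hy)
  have h2 := (e _).1 hr
  rcases h0 with h0 | h0 <;> rcases h1 with h1 | h1
  · have := h.nd' (dt h0 h1) (by omega) (by omega); omega
  · exact h2.imp (dt · h0) (dt · h1)
  · exact h2.symm.imp (dt · h0) (dt · h1)
  · have := h.nd' (dt h0 h1) (by omega) (by omega); omega

theorem of_mx {y : V} (hy : y ∈ Gm a) {s : ℤ} (h1 : Mx f x A B y s) :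
    ∃ z, (z = y ∨ z = -y) ∧ (Ct a f x z s ∨ Ct a f x z (s + 1)) := by
  have ho := h.off_of_mx hy h1
  obtain ⟨t, ht⟩ := h.ctr y ho
  rcases h.mx_dvd ⟨ho, ht⟩ h1 with e | e
  · rcases h.cshift (s := s) ⟨ho, ht⟩ (dn e (by ring)) with e | e
    · exact ⟨_, Or.inl rfl, Or.inl e⟩
    · exact ⟨_, Or.inr rfl, Or.inl e⟩
  · rcases h.cshift (s := s + 1) ⟨ho, ht⟩ (dn e (by ring)) with e | e
    · exact ⟨_, Or.inl rfl, Or.inr e⟩
    · exact ⟨_, Or.inr rfl, Or.inr e⟩

theorem cell2 {i j m : ι} {r : ℤ} (hij : i ≠ j) (hi : Mx f x A B (a i) r)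
    (hj : Mx f x A B (a j) r) (hm : Mx f x A B (a m) r) : m = i ∨ m = j := by
  obtain ⟨u, v, -, e⟩ := h.kc.cell r
  rw [e] at hi hj hm
  rcases hi with rfl | rfl <;> rcases hj with rfl | rfl <;> tauto

theorem uniq {y z : V} {s : ℤ} (hy : Ct a f x y s) (hz : Ct a f x z s) : z = y ∨ z = -y := by
  have key : ∀ {w : V}, Ct a f x w s → ∃ i, (w = a i ∨ w = -a i) ∧
      ∀ r, Mx f x A B (a i) r ↔ Mx f x A B w r := fun {w} hw => by
    obtain ⟨i, e | e⟩ := mem_Gm_iff.1 hw.1.1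
    · exact ⟨i, Or.inl e, fun r => by rw [e]⟩
    · exact ⟨i, Or.inr e, fun r => by rw [e, mx_neg]⟩
  obtain ⟨i, hi, mi⟩ := key hy
  obtain ⟨j, hj, mj⟩ := key hz
  by_cases hij : i = j
  · subst hij
    exact pm_trans hj (pm_symm hi)
  exfalso
  obtain ⟨m, m', -, hm⟩ := h.kc.cell (s + 1)
  have hm1 := (hm m).2 (Or.inl rfl)
  have no : ∀ {w : V}, Ct a f x w s → ¬ Mx f x A B w (s + 1) := fun hw e => by
    rcases h.mx_dvd hw e with e | e <;>
    · have := h.nd' e (by omega) (by omega); omega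
  obtain ⟨r, u, hu, v, hv, h1, h2⟩ := h.kc.closed {i, j}
    (by
      rintro _ (rfl | rfl)
      · exact h.off_of_mx (self_mem_Gm _ _) ((mi _).2 (h.mx0 hy))
      · exact h.off_of_mx (self_mem_Gm _ _) ((mj _).2 (h.mx0 hz)))
    ⟨i, Or.inl rfl⟩
    ⟨m, by
      rintro (rfl | rfl)
      · exact no hy ((mi _).1 hm1)
      · exact no hz ((mj _).1 hm1), h.off_of_mx (self_mem_Gm _ _) hm1⟩
  have h3 : (L : ℤ) ∣ r - s ∨ (L : ℤ) ∣ r - (s - 1) := by
    rcases hu with rfl | rfl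
    · exact h.mx_dvd hy ((mi _).1 h1)
    · exact h.mx_dvd hz ((mj _).1 h1)
  rcases h3 with e | e
  · exact hv (h.cell2 hij ((mi _).2 (h.mx0 hy)) ((mj _).2 (h.mx0 hz))
      (h.mx_per (self_mem_Gm _ _) h2 e))
  · exact hv (h.cell2 hij ((mi _).2 (h.mx1 hy)) ((mj _).2 (h.mx1 hz))
      (h.mx_per (self_mem_Gm _ _) h2 e))

theorem ex (s : ℤ) : ∃ p, Ct a f x p s := by
  obtain ⟨i, j, hij, e⟩ := h.kc.cell s
  obtain ⟨y, hy, h1 | h1⟩ := h.of_mx (self_mem_Gm a i) ((e i).2 (Or.inl rfl))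
  · exact ⟨y, h1⟩
  obtain ⟨z, hz, h2 | h2⟩ := h.of_mx (self_mem_Gm a j) ((e j).2 (Or.inr rfl))
  · exact ⟨z, h2⟩
  exact absurd (idx_eq (pm_trans (pm_symm hy) (pm_trans (h.uniq h2 h1) hz))) hij

theorem nb {y v : V} {t : ℤ} (hy : Ct a f x y t) (hv : v ∈ Gm a) (hA : Adj f y v) :
    v = x (t - 1) ∨ v = x t ∨ v = x (t + 1) ∨ Ct a f x v (t - 1) ∨ Ct a f x v (t + 1) := by
  have h4 := h.four
  by_cases ho : Off a x v
  · obtain ⟨u, hu⟩ := h.ctr v ho
    have hu : Ct a f x v u := ⟨ho, hu⟩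
    obtain ⟨r, h1, h2, h3⟩ := h.kc.link y v hy.1 ho hA
    have same : ¬ (L : ℤ) ∣ u - t := fun e => by
      have m : Mx f x A B v t ∧ Mx f x A B v (t - 1) := by
        rcases h.cshift hu e with e | e
        · exact ⟨h.mx0 e, h.mx1 e⟩
        · exact ⟨mx_neg.1 (h.mx0 e), mx_neg.1 (h.mx1 e)⟩
      have := h.nd' (dt (h3 _ (h.mx0 hy) m.1) (h3 _ (h.mx1 hy) m.2)) (by omega) (by omega)
      omega
    rcases h.mx_dvd hy h1 with e | e <;> rcases h.mx_dvd hu h2 with e' | e'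
    · exact absurd (dc (dvd_sub e e') (by ring)) same
    · rcases h.cshift (s := t + 1) hu (dc (dvd_sub e e') (by ring)) with c | c
      · exact Or.inr (Or.inr (Or.inr (Or.inr c)))
      · exact (h.no3 (h.mem t) hy.1.1 hv hy.2.2.1 hA (by simpa using c.2.1)).elim
    · rcases h.cshift (s := t - 1) hu (dc (dvd_sub e e') (by ring)) with c | c
      · exact Or.inr (Or.inr (Or.inr (Or.inl c)))
      · exact (h.no3 (h.mem t) hy.1.1 hv hy.2.2.1 hA (by simpa using c.2.2.2)).elim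
    · exact absurd (dc (dvd_sub e e') (by ring)) same
  · obtain ⟨r, rfl⟩ : ∃ r, v = x r := by
      by_contra hc
      exact ho ⟨hv, fun s e => hc ⟨s, e⟩⟩
    have e := h.per2 (t - 1 + (r - (t - 1)) % (2 * L)) ((r - (t - 1)) / (2 * L))
    rw [add_assoc, Int.emod_add_mul_ediv, add_sub_cancel] at e
    have h1 := Int.emod_nonneg (r - (t - 1)) (b := 2 * L) (by omega)
    have h2 := Int.emod_lt_of_pos (r - (t - 1)) (b := 2 * L) (by omega)
    generalize (r - (t - 1)) % (2 * L) = m at e h1 h2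
    rw [e] at hA ⊢
    by_cases h3 : m < 3
    · have : m = 0 ∨ m = 1 ∨ m = 2 := by omega
      rcases this with rfl | rfl | rfl
      · simp
      · simp
      · exact Or.inr (Or.inr (Or.inl (by congr 1; ring)))
    by_cases h5 : m ≤ 2 * L - 3
    · exact absurd hA (h.kc.geo.d2 _ m y hy.1.1 (by omega) h5 hy.2.1)
    · rw [show t - 1 + m = t + 1 + (m - 2) by ring] at hA
      exact absurd hA (h.kc.geo.d2 _ _ y hy.1.1 (by omega) (by omega) hy.2.2.2)

theorem df_in {y : V} {s : ℤ} {l : κ} (hy : Ct a f x y s) (hl : l ∈ Df f y (x s)) :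
    In A B l (s - 1) ∨ In A B l s := by
  obtain ⟨r, hr⟩ := h.kc.cover l
  have : Mx f x A B y r := (h.p3 y hy.1 s r hy.2.2.1).2 
    (hr.imp (fun e : l = A r => e ▸ hl) fun e : l = B r => e ▸ hl)
  exact (h.mx_dvd hy this).symm.imp (h.in_per hr) (h.in_per hr)

theorem df_eq {y : V} {s : ℤ} (hy : Ct a f x y s) :
    ∃ d c, In A B d (s - 1) ∧ In A B c s ∧ Df f y (x s) = {d, c} := by
  have key : ∀ r, Mx f x A B y r → ∃ c, In A B c r ∧ c ∈ Df f y (x s) := fun r hr =>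
    ((h.p3 y hy.1 s r hy.2.2.1).1 hr).elim (fun e => ⟨_, Or.inl rfl, e⟩)
      fun e => ⟨_, Or.inr rfl, e⟩
  obtain ⟨d, hd, hd'⟩ := key _ (h.mx1 hy)
  obtain ⟨c, hc, hc'⟩ := key _ (h.mx0 hy)
  refine ⟨d, c, hd, hc, (Finset.eq_of_subset_of_card_le ?_ ?_).symm⟩
  · exact Finset.insert_subset hd' (Finset.singleton_subset_iff.2 hc')
  · rw [(h.adj _ hy.1.1 _ (h.mem s)).1 hy.2.2.1, Finset.card_pair]
    rintro rfl
    have := h.in_eq hd hc (by omega) (by omega)
    omega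

theorem in_other {c : κ} {s : ℤ} (hc : In A B c s) : ∃ c', In A B c' s ∧ c ≠ c' ∧
    ∀ y ∈ Gm a, ∀ t, Mx f x A B y s ↔ ¬ (c ∈ Df f y (x t) ↔ c' ∈ Df f y (x t)) := by
  rcases hc with rfl | rfl
  · exact ⟨_, Or.inr rfl, h.kc.ab _ _, fun y hy t => h.p2 y hy t s⟩
  · exact ⟨_, Or.inl rfl, (h.kc.ab _ _).symm, fun y hy t =>
      (h.p2 y hy t s).trans (not_congr Iff.comm)⟩

theorem df_pair {u v : V} (hu : u ∈ Gm a) (hv : v ∈ Gm a) (hA : Adj f u v) {c d : κ}
    (hc : c ∈ Df f u v) (hd : d ∈ Df f u v) (hcd : c ≠ d) : Df f u v = {c, d} :=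
  (Finset.eq_of_subset_of_card_le (Finset.insert_subset hc (Finset.singleton_subset_iff.2 hd))
    (by rw [(h.adj _ hu _ hv).1 hA, Finset.card_pair hcd])).symm

/-- Consecutive centres flip different coordinates. -/
theorem key {p q : V} {s : ℤ} {c : κ} (hp : Ct a f x p s) (hq : Ct a f x q (s + 1))
    (h1 : c ∈ Df f p (x s)) (h2 : c ∈ Df f q (x (s + 1))) : False := by
  have hc : In A B c s := by
    rcases h.df_in hp h1 with e | e
    · rcases h.df_in hq h2 with e' | e' <;>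
      · have := h.in_eq e e' (by omega) (by omega); omega
    · exact e
  obtain ⟨c', hc', hne, hm⟩ := h.in_other hc
  have n1 : c' ∉ Df f p (x s) := fun e => (hm p hp.1.1 s).1 (h.mx0 hp) (iff_of_true h1 e)
  have n2 : c' ∉ Df f q (x (s + 1)) := fun e =>
    (hm q hq.1.1 (s + 1)).1 (by simpa using h.mx1 hq) (iff_of_true h2 e)
  have nin : ∀ r, r ≠ s → s - 4 < r → r < s + 4 → ¬ In A B c' r := fun r e e1 e2 e3 =>
    e (h.in_eq e3 hc' e1 e2)
  have nct : ∀ {v : V} {r : ℤ}, Ct a f x v r → r ≠ s → r ≠ s + 1 → s - 3 < r → r < s + 4 →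
      c' ∉ Df f v (x r) := fun hv e1 e2 e3 e4 e =>
    (h.df_in hv e).elim (nin _ (by omega) (by omega) (by omega)) (nin _ e1 (by omega) e4)
  have tri : ∀ {u v w : V}, u ∈ Gm a → v ∈ Gm a → w ∈ Gm a → c' ∉ Df f u v →
      c' ∉ Df f v w → c' ∉ Df f u w := fun hu hv hw e1 e2 e => by
    rw [h.xor hu hv hw] at e; exact e (iff_of_false e1 e2)
  have m1 : c' ∉ Df f p (x (s - 1)) := tri hp.1.1 (h.mem _) (h.mem _) n1
    (by rw [h.step']; exact nin _ (by omega) (by omega) (by omega))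
  have m2 : c' ∉ Df f q (x (s + 1 + 1)) := tri hq.1.1 (h.mem _) (h.mem _) n2
    (by rw [h.step]; exact nin _ (by omega) (by omega) (by omega))
  have c1 : ∀ u v, (Ct a f x u s ∨ Ct a f x u (s + 1)) → (u = p ∨ u = q) → v ∈ Gm a →
      Adj f u v → c' ∈ Df f u v → ¬ Mx f x A B v s → v ≠ x s → u - v = p - x (s + 1) := by
    rintro u v - (rfl | rfl) hv hA hl hn hx
    · rcases h.nb hp hv hA with rfl | rfl | rfl | e | e
      · exact absurd hl m1
      · exact absurd rfl hx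
      · rfl
      · exact absurd hl (tri hp.1.1 (h.mem _) hv m1 (by
          rw [Df_comm]; exact nct e (by omega) (by omega) (by omega) (by omega)))
      · exact absurd (by simpa using h.mx1 e) hn
    · rcases h.nb hq hv hA with rfl | rfl | rfl | e | e
      · exact absurd (by simp) hx
      · exact absurd hl n2
      · exact absurd hl m2
      · exact absurd (h.mx0 (by simpa using e)) hn
      · exact absurd hl (tri hq.1.1 (h.mem _) hv m2 (by
          rw [Df_comm]; exact nct e (by omega) (by omega) (by omega) (by omega)))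
  have c2 : ∀ u v, u ∈ Gm a → v ∈ Gm a → Adj f u v → c' ∈ Df f u v → Mx f x A B u s →
      ¬ Mx f x A B v s → v ≠ x s → v ≠ -x s →
      (u - v = p - x (s + 1) ∨ u - v = -(p - x (s + 1))) := fun u v hu hv hA hl hm hn e1 e2 => by
    obtain ⟨z, hz, hz'⟩ := h.of_mx hu hm
    have : (u = p ∨ u = -p) ∨ u = q ∨ u = -q :=
      hz'.imp (fun e => pm_trans (pm_symm hz) (h.uniq hp e))
        fun e => pm_trans (pm_symm hz) (h.uniq hq e)
    have neg : ∀ w, (Ct a f x w s ∨ Ct a f x w (s + 1)) → (w = p ∨ w = q) → u = -w →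
        u - v = -(p - x (s + 1)) := fun w k1 k2 k3 => by
      subst k3
      rw [← c1 w (-v) k1 k2 (neg_mem_Gm hv) (by simpa using hA.neg)
        (by rw [← Df_neg, neg_neg]; exact hl) (mt mx_neg.1 hn)
        (fun e => e2 (by rw [← e, neg_neg]))]
      abel
    rcases this with (e | e) | e | e
    · exact Or.inl (c1 u v (Or.inl (e ▸ hp)) (Or.inl e) hv hA hl hn e1)
    · exact Or.inr (neg p (Or.inl hp) (Or.inl rfl) e)
    · exact Or.inl (c1 u v (Or.inr (e ▸ hq)) (Or.inr e) hv hA hl hn e1)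
    · exact Or.inr (neg q (Or.inr hq) (Or.inr rfl) e)
  have c3 : ∀ u v, u ∈ Gm a → v ∈ Gm a → Adj f u v → c' ∈ Df f u v → u ≠ x s → u ≠ -x s →
      v ≠ x s → v ≠ -x s → (u - v = p - x (s + 1) ∨ u - v = -(p - x (s + 1))) := by
    intro u v hu hv hA hl e1 e2 e3 e4
    by_cases hcc : c ∈ Df f u v
    · exfalso
      have hs := h.kc.geo.adj s
      rcases h.same _ hu _ hv _ (h.mem s) _ (h.mem _) hA hs ((h.df_pair hu hv hA hcc hl hne).trans
        (h.df_pair (h.mem _) (h.mem _) hs (h.step.2 hc) (h.step.2 hc') hne).symm) with e | e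
      · rcases par hu (h.mem (s + 1)) (h.mem s) hv (by linear_combination (norm := module) e)
          with e | e | e
        · exact e1 e.1
        · exact hA.1 e.1
        · exact e4 (by rw [e.2, neg_neg])
      · rcases par hu (h.mem s) (h.mem (s + 1)) hv (by linear_combination (norm := module) e)
          with e | e | e
        · exact e3 e.2.symm
        · exact hA.1 e.1
        · exact e2 e.1
    · have k := pxor (h.xor hu hv (h.mem s) c) (h.xor hu hv (h.mem s) c') (hm u hu s) (hm v hv s)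
        hcc hl
      by_cases mu : Mx f x A B u s
      · exact c2 u v hu hv hA hl mu (k.1 mu) e3 e4
      · have := c2 v u hv hu hA.symm (Df_comm f u v ▸ hl) (not_not.1 (mt k.2 mu)) mu e1 e2
        rw [← neg_sub v u]
        exact this.symm.imp (fun e => by rw [e, neg_neg]) fun e => by rw [e]
  obtain ⟨u, hu, v, hv, u', hu', v', hv', k1, k2, k3, k4, k5, k6, e1, e2, e3, e4, e5, e6, e7, e8⟩ :=
    h.five c' _ (h.mem s)
  rw [← neg_sub u' v'] at k6
  rcases c3 u v hu hv k1 k3 e1 e2 e3 e4 with e | e <;>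
    rcases c3 u' v' hu' hv' k2 k4 e5 e6 e7 e8 with e' | e' <;> simp [e, e'] at k5 k6

/-- The two block coordinates separate the block from the other joints. -/
theorem block {p y : V} {s : ℤ} {d c : κ} (hp : Ct a f x p s) (hd : In A B d (s - 1))
    (hc : In A B c s) (hD : Df f p (x s) = {d, c}) (hy : y ∈ Gm a)
    (h1 : ¬ (y = x s ∨ y = -x s)) (h2 : ¬ (y = p ∨ y = -p)) :
    ¬ (d ∈ Df f y (x s) ↔ c ∈ Df f y (x s)) := by
  have h4 := h.four
  have hdp : d ∈ Df f p (x s) := by simp [hD]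
  have hcp : c ∈ Df f p (x s) := by simp [hD]
  have red : ∀ t, ∃ r, s - 1 ≤ r ∧ r < s - 1 + L ∧ (L : ℤ) ∣ t - r := fun t =>
    ⟨s - 1 + (t - (s - 1)) % L, by have := Int.emod_nonneg (t - (s - 1)) (b := L); omega,
      by have := Int.emod_lt_of_pos (t - (s - 1)) (b := L); omega,
      dc (Int.dvd_self_sub_emod (x := t - (s - 1))) (by ring)⟩
  have geo : ∀ r, s - 1 ≤ r → r < s - 1 + L → r ≠ s →
      ¬ (d ∈ Df f (x r) (x s) ↔ c ∈ Df f (x r) (x s)) := fun r e1 e2 e3 => by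
    rw [Df_comm]
    rcases e1.eq_or_lt with rfl | e1
    · rw [h.step', h.step']
      intro e
      have := h.in_eq (e.1 hd) hc (by omega) (by omega)
      omega
    have k : ∀ l t, In A B l t → (l ∈ Df f (x s) (x r) ↔
        ∃ r', s ≤ r' ∧ r' < r ∧ (L : ℤ) ∣ t - r') := by
      rintro l t (rfl | rfl)
      · exact (h.p1 s r t (by omega) (by omega)).1
      · exact (h.p1 s r t (by omega) (by omega)).2.trans (h.p1 s r t (by omega) (by omega)).1
    rw [k _ _ hd, k _ _ hc]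
    intro e
    obtain ⟨r', k1, k2, k3⟩ := e.2 ⟨s, le_rfl, by omega, by simp⟩
    have := h.nd k3 (by omega) (by omega)
    omega
  suffices H : ∃ z, (z = y ∨ z = -y) ∧ ¬ (d ∈ Df f z (x s) ↔ c ∈ Df f z (x s)) by
    obtain ⟨z, rfl | rfl, H⟩ := H
    · exact H
    · rw [h.negl hy (h.mem s), h.negl hy (h.mem s)] at H
      tauto
  by_cases ho : Off a x y
  · obtain ⟨t, ht⟩ := h.ctr y ho
    obtain ⟨r, e1, e2, e3⟩ := red t
    obtain ⟨z, hz, hz'⟩ : ∃ z, (z = y ∨ z = -y) ∧ Ct a f x z r :=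
      (h.cshift ⟨ho, ht⟩ e3).elim (fun e => ⟨_, Or.inl rfl, e⟩) fun e => ⟨_, Or.inr rfl, e⟩
    have hr : r ≠ s := by
      rintro rfl
      exact h2 (pm_trans (pm_symm hz) (h.uniq hp hz'))
    have nd : d ∉ Df f z (x r) := fun e => by
      rcases h.df_in hz' e with k | k <;> have := h.nd (h.in_dvd hd k) (by omega) (by omega)
      · omega
      · obtain rfl : s = r + 1 := by omega
        exact h.key hz' hp e hdp
    have nc : c ∉ Df f z (x r) := fun e => by
      rcases h.df_in hz' e with k | k <;> have := h.nd (h.in_dvd hc k) (by omega) (by omega)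
      · obtain rfl : r = s + 1 := by omega
        exact h.key hp hz' hcp e
      · omega
    refine ⟨z, hz, ?_⟩
    have := geo r e1 e2 hr
    rw [h.xor hz'.1.1 (h.mem r) (h.mem s), h.xor hz'.1.1 (h.mem r) (h.mem s)]
    tauto
  · obtain ⟨t, rfl⟩ : ∃ r, y = x r := by
      by_contra hc
      exact ho ⟨hy, fun s e => hc ⟨s, e⟩⟩
    obtain ⟨r, e1, e2, k, e3⟩ := red t
    have hz : x t = x r ∨ x t = -x r := by
      rw [show t = r + L * k by omega]
      exact (h.shift k).imp (· r) (· r)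
    exact ⟨x r, pm_symm hz, geo r e1 e2 (by rintro rfl; exact h1 hz)⟩

theorem inblock {p y : V} {s : ℤ} {d c : κ} (hp : p ∈ Gm a) (hD : Df f p (x s) = {d, c})
    (hy : (y = x s ∨ y = -x s) ∨ y = p ∨ y = -p) : d ∈ Df f y (x s) ↔ c ∈ Df f y (x s) := by
  rcases hy with (rfl | rfl) | rfl | rfl
  · simp [mem_Df]
  · rw [h.negl (h.mem s) (h.mem s), h.negl (h.mem s) (h.mem s)]; simp [mem_Df]
  · simp [hD]
  · rw [h.negl hp (h.mem s), h.negl hp (h.mem s)]; simp [hD]

theorem ineq {p : V} {s : ℤ} {d c : κ} {i j : ι} (hp : Ct a f x p s) (hd : In A B d (s - 1))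
    (hc : In A B c s) (hD : Df f p (x s) = {d, c}) (hi : x s = a i ∨ x s = -a i)
    (hj : p = a j ∨ p = -a j) (hij : i ≠ j) {e : V} (he : e ∈ EE a f) :
    (({d, c} : Finset κ).filter fun l => f.repr e l ≠ 0).card ≤
      (({i, j} : Finset ι).filter fun m => a.repr e m ≠ 0).card := by
  by_cases h0 : e = 0
  · simp [h0]
  obtain ⟨u, hu, v, hv, hA, rfl⟩ := h.edge e he h0
  have hdc : d ≠ c := by
    rintro rfl
    have := h.in_eq hd hc (by omega) (by omega)
    omega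
  have hm : ∀ l, f.repr (u - v) l ≠ 0 ↔ l ∈ Df f u v := fun l => by
    rw [mem_Df, map_sub, Finsupp.sub_apply, sub_ne_zero]
  simp only [hm]
  by_cases hb : d ∈ Df f u v ↔ c ∈ Df f u v
  · by_cases hb' : d ∈ Df f u v
    · have k : a.repr (p - x s) i ≠ 0 ∧ a.repr (p - x s) j ≠ 0 := by
        rcases hi with e | e <;> rcases hj with e' | e' <;>
          simp [e, e', single_ne hij, single_ne hij.symm]
      have k' : a.repr (u - v) i ≠ 0 ∧ a.repr (u - v) j ≠ 0 := by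
        rcases h.same _ hu _ hv _ hp.1.1 _ (h.mem s) hA hp.2.2.1
          ((h.df_pair hu hv hA hb' (hb.1 hb') hdc).trans hD.symm) with e | e
        · rw [e]; exact k
        · rw [e, ← neg_sub]; simpa only [map_neg, Finsupp.neg_apply, neg_ne_zero] using k
      rw [Finset.filter_true_of_mem (s := {i, j}) (by simpa using k'), Finset.card_pair hij]
      exact (Finset.card_filter_le _ _).trans Finset.card_le_two
    · rw [Finset.filter_false_of_mem (by simpa [← hb] using hb')]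
      simp
  · have one : ∀ y z, y ∈ Gm a → z ∈ Gm a → ((y = x s ∨ y = -x s) ∨ y = p ∨ y = -p) →
        ¬ ((z = x s ∨ z = -x s) ∨ z = p ∨ z = -p) →
        ∃ m ∈ ({i, j} : Finset ι), a.repr y m ≠ a.repr z m := fun y z hy hz k1 k2 => by
      have k : ∀ w m, (w = a m ∨ w = -a m) → (y = w ∨ y = -w) → ¬ (z = w ∨ z = -w) →
          a.repr y m ≠ a.repr z m := fun w m e1 e2 e3 => by
        obtain ⟨n, hn⟩ := mem_Gm_iff.1 hz
        have : n ≠ m := by
          rintro rfl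
          exact e3 (pm_trans hn (pm_symm e1))
        rcases pm_trans e2 e1 with rfl | rfl <;> rcases hn with rfl | rfl <;>
          simp [single_ne this]
      rcases k1 with k1 | k1
      · exact ⟨i, by simp, k _ _ hi k1 fun e => k2 (Or.inl e)⟩
      · exact ⟨j, by simp, k _ _ hj k1 fun e => k2 (Or.inr e)⟩
    have k : ∃ m ∈ ({i, j} : Finset ι), a.repr u m ≠ a.repr v m := by
      rw [h.xor hu (h.mem s) hv, h.xor hu (h.mem s) hv, Df_comm f (x s)] at hb
      by_cases bu : (u = x s ∨ u = -x s) ∨ u = p ∨ u = -p <;>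
        by_cases bv : (v = x s ∨ v = -x s) ∨ v = p ∨ v = -p
      · exact absurd (by rw [h.inblock hp.1.1 hD bu, h.inblock hp.1.1 hD bv]) hb
      · exact one u v hu hv bu bv
      · exact (one v u hv hu bv bu).imp fun m e => ⟨e.1, e.2.symm⟩
      · have k1 := h.block hp hd hc hD hu (fun e => bu (Or.inl e)) fun e => bu (Or.inr e)
        have k2 := h.block hp hd hc hD hv (fun e => bv (Or.inl e)) fun e => bv (Or.inr e)
        clear * - hb k1 k2
        tauto
    obtain ⟨m, hm1, hm2⟩ := k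
    refine le_trans ?_ (Finset.card_pos.2 ⟨m, Finset.mem_filter.2 ⟨hm1, by
      rwa [map_sub, Finsupp.sub_apply, sub_ne_zero]⟩⟩)
    refine Finset.card_le_one.2 fun l hl l' hl' => ?_
    simp only [Finset.mem_filter, Finset.mem_insert, Finset.mem_singleton] at hl hl'
    obtain ⟨rfl | rfl, k1⟩ := hl <;> obtain ⟨rfl | rfl, k2⟩ := hl'
    · rfl
    · exact absurd (iff_of_true k1 k2) hb
    · exact absurd (iff_of_true k2 k1) hb
    · rfl

theorem fin (hmix : S_MIX) (s : ℤ) : Succ (Tset a) (Tset f) := by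
  obtain ⟨p, hp⟩ := h.ex s
  obtain ⟨q, hq⟩ := h.ex (s + 1)
  obtain ⟨d, c, hd, hc, hD⟩ := h.df_eq hp
  obtain ⟨d', c', hd', hc', hD'⟩ := h.df_eq hq
  obtain ⟨i, hi⟩ := mem_Gm_iff.1 (h.mem s)
  obtain ⟨j, hj⟩ := mem_Gm_iff.1 hp.1.1
  obtain ⟨i', hi'⟩ := mem_Gm_iff.1 (h.mem (s + 1))
  obtain ⟨j', hj'⟩ := mem_Gm_iff.1 hq.1.1
  have ne : ∀ {l l' : κ} {r r' : ℤ}, In A B l r → In A B l' r' → r < r' → r' < r + 4 → l ≠ l' := by
    rintro l _ r r' e e' e1 e2 rfl
    have := h.in_eq e e' (by omega) (by omega)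
    omega
  have n1 : d ≠ c := ne hd hc (by omega) (by omega)
  have n2 : d ≠ d' := ne hd hd' (by omega) (by omega)
  have n3 : d ≠ c' := ne hd hc' (by omega) (by omega)
  have n4 : c ≠ d' := by
    rintro rfl
    exact h.key (c := c) hp hq (by simp [hD]) (by simp [hD'])
  have n5 : c ≠ c' := ne hc hc' (by omega) (by omega)
  have n6 : d' ≠ c' := ne hd' hc' (by omega) (by omega)
  have g0 := h.mem s
  have g1 := h.mem (s + 1)
  have s1 : d ∉ Df f (x (s + 1)) (x s) := by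
    rw [Df_comm, h.step]; exact fun e => ne hd e (by omega) (by omega) rfl
  have s2 : c ∈ Df f (x (s + 1)) (x s) := by rw [Df_comm, h.step]; exact hc
  have s3 : d' ∈ Df f (x (s + 1)) (x s) := by rw [Df_comm, h.step]; simpa using hd'
  have s4 : c' ∉ Df f (x (s + 1)) (x s) := by
    rw [Df_comm, h.step]; exact fun e => ne e hc' (by omega) (by omega) rfl
  have t1 : d ∉ Df f q (x s) := by rw [h.xor hq.1.1 g1 g0]; simp [hD', s1, n2, n3]
  have t2 : c ∈ Df f q (x s) := by rw [h.xor hq.1.1 g1 g0]; simp [hD', s2, n4, n5]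
  have t3 : d' ∉ Df f q (x s) := by rw [h.xor hq.1.1 g1 g0]; simp [hD', s3]
  have t4 : c' ∈ Df f q (x s) := by rw [h.xor hq.1.1 g1 g0]; simp [hD', s4]
  have off : ∀ {y : V} {m n : ι} {r : ℤ}, Off a x y → (x r = a m ∨ x r = -a m) →
      (y = a n ∨ y = -a n) → m ≠ n := by
    rintro y m _ r hy e e' rfl
    rcases pm_trans e' (pm_symm e) with k | k
    · exact hy.2 _ k
    · exact hy.2 (r + L) (by rw [h.kc.geo.anti, k])
  have m1 : i ≠ j := off hp.1 hi hj
  have m2 : i ≠ i' := by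
    rintro rfl
    exact s1 ((h.inblock hp.1.1 hD (Or.inl (pm_trans hi' (pm_symm hi)))).2 s2)
  have m3 : i ≠ j' := off hq.1 hi hj'
  have m4 : j ≠ i' := (off hp.1 hi' hj).symm
  have m5 : j ≠ j' := by
    rintro rfl
    exact t1 ((h.inblock hp.1.1 hD (Or.inr (pm_trans hj' (pm_symm hj)))).2 t2)
  have m6 : i' ≠ j' := off hq.1 hi' hj'
  have dI : Disjoint ({i, j} : Finset ι) {i', j'} := by
    simp [m2.symm, m3.symm, m4.symm, m5.symm]
  have dK : Disjoint ({d, c} : Finset κ) {d', c'} := by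
    simp [n2.symm, n3.symm, n4.symm, n5.symm]
  have cI : (({i, j} : Finset ι) ∪ {i', j'}).card = 4 := by
    rw [Finset.card_union_of_disjoint dI, Finset.card_pair m1, Finset.card_pair m6]
  refine hmix a f ({i, j} ∪ {i', j'}) ({d, c} ∪ {d', c'}) ?_ ⟨d, by simp⟩ (fun e => ?_)
    (fun e he => ?_) fun w hw hz => ?_
  · rw [cI, Finset.card_union_of_disjoint dK, Finset.card_pair n1, Finset.card_pair n6]
  · have := h.kc.af.eight
    rw [e, Finset.card_univ] at cI
    omega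
  · rw [Finset.filter_union, Finset.filter_union,
      Finset.card_union_of_disjoint (Finset.disjoint_filter_filter dI)]
    exact (Finset.card_union_le _ _).trans
      (add_le_add (h.ineq hp hd hc hD hi hj m1 he) (h.ineq hq hd' hc' hD' hi' hj' m6 he))
  · have sc : ∀ {y : V} {m : ι}, (y = a m ∨ y = -a m) → ∀ t : F, ∃ t' : F, t • a m = t' • y := by
      rintro _ m (rfl | rfl) t
      · exact ⟨t, rfl⟩
      · exact ⟨-t, by simp⟩
    obtain ⟨α, hα⟩ := sc hi (a.repr w i)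
    obtain ⟨β, hβ⟩ := sc hj (a.repr w j)
    obtain ⟨γ, hγ⟩ := sc hi' (a.repr w i')
    obtain ⟨δ, hδ⟩ := sc hj' (a.repr w j')
    have e : w = α • x s + β • p + (γ • x (s + 1) + δ • q) := by
      rw [← hα, ← hβ, ← hγ, ← hδ, ← Finset.sum_pair (f := fun m => a.repr w m • a m) m1,
        ← Finset.sum_pair (f := fun m => a.repr w m • a m) m6, ← Finset.sum_union dI,
        Finset.sum_subset (Finset.subset_univ _) fun m _ hm => by rw [hw m hm, zero_smul],
        a.sum_repr]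
    have pos : ∀ {y : V} {l : κ}, l ∉ Df f y (x s) → f.repr y l = f.repr (x s) l :=
      fun e => not_not.1 (mt mem_Df.2 e)
    have neg : ∀ {y : V} {l : κ}, y ∈ Gm a → l ∈ Df f y (x s) →
        f.repr y l = -f.repr (x s) l := fun {y l} hy e => by
      have := pos (y := -y) (by rw [h.negl hy g0, not_not]; exact e)
      rw [← this]; simp
    have z1 := hz d (by simp)
    have z2 := hz c (by simp)
    have z3 := hz d' (by simp)
    have z4 := hz c' (by simp)
    simp only [e, map_add, map_smul, Finsupp.add_apply, Finsupp.smul_apply, smul_eq_mul]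
      at z1 z2 z3 z4
    rw [neg (l := d) hp.1.1 (by simp [hD]), pos s1, pos t1] at z1
    rw [neg (l := c) hp.1.1 (by simp [hD]), neg g1 s2, neg hq.1.1 t2] at z2
    rw [pos (l := d') (y := p) (by simp [hD, n2.symm, n4.symm]), neg g1 s3, pos t3] at z3
    rw [pos (l := c') (y := p) (by simp [hD, n3.symm, n5.symm]), pos s4, neg hq.1.1 t4] at z4
    have y1 := h.nz g0 d
    have y2 := h.nz g0 c
    have y3 := h.nz g0 d'
    have y4 := h.nz g0 c'
    have k : α = 0 ∧ β = 0 ∧ γ = 0 ∧ δ = 0 := by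
      have cancel : ∀ {t u v : F}, u ≠ 0 → v = 0 → v = t * u → t = 0 := fun e1 e2 e3 =>
        (mul_eq_zero.1 (e3 ▸ e2)).resolve_right e1
      have k1 := cancel (t := α - β + γ + δ) y1 z1 (by ring)
      have k2 := cancel (t := α - β - γ - δ) y2 z2 (by ring)
      have k3 := cancel (t := α + β - γ + δ) y3 z3 (by ring)
      have k4 := cancel (t := α + β + γ - δ) y4 z4 (by ring)
      clear * - k1 k2 k3 k4
      revert α β γ δ; decide
    simp [e, k]

end Cx

end Rng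

theorem s_rng (hAFB : S_AFB) (hPOS : S_POS) (hMIX : S_MIX) : S_RNG := by
  intro V _ _ ι κ _ _ _ _ a f x L A B hK H
  obtain ⟨h1, h2, h3, -, h5⟩ := hAFB a f hK.af
  obtain ⟨p1, p2, p3, p4⟩ := hPOS a f x L A B hK
  exact Rng.Cx.fin ⟨hK, h1, h2, h3, h5, p1, p2, p3, p4, H⟩ hMIX 0

end Pool.Agent.P.MP_053557_co
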