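import Pool.Agent.P.MP_053557_co.Stmts2

/-! The rotation step in the decomposition of a triangular move. -/

namespace Pool.Agent.P.MP_053557_co

open Module Submodule

namespace Rots

set_option linter.unusedSectionVars false

variable {V : Type} [AddCommGroup V] [Module F V] {ι : Type} [Fintype ι] [DecidableEq ι]

theorem mem_span_coord (a : Basis ι F V) (S : Set ι) (φ : V →ₗ[F] F) :
    φ ∈ span F (a.coord '' S) ↔ ∀ i, i ∉ S → φ (a i) = 0 := by
  constructor
  · intro h i hi
    induction h using Submodule.span_induction with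
    | mem x hx =>
      obtain ⟨j, hj, rfl⟩ := hx
      have : i ≠ j := fun hc => hi (hc ▸ hj)
      simpa using repr_basis_ne a this
    | zero => simp
    | add x y _ _ hx hy => simp [hx, hy]
    | smul c x _ hx => simp [hx]
  · intro h
    have : φ = ∑ i, φ (a i) • a.coord i := by
      refine a.ext fun j => ?_
      simp
    rw [this]
    refine sum_mem fun i _ => ?_
    by_cases hi : i ∈ S
    · exact smul_mem _ _ (subset_span ⟨i, hi, rfl⟩)
    · rw [h i hi, zero_smul]; exact zero_mem _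

theorem span_coord_apply (a : Basis ι F V) (S : Set ι) {φ : V →ₗ[F] F}
    (h : φ ∈ span F (a.coord '' S)) {x : V} (hx : ∀ i ∈ S, a.repr x i = 0) : φ x = 0 := by
  rw [map_eq_sum a φ x]
  refine Finset.sum_eq_zero fun i _ => ?_
  by_cases hi : i ∈ S
  · simp [hx i hi]
  · simp [(mem_span_coord a S φ).1 h i hi]

theorem coord_eq_iff (a b : Basis ι F V) (v : ι) :
    b.coord v = a.coord v ↔ ∀ i, b.repr (a i) v = if i = v then 1 else 0 := by
  constructor
  · intro h i
    have := congrArg (fun φ : V →ₗ[F] F => φ (a i)) h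
    simpa [Finsupp.single_apply] using this
  · intro h
    refine a.ext fun i => ?_
    simp [h i, Finsupp.single_apply]

theorem core_col {k : ℕ} {Z : Matrix (Fin k) (Fin k) F} (h : Core k Z) (i : Fin k) :
    ∃ l l', l ≠ l' ∧ Z l i ≠ 0 ∧ Z l' i ≠ 0 := by
  cases h <;> revert i <;> decide

/-! ### The pure rotation -/

theorem exists_rot (c : Basis ι F V) (z : ι) (J K : Finset ι) (τ : ι → ι) (hJ : z ∉ J)
    (hK : z ∉ K) (hJK : Disjoint J K) (hτ : ∀ v ∈ K, τ v ∈ J) :
    ∃ g : Basis ι F V, StarOp c.coord g.coord ∧ ∀ i, g i =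
      if i ∈ J then c i - c z else if i ∈ K then c i + c (τ i) + c z else c i := by
  let φ : ι → V →ₗ[F] F := fun i => if i = z then c.coord z + ∑ v ∈ J ∪ K, c.coord v
    else c.coord i - ∑ v ∈ K.filter fun v => τ v = i, c.coord v
  let w : ι → V := fun i =>
    if i ∈ J then c i - c z else if i ∈ K then c i + c (τ i) + c z else c i
  have hφ : ∀ j i, φ j (c i) = if j = z then
      ((if i = z then 1 else 0) + if i ∈ J ∨ i ∈ K then 1 else 0)
      else ((if i = j then 1 else 0) - if i ∈ K ∧ τ i = j then 1 else 0) := by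
    intro j i
    by_cases hj : j = z
    · simp [φ, hj, Finsupp.single_apply]
    · simp [φ, hj, Finsupp.single_apply]
  have hdis : ∀ i, i ∈ J → i ∉ K := fun i hi => Finset.disjoint_left.1 hJK hi
  have hbi : ∀ j i, φ j (w i) = if i = j then 1 else 0 := by
    intro j i
    by_cases hi : i ∈ J
    · have hiz : i ≠ z := fun hc => hJ (hc ▸ hi)
      have hiK := hdis i hi
      by_cases hj : j = z
      · simp [w, hi, hφ, hj, hiz, hJ, hK]
      · simp [w, hi, hφ, hj, hiK, hK, Ne.symm hj]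
    by_cases hi' : i ∈ K
    · have hiz : i ≠ z := fun hc => hK (hc ▸ hi')
      have h1 := hτ i hi'
      have h2 : τ i ≠ z := fun hc => hJ (hc ▸ h1)
      have h3 := hdis _ h1
      by_cases hj : j = z
      · simp only [w, hi, hi', if_true, if_false, map_add, hφ, hj, hiz, h2, h1, hJ, hK]
        simp only [or_true, true_or, or_self, if_true, if_false]
        decide
      · simp [w, hi, hi', hφ, hj, h3, hK, Ne.symm hj]
    · by_cases hj : j = z
      · simp [w, hi, hi', hφ, hj]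
      · simp [w, hi, hi', hφ, hj]
  have hli : LinearIndependent F w :=
    LinearIndependent.of_pairwise_dual_eq_zero_one w φ
      (fun i j hij => by simp [hbi, Ne.symm hij]) fun i => by simp [hbi]
  have : Nonempty ι := ⟨z⟩
  let g : Basis ι F V :=
    basisOfLinearIndependentOfCardEqFinrank hli (finrank_eq_card_basis c).symm
  have hg : ∀ i, g i = w i := fun i => by simp [g]
  refine ⟨g, ?_, hg⟩
  have hc : g.coord = φ := by
    funext j
    refine g.ext fun i => ?_
    rw [hg i, hbi, ← hg i]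
    simp [Finsupp.single_apply]
  rw [hc]
  exact StarOp.rotate c.coord z J K τ hJ hK hJK hτ

/-! ### Facts on triangular moves -/

section facts

variable {a b : Basis ι F V} {C : Set ι} {r : ι → ℕ}

theorem tri1 (h : TMb a b C r) {p : ι} (hp : p ∉ C) : b.repr (a p) p = 1 := by
  have := (mem_span_coord a _ _).1 (h.tri p hp) p (by simp)
  simpa [sub_eq_zero] using this

theorem tri2 (h : TMb a b C r) {p i : ι} (hp : p ∉ C) (hi : i ≠ p) (hne : b.repr (a i) p ≠ 0) :
    i ∉ C ∧ r i < r p := by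
  by_contra hc
  have := (mem_span_coord a _ _).1 (h.tri p hp) i hc
  simp [single_ne hi] at this
  exact hne this

theorem core_not (h : TMb a b C r) {i : ι} (hi : i ∈ C) : a i ∉ Tset b := by
  rcases h.core with h0 | ⟨k, Z, x, hZ, hx, h1⟩
  · simp [h0] at hi
  · intro ht
    obtain ⟨m, rfl⟩ : i ∈ Set.range x := hx ▸ hi
    have key : ∀ l, b.repr (a (x m)) (x l) = Z l m := by
      intro l
      have := (mem_span_coord a _ _).1 (h1 l) (x m) (by simpa using hi)
      simpa [sub_eq_zero, Finsupp.single_apply] using this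
    obtain ⟨l, l', hl, h2, h3⟩ := core_col hZ m
    exact hl (x.injective ((mem_Tset_iff b).1 ht _ _ (key l ▸ h2) (key l' ▸ h3)))

theorem lit_repr {v : ι} (h : Lit a b C v) (x : V) : b.repr x v = a.repr x v := by
  simpa using congrArg (fun φ : V →ₗ[F] F => φ x) h.2

theorem lev_not_lit {p : ι} (h : Lev1 a b C p) : ¬ Lit a b C p := fun hc => h.2.1 hc.2

theorem lev_repr {p : ι} (h : Lev1 a b C p) {x : V} (hx : ∀ w, Lit a b C w → a.repr x w = 0) :
    b.repr x p = a.repr x p := by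
  simpa [sub_eq_zero] using span_coord_apply a _ h.2.2 (x := x) hx

theorem lev_basis {p i : ι} (h : Lev1 a b C p) (hi : ¬ Lit a b C i) :
    b.repr (a i) p = if i = p then 1 else 0 := by
  rw [lev_repr h (x := a i) fun w hw => repr_basis_ne a fun hc => hi (hc ▸ hw), repr_basis]

theorem lev_bad {p : ι} (h : Lev1 a b C p) : ∃ v, Bad a b C p v := by
  by_contra hc
  push Not at hc
  refine h.2.1 ((coord_eq_iff a b p).2 fun i => ?_)
  by_cases hi : Lit a b C i
  · have hip : i ≠ p := fun he => lev_not_lit h (he ▸ hi)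
    rw [if_neg hip]
    by_contra h0
    exact hc i ⟨h, hi, h0⟩
  · exact lev_basis h hi

theorem exists_lev (h : TMb a b C r) (hex : ∃ p, p ∉ C ∧ ¬ Lit a b C p) : ∃ p, Lev1 a b C p := by
  classical
  obtain ⟨p0, hp0⟩ := hex
  obtain ⟨p, hp, hmin⟩ := Finset.exists_min_image
    (Finset.univ.filter fun p => p ∉ C ∧ ¬ Lit a b C p) r ⟨p0, by simpa using hp0⟩
  simp only [Finset.mem_filter, Finset.mem_univ, true_and] at hp hmin
  refine ⟨p, hp.1, fun hc => hp.2 ⟨hp.1, hc⟩, span_mono (Set.image_mono ?_) (h.tri p hp.1)⟩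
  intro q hq
  by_contra hc
  exact absurd (hmin q ⟨hq.1, hc⟩) (not_le.2 hq.2)

/-- The difference vector of a non literal index is killed by literal stars. -/
theorem diff_lit {p w : ι} (hw : Lit a b C w) : a.repr (a p - b p) w = 0 := by
  rw [map_sub, Finsupp.sub_apply, ← lit_repr hw (b p), repr_basis, repr_basis, sub_self]

theorem diff_lev {p w : ι} (hp : ¬ Lit a b C p) (hw : Lev1 a b C w) :
    b.repr (a p - b p) w = 0 := by
  rw [map_sub, Finsupp.sub_apply, lev_basis hw hp, repr_basis, sub_self]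

/-- The common joint attached to an index of level one. -/
theorem lev_joint (h : TMb a b C r) (hrig : ∀ p v, Bad a b C p v → Rig a b p v) {p : ι}
    (hp : Lev1 a b C p) : ∃ ζ, ∃ c : F, c ≠ 0 ∧ ζ ∉ C ∧ ¬ Lit a b C ζ ∧ ¬ Lev1 a b C ζ ∧
      a ζ = b ζ ∧ a p - b p = c • a ζ := by
  obtain ⟨v, hv⟩ := lev_bad hp
  obtain ⟨h1, h2, h3, -⟩ := hrig p v hv
  obtain ⟨ζ, hζ⟩ := exists_repr_ne a (sub_ne_zero.2 h1)
  have h4 := Tset_eq_smul a h2 hζ
  set c := a.repr (a p - b p) ζ with hc
  have h5 : a ζ = c • (a p - b p) := by rw [h4, smul_smul, F_sq hζ, one_smul]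
  have h6 : a ζ ∈ Tset b := h5 ▸ smul_mem_Tset c h3
  have h7 : ζ ∉ C := fun hc => core_not h hc h6
  refine ⟨ζ, c, hζ, h7, fun hl => hζ (diff_lit hl), fun hl => hζ ?_, ?_, h4⟩
  · rw [hc, ← lev_repr hl fun w hw => diff_lit hw]
    exact diff_lev (lev_not_lit hp) hl
  · have := Tset_eq_smul b h6 (i := ζ) (by rw [tri1 h h7]; exact one_ne_zero)
    rwa [tri1 h h7, one_smul] at this

end facts

/-! ### The pivot -/

/-- The data of the pivot index. -/
structure Ctx (a b : Basis ι F V) (C : Set ι) (r : ι → ℕ) (γ : ι) : Prop where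
  tm : TMb a b C r
  rig : ∀ p v, Bad a b C p v → Rig a b p v
  nC : γ ∉ C
  nLit : ¬ Lit a b C γ
  nLev : ¬ Lev1 a b C γ
  eq : a γ = b γ
  low : ∀ i, i ≠ γ → b.repr (a i) γ ≠ 0 → Lit a b C i ∨ Lev1 a b C i
  ex : ∃ p, Lev1 a b C p ∧ ∃ c : F, c ≠ 0 ∧ a p - b p = c • a γ

def J1 (a b : Basis ι F V) (C : Set ι) (γ p : ι) : Prop :=
  Lev1 a b C p ∧ ∃ c : F, c ≠ 0 ∧ a p - b p = c • a γ

def J0 (a b : Basis ι F V) (C : Set ι) (γ v : ι) : Prop :=
  Lit a b C v ∧ ∃ c : F, c ≠ 0 ∧ a v - b v = c • a γ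

def KK (a b : Basis ι F V) (C : Set ι) (γ v : ι) : Prop :=
  Lit a b C v ∧ ∃ p, J1 a b C γ p ∧ ∃ c : F, c ≠ 0 ∧ a v - b v = c • (a p + b p)

def SS (a b : Basis ι F V) (C : Set ι) (γ i : ι) : Prop :=
  J1 a b C γ i ∨ J0 a b C γ i ∨ KK a b C γ i

section main

variable {a b : Basis ι F V} {C : Set ι} {r : ι → ℕ} {γ : ι}

theorem exists_ctx (h : TMb a b C r) (hrig : ∀ p v, Bad a b C p v → Rig a b p v)
    (hex : ∃ p, p ∉ C ∧ ¬ Lit a b C p) : ∃ γ, Ctx a b C r γ := by
  classical
  obtain ⟨p0, hp0⟩ := exists_lev h hex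
  obtain ⟨ζ0, -, -, h1, h2, h3, -, -⟩ := lev_joint h hrig hp0
  obtain ⟨γ, hγ, hmin⟩ := Finset.exists_min_image
    (Finset.univ.filter fun p => p ∉ C ∧ ¬ Lit a b C p ∧ ¬ Lev1 a b C p) r
    ⟨ζ0, by simpa using ⟨h1, h2, h3⟩⟩
  simp only [Finset.mem_filter, Finset.mem_univ, true_and] at hγ hmin
  have hlow : ∀ i, i ≠ γ → b.repr (a i) γ ≠ 0 → Lit a b C i ∨ Lev1 a b C i := by
    intro i hi hne
    obtain ⟨h4, h5⟩ := tri2 h hγ.1 hi hne
    by_contra hc
    push Not at hc
    exact absurd (hmin i ⟨h4, hc.1, hc.2⟩) (not_le.2 h5)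
  have hp : ∃ p, Lev1 a b C p ∧ b.repr (a p) γ ≠ 0 := by
    by_contra hc
    push Not at hc
    refine hγ.2.2 ⟨hγ.1, fun he => hγ.2.1 ⟨hγ.1, he⟩, (mem_span_coord a _ _).2 fun i hi => ?_⟩
    by_cases hig : i = γ
    · subst hig; simp [tri1 h hγ.1]
    · have : b.repr (a i) γ = 0 := by
        by_contra h0
        rcases hlow i hig h0 with h6 | h6
        · exact hi h6
        · exact h0 (hc i h6)
      simp [this, single_ne hig]
  obtain ⟨p, hp, hne⟩ := hp
  obtain ⟨ζ, c, hc, -, -, -, h7, h8⟩ := lev_joint h hrig hp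
  have hpγ : p ≠ γ := fun he => hγ.2.2 (he ▸ hp)
  have hζ : ζ = γ := by
    by_contra h9
    have := congrArg (fun x => b.repr x γ) h8
    simp [h7, single_ne h9, single_ne hpγ] at this
    exact hne this
  subst hζ
  exact ⟨ζ, h, hrig, hγ.1, hγ.2.1, hγ.2.2, h7, hlow, p, hp, c, hc, h8⟩

theorem Ctx.bad (h : Ctx a b C r γ) {p v : ι} (hp : J1 a b C γ p) (hv : Lit a b C v)
    (hne : b.repr (a v) p ≠ 0) : KK a b C γ v := by
  obtain ⟨-, -, -, h1⟩ := h.rig p v ⟨hp.1, hv, hne⟩
  rcases h1 with h1 | h1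
  · exact ⟨hv, p, hp, 1, one_ne_zero, by rw [h1, one_smul]⟩
  · exact ⟨hv, p, hp, -1, by decide, by rw [h1, neg_smul, one_smul]⟩

theorem Ctx.nS (h : Ctx a b C r γ) : ¬ SS a b C γ γ := by
  rintro (h1 | h1 | h1)
  · exact h.nLev h1.1
  · exact h.nLit h1.1
  · exact h.nLit h1.1

theorem SS.nC {i : ι} (h : SS a b C γ i) : i ∉ C := by
  rcases h with h1 | h1 | h1
  · exact h1.1.1
  · exact h1.1.1
  · exact h1.1.1

theorem Ctx.nJK (h : Ctx a b C r γ) {v : ι} (h0 : J0 a b C γ v) : ¬ KK a b C γ v := by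
  rintro ⟨-, p, hp, c, hc, h1⟩
  obtain ⟨-, d, -, h2⟩ := h0
  have hpγ : γ ≠ p := fun he => h.nLev (he ▸ hp.1)
  have := congrArg (fun x => b.repr x p) (h1.symm.trans h2)
  simp [lev_basis hp.1 (lev_not_lit hp.1), lev_basis hp.1 h.nLit, hpγ] at this
  exact hc (by linear_combination c * F_three - this)

/-- The new basis is obtained by one rotation. -/
theorem Ctx.exists_basis (h : Ctx a b C r γ) : ∃ a' : Basis ι F V,
    FStep (Tset a) (Tset a') ∧ (∀ i, SS a b C γ i → a' i = b i) ∧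
      ∀ i, ¬ SS a b C γ i → a' i = a i := by
  classical
  have h1 : ∀ i, ∃ c : F, c ≠ 0 ∧ ((J1 a b C γ i ∨ J0 a b C γ i) → a i - b i = c • a γ) ∧
      (i = γ → c = 1) := by
    intro i
    by_cases hi : J1 a b C γ i ∨ J0 a b C γ i
    · have hiS : SS a b C γ i := hi.elim Or.inl fun h => Or.inr (Or.inl h)
      have hig : i ≠ γ := fun he => h.nS (by rwa [he] at hiS)
      rcases hi with ⟨-, c, hc, h2⟩ | ⟨-, c, hc, h2⟩ <;>
        exact ⟨c, hc, fun _ => h2, fun he => absurd he hig⟩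
    · exact ⟨1, one_ne_zero, fun hc => absurd hc hi, fun _ => rfl⟩
  choose ε1 hε1 hε1J hε1γ using h1
  have h2 : ∀ v, ∃ p, ∃ c : F, c ≠ 0 ∧ (KK a b C γ v → J1 a b C γ p ∧
      a v - b v = (c * ε1 p) • (a p + b p)) ∧ (¬ KK a b C γ v → c = ε1 v) := by
    intro v
    by_cases hv : KK a b C γ v
    · obtain ⟨-, p, hp, c, hc, h3⟩ := id hv
      refine ⟨p, c * ε1 p, mul_ne_zero hc (hε1 p), fun _ => ⟨hp, ?_⟩, fun hn => absurd hv hn⟩
      rw [mul_assoc, F_sq (hε1 p), mul_one, h3]
    · exact ⟨v, ε1 v, hε1 v, fun hc => absurd hc hv, fun _ => rfl⟩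
  choose τ ε hε hK hnK using h2
  have hJK : ∀ i, J1 a b C γ i ∨ J0 a b C γ i → ¬ KK a b C γ i := by
    rintro i (hi | hi)
    · exact fun hc => lev_not_lit hi.1 hc.1
    · exact h.nJK hi
  obtain ⟨c, hc1, -, hc3⟩ := resign a ε hε
  have hγ : c γ = a γ := by
    rw [hc1, hnK γ fun hk => h.nLit hk.1, hε1γ γ rfl, one_smul]
  obtain ⟨g, hg1, hg2⟩ := exists_rot c γ
    (Finset.univ.filter fun i => J1 a b C γ i ∨ J0 a b C γ i)
    (Finset.univ.filter fun i => KK a b C γ i) τ
    (by simpa using ⟨fun hc => h.nLev hc.1, fun hc => h.nLit hc.1⟩)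
    (by simpa using fun hc : KK a b C γ γ => h.nLit hc.1)
    (Finset.disjoint_filter.2 fun i _ hi => hJK i hi)
    (fun v hv => by simpa using Or.inl (hK v (by simpa using hv)).1)
  obtain ⟨a', ha1, -, ha3⟩ := resign g ε hε
  simp only [Finset.mem_filter, Finset.mem_univ, true_and] at hg2
  refine ⟨a', ⟨ι, inferInstance, inferInstance, c, g, hc3.symm, ha3, hg1⟩, fun i hi => ?_,
    fun i hi => ?_⟩
  · rw [ha1, hg2]
    by_cases hJ : J1 a b C γ i ∨ J0 a b C γ i
    · rw [if_pos hJ, hγ, hc1, smul_sub, smul_smul, F_sq (hε i), one_smul, hnK i (hJK i hJ),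
        ← hε1J i hJ, sub_sub_cancel]
    · have hk : KK a b C γ i := by
        rcases hi with hi | hi | hi
        · exact absurd (Or.inl hi) hJ
        · exact absurd (Or.inr hi) hJ
        · exact hi
      obtain ⟨h4, h5⟩ := hK i hk
      have h6 := hε1J (τ i) (Or.inl h4)
      have h7 := hnK (τ i) (hJK _ (Or.inl h4))
      rw [if_neg hJ, if_pos hk, hγ, hc1, hc1, h7]
      have h8 : b i = a i - (ε i * ε1 (τ i)) • (a (τ i) + b (τ i)) := by
        rw [← h5, sub_sub_cancel]
      have h9 : b (τ i) = a (τ i) - ε1 (τ i) • a γ := by rw [← h6, sub_sub_cancel]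
      rw [h8, h9]
      have e1 := F_sq (hε i)
      have e2 := F_sq (hε1 (τ i))
      have e3 := F_three
      match_scalars
      · linear_combination e1
      · linear_combination (ε i * ε1 (τ i)) * e3
      · linear_combination (-ε i) * e2
  · have hJ : ¬ (J1 a b C γ i ∨ J0 a b C γ i) := fun hc =>
      hi (hc.elim Or.inl fun h => Or.inr (Or.inl h))
    have hk : ¬ KK a b C γ i := fun hc => hi (Or.inr (Or.inr hc))
    rw [ha1, hg2, if_neg hJ, if_neg hk, hc1, smul_smul, F_sq (hε i), one_smul]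

section new

variable {a' : Basis ι F V}

theorem T_out (h2 : ∀ i, ¬ SS a b C γ i → a' i = a i) {t : V} (ht : t ∈ Tset a)
    (h0 : ∀ i, SS a b C γ i → a.repr t i = 0) : t ∈ Tset a' := by
  rcases mem_Tset_iff_smul.1 ht with rfl | ⟨i, c, hc, rfl⟩
  · exact zero_mem_Tset _
  · have hi : ¬ SS a b C γ i := fun hs => by simpa [hc] using h0 i hs
    rw [← h2 i hi]
    exact smul_mem_Tset c (self_mem_Tset a' i)

theorem D_out (h2 : ∀ i, ¬ SS a b C γ i → a' i = a i) {e : V} (he : e ∈ Dset (Tset a))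
    (h0 : ∀ i, SS a b C γ i → a.repr e i = 0) : e ∈ Dset (Tset a') := by
  by_cases hz : e = 0
  · exact hz ▸ zero_mem_Dset _
  obtain ⟨i, hi⟩ := exists_repr_ne a hz
  have hs : ¬ SS a b C γ i := fun hc => hi (h0 i hc)
  have h3 : e - a.repr e i • a i ∈ Tset a' := T_out h2 (sub_mem_Tset a he hi) fun j hj => by
    have : i ≠ j := fun hc => hs (hc ▸ hj)
    simp [h0 j hj, single_ne this]
  have h4 : a.repr e i • a i ∈ Tset a' := by
    rw [← h2 i hs]; exact smul_mem_Tset _ (self_mem_Tset a' i)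
  simpa using add_mem_Dset h3 h4

/-- Translating a joint by the pivot joint. -/
theorem Ctx.key (h : Ctx a b C r γ) (h1 : ∀ i, SS a b C γ i → a' i = b i)
    (h2 : ∀ i, ¬ SS a b C γ i → a' i = a i) {t : V} (ht : t ∈ Tset a)
    (h0 : ∀ w, Lit a b C w → a.repr t w = 0) {σ : F} (hσ : σ ≠ 0)
    (hs : t + σ • a γ ∈ Tset b) : t + σ • a γ ∈ Tset a' := by
  have hz : a γ ∈ Tset a' := by rw [← h2 γ h.nS]; exact self_mem_Tset a' γ
  rcases mem_Tset_iff_smul.1 ht with rfl | ⟨i, c, hc, rfl⟩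
  · simpa using smul_mem_Tset σ hz
  by_cases hi : i = γ
  · subst hi
    rw [← add_smul]; exact smul_mem_Tset _ hz
  have hl : ¬ Lit a b C i := fun hw => by simpa [hc] using h0 i hw
  by_cases hv : Lev1 a b C i
  · have h3 : b.repr (c • a i + σ • a γ) i = c := by
      simp [lev_basis hv hl, lev_basis hv h.nLit, Ne.symm hi]
    have h4 := Tset_eq_smul b hs (i := i) (by rw [h3]; exact hc)
    rw [h3] at h4
    have h5 : a i - b i = (-(c * σ)) • a γ := by
      have h6 : c • (c • a i + σ • a γ) = c • c • b i := by rw [h4]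
      rw [smul_add, smul_smul, smul_smul, smul_smul, F_sq hc, one_smul, one_smul] at h6
      rw [← h6, neg_smul]; abel
    have h7 : SS a b C γ i := Or.inl ⟨hv, _, neg_ne_zero.2 (mul_ne_zero hc hσ), h5⟩
    rw [h4, ← h1 i h7]
    exact smul_mem_Tset _ (self_mem_Tset a' i)
  · have h3 : b.repr (a i) γ = 0 := by
      by_contra h4
      exact (h.low i hi h4).elim hl hv
    have h4 : b.repr (c • a i + σ • a γ) γ = σ := by
      simp [h3, tri1 h.tm h.nC]
    have h5 := Tset_eq_smul b hs (i := γ) (by rw [h4]; exact hσ)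
    rw [h4, ← h.eq] at h5
    rw [h5]; exact smul_mem_Tset _ hz

/-- An edge with exactly one literal end. -/
theorem Ctx.one_end (h : Ctx a b C r γ) (h1 : ∀ i, SS a b C γ i → a' i = b i)
    (h2 : ∀ i, ¬ SS a b C γ i → a' i = a i) {e : V} (he : e ∈ EE a b) {v : ι}
    (hv : Lit a b C v) (hev : a.repr e v = 1) (h0 : ∀ w, Lit a b C w → w ≠ v → a.repr e w = 0) :
    e ∈ Dset (Tset a') := by
  have ht : e - a v ∈ Tset a := sub_mem_Tset_one a he.1 hev
  have hs : e - b v ∈ Tset b := sub_mem_Tset_one b he.2 (by rw [lit_repr hv, hev])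
  have htw : ∀ w, Lit a b C w → a.repr (e - a v) w = 0 := by
    intro w hw
    by_cases hwv : w = v
    · subst hwv; simp [hev]
    · simp [h0 w hw hwv, single_ne (Ne.symm hwv)]
  have fin : SS a b C γ v → e - b v ∈ Tset a' → e ∈ Dset (Tset a') := by
    intro hS h3
    have := add_mem_Dset h3 (self_mem_Tset a' v)
    rwa [h1 v hS, sub_add_cancel] at this
  by_cases hS : SS a b C γ v
  · refine fin hS ?_
    rcases hS with hS | ⟨-, σ, hσ, h3⟩ | ⟨-, p, hp, σ, hσ, h3⟩
    · exact absurd hv (lev_not_lit hS.1)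
    · have h4 : e - b v = e - a v + σ • a γ := by rw [← h3]; abel
      rw [h4] at hs ⊢
      exact h.key h1 h2 ht htw hσ hs
    · by_cases h4 : b.repr (e - b v) p = 0
      · have h5 : e - b v = e - a v + σ • (a p + b p) := by rw [← h3]; abel
        have h6 : a.repr (e - a v) p = σ := by
          rw [← lev_repr hp.1 htw]
          rw [h5] at h4
          simp only [map_add, map_smul, Finsupp.add_apply, Finsupp.smul_apply, smul_eq_mul,
            lev_basis hp.1 (lev_not_lit hp.1), repr_basis_self, if_true] at h4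
          linear_combination h4 - σ * F_three
        have h7 := Tset_eq_smul a ht (i := p) (by rw [h6]; exact hσ)
        rw [h6] at h7
        obtain ⟨-, d, -, h8⟩ := hp
        have h9 : b p = a p - d • a γ := by rw [← h8, sub_sub_cancel]
        have h10 : e - b v = (-(σ * d)) • a γ := by
          rw [h5, h7, h9]
          have e3 := F_three
          match_scalars
          · linear_combination σ * e3
          · ring
        rw [h10, ← h2 γ h.nS]
        exact smul_mem_Tset _ (self_mem_Tset a' γ)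
      · rw [Tset_eq_smul b hs h4, ← h1 p (Or.inl hp)]
        exact smul_mem_Tset _ (self_mem_Tset a' p)
  · have h3 : e - a v ∈ Tset a' := by
      refine T_out h2 ht fun i hi => ?_
      rcases hi with hi | hi | hi
      · by_contra h4
        have h5 := Tset_eq_smul a ht h4
        set c := a.repr (e - a v) i with hc
        have hiv : v ≠ i := fun he => lev_not_lit hi.1 (he ▸ hv)
        have h6 : b.repr (a v) i = 0 := by
          by_contra h7
          exact hS (Or.inr (Or.inr (h.bad hi hv h7)))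
        have h7 : e - b v = c • a i + (a v - b v) := by rw [← h5]; abel
        have h8 : b.repr (e - b v) i = c := by
          rw [h7]; simp [h6, single_ne hiv, lev_basis hi.1 (lev_not_lit hi.1)]
        have h9 := Tset_eq_smul b hs (i := i) (by rw [h8]; exact h4)
        rw [h8, h7] at h9
        obtain ⟨-, d, hd, h10⟩ := hi
        refine hS (Or.inr (Or.inl ⟨hv, -(c * d), neg_ne_zero.2 (mul_ne_zero h4 hd), ?_⟩))
        rw [neg_smul, mul_smul, ← h10, smul_sub, ← h9]; abel
      · exact htw i hi.1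
      · exact htw i hi.1
    have := add_mem_Dset h3 (self_mem_Tset a' v)
    rwa [h2 v hS, sub_add_cancel] at this

theorem SS.transfer {v w : ι} (hw : Lit a b C w) (hv : Lit a b C v) (hS : SS a b C γ v) {c : F}
    (hc : c ≠ 0) (h : a w - b w = c • (a v - b v)) : SS a b C γ w := by
  rcases hS with hS | ⟨-, σ, hσ, h3⟩ | ⟨-, p, hp, σ, hσ, h3⟩
  · exact absurd hv (lev_not_lit hS.1)
  · exact Or.inr (Or.inl ⟨hw, c * σ, mul_ne_zero hc hσ, by rw [h, h3, smul_smul]⟩)
  · exact Or.inr (Or.inr ⟨hw, p, hp, c * σ, mul_ne_zero hc hσ, by rw [h, h3, smul_smul]⟩)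

/-- An edge with two literal ends. -/
theorem two_ends (h1 : ∀ i, SS a b C γ i → a' i = b i)
    (h2 : ∀ i, ¬ SS a b C γ i → a' i = a i) {e : V} (he : e ∈ EE a b) {v w : ι}
    (hv : Lit a b C v) (hw : Lit a b C w) (hvw : v ≠ w) (hev : a.repr e v ≠ 0)
    (hew : a.repr e w ≠ 0) : e ∈ Dset (Tset a') := by
  have h3 := Dset_eq_two a he.1 hvw hev hew
  have h4 := Dset_eq_two b he.2 hvw (by rwa [lit_repr hv]) (by rwa [lit_repr hw])
  rw [lit_repr hv, lit_repr hw] at h4
  set c := a.repr e v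
  set d := a.repr e w
  have h5 : c • (a v - b v) + d • (a w - b w) = 0 := by
    have := h3.symm.trans h4
    linear_combination (norm := module) this
  have e1 := F_sq hev
  have e2 := F_sq hew
  have h6 : a w - b w = (-(d * c)) • (a v - b v) := by
    have : d • (c • (a v - b v) + d • (a w - b w)) = 0 := by rw [h5, smul_zero]
    rw [smul_add, smul_smul, smul_smul, e2, one_smul] at this
    rw [neg_smul]; exact eq_neg_of_add_eq_zero_right this
  have h7 : a v - b v = (-(c * d)) • (a w - b w) := by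
    have : c • (c • (a v - b v) + d • (a w - b w)) = 0 := by rw [h5, smul_zero]
    rw [smul_add, smul_smul, smul_smul, e1, one_smul] at this
    rw [neg_smul]; exact eq_neg_of_add_eq_zero_left this
  have fin : e = c • a' v + d • a' w → e ∈ Dset (Tset a') := fun h8 => by
    rw [h8]
    exact add_mem_Dset (smul_mem_Tset _ (self_mem_Tset a' v))
      (smul_mem_Tset _ (self_mem_Tset a' w))
  by_cases hS : SS a b C γ v
  · have hS' := SS.transfer hw hv hS (neg_ne_zero.2 (mul_ne_zero hew hev)) h6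
    exact fin (by rw [h1 v hS, h1 w hS']; exact h4)
  · have hS' : ¬ SS a b C γ w := fun hc =>
      hS (SS.transfer hv hw hc (neg_ne_zero.2 (mul_ne_zero hev hew)) h7)
    exact fin (by rw [h2 v hS, h2 w hS']; exact h3)

/-- An edge without literal ends and with an end in `J1`. -/
theorem Ctx.no_end (h : Ctx a b C r γ) (h1 : ∀ i, SS a b C γ i → a' i = b i)
    (h2 : ∀ i, ¬ SS a b C γ i → a' i = a i) {e : V} (he : e ∈ EE a b) {p : ι}
    (hp : J1 a b C γ p) (hep : a.repr e p = 1) (h0 : ∀ w, Lit a b C w → a.repr e w = 0) :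
    e ∈ Dset (Tset a') := by
  have ht : e - a p ∈ Tset a := sub_mem_Tset_one a he.1 hep
  have hs : e - b p ∈ Tset b := sub_mem_Tset_one b he.2 (by rw [lev_repr hp.1 h0, hep])
  have htw : ∀ w, Lit a b C w → a.repr (e - a p) w = 0 := by
    intro w hw
    have : p ≠ w := fun he => lev_not_lit hp.1 (he ▸ hw)
    simp [h0 w hw, single_ne this]
  obtain ⟨σ, hσ, h3⟩ := hp.2
  have h4 : e - b p = e - a p + σ • a γ := by rw [← h3]; abel
  have h5 : e - b p ∈ Tset a' := by
    rw [h4] at hs ⊢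
    exact h.key h1 h2 ht htw hσ hs
  have := add_mem_Dset h5 (self_mem_Tset a' p)
  rwa [h1 p (Or.inl hp), sub_add_cancel] at this

theorem normalise {e : V} {i : ι} (hi : a.repr e i ≠ 0)
    (h : a.repr e i • e ∈ Dset (Tset a')) : e ∈ Dset (Tset a') := by
  have := smul_mem_Dset (a.repr e i) h
  rwa [smul_smul, F_sq hi, one_smul] at this

theorem Ctx.edge (h : Ctx a b C r γ) (h1 : ∀ i, SS a b C γ i → a' i = b i)
    (h2 : ∀ i, ¬ SS a b C γ i → a' i = a i) {e : V} (he : e ∈ EE a b) :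
    e ∈ Dset (Tset a') := by
  by_cases hA : ∃ v, Lit a b C v ∧ a.repr e v ≠ 0
  · obtain ⟨v, hv, hev⟩ := hA
    by_cases hB : ∃ w, Lit a b C w ∧ w ≠ v ∧ a.repr e w ≠ 0
    · obtain ⟨w, hw, hwv, hew⟩ := hB
      exact two_ends h1 h2 he hv hw hwv.symm hev hew
    · push Not at hB
      refine normalise hev (h.one_end h1 h2 (smul_mem_EE _ he) hv (by simp [F_sq hev])
        fun w hw hwv => by simp [hB w hw hwv])
  · push Not at hA
    by_cases hB : ∃ p, J1 a b C γ p ∧ a.repr e p ≠ 0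
    · obtain ⟨p, hp, hep⟩ := hB
      exact normalise hep (h.no_end h1 h2 (smul_mem_EE _ he) hp (by simp [F_sq hep])
        fun w hw => by simp [hA w hw])
    · push Not at hB
      refine D_out h2 he.1 fun i hi => ?_
      rcases hi with hi | hi | hi
      · exact hB i hi
      · exact hA i hi.1
      · exact hA i hi.1

theorem lit_new (h1 : ∀ i, SS a b C γ i → a' i = b i)
    (h2 : ∀ i, ¬ SS a b C γ i → a' i = a i) {w : ι} (hw : w ∉ C)
    (h3 : ∀ i, ¬ SS a b C γ i → b.repr (a i) w = if i = w then 1 else 0) : Lit a' b C w := by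
  refine ⟨hw, (coord_eq_iff a' b w).2 fun i => ?_⟩
  by_cases hi : SS a b C γ i
  · rw [h1 i hi, repr_basis]
  · rw [h2 i hi, h3 i hi]

theorem Ctx.lit_J1 (h : Ctx a b C r γ) (h1 : ∀ i, SS a b C γ i → a' i = b i)
    (h2 : ∀ i, ¬ SS a b C γ i → a' i = a i) {p : ι} (hp : J1 a b C γ p) : Lit a' b C p := by
  refine lit_new h1 h2 hp.1.1 fun i hi => ?_
  by_cases hl : Lit a b C i
  · have : i ≠ p := fun he => lev_not_lit hp.1 (he ▸ hl)
    rw [if_neg this]
    by_contra h3
    exact hi (Or.inr (Or.inr (h.bad hp hl h3)))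
  · exact lev_basis hp.1 hl

theorem Ctx.tm_new (h : Ctx a b C r γ) (h1 : ∀ i, SS a b C γ i → a' i = b i)
    (h2 : ∀ i, ¬ SS a b C γ i → a' i = a i) : ∃ r', TMb a' b C r' := by
  classical
  refine ⟨fun i => if Lit a b C i ∨ J1 a b C γ i then 0 else if Lev1 a b C i then 1
    else r i + 2, fun q hq => (mem_span_coord a' _ _).2 fun i hi => ?_, ?_⟩
  · simp only [LinearMap.sub_apply, Basis.coord_apply, sub_eq_zero, repr_basis]
    by_cases hS : SS a b C γ i
    · rw [h1 i hS, repr_basis]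
    rw [h2 i hS]
    by_cases hiq : i = q
    · subst hiq; rw [tri1 h.tm hq, if_pos rfl]
    rw [if_neg hiq]
    by_contra h3
    obtain ⟨h4, h5⟩ := tri2 h.tm hq hiq h3
    refine hi ⟨h4, ?_⟩
    have hql : ¬ Lit a b C q := fun hl => h3 (by rw [lit_repr hl, repr_basis_ne a hiq])
    by_cases hv : Lev1 a b C q
    · have hil : Lit a b C i := by
        by_contra h6
        exact h3 (by rw [lev_basis hv h6, if_neg hiq])
      have hqJ : ¬ J1 a b C γ q := fun hJ => hS (Or.inr (Or.inr (h.bad hJ hil h3)))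
      simp [hil, hql, hqJ, hv]
    · have hqJ : ¬ J1 a b C γ q := fun hJ => hv hJ.1
      simp only [hql, hqJ, hv, or_self, if_false]
      split_ifs <;> omega
  · rcases h.tm.core with h0 | ⟨k, Z, x, hZ, hx, h3⟩
    · exact Or.inl h0
    refine Or.inr ⟨k, Z, x, hZ, hx, fun l => (mem_span_coord a' _ _).2 fun i hi => ?_⟩
    have hiC : i ∈ C := by simpa using hi
    have h4 := (mem_span_coord a _ _).1 (h3 l) i hi
    have h5 : a' i = a i := h2 i fun hc => hc.nC hiC
    simp only [LinearMap.sub_apply, LinearMap.sum_apply, LinearMap.smul_apply, Basis.coord_apply,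
      repr_basis] at h4 ⊢
    rwa [h5]

end new

end main

end Rots

open Rots in
theorem s_rots : S_ROTS := by
  intro V _ _ ι _ _ a b C r E0 htm hE hex hrig
  obtain ⟨γ, h⟩ := exists_ctx htm hrig hex
  obtain ⟨a', hstep, h1, h2⟩ := h.exists_basis
  obtain ⟨r', hr'⟩ := h.tm_new h1 h2
  have hD : E0 ⊆ Dset (Tset a') := fun e he => h.edge h1 h2 (hE he)
  obtain ⟨p, hp⟩ := h.ex
  refine ⟨a', r', hr', fun e he => ⟨hD he, (hE he).2⟩,
    Relation.ReflTransGen.single ⟨fun e he => (hE he).1, hD, Or.inl hstep⟩,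
    fun w hw => lit_new h1 h2 hw.1 fun i _ => by rw [lit_repr hw, repr_basis],
    p, h.lit_J1 h1 h2 hp, lev_not_lit hp.1⟩

end Pool.Agent.P.MP_053557_co
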