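import Pool.Agent.P.MP_053557_co.Stmts2

/-! Signed graphs with the same row space are equivalent. -/

namespace Pool.Agent.P.MP_053557_co

open Module Submodule

namespace Rows

section ops

variable {ι ι' X Y : Type} [AddCommGroup X] [Module F X] [AddCommGroup Y] [Module F Y]

theorem op_congr [DecidableEq ι] {r r' r'' : ι → X} (h : StarOp r r') (e : r' = r'') :
    StarOp r r'' := e ▸ h

theorem op_map [DecidableEq ι] (Φ : X →ₗ[F] Y) {r r' : ι → X} (h : StarOp r r') :
    StarOp (fun i => Φ (r i)) (fun i => Φ (r' i)) := by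
  cases h with
  | relabel σ => exact StarOp.relabel (fun i => Φ (r i)) σ
  | switch v =>
    refine op_congr (StarOp.switch (fun i => Φ (r i)) v) ?_
    funext i
    by_cases hi : i = v
    · subst hi; simp
    · simp [Function.update_of_ne hi]
  | twist K x y hxy hx hy =>
    refine op_congr (StarOp.twist (fun i => Φ (r i)) K x y hxy hx hy) ?_
    funext i
    by_cases h : i = x ∨ i = y <;> simp [h]
  | rotate z J K τ hJ hK hJK hτ =>
    refine op_congr (StarOp.rotate (fun i => Φ (r i)) z J K τ hJ hK hJK hτ) ?_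
    funext i
    by_cases h : i = z <;> simp [h]
  | exchange _ k Z hZ x hout hin =>
    refine StarOp.exchange _ _ k Z hZ x (fun v hv => by rw [hout v hv]) (fun l => ?_)
    have h1 := Submodule.mem_map_of_mem (f := Φ) (hin l)
    rw [Submodule.map_span, ← Set.image_comp] at h1
    simpa using h1

/-- extension by zero -/
noncomputable def ext0 (ψ : ι' ↪ ι) (r : ι' → X) : ι → X := Function.extend ψ r 0

omit [Module F X] in
theorem ext0_apply (ψ : ι' ↪ ι) (r : ι' → X) (l : ι') : ext0 ψ r (ψ l) = r l :=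
  ψ.injective.extend_apply r 0 l

omit [Module F X] in
theorem ext0_not (ψ : ι' ↪ ι) (r : ι' → X) {v : ι} (h : ∀ l, ψ l ≠ v) : ext0 ψ r v = 0 := by
  unfold ext0
  rw [Function.extend_apply' _ _ _ (by simpa using h)]
  rfl

theorem cases_range (ψ : ι' ↪ ι) (v : ι) : (∃ l, v = ψ l) ∨ ∀ l, ψ l ≠ v := by
  by_cases h : ∃ l, v = ψ l
  · exact Or.inl h
  · exact Or.inr fun l hl => h ⟨l, hl.symm⟩

theorem op_ext [DecidableEq ι] [DecidableEq ι'] [Finite ι'] (ψ : ι' ↪ ι) {r r' : ι' → X}
    (h : StarOp r r') : StarOp (ext0 ψ r) (ext0 ψ r') := by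
  cases h with
  | relabel σ =>
    obtain ⟨σ', hσ'⟩ := Equiv.Perm.exists_extending_pair (f := ψ) (g := fun l => ψ (σ l))
      ψ.injective (ψ.injective.comp σ.injective)
    refine op_congr (StarOp.relabel _ σ') ?_
    funext v
    rcases cases_range ψ v with ⟨l, rfl⟩ | hv
    · simp [hσ', ext0_apply]
    · rw [ext0_not ψ _ hv, Function.comp_apply, ext0_not]
      intro l hl
      have := hσ' (σ.symm l)
      rw [Equiv.apply_symm_apply, hl] at this
      exact hv _ (σ'.injective this)
  | switch v =>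
    refine op_congr (StarOp.switch _ (ψ v)) ?_
    funext i
    rcases cases_range ψ i with ⟨l, rfl⟩ | hi
    · by_cases hl : l = v
      · subst hl; simp [ext0_apply]
      · rw [Function.update_of_ne (fun hc => hl (ψ.injective hc)), ext0_apply, ext0_apply,
          Function.update_of_ne hl]
    · rw [Function.update_of_ne (hi v).symm, ext0_not ψ _ hi, ext0_not ψ _ hi]
  | twist K x y hxy hx hy =>
    refine op_congr (StarOp.twist _ (K.map ψ) (ψ x) (ψ y) (fun hc => hxy (ψ.injective hc))
      (by simpa using hx) (by simpa using hy)) ?_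
    funext i
    rcases cases_range ψ i with ⟨l, rfl⟩ | hi
    · simp [ext0_apply]
    · rw [if_neg (by rintro (h | h); exacts [hi x h.symm, hi y h.symm]), ext0_not ψ _ hi,
        ext0_not ψ _ hi]
  | rotate z J K τ hJ hK hJK hτ =>
    have hτ' : ∀ l, Function.extend ψ (fun l => ψ (τ l)) id (ψ l) = ψ (τ l) :=
      fun l => ψ.injective.extend_apply _ _ l
    refine op_congr (StarOp.rotate _ (ψ z) (J.map ψ) (K.map ψ)
      (Function.extend ψ (fun l => ψ (τ l)) id) (by simpa using hJ) (by simpa using hK)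
      ((Finset.disjoint_map ψ).2 hJK) ?_) ?_
    · intro v hv
      obtain ⟨l, hl, rfl⟩ := Finset.mem_map.1 hv
      rw [hτ']
      exact Finset.mem_map_of_mem ψ (hτ l hl)
    · funext i
      rcases cases_range ψ i with ⟨l, rfl⟩ | hi
      · rw [ext0_apply ψ _ l, ext0_apply ψ _ l]
        by_cases hl : l = z
        · subst hl
          rw [if_pos rfl, if_pos rfl, ← Finset.map_union, Finset.sum_map]
          simp [ext0_apply]
        · rw [if_neg hl, if_neg (fun hc => hl (ψ.injective hc)),
            Finset.filter_map, Finset.sum_map]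
          simp [ext0_apply, hτ']
      · rw [if_neg (hi z).symm, ext0_not ψ _ hi, ext0_not ψ _ hi, Finset.sum_eq_zero, sub_zero]
        intro v hv
        rw [Finset.mem_filter] at hv
        obtain ⟨l, hl, rfl⟩ := Finset.mem_map.1 hv.1
        exact absurd (hτ' l ▸ hv.2) (hi _)
  | exchange _ k Z hZ x hout hin =>
    refine StarOp.exchange _ _ k Z hZ (x.trans ψ) (fun v hv => ?_) (fun l => ?_)
    · rcases cases_range ψ v with ⟨l, rfl⟩ | hi
      · rw [ext0_apply, ext0_apply, hout]
        rintro ⟨m, rfl⟩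
        exact hv ⟨m, rfl⟩
      · rw [ext0_not ψ _ hi, ext0_not ψ _ hi]
    · simp only [Function.Embedding.trans_apply, ext0_apply]
      refine span_mono ?_ (hin l)
      rintro _ ⟨m, hm, rfl⟩
      refine ⟨ψ m, ?_, ext0_apply ψ r m⟩
      rintro ⟨m', hm'⟩
      exact hm ⟨m', ψ.injective hm'⟩

end ops

section steps

variable {ι E : Type} [Fintype ι] [DecidableEq ι] [DecidableEq E]

omit [Fintype ι] [DecidableEq ι] [DecidableEq E] in
theorem signed_of {N N' : ι → E → F} (h : IsSigned N) (σ : Equiv.Perm ι)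
    (e : ∀ v x, N' v x ≠ 0 → N (σ v) x ≠ 0) : IsSigned N' := by
  intro x i j k hi hj hk
  rcases h x _ _ _ (e i x hi) (e j x hj) (e k x hk) with h | h | h
  · exact Or.inl (σ.injective h)
  · exact Or.inr (Or.inl (σ.injective h))
  · exact Or.inr (Or.inr (σ.injective h))

omit [Fintype ι] in
theorem switch_set {N : ι → E → F} (h : IsSigned N) (S : Finset ι) :
    Relation.EqvGen Step N (fun v => if v ∈ S then -N v else N v) := by
  have hs : ∀ S : Finset ι, IsSigned (fun v => if v ∈ S then -N v else N v) := by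
    intro S
    refine signed_of h 1 fun v x hx => ?_
    by_cases hv : v ∈ S <;> simpa [hv] using hx
  induction S using Finset.induction_on with
  | empty => simpa using Relation.EqvGen.refl N
  | insert w S hw ih =>
    refine Relation.EqvGen.trans _ _ _ ih (Relation.EqvGen.rel _ _ ⟨hs S, hs _, Or.inl ?_⟩)
    refine op_congr (StarOp.switch _ w) ?_
    funext v
    by_cases hv : v = w
    · subst hv; simp [hw]
    · simp [hv]

theorem eqv_of_scale {N N' : ι → E → F} (h : IsSigned N) (σ : Equiv.Perm ι)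
    (e : ∀ v, N' v = N (σ v) ∨ N' v = -N (σ v)) : Relation.EqvGen Step N N' := by
  classical
  have h1 : IsSigned (N ∘ σ) := signed_of h σ fun v x hx => hx
  refine Relation.EqvGen.trans _ _ _
    (Relation.EqvGen.rel _ _ ⟨h, h1, Or.inl (StarOp.relabel N σ)⟩) ?_
  have h2 := switch_set h1 (Finset.univ.filter fun v => N' v ≠ N (σ v))
  have h3 : (fun v => if v ∈ (Finset.univ.filter fun v => N' v ≠ N (σ v)) then -(N ∘ σ) v
      else (N ∘ σ) v) = N' := by
    funext v
    by_cases hv : N' v = N (σ v)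
    · simp [hv]
    · have := (e v).resolve_left hv
      simp only [Finset.mem_filter, Finset.mem_univ, true_and, ne_eq, hv, not_false_eq_true,
        if_true, Function.comp_apply]
      exact this.symm
  rwa [h3] at h2

end steps

section real

variable {V : Type} [AddCommGroup V] [Module F V] {ι E : Type}

/-- evaluation of a functional on the columns -/
def ev (c : E → V) : (V →ₗ[F] F) →ₗ[F] (E → F) where
  toFun φ := fun e => φ (c e)
  map_add' _ _ := rfl
  map_smul' _ _ := rfl

/-- `N` is the matrix of the frame `T` -/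
def Rz (c : E → V) (T : Set V) (N : ι → E → F) : Prop :=
  ∃ (κ : Type) (_ : Fintype κ) (g : Basis κ F V) (ψ : κ ↪ ι),
    T = Tset g ∧ N = ext0 ψ fun l => ev c (g.coord l)

theorem Rz.signed {c : E → V} {T : Set V} {N : ι → E → F} (h : Rz c T N)
    (hc : Set.range c ⊆ Dset T) : IsSigned N := by
  obtain ⟨κ, _, g, ψ, rfl, rfl⟩ := h
  intro e i j k hi hj hk
  have key : ∀ v, ext0 ψ (fun l => ev c (g.coord l)) v e ≠ 0 →
      ∃ l, v = ψ l ∧ g.repr (c e) l ≠ 0 := by
    intro v hv
    rcases cases_range ψ v with ⟨l, rfl⟩ | h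
    · rw [ext0_apply] at hv
      exact ⟨l, rfl, hv⟩
    · rw [ext0_not ψ _ h] at hv
      exact absurd rfl hv
  obtain ⟨l1, rfl, h1⟩ := key i hi
  obtain ⟨l2, rfl, h2⟩ := key j hj
  obtain ⟨l3, rfl, h3⟩ := key k hk
  rcases (mem_Dset_iff g).1 (hc ⟨e, rfl⟩) _ _ _ h1 h2 h3 with h | h | h <;> simp [h]

theorem same_Tset {κ κ' : Type} [Fintype κ] [Fintype κ'] (g : Basis κ F V) (g' : Basis κ' F V)
    (h : Tset g = Tset g') : ∃ β : κ → κ', Function.Bijective β ∧
      ∀ l, g'.coord (β l) = g.coord l ∨ g'.coord (β l) = -g.coord l := by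
  classical
  have h1 : ∀ l, ∃ l', ∃ s : F, s ≠ 0 ∧ g l = s • g' l' := by
    intro l
    rcases mem_Tset_iff_smul.1 (h ▸ self_mem_Tset g l) with h0 | h0
    · exact absurd h0 (g.ne_zero l)
    · exact h0
  choose β s hs hβ using h1
  have hinj : Function.Injective β := by
    intro l m hlm
    by_contra hne
    have e : g l = (s l * s m) • g m := by
      rw [hβ m, hβ l, hlm, smul_smul, mul_assoc, F_sq (hs m), mul_one]
    have := congrArg (fun x => g.repr x l) e
    simp [single_ne (Ne.symm hne)] at this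
  refine ⟨β, (Fintype.bijective_iff_injective_and_card β).2 ⟨hinj, card_eq_card g' g⟩,
    fun l => ?_⟩
  have e : g'.coord (β l) = s l • g.coord l := by
    refine g.ext fun m => ?_
    by_cases hm : m = l
    · subst hm
      conv_lhs => rw [hβ m]
      simp
    · conv_lhs => rw [hβ m]
      simp [single_ne hm, single_ne (fun hc => hm (hinj hc))]
  rcases F_ne_cases (hs l) with h2 | h2 <;> rw [e, h2]
  · left; exact one_smul _ _
  · right; exact neg_one_smul F (g.coord l)

variable [Fintype ι] [DecidableEq ι] [DecidableEq E]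

theorem Rz.eqv {c : E → V} {T : Set V} {N N' : ι → E → F} (h : Rz c T N) (h' : Rz c T N')
    (hc : Set.range c ⊆ Dset T) : Relation.EqvGen Step N N' := by
  have hs := h.signed hc
  obtain ⟨κ, _, g, ψ, rfl, rfl⟩ := h
  obtain ⟨κ', _, g', ψ', hT, rfl⟩ := h'
  obtain ⟨β, hβ, e⟩ := same_Tset g g' hT
  obtain ⟨σ, hσ⟩ := Equiv.Perm.exists_extending_pair (f := fun l => ψ' (β l)) (g := ψ)
    (ψ'.injective.comp hβ.1) ψ.injective
  refine eqv_of_scale hs σ fun v => ?_
  rcases cases_range ψ' v with ⟨l', rfl⟩ | hv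
  · obtain ⟨l, rfl⟩ := hβ.2 l'
    rw [hσ, ext0_apply, ext0_apply]
    rcases e l with h | h <;> rw [h]
    · exact Or.inl rfl
    · exact Or.inr (map_neg _ _)
  · left
    rw [ext0_not ψ' _ hv, ext0_not]
    intro l hl
    rw [← hσ] at hl
    exact hv _ (σ.injective hl)

theorem fstep_eqv {c : E → V} {G H : Set V} (hcard : finrank F V ≤ Fintype.card ι)
    (hG : Set.range c ⊆ Dset G) (hH : Set.range c ⊆ Dset H) (h : FStep G H) :
    ∃ N N' : ι → E → F, Rz c G N ∧ Rz c H N' ∧ Step N N' := by
  obtain ⟨κ, _, _, a, b, rfl, rfl, hop⟩ := h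
  obtain ⟨ψ⟩ : Nonempty (κ ↪ ι) :=
    Function.Embedding.nonempty_of_card_le (by rw [← finrank_eq_card_basis a]; exact hcard)
  have h1 : Rz c (Tset a) (ext0 ψ fun l => ev c (a.coord l)) := ⟨κ, inferInstance, a, ψ, rfl, rfl⟩
  have h2 : Rz c (Tset b) (ext0 ψ fun l => ev c (b.coord l)) := ⟨κ, inferInstance, b, ψ, rfl, rfl⟩
  exact ⟨_, _, h1, h2, h1.signed hG, h2.signed hH, Or.inl (op_ext ψ (op_map (ev c) hop))⟩

theorem econn_eqv {c : E → V} {A B : Set V} (h : EConn (Set.range c) A B)
    (hA : Set.range c ⊆ Dset A) {N : ι → E → F} (hN : Rz c A N) :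
    ∀ N' : ι → E → F, Rz c B N' → Relation.EqvGen Step N N' := by
  have hcard : finrank F V ≤ Fintype.card ι := by
    obtain ⟨κ, _, g, ψ, -, -⟩ := hN
    rw [finrank_eq_card_basis g]
    exact Fintype.card_le_of_embedding ψ
  induction h with
  | refl => exact fun N' hN' => hN.eqv hN' hA
  | tail _ hs ih =>
    intro N' hN'
    obtain ⟨hG, hH, hs | hs⟩ := hs
    · obtain ⟨N1, N2, h1, h2, h3⟩ := fstep_eqv (ι := ι) hcard hG hH hs
      exact Relation.EqvGen.trans _ _ _ (ih N1 h1)
        (Relation.EqvGen.trans _ _ _ (Relation.EqvGen.rel _ _ h3) (h2.eqv hN' hH))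
    · obtain ⟨N1, N2, h1, h2, h3⟩ := fstep_eqv (ι := ι) hcard hH hG hs
      exact Relation.EqvGen.trans _ _ _ (ih N2 h2)
        (Relation.EqvGen.trans _ _ _ (Relation.EqvGen.symm _ _ (Relation.EqvGen.rel _ _ h3))
          (h1.eqv hN' hH))

end real

section rows

variable {ι E : Type}

/-- evaluation at a column, as a functional on the row space -/
def col (R : Submodule F (E → F)) (e : E) : Module.Dual F R :=
  (LinearMap.proj e : (E → F) →ₗ[F] F) ∘ₗ R.subtype

theorem col_spans [Fintype E] [DecidableEq E] (R : Submodule F (E → F)) :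
    Spans (Set.range (col R)) := by
  unfold Spans
  rw [eq_top_iff]
  intro φ _
  obtain ⟨φ', hφ'⟩ := LinearMap.exists_extend φ
  have e : φ = ∑ e, φ' (Pi.single e 1) • col R e := by
    ext x
    rw [← hφ', LinearMap.sum_apply, LinearMap.comp_apply,
      LinearMap.pi_apply_eq_sum_univ φ' (R.subtype x)]
    refine Finset.sum_congr rfl fun e _ => ?_
    have : (fun j => if e = j then (1 : F) else 0) = Pi.single e 1 := by
      funext j
      simp [Pi.single_apply, eq_comm]
    simp [col, this, mul_comm]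
  rw [e]
  exact sum_mem fun e _ => smul_mem _ _ (subset_span ⟨e, rfl⟩)

theorem exists_frame [Fintype ι] [Fintype E] (R : Submodule F (E → F)) (M : ι → E → F)
    (hs : IsSigned M) (hR : span F (Set.range M) = R) (hli : LinearIndepOn F M {v | M v ≠ 0}) :
    ∃ A : Set (Module.Dual F R), IsFrame A ∧ Set.range (col R) ⊆ Dset A ∧ Rz (col R) A M := by
  classical
  have hm : ∀ v, M v ∈ R := fun v => hR ▸ subset_span ⟨v, rfl⟩
  let w : {v | M v ≠ 0} → R := fun v => ⟨M v, hm v⟩
  have h1 : LinearIndependent F w := LinearIndependent.of_comp R.subtype hli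
  have h2 : ⊤ ≤ span F (Set.range w) := by
    intro x _
    have h3 : span F (Set.range M) ≤ (span F (Set.range w)).map R.subtype := by
      rw [span_le]
      rintro _ ⟨v, rfl⟩
      by_cases hv : M v = 0
      · rw [hv]; exact zero_mem _
      · exact ⟨w ⟨v, hv⟩, subset_span ⟨_, rfl⟩, rfl⟩
    have hx : (x : E → F) ∈ span F (Set.range M) := by rw [hR]; exact x.2
    obtain ⟨y, hy, e⟩ := h3 hx
    have e' : y = x := Subtype.ext e
    rwa [← e']
  let a := (Basis.mk h1 h2).dualBasis
  have ha : ∀ l e, a.repr (col R e) l = M l e := by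
    intro l e
    simp [a, col, w]
  refine ⟨Tset a, isFrame_basis a, ?_, _, inferInstance, a, Function.Embedding.subtype _, rfl, ?_⟩
  · rintro _ ⟨e, rfl⟩
    rw [mem_Dset_iff]
    intro i j k hi hj hk
    rw [ha] at hi hj hk
    rcases hs e _ _ _ hi hj hk with h | h | h
    · exact Or.inl (Subtype.ext h)
    · exact Or.inr (Or.inl (Subtype.ext h))
    · exact Or.inr (Or.inr (Subtype.ext h))
  · funext v
    by_cases hv : M v = 0
    · rw [hv, ext0_not]
      rintro ⟨l, hl⟩ rfl
      exact hl hv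
    · have := ext0_apply (Function.Embedding.subtype fun v => v ∈ {v | M v ≠ 0})
        (fun l => ev (col R) (a.coord l)) ⟨v, hv⟩
      refine Eq.trans ?_ this.symm
      funext e
      exact (ha ⟨v, hv⟩ e).symm

end rows

end Rows

open Rows in
theorem s_rows (hroot : S_ROOT) (hec : S_ECONN) : S_ROWS := by
  intro ι E _ _ _ _ M M' hM hM' hspan
  obtain ⟨N, hN, e1, s1, l1⟩ := hroot M hM
  obtain ⟨N', hN', e2, s2, l2⟩ := hroot M' hM'
  obtain ⟨A, hA, cA, rA⟩ := exists_frame (span F (Set.range M)) N hN s1 l1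
  obtain ⟨B, hB, cB, rB⟩ := exists_frame (span F (Set.range M)) N' hN' (s2.trans hspan.symm) l2
  have h := hec A B _ hA hB (fun x hx => ⟨cA hx, cB hx⟩) (col_spans _)
  exact Relation.EqvGen.trans _ _ _ e1 (Relation.EqvGen.trans _ _ _ (econn_eqv h cA rA N' rB)
    (Relation.EqvGen.symm _ _ e2))

end Pool.Agent.P.MP_053557_co
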