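import Pool.Agent.P.MP_053557_co.Basic2

/-! A star without negative edges inside its support. -/

namespace Pool.Agent.P.MP_053557_co

open Module Submodule

namespace Sc0

variable {V : Type} [AddCommGroup V] [Module F V] {ι κ : Type}

theorem mem_T_of_supp (b : Basis ι F V) {x : V} (i : ι) (h : ∀ j, j ≠ i → b.repr x j = 0) :
    x ∈ Tset b := by
  rw [eq_smul_of_supp b i h]; exact smul_mem_Tset _ (self_mem_Tset b i)

/-- Positive edges inside `I`. -/
def XE (a : Basis ι F V) (E : Set V) (I : Finset ι) : Set V :=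
  {e | e ∈ E ∧ ∃ i ∈ I, ∃ i' ∈ I, i ≠ i' ∧ e = a i - a i'}

/-- Those supported in `J`. -/
def XJ (a : Basis ι F V) (E : Set V) (I J : Finset ι) : Set V :=
  {e | e ∈ XE a E I ∧ ∀ m, a.repr e m ≠ 0 → m ∈ J}

/-- A pendant part. -/
structure Pd (a : Basis ι F V) (E : Set V) (I J : Finset ι) (k : ι) : Prop where
  mem : k ∈ J
  sub : J ⊆ I
  two : 2 ≤ J.card
  cl : ∀ e ∈ XE a E I, ∀ i ∈ J, i ≠ k → a.repr e i ≠ 0 → ∀ m, a.repr e m ≠ 0 → m ∈ J
  sp : ∀ i ∈ J, a i - a k ∈ span F (XJ a E I J)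

variable [Fintype ι] [DecidableEq ι] [Fintype κ] [DecidableEq κ]
  {a : Basis ι F V} {f : Basis κ F V} {j : κ} {I : Finset ι} {E : Set V}

theorem cls0 (hI : ∀ i, f.repr (a i) j = if i ∈ I then 1 else 0) {e : V}
    (he : e ∈ Dset (Tset a)) (h0 : f.repr e j = 0) {v : ι} (hv : v ∈ I)
    (h2 : a.repr e v ≠ 0) : ∃ i ∈ I, ∃ i' ∈ I, i ≠ i' ∧ e = a i - a i' := by
  have h1 : ∀ i ∈ I, f.repr (a i) j = 1 := fun i hi => by rw [hI, if_pos hi]
  have key : ∀ e ∈ Dset (Tset a), f.repr e j = 0 → a.repr e v = 1 →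
      ∃ i ∈ I, v ≠ i ∧ e = a v - a i := by
    intro e he h0 h3
    rcases cls_at a I he h3 with ⟨t, ht, -, rfl⟩ | ⟨i, hi, hiv, rfl | rfl⟩
    · have h4 : f.repr t j = 0 := by
        rw [repr_j_eq_sum hI]; exact Finset.sum_eq_zero ht.2
      simp [h1 v hv, h4] at h0
    · exact ⟨i, hi, hiv.symm, rfl⟩
    · simp [h1 v hv, h1 i hi] at h0; exact absurd h0 (by decide)
  rcases F_ne_cases h2 with h3 | h3
  · obtain ⟨i, hi, h4, h5⟩ := key e he h0 h3
    exact ⟨v, hv, i, hi, h4, h5⟩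
  · obtain ⟨i, hi, h4, h5⟩ := key (-e) (neg_mem_Dset he) (by simp [h0]) (by simp [h3])
    exact ⟨i, hi, v, hv, h4.symm, by rw [← neg_neg e, h5]; abel⟩

theorem pd_self (hI : ∀ i, f.repr (a i) j = if i ∈ I then 1 else 0) (hE : E ⊆ Dset (Tset a))
    (hNB : NB E (f.coord j)) (h2 : 2 ≤ I.card) {k : ι} (hk : k ∈ I) : Pd a E I I k := by
  have hsupp : ∀ e ∈ XE a E I, ∀ m, a.repr e m ≠ 0 → m ∈ I := by
    rintro e ⟨-, i, hi, i', hi', -, rfl⟩ m hm
    by_contra hc
    have h1 : i ≠ m := fun h => hc (h ▸ hi)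
    have h2 : i' ≠ m := fun h => hc (h ▸ hi')
    simp [single_ne h1, single_ne h2] at hm
  refine ⟨hk, subset_rfl, h2, fun e he _ _ _ _ => hsupp e he, fun i hi => ?_⟩
  have hout : ∀ m, f.coord j (a m) = 0 → m ∉ I := by
    intro m hm hc
    simp [hI, hc] at hm
  have h1 := (s_split a E (f.coord j) hE hNB).2 (a i - a k) (fun m hm => by
    have h1 : i ≠ m := fun h => hout m hm (h ▸ hi)
    have h2 : k ≠ m := fun h => hout m hm (h ▸ hk)
    simp [single_ne h1, single_ne h2]) (by simp [hI, hi, hk])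
  refine (span_le.2 ?_ : span F _ ≤ _) h1
  rintro e ⟨he, h3, h4⟩
  by_cases h0 : e = 0
  · rw [h0]; exact zero_mem _
  obtain ⟨v, hv⟩ := exists_repr_ne a h0
  have hvI : v ∈ I := by_contra fun hc => hv (h4 v (by simp [hI, hc]))
  have h5 : e ∈ XE a E I := ⟨he, cls0 hI (hE he) (by simpa using h3) hvI hv⟩
  exact subset_span ⟨h5, hsupp e h5⟩

theorem xj_j (hI : ∀ i, f.repr (a i) j = if i ∈ I then 1 else 0) {J : Finset ι} {e : V}
    (he : e ∈ XJ a E I J) : f.repr e j = 0 := by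
  obtain ⟨⟨-, i, hi, i', hi', -, rfl⟩, -⟩ := he
  simp [hI, hi, hi']

theorem xj_ends {J : Finset ι} {e : V} (he : e ∈ XJ a E I J) :
    ∃ i ∈ J, ∃ i' ∈ J, i ≠ i' ∧ e = a i - a i' := by
  obtain ⟨⟨-, i, -, i', -, h, rfl⟩, h2⟩ := he
  exact ⟨i, h2 i (by simp [single_ne h.symm]), i', h2 i' (by simp [single_ne h]), h, rfl⟩

/-- In a minimal pendant part some vertex of the other frame is untouched. -/
theorem untouched (hP : S_PEND) (hE' : E ⊆ Dset (Tset f)) {J : Finset ι} {k : ι}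
    (hJ : Pd a E I J k) (hmin : ∀ J' k', Pd a E I J' k' → J.card ≤ J'.card)
    {r : ℕ} (hr : 2 ≤ r) {χ : Fin r → V →ₗ[F] F}
    (hχ : Cells f (span F (XJ a E I J) ⊔ span F {f j}) χ) :
    ∃ l, l ≠ j ∧ ∀ e ∈ XJ a E I J, f.repr e l = 0 := by
  by_contra hc
  push Not at hc
  let q0 : Fin r := ⟨0, by omega⟩
  let q1 : Fin r := ⟨1, by omega⟩
  have hq : q0 ≠ q1 := by simp [q0, q1]
  have hj : ∀ q, χ q (f j) = 0 := fun q =>
    hχ.van q _ (mem_sup_right (subset_span rfl))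
  let E1 : Set V := {e | e ∈ XJ a E I J ∧ ∃ l, f.repr e l ≠ 0 ∧ χ q0 (f l) ≠ 0}
  let E2 : Set V := {e | e ∈ XJ a E I J ∧ ∀ l, f.repr e l ≠ 0 → χ q0 (f l) = 0}
  have hU : E1 ∪ E2 = XJ a E I J := by
    ext e
    constructor
    · rintro (h | h) <;> exact h.1
    · intro h
      by_cases h1 : ∃ l, f.repr e l ≠ 0 ∧ χ q0 (f l) ≠ 0
      · exact Or.inl ⟨h, h1⟩
      · push Not at h1
        exact Or.inr ⟨h, h1⟩
  have h1 : ∀ e ∈ E1, ∀ m, f.repr e m ≠ 0 → χ q0 (f m) ≠ 0 := by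
    rintro e ⟨he, l, hl, hl'⟩ m hm
    exact ends_in_supp f (χ q0) (hE' he.1.1) (hχ.van q0 _ (mem_sup_left (subset_span he))) hl
      hl' hm
  have hex : ∀ q, ∃ l, χ q (f l) ≠ 0 ∧ ∃ e ∈ XJ a E I J, f.repr e l ≠ 0 := by
    intro q
    obtain ⟨l, hl⟩ := hχ.ne q
    exact ⟨l, hl, hc l fun h => hl (h ▸ hj q)⟩
  have hn1 : E1.Nonempty := by
    obtain ⟨l, hl, e, he, h2⟩ := hex q0
    exact ⟨e, he, l, h2, hl⟩
  have hn2 : E2.Nonempty := by
    obtain ⟨l, hl, e, he, h2⟩ := hex q1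
    refine ⟨e, he, fun m hm => by_contra fun h3 => ?_⟩
    exact hq (hχ.disj l q0 q1 (h1 e ⟨he, m, hm, h3⟩ l h2) hl)
  have hinf : span F E1 ⊓ span F E2 = ⊥ := by
    rw [eq_bot_iff]
    intro x hx
    refine eq_of_repr f fun l => ?_
    by_cases hl : χ q0 (f l) = 0
    · simpa using repr_span_zero f (fun e he => by_contra fun h => h1 e he l h hl) hx.1
    · simpa using repr_span_zero f (fun e he => by_contra fun h => hl (he.2 l h)) hx.2
  obtain ⟨J', k', hk', hlt, h2, hkk, hcl, hsp⟩ := hP a J k E1 E2 hJ.mem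
    (fun e he => xj_ends (hU ▸ he)) (fun i hi => hU ▸ hJ.sp i hi) hinf hn1 hn2
  rw [hU] at hcl hsp
  have hJ' : Pd a E I J' k' := by
    refine ⟨hk', hlt.subset.trans hJ.sub, h2, fun e he i hi hik h3 => ?_, fun i hi => ?_⟩
    · have h4 : i ≠ k := by
        rintro rfl
        exact hik (hkk hi)
      exact hcl e ⟨he, hJ.cl e he i (hlt.subset hi) h4 h3⟩ i hi hik h3
    · refine span_mono ?_ (hsp i hi)
      exact fun e he => And.intro he.1.1 he.2
  have := hmin J' k' hJ'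
  have := Finset.card_lt_card hlt
  omega

/-- The new stars. -/
noncomputable def st (a : Basis ι F V) (f : Basis κ F V) (j : κ) (J : Finset ι) (k : ι) {r : ℕ}
    (χ : Fin r → V →ₗ[F] F) : Fin r ⊕ {i // i ∈ J} → V →ₗ[F] F
  | Sum.inl q => χ q
  | Sum.inr i => if (i : ι) = k then f.coord j - ∑ m ∈ J.erase k, a.coord m else a.coord i

theorem st_ker (hI : ∀ i, f.repr (a i) j = if i ∈ I then 1 else 0) {J : Finset ι} {k : ι}
    (hJ : Pd a E I J k) {r : ℕ} {χ : Fin r → V →ₗ[F] F}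
    (hχ : Cells f (span F (XJ a E I J) ⊔ span F {f j}) χ) (w : V)
    (hw : ∀ m, st a f j J k χ m w = 0) : w = 0 := by
  have h1 : ∀ i ∈ J, i ≠ k → a.repr w i = 0 := fun i hi hik => by
    simpa [st, hik] using hw (Sum.inr ⟨i, hi⟩)
  have h2 : f.repr w j = 0 := by
    have h3 := hw (Sum.inr ⟨k, hJ.mem⟩)
    simp only [st, if_true, LinearMap.sub_apply, LinearMap.coe_sum, Finset.sum_apply,
      Basis.coord_apply] at h3
    rw [Finset.sum_eq_zero fun m hm =>
      h1 m (Finset.mem_of_mem_erase hm) (Finset.ne_of_mem_erase hm)] at h3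
    simpa using h3
  obtain ⟨w0, hw0, z, hz, rfl⟩ := mem_sup.1 (hχ.ker w fun q => hw (Sum.inl q))
  obtain ⟨c, rfl⟩ := mem_span_singleton.1 hz
  have h4 : f.repr w0 j = 0 := repr_span_zero f (fun e he => xj_j hI he) hw0
  have h5 : c = 0 := by simpa [h4] using h2
  subst h5
  simp only [zero_smul, add_zero] at h1 ⊢
  have h6 : ∀ m, m ≠ k → a.repr w0 m = 0 := by
    intro m hm
    by_cases hmJ : m ∈ J
    · exact h1 m hmJ hm
    · exact repr_span_zero a (fun e he => by_contra fun h => hmJ (he.2 m h)) hw0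
  rw [eq_smul_of_supp a k h6] at h4 ⊢
  have h7 : a.repr w0 k = 0 := by simpa [hI, hJ.sub hJ.mem] using h4
  rw [h7, zero_smul]

theorem card_le (hI : ∀ i, f.repr (a i) j = if i ∈ I then 1 else 0) {J : Finset ι} {k : ι}
    (hJ : Pd a E I J k) :
    J.card ≤ finrank F ↥(span F (XJ a E I J) ⊔ span F {f j}) := by
  have := Module.Finite.of_basis a
  let v : {i // i ∈ J} → V := fun i => if (i : ι) = k then f j else a i - a k
  have hli : LinearIndependent F v := by
    rw [Fintype.linearIndependent_iff]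
    intro c hc
    have hk : c ⟨k, hJ.mem⟩ = 0 := by
      have h1 := congrArg (fun x => f.repr x j) hc
      simp only [map_sum, map_smul, Finsupp.coe_finsetSum, Finset.sum_apply, Finsupp.smul_apply,
        smul_eq_mul, map_zero, Finsupp.coe_zero, Pi.zero_apply] at h1
      rw [Finset.sum_eq_single ⟨k, hJ.mem⟩] at h1
      · simpa [v] using h1
      · intro i _ hi
        have h2 : (i : ι) ≠ k := fun h => hi (Subtype.ext h)
        simp [v, h2, hI, hJ.sub i.2, hJ.sub hJ.mem]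
      · simp
    intro m
    by_cases hm : (m : ι) = k
    · have : m = ⟨k, hJ.mem⟩ := Subtype.ext hm
      rw [this, hk]
    have h1 := congrArg (fun x => a.repr x m) hc
    simp only [map_sum, map_smul, Finsupp.coe_finsetSum, Finset.sum_apply, Finsupp.smul_apply,
      smul_eq_mul, map_zero, Finsupp.coe_zero, Pi.zero_apply] at h1
    rw [Finset.sum_eq_single m] at h1
    · simpa [v, hm, single_ne (Ne.symm hm)] using h1
    · intro i _ hi
      by_cases h2 : (i : ι) = k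
      · have : i = ⟨k, hJ.mem⟩ := Subtype.ext h2
        rw [this, hk, zero_mul]
      · have h3 : (i : ι) ≠ m := fun h => hi (Subtype.ext h)
        simp [v, h2, single_ne h3, single_ne (Ne.symm hm)]
    · simp
  have h1 := finrank_span_eq_card hli
  rw [Fintype.card_coe] at h1
  rw [← h1]
  refine Submodule.finrank_mono (span_le.2 ?_)
  rintro _ ⟨i, rfl⟩
  by_cases h : (i : ι) = k
  · simp only [v, h, if_true]; exact mem_sup_right (subset_span rfl)
  · simp only [v, h, if_false]; exact mem_sup_left (hJ.sp i i.2)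

theorem card_ge {ρ : Type} [Fintype ρ] [Module.Finite F V] (φ : ρ → V →ₗ[F] F)
    (h : ∀ w, (∀ m, φ m w = 0) → w = 0) : finrank F V ≤ Fintype.card ρ := by
  have hinj : Function.Injective (LinearMap.pi φ : V →ₗ[F] (ρ → F)) := by
    rw [injective_iff_map_eq_zero]
    exact fun w hw => h w fun m => congrFun hw m
  simpa using LinearMap.finrank_le_finrank_of_injective hinj

theorem core (hP : S_PEND) (hC : S_CELL) (hK : S_CARD) (hR : S_RC) {A B : Set V}
    (hA : IsFrame A) (hB : IsFrame B) (ra : Rr A B (Tset a)) (rf : Rr A B (Tset f))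
    (hI : ∀ i, f.repr (a i) j = if i ∈ I then 1 else 0) (hNB : NB (Ed A B) (f.coord j))
    (h2 : 2 ≤ I.card) (hO : I.card + 2 ≤ Fintype.card ι)
    (hH : ∀ e ∈ Ed A B, ∀ i ∈ I, ∀ i' ∈ I, i ≠ i' → a.repr e i ≠ 0 → a.repr e i' ≠ 0 →
      f.repr e j = 0) :
    ∃ G, Ok A B G ∧ Share (Tset a) G ∧ Share G (Tset f) := by
  classical
  have := Module.Finite.of_basis a
  have hE : Ed A B ⊆ Dset (Tset a) := ra.ed_subset
  have hE' : Ed A B ⊆ Dset (Tset f) := rf.ed_subset
  obtain ⟨k0, hk0⟩ : I.Nonempty := Finset.card_pos.1 (by omega)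
  have hex : ∃ n, ∃ J k, Pd a (Ed A B) I J k ∧ J.card = n :=
    ⟨_, I, k0, pd_self hI hE hNB h2 hk0, rfl⟩
  obtain ⟨J, k, hJ, hn⟩ := Nat.find_spec hex
  have hmin : ∀ J' k', Pd a (Ed A B) I J' k' → J.card ≤ J'.card := fun J' k' h =>
    hn ▸ Nat.find_min' hex ⟨J', k', h, rfl⟩
  obtain ⟨r, χ, hχ⟩ := hC f (span F (XJ a (Ed A B) I J) ⊔ span F {f j})
    ((dSp_span fun e he => hE' he.1.1).sup
      (dSp_span fun e he => he ▸ Tset_subset_Dset _ (self_mem_Tset f j)))
  have hcard := hK f _ χ hχ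
  have hker := st_ker hI hJ hχ
  have h3 := card_le hI hJ
  have h4 := card_ge _ hker
  have h5 := finrank_eq_card_basis a
  have h6 := card_eq_card a f
  have h7 := Finset.card_le_card hJ.sub
  simp only [Fintype.card_sum, Fintype.card_fin, Fintype.card_coe] at h4 hcard
  obtain ⟨g, hg⟩ := exists_basis_of_coords (st a f j J k χ) hker
    (by simp only [Fintype.card_sum, Fintype.card_fin, Fintype.card_coe]; omega)
  obtain ⟨l, hlj, hl⟩ := untouched hP hE' hJ hmin (by omega) hχ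
  have hnt : ¬ Tch f (span F (XJ a (Ed A B) I J) ⊔ span F {f j}) l := by
    rintro ⟨w, hw, h8⟩
    obtain ⟨w0, hw0, z, hz, rfl⟩ := mem_sup.1 hw
    obtain ⟨c, rfl⟩ := mem_span_singleton.1 hz
    apply h8
    simp [repr_span_zero f hl hw0, single_ne hlj.symm]
  obtain ⟨q, c, hc, hq⟩ := hχ.of_not_tch hnt
  have gq : ∀ q x, g.repr x (Sum.inl q) = χ q x := fun q x => hg _ x
  have gi : ∀ i (hi : i ∈ J), i ≠ k → ∀ x, g.repr x (Sum.inr ⟨i, hi⟩) = a.repr x i := by
    intro i hi hik x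
    rw [hg]; simp [st, hik]
  have gk : ∀ x, g.repr x (Sum.inr ⟨k, hJ.mem⟩) =
      f.repr x j - ∑ m ∈ J.erase k, a.repr x m := by
    intro x
    rw [hg]; simp [st]
  have hχj : ∀ q, χ q (f j) = 0 := fun q => hχ.van q _ (mem_sup_right (subset_span rfl))
  have hχa : ∀ q, ∀ i ∈ J, χ q (a i - a k) = 0 := fun q i hi =>
    hχ.van q _ (mem_sup_left (hJ.sp i hi))
  have idx : ∀ {p : Fin r ⊕ {i // i ∈ J} → Prop}, (∀ q, p (Sum.inl q)) →
      p (Sum.inr ⟨k, hJ.mem⟩) → (∀ i (hi : i ∈ J), i ≠ k → p (Sum.inr ⟨i, hi⟩)) → ∀ m, p m := by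
    intro p p1 p2 p3 m
    rcases m with q | ⟨i, hi⟩
    · exact p1 q
    · by_cases h : i = k
      · subst h; exact p2
      · exact p3 i hi h
  let P : V →ₗ[F] V := LinearMap.id - ∑ m ∈ J.erase k, (a.coord m).smulRight (a m - a k)
  have hP0 : ∀ x, P x = x - ∑ m ∈ J.erase k, a.repr x m • (a m - a k) := by
    intro x; simp [P]
  have Pfix : ∀ x, (∀ i ∈ J, i ≠ k → a.repr x i = 0) → P x = x := by
    intro x hx
    rw [hP0, Finset.sum_eq_zero fun m hm => by
      rw [hx m (Finset.mem_of_mem_erase hm) (Finset.ne_of_mem_erase hm), zero_smul], sub_zero]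
  have Pq : ∀ q x, χ q (P x) = χ q x := by
    intro q x
    rw [hP0, map_sub, map_sum, Finset.sum_eq_zero fun m hm => by
      rw [map_smul, hχa q m (Finset.mem_of_mem_erase hm), smul_zero], sub_zero]
  have Pa : ∀ i ∈ J, i ≠ k → ∀ x, a.repr (P x) i = 0 := by
    intro i hi hik x
    rw [hP0]
    simp only [map_sub, map_sum, map_smul, Finsupp.coe_sub, Finsupp.coe_finsetSum, Pi.sub_apply,
      Finset.sum_apply, Finsupp.smul_apply, smul_eq_mul]
    rw [Finset.sum_eq_single i]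
    · simp [single_ne hik.symm]
    · intro m _ hm
      simp [single_ne hm, single_ne hik.symm]
    · intro h; exact absurd (Finset.mem_erase.2 ⟨hik, hi⟩) h
  have Pj : ∀ x, f.repr (P x) j = f.repr x j := by
    intro x
    rw [hP0]
    simp only [map_sub, map_sum, map_smul, Finsupp.coe_sub, Finsupp.coe_finsetSum, Pi.sub_apply,
      Finset.sum_apply, Finsupp.smul_apply, smul_eq_mul]
    rw [Finset.sum_eq_zero fun m hm => by
      simp [hI, hJ.sub (Finset.mem_of_mem_erase hm), hJ.sub hJ.mem], sub_zero]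
  have Pk : ∀ x, g.repr (P x) (Sum.inr ⟨k, hJ.mem⟩) = f.repr x j := by
    intro x
    rw [gk, Pj, Finset.sum_eq_zero fun m hm =>
      Pa m (Finset.mem_of_mem_erase hm) (Finset.ne_of_mem_erase hm) x, sub_zero]
  have PT : ∀ x ∈ Tset f, P x ∈ Tset g := by
    intro x hx
    by_cases hj : f.repr x j = 0
    · rw [mem_Tset_iff]
      have key : ∀ m, g.repr (P x) m ≠ 0 → ∃ q, m = Sum.inl q ∧ χ q x ≠ 0 := by
        refine idx (fun q h => ⟨q, rfl, by rwa [gq, Pq] at h⟩) (fun h => ?_) fun i hi hik h => ?_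
        · rw [Pk] at h; exact absurd hj h
        · rw [gi i hi hik] at h; exact absurd (Pa i hi hik x) h
      intro m m' hm hm'
      obtain ⟨q1, rfl, e1⟩ := key m hm
      obtain ⟨q2, rfl, e2⟩ := key m' hm'
      rw [hχ.T hx e1 e2]
    · refine mem_T_of_supp g (Sum.inr ⟨k, hJ.mem⟩) (idx (fun q _ => ?_) (fun h => absurd rfl h)
        fun i hi hik _ => ?_)
      · rw [gq, Pq, Tset_eq_smul f hx hj, map_smul, hχj, smul_zero]
      · rw [gi i hi hik, Pa i hi hik]
  have hga : ∀ i ∈ J, a i - a k + g (Sum.inr ⟨k, hJ.mem⟩) ∈ Tset g := by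
    intro i hi
    by_cases hik : i = k
    · subst hik; simpa using self_mem_Tset g _
    refine mem_T_of_supp g (Sum.inr ⟨i, hi⟩) (idx (fun q _ => ?_) (fun _ => ?_)
      fun m hm hmk h => ?_)
    · rw [map_add, Finsupp.add_apply, gq, hχa q i hi, repr_basis_ne g (by simp), add_zero]
    · rw [map_add, Finsupp.add_apply, gk, repr_basis_self, Finset.sum_eq_single i]
      · simp [hI, hJ.sub hi, hJ.sub hJ.mem, single_ne (Ne.symm hik)]
      · intro m hm hmi
        simp [single_ne hmi.symm, single_ne (Finset.ne_of_mem_erase hm).symm]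
      · intro h; exact absurd (Finset.mem_erase.2 ⟨hik, hi⟩) h
    · have hmi : i ≠ m := fun h' => h (by subst h'; rfl)
      rw [map_add, Finsupp.add_apply, gi m hm hmk,
        repr_basis_ne g (fun h' => hmk (by simpa using h'.symm))]
      simp [single_ne hmi, single_ne (Ne.symm hmk)]
  have one : ∀ x, ∀ i ∈ J, i ≠ k → (∀ m ∈ I, m ≠ i → a.repr x m = 0) →
      g.repr x (Sum.inr ⟨k, hJ.mem⟩) = 0 := by
    intro x i hi hik hx
    rw [gk, repr_j_eq_sum hI, Finset.sum_eq_single i (fun m hm hmi => hx m hm hmi)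
      (fun h => absurd (hJ.sub hi) h), Finset.sum_eq_single i
      (fun m hm hmi => hx m (hJ.sub (Finset.mem_of_mem_erase hm)) hmi)
      (fun h => absurd (Finset.mem_erase.2 ⟨hik, hi⟩) h), sub_self]
  have hED : Ed A B ⊆ Dset (Tset g) := by
    intro e he
    by_cases ht : ∀ i ∈ J, i ≠ k → a.repr e i = 0
    · obtain ⟨y, hy, z, hz, h8⟩ := hE' he
      rw [← Pfix e ht, h8, map_sub]
      exact sub_mem_Dset (PT y hy) (PT z hz)
    push Not at ht
    obtain ⟨i, hi, hik, h8⟩ := ht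
    by_cases hj : f.repr e j = 0
    · have h9 : e ∈ XE a (Ed A B) I := ⟨he, cls0 hI (hE he) hj (hJ.sub hi) h8⟩
      obtain ⟨i1, hi1, i2, hi2, -, rfl⟩ := xj_ends ⟨h9, hJ.cl e h9 i hi hik h8⟩
      exact ⟨_, hga i1 hi1, _, hga i2 hi2, by abel⟩
    · have h9 : ∀ m ∈ I, m ≠ i → a.repr e m = 0 := fun m hm hmi => by_contra fun h =>
        hj (hH e he m hm i (hJ.sub hi) hmi h h8)
      have hy := sub_mem_Tset f (hE' he) hj
      have h10 : e - P (e - f.repr e j • f j) ∈ Tset g := by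
        refine mem_T_of_supp g (Sum.inr ⟨i, hi⟩) (idx (fun q _ => ?_) (fun _ => ?_)
          fun m hm hmk h => ?_)
        · rw [gq, map_sub, Pq]; simp [hχj]
        · rw [map_sub, Finsupp.sub_apply, one e i hi hik h9, Pk]; simp
        · have hmi : m ≠ i := fun h' => h (by subst h'; rfl)
          rw [gi m hm hmk, map_sub, Finsupp.sub_apply, Pa m hm hmk, h9 m (hJ.sub hm) hmi,
            sub_zero]
      have := add_mem_Dset h10 (PT _ hy)
      simpa using this
  have hAB : A ∩ B ⊆ Tset g := by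
    intro x hx
    have hxa := ra.inter_subset hx
    have hxf := rf.inter_subset hx
    by_cases ht : ∀ i ∈ J, i ≠ k → a.repr x i = 0
    · rw [← Pfix x ht]; exact PT x hxf
    push Not at ht
    obtain ⟨i, hi, hik, h8⟩ := ht
    have h9 : ∀ m, m ≠ i → a.repr x m = 0 := fun m hmi => by_contra fun h =>
      hmi ((mem_Tset_iff a).1 hxa m i h h8)
    have hj : f.repr x j ≠ 0 := by
      rw [repr_j_eq_sum hI, Finset.sum_eq_single i (fun m _ hmi => h9 m hmi)
        (fun h => absurd (hJ.sub hi) h)]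
      exact h8
    refine mem_T_of_supp g (Sum.inr ⟨i, hi⟩) (idx (fun q _ => ?_) (fun _ => ?_)
      fun m hm hmk h => ?_)
    · rw [gq, Tset_eq_smul f hxf hj, map_smul, hχj, smul_zero]
    · exact one x i hi hik fun m _ hmi => h9 m hmi
    · have hmi : m ≠ i := fun h' => h (by subst h'; rfl)
      rw [gi m hm hmk, h9 m hmi]
  have hRr : Rr A B (Tset g) := by
    refine hR A B g {m | (∃ q, m = Sum.inl q) ∨ m = Sum.inr ⟨k, hJ.mem⟩} hA hB hED hAB ?_
      (Or.inr (Or.inl ⟨Tset f, P, rf, PT, fun m hm => Pfix _ fun i hi hik => ?_⟩))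
    · refine idx (fun q h => absurd (Or.inl ⟨q, rfl⟩) h) (fun h => absurd (Or.inr rfl) h)
        fun i hi hik _ => ⟨Tset a, isFrame_basis a, ra, ?_⟩
      rw [coord_eq_of_repr (φ := a.coord i) (gi i hi hik)]
      exact isStar_coord a i
    · rw [← gi i hi hik]
      refine repr_basis_ne g ?_
      rcases hm with ⟨q, rfl⟩ | rfl
      · simp
      · intro h; exact hik (by simpa using h.symm)
  obtain ⟨i, hi, hik⟩ := Finset.exists_mem_ne (lt_of_lt_of_le (by norm_num) hJ.two) k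
  refine ⟨Tset g, ⟨isFrame_basis g, hRr⟩,
    share_of_coord (i := i) (l := Sum.inr ⟨i, hi⟩) one_ne_zero fun x => ?_,
    share_of_coord (i := Sum.inl q) (l := l) hc fun x => ?_⟩
  · rw [gi i hi hik, one_mul]
  · rw [gq, hq]
    simp [← mul_assoc, F_sq hc]

end Sc0

theorem s_sc0 (hP : S_PEND) (hC : S_CELL) (hK : S_CARD) (hR : S_RC) : S_SC0 := by
  intro V _ _ ι κ _ _ _ _ A B a f j hA hB ra rf hNB h1 h2 h3
  obtain ⟨a', e1, e2, e3⟩ := resign a (fun i => if f.repr (a i) j = 0 then 1 else f.repr (a i) j)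
    fun i => by split_ifs with h; exacts [one_ne_zero, h]
  let I : Finset ι := Finset.univ.filter fun i => f.repr (a i) j ≠ 0
  have hI : ∀ i, i ∈ I ↔ f.repr (a i) j ≠ 0 := fun i => by simp [I]
  rw [← e3] at ra ⊢
  refine Sc0.core (I := I) hP hC hK hR hA hB ra rf (fun i => ?_) hNB ?_ ?_ ?_
  · rw [e1]
    by_cases h : f.repr (a i) j = 0
    · simp [hI, h]
    · simp [hI, h, F_sq h]
  · obtain ⟨i, i', h, hi, hi'⟩ := h1
    exact Finset.one_lt_card.2 ⟨i, (hI i).2 hi, i', (hI i').2 hi', h⟩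
  · obtain ⟨o, o', h, ho, ho'⟩ := h2
    have h4 : 1 < Iᶜ.card := Finset.one_lt_card.2
      ⟨o, by simp [hI, ho], o', by simp [hI, ho'], h⟩
    have := Finset.card_add_card_compl I
    omega
  · intro e he i hi i' hi' h h4 h5
    rw [e2] at h4 h5
    exact h3 e he i i' h (right_ne_zero_of_mul h4) (right_ne_zero_of_mul h5) ((hI i).1 hi)
      ((hI i').1 hi')

end Pool.Agent.P.MP_053557_co
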