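import Pool.Agent.P.MP_053557_co.Stmts2

/-! The operations keep the matroid; dependent rows can be removed. -/

namespace Pool.Agent.P.MP_053557_co

open Module Submodule

namespace Sound

theorem core_inv {k : ℕ} {Z : Matrix (Fin k) (Fin k) F} (h : Core k Z) :
    ∃ Z' : Matrix (Fin k) (Fin k) F, Z' * Z = 1 := by
  cases h with
  | k4 => exact ⟨!![1, -1, -1; -1, 1, -1; -1, -1, 1], by decide⟩
  | pinch => exact ⟨!![0, -1, -1; -1, 1, -1; -1, -1, 1], by decide⟩
  | had => exact ⟨!![1, 1, 1, 1; 1, 1, -1, -1; 1, -1, 1, -1; 1, -1, -1, 1], by decide⟩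
  | conf => exact ⟨!![-1, 1, 1, 1, 1, 1; 1, -1, 1, -1, -1, 1; 1, 1, -1, 1, -1, -1;
      1, -1, 1, -1, 1, -1; 1, -1, -1, 1, -1, 1; 1, 1, -1, -1, 1, -1], by decide⟩

theorem span_eq_of {ι X : Type} [AddCommGroup X] [Module F X] {r r' : ι → X}
    (h1 : ∀ i, r' i ∈ span F (Set.range r)) (h2 : ∀ i, r i ∈ span F (Set.range r')) :
    span F (Set.range r') = span F (Set.range r) :=
  le_antisymm (span_le.2 (Set.range_subset_iff.2 h1)) (span_le.2 (Set.range_subset_iff.2 h2))

theorem self_mem {ι X : Type} [AddCommGroup X] [Module F X] (r : ι → X) (i : ι) :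
    r i ∈ span F (Set.range r) := subset_span ⟨i, rfl⟩

theorem span_starOp {ι X : Type} [DecidableEq ι] [AddCommGroup X] [Module F X] {r r' : ι → X}
    (h : StarOp r r') : span F (Set.range r') = span F (Set.range r) := by
  cases h with
  | relabel σ => rw [σ.surjective.range_comp]
  | switch v =>
    refine span_eq_of (fun i => ?_) fun i => ?_
    · by_cases hi : i = v
      · rw [hi, Function.update_self]
        exact neg_mem (self_mem r v)
      · rw [Function.update_of_ne hi]
        exact self_mem r i
    · have := self_mem (Function.update r v (-r v)) i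
      by_cases hi : i = v
      · rw [hi, Function.update_self] at this
        rw [hi]
        exact neg_mem_iff.1 this
      · rwa [Function.update_of_ne hi] at this
  | twist K x y hxy hx hy =>
    refine span_eq_of (fun i => ?_) fun i => ?_
    · split_ifs
      · exact add_mem (self_mem r i) (Submodule.sum_mem _ fun v _ => self_mem r v)
      · exact self_mem r i
    · have key : ∀ j, ¬ (j = x ∨ j = y) → r j ∈ span F (Set.range
          fun i => if i = x ∨ i = y then r i + ∑ v ∈ K, r v else r i) := by
        intro j hj
        have := self_mem (fun i => if i = x ∨ i = y then r i + ∑ v ∈ K, r v else r i) j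
        rwa [if_neg hj] at this
      by_cases hi : i = x ∨ i = y
      · have := self_mem (fun i => if i = x ∨ i = y then r i + ∑ v ∈ K, r v else r i) i
        rw [if_pos hi] at this
        refine (Submodule.add_mem_iff_left _ (Submodule.sum_mem _ fun v hv => key v ?_)).1 this
        rintro (rfl | rfl)
        · exact hx hv
        · exact hy hv
      · exact key i hi
  | rotate z J K τ hJ hK hJK hτ =>
    refine span_eq_of (fun i => ?_) fun i => ?_
    · split_ifs
      · exact add_mem (self_mem r z) (Submodule.sum_mem _ fun v _ => self_mem r v)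
      · exact sub_mem (self_mem r i) (Submodule.sum_mem _ fun v _ => self_mem r v)
    · set r' : ι → X := fun i => if i = z then r z + ∑ v ∈ J ∪ K, r v
        else r i - ∑ v ∈ K.filter fun v => τ v = i, r v with hr'
      have k1 : ∀ v ∈ K, r v ∈ span F (Set.range r') := by
        intro v hv
        have h1 := self_mem r' v
        have h2 : K.filter (fun w => τ w = v) = ∅ := by
          rw [Finset.filter_eq_empty_iff]
          intro w hw he
          exact Finset.disjoint_left.1 hJK (he ▸ hτ w hw) hv
        have h3 : r' v = r v := by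
          simp only [hr']
          rw [if_neg fun e : v = z => hK (e ▸ hv), h2, Finset.sum_empty, sub_zero]
        rwa [h3] at h1
      have k2 : ∀ j, j ≠ z → r j ∈ span F (Set.range r') := by
        intro j hj
        have h1 := self_mem r' j
        have h3 : r' j = r j - ∑ v ∈ K.filter fun v => τ v = j, r v := by
          simp only [hr']
          rw [if_neg hj]
        rw [h3] at h1
        exact (Submodule.sub_mem_iff_left _ (Submodule.sum_mem _ fun v hv =>
          k1 v (Finset.mem_filter.1 hv).1)).1 h1
      by_cases hi : i = z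
      · have h1 := self_mem r' z
        have h3 : r' z = r z + ∑ v ∈ J ∪ K, r v := by
          simp only [hr']
          rw [if_pos trivial]
        rw [h3] at h1
        rw [hi]
        refine (Submodule.add_mem_iff_left _ (Submodule.sum_mem _ fun v hv => k2 v ?_)).1 h1
        rintro rfl
        rcases Finset.mem_union.1 hv with h' | h'
        · exact hJ h'
        · exact hK h'
      · exact k2 i hi
  | exchange _ k Z hZ x hout hin =>
    have s1 : span F (r '' (Set.range x)ᶜ) ≤ span F (Set.range r) :=
      span_mono (Set.image_subset_range _ _)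
    have s2 : span F (r '' (Set.range x)ᶜ) ≤ span F (Set.range r') := span_le.2 (by
      rintro _ ⟨v, hv, rfl⟩
      rw [← hout v hv]
      exact self_mem r' v)
    refine span_eq_of (fun i => ?_) fun i => ?_
    · by_cases hi : i ∈ Set.range x
      · obtain ⟨l, rfl⟩ := hi
        exact (Submodule.sub_mem_iff_left _ (Submodule.sum_mem _ fun j _ =>
          smul_mem _ _ (self_mem r _))).1 (s1 (hin l))
      · rw [hout i hi]
        exact self_mem r i
    · by_cases hi : i ∈ Set.range x
      · obtain ⟨j, rfl⟩ := hi
        obtain ⟨Z', hZ'⟩ := core_inv hZ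
        have h1 : ∀ l, ∑ i, Z l i • r (x i) ∈ span F (Set.range r') := fun l =>
          (Submodule.sub_mem_iff_right _ (self_mem r' (x l))).1 (s2 (hin l))
        have h2 : r (x j) = ∑ l, Z' j l • ∑ i, Z l i • r (x i) := by
          simp only [Finset.smul_sum, smul_smul]
          rw [Finset.sum_comm]
          simp only [← Finset.sum_smul, ← Matrix.mul_apply, hZ', Matrix.one_apply, ite_smul,
            one_smul, zero_smul, Finset.sum_ite_eq, Finset.mem_univ, if_true]
        rw [h2]
        exact Submodule.sum_mem _ fun l _ => smul_mem _ _ (h1 l)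
      · rw [← hout i hi]
        exact self_mem r' i

variable {ι E : Type}

theorem comb_zero (M : ι → E → F) (l : E →₀ F) :
    Finsupp.linearCombination F (fun e v => M v e) l = 0 ↔
      span F (Set.range M) ≤ LinearMap.ker
        (Finsupp.linearCombination F (fun e => (LinearMap.proj e : (E → F) →ₗ[F] F)) l) := by
  rw [span_le, Set.range_subset_iff, funext_iff]
  refine forall_congr' fun v => ?_
  simp [Finsupp.linearCombination_apply, Finsupp.sum, LinearMap.sum_apply]

theorem indep_of_span {M M' : ι → E → F} (h : span F (Set.range M') = span F (Set.range M))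
    (S : Set E) :
    LinearIndepOn F (fun e v => M v e) S ↔ LinearIndepOn F (fun e v => M' v e) S := by
  simp only [linearIndepOn_iff, comb_zero, h]

theorem indep_flip [DecidableEq E] (M : ι → E → F) (e : E) (S : Set E) :
    LinearIndepOn F (fun e v => M v e) S ↔
      LinearIndepOn F (fun e' v => Function.update (M v) e (-M v e) e') S := by
  have h1 := LinearIndependent.units_smul_iff (R := F) (fun x : S => fun v => M v x)
    (fun x : S => if (x : E) = e then -1 else 1)
  have h2 : ((fun x : S => if (x : E) = e then (-1 : Fˣ) else 1) • fun x : S => fun v => M v x) =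
      fun x : S => fun v => Function.update (M v) e (-M v e) x := by
    funext x v
    by_cases hx : (x : E) = e
    · simp [hx]
    · simp [hx]
  rw [h2] at h1
  exact h1.symm

theorem signed_of {M M' : ι → E → F} (hM : IsSigned M) (h : ∀ v e, M' v e ≠ 0 → M v e ≠ 0) :
    IsSigned M' := fun e i j k hi hj hk => hM e i j k (h i e hi) (h j e hj) (h k e hk)

theorem signed_sw [DecidableEq ι] {M : ι → E → F} (hM : IsSigned M) (T : Finset ι) :
    IsSigned fun v => if v ∈ T then -M v else M v := by
  refine signed_of hM fun v e h => ?_
  by_cases hv : v ∈ T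
  · simpa [hv] using h
  · simpa [hv] using h

theorem sw [DecidableEq ι] [DecidableEq E] {M : ι → E → F} (hM : IsSigned M) (T : Finset ι) :
    Relation.EqvGen Step M fun v => if v ∈ T then -M v else M v := by
  induction T using Finset.induction_on with
  | empty =>
    simp only [Finset.notMem_empty, if_false]
    exact Relation.EqvGen.refl _
  | insert a T ha ih =>
    refine Relation.EqvGen.trans _ _ _ ih (Relation.EqvGen.rel _ _
      ⟨signed_sw hM T, signed_sw hM _, Or.inl ?_⟩)
    have := StarOp.switch (fun v => if v ∈ T then -M v else M v) a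
    have e : Function.update (fun v => if v ∈ T then -M v else M v) a
        (-(fun v => if v ∈ T then -M v else M v) a) =
        fun v => if v ∈ insert a T then -M v else M v := by
      funext v
      by_cases hv : v = a
      · subst hv
        simp [ha]
      · simp [hv]
    rwa [e] at this

theorem drop [Fintype ι] [DecidableEq ι] [DecidableEq E] {M : ι → E → F} (hM : IsSigned M)
    (hdep : ¬ LinearIndepOn F M {v | M v ≠ 0}) :
    ∃ M' : ι → E → F, IsSigned M' ∧ Relation.EqvGen Step M M' ∧
      span F (Set.range M') = span F (Set.range M) ∧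
      {v | M' v ≠ 0}.ncard < {v | M v ≠ 0}.ncard := by
  obtain ⟨c, hc1, hc2, hc3⟩ := linearDepOn_iff.1 hdep
  obtain ⟨z, hz⟩ := Finsupp.support_nonempty_iff.2 hc3
  have hz0 : M z ≠ 0 := (Finsupp.mem_supported F c).1 hc1 hz
  set T : Finset ι := Finset.univ.filter fun v => c v = -1 with hT
  set M1 : ι → E → F := fun v => if v ∈ T then -M v else M v with hM1
  have s1 : IsSigned M1 := signed_sw hM T
  have e1 : ∀ v ∈ c.support, M1 v = c v • M v := by
    intro v hv
    rcases F_ne_cases (Finsupp.mem_support_iff.1 hv) with h | h
    · have : v ∉ T := by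
        rw [hT, Finset.mem_filter, h]
        exact fun h' => F_one_ne_neg_one h'.2
      simp only [hM1]
      rw [if_neg this, h, one_smul]
    · have : v ∈ T := Finset.mem_filter.2 ⟨Finset.mem_univ v, h⟩
      simp only [hM1]
      rw [if_pos this, h, neg_one_smul]
  have op := StarOp.rotate M1 z (c.support.erase z) ∅ id (Finset.notMem_erase z _)
    (Finset.notMem_empty z) (Finset.disjoint_empty_right _) (by simp)
  have e2 : (fun i => if i = z then M1 z + ∑ v ∈ c.support.erase z ∪ ∅, M1 v
      else M1 i - ∑ v ∈ (∅ : Finset ι).filter fun v => id v = i, M1 v) =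
      fun i => if i = z then 0 else M1 i := by
    funext i
    split_ifs
    · rw [Finset.union_empty, Finset.add_sum_erase _ M1 hz, Finset.sum_congr rfl e1, hc2]
    · simp
  rw [e2] at op
  have s2 : IsSigned fun i => if i = z then 0 else M1 i := by
    refine signed_of s1 fun v e h => ?_
    by_cases hv : v = z
    · simp [hv] at h
    · simpa [hv] using h
  have sp1 : span F (Set.range M1) = span F (Set.range M) := by
    refine span_eq_of (fun i => ?_) fun i => ?_
    · simp only [hM1]
      split_ifs
      · exact neg_mem (self_mem M i)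
      · exact self_mem M i
    · have := self_mem M1 i
      simp only [hM1] at this
      split_ifs at this
      · exact neg_mem_iff.1 this
      · exact this
  refine ⟨_, s2, Relation.EqvGen.trans _ _ _ (sw hM T) (Relation.EqvGen.rel _ _
    ⟨s1, s2, Or.inl op⟩), (span_starOp op).trans sp1, ?_⟩
  refine Set.ncard_lt_ncard ⟨fun v hv => ?_, fun h => ?_⟩ (Set.toFinite _)
  · intro h0
    apply hv
    simp only [hM1]
    split_ifs
    · rfl
    · rw [h0, neg_zero]
    · exact h0
  · exact h hz0 (if_pos rfl)

end Sound

theorem s_sound : S_SOUND := by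
  intro ι E _ _ _ _ M M' h S
  induction h with
  | rel M M' h =>
    rcases h.2.2 with h' | ⟨e, rfl⟩
    · exact Sound.indep_of_span (Sound.span_starOp h') S
    · exact Sound.indep_flip M e S
  | refl M => rfl
  | symm M M' _ ih => exact ih.symm
  | trans M M' M'' _ _ ih1 ih2 => exact ih1.trans ih2

theorem s_root : S_ROOT := by
  intro ι E _ _ _ _ M hM
  induction hn : {v | M v ≠ 0}.ncard using Nat.strong_induction_on generalizing M with
  | _ n ih =>
    by_cases hdep : LinearIndepOn F M {v | M v ≠ 0}
    · exact ⟨M, hM, Relation.EqvGen.refl _, rfl, hdep⟩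
    · obtain ⟨M1, h1, h2, h3, h4⟩ := Sound.drop hM hdep
      obtain ⟨M', k1, k2, k3, k4⟩ := ih _ (hn ▸ h4) M1 h1 rfl
      exact ⟨M', k1, Relation.EqvGen.trans _ _ _ h2 k2, k3.trans h3, k4⟩

end Pool.Agent.P.MP_053557_co
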