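import Pool.Agent.P.MP_053557_co.T1A

/-! Local structure at a joint of type one. -/

namespace Pool.Agent.P.MP_053557_co

open Module Submodule

namespace T1B

variable {V : Type} [AddCommGroup V] [Module F V] {ι κ : Type} [Fintype ι]
  [Fintype κ] [DecidableEq κ] {a : Basis ι F V} {f : Basis κ F V}
  {x : ℤ → V} {L : ℕ} {A B : ℤ → κ}

omit [DecidableEq κ] in
theorem nz (h : Af a f) {y : V} (hy : y ∈ Gm a) (l : κ) : f.repr y l ≠ 0 := by
  obtain ⟨i, rfl | rfl⟩ := mem_Gm_iff.1 hy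
  · exact h.full i l
  · simpa using h.full i l

omit [DecidableEq κ] in
theorem tri (h : Af a f) {u v w : V} (hu : u ∈ Gm a) (hv : v ∈ Gm a) (hw : w ∈ Gm a) (l : κ) :
    l ∈ Df f u v ↔ ¬ (l ∈ Df f u w ↔ l ∈ Df f v w) := by
  simp only [mem_Df]
  have h1 := nz h hu l
  have h2 := nz h hv l
  have h3 := nz h hw l
  generalize f.repr u l = p at *
  generalize f.repr v l = q at *
  generalize f.repr w l = r at *
  revert p q r
  decide

omit [DecidableEq κ] in
theorem negD (h : Af a f) {u w : V} (hu : u ∈ Gm a) (hw : w ∈ Gm a) (l : κ) :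
    l ∈ Df f (-u) w ↔ ¬ l ∈ Df f u w := by
  simp only [mem_Df, map_neg, Finsupp.neg_apply]
  have h1 := nz h hu l
  have h3 := nz h hw l
  generalize f.repr u l = p at *
  generalize f.repr w l = r at *
  revert p r
  decide

/-- Position of a coordinate on the geodesic, counted from `t`. -/
structure Cp (L : ℕ) (A B : ℤ → κ) (t : ℤ) (c : κ → ℤ) (op : κ → κ) : Prop where
  c0 : ∀ l, 0 ≤ c l
  c1 : ∀ l, c l < L
  pr : ∀ l, (l = A (t + c l) ∧ op l = B (t + c l)) ∨ (l = B (t + c l) ∧ op l = A (t + c l))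

theorem exists_cp (K : Kc a f x L A B) (t : ℤ) : ∃ c op, Cp L A B t c op := by
  choose s hs using K.cover
  have hL : (0 : ℤ) < L := by have := K.four; omega
  have hd : ∀ l, (L : ℤ) ∣ s l - (t + (s l - t) % L) := fun l => by
    have := Int.emod_add_mul_ediv (s l - t) L
    exact ⟨(s l - t) / L, by linarith⟩
  refine ⟨fun l => (s l - t) % L, fun l => if l = A (s l) then B (s l) else A (s l),
    fun l => Int.emod_nonneg _ hL.ne', fun l => Int.emod_lt_of_pos _ hL, fun l => ?_⟩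
  rw [← (K.perA _ _).2 (hd l), ← (K.perB _ _).2 (hd l)]
  by_cases h : l = A (s l)
  · exact Or.inl ⟨h, if_pos h⟩
  · exact Or.inr ⟨(hs l).resolve_left h, if_neg h⟩

variable {t : ℤ} {c : κ → ℤ} {op : κ → κ}

theorem cls (K : Kc a f x L A B) (C : Cp L A B t c op) (l : κ) (r : ℤ) :
    (l = A r ∨ l = B r) ↔ (L : ℤ) ∣ r - (t + c l) := by
  constructor
  · rintro (h | h) <;> rcases C.pr l with h1 | h1
    · exact (K.perA _ _).1 (h.symm.trans h1.1)
    · exact absurd (h.symm.trans h1.1) (K.ab _ _)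
    · exact absurd (h1.1.symm.trans h) (K.ab _ _)
    · exact (K.perB _ _).1 (h.symm.trans h1.1)
  · intro h
    rw [(K.perA _ _).2 h, (K.perB _ _).2 h]
    exact (C.pr l).imp And.left And.left

theorem eq_of_dvd {L u v : ℤ} (h : L ∣ u - v) (h1 : u - v < L) (h2 : v - u < L) : u = v := by
  have := Int.eq_zero_of_abs_lt_dvd h (by rw [abs_lt]; constructor <;> omega)
  omega

omit [Fintype κ] [DecidableEq κ] in
theorem ceq (C : Cp L A B t c op) (k l : κ) {r : ℤ} (h : (L : ℤ) ∣ r - (t + c l)) :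
    (L : ℤ) ∣ t + c k - r ↔ c k = c l := by
  constructor
  · intro h1
    have h2 : (L : ℤ) ∣ c k - c l := by
      have := dvd_add h h1
      rwa [show r - (t + c l) + (t + c k - r) = c k - c l by ring] at this
    have := C.c0 k; have := C.c0 l; have := C.c1 k; have := C.c1 l
    exact eq_of_dvd h2 (by omega) (by omega)
  · intro h1
    rw [h1, show t + c l - r = -(r - (t + c l)) by ring]
    exact h.neg_right

theorem clsA (K : Kc a f x L A B) (C : Cp L A B t c op) (r : ℤ) :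
    (L : ℤ) ∣ r - (t + c (A r)) := (cls K C _ r).1 (Or.inl rfl)

theorem per (K : Kc a f x L A B) (s k : ℤ) : x (s + k * L) = x s ∨ x (s + k * L) = -x s := by
  induction k using Int.induction_on with
  | zero => simp
  | succ k ih =>
    rw [show s + ((k : ℤ) + 1) * L = s + k * L + L by ring, K.geo.anti]
    rcases ih with h | h <;> rw [h] <;> simp
  | pred k ih =>
    have h1 := K.geo.anti (s + (-(k : ℤ) - 1) * L)
    rw [show s + (-(k : ℤ) - 1) * L + L = s + -(k : ℤ) * L by ring] at h1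
    rw [h1] at ih
    rcases ih with h | h
    · exact Or.inr (neg_eq_iff_eq_neg.1 h)
    · exact Or.inl (neg_injective h)

variable [DecidableEq ι]

theorem mx (hP : S_POS) (K : Kc a f x L A B) (C : Cp L A B t c op) {y : V} (hy : y ∈ Gm a)
    {l : κ} {r : ℤ} (h : (L : ℤ) ∣ r - (t + c l)) :
    Mx f x A B y r ↔ T1A.mu (fun y l => l ∈ Df f y (x t)) op y l := by
  rw [(hP a f x L A B K).2.1 y hy t r, (K.perA _ _).2 h, (K.perB _ _).2 h]
  unfold T1A.mu
  rcases C.pr l with h1 | h1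
  · rw [← h1.1, ← h1.2]
  · rw [← h1.1, ← h1.2, iff_comm (a := l ∈ _)]

theorem geo (hP : S_POS) (K : Kc a f x L A B) (C : Cp L A B t c op) (s : ℤ) :
    ∃ n : ℤ, (∀ l, l ∈ Df f (x s) (x t) ↔ c l < n) ∨ ∀ l, l ∈ Df f (x s) (x t) ↔ n ≤ c l := by
  have hL : (0 : ℤ) < L := by have := K.four; omega
  have h0 := Int.emod_nonneg (s - t) hL.ne'
  have h1 := Int.emod_lt_of_pos (s - t) hL
  have h2 := Int.emod_add_mul_ediv (s - t) L
  generalize (s - t) % L = n at *
  have h3 := per K (t + n) ((s - t) / L)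
  rw [show t + n + (s - t) / L * L = s by linarith] at h3
  have h4 : ∀ l, l ∈ Df f (x (t + n)) (x t) ↔ c l < n := by
    intro l
    obtain ⟨h5, h6⟩ := (hP a f x L A B K).1 t (t + n) (t + c l) (by omega) (by omega)
    have h7 : l ∈ Df f (x t) (x (t + n)) ↔ A (t + c l) ∈ Df f (x t) (x (t + n)) := by
      rcases C.pr l with h8 | h8
      · rw [← h8.1]
      · rw [← h6, ← h8.1]
    rw [Df_comm, h7, h5]
    have := C.c0 l; have := C.c1 l
    constructor
    · rintro ⟨r, h8, h9, h10⟩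
      have := eq_of_dvd h10 (by omega) (by omega)
      omega
    · intro h8
      exact ⟨t + c l, by omega, by omega, by simp⟩
  refine ⟨n, h3.imp (fun e l => by rw [e, h4]) fun e l => ?_⟩
  rw [e, negD K.af (K.geo.mem _) (K.geo.mem _), h4, not_lt]

theorem model (hA : S_AFB) (hP : S_POS) (K : Kc a f x L A B) (C : Cp L A B t c op) :
    T1A.Md a x (· ∈ Gm a) (Off a x) (Adj f) (fun y l => l ∈ Df f y (x t)) L c op := by
  have hxt := K.geo.mem t
  have mx0 : ∀ {y : V}, y ∈ Gm a → ∀ l, Mx f x A B y (t + c l) ↔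
      T1A.mu (fun y l => l ∈ Df f y (x t)) op y l := fun hy l => mx hP K C hy (by simp)
  have mxA : ∀ {y : V}, y ∈ Gm a → ∀ r, Mx f x A B y r ↔
      T1A.mu (fun y l => l ∈ Df f y (x t)) op y (A r) := fun hy r => mx hP K C hy (clsA K C r)
  have hopc : ∀ l, c (op l) = c l := fun l => by
    have h1 : (L : ℤ) ∣ t + c l - (t + c (op l)) :=
      (cls K C (op l) _).1 ((C.pr l).symm.imp And.right And.right)
    exact ((ceq C l (op l) (r := t + c (op l)) (by simp)).1 h1).symm
  refine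
    { four := by have := K.four; omega
      c0 := C.c0
      c1 := C.c1
      surj := fun i h0 h1 => ⟨A (t + i), ?_⟩
      opne := fun l => ?_
      opc := hopc
      eqc := fun k l h => ?_
      aG := self_mem_Gm a
      idx := fun y hy => mem_Gm_iff.1 hy
      xG := K.geo.mem
      oG := fun y hy => hy.1
      off := fun y hy h => ⟨hy, h⟩
      neg := fun y hy l => negD K.af hy hxt l
      symm := fun y z h => h.symm
      adj := fun y z hy hz h => ?_
      geo := geo hP K C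
      two := fun y hy => ?_
      cell := fun l y1 y2 y3 h1 h2 h3 m1 m2 m3 => ?_
      ex := fun l => ?_
      closed := fun P h1 h2 h3 => ?_
      link := fun y z hy hz h => ?_
      reach := fun y l hy h => ?_
      cyc := K.cyc
      afb := fun y k hy => ?_
      par := fun y z p q hy hz hp hq h => ?_ }
  · have h2 := clsA K C (t + i)
    have := C.c0 (A (t + i)); have := C.c1 (A (t + i))
    have := eq_of_dvd h2 (by omega) (by omega)
    omega
  · rcases C.pr l with h | h
    · exact fun e => K.ab _ _ (h.1.symm.trans (e.symm.trans h.2))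
    · exact fun e => K.ab _ _ (h.2.symm.trans (e.trans h.1))
  · have h1 := C.pr k
    rw [h] at h1
    rcases C.pr l with h2 | h2 <;> rcases h1 with h1 | h1
    · exact Or.inl (h1.1.trans h2.1.symm)
    · exact Or.inr (h1.1.trans h2.2.symm)
    · exact Or.inr (h1.1.trans h2.2.symm)
    · exact Or.inl (h1.1.trans h2.1.symm)
  · obtain ⟨u, w, huw, h1⟩ := Finset.card_eq_two.1 (((hA a f K.af).1 y hy z hz).1 h)
    refine ⟨u, w, huw, fun l => ?_⟩
    have h2 := tri K.af hy hz hxt l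
    rw [h1, Finset.mem_insert, Finset.mem_singleton] at h2
    rw [h2]
    by_cases h3 : l ∈ Df f y (x t) <;> by_cases h4 : l ∈ Df f z (x t) <;> simp [h3, h4]
  · obtain ⟨s, s', h1, h2⟩ := K.two y hy
    refine ⟨A s, A s', fun e => h1 ?_, fun l => ?_⟩
    · have h3 := clsA K C s
      have h4 := clsA K C s'
      rw [e] at h3
      have := dvd_sub h3 h4
      rwa [show s - (t + c (A s')) - (s' - (t + c (A s'))) = s - s' by ring] at this
    · rw [← mx0 hy.1, h2, ceq C l _ (clsA K C s), ceq C l _ (clsA K C s')]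
  · obtain ⟨i, i', -, h⟩ := K.cell (t + c l)
    have key : ∀ y ∈ Gm a, T1A.mu (fun y l => l ∈ Df f y (x t)) op y l →
        T1A.PM y (a i) ∨ T1A.PM y (a i') := by
      intro y hy hm
      obtain ⟨j, hj⟩ := mem_Gm_iff.1 hy
      have hj' : T1A.mu (fun y l => l ∈ Df f y (x t)) op (a j) l := by
        rcases hj with rfl | rfl
        · exact hm
        · unfold T1A.mu at hm ⊢
          simp only [negD K.af (self_mem_Gm a j) hxt] at hm
          exact fun e => hm (not_congr e)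
      rcases (h j).1 ((mx0 (self_mem_Gm a j) l).2 hj') with rfl | rfl
      · exact Or.inl hj
      · exact Or.inr hj
    have pm : ∀ y z w : V, T1A.PM y w → T1A.PM z w → T1A.PM y z := by
      rintro y z w (rfl | rfl) (rfl | rfl)
      · exact Or.inl rfl
      · exact Or.inr (neg_neg _).symm
      · exact Or.inr rfl
      · exact Or.inl rfl
    rcases key y1 h1 m1 with e1 | e1 <;> rcases key y2 h2 m2 with e2 | e2 <;>
      rcases key y3 h3 m3 with e3 | e3
    all_goals first
      | exact Or.inl (pm _ _ _ e1 e2)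
      | exact Or.inr (Or.inl (pm _ _ _ e1 e3))
      | exact Or.inr (Or.inr (pm _ _ _ e2 e3))
  · obtain ⟨i, i', -, h⟩ := K.cell (t + c l)
    exact ⟨i, (mx0 (self_mem_Gm a i) l).1 ((h i).2 (Or.inl rfl))⟩
  · obtain ⟨s, i, hi, i', hi', h4, h5⟩ := K.closed {i | P (a i)} h1 h2 h3
    exact ⟨A s, i, i', hi, hi', (mxA (self_mem_Gm a i) s).1 h4, (mxA (self_mem_Gm a i') s).1 h5⟩
  · obtain ⟨s, h1, h2, h3⟩ := K.link y z hy hz h
    exact ⟨A s, (mxA hy.1 s).1 h1, (mxA hz.1 s).1 h2, fun k h4 h5 =>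
      (ceq C k _ (clsA K C s)).1 (h3 _ ((mx0 hy.1 k).2 h4) ((mx0 hz.1 k).2 h5))⟩
  · obtain ⟨z, hz, h1, h2⟩ := K.reach y hy _ ((mx0 hy.1 l).2 h) l
      ((C.pr l).imp And.left And.left)
    exact ⟨z, hz, h1, (tri K.af hy.1 hz hxt l).1 h2⟩
  · obtain ⟨z, hz, z', hz', h1, h2, h3, h4, h5⟩ := (hA a f K.af).2.2.2.1 y hy k
    rw [tri K.af hy hz hxt, not_not] at h4
    rw [tri K.af hy hz' hxt, not_not] at h5
    exact ⟨z, z', hz, hz', h1, h2, h3, h4, h5⟩
  · have key : ∀ {u v : V}, u ∈ Gm a → v ∈ Gm a → ∀ l,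
        (l ∈ Df f u (x t) ↔ l ∈ Df f v (x t)) → f.repr u l = f.repr v l := by
      intro u v hu hv l e
      by_contra hc
      exact (tri K.af hu hv hxt l).1 (mem_Df.2 hc) e
    have h1 : y + z = p + q := eq_of_repr f fun l => by
      simp only [map_add, Finsupp.add_apply]
      rcases h l with h2 | h2
      · rw [key hy hp l h2.1, key hz hq l h2.2]
      · rw [key hy hq l h2.1, key hz hp l h2.2, add_comm]
    rcases par hy hz hp hq h1 with h2 | h2 | h2
    · exact Or.inl h2.1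
    · exact Or.inr (Or.inl h2.1)
    · exact Or.inr (Or.inr h2.2)

end T1B

open T1B in
theorem s_t1 (hA : S_AFB) (hP : S_POS) : S_T1 := by
  intro V _ _ ι κ _ _ _ _ a f x L A B y t K ⟨hy, h0, h1, h2⟩
  obtain ⟨c, op, C⟩ := exists_cp K t
  have H := model hA hP K C
  have hxt := K.geo.mem t
  obtain ⟨g, h, hgh, hD⟩ := Finset.card_eq_two.1 (((hA a f K.af).1 y hy.1 _ hxt).1 h0)
  obtain ⟨-, -, P3, P4⟩ := hP a f x L A B K
  have n1 := (P4 y hy t h0).1.not.1 h2
  have n2 := (P4 y hy t h0).2.not.1 h1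
  have hm : ∀ k ∈ Df f y (x t), ∀ r, (L : ℤ) ∣ r - (t + c k) → Mx f x A B y r := by
    intro k hk r hr
    rw [P3 y hy t r h0]
    rcases (cls K C k r).2 hr with e | e
    · exact Or.inl (e ▸ hk)
    · exact Or.inr (e ▸ hk)
  have e0 : ∀ k ∈ Df f y (x t), c k ≠ 0 := fun k hk e => n1 (hm k hk t (by simp [e]))
  have e1 : ∀ k ∈ Df f y (x t), c k ≠ L - 1 := fun k hk e =>
    n2 (hm k hk _ ⟨-1, by rw [e]; ring⟩)
  have hg : g ∈ Df f y (x t) := by simp [hD]
  have hh : h ∈ Df f y (x t) := by simp [hD]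
  have hc : c g ≠ c h := by
    intro e
    rcases H.eqc h g e.symm with e2 | e2
    · exact hgh e2.symm
    · exact (mx hP K C hy.1 (l := g) (by simp)).1 (hm g hg (t + c g) (by simp))
        (iff_of_true hg (e2 ▸ hh))
  obtain ⟨g, h, m, m', p, q, d1, hp, hq, d2, d3, c1, c2, c3⟩ :=
    H.main hy hc (fun l => by simp [hD]) (e0 g hg) (e1 g hg) (e0 h hh) (e1 h hh)
  have pr : ∀ k r, (L : ℤ) ∣ r - (t + c k) → ({k, op k} : Finset κ) = {A r, B r} := by
    intro k r hr
    rw [(K.perA _ _).2 hr, (K.perB _ _).2 hr]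
    rcases C.pr k with e | e
    · rw [← e.1, ← e.2]
    · rw [← e.1, ← e.2, Finset.pair_comm]
  have df : ∀ z, Off a x z → ∀ u w, (∀ l, l ∈ Df f z (x t) ↔
      ¬ (l ∈ Df f y (x t) ↔ (l = u ∨ l = w))) → Df f y z = {u, w} := by
    intro z hz u w e
    ext l
    rw [tri K.af hy.1 hz.1 hxt, e, Finset.mem_insert, Finset.mem_singleton]
    by_cases h3 : l ∈ Df f y (x t) <;> by_cases h4 : l = u ∨ l = w <;> simp [h3, h4]
  have fin : ∀ u u' : ℤ, (L : ℤ) ∣ u - (t + c m) → (L : ℤ) ∣ u' - (t + c m') →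
      Loc1 a f x A B y t u u' := fun u u' hu hu' =>
    ⟨g, op g, h, op h, m, m', p, q, pr g _ (by simp [c1]), pr h _ ⟨-1, by rw [c2]; ring⟩,
      by ext l; simpa using d1 l, hp, hq, df p hp _ _ d2, df q hq _ _ d3,
      (cls K C m u).2 hu, (cls K C m' u').2 hu'⟩
  rcases c3 with ⟨c3, c4, c5⟩ | ⟨c3, c4, c5⟩
  · exact Or.inl ⟨by omega, fin _ _ (by simp [c4]) ⟨-1, by rw [c5]; ring⟩⟩
  · exact Or.inr ⟨by omega, fin _ _ ⟨-1, by rw [c4]; ring⟩ (by simp [c5])⟩

end Pool.Agent.P.MP_053557_co
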