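import Pool.Agent.P.MP_053557_co.Basic2

/-! The case where the edges inside `I` form a tree. -/

namespace Pool.Agent.P.MP_053557_co

open Module Submodule

namespace TreeAux

variable {V : Type} [AddCommGroup V] [Module F V] {ι κ : Type} [Fintype ι] [DecidableEq ι]
  [Fintype κ] [DecidableEq κ] {a : Basis ι F V} {f : Basis κ F V} {j : κ} {I : Finset ι}

omit [Fintype ι] [DecidableEq ι] [Fintype κ] [DecidableEq κ] in
theorem ex_joint {y : V} (hy : y ∈ Tset f) (h0 : y ≠ 0) (hj : f.repr y j = 0) :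
    ∃ z, z ≠ j ∧ ∀ i, a.repr (f z) i = 0 ↔ a.repr y i = 0 := by
  rcases mem_Tset_iff_smul.1 hy with rfl | ⟨z, c, hc, rfl⟩
  · exact absurd rfl h0
  · refine ⟨z, ?_, fun i => by simp [hc]⟩
    rintro rfl
    simp [hc] at hj

/-- All negative edges at `u` go to `u'`. -/
def AllTo (a : Basis ι F V) (f : Basis κ F V) (I : Finset ι) (u u' : ι) : Prop :=
  ∀ w ∈ I, w ≠ u → -(a u + a w) ∈ Dset (Tset f) → w = u'

theorem leafA (hL : S_LEAF) (h : Sj a f j I) (hn : ¬ Succ (Tset a) (Tset f)) {v w : ι}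
    (hv : v ∈ I) (hw : nbr a f I v = {w}) :
    ∃ i ∈ I, i ≠ v ∧ -(a v + a i) ∈ Dset (Tset f) ∧ -(a v + a i) - f j ∉ span F {a v - a w} := by
  by_contra hc
  push Not at hc
  exact hn (hL a f j I v w h hv hw (Or.inl hc))

theorem leafB (hL : S_LEAF) (h : Sj a f j I) (hn : ¬ Succ (Tset a) (Tset f)) {v w : ι}
    (hv : v ∈ I) (hw : nbr a f I v = {w}) : a v = f j ∨
    ∃ t, OT a I t ∧ a v + t ∈ Dset (Tset f) ∧ a v + t - f j ∉ span F {a v - a w} := by
  by_contra hc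
  push Not at hc
  exact hn (hL a f j I v w h hv hw (Or.inr hc))

theorem leafD (hL : S_LEAF) (h : Sj a f j I) (hn : ¬ Succ (Tset a) (Tset f)) {v w : ι}
    (hv : v ∈ I) (hw : nbr a f I v = {w}) : ∃ t, OT a I t ∧ a v + t ∈ Dset (Tset f) := by
  rcases leafB hL h hn hv hw with h1 | ⟨t, h1, h2, -⟩
  · exact ⟨0, ot_zero a I, by rw [add_zero, h1]; exact Tset_subset_Dset _ (self_mem_Tset f j)⟩
  · exact ⟨t, h1, h2⟩

theorem pair (hL : S_LEAF) (hC : S_CAP) (h : Sj a f j I) (hn : ¬ Succ (Tset a) (Tset f))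
    {u u' w w' : ι} (hu : u ∈ I) (hu' : u' ∈ I) (hne : u ≠ u') (hw : nbr a f I u = {w})
    (hw' : nbr a f I u' = {w'}) : AllTo a f I u u' ∨ AllTo a f I u' u := by
  by_contra hc
  simp only [AllTo] at hc
  push Not at hc
  obtain ⟨⟨x, h1, h2, h3, h4⟩, y, h5, h6, h7, h8⟩ := hc
  obtain ⟨t, h9, h10⟩ := leafD hL h hn hu hw
  obtain ⟨t', h11, h12⟩ := leafD hL h hn hu' hw'
  exact hn (hC a f j I u u' x y t t' h hu hu' hne ⟨w, hw⟩ ⟨w', hw'⟩ h9 h11 h10 h12 h1 h2 h4 h5 h8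
    h6 h3 h7)

theorem pair_neg (hL : S_LEAF) (hC : S_CAP) (h : Sj a f j I) (hn : ¬ Succ (Tset a) (Tset f))
    {u u' w w' : ι} (hu : u ∈ I) (hu' : u' ∈ I) (hne : u ≠ u') (hw : nbr a f I u = {w})
    (hw' : nbr a f I u' = {w'}) : -(a u + a u') ∈ Dset (Tset f) := by
  rcases pair hL hC h hn hu hu' hne hw hw' with h1 | h1
  · obtain ⟨i, h2, h3, h4, -⟩ := leafA hL h hn hu hw
    exact h1 i h2 h3 h4 ▸ h4
  · obtain ⟨i, h2, h3, h4, -⟩ := leafA hL h hn hu' hw'
    rw [add_comm]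
    exact h1 i h2 h3 h4 ▸ h4

omit [Fintype κ] [DecidableEq κ] in
/-- Two adjacent leaves exhaust `I`. -/
theorem adj_leaves (h : Sj a f j I) (h3 : 3 ≤ I.card) {u u' w' : ι} (hu : u ∈ I) (hu' : u' ∈ I)
    (hne : u ≠ u') (hw : nbr a f I u = {u'}) (hw' : nbr a f I u' = {w'}) : False := by
  have h1 : u ∈ nbr a f I u' := nbr_symm hu (by rw [hw]; simp)
  obtain rfl : u = w' := by simpa [hw'] using h1
  obtain ⟨w, hw1, hw2⟩ : ∃ w ∈ I, w ∉ ({u, u'} : Finset ι) :=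
    Finset.exists_mem_notMem_of_card_lt_card (lt_of_le_of_lt Finset.card_le_two h3)
  have hw3 : w ≠ u ∧ w ≠ u' := by simpa using hw2
  have h2 := h.span_X (x := a u - a w) (fun i hi => by
    have h1 : u ≠ i := fun hc => hi (hc ▸ hu)
    have h2 : w ≠ i := fun hc => hi (hc ▸ hw1)
    simp [single_ne h1, single_ne h2]) (by simp [h.in_I hu, h.in_I hw1])
  have h4 := map_span_zero (a.coord u + a.coord u') (by
    rintro _ ⟨i, hi, i', hi', rfl⟩
    by_cases e1 : i = u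
    · subst e1
      obtain rfl : i' = u' := by simpa [hw] using hi'
      simp [single_ne hne, single_ne hne.symm]
    by_cases e2 : i = u'
    · subst e2
      obtain rfl : i' = u := by simpa [hw'] using hi'
      simp [single_ne hne, single_ne hne.symm]
    have e3 : i' ≠ u := by
      rintro rfl
      exact e2 (by simpa [hw] using nbr_symm hi hi')
    have e4 : i' ≠ u' := by
      rintro rfl
      exact e1 (by simpa [hw'] using nbr_symm hi hi')
    simp [single_ne e1, single_ne e2, single_ne e3, single_ne e4]) h2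
  simp [single_ne hne, single_ne hw3.1, single_ne hw3.2] at h4

theorem core (hL : S_LEAF) (hC2 : S_C2) (hT : S_TQ) (h : Sj a f j I) (h3 : 3 ≤ I.card)
    (hn : ¬ Succ (Tset a) (Tset f)) {u u' m w' : ι} (hu : u ∈ I) (hu' : u' ∈ I) (hne : u ≠ u')
    (hw : nbr a f I u = {m}) (hw' : nbr a f I u' = {w'}) (hA : AllTo a f I u u')
    (hd : ∀ i ∈ I, i ≠ u → i ≠ u' → (nbr a f I i).card = 2) : False := by
  obtain ⟨hm, hmu, -⟩ := mem_nbr.1 (show m ∈ nbr a f I u by rw [hw]; simp)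
  have hmu' : m ≠ u' := by
    rintro rfl
    exact adj_leaves h h3 hu hu' hne hw hw'
  obtain ⟨m', hm', hm2⟩ : ∃ m', m' ≠ u ∧ nbr a f I m = {u, m'} := by
    have h1 : u ∈ nbr a f I m := nbr_symm hu (by rw [hw]; simp)
    obtain ⟨x, y, hxy, e⟩ := Finset.card_eq_two.1 (hd m hm hmu hmu')
    rw [e] at h1 ⊢
    rcases Finset.mem_insert.1 h1 with rfl | h1
    · exact ⟨y, hxy.symm, rfl⟩
    · obtain rfl := Finset.mem_singleton.1 h1
      exact ⟨x, hxy, Finset.pair_comm _ _⟩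
  obtain ⟨i, hi, hiu, n1, n2⟩ := leafA hL h hn hu hw
  obtain rfl := hA i hi hiu n1
  have b3 : f.repr (-(a u + a i)) j = 1 := by
    simp only [map_neg, map_add, Finsupp.neg_apply, Finsupp.add_apply, h.in_I hu, h.in_I hi]
    decide
  have y3 := sub_mem_Tset_one f n1 b3
  have hx : a u - a i ∉ Dset (Tset f) := fun hc => hmu' (by
    have : i ∈ nbr a f I u := mem_nbr.2 ⟨hi, hiu, hc⟩
    rw [hw] at this
    exact (Finset.mem_singleton.1 this).symm)
  rcases leafB hL h hn hu hw with e | ⟨t, t1, t2, t3⟩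
  · refine hx (Tset_subset_Dset _ ?_)
    rwa [show a u - a i = -(a u + a i) - f j by
      rw [← e]; linear_combination (norm := module) three (a u)]
  rcases leafB hL h hn hi hw' with e | ⟨t', s1, s2, s3⟩
  · refine hx (Tset_subset_Dset _ (neg_mem_Tset_iff.1 ?_))
    rwa [show -(a u - a i) = -(a u + a i) - f j by
      rw [← e]; linear_combination (norm := module) three (a i)]
  have b1 : f.repr (a u + t) j = 1 := by simp [h.in_I hu, h.ot t1]
  have b2 : f.repr (a i + t') j = 1 := by simp [h.in_I hi, h.ot s1]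
  have y1 := sub_mem_Tset_one f t2 b1
  have y2 := sub_mem_Tset_one f s2 b2
  have z1 : a u + t - f j ≠ 0 := fun e => t3 (e ▸ zero_mem _)
  have z2 : a i + t' - f j ≠ 0 := fun e => s3 (e ▸ zero_mem _)
  have z3 : -(a u + a i) - f j ≠ 0 := fun e => n2 (e ▸ zero_mem _)
  have c : ∀ e, f.repr e j = 1 → f.repr (e - f j) j = 0 := fun e he => by simp [he]
  have hD : DSp (Tset f) (offS a (I : Set ι)) := fun x hx =>
    span_mono (fun e he => And.intro he.1.2 he.2) (h.span_O hx)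
  have k1 : a.repr (a u + t) m = 0 := by simp [single_ne hmu.symm, t1.2 m hm]
  have k2 : a.repr (a i + t') m = 0 := by simp [single_ne hmu'.symm, s1.2 m hm]
  have k3 : a.repr (-(a u + a i)) m = 0 := by simp [single_ne hmu.symm, single_ne hmu'.symm]
  obtain ⟨e, e1, e2, e3, e4, e5⟩ : ∃ e, e - f j ∈ Tset f ∧ e - f j ≠ 0 ∧ f.repr e j = 1 ∧
      a.repr e m = 0 ∧ e - f j ∈ offS a (I : Set ι) := by
    rcases (hT _ _ (isFrame_basis f) hD).1 _ y1 _ y2 _ y3 (by
      rw [show a u + t - f j + (a i + t' - f j) + (-(a u + a i) - f j) = t + t' by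
        linear_combination (norm := module) (-1 : F) • three (f j)]
      exact add_mem t1.2 s1.2) (fun hc => by
      have := hc u hu
      simp [single_ne hiu, t1.2 u hu, s1.2 u hu] at this) with e | e | e
    exacts [⟨_, y1, z1, b1, k1, e⟩, ⟨_, y2, z2, b2, k2, e⟩, ⟨_, y3, z3, b3, k3, e⟩]
  have xm : a.repr (f j) m = 0 := by simpa [e4] using e5 m hm
  obtain ⟨z, hz, hz2⟩ := ex_joint (a := a) e1 e2 (c e e3)
  obtain ⟨l, hl, hl1, hl2⟩ : ∃ l, l ≠ j ∧ a.repr (f l) m = 0 ∧ a.repr (f l) u ≠ 0 := by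
    by_cases xu : a.repr (f j) u = 0
    · obtain ⟨l, hl, hl2⟩ := ex_joint (a := a) y1 z1 (c _ b1)
      refine ⟨l, hl, (hl2 m).2 (by rw [map_sub, Finsupp.sub_apply, k1, xm, sub_zero]), ?_⟩
      rw [Ne, hl2]
      simp [xu, t1.2 u hu]
    · obtain ⟨l, hl, hl2⟩ := ex_joint (a := a) y2 z2 (c _ b2)
      refine ⟨l, hl, (hl2 m).2 (by rw [map_sub, Finsupp.sub_apply, k2, xm, sub_zero]), ?_⟩
      rw [Ne, hl2]
      simp [xu, s1.2 u hu, single_ne hiu]
  exact hn (hC2 a f j I u m m' l z h hu hm hw hm2 hm' xm hl hl1 hl2 hz ((hz2 u).2 (e5 u hu))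
    ((hz2 m).2 (e5 m hm)))

end TreeAux

open TreeAux

theorem s_tree (hL : S_LEAF) (hC : S_CAP) (hC2 : S_C2) (hT : S_TQ) : S_TREE := by
  intro V _ _ ι κ _ _ _ _ a f j I h h3 hs
  by_contra hn
  have d1 : ∀ i ∈ I, 1 ≤ (nbr a f I i).card := fun i hi => (h.nbr_nonempty hi).card_pos
  set L := I.filter fun i => (nbr a f I i).card = 1 with hLd
  set N := I.filter fun i => ¬ (nbr a f I i).card = 1 with hNd
  have c1 : L.card + N.card = I.card := Finset.card_filter_add_card_filter_not _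
  have c2 : ∑ i ∈ L, (nbr a f I i).card = L.card := by
    rw [Finset.card_eq_sum_ones]
    exact Finset.sum_congr rfl fun i hi => (Finset.mem_filter.1 hi).2
  have c3 : ∑ i ∈ L, (nbr a f I i).card + ∑ i ∈ N, (nbr a f I i).card =
      ∑ i ∈ I, (nbr a f I i).card := Finset.sum_filter_add_sum_filter_not _ _ _
  have d2 : ∀ i ∈ N, 2 ≤ (nbr a f I i).card := fun i hi => by
    obtain ⟨h1, h2⟩ := Finset.mem_filter.1 hi
    have := d1 i h1
    omega
  have c4 : ∑ _i ∈ N, 2 ≤ ∑ i ∈ N, (nbr a f I i).card := Finset.sum_le_sum d2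
  have c5 : ∑ _i ∈ N, 2 = 2 * N.card := by simp [mul_comm]
  have lf : ∀ i ∈ L, i ∈ I ∧ ∃ w, nbr a f I i = {w} := fun i hi =>
    ⟨(Finset.mem_filter.1 hi).1, Finset.card_eq_one.1 (Finset.mem_filter.1 hi).2⟩
  have c6 : L.card ≤ 2 := by
    by_contra hc
    obtain ⟨x, hx, y, hy, z, hz, e1, e2, e3⟩ := Finset.two_lt_card.1 (not_le.1 hc)
    obtain ⟨x1, _, x2⟩ := lf x hx
    obtain ⟨y1, _, y2⟩ := lf y hy
    obtain ⟨z1, _, z2⟩ := lf z hz
    rcases pair hL hC h hn x1 y1 e1 x2 y2 with h1 | h1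
    · exact e3 (h1 z z1 e2.symm (pair_neg hL hC h hn x1 z1 e2 x2 z2)).symm
    · exact e2 (h1 z z1 e3.symm (pair_neg hL hC h hn y1 z1 e3 y2 z2)).symm
  obtain ⟨u, u', hne, e⟩ := Finset.card_eq_two.1 (show L.card = 2 by omega)
  obtain ⟨u1, m, u2⟩ := lf u (by rw [e]; simp)
  obtain ⟨v1, m', v2⟩ := lf u' (by rw [e]; simp)
  have hd : ∀ i ∈ I, i ≠ u → i ≠ u' → (nbr a f I i).card = 2 := fun i hi h1 h2 => by
    refine ((Finset.sum_eq_sum_iff_of_le d2).1 (by omega) i (Finset.mem_filter.2 ⟨hi, fun hc => ?_⟩)).symm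
    have : i ∈ L := Finset.mem_filter.2 ⟨hi, hc⟩
    rw [e] at this
    simp [h1, h2] at this
  rcases pair hL hC h hn u1 v1 hne u2 v2 with h1 | h1
  · exact core hL hC2 hT h h3 hn u1 v1 hne u2 v2 h1 hd
  · exact core hL hC2 hT h h3 hn v1 u1 hne.symm v2 u2 h1 fun i hi a b => hd i hi b a

end Pool.Agent.P.MP_053557_co
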