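import Pool.Agent.P.MP_053557_co.Basic2

/-! The triangle case. -/

namespace Pool.Agent.P.MP_053557_co

open Module Submodule

namespace Tri

variable {V : Type} [AddCommGroup V] [Module F V] {ι κ : Type} [Fintype ι] [DecidableEq ι]
  [Fintype κ] [DecidableEq κ] {a : Basis ι F V} {f : Basis κ F V} {j : κ} {I : Finset ι}

/-- A leaf, or a vertex of degree two whose neighbours are adjacent. -/
def Good (a : Basis ι F V) (f : Basis κ F V) (I : Finset ι) (v : ι) : Prop :=
  (∃ w, nbr a f I v = {w}) ∨
    ∃ w w', nbr a f I v = {w, w'} ∧ w ≠ w' ∧ a w - a w' ∈ Dset (Tset f)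

omit [Fintype ι] [Fintype κ] [DecidableEq κ] in
theorem tri_deg {v w w' : ι} (h1 : w ∈ nbr a f I v) (h2 : w' ∈ nbr a f I v) (hne : w ≠ w')
    (h3 : a w - a w' ∈ Dset (Tset f)) :
    2 ≤ (nbr a f I v).card ∧ (¬ Good a f I v → 3 ≤ (nbr a f I v).card) := by
  have hsub : ({w, w'} : Finset ι) ⊆ nbr a f I v := by
    intro x hx
    rcases Finset.mem_insert.1 hx with rfl | hx
    · exact h1
    · rw [Finset.mem_singleton.1 hx]; exact h2
  have hc : ({w, w'} : Finset ι).card = 2 := Finset.card_pair hne
  have hle := Finset.card_le_card hsub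
  refine ⟨hc ▸ hle, fun hg => ?_⟩
  by_contra hlt
  apply hg
  right
  refine ⟨w, w', (Finset.eq_of_subset_of_card_le hsub (by omega)).symm, hne, h3⟩

omit [Fintype κ] [DecidableEq κ] in
open Classical in
theorem three_good (h : Sj a f j I) {t1 t2 t3 : ι} (h1 : t1 ∈ I) (h12 : t2 ∈ nbr a f I t1)
    (h13 : t3 ∈ nbr a f I t1) (h23 : t3 ∈ nbr a f I t2)
    (hs : ∑ i ∈ I, (nbr a f I i).card ≤ 2 * I.card) :
    3 ≤ (I.filter fun v => Good a f I v).card := by
  have h2 : t2 ∈ I := (mem_nbr.1 h12).1
  have h3 : t3 ∈ I := (mem_nbr.1 h13).1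
  have n21 : t2 ≠ t1 := (mem_nbr.1 h12).2.1
  have n31 : t3 ≠ t1 := (mem_nbr.1 h13).2.1
  have n32 : t3 ≠ t2 := (mem_nbr.1 h23).2.1
  have h21 := nbr_symm h1 h12
  have h31 := nbr_symm h1 h13
  have h32 := nbr_symm h2 h23
  have d1 := tri_deg h12 h13 n32.symm (mem_nbr.1 h23).2.2
  have d2 := tri_deg h21 h23 n31.symm (mem_nbr.1 h13).2.2
  have d3 := tri_deg h31 h32 n21.symm (mem_nbr.1 h12).2.2
  have key : ∀ v ∈ I, 2 + (if v ∈ ({t1, t2, t3} : Finset ι) then 1 else 0) ≤
      (nbr a f I v).card + (if Good a f I v then 1 else 0) := by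
    intro v hv
    have hp : 1 ≤ (nbr a f I v).card := (h.nbr_nonempty hv).card_pos
    by_cases hT : v ∈ ({t1, t2, t3} : Finset ι)
    · rw [if_pos hT]
      have : 2 ≤ (nbr a f I v).card ∧ (¬ Good a f I v → 3 ≤ (nbr a f I v).card) := by
        simp only [Finset.mem_insert, Finset.mem_singleton] at hT
        rcases hT with rfl | rfl | rfl
        · exact d1
        · exact d2
        · exact d3
      by_cases hg : Good a f I v
      · rw [if_pos hg]; omega
      · rw [if_neg hg]; have := this.2 hg; omega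
    · rw [if_neg hT]
      by_cases hg : Good a f I v
      · rw [if_pos hg]; omega
      · rw [if_neg hg]
        have : (nbr a f I v).card ≠ 1 := fun hc => hg (Or.inl (Finset.card_eq_one.1 hc))
        omega
  have hsum := Finset.sum_le_sum key
  rw [Finset.sum_add_distrib, Finset.sum_add_distrib, ← Finset.card_filter,
    ← Finset.card_filter, Finset.sum_const, smul_eq_mul] at hsum
  have hT : (I.filter fun v => v ∈ ({t1, t2, t3} : Finset ι)) = {t1, t2, t3} := by
    ext x
    simp only [Finset.mem_filter, Finset.mem_insert, Finset.mem_singleton]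
    constructor
    · exact fun hx => hx.2
    · intro hx
      refine ⟨?_, hx⟩
      rcases hx with rfl | rfl | rfl
      · exact h1
      · exact h2
      · exact h3
  have hc : ({t1, t2, t3} : Finset ι).card = 3 :=
    Finset.card_eq_three.2 ⟨t1, t2, t3, n21.symm, n31.symm, n32.symm, rfl⟩
  rw [hT, hc] at hsum
  omega

theorem no_dh (hL : S_LEAF) (hT : S_TRIAD) (h : Sj a f j I) {b c : ι} (hb : b ∈ I) (hc : c ∈ I)
    (hbc : b ≠ c) (hg : Good a f I b) (he : -(a b + a c) ∈ Dset (Tset f))
    (hnu : NU a f I (-(a b + a c))) (hno : ∀ t, OT a I t → a b + t ∉ Dset (Tset f)) :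
    Succ (Tset a) (Tset f) := by
  rcases hg with ⟨w, hw⟩ | ⟨w, w', hw, hne, hd⟩
  · refine hL a f j I b w h hb hw (Or.inr ⟨?_, fun t ht h1 => absurd h1 (hno t ht)⟩)
    intro h1
    apply hno 0 (ot_zero a I)
    rw [add_zero, h1]
    exact Tset_subset_Dset _ (self_mem_Tset f j)
  · refine hT a f j I b w w' c h hb hw hne hd hno hc hbc.symm he ?_
    intro i hi _ h1
    have h2 := hnu b hb i hi h1
    exact a.injective (add_left_cancel (neg_injective h2))

end Tri

open Tri in
theorem s_tri (hL : S_LEAF) (hT : S_TRIAD) (hC : S_C1) (hQ : S_TQ) : S_TRI := by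
  classical
  intro V _ _ ι κ _ _ _ _ a f j I t1 t2 t3 h h1 h12 h13 h23 hs hSD
  have hG := three_good h h1 h12 h13 h23 hs
  obtain ⟨e1, he1, e2, he2, b1, b2, hne, hsum, ⟨p, hp, s1, hs1, rfl⟩, hcase⟩ := hSD
  have y1T := sub_mem_Tset_one f he1.2 b1
  obtain ⟨l0, hl0⟩ := exists_repr_ne f (sub_ne_zero.2 hne)
  have hl0j : l0 ≠ j := by
    rintro rfl
    apply hl0
    rw [map_sub, Finsupp.sub_apply, b1]; simp
  have y1eq := Tset_eq_smul f y1T hl0
  have useC : ∀ v ∈ I, Good a f I v → v ≠ p → a.repr e2 v = 0 → Succ (Tset a) (Tset f) := by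
    intro v hv hg hvp h2
    have h1v : a.repr (a p + s1) v = 0 := by
      simp [single_ne hvp.symm, hs1.2 v hv]
    have hx : a.repr (f j) v = 0 := by
      have := hsum v hv
      rw [map_add, map_add, Finsupp.add_apply, Finsupp.add_apply, h1v, h2] at this
      simpa using this
    have hy : a.repr (f l0) v = 0 := by
      have h3 : a.repr (a p + s1 - f j) v = 0 := by
        rw [map_sub, Finsupp.sub_apply, h1v, hx, sub_zero]
      rw [y1eq, map_smul, Finsupp.smul_apply, smul_eq_mul] at h3
      exact (mul_eq_zero.1 h3).resolve_left hl0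
    exact hC a f j I v l0 h hv hx hl0j hy hg
  rcases hcase with ⟨q, hq, s2, hs2, rfl⟩ | ⟨b, hb, c, hc, hbc, rfl, hnu⟩
  · obtain ⟨v, hv, hvn⟩ := Finset.exists_mem_notMem_of_card_lt_card
      (s := ({p, q} : Finset ι)) (t := I.filter fun v => Good a f I v)
      (lt_of_le_of_lt Finset.card_le_two (by omega))
    simp only [Finset.mem_insert, Finset.mem_singleton, not_or] at hvn
    rw [Finset.mem_filter] at hv
    refine useC v hv.1 hv.2 hvn.1 ?_
    simp [single_ne (Ne.symm hvn.2), hs2.2 v hv.1]
  · by_cases hsub : (I.filter fun v => Good a f I v) ⊆ {p, b, c}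
    swap
    · obtain ⟨v, hv, hvn⟩ := Finset.not_subset.1 hsub
      simp only [Finset.mem_insert, Finset.mem_singleton, not_or] at hvn
      rw [Finset.mem_filter] at hv
      refine useC v hv.1 hv.2 hvn.1 ?_
      simp [single_ne (Ne.symm hvn.2.1), single_ne (Ne.symm hvn.2.2)]
    have hle : ({p, b, c} : Finset ι).card ≤ 3 := Finset.card_le_three
    have heq := Finset.eq_of_subset_of_card_le hsub (by omega)
    have hcard : ({p, b, c} : Finset ι).card = 3 := by
      have := Finset.card_le_card hsub
      omega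
    have hpb : p ≠ b := by
      rintro rfl
      have : ({p, p, c} : Finset ι).card ≤ 2 := by
        rw [Finset.insert_eq_of_mem (Finset.mem_insert_self _ _)]; exact Finset.card_le_two
      omega
    have hpc : p ≠ c := by
      rintro rfl
      have : ({p, b, p} : Finset ι).card ≤ 2 := by
        rw [Finset.insert_eq_of_mem (by simp)]; exact Finset.card_le_two
      omega
    have gb : Good a f I b := by
      have : b ∈ I.filter fun v => Good a f I v := by rw [heq]; simp
      exact (Finset.mem_filter.1 this).2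
    have gc : Good a f I c := by
      have : c ∈ I.filter fun v => Good a f I v := by rw [heq]; simp
      exact (Finset.mem_filter.1 this).2
    by_cases nb : ∀ t, OT a I t → a b + t ∉ Dset (Tset f)
    · exact no_dh hL hT h hb hc hbc gb he2.2 hnu nb
    by_cases nc : ∀ t, OT a I t → a c + t ∉ Dset (Tset f)
    · refine no_dh hL hT h hc hb hbc.symm gc ?_ ?_ nc
      · rw [add_comm]; exact he2.2
      · rw [add_comm]; exact hnu
    exfalso
    push Not at nb nc
    obtain ⟨t, ht, hbt⟩ := nb
    obtain ⟨t', ht', hct⟩ := nc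
    have bb : f.repr (a b + t) j = 1 := by simp [h.in_I hb, h.ot ht]
    have bc : f.repr (a c + t') j = 1 := by simp [h.in_I hc, h.ot ht']
    have hW : DSp (Tset f) (offS a (I : Set ι)) := by
      intro x hx
      refine span_mono (fun e he => ?_) (h.span_O (x := x) fun i hi => hx i hi)
      exact ⟨he.1.2, fun i hi => he.2 i hi⟩
    have hx : a.repr (f j) p = 0 := by
      have := (hQ (Tset f) (offS a (I : Set ι)) (isFrame_basis f) hW).1 _
        (sub_mem_Tset_one f hbt bb) _ (sub_mem_Tset_one f hct bc) _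
        (sub_mem_Tset_one f he2.2 b2) (by
          have e : a b + t - f j + (a c + t' - f j) + (-(a b + a c) - f j) = t + t' := by
            linear_combination (norm := module) -three (f j)
          rw [e]
          intro i hi
          simp [ht.2 i hi, ht'.2 i hi]) (by
          intro hm
          have := hm b hb
          simp [single_ne hbc.symm, ht.2 b hb, ht'.2 b hb] at this)
      rcases this with hm | hm | hm
      · simpa [single_ne hpb.symm, ht.2 p hp] using hm p hp
      · simpa [single_ne hpc.symm, ht'.2 p hp] using hm p hp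
      · simpa [single_ne hpb.symm, single_ne hpc.symm] using hm p hp
    have := hsum p hp
    simp [single_ne hpb.symm, single_ne hpc.symm, hs1.2 p hp, hx] at this

end Pool.Agent.P.MP_053557_co
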