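import Pool.Agent.P.MP_053557_co.Basic2

/-! Two-separations: normal form of the separation, unpinching and twisting. -/

namespace Pool.Agent.P.MP_053557_co

open Module Submodule

theorem s_sep1 : S_SEP1 := by
  intro V _ _ A B hA hB h4 hsp hn0 h1
  have := hA.finite
  obtain ⟨U1, U2, n1, n2, hc, hk⟩ := h1
  set W1 := span F (Ed A B ∩ (U1 : Set V)) with hW1
  set W2 := span F (Ed A B ∩ (U2 : Set V)) with hW2
  have l1 : W1 ≤ U1 := span_le.2 fun _ he => he.2
  have l2 : W2 ≤ U2 := span_le.2 fun _ he => he.2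
  have m1 : W1 ≠ ⊤ := fun h => n1 (top_le_iff.1 (h ▸ l1))
  have m2 : W2 ≠ ⊤ := fun h => n2 (top_le_iff.1 (h ▸ l2))
  have cov : ∀ e ∈ Ed A B, e ∈ W1 ∨ e ∈ W2 := fun e he =>
    (hc e he).imp (fun h => subset_span ⟨he, h⟩) fun h => subset_span ⟨he, h⟩
  have hle : finrank F ↥(W1 ⊓ W2) ≤ 1 :=
    (Submodule.finrank_mono (inf_le_inf l1 l2)).trans hk
  have hpos : ¬ finrank F ↥(W1 ⊓ W2) ≤ 0 := fun h => hn0 ⟨W1, W2, m1, m2, cov, h⟩
  have hne : W1 ⊓ W2 ≠ ⊥ := fun h => hpos (by rw [h]; simp)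
  obtain ⟨p, hp, hp0⟩ := (Submodule.ne_bot_iff _).1 hne
  have hinf : W1 ⊓ W2 = span F {p} := by
    refine (Submodule.eq_of_le_of_finrank_le ((span_singleton_le_iff_mem _ _).2 hp) ?_).symm
    rw [finrank_span_singleton hp0]
    exact hle
  refine ⟨W1, W2, p, hA, hB, h4, hn0, m1, m2, cov, hinf, hp0, ?_, ?_, ?_⟩
  · rw [eq_top_iff, ← hsp]
    exact span_le.2 fun e he => (cov e he).elim (fun h => mem_sup_left h) fun h => mem_sup_right h
  · exact span_mono fun e he => ⟨he.1, subset_span he⟩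
  · exact span_mono fun e he => ⟨he.1, subset_span he⟩

namespace Tw

variable {V : Type} [AddCommGroup V] [Module F V] {ι ρ : Type}
variable {A B : Set V} {V1 V2 : Submodule F V} {p : V}

theorem exists_P [Fintype ι] (h g : Basis ι F V) (θ : ι → V →ₗ[F] F) (W : Submodule F V)
    (h1 : ∀ k, ∀ x ∈ W, g.repr x k = θ k x)
    (h2 : ∀ m k k', θ k (h m) ≠ 0 → θ k' (h m) ≠ 0 → k = k') :
    ∃ P : V →ₗ[F] V, (∀ x ∈ Tset h, P x ∈ Tset g) ∧ ∀ x ∈ W, P x = x := by
  let P : V →ₗ[F] V := (g.equivFun.symm : (ι → F) →ₗ[F] V) ∘ₗ LinearMap.pi θ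
  have hP : ∀ x k, g.repr (P x) k = θ k x := by
    intro x k
    have := congrFun (g.equivFun.apply_symm_apply (LinearMap.pi θ x)) k
    rw [Basis.equivFun_apply] at this
    exact this
  refine ⟨P, fun x hx => ?_, fun x hx => eq_of_repr g fun k => by rw [hP, h1 k x hx]⟩
  rw [mem_Tset_iff]
  intro k k' hk hk'
  rw [hP] at hk hk'
  rcases mem_Tset_iff_smul.1 hx with rfl | ⟨m, c, -, rfl⟩
  · simp at hk
  · exact h2 m k k' (fun hc => by simp [hc] at hk) fun hc => by simp [hc] at hk'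

theorem p1 (t : Ts A B V1 V2 p) : p ∈ V1 :=
  (t.inf ▸ mem_span_singleton_self p : p ∈ V1 ⊓ V2).1

theorem p2 (t : Ts A B V1 V2 p) : p ∈ V2 := p1 t.symm

theorem inter (t : Ts A B V1 V2 p) {x : V} (h1 : x ∈ V1) (h2 : x ∈ V2) : ∃ c : F, x = c • p := by
  have : x ∈ span F {p} := t.inf ▸ (⟨h1, h2⟩ : x ∈ V1 ⊓ V2)
  obtain ⟨c, hc⟩ := mem_span_singleton.1 this
  exact ⟨c, hc.symm⟩

theorem split (t : Ts A B V1 V2 p) (x : V) : ∃ y ∈ V1, ∃ z ∈ V2, x = y + z := by
  have : x ∈ V1 ⊔ V2 := t.sup ▸ Submodule.mem_top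
  obtain ⟨y, hy, z, hz, h⟩ := mem_sup.1 this
  exact ⟨y, hy, z, hz, h.symm⟩

theorem fun_zero (t : Ts A B V1 V2 p) {φ : V →ₗ[F] F} (h1 : ∀ x ∈ V1, φ x = 0)
    (h2 : ∀ x ∈ V2, φ x = 0) (x : V) : φ x = 0 := by
  obtain ⟨y, hy, z, hz, rfl⟩ := split t x
  rw [map_add, h1 y hy, h2 z hz, add_zero]

theorem four [Fintype ι] (t : Ts A B V1 V2 p) (h : Basis ι F V) : 4 ≤ Fintype.card ι := by
  rw [← finrank_eq_card_basis h]; exact t.four

/-- A new frame from its stars on the two sides. -/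
theorem build [Fintype ι] (t : Ts A B V1 V2 p) (h : Basis ι F V) (r : Rr A B (Tset h))
    (θ1 θ2 : ι → V →ₗ[F] F) (hp : ∀ k, θ1 k p = θ2 k p)
    (d1 : ∀ m k k', θ1 k (h m) ≠ 0 → θ1 k' (h m) ≠ 0 → k = k')
    (d2 : ∀ m k k', θ2 k (h m) ≠ 0 → θ2 k' (h m) ≠ 0 → k = k')
    (hker : ∀ w1 ∈ V1, ∀ w2 ∈ V2, (∀ k, θ1 k w1 + θ2 k w2 = 0) → w1 + w2 = 0)
    {k0 : ι} (s1 : θ1 k0 = h.coord k0) (s2 : θ2 k0 = h.coord k0) :
    ∃ g : Basis ι F V, Rr A B (Tset g) ∧ Share (Tset h) (Tset g) ∧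
      (∀ k, ∀ x ∈ V1, g.repr x k = θ1 k x) ∧ ∀ k, ∀ x ∈ V2, g.repr x k = θ2 k x := by
  have := Module.Finite.of_basis h
  have hg : ∀ k, ∃ ψ : V →ₗ[F] F, (∀ x ∈ V1, ψ x = θ1 k x) ∧ ∀ x ∈ V2, ψ x = θ2 k x := by
    intro k
    refine exists_glue _ _ fun x h1 h2 => ?_
    obtain ⟨c, rfl⟩ := inter t h1 h2
    rw [map_smul, map_smul, hp]
  choose φ hφ1 hφ2 using hg
  obtain ⟨g, hg⟩ := exists_basis_of_coords φ (fun w hw => by
    obtain ⟨y, hy, z, hz, rfl⟩ := split t w
    refine hker y hy z hz fun k => ?_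
    rw [← hφ1 k y hy, ← hφ2 k z hz, ← map_add, hw]) (finrank_eq_card_basis h).symm
  have g1 : ∀ k, ∀ x ∈ V1, g.repr x k = θ1 k x := fun k x hx => by rw [hg, hφ1 k x hx]
  have g2 : ∀ k, ∀ x ∈ V2, g.repr x k = θ2 k x := fun k x hx => by rw [hg, hφ2 k x hx]
  obtain ⟨P1, a1, b1⟩ := exists_P h g θ1 V1 g1 d1
  obtain ⟨P2, a2, b2⟩ := exists_P h g θ2 V2 g2 d2
  refine ⟨g, hyb t.frA t.frB t.cov r r P1 P2 a1 a2 b1 b2, ?_, g1, g2⟩
  refine share_of_coord (i := k0) (l := k0) one_ne_zero fun x => ?_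
  obtain ⟨y, hy, z, hz, rfl⟩ := split t x
  rw [map_add, Finsupp.add_apply, g1 k0 y hy, g2 k0 z hz, s1, s2]
  simp

theorem unp_aux [Fintype ι] [DecidableEq ι] (t : Ts A B V1 V2 p) (h : Basis ι F V) (z : ι)
    (r : Rr A B (Tset h)) (hz : z ∈ Shd h V1 V2) (hp : h.repr p z = 0) {u1 u2 : V}
    (hu1 : u1 ∈ V1) (hu2 : u2 ∈ V2) (hu : h z = u1 + u2) (hne : h.repr u1 z ≠ 0) :
    ∃ g : Basis ι F V, Rr A B (Tset g) ∧ Share (Tset h) (Tset g) ∧
      (Shd g V1 V2).ncard < (Shd h V1 V2).ncard := by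
  obtain ⟨k0, hk0⟩ : ∃ k0, k0 ≠ z :=
    Fintype.exists_ne_of_one_lt_card (by have := four t h; omega) z
  have dd : ∀ m k k', h.coord k (h m) ≠ 0 → h.coord k' (h m) ≠ 0 → k = k' := by
    intro m k k' hk hk'
    have e1 : m = k := by_contra fun hc => hk (repr_basis_ne h hc)
    have e2 : m = k' := by_contra fun hc => hk' (repr_basis_ne h hc)
    rw [← e1, ← e2]
  obtain ⟨g, rg, sg, g1, g2⟩ := build t h r (fun k => h.coord k)
    (fun k => if k = z then 0 else h.coord k)
    (fun k => by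
      by_cases hk : k = z
      · subst hk; simpa using hp
      · simp [hk])
    dd
    (fun m k k' hk hk' => by
      by_cases e1 : k = z
      · simp [e1] at hk
      by_cases e2 : k' = z
      · simp [e2] at hk'
      rw [if_neg e1] at hk
      rw [if_neg e2] at hk'
      exact dd m k k' hk hk')
    (fun w1 hw1 w2 hw2 hw => by
      have e1 : w1 + w2 = h.repr (w1 + w2) z • h z := eq_smul_of_supp h z fun k hk => by
        simpa [hk] using hw k
      have e2 : h.repr w1 z = 0 := by simpa using hw z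
      set c := h.repr (w1 + w2) z with hc
      have e3 : w1 - c • u1 = c • u2 - w2 := by
        rw [hu] at e1
        linear_combination (norm := module) e1
      obtain ⟨d, hd⟩ := inter t (x := w1 - c • u1) (sub_mem hw1 (smul_mem _ _ hu1))
        (e3 ▸ sub_mem (smul_mem _ _ hu2) hw2)
      have e4 := congrArg (fun v => h.repr v z) hd
      simp [e2, hp, hne] at e4
      rw [e1, e4, zero_smul])
    (k0 := k0) rfl (by simp [hk0])
  refine ⟨g, rg, sg, Set.ncard_lt_ncard ⟨fun k hk => ?_, fun hc => ?_⟩ (Set.toFinite _)⟩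
  · obtain ⟨⟨x, hx, hx0⟩, y, hy, hy0⟩ := hk
    rw [g1 k x hx] at hx0
    rw [g2 k y hy] at hy0
    by_cases e1 : k = z
    · simp [e1] at hy0
    · rw [if_neg e1] at hy0
      exact ⟨⟨x, hx, hx0⟩, y, hy, hy0⟩
  · obtain ⟨-, y, hy, hy0⟩ := hc hz
    rw [g2 z y hy] at hy0
    simp at hy0

end Tw

theorem s_unp : S_UNP := by
  intro V _ _ ι _ _ A B V1 V2 p h z t r hz hp
  obtain ⟨u1, hu1, u2, hu2, hu⟩ := Tw.split t (h z)
  by_cases h1 : h.repr u1 z = 0
  · have h2 : h.repr u2 z ≠ 0 := by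
      intro h2
      have := congrArg (fun v => h.repr v z) hu
      simp [h1, h2] at this
    rw [Shd_comm] at hz
    obtain ⟨g, a, b, c⟩ := Tw.unp_aux t.symm h z r hz hp hu2 hu1 (by rw [hu, add_comm]) h2
    exact ⟨g, a, b, by rwa [Shd_comm g, Shd_comm h]⟩
  · exact Tw.unp_aux t h z r hz hp hu1 hu2 hu h1

namespace Tw

variable {V : Type} [AddCommGroup V] [Module F V] {ι ρ : Type}
variable {A B : Set V} {V1 V2 : Submodule F V} {p : V}

theorem dsp (t : Ts A B V1 V2 p) {h : Basis ι F V} (r : Rr A B (Tset h)) : DSp (Tset h) V1 :=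
  t.sp1.trans (span_mono fun _ he => ⟨r.ed_subset he.1, he.2⟩)

theorem supp_p (t : Ts A B V1 V2 p) (h : Basis ι F V) {m : ι} (hm : h.repr p m ≠ 0) :
    m ∈ Shd h V1 V2 := ⟨⟨p, p1 t, hm⟩, p, p2 t, hm⟩

/-- Evaluation of a functional when only two coordinates matter. -/
theorem eval_two [Fintype ι] (h : Basis ι F V) (φ : V →ₗ[F] F) (v : V) {x y : ι} (hxy : x ≠ y)
    (h0 : ∀ m, m ≠ x → m ≠ y → φ (h m) ≠ 0 → h.repr v m = 0) :
    φ v = h.repr v x * φ (h x) + h.repr v y * φ (h y) := by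
  classical
  rw [map_eq_sum h φ v]
  refine Finset.sum_eq_add_of_mem x y (Finset.mem_univ _) (Finset.mem_univ _) hxy
    fun m _ hm => ?_
  by_cases hc : φ (h m) = 0
  · rw [hc, mul_zero]
  · rw [h0 m hm.1 hm.2 hc, zero_mul]

/-- A big class has at least two shared vertices. -/
theorem two_shared [Fintype ι] (t : Ts A B V1 V2 p) (h : Basis ι F V)
    (hS : ∀ z ∈ Shd h V1 V2, h.repr p z ≠ 0) {χ : ρ → V →ₗ[F] F} (c : Cells h V1 χ) {q : ρ}
    (hq : Big h V1 χ q) :
    ∃ x y, x ≠ y ∧ χ q (h x) ≠ 0 ∧ χ q (h y) ≠ 0 ∧ x ∈ Shd h V1 V2 ∧ y ∈ Shd h V1 V2 := by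
  obtain ⟨x, hx, hxS⟩ : ∃ x, χ q (h x) ≠ 0 ∧ x ∈ Shd h V1 V2 := by
    by_contra hc
    push Not at hc
    obtain ⟨l, hl⟩ := c.ne q
    refine hl (fun_zero t (c.van q) (fun v hv => ?_) _)
    rw [map_eq_sum h]
    refine Finset.sum_eq_zero fun m _ => ?_
    by_cases h1 : χ q (h m) = 0
    · rw [h1, mul_zero]
    · have : h.repr v m = 0 := by_contra fun h2 => hc m h1 ⟨c.big_tch hq h1, v, hv, h2⟩
      rw [this, zero_mul]
  by_contra hc
  push Not at hc
  have h1 := c.van q p (p1 t)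
  rw [map_eq_sum h, Finset.sum_eq_single x] at h1
  · exact mul_ne_zero (hS x hxS) hx h1
  · intro m _ hm
    by_cases h2 : χ q (h m) = 0
    · rw [h2, mul_zero]
    · have : h.repr p m = 0 := by_contra fun h3 => hc m x hm h2 hx (supp_p t h h3) hxS
      rw [this, zero_mul]
  · simp

/-- If all big classes have three shared vertices there are few of them. -/
theorem count [Fintype ι] [Fintype ρ] (h : Basis ι F V) {χ : ρ → V →ₗ[F] F}
    (c : Cells h V1 χ) (S : Set ι)
    (h3 : ∀ q, Big h V1 χ q → 3 ≤ {l | χ q (h l) ≠ 0 ∧ l ∈ S}.ncard) :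
    3 * {q | Big h V1 χ q}.ncard ≤ S.ncard := by
  classical
  let T : ρ → Finset ι := fun q => Finset.univ.filter fun l => χ q (h l) ≠ 0 ∧ l ∈ S
  let Bq : Finset ρ := Finset.univ.filter fun q => Big h V1 χ q
  have e1 : {q | Big h V1 χ q}.ncard = Bq.card := by
    rw [← Set.ncard_coe_finset]; congr 1; ext q; simp [Bq]
  have e2 : ∀ q, {l | χ q (h l) ≠ 0 ∧ l ∈ S}.ncard = (T q).card := by
    intro q
    rw [← Set.ncard_coe_finset]; congr 1; ext l; simp [T]
  have e3 : (Bq.biUnion T).card = ∑ q ∈ Bq, (T q).card := by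
    refine Finset.card_biUnion fun q _ q' _ hqq => ?_
    rw [Function.onFun, Finset.disjoint_left]
    intro l hl hl'
    exact hqq (c.disj l q q' (Finset.mem_filter.1 hl).2.1 (Finset.mem_filter.1 hl').2.1)
  have e4 : (Bq.biUnion T).card ≤ S.ncard := by
    rw [← Set.ncard_coe_finset]
    refine Set.ncard_le_ncard (fun l hl => ?_) (Set.toFinite _)
    obtain ⟨q, -, hq⟩ := Finset.mem_biUnion.1 hl
    exact (Finset.mem_filter.1 hq).2.2
  have e5 : Bq.card • 3 ≤ ∑ q ∈ Bq, (T q).card :=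
    Finset.card_nsmul_le_sum _ _ _ fun q hq => e2 q ▸ h3 q (Finset.mem_filter.1 hq).2
  rw [smul_eq_mul] at e5
  omega

/-- A functional killing `p` and supported on all three shared vertices. -/
theorem const3 [Fintype ι] (t : Ts A B V1 V2 p) (h : Basis ι F V)
    (hS : ∀ z ∈ Shd h V1 V2, h.repr p z ≠ 0) (h3 : (Shd h V1 V2).ncard = 3) {φ : V →ₗ[F] F}
    (hp : φ p = 0) (hφ : ∀ m ∈ Shd h V1 V2, φ (h m) ≠ 0) :
    ∃ c : F, c ≠ 0 ∧ ∀ m ∈ Shd h V1 V2, φ (h m) = c * h.repr p m := by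
  classical
  obtain ⟨x, y, z, hxy, hxz, hyz, hxyz⟩ := Set.ncard_eq_three.1 h3
  have hx : x ∈ Shd h V1 V2 := by rw [hxyz]; simp
  have hy : y ∈ Shd h V1 V2 := by rw [hxyz]; simp
  have hz : z ∈ Shd h V1 V2 := by rw [hxyz]; simp
  have e1 : φ p = ∑ m ∈ ({x, y, z} : Finset ι), h.repr p m * φ (h m) := by
    rw [map_eq_sum h]
    refine (Finset.sum_subset (Finset.subset_univ _) fun m _ hm => ?_).symm
    have : h.repr p m = 0 := by
      by_contra h0
      have := supp_p t h h0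
      rw [hxyz] at this
      exact hm (by simpa using this)
    rw [this, zero_mul]
  rw [Finset.sum_insert (by simp [hxy, hxz]), Finset.sum_pair hyz, hp] at e1
  have fin : ∀ a b c : F, a ≠ 0 → b ≠ 0 → c ≠ 0 → 0 = a + (b + c) → b = a ∧ c = a := by decide
  obtain ⟨e2, e3⟩ := fin _ _ _ (mul_ne_zero (hS x hx) (hφ x hx)) (mul_ne_zero (hS y hy) (hφ y hy))
    (mul_ne_zero (hS z hz) (hφ z hz)) e1
  refine ⟨_, mul_ne_zero (hS x hx) (hφ x hx), fun m hm => ?_⟩
  have e4 : h.repr p m * φ (h m) = h.repr p x * φ (h x) := by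
    rw [hxyz] at hm
    rcases hm with rfl | rfl | rfl
    · rfl
    · exact e2
    · exact e3
  have := F_sq (hS m hm)
  linear_combination h.repr p m * e4 - φ (h m) * this

/-- The twist at a class with exactly two shared vertices. -/
theorem twist [Fintype ι] [DecidableEq ι] (t : Ts A B V1 V2 p) (h : Basis ι F V)
    (r : Rr A B (Tset h)) (hS : ∀ z ∈ Shd h V1 V2, h.repr p z ≠ 0)
    (h3 : 3 ≤ (Shd h V1 V2).ncard) {χ : ρ → V →ₗ[F] F} (c : Cells h V1 χ) {q : ρ}
    (hq : Big h V1 χ q) (h2 : ¬ 3 ≤ {l | χ q (h l) ≠ 0 ∧ l ∈ Shd h V1 V2}.ncard) :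
    ∃ g : Basis ι F V, Rr A B (Tset g) ∧ Share (Tset h) (Tset g) ∧
      (Shd g V1 V2).ncard < (Shd h V1 V2).ncard := by
  obtain ⟨x, y, hxy, hx, hy, hxS, hyS⟩ := two_shared t h hS c hq
  have honly : ∀ m, m ≠ x → m ≠ y → χ q (h m) ≠ 0 → m ∉ Shd h V1 V2 := by
    intro m h1 h1' h4 h5
    refine h2 ((Set.two_lt_ncard (Set.toFinite _)).2
      ⟨x, ⟨hx, hxS⟩, y, ⟨hy, hyS⟩, m, ⟨h4, h5⟩, hxy, h1.symm, h1'.symm⟩)
  obtain ⟨z, hzS, hzx, hzy⟩ : ∃ z ∈ Shd h V1 V2, z ≠ x ∧ z ≠ y := by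
    by_contra hc
    push Not at hc
    have : Shd h V1 V2 ⊆ {x, y} := fun m hm => by
      by_cases h1 : m = x
      · exact Or.inl h1
      · exact Or.inr (hc m hm h1)
    have h4 := Set.ncard_le_ncard this (Set.toFinite _)
    rw [Set.ncard_pair hxy] at h4
    omega
  obtain ⟨k0, hk0⟩ : ∃ k0, k0 ∉ ({x, y, z} : Finset ι) := by
    by_contra hc
    push Not at hc
    have h4 := Finset.card_le_card (fun k _ => hc k : Finset.univ ⊆ ({x, y, z} : Finset ι))
    have h5 : ({x, y, z} : Finset ι).card ≤ 3 := Finset.card_le_three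
    have := four t h
    rw [Finset.card_univ] at h4
    omega
  simp only [Finset.mem_insert, Finset.mem_singleton, not_or] at hk0
  have hzq : χ q (h z) = 0 := by_contra fun hc => honly z hzx hzy hc hzS
  have ha := F_sq (hS x hxS)
  have hb := F_sq (hS y hyS)
  have hc := F_sq (hS z hzS)
  have hα := F_sq hx
  have hβ := F_sq hy
  have hrel : h.repr p x * χ q (h x) + h.repr p y * χ q (h y) = 0 := by
    rw [← eval_two h (χ q) p hxy fun m h1 h1' h4 =>
      by_contra fun h5 => honly m h1 h1' h4 (supp_p t h h5)]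
    exact c.van q p (p1 t)
  have hu : h.repr p x • h x + h.repr p y • h y ∈ V1 := by
    have h4 := V1.smul_mem (h.repr p x * χ q (h x)) (c.diff hx hy)
    have e1 : h.repr p x * χ q (h x) * χ q (h x) = h.repr p x := by
      rw [mul_assoc, hα, mul_one]
    have e2 : h.repr p x * χ q (h x) * χ q (h y) = -h.repr p y := by
      linear_combination χ q (h y) * hrel - h.repr p y * hβ
    rwa [smul_sub, smul_smul, smul_smul, e1, e2, neg_smul, sub_neg_eq_add] at h4
  set a := h.repr p x with ha'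
  set b := h.repr p y with hb'
  set d := h.repr p z with hd'
  have hyx := hxy.symm
  have hxz := hzx.symm
  have hyz := hzy.symm
  obtain ⟨g, rg, sg, g1, g2⟩ := build t h r
    (fun k => if k = x then a • h.coord x else if k = y then 0 else
      if k = z then d • h.coord z - b • h.coord y else h.coord k)
    (fun k => if k = x then d • h.coord z else if k = y then a • h.coord x - b • h.coord y else
      if k = z then 0 else h.coord k)
    (fun k => by
      by_cases e1 : k = x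
      · simp [e1, ← ha', ← hd', ha, hc]
      by_cases e2 : k = y
      · simp [e2, hyx, ← ha', ← hb', ha, hb]
      by_cases e3 : k = z
      · simp [e3, hzx, hzy, ← hd', ← hb', hc, hb]
      · simp [e1, e2, e3])
    (fun m k k' hk hk' => by
      have key : ∀ k, (if k = x then a • h.coord x else if k = y then 0 else
          if k = z then d • h.coord z - b • h.coord y else h.coord k) (h m) ≠ 0 →
          k = if m = y then z else m := by
        intro k hk
        by_cases e1 : k = x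
        · have : m = x := by
            by_contra hm
            simp [e1, single_ne hm] at hk
          simp [e1, this, hxy]
        by_cases e2 : k = y
        · simp [e2, hyx] at hk
        by_cases e3 : k = z
        · by_cases hm : m = y
          · simp [e3, hm]
          · have : m = z := by
              by_contra hm'
              simp [e3, hzx, hzy, single_ne hm, single_ne hm'] at hk
            simp [e3, this]
        · have : m = k := by
            by_contra hm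
            simp [e1, e2, e3, single_ne hm] at hk
          simp [this, e2]
      rw [key k hk, key k' hk'])
    (fun m k k' hk hk' => by
      have key : ∀ k, (if k = x then d • h.coord z else if k = y then
          a • h.coord x - b • h.coord y else if k = z then 0 else h.coord k) (h m) ≠ 0 →
          k = if m = x then y else if m = z then x else m := by
        intro k hk
        by_cases e1 : k = x
        · have : m = z := by
            by_contra hm
            simp [e1, single_ne hm] at hk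
          simp [e1, this, hzx]
        by_cases e2 : k = y
        · by_cases hm : m = x
          · simp [e2, hm]
          · have : m = y := by
              by_contra hm'
              simp [e2, hyx, single_ne hm, single_ne hm'] at hk
            simp [e2, this, hyx, hyz]
        by_cases e3 : k = z
        · simp [e3, hzx, hzy] at hk
        · have : m = k := by
            by_contra hm
            simp [e1, e2, e3, single_ne hm] at hk
          simp [this, e1, e3]
      rw [key k hk, key k' hk'])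
    (fun w1 hw1 w2 hw2 hw => by
      have ex : a * h.repr w1 x + d * h.repr w2 z = 0 := by simpa using hw x
      have ey : a * h.repr w2 x - b * h.repr w2 y = 0 := by simpa [hyx] using hw y
      have ez : d * h.repr w1 z - b * h.repr w1 y = 0 := by simpa [hzx, hzy] using hw z
      have eo : ∀ k, k ≠ x → k ≠ y → k ≠ z → h.repr w1 k + h.repr w2 k = 0 := by
        intro k e1 e2 e3
        simpa [e1, e2, e3] using hw k
      have e1 : h.repr w1 x * χ q (h x) + h.repr w1 y * χ q (h y) = 0 := by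
        rw [← eval_two h (χ q) w1 hxy fun m h1 h1' h4 => ?_]
        · exact c.van q w1 hw1
        · have h5 : h.repr w2 m = 0 := by_contra fun h6 =>
            honly m h1 h1' h4 ⟨c.big_tch hq h4, w2, hw2, h6⟩
          have h6 := eo m h1 h1' (by rintro rfl; exact h4 hzq)
          rwa [h5, add_zero] at h6
      have e2 : a * h.repr w1 x - b * h.repr w1 y = 0 := by
        linear_combination (a * χ q (h x)) * e1 - (h.repr w1 y * χ q (h y)) * hrel
          - a * h.repr w1 x * hα + b * h.repr w1 y * hβ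
      have e3 : h.repr w1 z + h.repr w2 z = 0 := by
        linear_combination d * ex + d * ez - d * e2 - (h.repr w1 z + h.repr w2 z) * hc
      have e4 : w1 + w2 = (a * (h.repr w1 x + h.repr w2 x)) • (a • h x + b • h y) := by
        refine eq_of_repr h fun k => ?_
        by_cases f1 : k = x
        · subst f1
          simp [single_ne hyx]
          linear_combination (-(h.repr w1 k + h.repr w2 k)) * ha
        by_cases f2 : k = y
        · subst f2
          simp [single_ne hxy]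
          linear_combination (-b) * e2 - b * ey - (h.repr w1 k + h.repr w2 k) * hb
        by_cases f3 : k = z
        · subst f3
          simpa [single_ne hxz, single_ne hyz] using e3
        · simpa [single_ne (Ne.symm f1), single_ne (Ne.symm f2)] using eo k f1 f2 f3
      have e5 : w2 ∈ V1 := by
        have : w2 = (w1 + w2) - w1 := by abel
        rw [this, e4]
        exact sub_mem (smul_mem _ _ hu) hw1
      obtain ⟨s, hs⟩ := inter t e5 hw2
      have e6 : h.repr w2 x = s * a := by rw [hs]; simp [ha']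
      have e7 : h.repr w2 z = s * d := by rw [hs]; simp [hd']
      have e8 : a * (h.repr w1 x + h.repr w2 x) = 0 := by
        rw [e7] at ex
        rw [e6]
        linear_combination ex + s * ha - s * hc
      rw [e4, e8, zero_smul])
    (k0 := k0) (by simp [hk0]) (by simp [hk0])
  refine ⟨g, rg, sg, Set.ncard_lt_ncard ⟨fun k hk => ?_, fun hc => ?_⟩ (Set.toFinite _)⟩
  · by_cases e1 : k = x
    · exact e1 ▸ hxS
    by_cases e2 : k = y
    · exact e2 ▸ hyS
    by_cases e3 : k = z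
    · exact e3 ▸ hzS
    obtain ⟨⟨v, hv, hv0⟩, w, hw, hw0⟩ := hk
    rw [g1 k v hv] at hv0
    rw [g2 k w hw] at hw0
    exact ⟨⟨v, hv, by simpa [e1, e2, e3] using hv0⟩, w, hw, by simpa [e1, e2, e3] using hw0⟩
  · obtain ⟨⟨v, hv, hv0⟩, -⟩ := hc hyS
    rw [g1 y v hv] at hv0
    simp [hyx] at hv0

end Tw

theorem s_tw (hcell : S_CELL) (hcl : S_CL) : S_TW := by
  intro V _ _ ι _ _ A B V1 V2 p h t r hS h3
  classical
  obtain ⟨r1, χ, c1⟩ := hcell h V1 (Tw.dsp t r)
  obtain ⟨r2, ψ, c2⟩ := hcell h V2 (Tw.dsp t.symm r)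
  have hS' : ∀ z ∈ Shd h V2 V1, h.repr p z ≠ 0 := by rwa [Shd_comm]
  by_cases k1 : ∃ q, Big h V1 χ q ∧ ¬ 3 ≤ {l | χ q (h l) ≠ 0 ∧ l ∈ Shd h V1 V2}.ncard
  · obtain ⟨q, hq, h2⟩ := k1
    exact Tw.twist t h r hS h3 c1 hq h2
  by_cases k2 : ∃ q, Big h V2 ψ q ∧ ¬ 3 ≤ {l | ψ q (h l) ≠ 0 ∧ l ∈ Shd h V1 V2}.ncard
  · obtain ⟨q, hq, h2⟩ := k2
    obtain ⟨g, a, b, c⟩ := Tw.twist t.symm h r hS' (by rwa [Shd_comm]) c2 hq (by rwa [Shd_comm])
    exact ⟨g, a, b, by rwa [Shd_comm g, Shd_comm h]⟩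
  exfalso
  push Not at k1 k2
  have n1 := Tw.count h c1 _ k1
  have n2 := Tw.count h c2 _ k2
  have n3 := hcl h V1 V2 χ ψ c1 c2 t.sup
  rw [t.inf, finrank_span_singleton t.pne] at n3
  have e3 : (Shd h V1 V2).ncard = 3 := by omega
  obtain ⟨q1, hq1⟩ := Set.nonempty_of_ncard_ne_zero (s := {q | Big h V1 χ q}) (by omega)
  obtain ⟨q2, hq2⟩ := Set.nonempty_of_ncard_ne_zero (s := {q | Big h V2 ψ q}) (by omega)
  have full : ∀ φ : V →ₗ[F] F, 3 ≤ {l | φ (h l) ≠ 0 ∧ l ∈ Shd h V1 V2}.ncard →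
      ∀ m ∈ Shd h V1 V2, φ (h m) ≠ 0 := by
    intro φ hφ m hm
    have := Set.eq_of_subset_of_ncard_le (s := {l | φ (h l) ≠ 0 ∧ l ∈ Shd h V1 V2})
      (t := Shd h V1 V2) (fun l hl => hl.2) (by omega) (Set.toFinite _)
    rw [← this] at hm
    exact hm.1
  obtain ⟨c, hc, hc'⟩ := Tw.const3 t h hS e3 (c1.van q1 p (Tw.p1 t)) (full _ (k1 q1 hq1))
  obtain ⟨d, hd, hd'⟩ := Tw.const3 t h hS e3 (c2.van q2 p (Tw.p2 t)) (full _ (k2 q2 hq2))
  let Φ : V →ₗ[F] F := h.constr F fun m => if Tch h V1 m then d * χ q1 (h m) else c * ψ q2 (h m)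
  have hΦ : ∀ m, Φ (h m) = if Tch h V1 m then d * χ q1 (h m) else c * ψ q2 (h m) := fun m =>
    h.constr_basis F _ m
  have z1 : ∀ x ∈ V1, Φ x = 0 := by
    intro x hx
    have : Φ x = d * χ q1 x := by
      rw [map_eq_sum h Φ, map_eq_sum h (χ q1), Finset.mul_sum]
      refine Finset.sum_congr rfl fun m _ => ?_
      by_cases h0 : h.repr x m = 0
      · simp [h0]
      · rw [hΦ, if_pos ⟨x, hx, h0⟩]; ring
    rw [this, c1.van q1 x hx, mul_zero]
  have z2 : ∀ x ∈ V2, Φ x = 0 := by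
    intro x hx
    have : Φ x = c * ψ q2 x := by
      rw [map_eq_sum h Φ, map_eq_sum h (ψ q2), Finset.mul_sum]
      refine Finset.sum_congr rfl fun m _ => ?_
      by_cases h0 : h.repr x m = 0
      · simp [h0]
      · rw [hΦ]
        split_ifs with h1
        · have hm : m ∈ Shd h V1 V2 := ⟨h1, x, hx, h0⟩
          rw [hc' m hm, hd' m hm]; ring
        · ring
    rw [this, c2.van q2 x hx, mul_zero]
  obtain ⟨m, hm⟩ := Set.nonempty_of_ncard_ne_zero (s := Shd h V1 V2) (by omega)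
  have := Tw.fun_zero t z1 z2 (h m)
  rw [hΦ, if_pos hm.1] at this
  exact mul_ne_zero hd (full _ (k1 q1 hq1) m hm) this

end Pool.Agent.P.MP_053557_co
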