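import Pool.Agent.P.MP_053557_co.Basic2

/-! The case where the support of the star has two elements. -/

namespace Pool.Agent.P.MP_053557_co

open Module Submodule

section

variable {V : Type} [AddCommGroup V] [Module F V] {ι κ : Type}

theorem two_joint (f : Basis κ F V) {j : κ} {z : V} (hz : z ∈ Tset f) (h0 : z ≠ 0)
    (hj : f.repr z j = 0) : ∃ l, l ≠ j ∧ ∃ c : F, c ≠ 0 ∧ z = c • f l := by
  obtain ⟨l, hl⟩ := exists_repr_ne f h0
  exact ⟨l, fun hc => hl (hc ▸ hj), _, hl, Tset_eq_smul f hz hl⟩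

theorem two_F1 {c x : F} (hx : x ≠ -1) (h : c * x = 1) : c = 1 ∧ x = 1 := by
  revert c x; decide

theorem two_F2 {c x : F} (hx : x ≠ -1) (h : c * x = -1) : c = -1 ∧ x = 1 := by
  revert c x; decide

theorem two_F3 {x y : F} (hx : x ≠ 0) (hy : y ≠ 0) (h : 1 = x + y) : x = -1 ∧ y = -1 := by
  revert x y; decide

variable [Fintype ι] [DecidableEq ι] [Fintype κ] [DecidableEq κ]

omit [Fintype κ] [DecidableEq κ] in
theorem two_nbr {a : Basis ι F V} {f : Basis κ F V} {j : κ} {I : Finset ι} {v w : ι}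
    (h : Sj a f j I) (hv : v ∈ I) (hI : ∀ i ∈ I, i ≠ v → i = w) : nbr a f I v = {w} := by
  have h1 : nbr a f I v ⊆ {w} := fun i hi =>
    Finset.mem_singleton.2 (hI i (mem_nbr.1 hi).1 (mem_nbr.1 hi).2.1)
  exact (Finset.subset_singleton_iff.1 h1).resolve_left (h.nbr_nonempty hv).ne_empty

/-- What remains at a leaf `v` with neighbour `w` when `I = {v, w}`. -/
theorem two_leaf (hLEAF : S_LEAF) {a : Basis ι F V} {f : Basis κ F V} {j : κ} {I : Finset ι}
    {v w : ι} (h : Sj a f j I) (hv : v ∈ I) (hI : ∀ i ∈ I, i ≠ v → i = w)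
    (hn : ¬ Succ (Tset a) (Tset f)) :
    (-(a v + a w) ∈ Dset (Tset f) ∧ -(a v + a w) - f j ≠ 0) ∧
      ∃ t, OT a I t ∧ a v + t - f j ∈ Tset f ∧ a v + t - f j ≠ 0 ∧
        f.repr (a v + t - f j) j = 0 := by
  have h1 := mt (hLEAF a f j I v w h hv (two_nbr h hv hI)) hn
  push Not at h1
  obtain ⟨⟨i, hi, hiv, h2, h3⟩, h4⟩ := h1
  obtain rfl := hI i hi hiv
  refine ⟨⟨h2, fun hc => h3 (hc ▸ zero_mem _)⟩, ?_⟩
  have h5 : a v ≠ f j := by
    intro hc
    refine h3 ?_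
    have : -(a v + a i) - f j = a v - a i := by
      rw [← hc]
      linear_combination (norm := module) -three (a v)
    rw [this]
    exact subset_span rfl
  obtain ⟨t, ht, h6, h7⟩ := h4 h5
  have h8 : f.repr (a v + t) j = 1 := by simp [h.in_I hv, h.ot ht]
  exact ⟨t, ht, sub_mem_Tset_one f h6 h8, fun hc => h7 (hc ▸ zero_mem _), by
    rw [map_sub, Finsupp.sub_apply, h8, repr_basis_self, sub_self]⟩

theorem two_core (hLEAF : S_LEAF) (hC1 : S_C1) {a : Basis ι F V} {f : Basis κ F V} {j : κ}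
    {i1 i2 : ι} (h12 : i1 ≠ i2) (h : Sj a f j {i1, i2})
    (hK : ∀ l, l ≠ j → a.repr (f l) i1 ≠ -1) (hn : ¬ Succ (Tset a) (Tset f)) :
    ∃ (y : κ) (s0 fw : V), Q2 a f j i1 i2 y s0 fw := by
  have m1 : i1 ∈ ({i1, i2} : Finset ι) := by simp
  have m2 : i2 ∈ ({i1, i2} : Finset ι) := by simp
  have o1 : ∀ i ∈ ({i1, i2} : Finset ι), i ≠ i1 → i = i2 := fun i hi hne => by simpa [hne] using hi
  have o2 : ∀ i ∈ ({i1, i2} : Finset ι), i ≠ i2 → i = i1 := fun i hi hne => by simpa [hne] using hi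
  have n1 := two_nbr h m1 o1
  have n2 := two_nbr h m2 o2
  have r12 : a.repr (a i1) i2 = 0 := repr_basis_ne a h12
  have r21 : a.repr (a i2) i1 = 0 := repr_basis_ne a h12.symm
  obtain ⟨⟨hν, hs0⟩, t, ht, y1T, y1n, y1j⟩ := two_leaf hLEAF h m1 o1 hn
  obtain ⟨-, t', ht', y2T, y2n, y2j⟩ := two_leaf hLEAF h m2 o2 hn
  obtain ⟨l1, l1j, c1, hc1, e1⟩ := two_joint f y1T y1n y1j
  obtain ⟨l2, l2j, c2, hc2, e2⟩ := two_joint f y2T y2n y2j
  have val : ∀ {x : V} {c : F} {l : κ} (i : ι), x = c • f l → c * a.repr (f l) i = a.repr x i :=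
    fun i hx => by rw [hx, map_smul, Finsupp.smul_apply, smul_eq_mul]
  have hx2 : a.repr (f j) i2 ≠ 0 := by
    intro hc
    have e3 := val i2 e1
    simp only [map_sub, map_add, Finsupp.sub_apply, Finsupp.add_apply, r12, ht.2 i2 m2, hc,
      add_zero, sub_zero, mul_eq_zero, hc1, false_or] at e3
    exact hn (hC1 a f j _ i2 l1 h m2 hc l1j e3 (Or.inl ⟨_, n2⟩))
  have hx1 : a.repr (f j) i1 ≠ 0 := by
    intro hc
    have e3 := val i1 e2
    simp only [map_sub, map_add, Finsupp.sub_apply, Finsupp.add_apply, r21, ht'.2 i1 m1, hc,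
      add_zero, sub_zero, mul_eq_zero, hc2, false_or] at e3
    exact hn (hC1 a f j _ i1 l2 h m1 hc l2j e3 (Or.inl ⟨_, n1⟩))
  have hsum := repr_j_eq_sum h.hI (f j)
  rw [repr_basis_self, Finset.sum_pair h12] at hsum
  obtain ⟨x1, x2⟩ := two_F3 hx1 hx2 hsum
  have v1 := val i1 e1
  have v2 := val i1 e2
  simp only [map_sub, map_add, Finsupp.sub_apply, Finsupp.add_apply, r21, ht.2 i1 m1,
    ht'.2 i1 m1, x1, repr_basis_self] at v1 v2
  obtain ⟨rfl, k1⟩ := two_F2 (hK l1 l1j) (v1.trans (by decide))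
  obtain ⟨rfl, k2⟩ := two_F1 (hK l2 l2j) (v2.trans (by decide))
  have he1 : f j - f l1 = a i1 + t := by linear_combination (norm := module) -e1
  have he2 : f j + f l2 = a i2 + t' := by linear_combination (norm := module) -e2
  have hνj : f.repr (-(a i1 + a i2)) j = 1 := by
    simp only [map_neg, map_add, Finsupp.neg_apply, Finsupp.add_apply, h.in_I m1, h.in_I m2]
    decide
  have s0T := sub_mem_Tset_one f hν hνj
  have s0j : f.repr (-(a i1 + a i2) - f j) j = 0 := by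
    rw [map_sub, Finsupp.sub_apply, hνj, repr_basis_self, sub_self]
  have s01 : a.repr (-(a i1 + a i2) - f j) i1 = 0 := by
    simp only [map_sub, map_neg, map_add, Finsupp.sub_apply, Finsupp.neg_apply, Finsupp.add_apply,
      r21, x1, repr_basis_self]
    decide
  obtain ⟨l0, l0j, c0, hc0, e0⟩ := two_joint f s0T hs0 s0j
  have k0 : a.repr (f l0) i1 = 0 := by
    have e3 := val i1 e0
    rw [s01] at e3
    exact (mul_eq_zero.1 e3).resolve_left hc0
  have hd : a i1 - a i2 ∈ Dset (Tset f) :=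
    (mem_nbr.1 (n1.ge (Finset.mem_singleton_self i2))).2.2
  have hdj : f.repr (a i1 - a i2) j = 0 := by simp [h.in_I m1, h.in_I m2]
  have hend : ∃ m, f.repr (a i1 - a i2) m ≠ 0 ∧ a.repr (f m) i1 = 0 := by
    by_contra hc
    push Not at hc
    refine h.tc.nsep (sepv f {l | l ≠ j ∧ a.repr (f l) i1 ≠ 0} ⟨l1, l1j, by rw [k1]; decide⟩
      (j := j) (l0 := l0) (fun hl => hl.2 k0) l0j fun e he l hl hel m hm => ?_)
    by_cases hmj : m = j
    · exact Or.inr hmj
    refine Or.inl ⟨hmj, ?_⟩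
    by_cases hej : f.repr e j = 0
    · rcases h.cls0 he.1 hej with h1 | ⟨i, hi, i', hi', hii, rfl⟩
      · exact ends_in_supp f (a.coord i1) he.2 (h1 i1 m1) hel hl.2 hm
      · refine hc m ?_
        by_cases hi1 : i = i1
        · rwa [hi1, o1 i' hi' (hi1 ▸ hii.symm)] at hm
        · obtain rfl := o1 i hi hi1
          rw [o2 i' hi' hii.symm, ← neg_sub, map_neg, Finsupp.neg_apply, neg_ne_zero] at hm
          exact hm
    · by_cases hml : m = l
      · exact hml ▸ hl.2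
      · exact absurd (repr_eq_zero_of_Dset f he.2 hl.1 hel hej hml hmj) hm
  obtain ⟨m, hm, km⟩ := hend
  have mj : m ≠ j := fun hc => hm (hc ▸ hdj)
  have zT := sub_mem_Tset f hd hm
  have z1 : a.repr (a i1 - a i2 - f.repr (a i1 - a i2) m • f m) i1 = 1 := by
    rw [map_sub, map_smul, Finsupp.sub_apply, Finsupp.smul_apply, km, smul_zero, sub_zero, map_sub,
      Finsupp.sub_apply, r21, repr_basis_self, sub_zero]
  have zj : f.repr (a i1 - a i2 - f.repr (a i1 - a i2) m • f m) j = 0 := by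
    rw [map_sub, map_smul, Finsupp.sub_apply, Finsupp.smul_apply, hdj, repr_basis_ne f mj,
      smul_zero, sub_zero]
  obtain ⟨y, yj, c, -, e⟩ := two_joint f zT (fun hc => by rw [hc] at z1; simp at z1) zj
  obtain ⟨rfl, ky⟩ := two_F1 (hK y yj) ((val i1 e).trans z1)
  refine ⟨y, -(a i1 + a i2) - f j, -(f.repr (a i1 - a i2) m • f m), h.tc, h12, fun i => ?_, hK,
    x1, x2, yj, ky, s0T, hs0, s01, s0j, neg_mem_Tset (smul_mem_Tset _ (self_mem_Tset f m)),
    neg_ne_zero.2 (smul_ne_zero hm (f.ne_zero m)), ?_, ?_, ?_, by abel,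
    ⟨l1, l1j, k1, he1 ▸ add_mem_Dset (self_mem_Tset a i1) ht.1⟩,
    ⟨l2, l2j, k2, he2 ▸ add_mem_Dset (self_mem_Tset a i2) ht'.1⟩⟩
  · simpa using h.hI i
  · rw [map_neg, map_smul, Finsupp.neg_apply, Finsupp.smul_apply, km, smul_zero, neg_zero]
  · rw [map_neg, map_smul, Finsupp.neg_apply, Finsupp.smul_apply, repr_basis_ne f mj, smul_zero,
      neg_zero]
  · linear_combination (norm := module) e

end

theorem s_two (hLEAF : S_LEAF) (hC1 : S_C1) : S_TWO := by
  intro V _ _ ι κ _ _ _ _ a f j i1 i2 h12 h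
  by_cases hn : Succ (Tset a) (Tset f)
  · exact Or.inl hn
  right
  obtain ⟨ε, hε⟩ : ∃ ε : κ → F, ε = fun l =>
      if l = j ∨ a.repr (f l) i1 = 0 then 1 else a.repr (f l) i1 := ⟨_, rfl⟩
  have h0 : ∀ l, ε l ≠ 0 := fun l => by
    rw [hε]
    dsimp only
    split_ifs with hl
    · exact one_ne_zero
    · exact fun hc => hl (Or.inr hc)
  have hj : ε j = 1 := by simp [hε]
  obtain ⟨g, g1, g2, g3⟩ := resign f ε h0
  have hE : EE a g = EE a f := by rw [EE, g3]
  have hg : Sj a g j {i1, i2} := by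
    refine ⟨⟨h.tc.four, hE ▸ h.tc.spans, hE ▸ h.tc.nsep, hE ▸ h.tc.nba, fun l => ?_,
      g3 ▸ h.tc.nsh⟩, fun i => by rw [g2, hj, one_mul, h.hI]⟩
    have : g.coord l = ε l • f.coord l := by ext x; simp [g2]
    rw [hE, this]
    exact (h.tc.nbf l).smul (h0 l)
  have hK : ∀ l, l ≠ j → a.repr (g l) i1 ≠ -1 := fun l hl => by
    rw [g1, map_smul, Finsupp.smul_apply, smul_eq_mul, hε]
    dsimp only
    split_ifs with h1
    · rw [h1.resolve_left hl]; decide
    · rw [F_sq fun hc => h1 (Or.inr hc)]; decide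
  obtain ⟨y, s0, fw, hq⟩ := two_core hLEAF hC1 h12 hg hK (g3 ▸ hn)
  exact ⟨g, y, s0, fw, g3, hq⟩

end Pool.Agent.P.MP_053557_co
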