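import Pool.Agent.P.MP_053557_co.Basic2

/-! Frames whose common edges have a two-separation are connected. -/

namespace Pool.Agent.P.MP_053557_co

open Module Submodule

namespace TwoSep

variable {V : Type} [AddCommGroup V] [Module F V]

theorem jj_symm {T : Set V} {V1 V2 : Submodule F V} {p : V} (h : JJ T V1 V2 p) :
    JJ T V2 V1 p := ⟨h.1, fun x hx => (h.2 x hx).symm⟩

/-- Every admissible frame is connected to one in normal form. -/
theorem reduce (hU : S_UNP) (hT : S_TW) (hN : S_NF) {ι : Type} [Fintype ι] [DecidableEq ι]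
    {A B : Set V} {V1 V2 : Submodule F V} {p : V} (ts : Ts A B V1 V2 p) (k : ℕ) :
    ∀ h : Basis ι F V, (Shd h V1 V2).ncard ≤ k → Rr A B (Tset h) →
      ∃ T0, Ok A B T0 ∧ SConn A B (Tset h) T0 ∧
        (JJ T0 V1 V2 p ∨ LB T0 V1 V2 p ∨ LB T0 V2 V1 p) := by
  induction k using Nat.strong_induction_on with
  | _ k ih =>
  intro h hk hr
  have step : (∃ g : Basis ι F V, Rr A B (Tset g) ∧ Share (Tset h) (Tset g) ∧
      (Shd g V1 V2).ncard < (Shd h V1 V2).ncard) → ∃ T0, Ok A B T0 ∧ SConn A B (Tset h) T0 ∧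
        (JJ T0 V1 V2 p ∨ LB T0 V1 V2 p ∨ LB T0 V2 V1 p) := by
    rintro ⟨g, hg, hs, hlt⟩
    obtain ⟨T0, h1, h2, h3⟩ := ih _ (lt_of_lt_of_le hlt hk) g le_rfl hg
    exact ⟨T0, h1, (sconn_share ⟨isFrame_basis h, hr⟩ ⟨isFrame_basis g, hg⟩ hs).trans' h2, h3⟩
  by_cases h1 : ∀ z ∈ Shd h V1 V2, h.repr p z ≠ 0
  · by_cases h2 : 3 ≤ (Shd h V1 V2).ncard
    · exact step (hT A B V1 V2 p h ts hr h1 h2)
    · exact ⟨Tset h, ⟨isFrame_basis h, hr⟩, Relation.ReflTransGen.refl,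
        hN A B V1 V2 p h ts hr h1 (by omega)⟩
  · push Not at h1
    obtain ⟨z, hz, h0⟩ := h1
    exact step (hU A B V1 V2 p h z ts hr hz h0)

theorem of_share {A B T T' : Set V} (hT : Ok A B T) (hT' : Ok A B T')
    (h : ∃ G, Ok A B G ∧ Share T G ∧ Share G T') : SConn A B T T' :=
  let ⟨_, h1, h2, h3⟩ := h
  (sconn_share hT h1 h2).trans' (sconn_share h1 hT' h3)

theorem lb_lb (hG : S_GLB) (hG2 : S_GLB2) {A B T T' : Set V} {V1 V2 : Submodule F V} {p : V}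
    (ts : Ts A B V1 V2 p) (hT : Ok A B T) (hT' : Ok A B T') (h : LB T V1 V2 p)
    (h' : LB T' V1 V2 p) : SConn A B T T' := by
  by_cases h3 : 3 ≤ finrank F V1
  · exact of_share hT hT' (hG A B V1 V2 p T T' ts hT hT' h h' h3)
  · exact hG2 A B V1 V2 p T T' ts hT hT' h h' (by omega)

end TwoSep

open TwoSep in
theorem s_twosep (hS : S_SEP1) (hU : S_UNP) (hT : S_TW) (hN : S_NF) (hJ : S_SJ)
    (hGJ : S_GJJ) (hG : S_GLB) (hG2 : S_GLB2) : S_TWOSEP := by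
  intro V _ _ A B hA hB h4 hsp hn0 h1
  obtain ⟨V1, V2, p, ts⟩ := hS A B hA hB h4 hsp hn0 h1
  obtain ⟨n, a, ha⟩ := hA
  obtain ⟨m, b, hb⟩ := hB
  obtain ⟨T, oT, cT, hTT⟩ := reduce hU hT hN ts _ a le_rfl (ha ▸ rr_left A B)
  obtain ⟨T', oT', cT', hTT'⟩ := reduce hU hT hN ts _ b le_rfl (hb ▸ rr_right A B)
  rw [← ha] at cT
  rw [← hb] at cT'
  refine cT.trans' (SConn.trans' ?_ cT'.symm)
  have g1 : SJ T V2 V1 p → SJ T' V1 V2 p → SConn A B T T' := fun h h' =>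
    of_share oT oT' (hGJ A B V1 V2 p T T' ts oT oT' h h')
  have g2 : SJ T V1 V2 p → SJ T' V2 V1 p → SConn A B T T' := fun h h' =>
    of_share oT oT' (hGJ A B V2 V1 p T T' ts.symm oT oT' h h')
  have s12 : ∀ X, Ok A B X → (JJ X V1 V2 p ∨ LB X V1 V2 p) → SJ X V1 V2 p := fun X oX h =>
    hJ A B V1 V2 p X ts oX h
  have s21 : ∀ X, Ok A B X → (JJ X V1 V2 p ∨ LB X V2 V1 p) → SJ X V2 V1 p := fun X oX h =>
    hJ A B V2 V1 p X ts.symm oX (h.imp jj_symm id)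
  rcases hTT with h | h | h <;> rcases hTT' with h' | h' | h'
  · exact g1 (s21 T oT (Or.inl h)) (s12 T' oT' (Or.inl h'))
  · exact g1 (s21 T oT (Or.inl h)) (s12 T' oT' (Or.inr h'))
  · exact g2 (s12 T oT (Or.inl h)) (s21 T' oT' (Or.inr h'))
  · exact g2 (s12 T oT (Or.inr h)) (s21 T' oT' (Or.inl h'))
  · exact lb_lb hG hG2 ts oT oT' h h'
  · exact g2 (s12 T oT (Or.inr h)) (s21 T' oT' (Or.inr h'))
  · exact g1 (s21 T oT (Or.inr h)) (s12 T' oT' (Or.inl h'))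
  · exact g1 (s21 T oT (Or.inr h)) (s12 T' oT' (Or.inr h'))
  · exact lb_lb hG hG2 ts.symm oT oT' h h'

end Pool.Agent.P.MP_053557_co
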