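import Pool.Agent.P.MP_053557_co.Afp
import Pool.Agent.P.MP_053557_co.Bal
import Pool.Agent.P.MP_053557_co.C2
import Pool.Agent.P.MP_053557_co.Cell
import Pool.Agent.P.MP_053557_co.Cm
import Pool.Agent.P.MP_053557_co.Cores
import Pool.Agent.P.MP_053557_co.Cube
import Pool.Agent.P.MP_053557_co.Disc2
import Pool.Agent.P.MP_053557_co.Ds1
import Pool.Agent.P.MP_053557_co.F1
import Pool.Agent.P.MP_053557_co.F1a
import Pool.Agent.P.MP_053557_co.Final
import Pool.Agent.P.MP_053557_co.Fixs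
import Pool.Agent.P.MP_053557_co.G1
import Pool.Agent.P.MP_053557_co.Geo
import Pool.Agent.P.MP_053557_co.Glb2
import Pool.Agent.P.MP_053557_co.Glue
import Pool.Agent.P.MP_053557_co.Hub
import Pool.Agent.P.MP_053557_co.Hv
import Pool.Agent.P.MP_053557_co.J1
import Pool.Agent.P.MP_053557_co.J2
import Pool.Agent.P.MP_053557_co.K2
import Pool.Agent.P.MP_053557_co.Kc
import Pool.Agent.P.MP_053557_co.Leaf
import Pool.Agent.P.MP_053557_co.Lift
import Pool.Agent.P.MP_053557_co.Light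
import Pool.Agent.P.MP_053557_co.Main
import Pool.Agent.P.MP_053557_co.Nf
import Pool.Agent.P.MP_053557_co.Pend
import Pool.Agent.P.MP_053557_co.Pet
import Pool.Agent.P.MP_053557_co.Pn
import Pool.Agent.P.MP_053557_co.Pos
import Pool.Agent.P.MP_053557_co.Ql
import Pool.Agent.P.MP_053557_co.Quad
import Pool.Agent.P.MP_053557_co.R2a
import Pool.Agent.P.MP_053557_co.R2b
import Pool.Agent.P.MP_053557_co.R3
import Pool.Agent.P.MP_053557_co.Rb
import Pool.Agent.P.MP_053557_co.Ring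
import Pool.Agent.P.MP_053557_co.Rng
import Pool.Agent.P.MP_053557_co.Rots
import Pool.Agent.P.MP_053557_co.Rows
import Pool.Agent.P.MP_053557_co.Sc0
import Pool.Agent.P.MP_053557_co.Sound
import Pool.Agent.P.MP_053557_co.T1
import Pool.Agent.P.MP_053557_co.Tree
import Pool.Agent.P.MP_053557_co.Tri
import Pool.Agent.P.MP_053557_co.Tw
import Pool.Agent.P.MP_053557_co.Two
import Pool.Agent.P.MP_053557_co.TwoSep

/-! All intermediate statements, without hypotheses. -/

namespace Pool.Agent.P.MP_053557_co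

namespace All

theorem cm : S_CM := s_cm s_cell s_card s_rc
theorem mix : S_MIX := s_mix s_rc
theorem sc0 : S_SC0 := s_sc0 s_pend s_cell s_card s_rc
theorem disc : S_DISC := Disc2.disc (Disc2.disc1 s_cell s_card) s_ds1
theorem twosep : S_TWOSEP :=
  s_twosep s_sep1 s_unp (s_tw s_cell s_cl) (s_nf s_cell s_cl) s_sj s_gjj s_glb
    (s_glb2 s_sj s_rc sc0)
theorem leaf : S_LEAF := s_leaf cm
theorem c1 : S_C1 := s_c1 sc0
theorem tree : S_TREE := s_tree leaf (s_cap s_tq c1) (s_c2 sc0 s_tq) s_tq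
theorem tri : S_TRI := s_tri leaf (s_triad cm s_hub) c1 s_tq
theorem f1 : S_F1 := s_f1 s_cell s_ds1 s_f1a s_f1b
theorem r2b : S_R2b := s_r2b s_qe (s_rb s_qe s_cell s_cl) s_ring sc0
theorem quad : S_QUAD := s_quad (s_ql s_rc) s_rc
theorem g1 : S_G1 := s_g1 s_afb s_card
theorem light : S_LIGHT := s_light s_afb g1 (s_cnt s_afb) s_hv
theorem kc : S_KC := s_kc s_afb g1 light s_al (s_k2 s_afb g1 light s_al)
theorem pos : S_POS := s_pos s_afb
theorem t1 : S_T1 := s_t1 s_afb pos
theorem af8 : S_AF8 :=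
  s_af8 (s_geo s_cell) kc (s_t2 s_afb) (s_pet s_afb pos t1 mix) (s_cube s_afb t1 mix)
    (s_rng s_afb pos mix)
theorem main : S_MAIN :=
  s_main disc twosep (s_bal s_rc) f1 tree tri (s_two leaf c1) (s_r2a cm) r2b quad s_afp
    (s_nc cm) s_h4 s_k6 af8
theorem econn : S_ECONN := s_econn (s_pn main (s_r3 s_rc) (s_lift s_rc)) s_fixs s_rots
theorem rows : S_ROWS := s_rows s_root econn

end All

end Pool.Agent.P.MP_053557_co
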