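import Pool.Agent.P.MP_053557_co.Stmts

/-! Elementary facts about frames. -/

namespace Pool.Agent.P.MP_053557_co

open Module Submodule

/-! ### The field -/

theorem F_cases (c : F) : c = 0 ∨ c = 1 ∨ c = -1 := by revert c; decide
theorem F_ne_cases {c : F} (h : c ≠ 0) : c = 1 ∨ c = -1 := by revert c; decide
theorem F_sq {c : F} (h : c ≠ 0) : c * c = 1 := by revert c; decide
theorem F_two : (2 : F) = -1 := by decide
theorem F_three : (3 : F) = 0 := by decide
theorem F_one_ne_neg_one : (1 : F) ≠ -1 := by decide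
theorem F_neg_one_ne_one : (-1 : F) ≠ 1 := by decide

section

variable {V : Type} [AddCommGroup V] [Module F V] {ι κ ρ ρ' : Type}

/-- Use with `linear_combination (norm := module) three x`. -/
theorem three (x : V) : x + x + x = 0 := by
  have h : (3 : F) • x = x + x + x := by
    rw [show (3 : F) = 1 + 1 + 1 by norm_num, add_smul, add_smul, one_smul]
  rw [← h, F_three, zero_smul]

theorem add_self_eq_neg (x : V) : x + x = -x := eq_neg_of_add_eq_zero_left (three x)

theorem eq_neg_self {x : V} (h : x = -x) : x = 0 := by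
  have h2 : x + x = 0 := by nth_rewrite 2 [h]; simp
  have := three x
  rw [h2] at this; simpa using this

theorem map_eq_sum [Fintype ι] (b : Basis ι F V) (φ : V →ₗ[F] F) (x : V) :
    φ x = ∑ i, b.repr x i * φ (b i) := by
  conv_lhs => rw [← b.sum_repr x, map_sum]
  simp only [map_smul, smul_eq_mul]

theorem repr_basis [DecidableEq ι] (b : Basis ι F V) (i j : ι) :
    b.repr (b i) j = if i = j then 1 else 0 := by
  rw [b.repr_self, Finsupp.single_apply]

theorem repr_basis_ne (b : Basis ι F V) {i j : ι} (h : i ≠ j) : b.repr (b i) j = 0 := by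
  classical
  rw [repr_basis, if_neg h]

theorem single_ne {i j : ι} (h : i ≠ j) (c : F) : Finsupp.single i c j = 0 := by
  classical
  rw [Finsupp.single_apply, if_neg h]

theorem repr_basis_self (b : Basis ι F V) (i : ι) : b.repr (b i) i = 1 := by simp

theorem eq_of_repr (b : Basis ι F V) {x y : V} (h : ∀ i, b.repr x i = b.repr y i) : x = y :=
  b.ext_elem h

/-! ### Joints and edges -/

theorem zero_mem_Tset (v : ι → V) : (0 : V) ∈ Tset v := Or.inl rfl
theorem self_mem_Tset (v : ι → V) (i : ι) : v i ∈ Tset v := Or.inr ⟨i, Or.inl rfl⟩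

theorem neg_mem_Tset {v : ι → V} {x : V} (h : x ∈ Tset v) : -x ∈ Tset v := by
  rcases h with rfl | ⟨i, rfl | rfl⟩
  · exact Or.inl neg_zero
  · exact Or.inr ⟨i, Or.inr rfl⟩
  · exact Or.inr ⟨i, Or.inl (neg_neg _)⟩

theorem neg_mem_Tset_iff {v : ι → V} {x : V} : -x ∈ Tset v ↔ x ∈ Tset v :=
  ⟨fun h => by simpa using neg_mem_Tset h, neg_mem_Tset⟩

theorem smul_mem_Tset {v : ι → V} {x : V} (c : F) (h : x ∈ Tset v) : c • x ∈ Tset v := by
  rcases F_cases c with rfl | rfl | rfl
  · simpa using zero_mem_Tset v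
  · simpa using h
  · simpa using neg_mem_Tset h

theorem mem_Tset_iff_smul {v : ι → V} {x : V} :
    x ∈ Tset v ↔ x = 0 ∨ ∃ i, ∃ c : F, c ≠ 0 ∧ x = c • v i := by
  constructor
  · rintro (rfl | ⟨i, rfl | rfl⟩)
    · exact Or.inl rfl
    · exact Or.inr ⟨i, 1, one_ne_zero, (one_smul _ _).symm⟩
    · exact Or.inr ⟨i, -1, by decide, by simp⟩
  · rintro (rfl | ⟨i, c, -, rfl⟩)
    · exact zero_mem_Tset v
    · exact smul_mem_Tset c (self_mem_Tset v i)

theorem eq_smul_of_supp (b : Basis ι F V) {x : V} (i : ι) (h : ∀ j, j ≠ i → b.repr x j = 0) :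
    x = b.repr x i • b i := by
  classical
  refine eq_of_repr b fun j => ?_
  by_cases hj : j = i
  · subst hj; simp
  · simp [h j hj, single_ne (Ne.symm hj)]

theorem mem_Tset_iff (b : Basis ι F V) {x : V} :
    x ∈ Tset b ↔ ∀ i j, b.repr x i ≠ 0 → b.repr x j ≠ 0 → i = j := by
  classical
  constructor
  · intro h i j hi hj
    rcases mem_Tset_iff_smul.1 h with rfl | ⟨k, c, -, rfl⟩
    · simp at hi
    · have h1 : k = i := by
        by_contra hk; simp [single_ne hk] at hi
      have h2 : k = j := by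
        by_contra hk; simp [single_ne hk] at hj
      rw [← h1, ← h2]
  · intro h
    by_cases h0 : ∀ i, b.repr x i = 0
    · have : x = 0 := eq_of_repr b fun i => by simp [h0 i]
      exact this ▸ zero_mem_Tset b
    · push Not at h0
      obtain ⟨i, hi⟩ := h0
      rw [eq_smul_of_supp b i fun j hj => by_contra fun hc => hj (h j i hc hi)]
      exact smul_mem_Tset _ (self_mem_Tset b i)

theorem Tset_eq_smul (b : Basis ι F V) {x : V} (h : x ∈ Tset b) {i : ι} (hi : b.repr x i ≠ 0) :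
    x = b.repr x i • b i :=
  eq_smul_of_supp b i fun j hj => by_contra fun hc => hj ((mem_Tset_iff b).1 h j i hc hi)

theorem exists_repr_ne (b : Basis ι F V) {x : V} (h : x ≠ 0) : ∃ i, b.repr x i ≠ 0 := by
  by_contra hc
  push Not at hc
  exact h (eq_of_repr b fun i => by simp [hc i])

theorem sub_mem_Dset {T : Set V} {y z : V} (hy : y ∈ T) (hz : z ∈ T) : y - z ∈ Dset T :=
  ⟨y, hy, z, hz, rfl⟩

theorem add_mem_Dset {v : ι → V} {y z : V} (hy : y ∈ Tset v) (hz : z ∈ Tset v) :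
    y + z ∈ Dset (Tset v) := ⟨y, hy, -z, neg_mem_Tset hz, by simp⟩

theorem Tset_subset_Dset (v : ι → V) : Tset v ⊆ Dset (Tset v) :=
  fun x hx => ⟨x, hx, 0, zero_mem_Tset v, by simp⟩

theorem zero_mem_Dset (v : ι → V) : (0 : V) ∈ Dset (Tset v) :=
  Tset_subset_Dset v (zero_mem_Tset v)

theorem neg_mem_Dset {T : Set V} {x : V} (h : x ∈ Dset T) : -x ∈ Dset T := by
  obtain ⟨y, hy, z, hz, rfl⟩ := h
  exact ⟨z, hz, y, hy, by simp⟩

theorem smul_mem_Dset {v : ι → V} {x : V} (c : F) (h : x ∈ Dset (Tset v)) :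
    c • x ∈ Dset (Tset v) := by
  rcases F_cases c with rfl | rfl | rfl
  · simpa using zero_mem_Dset v
  · simpa using h
  · simpa using neg_mem_Dset h

theorem mem_Dset_iff (b : Basis ι F V) {x : V} :
    x ∈ Dset (Tset b) ↔ ∀ i j k, b.repr x i ≠ 0 → b.repr x j ≠ 0 → b.repr x k ≠ 0 →
      i = j ∨ i = k ∨ j = k := by
  classical
  constructor
  · rintro ⟨y, hy, z, hz, rfl⟩ i j k hi hj hk
    rw [mem_Tset_iff] at hy hz
    have key : ∀ m, b.repr (y - z) m ≠ 0 → b.repr y m ≠ 0 ∨ b.repr z m ≠ 0 := by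
      intro m hm
      by_contra hc
      push Not at hc
      simp [hc.1, hc.2] at hm
    rcases key i hi with h1 | h1 <;> rcases key j hj with h2 | h2 <;>
      rcases key k hk with h3 | h3
    all_goals first
      | exact Or.inl (hy _ _ h1 h2)
      | exact Or.inl (hz _ _ h1 h2)
      | exact Or.inr (Or.inl (hy _ _ h1 h3))
      | exact Or.inr (Or.inl (hz _ _ h1 h3))
      | exact Or.inr (Or.inr (hy _ _ h2 h3))
      | exact Or.inr (Or.inr (hz _ _ h2 h3))
  · intro h
    by_cases h0 : x = 0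
    · exact h0 ▸ zero_mem_Dset b
    obtain ⟨i, hi⟩ := exists_repr_ne b h0
    refine ⟨x - b.repr x i • b i, ?_, -(b.repr x i • b i),
      neg_mem_Tset (smul_mem_Tset _ (self_mem_Tset b i)), by simp⟩
    rw [mem_Tset_iff]
    intro j k hj hk
    have hji : j ≠ i := by rintro rfl; simp at hj
    have hki : k ≠ i := by rintro rfl; simp at hk
    simp [single_ne hji.symm] at hj
    simp [single_ne hki.symm] at hk
    rcases h i j k hi hj hk with h | h | h
    · exact absurd h.symm hji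
    · exact absurd h.symm hki
    · exact h

theorem card_le_one_iff' [Fintype ι] (p : ι → Prop) [DecidablePred p] :
    (Finset.univ.filter p).card ≤ 1 ↔ ∀ i j, p i → p j → i = j := by
  rw [Finset.card_le_one]; simp only [Finset.mem_filter, Finset.mem_univ, true_and]
  exact ⟨fun h i j hi hj => h i hi j hj, fun h i hi j hj => h i j hi hj⟩

theorem card_le_two_iff' [Fintype ι] (p : ι → Prop) [DecidablePred p] :
    (Finset.univ.filter p).card ≤ 2 ↔ ∀ i j k, p i → p j → p k → i = j ∨ i = k ∨ j = k := by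
  classical
  rw [← not_lt, Finset.two_lt_card]
  simp only [Finset.mem_filter, Finset.mem_univ, true_and]
  constructor
  · intro h i j k hi hj hk
    by_contra hc
    push Not at hc
    exact h ⟨i, hi, j, hj, k, hk, hc.1, hc.2.1, hc.2.2⟩
  · rintro h ⟨i, hi, j, hj, k, hk, h1, h2, h3⟩
    rcases h i j k hi hj hk with h | h | h <;> contradiction

theorem mem_Tset_iff_card [Fintype ι] (b : Basis ι F V) {x : V} :
    x ∈ Tset b ↔ (Finset.univ.filter fun i => b.repr x i ≠ 0).card ≤ 1 := by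
  rw [mem_Tset_iff, card_le_one_iff']

theorem mem_Dset_iff_card [Fintype ι] (b : Basis ι F V) {x : V} :
    x ∈ Dset (Tset b) ↔ (Finset.univ.filter fun i => b.repr x i ≠ 0).card ≤ 2 := by
  rw [mem_Dset_iff, card_le_two_iff']

/-- Removing one end of an edge leaves a joint. -/
theorem sub_mem_Tset (b : Basis ι F V) {x : V} (h : x ∈ Dset (Tset b)) {i : ι}
    (hi : b.repr x i ≠ 0) : x - b.repr x i • b i ∈ Tset b := by
  rw [mem_Tset_iff]
  intro j k hj hk
  have hji : j ≠ i := by rintro rfl; simp at hj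
  have hki : k ≠ i := by rintro rfl; simp at hk
  simp [single_ne hji.symm] at hj
  simp [single_ne hki.symm] at hk
  rcases (mem_Dset_iff b).1 h i j k hi hj hk with h | h | h
  · exact absurd h.symm hji
  · exact absurd h.symm hki
  · exact h

theorem sub_mem_Tset_one (b : Basis ι F V) {x : V} (h : x ∈ Dset (Tset b)) {i : ι}
    (hi : b.repr x i = 1) : x - b i ∈ Tset b := by
  simpa [hi] using sub_mem_Tset b h (i := i) (by rw [hi]; exact one_ne_zero)

theorem repr_eq_zero_of_Dset (b : Basis ι F V) {x : V} (h : x ∈ Dset (Tset b)) {i j : ι}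
    (hij : i ≠ j) (hi : b.repr x i ≠ 0) (hj : b.repr x j ≠ 0) {k : ι} (hki : k ≠ i)
    (hkj : k ≠ j) : b.repr x k = 0 := by
  by_contra hk
  rcases (mem_Dset_iff b).1 h i j k hi hj hk with h | h | h
  · exact hij h
  · exact hki h.symm
  · exact hkj h.symm

theorem eq_two_of_supp (b : Basis ι F V) {x : V} {i j : ι} (hij : i ≠ j)
    (h : ∀ k, k ≠ i → k ≠ j → b.repr x k = 0) : x = b.repr x i • b i + b.repr x j • b j := by
  refine eq_of_repr b fun k => ?_
  by_cases hk : k = i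
  · subst hk; simp [single_ne hij.symm]
  by_cases hk' : k = j
  · subst hk'; simp [single_ne hij]
  simp [h k hk hk', single_ne (Ne.symm hk), single_ne (Ne.symm hk')]

theorem Dset_eq_two (b : Basis ι F V) {x : V} (h : x ∈ Dset (Tset b)) {i j : ι}
    (hij : i ≠ j) (hi : b.repr x i ≠ 0) (hj : b.repr x j ≠ 0) :
    x = b.repr x i • b i + b.repr x j • b j :=
  eq_two_of_supp b hij fun _ hki hkj => repr_eq_zero_of_Dset b h hij hi hj hki hkj

/-- An edge killed by `φ` with an end in the support of `φ` has a second end there. -/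
theorem other_end (b : Basis ι F V) (φ : V →ₗ[F] F) {x : V} (h : x ∈ Dset (Tset b))
    (h0 : φ x = 0) {i : ι} (hi : b.repr x i ≠ 0) (hφ : φ (b i) ≠ 0) :
    ∃ j, j ≠ i ∧ b.repr x j ≠ 0 ∧ φ (b j) ≠ 0 := by
  have ht := sub_mem_Tset b h hi
  have hne : φ (x - b.repr x i • b i) ≠ 0 := by
    simp [h0, hi, hφ]
  have hz : x - b.repr x i • b i ≠ 0 := by
    intro hc; rw [hc] at hne; simp at hne
  obtain ⟨j, hj⟩ := exists_repr_ne b hz
  have hji : j ≠ i := by rintro rfl; simp at hj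
  refine ⟨j, hji, ?_, ?_⟩
  · simpa [single_ne hji.symm] using hj
  · intro hc
    rw [Tset_eq_smul b ht hj] at hne
    simp [hc] at hne

/-- All ends of an edge killed by `φ` lie in the support of `φ` if one does. -/
theorem ends_in_supp (b : Basis ι F V) (φ : V →ₗ[F] F) {x : V} (h : x ∈ Dset (Tset b))
    (h0 : φ x = 0) {i : ι} (hi : b.repr x i ≠ 0) (hφ : φ (b i) ≠ 0) {k : ι}
    (hk : b.repr x k ≠ 0) : φ (b k) ≠ 0 := by
  obtain ⟨j, hji, hj, hφj⟩ := other_end b φ h h0 hi hφ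
  by_cases h1 : k = i
  · exact h1 ▸ hφ
  by_cases h2 : k = j
  · exact h2 ▸ hφj
  exact absurd (repr_eq_zero_of_Dset b h hji.symm hi hj h1 h2) hk

/-! ### Frames -/

theorem Tset_comp_equiv (v : ι → V) (e : κ ≃ ι) : Tset (v ∘ e) = Tset v := by
  ext x
  simp only [Tset, Set.mem_ofPred_eq, Function.comp]
  constructor
  · rintro (h | ⟨i, h⟩)
    · exact Or.inl h
    · exact Or.inr ⟨e i, h⟩
  · rintro (h | ⟨i, h⟩)
    · exact Or.inl h
    · exact Or.inr ⟨e.symm i, by simpa using h⟩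

theorem isFrame_basis [Fintype ι] (b : Basis ι F V) : IsFrame (Tset b) := by
  refine ⟨Fintype.card ι, b.reindex (Fintype.equivFin ι), ?_⟩
  rw [Basis.coe_reindex, Tset_comp_equiv]

theorem IsFrame.zero_mem {T : Set V} (h : IsFrame T) : (0 : V) ∈ T := by
  obtain ⟨n, b, rfl⟩ := h; exact zero_mem_Tset _

theorem IsFrame.neg_mem {T : Set V} (h : IsFrame T) {x : V} (hx : x ∈ T) : -x ∈ T := by
  obtain ⟨n, b, rfl⟩ := h; exact neg_mem_Tset hx

theorem IsFrame.smul_mem {T : Set V} (h : IsFrame T) (c : F) {x : V} (hx : x ∈ T) :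
    c • x ∈ T := by
  obtain ⟨n, b, rfl⟩ := h; exact smul_mem_Tset c hx

theorem IsFrame.subset_Dset {T : Set V} (h : IsFrame T) : T ⊆ Dset T := by
  obtain ⟨n, b, rfl⟩ := h; exact Tset_subset_Dset _

theorem IsFrame.finite {T : Set V} (h : IsFrame T) : Module.Finite F V := by
  obtain ⟨n, b, -⟩ := h; exact Module.Finite.of_basis b

theorem IsFrame.exists_basis {T : Set V} (h : IsFrame T) :
    ∃ b : Basis (Fin (finrank F V)) F V, T = Tset b := by
  obtain ⟨n, b, rfl⟩ := h
  have : finrank F V = n := by simpa using finrank_eq_card_basis b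
  subst this
  exact ⟨b, rfl⟩

theorem isFrame_of_linInd [Fintype ι] {v : ι → V} (h : LinearIndependent F v)
    (hs : ⊤ ≤ span F (Set.range v)) : IsFrame (Tset v) := by
  simpa using isFrame_basis (Basis.mk h hs)

theorem card_eq_card [Fintype ι] [Fintype κ] (a : Basis ι F V) (f : Basis κ F V) :
    Fintype.card κ = Fintype.card ι := by
  rw [← finrank_eq_card_basis a, ← finrank_eq_card_basis f]

/-- A basis with prescribed coordinate functionals. -/
theorem exists_basis_of_coords [Fintype ι] [Module.Finite F V] (φ : ι → V →ₗ[F] F)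
    (hker : ∀ w, (∀ i, φ i w = 0) → w = 0) (hcard : Fintype.card ι = finrank F V) :
    ∃ g : Basis ι F V, ∀ i x, g.repr x i = φ i x := by
  classical
  let Φ : V →ₗ[F] (ι → F) := LinearMap.pi φ
  have hinj : Function.Injective Φ := by
    rw [injective_iff_map_eq_zero]
    intro w hw
    exact hker w fun i => congrFun hw i
  have hdim : finrank F V = finrank F (ι → F) := by simp [hcard]
  let e := LinearMap.linearEquivOfInjective Φ hinj hdim
  refine ⟨Basis.ofEquivFun e, fun i x => ?_⟩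
  simp [e, Φ]

theorem coord_eq_of_repr {g : Basis ι F V} {φ : V →ₗ[F] F} {i : ι}
    (h : ∀ x, g.repr x i = φ x) : g.coord i = φ := by
  ext x; simpa using h x

/-- Changing the signs of a basis. -/
theorem resign (b : Basis ι F V) (ε : ι → F) (hε : ∀ i, ε i ≠ 0) :
    ∃ b' : Basis ι F V, (∀ i, b' i = ε i • b i) ∧ (∀ x i, b'.repr x i = ε i * b.repr x i) ∧
      Tset b' = Tset b := by
  let w : ι → Fˣ := fun i => Units.mk0 (ε i) (hε i)
  have h1 : ∀ i, b.unitsSMul w i = ε i • b i := fun i => by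
    rw [Basis.unitsSMul_apply]; rfl
  have h2 : ∀ x i, (b.unitsSMul w).repr x i = ε i * b.repr x i := fun x i => by
    rw [Basis.repr_unitsSMul]
    have : ((w i)⁻¹ : Fˣ) = w i := by
      rw [inv_eq_iff_mul_eq_one]; ext; exact F_sq (hε i)
    rw [this]; rfl
  refine ⟨b.unitsSMul w, h1, h2, ?_⟩
  ext x
  rw [mem_Tset_iff, mem_Tset_iff]
  simp [h2, hε]

/-! ### Stars -/

theorem isStar_of_supp (b : Basis ι F V) {φ : V →ₗ[F] F} {i : ι} (hi : φ (b i) ≠ 0)
    (h : ∀ j, j ≠ i → φ (b j) = 0) : IsStar (Tset b) φ := by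
  refine ⟨φ (b i) • b i, smul_mem_Tset _ (self_mem_Tset b i), by simp [F_sq hi], ?_⟩
  intro y hy h1 h2
  rcases mem_Tset_iff_smul.1 hy with rfl | ⟨k, c, hc, rfl⟩
  · simp
  · by_cases hk : k = i
    · subst hk
      exfalso
      rcases F_ne_cases hc with rfl | rfl <;> rcases F_ne_cases hi with h3 | h3 <;>
        simp [h3] at h1 h2
    · simp [h k hk]

theorem isStar_coord (b : Basis ι F V) (i : ι) : IsStar (Tset b) (b.coord i) :=
  isStar_of_supp b (i := i) (by simp) fun j hj => by simpa using repr_basis_ne b hj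

theorem IsStar.exists_supp {b : Basis ι F V} {φ : V →ₗ[F] F} (h : IsStar (Tset b) φ) :
    ∃ i, φ (b i) ≠ 0 ∧ ∀ j, j ≠ i → φ (b j) = 0 := by
  obtain ⟨x, hx, h1, h2⟩ := h
  rcases mem_Tset_iff_smul.1 hx with rfl | ⟨i, c, hc, rfl⟩
  · simp at h1
  refine ⟨i, fun h0 => by simp [h0] at h1, fun j hj => h2 _ (self_mem_Tset b j) ?_ ?_⟩
  · intro h
    have := congrArg (fun z => b.repr z j) h
    simp [single_ne (Ne.symm hj)] at this
  · intro h
    have := congrArg (fun z => b.repr z j) h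
    simp [single_ne (Ne.symm hj)] at this

theorem eq_smul_coord (b : Basis ι F V) {φ : V →ₗ[F] F} {i : ι}
    (h : ∀ j, j ≠ i → φ (b j) = 0) : φ = φ (b i) • b.coord i := by
  refine b.ext fun j => ?_
  by_cases hj : j = i
  · subst hj; simp
  · simp [h j hj, single_ne hj]

theorem isStar_iff (b : Basis ι F V) {φ : V →ₗ[F] F} :
    IsStar (Tset b) φ ↔ ∃ i, ∃ c : F, c ≠ 0 ∧ φ = c • b.coord i := by
  constructor
  · intro h
    obtain ⟨i, hi, h0⟩ := h.exists_supp
    exact ⟨i, _, hi, eq_smul_coord b h0⟩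
  · rintro ⟨i, c, hc, rfl⟩
    exact isStar_of_supp b (i := i) (by simpa using hc) fun j hj => by
      simp [single_ne hj]

theorem IsStar.smul {T : Set V} (hT : IsFrame T) {φ : V →ₗ[F] F} (h : IsStar T φ) {c : F}
    (hc : c ≠ 0) : IsStar T (c • φ) := by
  obtain ⟨n, b, rfl⟩ := hT
  obtain ⟨i, d, hd, rfl⟩ := (isStar_iff b).1 h
  exact (isStar_iff b).2 ⟨i, c * d, mul_ne_zero hc hd, by rw [mul_smul]⟩

theorem Share.symm {A B : Set V} (h : Share A B) : Share B A :=
  let ⟨φ, h1, h2⟩ := h; ⟨φ, h2, h1⟩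

theorem share_of_coord {a : Basis ι F V} {f : Basis κ F V} {i : ι} {l : κ} {c : F} (hc : c ≠ 0)
    (h : ∀ x, f.repr x l = c * a.repr x i) : Share (Tset a) (Tset f) :=
  ⟨f.coord l, (isStar_iff a).2 ⟨i, c, hc, by ext x; simpa using h x⟩, isStar_coord f l⟩

/-- A star of `f` supported on one vertex of `a` is shared. -/
theorem share_of_supp {a : Basis ι F V} {f : Basis κ F V} {i : ι} {l : κ}
    (h : ∀ j, j ≠ i → f.repr (a j) l = 0) : Share (Tset a) (Tset f) := by
  refine ⟨f.coord l, isStar_of_supp a (i := i) ?_ (by simpa using h), isStar_coord f l⟩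
  intro h0
  have : f.coord l = 0 := by
    rw [eq_smul_coord a (φ := f.coord l) (i := i) (by simpa using h), h0, zero_smul]
  have h1 := congrArg (fun φ : V →ₗ[F] F => φ (f l)) this
  simp at h1

theorem Link.symm {A B : Set V} (h : Link A B) : Link B A := by
  rcases h with h | h | h
  · exact Or.inl h.symm
  · exact Or.inr (Or.inr h)
  · exact Or.inr (Or.inl h)

/-! ### The relation `Rr` -/

theorem Ed_comm (A B : Set V) : Ed A B = Ed B A := Set.inter_comm _ _

theorem neg_mem_Ed {A B : Set V} {e : V} (h : e ∈ Ed A B) : -e ∈ Ed A B :=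
  ⟨neg_mem_Dset h.1, neg_mem_Dset h.2⟩

theorem smul_mem_EE {a : Basis ι F V} {f : Basis κ F V} {e : V} (c : F) (h : e ∈ EE a f) :
    c • e ∈ EE a f := ⟨smul_mem_Dset c h.1, smul_mem_Dset c h.2⟩

theorem rr_left (A B : Set V) : Rr A B A := fun _ => ⟨0, fun _ => rfl, fun x hx _ => by simpa⟩

theorem rr_right (A B : Set V) : Rr A B B := fun u => ⟨u, id, fun _ _ h => h⟩

theorem Rr.symm {A B G : Set V} (h : Rr A B G) : Rr B A G := by
  intro u
  obtain ⟨u', h0, h1⟩ := h (-u)
  refine ⟨u + u', fun hu => by simp [hu, h0 (by simp [hu])], fun y hy hyu => ?_⟩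
  rw [← add_assoc]
  exact h1 _ hyu (by simpa using hy)

theorem Rr.comp {A B G H K : Set V} (h1 : Rr A B G) (h2 : Rr A B H) (h3 : Rr G H K) :
    Rr A B K := by
  intro u
  obtain ⟨ug, g0, g1⟩ := h1 u
  obtain ⟨uh, k0, k1⟩ := h2 u
  obtain ⟨v, v0, v1⟩ := h3 (uh - ug)
  refine ⟨ug + v, fun hu => by simp [g0 hu, v0 (by simp [g0 hu, k0 hu])], fun x hx hxu => ?_⟩
  rw [← add_assoc]
  refine v1 _ (g1 x hx hxu) ?_
  have : x + ug + (uh - ug) = x + uh := by abel
  rw [this]; exact k1 x hx hxu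

theorem Rr.ed_subset {A B G : Set V} (h : Rr A B G) : Ed A B ⊆ Dset G := by
  rintro e ⟨⟨x1, hx1, x2, hx2, rfl⟩, ⟨y1, hy1, y2, hy2, he⟩⟩
  obtain ⟨u', -, h1⟩ := h (y1 - x1)
  refine ⟨x1 + u', h1 _ hx1 (by simpa using hy1), x2 + u', h1 _ hx2 ?_, by abel⟩
  have : x2 + (y1 - x1) = y2 := by
    have h3 : y2 = y1 - (x1 - x2) := by rw [he]; abel
    rw [h3]; abel
  rw [this]; exact hy2

theorem Rr.inter_subset {A B G : Set V} (h : Rr A B G) : A ∩ B ⊆ G := by
  obtain ⟨u', h0, h1⟩ := h 0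
  intro x hx
  simpa [h0 rfl] using h1 x hx.1 (by simpa using hx.2)

theorem Rr.ed_mono {A B G H : Set V} (h1 : Rr A B G) (h2 : Rr A B H) : Ed A B ⊆ Ed G H :=
  fun _ he => ⟨h1.ed_subset he, h2.ed_subset he⟩

theorem Ok.symm {A B G : Set V} (h : Ok A B G) : Ok B A G := ⟨h.1, h.2.symm⟩

theorem ok_left {A : Set V} (hA : IsFrame A) (B : Set V) : Ok A B A := ⟨hA, rr_left A B⟩

theorem ok_right (A : Set V) {B : Set V} (hB : IsFrame B) : Ok A B B := ⟨hB, rr_right A B⟩

theorem Succ.symm {A B : Set V} (h : Succ A B) : Succ B A :=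
  let ⟨G, h1, h2, h3⟩ := h; ⟨G, h1.symm, h3.symm, h2.symm⟩

theorem sconn_link {A B G H : Set V} (hG : Ok A B G) (hH : Ok A B H) (h : Link G H) :
    SConn A B G H := Relation.ReflTransGen.single ⟨hG, hH, h⟩

theorem sconn_share {A B G H : Set V} (hG : Ok A B G) (hH : Ok A B H) (h : Share G H) :
    SConn A B G H := sconn_link hG hH (Or.inl h)

theorem SConn.trans' {A B G H K : Set V} (h1 : SConn A B G H) (h2 : SConn A B H K) :
    SConn A B G K := Relation.ReflTransGen.trans h1 h2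

theorem SConn.symm {A B G H : Set V} (h : SConn A B G H) : SConn A B H G := by
  induction h with
  | refl => exact Relation.ReflTransGen.refl
  | tail _ h2 ih => exact (sconn_link h2.2.1 h2.1 h2.2.2.symm).trans' ih

theorem SConn.swap {A B G H : Set V} (h : SConn A B G H) : SConn B A G H :=
  by
  induction h with
  | refl => exact Relation.ReflTransGen.refl
  | tail _ h2 ih => exact ih.trans' (sconn_link h2.1.symm h2.2.1.symm h2.2.2)

theorem SConn.of_rr {A B G H X Y : Set V} (hG : Rr A B G) (hH : Rr A B H)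
    (h : SConn G H X Y) : SConn A B X Y :=
  by
  induction h with
  | refl => exact Relation.ReflTransGen.refl
  | tail _ h ih =>
    exact ih.trans' (sconn_link ⟨h.1.1, hG.comp hH h.1.2⟩ ⟨h.2.1.1, hG.comp hH h.2.1.2⟩ h.2.2)

theorem Succ.sconn {A B : Set V} (hA : IsFrame A) (hB : IsFrame B) (h : Succ A B) :
    SConn A B A B :=
  let ⟨_, h1, h2, h3⟩ := h
  (sconn_share (ok_left hA B) h1 h2).trans' (sconn_share h1 (ok_right A hB) h3)

/-- Hybrid frames along a covering of the edges by two subspaces. -/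
theorem hyb {A B G h1 h2 : Set V} (hA : IsFrame A) (hB : IsFrame B) {V1 V2 : Submodule F V}
    (cov : ∀ e ∈ Ed A B, e ∈ V1 ∨ e ∈ V2) (r1 : Rr A B h1) (r2 : Rr A B h2)
    (P1 P2 : V →ₗ[F] V) (m1 : ∀ x ∈ h1, P1 x ∈ G) (m2 : ∀ x ∈ h2, P2 x ∈ G)
    (i1 : ∀ x ∈ V1, P1 x = x) (i2 : ∀ x ∈ V2, P2 x = x) : Rr A B G := by
  intro u
  by_cases hu : u = 0
  · subst hu
    refine ⟨0, fun _ => rfl, fun x hx hxB => ?_⟩
    rw [add_zero] at hxB ⊢
    rcases cov x ⟨hA.subset_Dset hx, hB.subset_Dset hxB⟩ with h | h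
    · rw [← i1 x h]; exact m1 x (r1.inter_subset ⟨hx, hxB⟩)
    · rw [← i2 x h]; exact m2 x (r2.inter_subset ⟨hx, hxB⟩)
  by_cases hne : ∃ x0 ∈ A, x0 + u ∈ B
  swap
  · exact ⟨0, fun h => absurd h hu, fun x hx hxu => absurd ⟨x, hx, hxu⟩ hne⟩
  obtain ⟨x0, hx0, hx0u⟩ := hne
  have hd : ∀ x ∈ A, x + u ∈ B → ∀ y ∈ A, y + u ∈ B → x - y ∈ V1 ∨ x - y ∈ V2 := by
    intro x hx hxu y hy hyu
    refine cov _ ⟨sub_mem_Dset hx hy, ?_⟩
    have : x - y = (x + u) - (y + u) := by abel
    rw [this]; exact sub_mem_Dset hxu hyu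
  have main : ∀ (W : Submodule F V) (h : Set V) (P : V →ₗ[F] V), Rr A B h →
      (∀ x ∈ h, P x ∈ G) → (∀ x ∈ W, P x = x) → (∀ x ∈ A, x + u ∈ B → x - x0 ∈ W) →
      ∃ u' : V, (u = 0 → u' = 0) ∧ ∀ x ∈ A, x + u ∈ B → x + u' ∈ G := by
    intro W h P r m i hW
    obtain ⟨v, -, hv⟩ := r u
    refine ⟨P (x0 + v) - x0, fun h => absurd h hu, fun x hx hxu => ?_⟩
    have h3 : x + (P (x0 + v) - x0) = P (x + v) := by
      have h4 : x + v = (x - x0) + (x0 + v) := by abel
      rw [h4, map_add P (x - x0), i _ (hW x hx hxu)]; abel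
    rw [h3]; exact m _ (hv x hx hxu)
  by_cases hall : ∀ x ∈ A, x + u ∈ B → x - x0 ∈ V1
  · exact main V1 h1 P1 r1 m1 i1 hall
  · push Not at hall
    obtain ⟨x1, hx1, hx1u, hn⟩ := hall
    refine main V2 h2 P2 r2 m2 i2 fun x hx hxu => ?_
    have h12 : x1 - x0 ∈ V2 := (hd x1 hx1 hx1u x0 hx0 hx0u).resolve_left hn
    by_contra hc
    have h01 : x - x0 ∈ V1 := (hd x hx hxu x0 hx0 hx0u).resolve_right hc
    rcases hd x hx hxu x1 hx1 hx1u with h | h
    · apply hn
      have : x1 - x0 = (x - x0) - (x - x1) := by abel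
      rw [this]; exact V1.sub_mem h01 h
    · apply hc
      have : x - x0 = (x - x1) + (x1 - x0) := by abel
      rw [this]; exact V2.add_mem h h12

end

end Pool.Agent.P.MP_053557_co
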