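import Pool.Agent.P.MP_053557_co.Basic

/-! More elementary facts: relations between joints, separations, cells. -/

namespace Pool.Agent.P.MP_053557_co

open Module Submodule

section

variable {V : Type} [AddCommGroup V] [Module F V] {ι κ ρ ρ' : Type}

/-! ### Relations between joints -/

/-- If `x`, `y`, `x + y` are joints then the pair is degenerate. -/
theorem Tadd {T : Set V} (hT : IsFrame T) {x y : V} (hx : x ∈ T) (hy : y ∈ T)
    (h : x + y ∈ T) : x = 0 ∨ y = 0 ∨ x = y ∨ x = -y := by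
  obtain ⟨n, b, rfl⟩ := hT
  rcases mem_Tset_iff_smul.1 hx with rfl | ⟨i, c, hc, rfl⟩
  · exact Or.inl rfl
  rcases mem_Tset_iff_smul.1 hy with rfl | ⟨j, d, hd, rfl⟩
  · exact Or.inr (Or.inl rfl)
  have hij : i = j := by
    by_contra hij
    exact hij ((mem_Tset_iff b).1 h i j (by simpa [single_ne (Ne.symm hij)] using hc)
      (by simpa [single_ne hij] using hd))
  subst hij
  rcases F_ne_cases hc with rfl | rfl <;> rcases F_ne_cases hd with rfl | rfl <;> simp

/-- Lines in a frame pass through zero. -/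
theorem T3 {T : Set V} (hT : IsFrame T) {x y z : V} (hx : x ∈ T) (hy : y ∈ T) (hz : z ∈ T)
    (hxy : x ≠ y) (h : x + y + z = 0) : x = 0 ∨ y = 0 ∨ z = 0 := by
  have h1 : x + y = -z := eq_neg_of_add_eq_zero_left h
  rcases Tadd hT hx hy (h1 ▸ hT.neg_mem hz) with h2 | h2 | h2 | h2
  · exact Or.inl h2
  · exact Or.inr (Or.inl h2)
  · exact absurd h2 hxy
  · right; right; simpa [h2] using h

/-- The direction of a line in a frame is a joint. -/
theorem T3' {T : Set V} (hT : IsFrame T) {x y z : V} (hx : x ∈ T) (hy : y ∈ T) (hz : z ∈ T)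
    (hxy : x ≠ y) (h : x + y + z = 0) : x - y ∈ T := by
  rcases T3 hT hx hy hz hxy h with rfl | rfl | rfl
  · simpa using hT.neg_mem hy
  · simpa using hx
  · have : x - y = -x := by linear_combination (norm := module) three x - h
    rw [this]; exact hT.neg_mem hx

/-- Parallelograms in a frame are centred at zero. -/
theorem T4 {T : Set V} (hT : IsFrame T) {x y z w : V} (hx : x ∈ T) (hy : y ∈ T) (hz : z ∈ T)
    (hw : w ∈ T) (hxy : x ≠ y) (hzw : z ≠ w) (hxz : x ≠ z) (hxw : x ≠ w)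
    (h : x + y = z + w) : x + y = 0 := by
  obtain ⟨n, b, rfl⟩ := hT
  by_contra hne
  have hyz : y ≠ z := by rintro rfl; exact hxw (by rw [add_comm] at h; exact add_left_cancel h)
  have hyw : y ≠ w := by rintro rfl; exact hxz (add_right_cancel h)
  obtain ⟨i, hi⟩ := exists_repr_ne b hne
  have key : ∀ {p q : V}, p ∈ Tset b → q ∈ Tset b → b.repr p i ≠ 0 →
      b.repr p i = b.repr q i → p = q := by
    intro p q hp hq h1 h2
    rw [Tset_eq_smul b hp h1, Tset_eq_smul b hq (h2 ▸ h1), h2]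
  have h3 : b.repr x i + b.repr y i = b.repr z i + b.repr w i := by
    simpa using congrArg (fun v => b.repr v i) h
  have h4 : b.repr x i + b.repr y i ≠ 0 := by simpa using hi
  have fin : ∀ p q r s : F, p + q = r + s → p + q ≠ 0 → (p ≠ 0 ∧ p = q) ∨ (r ≠ 0 ∧ r = s) ∨
      (p ≠ 0 ∧ p = r) ∨ (p ≠ 0 ∧ p = s) ∨ (q ≠ 0 ∧ q = r) ∨ (q ≠ 0 ∧ q = s) := by
    intro p q r s
    rcases F_cases p with rfl | rfl | rfl <;> rcases F_cases q with rfl | rfl | rfl <;>
      revert r s <;> decide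
  rcases fin _ _ _ _ h3 h4 with h | h | h | h | h | h
  · exact hxy (key hx hy h.1 h.2)
  · exact hzw (key hz hw h.1 h.2)
  · exact hxz (key hx hz h.1 h.2)
  · exact hxw (key hx hw h.1 h.2)
  · exact hyz (key hy hz h.1 h.2)
  · exact hyw (key hy hw h.1 h.2)

theorem neg_mem_Gm {a : Basis ι F V} {x : V} (h : x ∈ Gm a) : -x ∈ Gm a :=
  ⟨neg_mem_Tset h.1, neg_ne_zero.2 h.2⟩

theorem self_mem_Gm (a : Basis ι F V) (i : ι) : a i ∈ Gm a := ⟨self_mem_Tset a i, a.ne_zero i⟩

theorem mem_Gm_iff {a : Basis ι F V} {x : V} : x ∈ Gm a ↔ ∃ i, x = a i ∨ x = -a i := by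
  constructor
  · rintro ⟨h | h, h0⟩
    · exact absurd h h0
    · exact h
  · rintro ⟨i, rfl | rfl⟩
    · exact self_mem_Gm a i
    · exact neg_mem_Gm (self_mem_Gm a i)

/-- Parallelograms of nonzero joints. -/
theorem par [Fintype ι] {a : Basis ι F V} {x y z w : V} (hx : x ∈ Gm a) (hy : y ∈ Gm a)
    (hz : z ∈ Gm a) (hw : w ∈ Gm a) (h : x + y = z + w) :
    (x = z ∧ y = w) ∨ (x = w ∧ y = z) ∨ (x = -y ∧ z = -w) := by
  have hT := isFrame_basis a
  by_cases hxz : x = z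
  · subst hxz; exact Or.inl ⟨rfl, add_left_cancel h⟩
  by_cases hxw : x = w
  · subst hxw; exact Or.inr (Or.inl ⟨rfl, by rw [add_comm] at h; exact add_right_cancel h⟩)
  have sq : ∀ {p q r : V}, p ∈ Gm a → q ∈ Gm a → r ∈ Gm a → p + p = q + r → p = q := by
    intro p q r hp hq hr h1
    rw [add_self_eq_neg] at h1
    rcases Tadd hT hq.1 hr.1 (h1 ▸ neg_mem_Tset hp.1) with h2 | h2 | h2 | h2
    · exact absurd h2 hq.2
    · exact absurd h2 hr.2
    · subst h2; rw [add_self_eq_neg] at h1; exact neg_injective h1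
    · subst h2; exact absurd (by simpa using h1) hp.2
  by_cases hxy : x = y
  · subst hxy; exact absurd (sq hx hz hw h) hxz
  by_cases hzw : z = w
  · subst hzw; exact absurd (sq hz hx hy h.symm).symm hxz
  have h0 := T4 hT hx.1 hy.1 hz.1 hw.1 hxy hzw hxz hxw h
  exact Or.inr (Or.inr ⟨eq_neg_of_add_eq_zero_left h0, eq_neg_of_add_eq_zero_left (h ▸ h0)⟩)

theorem mem_Df [Fintype κ] {f : Basis κ F V} {x y : V} {l : κ} :
    l ∈ Df f x y ↔ f.repr x l ≠ f.repr y l := by simp [Df]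

theorem Df_comm [Fintype κ] (f : Basis κ F V) (x y : V) : Df f x y = Df f y x := by
  ext l; simp [mem_Df, ne_comm]

theorem Df_neg [Fintype κ] (f : Basis κ F V) (x y : V) : Df f (-x) (-y) = Df f x y := by
  ext l; simp [mem_Df]

theorem Adj.symm {f : Basis κ F V} {x y : V} (h : Adj f x y) : Adj f y x :=
  ⟨h.1.symm, by simpa using neg_mem_Dset h.2⟩

theorem Adj.neg {f : Basis κ F V} {x y : V} (h : Adj f x y) : Adj f (-x) (-y) :=
  ⟨fun hc => h.1 (neg_injective hc), by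
    have : -x - -y = -(x - y) := by abel
    rw [this]; exact neg_mem_Dset h.2⟩

/-! ### Coordinate subspaces and separations -/

/-- Vectors whose coordinates in `S` vanish. -/
def offS (b : Basis κ F V) (S : Set κ) : Submodule F V where
  carrier := {x | ∀ l ∈ S, b.repr x l = 0}
  add_mem' := fun hx hy l hl => by simp [hx l hl, hy l hl]
  zero_mem' := fun l _ => by simp
  smul_mem' := fun c x hx l hl => by simp [hx l hl]

theorem mem_offS {b : Basis κ F V} {S : Set κ} {x : V} :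
    x ∈ offS b S ↔ ∀ l ∈ S, b.repr x l = 0 := Iff.rfl

theorem offS_ne_top (b : Basis κ F V) {S : Set κ} {l : κ} (hl : l ∈ S) : offS b S ≠ ⊤ := by
  intro h
  have : b l ∈ offS b S := h ▸ Submodule.mem_top
  simpa using this l hl

open Classical in
/-- Projection keeping the coordinates in `S`. -/
noncomputable def projS (b : Basis κ F V) (S : Set κ) : V →ₗ[F] V :=
  b.constr F fun l => if l ∈ S then b l else 0

open Classical in
theorem repr_projS (b : Basis κ F V) (S : Set κ) (x : V) (l : κ) :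
    b.repr (projS b S x) l = if l ∈ S then b.repr x l else 0 := by
  have : (b.coord l).comp (projS b S) = if l ∈ S then b.coord l else 0 := by
    refine b.ext fun m => ?_
    by_cases hm : m = l
    · subst hm; by_cases h : m ∈ S <;> simp [projS, h]
    · by_cases h : m ∈ S <;> by_cases h' : l ∈ S <;> simp [projS, h, h', single_ne hm]
  have h2 := congrArg (fun φ : V →ₗ[F] F => φ x) this
  by_cases h : l ∈ S <;> simpa [h] using h2

theorem projS_eq_self (b : Basis κ F V) {S : Set κ} {x : V} (h : ∀ l, b.repr x l ≠ 0 → l ∈ S) :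
    projS b S x = x := by
  refine eq_of_repr b fun l => ?_
  rw [repr_projS]
  split_ifs with hl
  · rfl
  · exact (by_contra fun hc => hl (h l hc) : b.repr x l = 0).symm

theorem projS_eq_zero (b : Basis κ F V) {S : Set κ} {x : V} (h : ∀ l ∈ S, b.repr x l = 0) :
    projS b S x = 0 := by
  refine eq_of_repr b fun l => ?_
  rw [repr_projS]
  split_ifs with hl
  · simp [h l hl]
  · simp

/-- If every generator is supported inside `S` or outside `S`, a vector of the span supported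
inside `S` is spanned by the generators supported inside `S`. -/
theorem mem_span_inside (b : Basis κ F V) (S : Set κ) {E : Set V} {x : V} (hx : x ∈ span F E)
    (hE : ∀ e ∈ E, (∀ l, b.repr e l ≠ 0 → l ∈ S) ∨ ∀ l ∈ S, b.repr e l = 0)
    (hS : ∀ l, b.repr x l ≠ 0 → l ∈ S) :
    x ∈ span F {e | e ∈ E ∧ ∀ l, b.repr e l ≠ 0 → l ∈ S} := by
  rw [← projS_eq_self b hS]
  clear hS
  induction hx using Submodule.span_induction with
  | mem e he =>
    rcases hE e he with h | h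
    · rw [projS_eq_self b h]; exact subset_span ⟨he, h⟩
    · rw [projS_eq_zero b h]; exact zero_mem _
  | zero => simp
  | add x y _ _ h1 h2 => rw [map_add]; exact add_mem h1 h2
  | smul c x _ h1 => rw [map_smul]; exact smul_mem _ _ h1

/-- A functional killing a set kills its span. -/
theorem map_span_zero {E : Set V} (φ : V →ₗ[F] F) (h : ∀ e ∈ E, φ e = 0) {x : V}
    (hx : x ∈ span F E) : φ x = 0 :=
  (span_le.2 h : span F E ≤ LinearMap.ker φ) hx

theorem repr_span_zero (b : Basis κ F V) {E : Set V} {l : κ} (h : ∀ e ∈ E, b.repr e l = 0)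
    {x : V} (hx : x ∈ span F E) : b.repr x l = 0 :=
  map_span_zero (b.coord l) h hx

theorem exists_touch (b : Basis κ F V) {E : Set V} {l : κ} {x : V} (hx : x ∈ span F E)
    (h : b.repr x l ≠ 0) : ∃ e ∈ E, b.repr e l ≠ 0 := by
  by_contra hc
  push Not at hc
  exact h (repr_span_zero b hc hx)

theorem finrank_le_one_of {W : Submodule F V} [Module.Finite F V] (v : V)
    (h : ∀ x ∈ W, ∃ c : F, x = c • v) : finrank F W ≤ 1 := by
  have h1 : W ≤ span F {v} := fun x hx => by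
    obtain ⟨c, rfl⟩ := h x hx
    exact smul_mem _ _ (subset_span rfl)
  refine (Submodule.finrank_mono h1).trans ?_
  simpa using finrank_span_le_card ({v} : Set V)

theorem Sep.mono {E E' : Set V} {k k' : ℕ} (h : Sep E k) (hE : E' ⊆ E) (hk : k ≤ k') :
    Sep E' k' :=
  let ⟨V1, V2, h1, h2, h3, h4⟩ := h
  ⟨V1, V2, h1, h2, fun e he => h3 e (hE he), h4.trans hk⟩

theorem sep_aux (b : Basis κ F V) {E : Set V} (C : Set κ) (V1 : Submodule F V) {k : ℕ}
    (hC : C.Nonempty) (h1 : V1 ≠ ⊤) (h : ∀ e ∈ E, ∀ l ∈ C, b.repr e l ≠ 0 → e ∈ V1)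
    (hk : finrank F ↥(V1 ⊓ offS b C) ≤ k) : Sep E k := by
  obtain ⟨l, hl⟩ := hC
  refine ⟨V1, offS b C, h1, offS_ne_top b hl, fun e he => ?_, hk⟩
  by_cases h2 : ∀ l ∈ C, b.repr e l = 0
  · exact Or.inr h2
  · push Not at h2
    obtain ⟨m, hm, h3⟩ := h2
    exact Or.inl (h e he m hm h3)

/-- A closed set of vertices. -/
theorem sep0 [Fintype κ] (b : Basis κ F V) {E : Set V} (C : Set κ) (hC : C.Nonempty) {l0 : κ}
    (hl0 : l0 ∉ C) (h : ∀ e ∈ E, ∀ l ∈ C, b.repr e l ≠ 0 → ∀ m, b.repr e m ≠ 0 → m ∈ C) :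
    Sep E 0 := by
  refine sep_aux b C (offS b Cᶜ) hC (offS_ne_top b hl0) (fun e he l hl h1 m hm => ?_) ?_
  · exact by_contra fun hc => hm (h e he l hl h1 m hc)
  · have : offS b Cᶜ ⊓ offS b C = ⊥ := by
      rw [eq_bot_iff]
      intro x hx
      refine eq_of_repr b fun l => ?_
      by_cases hl : l ∈ C
      · simpa using hx.2 l hl
      · simpa using hx.1 l hl
    rw [this]; simp

/-- A cut vertex. -/
theorem sepv [Fintype κ] (b : Basis κ F V) {E : Set V} (C : Set κ) (hC : C.Nonempty)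
    {j l0 : κ} (hl0 : l0 ∉ C) (hl0j : l0 ≠ j)
    (h : ∀ e ∈ E, ∀ l ∈ C, b.repr e l ≠ 0 → ∀ m, b.repr e m ≠ 0 → m ∈ C ∨ m = j) :
    Sep E 1 := by
  have := Module.Finite.of_basis b
  refine sep_aux b C (offS b {m | m ∉ C ∧ m ≠ j}) hC (offS_ne_top b ⟨hl0, hl0j⟩)
    (fun e he l hl h1 m hm => ?_) ?_
  · exact by_contra fun hc => (h e he l hl h1 m hc).elim hm.1 hm.2
  · refine finrank_le_one_of (b j) fun x hx => ⟨_, eq_smul_of_supp b j fun m hm => ?_⟩
    by_cases hl : m ∈ C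
    · exact hx.2 m hl
    · exact hx.1 m ⟨hl, hm⟩

/-- A balanced part attached at one vertex. -/
theorem sepf0 [Fintype κ] (b : Basis κ F V) {E : Set V} (C : Set κ) (hC : C.Nonempty) {m1 : κ}
    (ψ : V →ₗ[F] F) (hψ : ψ (b m1) ≠ 0)
    (h : ∀ e ∈ E, ∀ l ∈ C, b.repr e l ≠ 0 →
      ψ e = 0 ∧ ∀ m, b.repr e m ≠ 0 → m ∈ C ∨ m = m1) : Sep E 0 := by
  refine sep_aux b C (offS b {m | m ∉ C ∧ m ≠ m1} ⊓ LinearMap.ker ψ) hC ?_
    (fun e he l hl h1 => ⟨fun m hm => ?_, (h e he l hl h1).1⟩) ?_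
  · intro hc
    have : b m1 ∈ offS b {m | m ∉ C ∧ m ≠ m1} ⊓ LinearMap.ker ψ := hc ▸ Submodule.mem_top
    exact hψ this.2
  · exact by_contra fun hc => ((h e he l hl h1).2 m hc).elim hm.1 hm.2
  · have : offS b {m | m ∉ C ∧ m ≠ m1} ⊓ LinearMap.ker ψ ⊓ offS b C = ⊥ := by
      rw [eq_bot_iff]
      intro x hx
      have h1 : x = b.repr x m1 • b m1 := eq_smul_of_supp b m1 fun m hm => by
        by_cases hl : m ∈ C
        · exact hx.2 m hl
        · exact hx.1.1 m ⟨hl, hm⟩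
      have h2 : ψ x = 0 := hx.1.2
      rw [h1] at h2
      have h3 : b.repr x m1 = 0 := by simpa [hψ] using h2
      rw [h1, h3]; simp
    rw [this]; simp

/-- A balanced part attached at two vertices. -/
theorem sepf [Fintype κ] (b : Basis κ F V) {E : Set V} (C : Set κ) (hC : C.Nonempty)
    {m1 : κ} (m2 : κ) (ψ : V →ₗ[F] F) (hψ : ψ (b m1) ≠ 0)
    (h : ∀ e ∈ E, ∀ l ∈ C, b.repr e l ≠ 0 →
      ψ e = 0 ∧ ∀ m, b.repr e m ≠ 0 → m ∈ C ∨ m = m1 ∨ m = m2) : Sep E 1 := by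
  have := Module.Finite.of_basis b
  by_cases h12 : m1 = m2
  · subst h12
    exact (sepf0 b C hC ψ hψ fun e he l hl h1 =>
      ⟨(h e he l hl h1).1, fun m hm => by simpa using (h e he l hl h1).2 m hm⟩).mono
      subset_rfl (by norm_num)
  refine sep_aux b C (offS b {m | m ∉ C ∧ m ≠ m1 ∧ m ≠ m2} ⊓ LinearMap.ker ψ) hC ?_
    (fun e he l hl h1 => ⟨fun m hm => ?_, (h e he l hl h1).1⟩) ?_
  · intro hc
    have : b m1 ∈ offS b {m | m ∉ C ∧ m ≠ m1 ∧ m ≠ m2} ⊓ LinearMap.ker ψ :=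
      hc ▸ Submodule.mem_top
    exact hψ this.2
  · exact by_contra fun hc => ((h e he l hl h1).2 m hc).elim hm.1 fun h => h.elim hm.2.1 hm.2.2
  · refine finrank_le_one_of (b m2 - (ψ (b m1) * ψ (b m2)) • b m1) fun x hx => ⟨b.repr x m2, ?_⟩
    have h1 : x = b.repr x m1 • b m1 + b.repr x m2 • b m2 :=
      eq_two_of_supp b h12 fun m hm hm' => by
        by_cases hl : m ∈ C
        · exact hx.2 m hl
        · exact hx.1.1 m ⟨hl, hm, hm'⟩
    have h2 : ψ x = 0 := hx.1.2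
    rw [h1] at h2
    simp only [map_add, map_smul, smul_eq_mul] at h2
    have h3 : b.repr x m1 = -(b.repr x m2 * (ψ (b m1) * ψ (b m2))) := by
      have := F_sq hψ
      linear_combination ψ (b m1) * h2 - b.repr x m1 * this
    conv_lhs => rw [h1, h3]
    module

/-- A cocircuit with at most two elements. -/
theorem deg3 [Module.Finite F V] {E : Set V} (h3 : 3 ≤ finrank F V) {φ : V →ₗ[F] F}
    (hφ : φ ≠ 0) (e1 e2 : V) (h : ∀ e ∈ E, φ e ≠ 0 → e ∈ span F {e1, e2}) : Sep E 1 := by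
  classical
  have hk : LinearMap.ker φ ≠ ⊤ := by rwa [Ne, LinearMap.ker_eq_top]
  have hs : finrank F (span F ({e1, e2} : Set V)) ≤ 2 := by
    refine (finrank_span_le_card _).trans ?_
    simp only [Set.toFinset_insert, Set.toFinset_singleton]
    exact Finset.card_le_two
  have hne : span F ({e1, e2} : Set V) ≠ ⊤ := by
    intro hc; rw [hc, finrank_top] at hs; omega
  by_cases hle : span F ({e1, e2} : Set V) ≤ LinearMap.ker φ
  · refine ⟨⊥, LinearMap.ker φ, ?_, hk, fun e he => Or.inr ?_, by rw [bot_inf_eq]; simp⟩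
    · intro hc
      have : finrank F (⊥ : Submodule F V) = finrank F V := by rw [hc, finrank_top]
      simp at this; omega
    · by_contra hc
      exact hc (hle (h e he hc))
  refine ⟨span F {e1, e2}, LinearMap.ker φ, hne, hk, fun e he => ?_, ?_⟩
  · by_cases h0 : φ e = 0
    · exact Or.inr h0
    · exact Or.inl (h e he h0)
  · have : span F ({e1, e2} : Set V) ⊓ LinearMap.ker φ < span F {e1, e2} :=
      lt_of_le_of_ne inf_le_left fun hc => hle (hc ▸ inf_le_right)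
    have := Submodule.finrank_lt_finrank_of_lt this
    omega

/-- Gluing two functionals along two subspaces. -/
theorem exists_glue {V1 V2 : Submodule F V} (φ1 φ2 : V →ₗ[F] F)
    (h : ∀ x ∈ V1, x ∈ V2 → φ1 x = φ2 x) :
    ∃ ψ : V →ₗ[F] F, (∀ x ∈ V1, ψ x = φ1 x) ∧ ∀ x ∈ V2, ψ x = φ2 x := by
  let f1 : V →ₗ.[F] F := φ1.toPMap V1
  let f2 : V →ₗ.[F] F := φ2.toPMap V2
  have hh : ∀ (x : f1.domain) (y : f2.domain), (x : V) = y → f1 x = f2 y := by
    intro x y hxy
    change φ1 x = φ2 y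
    rw [← hxy]; exact h x x.2 (hxy ▸ y.2)
  obtain ⟨ψ, hψ⟩ := LinearMap.exists_extend (f1.sup f2 hh).toFun
  have key : ∀ z : (f1.sup f2 hh).domain, ψ z = (f1.sup f2 hh) z := fun z =>
    congrArg (fun g : (f1.sup f2 hh).domain →ₗ[F] F => g z) hψ
  refine ⟨ψ, fun x hx => ?_, fun x hx => ?_⟩
  · have h1 := LinearPMap.left_le_sup f1 f2 hh
    rw [key ⟨x, h1.1 hx⟩]
    exact (h1.2 (x := ⟨x, hx⟩) rfl).symm
  · have h1 := LinearPMap.right_le_sup f1 f2 hh
    rw [key ⟨x, h1.1 hx⟩]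
    exact (h1.2 (x := ⟨x, hx⟩) rfl).symm

theorem exists_functional {W : Submodule F V} {x : V} (hx : x ∉ W) :
    ∃ φ : V →ₗ[F] F, φ x = 1 ∧ ∀ w ∈ W, φ w = 0 := by
  obtain ⟨φ, h1, h2⟩ := Submodule.exists_le_ker_of_notMem hx
  refine ⟨φ x • φ, by simp [F_sq h1], fun w hw => ?_⟩
  have : φ w = 0 := h2 hw
  simp [this]

theorem NB.mono {E E' : Set V} {φ : V →ₗ[F] F} (h : NB E φ) (hE : E ⊆ E') : NB E' φ :=
  fun x hx => span_mono (fun _ he => And.intro (hE he.1) he.2) (h x hx)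

theorem NB.smul {E : Set V} {φ : V →ₗ[F] F} (h : NB E φ) {c : F} (hc : c ≠ 0) :
    NB E (c • φ) := by
  intro x hx
  have h1 : φ x = 0 := by simpa [hc] using hx
  refine span_mono (fun e he => ?_) (h x h1)
  exact ⟨he.1, by simp [he.2]⟩

theorem Spans.mono {E E' : Set V} (h : Spans E) (hE : E ⊆ E') : Spans E' :=
  eq_top_iff.2 (h ▸ span_mono hE)

theorem Spans.eq_zero {E : Set V} (h : Spans E) {φ : V →ₗ[F] F} (h0 : ∀ e ∈ E, φ e = 0) :
    φ = 0 := by
  ext x; exact map_span_zero φ h0 (h ▸ Submodule.mem_top)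

/-- A balancing vertex gives a functional. -/
theorem nbc (b : Basis κ F V) {E : Set V} {j : κ} (h : ¬ NB E (b.coord j)) :
    ∃ χ : V →ₗ[F] F, χ ≠ 0 ∧ χ (b j) = 0 ∧ ∀ e ∈ E, b.repr e j = 0 → χ e = 0 := by
  unfold NB at h
  push Not at h
  obtain ⟨x, hx, hn⟩ := h
  obtain ⟨φ, h1, h2⟩ := exists_functional hn
  have hx' : b.repr x j = 0 := by simpa using hx
  refine ⟨φ - φ (b j) • b.coord j, fun hc => ?_, by simp, fun e he h0 => ?_⟩
  · have := congrArg (fun g : V →ₗ[F] F => g x) hc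
    simp [hx', h1] at this
  · simp [h0, h2 e (subset_span ⟨he, by simpa using h0⟩)]

theorem s_split : S_SPLIT := by
  intro V _ _ ι _ _ a E φ hE hNB
  have hcl : ∀ e ∈ {e | e ∈ E ∧ φ e = 0}, (∀ l, a.repr e l ≠ 0 → l ∈ {i | φ (a i) ≠ 0}) ∨
      ∀ l ∈ {i | φ (a i) ≠ 0}, a.repr e l = 0 := by
    intro e he
    by_cases h : ∀ l ∈ {i | φ (a i) ≠ 0}, a.repr e l = 0
    · exact Or.inr h
    · push Not at h
      obtain ⟨i, hi, h1⟩ := h
      exact Or.inl fun l hl => ends_in_supp a φ (hE he.1) he.2 h1 hi hl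
  constructor
  · intro x hx
    have h0 : φ x = 0 := by
      rw [map_eq_sum a]
      refine Finset.sum_eq_zero fun i _ => ?_
      by_cases h : φ (a i) = 0
      · simp [h]
      · simp [hx i h]
    refine span_mono ?_ (mem_span_inside a {i | φ (a i) = 0} (hNB x h0) (fun e he => ?_)
      fun l hl => by_contra fun hc => hl (hx l hc))
    · exact fun e he => ⟨he.1.1, fun i hi => by_contra fun hc => hi (he.2 i hc)⟩
    · rcases hcl e he with h | h
      · exact Or.inr fun l hl => by_contra fun hc => h l hc hl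
      · exact Or.inl fun l hl => by_contra fun hc => hl (h l hc)
  · intro x hx h0
    refine span_mono ?_ (mem_span_inside a {i | φ (a i) ≠ 0} (hNB x h0) hcl
      fun l hl hc => hl (hx l hc))
    exact fun e he => ⟨he.1.1, he.1.2, fun i hi => by_contra fun hc => he.2 i hc hi⟩

/-- Joints lying in a coordinate subspace form a frame of it. -/
theorem isFrame_comap [Fintype ι] (b : Basis ι F V) (U : Submodule F V) (S : Set ι)
    (hU : ∀ x, x ∈ U ↔ ∀ i ∈ S, b.repr x i = 0) :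
    IsFrame (Subtype.val ⁻¹' Tset b : Set ↥U) := by
  classical
  have hm : ∀ i : {i // i ∉ S}, b i ∈ U := fun i =>
    (hU _).2 fun k hk => repr_basis_ne b fun hc => i.2 (hc ▸ hk)
  let v : {i // i ∉ S} → U := fun i => ⟨b i, hm i⟩
  have hli : LinearIndependent F v :=
    LinearIndependent.of_comp U.subtype (b.linearIndependent.comp _ Subtype.val_injective)
  have hsp : ⊤ ≤ span F (Set.range v) := by
    intro x _
    have h1 : x = ∑ i : {i // i ∉ S}, b.repr x i • v i := by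
      apply Subtype.ext
      refine eq_of_repr b fun k => ?_
      simp only [v, AddSubmonoidClass.coe_finsetSum, SetLike.mk_smul_mk, map_sum, map_smul,
        Finsupp.coe_finsetSum, Finset.sum_apply, Finsupp.smul_apply, smul_eq_mul]
      by_cases hk : k ∈ S
      · rw [(hU _).1 x.2 k hk]
        refine (Finset.sum_eq_zero fun i _ => ?_).symm
        rw [repr_basis_ne b fun hc : (i : ι) = k => i.2 (hc ▸ hk), mul_zero]
      · rw [Finset.sum_eq_single ⟨k, hk⟩]
        · simp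
        · intro i _ hi
          rw [repr_basis_ne b fun hc => hi (Subtype.ext hc), mul_zero]
        · simp
    rw [h1]
    exact sum_mem fun i _ => smul_mem _ _ (subset_span ⟨i, rfl⟩)
  have : (Subtype.val ⁻¹' Tset b : Set ↥U) = Tset v := by
    ext x
    constructor
    · rintro (h | ⟨i, h⟩)
      · exact Or.inl (Subtype.ext h)
      · have hi : i ∉ S := fun hi => by
          have := (hU _).1 x.2 i hi
          rcases h with h | h <;> rw [h] at this <;> simp at this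
        exact Or.inr ⟨⟨i, hi⟩, h.imp (fun h => Subtype.ext h) fun h => Subtype.ext h⟩
    · rintro (rfl | ⟨i, rfl | rfl⟩)
      · exact zero_mem_Tset _
      · exact self_mem_Tset b i
      · exact neg_mem_Tset (self_mem_Tset b i)
  rw [this]
  exact isFrame_of_linInd hli hsp

/-! ### Cells -/

theorem Cells.mem_iff {b : Basis κ F V} {W : Submodule F V} {χ : ρ → V →ₗ[F] F}
    (h : Cells b W χ) {x : V} : x ∈ W ↔ ∀ q, χ q x = 0 :=
  ⟨fun hx q => h.van q x hx, h.ker x⟩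

/-- Two vertices of a class agree modulo `W` after normalisation. -/
theorem Cells.diff {b : Basis κ F V} {W : Submodule F V} {χ : ρ → V →ₗ[F] F}
    (h : Cells b W χ) {q : ρ} {l m : κ} (hl : χ q (b l) ≠ 0) (hm : χ q (b m) ≠ 0) :
    χ q (b l) • b l - χ q (b m) • b m ∈ W := by
  refine h.ker _ fun q' => ?_
  by_cases hq : q' = q
  · subst hq; simp [F_sq hl, F_sq hm]
  · have h1 : χ q' (b l) = 0 := by_contra fun hc => hq (h.disj l q' q hc hl)
    have h2 : χ q' (b m) = 0 := by_contra fun hc => hq (h.disj m q' q hc hm)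
    simp [h1, h2]

/-- A joint has at most one nonzero cell coordinate. -/
theorem Cells.T {b : Basis κ F V} {W : Submodule F V} {χ : ρ → V →ₗ[F] F}
    (h : Cells b W χ) {x : V} (hx : x ∈ Tset b) {q q' : ρ} (h1 : χ q x ≠ 0) (h2 : χ q' x ≠ 0) :
    q = q' := by
  rcases mem_Tset_iff_smul.1 hx with rfl | ⟨l, c, -, rfl⟩
  · simp at h1
  · exact h.disj l q q' (fun hc => by simp [hc] at h1) fun hc => by simp [hc] at h2

/-- An edge has at most two nonzero cell coordinates. -/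
theorem Cells.D {b : Basis κ F V} {W : Submodule F V} {χ : ρ → V →ₗ[F] F}
    (h : Cells b W χ) {x : V} (hx : x ∈ Dset (Tset b)) {q1 q2 q3 : ρ} (h1 : χ q1 x ≠ 0)
    (h2 : χ q2 x ≠ 0) (h3 : χ q3 x ≠ 0) : q1 = q2 ∨ q1 = q3 ∨ q2 = q3 := by
  obtain ⟨y, hy, z, hz, rfl⟩ := hx
  have key : ∀ q, χ q (y - z) ≠ 0 → χ q y ≠ 0 ∨ χ q z ≠ 0 := by
    intro q hq
    by_contra hc
    push Not at hc
    simp [hc.1, hc.2] at hq
  rcases key _ h1 with h1 | h1 <;> rcases key _ h2 with h2 | h2 <;>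
    rcases key _ h3 with h3 | h3
  all_goals first
    | exact Or.inl (h.T hy h1 h2)
    | exact Or.inl (h.T hz h1 h2)
    | exact Or.inr (Or.inl (h.T hy h1 h3))
    | exact Or.inr (Or.inl (h.T hz h1 h3))
    | exact Or.inr (Or.inr (h.T hy h2 h3))
    | exact Or.inr (Or.inr (h.T hz h2 h3))

theorem Cells.tch_of_two {b : Basis κ F V} {W : Submodule F V} {χ : ρ → V →ₗ[F] F}
    (h : Cells b W χ) {q : ρ} {l m : κ} (hlm : l ≠ m) (hl : χ q (b l) ≠ 0)
    (hm : χ q (b m) ≠ 0) : Tch b W l :=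
  ⟨_, h.diff hl hm, by simpa [single_ne hlm.symm] using hl⟩

/-- A touched vertex of a class is not alone in it. -/
theorem Cells.exists_other [Fintype κ] {b : Basis κ F V} {W : Submodule F V}
    {χ : ρ → V →ₗ[F] F} (h : Cells b W χ) {q : ρ} {l : κ} (hl : χ q (b l) ≠ 0)
    (ht : Tch b W l) : ∃ m, m ≠ l ∧ χ q (b m) ≠ 0 := by
  by_contra hc
  push Not at hc
  obtain ⟨w, hw, h1⟩ := ht
  have h2 := h.van q w hw
  rw [eq_smul_coord b hc] at h2
  simp [hl, h1] at h2

/-- All vertices of a big class are touched. -/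
theorem Cells.big_tch [Fintype κ] {b : Basis κ F V} {W : Submodule F V} {χ : ρ → V →ₗ[F] F}
    (h : Cells b W χ) {q : ρ} (hq : Big b W χ q) {l : κ} (hl : χ q (b l) ≠ 0) : Tch b W l := by
  obtain ⟨m, hm, ht⟩ := hq
  by_cases hlm : l = m
  · exact hlm ▸ ht
  · exact h.tch_of_two hlm hl hm

/-- A class that is not big is a single vertex star. -/
theorem Cells.single {b : Basis κ F V} {W : Submodule F V} {χ : ρ → V →ₗ[F] F}
    (h : Cells b W χ) {q : ρ} (hq : ¬ Big b W χ q) :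
    ∃ l, ∃ c : F, c ≠ 0 ∧ ¬ Tch b W l ∧ χ q = c • b.coord l := by
  obtain ⟨l, hl⟩ := h.ne q
  refine ⟨l, _, hl, fun ht => hq ⟨l, hl, ht⟩, eq_smul_coord b fun m hm => ?_⟩
  by_contra hc
  exact hq ⟨m, hc, h.tch_of_two hm hc hl⟩

/-- An untouched vertex is a class. -/
theorem Cells.of_not_tch {b : Basis κ F V} {W : Submodule F V} {χ : ρ → V →ₗ[F] F}
    (h : Cells b W χ) {l : κ} (hl : ¬ Tch b W l) :
    ∃ q, ∃ c : F, c ≠ 0 ∧ χ q = c • b.coord l := by
  have h1 : b l ∉ W := fun hc => hl ⟨_, hc, by simp⟩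
  rw [h.mem_iff] at h1
  push Not at h1
  obtain ⟨q, hq⟩ := h1
  refine ⟨q, _, hq, eq_smul_coord b fun m hm => ?_⟩
  by_contra hc
  exact hl (h.tch_of_two (Ne.symm hm) hq hc)

theorem dSp_span {T E : Set V} (h : E ⊆ Dset T) : DSp T (span F E) :=
  span_mono fun _ he => ⟨h he, subset_span he⟩

theorem DSp.sup {T : Set V} {W1 W2 : Submodule F V} (h1 : DSp T W1) (h2 : DSp T W2) :
    DSp T (W1 ⊔ W2) :=
  sup_le (h1.trans (span_mono fun _ he => ⟨he.1, mem_sup_left he.2⟩))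
    (h2.trans (span_mono fun _ he => ⟨he.1, mem_sup_right he.2⟩))

theorem tch_span_iff (b : Basis κ F V) {E : Set V} {l : κ} :
    Tch b (span F E) l ↔ ∃ e ∈ E, b.repr e l ≠ 0 :=
  ⟨fun ⟨_, hw, h⟩ => exists_touch b hw h, fun ⟨e, he, h⟩ => ⟨e, subset_span he, h⟩⟩

theorem Shd_comm (b : Basis κ F V) (W1 W2 : Submodule F V) : Shd b W1 W2 = Shd b W2 W1 := by
  ext l; exact and_comm

theorem Rings.symm {b : Basis κ F V} {M : Set κ} {E1 E2 : Set V} {χ : ρ → V →ₗ[F] F}
    {ψ : ρ' → V →ₗ[F] F} (h : Rings b M E1 E2 χ ψ) : Rings b M E2 E1 ψ χ :=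
  ⟨h.d2, h.d1, h.o2, h.o1, by rw [inf_comm]; exact h.dir, h.c2, h.c1, h.z2, h.z1,
    by rw [Shd_comm]; exact h.s2, by rw [Shd_comm]; exact h.s1⟩

theorem Ts.symm {A B : Set V} {V1 V2 : Submodule F V} {p : V} (h : Ts A B V1 V2 p) :
    Ts A B V2 V1 p :=
  ⟨h.frA, h.frB, h.four, h.nsep, h.ne2, h.ne1, fun e he => (h.cov e he).symm,
    by rw [inf_comm]; exact h.inf, h.pne, by rw [sup_comm]; exact h.sup, h.sp2, h.sp1⟩

/-! ### The structures `Tc`, `Sj` -/

theorem Tc.symm [Fintype ι] [Fintype κ] {a : Basis ι F V} {f : Basis κ F V} (h : Tc a f) :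
    Tc f a :=
  ⟨by rw [card_eq_card a f]; exact h.four, by rw [EE, Ed_comm]; exact h.spans,
    by rw [EE, Ed_comm]; exact h.nsep, by rw [EE, Ed_comm]; exact h.nbf,
    by rw [EE, Ed_comm]; exact h.nba, fun hc => h.nsh hc.symm⟩

theorem Tc.finrank [Fintype ι] {a : Basis ι F V} {f : Basis κ F V} (h : Tc a f) :
    4 ≤ finrank F V := by rw [finrank_eq_card_basis a]; exact h.four

theorem Tc.nsep0 [Fintype ι] {a : Basis ι F V} {f : Basis κ F V} (h : Tc a f) :
    ¬ Sep (EE a f) 0 := fun hc => h.nsep (hc.mono subset_rfl (by norm_num))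

/-- Every star of `f` has at least two vertices of `a` in its support. -/
theorem Tc.two_supp [Fintype ι] {a : Basis ι F V} {f : Basis κ F V} (h : Tc a f) (l : κ) :
    ∃ i i', i ≠ i' ∧ f.repr (a i) l ≠ 0 ∧ f.repr (a i') l ≠ 0 := by
  by_contra hc
  push Not at hc
  by_cases h0 : ∃ i, f.repr (a i) l ≠ 0
  · obtain ⟨i, hi⟩ := h0
    exact h.nsh (share_of_supp (i := i) (l := l) fun j hj => hc i j hj.symm hi)
  · push Not at h0
    have : Nonempty ι := Fintype.card_pos_iff.1 (by have := h.four; omega)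
    exact h.nsh (share_of_supp (i := this.some) (l := l) fun j _ => h0 j)

theorem mem_nbr {a : Basis ι F V} {f : Basis κ F V} {I : Finset ι} {i i' : ι} :
    i' ∈ nbr a f I i ↔ i' ∈ I ∧ i' ≠ i ∧ a i - a i' ∈ Dset (Tset f) := by
  simp [nbr]

theorem nbr_symm {a : Basis ι F V} {f : Basis κ F V} {I : Finset ι} {i i' : ι} (hi : i ∈ I)
    (h : i' ∈ nbr a f I i) : i ∈ nbr a f I i' := by
  rw [mem_nbr] at h ⊢
  exact ⟨hi, h.2.1.symm, by simpa using neg_mem_Dset h.2.2⟩

theorem ot_zero (a : Basis ι F V) (I : Finset ι) : OT a I 0 := ⟨zero_mem_Tset _, by simp⟩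

section Sj

variable [Fintype ι] [DecidableEq ι] {a : Basis ι F V} {f : Basis κ F V} {j : κ} {I : Finset ι}

theorem repr_j_eq_sum (hI : ∀ i, f.repr (a i) j = if i ∈ I then 1 else 0) (x : V) :
    f.repr x j = ∑ i ∈ I, a.repr x i := by
  have := map_eq_sum a (f.coord j) x
  simp only [Basis.coord_apply, hI, mul_ite, mul_one, mul_zero, Finset.sum_ite_mem,
    Finset.univ_inter] at this
  exact this

theorem Sj.in_I (h : Sj a f j I) {i : ι} (hi : i ∈ I) : f.repr (a i) j = 1 := by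
  rw [h.hI, if_pos hi]

theorem Sj.not_in_I (h : Sj a f j I) {i : ι} (hi : i ∉ I) : f.repr (a i) j = 0 := by
  rw [h.hI, if_neg hi]

theorem Sj.ot (h : Sj a f j I) {t : V} (ht : OT a I t) : f.repr t j = 0 := by
  rw [repr_j_eq_sum h.hI]; exact Finset.sum_eq_zero ht.2

theorem Sj.two_le (h : Sj a f j I) : 2 ≤ I.card := by
  obtain ⟨i, i', h1, h2, h3⟩ := h.tc.two_supp j
  have hi : i ∈ I := by_contra fun hc => h2 (h.not_in_I hc)
  have hi' : i' ∈ I := by_contra fun hc => h3 (h.not_in_I hc)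
  exact Finset.one_lt_card.2 ⟨i, hi, i', hi', h1⟩

/-- Classification of the edges at a vertex `v` of `I`. -/
theorem cls_at (a : Basis ι F V) (I : Finset ι) {e : V} (he : e ∈ Dset (Tset a)) {v : ι}
    (hv : a.repr e v = 1) : (∃ t, OT a I t ∧ a.repr t v = 0 ∧ e = a v + t) ∨
      ∃ i ∈ I, i ≠ v ∧ (e = a v - a i ∨ e = a v + a i) := by
  have ht := sub_mem_Tset_one a he hv
  have h0 : a.repr (e - a v) v = 0 := by simp [hv]
  by_cases h : ∀ i ∈ I, a.repr (e - a v) i = 0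
  · exact Or.inl ⟨e - a v, ⟨ht, h⟩, h0, by abel⟩
  · push Not at h
    obtain ⟨i, hi, h1⟩ := h
    have hiv : i ≠ v := by rintro rfl; exact h1 h0
    refine Or.inr ⟨i, hi, hiv, ?_⟩
    have h2 := Tset_eq_smul a ht h1
    rcases F_ne_cases h1 with h3 | h3 <;> rw [h3] at h2
    · right; rw [one_smul] at h2; rw [← h2]; abel
    · left; rw [neg_smul, one_smul] at h2; rw [sub_eq_add_neg, ← h2]; abel

/-- Edges with `β j = 1`. -/
theorem Sj.cls1 (h : Sj a f j I) {e : V} (he : e ∈ Dset (Tset a)) (h1 : f.repr e j = 1) :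
    DH a I e ∨ ∃ i ∈ I, ∃ i' ∈ I, i ≠ i' ∧ e = -(a i + a i') := by
  have hex : ∃ v ∈ I, a.repr e v ≠ 0 := by
    by_contra hc
    push Not at hc
    rw [repr_j_eq_sum h.hI, Finset.sum_eq_zero hc] at h1
    exact zero_ne_one h1
  obtain ⟨v, hv, h2⟩ := hex
  rcases F_ne_cases h2 with h3 | h3
  · rcases cls_at a I he h3 with ⟨t, ht, -, rfl⟩ | ⟨i, hi, hiv, rfl | rfl⟩
    · exact Or.inl ⟨v, hv, t, ht, rfl⟩
    · simp [h.in_I hv, h.in_I hi] at h1
    · simp [h.in_I hv, h.in_I hi] at h1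
  · have h4 : a.repr (-e) v = 1 := by simp [h3]
    have h5 : f.repr (-e) j = -1 := by simp [h1]
    rcases cls_at a I (neg_mem_Dset he) h4 with ⟨t, ht, -, h6⟩ | ⟨i, hi, hiv, h6 | h6⟩
    · rw [h6] at h5; simp [h.in_I hv, h.ot ht] at h5; exact absurd h5 (by decide)
    · rw [h6] at h5; simp [h.in_I hv, h.in_I hi] at h5
    · exact Or.inr ⟨v, hv, i, hi, hiv.symm, by rw [← h6, neg_neg]⟩

/-- Edges with `β j = 0`. -/
theorem Sj.cls0 (h : Sj a f j I) {e : V} (he : e ∈ Dset (Tset a)) (h0 : f.repr e j = 0) :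
    (∀ i ∈ I, a.repr e i = 0) ∨ ∃ i ∈ I, ∃ i' ∈ I, i ≠ i' ∧ e = a i - a i' := by
  by_cases hc : ∀ i ∈ I, a.repr e i = 0
  · exact Or.inl hc
  push Not at hc
  obtain ⟨v, hv, h2⟩ := hc
  right
  have key : ∀ e ∈ Dset (Tset a), f.repr e j = 0 → a.repr e v = 1 →
      ∃ i ∈ I, v ≠ i ∧ e = a v - a i := by
    intro e he h0 h3
    rcases cls_at a I he h3 with ⟨t, ht, -, rfl⟩ | ⟨i, hi, hiv, rfl | rfl⟩
    · simp [h.in_I hv, h.ot ht] at h0
    · exact ⟨i, hi, hiv.symm, rfl⟩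
    · simp [h.in_I hv, h.in_I hi] at h0; exact absurd h0 (by decide)
  rcases F_ne_cases h2 with h3 | h3
  · obtain ⟨i, hi, h4, h5⟩ := key e he h0 h3
    exact ⟨v, hv, i, hi, h4, h5⟩
  · obtain ⟨i, hi, h4, h5⟩ := key (-e) (neg_mem_Dset he) (by simp [h0]) (by simp [h3])
    exact ⟨i, hi, v, hv, h4.symm, by rw [← neg_neg e, h5]; abel⟩

/-- The edges avoiding `I` span the vectors avoiding `I`. -/
theorem Sj.span_O (h : Sj a f j I) {x : V} (hx : ∀ i ∈ I, a.repr x i = 0) :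
    x ∈ span F {e | e ∈ EE a f ∧ ∀ i ∈ I, a.repr e i = 0} := by
  have h1 := (s_split a (EE a f) (f.coord j) (fun _ he => he.1) (h.tc.nbf j)).1 x
    fun i hi => hx i (by_contra fun hc => hi (h.not_in_I hc))
  refine span_mono (fun e he => ?_) h1
  exact ⟨he.1, fun i hi => he.2 i (by simp [h.in_I hi])⟩

/-- The edges `a i - a i'` inside `I` span the vectors on `I` with coordinate sum zero. -/
theorem Sj.span_X (h : Sj a f j I) {x : V} (hx : ∀ i, i ∉ I → a.repr x i = 0)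
    (h0 : f.repr x j = 0) :
    x ∈ span F {e | ∃ i ∈ I, ∃ i' ∈ nbr a f I i, e = a i - a i'} := by
  have h1 := (s_split a (EE a f) (f.coord j) (fun _ he => he.1) (h.tc.nbf j)).2 x
    (fun i hi => hx i fun hc => by simp [h.in_I hc] at hi) h0
  refine (span_le.2 ?_ : span F _ ≤ _) h1
  rintro e ⟨he, h2, h3⟩
  rcases h.cls0 he.1 h2 with h4 | ⟨i, hi, i', hi', h4, rfl⟩
  · have : e = 0 := eq_of_repr a fun i => by
      by_cases hi : i ∈ I
      · simp [h4 i hi]
      · simp [h3 i (h.not_in_I hi)]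
    rw [this]; exact zero_mem _
  · exact subset_span ⟨i, hi, i', mem_nbr.2 ⟨hi', h4.symm, he.2⟩, rfl⟩

theorem Sj.nbr_nonempty (h : Sj a f j I) {v : ι} (hv : v ∈ I) : (nbr a f I v).Nonempty := by
  obtain ⟨w, hw, hwv⟩ := Finset.exists_mem_ne (lt_of_lt_of_le (by norm_num) h.two_le) v
  have h1 := h.span_X (x := a v - a w) (fun i hi => by
    have h1 : v ≠ i := fun hc => hi (hc ▸ hv)
    have h2 : w ≠ i := fun hc => hi (hc ▸ hw)
    simp [single_ne h1, single_ne h2]) (by simp [h.in_I hv, h.in_I hw])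
  obtain ⟨e, ⟨i, hi, i', hi', rfl⟩, h2⟩ := exists_touch a h1 (l := v) (by simp [single_ne hwv])
  by_cases h3 : i = v
  · exact ⟨i', h3 ▸ hi'⟩
  · have h4 : i' = v := by
      by_contra hc; simp [single_ne h3, single_ne hc] at h2
    exact ⟨i, h4 ▸ nbr_symm hi hi'⟩

end Sj

end

end Pool.Agent.P.MP_053557_co
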