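import Mathlib

/-!
Frames over GF(3): definitions and the statements of the intermediate lemmas.
A signed graph on `n` vertices of full rank is a basis `a` of an `n`-dimensional space `V`
(the joints); its possible edges are the vectors with at most two nonzero coordinates;
the vertex stars are the coordinate functionals.
-/

namespace Pool.Agent.P.MP_053557_co

open Module Submodule

abbrev F : Type := ZMod 3

section defs

variable {V : Type} [AddCommGroup V] [Module F V] {ι κ ρ ρ' : Type}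

/-- The joints of a family: zero and the vectors of the family up to sign. -/
def Tset (v : ι → V) : Set V := {x | x = 0 ∨ ∃ i, x = v i ∨ x = -v i}

/-- Differences of joints (the possible edges). -/
def Dset (T : Set V) : Set V := {x | ∃ y ∈ T, ∃ z ∈ T, x = y - z}

/-- A frame is the set of joints of a basis. -/
def IsFrame (T : Set V) : Prop := ∃ (n : ℕ) (b : Basis (Fin n) F V), T = Tset b

/-- A frame of a subspace. -/
def FrOn (W : Submodule F V) (T : Set V) : Prop :=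
  ∃ (n : ℕ) (v : Fin n → V), LinearIndependent F v ∧ span F (Set.range v) = W ∧ T = Tset v

/-- Common edges of two frames. -/
def Ed (A B : Set V) : Set V := Dset A ∩ Dset B

/-- Common edges of two bases. -/
abbrev EE (a : Basis ι F V) (f : Basis κ F V) : Set V := Ed (Tset a) (Tset f)

/-- Every vertex that can be attached to both `A` and `B` can be attached to `G`. -/
def Rr (A B G : Set V) : Prop :=
  ∀ u : V, ∃ u' : V, (u = 0 → u' = 0) ∧ ∀ x ∈ A, x + u ∈ B → x + u' ∈ G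

/-- `φ` is (up to sign) a vertex star of `T`. -/
def IsStar (T : Set V) (φ : V →ₗ[F] F) : Prop :=
  ∃ x ∈ T, φ x = 1 ∧ ∀ y ∈ T, y ≠ x → y ≠ -x → φ y = 0

def Share (A B : Set V) : Prop := ∃ φ : V →ₗ[F] F, IsStar A φ ∧ IsStar B φ

def had4 : Matrix (Fin 4) (Fin 4) F :=
  !![1, 1, 1, 1; 1, 1, -1, -1; 1, -1, 1, -1; 1, -1, -1, 1]

def conf6 : Matrix (Fin 6) (Fin 6) F :=
  !![1, 1, 1, 1, 1, 1; 1, 1, 1, -1, -1, 1; 1, 1, 1, 1, -1, -1;
     1, -1, 1, 1, 1, -1; 1, -1, -1, 1, 1, 1; 1, 1, -1, -1, 1, 1]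

/-- The two sporadic pairs of frames. -/
def CoreLink (A B : Set V) : Prop :=
  (∃ a b : Basis (Fin 4) F V, A = Tset a ∧ B = Tset b ∧ ∀ l i, b.repr (a i) l = had4 l i) ∨
  (∃ a b : Basis (Fin 6) F V, A = Tset a ∧ B = Tset b ∧ ∀ l i, b.repr (a i) l = conf6 l i)

def Link (A B : Set V) : Prop := Share A B ∨ CoreLink A B ∨ CoreLink B A

def Ok (A B G : Set V) : Prop := IsFrame G ∧ Rr A B G

def SConn (A B : Set V) : Set V → Set V → Prop :=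
  Relation.ReflTransGen fun G H => Ok A B G ∧ Ok A B H ∧ Link G H

def Succ (A B : Set V) : Prop := ∃ G, Ok A B G ∧ Share A G ∧ Share G B

def Spans (E : Set V) : Prop := span F E = ⊤

/-- The edges killed by `φ` span its kernel. -/
def NB (E : Set V) (φ : V →ₗ[F] F) : Prop :=
  ∀ x, φ x = 0 → x ∈ span F {e | e ∈ E ∧ φ e = 0}

def Sep (E : Set V) (k : ℕ) : Prop :=
  ∃ V1 V2 : Submodule F V, V1 ≠ ⊤ ∧ V2 ≠ ⊤ ∧ (∀ e ∈ E, e ∈ V1 ∨ e ∈ V2) ∧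
    finrank F ↥(V1 ⊓ V2) ≤ k

/-- `W` is spanned by possible edges of `T`. -/
def DSp (T : Set V) (W : Submodule F V) : Prop := W ≤ span F (Dset T ∩ (W : Set V))

/-- The cells of `W`: functionals with disjoint nonempty supports and common kernel `W`. -/
structure Cells (b : Basis κ F V) (W : Submodule F V) (χ : ρ → V →ₗ[F] F) : Prop where
  van : ∀ q, ∀ w ∈ W, χ q w = 0
  ker : ∀ x, (∀ q, χ q x = 0) → x ∈ W
  disj : ∀ l q q', χ q (b l) ≠ 0 → χ q' (b l) ≠ 0 → q = q'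
  ne : ∀ q, ∃ l, χ q (b l) ≠ 0

/-- Vertex `l` is touched by `W`. -/
def Tch (b : Basis κ F V) (W : Submodule F V) (l : κ) : Prop := ∃ w ∈ W, b.repr w l ≠ 0

/-- A cell containing a touched vertex. -/
def Big (b : Basis κ F V) (W : Submodule F V) (χ : ρ → V →ₗ[F] F) (q : ρ) : Prop :=
  ∃ l, χ q (b l) ≠ 0 ∧ Tch b W l

/-- Vertices touched by both subspaces. -/
def Shd (b : Basis κ F V) (W1 W2 : Submodule F V) : Set κ := {l | Tch b W1 l ∧ Tch b W2 l}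

/-! ### Two-separations -/

structure Ts (A B : Set V) (V1 V2 : Submodule F V) (p : V) : Prop where
  frA : IsFrame A
  frB : IsFrame B
  four : 4 ≤ finrank F V
  nsep : ¬ Sep (Ed A B) 0
  ne1 : V1 ≠ ⊤
  ne2 : V2 ≠ ⊤
  cov : ∀ e ∈ Ed A B, e ∈ V1 ∨ e ∈ V2
  inf : V1 ⊓ V2 = span F {p}
  pne : p ≠ 0
  sup : V1 ⊔ V2 = ⊤
  sp1 : V1 ≤ span F (Ed A B ∩ (V1 : Set V))
  sp2 : V2 ≤ span F (Ed A B ∩ (V2 : Set V))

def JJ (T : Set V) (V1 V2 : Submodule F V) (p : V) : Prop :=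
  p ∈ T ∧ ∀ x ∈ T, x ∈ V1 ∨ x ∈ V2

def LB (T : Set V) (V1 V2 : Submodule F V) (p : V) : Prop :=
  ∃ X ∈ T, ∃ Y ∈ T, X ∈ V1 ∧ Y ∈ V1 ∧ p = X - Y ∧ p ∉ T ∧
    (∀ g ∈ T, g ∈ V1 ∨ g - Y ∈ V2 ∨ g + Y ∈ V2) ∧ V1 ≤ span F (T ∩ (V1 : Set V))

/-- The side `V2` of `T` can be written with `p` as a joint. -/
def SJ (T : Set V) (V1 V2 : Submodule F V) (p : V) : Prop :=
  ∃ (T2 : Set V) (P : V →ₗ[F] V), FrOn V2 T2 ∧ p ∈ T2 ∧ (∀ x ∈ T, P x ∈ T2) ∧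
    (∀ x ∈ V2, P x = x) ∧
    ∀ t ∈ T2, t ≠ 0 → t ≠ p → t ≠ -p → ∃ φ : V →ₗ[F] F, IsStar T φ ∧ (∀ x ∈ V1, φ x = 0) ∧
      φ t = 1 ∧ ∀ t' ∈ T2, t' ≠ t → t' ≠ -t → φ t' = 0

/-! ### The three-connected case -/

structure Tc [Fintype ι] (a : Basis ι F V) (f : Basis κ F V) : Prop where
  four : 4 ≤ Fintype.card ι
  spans : Spans (EE a f)
  nsep : ¬ Sep (EE a f) 1
  nba : ∀ i, NB (EE a f) (a.coord i)
  nbf : ∀ l, NB (EE a f) (f.coord l)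
  nsh : ¬ Share (Tset a) (Tset f)

structure Sj [Fintype ι] [DecidableEq ι] (a : Basis ι F V) (f : Basis κ F V) (j : κ)
    (I : Finset ι) : Prop where
  tc : Tc a f
  hI : ∀ i, f.repr (a i) j = if i ∈ I then 1 else 0

structure St [Fintype ι] [DecidableEq ι] (a : Basis ι F V) (f : Basis κ F V) (j : κ)
    (I : Finset ι) : Prop where
  sj : Sj a f j I
  min : ∀ l, (∀ i, f.repr (a i) l ≠ 0 → i ∈ I) → ∀ i ∈ I, f.repr (a i) l ≠ 0
  hO : ∃ o, o ∉ I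
  nsucc : ¬ Succ (Tset a) (Tset f)

open Classical in
/-- Neighbours of `i` along edges `a i - a i'` inside `I`. -/
noncomputable def nbr (a : Basis ι F V) (f : Basis κ F V) (I : Finset ι) (i : ι) : Finset ι :=
  I.filter fun i' => i' ≠ i ∧ a i - a i' ∈ Dset (Tset f)

/-- Joints outside `I` (or zero). -/
def OT (a : Basis ι F V) (I : Finset ι) (t : V) : Prop :=
  t ∈ Tset a ∧ ∀ i ∈ I, a.repr t i = 0

/-- An edge at `j` with exactly one end in `I`. -/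
def DH (a : Basis ι F V) (I : Finset ι) (e : V) : Prop :=
  ∃ i ∈ I, ∃ t, OT a I t ∧ e = a i + t

/-- `e` is the only negative edge or half edge inside `I`. -/
def NU (a : Basis ι F V) (f : Basis κ F V) (I : Finset ι) (e : V) : Prop :=
  ∀ i ∈ I, ∀ i' ∈ I, -(a i + a i') ∈ Dset (Tset f) → -(a i + a i') = e

/-- A special class. -/
structure Spec (a : Basis ι F V) (f : Basis κ F V) (j : κ) (I : Finset ι) (C : Finset κ)
    (χ : V →ₗ[F] F) (l : κ) : Prop where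
  nj : j ∉ C
  supp : ∀ m, χ (f m) ≠ 0 ↔ m ∈ C
  van : ∀ x, (∀ i ∈ I, a.repr x i = 0) → χ x = 0
  cls : ∀ m ∈ C, ∀ m' ∈ C, ∀ i ∈ I, a.repr (χ (f m) • f m - χ (f m') • f m') i = 0
  mem : l ∈ C
  yon : ∀ m ∈ C, m ≠ l → ∀ i ∈ I, ∀ i' ∈ I, f.repr (a i) m = f.repr (a i') m

/-- The two edges produced by a special class. -/
def SP (a : Basis ι F V) (f : Basis κ F V) (j : κ) (I : Finset ι) (C : Finset κ)
    (χ : V →ₗ[F] F) : Prop :=
  ∃ e1 ∈ EE a f, ∃ e2 ∈ EE a f, f.repr e1 j = 1 ∧ f.repr e2 j = 1 ∧ χ e1 = 1 ∧ χ e2 = -1 ∧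
    (∃ m ∈ C, f.repr e1 m ≠ 0) ∧ (∃ m ∈ C, f.repr e2 m ≠ 0) ∧
    (∀ i ∈ I, a.repr (e1 + e2 + f j) i = 0) ∧
    (DH a I e1 ∨ NU a f I e1) ∧ (DH a I e2 ∨ NU a f I e2)

/-- Data available in the triangle case. -/
def SD (a : Basis ι F V) (f : Basis κ F V) (j : κ) (I : Finset ι) : Prop :=
  ∃ e1 ∈ EE a f, ∃ e2 ∈ EE a f, f.repr e1 j = 1 ∧ f.repr e2 j = 1 ∧ e1 ≠ f j ∧
    (∀ i ∈ I, a.repr (e1 + e2 + f j) i = 0) ∧ DH a I e1 ∧
    (DH a I e2 ∨ ∃ b ∈ I, ∃ c ∈ I, b ≠ c ∧ e2 = -(a b + a c) ∧ NU a f I e2)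

/-- The configuration left when the support has two elements. -/
structure Q2 [Fintype ι] [DecidableEq ι] (a : Basis ι F V) (f : Basis κ F V) (j : κ)
    (i1 i2 : ι) (y : κ) (s0 fw : V) : Prop where
  tc : Tc a f
  ne : i1 ≠ i2
  hI : ∀ i, f.repr (a i) j = if i = i1 ∨ i = i2 then 1 else 0
  hK : ∀ l, l ≠ j → a.repr (f l) i1 ≠ -1
  x1 : a.repr (f j) i1 = -1
  x2 : a.repr (f j) i2 = -1
  yj : y ≠ j
  hy : a.repr (f y) i1 = 1
  s0T : s0 ∈ Tset f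
  s0ne : s0 ≠ 0
  s01 : a.repr s0 i1 = 0
  s0j : f.repr s0 j = 0
  fwT : fw ∈ Tset f
  fwne : fw ≠ 0
  fw1 : a.repr fw i1 = 0
  fwj : f.repr fw j = 0
  hd : a i1 - a i2 = f y - fw
  hn : -(a i1 + a i2) = f j + s0
  he1 : ∃ l, l ≠ j ∧ a.repr (f l) i1 = 1 ∧ f j - f l ∈ Dset (Tset a)
  he2 : ∃ l, l ≠ j ∧ a.repr (f l) i1 = 1 ∧ f j + f l ∈ Dset (Tset a)

/-- Edges inside `K`. -/
def EK (a : Basis ι F V) (f : Basis κ F V) (j : κ) (i1 : ι) : Set V :=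
  {e | e ∈ EE a f ∧ a.repr e i1 = 0 ∧ ∀ l, f.repr e l ≠ 0 → l ≠ j ∧ a.repr (f l) i1 ≠ 0}

/-- Edges inside `Z`. -/
def EZ (a : Basis ι F V) (f : Basis κ F V) (j : κ) (i1 : ι) : Set V :=
  {e | e ∈ EE a f ∧ ∀ l, f.repr e l ≠ 0 → l ≠ j ∧ a.repr (f l) i1 = 0}

/-- Two families of edges outside `M` whose cells form rings. -/
structure Rings (b : Basis κ F V) (M : Set κ) (E1 E2 : Set V) (χ : ρ → V →ₗ[F] F)
    (ψ : ρ' → V →ₗ[F] F) : Prop where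
  d1 : E1 ⊆ Dset (Tset b)
  d2 : E2 ⊆ Dset (Tset b)
  o1 : ∀ e ∈ E1, ∀ m ∈ M, b.repr e m = 0
  o2 : ∀ e ∈ E2, ∀ m ∈ M, b.repr e m = 0
  dir : span F E1 ⊓ span F E2 = ⊥
  c1 : Cells b (span F E1 ⊔ span F (b '' M)) χ
  c2 : Cells b (span F E2 ⊔ span F (b '' M)) ψ
  z1 : ∀ l, l ∉ M → ∃ q, χ q (b l) ≠ 0
  z2 : ∀ l, l ∉ M → ∃ q, ψ q (b l) ≠ 0
  s1 : ∀ q, Big b (span F E1) χ q →
    {l | χ q (b l) ≠ 0 ∧ l ∈ Shd b (span F E1) (span F E2)}.ncard = 2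
  s2 : ∀ q, Big b (span F E2) ψ q →
    {l | ψ q (b l) ≠ 0 ∧ l ∈ Shd b (span F E1) (span F E2)}.ncard = 2

/-! ### The quad -/

/-- The abstract quad configuration. -/
structure Qd (A B : Set V) (U : Submodule F V) (α1 α2 : V →ₗ[F] F) (a1 a2 θ θ' : V) :
    Prop where
  frA : IsFrame A
  frB : IsFrame B
  memU : ∀ x, x ∈ U ↔ α1 x = 0 ∧ α2 x = 0
  h11 : α1 a1 = 1
  h12 : α1 a2 = 0
  h21 : α2 a1 = 0
  h22 : α2 a2 = 1
  θU : θ ∈ U
  θU' : θ' ∈ U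
  ind : ∀ c c' : F, c • θ + c' • θ' = 0 → c = 0 ∧ c' = 0
  hA : ∀ x, x ∈ A ↔ (x ∈ A ∧ x ∈ U) ∨ x = a1 ∨ x = -a1 ∨ x = a2 ∨ x = -a2
  hB : ∀ x, x ∈ B ↔ (x ∈ B ∧ x ∈ U) ∨ x = -(a1 + a2) - (θ + θ') ∨ x = a1 + a2 + (θ + θ') ∨
    x = a1 - a2 + (θ - θ') ∨ x = -(a1 - a2 + (θ - θ'))
  θA : θ ∈ A
  θA' : θ' ∈ A
  sB : θ + θ' ∈ B
  wB : θ - θ' ∈ B

/-- The four points of the line of the quad. -/
def qpt (θ θ' : V) : Fin 4 → V := ![θ, θ', θ + θ', θ - θ']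

/-- Coefficients (on `a1, a2, θ, θ'`) of the new joints of a lifted frame. -/
def qtab : Fin 4 → Fin 4 → Fin 4 → F :=
  ![![![0, 0, 0, 0], ![1, 0, 0, 0], ![1, -1, -1, 0], ![1, 1, -1, 0]],
    ![![0, 1, 0, 0], ![0, 0, 0, 0], ![-1, 1, 0, -1], ![1, 1, 0, -1]],
    ![![0, 1, -1, 0], ![1, 0, 0, -1], ![0, 0, 0, 0], ![-1, -1, -1, -1]],
    ![![0, 1, 1, 0], ![-1, 0, 0, -1], ![1, -1, 1, -1], ![0, 0, 0, 0]]]

/-- Lift of a frame of `U` to a frame of `V`. -/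
def QL (U : Submodule F V) (a1 a2 θ θ' : V) (G : Set ↥U) : Set V :=
  {x | (∃ z ∈ G, x = (z : V)) ∨ ∃ w w' : Fin 4, w ≠ w' ∧
    (∃ z ∈ G, qpt θ θ' w = (z : V)) ∧ (∃ z ∈ G, qpt θ θ' w' = (z : V)) ∧
    (x = qtab w w' 0 • a1 + qtab w w' 1 • a2 + qtab w w' 2 • θ + qtab w w' 3 • θ' ∨
     x = -(qtab w w' 0 • a1 + qtab w w' 1 • a2 + qtab w w' 2 • θ + qtab w w' 3 • θ'))}

/-! ### The case where all coefficients are nonzero -/

/-- Nonzero joints. -/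
def Gm (a : Basis ι F V) : Set V := {x | x ∈ Tset a ∧ x ≠ 0}

def Adj (f : Basis κ F V) (x y : V) : Prop := x ≠ y ∧ x - y ∈ Dset (Tset f)

/-- Coordinates where two vectors differ. -/
noncomputable def Df [Fintype κ] (f : Basis κ F V) (x y : V) : Finset κ :=
  Finset.univ.filter fun l => f.repr x l ≠ f.repr y l

/-- No vertex star is a star plus one edge on the other side. -/
def NC (a : Basis ι F V) (f : Basis κ F V) : Prop :=
  ∀ i c, ∃ e ∈ EE a f, ∃ e' ∈ EE a f, e ≠ e' ∧ a.repr e i = 1 ∧ a.repr e' i = 1 ∧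
    f.repr e c = 0 ∧ f.repr e' c = 0

structure Af [Fintype ι] [Fintype κ] (a : Basis ι F V) (f : Basis κ F V) : Prop where
  eight : 8 ≤ Fintype.card ι
  spans : Spans (EE a f)
  full : ∀ i l, f.repr (a i) l ≠ 0
  fullT : ∀ i l, a.repr (f l) i ≠ 0
  even : ∀ x ∈ Gm a, ∀ y ∈ Gm a, Even (Df f x y).card
  conn : ∀ S : Finset ι, S.Nonempty → S ≠ Finset.univ →
    ∃ i ∈ S, ∃ i', i' ∉ S ∧ (Adj f (a i) (a i') ∨ Adj f (a i) (-a i'))
  nc : NC a f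
  nct : NC f a

/-- A shortest path between antipodal joints, extended periodically. -/
structure Geo (a : Basis ι F V) (f : Basis κ F V) (x : ℤ → V) (L : ℕ) : Prop where
  pos : 0 < L
  mem : ∀ s, x s ∈ Gm a
  adj : ∀ s, Adj f (x s) (x (s + 1))
  anti : ∀ s, x (s + L) = -x s
  d0 : ∀ s r : ℤ, 0 < r → r < 2 * L → x (s + r) ≠ x s
  d1 : ∀ s r : ℤ, 2 ≤ r → r ≤ 2 * L - 2 → ¬ Adj f (x s) (x (s + r))
  d2 : ∀ s r : ℤ, ∀ y ∈ Gm a, 3 ≤ r → r ≤ 2 * L - 3 → Adj f y (x s) → ¬ Adj f y (x (s + r))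

structure Gq [Fintype ι] [Fintype κ] (a : Basis ι F V) (f : Basis κ F V) (x : ℤ → V) (L : ℕ)
    (χ : ρ → V →ₗ[F] F) : Prop where
  af : Af a f
  geo : Geo a f x L
  cells : Cells f (span F (Set.range x)) χ

/-- Joints off the geodesic. -/
def Off (a : Basis ι F V) (x : ℤ → V) (y : V) : Prop := y ∈ Gm a ∧ ∀ s, y ≠ x s

/-- At most two nonzero entries. -/
def Wt2 [Fintype ρ] (v : ρ → F) : Prop := (Finset.univ.filter fun q => v q ≠ 0).card ≤ 2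

/-- Link between two rows of a matrix. -/
def Lk [Fintype ρ] (M : ι → ρ → F) (p p' : ι) : Prop :=
  p ≠ p' ∧ (Wt2 (M p - M p') ∨ Wt2 (M p + M p'))

/-- A square matrix with a two-sided inverse all of whose entries are nonzero. -/
structure OF [Fintype ι] [DecidableEq ι] [Fintype ρ] [DecidableEq ρ] (M : ι → ρ → F)
    (N : ρ → ι → F) : Prop where
  mn : ∀ p p', ∑ q, M p q * N q p' = if p = p' then 1 else 0
  nm : ∀ q q', ∑ p, N q p * M p q' = if q = q' then 1 else 0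
  full : ∀ q p, N q p ≠ 0

/-- `y` is mixed on the pair flipped by step `s`. -/
def Mx (f : Basis κ F V) (x : ℤ → V) (A B : ℤ → κ) (y : V) (s : ℤ) : Prop :=
  f.repr y (A s) * f.repr (x s) (A s) ≠ f.repr y (B s) * f.repr (x s) (B s)

/-- The situation where every coordinate is flipped exactly once. -/
structure Kc [Fintype ι] [Fintype κ] [DecidableEq κ] (a : Basis ι F V) (f : Basis κ F V)
    (x : ℤ → V) (L : ℕ) (A B : ℤ → κ) : Prop where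
  af : Af a f
  geo : Geo a f x L
  four : 4 ≤ L
  card : Fintype.card ι = 2 * L
  step : ∀ s, Df f (x s) (x (s + 1)) = {A s, B s}
  ab : ∀ s t, A s ≠ B t
  perA : ∀ s t, A s = A t ↔ (L : ℤ) ∣ s - t
  perB : ∀ s t, B s = B t ↔ (L : ℤ) ∣ s - t
  cover : ∀ l, ∃ s, l = A s ∨ l = B s
  two : ∀ y, Off a x y → ∃ s t : ℤ, ¬ (L : ℤ) ∣ s - t ∧
    ∀ r, Mx f x A B y r ↔ ((L : ℤ) ∣ r - s ∨ (L : ℤ) ∣ r - t)
  cell : ∀ s, ∃ i i', i ≠ i' ∧ ∀ m, Mx f x A B (a m) s ↔ (m = i ∨ m = i')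
  closed : ∀ S : Set ι, (∀ i ∈ S, Off a x (a i)) → S.Nonempty →
    (∃ i, i ∉ S ∧ Off a x (a i)) → ∃ s, ∃ i ∈ S, ∃ i', i' ∉ S ∧
      Mx f x A B (a i) s ∧ Mx f x A B (a i') s
  link : ∀ y y', Off a x y → Off a x y' → Adj f y y' →
    ∃ s, Mx f x A B y s ∧ Mx f x A B y' s ∧
      ∀ r, Mx f x A B y r → Mx f x A B y' r → (L : ℤ) ∣ r - s
  reach : ∀ y, Off a x y → ∀ s, Mx f x A B y s → ∀ c, (c = A s ∨ c = B s) →
    ∃ z ∈ Gm a, Adj f y z ∧ c ∈ Df f y z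
  cyc : ∀ y, Off a x y → ∃ s, Adj f y (x s)

/-- `y` has exactly one neighbour `x t` on the geodesic. -/
def Ty1 (a : Basis ι F V) (f : Basis κ F V) (x : ℤ → V) (y : V) (t : ℤ) : Prop :=
  Off a x y ∧ Adj f y (x t) ∧ ¬ Adj f y (x (t - 1)) ∧ ¬ Adj f y (x (t + 1))

/-- Local structure at a joint of type one: `g, g'` is the pair of step `t + 1`,
`h, h'` the pair of step `t - 2`; the links flip `g', m` and `h', m'`. -/
def Loc1 [Fintype κ] [DecidableEq κ] (a : Basis ι F V) (f : Basis κ F V) (x : ℤ → V)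
    (A B : ℤ → κ) (y : V) (t u u' : ℤ) : Prop :=
  ∃ g g' h h' m m' : κ, ∃ y' y'' : V, ({g, g'} : Finset κ) = {A (t + 1), B (t + 1)} ∧
    ({h, h'} : Finset κ) = {A (t - 2), B (t - 2)} ∧ Df f y (x t) = {g, h} ∧
    Off a x y' ∧ Off a x y'' ∧ Df f y y' = {g', m} ∧ Df f y y'' = {h', m'} ∧
    (m = A u ∨ m = B u) ∧ (m' = A u' ∨ m' = B u')

end defs

end Pool.Agent.P.MP_053557_co
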