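import Mathlib

/-! Whitney twists of bipartite parts keep a graph 2-connected, far from bipartite and free of
the shape needed for a rotation. -/

set_option autoImplicit false

namespace Pool.Agent.P.MP_053557_co.FB

variable {V E : Type}

/-- `H` arises from `G` by a Whitney twist of a bipartite part: all edges meeting `K` have their
ends in `K`, `x`, `y` and are properly coloured by `c`; on these edges `x` and `y` are exchanged,
and the other edges are kept. -/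
def Twist [DecidableEq V] (G H : E → Sym2 V) : Prop :=
  ∃ (K : Set V) (x y : V) (c : V → Bool), x ∉ K ∧ y ∉ K ∧
    ∀ e, (H e = G e ∧ ∀ v ∈ G e, v ∉ K) ∨
      ∃ a b, a ∈ K ∧ (b ∈ K ∨ b = x ∨ b = y) ∧ c a ≠ c b ∧ G e = s(a, b) ∧
        H e = s(a, Equiv.swap x y b)

/-- adjacency -/
def Ad (G : E → Sym2 V) (a b : V) : Prop := a ≠ b ∧ ∃ e, G e = s(a, b)

theorem Ad.symm {G : E → Sym2 V} {a b : V} (h : Ad G a b) : Ad G b a :=
  ⟨h.1.symm, h.2.imp fun _ he => he.trans Sym2.eq_swap⟩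

/-- `W` spans a bipartite graph -/
def Bip (A : V → V → Prop) (W : Set V) : Prop :=
  ∃ c : V → Bool, ∀ a ∈ W, ∀ b ∈ W, A a b → c a ≠ c b

theorem Bip.mono {A : V → V → Prop} {W W' : Set V} (h : Bip A W) (hW : ∀ v ∈ W', v ∈ W) :
    Bip A W' := h.imp fun _ hc a ha b hb => hc a (hW a ha) b (hW b hb)

/-- the neighbours of `B` lie in `B` or `Z` -/
def Cl (A : V → V → Prop) (Z B : Set V) : Prop := ∀ a ∈ B, ∀ b, A a b → b ∈ B ∨ b ∈ Z

structure G2 (A : V → V → Prop) : Prop where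
  c2 : ∀ z (B : Set V), z ∉ B → Cl A {z} B → B.Nonempty → ∀ v, v ≠ z → v ∈ B
  far : ∀ p q, ¬ Bip A {v | v ≠ p ∧ v ≠ q}

/-- the shape needed for a rotation at `z` -/
def Rot (A : V → V → Prop) : Prop :=
  ∃ (z : V) (J : Set V) (τ : V → V), z ∉ J ∧ Bip A J ∧ Bip A Jᶜ ∧
    ∀ a, a ∉ J → a ≠ z → ∀ b, A a b → (b ∈ J → b = τ a) ∧ (b ∉ J → b ≠ z → τ b = τ a)

variable {A A' : V → V → Prop}

theorem G2.big (g : G2 A) {Z B : Set V} (hZ : Z.Subsingleton) (hd : ∀ v ∈ B, v ∉ Z)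
    (hc : Cl A Z B) (hB : B.Nonempty) : ∃ w, ∀ v, v ≠ w → v ∈ B := by
  by_cases h : ∃ z, z ∈ Z
  · obtain ⟨z, hz⟩ := h
    exact ⟨z, g.c2 z B (fun h => hd z h hz)
      (fun a ha b hab => (hc a ha b hab).imp id fun h => hZ h hz) hB⟩
  · by_cases h' : ∃ z, z ∉ B
    · obtain ⟨z, hz⟩ := h'
      exact ⟨z, g.c2 z B hz (fun a ha b hab => (hc a ha b hab).imp id fun h1 => (h ⟨b, h1⟩).elim) hB⟩
    · obtain ⟨b, -⟩ := hB
      exact ⟨b, fun v _ => by_contra fun hv => h' ⟨v, hv⟩⟩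

theorem G2.small (g : G2 A) {Z B : Set V} (hZ : Z.Subsingleton) (hd : ∀ v ∈ B, v ∉ Z)
    (hc : Cl A Z B) (hb : Bip A B) : ∀ v, v ∉ B := fun v hv => by
  obtain ⟨w, hw⟩ := g.big hZ hd hc ⟨v, hv⟩
  exact g.far w w (hb.mono fun v hv => hw v hv.1)

/-- a twist on the level of adjacency relations -/
structure Tw (A A' : V → V → Prop) (K : Set V) (x y : V) (c c' : V → Bool) : Prop where
  sy : ∀ a b, A a b → A b a
  sy' : ∀ a b, A' a b → A' b a
  ir : ∀ a, ¬ A a a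
  ir' : ∀ a, ¬ A' a a
  hx : x ∉ K
  hy : y ∉ K
  cc : ∀ a ∈ K, c' a = c a
  cx : c' x = c y
  cy : c' y = c x
  inn : ∀ a ∈ K, ∀ b, A a b → (b ∈ K ∨ b = x ∨ b = y) ∧ c a ≠ c b
  inn' : ∀ a ∈ K, ∀ b, A' a b → (b ∈ K ∨ b = x ∨ b = y) ∧ c' a ≠ c' b
  kk : ∀ a ∈ K, ∀ b ∈ K, A' a b ↔ A a b
  kx : ∀ a ∈ K, A' a x ↔ A a y
  ky : ∀ a ∈ K, A' a y ↔ A a x
  oo : ∀ a, a ∉ K → ∀ b, b ∉ K → (A' a b ↔ A a b)

variable {K : Set V} {x y : V} {c c' : V → Bool}

theorem Tw.swap (t : Tw A A' K x y c c') : Tw A A' K y x c c' :=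
  ⟨t.sy, t.sy', t.ir, t.ir', t.hy, t.hx, t.cc, t.cy, t.cx,
    fun a ha b h => ⟨(t.inn a ha b h).1.imp id Or.symm, (t.inn a ha b h).2⟩,
    fun a ha b h => ⟨(t.inn' a ha b h).1.imp id Or.symm, (t.inn' a ha b h).2⟩,
    t.kk, t.ky, t.kx, t.oo⟩

theorem Tw.symm (t : Tw A A' K x y c c') : Tw A' A K x y c' c :=
  ⟨t.sy', t.sy, t.ir', t.ir, t.hx, t.hy, fun a ha => (t.cc a ha).symm, t.cy.symm, t.cx.symm,
    t.inn', t.inn, fun a ha b hb => (t.kk a ha b hb).symm, fun a ha => (t.ky a ha).symm,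
    fun a ha => (t.kx a ha).symm, fun a ha b hb => (t.oo a ha b hb).symm⟩

theorem Tw.f0 (t : Tw A A' K x y c c') (g : G2 A) {B : Set V} {w : V} (hB : ∀ v ∈ B, v ∈ K)
    (hw : w ∉ B) (hc : Cl A {w} B) : ∀ v, v ∉ B :=
  g.small Set.subsingleton_singleton (fun v hv e => hw (by rwa [← e])) hc
    ⟨c, fun a ha b _ h => (t.inn a (hB a ha) b h).2⟩

theorem Tw.f1 (t : Tw A A' K x y c c') (g : G2 A) {β : Type} (D : V → β) (d : β)
    (h1 : ∀ a ∈ K, ∀ b ∈ K, A a b → D a = D b) (h2 : ∀ a ∈ K, A a x → D a = d) :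
    ∀ a ∈ K, D a = d := fun a ha => by
  by_contra hc
  refine t.f0 g (B := {a | a ∈ K ∧ D a ≠ d}) (w := y) (fun _ h => h.1) (fun h => t.hy h.1)
    (fun a ha b hab => ?_) a ⟨ha, hc⟩
  rcases (t.inn a ha.1 b hab).1 with h | rfl | rfl
  · exact Or.inl ⟨h, h1 a ha.1 b h hab ▸ ha.2⟩
  · exact (ha.2 (h2 a ha.1 hab)).elim
  · exact Or.inr rfl

theorem Tw.ne (t : Tw A A' K x y c c') (g : G2 A) (hK : K.Nonempty) : x ≠ y := by
  rintro rfl
  obtain ⟨a, ha⟩ := hK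
  refine t.f0 g (B := K) (w := x) (fun _ h => h) t.hx (fun a ha b hab => ?_) a ha
  rcases (t.inn a ha b hab).1 with h | h | h
  · exact Or.inl h
  · exact Or.inr h
  · exact Or.inr h

theorem Tw.ext (t : Tw A A' K x y c c') {W : Set V} {S : V → Bool}
    (hS : ∀ a ∈ W, ∀ b ∈ W, a ∉ K → b ∉ K → A a b → S a ≠ S b)
    (h : x ∈ W → y ∈ W → xor (c x) (S x) = xor (c y) (S y)) : Bip A W := by
  classical
  obtain ⟨δ, h1, h2⟩ : ∃ δ : Bool, (x ∈ W → δ = xor (c x) (S x)) ∧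
      (y ∈ W → δ = xor (c y) (S y)) := by
    by_cases hx : x ∈ W
    · exact ⟨_, fun _ => rfl, h hx⟩
    · exact ⟨_, fun h => (hx h).elim, fun _ => rfl⟩
  have key : ∀ a ∈ K, ∀ b ∈ W, b ∉ K → A a b → xor (c a) δ ≠ S b := fun a ha b hb hb' hab => by
    obtain ⟨h3, h4⟩ := t.inn a ha b hab
    rcases h3 with h3 | rfl | rfl
    · exact (hb' h3).elim
    · rw [h1 hb]
      revert h4
      cases c a <;> cases c b <;> cases S b <;> simp
    · rw [h2 hb]
      revert h4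
      cases c a <;> cases c b <;> cases S b <;> simp
  refine ⟨fun v => if v ∈ K then xor (c v) δ else S v, fun a ha b hb hab => ?_⟩
  by_cases h3 : a ∈ K <;> by_cases h4 : b ∈ K <;> simp only [h3, h4, if_true, if_false]
  · have := (t.inn a h3 b hab).2
    revert this
    cases c a <;> cases c b <;> cases δ <;> simp
  · exact key a h3 b hb h4 hab
  · exact (key b h4 a ha h3 (t.sy _ _ hab)).symm
  · exact hS a ha b hb h3 h4 hab

theorem Tw.tb (t : Tw A A' K x y c c') {W : Set V} (h : Bip A' W) : Bip A W := by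
  classical
  obtain ⟨S, hS⟩ := h
  by_cases hW : x ∈ W → y ∈ W → xor (c x) (S x) = xor (c y) (S y)
  · exact t.ext (S := S) (fun a ha b hb h1 h2 hab => hS a ha b hb ((t.oo a h1 b h2).2 hab)) hW
  rw [Classical.not_imp, Classical.not_imp] at hW
  obtain ⟨hx, hy, hW⟩ := hW
  have key : ∀ a ∈ K, a ∈ W → ∀ b, b ∉ K → A a b → (if xor (c a) (S a) = xor (c x) (S y) then
      xor (c a) (xor (c x) (S x)) else xor (c a) (xor (c y) (S y))) ≠ S b := by
    intro a ha ha' b hb hab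
    obtain ⟨h3, h4⟩ := t.inn a ha b hab
    rcases h3 with h3 | rfl | rfl
    · exact (hb h3).elim
    · have h1 := hS a ha' y hy ((t.ky a ha).2 hab)
      revert h1 h4
      cases c a <;> cases c b <;> cases S a <;> cases S b <;> cases S y <;> simp
    · have h1 := hS a ha' x hx ((t.kx a ha).2 hab)
      revert h1 h4 hW
      cases c a <;> cases c b <;> cases S a <;> cases S b <;> cases S x <;> cases c x <;> simp
  refine ⟨fun v => if v ∈ K then (if xor (c v) (S v) = xor (c x) (S y) then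
    xor (c v) (xor (c x) (S x)) else xor (c v) (xor (c y) (S y))) else S v,
    fun a ha b hb hab => ?_⟩
  by_cases h3 : a ∈ K <;> by_cases h4 : b ∈ K <;> simp only [h3, h4, if_true, if_false]
  · have h1 := (t.inn a h3 b hab).2
    have h2 := hS a ha b hb ((t.kk a h3 b h4).2 hab)
    revert h1 h2
    generalize xor (c x) (S y) = p
    generalize xor (c x) (S x) = q
    generalize xor (c y) (S y) = r
    cases c a <;> cases c b <;> cases S a <;> cases S b <;> cases p <;> cases q <;> cases r <;> simp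
  · exact key a h3 ha b h4 hab
  · exact (key b h4 hb a h3 (t.sy _ _ hab)).symm
  · exact hS a ha b hb ((t.oo a h3 b h4).2 hab)

theorem Cl.compl (sy : ∀ a b, A a b → A b a) {Z B : Set V} (h : Cl A Z B) :
    Cl A Z {v | v ∉ B ∧ v ∉ Z} := fun a ha b hab => by
  by_cases h1 : b ∈ Z
  · exact Or.inr h1
  · exact Or.inl ⟨fun h2 => (h b h2 a (sy _ _ hab)).elim ha.1 ha.2, h1⟩

theorem Tw.hmem (t : Tw A A' K x y c c') (g : G2 A) {Z B : Set V} (hZ : ∀ a ∈ K, a ∉ Z)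
    (h : Cl A' Z B) (hy : y ∉ Z) : ∀ a ∈ K, (a ∈ B ↔ y ∈ B) := fun a ha => by
  have key : ∀ a b, a ∉ Z → b ∉ Z → A' a b → (a ∈ B) = (b ∈ B) := fun a b h1 h2 hab =>
    propext ⟨fun h3 => (h a h3 b hab).resolve_right h2,
      fun h3 => (h b h3 a (t.sy' _ _ hab)).resolve_right h1⟩
  exact (t.f1 g (fun v => v ∈ B) (y ∈ B)
    (fun a ha b hb hab => key a b (hZ a ha) (hZ b hb) ((t.kk a ha b hb).2 hab))
    (fun a ha hab => key a y (hZ a ha) hy ((t.ky a ha).2 hab)) a ha).to_iff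

theorem Tw.cl (t : Tw A A' K x y c c') (g : G2 A) {Z B : Set V} (hZ : ∀ a ∈ K, a ∉ Z)
    (hd : ∀ v ∈ B, v ∉ Z) (h : Cl A' Z B) : Cl A Z B := fun a ha b hab => by
  by_cases h1 : a ∈ K <;> by_cases h2 : b ∈ K
  · exact h a ha b ((t.kk a h1 b h2).2 hab)
  · by_cases h3 : b ∈ Z
    · exact Or.inr h3
    rcases (t.inn a h1 b hab).1 with h4 | rfl | rfl
    · exact (h2 h4).elim
    · exact Or.inl ((t.swap.hmem g hZ h h3 a h1).1 ha)
    · exact Or.inl ((t.hmem g hZ h h3 a h1).1 ha)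
  · rcases (t.inn b h2 a (t.sy _ _ hab)).1 with h4 | rfl | rfl
    · exact (h1 h4).elim
    · exact Or.inl ((t.swap.hmem g hZ h (hd _ ha) b h2).2 ha)
    · exact Or.inl ((t.hmem g hZ h (hd _ ha) b h2).2 ha)
  · exact h a ha b ((t.oo a h1 b h2).2 hab)

theorem Tw.out (t : Tw A A' K x y c c') (g : G2 A) (hK : K.Nonempty) {Z B : Set V}
    (hZ : (Z \ K).Subsingleton) (hd : ∀ v ∈ B, v ∉ Z) (h : Cl A' Z B) (hx : x ∉ B) (hy : y ∉ B) :
    ∀ v ∈ B, v ∈ K := fun v hv => by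
  by_contra hc
  obtain ⟨w, hw⟩ := g.big (B := B \ K) hZ (fun v hv h => hd v hv.1 h.1) (fun a ha b hab => by
    have h2 : b ∉ K := fun h2 => by
      rcases (t.inn b h2 a (t.sy _ _ hab)).1 with h4 | rfl | rfl
      · exact ha.2 h4
      · exact hx ha.1
      · exact hy ha.1
    exact (h a ha.1 b ((t.oo a ha.2 b h2).2 hab)).imp (fun h => ⟨h, h2⟩) fun h => ⟨h, h2⟩) ⟨v, hv, hc⟩
  have h1 : x = w := by_contra fun e => hx (hw x e).1
  have h2 : y = w := by_contra fun e => hy (hw y e).1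
  exact t.ne g hK (h1.trans h2.symm)

theorem Tw.cross (t : Tw A A' K x y c c') {Z B : Set V} (h : Cl A' Z B) (hx : x ∈ B)
    (hy : y ∉ B) (hy' : y ∉ Z) :
    Cl A Z {v | (v ∈ B ∧ v ∉ K) ∨ (v ∈ K ∧ v ∉ B ∧ v ∉ Z)} := fun a ha b hab => by
  by_cases h3 : b ∈ Z
  · exact Or.inr h3
  refine Or.inl ?_
  rcases ha with ha | ha
  · by_cases h2 : b ∈ K
    · refine Or.inr ⟨h2, fun h4 => ?_, h3⟩
      rcases (t.inn b h2 a (t.sy _ _ hab)).1 with h5 | rfl | rfl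
      · exact ha.2 h5
      · exact (h b h4 y ((t.ky b h2).2 (t.sy _ _ hab))).elim hy hy'
      · exact hy ha.1
    · exact Or.inl ⟨(h a ha.1 b ((t.oo a ha.2 b h2).2 hab)).resolve_right h3, h2⟩
  · rcases (t.inn a ha.1 b hab).1 with h5 | rfl | rfl
    · exact Or.inr ⟨h5, fun h4 => (h b h4 a (t.sy' _ _ ((t.kk a ha.1 b h5).2 hab))).elim
        ha.2.1 ha.2.2, h3⟩
    · exact Or.inl ⟨hx, t.hx⟩
    · exact ((h x hx a (t.sy' _ _ ((t.kx a ha.1).2 hab))).elim ha.2.1 ha.2.2).elim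

theorem Tw.c2a (t : Tw A A' K x y c c') (g : G2 A) (hK : K.Nonempty) {z : V} (hz : z ∈ K)
    {B : Set V} (hd : z ∉ B) (h : Cl A' {z} B) (hx : x ∉ B) (hy : y ∉ B) : ∀ v, v ∉ B := by
  have h1 := t.out g hK (Set.subsingleton_singleton.anti Set.sdiff_subset)
    (fun v hv e => hd (by rwa [← e])) h hx hy
  refine t.f0 g h1 hd fun a ha b hab => ?_
  rcases (t.inn a (h1 a ha) b hab).1 with h5 | rfl | rfl
  · exact h a ha b ((t.kk a (h1 a ha) b h5).2 hab)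
  · exact ((h a ha y ((t.ky a (h1 a ha)).2 hab)).elim hy fun e => t.hy (by rwa [e])).elim
  · exact ((h a ha x ((t.kx a (h1 a ha)).2 hab)).elim hx fun e => t.hx (by rwa [e])).elim

theorem Tw.c2b (t : Tw A A' K x y c c') (g : G2 A) {z : V} (hz : z ∈ K)
    {B : Set V} (h : Cl A' {z} B) (hx : x ∈ B) (hy : y ∉ B) : False := by
  have hy' : y ≠ z := fun e => t.hy (by rwa [e])
  rcases g.c2 z _ (fun h1 => h1.elim (fun h2 => h2.2 hz) fun h2 => h2.2.2 rfl)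
    (t.cross h hx hy hy') ⟨x, Or.inl ⟨hx, t.hx⟩⟩ y hy' with h1 | h1
  · exact hy h1.1
  · exact t.hy h1.1

theorem Tw.g2 (t : Tw A A' K x y c c') (g : G2 A) (hK : K.Nonempty) : G2 A' := by
  refine ⟨fun z B hd h hB v hv => ?_, fun p q h => g.far p q (t.tb h)⟩
  by_cases hz : z ∈ K
  · by_cases hx : x ∈ B <;> by_cases hy : y ∈ B
    · by_contra hc
      exact t.c2a g hK hz (fun h => h.2 rfl) (h.compl t.sy') (fun h => h.1 hx) (fun h => h.1 hy) v
        ⟨hc, hv⟩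
    · exact (t.c2b g hz h hx hy).elim
    · exact (t.swap.c2b g hz h hy hx).elim
    · obtain ⟨b, hb⟩ := hB
      exact (t.c2a g hK hz hd h hx hy b hb).elim
  · exact g.c2 z B hd (t.cl g (fun a ha e => hz (by rwa [← e]))
      (fun v hv e => hd (by rwa [← e])) h) hB v hv

theorem Tw.pc (t : Tw A A' K x y c c') {u z : V} {B : Set V} (h1 : u ∈ K)
    (hb : Bip A' (insert z B)) (hy : y ∉ B) : Bip A' (insert u B) := by
  obtain ⟨S, hS⟩ := hb
  refine t.symm.ext (S := S) (fun a ha b hb h2 h3 => hS a (Or.inr ?_) b (Or.inr ?_))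
    fun _ h2 => (h2.elim (fun e => t.hy (by rwa [e])) hy).elim
  · exact ha.resolve_left fun e => h2 (by rwa [e])
  · exact hb.resolve_left fun e => h3 (by rwa [e])

theorem Tw.pos (t : Tw A A' K x y c c') (g : G2 A) (hK : K.Nonempty) {u z : V} {B : Set V}
    (hu : u ∉ B) (hz : z ∉ B) (h : Cl A' {u, z} B) (hb : Bip A' (insert z B))
    (hn : ¬ Bip A' (insert u B)) (hk : u ∈ K ∨ z ∈ K) :
    u ∉ K ∧ ((x ∈ B ∧ y ∉ B) ∨ (y ∈ B ∧ x ∉ B)) := by
  classical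
  have g' := t.g2 g hK
  have hd : ∀ v ∈ B, v ∉ ({u, z} : Set V) := fun v hv e =>
    e.elim (fun e => hu (by rwa [← e])) fun e => hz (by rwa [← e])
  have hZ : (({u, z} : Set V) \ K).Subsingleton := by
    rintro a ⟨ha, ha'⟩ b ⟨hb, hb'⟩
    rcases hk with hk | hk
    · exact (ha.resolve_left fun e => ha' (by rwa [e])).trans
        (hb.resolve_left fun e => hb' (by rwa [e])).symm
    · exact (ha.resolve_right fun e => ha' (by rwa [e])).trans
        (hb.resolve_right fun e => hb' (by rwa [e])).symm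
  have h1 : ¬ (x ∉ B ∧ y ∉ B) := fun h1 => by
    have h2 := t.out g hK hZ hd h h1.1 h1.2
    refine hn ⟨c', fun a ha b hb hab => ?_⟩
    rcases ha with rfl | ha
    · rcases hb with rfl | hb
      · exact (t.ir' _ hab).elim
      · exact (t.inn' b (h2 b hb) _ (t.sy' _ _ hab)).2.symm
    · exact (t.inn' a (h2 a ha) b hab).2
  have h2 : ¬ (x ∈ B ∧ y ∈ B) := fun h2 => by
    have h3 := t.out g hK hZ (fun v hv => hv.2) (h.compl t.sy') (fun h => h.1 h2.1)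
      fun h => h.1 h2.2
    obtain ⟨S, hS⟩ := hb
    refine g'.far u z ⟨fun v => if v ∈ B then S v else c' v, fun a ha b hb hab => ?_⟩
    have ha' : a ∉ ({u, z} : Set V) := fun e => e.elim ha.1 ha.2
    have hb' : b ∉ ({u, z} : Set V) := fun e => e.elim hb.1 hb.2
    by_cases h4 : a ∈ B
    · have h5 := (h a h4 b hab).resolve_right hb'
      simp only [h4, h5, if_true]
      exact hS a (Or.inr h4) b (Or.inr h5) hab
    · have h5 : b ∉ B := fun h5 => (h b h5 a (t.sy' _ _ hab)).elim h4 ha'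
      simp only [h4, h5, if_false]
      exact (t.inn' a (h3 a ⟨h4, ha'⟩) b hab).2
  by_cases hx : x ∈ B
  · have hy : y ∉ B := fun hy => h2 ⟨hx, hy⟩
    exact ⟨fun hu' => hn (t.pc hu' hb hy), Or.inl ⟨hx, hy⟩⟩
  · exact ⟨fun hu' => hn (t.swap.pc hu' hb hx), Or.inr ⟨by_contra fun hy => h1 ⟨hx, hy⟩, hx⟩⟩

theorem Rot.norm (sy : ∀ a b, A a b → A b a) (g : G2 A) (h : Rot A) :
    ∃ (z : V) (J : Set V) (τ : V → V), z ∉ J ∧ Bip A J ∧ Bip A Jᶜ ∧
      ∀ a, a ∉ J → a ≠ z → (∀ b, A a b → (b ∈ J → b = τ a) ∧ (b ∉ J → b ≠ z → τ b = τ a)) ∧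
        τ a ∈ J ∧ ¬ Bip A (insert (τ a) {v | v ∉ J ∧ v ≠ z ∧ τ v = τ a}) := by
  classical
  obtain ⟨z, J, τ, hz, ⟨S, hS⟩, h2, h3⟩ := h
  have hτ : ∀ a, a ∉ J → a ≠ z → τ a ∈ J := fun a ha ha' => by
    by_contra hc
    refine g.small (Z := {z}) (B := {v | v ∉ J ∧ v ≠ z ∧ τ v = τ a}) Set.subsingleton_singleton
      (fun v hv => hv.2.1) (fun p hp q hpq => ?_) (h2.mono fun v hv => hv.1) a ⟨ha, ha', rfl⟩
    obtain ⟨k1, k2⟩ := h3 p hp.1 hp.2.1 q hpq
    have k3 : q ∉ J := fun k => hc (by rw [← hp.2.2, ← k1 k]; exact k)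
    by_cases k4 : q = z
    · exact Or.inr k4
    · exact Or.inl ⟨k3, k4, (k2 k3 k4).trans hp.2.2⟩
  have hd : ∀ u, ∃ d : V → Bool, Bip A (insert u {v | v ∉ J ∧ v ≠ z ∧ τ v = u}) →
      ∀ a ∈ insert u {v | v ∉ J ∧ v ≠ z ∧ τ v = u}, ∀ b ∈ insert u {v | v ∉ J ∧ v ≠ z ∧ τ v = u},
        A a b → d a ≠ d b := fun u => by
    by_cases k : Bip A (insert u {v | v ∉ J ∧ v ≠ z ∧ τ v = u})
    · exact k.imp fun _ hd _ => hd
    · exact ⟨S, fun k' => (k k').elim⟩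
  choose d hd using hd
  refine ⟨z, {v | v ∈ J ∨ (v ≠ z ∧ Bip A (insert (τ v) {w | w ∉ J ∧ w ≠ z ∧ τ w = τ v}))}, τ,
    fun h => h.elim hz fun h => h.1 rfl, ?_, h2.mono fun v hv h => hv (Or.inl h),
    fun a ha ha' => ?_⟩
  · have key : ∀ a, a ∉ J → a ≠ z → Bip A (insert (τ a) {w | w ∉ J ∧ w ≠ z ∧ τ w = τ a}) →
        ∀ b ∈ J, A a b → xor (d (τ a) a) (xor (d (τ a) (τ a)) (S (τ a))) ≠ S b := by
      intro a ha ha' k b hb hab
      obtain rfl := (h3 a ha ha' b hab).1 hb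
      have := hd _ k a (Or.inr ⟨ha, ha', rfl⟩) _ (Or.inl rfl) hab
      revert this
      cases d (τ a) a <;> cases d (τ a) (τ a) <;> cases S (τ a) <;> simp
    refine ⟨fun v => if v ∈ J then S v else xor (d (τ v) v) (xor (d (τ v) (τ v)) (S (τ v))),
      fun a ha b hb hab => ?_⟩
    by_cases k1 : a ∈ J <;> by_cases k2 : b ∈ J <;> simp only [k1, k2, if_true, if_false]
    · exact hS a k1 b k2 hab
    · have k3 := hb.resolve_left k2
      exact (key b k2 k3.1 k3.2 a k1 (sy _ _ hab)).symm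
    · have k3 := ha.resolve_left k1
      exact key a k1 k3.1 k3.2 b k2 hab
    · have k3 := ha.resolve_left k1
      have k4 := (hb.resolve_left k2).1
      have k5 := (h3 a k1 k3.1 b hab).2 k2 k4
      have := hd _ k3.2 a (Or.inr ⟨k1, k3.1, rfl⟩) b (Or.inr ⟨k2, k4, k5⟩) hab
      rw [k5]
      revert this
      cases d (τ a) a <;> cases d (τ a) b <;> cases d (τ a) (τ a) <;> cases S (τ a) <;> simp
  · have k1 : a ∉ J := fun h => ha (Or.inl h)
    have k2 : ¬ Bip A (insert (τ a) {w | w ∉ J ∧ w ≠ z ∧ τ w = τ a}) := fun h =>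
      ha (Or.inr ⟨ha', h⟩)
    refine ⟨fun b hab => ⟨fun hb => ?_, fun hb => (h3 a k1 ha' b hab).2 fun h => hb (Or.inl h)⟩,
      Or.inl (hτ a k1 ha'), fun h => k2 (h.mono fun v hv => ?_)⟩
    · by_cases k3 : b ∈ J
      · exact (h3 a k1 ha' b hab).1 k3
      · have k4 := hb.resolve_left k3
        exact (k2 ((h3 a k1 ha' b hab).2 k3 k4.1 ▸ k4.2)).elim
    · rcases hv with hv | hv
      · exact Or.inl hv
      · refine Or.inr ⟨fun h => h.elim hv.1 fun h => k2 ?_, hv.2⟩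
        have k5 := h.2
        rwa [hv.2.2] at k5

theorem Tw.rot1 (t : Tw A A' K x y c c') (g' : G2 A') {z : V} {J : Set V} {τ : V → V}
    (h1 : Bip A' J) (h2 : Bip A' Jᶜ)
    (h3 : ∀ a, a ∉ J → a ≠ z → ∀ b, A' a b → b ∈ J → b = τ a)
    (h4 : ∀ a, a ∉ J → a ≠ z → τ a = τ y) : False := by
  classical
  obtain ⟨S, hS⟩ := h1
  obtain ⟨S', hS'⟩ := h2
  refine g'.far (τ y) z ⟨fun v => if v ∈ J then S v else S' v, fun a ha b hb hab => ?_⟩
  by_cases k1 : a ∈ J <;> by_cases k2 : b ∈ J <;> simp only [k1, k2, if_true, if_false]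
  · exact hS a k1 b k2 hab
  · exact (ha.1 ((h3 b k2 hb.2 a (t.sy' _ _ hab) k1).trans (h4 b k2 hb.2))).elim
  · exact (hb.1 ((h3 a k1 ha.2 b hab k2).trans (h4 a k1 ha.2))).elim
  · exact hS' a k1 b k2 hab

theorem Tw.rot (t : Tw A A' K x y c c') (g : G2 A) (hK : K.Nonempty) (h : Rot A') : Rot A := by
  classical
  have g' := t.g2 g hK
  obtain ⟨z, J, τ, hz, h1, h2, h3⟩ := h.norm t.sy' g'
  have cl : ∀ a, a ∉ J → a ≠ z → Cl A' {τ a, z} {v | v ∉ J ∧ v ≠ z ∧ τ v = τ a} := by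
    intro a _ _ p hp q hpq
    obtain ⟨k1, k2⟩ := (h3 p hp.1 hp.2.1).1 q hpq
    by_cases k3 : q ∈ J
    · exact Or.inr (Or.inl ((k1 k3).trans hp.2.2))
    by_cases k4 : q = z
    · exact Or.inr (Or.inr k4)
    · exact Or.inl ⟨k3, k4, (k2 k3 k4).trans hp.2.2⟩
  have pos := fun a ha ha' => t.pos g hK (fun h => h.1 (h3 a ha ha').2.1) (fun h => h.2.1 rfl)
    (cl a ha ha') (h2.mono fun v hv => hv.elim (fun e => e ▸ hz) fun h => h.1) (h3 a ha ha').2.2
  by_cases hzK : z ∈ K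
  · have hxJ : x ∉ J := fun hx => t.rot1 g' h1 h2 (fun a ha ha' b hab => ((h3 a ha ha').1 b hab).1)
      fun a ha ha' => ((pos a ha ha' (Or.inr hzK)).2.resolve_left fun h => h.1.1 hx).1.2.2.symm
    have hyJ : y ∉ J := fun hy => t.swap.rot1 g' h1 h2
      (fun a ha ha' b hab => ((h3 a ha ha').1 b hab).1)
      fun a ha ha' => ((pos a ha ha' (Or.inr hzK)).2.resolve_right fun h => h.1.1 hy).1.2.2.symm
    have hxz : x ≠ z := fun e => t.hx (e ▸ hzK)
    have hyz : y ≠ z := fun e => t.hy (e ▸ hzK)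
    have hne : τ y ≠ τ x := fun e => (pos x hxJ hxz (Or.inr hzK)).2.elim
      (fun h => h.2 ⟨hyJ, hyz, e⟩) fun h => h.2 ⟨hxJ, hxz, rfl⟩
    have nb : ∀ a ∈ K, a ∈ J → ∀ b, A' a b → b ∈ J ∨ b = z := fun a ha ha' b hab => by
      by_contra hc
      rw [not_or] at hc
      exact (pos b hc.1 hc.2 (Or.inr hzK)).1 (((h3 b hc.1 hc.2).1 a (t.sy' _ _ hab)).1 ha' ▸ ha)
    have hM : ∀ a ∈ K, a ∉ J := fun a ha ha' => by
      refine t.f0 g (B := {v | v ∈ K ∧ v ∈ J}) (w := z) (fun _ h => h.1) (fun h => hz h.2)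
        (fun p hp q hpq => ?_) a ⟨ha, ha'⟩
      rcases (t.inn p hp.1 q hpq).1 with k | rfl | rfl
      · exact (nb p hp.1 hp.2 q ((t.kk p hp.1 q k).2 hpq)).imp (fun h => ⟨k, h⟩) id
      · exact ((nb p hp.1 hp.2 y ((t.ky p hp.1).2 hpq)).elim hyJ hyz).elim
      · exact ((nb p hp.1 hp.2 x ((t.kx p hp.1).2 hpq)).elim hxJ hxz).elim
    obtain ⟨σ, s1, s2⟩ : ∃ σ : V → V, (∀ a ∈ K, σ a = if τ a = τ x then τ y else τ x) ∧
        ∀ a, a ∉ K → σ a = τ a :=
      ⟨fun a => if a ∈ K then (if τ a = τ x then τ y else τ x) else τ a,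
        fun a ha => if_pos ha, fun a ha => if_neg ha⟩
    have key : ∀ a ∈ K, a ≠ z → ∀ b, A a b → b ∉ J ∧ (b ≠ z → σ b = σ a) := by
      intro a ha ha' b hab
      have k0 := (h3 a (hM a ha) ha').1
      rcases (t.inn a ha b hab).1 with k | rfl | rfl
      · exact ⟨hM b k, fun hb => by
          rw [s1 a ha, s1 b k, (k0 b ((t.kk a ha b k).2 hab)).2 (hM b k) hb]⟩
      · exact ⟨hxJ, fun _ => by
          rw [s1 a ha, s2 _ t.hx, ← (k0 y ((t.ky a ha).2 hab)).2 hyJ hyz, if_neg hne]⟩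
      · exact ⟨hyJ, fun _ => by
          rw [s1 a ha, s2 _ t.hy, ← (k0 x ((t.kx a ha).2 hab)).2 hxJ hxz, if_pos rfl]⟩
    refine ⟨z, J, σ, hz, t.tb h1, t.tb h2, fun a ha ha' b hab => ?_⟩
    by_cases k1 : a ∈ K
    · exact ⟨fun hb => ((key a k1 ha' b hab).1 hb).elim, fun _ => (key a k1 ha' b hab).2⟩
    by_cases k2 : b ∈ K
    · exact ⟨fun hb => (hM b k2 hb).elim,
        fun _ hb => ((key b k2 hb a (t.sy _ _ hab)).2 ha').symm⟩
    · rw [s2 a k1, s2 b k2]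
      exact (h3 a ha ha').1 b ((t.oo a k1 b k2).2 hab)
  · refine ⟨z, J, τ, hz, t.tb h1, t.tb h2, fun a ha ha' b hab => ?_⟩
    have k1 : τ a ∉ K := fun k => (pos a ha ha' (Or.inl k)).1 k
    rcases t.cl g (fun v hv e => e.elim (fun e => k1 (e ▸ hv)) fun e => hzK (e ▸ hv))
      (fun v hv e => e.elim (fun e => hv.1 (e ▸ (h3 a ha ha').2.1)) hv.2.1) (cl a ha ha') a
      ⟨ha, ha', rfl⟩ b hab with k | k | k
    · exact ⟨fun hb => (k.1 hb).elim, fun _ _ => k.2.2⟩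
    · exact ⟨fun _ => k, fun hb => (hb (k ▸ (h3 a ha ha').2.1)).elim⟩
    · exact ⟨fun hb => (hz (k ▸ hb)).elim, fun _ hb => (hb k).elim⟩

/-- no small set of vertices meets the odd cycles often -/
def Ex [DecidableEq V] (A : V → V → Prop) : Prop :=
  ¬ ∃ (k : ℕ) (X Z : Finset V), k ≤ 3 ∧ X.card ≤ 2 * k ∧ Z ⊆ X ∧ Z.card ≤ 3 ∧
    Bip A (Z : Set V)ᶜ ∧ ∀ Y ⊆ X, Y.card < k → Bip A ((X \ Y : Finset V) : Set V)ᶜ

theorem Tw.ex [DecidableEq V] (t : Tw A A' K x y c c') (h : Ex A) : Ex A' :=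
  fun ⟨k, X, Z, h1, h2, h3, h4, h5, h6⟩ =>
    h ⟨k, X, Z, h1, h2, h3, h4, t.tb h5, fun Y hY hk => t.tb (h6 Y hY hk)⟩

/-- the three hypotheses together -/
def Good [DecidableEq V] (G : E → Sym2 V) : Prop := G2 (Ad G) ∧ ¬ Rot (Ad G) ∧ Ex (Ad G)

theorem Twist.good [DecidableEq V] {G H : E → Sym2 V} (h : Twist G H) (g : Good G) : Good H := by
  obtain ⟨K, x, y, c, hx, hy, h⟩ := h
  rcases K.eq_empty_or_nonempty with rfl | hK
  · have : H = G := funext fun e => (h e).elim (fun h => h.1) fun ⟨_, _, h, _⟩ => h.elim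
    rwa [this]
  have sk : ∀ a ∈ K, Equiv.swap x y a = a := fun a ha =>
    Equiv.swap_apply_of_ne_of_ne (fun e => hx (by rwa [← e])) fun e => hy (by rwa [← e])
  have sk' : ∀ a, Equiv.swap x y a ∈ K → a ∈ K := fun a ha => by
    have := sk _ ha
    rw [Equiv.swap_apply_self] at this
    rwa [this]
  have h1 : ∀ a ∈ K, ∀ b, Ad G a b →
      (b ∈ K ∨ b = x ∨ b = y) ∧ c a ≠ c b ∧ Ad H a (Equiv.swap x y b) := by
    rintro a ha b ⟨hab, e, he⟩
    have hne : a ≠ Equiv.swap x y b := fun e => hab (by rw [← sk a ha, e, Equiv.swap_apply_self])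
    rcases h e with h | ⟨p, q, h1, h2, h3, h4, h5⟩
    · exact (h.2 a (by rw [he]; exact Sym2.mem_mk_left _ _) ha).elim
    · rcases Sym2.eq_iff.1 (he.symm.trans h4) with ⟨rfl, rfl⟩ | ⟨rfl, rfl⟩
      · exact ⟨h2, h3, hne, e, h5⟩
      · exact ⟨Or.inl h1, h3.symm, hne, e, by rw [h5, sk _ ha, sk _ h1, Sym2.eq_swap]⟩
  have h2 : ∀ a ∈ K, ∀ b, Ad H a b → Ad G a (Equiv.swap x y b) := by
    rintro a ha b ⟨hab, e, he⟩
    have hne : a ≠ Equiv.swap x y b := fun e => hab (by rw [← sk a ha, e, Equiv.swap_apply_self])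
    rcases h e with h | ⟨p, q, h1, h2, h3, h4, h5⟩
    · exact (h.2 a (by rw [← h.1, he]; exact Sym2.mem_mk_left _ _) ha).elim
    · rcases Sym2.eq_iff.1 (he.symm.trans h5) with ⟨rfl, rfl⟩ | ⟨rfl, rfl⟩
      · exact ⟨hne, e, by rw [h4, Equiv.swap_apply_self]⟩
      · exact ⟨hne, e, by rw [h4, sk _ (sk' _ ha), sk _ h1, Sym2.eq_swap]⟩
  have t : Tw (Ad G) (Ad H) K x y c fun v => c (Equiv.swap x y v) :=
    { sy := fun _ _ => Ad.symm
      sy' := fun _ _ => Ad.symm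
      ir := fun _ h => h.1 rfl
      ir' := fun _ h => h.1 rfl
      hx := hx
      hy := hy
      cc := fun a ha => by rw [sk a ha]
      cx := by rw [Equiv.swap_apply_left]
      cy := by rw [Equiv.swap_apply_right]
      inn := fun a ha b hab => ⟨(h1 a ha b hab).1, (h1 a ha b hab).2.1⟩
      inn' := fun a ha b hab => by
        obtain ⟨h3, h4, -⟩ := h1 a ha _ (h2 a ha b hab)
        refine ⟨?_, by rwa [sk a ha]⟩
        rcases h3 with h3 | h3 | h3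
        · exact Or.inl (sk' _ h3)
        · exact Or.inr (Or.inr ((Equiv.swap x y).injective
            (h3.trans (Equiv.swap_apply_right x y).symm)))
        · exact Or.inr (Or.inl ((Equiv.swap x y).injective
            (h3.trans (Equiv.swap_apply_left x y).symm)))
      kk := fun a ha b hb => ⟨fun h => sk b hb ▸ h2 a ha b h, fun h => sk b hb ▸ (h1 a ha b h).2.2⟩
      kx := fun a ha => ⟨fun h => by simpa using h2 a ha _ h,
        fun h => by simpa using (h1 a ha _ h).2.2⟩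
      ky := fun a ha => ⟨fun h => by simpa using h2 a ha _ h,
        fun h => by simpa using (h1 a ha _ h).2.2⟩
      oo := fun a ha b hb => by
        refine and_congr_right fun _ => exists_congr fun e => ?_
        rcases h e with h | ⟨p, q, h1, -, -, h4, h5⟩
        · rw [h.1]
        · have key : ∀ r, s(p, r) ≠ s(a, b) := fun r e =>
            (Sym2.eq_iff.1 e).elim (fun e => ha (e.1 ▸ h1)) fun e => hb (e.1 ▸ h1)
          rw [h4, h5]
          exact iff_of_false (key _) (key _) }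
  exact ⟨t.g2 g.1 hK, fun h => g.2.1 (t.rot g.1 hK h), t.ex g.2.2⟩

end Pool.Agent.P.MP_053557_co.FB
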