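import Pool.Agent.P.MP_053557_co.RG6
import Pool.Agent.P.MP_053557_co.All

/-! Operations on stars are chains of moves. -/

namespace Pool.Agent.P.MP_053557_co.RG

open Matrix

variable {ι E : Type} [DecidableEq ι] [Fintype ι] {G H : SGraph ι E} {M M' : ι → E → F3}

/-- the columns of a matrix -/
abbrev col (M : ι → E → F3) : E → ι → F3 := fun e v => M v e

theorem conn_exch {k : ℕ} {Z : Matrix (Fin k) (Fin k) F3}
    (ok : ∃ D, CoreOK Z D ∧ Table k (D.map fun d => d.2.2)) (x : Fin k ↪ ι)
    (hout : ∀ v, v ∉ Set.range x → M' v = M v)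
    (hin : ∀ l, M' (x l) - ∑ i, Z l i • M (x i) ∈ Submodule.span F3 (M '' (Set.range x)ᶜ))
    (r : Rep G (col M)) (r' : Rep H (col M')) : Conn G H := by
  classical
  obtain ⟨D, ok, hT⟩ := ok
  have : ∀ l, ∃ f : ι → F3, (∀ i, f (x i) = 0) ∧
      ∀ e, M' (x l) e = (Z *ᵥ fun i => M (x i) e) l + f ⬝ᵥ col M e := by
    intro l
    obtain ⟨f, h1, h2⟩ := (Finsupp.mem_span_image_iff_linearCombination _).1 (hin l)
    refine ⟨f, fun i => (Finsupp.mem_supported' _ _).1 h1 _ (by simp), fun e => ?_⟩
    rw [Finsupp.linearCombination_apply, Finsupp.sum_fintype _ _ (by simp)] at h2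
    have := congrFun h2 e
    simp only [Finset.sum_apply, Pi.smul_apply, smul_eq_mul, Pi.sub_apply] at this
    simp only [mulVec, dotProduct]
    linear_combination -this
  choose f f1 f2 using this
  let α : ι → F3 := fun v => if v ∈ Set.range x then 0 else 1
  let Φ : (ι → F3) →ₗ[F3] (ι → F3) := LinearMap.mulLeft F3 α +
    emb x ∘ₗ (Z.mulVecLin ∘ₗ LinearMap.funLeft F3 F3 x + (Matrix.of f).mulVecLin)
  have hΦ : ∀ n, Φ n = α * n + emb x (Z *ᵥ (fun i => n (x i)) + fun l => f l ⬝ᵥ n) := fun _ => rfl
  refine conn_ex (x := x) (Φ := Φ) (c := fun v l => f l v) ok hT _ (Nat.lt_succ_self _)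
    ⟨fun a => ?_, fun v hv => ?_⟩ r ?_
  · have e : α * emb x a = 0 := funext fun v => by
      by_cases b : v ∈ Set.range x
      · simp only [α, Pi.mul_apply, if_pos b, zero_mul, Pi.zero_apply]
      · simp [emb_out x a b]
    rw [hΦ, e, zero_add]
    simp only [emb_at, dot_emb (f1 _)]
    exact congrArg _ (add_zero _)
  · rw [hΦ, mul_ee]
    simp only [α, if_neg hv, one_smul, ee_x hv, dot_ee]
    rw [show (fun _ : Fin k => (0 : F3)) = 0 from rfl, mulVec_zero, zero_add]
  · refine (funext fun e => funext fun v => ?_ : col M' = fun e => Φ (col M e)) ▸ r'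
    rw [hΦ]
    by_cases b : v ∈ Set.range x
    · obtain ⟨l, rfl⟩ := b
      simp [α, emb_at, f2]
    · simp only [α, Pi.add_apply, Pi.mul_apply, if_neg b, one_mul, emb_out x _ b, add_zero, col,
        hout v b]

theorem conn_star (h : StarOp M M') (r : Rep G (col M)) (r' : Rep H (col M')) : Conn G H := by
  cases h with
  | relabel σ =>
    refine Conn.tr (.rel _ _ (.relabel G σ.symm)) (conn_same (fun e => ?_) r')
    obtain ⟨x, y, s, h1, h2, h3⟩ := r e
    refine ⟨σ.symm x, σ.symm y, s, h1, by simp [h2], funext fun v => ?_⟩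
    simpa [col, ee, Equiv.eq_symm_apply] using congrFun h3 (σ v)
  | switch v =>
    refine conn_scale (fun w => if w = v then -1 else 1)
      (fun w => by split_ifs <;> decide) r ?_
    intro e
    convert r' e using 1
    funext w
    by_cases a : w = v
    · simp [col, a]
    · simp [col, a]
  | twist K x y hxy hx hy =>
    let α : ι → F3 := fun w => if w ∈ K then -1 else 1
    obtain ⟨H1, g⟩ := ex_rep G fun e => (r' e).w2.mul α
    refine Conn.tr ?_ (conn_scale α (fun w => by simp only [α]; split_ifs <;> decide) r' g).sy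
    let Φ : (ι → F3) →ₗ[F3] (ι → F3) :=
      { toFun := fun n i => α i * if i = x ∨ i = y then n i + ∑ v ∈ K, n v else n i
        map_add' := fun a b => funext fun i => by
          simp only [Pi.add_apply, Finset.sum_add_distrib]
          split_ifs <;> ring
        map_smul' := fun a b => funext fun i => by
          simp only [Pi.smul_apply, smul_eq_mul, ← Finset.mul_sum, RingHom.id_apply]
          split_ifs <;> ring }
    have hΦ : ∀ n i, Φ n i = α i * if i = x ∨ i = y then n i + ∑ v ∈ K, n v else n i :=
      fun _ _ => rfl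
    refine conn_twist (K : Set ι) x y hxy hx hy Φ (fun v hv => funext fun i => ?_)
      (fun v hv => funext fun i => ?_) r ?_
    · have hv : v ∈ K := hv
      have vx : x ≠ v := fun e => hx (e ▸ hv)
      have vy : y ≠ v := fun e => hy (e ▸ hv)
      rw [hΦ]
      by_cases a : i = x
      · subst a
        simp [α, ee, hx, hv, vx, hxy]
      by_cases b : i = y
      · subst b
        simp [α, ee, hy, hv, vy, hxy.symm]
      by_cases d : i = v
      · subst d
        simp [α, ee, hv, a, b]
      · simp [ee, a, b, d]
    · have hv : v ∉ K := hv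
      rw [hΦ]
      by_cases d : i = v
      · subst d
        simp [α, ee, hv]
      · simp [ee, hv, d]
    · intro e
      convert g e using 1
      funext i
      simp only [hΦ, Pi.mul_apply, col]
      split_ifs <;> simp [Finset.sum_apply]
  | rotate z J K τ hJ hK hJK hτ =>
    let Φ : (ι → F3) →ₗ[F3] (ι → F3) :=
      { toFun := fun n i => if i = z then n z + ∑ v ∈ J ∪ K, n v
          else n i - ∑ v ∈ K.filter fun v => τ v = i, n v
        map_add' := fun a b => funext fun i => by
          simp only [Pi.add_apply, Finset.sum_add_distrib]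
          split_ifs <;> ring
        map_smul' := fun a b => funext fun i => by
          simp only [Pi.smul_apply, smul_eq_mul, ← Finset.mul_sum, RingHom.id_apply]
          split_ifs <;> ring }
    have hΦ : ∀ n i, Φ n i = if i = z then n z + ∑ v ∈ J ∪ K, n v
      else n i - ∑ v ∈ K.filter fun v => τ v = i, n v := fun _ _ => rfl
    have d := Finset.disjoint_right.1 hJK
    refine conn_rotate z (J : Set ι) (K : Set ι) τ hJ hK (fun v hv => d hv) hτ Φ
      (fun v hv => funext fun i => ?_) (fun v hv => funext fun i => ?_)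
      (fun v hv hv' => funext fun i => ?_) r ?_
    · have hv : v ∈ J := hv
      have a : v ∉ K := fun e => d e hv
      rw [hΦ]
      by_cases b : i = z
      · simp [ee, b, hv]
      · simp [ee, b, a]
    · have hv : v ∈ K := hv
      have a : z ≠ τ v := fun e => hJ (e ▸ hτ v hv)
      rw [hΦ]
      by_cases b : i = z
      · simp [ee, b, hv, a]
      · simp [ee, b, hv, eq_comm]
    · have hv : v ∉ J := hv
      have hv' : v ∉ K := hv'
      rw [hΦ]
      by_cases b : i = z
      · simp [ee, b, hv, hv']
      · simp [ee, b, hv']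
    · intro e
      convert r' e using 1
      funext i
      simp only [hΦ, col]
      split_ifs <;> simp [Finset.sum_apply]
  | exchange _ k Z hZ x hout hin =>
    cases hZ with
    | k4 => exact conn_exch ok_k4 x hout hin r r'
    | had => exact conn_exch ok_four x hout hin r r'
    | conf => exact conn_exch ok_six x hout hin r r'
    | pinch =>
      let α : ι → F3 := fun w => if w = x 0 then -1 else 1
      obtain ⟨H1, g⟩ := ex_rep G fun e => (r' e).w2.mul α
      refine Conn.tr ?_ (conn_scale α (fun w => by simp only [α]; split_ifs <;> decide) r' g).sy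
      refine conn_exch (M' := fun v => α v • M' v) ok_pinch x (fun v hv => ?_) (fun l => ?_) r g
      · have : v ≠ x 0 := fun e => hv ⟨0, e.symm⟩
        simp [α, this, hout v hv]
      · have h := hin l
        fin_cases l
        · convert neg_mem h using 1
          simp [α, Fin.sum_univ_three]
          abel
        · simpa [α, Fin.sum_univ_three] using h
        · simpa [α, Fin.sum_univ_three] using h

theorem conn_step [DecidableEq E] (h : Relation.EqvGen Step M M') :
    ∀ {G H : SGraph ι E}, Rep G (col M) → Rep H (col M') → Conn G H := by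
  have sgn : ∀ {M M' : ι → E → F3}, Relation.EqvGen Step M M' → (IsSigned M ↔ IsSigned M') := by
    intro M M' h
    induction h with
    | rel _ _ h => exact iff_of_true h.1 h.2.1
    | refl => rfl
    | symm _ _ _ ih => exact ih.symm
    | trans _ _ _ _ _ ih ih' => exact ih.trans ih'
  induction h with
  | rel M M' h =>
    intro G H r r'
    rcases h.2.2 with k | ⟨e0, rfl⟩
    · exact conn_star k r r'
    · refine conn_same r fun e => ?_
      by_cases a : e = e0
      · subst a
        convert (r' e).smul n1 using 1
        funext v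
        simp [col]
      · convert r' e using 1
        funext v
        simp [col, a]
  | refl => exact conn_same
  | symm _ _ _ ih => exact fun r r' => (ih r' r).sy
  | trans M M1 M' h _ ih ih' =>
    intro G H r r'
    obtain ⟨G1, g⟩ := ex_rep G (N := col M1) ((sgn h).1 fun e => (r e).w2)
    exact (ih r g).tr (ih' g r')

omit [Fintype ι] in
theorem rep_pad {V : Type} [DecidableEq V] (G : E → Sym2 V) (j : V → ι) (hj : Function.Injective j)
    (M : ι → E → F3) (h1 : ∀ v e, M (j v) e = (inc G v e : F3))
    (h2 : ∀ w, w ∉ Set.range j → M w = 0) :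
    Rep (fun e => ((G e).map j, true)) (col M) := by
  intro e
  obtain ⟨a, b, hab⟩ : ∃ a b, G e = s(a, b) := by
    induction G e using Sym2.ind with | h a b => exact ⟨a, b, rfl⟩
  refine ⟨j a, j b, 1, one_ne, by simp [hab], funext fun w => ?_⟩
  by_cases m : w ∈ Set.range j
  · obtain ⟨v, rfl⟩ := m
    simp only [col, h1, inc, hab, Sym2.toMultiset, Sym2.lift_mk]
    simp only [← Multiset.cons_coe, Multiset.count_cons, Multiset.coe_nil, Multiset.count_zero, ee,
      hj.eq_iff, one_smul, sg_true, neg_smul, sub_neg_eq_add, Pi.add_apply]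
    push_cast
    ring
  · have p : w ≠ j a := fun e => m ⟨a, e.symm⟩
    have q : w ≠ j b := fun e => m ⟨b, e.symm⟩
    simp [col, h2 w m, ee, p, q]

theorem main {V W E : Type} [Fintype V] [DecidableEq V] [Fintype W] [DecidableEq W]
    [Fintype E] (G : E → Sym2 V) (H : E → Sym2 W) :
    (∀ S : Set E, LinearIndepOn ℝ (fun e v => (inc G v e : ℝ)) S ↔
      LinearIndepOn ℝ (fun e w => (inc H w e : ℝ)) S) ↔
    Relation.EqvGen Move (fun e => ((G e).map Sum.inl, true) : SGraph (V ⊕ W) E)
      (fun e => ((H e).map Sum.inr, true)) := by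
  classical
  have g := rep_pad G (Sum.inl : V → V ⊕ W) Sum.inl_injective
    (Sum.elim (fun v e => (inc G v e : F3)) 0) (fun _ _ => rfl) (by rintro (w | w) <;> simp)
  have g' := rep_pad H (Sum.inr : W → V ⊕ W) Sum.inr_injective
    (Sum.elim 0 fun v e => (inc H v e : F3)) (fun _ _ => rfl) (by rintro (w | w) <;> simp)
  rw [s_final s_j1 s_j2 s_sound All.rows G H]
  exact ⟨fun h => conn_step h g g', fun h => Final.complete s_j2 All.rows _ _
    (Final.signed_left G) (Final.signed_right H) (Conn.ind h g g')⟩

end Pool.Agent.P.MP_053557_co.RG
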