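import Pool.Agent.P.MP_053557_co.FB1
import Pool.Agent.P.MP_053557_co.RG7

/-! For graphs far from bipartite only twists are nontrivial moves. -/

set_option autoImplicit false

namespace Pool.Agent.P.MP_053557_co.FB

open RG

variable {V ι E : Type}

/-- `X` is a switching of the all-negative graph `G`, placed by `j` -/
def Rp (G : E → Sym2 V) (j : V → ι) (S : V → Bool) (X : SGraph ι E) : Prop :=
  ∀ e a b, G e = s(a, b) → X e = (s(j a, j b), !(xor (S a) (S b)))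

theorem ends (G : E → Sym2 V) (e : E) : ∃ a b, G e = s(a, b) := by
  induction G e using Sym2.ind with | h a b => exact ⟨a, b, rfl⟩

variable {G : E → Sym2 V} {j : V → ι} {S : V → Bool} {X Y : SGraph ι E}

theorem Rp.link (r : Rp G j S X) {e : E} {p q : ι} {σ : Bool} (h : X e = (s(p, q), σ)) :
    ∃ a b, G e = s(a, b) ∧ j a = p ∧ j b = q ∧ σ = !(xor (S a) (S b)) := by
  obtain ⟨a, b, hab⟩ := ends G e
  have h1 := (r e a b hab).symm.trans h
  rw [Prod.mk.injEq, Sym2.eq_iff] at h1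
  rcases h1 with ⟨⟨h1, h2⟩ | ⟨h1, h2⟩, h3⟩
  · exact ⟨a, b, hab, h1, h2, h3.symm⟩
  · exact ⟨b, a, hab.trans Sym2.eq_swap, h2, h1, by rw [← h3, Bool.xor_comm]⟩

theorem Rp.noloop (r : Rp G j S X) (hj : Function.Injective j) {e : E} {p : ι}
    (h : X e = (s(p, p), false)) : False := by
  obtain ⟨a, b, -, h1, h2, h3⟩ := r.link h
  rw [hj (h1.trans h2.symm)] at h3
  simp at h3

theorem mk_of {S' : V → Bool} {G' : E → Sym2 V}
    (h : ∀ e, ∃ a b, G' e = s(a, b) ∧ Y e = (s(j a, j b), !(xor (S' a) (S' b)))) :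
    Rp G' j S' Y := fun e a b hab => by
  obtain ⟨a', b', h1, h2⟩ := h e
  rcases Sym2.eq_iff.1 (h1.symm.trans hab) with ⟨rfl, rfl⟩ | ⟨rfl, rfl⟩
  · exact h2
  · rw [h2, Sym2.eq_swap, Bool.xor_comm]

/-- a link that joins two ports -/
theorem joins_link {a b : Port ι} {p q : ι} {σ : Bool} (h : Joins a b (s(p, q), σ)) (hne : p ≠ q) :
    ∃ τ ρ, σ = xor τ ρ ∧ ((a = some (p, τ) ∧ b = some (q, ρ)) ∨
      (b = some (p, τ) ∧ a = some (q, ρ))) := by
  generalize hg : (s(p, q), σ) = g at h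
  cases h with
  | link x y τ ρ =>
    rw [Prod.mk.injEq, Sym2.eq_iff] at hg
    rcases hg with ⟨⟨rfl, rfl⟩ | ⟨rfl, rfl⟩, rfl⟩
    · exact ⟨τ, ρ, rfl, Or.inl ⟨rfl, rfl⟩⟩
    · exact ⟨ρ, τ, Bool.xor_comm _ _, Or.inr ⟨rfl, rfl⟩⟩
  | left y τ =>
    rw [Prod.mk.injEq, Sym2.eq_iff] at hg
    exact (hg.1.elim (fun h => hne (h.1.trans h.2.symm)) fun h => hne (h.1.trans h.2.symm)).elim
  | right y τ =>
    rw [Prod.mk.injEq, Sym2.eq_iff] at hg
    exact (hg.1.elim (fun h => hne (h.1.trans h.2.symm)) fun h => hne (h.1.trans h.2.symm)).elim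

theorem joins_mem {a b : Port ι} {g : Sym2 ι × Bool} (h : Joins a b g) :
    (∀ v τ, a = some (v, τ) → v ∈ g.1) ∧ (∀ v τ, b = some (v, τ) → v ∈ g.1) ∧
      ∃ v τ, a = some (v, τ) ∨ b = some (v, τ) := by
  cases h with
  | link x y τ ρ =>
    exact ⟨fun v _ h => by cases h; exact Sym2.mem_mk_left _ _,
      fun v _ h => by cases h; exact Sym2.mem_mk_right _ _, x, τ, Or.inl rfl⟩
  | left y τ =>
    exact ⟨fun v _ h => (by cases h), fun v _ h => by cases h; exact Sym2.mem_mk_left _ _,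
      y, τ, Or.inr rfl⟩
  | right y τ =>
    exact ⟨fun v _ h => by cases h; exact Sym2.mem_mk_left _ _, fun v _ h => (by cases h),
      y, τ, Or.inl rfl⟩

theorem Rp.mem (r : Rp G j S X) {e : E} {v : ι} (h : v ∈ (X e).1) : ∃ a, j a = v := by
  obtain ⟨a, b, hab⟩ := ends G e
  rw [r e a b hab] at h
  exact (Sym2.mem_iff.1 h).elim (fun h => ⟨a, h.symm⟩) fun h => ⟨b, h.symm⟩

/-- exchange old and new ports -/
def sw (B : RG.Part ι) : RG.Part ι := ⟨B.inner, Prod.swap '' B.term⟩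

theorem reglue_symm {Z : Set ι} {P : Set (RG.Part ι)} (h : Reglue Z P X Y) :
    Reglue Z (sw '' P) Y X := fun e => by
  have key : ∀ B : RG.Part ι, ∀ a ∈ B.pts, a.swap ∈ (sw B).pts := by
    rintro B a (h | ⟨v, hv, rfl⟩)
    · exact Or.inl ⟨a, h, rfl⟩
    · exact Or.inr ⟨v, hv, rfl⟩
  rcases h e with ⟨h1, h2⟩ | ⟨B, hB, a, ha, b, hb, h1, h2⟩
  · refine Or.inl ⟨h1.symm, fun v hv => ⟨(h2 v (h1 ▸ hv)).1, ?_⟩⟩
    rintro _ ⟨B, hB, rfl⟩
    exact (h2 v (h1 ▸ hv)).2 B hB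
  · exact Or.inr ⟨_, ⟨B, hB, rfl⟩, _, key B a ha, _, key B b hb, h2, h1⟩

/-- the two ports of an edge that meets the moved region -/
theorem Rp.ports (r : Rp G j S X) (hj : Function.Injective j) {Z : Set ι} {P : Set (RG.Part ι)}
    (h : Reglue Z P X Y) {a b : V} (hab : Ad G a b) (ha : j a ∈ Z ∨ ∃ B ∈ P, j a ∈ B.inner) :
    ∃ B ∈ P, ∃ p ∈ B.pts, ∃ q ∈ B.pts, ∃ τ ρ, p.1 = some (j a, τ) ∧ q.1 = some (j b, ρ) ∧
      (!(xor (S a) (S b))) = xor τ ρ := by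
  obtain ⟨hne, e, he⟩ := hab
  have h0 := r e a b he
  rcases h e with ⟨-, h2⟩ | ⟨B, hB, p, hp, q, hq, h1, -⟩
  · have := h2 (j a) (by rw [h0]; exact Sym2.mem_mk_left _ _)
    exact (ha.elim this.1 fun ⟨B, hB, h⟩ => this.2 B hB h).elim
  · rw [h0] at h1
    obtain ⟨τ, ρ, h3, h4 | h4⟩ := joins_link h1 (hj.ne hne)
    · exact ⟨B, hB, p, hp, q, hq, τ, ρ, h4.1, h4.2, h3⟩
    · exact ⟨B, hB, q, hq, p, hp, τ, ρ, h4.1, h4.2, h3⟩

theorem pts_cases {B : RG.Part ι} {p : Port ι × Port ι} (hp : p ∈ B.pts) {v : ι} {τ : Bool}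
    (h : p.1 = some (v, τ)) : p ∈ B.term ∨ (v ∈ B.inner ∧ τ = false ∧ p.2 = p.1) := by
  rcases hp with hp | ⟨w, hw, rfl⟩
  · exact Or.inl hp
  · cases h
    exact Or.inr ⟨hw, rfl, rfl⟩

theorem exch (g : G2 (Ad G)) (hj : Function.Injective j) (r : Rp G j S X) {U : Set ι}
    {P : Set (RG.Part ι)} (h : Reglue U P X Y)
    (hU : ∀ B ∈ P, ∀ q ∈ B.term, ∀ v σ, q.1 = some (v, σ) → v ∈ U) :
    Y = X ∨ ∀ (Z : Set ι) (T : ι → Bool), (∀ B ∈ P, ∃ ρ : Bool, (∀ v ∈ B.inner, T v = ρ) ∧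
      ∀ q ∈ B.term, ∀ v σ, q.1 = some (v, σ) → v ∈ Z ∨ σ = xor ρ (T v)) →
      Bip (Ad G) {v | j v ∉ Z} := by
  have hin : ∀ B ∈ P, ∀ p ∈ B.pts, ∀ v τ, p.1 = some (v, τ) →
      v ∈ U ∨ ∃ B ∈ P, v ∈ B.inner := fun B hB p hp v τ e =>
    (pts_cases hp e).elim (fun h => Or.inl (hU B hB p h v τ e)) fun h => Or.inr ⟨B, hB, h.1⟩
  by_cases hI : ∃ a, j a ∈ U ∨ ∃ B ∈ P, j a ∈ B.inner
  · refine Or.inr fun Z T hP => ?_
    have hc : Cl (Ad G) ∅ {a | j a ∈ U ∨ ∃ B ∈ P, j a ∈ B.inner} := fun a ha b hab => by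
      obtain ⟨B, hB, p, -, q, hq, τ, ρ, -, h2, -⟩ := r.ports hj h hab ha
      exact Or.inl (hin B hB q hq _ _ h2)
    have hall : ∀ v, j v ∈ U ∨ ∃ B ∈ P, j v ∈ B.inner := fun v => by
      by_contra hv
      obtain ⟨w, hw⟩ := g.big (B := {v}) Set.subsingleton_empty (fun _ _ h => h)
        (fun a ha b hab => by
          rcases hc.compl (fun _ _ => Ad.symm) a ⟨by rwa [ha], fun h => h⟩ b hab with h1 | h1
          · obtain ⟨w, hw⟩ := g.big Set.subsingleton_empty (fun _ _ h => h) hc hI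
            have e1 : v = w := by_contra fun e => hv (hw v e)
            have e2 : b = w := by_contra fun e => h1.1 (hw b e)
            exact Or.inl (e2.trans e1.symm)
          · exact h1.elim) ⟨v, rfl⟩
      exact g.far v w ⟨fun _ => true, fun a ha => (ha.1 (hw a ha.2)).elim⟩
    refine ⟨fun v => xor (S v) (T (j v)), fun a ha b hb hab => ?_⟩
    obtain ⟨B, hB, p, hp, q, hq, τ, σ, h1, h2, h3⟩ := r.ports hj h hab (hall a)
    obtain ⟨ρ, h4, h5⟩ := hP B hB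
    have key : ∀ p ∈ B.pts, ∀ v τ, v ∉ Z → p.1 = some (v, τ) → τ = xor ρ (T v) :=
      fun p hp v τ hv e => (pts_cases hp e).elim (fun h => (h5 p h v τ e).resolve_left hv)
        fun h => by rw [h.2.1, h4 v h.1, Bool.xor_self]
    rw [key p hp _ _ ha h1, key q hq _ _ hb h2] at h3
    revert h3
    dsimp only
    cases S a <;> cases S b <;> cases T (j a) <;> cases T (j b) <;> cases ρ <;> simp
  · refine Or.inl (funext fun e => ?_)
    rcases h e with h | ⟨B, hB, p, hp, q, hq, h1, -⟩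
    · exact h.1
    · obtain ⟨h2, h3, v, τ, h4 | h4⟩ := joins_mem h1
      · obtain ⟨a, rfl⟩ := r.mem (h2 v τ h4)
        exact (hI ⟨a, hin B hB p hp _ _ h4⟩).elim
      · obtain ⟨a, rfl⟩ := r.mem (h3 v τ h4)
        exact (hI ⟨a, hin B hB q hq _ _ h4⟩).elim

theorem rot [DecidableEq V] (g : Good G) (hj : Function.Injective j) (r : Rp G j S X) {P : Set (RG.Part ι)}
    (h : Reglue ∅ P X Y) (z : ι) (J : Set ι) (K : ι → Set ι) (hz : z ∉ J)
    (hJ : ∀ u, z ∉ K u ∧ Disjoint (K u) J) (hK : ∀ u v, u ≠ v → Disjoint (K u) (K v))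
    (hP : ∀ B ∈ P, (B.inner = J ∧ (∀ q ∈ B.term, ∀ v σ, q.1 = some (v, σ) → v = z) ∧
        ∀ p ∈ B.term, ∀ q ∈ B.term, p = q ∨ ∀ g g', Joins p.1 q.1 g → Joins p.2 q.2 g' → g' = g) ∨
      ∃ u ∈ J, B.inner = K u ∧ ∀ q ∈ B.term, ∃ v σ, q.1 = some (v, σ) ∧
        (v = u ∨ (v = z ∧ σ = false)))
    (h1 : ∃ B ∈ P, B.inner = J) (h2 : ∀ u ∈ J, ∃ B ∈ P, B.inner = K u) : Y = X := by
  classical
  have hsub : {v | j v = z}.Subsingleton := fun a ha b hb => hj (ha.trans hb.symm)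
  by_cases hI : ∃ a, j a ∈ J ∨ ∃ u ∈ J, j a ∈ K u
  · exfalso
    have hin : ∀ a, (j a ∈ J ∨ ∃ u ∈ J, j a ∈ K u) → j a ∈ (∅ : Set ι) ∨ ∃ B ∈ P, j a ∈ B.inner :=
      fun a ha => Or.inr (by
        rcases ha with ha | ⟨u, hu, ha⟩
        · obtain ⟨B, hB, e⟩ := h1
          exact ⟨B, hB, e ▸ ha⟩
        · obtain ⟨B, hB, e⟩ := h2 u hu
          exact ⟨B, hB, e ▸ ha⟩)
    -- the neighbours of a vertex in the region
    have nb : ∀ a b, Ad G a b → (j a ∈ J ∨ ∃ u ∈ J, j a ∈ K u) →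
        (j a ∈ J ∧ (j b = z ∨ (j b ∈ J ∧ S a ≠ S b) ∨ j b ∈ K (j a))) ∨
        ∃ u ∈ J, j a ∈ K u ∧ (j b = u ∨ ((j b = z ∨ j b ∈ K u) ∧ S a ≠ S b)) := by
      intro a b hab ha
      have haz : j a ≠ z := fun e => ha.elim (fun h => hz (e ▸ h))
        fun ⟨u, _, h⟩ => (hJ u).1 (e ▸ h)
      obtain ⟨B, hB, p, hp, q, hq, τ, σ, e1, e2, e3⟩ := r.ports hj h hab (hin a ha)
      have hS : τ = false → σ = false → S a ≠ S b := fun k1 k2 => by
        rw [k1, k2] at e3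
        revert e3
        cases S a <;> cases S b <;> simp
      rcases hP B hB with ⟨k1, k2, -⟩ | ⟨u, hu, k1, k2⟩
      · have k3 := (pts_cases hp e1).resolve_left fun h => haz (k2 p h _ _ e1)
        refine Or.inl ⟨k1 ▸ k3.1, (pts_cases hq e2).imp (fun h => k2 q h _ _ e2) fun h => ?_⟩
        exact Or.inl ⟨k1 ▸ h.1, hS k3.2.1 h.2.1⟩
      · have k4 : ∀ q ∈ B.term, ∀ v σ, q.1 = some (v, σ) → v = u ∨ (v = z ∧ σ = false) :=
          fun q hq v σ e => by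
            obtain ⟨v', σ', e', k⟩ := k2 q hq
            cases e.symm.trans e'
            exact k
        rcases pts_cases hp e1 with k3 | k3
        · have k5 : j a = u := (k4 p k3 _ _ e1).resolve_right fun h => haz h.1
          refine Or.inl ⟨k5 ▸ hu, ?_⟩
          rcases pts_cases hq e2 with k6 | k6
          · exact (k4 q k6 _ _ e2).elim (fun h => (hab.1 (hj (k5.trans h.symm))).elim)
              fun h => Or.inl h.1
          · exact Or.inr (Or.inr (k5 ▸ k1 ▸ k6.1))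
        · refine Or.inr ⟨u, hu, k1 ▸ k3.1, ?_⟩
          rcases pts_cases hq e2 with k6 | k6
          · exact (k4 q k6 _ _ e2).imp id fun h => ⟨Or.inl h.1, hS k3.2.1 h.2⟩
          · exact Or.inr ⟨Or.inr (k1 ▸ k6.1), hS k3.2.1 k6.2.1⟩
    have uq : ∀ v u u', v ∈ K u → v ∈ K u' → u = u' := fun v u u' k1 k2 =>
      by_contra fun e => Set.disjoint_left.1 (hK u u' e) k1 k2
    have nJ : ∀ v u, v ∈ K u → v ∉ J := fun v u k => Set.disjoint_left.1 (hJ u).2 k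
    have nbK : ∀ u a b, Ad G a b → u ∈ J → j a ∈ K u →
        j b = u ∨ ((j b = z ∨ j b ∈ K u) ∧ S a ≠ S b) := fun u a b hab hu ha => by
      rcases nb a b hab (Or.inr ⟨u, hu, ha⟩) with k | ⟨u', -, k1, k2⟩
      · exact (nJ _ _ ha k.1).elim
      · rwa [uq _ _ _ ha k1]
    obtain ⟨w, hw⟩ := g.1.big hsub (B := {a | j a ∈ J ∨ ∃ u ∈ J, j a ∈ K u})
      (fun a ha e => ha.elim (fun h => hz (e ▸ h)) fun ⟨u, _, h⟩ => (hJ u).1 (e ▸ h))
      (fun a ha b hab => by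
        rcases nb a b hab ha with ⟨k, k1 | k1 | k1⟩ | ⟨u, hu, -, rfl | ⟨k1 | k1, -⟩⟩
        · exact Or.inr k1
        · exact Or.inl (Or.inl k1.1)
        · exact Or.inl (Or.inr ⟨_, k, k1⟩)
        · exact Or.inl (Or.inl hu)
        · exact Or.inr k1
        · exact Or.inl (Or.inr ⟨u, hu, k1⟩)) hI
    have hIz : ∀ a, (j a ∈ J ∨ ∃ u ∈ J, j a ∈ K u) → j a ≠ z := fun a ha e =>
      ha.elim (fun h => hz (e ▸ h)) fun ⟨u, _, h⟩ => (hJ u).1 (e ▸ h)
    have hbJ : Bip (Ad G) {a | j a ∈ J} := ⟨S, fun a ha b hb hab => by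
      rcases nb a b hab (Or.inl ha) with ⟨-, k1 | k1 | k1⟩ | ⟨u, -, k, -⟩
      · exact (hz (k1 ▸ hb)).elim
      · exact k1.2
      · exact (nJ _ _ k1 hb).elim
      · exact (nJ _ _ k ha).elim⟩
    by_cases k2 : ∃ z0, j z0 = z
    swap
    · refine g.1.far w w (hbJ.mono fun v hv => (hw v hv.1).resolve_right ?_)
      rintro ⟨u, hu, k⟩
      exact g.1.small (Z := {v | j v = u}) (B := {a | j a ∈ K u})
        (fun a ha b hb => hj (ha.trans hb.symm)) (fun v hv e => nJ _ _ hv (e ▸ hu))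
        (fun a ha b hab => (nbK _ a b hab hu ha).elim Or.inr
          fun e => Or.inl (e.1.resolve_left fun e => k2 ⟨b, e⟩))
        ⟨S, fun a ha b hb hab => ((nbK u a b hab hu ha).resolve_left
          fun e => nJ _ _ hb (e ▸ hu)).2⟩ v k
    obtain ⟨z0, rfl⟩ := k2
    obtain rfl : z0 = w := by_contra fun e => hIz z0 (hw z0 e) rfl
    have : Nonempty V := ⟨z0⟩
    have hr : ∀ a, ∃ u, j a ∉ J → a ≠ z0 → u ∈ J ∧ j a ∈ K u := fun a => by
      by_cases k : j a ∉ J ∧ a ≠ z0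
      · obtain ⟨u, k1, k2⟩ := (hw a k.2).resolve_left k.1
        exact ⟨u, fun _ _ => ⟨k1, k2⟩⟩
      · exact ⟨j a, fun k1 k2 => (k ⟨k1, k2⟩).elim⟩
    choose ρ hρ using hr
    have key : ∀ a b, Ad G a b → j a ∉ J → a ≠ z0 → j b ∉ J →
        (j b = j z0 ∨ j b ∈ K (ρ a)) ∧ S a ≠ S b := fun a b hab k1 k2 k3 =>
      (nbK _ a b hab (hρ a k1 k2).1 (hρ a k1 k2).2).resolve_left fun e => k3 (e ▸ (hρ a k1 k2).1)
    refine g.2.1 ⟨z0, {a | j a ∈ J}, fun a => Function.invFun j (ρ a), hz, hbJ,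
      ⟨S, fun a ha b hb hab => ?_⟩, fun a ha ha' b hab => ⟨fun hb => ?_, fun hb hb' => ?_⟩⟩
    · by_cases k : a = z0
      · exact (key b a hab.symm hb (fun e => hab.1 (k.trans e.symm)) ha).2.symm
      · exact (key a b hab ha k hb).2
    · rcases nbK _ a b hab (hρ a ha ha').1 (hρ a ha ha').2 with k | ⟨k | k, -⟩
      · simp only [← k, Function.leftInverse_invFun hj b]
      · exact (hz (k ▸ hb)).elim
      · exact (nJ _ _ k hb).elim
    · have k := (key a b hab ha ha' hb).1.resolve_left fun e => hb' (hj e)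
      simp only [uq _ _ _ (hρ b hb hb').2 k]
  · funext e
    rcases h e with h | ⟨B, hB, p, hp, q, hq, k1, k2⟩
    · exact h.1
    obtain ⟨m1, m2, -⟩ := joins_mem k1
    have hT : ∀ p ∈ B.pts, (∀ v τ, p.1 = some (v, τ) → v ∈ (X e).1) → p ∈ B.term := by
      rintro p (hp | ⟨v, hv, rfl⟩) m
      · exact hp
      · obtain ⟨a, rfl⟩ := r.mem (m v false rfl)
        refine (hI ⟨a, ?_⟩).elim
        rcases hP B hB with k | ⟨u, hu, k, -⟩
        · exact Or.inl (k.1 ▸ hv)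
        · exact Or.inr ⟨u, hu, k ▸ hv⟩
    have same : ∀ {p : Port ι}, ¬ Joins p p (X e) := fun {p} k => by
      generalize hg : X e = g at k
      generalize hp' : p = p' at k
      rw [show Joins p' p' g = Joins p p' g by rw [hp']] at k
      cases k with
      | link x y τ ρ =>
        cases hp'
        exact r.noloop hj (by rw [hg, Bool.xor_self])
      | left y τ => cases hp'
      | right y τ => cases hp'
    rcases hP B hB with ⟨-, -, k⟩ | ⟨u, hu, -, k⟩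
    · rcases k p (hT p hp m1) q (hT q hq m2) with rfl | k
      · exact (same k1).elim
      · exact k _ _ k1 k2
    · have key : ∀ p ∈ B.pts, (∀ v τ, p.1 = some (v, τ) → v ∈ (X e).1) → p.1 = some (z, false) :=
        fun p hp m => by
          obtain ⟨v, σ, e1, rfl | ⟨rfl, rfl⟩⟩ := k p (hT p hp m)
          · obtain ⟨a, rfl⟩ := r.mem (m _ _ e1)
            exact (hI ⟨a, Or.inl hu⟩).elim
          · exact e1
      rw [key p hp m1, key q hq m2] at k1
      exact (same k1).elim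

theorem joins_pos {p q : ι} {g : Sym2 ι × Bool} (h : Joins (pos p) (pos q) g) :
    g = (s(p, q), false) := by
  cases h
  rfl

theorem twi [DecidableEq V] [DecidableEq ι] (g : Good G) (hj : Function.Injective j)
    (r : Rp G j S X) {P : Set (RG.Part ι)} (h : Reglue ∅ P X Y) (K : Set ι) (x y : ι) (hx : x ∉ K)
    (hy : y ∉ K) (hP : ∀ B ∈ P, B.inner = K ∧
      ∀ q ∈ B.term, q = (pos x, pos y) ∨ q = (pos y, pos x)) (h1 : P.Nonempty) :
    Y = X ∨ ∃ G' S', Twist G G' ∧ Rp G' j S' Y := by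
  classical
  have sk : ∀ a ∈ K, Equiv.swap x y a = a := fun a ha =>
    Equiv.swap_apply_of_ne_of_ne (fun e => hx (by rwa [← e])) fun e => hy (by rwa [← e])
  have h2 : ∀ e, (Y e = X e ∧ ∀ v ∈ (X e).1, v ∉ K) ∨ ∃ p q, (p ∈ K ∨ p = x ∨ p = y) ∧
      (q ∈ K ∨ q = x ∨ q = y) ∧ X e = (s(p, q), false) ∧
      Y e = (s(Equiv.swap x y p, Equiv.swap x y q), false) := fun e => by
    rcases h e with ⟨k1, k2⟩ | ⟨B, hB, a, ha, b, hb, k1, k2⟩
    · obtain ⟨B, hB⟩ := h1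
      exact Or.inl ⟨k1, fun v hv => (hP B hB).1 ▸ (k2 v hv).2 B hB⟩
    · have key : ∀ a ∈ B.pts, ∃ p, (p ∈ K ∨ p = x ∨ p = y) ∧
          a = (pos p, pos (Equiv.swap x y p)) := by
        rintro a (ha | ⟨v, hv, rfl⟩)
        · rcases (hP B hB).2 a ha with rfl | rfl
          · exact ⟨x, Or.inr (Or.inl rfl), by rw [Equiv.swap_apply_left]⟩
          · exact ⟨y, Or.inr (Or.inr rfl), by rw [Equiv.swap_apply_right]⟩
        · rw [(hP B hB).1] at hv
          exact ⟨v, Or.inl hv, by rw [sk v hv]⟩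
      obtain ⟨p, hp, rfl⟩ := key a ha
      obtain ⟨q, hq, rfl⟩ := key b hb
      exact Or.inr ⟨p, q, hp, hq, joins_pos k1, joins_pos k2⟩
  have h3 : ∀ e, (Y e = X e ∧ ∀ v ∈ G e, j v ∉ K) ∨ ∃ a b, j a ∈ K ∧
      (j b ∈ K ∨ j b = x ∨ j b = y) ∧ S a ≠ S b ∧ G e = s(a, b) ∧
      Y e = (s(j a, Equiv.swap x y (j b)), false) := fun e => by
    rcases h2 e with ⟨k1, k2⟩ | ⟨p, q, hp, hq, k1, k2⟩
    · refine Or.inl ⟨k1, fun v hv => k2 _ ?_⟩
      obtain ⟨b, hb⟩ := Sym2.mem_iff_exists.1 hv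
      rw [r e v b hb]
      exact Sym2.mem_mk_left _ _
    obtain ⟨a, b, k3, rfl, rfl, k4⟩ := r.link k1
    have k5 : S a ≠ S b := by
      revert k4
      cases S a <;> cases S b <;> simp
    by_cases ha : j a ∈ K
    · exact Or.inr ⟨a, b, ha, hq, k5, k3, by rw [k2, sk _ ha]⟩
    by_cases hb : j b ∈ K
    · exact Or.inr ⟨b, a, hb, hp, k5.symm, k3.trans Sym2.eq_swap, by
        rw [k2, sk _ hb, Sym2.eq_swap]⟩
    refine Or.inl ⟨?_, fun v hv => ?_⟩
    · have k6 : j a ≠ j b := fun e => k5 (by rw [hj e])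
      rw [k1, k2]
      rcases hp.resolve_left ha with k7 | k7 <;> rcases hq.resolve_left hb with k8 | k8
      · exact (k6 (k7.trans k8.symm)).elim
      · rw [k7, k8, Equiv.swap_apply_left, Equiv.swap_apply_right, Sym2.eq_swap]
      · rw [k7, k8, Equiv.swap_apply_left, Equiv.swap_apply_right, Sym2.eq_swap]
      · exact (k6 (k7.trans k8.symm)).elim
    · rw [k3] at hv
      rcases Sym2.mem_iff.1 hv with rfl | rfl
      · exact ha
      · exact hb
  by_cases hI : ∃ a, j a ∈ K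
  swap
  · exact Or.inl (funext fun e => (h3 e).elim (fun h => h.1) fun ⟨a, _, h, _⟩ => (hI ⟨a, h⟩).elim)
  have nb : ∀ a b, Ad G a b → j a ∈ K → (j b ∈ K ∨ j b = x ∨ j b = y) ∧ S a ≠ S b := by
    rintro a b ⟨-, e, he⟩ ha
    rcases h3 e with k | ⟨p, q, k1, k2, k3, k4, -⟩
    · exact (k.2 a (by rw [he]; exact Sym2.mem_mk_left _ _) ha).elim
    · rcases Sym2.eq_iff.1 (he.symm.trans k4) with ⟨rfl, rfl⟩ | ⟨rfl, rfl⟩
      · exact ⟨k2, k3⟩
      · exact ⟨Or.inl k1, k3.symm⟩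
  have rng : ∀ x y : ι, y ∉ K → (∀ a b, Ad G a b → j a ∈ K → j b ∈ K ∨ j b = x ∨ j b = y) →
      ∃ a, j a = x := fun x y hy k => by
    by_contra hc
    obtain ⟨a, ha⟩ := hI
    exact g.1.small (Z := {v | j v = y}) (B := {a | j a ∈ K})
      (fun a ha b hb => hj (ha.trans hb.symm)) (fun v hv e => hy (e ▸ hv))
      (fun a ha b hab => (k a b hab ha).imp id fun h => h.resolve_left fun h => hc ⟨b, h⟩)
      ⟨S, fun a ha b _ hab => (nb a b hab ha).2⟩ a ha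
  obtain ⟨x0, rfl⟩ := rng x y hy fun a b hab ha => (nb a b hab ha).1
  obtain ⟨y0, rfl⟩ := rng y _ hx fun a b hab ha => (nb a b hab ha).1.imp id Or.symm
  have js : ∀ b, Equiv.swap (j x0) (j y0) (j b) = j (Equiv.swap x0 y0 b) := fun b =>
    hj.swap_apply x0 y0 b
  let S' : V → Bool := fun v => if j v ∈ K then xor (S v) (xor (S x0) (S y0)) else S v
  have h4 : ∀ e, ∃ g' : Sym2 V, ((g' = G e ∧ ∀ v ∈ G e, v ∉ {a | j a ∈ K}) ∨
      ∃ a b, a ∈ {a | j a ∈ K} ∧ (b ∈ {a | j a ∈ K} ∨ b = x0 ∨ b = y0) ∧ S a ≠ S b ∧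
        G e = s(a, b) ∧ g' = s(a, Equiv.swap x0 y0 b)) ∧
      ∃ a b, g' = s(a, b) ∧ Y e = (s(j a, j b), !(xor (S' a) (S' b))) := fun e => by
    rcases h3 e with k | ⟨a, b, k1, k2, k3, k4, k5⟩
    · obtain ⟨a, b, hab⟩ := ends G e
      refine ⟨G e, Or.inl ⟨rfl, k.2⟩, a, b, hab, ?_⟩
      have ha := k.2 a (by rw [hab]; exact Sym2.mem_mk_left _ _)
      have hb := k.2 b (by rw [hab]; exact Sym2.mem_mk_right _ _)
      simp only [S', if_neg ha, if_neg hb]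
      rw [k.1, r e a b hab]
    · refine ⟨_, Or.inr ⟨a, b, k1, k2.imp id (Or.imp (fun e => hj e) fun e => hj e), k3, k4, rfl⟩,
        a, _, rfl, ?_⟩
      rw [k5, js]
      congr 1
      rcases k2 with k2 | k2 | k2
      · have : Equiv.swap x0 y0 b = b := hj ((js b).symm.trans (sk _ k2))
        simp only [S', this, if_pos k1, if_pos k2]
        revert k3
        cases S a <;> cases S b <;> cases S x0 <;> cases S y0 <;> simp
      · obtain rfl := hj k2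
        simp only [S', Equiv.swap_apply_left, if_pos k1, if_neg hy]
        revert k3
        cases S a <;> cases S b <;> cases S y0 <;> simp
      · obtain rfl := hj k2
        simp only [S', Equiv.swap_apply_right, if_pos k1, if_neg hx]
        revert k3
        cases S a <;> cases S b <;> cases S x0 <;> simp
  choose G' k1 k2 using h4
  exact Or.inr ⟨G', S', ⟨_, x0, y0, S, hx, hy, k1⟩, mk_of k2⟩

end Pool.Agent.P.MP_053557_co.FB
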