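import Pool.Agent.P.MP_053557_co.FB2

/-! The invariant along a chain of moves, and the final theorem. -/

set_option autoImplicit false

namespace Pool.Agent.P.MP_053557_co.FB

open RG

variable {V ι E : Type} [DecidableEq V]

/-- `X` is a switching of a twist descendant of `G` -/
def Inv (G : E → Sym2 V) (X : SGraph ι E) : Prop :=
  ∃ G1, Relation.ReflTransGen Twist G G1 ∧ ∃ (j : V → ι) (S : V → Bool),
    Function.Injective j ∧ Rp G1 j S X

theorem good_of {G G1 : E → Sym2 V} (g : Good G) (h : Relation.ReflTransGen Twist G G1) :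
    Good G1 := by
  induction h with
  | refl => exact g
  | tail _ h ih => exact h.good ih

/-- all rows are balanced off `Z` -/
def Off {k : ℕ} (T : List (List (Port (Fin k) × Port (Fin k))))
    (f : Port (Fin k) × Port (Fin k) → Port (Fin k)) (Z : Finset (Fin k)) (s : Fin k → Bool) :
    Prop :=
  ∀ R ∈ T, ∃ ρ : Bool, ∀ q ∈ R, ∀ i σ, f q = some (i, σ) → i ∈ Z ∨ σ = xor ρ (s i)

instance {k : ℕ} (T : List (List (Port (Fin k) × Port (Fin k))))
    (f : Port (Fin k) × Port (Fin k) → Port (Fin k)) (Z : Finset (Fin k)) (s : Fin k → Bool) :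
    Decidable (Off T f Z s) := by
  unfold Off
  infer_instance

/-- the two properties of a side of a table -/
def TOk {k : ℕ} (T : List (List (Port (Fin k) × Port (Fin k))))
    (f : Port (Fin k) × Port (Fin k) → Port (Fin k)) : Prop :=
  ∃ (m : ℕ) (X Z : Finset (Fin k)) (s : Fin k → Bool), (Z ⊆ X ∧ Z.card ≤ 3 ∧ Off T f Z s) ∧ m ≤ 3 ∧
    X.card ≤ 2 * m ∧ ∀ Y : Finset (Fin k), Y.card < m →
      ∃ b : Bool, Off T f (X \ Y) fun l => b && decide (∃ i ∈ Y, i < l)

theorem table_ok {k : ℕ} {T : List (List (Port (Fin k) × Port (Fin k)))} (hT : Table k T) :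
    TOk T Prod.fst ∧ TOk T Prod.snd := by
  cases hT with
  | k4 => exact ⟨⟨1, {0, 1}, {0, 1}, fun _ => false, by decide, by decide⟩,
      1, {0, 1}, {0, 1}, fun _ => false, by decide, by decide⟩
  | pinch => exact ⟨⟨1, {0, 1}, {0, 1}, fun _ => false, by decide, by decide⟩,
      1, {0, 1}, {0, 1}, fun _ => false, by decide, by decide⟩
  | four => exact ⟨⟨2, Finset.univ, {1, 2, 3}, fun _ => false, by decide, by decide⟩,
      2, Finset.univ, {1, 2, 3}, fun _ => false, by decide, by decide⟩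
  | six => exact ⟨⟨3, Finset.univ, {3, 4, 5}, fun _ => false, by decide, by decide +kernel⟩,
      3, Finset.univ, {0, 1, 2}, fun i => decide (i = 4), by decide, by decide +kernel⟩

theorem exch' {G : E → Sym2 V} {j : V → ι} {S : V → Bool} {X Y : SGraph ι E} (g : Good G)
    (hj : Function.Injective j) (r : Rp G j S X) {k : ℕ}
    {T : List (List (Port (Fin k) × Port (Fin k)))} (x : Fin k ↪ ι)
    (K : List (Port (Fin k) × Port (Fin k)) → Set ι) (hx : ∀ R i, x i ∉ K R)
    (hK : ∀ R R', R ≠ R' → Disjoint (K R) (K R')) (f : Port (Fin k) × Port (Fin k) → Port (Fin k))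
    (ok : TOk T f) {P : Set (RG.Part ι)} (h : Reglue (Set.range x) P X Y)
    (hP : ∀ B ∈ P, ∃ R ∈ T, B.inner = K R ∧ ∀ q ∈ B.term, ∃ q' ∈ R, q.1 = place x (f q')) :
    Y = X := by
  classical
  have hpl : ∀ {q : Port (Fin k)} {v σ}, place x q = some (v, σ) →
      ∃ i, q = some (i, σ) ∧ x i = v := fun {q v σ} h2 => by
    rw [place, Option.map_eq_some_iff] at h2
    obtain ⟨⟨i, σ'⟩, h5, h6⟩ := h2
    cases h6
    exact ⟨i, h5, rfl⟩
  refine (exch g.1 hj r h fun B hB q hq v σ e => ?_).resolve_right fun hb => ?_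
  · obtain ⟨R, -, -, h1⟩ := hP B hB
    obtain ⟨q', -, h2⟩ := h1 q hq
    obtain ⟨i, -, h3⟩ := hpl (h2.symm.trans e)
    exact ⟨i, h3⟩
  have key : ∀ Z s, Off T f Z s → Bip (Ad G) {v | j v ∉ Z.map x} := by
    intro Z s ok
    choose! ρ hρ using ok
    obtain ⟨τ, t1, t2⟩ : ∃ τ : ι → Bool, (∀ i, τ (x i) = s i) ∧ ∀ R, ∀ v ∈ K R, τ v = ρ R := by
      refine ⟨fun v => if h : ∃ i, x i = v then s h.choose else
        if h : ∃ R, v ∈ K R then ρ h.choose else false, fun i => ?_, fun R v hv => ?_⟩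
      · have h : ∃ i', x i' = x i := ⟨i, rfl⟩
        simp only [dif_pos h]
        rw [x.injective h.choose_spec]
      · have h : ¬ ∃ i, x i = v := fun ⟨i, e⟩ => hx R i (e ▸ hv)
        have h' : ∃ R, v ∈ K R := ⟨R, hv⟩
        simp only [dif_neg h, dif_pos h']
        congr 1
        exact by_contra fun e => Set.disjoint_left.1 (hK _ _ e) h'.choose_spec hv
    refine hb (Z.map x) τ fun B hB => ?_
    obtain ⟨R, hR, e, hq⟩ := hP B hB
    refine ⟨ρ R, fun v hv => t2 R v (e ▸ hv), fun q h1 v σ h2 => ?_⟩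
    obtain ⟨q', h3, h4⟩ := hq q h1
    obtain ⟨i, h5, rfl⟩ := hpl (h4.symm.trans h2)
    exact (hρ R hR q' h3 i _ h5).imp (Finset.mem_map_of_mem x) fun h => by rw [t1, ← h]
  have card : ∀ Z : Finset (Fin k), ((Z.map x).preimage j hj.injOn).card ≤ Z.card := fun Z => by
    rw [Finset.card_preimage, ← Finset.card_map x]
    exact Finset.card_filter_le _ _
  obtain ⟨m, X0, Z, s, ⟨hZX, hZ, ok1⟩, m1, m3, ok2⟩ := ok
  refine g.2.2 ⟨m, (X0.map x).preimage j hj.injOn, (Z.map x).preimage j hj.injOn, m1,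
    (card X0).trans m3, fun v hv => ?_, (card Z).trans hZ,
    (key Z s ok1).mono fun v hv h2 => hv (by simpa using h2), fun Y' _ k2 => ?_⟩
  · rw [Finset.mem_preimage] at hv ⊢
    exact Finset.map_subset_map.2 hZX hv
  · obtain ⟨b, hb⟩ := ok2 (Finset.univ.filter fun i => x i ∈ Y'.image j) (lt_of_le_of_lt
      ((Finset.card_le_card_of_injOn x (fun i hi => (Finset.mem_filter.1 hi).2)
        x.injective.injOn).trans Finset.card_image_le) k2)
    refine (key _ _ hb).mono fun v hv h2 => hv ?_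
    obtain ⟨i, hi, e⟩ := Finset.mem_map.1 h2
    rw [Finset.mem_sdiff] at hi
    rw [Finset.mem_coe, Finset.mem_sdiff, Finset.mem_preimage, ← e]
    exact ⟨Finset.mem_map_of_mem x hi.1, fun h3 => hi.2 (Finset.mem_filter.2
      ⟨Finset.mem_univ _, e ▸ Finset.mem_image_of_mem j h3⟩)⟩

theorem rotJ (z : ι) : ∀ p ∈ ({(none, neg z), (neg z, pos z), (pos z, none)} :
    Set (Port ι × Port ι)), ∀ q ∈ ({(none, neg z), (neg z, pos z), (pos z, none)} :
    Set (Port ι × Port ι)), p = q ∨ ∀ g g', Joins p.1 q.1 g → Joins p.2 q.2 g' → g' = g := by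
  rintro p (rfl | rfl | rfl) q (rfl | rfl | rfl) <;>
    first
    | exact Or.inl rfl
    | (refine Or.inr fun g g' h h' => ?_; cases h; cases h'; rfl)

theorem inv_move {G : E → Sym2 V} (g : Good G) {X Y : SGraph ι E} (h : Move X Y) :
    Inv G X ↔ Inv G Y := by
  classical
  have eqv : ∀ {X Y : SGraph ι E}, (∀ G1 (j : V → ι) S, Good G1 → Function.Injective j →
      Rp G1 j S X → Y = X ∨ ∃ G' S', Twist G1 G' ∧ Rp G' j S' Y) → Inv G X → Inv G Y := by
    rintro X Y h ⟨G1, h1, j, S, hj, r⟩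
    rcases h G1 j S (good_of g h1) hj r with rfl | ⟨G', S', k1, k2⟩
    · exact ⟨G1, h1, j, S, hj, r⟩
    · exact ⟨G', h1.tail k1, j, S', hj, k2⟩
  have rel : ∀ (X : SGraph ι E) (σ : Equiv.Perm ι), Inv G X →
      Inv G fun e => ((X e).1.map σ, (X e).2) := by
    rintro X σ ⟨G1, h1, j, S, hj, r⟩
    exact ⟨G1, h1, σ ∘ j, S, σ.injective.comp hj, fun e a b hab => by simp [r e a b hab]⟩
  have swi : ∀ (X Y : SGraph ι E) (T : ι → Bool), (∀ e, ∃ u v, (X e).1 = s(u, v) ∧
      Y e = (s(u, v), xor (X e).2 (xor (T u) (T v)))) → Inv G X → Inv G Y := by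
    rintro X Y T h ⟨G1, h1, j, S, hj, r⟩
    refine ⟨G1, h1, j, fun v => xor (S v) (T (j v)), hj, mk_of fun e => ?_⟩
    obtain ⟨u, v, k1, k2⟩ := h e
    obtain ⟨a, b, k3, rfl, rfl, k4⟩ := r.link (e := e) (σ := (X e).2) (Prod.ext k1 rfl)
    refine ⟨a, b, k3, ?_⟩
    rw [k2, k4]
    cases S a <;> cases S b <;> cases T (j a) <;> cases T (j b) <;> rfl
  cases h with
  | relabel σ =>
    refine ⟨rel X σ, fun h => ?_⟩
    simpa [Sym2.map_map] using rel _ σ.symm h
  | switch _ T h =>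
    refine ⟨swi X Y T h, swi Y X T fun e => ?_⟩
    obtain ⟨u, v, k1, k2⟩ := h e
    refine ⟨u, v, by rw [k2], Prod.ext k1 ?_⟩
    rw [k2]
    cases (X e).2 <;> cases T u <;> cases T v <;> rfl
  | loops _ h =>
    refine ⟨eqv fun G1 j S _ hj r => Or.inl (funext fun e => ?_),
      eqv fun G1 j S _ hj r => Or.inl (funext fun e => ?_)⟩
    · exact (h e).elim id fun ⟨u, v, k, _⟩ => (r.noloop hj k).elim
    · exact (h e).elim Eq.symm fun ⟨u, v, _, k⟩ => (r.noloop hj k).elim
  | twist _ K x y hx hy h =>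
    refine ⟨eqv fun G1 j S g1 hj r => twi g1 hj r h K x y hx hy ?_ (Set.singleton_nonempty _),
      eqv fun G1 j S g1 hj r => twi g1 hj r (reglue_symm h) K x y hx hy ?_
        ((Set.singleton_nonempty _).image _)⟩
    · rintro B rfl
      exact ⟨rfl, fun q hq => hq⟩
    · rintro _ ⟨B, rfl, rfl⟩
      refine ⟨rfl, ?_⟩
      rintro _ ⟨q, rfl | rfl, rfl⟩
      · exact Or.inr rfl
      · exact Or.inl rfl
  | rotate _ z J K hz hJ hK h =>
    refine ⟨eqv fun G1 j S g1 hj r => Or.inl (rot g1 hj r h z J K hz hJ hK ?_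
        ⟨_, Or.inl rfl, rfl⟩ fun u hu => ⟨_, Or.inr ⟨u, hu, rfl⟩, rfl⟩),
      eqv fun G1 j S g1 hj r => Or.inl (rot g1 hj r (reglue_symm h) z J K hz hJ hK ?_
        ⟨_, ⟨_, Or.inl rfl, rfl⟩, rfl⟩ fun u hu => ⟨_, ⟨_, Or.inr ⟨u, hu, rfl⟩, rfl⟩, rfl⟩)⟩
    · rintro B (rfl | ⟨u, hu, rfl⟩)
      · refine Or.inl ⟨rfl, ?_, rotJ z⟩
        rintro q (rfl | rfl | rfl) v σ e <;> cases e <;> rfl
      · refine Or.inr ⟨u, hu, rfl, ?_⟩
        rintro q (rfl | rfl | rfl)
        · exact ⟨_, _, rfl, Or.inl rfl⟩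
        · exact ⟨_, _, rfl, Or.inl rfl⟩
        · exact ⟨_, _, rfl, Or.inr ⟨rfl, rfl⟩⟩
    · rintro _ ⟨B, rfl | ⟨u, hu, rfl⟩, rfl⟩
      · refine Or.inl ⟨rfl, ?_, ?_⟩
        · rintro _ ⟨q, rfl | rfl | rfl, rfl⟩ v σ e <;> cases e <;> rfl
        · rintro _ ⟨p, hp, rfl⟩ _ ⟨q, hq, rfl⟩
          exact (rotJ z p hp q hq).imp (congrArg _) fun k g g' k1 k2 => (k g' g k2 k1).symm
      · refine Or.inr ⟨u, hu, rfl, ?_⟩
        rintro _ ⟨q, rfl | rfl | rfl, rfl⟩
        · exact ⟨_, _, rfl, Or.inl rfl⟩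
        · exact ⟨_, _, rfl, Or.inr ⟨rfl, rfl⟩⟩
        · exact ⟨_, _, rfl, Or.inl rfl⟩
  | exchange _ k T hT x K hx hK h =>
    refine ⟨eqv fun G1 j S g1 hj r => Or.inl (exch' g1 hj r x K hx hK Prod.fst (table_ok hT).1 h ?_),
      eqv fun G1 j S g1 hj r => Or.inl (exch' g1 hj r x K hx hK Prod.snd (table_ok hT).2
        (reglue_symm h) ?_)⟩
    · rintro _ ⟨R, hR, rfl⟩
      refine ⟨R, hR, rfl, ?_⟩
      rintro _ ⟨q, hq, rfl⟩
      exact ⟨q, hq, rfl⟩
    · rintro _ ⟨_, ⟨R, hR, rfl⟩, rfl⟩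
      refine ⟨R, hR, rfl, ?_⟩
      rintro _ ⟨_, ⟨q, hq, rfl⟩, rfl⟩
      exact ⟨q, hq, rfl⟩

theorem inv_conn {G : E → Sym2 V} (g : Good G) {X Y : SGraph ι E} (h : Relation.EqvGen Move X Y) :
    Inv G X ↔ Inv G Y := by
  induction h with
  | rel _ _ h => exact inv_move g h
  | refl => rfl
  | symm _ _ _ ih => exact ih.symm
  | trans _ _ _ _ _ ih ih' => exact ih.trans ih'

theorem conn_twist {W : Type} {G H : E → Sym2 V} (h : Twist G H) :
    Relation.EqvGen Move (fun e => ((G e).map Sum.inl, true) : SGraph (V ⊕ W) E)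
      (fun e => ((H e).map Sum.inl, true)) := by
  classical
  obtain ⟨K, x, y, c, hx, hy, h⟩ := h
  have sk : ∀ a ∈ K, Equiv.swap x y a = a := fun a ha =>
    Equiv.swap_apply_of_ne_of_ne (fun e => hx (by rwa [← e])) fun e => hy (by rwa [← e])
  have swi : ∀ (G : E → Sym2 V) (c : V → Bool), ∃ X : SGraph (V ⊕ W) E,
      Move (fun e => ((G e).map Sum.inl, true)) X ∧ Rp G Sum.inl c X := fun G c => by
    choose a b hab using ends G
    refine ⟨fun e => (s(Sum.inl (a e), Sum.inl (b e)), !(xor (c (a e)) (c (b e)))),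
      .switch _ _ (Sum.elim c fun _ => false) fun e => ⟨Sum.inl (a e), Sum.inl (b e),
        by simp [hab e], by simp⟩, mk_of fun e => ⟨a e, b e, hab e, rfl⟩⟩
  obtain ⟨X, m1, r1⟩ := swi G c
  obtain ⟨Y, m2, r2⟩ := swi H fun v => if v ∈ K then xor (c v) (xor (c x) (c y)) else c v
  refine .trans _ _ _ (.rel _ _ m1) (.trans _ Y _ (.rel _ _ ?_) (.symm _ _ (.rel _ _ m2)))
  refine .twist _ _ (Sum.inl '' K) (Sum.inl x) (Sum.inl y) (by simpa using hx) (by simpa using hy)
    fun e => ?_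
  rcases h e with ⟨k1, k2⟩ | ⟨a, b, k1, k2, k3, k4, k5⟩
  · obtain ⟨a, b, hab⟩ := ends G e
    have ha := k2 a (by rw [hab]; exact Sym2.mem_mk_left _ _)
    have hb := k2 b (by rw [hab]; exact Sym2.mem_mk_right _ _)
    refine Or.inl ⟨?_, fun v hv => ⟨fun h => h, ?_⟩⟩
    · rw [r1 e a b hab, r2 e a b (k1.trans hab)]
      simp only [if_neg ha, if_neg hb]
    · rintro B rfl
      rw [r1 e a b hab] at hv
      rcases Sym2.mem_iff.1 hv with rfl | rfl
      · simpa using ha
      · simpa using hb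
  · refine Or.inr ⟨_, rfl, (pos (Sum.inl a), pos (Sum.inl a)), Or.inr ⟨_, ⟨a, k1, rfl⟩, rfl⟩,
      (pos (Sum.inl b), pos (Sum.inl (Equiv.swap x y b))), ?_, ?_, ?_⟩
    · rcases k2 with k2 | rfl | rfl
      · exact Or.inr ⟨_, ⟨b, k2, rfl⟩, by rw [sk b k2]⟩
      · exact Or.inl (Or.inl (by rw [Equiv.swap_apply_left]))
      · exact Or.inl (Or.inr (by rw [Equiv.swap_apply_right]; rfl))
    · have : (!(xor (c a) (c b))) = xor false false := by
        revert k3
        cases c a <;> cases c b <;> simp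
      rw [r1 e a b k4, this]
      exact .link _ _ _ _
    · have : (!(xor (if a ∈ K then xor (c a) (xor (c x) (c y)) else c a)
          (if Equiv.swap x y b ∈ K then xor (c (Equiv.swap x y b)) (xor (c x) (c y))
            else c (Equiv.swap x y b)))) = xor false false := by
        rcases k2 with k2 | rfl | rfl
        · rw [sk b k2, if_pos k1, if_pos k2]
          revert k3
          cases c a <;> cases c b <;> cases c x <;> cases c y <;> simp
        · rw [Equiv.swap_apply_left, if_pos k1, if_neg hy]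
          revert k3
          cases c a <;> cases c b <;> cases c y <;> simp
        · rw [Equiv.swap_apply_right, if_pos k1, if_neg hx]
          revert k3
          cases c a <;> cases c b <;> cases c x <;> simp
      rw [r2 e a _ k5, this]
      exact .link _ _ _ _

theorem final {W : Type} {G : E → Sym2 V} (g : Good G) (H : E → Sym2 W) (hH : ∀ w, ∃ e, w ∈ H e) :
    Relation.EqvGen Move (fun e => ((G e).map Sum.inl, true) : SGraph (V ⊕ W) E)
      (fun e => ((H e).map Sum.inr, true)) ↔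
    ∃ G1, Relation.ReflTransGen Twist G G1 ∧ ∃ φ : V ≃ W, ∀ e, H e = (G1 e).map φ := by
  constructor
  · intro h
    obtain ⟨G1, h1, j, S, hj, r⟩ := (inv_conn g h).1
      ⟨G, .refl, Sum.inl, fun _ => false, Sum.inl_injective, fun e a b hab => by simp [hab]⟩
    have g1 := (good_of g h1).1
    have k1 : ∀ e, (H e).map Sum.inr = (G1 e).map j := fun e => by
      obtain ⟨a, b, hab⟩ := ends G1 e
      rw [hab]
      exact congrArg Prod.fst (r e a b hab)
    have k2 : ∀ v, ∃ w, Sum.inr w = j v := fun v => by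
      by_contra hc
      obtain ⟨w, hw⟩ := g1.big (B := {v}) Set.subsingleton_empty (fun _ _ h => h)
        (fun a ha b ⟨_, e, he⟩ => by
          have : j v ∈ (H e).map Sum.inr := by
            rw [k1, he, ← ha]
            exact Sym2.mem_mk_left _ _
          obtain ⟨w, -, hw⟩ := Sym2.mem_map.1 this
          exact (hc ⟨w, hw⟩).elim) ⟨v, rfl⟩
      exact g1.far v w ⟨fun _ => true, fun a ha => (ha.1 (hw a ha.2)).elim⟩
    choose φ hφ using k2
    have k3 : ∀ e, H e = (G1 e).map φ := fun e => by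
      refine Sym2.map.injective (Sum.inr_injective (α := V)) ?_
      rw [k1, Sym2.map_map]
      exact congrArg (fun f => Sym2.map f (G1 e)) (funext fun v => (hφ v).symm)
    refine ⟨G1, h1, Equiv.ofBijective φ ⟨fun a b e => hj (by rw [← hφ, e, hφ]), fun w => ?_⟩, k3⟩
    obtain ⟨e, he⟩ := hH w
    rw [k3] at he
    obtain ⟨v, -, hv⟩ := Sym2.mem_map.1 he
    exact ⟨v, hv⟩
  · rintro ⟨G1, h1, φ, hφ⟩
    refine .trans _ (fun e => ((G1 e).map Sum.inl, true)) _ ?_ (.rel _ _ ?_)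
    · clear hφ
      induction h1 with
      | refl => exact .refl _
      | tail _ h ih => exact .trans _ _ _ ih (conn_twist h)
    · have := Move.relabel (fun e => ((G1 e).map Sum.inl, true) : SGraph (V ⊕ W) E)
        ((Equiv.sumCongr φ φ.symm).trans (Equiv.sumComm W V))
      simp only [hφ, Sym2.map_map] at this ⊢
      exact this

omit [DecidableEq V] in
theorem adj_iff (G : E → Sym2 V) (a b : V) :
    (SimpleGraph.fromEdgeSet (Set.range G)).Adj a b ↔ Ad G a b := by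
  rw [SimpleGraph.fromEdgeSet_adj]
  exact and_comm

omit [DecidableEq V] in
theorem col_iff (G : E → Sym2 V) (W : Set V) :
    ((SimpleGraph.fromEdgeSet (Set.range G)).induce W).Colorable 2 ↔ Bip (Ad G) W := by
  classical
  constructor
  · rintro ⟨C⟩
    refine ⟨fun v => if h : v ∈ W then decide (C ⟨v, h⟩ = 1) else false, fun a ha b hb hab => ?_⟩
    have := C.valid (v := ⟨a, ha⟩) (w := ⟨b, hb⟩) ((adj_iff G a b).2 hab)
    simp only [dif_pos ha, dif_pos hb]
    revert this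
    generalize C ⟨a, ha⟩ = p
    generalize C ⟨b, hb⟩ = q
    revert p q
    decide
  · rintro ⟨c, hc⟩
    refine ⟨SimpleGraph.Coloring.mk (fun v => if c v.1 = true then 1 else 0) fun {a b} hab => ?_⟩
    have := hc a.1 a.2 b.1 b.2 ((adj_iff G _ _).1 hab)
    revert this
    cases c a.1 <;> cases c b.1 <;> simp

theorem good_simple (G : E → Sym2 V)
    (h2 : ∀ z : V, ((SimpleGraph.fromEdgeSet (Set.range G)).induce {z}ᶜ).Connected)
    (h4 : ¬ ∃ (k : ℕ) (X Z : Finset V), k ≤ 3 ∧ X.card ≤ 2 * k ∧ Z ⊆ X ∧ Z.card ≤ 3 ∧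
      ((SimpleGraph.fromEdgeSet (Set.range G)).induce (Z : Set V)ᶜ).Colorable 2 ∧
      ∀ Y ⊆ X, Y.card < k → ((SimpleGraph.fromEdgeSet (Set.range G)).induce
        ((X \ Y : Finset V) : Set V)ᶜ).Colorable 2)
    (hp : ¬ ∃ (z : V) (J : Set V) (τ : V → V), z ∉ J ∧
      ((SimpleGraph.fromEdgeSet (Set.range G)).induce J).Colorable 2 ∧
      ((SimpleGraph.fromEdgeSet (Set.range G)).induce Jᶜ).Colorable 2 ∧
      ∀ a, a ∉ J → a ≠ z → ∀ b, (SimpleGraph.fromEdgeSet (Set.range G)).Adj a b →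
        (b ∈ J → b = τ a) ∧ (b ∉ J → b ≠ z → τ b = τ a)) : Good G := by
  simp only [col_iff, adj_iff] at h4 hp
  refine ⟨⟨fun z B hz hc ⟨b, hb⟩ v hv => ?_, fun p q h => ?_⟩, hp, h4⟩
  · have key : ∀ p q : ({z}ᶜ : Set V),
        ((SimpleGraph.fromEdgeSet (Set.range G)).induce {z}ᶜ).Walk p q → p.1 ∈ B → q.1 ∈ B := by
      intro p q w
      induction w with
      | nil => exact id
      | @cons p q _ hpq _ ih =>
        exact fun hp => ih ((hc _ hp _ ((adj_iff G _ _).1 hpq)).resolve_right q.2)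
    obtain ⟨w⟩ := (h2 z).preconnected ⟨b, fun e => hz (by rwa [← e])⟩ ⟨v, hv⟩
    exact key _ _ w hb
  · refine h4 ⟨1, {p, q}, {p, q}, by norm_num, Finset.card_le_two, Finset.Subset.refl _,
      Finset.card_le_two.trans (by norm_num), h.mono fun v hv => by simpa using hv,
      fun Y _ k1 => ?_⟩
    obtain rfl : Y = ∅ := Finset.card_eq_zero.1 (by omega)
    exact h.mono fun v hv => by simpa using hv

end Pool.Agent.P.MP_053557_co.FB
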