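import Pool.Agent.P.MP_053557_co.Stmts2

/-!
Removing a non-rigid bad pair by one twist or rotation on each side.
-/

namespace Pool.Agent.P.MP_053557_co

open Module Submodule

namespace Fixs

theorem starop_le_two {ι X : Type} [DecidableEq ι] [AddCommGroup X] [Module F X] (r : ι → X)
    (K : Finset ι) (P : ι → Prop) [DecidablePred P]
    (h2 : ∀ i j k, P i → P j → P k → i = j ∨ i = k ∨ j = k) (hK : ∀ i, P i → i ∉ K) :
    StarOp r fun i => if P i then r i + ∑ v ∈ K, r v else r i := by
  by_cases h0 : ∃ x, P x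
  · obtain ⟨x, hx⟩ := h0
    by_cases h1 : ∃ y, y ≠ x ∧ P y
    · obtain ⟨y, hyx, hy⟩ := h1
      have e : (fun i => if P i then r i + ∑ v ∈ K, r v else r i) =
          fun i => if i = x ∨ i = y then r i + ∑ v ∈ K, r v else r i := by
        funext i
        have : P i ↔ (i = x ∨ i = y) := by
          constructor
          · intro hi
            rcases h2 i x y hi hx hy with h | h | h
            · exact Or.inl h
            · exact Or.inr h
            · exact absurd h.symm hyx
          · rintro (rfl | rfl)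
            · exact hx
            · exact hy
        simp only [this]
      rw [e]
      exact StarOp.twist r K x y hyx.symm (hK x hx) (hK y hy)
    · have e : (fun i => if P i then r i + ∑ v ∈ K, r v else r i) =
          fun i => if i = x then r x + ∑ v ∈ K ∪ ∅, r v
            else r i - ∑ v ∈ (∅ : Finset ι).filter fun v => id v = i, r v := by
        funext i
        by_cases hi : i = x
        · subst hi; simp [hx]
        · have : ¬ P i := fun h => h1 ⟨i, hi, h⟩
          simp [hi, this]
      rw [e]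
      exact StarOp.rotate r x K ∅ id (hK x hx) (by simp) (by simp) (by simp)
  · have e : (fun i => if P i then r i + ∑ v ∈ K, r v else r i) = r ∘ Equiv.refl ι := by
      funext i
      have : ¬ P i := fun h => h0 ⟨i, h⟩
      simp [this]
    rw [e]
    exact StarOp.relabel r _

section

variable {V : Type} [AddCommGroup V] [Module F V] {ι : Type} [Fintype ι] [DecidableEq ι]

/-- A transvection along a difference of joints is one explicit operation. -/
theorem tv (a : Basis ι F V) (K : Finset ι) (ε : ι → F) (hε : ∀ w ∈ K, ε w ≠ 0)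
    (χ : V →ₗ[F] F) (hχ : ∀ x, χ x = ∑ w ∈ K, ε w * a.repr x w) (s : V)
    (hs : s ∈ Dset (Tset a)) (hsK : ∀ w ∈ K, a.repr s w = 0) :
    ∃ a' : Basis ι F V, (∀ x i, a'.repr x i = a.repr x i + χ x * a.repr s i) ∧
      (∀ i, a' i = a i - χ (a i) • s) ∧ FStep (Tset a) (Tset a') := by
  have hfin : Module.Finite F V := Module.Finite.of_basis a
  have hχs : χ s = 0 := by
    rw [hχ]; exact Finset.sum_eq_zero fun w hw => by rw [hsK w hw, mul_zero]
  obtain ⟨a', ha'⟩ := exists_basis_of_coords (fun i => a.coord i + a.repr s i • χ)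
    (fun w hw => by
      have h1 : w + χ w • s = 0 := eq_of_repr a fun i => by
        have := hw i
        simp only [LinearMap.add_apply, Basis.coord_apply, LinearMap.smul_apply,
          smul_eq_mul] at this
        simp only [map_add, map_smul, Finsupp.add_apply, Finsupp.smul_apply, smul_eq_mul,
          map_zero, Finsupp.zero_apply]
        rw [mul_comm]; exact this
      have h2 : χ w = 0 := by
        have := congrArg χ h1
        simpa [hχs] using this
      simpa [h2] using h1) (finrank_eq_card_basis a).symm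
  have hr : ∀ x i, a'.repr x i = a.repr x i + χ x * a.repr s i := by
    intro x i
    rw [ha']
    simp [mul_comm]
  refine ⟨a', hr, fun i => eq_of_repr a' fun j => ?_, ?_⟩
  · rw [hr (a i - χ (a i) • s), repr_basis]
    simp only [map_sub, map_smul, Finsupp.sub_apply, Finsupp.smul_apply, smul_eq_mul, hχs,
      repr_basis]
    ring
  · let η : ι → F := fun i => if i ∈ K then ε i else if a.repr s i ≠ 0 then a.repr s i else 1
    have hη : ∀ i, η i ≠ 0 := by
      intro i
      simp only [η]
      split_ifs with h1 h2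
      · exact hε i h1
      · exact h2
      · exact one_ne_zero
    obtain ⟨g, -, hg, hgT⟩ := resign a η hη
    obtain ⟨g', -, hg', hgT'⟩ := resign a' η hη
    refine ⟨ι, inferInstance, inferInstance, g, g', hgT.symm, hgT'.symm, ?_⟩
    have hsum : ∀ x, ∑ v ∈ K, g.repr x v = χ x := by
      intro x
      rw [hχ]
      refine Finset.sum_congr rfl fun v hv => ?_
      rw [hg]; simp [η, hv]
    have e : g'.coord = fun i => if a.repr s i ≠ 0 then g.coord i + ∑ v ∈ K, g.coord v
        else g.coord i := by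
      funext i
      ext1 x
      by_cases hi : a.repr s i ≠ 0
      · have hiK : i ∉ K := fun h => hi (hsK i h)
        have h1 : η i * a.repr s i = 1 := by
          simp only [η, if_neg hiK, if_pos hi]; exact F_sq hi
        rw [if_pos hi]
        simp only [Basis.coord_apply, LinearMap.add_apply, LinearMap.sum_apply, hsum]
        rw [hg', hg, hr]
        linear_combination χ x * h1
      · rw [if_neg hi]
        simp only [Basis.coord_apply]
        rw [hg', hg, hr, not_not.1 hi]
        ring
    rw [e]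
    exact starop_le_two g.coord K (fun i => a.repr s i ≠ 0) ((mem_Dset_iff a).1 hs)
      fun i hi h => hi (hsK i h)

theorem mem_D_tv {a a' : Basis ι F V} {χ : V →ₗ[F] F} {s : V}
    (hr : ∀ x i, a'.repr x i = a.repr x i + χ x * a.repr s i) {e : V}
    (he : e + χ e • s ∈ Dset (Tset a)) : e ∈ Dset (Tset a') := by
  rw [mem_Dset_iff] at he ⊢
  have : ∀ i, a'.repr e i = a.repr (e + χ e • s) i := fun i => by rw [hr]; simp
  simpa only [this] using he

theorem coord_tv {a a' : Basis ι F V} {χ : V →ₗ[F] F} {s : V}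
    (hr : ∀ x i, a'.repr x i = a.repr x i + χ x * a.repr s i) (i : ι) :
    a'.coord i = a.coord i + a.repr s i • χ := by
  ext1 x
  simp [hr, mul_comm]

variable {a b : Basis ι F V} {C : Set ι}

/-- Vectors killed by all literally common stars. -/
def W1 (a b : Basis ι F V) (C : Set ι) (x : V) : Prop := ∀ w, Lit a b C w → a.repr x w = 0

theorem lit_repr {w : ι} (h : Lit a b C w) (x : V) : b.repr x w = a.repr x w := by
  have := congrArg (fun φ : V →ₗ[F] F => φ x) h.2
  simpa using this

theorem W1.add {x y : V} (hx : W1 a b C x) (hy : W1 a b C y) : W1 a b C (x + y) :=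
  fun w hw => by simp [hx w hw, hy w hw]

theorem W1.sub {x y : V} (hx : W1 a b C x) (hy : W1 a b C y) : W1 a b C (x - y) :=
  fun w hw => by simp [hx w hw, hy w hw]

theorem W1.neg {x : V} (hx : W1 a b C x) : W1 a b C (-x) :=
  fun w hw => by simp [hx w hw]

theorem W1.smul {x : V} (c : F) (hx : W1 a b C x) : W1 a b C (c • x) :=
  fun w hw => by simp [hx w hw]

theorem w1_zero : W1 a b C 0 := fun w _ => by simp

theorem w1_u {w : ι} (_hw : Lit a b C w) : W1 a b C (a w - b w) := by
  intro w' hw'
  rw [map_sub, Finsupp.sub_apply, ← lit_repr hw' (b w), repr_basis, repr_basis, sub_self]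

theorem lev_ne {p w : ι} (hp : Lev1 a b C p) (hw : Lit a b C w) : p ≠ w := by
  rintro rfl
  exact hp.2.1 hw.2

theorem w1_a {p : ι} (hp : Lev1 a b C p) : W1 a b C (a p) :=
  fun _ hw => repr_basis_ne a (lev_ne hp hw)

theorem w1_b {p : ι} (hp : Lev1 a b C p) : W1 a b C (b p) :=
  fun _ hw => by rw [← lit_repr hw]; exact repr_basis_ne b (lev_ne hp hw)

theorem lev_repr {p : ι} (hp : Lev1 a b C p) {x : V} (hx : W1 a b C x) :
    b.repr x p = a.repr x p := by
  have h : ∀ φ ∈ span F (a.coord '' {v | Lit a b C v}), φ x = 0 := by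
    intro φ hφ
    induction hφ using Submodule.span_induction with
    | mem φ h =>
      obtain ⟨w, hw, rfl⟩ := h
      simpa using hx w hw
    | zero => simp
    | add φ ψ _ _ h1 h2 => simp [h1, h2]
    | smul c φ _ h1 => simp [h1]
  have := h _ hp.2.2
  simpa [sub_eq_zero] using this

/-- The choice of the two translation vectors. -/
theorem shifts {p v : ι} (hp : Lev1 a b C p) (hrig : ¬ Rig a b p v) {u : V} (hu : W1 a b C u)
    (hu1 : a.repr u p = 1) (huv : a v - b v = u ∨ a v - b v = -u) {t0 : V}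
    (h0 : t0 ∈ Tset a ∧ W1 a b C t0 ∧ t0 + u ∈ Tset b) :
    ∃ s s' : V, W1 a b C s ∧ W1 a b C s' ∧ s ∈ Dset (Tset a) ∧ s' ∈ Dset (Tset b) ∧
      (∀ t, t ∈ Tset a → W1 a b C t → t + u ∈ Tset b →
        t + s ∈ Tset a ∧ t + u + s' ∈ Tset b) ∧
      ∀ p', Lev1 a b C p' → a.repr (u - s + s') p' = 0 := by
  have c1 : ∀ t, t ∈ Tset a → W1 a b C t → t + u ∈ Tset b → a.repr t p = 1 →
      t = a p ∧ a p + u = -b p := by
    intro t h1 h2 h3 h4
    have e1 : t = a p := by
      have := Tset_eq_smul a h1 (i := p) (by rw [h4]; exact one_ne_zero)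
      rwa [h4, one_smul] at this
    have e2 : b.repr (t + u) p = -1 := by
      rw [lev_repr hp (h2.add hu), map_add, Finsupp.add_apply, h4, hu1]; decide
    have := Tset_eq_smul b h3 (i := p) (by rw [e2]; decide)
    rw [e2, neg_one_smul, e1] at this
    exact ⟨e1, this⟩
  have c2 : ∀ t, t ∈ Tset a → a.repr t p = -1 → t = -a p := by
    intro t h1 h4
    have := Tset_eq_smul a h1 (i := p) (by rw [h4]; decide)
    rwa [h4, neg_one_smul] at this
  have c0 : ∀ t, W1 a b C t → t + u ∈ Tset b → a.repr t p = 0 → t + u = b p := by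
    intro t h2 h3 h4
    have e2 : b.repr (t + u) p = 1 := by
      rw [lev_repr hp (h2.add hu), map_add, Finsupp.add_apply, h4, hu1, zero_add]
    have := Tset_eq_smul b h3 (i := p) (by rw [e2]; exact one_ne_zero)
    rwa [e2, one_smul] at this
  have inj : ∀ t t', t ∈ Tset a → W1 a b C t → t + u ∈ Tset b → t' ∈ Tset a → W1 a b C t' →
      t' + u ∈ Tset b → a.repr t p = a.repr t' p → t = t' := by
    intro t t' h1 h2 h3 k1 k2 k3 e
    rcases F_cases (a.repr t p) with h | h | h
    · exact add_right_cancel ((c0 t h2 h3 h).trans (c0 t' k2 k3 (e ▸ h)).symm)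
    · exact (c1 t h1 h2 h3 h).1.trans (c1 t' k1 k2 k3 (e ▸ h)).1.symm
    · exact (c2 t h1 h).trans (c2 t' k1 (e ▸ h)).symm
  by_cases hall : ∀ c : F, ∃ t, t ∈ Tset a ∧ W1 a b C t ∧ t + u ∈ Tset b ∧ a.repr t p = c
  · obtain ⟨x0, h01, h02, h03, h04⟩ := hall 0
    obtain ⟨x1, h11, h12, h13, h14⟩ := hall 1
    obtain ⟨x2, h21, -, h23, h24⟩ := hall (-1)
    have e0 := c0 x0 h02 h03 h04
    have e1 := (c1 x1 h11 h12 h13 h14).2
    have e2 := c2 x2 h21 h24
    have z0 : x0 = a p - b p := by
      linear_combination (norm := module) e0 - e1 + three (b p)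
    have z2 : x2 + u = a p - b p := by
      linear_combination (norm := module) e2 + e1 - three (a p)
    have hu' : u = -(a p + b p) := by
      linear_combination (norm := module) e1
    have hab : a p = b p := by
      by_contra hne
      refine hrig ⟨hne, z0 ▸ h01, z2 ▸ h23, ?_⟩
      rcases huv with h | h
      · exact Or.inr (h.trans hu')
      · exact Or.inl (by rw [h, hu', neg_neg])
    have hub : u = b p := by
      linear_combination (norm := module) hu' - hab - three (b p)
    refine ⟨0, -u, w1_zero, hu.neg, zero_mem_Dset _, ?_, ?_, ?_⟩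
    · rw [hub]
      exact Tset_subset_Dset _ (neg_mem_Tset (self_mem_Tset b p))
    · intro t h1 h2 h3
      refine ⟨by simpa using h1, ?_⟩
      rw [add_neg_cancel_right]
      rcases F_cases (a.repr t p) with h | h | h
      · have := c0 t h2 h3 h
        rw [hub, add_eq_right] at this
        rw [this]; exact zero_mem_Tset _
      · rw [(c1 t h1 h2 h3 h).1, hab]; exact self_mem_Tset b p
      · rw [c2 t h1 h, hab]; exact neg_mem_Tset (self_mem_Tset b p)
    · intro p' _
      simp
  push Not at hall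
  obtain ⟨c, hc⟩ := hall
  by_cases htwo : ∃ t1 t2, (t1 ∈ Tset a ∧ W1 a b C t1 ∧ t1 + u ∈ Tset b) ∧
      (t2 ∈ Tset a ∧ W1 a b C t2 ∧ t2 + u ∈ Tset b) ∧ a.repr t1 p = a.repr t2 p + 1
  · obtain ⟨t1, t2, ⟨h11, h12, h13⟩, ⟨h21, h22, h23⟩, e⟩ := htwo
    have da : t1 - t2 - a p ∈ Tset a :=
      sub_mem_Tset_one a (sub_mem_Dset h11 h21) (by simp [e])
    have db : t1 - t2 - b p ∈ Tset b := by
      refine sub_mem_Tset_one b ?_ (by rw [lev_repr hp (h12.sub h22)]; simp [e])
      have := sub_mem_Dset h13 h23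
      rwa [add_sub_add_right_eq_sub] at this
    refine ⟨a p - t1, b p - (t1 + u), (w1_a hp).sub h12, (w1_b hp).sub (h12.add hu),
      sub_mem_Dset (self_mem_Tset a p) h11, sub_mem_Dset (self_mem_Tset b p) h13, ?_, ?_⟩
    · intro t h1 h2 h3
      have n := hc t h1 h2 h3
      have n1 := hc t1 h11 h12 h13
      have n2 := hc t2 h21 h22 h23
      have : a.repr t p = a.repr t1 p ∨ a.repr t p = a.repr t2 p := by
        revert n n1 n2
        rw [e]
        generalize a.repr t p = x
        generalize a.repr t2 p = y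
        clear hc
        revert x y c
        decide
      rcases this with h | h
      · rw [inj t t1 h1 h2 h3 h11 h12 h13 h]
        refine ⟨?_, ?_⟩
        · rw [add_sub_cancel]; exact self_mem_Tset a p
        · rw [add_sub_cancel]; exact self_mem_Tset b p
      · rw [inj t t2 h1 h2 h3 h21 h22 h23 h]
        refine ⟨?_, ?_⟩
        · rw [show t2 + (a p - t1) = -(t1 - t2 - a p) by abel]; exact neg_mem_Tset da
        · rw [show t2 + u + (b p - (t1 + u)) = -(t1 - t2 - b p) by abel]; exact neg_mem_Tset db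
    · intro p' hp'
      rw [show u - (a p - t1) + (b p - (t1 + u)) = b p - a p by abel, map_sub,
        Finsupp.sub_apply, ← lev_repr hp' (w1_b hp), repr_basis, repr_basis, sub_self]
  · obtain ⟨h01, h02, h03⟩ := h0
    refine ⟨-t0, -(t0 + u), h02.neg, (h02.add hu).neg, Tset_subset_Dset _ (neg_mem_Tset h01),
      Tset_subset_Dset _ (neg_mem_Tset h03), ?_, ?_⟩
    · intro t h1 h2 h3
      have : a.repr t p = a.repr t0 p := by
        have n1 : a.repr t p ≠ a.repr t0 p + 1 := fun h =>
          htwo ⟨t, t0, ⟨h1, h2, h3⟩, ⟨h01, h02, h03⟩, h⟩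
        have n2 : a.repr t0 p ≠ a.repr t p + 1 := fun h =>
          htwo ⟨t0, t, ⟨h01, h02, h03⟩, ⟨h1, h2, h3⟩, h⟩
        revert n1 n2
        generalize a.repr t p = x
        generalize a.repr t0 p = y
        revert x y
        decide
      rw [inj t t0 h1 h2 h3 h01 h02 h03 this]
      refine ⟨?_, ?_⟩
      · rw [add_neg_cancel]; exact zero_mem_Tset _
      · rw [add_neg_cancel]; exact zero_mem_Tset _
    · intro p' _
      rw [show u - -t0 + -(t0 + u) = 0 by abel]
      simp

/-- Shape of an edge on which the functional of the class takes the value one. -/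
theorem edge {K : Finset ι} {ε : ι → F} {u : V} (hu0 : u ≠ 0)
    (hK : ∀ w, w ∈ K ↔ Lit a b C w ∧ (a w - b w = u ∨ a w - b w = -u))
    (hε : ∀ w ∈ K, ε w ≠ 0) (hεu : ∀ w ∈ K, a w - b w = ε w • u) {e : V} (he : e ∈ EE a b)
    (h1 : ∑ w ∈ K, ε w * a.repr e w = 1) :
    ∃ w ∈ K, ∃ t, t ∈ Tset a ∧ W1 a b C t ∧ t + u ∈ Tset b ∧ e = ε w • a w + t ∧
      e = ε w • b w + (t + u) := by
  obtain ⟨w, hw, hw0⟩ := Finset.exists_ne_zero_of_sum_ne_zero (h1 ▸ one_ne_zero)
  have hwe : a.repr e w ≠ 0 := right_ne_zero_of_mul hw0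
  have hwL := ((hK w).1 hw).1
  have only : ∀ w', Lit a b C w' → w' ≠ w → a.repr e w' = 0 := by
    intro w' hw' hne
    by_contra hw'e
    have ea := Dset_eq_two a he.1 hne.symm hwe hw'e
    have eb := Dset_eq_two b he.2 hne.symm (by rwa [lit_repr hwL]) (by rwa [lit_repr hw'])
    rw [lit_repr hwL, lit_repr hw'] at eb
    set c := a.repr e w with hc
    set c' := a.repr e w' with hc'
    have e1 : c • (a w - b w) + c' • (a w' - b w') = 0 := by
      linear_combination (norm := module) eb - ea
    have e2 : a w' - b w' = (-(c' * c * ε w)) • u := by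
      rw [hεu w hw] at e1
      have e3 : a w' - b w' = (c' * c') • (a w' - b w') := by rw [F_sq hw'e, one_smul]
      rw [e3]
      linear_combination (norm := module) c' • e1
    have hw'K : w' ∈ K := by
      refine (hK w').2 ⟨hw', ?_⟩
      rcases F_ne_cases (neg_ne_zero.2 (mul_ne_zero (mul_ne_zero hw'e hwe) (hε w hw))) with
        h | h
      · rw [e2, h, one_smul]; exact Or.inl rfl
      · rw [e2, h, neg_one_smul]; exact Or.inr rfl
    have e4 : (c * ε w + c' * ε w') • u = 0 := by
      rw [hεu w hw, hεu w' hw'K] at e1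
      linear_combination (norm := module) e1
    have e5 : c * ε w + c' * ε w' = 0 := (smul_eq_zero.1 e4).resolve_right hu0
    have e6 : ∑ i ∈ K, ε i * a.repr e i = ε w * c + ε w' * c' := by
      rw [← Finset.sum_pair (f := fun i => ε i * a.repr e i) hne.symm]
      symm
      refine Finset.sum_subset (by simp [Finset.insert_subset_iff, hw, hw'K]) fun i _ hi => ?_
      simp only [Finset.mem_insert, Finset.mem_singleton, not_or] at hi
      rw [repr_eq_zero_of_Dset a he.1 hne.symm hwe hw'e hi.1 hi.2, mul_zero]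
    rw [e6] at h1
    exact one_ne_zero (by linear_combination e5 - h1 : (1 : F) = 0)
  have e7 : ε w * a.repr e w = 1 := by
    rw [← h1]
    symm
    refine Finset.sum_eq_single_of_mem w hw fun i hi hne => ?_
    rw [only i ((hK i).1 hi).1 hne, mul_zero]
  have e8 : a.repr e w = ε w := by
    have := F_sq (hε w hw)
    linear_combination ε w * e7 - a.repr e w * this
  have e9 : ε w • (a w - b w) = u := by
    rw [hεu w hw, smul_smul, F_sq (hε w hw), one_smul]
  refine ⟨w, hw, e - ε w • a w, e8 ▸ sub_mem_Tset a he.1 hwe, ?_, ?_, by abel, ?_⟩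
  · intro w' hw'
    by_cases h : w' = w
    · subst h; simp [e8]
    · simp [only w' hw' h, single_ne (Ne.symm h)]
  · have := sub_mem_Tset b he.2 (i := w) (by rwa [lit_repr hwL])
    rw [lit_repr hwL, e8] at this
    rwa [show e - ε w • a w + u = e - ε w • b w by rw [← e9]; module]
  · rw [← e9]; module

end

end Fixs

open Fixs in
theorem s_fixs : S_FIXS := by
  classical
  intro V _ _ ι _ _ a b C r E0 p v htm hE hsp hbad hrig
  obtain ⟨hp, hv, hc⟩ := hbad
  set c := b.repr (a v) p with hcdef
  set u : V := c • (a v - b v) with hudef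
  have hu : W1 a b C u := (w1_u hv).smul c
  have hlev : ∀ p' w, Lev1 a b C p' → Lit a b C w →
      b.repr (a w) p' = a.repr (a w - b w) p' := by
    intro p' w hp' hw
    rw [← lev_repr hp' (w1_u hw), map_sub, Finsupp.sub_apply,
      repr_basis_ne b (lev_ne hp' hw).symm, sub_zero]
  have hu1 : a.repr u p = 1 := by
    rw [hudef, map_smul, Finsupp.smul_apply, ← hlev p v hp hv, smul_eq_mul]
    exact F_sq hc
  have hu0 : u ≠ 0 := by
    intro h
    rw [h] at hu1
    simp at hu1
  have huv : a v - b v = u ∨ a v - b v = -u := by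
    rcases F_ne_cases hc with h | h
    · left; rw [hudef, h, one_smul]
    · right; rw [hudef, h, neg_one_smul, neg_neg]
  let K : Finset ι := Finset.univ.filter fun w =>
    Lit a b C w ∧ (a w - b w = u ∨ a w - b w = -u)
  have hK : ∀ w, w ∈ K ↔ Lit a b C w ∧ (a w - b w = u ∨ a w - b w = -u) := by simp [K]
  let ε : ι → F := fun w => a.repr (a w - b w) p
  have hεu : ∀ w ∈ K, ε w ≠ 0 ∧ a w - b w = ε w • u := by
    intro w hw
    rcases ((hK w).1 hw).2 with h | h
    · have : ε w = 1 := by simp only [ε]; rw [h, hu1]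
      rw [this, one_smul]
      exact ⟨one_ne_zero, h⟩
    · have : ε w = -1 := by simp only [ε]; rw [h]; simp [hu1]
      rw [this, neg_one_smul]
      exact ⟨by decide, h⟩
  have hε : ∀ w ∈ K, ε w ≠ 0 := fun w hw => (hεu w hw).1
  let χ : V →ₗ[F] F := ∑ w ∈ K, ε w • a.coord w
  have hχ : ∀ x, χ x = ∑ w ∈ K, ε w * a.repr x w := by
    intro x; simp [χ]
  have hχb : ∀ x, χ x = ∑ w ∈ K, ε w * b.repr x w := by
    intro x
    rw [hχ]
    exact Finset.sum_congr rfl fun w hw => by rw [lit_repr ((hK w).1 hw).1]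
  have hχa : ∀ w, χ (a w) = if w ∈ K then ε w else 0 := by
    intro w
    rw [hχ]
    simp only [repr_basis, mul_ite, mul_one, mul_zero, Finset.sum_ite_eq]
  have hχW : ∀ x, W1 a b C x → χ x = 0 := by
    intro x hx
    rw [hχ]
    exact Finset.sum_eq_zero fun w hw => by rw [hx w ((hK w).1 hw).1, mul_zero]
  have hvK : v ∈ K := (hK v).2 ⟨hv, huv⟩
  have hedge : ∀ e ∈ EE a b, χ e = 1 → ∃ w ∈ K, ∃ t, t ∈ Tset a ∧ W1 a b C t ∧
      t + u ∈ Tset b ∧ e = ε w • a w + t ∧ e = ε w • b w + (t + u) :=
    fun e he h1 => edge hu0 hK hε (fun w hw => (hεu w hw).2) he (by rw [← hχ, h1])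
  have hX : ∃ t0, t0 ∈ Tset a ∧ W1 a b C t0 ∧ t0 + u ∈ Tset b := by
    have : ∃ e ∈ E0, χ e ≠ 0 := by
      by_contra h
      push Not at h
      have h0 := hsp.eq_zero h
      have h1 := hχa v
      rw [h0, if_pos hvK] at h1
      exact hε v hvK (by simpa using h1.symm)
    obtain ⟨e, he, h1⟩ := this
    rcases F_ne_cases h1 with h | h
    · obtain ⟨-, -, t, k1, k2, k3, -⟩ := hedge e (hE he) h
      exact ⟨t, k1, k2, k3⟩
    · obtain ⟨-, -, t, k1, k2, k3, -⟩ := hedge (-e) (neg_mem_Ed (hE he)) (by simp [h])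
      exact ⟨t, k1, k2, k3⟩
  obtain ⟨t0, ht0⟩ := hX
  obtain ⟨s, s', hs, hs', hsD, hsD', hst, hlev0⟩ := shifts hp hrig hu hu1 huv ht0
  obtain ⟨a', hra, haa, hfa⟩ := tv a K ε hε χ hχ s hsD fun w hw => hs w ((hK w).1 hw).1
  obtain ⟨b', hrb, -, hfb⟩ := tv b K ε hε χ hχb s' hsD' fun w hw => by
    rw [lit_repr ((hK w).1 hw).1]; exact hs' w ((hK w).1 hw).1
  have ca := coord_tv hra
  have cb := coord_tv hrb
  have caL : ∀ w, Lit a b C w → a'.coord w = a.coord w := by
    intro w hw; rw [ca, hs w hw, zero_smul, add_zero]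
  have hLit : ∀ w, Lit a b C w → Lit a' b' C w := by
    intro w hw
    refine ⟨hw.1, ?_⟩
    rw [caL w hw, cb, lit_repr hw, hs' w hw, zero_smul, add_zero, hw.2]
  have hχS : ∀ S : Set ι, (∀ w, Lit a b C w → w ∈ S) → χ ∈ span F (a'.coord '' S) := by
    intro S hS
    refine Submodule.sum_mem _ fun w hw => Submodule.smul_mem _ _ (subset_span ?_)
    have hw' := ((hK w).1 hw).1
    exact ⟨w, hS w hw', caL w hw'⟩
  have hle : ∀ S S' : Set ι, (∀ w, Lit a b C w → w ∈ S') → S ⊆ S' →
      span F (a.coord '' S) ≤ span F (a'.coord '' S') := by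
    intro S S' hS hSS
    refine span_le.2 ?_
    rintro _ ⟨i, hi, rfl⟩
    have : a.coord i = a'.coord i - a.repr s i • χ := by rw [ca]; abel
    rw [this]
    exact Submodule.sub_mem _ (subset_span ⟨i, hSS hi, rfl⟩)
      (Submodule.smul_mem _ _ (hχS S' hS))
  have hE' : E0 ⊆ EE a' b' := by
    have key : ∀ e ∈ EE a b, χ e = 1 → e ∈ EE a' b' := by
      intro e he h1
      obtain ⟨w, -, t, k1, k2, k3, k4, k5⟩ := hedge e he h1
      obtain ⟨m1, m2⟩ := hst t k1 k2 k3
      refine ⟨mem_D_tv hra ?_, mem_D_tv hrb ?_⟩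
      · rw [h1, one_smul, k4, add_assoc]
        exact add_mem_Dset (smul_mem_Tset _ (self_mem_Tset a w)) m1
      · rw [h1, one_smul, k5, add_assoc]
        exact add_mem_Dset (smul_mem_Tset _ (self_mem_Tset b w)) m2
    intro e he
    rcases F_cases (χ e) with h | h | h
    · exact ⟨mem_D_tv hra (by simpa [h] using (hE he).1),
        mem_D_tv hrb (by simpa [h] using (hE he).2)⟩
    · exact key e (hE he) h
    · simpa using neg_mem_Ed (key (-e) (neg_mem_Ed (hE he)) (by simp [h]))
  refine ⟨a', b', fun i => if Lit a b C i then 0 else r i + 1, ⟨?_, ?_⟩, hE', ?_, ?_, hLit, ?_⟩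
  · intro q hq
    by_cases hqL : Lit a b C q
    · rw [(hLit q hqL).2, sub_self]; exact Submodule.zero_mem _
    · have hS : ∀ w, Lit a b C w → w ∈ {p' | p' ∉ C ∧ (if Lit a b C p' then 0 else r p' + 1) <
          (if Lit a b C q then 0 else r q + 1)} := by
        intro w hw
        refine ⟨hw.1, ?_⟩
        rw [if_pos hw, if_neg hqL]; omega
      have e : b'.coord q - a'.coord q =
          (b.coord q - a.coord q) + (b.repr s' q - a.repr s q) • χ := by
        rw [ca, cb]; module
      rw [e]
      refine Submodule.add_mem _ (hle _ _ hS ?_ (htm.tri q hq))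
        (Submodule.smul_mem _ _ (hχS _ hS))
      rintro i ⟨hi, hri⟩
      refine ⟨hi, ?_⟩
      rw [if_neg hqL]
      split_ifs <;> omega
  · rcases htm.core with h | ⟨k, Z, x, hZ, hx, hl⟩
    · exact Or.inl h
    · refine Or.inr ⟨k, Z, x, hZ, hx, fun l => ?_⟩
      have hS : ∀ w, Lit a b C w → w ∈ Cᶜ := fun w hw => hw.1
      have e : b'.coord (x l) - ∑ i, Z l i • a'.coord (x i) =
          (b.coord (x l) - ∑ i, Z l i • a.coord (x i)) +
            (b.repr s' (x l) - ∑ i, Z l i * a.repr s (x i)) • χ := by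
        ext1 y
        simp only [ca, cb, LinearMap.add_apply, LinearMap.sub_apply, LinearMap.sum_apply,
          LinearMap.smul_apply, smul_eq_mul, mul_add, Finset.sum_add_distrib, sub_mul,
          Finset.sum_mul, mul_assoc]
        ring
      rw [e]
      exact Submodule.add_mem _ (hle _ _ hS subset_rfl (hl l))
        (Submodule.smul_mem _ _ (hχS _ hS))
  · exact Relation.ReflTransGen.single
      ⟨fun e he => (hE he).1, fun e he => (hE' he).1, Or.inl hfa⟩
  · exact Relation.ReflTransGen.single
      ⟨fun e he => (hE' he).2, fun e he => (hE he).2, Or.inr hfb⟩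
  · intro hback
    have key : ∀ p' w, Bad a' b' C p' w → Bad a b C p' w ∧ w ∉ K := by
      rintro p' w ⟨hp', hw', hne⟩
      have hw := hback w hw'
      have hl : Lev1 a b C p' := by
        refine ⟨hp'.1, fun h => hp'.2.1 (hLit p' ⟨hp'.1, h⟩).2, ?_⟩
        have e : b.coord p' - a.coord p' =
            (b'.coord p' - a'.coord p') - (b.repr s' p' - a.repr s p') • χ := by
          rw [ca, cb]; module
        have hset : a'.coord '' {v | Lit a' b' C v} = a.coord '' {v | Lit a b C v} := by
          ext φ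
          constructor
          · rintro ⟨i, hi, rfl⟩
            exact ⟨i, hback i hi, (caL i (hback i hi)).symm⟩
          · rintro ⟨i, hi, rfl⟩
            exact ⟨i, hLit i hi, caL i hi⟩
        rw [e, ← hset]
        exact Submodule.sub_mem _ hp'.2.2 (Submodule.smul_mem _ _ (hχS _ hLit))
      have hval : b'.repr (a' w) p' =
          b.repr (a w) p' + χ (a w) * (a.repr s' p' - a.repr s p') := by
        rw [hrb, haa, ← lev_repr hl hs, ← lev_repr hl hs']
        simp only [map_sub, map_smul, Finsupp.sub_apply, Finsupp.smul_apply, smul_eq_mul,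
          hχW s hs]
        ring
      have hwK : w ∉ K := by
        intro hwK
        apply hne
        have h0 := hlev0 p' hl
        simp only [map_add, map_sub, Finsupp.add_apply, Finsupp.sub_apply] at h0
        rw [hval, hχa, if_pos hwK, hlev p' w hl hw, (hεu w hwK).2, map_smul,
          Finsupp.smul_apply, smul_eq_mul]
        linear_combination ε w * h0
      refine ⟨⟨hl, hw, ?_⟩, hwK⟩
      rwa [hval, hχa, if_neg hwK, zero_mul, add_zero] at hne
    refine Set.ncard_lt_ncard ⟨fun q hq => (key _ _ hq).1, fun h => ?_⟩ (Set.toFinite _)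
    exact (key p v (h (show (p, v) ∈ {q : ι × ι | Bad a b C q.1 q.2} from ⟨hp, hv, hc⟩))).2 hvK

end Pool.Agent.P.MP_053557_co
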