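import Pool.Agent.P.MP_053557_co.Basic2

/-! Joints off the geodesic are light. -/

namespace Pool.Agent.P.MP_053557_co

open Module Submodule

namespace Light

set_option linter.unusedSectionVars false

variable {V : Type} [AddCommGroup V] [Module F V] {ι κ ρ : Type} [Fintype ι]
  [DecidableEq ι] [Fintype κ] [DecidableEq κ] [Fintype ρ] [DecidableEq ρ]
  {a : Basis ι F V} {f : Basis κ F V} {x : ℤ → V} {L : ℕ} {χ : ρ → V →ₗ[F] F}

/-- The facts about adjacency that are used below. -/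
structure Cx (a : Basis ι F V) (f : Basis κ F V) : Prop where
  af : Af a f
  adj : ∀ x ∈ Gm a, ∀ y ∈ Gm a, Adj f x y ↔ (Df f x y).card = 2
  same : ∀ x ∈ Gm a, ∀ y ∈ Gm a, ∀ z ∈ Gm a, ∀ w ∈ Gm a, Adj f x y → Adj f z w →
    Df f x y = Df f z w → x - y = z - w ∨ x - y = w - z
  two : ∀ x ∈ Gm a, ∀ c, ∃ y ∈ Gm a, ∃ y' ∈ Gm a, y ≠ y' ∧ Adj f x y ∧ Adj f x y' ∧
    c ∉ Df f x y ∧ c ∉ Df f x y'

theorem cx_of (hAFB : S_AFB) (h : Af a f) : Cx a f :=
  let k := hAFB a f h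
  ⟨h, k.1, k.2.1, k.2.2.2.1⟩

theorem repr_ne (h : Af a f) {y : V} (hy : y ∈ Gm a) (l : κ) : f.repr y l ≠ 0 := by
  obtain ⟨i, rfl | rfl⟩ := mem_Gm_iff.1 hy
  · exact h.full i l
  · simpa using h.full i l

theorem F_tri {p q r : F} (hp : p ≠ 0) (hq : q ≠ 0) (hr : r ≠ 0) :
    p ≠ r ↔ ¬ (p ≠ q ↔ q ≠ r) := by
  revert p q r; decide

theorem F_neg {p q : F} (hp : p ≠ 0) (hq : q ≠ 0) : p ≠ -q ↔ ¬ (p ≠ q) := by
  revert p q; decide

theorem mem_Df_tri (h : Af a f) {y z w : V} (hy : y ∈ Gm a) (hz : z ∈ Gm a) (hw : w ∈ Gm a)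
    (l : κ) : l ∈ Df f y w ↔ ¬ (l ∈ Df f y z ↔ l ∈ Df f z w) := by
  simp only [mem_Df]
  exact F_tri (repr_ne h hy l) (repr_ne h hz l) (repr_ne h hw l)

theorem mem_Df_neg (h : Af a f) {y z : V} (hy : y ∈ Gm a) (hz : z ∈ Gm a) (l : κ) :
    l ∈ Df f y (-z) ↔ l ∉ Df f y z := by
  simp only [mem_Df, map_neg, Finsupp.neg_apply]
  exact F_neg (repr_ne h hy l) (repr_ne h hz l)

theorem card_Df_neg (h : Af a f) {y z : V} (hy : y ∈ Gm a) (hz : z ∈ Gm a) :
    (Df f y (-z)).card + (Df f y z).card = Fintype.card ι := by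
  have h1 : Df f y (-z) = (Df f y z)ᶜ := by
    ext l; rw [mem_Df_neg h hy hz, Finset.mem_compl]
  rw [h1, Finset.card_compl, ← card_eq_card a f]
  have := Finset.card_le_univ (Df f y z)
  omega

theorem Cx.not_both (h : Cx a f) {y z : V} (hy : y ∈ Gm a) (hz : z ∈ Gm a) (h1 : Adj f y z) :
    ¬ Adj f y (-z) := by
  intro h2
  have h3 := card_Df_neg h.af hy hz
  rw [(h.adj y hy z hz).1 h1, (h.adj y hy _ (neg_mem_Gm hz)).1 h2] at h3
  have := h.af.eight
  omega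

theorem Cx.not_neg (h : Cx a f) {y : V} (hy : y ∈ Gm a) : ¬ Adj f y (-y) := by
  intro h2
  have h3 := card_Df_neg h.af hy hy
  have h4 : Df f y y = ∅ := by ext l; simp [mem_Df]
  rw [h4, (h.adj y hy _ (neg_mem_Gm hy)).1 h2] at h3
  have := h.af.eight
  simp at h3
  omega

theorem Cx.ne_neg (h : Cx a f) {y z : V} (hy : y ∈ Gm a) (h1 : Adj f y z) : y ≠ -z := by
  intro h2
  have h3 : z = -y := by rw [h2, neg_neg]
  rw [h3] at h1
  exact h.not_neg hy h1

theorem Cx.nb_ne_neg (h : Cx a f) {y z w : V} (hy : y ∈ Gm a) (hw : w ∈ Gm a) (h1 : Adj f y z)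
    (h2 : Adj f y w) : z ≠ -w := by
  rintro rfl
  exact h.not_both hy hw h2 h1

theorem Cx.ex_Df (h : Cx a f) {y z : V} (hy : y ∈ Gm a) (hz : z ∈ Gm a) (h1 : Adj f y z) :
    ∃ c, c ∈ Df f y z :=
  Finset.card_pos.1 (by rw [(h.adj y hy z hz).1 h1]; norm_num)

/-- Besides a given neighbour there are two more. -/
theorem Cx.others (h : Cx a f) {y z : V} (hy : y ∈ Gm a) (hz : z ∈ Gm a) (h1 : Adj f y z) :
    ∃ w ∈ Gm a, ∃ w' ∈ Gm a, w ≠ w' ∧ Adj f y w ∧ Adj f y w' ∧ z ≠ w ∧ z ≠ w' := by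
  obtain ⟨c, hc⟩ := h.ex_Df hy hz h1
  obtain ⟨w, hw, w', hw', h2, h3, h4, h5, h6⟩ := h.two y hy c
  exact ⟨w, hw, w', hw', h2, h3, h4, fun e => h5 (e ▸ hc), fun e => h6 (e ▸ hc)⟩

theorem Cx.three (h : Cx a f) {y : V} (hy : y ∈ Gm a) :
    ∃ z ∈ Gm a, ∃ w ∈ Gm a, ∃ w' ∈ Gm a, Adj f y z ∧ Adj f y w ∧ Adj f y w' ∧
      z ≠ w ∧ z ≠ w' ∧ w ≠ w' := by
  have : Nonempty κ := Fintype.card_pos_iff.1 (by
    rw [card_eq_card a f]; have := h.af.eight; omega)
  obtain ⟨z, hz, -, -, -, h1, -⟩ := h.two y hy this.some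
  obtain ⟨w, hw, w', hw', h2, h3, h4, h5, h6⟩ := h.others hy hz h1
  exact ⟨z, hz, w, hw, w', hw', h1, h3, h4, h5, h6, h2⟩

/-- In a triangle the two edges at a vertex share a coordinate. -/
theorem Cx.tri (h : Cx a f) {y z w : V} (hy : y ∈ Gm a) (hz : z ∈ Gm a) (hw : w ∈ Gm a)
    (h1 : Adj f y z) (h2 : Adj f z w) (h3 : Adj f y w) :
    ∃ c, c ∈ Df f y z ∧ c ∈ Df f z w := by
  by_contra hc
  push Not at hc
  have h4 : Df f y w = Df f y z ∪ Df f z w := by
    ext l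
    rw [mem_Df_tri h.af hy hz hw, Finset.mem_union]
    have := hc l
    tauto
  have h5 := (h.adj y hy w hw).1 h3
  rw [h4, Finset.card_union_of_disjoint (Finset.disjoint_left.2 hc), (h.adj y hy z hz).1 h1,
    (h.adj z hz w hw).1 h2] at h5
  omega

/-! ### Joints off the geodesic -/

theorem off_neg (g : Geo a f x L) {y : V} (h : Off a x y) : Off a x (-y) :=
  ⟨neg_mem_Gm h.1, fun s e => h.2 (s + L) (by rw [g.anti, ← e, neg_neg])⟩

theorem off_idx (g : Geo a f x L) {y : V} (h : Off a x y) :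
    ∃ i, Off a x (a i) ∧ (y = a i ∨ y = -a i) := by
  obtain ⟨i, rfl | rfl⟩ := mem_Gm_iff.1 h.1
  · exact ⟨i, h, Or.inl rfl⟩
  · exact ⟨i, by simpa using off_neg g h, Or.inr rfl⟩

theorem idx_ne {y z : V} {i j : ι} (h1 : y = a i ∨ y = -a i) (h2 : z = a j ∨ z = -a j)
    (h3 : y ≠ z) (h4 : y ≠ -z) : i ≠ j := by
  rintro rfl
  rcases h1 with rfl | rfl <;> rcases h2 with rfl | rfl <;> simp at h3 h4

theorem repr_idx {y : V} {i j : ι} (h1 : y = a i ∨ y = -a i) (h2 : i ≠ j) : a.repr y j = 0 := by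
  rcases h1 with rfl | rfl <;> simp [single_ne h2]

theorem repr_idx_ne {y : V} {i : ι} (h1 : y = a i ∨ y = -a i) : a.repr y i ≠ 0 := by
  rcases h1 with rfl | rfl <;> simp

theorem coord_kill (g : Geo a f x L) {p : ι} (hp : Off a x (a p)) {u : V}
    (hu : u ∈ span F (Set.range x)) : a.repr u p = 0 := by
  refine repr_span_zero a ?_ hu
  rintro _ ⟨s, rfl⟩
  obtain ⟨i, hi⟩ := mem_Gm_iff.1 (g.mem s)
  refine repr_idx hi ?_
  rintro rfl
  rcases hi with hi | hi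
  · exact hp.2 s hi.symm
  · exact (off_neg g hp).2 s hi.symm

theorem chi_x (c : Cells f (span F (Set.range x)) χ) (q : ρ) (s : ℤ) : χ q (x s) = 0 :=
  c.van q _ (subset_span ⟨s, rfl⟩)

theorem wt2_of_D {W : Submodule F V} (c : Cells f W χ) {e : V} (he : e ∈ Dset (Tset f)) :
    Wt2 fun q => χ q e :=
  (card_le_two_iff' _).2 fun _ _ _ h1 h2 h3 => c.D he h1 h2 h3

theorem light_of_adj (c : Cells f (span F (Set.range x)) χ) {y : V} {s : ℤ}
    (h : Adj f y (x s)) : Wt2 fun q => χ q y := by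
  have h1 := wt2_of_D c h.2
  simpa [chi_x c] using h1

theorem wt2_neg {y : V} : (Wt2 fun q => χ q (-y)) ↔ Wt2 fun q => χ q y := by
  simp [Wt2]

theorem off_of_heavy (c : Cells f (span F (Set.range x)) χ) {y z : V}
    (hy : ¬ Wt2 fun q => χ q y) (hz : z ∈ Gm a) (h : Adj f y z) : Off a x z :=
  ⟨hz, fun s e => hy (light_of_adj c (s := s) (e ▸ h))⟩

theorem five (g : Geo a f x L) (h4 : {i | Off a x (a i)}.ncard = 4) {z0 z1 z2 z3 z4 : V}
    (o0 : Off a x z0) (o1 : Off a x z1) (o2 : Off a x z2) (o3 : Off a x z3) (o4 : Off a x z4)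
    (h01 : z0 ≠ z1 ∧ z0 ≠ -z1) (h02 : z0 ≠ z2 ∧ z0 ≠ -z2) (h03 : z0 ≠ z3 ∧ z0 ≠ -z3)
    (h04 : z0 ≠ z4 ∧ z0 ≠ -z4) (h12 : z1 ≠ z2 ∧ z1 ≠ -z2) (h13 : z1 ≠ z3 ∧ z1 ≠ -z3)
    (h14 : z1 ≠ z4 ∧ z1 ≠ -z4) (h23 : z2 ≠ z3 ∧ z2 ≠ -z3) (h24 : z2 ≠ z4 ∧ z2 ≠ -z4)
    (h34 : z3 ≠ z4 ∧ z3 ≠ -z4) : False := by
  obtain ⟨i0, p0, e0⟩ := off_idx g o0
  obtain ⟨i1, p1, e1⟩ := off_idx g o1
  obtain ⟨i2, p2, e2⟩ := off_idx g o2
  obtain ⟨i3, p3, e3⟩ := off_idx g o3
  obtain ⟨i4, p4, e4⟩ := off_idx g o4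
  have n01 := idx_ne e0 e1 h01.1 h01.2
  have n02 := idx_ne e0 e2 h02.1 h02.2
  have n03 := idx_ne e0 e3 h03.1 h03.2
  have n04 := idx_ne e0 e4 h04.1 h04.2
  have n12 := idx_ne e1 e2 h12.1 h12.2
  have n13 := idx_ne e1 e3 h13.1 h13.2
  have n14 := idx_ne e1 e4 h14.1 h14.2
  have n23 := idx_ne e2 e3 h23.1 h23.2
  have n24 := idx_ne e2 e4 h24.1 h24.2
  have n34 := idx_ne e3 e4 h34.1 h34.2
  have hs : (({i0, i1, i2, i3, i4} : Finset ι) : Set ι) ⊆ {i | Off a x (a i)} := by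
    intro i hi
    simp only [Finset.coe_insert, Finset.coe_singleton, Set.mem_insert_iff,
      Set.mem_singleton_iff] at hi
    rcases hi with rfl | rfl | rfl | rfl | rfl <;> assumption
  have hc := Set.ncard_le_ncard hs (Set.toFinite _)
  rw [Set.ncard_coe_finset, h4, Finset.card_insert_of_notMem (by simp [n01, n02, n03, n04]),
    Finset.card_insert_of_notMem (by simp [n12, n13, n14]),
    Finset.card_insert_of_notMem (by simp [n23, n24]),
    Finset.card_insert_of_notMem (by simp [n34])] at hc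
  simp at hc

/-! ### Periodicity for half period four -/

theorem per8 (g : Geo a f x 4) (s m : ℤ) : x (s + 8 * m) = x s := by
  have h8 : ∀ t, x (t + 8) = x t := fun t => by
    have h1 := g.anti t
    have h2 := g.anti (t + 4)
    push_cast at h1 h2
    rw [h1, neg_neg] at h2
    rw [← h2]; congr 1; ring
  induction m using Int.induction_on with
  | zero => simp
  | succ n ih => rw [← ih, ← h8 (s + 8 * n)]; congr 1; ring
  | pred n ih => rw [← ih, ← h8 (s + 8 * (-(n : ℤ) - 1))]; congr 1; ring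

theorem per_eq (g : Geo a f x 4) {s t : ℤ} (h : (s - t) % 8 = 0) : x s = x t := by
  rw [← per8 g t ((s - t) / 8)]; congr 1; omega

theorem per_neg (g : Geo a f x 4) {s t : ℤ} (h : (s - t) % 8 = 4) : x s = -x t := by
  have h1 := g.anti t
  push_cast at h1
  rw [← h1]; exact per_eq g (by omega)

theorem per_D (g : Geo a f x 4) {s t : ℤ} (h : (s - t) % 4 = 0) :
    Df f (x s) (x (s + 1)) = Df f (x t) (x (t + 1)) := by
  by_cases h1 : (s - t) % 8 = 0
  · rw [per_eq g h1, per_eq g (s := s + 1) (t := t + 1) (by omega)]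
  · rw [per_neg g (s := s) (t := t) (by omega), per_neg g (s := s + 1) (t := t + 1) (by omega),
      Df_neg]

/-- Two geodesic neighbours of a joint are close. -/
theorem near (g : Geo a f x 4) {y : V} (hy : y ∈ Gm a) {s t : ℤ} (h1 : Adj f y (x s))
    (h2 : Adj f y (x t)) : x t = x (s - 2) ∨ x t = x (s - 1) ∨ x t = x s ∨ x t = x (s + 1) ∨
      x t = x (s + 2) := by
  have hr : x t = x (s + (t - s) % 8) := per_eq g (by omega)
  by_cases h3 : 3 ≤ (t - s) % 8 ∧ (t - s) % 8 ≤ 5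
  · exact absurd (hr ▸ h2) (g.d2 s _ y hy h3.1 (by push_cast; omega) h1)
  have h4 : (t - (s - 2)) % 8 = 0 ∨ (t - (s - 1)) % 8 = 0 ∨ (t - s) % 8 = 0 ∨
      (t - (s + 1)) % 8 = 0 ∨ (t - (s + 2)) % 8 = 0 := by omega
  rcases h4 with h | h | h | h | h
  · exact Or.inl (per_eq g h)
  · exact Or.inr (Or.inl (per_eq g h))
  · exact Or.inr (Or.inr (Or.inl (per_eq g h)))
  · exact Or.inr (Or.inr (Or.inr (Or.inl (per_eq g h))))
  · exact Or.inr (Or.inr (Or.inr (Or.inr (per_eq g h))))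

/-- `s` is the centre of `y`. -/
def Cen (f : Basis κ F V) (x : ℤ → V) (y : V) (s : ℤ) : Prop :=
  Adj f y (x (s - 1)) ∧ Adj f y (x s) ∧ Adj f y (x (s + 1))

theorem cen_of (k : Cx a f) (g : Geo a f x 4)
    (win : ∀ y s, Off a x y → Adj f y (x s) → Adj f y (x (s + 2)) → Adj f y (x (s + 1)))
    {y h : V} (oy : Off a x y) (hh : h ∈ Gm a) (hyh : Adj f y h)
    (only : ∀ z, Off a x z → Adj f y z → z = h) : ∃ s, Cen f x y s := by
  have geo : ∀ z ∈ Gm a, Adj f y z → z ≠ h → ∃ s, z = x s := by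
    intro z hz h1 h2
    by_contra hc
    push Not at hc
    exact h2 (only z ⟨hz, hc⟩ h1)
  have gap : ∀ s, Adj f y (x s) → Adj f y (x (s + 2)) → ∃ s, Cen f x y s := by
    intro s h1 h2
    refine ⟨s + 1, by simpa using h1, win y s oy h1 h2, ?_⟩
    rw [show s + 1 + 1 = s + 2 by ring]; exact h2
  have cons : ∀ s, Adj f y (x s) → Adj f y (x (s + 1)) → ∃ s, Cen f x y s := by
    intro s h1 h2
    obtain ⟨c, hc1, hc2⟩ := k.tri (g.mem s) oy.1 (g.mem (s + 1)) h1.symm h2 (g.adj s)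
    rw [Df_comm] at hc1
    have key : ∀ z ∈ Gm a, Adj f y z → c ∉ Df f y z → z ≠ h → ∃ s, Cen f x y s := by
      intro z hz h3 h4 h5
      obtain ⟨t, rfl⟩ := geo z hz h3 h5
      rcases near g oy.1 h1 h3 with e | e | e | e | e
      · rw [e] at h3
        exact gap (s - 2) h3 (by simpa using h1)
      · rw [e] at h3
        exact ⟨s, h3, h1, h2⟩
      · rw [e] at h4; exact absurd hc1 h4
      · rw [e] at h4; exact absurd hc2 h4
      · rw [e] at h3
        exact gap s h1 h3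
    obtain ⟨z, hz, z', hz', h3, h4, h5, h6, h7⟩ := k.two y oy.1 c
    by_cases e : z = h
    · exact key z' hz' h5 h7 fun e' => h3 (e.trans e'.symm)
    · exact key z hz h4 h6 e
  obtain ⟨w, hw, w', hw', h2, h3, h4, h5, h6⟩ := k.others oy.1 hh hyh
  obtain ⟨s, rfl⟩ := geo w hw h3 h5.symm
  obtain ⟨t, rfl⟩ := geo w' hw' h4 h6.symm
  rcases near g oy.1 h3 h4 with e | e | e | e | e
  · rw [e] at h4
    exact gap (s - 2) h4 (by simpa using h3)
  · rw [e] at h4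
    exact cons (s - 1) h4 (by simpa using h3)
  · exact absurd e.symm h2
  · rw [e] at h4
    exact cons s h3 h4
  · rw [e] at h4
    exact gap s h3 h4

theorem cen_Df (k : Cx a f) (g : Geo a f x 4)
    (dis : ∀ s, Disjoint (Df f (x (s - 1)) (x s)) (Df f (x s) (x (s + 1))))
    {y : V} (hy : y ∈ Gm a) {s : ℤ} (c : Cen f x y s) :
    ∃ p ∈ Df f (x (s - 1)) (x s), ∃ r ∈ Df f (x s) (x (s + 1)), Df f y (x s) = {p, r} := by
  have h0 : Adj f (x s) (x (s - 1)) := by simpa using (g.adj (s - 1)).symm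
  obtain ⟨p, hp1, hp2⟩ := k.tri hy (g.mem s) (g.mem (s - 1)) c.2.1 h0 c.1
  obtain ⟨r, hr1, hr2⟩ := k.tri hy (g.mem s) (g.mem (s + 1)) c.2.1 (g.adj s) c.2.2
  rw [Df_comm] at hp2
  refine ⟨p, hp2, r, hr2, ?_⟩
  have hpr : p ≠ r := fun e => Finset.disjoint_left.1 (dis s) hp2 (e ▸ hr2)
  symm
  refine Finset.eq_of_subset_of_card_le ?_ ?_
  · intro l hl
    simp only [Finset.mem_insert, Finset.mem_singleton] at hl
    rcases hl with rfl | rfl <;> assumption
  · rw [(k.adj y hy _ (g.mem s)).1 c.2.1, Finset.card_pair hpr]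

theorem eq_pair {S : Finset κ} (h : S.card = 2) {p r : κ} (hp : p ∈ S) (hr : r ∈ S)
    (hpr : p ≠ r) : S = {p, r} := by
  symm
  refine Finset.eq_of_subset_of_card_le ?_ ?_
  · intro l hl
    simp only [Finset.mem_insert, Finset.mem_singleton] at hl
    rcases hl with rfl | rfl <;> assumption
  · rw [h, Finset.card_pair hpr]

/-- Two joints at distance four do not have the same centre. -/
theorem same_cen (k : Cx a f) (g : Geo a f x 4)
    (dis : ∀ s, Disjoint (Df f (x (s - 1)) (x s)) (Df f (x s) (x (s + 1))))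
    {y z : V} (oy : Off a x y) (oz : Off a x z) (h4 : (Df f y z).card = 4) (hn : y ≠ -z)
    {s : ℤ} (cy : Cen f x y s) (cz : Cen f x z s) : False := by
  obtain ⟨p, hp, r, hr, e⟩ := cen_Df k g dis oy.1 cy
  obtain ⟨p', hp', r', hr', e'⟩ := cen_Df k g dis oz.1 cz
  have hyz : y ≠ z := by
    rintro rfl
    have h5 : Df f y y = ∅ := by ext l; simp [mem_Df]
    rw [h5] at h4; simp at h4
  have tri : ∀ l, l ∈ Df f y z ↔ ¬ ((l = p ∨ l = r) ↔ (l = p' ∨ l = r')) := by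
    intro l
    rw [mem_Df_tri k.af oy.1 (g.mem s) oz.1, Df_comm f (x s) z, e, e']
    simp
  have hpp : p ≠ p' := by
    rintro rfl
    have h5 : Df f y z ⊆ {r, r'} := by
      intro l hl
      rw [tri] at hl
      simp only [Finset.mem_insert, Finset.mem_singleton]
      tauto
    have := (Finset.card_le_card h5).trans Finset.card_le_two
    omega
  have hrr : r ≠ r' := by
    rintro rfl
    have h5 : Df f y z ⊆ {p, p'} := by
      intro l hl
      rw [tri] at hl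
      simp only [Finset.mem_insert, Finset.mem_singleton]
      tauto
    have := (Finset.card_le_card h5).trans Finset.card_le_two
    omega
  have h0 : Adj f (x (s - 1)) (x s) := by simpa using g.adj (s - 1)
  have d1 := eq_pair ((k.adj _ (g.mem _) _ (g.mem _)).1 h0) hp hp' hpp
  have d2 := eq_pair ((k.adj _ (g.mem _) _ (g.mem _)).1 (g.adj s)) hr hr' hrr
  have n1 : p ≠ r := fun e => Finset.disjoint_left.1 (dis s) hp (e ▸ hr)
  have n2 : p ≠ r' := fun e => Finset.disjoint_left.1 (dis s) hp (e ▸ hr')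
  have n3 : p' ≠ r := fun e => Finset.disjoint_left.1 (dis s) hp' (e ▸ hr)
  have n4 : p' ≠ r' := fun e => Finset.disjoint_left.1 (dis s) hp' (e ▸ hr')
  have key : Df f y (x (s + 1)) = Df f (x (s - 1)) z := by
    ext l
    rw [mem_Df_tri k.af oy.1 (g.mem s) (g.mem (s + 1)),
      mem_Df_tri k.af (g.mem (s - 1)) (g.mem s) oz.1, Df_comm f (x s) z, e, e', d1, d2]
    simp only [Finset.mem_insert, Finset.mem_singleton]
    by_cases e1 : l = p
    · subst e1; simp [n1, n2, hpp]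
    by_cases e2 : l = r
    · subst e2; simp [e1, hrr, n3.symm]
    by_cases e3 : l = p'
    · subst e3; simp [e1, e2, n4]
    simp [e1, e2, e3]
  rcases k.same y oy.1 _ (g.mem _) _ (g.mem _) z oz.1 cy.2.2 cz.1.symm key with h | h
  · have h1 : y + z = x (s - 1) + x (s + 1) := by linear_combination (norm := module) h
    rcases par oy.1 oz.1 (g.mem _) (g.mem _) h1 with h2 | h2 | h2
    · exact oy.2 _ h2.1
    · exact oy.2 _ h2.1
    · exact hn h2.1
  · have h1 : y + x (s - 1) = z + x (s + 1) := by linear_combination (norm := module) h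
    rcases par oy.1 (g.mem _) oz.1 (g.mem _) h1 with h2 | h2 | h2
    · exact hyz h2.1
    · exact oy.2 _ h2.1
    · exact (off_neg g oy).2 (s - 1) (by rw [h2.1, neg_neg])

/-! ### The classes for half period four -/

theorem repr_sub_ne {y z : V} {l : κ} : f.repr (y - z) l ≠ 0 ↔ l ∈ Df f y z := by
  simp [mem_Df, sub_eq_zero]

theorem step_class (k : Cx a f) (g : Geo a f x L) (c : Cells f (span F (Set.range x)) χ)
    (cov : ∀ l, ∃ q, χ q (f l) ≠ 0) (s : ℤ) :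
    ∃ q, ∀ l ∈ Df f (x s) (x (s + 1)), χ q (f l) ≠ 0 := by
  obtain ⟨l0, h0⟩ := k.ex_Df (g.mem s) (g.mem (s + 1)) (g.adj s)
  obtain ⟨q, hq⟩ := cov l0
  exact ⟨q, fun l hl => ends_in_supp f (χ q) (g.adj s).2 (by simp [chi_x c])
    (repr_sub_ne.2 h0) hq (repr_sub_ne.2 hl)⟩

theorem four_distinct (h4 : Fintype.card ρ = 4) {q1 q2 q3 q4 : ρ}
    (h : ∀ q, q = q1 ∨ q = q2 ∨ q = q3 ∨ q = q4) :
    q1 ≠ q2 ∧ q1 ≠ q3 ∧ q1 ≠ q4 ∧ q2 ≠ q3 ∧ q2 ≠ q4 ∧ q3 ≠ q4 := by
  have key : ∀ r1 r2 r3 : ρ, (∀ q, q = r1 ∨ q = r2 ∨ q = r3) → False := by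
    intro r1 r2 r3 h1
    have h2 : (Finset.univ : Finset ρ) ⊆ {r1, r2, r3} := fun q _ => by simpa using h1 q
    have h3 := (Finset.card_le_card h2).trans Finset.card_le_three
    rw [Finset.card_univ] at h3
    omega
  refine ⟨?_, ?_, ?_, ?_, ?_, ?_⟩ <;> rintro rfl
  · exact key q1 q3 q4 fun q => by have := h q; tauto
  · exact key q1 q2 q4 fun q => by have := h q; tauto
  · exact key q1 q2 q3 fun q => by have := h q; tauto
  · exact key q1 q2 q4 fun q => by have := h q; tauto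
  · exact key q1 q2 q3 fun q => by have := h q; tauto
  · exact key q1 q2 q3 fun q => by have := h q; tauto

theorem classes (k : Cx a f) (g : Geo a f x 4) (c : Cells f (span F (Set.range x)) χ)
    (cov : ∀ l, ∃ q, χ q (f l) ≠ 0) (flip : ∀ l, ∃ s, l ∈ Df f (x s) (x (s + 1))) :
    ∃ cl : ℤ → ρ, (∀ s, ∀ l ∈ Df f (x s) (x (s + 1)), χ (cl s) (f l) ≠ 0) ∧
      (∀ s t, (s - t) % 4 = 0 → cl s = cl t) ∧
      ∀ s q, q = cl s ∨ q = cl (s + 1) ∨ q = cl (s + 2) ∨ q = cl (s + 3) := by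
  choose cl hcl using step_class k g c cov
  have per : ∀ s t, (s - t) % 4 = 0 → cl s = cl t := by
    intro s t h
    obtain ⟨l, hl⟩ := k.ex_Df (g.mem s) (g.mem (s + 1)) (g.adj s)
    exact c.disj l _ _ (hcl s l hl) (hcl t l (per_D g h ▸ hl))
  refine ⟨cl, hcl, per, fun s q => ?_⟩
  obtain ⟨l, hl⟩ := c.ne q
  obtain ⟨t, ht⟩ := flip l
  have h1 : q = cl t := c.disj l _ _ hl (hcl t l ht)
  have h2 : (t - s) % 4 = 0 ∨ (t - (s + 1)) % 4 = 0 ∨ (t - (s + 2)) % 4 = 0 ∨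
      (t - (s + 3)) % 4 = 0 := by omega
  rcases h2 with h | h | h | h
  · exact Or.inl (h1.trans (per _ _ h))
  · exact Or.inr (Or.inl (h1.trans (per _ _ h)))
  · exact Or.inr (Or.inr (Or.inl (h1.trans (per _ _ h))))
  · exact Or.inr (Or.inr (Or.inr (h1.trans (per _ _ h))))

theorem supp_cen (c : Cells f (span F (Set.range x)) χ) {y : V} {s : ℤ} (h : Adj f y (x s))
    {p r : κ} (e : Df f y (x s) = {p, r}) {q1 q2 : ρ} (h1 : χ q1 (f p) ≠ 0)
    (h2 : χ q2 (f r) ≠ 0) (h12 : q1 ≠ q2) (q : ρ) : χ q y ≠ 0 ↔ q = q1 ∨ q = q2 := by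
  have hpr : p ≠ r := by rintro rfl; exact h12 (c.disj p _ _ h1 h2)
  have hp : f.repr (y - x s) p ≠ 0 := repr_sub_ne.2 (by simp [e])
  have hr : f.repr (y - x s) r ≠ 0 := repr_sub_ne.2 (by simp [e])
  have h3 := Dset_eq_two f h.2 hpr hp hr
  have h4 : χ q y = f.repr (y - x s) p * χ q (f p) + f.repr (y - x s) r * χ q (f r) := by
    have h5 : χ q y = χ q (y - x s) := by simp [chi_x c]
    rw [h5]
    conv_lhs => rw [h3]
    simp only [map_add, map_smul, smul_eq_mul]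
  rw [h4]
  by_cases e1 : q = q1
  · subst e1
    have h5 : χ q (f r) = 0 := by_contra fun hc => h12 (c.disj r _ _ hc h2)
    rw [h5, mul_zero, add_zero]
    exact iff_of_true (mul_ne_zero hp h1) (Or.inl rfl)
  have h6 : χ q (f p) = 0 := by_contra fun hc => e1 (c.disj p _ _ hc h1)
  rw [h6, mul_zero, zero_add]
  by_cases e2 : q = q2
  · subst e2
    exact iff_of_true (mul_ne_zero hr h2) (Or.inr rfl)
  have h7 : χ q (f r) = 0 := by_contra fun hc => e2 (c.disj r _ _ hc h2)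
  rw [h7, mul_zero]
  exact iff_of_false (by simp) (by tauto)

theorem sum_of {q1 q2 q3 q4 : ρ} (cov : ∀ q, q = q1 ∨ q = q2 ∨ q = q3 ∨ q = q4)
    (d : q1 ≠ q2 ∧ q1 ≠ q3 ∧ q1 ≠ q4 ∧ q2 ≠ q3 ∧ q2 ≠ q4 ∧ q3 ≠ q4) {v w1 w2 : ρ → F}
    (s1 : ∀ q, w1 q ≠ 0 ↔ q = q1 ∨ q = q2) (s2 : ∀ q, w2 q ≠ 0 ↔ q = q3 ∨ q = q4)
    (h1 : Wt2 fun q => v q - w1 q) (h2 : Wt2 fun q => v q - w2 q) (hv : ¬ Wt2 v) (q : ρ) :
    v q = w1 q + w2 q := by
  obtain ⟨d12, d13, d14, d23, d24, d34⟩ := d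
  unfold Wt2 at h1 h2 hv
  rw [card_le_two_iff'] at h1 h2 hv
  have z13 : w1 q3 = 0 := by_contra fun hc => by
    rcases (s1 _).1 hc with e | e
    · exact d13 e.symm
    · exact d23 e.symm
  have z14 : w1 q4 = 0 := by_contra fun hc => by
    rcases (s1 _).1 hc with e | e
    · exact d14 e.symm
    · exact d24 e.symm
  have z21 : w2 q1 = 0 := by_contra fun hc => by
    rcases (s2 _).1 hc with e | e
    · exact d13 e
    · exact d14 e
  have z22 : w2 q2 = 0 := by_contra fun hc => by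
    rcases (s2 _).1 hc with e | e
    · exact d23 e
    · exact d24 e
  have A : v q3 ≠ 0 → v q4 ≠ 0 → v q1 = w1 q1 ∧ v q2 = w1 q2 := by
    intro a3 a4
    have b3 : v q3 - w1 q3 ≠ 0 := by rwa [z13, sub_zero]
    have b4 : v q4 - w1 q4 ≠ 0 := by rwa [z14, sub_zero]
    constructor
    · by_contra hc
      rcases h1 q1 q3 q4 (sub_ne_zero.2 hc) b3 b4 with e | e | e <;> contradiction
    · by_contra hc
      rcases h1 q2 q3 q4 (sub_ne_zero.2 hc) b3 b4 with e | e | e <;> contradiction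
  have B : v q1 ≠ 0 → v q2 ≠ 0 → v q3 = w2 q3 ∧ v q4 = w2 q4 := by
    intro a1 a2
    have b1 : v q1 - w2 q1 ≠ 0 := by rwa [z21, sub_zero]
    have b2 : v q2 - w2 q2 ≠ 0 := by rwa [z22, sub_zero]
    constructor
    · by_contra hc
      rcases h2 q1 q2 q3 b1 b2 (sub_ne_zero.2 hc) with e | e | e <;> contradiction
    · by_contra hc
      rcases h2 q1 q2 q4 b1 b2 (sub_ne_zero.2 hc) with e | e | e <;> contradiction
  have C : (v q1 ≠ 0 ∧ v q2 ≠ 0) ∨ (v q3 ≠ 0 ∧ v q4 ≠ 0) := by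
    by_contra hc
    apply hv
    have key : ∀ r1 r2 : ρ, (∀ i, v i ≠ 0 → i = r1 ∨ i = r2) →
        ∀ i j l, v i ≠ 0 → v j ≠ 0 → v l ≠ 0 → i = j ∨ i = l ∨ j = l := by
      intro r1 r2 h i j l hi hj hl
      rcases h i hi with e1 | e1 <;> rcases h j hj with e2 | e2 <;>
        rcases h l hl with e3 | e3 <;> simp [e1, e2, e3]
    rw [not_or, not_and_or, not_and_or, not_not, not_not, not_not, not_not] at hc
    obtain ⟨e | e, e' | e'⟩ := hc
    · refine key q2 q4 fun i hi => ?_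
      rcases cov i with rfl | rfl | rfl | rfl
      exacts [absurd e hi, Or.inl rfl, absurd e' hi, Or.inr rfl]
    · refine key q2 q3 fun i hi => ?_
      rcases cov i with rfl | rfl | rfl | rfl
      exacts [absurd e hi, Or.inl rfl, Or.inr rfl, absurd e' hi]
    · refine key q1 q4 fun i hi => ?_
      rcases cov i with rfl | rfl | rfl | rfl
      exacts [Or.inl rfl, absurd e hi, absurd e' hi, Or.inr rfl]
    · refine key q1 q3 fun i hi => ?_
      rcases cov i with rfl | rfl | rfl | rfl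
      exacts [Or.inl rfl, absurd e hi, Or.inr rfl, absurd e' hi]
  have n1 := (s1 q1).2 (Or.inl rfl)
  have n2 := (s1 q2).2 (Or.inr rfl)
  have n3 := (s2 q3).2 (Or.inl rfl)
  have n4 := (s2 q4).2 (Or.inr rfl)
  have D : (v q1 = w1 q1 ∧ v q2 = w1 q2) ∧ (v q3 = w2 q3 ∧ v q4 = w2 q4) := by
    rcases C with h | h
    · have b := B h.1 h.2
      exact ⟨A (b.1 ▸ n3) (b.2 ▸ n4), b⟩
    · have b := A h.1 h.2
      exact ⟨b, B (b.1 ▸ n1) (b.2 ▸ n2)⟩
  rcases cov q with rfl | rfl | rfl | rfl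
  · rw [D.1.1, z21, add_zero]
  · rw [D.1.2, z22, add_zero]
  · rw [D.2.1, z13, zero_add]
  · rw [D.2.2, z14, zero_add]

theorem cen_neg (g : Geo a f x 4) {y : V} {s t : ℤ} (c : Cen f x y t) (h : (s - t) % 8 = 4) :
    Cen f x (-y) s := by
  unfold Cen
  rw [per_neg g h, per_neg g (s := s - 1) (t := t - 1) (by omega),
    per_neg g (s := s + 1) (t := t + 1) (by omega)]
  exact ⟨c.1.neg, c.2.1.neg, c.2.2.neg⟩

theorem cen_eq (g : Geo a f x 4) {y : V} {s t : ℤ} (c : Cen f x y t) (h : (s - t) % 8 = 0) :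
    Cen f x y s := by
  unfold Cen
  rw [per_eq g h, per_eq g (s := s - 1) (t := t - 1) (by omega),
    per_eq g (s := s + 1) (t := t + 1) (by omega)]
  exact c

/-! ### The matrix of the classes -/

theorem lk_of (c : Cells f (span F (Set.range x)) χ) {p p' : {i // Off a x (a i)}} {z : V}
    (h : Adj f (a p) z) (hz : z = a p' ∨ z = -a p') (hne : (p : ι) ≠ p') :
    Lk (fun (p : {i // Off a x (a i)}) q => χ q (a p)) p p' := by
  refine ⟨fun e => hne (congrArg Subtype.val e), ?_⟩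
  have h1 := wt2_of_D c h.2
  rcases hz with rfl | rfl
  · left
    have : ((fun q => χ q (a p)) - fun q => χ q (a p')) = fun q => χ q (a p - a p') := by
      ext q; simp
    rw [this]; exact h1
  · right
    have : ((fun q => χ q (a p)) + fun q => χ q (a p')) = fun q => χ q (a p - -a p') := by
      ext q; simp
    rw [this]; exact h1

theorem exists_of (h : Af a f) (g : Geo a f x L) (c : Cells f (span F (Set.range x)) χ) :
    ∃ N : ρ → {i // Off a x (a i)} → F, ∀ [Fintype {i // Off a x (a i)}],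
      OF (fun (p : {i // Off a x (a i)}) q => χ q (a p)) N := by
  choose lq hlq using c.ne
  have hat : ∀ q q', χ q' (χ q (f (lq q)) • f (lq q)) = if q = q' then 1 else 0 := by
    intro q q'
    split_ifs with e
    · subst e; simp [F_sq (hlq q)]
    · have : χ q' (f (lq q)) = 0 := by_contra fun hc => e (c.disj _ _ _ (hlq q) hc)
      simp [this]
  refine ⟨fun q p => a.repr (χ q (f (lq q)) • f (lq q)) p, ?_⟩
  intro inst
  refine ⟨fun p p' => ?_, fun q q' => ?_, fun q p => ?_⟩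
  · have h1 : a p - ∑ q, χ q (a p) • (χ q (f (lq q)) • f (lq q)) ∈ span F (Set.range x) := by
      refine c.ker _ fun q' => ?_
      rw [map_sub, map_sum]
      simp only [map_smul (χ q') (χ _ (a p)), hat, smul_eq_mul, mul_ite, mul_one, mul_zero,
        Finset.sum_ite_eq', Finset.mem_univ, if_true, sub_self]
    have h2 := coord_kill g p'.2 h1
    rw [map_sub, map_sum, Finsupp.sub_apply, Finsupp.finsetSum_apply, sub_eq_zero,
      repr_basis] at h2
    simp only [map_smul a.repr (χ _ (a p)), Finsupp.smul_apply, smul_eq_mul] at h2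
    rw [← h2]
    simp only [Subtype.ext_iff]
  · rw [← hat, map_eq_sum a (χ q')]
    classical
    rw [← Finset.sum_subtype (Finset.univ.filter fun i => Off a x (a i)) (by simp)
      fun i => a.repr (χ q (f (lq q)) • f (lq q)) i * χ q' (a i)]
    refine Finset.sum_subset (Finset.subset_univ _) fun i _ hi => ?_
    have h1 : ¬ Off a x (a i) := by simpa using hi
    have h2 : ∃ s, a i = x s := by
      by_contra hc
      push Not at hc
      exact h1 ⟨self_mem_Gm a i, hc⟩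
    obtain ⟨s, hs⟩ := h2
    rw [hs, chi_x c, mul_zero]
  · simpa using And.intro (hlq q) (h.fullT p (lq q))

end Light

open Light

theorem s_claw (hAFB : S_AFB) (hG1 : S_G1) : S_CLAW := by
  intro V _ _ ι κ ρ _ _ _ _ _ _ a f x χ hq h8 h oh
  by_contra hv
  have k := cx_of hAFB hq.af
  have g := hq.geo
  have c := hq.cells
  obtain ⟨-, hk, hoff, -, cov, odd, dis, win⟩ := hG1 a f x 4 χ hq
  have h4 : Fintype.card ρ = 4 := by omega
  rw [h4] at hoff
  have nbOff : ∀ z ∈ Gm a, Adj f h z → Off a x z := fun z hz h1 => off_of_heavy c hv hz h1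
  have r0 : ∀ z, Adj f h z → h ≠ z ∧ h ≠ -z := fun z h1 => ⟨h1.1, k.ne_neg oh.1 h1⟩
  have r1 : ∀ z, ∀ w ∈ Gm a, Adj f h z → Adj f h w → z ≠ w → z ≠ w ∧ z ≠ -w :=
    fun z w hw h1 h2 h3 => ⟨h3, k.nb_ne_neg oh.1 hw h1 h2⟩
  have disj : ∀ y ∈ Gm a, ∀ y' ∈ Gm a, Adj f h y → Adj f h y' → y ≠ y' →
      ∀ l, l ∈ Df f h y → l ∉ Df f h y' := by
    intro y hy y' hy' h1 h2 h3 l h5 h6
    obtain ⟨z, hz, z', hz', h7, h8, h9, h10, h11⟩ := k.two h oh.1 l
    exact five g hoff oh (nbOff y hy h1) (nbOff y' hy' h2) (nbOff z hz h8) (nbOff z' hz' h9)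
      (r0 _ h1) (r0 _ h2) (r0 _ h8) (r0 _ h9) (r1 _ _ hy' h1 h2 h3)
      (r1 _ _ hz h1 h8 fun e => h10 (e ▸ h5)) (r1 _ _ hz' h1 h9 fun e => h11 (e ▸ h5))
      (r1 _ _ hz h2 h8 fun e => h10 (e ▸ h6)) (r1 _ _ hz' h2 h9 fun e => h11 (e ▸ h6))
      (r1 _ _ hz' h8 h9 h7)
  have card4 : ∀ y ∈ Gm a, ∀ y' ∈ Gm a, Adj f h y → Adj f h y' → y ≠ y' →
      (Df f y y').card = 4 ∧ (Df f y (-y')).card = 4 := by
    intro y hy y' hy' h1 h2 h3
    have h5 : Df f y y' = Df f h y ∪ Df f h y' := by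
      ext l
      rw [mem_Df_tri k.af hy oh.1 hy', Finset.mem_union, Df_comm f y h]
      have := disj y hy y' hy' h1 h2 h3 l
      tauto
    have h6 : (Df f y y').card = 4 := by
      rw [h5, Finset.card_union_of_disjoint (Finset.disjoint_left.2 (disj y hy y' hy' h1 h2 h3)),
        (k.adj h oh.1 y hy).1 h1, (k.adj h oh.1 y' hy').1 h2]
    have h7 := card_Df_neg k.af hy hy'
    exact ⟨h6, by omega⟩
  have cen : ∀ y ∈ Gm a, Adj f h y → ∃ s, Cen f x y s := by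
    intro y hy h1
    refine cen_of k g win (nbOff y hy h1) oh.1 h1.symm fun z oz h2 => ?_
    by_contra hzh
    obtain ⟨w, hw, w', hw', h3, h5, h6, h7, h9⟩ := k.others oh.1 hy h1
    have far : ∀ u ∈ Gm a, Adj f h u → y ≠ u → u ≠ z ∧ u ≠ -z := by
      intro u hu b1 b2
      obtain ⟨b3, b4⟩ := card4 y hy u hu h1 b1 b2
      constructor
      · rintro rfl
        rw [(k.adj y hy u hu).1 h2] at b3; omega
      · intro e
        have e' : z = -u := by rw [e, neg_neg]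
        rw [e'] at h2
        rw [(k.adj y hy _ (neg_mem_Gm hu)).1 h2] at b4; omega
    refine five g hoff oh (nbOff y hy h1) (nbOff w hw h5) (nbOff w' hw' h6) oz
      (r0 _ h1) (r0 _ h5) (r0 _ h6) ⟨fun e => hzh e.symm, ?_⟩ (r1 _ _ hw h1 h5 h7)
      (r1 _ _ hw' h1 h6 h9) ⟨h2.1, k.ne_neg hy h2⟩ (r1 _ _ hw' h5 h6 h3) (far w hw h5 h7)
      (far w' hw' h6 h9)
    exact k.nb_ne_neg hy oz.1 h1.symm h2
  have flip : ∀ l, ∃ s, l ∈ Df f (x s) (x (s + 1)) := by
    intro l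
    obtain ⟨s, hs⟩ := Finset.card_pos.1 (odd l).pos
    exact ⟨s, (Finset.mem_filter.1 hs).2⟩
  obtain ⟨cl, hcl, per, all⟩ := classes k g c cov flip
  have supp : ∀ y ∈ Gm a, ∀ s, Cen f x y s → ∀ q, χ q y ≠ 0 ↔ q = cl (s - 1) ∨ q = cl s := by
    intro y hy s cy
    obtain ⟨p, hp, r, hr, e⟩ := cen_Df k g dis hy cy
    have d := (four_distinct h4 (all (s - 1))).1
    rw [sub_add_cancel] at d
    exact supp_cen c cy.2.1 e (hcl (s - 1) p (by simpa using hp)) (hcl s r hr) d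
  have pair : ∀ y ∈ Gm a, ∀ y' ∈ Gm a, Adj f h y → Adj f h y' → y ≠ y' → ∀ s t,
      Cen f x y s → Cen f x y' t → (s - t) % 2 = 0 → False := by
    intro y hy y' hy' h1 h2 h3 s t cy cy' h5
    obtain ⟨b3, b4⟩ := card4 y hy y' hy' h1 h2 h3
    have oy := nbOff y hy h1
    have oy' := nbOff y' hy' h2
    have h6 : (s - t) % 8 = 0 ∨ (s - t) % 8 = 4 ∨ (s - t) % 4 = 2 := by omega
    rcases h6 with h6 | h6 | h6
    · exact same_cen k g dis oy oy' b3 (r1 _ _ hy' h1 h2 h3).2 cy (cen_eq g cy' h6)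
    · exact same_cen k g dis oy (off_neg g oy') b4 (by rwa [neg_neg]) cy (cen_neg g cy' h6)
    have s1 := supp y hy s cy
    have s2 := supp y' hy' t cy'
    rw [per (t - 1) (s - 1 + 2) (by omega), per t (s - 1 + 3) (by omega)] at s2
    rw [per s (s - 1 + 1) (by omega)] at s1
    have h7 := sum_of (all (s - 1)) (four_distinct h4 (all (s - 1))) s1 s2
      (v := fun q => χ q h) (by simpa using wt2_of_D c h1.2) (by simpa using wt2_of_D c h2.2) hv
    have h9 : h - y - y' ∈ span F (Set.range x) := c.ker _ fun q => by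
      have := h7 q
      simp only [map_sub]
      linear_combination this
    obtain ⟨p, op, ep⟩ := off_idx g oh
    obtain ⟨i, -, ei⟩ := off_idx g oy
    obtain ⟨i', -, ei'⟩ := off_idx g oy'
    have h10 := coord_kill g op h9
    have n1 := idx_ne ep ei (r0 _ h1).1 (r0 _ h1).2
    have n2 := idx_ne ep ei' (r0 _ h2).1 (r0 _ h2).2
    simp only [map_sub, Finsupp.sub_apply, repr_idx ei n1.symm, repr_idx ei' n2.symm,
      sub_zero] at h10
    exact repr_idx_ne ep h10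
  obtain ⟨y1, m1, y2, m2, y3, m3, a1, a2, a3, n12, n13, n23⟩ := k.three oh.1
  obtain ⟨s1, c1⟩ := cen y1 m1 a1
  obtain ⟨s2, c2⟩ := cen y2 m2 a2
  obtain ⟨s3, c3⟩ := cen y3 m3 a3
  have h5 : (s1 - s2) % 2 = 0 ∨ (s1 - s3) % 2 = 0 ∨ (s2 - s3) % 2 = 0 := by omega
  rcases h5 with h5 | h5 | h5
  · exact pair y1 m1 y2 m2 a1 a2 n12 _ _ c1 c2 h5
  · exact pair y1 m1 y3 m3 a1 a3 n13 _ _ c1 c3 h5
  · exact pair y2 m2 y3 m3 a2 a3 n23 _ _ c2 c3 h5

theorem s_light (hAFB : S_AFB) (hG1 : S_G1) (hCNT : S_CNT) (hHV : S_HV) : S_LIGHT := by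
  intro V _ _ ι κ ρ _ _ _ _ _ _ a f x L χ hq
  have k := cx_of hAFB hq.af
  have g := hq.geo
  have c := hq.cells
  obtain ⟨h2L, hk, hoff, -⟩ := hG1 a f x L χ hq
  have h8 := hq.af.eight
  obtain ⟨N, hN⟩ := exists_of hq.af g c
  by_cases hL : L = 4
  · subst hL
    exact ⟨by omega, s_claw hAFB hG1 a f x χ hq (by omega), N, hN⟩
  have hc := hCNT a f x L χ hq
  have hm : 4 ≤ {i | Off a x (a i) ∧ ∃ s, Adj f (a i) (x s)}.ncard := by omega
  have hle : {i | Off a x (a i) ∧ ∃ s, Adj f (a i) (x s)}.ncard ≤ {i | Off a x (a i)}.ncard :=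
    Set.ncard_le_ncard (fun i hi => hi.1) (Set.toFinite _)
  refine ⟨by omega, ?_, N, hN⟩
  have inst : Fintype {i // Off a x (a i)} := Fintype.ofFinite _
  have main := hHV (fun (p : {i // Off a x (a i)}) q => χ q (a p)) N hN ?_ ?_ ?_
  · intro y oy
    obtain ⟨i, oi, rfl | rfl⟩ := off_idx g oy
    · exact main ⟨i, oi⟩
    · exact wt2_neg.2 (main ⟨i, oi⟩)
  · intro p hp
    have mp := self_mem_Gm a p
    obtain ⟨y1, m1, y2, m2, y3, m3, a1, a2, a3, n12, n13, n23⟩ := k.three mp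
    obtain ⟨i1, o1, e1⟩ := off_idx g (off_of_heavy c hp m1 a1)
    obtain ⟨i2, o2, e2⟩ := off_idx g (off_of_heavy c hp m2 a2)
    obtain ⟨i3, o3, e3⟩ := off_idx g (off_of_heavy c hp m3 a3)
    refine ⟨⟨i1, o1⟩, ⟨i2, o2⟩, ⟨i3, o3⟩, ?_, ?_, ?_, ?_, ?_, ?_⟩
    · exact fun e => idx_ne e1 e2 n12 (k.nb_ne_neg mp m2 a1 a2) (congrArg Subtype.val e)
    · exact fun e => idx_ne e1 e3 n13 (k.nb_ne_neg mp m3 a1 a3) (congrArg Subtype.val e)
    · exact fun e => idx_ne e2 e3 n23 (k.nb_ne_neg mp m3 a2 a3) (congrArg Subtype.val e)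
    · exact lk_of c a1 e1 (idx_ne (Or.inl rfl) e1 a1.1 (k.ne_neg mp a1))
    · exact lk_of c a2 e2 (idx_ne (Or.inl rfl) e2 a2.1 (k.ne_neg mp a2))
    · exact lk_of c a3 e3 (idx_ne (Or.inl rfl) e3 a3.1 (k.ne_neg mp a3))
  · intro S hS hh
    classical
    let S' : Finset ι := Finset.univ.filter fun i => ∃ p ∈ S, (p : ι) = i
    have mS : ∀ i, i ∈ S' ↔ ∃ p ∈ S, (p : ι) = i := fun i => by
      simp only [S', Finset.mem_filter, Finset.mem_univ, true_and]
    obtain ⟨p0, hp0⟩ := hS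
    obtain ⟨i0, hi0⟩ := mem_Gm_iff.1 (g.mem 0)
    have hne : S' ≠ Finset.univ := by
      intro e
      obtain ⟨p, -, rfl⟩ := (mS i0).1 (e ▸ Finset.mem_univ i0)
      rcases hi0 with e1 | e1
      · exact p.2.2 0 e1.symm
      · exact (off_neg g p.2).2 0 e1.symm
    obtain ⟨i, hi, i', hi', h1⟩ := hq.af.conn S' ⟨p0, (mS _).2 ⟨p0, hp0, rfl⟩⟩ hne
    obtain ⟨p, hp, rfl⟩ := (mS i).1 hi
    have hne' : (p : ι) ≠ i' := fun e => hi' (e ▸ hi)
    have o' : Off a x (a i') := by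
      rcases h1 with h1 | h1
      · exact off_of_heavy c (hh p hp) (self_mem_Gm a i') h1
      · simpa using off_neg g (off_of_heavy c (hh p hp) (neg_mem_Gm (self_mem_Gm a i')) h1)
    refine ⟨p, hp, ⟨i', o'⟩, fun e => hi' ((mS _).2 ⟨_, e, rfl⟩), ?_⟩
    rcases h1 with h1 | h1
    · exact lk_of c h1 (Or.inl rfl) hne'
    · exact lk_of c h1 (Or.inr rfl) hne'
  · refine hm.trans ?_
    rw [← Set.ncard_image_of_injective _ Subtype.val_injective]
    refine Set.ncard_le_ncard ?_ (Set.toFinite _)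
    rintro i ⟨oi, s, hs⟩
    exact ⟨⟨i, oi⟩, light_of_adj c hs, rfl⟩

end Pool.Agent.P.MP_053557_co
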