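import Mathlib

/-!
Signed graphs as oriented incidence matrices over `GF(3)`, and the operations on them.

A signed graph with vertex set `ι` and edge set `E` is recorded by an oriented incidence matrix
`M : ι → E → ZMod 3`: the column of a positive link `uv` is `±(e u - e v)`, the column of a
negative link is `±(e u + e v)`, the column of a half edge (equivalently, a negative loop) at `u`
is `± e u`, and a positive loop is a zero column. The row `M v` is the star of the vertex `v`.
An ordinary graph is regarded as a signed graph all of whose edges are negative; its matrix is the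
vertex-edge incidence matrix mod 3.

Every operation below is only applied when it leads from a signed graph to a signed graph
(see `Step`). This forces the following shape.
* `twist`: all edges inside `K` are positive and every other edge meeting `K` is a positive edge
  to `x` or to `y`. The ends `x` and `y` of these edges are exchanged (up to switching `K`): a
  Whitney twist of a balanced part. If `K` is joined to `x` only, the balanced block `K + x` is
  cleaved off at `x` and attached at `y` (which may be an isolated vertex).
* `rotate`: all edges inside `J` and inside `K` are positive. An edge with one end in `J` and no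
  end in `K` is a half edge, a negative edge to `z` or a positive edge to `z`, and these three
  kinds are permuted cyclically (rolling up and unrolling). An edge from `v` in `K` to the
  outside is a positive edge to `τ v`, a negative edge to `τ v` or a positive edge to `z`, and
  these three kinds are permuted cyclically as well.
* `exchange`: only the stars of the 3, 3, 4 or 6 vertices `x i` change; every piece of the rest of
  the graph keeps its own edges and is attached anew to the vertices `x i`.
-/

namespace Pool.Agent.P.MP_053557_co

/-- The number of times the edge `e` is incident with the vertex `v` (a loop counts twice). -/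
def inc {V E : Type} [DecidableEq V] (G : E → Sym2 V) (v : V) (e : E) : ℕ :=
  (G e).toMultiset.count v

/-- Every column has at most two nonzero entries: `M` is the matrix of a signed graph. -/
def IsSigned {ι E : Type} (M : ι → E → ZMod 3) : Prop :=
  ∀ e i j k, M i e ≠ 0 → M j e ≠ 0 → M k e ≠ 0 → i = j ∨ i = k ∨ j = k

/-- The four exchange matrices. -/
inductive Core : (k : ℕ) → Matrix (Fin k) (Fin k) (ZMod 3) → Prop
  /-- the rolled-up `K₄` versus the doubled triangle -/
  | k4 : Core 3 !![0, 1, 1; 1, 0, 1; 1, 1, 0]
  /-- the pinched 4-twist -/
  | pinch : Core 3 !![0, 1, 1; 1, 1, -1; 1, -1, 1]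
  /-- the 4-twist (Hadamard matrix) -/
  | had : Core 4 !![1, 1, 1, 1; 1, 1, -1, -1; 1, -1, 1, -1; 1, -1, -1, 1]
  /-- the two signed `K₆` dual to the projective Petersen graph (conference matrix plus `I`) -/
  | conf : Core 6 !![1, 1, 1, 1, 1, 1; 1, 1, 1, -1, -1, 1; 1, 1, 1, 1, -1, -1;
      1, -1, 1, 1, 1, -1; 1, -1, -1, 1, 1, 1; 1, 1, -1, -1, 1, 1]

/-- Operations on the family `r` of vertex stars. -/
inductive StarOp {ι X : Type} [DecidableEq ι] [AddCommGroup X] [Module (ZMod 3) X] :
    (ι → X) → (ι → X) → Prop
  /-- rename the vertices -/
  | relabel (r : ι → X) (σ : Equiv.Perm ι) : StarOp r (r ∘ σ)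
  /-- switch at the vertex `v` -/
  | switch (r : ι → X) (v : ι) : StarOp r (Function.update r v (-r v))
  /-- Whitney twist of the part `K` about `x, y` -/
  | twist (r : ι → X) (K : Finset ι) (x y : ι) (hxy : x ≠ y) (hx : x ∉ K) (hy : y ∉ K) :
      StarOp r fun i => if i = x ∨ i = y then r i + ∑ v ∈ K, r v else r i
  /-- rotation at `z` of the part `J`, together with the parts of `K` hanging at vertices
  `τ v` of `J` -/
  | rotate (r : ι → X) (z : ι) (J K : Finset ι) (τ : ι → ι) (hJ : z ∉ J) (hK : z ∉ K)
      (hJK : Disjoint J K) (hτ : ∀ v ∈ K, τ v ∈ J) :
      StarOp r fun i => if i = z then r z + ∑ v ∈ J ∪ K, r v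
        else r i - ∑ v ∈ K.filter fun v => τ v = i, r v
  /-- exchange at the vertices `x 0, x 1, …` by one of the four matrices; all other stars are
  kept -/
  | exchange (r r' : ι → X) (k : ℕ) (Z : Matrix (Fin k) (Fin k) (ZMod 3)) (hZ : Core k Z)
      (x : Fin k ↪ ι) (hout : ∀ v, v ∉ Set.range x → r' v = r v)
      (hin : ∀ l, r' (x l) - ∑ i, Z l i • r (x i) ∈
        Submodule.span (ZMod 3) (r '' (Set.range x)ᶜ)) : StarOp r r'

/-- One step: an operation on the stars, or reversing the orientation of one edge, leading from
a signed graph to a signed graph. -/
def Step {ι E : Type} [DecidableEq ι] [DecidableEq E] (M M' : ι → E → ZMod 3) : Prop :=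
  IsSigned M ∧ IsSigned M' ∧
    (StarOp M M' ∨ ∃ e, M' = fun v => Function.update (M v) e (-M v e))

end Pool.Agent.P.MP_053557_co
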