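import Pool.Agent.P.MP_053557_co.Reglue

/-! Columns of signed edges over `GF(3)`. -/

namespace Pool.Agent.P.MP_053557_co.RG

variable {ι E : Type} [DecidableEq ι]

abbrev F3 : Type := ZMod 3

def sg (b : Bool) : F3 := if b then -1 else 1

def ee (v : ι) : ι → F3 := fun w => if w = v then 1 else 0

def pv : Port ι → ι → F3
  | none, _ => 0
  | some q, w => if w = q.1 then sg q.2 else 0

theorem sg_ne (b : Bool) : sg b ≠ 0 := by revert b; decide
theorem sg_xor (a b : Bool) : sg (xor a b) = sg a * sg b := by revert a b; decide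
theorem sg_sq (a : Bool) : sg a * sg a = 1 := by revert a; decide
theorem sg_inj {a b : Bool} (h : sg a = sg b) : a = b := by revert a b; decide
theorem sq_one {s : F3} (h : s ≠ 0) : s * s = 1 := by revert s; decide
theorem ex_sg {s : F3} (h : s ≠ 0) : ∃ b, sg b = s := by revert s; decide
theorem mul_ne {s t : F3} (h : s ≠ 0) (k : t ≠ 0) : s * t ≠ 0 := by revert s t; decide
theorem neg_ne {s : F3} (h : s ≠ 0) : -s ≠ 0 := by revert s; decide
@[simp] theorem sg_false : sg false = 1 := rfl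
@[simp] theorem sg_true : sg true = -1 := rfl
theorem one_ne : (1 : F3) ≠ 0 := by decide
theorem three (s : F3) : s + s = -s := by revert s; decide

@[simp] theorem pv_none : pv (none : Port ι) = 0 := rfl
theorem pv_some (x : ι) (b : Bool) : pv (some (x, b)) = sg b • ee x := by
  funext w
  simp [pv, ee]
theorem pv_pos (x : ι) : pv (pos x) = ee x := by rw [pos, pv_some]; simp
theorem pv_neg (x : ι) : pv (neg x) = -ee x := by rw [neg, pv_some]; simp
theorem ee_self (x : ι) : ee x x = 1 := by simp [ee]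
theorem ee_ne {x y : ι} (h : y ≠ x) : ee x y = 0 := by simp [ee, h]
theorem ee_add (x : ι) : ee x + ee x = -ee x := funext fun _ => three _

/-- `c` is a column of the signed edge `l` -/
def Col (l : Sym2 ι × Bool) (c : ι → F3) : Prop :=
  ∃ x y s, s ≠ (0 : F3) ∧ l.1 = s(x, y) ∧ c = s • (ee x - sg l.2 • ee y)

/-- at most two nonzero entries -/
def W2 (c : ι → F3) : Prop := ∀ i j k, c i ≠ 0 → c j ≠ 0 → c k ≠ 0 → i = j ∨ i = k ∨ j = k

theorem Joins.col {a b : Port ι} {l : Sym2 ι × Bool} (h : Joins a b l) : Col l (pv a - pv b) := by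
  cases h with
  | link x y σ τ =>
    refine ⟨x, y, sg σ, sg_ne _, rfl, ?_⟩
    rw [pv_some, pv_some, smul_sub, smul_smul, sg_xor, ← mul_assoc, sg_sq, one_mul]
  | left y τ =>
    refine ⟨y, y, sg τ, sg_ne _, rfl, ?_⟩
    rw [pv_some, pv_none, sg_true, neg_smul, one_smul, sub_neg_eq_add, ee_add, smul_neg, zero_sub]
  | right x σ =>
    refine ⟨x, x, -sg σ, neg_ne (sg_ne _), rfl, ?_⟩
    rw [pv_some, pv_none, sg_true, neg_smul, neg_smul, one_smul, sub_neg_eq_add, ee_add, smul_neg,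
      neg_neg, sub_zero]

omit [DecidableEq ι] in
theorem ex_joins {a b : Port ι} (h : a ≠ none ∨ b ≠ none) : ∃ l, Joins a b l := by
  rcases a with _ | ⟨x, σ⟩ <;> rcases b with _ | ⟨y, τ⟩
  · simp at h
  · exact ⟨_, .left _ _⟩
  · exact ⟨_, .right _ _⟩
  · exact ⟨_, .link _ _ _ _⟩

theorem Col.smul {l : Sym2 ι × Bool} {c : ι → F3} (h : Col l c) {t : F3} (ht : t ≠ 0) :
    Col l (t • c) := by
  obtain ⟨x, y, s, h1, h2, rfl⟩ := h
  exact ⟨x, y, t * s, mul_ne ht h1, h2, smul_smul _ _ _⟩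

theorem Col.at {l : Sym2 ι × Bool} {c : ι → F3} (h : Col l c) {x y : ι} (e : l.1 = s(x, y)) :
    ∃ s, s ≠ (0 : F3) ∧ c = s • (ee x - sg l.2 • ee y) := by
  obtain ⟨u, v, s, h1, h2, rfl⟩ := h
  rcases Sym2.eq_iff.1 (h2.symm.trans e) with ⟨rfl, rfl⟩ | ⟨rfl, rfl⟩
  · exact ⟨s, h1, rfl⟩
  · refine ⟨-(s * sg l.2), neg_ne (mul_ne h1 (sg_ne _)), ?_⟩
    rw [smul_sub, smul_sub, smul_smul, smul_smul, neg_mul, mul_assoc, sg_sq, mul_one, neg_smul,
      neg_smul]
    abel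

theorem Col.uniq {l : Sym2 ι × Bool} {c c' : ι → F3} (h : Col l c) (h' : Col l c') :
    ∃ t, t ≠ (0 : F3) ∧ c' = t • c := by
  obtain ⟨x, y, s, h1, h2, rfl⟩ := h
  obtain ⟨s', h3, rfl⟩ := h'.at h2
  refine ⟨s' * s, mul_ne h3 h1, ?_⟩
  rw [smul_smul, mul_assoc, sq_one h1, mul_one]

theorem Col.mem {l : Sym2 ι × Bool} {c : ι → F3} (h : Col l c) {v : ι} (hv : c v ≠ 0) :
    v ∈ l.1 := by
  obtain ⟨x, y, s, -, h2, rfl⟩ := h
  rw [h2, Sym2.mem_iff]
  by_contra k
  rw [not_or] at k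
  simp [ee, k.1, k.2] at hv

theorem Col.cases {l : Sym2 ι × Bool} {c : ι → F3} (h : Col l c) :
    (c = 0 ∧ ∃ u, l = (s(u, u), false)) ∨ (c ≠ 0 ∧ ∀ v ∈ l.1, c v ≠ 0) := by
  obtain ⟨p, b⟩ := l
  obtain ⟨x, y, s, h1, h2, rfl⟩ := h
  dsimp only at h2 ⊢
  subst h2
  have k : (∀ v ∈ s(x, y), (s • (ee x - sg b • ee y)) v ≠ 0) →
      s • (ee x - sg b • ee y) ≠ 0 ∧ ∀ v ∈ s(x, y), (s • (ee x - sg b • ee y)) v ≠ 0 :=
    fun k => ⟨fun e => k x (Sym2.mem_mk_left _ _) (by rw [e]; rfl), k⟩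
  by_cases e : x = y
  · subst e
    cases b
    · exact Or.inl ⟨by simp, x, rfl⟩
    · refine Or.inr (k fun v hv => ?_)
      obtain rfl : v = x := by simpa using hv
      simpa [ee, three] using h1
  · refine Or.inr (k fun v hv => ?_)
    rcases Sym2.mem_iff.1 hv with rfl | rfl
    · simpa [ee, e] using h1
    · simpa [ee, Ne.symm e] using mul_ne h1 (sg_ne b)

theorem Col.inj {l l' : Sym2 ι × Bool} {c : ι → F3} (h : Col l c) (h' : Col l' c) :
    l' = l ∨ ∃ u v, l = (s(u, u), false) ∧ l' = (s(v, v), false) := by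
  rcases h.cases with ⟨h1, u, h2⟩ | ⟨h1, h2⟩
  · rcases h'.cases with ⟨-, v, h4⟩ | ⟨h3, -⟩
    · exact Or.inr ⟨u, v, h2, h4⟩
    · exact absurd h1 h3
  rcases h'.cases with ⟨h3, -⟩ | ⟨-, h4⟩
  · exact absurd h3 h1
  have e : l'.1 = l.1 := Sym2.ext fun v => ⟨fun k => h.mem (h4 v k), fun k => h'.mem (h2 v k)⟩
  refine Or.inl (Prod.ext e ?_)
  obtain ⟨x, y, s, k1, k2, k3⟩ := h
  obtain ⟨s', k4, k5⟩ := h'.at (e.trans k2)
  by_cases d : x = y
  · subst d
    have a : ∀ (b : Bool) (t : F3), t • (ee x - sg b • ee x) ≠ 0 → b = true := by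
      intro b t k
      cases b
      · simp at k
      · rfl
    rw [a l.2 s (k3 ▸ h1), a l'.2 s' (k5 ▸ h1)]
  · have a := congrFun (k3.symm.trans k5) x
    have b := congrFun (k3.symm.trans k5) y
    simp only [ee, Pi.smul_apply, Pi.sub_apply, if_true, if_neg d, if_neg (Ne.symm d), smul_eq_mul,
      mul_zero, sub_zero, mul_one, zero_sub, mul_neg, neg_inj] at a b
    subst a
    have := congrArg (s * ·) b
    simp only [← mul_assoc, sq_one k1, one_mul] at this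
    exact (sg_inj this).symm

theorem Col.w2 {l : Sym2 ι × Bool} {c : ι → F3} (h : Col l c) : W2 c := by
  intro i j k a b d
  have a := h.mem a
  have b := h.mem b
  have d := h.mem d
  obtain ⟨x, y, -, -, h2, -⟩ := h
  rw [h2, Sym2.mem_iff] at a b d
  rcases a with rfl | rfl <;> rcases b with rfl | rfl <;> rcases d with rfl | rfl <;> simp

theorem W2.cases {c : ι → F3} (h : W2 c) : c = 0 ∨ (∃ v s, s ≠ (0 : F3) ∧ c = s • ee v) ∨
    ∃ v w s t, v ≠ w ∧ s ≠ (0 : F3) ∧ t ≠ (0 : F3) ∧ c = s • (ee v - t • ee w) := by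
  by_cases h0 : c = 0
  · exact Or.inl h0
  obtain ⟨v, hv⟩ := Function.ne_iff.1 h0
  replace hv : c v ≠ 0 := hv
  by_cases h1 : ∃ w, w ≠ v ∧ c w ≠ 0
  · obtain ⟨w, d, hw⟩ := h1
    refine Or.inr (Or.inr ⟨v, w, c v, -(c v * c w), d.symm, hv, neg_ne (mul_ne hv hw), ?_⟩)
    funext u
    by_cases a : u = v
    · subst a; simp [ee, d.symm]
    by_cases b : u = w
    · subst b; simp [ee, d, ← mul_assoc, sq_one hv]
    have : c u = 0 := by
      by_contra k
      rcases h u v w k hv hw with e | e | e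
      exacts [a e, b e, d e.symm]
    simp [ee, a, b, this]
  · refine Or.inr (Or.inl ⟨v, c v, hv, funext fun u => ?_⟩)
    by_cases a : u = v
    · subst a; simp [ee]
    have : c u = 0 := by
      by_contra k
      exact h1 ⟨u, a, k⟩
    simp [ee, a, this]

theorem col_self (l : Sym2 ι × Bool) : ∃ c, Col l c := by
  obtain ⟨p, b⟩ := l
  induction p using Sym2.ind with | h x y => exact ⟨_, x, y, 1, one_ne, rfl, rfl⟩

theorem W2.ex_col {c : ι → F3} (h : W2 c) (v0 : ι) : ∃ l, Col l c := by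
  rcases h.cases with rfl | ⟨v, s, h1, rfl⟩ | ⟨v, w, s, t, -, h1, h2, rfl⟩
  · exact ⟨(s(v0, v0), false), v0, v0, 1, one_ne, rfl, by simp⟩
  · refine ⟨(s(v, v), true), v, v, -s, neg_ne h1, rfl, ?_⟩
    rw [sg_true, neg_smul, neg_smul, one_smul, sub_neg_eq_add, ee_add, smul_neg, neg_neg]
  · obtain ⟨b, rfl⟩ := ex_sg h2
    exact ⟨(s(v, w), b), v, w, s, h1, rfl, rfl⟩

omit [DecidableEq ι] in
theorem W2.mul {c : ι → F3} (h : W2 c) (α : ι → F3) : W2 (α * c) := fun i j k a b d =>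
  h i j k (fun e => a (by simp [e])) (fun e => b (by simp [e])) fun e => d (by simp [e])

omit [DecidableEq ι] in
theorem W2.smul {c : ι → F3} (h : W2 c) (s : F3) : W2 (s • c) := h.mul fun _ => s

omit [DecidableEq ι] in
theorem W2.of_smul {c : ι → F3} {s : F3} (hs : s ≠ 0) (h : W2 (s • c)) : W2 c := by
  have := h.smul s
  rwa [smul_smul, sq_one hs, one_smul] at this

/-- the columns `N` represent the signed graph `G` -/
def Rep (G : SGraph ι E) (N : E → ι → F3) : Prop := ∀ e, Col (G e) (N e)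

/-- joined by a chain of moves -/
abbrev Conn (G H : SGraph ι E) : Prop := Relation.EqvGen Move G H

omit [DecidableEq ι] in
theorem Conn.tr {G H K : SGraph ι E} (h : Conn G H) (k : Conn H K) : Conn G K :=
  Relation.EqvGen.trans _ _ _ h k

omit [DecidableEq ι] in
theorem Conn.sy {G H : SGraph ι E} (h : Conn G H) : Conn H G := Relation.EqvGen.symm _ _ h

theorem conn_same {G H : SGraph ι E} {N : E → ι → F3} (h : Rep G N) (k : Rep H N) : Conn G H :=
  .rel _ _ (.loops _ _ fun e => (h e).inj (k e))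

theorem ex_rep (G : SGraph ι E) {N : E → ι → F3} (h : ∀ e, W2 (N e)) : ∃ H : SGraph ι E, Rep H N := by
  have : ∀ e, ∃ l, Col l (N e) := fun e => (h e).ex_col (G e).1.out.1
  choose H hH using this
  exact ⟨H, hH⟩

theorem col_switch {l : Sym2 ι × Bool} {c : ι → F3} (h : Col l c) (S : ι → Bool) {u v : ι}
    (e : l.1 = s(u, v)) :
    Col (s(u, v), xor l.2 (xor (S u) (S v))) ((fun w => sg (S w)) * c) := by
  obtain ⟨s, h1, rfl⟩ := h.at e
  refine ⟨u, v, s * sg (S u), mul_ne h1 (sg_ne _), rfl, funext fun w => ?_⟩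
  have k : ∀ x : ι, sg (S w) * ee x w = sg (S x) * ee x w := by
    intro x
    by_cases d : w = x
    · rw [d]
    · simp [ee, d]
  simp only [Pi.mul_apply, Pi.smul_apply, Pi.sub_apply, smul_eq_mul, sg_xor]
  linear_combination s * k u - s * sg l.2 * k v +
    s * sg l.2 * sg (S v) * ee v w * sg_sq (S u)

theorem conn_scale {G H : SGraph ι E} {N : E → ι → F3} (α : ι → F3) (hα : ∀ v, α v ≠ 0)
    (h : Rep G N) (k : Rep H fun e => α * N e) : Conn G H := by
  choose S hS using fun v => ex_sg (hα v)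
  obtain rfl : α = fun w => sg (S w) := funext fun w => (hS w).symm
  have : ∀ e, ∃ u v, (G e).1 = s(u, v) := fun e => by
    obtain ⟨u, v, -, -, a, -⟩ := h e
    exact ⟨u, v, a⟩
  choose u v huv using this
  exact Conn.tr (.rel _ _ (.switch G _ S fun e => ⟨u e, v e, huv e, rfl⟩))
    (conn_same (fun e => col_switch (h e) S (huv e)) k)

/-- the shape of a pair of columns under a regluing -/
def Shape (X : Set ι) (P : Set (Part ι)) (c c' : ι → F3) : Prop :=
  (c' = c ∧ ∀ v, c v ≠ 0 → v ∉ X ∧ ∀ B ∈ P, v ∉ B.inner) ∨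
    ∃ B ∈ P, ∃ a ∈ B.pts, ∃ b ∈ B.pts, ∃ s t : F3, s ≠ 0 ∧ t ≠ 0 ∧
      c = s • (pv a.1 - pv b.1) ∧ c' = t • (pv a.2 - pv b.2)

theorem conn_shape {G H : SGraph ι E} {N N' : E → ι → F3} {X : Set ι} {P : Set (Part ι)}
    (hM : ∀ G0 H0 : SGraph ι E, Reglue X P G0 H0 → Move G0 H0)
    (base : ∃ B ∈ P, ∃ a ∈ B.pts, a.1 ≠ none ∧ a.2 ≠ none) (h : Rep G N) (k : Rep H N')
    (hP : ∀ B ∈ P, ∀ a ∈ B.term, ∀ b ∈ B.term, a.2 = none → b.2 = none → a = b)
    (hz : ∀ e, N e = 0 → N' e = 0) (hs : ∀ e, N e ≠ 0 → Shape X P (N e) (N' e)) : Conn G H := by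
  have key : ∀ e, ∃ l l', Col l (N e) ∧ Col l' (N' e) ∧
      ((l' = l ∧ ∀ v ∈ l.1, v ∉ X ∧ ∀ B ∈ P, v ∉ B.inner) ∨
        ∃ B ∈ P, ∃ a ∈ B.pts, ∃ b ∈ B.pts, Joins a.1 b.1 l ∧ Joins a.2 b.2 l') := by
    intro e
    by_cases h0 : N e = 0
    · obtain ⟨B, hB, a, ha, a1, a2⟩ := base
      obtain ⟨l, hl⟩ := ex_joins (Or.inl a1 : a.1 ≠ none ∨ a.1 ≠ none)
      obtain ⟨l', hl'⟩ := ex_joins (Or.inl a2 : a.2 ≠ none ∨ a.2 ≠ none)
      refine ⟨l, l', ?_, ?_, Or.inr ⟨B, hB, a, ha, a, ha, hl, hl'⟩⟩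
      · rw [h0, ← sub_self (pv a.1)]; exact hl.col
      · rw [hz e h0, ← sub_self (pv a.2)]; exact hl'.col
    rcases hs e h0 with ⟨e1, e2⟩ | ⟨B, hB, a, ha, b, hb, s, t, h1, h2, e1, e2⟩
    · refine ⟨G e, G e, h e, e1 ▸ h e, Or.inl ⟨rfl, fun v hv => e2 v ?_⟩⟩
      exact ((h e).cases.resolve_left fun d => h0 d.1).2 v hv
    · have j : ∀ (p q : Port ι) (r : F3), r • (pv p - pv q) ≠ 0 → p ≠ none ∨ q ≠ none := by
        intro p q r d
        by_contra n
        rw [not_or, not_not, not_not] at n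
        simp [n.1, n.2] at d
      obtain ⟨l, hl⟩ := ex_joins (j _ _ _ (e1 ▸ h0))
      have j2 : a.2 ≠ none ∨ b.2 ≠ none := by
        by_contra n
        rw [not_or, not_not, not_not] at n
        have m : ∀ a ∈ B.pts, a.2 = none → a ∈ B.term := by
          rintro a (ha | ⟨v, -, rfl⟩) d
          · exact ha
          · simp [pos] at d
        rw [hP B hB a (m a ha n.1) b (m b hb n.2) n.1 n.2] at e1
        exact h0 (by simpa using e1)
      obtain ⟨l', hl'⟩ := ex_joins j2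
      exact ⟨l, l', e1 ▸ hl.col.smul h1, e2 ▸ hl'.col.smul h2,
        Or.inr ⟨B, hB, a, ha, b, hb, hl, hl'⟩⟩
  choose G0 H0 h1 h2 h3 using key
  exact (conn_same h h1).tr (Conn.tr (.rel _ _ (hM G0 H0 h3)) (conn_same h2 k))

end Pool.Agent.P.MP_053557_co.RG
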