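import Pool.Agent.P.MP_053557_co.RG1

/-! The moves preserve the matroid over `GF(3)`. -/

namespace Pool.Agent.P.MP_053557_co.RG

open Matrix

variable {ι E : Type} [DecidableEq ι] [Fintype ι]

/-- the columns `N'` are images of the columns `N` under a linear map, up to signs -/
def Dom (N N' : E → ι → F3) : Prop :=
  ∃ Φ : (ι → F3) →ₗ[F3] (ι → F3), ∀ e, ∃ t : F3, t ≠ 0 ∧ N' e = t • Φ (N e)

omit [DecidableEq ι] [Fintype ι] in
theorem Dom.ind {N N' : E → ι → F3} (h : Dom N N') (S : Set E) (k : LinearIndepOn F3 N' S) :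
    LinearIndepOn F3 N S := by
  obtain ⟨Φ, h⟩ := h
  choose t h1 h2 using h
  have a : LinearIndepOn F3 (Φ ∘ N) S := by
    have := LinearIndependent.units_smul k fun e : S => Units.mk0 (t e) (h1 e)
    have e : (fun e : S => (Φ ∘ N) e) =
        (fun e : S => Units.mk0 (t e) (h1 e)) • fun e : S => N' e := by
      funext e
      simp [h2, smul_smul, sq_one (h1 e)]
    rw [LinearIndepOn, e]
    exact this
  exact a.of_comp Φ

omit [DecidableEq ι] [Fintype ι] in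
theorem ex_map {κ : Type} [DecidableEq κ] [Fintype κ] (φ : κ → ι → F3) :
    ∃ Φ : (κ → F3) →ₗ[F3] (ι → F3), ∀ v, Φ (ee v) = φ v := by
  refine ⟨Fintype.linearCombination F3 φ, fun v => ?_⟩
  have : ee v = Pi.single v (1 : F3) := funext fun w => by simp [ee, Pi.single_apply]
  rw [this, Fintype.linearCombination_apply_single, one_smul]

omit [Fintype ι] in
theorem dom_raw {G H : SGraph ι E} {N N' : E → ι → F3} (Φ : (ι → F3) →ₗ[F3] (ι → F3))
    (h : ∀ e, (H e = G e ∧ ∀ v ∈ (G e).1, Φ (ee v) = ee v) ∨ ∃ (a b a' b' : Port ι) (η : F3)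
      (c : ι → F3), η ≠ 0 ∧ Joins a b (G e) ∧ Joins a' b' (H e) ∧ pv a' = η • Φ (pv a) + c ∧
        pv b' = η • Φ (pv b) + c) (r : Rep G N) (r' : Rep H N') : Dom N N' := by
  refine ⟨Φ, fun e => ?_⟩
  rcases h e with ⟨e1, e2⟩ | ⟨a, b, a', b', η, c, h0, j, j', e1, e2⟩
  · obtain ⟨t, ht, e3⟩ := (r e).uniq (e1 ▸ r' e)
    refine ⟨t, ht, ?_⟩
    obtain ⟨x, y, s, -, e4, e5⟩ := r e
    rw [e3, e5, map_smul, map_sub, map_smul, e2 x (e4 ▸ Sym2.mem_mk_left _ _),
      e2 y (e4 ▸ Sym2.mem_mk_right _ _)]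
  · obtain ⟨s, hs, e3⟩ := j.col.uniq (r e)
    obtain ⟨t, ht, e4⟩ := j'.col.uniq (r' e)
    refine ⟨t * η * s, mul_ne (mul_ne ht h0) hs, ?_⟩
    rw [e3, e4, e1, e2, map_smul, smul_smul, mul_assoc, sq_one hs, mul_one, map_sub,
      add_sub_add_right_eq_sub, ← smul_sub, smul_smul]

omit [Fintype ι] in
theorem dom_fw {G H : SGraph ι E} {N N' : E → ι → F3} {X : Set ι} {P : Set (Part ι)}
    (Φ : (ι → F3) →ₗ[F3] (ι → F3)) (h : Reglue X P G H)
    (h1 : ∀ v, v ∉ X → (∀ B ∈ P, v ∉ B.inner) → Φ (ee v) = ee v)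
    (h2 : ∀ B ∈ P, ∃ (η : F3) (c : ι → F3), η ≠ 0 ∧ (∀ v ∈ B.inner, ee v = η • Φ (ee v) + c) ∧
      ∀ a ∈ B.term, pv a.2 = η • Φ (pv a.1) + c) (r : Rep G N) (r' : Rep H N') : Dom N N' := by
  refine dom_raw Φ (fun e => ?_) r r'
  rcases h e with ⟨e1, e2⟩ | ⟨B, hB, a, ha, b, hb, j, j'⟩
  · exact Or.inl ⟨e1, fun v hv => h1 v (e2 v hv).1 (e2 v hv).2⟩
  · obtain ⟨η, c, h0, k1, k2⟩ := h2 B hB
    have k : ∀ a ∈ B.pts, pv a.2 = η • Φ (pv a.1) + c := by
      rintro a (ha | ⟨v, hv, rfl⟩)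
      · exact k2 a ha
      · simpa only [pv_pos] using k1 v hv
    exact Or.inr ⟨_, _, _, _, η, c, h0, j, j', k a ha, k b hb⟩

omit [Fintype ι] in
theorem dom_bw {G H : SGraph ι E} {N N' : E → ι → F3} {X : Set ι} {P : Set (Part ι)}
    (Φ : (ι → F3) →ₗ[F3] (ι → F3)) (h : Reglue X P G H)
    (h1 : ∀ v, v ∉ X → (∀ B ∈ P, v ∉ B.inner) → Φ (ee v) = ee v)
    (h2 : ∀ B ∈ P, ∃ (η : F3) (c : ι → F3), η ≠ 0 ∧ (∀ v ∈ B.inner, ee v = η • Φ (ee v) + c) ∧
      ∀ a ∈ B.term, pv a.1 = η • Φ (pv a.2) + c) (r : Rep G N) (r' : Rep H N') : Dom N' N := by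
  refine dom_raw Φ (fun e => ?_) r' r
  rcases h e with ⟨e1, e2⟩ | ⟨B, hB, a, ha, b, hb, j, j'⟩
  · exact Or.inl ⟨e1.symm, fun v hv => h1 v (e2 v (e1 ▸ hv)).1 (e2 v (e1 ▸ hv)).2⟩
  · obtain ⟨η, c, h0, k1, k2⟩ := h2 B hB
    have k : ∀ a ∈ B.pts, pv a.1 = η • Φ (pv a.2) + c := by
      rintro a (ha | ⟨v, hv, rfl⟩)
      · exact k2 a ha
      · simpa only [pv_pos] using k1 v hv
    exact Or.inr ⟨_, _, _, _, η, c, h0, j', j, k a ha, k b hb⟩

/-- extension by zero along `x` -/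
noncomputable def emb {k : ℕ} (x : Fin k → ι) : (Fin k → F3) →ₗ[F3] (ι → F3) :=
  Fintype.linearCombination F3 fun i => ee (x i)

omit [Fintype ι] in
theorem emb_ee {k : ℕ} (x : Fin k → ι) (i : Fin k) : emb x (ee i) = ee (x i) := by
  have : ee i = Pi.single i (1 : F3) := funext fun w => by simp [ee, Pi.single_apply]
  rw [this, emb, Fintype.linearCombination_apply_single, one_smul]

omit [Fintype ι] in
theorem pv_place {k : ℕ} (x : Fin k → ι) (p : Port (Fin k)) : pv (place x p) = emb x (pv p) := by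
  rcases p with _ | ⟨i, b⟩
  · simp [place]
  · rw [pv_some, map_smul, emb_ee]
    exact pv_some _ _

omit [Fintype ι] in
theorem emb_at {k : ℕ} (x : Fin k ↪ ι) (a : Fin k → F3) (i : Fin k) : emb x a (x i) = a i := by
  simp [emb, Fintype.linearCombination_apply, ee, Finset.sum_apply]

omit [Fintype ι] in
theorem emb_out {k : ℕ} (x : Fin k → ι) (a : Fin k → F3) {v : ι} (h : v ∉ Set.range x) :
    emb x a v = 0 := by
  simp only [emb, Fintype.linearCombination_apply, Finset.sum_apply]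
  exact Finset.sum_eq_zero fun i _ => by
    simp [ee, show v ≠ x i from fun e => h ⟨i, e.symm⟩]

omit [DecidableEq ι] [Fintype ι] in
theorem map_ext {κ : Type} [DecidableEq κ] [Fintype κ] {Φ Ψ : (κ → F3) →ₗ[F3] (ι → F3)}
    (h : ∀ v, Φ (ee v) = Ψ (ee v)) : Φ = Ψ := by
  refine (Pi.basisFun F3 κ).ext fun v => ?_
  have : ee v = Pi.single v (1 : F3) := funext fun w => by simp [ee, Pi.single_apply]
  simpa [this] using h v

/-- rows of a table -/
abbrev Row (k : ℕ) : Type := List (Port (Fin k) × Port (Fin k))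

theorem ex_phi {k : ℕ} (Z : Matrix (Fin k) (Fin k) F3) (x : Fin k ↪ ι) (K : Row k → Set ι)
    (hx : ∀ R i, x i ∉ K R) (hK : ∀ R R', R ≠ R' → Disjoint (K R) (K R')) (T : List (Row k))
    (η : Row k → F3) (c : Row k → Fin k → F3) :
    ∃ Φ : (ι → F3) →ₗ[F3] (ι → F3), (∀ a, Φ (emb x a) = emb x (Z *ᵥ a)) ∧
      (∀ R ∈ T, ∀ v ∈ K R, Φ (ee v) = η R • (ee v - emb x (c R))) ∧
      ∀ v, v ∉ Set.range x → (∀ R ∈ T, v ∉ K R) → Φ (ee v) = ee v := by
  classical
  obtain ⟨Φ, h⟩ := ex_map fun v : ι => if h : ∃ i, x i = v then emb x (Z *ᵥ ee h.choose)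
    else if h : ∃ R ∈ T, v ∈ K R then η h.choose • (ee v - emb x (c h.choose)) else ee v
  refine ⟨Φ, fun a => ?_, fun R hR v hv => ?_, fun v h1 h2 => ?_⟩
  · have : Φ ∘ₗ emb x = emb x ∘ₗ Z.mulVecLin := map_ext fun i => by
      have e : ∃ j, x j = x i := ⟨i, rfl⟩
      rw [LinearMap.comp_apply, emb_ee, h, dif_pos e, x.injective e.choose_spec]
      rfl
    exact LinearMap.congr_fun this a
  · have e : ∃ R ∈ T, v ∈ K R := ⟨R, hR, hv⟩
    have e2 : e.choose = R := by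
      by_contra n
      exact Set.disjoint_left.1 (hK _ _ n) e.choose_spec.2 hv
    rw [h, dif_neg (by rintro ⟨i, rfl⟩; exact hx R i hv), dif_pos e, e2]
  · rw [h, dif_neg (show ¬ ∃ i, x i = v from h1), dif_neg (by rintro ⟨R, a, b⟩; exact h2 R a b)]

/-- the table is affine for `Z` -/
def Aff {k : ℕ} (Z : Matrix (Fin k) (Fin k) F3) (T : List (Row k))
    (f g : Port (Fin k) × Port (Fin k) → Port (Fin k)) : Prop :=
  ∀ R ∈ T, ∃ η : F3, η ≠ 0 ∧ ∃ q0 ∈ R, ∀ q ∈ R, ∀ l,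
    pv (g q) l = η * (Z *ᵥ pv (f q)) l + (pv (g q0) l - η * (Z *ᵥ pv (f q0)) l)

instance {k : ℕ} (Z : Matrix (Fin k) (Fin k) F3) (T : List (Row k))
    (f g : Port (Fin k) × Port (Fin k) → Port (Fin k)) : Decidable (Aff Z T f g) := by
  unfold Aff; infer_instance

theorem Aff.ex {k : ℕ} {Z : Matrix (Fin k) (Fin k) F3} {T : List (Row k)}
    {f g : Port (Fin k) × Port (Fin k) → Port (Fin k)} (h : Aff Z T f g) :
    ∃ (η : Row k → F3) (c : Row k → Fin k → F3), ∀ R ∈ T, η R ≠ 0 ∧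
      ∀ q ∈ R, pv (g q) = η R • Z *ᵥ pv (f q) + c R := by
  have : ∀ R, ∃ (η : F3) (c : Fin k → F3), R ∈ T → η ≠ 0 ∧
      ∀ q ∈ R, pv (g q) = η • Z *ᵥ pv (f q) + c := by
    intro R
    by_cases hR : R ∈ T
    · obtain ⟨η, h0, q0, -, h1⟩ := h R hR
      exact ⟨η, fun l => pv (g q0) l - η * (Z *ᵥ pv (f q0)) l,
        fun _ => ⟨h0, fun q hq => funext fun l => h1 q hq l⟩⟩
    · exact ⟨0, 0, fun a => absurd a hR⟩
  choose η c hc using this
  exact ⟨η, c, hc⟩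

theorem Table.aff {k : ℕ} {T : List (Row k)} (h : Table k T) :
    ∃ Z Z' : Matrix (Fin k) (Fin k) F3, Aff Z T Prod.fst Prod.snd ∧ Aff Z' T Prod.snd Prod.fst := by
  cases h
  · exact ⟨!![0, 1, 1; 1, 0, 1; 1, 1, 0], !![1, -1, -1; -1, 1, -1; -1, -1, 1],
      by decide +kernel, by decide +kernel⟩
  · exact ⟨!![0, -1, -1; 1, 1, -1; 1, -1, 1], !![0, -1, -1; 1, 1, -1; 1, -1, 1],
      by decide +kernel, by decide +kernel⟩
  · exact ⟨!![1, 1, 1, 1; 1, 1, -1, -1; 1, -1, 1, -1; 1, -1, -1, 1],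
      !![1, 1, 1, 1; 1, 1, -1, -1; 1, -1, 1, -1; 1, -1, -1, 1], by decide +kernel, by decide +kernel⟩
  · exact ⟨!![1, 1, 1, 1, 1, 1; 1, 1, 1, -1, -1, 1; 1, 1, 1, 1, -1, -1;
      1, -1, 1, 1, 1, -1; 1, -1, -1, 1, 1, 1; 1, 1, -1, -1, 1, 1],
      !![-1, 1, 1, 1, 1, 1; 1, -1, 1, -1, -1, 1; 1, 1, -1, 1, -1, -1;
      1, -1, 1, -1, 1, -1; 1, -1, -1, 1, -1, 1; 1, 1, -1, -1, 1, -1],
      by decide +kernel, by decide +kernel⟩

omit [DecidableEq ι] [Fintype ι] in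
theorem vec3 (a : ι → F3) : a + a = -a := funext fun _ => three _

theorem Move.dom {G H : SGraph ι E} (h : Move G H) {N N' : E → ι → F3} (r : Rep G N)
    (r' : Rep H N') : Dom N N' ∧ Dom N' N := by
  classical
  cases h with
  | relabel σ =>
    obtain ⟨Φ, h⟩ := ex_map fun v : ι => ee (σ v)
    obtain ⟨Ψ, k⟩ := ex_map fun v : ι => ee (σ.symm v)
    have a : ∀ e, ∃ t : F3, t ≠ 0 ∧ N' e = t • Φ (N e) := by
      intro e
      obtain ⟨x, y, s, h1, h2, h3⟩ := r e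
      have : Col (((G e).1.map σ, (G e).2)) (Φ (N e)) :=
        ⟨σ x, σ y, s, h1, by simp [h2], by rw [h3, map_smul, map_sub, map_smul, h, h]⟩
      exact this.uniq (r' e)
    have b : Ψ ∘ₗ Φ = LinearMap.id := map_ext fun v => by simp [h, k]
    refine ⟨⟨Φ, a⟩, Ψ, fun e => ?_⟩
    obtain ⟨t, h1, h2⟩ := a e
    refine ⟨t, h1, ?_⟩
    rw [h2, map_smul, smul_smul, sq_one h1, one_smul]
    exact (LinearMap.congr_fun b (N e)).symm
  | switch _ S h =>
    have a : ∀ e, ∃ t : F3, t ≠ 0 ∧ N' e = t • ((fun w => sg (S w)) * N e) := by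
      intro e
      obtain ⟨u, v, h1, h2⟩ := h e
      exact (col_switch (r e) S h1).uniq (h2 ▸ r' e)
    refine ⟨⟨LinearMap.mulLeft F3 fun w => sg (S w), a⟩,
      LinearMap.mulLeft F3 fun w => sg (S w), fun e => ?_⟩
    obtain ⟨t, h1, h2⟩ := a e
    refine ⟨t, h1, funext fun w => ?_⟩
    simp only [h2, LinearMap.mulLeft_apply, Pi.smul_apply, Pi.mul_apply, smul_eq_mul]
    linear_combination (-(N e w)) * sq_one h1 - t * t * N e w * sg_sq (S w)
  | loops _ h =>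
    have z : ∀ {u : ι} {c : ι → F3}, Col (s(u, u), false) c → c = 0 := fun {u c} k => by
      obtain ⟨s, -, e⟩ := k.at (x := u) (y := u) rfl
      simpa using e
    constructor <;> refine ⟨LinearMap.id, fun e => ?_⟩ <;> rcases h e with k | ⟨u, v, k1, k2⟩
    · exact (r e).uniq (k ▸ r' e)
    · exact ⟨1, one_ne, by rw [z (c := N e) (k1 ▸ r e), z (c := N' e) (k2 ▸ r' e)]; simp⟩
    · exact (r' e).uniq (k ▸ r e)
    · exact ⟨1, one_ne, by rw [z (c := N e) (k1 ▸ r e), z (c := N' e) (k2 ▸ r' e)]; simp⟩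
  | twist _ K x y hx hy h =>
    obtain ⟨Φ, k⟩ := ex_map fun v : ι => if v ∈ K then ee x + ee y - ee v else ee v
    have kx : Φ (ee x) = ee x := by rw [k, if_neg hx]
    have ky : Φ (ee y) = ee y := by rw [k, if_neg hy]
    have h1 : ∀ v, v ∉ (∅ : Set ι) →
        (∀ B ∈ ({⟨K, {(pos x, pos y), (pos y, pos x)}⟩} : Set (Part ι)), v ∉ B.inner) →
        Φ (ee v) = ee v := fun v _ a => by rw [k, if_neg (a _ rfl)]
    have h2 : ∀ v ∈ K, ee v = (-1 : F3) • Φ (ee v) + (ee x + ee y) := fun v hv => by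
      rw [k, if_pos hv, neg_smul, one_smul]; abel
    refine ⟨dom_fw Φ h h1 ?_ r r', dom_bw Φ h h1 ?_ r r'⟩ <;> rintro _ rfl <;>
      refine ⟨-1, ee x + ee y, neg_ne one_ne, h2, ?_⟩ <;> rintro _ (rfl | rfl) <;>
      simp only [pv_pos, kx, ky, neg_smul, one_smul] <;> abel
  | rotate _ z J K hz hJ hK h =>
    have key : ∀ d : F3, ∃ Φ : (ι → F3) →ₗ[F3] (ι → F3), Φ (ee z) = ee z ∧
        (∀ u ∈ J, Φ (ee u) = ee u + d • ee z) ∧
        (∀ u ∈ J, ∀ v ∈ K u, Φ (ee v) = ee v + ee z - d • ee u) ∧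
        ∀ v, v ∉ J → (∀ u ∈ J, v ∉ K u) → Φ (ee v) = ee v := by
      intro d
      obtain ⟨Φ, k⟩ := ex_map fun v : ι => if v ∈ J then ee v + d • ee z else
        if h : ∃ u ∈ J, v ∈ K u then ee v + ee z - d • ee h.choose else ee v
      have k4 : ∀ v, v ∉ J → (∀ u ∈ J, v ∉ K u) → Φ (ee v) = ee v := fun v a b => by
        rw [k, if_neg a, dif_neg (by rintro ⟨u, c, d⟩; exact b u c d)]
      refine ⟨Φ, k4 z hz fun u _ => (hJ u).1, fun u hu => by rw [k, if_pos hu],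
        fun u hu v hv => ?_, k4⟩
      have e : ∃ u ∈ J, v ∈ K u := ⟨u, hu, hv⟩
      have e2 : e.choose = u := by
        by_contra n
        exact Set.disjoint_left.1 (hK _ _ n) e.choose_spec.2 hv
      rw [k, if_neg (Set.disjoint_left.1 (hJ u).2 hv), dif_pos e, e2]
    have v3 : ∀ a : ι → F3, a + a + a = 0 := fun a => by rw [vec3]; abel
    constructor
    · obtain ⟨Φ, k1, k2, k3, k4⟩ := key 1
      refine dom_fw Φ h (fun v _ a => k4 v (a _ (Or.inl rfl)) fun u hu =>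
        a _ (Or.inr ⟨u, hu, rfl⟩)) ?_ r r'
      rintro _ (rfl | ⟨u, hu, rfl⟩)
      · refine ⟨1, -ee z, one_ne, fun v hv => by rw [k2 v hv]; simp, ?_⟩
        rintro _ (rfl | rfl | rfl) <;>
          simp only [pv_pos, pv_neg, pv_none, map_neg, map_zero, k1, one_smul]
        · abel
        · linear_combination (exp := 1) v3 (ee z)
        · abel
      · refine ⟨1, ee u - ee z, one_ne, fun v hv => by rw [k3 u hu v hv]; simp, ?_⟩
        rintro _ (rfl | rfl | rfl) <;>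
          simp only [pv_pos, pv_neg, map_neg, k1, k2 u hu, one_smul]
        · linear_combination (exp := 1) -v3 (ee u)
        · linear_combination (exp := 1) v3 (ee z)
        · abel
    · obtain ⟨Φ, k1, k2, k3, k4⟩ := key (-1)
      refine dom_bw Φ h (fun v _ a => k4 v (a _ (Or.inl rfl)) fun u hu =>
        a _ (Or.inr ⟨u, hu, rfl⟩)) ?_ r r'
      rintro _ (rfl | ⟨u, hu, rfl⟩)
      · refine ⟨1, ee z, one_ne, fun v hv => by rw [k2 v hv]; simp, ?_⟩
        rintro _ (rfl | rfl | rfl) <;>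
          simp only [pv_pos, pv_neg, pv_none, map_neg, map_zero, k1, one_smul]
        · abel
        · linear_combination (exp := 1) -v3 (ee z)
        · abel
      · refine ⟨1, -ee u - ee z, one_ne, fun v hv => by rw [k3 u hu v hv]; simp; abel, ?_⟩
        rintro _ (rfl | rfl | rfl) <;>
          simp only [pv_pos, pv_neg, map_neg, k1, k2 u hu, one_smul, neg_smul]
        · linear_combination (exp := 1) v3 (ee u)
        · abel
        · linear_combination (exp := 1) v3 (ee z)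
  | exchange _ k T hT x K hx hK h =>
    obtain ⟨Z, Z', a, a'⟩ := hT.aff
    constructor
    · obtain ⟨η, c, hc⟩ := a.ex
      obtain ⟨Φ, k1, k2, k3⟩ := ex_phi Z x K hx hK T η c
      refine dom_fw Φ h (fun v b d => k3 v b fun R hR => d _ ⟨R, hR, rfl⟩) ?_ r r'
      rintro _ ⟨R, hR, rfl⟩
      refine ⟨η R, emb x (c R), (hc R hR).1, fun v hv => ?_, ?_⟩
      · rw [k2 R hR v hv, smul_smul, sq_one (hc R hR).1, one_smul, sub_add_cancel]
      · rintro _ ⟨q, hq, rfl⟩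
        simp only [pv_place, k1, (hc R hR).2 q hq, map_add, map_smul]
    · obtain ⟨η, c, hc⟩ := a'.ex
      obtain ⟨Φ, k1, k2, k3⟩ := ex_phi Z' x K hx hK T η c
      refine dom_bw Φ h (fun v b d => k3 v b fun R hR => d _ ⟨R, hR, rfl⟩) ?_ r r'
      rintro _ ⟨R, hR, rfl⟩
      refine ⟨η R, emb x (c R), (hc R hR).1, fun v hv => ?_, ?_⟩
      · rw [k2 R hR v hv, smul_smul, sq_one (hc R hR).1, one_smul, sub_add_cancel]
      · rintro _ ⟨q, hq, rfl⟩
        simp only [pv_place, k1, (hc R hR).2 q hq, map_add, map_smul]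

theorem Conn.ind {G H : SGraph ι E} (h : Conn G H) : ∀ {N N' : E → ι → F3}, Rep G N → Rep H N' →
    ∀ S, LinearIndepOn F3 N S ↔ LinearIndepOn F3 N' S := by
  induction h with
  | rel G H h => exact fun r r' S => ⟨(h.dom r r').2.ind S, (h.dom r r').1.ind S⟩
  | refl G =>
    intro N N' r r' S
    have := (Move.loops G G fun _ => Or.inl rfl).dom r r'
    exact ⟨this.2.ind S, this.1.ind S⟩
  | symm G H _ ih => exact fun r r' S => (ih r' r S).symm
  | trans G H K _ _ ih ih' =>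
    intro N N' r r' S
    choose M hM using fun e => col_self (H e)
    exact (ih r hM S).trans (ih' hM r' S)

end Pool.Agent.P.MP_053557_co.RG
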