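import Pool.Agent.P.MP_053557_co.RG2

/-! Twists and rotations of columns are moves. -/

namespace Pool.Agent.P.MP_053557_co.RG

variable {ι E : Type} [DecidableEq ι] [Fintype ι]

omit [DecidableEq ι] [Fintype ι] in
theorem W2.no {c : ι → F3} (h : W2 c) {i j k : ι} (a : c i ≠ 0) (b : c j ≠ 0) (d : c k ≠ 0)
    (e1 : i ≠ j) (e2 : i ≠ k) (e3 : j ≠ k) : False := by
  rcases h i j k a b d with e | e | e
  exacts [e1 e, e2 e, e3 e]

theorem pm {t : F3} (h : t ≠ 0) : t = 1 ∨ t = -1 := by revert t; decide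
theorem n1 : (-1 : F3) ≠ 0 := by decide
theorem n2 : (1 + 1 : F3) ≠ 0 := by decide

theorem fix_supp (Φ : (ι → F3) →ₗ[F3] (ι → F3)) {c : ι → F3}
    (h : ∀ v, c v ≠ 0 → Φ (ee v) = ee v) : Φ c = c := by
  have e : c = ∑ v, c v • ee v := funext fun w => by simp [ee, Finset.sum_apply]
  conv_lhs => rw [e, map_sum]
  refine (Finset.sum_congr rfl fun v _ => ?_).trans e.symm
  by_cases a : c v = 0
  · simp [a]
  · rw [map_smul, h v a]

omit [Fintype ι] in
/-- ordered form of the case distinction -/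
theorem W2.cases' {c : ι → F3} (h : W2 c) (h0 : c ≠ 0) (p : ι → Prop) :
    (∀ v, c v ≠ 0 → ¬ p v) ∨ (∃ v s, p v ∧ s ≠ (0 : F3) ∧ c = s • ee v) ∨
    ∃ v w s t, p v ∧ v ≠ w ∧ s ≠ (0 : F3) ∧ t ≠ (0 : F3) ∧ c = s • (ee v - t • ee w) := by
  rcases h.cases with e | ⟨v, s, h1, rfl⟩ | ⟨v, w, s, t, d, h1, h2, rfl⟩
  · exact absurd e h0
  · by_cases a : p v
    · exact Or.inr (Or.inl ⟨v, s, a, h1, rfl⟩)
    · refine Or.inl fun u hu => ?_
      obtain rfl : u = v := by
        by_contra n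
        simp [ee, n] at hu
      exact a
  · by_cases a : p v
    · exact Or.inr (Or.inr ⟨v, w, s, t, a, d, h1, h2, rfl⟩)
    by_cases b : p w
    · refine Or.inr (Or.inr ⟨w, v, -(s * t), t, b, d.symm, neg_ne (mul_ne h1 h2), h2, ?_⟩)
      rw [smul_sub, smul_sub, smul_smul, smul_smul, neg_mul, mul_assoc, sq_one h2, mul_one,
        neg_smul, neg_smul]
      abel
    · refine Or.inl fun u hu => ?_
      by_cases n : u = v
      · exact n ▸ a
      by_cases m : u = w
      · exact m ▸ b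
      simp [ee, n, m] at hu

theorem conn_twist {G H : SGraph ι E} {N : E → ι → F3} (K : Set ι) (x y : ι) (hxy : x ≠ y)
    (hx : x ∉ K) (hy : y ∉ K) (Φ : (ι → F3) →ₗ[F3] (ι → F3))
    (k1 : ∀ v ∈ K, Φ (ee v) = ee x + ee y - ee v) (k2 : ∀ v, v ∉ K → Φ (ee v) = ee v)
    (r : Rep G N) (r' : Rep H fun e => Φ (N e)) : Conn G H := by
  refine conn_shape (fun G0 H0 => Move.twist G0 H0 K x y hx hy)
    ⟨_, rfl, (pos x, pos y), Or.inl (Or.inl rfl), by simp [pos], by simp [pos]⟩ r r' ?_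
    (fun e a => by simp [a]) fun e h0 => ?_
  · rintro _ rfl _ (rfl | rfl) _ _ a <;> simp [pos] at a
  have w' := (r' e).w2
  rcases (r e).w2.cases' h0 (· ∈ K) with a | ⟨v, s, hv, h1, b⟩ | ⟨v, w, s, t, hv, d, h1, h2, b⟩
  · refine Or.inl ⟨fix_supp Φ fun v hv => k2 v (a v hv), fun v hv => ⟨id, ?_⟩⟩
    rintro _ rfl
    exact a v hv
  all_goals
    have vx : v ≠ x := fun e => hx (e ▸ hv)
    have vy : v ≠ y := fun e => hy (e ▸ hv)
    simp only [b, map_smul, map_sub, k1 v hv] at w' ⊢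
    replace w' := w'.of_smul h1
  · exact (w'.no (i := x) (j := y) (k := v) (by simp [ee, hxy, vx.symm])
      (by simp [ee, hxy.symm, vy.symm]) (by simp [ee, vx, vy]) hxy vx.symm vy.symm).elim
  have pv1 : (pos v, pos v) ∈ Part.pts ⟨K, {(pos x, pos y), (pos y, pos x)}⟩ := Or.inr ⟨v, hv, rfl⟩
  by_cases hw : w ∈ K
  · have wx : w ≠ x := fun e => hx (e ▸ hw)
    have wy : w ≠ y := fun e => hy (e ▸ hw)
    rw [k1 w hw] at w' ⊢
    rcases pm h2 with rfl | rfl
    · refine Or.inr ⟨_, rfl, _, pv1, (pos w, pos w), Or.inr ⟨w, hw, rfl⟩, s, -s, h1, neg_ne h1,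
        by simp [pv_pos], ?_⟩
      simp only [pv_pos, one_smul, neg_smul, ← smul_neg]
      congr 1
      abel
    · exact (w'.no (i := x) (j := y) (k := v) (by simpa [ee, hxy, vx.symm, wx.symm] using n2)
        (by simpa [ee, hxy.symm, vy.symm, wy.symm] using n2) (by simp [ee, vx, vy, d]) hxy
        vx.symm vy.symm).elim
  rw [k2 w hw] at w' ⊢
  by_cases a : w = x ∧ t = 1
  · obtain ⟨rfl, rfl⟩ := a
    refine Or.inr ⟨_, rfl, _, pv1, (pos w, pos y), Or.inl (Or.inl rfl), s, -s, h1, neg_ne h1,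
      by simp [pv_pos], ?_⟩
    simp only [pv_pos, one_smul, neg_smul, ← smul_neg]
    congr 1
    abel
  by_cases a' : w = y ∧ t = 1
  · obtain ⟨rfl, rfl⟩ := a'
    refine Or.inr ⟨_, rfl, _, pv1, (pos w, pos x), Or.inl (Or.inr rfl), s, -s, h1, neg_ne h1,
      by simp [pv_pos], ?_⟩
    simp only [pv_pos, one_smul, neg_smul, ← smul_neg]
    congr 1
    abel
  have q : ∀ u, ¬ (w = u ∧ t = 1) → (1 : F3) - t * ee w u ≠ 0 := by
    intro u n
    by_cases e : u = w
    · subst e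
      obtain rfl := (pm h2).resolve_left fun e => n ⟨rfl, e⟩
      simpa [ee] using n2
    · simp [ee, e]
  exact (w'.no (i := x) (j := y) (k := v) (by simpa [ee_self, ee_ne hxy, ee_ne vx.symm] using q x a)
    (by simpa [ee_self, ee_ne hxy.symm, ee_ne vy.symm] using q y a')
    (by simp [ee, vx, vy, d]) hxy vx.symm vy.symm).elim

theorem conn_rotate {G H : SGraph ι E} {N : E → ι → F3} (z : ι) (J K : Set ι) (τ : ι → ι)
    (hJ : z ∉ J) (hK : z ∉ K) (hJK : ∀ v ∈ K, v ∉ J) (hτ : ∀ v ∈ K, τ v ∈ J)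
    (Φ : (ι → F3) →ₗ[F3] (ι → F3)) (k1 : ∀ v ∈ J, Φ (ee v) = ee v + ee z)
    (k2 : ∀ v ∈ K, Φ (ee v) = ee v + ee z - ee (τ v))
    (k3 : ∀ v, v ∉ J → v ∉ K → Φ (ee v) = ee v)
    (r : Rep G N) (r' : Rep H fun e => Φ (N e)) : Conn G H := by
  have v3 : ∀ a : ι → F3, a + a + a = 0 := fun a => by rw [vec3]; abel
  refine conn_shape (fun G0 H0 => Move.rotate G0 H0 z J (fun u => {v | v ∈ K ∧ τ v = u}) hJ
      (fun u => ⟨fun a => hK a.1, Set.disjoint_left.2 fun v a => hJK v a.1⟩)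
      fun u v n => Set.disjoint_left.2 fun w a b => n (a.2.symm.trans b.2))
    ⟨_, Or.inl rfl, (neg z, pos z), Or.inl (Or.inr (Or.inl rfl)), by simp [neg], by simp [pos]⟩
    r r' ?_ (fun e a => by simp [a]) fun e h0 => ?_
  · rintro _ (rfl | ⟨u, -, rfl⟩) _ (rfl | rfl | rfl) _ (rfl | rfl | rfl) a b <;>
      first | rfl | (simp [pos, neg] at a; done) | simp [pos, neg] at b
  have w' := (r' e).w2
  have fin : ∀ {B : Part ι} {P : Set (Part ι)} {s : F3} {c c' : ι → F3} (a b : Port ι × Port ι),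
      B ∈ P → a ∈ B.pts → b ∈ B.pts → s ≠ 0 → c = pv a.1 - pv b.1 → c' = pv a.2 - pv b.2 →
      Shape ∅ P (s • c) (s • c') := fun a b h1 h2 h3 h4 h5 h6 =>
    Or.inr ⟨_, h1, a, h2, b, h3, _, _, h4, h4, by rw [h5], by rw [h6]⟩
  rcases (r e).w2.cases' h0 (· ∈ K) with a | ⟨v, s, hv, h1, b⟩ | ⟨v, w, s, t, hv, d, h1, h2, b⟩
  · rcases (r e).w2.cases' h0 (· ∈ J) with
      a' | ⟨v, s, hv, h1, b⟩ | ⟨v, w, s, t, hv, d, h1, h2, b⟩
    · refine Or.inl ⟨fix_supp Φ fun v hv => k3 v (a' v hv) (a v hv), fun v hv => ⟨id, ?_⟩⟩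
      rintro _ (rfl | ⟨u, -, rfl⟩)
      · exact a' v hv
      · exact fun n => a v hv n.1
    · simp only [b, map_smul, k1 v hv]
      exact fin (pos v, pos v) (none, neg z) (Or.inl rfl) (Or.inr ⟨v, hv, rfl⟩)
        (Or.inl (Or.inl rfl)) h1 (by simp [pv_pos]) (by simp [pv_pos, pv_neg])
    have wK : w ∉ K := a w (by simpa [b, ee, d.symm] using mul_ne h1 h2)
    have vz : v ≠ z := fun e => hJ (e ▸ hv)
    simp only [b, map_smul, map_sub, k1 v hv] at w' ⊢
    replace w' := w'.of_smul h1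
    by_cases hw : w ∈ J
    · have wz : w ≠ z := fun e => hJ (e ▸ hw)
      rw [k1 w hw] at w' ⊢
      rcases pm h2 with rfl | rfl
      · exact fin (pos v, pos v) (pos w, pos w) (Or.inl rfl) (Or.inr ⟨v, hv, rfl⟩)
          (Or.inr ⟨w, hw, rfl⟩) h1 (by simp [pv_pos]) (by simp [pv_pos])
      · exact (w'.no (i := v) (j := w) (k := z) (by simp [ee, d, vz]) (by simp [ee, d.symm, wz])
          (by simpa [ee, vz.symm, wz.symm] using n2) d vz wz).elim
    rw [k3 w hw wK] at w' ⊢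
    by_cases wz : w = z
    · subst wz
      rcases pm h2 with rfl | rfl
      · exact fin (pos v, pos v) (pos w, none) (Or.inl rfl) (Or.inr ⟨v, hv, rfl⟩)
          (Or.inl (Or.inr (Or.inr rfl))) h1 (by simp [pv_pos]) (by simp [pv_pos])
      · refine fin (pos v, pos v) (neg w, pos w) (Or.inl rfl) (Or.inr ⟨v, hv, rfl⟩)
          (Or.inl (Or.inr (Or.inl rfl))) h1 (by simp [pv_pos, pv_neg]) ?_
        simp only [pv_pos, neg_smul, one_smul]
        linear_combination (exp := 1) v3 (ee w)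
    · exact (w'.no (i := v) (j := w) (k := z) (by simp [ee, d, vz])
        (by simpa [ee, d.symm, wz] using h2) (by simp [ee, vz.symm, Ne.symm wz]) d vz wz).elim
  all_goals
    have vz : v ≠ z := fun e => hK (e ▸ hv)
    have uz : τ v ≠ z := fun e => hJ (e ▸ hτ v hv)
    have vu : v ≠ τ v := fun e => hJK v hv (e ▸ hτ v hv)
    simp only [b, map_smul, map_sub, k2 v hv] at w' ⊢
    replace w' := w'.of_smul h1
  · exact (w'.no (i := v) (j := τ v) (k := z) (by simp [ee, vz, vu]) (by simp [ee, vu.symm, uz])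
      (by simp [ee, vz.symm, uz.symm]) vu vz uz).elim
  have hB : (⟨{w | w ∈ K ∧ τ w = τ v}, {(pos (τ v), neg (τ v)), (neg (τ v), pos z),
      (pos z, pos (τ v))}⟩ : Part ι) ∈
      (insert ⟨J, {(none, neg z), (neg z, pos z), (pos z, none)}⟩
        ((fun u => ⟨{w | w ∈ K ∧ τ w = u}, {(pos u, neg u), (neg u, pos z), (pos z, pos u)}⟩) '' J) :
          Set (Part ι)) := Or.inr ⟨τ v, hτ v hv, rfl⟩
  by_cases hw : w ∈ K
  · have wz : w ≠ z := fun e => hK (e ▸ hw)
    have uz' : τ w ≠ z := fun e => hJ (e ▸ hτ w hw)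
    have wu : w ≠ τ v := fun e => hJK w hw (e ▸ hτ v hv)
    have wu' : w ≠ τ w := fun e => hJK w hw (e ▸ hτ w hw)
    have vu' : v ≠ τ w := fun e => hJK v hv (e ▸ hτ w hw)
    rw [k2 w hw] at w' ⊢
    rcases pm h2 with rfl | rfl
    · by_cases q : τ w = τ v
      · exact fin (pos v, pos v) (pos w, pos w) hB (Or.inr ⟨v, ⟨hv, rfl⟩, rfl⟩)
          (Or.inr ⟨w, ⟨hw, q⟩, rfl⟩) h1 (by simp [pv_pos]) (by simp [pv_pos, q])
      · exact (w'.no (i := v) (j := w) (k := τ v) (by simp [ee, d, vz, vu, vu'])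
          (by simp [ee, d.symm, wz, wu, wu'])
          (by simp [ee, vu.symm, wu.symm, uz, Ne.symm q]) d vu wu).elim
    · exact (w'.no (i := v) (j := w) (k := z) (by simp [ee, d, vz, vu, vu'])
        (by simp [ee, d.symm, wz, wu, wu'])
        (by simpa [ee, vz.symm, wz.symm, uz.symm, uz'.symm] using n2) d vz wz).elim
  by_cases hw' : w ∈ J
  · have wz : w ≠ z := fun e => hJ (e ▸ hw')
    rw [k1 w hw'] at w' ⊢
    by_cases q : w = τ v
    · subst q
      rcases pm h2 with rfl | rfl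
      · refine fin (pos v, pos v) (pos (τ v), neg (τ v)) hB (Or.inr ⟨v, ⟨hv, rfl⟩, rfl⟩)
          (Or.inl (Or.inl rfl)) h1 (by simp [pv_pos]) ?_
        simp only [pv_pos, pv_neg, one_smul]
        linear_combination (exp := 1) -v3 (ee (τ v))
      · refine fin (pos v, pos v) (neg (τ v), pos z) hB (Or.inr ⟨v, ⟨hv, rfl⟩, rfl⟩)
          (Or.inl (Or.inr (Or.inl rfl))) h1 (by simp [pv_pos, pv_neg]) ?_
        simp only [pv_pos, neg_smul, one_smul]
        linear_combination (exp := 1) v3 (ee z)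
    · exact (w'.no (i := v) (j := w) (k := τ v) (by simp [ee, d, vz, vu])
        (by simpa [ee, d.symm, wz, q] using h2)
        (by simp [ee, vu.symm, Ne.symm q, uz]) d vu q).elim
  have wu : w ≠ τ v := fun e => hw' (e ▸ hτ v hv)
  rw [k3 w hw' hw] at w' ⊢
  by_cases q : w = z ∧ t = 1
  · obtain ⟨rfl, rfl⟩ := q
    refine fin (pos v, pos v) (pos w, pos (τ v)) hB (Or.inr ⟨v, ⟨hv, rfl⟩, rfl⟩)
      (Or.inl (Or.inr (Or.inr rfl))) h1 (by simp [pv_pos]) ?_
    simp only [pv_pos, one_smul]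
    abel
  have q' : (1 : F3) - t * ee w z ≠ 0 := by
    by_cases e : z = w
    · subst e
      obtain rfl := (pm h2).resolve_left fun e => q ⟨rfl, e⟩
      simpa [ee] using n2
    · simp [ee, e]
  exact (w'.no (i := v) (j := τ v) (k := z) (by simp [ee, d, vz, vu])
    (by simp [ee, vu.symm, uz, wu.symm])
    (by simpa [ee_self, ee_ne vz.symm, ee_ne uz.symm] using q') vu vz uz).elim

theorem dot_ee (w : ι → F3) (v : ι) : w ⬝ᵥ ee v = w v := by simp [dotProduct, ee]

/-- adding a signed sum of stars to one star -/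
theorem conn_add {G H : SGraph ι E} {N : E → ι → F3} (w : ι → F3) (p : Port ι)
    (hp : w ⬝ᵥ pv p = 0) (r : Rep G N) (r' : Rep H fun e => N e + (w ⬝ᵥ N e) • pv p) :
    Conn G H := by
  rcases p with _ | ⟨z, b⟩
  · exact conn_same r (by simpa using r')
  have wz : w z = 0 := by
    rw [pv_some, dotProduct_smul, dot_ee, smul_eq_mul] at hp
    by_contra n
    exact mul_ne (sg_ne b) n hp
  let α : ι → F3 := fun v => if w v = 0 then 1 else sg b * w v
  have hα : ∀ v, α v ≠ 0 := fun v => by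
    by_cases a : w v = 0
    · simp [α, a]
    · simpa [α, a] using mul_ne (sg_ne b) a
  obtain ⟨G1, g⟩ := ex_rep G (N := fun e => α * N e) fun e => (r e).w2.mul α
  obtain ⟨H1, h⟩ := ex_rep G (N := fun e => α * (N e + (w ⬝ᵥ N e) • pv (some (z, b))))
    fun e => (r' e).w2.mul α
  obtain ⟨Φ, k⟩ := ex_map fun v : ι => if w v = 0 then ee v else ee v + ee z
  refine (conn_scale α hα r g).tr (Conn.tr ?_ (conn_scale α hα r' h).sy)
  refine conn_rotate z {v | w v ≠ 0} ∅ id (fun a => a wz) id (fun _ a => a.elim)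
    (fun _ a => a.elim) Φ (fun v a => by rw [k, if_neg a]) (fun _ a => a.elim)
    (fun v a _ => by rw [k, if_pos (not_not.1 a)]) g ?_
  have key : Φ ∘ₗ LinearMap.mulLeft F3 α = LinearMap.mulLeft F3 α ∘ₗ
      (LinearMap.id + (dotProductBilin F3 F3 w).smulRight (pv (some (z, b)))) := map_ext fun v => by
    have e : ∀ u, α * ee u = α u • ee u := fun u => funext fun y => by
      by_cases a : y = u <;> simp [ee, a]
    simp only [LinearMap.comp_apply, LinearMap.mulLeft_apply, LinearMap.add_apply,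
      LinearMap.id_apply, LinearMap.smulRight_apply, dotProductBilin_apply_apply, dot_ee, pv_some,
      mul_add, mul_smul_comm, e, map_smul, k]
    by_cases a : w v = 0
    · simp [a]
    · simp [a, α, wz, smul_smul, mul_comm]
  intro e
  have := LinearMap.congr_fun key (N e)
  simp only [LinearMap.comp_apply, LinearMap.mulLeft_apply, LinearMap.add_apply,
    LinearMap.id_apply, LinearMap.smulRight_apply, dotProductBilin_apply_apply] at this
  show Col (H1 e) (Φ (α * N e))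
  rw [this]
  exact h e

end Pool.Agent.P.MP_053557_co.RG
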