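import Pool.Agent.P.MP_053557_co.RG3

/-! Finite checks for the four tables. -/

namespace Pool.Agent.P.MP_053557_co.RG

open Matrix

variable {k : ℕ}

/-- the image of a port -/
def zc (Z : Matrix (Fin k) (Fin k) F3) : Port (Fin k) → Fin k → F3
  | none, _ => 0
  | some q, l => sg q.2 * Z l q.1

theorem zc_eq (Z : Matrix (Fin k) (Fin k) F3) (q : Port (Fin k)) : Z *ᵥ pv q = zc Z q := by
  rcases q with _ | ⟨i, b⟩
  · rw [pv_none, mulVec_zero]; rfl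
  · funext l
    simp [mulVec, dotProduct, pv, zc, mul_comm]

/-- at most one nonzero entry -/
def W1 (a : Fin k → F3) : Prop := ∀ i j, a i ≠ 0 → a j ≠ 0 → i = j

instance (a : Fin k → F3) : Decidable (W1 a) := by unfold W1; infer_instance
instance (a : Fin k → F3) : Decidable (W2 a) := by unfold W2; infer_instance

theorem W1.ex {a : Fin k → F3} (h : W1 a) : ∃ p, a = pv p := by
  by_cases h0 : a = 0
  · exact ⟨none, h0⟩
  obtain ⟨i, hi⟩ := Function.ne_iff.1 h0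
  obtain ⟨b, hb⟩ := ex_sg hi
  refine ⟨some (i, b), funext fun j => ?_⟩
  by_cases e : j = i
  · simp [pv, e, hb]
  · by_contra n
    exact e (h j i (by simpa [pv, e] using n) hi)

theorem W1.smul {a : Fin k → F3} (h : W1 a) (s : F3) : W1 (s • a) := fun i j b c =>
  h i j (fun e => b (by simp [e])) fun e => c (by simp [e])

theorem ex_scale (Z : Matrix (Fin k) (Fin k) F3) (q : Port (Fin k)) {s : F3} (h : s ≠ 0) :
    ∃ q', pv q' = s • pv q ∧ zc Z q' = s • zc Z q := by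
  have : ∃ q', pv q' = s • pv q := by
    rcases q with _ | ⟨i, b⟩
    · exact ⟨none, by simp⟩
    · obtain ⟨c, rfl⟩ := ex_sg h
      exact ⟨some (i, xor c b), by rw [pv_some, pv_some, smul_smul, sg_xor]⟩
  obtain ⟨q', e⟩ := this
  exact ⟨q', e, by rw [← zc_eq, ← zc_eq, e, mulVec_smul]⟩

/-- a sign, a constant and a row -/
abbrev Dat (k : ℕ) : Type := F3 × (Fin k → F3) × Row k

/-- up to sign, `c` is the constant of a row -/
def InD (D : List (Dat k)) (c : Fin k → F3) : Prop :=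
  ∃ d ∈ D, ∃ s : F3, s ≠ 0 ∧ ∀ l, c l = s * d.2.1 l

instance (D : List (Dat k)) (c : Fin k → F3) : Decidable (InD D c) := by
  unfold InD; infer_instance

/-- reduction of the constant `c` by the ports `u` and `m` -/
def RedW (Z : Matrix (Fin k) (Fin k) F3) (D : List (Dat k)) (c : Fin k → F3)
    (u m : Port (Fin k)) : Prop :=
  (∀ q, W1 (c - zc Z q) → W1 (pv u - pv q) ∧ W1 (c - zc Z q + pv m)) ∧
    ((∀ l, (c + pv m - zc Z u) l = 0) ∨ InD D (c + pv m - zc Z u))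

instance (Z : Matrix (Fin k) (Fin k) F3) (D : List (Dat k)) (c : Fin k → F3)
    (u m : Port (Fin k)) : Decidable (RedW Z D c u m) := by unfold RedW; infer_instance

/-- the finite checks -/
structure CoreOK (Z : Matrix (Fin k) (Fin k) F3) (D : List (Dat k)) : Prop where
  a : ∀ d ∈ D, d.1 ≠ 0
  b : ∀ d ∈ D, ∀ d' ∈ D, ∀ s : F3, s ≠ 0 → (∀ l, d.2.1 l = s * d'.2.1 l) →
    d.1 = d'.1 ∧ d.2.2 = d'.2.2 ∧ s = 1
  c : ∀ d ∈ D, ∀ q n, (∀ l, pv n l = d.1 * zc Z q l + d.2.1 l) → (q, n) ∈ d.2.2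
  d : ∀ p q, W2 (zc Z p - zc Z q) → (∀ l, pv p l = pv q l) ∨ ∃ d ∈ D, ∃ a ∈ d.2.2, ∃ b ∈ d.2.2,
    ∃ s : F3, s ≠ 0 ∧ (∀ l, pv p l - pv q l = s * (pv a.1 l - pv b.1 l)) ∧
      ∃ t : F3, t ≠ 0 ∧ ∀ l, zc Z p l - zc Z q l = t * (pv a.2 l - pv b.2 l)
  e : ∀ q, W1 (zc Z q) → q = none
  f : ∀ q n, RedW Z D (zc Z q + pv n) q (n.map fun r => (r.1, !r.2)) ∨
    RedW Z D (zc Z q + pv n) none none ∨ ∃ u m, RedW Z D (zc Z q + pv n) u m
  g : ∃ d ∈ D, ∃ a ∈ d.2.2, a.1 ≠ none ∧ a.2 ≠ none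
  h : ∀ d ∈ D, ∀ a ∈ d.2.2, a.2 ≠ none

theorem ok_k4 : ∃ D, CoreOK !![0, 1, 1; 1, 0, 1; 1, 1, 0] D ∧ Table 3 (D.map fun d => d.2.2) :=
  ⟨[(-1, ![1, 1, 1], [(pos 0, pos 0), (pos 1, pos 1), (pos 2, pos 2)]),
    (1, ![0, 0, 2], [(none, neg 2), (pos 0, pos 1), (pos 1, pos 0)]),
    (1, ![0, 2, 0], [(none, neg 1), (pos 0, pos 2), (pos 2, pos 0)]),
    (1, ![2, 0, 0], [(none, neg 0), (pos 1, pos 2), (pos 2, pos 1)])],
    ⟨by decide +kernel, by decide +kernel, by decide +kernel, by decide +kernel, by decide +kernel,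
      by decide +kernel, by decide +kernel, by decide +kernel⟩, Table.k4⟩

theorem ok_pinch :
    ∃ D, CoreOK !![0, -1, -1; 1, 1, -1; 1, -1, 1] D ∧ Table 3 (D.map fun d => d.2.2) :=
  ⟨[(-1, ![2, 2, 2], [(neg 0, neg 0), (pos 1, pos 1), (pos 2, pos 2)]),
    (1, ![1, 2, 2], [(pos 0, pos 0), (pos 1, pos 2), (pos 2, pos 1)]),
    (1, ![0, 2, 1], [(pos 0, neg 2), (neg 0, pos 1), (pos 1, neg 0), (neg 2, pos 0)])],
    ⟨by decide +kernel, by decide +kernel, by decide +kernel, by decide +kernel, by decide +kernel,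
      by decide +kernel, by decide +kernel, by decide +kernel⟩, Table.pinch⟩

theorem ok_four : ∃ D, CoreOK !![1, 1, 1, 1; 1, 1, -1, -1; 1, -1, 1, -1; 1, -1, -1, 1] D ∧
    Table 4 (D.map fun d => d.2.2) :=
  ⟨[(-1, ![1, 2, 2, 2], [(neg 0, neg 0), (pos 1, pos 1), (pos 2, pos 2), (pos 3, pos 3)]),
    (1, ![2, 1, 2, 2], [(pos 0, neg 1), (neg 1, pos 0), (pos 2, pos 3), (pos 3, pos 2)]),
    (1, ![2, 2, 1, 2], [(pos 0, neg 2), (pos 1, pos 3), (neg 2, pos 0), (pos 3, pos 1)]),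
    (1, ![2, 2, 2, 1], [(pos 0, neg 3), (pos 1, pos 2), (pos 2, pos 1), (neg 3, pos 0)])],
    ⟨by decide +kernel, by decide +kernel, by decide +kernel, by decide +kernel, by decide +kernel,
      by decide +kernel, by decide +kernel, by decide +kernel⟩, Table.four⟩

theorem ok_six : ∃ D, CoreOK !![1, 1, 1, 1, 1, 1; 1, 1, 1, -1, -1, 1; 1, 1, 1, 1, -1, -1;
      1, -1, 1, 1, 1, -1; 1, -1, -1, 1, 1, 1; 1, 1, -1, -1, 1, 1] D ∧
    Table 6 (D.map fun d => d.2.2) :=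
  ⟨[(1, ![2, 2, 2, 2, 1, 2], [(pos 0, neg 4), (pos 1, pos 3), (pos 2, pos 5)]),
    (1, ![2, 2, 2, 2, 2, 1], [(pos 0, neg 5), (pos 2, pos 4), (pos 3, pos 1)]),
    (1, ![2, 1, 2, 2, 2, 2], [(pos 0, neg 1), (pos 3, pos 5), (pos 4, pos 2)]),
    (1, ![2, 2, 1, 2, 2, 2], [(pos 0, neg 2), (pos 4, pos 1), (pos 5, pos 3)]),
    (1, ![2, 2, 2, 1, 2, 2], [(pos 0, neg 3), (pos 5, pos 2), (pos 1, pos 4)]),
    (-1, ![1, 1, 1, 2, 2, 2], [(pos 1, pos 5), (pos 2, pos 3), (neg 4, neg 0)]),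
    (-1, ![1, 2, 1, 1, 2, 2], [(pos 2, pos 1), (pos 3, pos 4), (neg 5, neg 0)]),
    (-1, ![1, 2, 2, 1, 1, 2], [(pos 3, pos 2), (pos 4, pos 5), (neg 1, neg 0)]),
    (-1, ![1, 2, 2, 2, 1, 1], [(pos 4, pos 3), (pos 5, pos 1), (neg 2, neg 0)]),
    (-1, ![1, 1, 2, 2, 2, 1], [(pos 5, pos 4), (pos 1, pos 2), (neg 3, neg 0)])],
    ⟨by decide +kernel, by decide +kernel, by decide +kernel, by decide +kernel, by decide +kernel,
      by decide +kernel, by decide +kernel, by decide +kernel⟩, Table.six⟩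

end Pool.Agent.P.MP_053557_co.RG
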