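import Pool.Agent.P.MP_053557_co.RG4

/-! Exchanges of columns are chains of moves. -/

namespace Pool.Agent.P.MP_053557_co.RG

open Matrix

variable {ι E : Type} [DecidableEq ι] [Fintype ι] {k : ℕ} {x : Fin k ↪ ι}
  {Z : Matrix (Fin k) (Fin k) F3} {D : List (Dat k)} {Φ : (ι → F3) →ₗ[F3] (ι → F3)}
  {c : ι → Fin k → F3}

/-- `Φ` acts by `Z` on the vertices `x i` and adds `c v` to the other vertices -/
structure Ex (x : Fin k ↪ ι) (Z : Matrix (Fin k) (Fin k) F3) (Φ : (ι → F3) →ₗ[F3] (ι → F3))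
    (c : ι → Fin k → F3) : Prop where
  a : ∀ a, Φ (emb x a) = emb x (Z *ᵥ a)
  b : ∀ v, v ∉ Set.range x → Φ (ee v) = ee v + emb x (c v)

omit [Fintype ι] in
theorem ee_x {v : ι} (h : v ∉ Set.range x) (i : Fin k) : ee v (x i) = 0 :=
  ee_ne fun e => h ⟨i, e⟩

omit [Fintype ι] in
theorem w2_emb {a : Fin k → F3} (h : W2 (emb x a)) : W2 a := fun i j l b d f => by
  simpa using h (x i) (x j) (x l) (by rwa [emb_at]) (by rwa [emb_at]) (by rwa [emb_at])

omit [Fintype ι] in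
theorem w2_add {v : ι} (hv : v ∉ Set.range x) {a : Fin k → F3} :
    W2 (ee v + emb x a) ↔ W1 a := by
  have n : ∀ i, v ≠ x i := fun i e => hv ⟨i, e.symm⟩
  refine ⟨fun h i j b d => ?_, fun h => ?_⟩
  · have := h v (x i) (x j) (by simp [ee_self, emb_out x a hv])
      (by simpa [ee_x hv, emb_at] using b) (by simpa [ee_x hv, emb_at] using d)
    simpa [n] using this
  · obtain ⟨p, rfl⟩ := h.ex
    rw [← pv_place, ← pv_pos, ← sub_neg_eq_add]
    rcases place x p with _ | ⟨y, b⟩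
    · simpa [pos] using (Joins.right v false).col.w2
    · have : -pv (some (y, b)) = pv (some (y, !b)) := by
        rw [pv_some, pv_some, ← neg_smul]
        cases b <;> simp
      rw [this]
      exact (Joins.link v y false (!b)).col.w2

/-- the three shapes of a column -/
theorem Ex.shape (h : Ex x Z Φ c) {n : ι → F3} (w : W2 n) (w' : W2 (Φ n)) :
    (∃ p q, n = emb x (pv p - pv q) ∧ W2 (zc Z p - zc Z q)) ∨
    (∃ v q s, v ∉ Set.range x ∧ s ≠ (0 : F3) ∧ n = s • (ee v - emb x (pv q)) ∧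
      W1 (c v - zc Z q)) ∨
    ∃ v u s t, v ∉ Set.range x ∧ u ∉ Set.range x ∧ s ≠ (0 : F3) ∧ t ≠ (0 : F3) ∧
      n = s • (ee v - t • ee u) ∧ c v = t • c u := by
  have s0 : ∀ p q, n = emb x (pv p - pv q) → W2 (zc Z p - zc Z q) := by
    rintro p q rfl
    rw [h.a, mulVec_sub, zc_eq, zc_eq] at w'
    exact w2_emb w'
  have s1 : ∀ v q s, v ∉ Set.range x → s ≠ (0 : F3) → n = s • (ee v - emb x (pv q)) →
      W1 (c v - zc Z q) := by
    rintro v q s hv hs rfl
    rw [map_smul, map_sub, h.a, h.b v hv, zc_eq, add_sub_assoc, ← map_sub] at w'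
    exact (w2_add hv).1 (w'.of_smul hs)
  have pe : ∀ (i : Fin k) (s : F3), s ≠ 0 → ∃ p, emb x (pv p) = s • ee (x i) := fun i s hs => by
    obtain ⟨b, rfl⟩ := ex_sg hs
    exact ⟨some (i, b), by rw [pv_some, map_smul, emb_ee]⟩
  by_cases h0 : n = 0
  · exact Or.inl ⟨none, none, by simp [h0], s0 _ _ (by simp [h0])⟩
  rcases w.cases' h0 (· ∉ Set.range x) with a | ⟨v, s, hv, h1, b⟩ | ⟨v, u, s, t, hv, d, h1, h2, b⟩
  · have : ∃ p q, n = emb x (pv p - pv q) := by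
      rcases w.cases with e | ⟨v, s, h1, b⟩ | ⟨v, u, s, t, d, h1, h2, b⟩
      · exact absurd e h0
      · obtain ⟨i, rfl⟩ := not_not.1 (a v (by simpa [b, ee] using h1))
        obtain ⟨p, hp⟩ := pe i s h1
        exact ⟨p, none, by rw [b, pv_none, sub_zero, hp]⟩
      · obtain ⟨i, rfl⟩ := not_not.1 (a v (by simpa [b, ee, d] using h1))
        obtain ⟨j, rfl⟩ := not_not.1 (a u (by simpa [b, ee, d.symm] using mul_ne h1 h2))
        obtain ⟨p, hp⟩ := pe i s h1
        obtain ⟨q, hq⟩ := pe j _ (mul_ne h1 h2)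
        exact ⟨p, q, by rw [b, map_sub, hp, hq, smul_sub, smul_smul]⟩
    obtain ⟨p, q, e⟩ := this
    exact Or.inl ⟨p, q, e, s0 p q e⟩
  · have e : n = s • (ee v - emb x (pv none)) := by simp [b]
    exact Or.inr (Or.inl ⟨v, none, s, hv, h1, e, s1 _ _ _ hv h1 e⟩)
  by_cases hu : u ∈ Set.range x
  · obtain ⟨j, rfl⟩ := hu
    obtain ⟨q, hq⟩ := pe j t h2
    have e : n = s • (ee v - emb x (pv q)) := by rw [b, hq]
    exact Or.inr (Or.inl ⟨v, q, s, hv, h1, e, s1 _ _ _ hv h1 e⟩)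
  refine Or.inr (Or.inr ⟨v, u, s, t, hv, hu, h1, h2, b, funext fun i => ?_⟩)
  by_contra m
  rw [b, map_smul, map_sub, map_smul, h.b v hv, h.b u hu] at w'
  refine (w'.of_smul h1).no (i := v) (j := u) (k := x i) ?_ ?_ ?_ d (fun e => hv ⟨i, e.symm⟩)
    fun e => hu ⟨i, e.symm⟩
  · simp [ee_self, ee_ne d, emb_out x _ hv]
  · simpa [ee_self, ee_ne d.symm, emb_out x _ hu] using h2
  · simpa [ee_x hv, ee_x hu, emb_at, sub_eq_zero] using m

omit [Fintype ι] in
theorem mul_ee (α : ι → F3) (u : ι) : α * ee u = α u • ee u := funext fun y => by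
  by_cases a : y = u <;> simp [ee, a]

omit [Fintype ι] in
theorem mul_emb {α : ι → F3} (h : ∀ i, α (x i) = 1) (a : Fin k → F3) :
    α * emb x a = emb x a := funext fun y => by
  by_cases b : y ∈ Set.range x
  · obtain ⟨i, rfl⟩ := b
    simp [h]
  · simp [emb_out x a b]

/-- `v` belongs to the part of `d` with sign `s` -/
def In (x : Fin k ↪ ι) (D : List (Dat k)) (c : ι → Fin k → F3) (v : ι) (d : Dat k) (s : F3) :
    Prop := v ∉ Set.range x ∧ d ∈ D ∧ s ≠ 0 ∧ c v = s • d.2.1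

omit [DecidableEq ι] [Fintype ι] in
theorem In.uniq (ok : CoreOK Z D) {v u : ι} {d d' : Dat k} {s s' t : F3} (h : In x D c v d s)
    (h' : In x D c u d' s') (ht : t ≠ 0) (e : c v = t • c u) :
    d.1 = d'.1 ∧ d.2.2 = d'.2.2 ∧ s * t * s' = 1 := by
  refine ok.b d h.2.1 d' h'.2.1 _ (mul_ne (mul_ne h.2.2.1 ht) h'.2.2.1) fun l => ?_
  have := congrFun (h.2.2.2.symm.trans (e.trans (congrArg _ h'.2.2.2))) l
  simp only [Pi.smul_apply, smul_eq_mul] at this
  linear_combination s * this - d.2.1 l * sq_one h.2.2.1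

theorem conn_good (ok : CoreOK Z D) (hT : Table k (D.map fun d => d.2.2)) (h : Ex x Z Φ c)
    (good : ∀ v, v ∉ Set.range x → c v = 0 ∨ InD D (c v) ∨ ∀ q, ¬ W1 (c v - zc Z q))
    {G H : SGraph ι E} {N : E → ι → F3} (r : Rep G N) (r' : Rep H fun e => Φ (N e)) :
    Conn G H := by
  classical
  have ex : ∀ v, ∃ a b : F3, a ≠ 0 ∧ b ≠ 0 ∧ (∀ d s, In x D c v d s → a = -(d.1 * s) ∧ b = -s) ∧
      ((¬ ∃ d s, In x D c v d s) → a = 1 ∧ b = 1) := by
    intro v
    by_cases a : ∃ d s, In x D c v d s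
    · obtain ⟨d, s, a⟩ := a
      refine ⟨-(d.1 * s), -s, neg_ne (mul_ne (ok.a d a.2.1) a.2.2.1), neg_ne a.2.2.1,
        fun d' s' a' => ?_, fun n => absurd ⟨d, s, a⟩ n⟩
      obtain ⟨e1, -, e2⟩ := a.uniq ok a' one_ne (one_smul _ _).symm
      obtain rfl : s = s' := by linear_combination s' * e2 - s * sq_one a'.2.2.1
      rw [e1]
      exact ⟨rfl, rfl⟩
    · exact ⟨1, 1, one_ne, one_ne, fun d s b => absurd ⟨d, s, b⟩ a, fun _ => ⟨rfl, rfl⟩⟩
  choose α β hα hβ k1 k2 using ex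
  have kx : ∀ i, α (x i) = 1 ∧ β (x i) = 1 := fun i => k2 _ fun ⟨_, _, a⟩ => a.1 ⟨i, rfl⟩
  have ka := mul_emb fun i => (kx i).1
  have kb := mul_emb fun i => (kx i).2
  obtain ⟨G1, g⟩ := ex_rep G (N := fun e => α * N e) fun e => (r e).w2.mul α
  obtain ⟨H1, g'⟩ := ex_rep G (N := fun e => β * Φ (N e)) fun e => (r' e).w2.mul β
  refine (conn_scale α hα r g).tr (Conn.tr ?_ (conn_scale β hβ r' g').sy)
  let K : Row k → Set ι := fun R => {v | ∃ d s, In x D c v d s ∧ d.2.2 = R}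
  have mem : ∀ d ∈ D, (⟨K d.2.2, (fun q => (place x q.1, place x q.2)) '' {q | q ∈ d.2.2}⟩ :
      Part ι) ∈ (fun R => (⟨K R, (fun q => (place x q.1, place x q.2)) '' {q | q ∈ R}⟩ :
        Part ι)) '' {R | R ∈ D.map fun d => d.2.2} :=
    fun d hd => ⟨d.2.2, List.mem_map.2 ⟨d, hd, rfl⟩, rfl⟩
  have pl : ∀ p : Port (Fin k), p ≠ none → place x p ≠ none := by
    rintro (_ | p) a
    · exact absurd rfl a
    · simp [place]
  refine conn_shape (fun G0 H0 => Move.exchange G0 H0 k _ hT x K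
    (fun R i ⟨_, _, a, _⟩ => a.1 ⟨i, rfl⟩) fun R R' n => Set.disjoint_left.2 ?_) ?_ g g' ?_
    (fun e a => ?_) fun e h0 => ?_
  · rintro v ⟨d, s, a, rfl⟩ ⟨d', s', a', rfl⟩
    exact n (a.uniq ok a' one_ne (one_smul _ _).symm).2.1
  · obtain ⟨d, hd, a, ha, a1, a2⟩ := ok.g
    exact ⟨_, mem d hd, _, Or.inl ⟨a, ha, rfl⟩, pl _ a1, pl _ a2⟩
  · rintro _ ⟨R, hR, rfl⟩ _ ⟨a, ha, rfl⟩ _ _ e
    obtain ⟨d, hd, rfl⟩ := List.mem_map.1 hR
    exact absurd e (pl _ (ok.h d hd a ha))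
  · have : N e = 0 := funext fun v => by
      by_contra n
      exact mul_ne (hα v) n (congrFun a v)
    simp [this]
  have out : ∀ (n : ι → F3), (∀ v, n v ≠ 0 → v ∉ Set.range x ∧ ¬ ∃ d s, In x D c v d s) →
      Φ n = n → Shape (Set.range x) ((fun R => (⟨K R,
        (fun q => (place x q.1, place x q.2)) '' {q | q ∈ R}⟩ : Part ι)) ''
          {R | R ∈ D.map fun d => d.2.2}) (α * n) (β * Φ n) := by
    intro n a b
    refine Or.inl ⟨funext fun v => ?_, fun v hv => ?_⟩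
    · by_cases z : n v = 0
      · simp [b, z]
      · simp [b, k2 v (a v z).2]
    · have z := a v fun e => hv (by simp [e])
      refine ⟨z.1, ?_⟩
      rintro _ ⟨R, -, rfl⟩ ⟨d, s, m, -⟩
      exact z.2 ⟨d, s, m⟩
  have ind : ∀ v, v ∉ Set.range x → InD D (c v) → ∃ d s, In x D c v d s :=
    fun v hv ⟨d, hd, s, hs, e⟩ => ⟨d, s, hv, hd, hs, funext e⟩
  rcases h.shape (r e).w2 (r' e).w2 with ⟨p, q, b, w⟩ | ⟨v, q, s, hv, hs, b, w⟩ |
    ⟨v, u, s, t, hv, hu, hs, ht, b, w⟩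
  · rcases ok.d p q w with a | ⟨d, hd, a, ha, a', ha', s, hs, e1, t, ht, e2⟩
    · exact absurd (by simp [b, funext a]) h0
    refine Or.inr ⟨_, mem d hd, _, Or.inl ⟨a, ha, rfl⟩, _, Or.inl ⟨a', ha', rfl⟩, s, t, hs, ht,
      ?_, ?_⟩
    · simp only [b, ka, pv_place, ← map_sub, ← map_smul]
      exact congrArg _ (funext e1)
    · simp only [b, h.a, kb, pv_place, mulVec_sub, zc_eq, ← map_sub, ← map_smul]
      exact congrArg _ (funext e2)
  · by_cases m : ∃ d s, In x D c v d s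
    · obtain ⟨d, σ, m⟩ := m
      obtain ⟨e1, e2⟩ := k1 v d σ m
      obtain ⟨q', e3, e4⟩ := ex_scale Z q (hα v)
      obtain ⟨n, e5⟩ := (w.smul σ).ex
      have hn : (q', n) ∈ d.2.2 := ok.c d m.2.1 q' n fun l => by
        rw [← e5, e4, e1, m.2.2.2]
        simp only [Pi.smul_apply, Pi.sub_apply, smul_eq_mul]
        linear_combination d.2.1 l * sq_one m.2.2.1 +
          σ * zc Z q l * sq_one (ok.a d m.2.1)
      refine Or.inr ⟨_, mem d m.2.1, (pos v, pos v), Or.inr ⟨v, ⟨d, σ, m, rfl⟩, rfl⟩, _,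
        Or.inl ⟨_, hn, rfl⟩, s * α v, s * β v, mul_ne hs (hα v), mul_ne hs (hβ v), ?_, ?_⟩
      · simp only [b, mul_smul_comm, mul_sub, ka, mul_ee, pv_place, pv_pos, e3, map_smul, mul_smul,
          smul_sub, smul_smul (α v), sq_one (hα v), one_smul]
      · rw [b, map_smul, map_sub, h.a, h.b v hv, zc_eq, add_sub_assoc, ← map_sub, mul_smul_comm,
          mul_add, kb, mul_ee, pv_place, pv_pos, ← e5, map_smul, mul_smul, smul_sub, smul_smul,
          e2, neg_mul, sq_one m.2.2.1]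
        simp [sub_eq_add_neg, add_comm]
    · have c0 : c v = 0 := by
        rcases good v hv with a | a | a
        exacts [a, absurd (ind v hv a) m, absurd w (a q)]
      obtain rfl : q = none := ok.e q (by simpa [c0] using w.smul (-1))
      refine out _ (fun y hy => ?_) (by simp [b, h.b v hv, c0])
      obtain rfl : y = v := by
        by_contra n
        simp [b, ee_ne n] at hy
      exact ⟨hv, m⟩
  · have fx : Φ (N e) = N e := by
      rw [b, map_smul, map_sub, map_smul, h.b v hv, h.b u hu, w, map_smul, smul_add]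
      congr 1
      abel
    by_cases m : ∃ d s, In x D c u d s
    · obtain ⟨d, σ, m⟩ := m
      have m' : In x D c v d (t * σ) := ⟨hv, m.2.1, mul_ne ht m.2.2.1, by
        rw [w, m.2.2.2, smul_smul]⟩
      obtain ⟨e1, e2⟩ := k1 u d σ m
      obtain ⟨e3, e4⟩ := k1 v d _ m'
      refine Or.inr ⟨_, mem d m.2.1, (pos v, pos v), Or.inr ⟨v, ⟨d, _, m', rfl⟩, rfl⟩,
        (pos u, pos u), Or.inr ⟨u, ⟨d, σ, m, rfl⟩, rfl⟩, s * α v, s * β v, mul_ne hs (hα v),
        mul_ne hs (hβ v), ?_, ?_⟩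
      · rw [b, mul_smul_comm, mul_sub, mul_smul_comm, mul_ee, mul_ee, smul_smul t,
          show t * α u = α v by rw [e1, e3]; ring, pv_pos, pv_pos, mul_smul, smul_sub (α v)]
      · rw [fx, b, mul_smul_comm, mul_sub, mul_smul_comm, mul_ee, mul_ee, smul_smul t,
          show t * β u = β v by rw [e2, e4]; ring, pv_pos, pv_pos, mul_smul, smul_sub (β v)]
    · refine out _ (fun y hy => ?_) fx
      by_cases n : y = u
      · exact n ▸ ⟨hu, m⟩
      obtain rfl : y = v := by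
        by_contra n'
        simp [b, ee_ne n, ee_ne n'] at hy
      refine ⟨hv, fun ⟨d, σ, m'⟩ => m ⟨d, t * σ, hu, m'.2.1, mul_ne ht m'.2.2.1, ?_⟩⟩
      rw [mul_smul, ← m'.2.2.2, w, smul_smul, sq_one ht, one_smul]

end Pool.Agent.P.MP_053557_co.RG
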