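import Pool.Agent.P.MP_053557_co.RG5

/-! Reduction of an arbitrary exchange to an exchange by a table. -/

namespace Pool.Agent.P.MP_053557_co.RG

open Matrix

variable {ι E : Type} [DecidableEq ι] [Fintype ι] {k : ℕ} {x : Fin k ↪ ι}
  {Z : Matrix (Fin k) (Fin k) F3} {D : List (Dat k)}

/-- vertices that are attached in a way not listed in the table -/
def Bad (x : Fin k ↪ ι) (Z : Matrix (Fin k) (Fin k) F3) (D : List (Dat k))
    (c : ι → Fin k → F3) : Set ι :=
  {v | v ∉ Set.range x ∧ c v ≠ 0 ∧ ¬ InD D (c v) ∧ ∃ q, W1 (c v - zc Z q)}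

theorem InD.smul {c : Fin k → F3} (h : InD D c) {t : F3} (ht : t ≠ 0) : InD D (t • c) := by
  obtain ⟨d, hd, s, hs, e⟩ := h
  exact ⟨d, hd, t * s, mul_ne ht hs, fun l => by simp [e, mul_assoc]⟩

theorem dot_emb {w : ι → F3} (h : ∀ i, w (x i) = 0) (a : Fin k → F3) : w ⬝ᵥ emb x a = 0 :=
  Finset.sum_eq_zero fun v _ => by
    by_cases b : v ∈ Set.range x
    · obtain ⟨i, rfl⟩ := b
      simp [h]
    · simp [emb_out x a b]

omit [DecidableEq ι] [Fintype ι] in
theorem ex_weight (x : Fin k ↪ ι) (c : ι → Fin k → F3) {c0 : Fin k → F3} (h0 : c0 ≠ 0) :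
    ∃ w : ι → F3, (∀ i, w (x i) = 0) ∧ (∀ v, w v ≠ 0 → c v = w v • c0) ∧
      ∀ v s, v ∉ Set.range x → s ≠ 0 → c v = s • c0 → w v = s := by
  classical
  have u : ∀ s t : F3, s • c0 = t • c0 → s = t := by
    intro s t e
    obtain ⟨i, hi⟩ := Function.ne_iff.1 h0
    replace hi : c0 i ≠ 0 := hi
    have := congrFun e i
    simp only [Pi.smul_apply, smul_eq_mul] at this
    linear_combination c0 i * this - (s - t) * sq_one hi
  refine ⟨fun v => if h : v ∉ Set.range x ∧ ∃ s : F3, c v = s • c0 then h.2.choose else 0,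
    fun i => dif_neg fun h => h.1 ⟨i, rfl⟩, fun v hv => ?_, fun v s hv _ e => ?_⟩
  · by_cases h : v ∉ Set.range x ∧ ∃ s : F3, c v = s • c0
    · simp only [dif_pos h]
      exact h.2.choose_spec
    · exact absurd (dif_neg h) hv
  · have h : v ∉ Set.range x ∧ ∃ s : F3, c v = s • c0 := ⟨hv, s, e⟩
    simp only [dif_pos h]
    exact u _ _ (h.2.choose_spec.symm.trans e)

theorem conn_ex (ok : CoreOK Z D) (hT : Table k (D.map fun d => d.2.2)) (n : ℕ) :
    ∀ {Φ : (ι → F3) →ₗ[F3] (ι → F3)} {c : ι → Fin k → F3} {G H : SGraph ι E} {N : E → ι → F3},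
      (Bad x Z D c).ncard < n → Ex x Z Φ c → Rep G N → Rep H (fun e => Φ (N e)) → Conn G H := by
  induction n with
  | zero => exact fun h => absurd h (Nat.not_lt_zero _)
  | succ n ih =>
  intro Φ c G H N hn h r r'
  rcases (Bad x Z D c).eq_empty_or_nonempty with e | ⟨v0, b1, b2, b3, q0, b4⟩
  · refine conn_good ok hT h (fun v hv => ?_) r r'
    by_contra a
    simp only [not_or, not_forall, not_not] at a
    exact (e ▸ (⟨hv, a.1, a.2.1, a.2.2⟩ : v ∈ Bad x Z D c) : v ∈ (∅ : Set ι))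
  obtain ⟨n0, e0⟩ := b4.ex
  obtain ⟨u, m, red⟩ : ∃ u m, RedW Z D (c v0) u m := by
    rw [show c v0 = zc Z q0 + pv n0 by rw [← e0]; abel]
    rcases ok.f q0 n0 with a | a | a
    exacts [⟨_, _, a⟩, ⟨_, _, a⟩, a]
  obtain ⟨w, w1, w2, w3⟩ := ex_weight x c b2
  have wd := dot_emb w1
  let L : (ι → F3) →ₗ[F3] F3 := dotProductBilin F3 F3 w
  have hL : ∀ a, L a = w ⬝ᵥ a := fun _ => rfl
  let Φ1 : (ι → F3) →ₗ[F3] (ι → F3) := (LinearMap.id + L.smulRight (emb x (pv m))) ∘ₗ Φ ∘ₗ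
    (LinearMap.id - L.smulRight (emb x (pv u)))
  have hΦ : ∀ a, Φ1 a = Φ (a - (w ⬝ᵥ a) • emb x (pv u)) +
    (w ⬝ᵥ Φ (a - (w ⬝ᵥ a) • emb x (pv u))) • emb x (pv m) := fun _ => rfl
  have h1 : Ex x Z Φ1 fun v => c v + w v • (pv m - zc Z u) := by
    refine ⟨fun a => by simp [hΦ, wd, h.a], fun v hv => ?_⟩
    simp only [hΦ, dot_ee, map_sub, map_smul, h.a, h.b v hv, zc_eq, dotProduct_sub,
      dotProduct_add, dotProduct_smul, wd, map_add, smul_sub, smul_zero, add_zero, sub_zero]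
    abel
  have key : ∀ e, W2 (N e + (w ⬝ᵥ N e) • emb x (pv u)) ∧
      W2 (Φ (N e) + (w ⬝ᵥ Φ (N e)) • emb x (pv m)) := by
    intro e
    have z : w ⬝ᵥ N e = 0 → w ⬝ᵥ Φ (N e) = 0 → W2 (N e + (w ⬝ᵥ N e) • emb x (pv u)) ∧
        W2 (Φ (N e) + (w ⬝ᵥ Φ (N e)) • emb x (pv m)) := fun a b => by
      simpa [a, b] using ⟨(r e).w2, (r' e).w2⟩
    rcases h.shape (r e).w2 (r' e).w2 with ⟨p, q, b, -⟩ | ⟨v, q, s, hv, hs, b, a⟩ |
      ⟨v, y, s, t, hv, hy, hs, ht, b, a⟩
    · exact z (by rw [b, wd]) (by rw [b, h.a, wd])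
    · by_cases a0 : w v = 0
      · exact z (by simp [b, wd, dot_ee, a0]) (by simp [b, h.a, h.b v hv, wd, dot_ee, a0])
      obtain ⟨q', e1, e2⟩ := ex_scale Z q a0
      have e3 : c v0 - zc Z q' = w v • (c v - zc Z q) := by
        rw [e2, smul_sub, w2 v a0, smul_smul, sq_one a0, one_smul]
      obtain ⟨k1, k2⟩ := red.1 q' (e3 ▸ a.smul _)
      constructor
      · convert ((w2_add hv).2 (k1.smul (w v))).smul s using 1
        simp only [b, dotProduct_smul, dotProduct_sub, dot_ee, wd, e1, smul_sub, smul_smul,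
          sq_one a0, one_smul, map_sub, map_smul, smul_add, sub_zero, smul_eq_mul, mul_zero]
        abel
      · convert ((w2_add hv).2 (k2.smul (w v))).smul s using 1
        simp only [b, dotProduct_smul, dotProduct_sub, dotProduct_add, dot_ee, wd, e3, smul_sub,
          smul_smul, sq_one a0, one_smul, map_sub, map_smul, map_add, smul_add, sub_zero,
          smul_eq_mul, h.a, h.b v hv, zc_eq, add_zero, mul_zero]
        abel
    · have e1 : w v = t * w y := by
        by_cases a0 : w y = 0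
        · by_contra a1
          rw [a0, mul_zero] at a1
          refine mul_ne ht a1 ((w3 y _ hy (mul_ne ht a1) ?_).symm.trans a0)
          rw [mul_smul, ← w2 v a1, a, smul_smul, sq_one ht, one_smul]
        · exact w3 v _ hv (mul_ne ht a0) (by rw [a, w2 y a0, smul_smul])
      exact z (by simp [b, dot_ee, e1]) (by simp [b, h.b v hv, h.b y hy, wd, dot_ee, e1])
  obtain ⟨G1, g⟩ := ex_rep G fun e => (key e).1
  obtain ⟨H1, g'⟩ := ex_rep G fun e => (key e).2
  refine (conn_add w (place x u) (by rw [pv_place, wd]) r (by simpa only [pv_place] using g)).tr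
    (Conn.tr (ih ?_ h1 g ?_) (conn_add w (place x m) (by rw [pv_place, wd]) r'
      (by simpa only [pv_place] using g')).sy)
  · refine lt_of_lt_of_le (Set.ncard_lt_ncard ⟨fun v hv => ?_, fun a => ?_⟩ (Set.toFinite _))
      (Nat.lt_succ_iff.1 hn)
    · by_cases a0 : w v = 0
      · simpa [Bad, a0] using hv
      have e : c v + w v • (pv m - zc Z u) = w v • (c v0 + pv m - zc Z u) := by
        rw [w2 v a0, ← smul_add, add_sub_assoc]
      obtain ⟨-, a1, a2, -⟩ := hv
      simp only [e] at a1 a2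
      rcases red.2 with a | a
      · exact absurd (by rw [funext a]; exact smul_zero _) a1
      · exact absurd (a.smul a0) a2
    · obtain ⟨-, a1, a2, -⟩ := a (⟨b1, b2, b3, q0, b4⟩ : v0 ∈ Bad x Z D c)
      simp only [w3 v0 1 b1 one_ne (one_smul _ _).symm, one_smul, ← add_sub_assoc] at a1 a2
      rcases red.2 with a | a
      exacts [a1 (funext a), a2 a]
  · intro e
    have : Φ1 (N e + (w ⬝ᵥ N e) • emb x (pv u)) =
        Φ (N e) + (w ⬝ᵥ Φ (N e)) • emb x (pv m) := by simp [hΦ, wd]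
    show Col (H1 e) (Φ1 _)
    rw [this]
    exact g' e

end Pool.Agent.P.MP_053557_co.RG
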