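import Mathlib

/-!
Signed graphs and the operations of the Whitney-type theorem, in the words of graph theory.

A *part* is an ordinary graph (all edges positive) with inner vertices and terminals. It is glued
into a signed graph by sending every terminal to a *port*: a vertex `x` (port `pos x`: the terminal
is identified with `x`), a vertex `x` with a minus sign (port `neg x`: switch at the terminal, then
identify it with `x`) or the ground (port `none`: the terminal is deleted and its edges become half
edges, recorded as negative loops). Every operation other than relabelling, switching and moving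
positive loops takes some parts off their old ports and glues them to new ports.
-/

namespace Pool.Agent.P.MP_053557_co.RG

variable {ι E : Type}

/-- A signed graph with vertex set `ι` and edge set `E`: the ends of every edge and its sign
(`true` means negative). -/
abbrev SGraph (ι E : Type) : Type := E → Sym2 ι × Bool

/-- A port: the ground `none`, or a vertex with a sign. -/
abbrev Port (ι : Type) : Type := Option (ι × Bool)

/-- the port at `v` with a plus sign -/
def pos (v : ι) : Port ι := some (v, false)

/-- the port at `v` with a minus sign -/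
def neg (v : ι) : Port ι := some (v, true)

/-- The signed edge that arises from a positive edge whose two ends are glued to two ports. -/
inductive Joins : Port ι → Port ι → Sym2 ι × Bool → Prop
  | link (x y : ι) (σ τ : Bool) : Joins (some (x, σ)) (some (y, τ)) (s(x, y), xor σ τ)
  | left (y : ι) (τ : Bool) : Joins none (some (y, τ)) (s(y, y), true)
  | right (x : ι) (σ : Bool) : Joins (some (x, σ)) none (s(x, x), true)

/-- A part: its inner vertices, and its terminals given as pairs (old port, new port). -/
structure Part (ι : Type) where
  inner : Set ι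
  term : Set (Port ι × Port ι)

/-- The vertices of a part as pairs (old port, new port): inner vertices stay where they are. -/
def Part.pts (B : Part ι) : Set (Port ι × Port ι) :=
  B.term ∪ (fun v => (pos v, pos v)) '' B.inner

/-- `H` arises from `G` by moving the parts in `P` from their old ports to their new ports.
Every edge either meets neither `X` nor an inner vertex of a part and is kept, or it is an edge
of a part. -/
def Reglue (X : Set ι) (P : Set (Part ι)) (G H : SGraph ι E) : Prop :=
  ∀ e, (H e = G e ∧ ∀ v ∈ (G e).1, v ∉ X ∧ ∀ B ∈ P, v ∉ B.inner) ∨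
    ∃ B ∈ P, ∃ a ∈ B.pts, ∃ b ∈ B.pts, Joins a.1 b.1 (G e) ∧ Joins a.2 b.2 (H e)

/-- The four sporadic tables on `k` vertices: one row for every part, listing its terminals as
pairs (old port, new port). -/
inductive Table : (k : ℕ) → List (List (Port (Fin k) × Port (Fin k))) → Prop
  /-- the four triangles of the rolled-up `K₄`, against the doubled triangle -/
  | k4 : Table 3
      [[(pos 0, pos 0), (pos 1, pos 1), (pos 2, pos 2)],
       [(none, neg 2), (pos 0, pos 1), (pos 1, pos 0)],
       [(none, neg 1), (pos 0, pos 2), (pos 2, pos 0)],
       [(none, neg 0), (pos 1, pos 2), (pos 2, pos 1)]]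
  /-- the pinched 4-twist -/
  | pinch : Table 3
      [[(neg 0, neg 0), (pos 1, pos 1), (pos 2, pos 2)],
       [(pos 0, pos 0), (pos 1, pos 2), (pos 2, pos 1)],
       [(pos 0, neg 2), (neg 0, pos 1), (pos 1, neg 0), (neg 2, pos 0)]]
  /-- the 4-twist: the Klein four-group permutes the ports of the four parts -/
  | four : Table 4
      [[(neg 0, neg 0), (pos 1, pos 1), (pos 2, pos 2), (pos 3, pos 3)],
       [(pos 0, neg 1), (neg 1, pos 0), (pos 2, pos 3), (pos 3, pos 2)],
       [(pos 0, neg 2), (pos 1, pos 3), (neg 2, pos 0), (pos 3, pos 1)],
       [(pos 0, neg 3), (pos 1, pos 2), (pos 2, pos 1), (neg 3, pos 0)]]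
  /-- the ten faces of `K₆` in the projective plane move to the complementary triples -/
  | six : Table 6
      [[(pos 0, neg 4), (pos 1, pos 3), (pos 2, pos 5)],
       [(pos 0, neg 5), (pos 2, pos 4), (pos 3, pos 1)],
       [(pos 0, neg 1), (pos 3, pos 5), (pos 4, pos 2)],
       [(pos 0, neg 2), (pos 4, pos 1), (pos 5, pos 3)],
       [(pos 0, neg 3), (pos 5, pos 2), (pos 1, pos 4)],
       [(pos 1, pos 5), (pos 2, pos 3), (neg 4, neg 0)],
       [(pos 2, pos 1), (pos 3, pos 4), (neg 5, neg 0)],
       [(pos 3, pos 2), (pos 4, pos 5), (neg 1, neg 0)],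
       [(pos 4, pos 3), (pos 5, pos 1), (neg 2, neg 0)],
       [(pos 5, pos 4), (pos 1, pos 2), (neg 3, neg 0)]]

/-- a port of a table, placed at the vertices `x 0, x 1, …` -/
def place {k : ℕ} (x : Fin k → ι) (p : Port (Fin k)) : Port ι := p.map fun q => (x q.1, q.2)

/-- The operations on signed graphs. -/
inductive Move : SGraph ι E → SGraph ι E → Prop
  /-- rename the vertices -/
  | relabel (G : SGraph ι E) (σ : Equiv.Perm ι) : Move G fun e => ((G e).1.map σ, (G e).2)
  /-- change the sign of the edges with exactly one end in the set `S` -/
  | switch (G H : SGraph ι E) (S : ι → Bool)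
      (h : ∀ e, ∃ u v, (G e).1 = s(u, v) ∧ H e = (s(u, v), xor (G e).2 (xor (S u) (S v)))) :
      Move G H
  /-- move positive loops to other vertices -/
  | loops (G H : SGraph ι E)
      (h : ∀ e, H e = G e ∨ ∃ u v, G e = (s(u, u), false) ∧ H e = (s(v, v), false)) : Move G H
  /-- Whitney twist of one part about `x` and `y` (cleaving and identifying, if the part meets
  only one of them) -/
  | twist (G H : SGraph ι E) (K : Set ι) (x y : ι) (hx : x ∉ K) (hy : y ∉ K)
      (h : Reglue ∅ {⟨K, {(pos x, pos y), (pos y, pos x)}⟩} G H) : Move G H
  /-- rotation at `z` of the part with inner vertices `J`, together with the parts `K u` that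
  hang at the vertices `u` of `J` -/
  | rotate (G H : SGraph ι E) (z : ι) (J : Set ι) (K : ι → Set ι) (hz : z ∉ J)
      (hJ : ∀ u, z ∉ K u ∧ Disjoint (K u) J) (hK : ∀ u v, u ≠ v → Disjoint (K u) (K v))
      (h : Reglue ∅ (insert ⟨J, {(none, neg z), (neg z, pos z), (pos z, none)}⟩
        ((fun u => ⟨K u, {(pos u, neg u), (neg u, pos z), (pos z, pos u)}⟩) '' J)) G H) :
      Move G H
  /-- exchange by one of the four tables at the vertices `x 0, x 1, …`; the part of the row `R`
  has the inner vertices `K R`, and every edge at a vertex `x i` belongs to a part -/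
  | exchange (G H : SGraph ι E) (k : ℕ) (T : List (List (Port (Fin k) × Port (Fin k))))
      (hT : Table k T) (x : Fin k ↪ ι) (K : List (Port (Fin k) × Port (Fin k)) → Set ι)
      (hx : ∀ R i, x i ∉ K R) (hK : ∀ R R', R ≠ R' → Disjoint (K R) (K R'))
      (h : Reglue (Set.range x) ((fun R => ⟨K R,
        (fun q => (place x q.1, place x q.2)) '' {q | q ∈ R}⟩) '' {R | R ∈ T}) G H) : Move G H

end Pool.Agent.P.MP_053557_co.RG
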