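import Pool.Agent.P.MP_053557_co.Basic2

/-! Cutting a ring at one cell. -/

namespace Pool.Agent.P.MP_053557_co

open Module Submodule

namespace RingA

theorem even_of_classes {κ ρ : Type} [DecidableEq κ] [Fintype ρ] (T : Finset κ)
    (P : ρ → κ → Prop) [∀ q, DecidablePred (P q)] (hcov : ∀ o ∈ T, ∃ q, P q o)
    (hdisj : ∀ o q q', P q o → P q' o → q = q')
    (h2 : ∀ q, ∀ o ∈ T, P q o → (T.filter (P q)).card = 2) : Even T.card := by
  have h1 : T = Finset.univ.biUnion fun q => T.filter (P q) := by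
    ext o
    simp only [Finset.mem_biUnion, Finset.mem_univ, true_and, Finset.mem_filter]
    exact ⟨fun ho => (hcov o ho).imp fun q hq => ⟨ho, hq⟩, fun ⟨_, ho, _⟩ => ho⟩
  rw [h1, Finset.card_biUnion]
  · refine Finset.even_sum _ fun q _ => ?_
    by_cases h : ∃ o ∈ T, P q o
    · obtain ⟨o, ho, hq⟩ := h
      rw [h2 q o ho hq]
      exact even_two
    · rw [Finset.filter_false_of_mem fun o ho hq => h ⟨o, ho, hq⟩]
      simp
  · intro q _ q' _ hne
    refine Finset.disjoint_left.2 fun o h1 h2 => hne ?_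
    exact hdisj o q q' (Finset.mem_filter.1 h1).2 (Finset.mem_filter.1 h2).2

variable {V : Type} [AddCommGroup V] [Module F V] {κ ρ : Type}

theorem mem_span_of_off (b : Basis κ F V) (M : Set κ) {E : Set V}
    (hE : ∀ e ∈ E, ∀ m ∈ M, b.repr e m = 0) {x : V} (hx : x ∈ span F E ⊔ span F (b '' M))
    (h0 : ∀ m ∈ M, b.repr x m = 0) : x ∈ span F E := by
  rw [← span_union] at hx
  refine span_mono ?_ (mem_span_inside b Mᶜ hx ?_ fun l hl hc => hl (h0 l hc))
  · rintro e ⟨he | ⟨m, hm, rfl⟩, h1⟩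
    · exact he
    · exact absurd hm (h1 m (by simp))
  · rintro e (he | ⟨m, hm, rfl⟩)
    · exact Or.inl fun l hl hc => hl (hE e he l hc)
    · exact Or.inr fun l hl => repr_basis_ne b fun hc => hl (hc ▸ hm)

theorem not_mem_M {b : Basis κ F V} {M : Set κ} {E : Set V} {χ : ρ → V →ₗ[F] F}
    (h : Cells b (span F E ⊔ span F (b '' M)) χ) {q : ρ} {l : κ} (hl : χ q (b l) ≠ 0) :
    l ∉ M := fun hm => hl (h.van q _ (mem_sup_right (subset_span ⟨l, hm, rfl⟩)))

theorem diff_mem {b : Basis κ F V} {M : Set κ} {E : Set V} {χ : ρ → V →ₗ[F] F}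
    (h : Cells b (span F E ⊔ span F (b '' M)) χ) (hE : ∀ e ∈ E, ∀ m ∈ M, b.repr e m = 0)
    {q : ρ} {l l' : κ} (hl : χ q (b l) ≠ 0) (hl' : χ q (b l') ≠ 0) :
    χ q (b l) • b l - χ q (b l') • b l' ∈ span F E := by
  refine mem_span_of_off b M hE (h.diff hl hl') fun m hm => ?_
  have h1 : l ≠ m := fun hc => not_mem_M h hl (hc ▸ hm)
  have h2 : l' ≠ m := fun hc => not_mem_M h hl' (hc ▸ hm)
  simp [single_ne h1, single_ne h2]

theorem mem_of_smul {W : Submodule F V} {c : F} (hc : c ≠ 0) {x : V} (h : c • x ∈ W) : x ∈ W := by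
  have := W.smul_mem c h
  rwa [smul_smul, F_sq hc, one_smul] at this

theorem transfer {W : Submodule F V} {c c' : F} (hc' : c' ≠ 0) {x y : V}
    (h : c • x - c' • y ∈ W) (hx : x ∈ W) : y ∈ W := by
  refine mem_of_smul hc' ?_
  have := W.sub_mem (W.smul_mem c hx) h
  simpa using this

end RingA

open RingA in
theorem s_ring : S_RING := by
  intro V _ _ κ ρ ρ' _ _ _ _ _ _ b M E1 E2 χ ψ q W R hq hW
  classical
  have hE1 : span F E1 ≤ W := hW ▸ span_mono Set.subset_union_left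
  have hE2 : span F {e | e ∈ E2 ∧ ∀ m, ψ q (b m) ≠ 0 → b.repr e m = 0} ≤ W :=
    hW ▸ span_mono Set.subset_union_right
  have hends : ∀ e ∈ E2, ∀ l, b.repr e l ≠ 0 → ψ q (b l) ≠ 0 → ∀ m, b.repr e m ≠ 0 →
      ψ q (b m) ≠ 0 := fun e he l h1 h2 m hm =>
    ends_in_supp b (ψ q) (R.d2 he) (R.c2.van q e (mem_sup_left (subset_span he))) h1 h2 hm
  have p3 : ∀ q' o o', χ q' (b o) ≠ 0 → χ q' (b o') ≠ 0 → b o ∈ W → b o' ∈ W :=
    fun q' o o' h1 h2 h3 => transfer h2 (hE1 (diff_mem R.c1 R.o1 h1 h2)) h3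
  have p4 : ∀ q' o o', q' ≠ q → ψ q' (b o) ≠ 0 → ψ q' (b o') ≠ 0 → b o ∈ W → b o' ∈ W := by
    intro q' o o' hne h1 h2 h3
    refine transfer (c := ψ q' (b o)) h2 (hE2 ?_) h3
    refine span_mono ?_ (mem_span_inside b {m | ψ q (b m) = 0} (diff_mem R.c2 R.o2 h1 h2) ?_ ?_)
    · exact fun e he => ⟨he.1, fun m hm => by_contra fun hc => hm (he.2 m hc)⟩
    · intro e he
      by_cases h : ∀ l, b.repr e l ≠ 0 → ψ q (b l) = 0
      · exact Or.inl h
      · push Not at h
        obtain ⟨l, h4, h5⟩ := h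
        exact Or.inr fun m hm => by_contra fun hc => hends e he l h4 h5 m hc hm
    · intro l hl
      by_contra hc
      have h4 : o ≠ l := fun h => hne (R.c2.disj l q' q (h ▸ h1) hc)
      have h5 : o' ≠ l := fun h => hne (R.c2.disj l q' q (h ▸ h2) hc)
      simp [single_ne h4, single_ne h5] at hl
  have p1 : ∀ l, ψ q (b l) ≠ 0 → b l ∉ W := by
    intro l hl hlW
    have hoffM : ∀ o ∈ Shd b (span F E1) (span F E2), o ∉ M := by
      rintro o ⟨⟨w, hw, h1⟩, -⟩ hm
      exact h1 (repr_span_zero b (fun e he => R.o1 e he o hm) hw)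
    have hlS : l ∈ Shd b (span F E1) (span F E2) := by
      constructor
      · rw [hW] at hlW
        obtain ⟨e, he | he, h1⟩ := exists_touch b hlW (l := l) (by simp)
        · exact ⟨e, subset_span he, h1⟩
        · exact absurd (he.2 l hl) h1
      · obtain ⟨l', h1, h2⟩ := hq
        by_cases h : l' = l
        · exact h ▸ h2
        · exact ⟨_, diff_mem R.c2 R.o2 hl h1, by simpa [single_ne h] using hl⟩
    let T : Finset κ := Finset.univ.filter fun o => o ∈ Shd b (span F E1) (span F E2) ∧ b o ∈ W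
    have hT : ∀ o, o ∈ T ↔ o ∈ Shd b (span F E1) (span F E2) ∧ b o ∈ W := by simp [T]
    have e1 : Even T.card := by
      refine even_of_classes T (fun q' o => χ q' (b o) ≠ 0)
        (fun o ho => R.z1 o (hoffM o ((hT o).1 ho).1)) (fun o => R.c1.disj o) ?_
      intro q' o ho h1
      rw [← R.s1 q' ⟨o, h1, ((hT o).1 ho).1.1⟩, ← Set.ncard_coe_finset]
      congr 1
      ext o'
      simp only [Finset.coe_filter, hT, Set.mem_ofPred_eq]
      exact ⟨fun h => ⟨h.2, h.1.1⟩, fun h => ⟨⟨h.2, p3 q' o o' h1 h.1 ((hT o).1 ho).2⟩, h.1⟩⟩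
    have e2 : Even (T.filter fun o => ¬ ψ q (b o) ≠ 0).card := by
      refine even_of_classes _ (fun q' o => ψ q' (b o) ≠ 0)
        (fun o ho => R.z2 o (hoffM o ((hT o).1 (Finset.mem_filter.1 ho).1).1))
        (fun o => R.c2.disj o) ?_
      intro q' o ho h1
      obtain ⟨ho1, ho2⟩ := Finset.mem_filter.1 ho
      have hne : q' ≠ q := fun h => ho2 (h ▸ h1)
      rw [← R.s2 q' ⟨o, h1, ((hT o).1 ho1).1.2⟩, ← Set.ncard_coe_finset]
      congr 1
      ext o'
      simp only [Finset.coe_filter, Finset.mem_filter, hT, Set.mem_ofPred_eq]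
      exact ⟨fun h => ⟨h.2, h.1.1.1⟩, fun h =>
        ⟨⟨⟨h.2, p4 q' o o' hne h1 h.1 ((hT o).1 ho1).2⟩,
          fun hc => hne (R.c2.disj o' q' q h.1 hc)⟩, h.1⟩⟩
    have e3 := Finset.card_filter_add_card_filter_not (s := T) fun o => ψ q (b o) ≠ 0
    have e4 : Even (T.filter fun o => ψ q (b o) ≠ 0).card := by
      rw [← e3, Nat.even_add] at e1
      exact e1.2 e2
    have hlT : l ∈ T.filter fun o => ψ q (b o) ≠ 0 :=
      Finset.mem_filter.2 ⟨(hT l).2 ⟨hlS, hlW⟩, hl⟩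
    have e5 : 1 < (T.filter fun o => ψ q (b o) ≠ 0).card := by
      have := Finset.card_pos.2 ⟨l, hlT⟩
      obtain ⟨k, hk⟩ := e4
      omega
    obtain ⟨o, ho, hol⟩ := Finset.exists_mem_ne e5 l
    obtain ⟨ho1, ho2⟩ := Finset.mem_filter.1 ho
    have hd2 := diff_mem R.c2 R.o2 hl ho2
    have hdW : ψ q (b l) • b l - ψ q (b o) • b o ∈ W :=
      W.sub_mem (W.smul_mem _ hlW) (W.smul_mem _ ((hT o).1 ho1).2)
    rw [hW, span_union] at hdW
    obtain ⟨u, hu, w, hw, huw⟩ := mem_sup.1 hdW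
    have hw2 : w ∈ span F E2 := span_mono (fun _ he => he.1) hw
    have hu2 : u ∈ span F E2 := by
      rw [eq_sub_of_add_eq huw]
      exact sub_mem hd2 hw2
    have hu0 : u = 0 := by
      have : u ∈ span F E1 ⊓ span F E2 := ⟨hu, hu2⟩
      rwa [R.dir, mem_bot] at this
    rw [hu0, zero_add] at huw
    have h1 : b.repr w l = 0 := repr_span_zero b (fun e he => he.2 l hl) hw
    rw [huw] at h1
    apply hl
    simpa [single_ne hol] using h1
  refine ⟨p1, ?_, p3, ?_⟩
  · intro e he o o' h1 h2 h3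
    by_cases hoo : o = o'
    · exact hoo ▸ h1
    have heD : e ∈ Dset (Tset b) := he.elim (fun h => R.d1 h) fun h => R.d2 h
    have heW : e ∈ W := by
      rcases he with he | he
      · exact hE1 (subset_span he)
      · refine hE2 (subset_span ⟨he, fun m hm => by_contra fun hc => ?_⟩)
        exact p1 o (hends e he m hc hm o h2) h1
    rw [Dset_eq_two b heD hoo h2 h3] at heW
    exact mem_of_smul h3 ((W.add_mem_iff_right (W.smul_mem _ h1)).1 heW)
  · intro q' o o' h1 h2 h3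
    by_cases hne : q' = q
    · exact absurd h3 (p1 o (hne ▸ h1))
    · exact p4 q' o o' hne h1 h2 h3

end Pool.Agent.P.MP_053557_co
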