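import Pool.Agent.P.MP_053557_co.Defs

/-!
Statements of the intermediate lemmas of the connectivity theorem for frames.
Each `S_x` is proved in its own file from the statements it depends on.
-/

namespace Pool.Agent.P.MP_053557_co

open Module Submodule

/-! ### General tools -/

/-- Cells exist. -/
def S_CELL : Prop := ∀ {V : Type} [AddCommGroup V] [Module F V] {κ : Type} [Fintype κ]
  [DecidableEq κ] (b : Basis κ F V) (W : Submodule F V), DSp (Tset b) W →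
  ∃ (r : ℕ) (χ : Fin r → V →ₗ[F] F), Cells b W χ

/-- Number of cells. -/
def S_CARD : Prop := ∀ {V : Type} [AddCommGroup V] [Module F V] {κ ρ : Type} [Fintype κ]
  [DecidableEq κ] [Fintype ρ] [DecidableEq ρ] (b : Basis κ F V) (W : Submodule F V)
  (χ : ρ → V →ₗ[F] F), Cells b W χ → Fintype.card ρ + finrank F W = Fintype.card κ

/-- Counting shared vertices. -/
def S_CL : Prop := ∀ {V : Type} [AddCommGroup V] [Module F V] {κ ρ ρ' : Type} [Fintype κ]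
  [DecidableEq κ] [Fintype ρ] [DecidableEq ρ] [Fintype ρ'] [DecidableEq ρ'] (b : Basis κ F V)
  (W1 W2 : Submodule F V) (χ : ρ → V →ₗ[F] F) (ψ : ρ' → V →ₗ[F] F),
  Cells b W1 χ → Cells b W2 ψ → W1 ⊔ W2 = ⊤ →
  (Shd b W1 W2).ncard =
    {q | Big b W1 χ q}.ncard + {q | Big b W2 ψ q}.ncard + finrank F ↥(W1 ⊓ W2)

/-- Linear relations between joints modulo a subspace spanned by edges. -/
def S_TQ : Prop := ∀ {V : Type} [AddCommGroup V] [Module F V] (T : Set V) (W : Submodule F V),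
  IsFrame T → DSp T W →
  (∀ y1 ∈ T, ∀ y2 ∈ T, ∀ y3 ∈ T, y1 + y2 + y3 ∈ W → y1 - y2 ∉ W →
    y1 ∈ W ∨ y2 ∈ W ∨ y3 ∈ W) ∧
  (∀ y1 ∈ T, ∀ y2 ∈ T, ∀ y3 ∈ T, ∀ y4 ∈ T, y1 + y2 - (y3 + y4) ∈ W → y1 - y2 ∉ W →
    y3 - y4 ∉ W → y1 - y3 ∉ W → y1 - y4 ∉ W → y1 + y2 ∈ W) ∧
  (∀ y1 ∈ T, ∀ y2 ∈ T, ∀ y3 ∈ T, y1 + y2 - y3 ∈ W →
    y1 ∈ W ∨ y2 ∈ W ∨ y1 - y2 ∈ W ∨ y1 + y2 ∈ W)

/-- A set with differences in `Dset` can be translated into the frame, up to three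
obstructions. -/
def S_HUB : Prop := ∀ {V : Type} [AddCommGroup V] [Module F V] (G H : Set V), IsFrame G →
  (∀ x ∈ H, ∀ y ∈ H, x - y ∈ Dset G) →
  (∀ x ∈ H, ∀ y ∈ H, ∀ z ∈ H, x ≠ y → x + y + z = 0 → x - y ∈ G) →
  (∀ x ∈ H, ∀ y ∈ H, ∀ z ∈ H, ∀ w ∈ H, x ≠ y → z ≠ w → x ≠ z → x ≠ w → x + y ≠ z + w) →
  (∀ x0 ∈ H, ∀ x1 ∈ H, ∀ x2 ∈ H, ∀ x3 ∈ H, ∀ y1 ∈ G, ∀ y2 ∈ G, ∀ y3 ∈ G,
    LinearIndependent F ![y1, y2, y3] →
    ¬ (x1 - x0 = y1 + y2 ∧ x2 - x0 = y1 + y3 ∧ x3 - x0 = y2 + y3)) →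
  ∃ u, ∀ x ∈ H, x + u ∈ G

/-- The tetrahedron does not fit into a frame. -/
def S_TET : Prop := ∀ {V : Type} [AddCommGroup V] [Module F V] (G : Set V), IsFrame G →
  ∀ y1 ∈ G, ∀ y2 ∈ G, ∀ y3 ∈ G, LinearIndependent F ![y1, y2, y3] →
  ∀ c, c ∈ G → c + (y1 + y2) ∈ G → c + (y1 + y3) ∈ G → c + (y2 + y3) ∈ G → False

/-- Basic criterion for `Rr`. -/
def S_RCRIT : Prop := ∀ {V : Type} [AddCommGroup V] [Module F V] (A B G : Set V),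
  IsFrame A → IsFrame B → IsFrame G → Ed A B ⊆ Dset G → A ∩ B ⊆ G →
  (∀ u, ∀ x0 ∈ A, ∀ x1 ∈ A, ∀ x2 ∈ A, ∀ x3 ∈ A, x0 + u ∈ B → x1 + u ∈ B → x2 + u ∈ B →
    x3 + u ∈ B → ∀ y1 ∈ G, ∀ y2 ∈ G, ∀ y3 ∈ G, LinearIndependent F ![y1, y2, y3] →
    ¬ (x1 - x0 = y1 + y2 ∧ x2 - x0 = y1 + y3 ∧ x3 - x0 = y2 + y3)) →
  Rr A B G

/-- Criterion for `Rr` with old and new stars. -/
def S_RC : Prop := ∀ {V : Type} [AddCommGroup V] [Module F V] {ρ : Type} [Fintype ρ]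
  [DecidableEq ρ] (A B : Set V) (g : Basis ρ F V) (N : Set ρ),
  IsFrame A → IsFrame B → Ed A B ⊆ Dset (Tset g) → A ∩ B ⊆ Tset g →
  (∀ m, m ∉ N → ∃ h, IsFrame h ∧ Rr A B h ∧ IsStar h (g.coord m)) →
  ((∃ m1 m2, ∀ m ∈ N, m = m1 ∨ m = m2) ∨
   (∃ (h : Set V) (P : V →ₗ[F] V), Rr A B h ∧ (∀ x ∈ h, P x ∈ Tset g) ∧
      ∀ m ∈ N, P (g m) = g m) ∨
   (∀ u, ∀ x0 ∈ A, ∀ x1 ∈ A, ∀ x2 ∈ A, ∀ x3 ∈ A, x0 + u ∈ B → x1 + u ∈ B → x2 + u ∈ B →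
      x3 + u ∈ B → x0 ≠ x1 → x0 ≠ x2 → x0 ≠ x3 → x1 ≠ x2 → x1 ≠ x3 → x2 ≠ x3 →
      x1 - x0 ∈ span F (g '' N) → x2 - x0 ∈ span F (g '' N) → x3 - x0 ∈ span F (g '' N) →
      ∃ u', x0 + u' ∈ Tset g ∧ x1 + u' ∈ Tset g ∧ x2 + u' ∈ Tset g ∧ x3 + u' ∈ Tset g)) →
  Rr A B (Tset g)

/-- Contracting an edge at a vertex. -/
def S_CM : Prop := ∀ {V : Type} [AddCommGroup V] [Module F V] (A B : Set V)
  (σ : V →ₗ[F] F) (x0 e u : V), IsFrame A → IsFrame B → 4 ≤ finrank F V → x0 ∈ A → σ x0 = 1 →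
  (∀ y ∈ A, y ≠ x0 → y ≠ -x0 → σ y = 0) → e ∈ Ed A B → σ e = 1 →
  (∀ x ∈ Ed A B, σ x = 1 → ∃ y ∈ B, x + u - y ∈ span F {e}) →
  (x0 ∈ B → x0 + u ∈ span F {e}) → Succ A B

/-- Mixing the stars of two frames. -/
def S_MIX : Prop := ∀ {V : Type} [AddCommGroup V] [Module F V] {ι κ : Type} [Fintype ι]
  [DecidableEq ι] [Fintype κ] [DecidableEq κ] (a : Basis ι F V) (f : Basis κ F V)
  (A0 : Finset ι) (B0 : Finset κ), A0.card = B0.card → B0.Nonempty → A0 ≠ Finset.univ →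
  (∀ e ∈ EE a f, (B0.filter fun l => f.repr e l ≠ 0).card ≤
    (A0.filter fun i => a.repr e i ≠ 0).card) →
  (∀ w, (∀ i, i ∉ A0 → a.repr w i = 0) → (∀ l ∈ B0, f.repr w l = 0) → w = 0) →
  Succ (Tset a) (Tset f)

/-- The edges in the kernel of a star, seen from the other frame. -/
def S_SPLIT : Prop := ∀ {V : Type} [AddCommGroup V] [Module F V] {ι : Type} [Fintype ι]
  [DecidableEq ι] (a : Basis ι F V) (E : Set V) (φ : V →ₗ[F] F), E ⊆ Dset (Tset a) → NB E φ →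
  (∀ x, (∀ i, φ (a i) ≠ 0 → a.repr x i = 0) →
    x ∈ span F {e | e ∈ E ∧ ∀ i, φ (a i) ≠ 0 → a.repr e i = 0}) ∧
  (∀ x, (∀ i, φ (a i) = 0 → a.repr x i = 0) → φ x = 0 →
    x ∈ span F {e | e ∈ E ∧ φ e = 0 ∧ ∀ i, φ (a i) = 0 → a.repr e i = 0})

/-- A graph whose edge set splits as a direct sum has a smaller pendant part. -/
def S_PEND : Prop := ∀ {V : Type} [AddCommGroup V] [Module F V] {ι : Type} [Fintype ι]
  [DecidableEq ι] (a : Basis ι F V) (I : Finset ι) (k : ι) (E1 E2 : Set V), k ∈ I →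
  (∀ e ∈ E1 ∪ E2, ∃ i ∈ I, ∃ i' ∈ I, i ≠ i' ∧ e = a i - a i') →
  (∀ i ∈ I, a i - a k ∈ span F (E1 ∪ E2)) → span F E1 ⊓ span F E2 = ⊥ →
  E1.Nonempty → E2.Nonempty →
  ∃ I' : Finset ι, ∃ k' ∈ I', I' ⊂ I ∧ 2 ≤ I'.card ∧ (k ∈ I' → k = k') ∧
    (∀ e ∈ E1 ∪ E2, ∀ i ∈ I', i ≠ k' → a.repr e i ≠ 0 → ∀ m, a.repr e m ≠ 0 → m ∈ I') ∧
    ∀ i ∈ I', a i - a k' ∈ span F {e | e ∈ E1 ∪ E2 ∧ ∀ m, a.repr e m ≠ 0 → m ∈ I'}

/-- A star without negative edges inside its support. -/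
def S_SC0 : Prop := ∀ {V : Type} [AddCommGroup V] [Module F V] {ι κ : Type} [Fintype ι]
  [DecidableEq ι] [Fintype κ] [DecidableEq κ] (A B : Set V) (a : Basis ι F V)
  (f : Basis κ F V) (j : κ), IsFrame A → IsFrame B → Rr A B (Tset a) → Rr A B (Tset f) →
  NB (Ed A B) (f.coord j) →
  (∃ i i', i ≠ i' ∧ f.repr (a i) j ≠ 0 ∧ f.repr (a i') j ≠ 0) →
  (∃ o o', o ≠ o' ∧ f.repr (a o) j = 0 ∧ f.repr (a o') j = 0) →
  (∀ e ∈ Ed A B, ∀ i i', i ≠ i' → a.repr e i ≠ 0 → a.repr e i' ≠ 0 → f.repr (a i) j ≠ 0 →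
    f.repr (a i') j ≠ 0 → f.repr e j = 0) →
  ∃ G, Ok A B G ∧ Share (Tset a) G ∧ Share G (Tset f)

/-- Edge sets touching almost twice their rank many vertices. -/
def S_DS1 : Prop := ∀ {V : Type} [AddCommGroup V] [Module F V] {κ : Type} [Fintype κ]
  [DecidableEq κ] (b : Basis κ F V) (E0 : Set V), E0 ⊆ Dset (Tset b) → (0 : V) ∉ E0 →
  (∀ e ∈ E0, -e ∈ E0) →
  2 * finrank F (span F E0) ≤ {l | ∃ e ∈ E0, b.repr e l ≠ 0}.ncard + 1 →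
  E0.ncard ≤ 2 * finrank F (span F E0) ∨
  ({l | ∃ e ∈ E0, b.repr e l ≠ 0}.ncard + 1 = 2 * finrank F (span F E0) ∧
    E0.ncard ≤ 2 * finrank F (span F E0) + 2 ∧
    ∃ d1 ∈ E0, ∃ d2 ∈ E0, d1 - d2 ∈ E0 ∧ d1 ≠ -d2)

/-! ### Reductions -/

def S_DISC1 : Prop := ∀ {V : Type} [AddCommGroup V] [Module F V] (A B : Set V)
  (V1 V2 : Submodule F V) (α β : V →ₗ[F] F), IsFrame A → IsFrame B → IsCompl V1 V2 →
  V1 ≠ ⊥ → V2 ≠ ⊥ → (∀ e ∈ Ed A B, e ∈ V1 ∨ e ∈ V2) → Spans (Ed A B) →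
  IsStar A α → ((∀ x ∈ V1, α x = 0) ∨ ∀ x ∈ V2, α x = 0) →
  IsStar B β → ((∀ x ∈ V1, β x = 0) ∨ ∀ x ∈ V2, β x = 0) → SConn A B A B

def S_DISC : Prop := ∀ {V : Type} [AddCommGroup V] [Module F V] (A B : Set V),
  IsFrame A → IsFrame B → 4 ≤ finrank F V → Spans (Ed A B) → Sep (Ed A B) 0 → SConn A B A B

def S_SEP1 : Prop := ∀ {V : Type} [AddCommGroup V] [Module F V] (A B : Set V),
  IsFrame A → IsFrame B → 4 ≤ finrank F V → Spans (Ed A B) → ¬ Sep (Ed A B) 0 →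
  Sep (Ed A B) 1 → ∃ V1 V2 p, Ts A B V1 V2 p

def S_UNP : Prop := ∀ {V : Type} [AddCommGroup V] [Module F V] {ι : Type} [Fintype ι]
  [DecidableEq ι] (A B : Set V) (V1 V2 : Submodule F V) (p : V) (h : Basis ι F V) (z : ι),
  Ts A B V1 V2 p → Rr A B (Tset h) → z ∈ Shd h V1 V2 → h.repr p z = 0 →
  ∃ g : Basis ι F V, Rr A B (Tset g) ∧ Share (Tset h) (Tset g) ∧
    (Shd g V1 V2).ncard < (Shd h V1 V2).ncard

def S_TW : Prop := ∀ {V : Type} [AddCommGroup V] [Module F V] {ι : Type} [Fintype ι]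
  [DecidableEq ι] (A B : Set V) (V1 V2 : Submodule F V) (p : V) (h : Basis ι F V),
  Ts A B V1 V2 p → Rr A B (Tset h) → (∀ z ∈ Shd h V1 V2, h.repr p z ≠ 0) →
  3 ≤ (Shd h V1 V2).ncard →
  ∃ g : Basis ι F V, Rr A B (Tset g) ∧ Share (Tset h) (Tset g) ∧
    (Shd g V1 V2).ncard < (Shd h V1 V2).ncard

def S_NF : Prop := ∀ {V : Type} [AddCommGroup V] [Module F V] {ι : Type} [Fintype ι]
  [DecidableEq ι] (A B : Set V) (V1 V2 : Submodule F V) (p : V) (h : Basis ι F V),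
  Ts A B V1 V2 p → Rr A B (Tset h) → (∀ z ∈ Shd h V1 V2, h.repr p z ≠ 0) →
  (Shd h V1 V2).ncard ≤ 2 →
  JJ (Tset h) V1 V2 p ∨ LB (Tset h) V1 V2 p ∨ LB (Tset h) V2 V1 p

def S_SJ : Prop := ∀ {V : Type} [AddCommGroup V] [Module F V] (A B : Set V)
  (V1 V2 : Submodule F V) (p : V) (T : Set V), Ts A B V1 V2 p → Ok A B T →
  (JJ T V1 V2 p ∨ LB T V1 V2 p) → SJ T V1 V2 p

def S_GJJ : Prop := ∀ {V : Type} [AddCommGroup V] [Module F V] (A B : Set V)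
  (V1 V2 : Submodule F V) (p : V) (T T' : Set V), Ts A B V1 V2 p → Ok A B T → Ok A B T' →
  SJ T V2 V1 p → SJ T' V1 V2 p → ∃ G, Ok A B G ∧ Share T G ∧ Share G T'

def S_GLB : Prop := ∀ {V : Type} [AddCommGroup V] [Module F V] (A B : Set V)
  (V1 V2 : Submodule F V) (p : V) (T T' : Set V), Ts A B V1 V2 p → Ok A B T → Ok A B T' →
  LB T V1 V2 p → LB T' V1 V2 p → 3 ≤ finrank F V1 → ∃ G, Ok A B G ∧ Share T G ∧ Share G T'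

def S_GLB2 : Prop := ∀ {V : Type} [AddCommGroup V] [Module F V] (A B : Set V)
  (V1 V2 : Submodule F V) (p : V) (T T' : Set V), Ts A B V1 V2 p → Ok A B T → Ok A B T' →
  LB T V1 V2 p → LB T' V1 V2 p → finrank F V1 ≤ 2 → SConn A B T T'

def S_TWOSEP : Prop := ∀ {V : Type} [AddCommGroup V] [Module F V] (A B : Set V),
  IsFrame A → IsFrame B → 4 ≤ finrank F V → Spans (Ed A B) → ¬ Sep (Ed A B) 0 →
  Sep (Ed A B) 1 → SConn A B A B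

def S_BAL : Prop := ∀ {V : Type} [AddCommGroup V] [Module F V] {κ : Type} [Fintype κ]
  [DecidableEq κ] (A : Set V) (f : Basis κ F V) (j : κ), IsFrame A →
  Spans (Ed A (Tset f)) → ¬ Sep (Ed A (Tset f)) 1 → ¬ NB (Ed A (Tset f)) (f.coord j) →
  ∃ g : Basis κ F V, Rr A (Tset f) (Tset g) ∧ (∀ l, l ≠ j → g.coord l = f.coord l) ∧
    NB (Ed A (Tset f)) (g.coord j)

/-! ### Supports that are not full -/

def S_LEAF : Prop := ∀ {V : Type} [AddCommGroup V] [Module F V] {ι κ : Type} [Fintype ι]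
  [DecidableEq ι] [Fintype κ] [DecidableEq κ] (a : Basis ι F V) (f : Basis κ F V) (j : κ)
  (I : Finset ι) (v w : ι), Sj a f j I → v ∈ I → nbr a f I v = {w} →
  ((∀ i ∈ I, i ≠ v → -(a v + a i) ∈ Dset (Tset f) →
      -(a v + a i) - f j ∈ span F {a v - a w}) ∨
   (a v ≠ f j ∧ ∀ t, OT a I t → a v + t ∈ Dset (Tset f) →
      a v + t - f j ∈ span F {a v - a w})) →
  Succ (Tset a) (Tset f)

def S_TRIAD : Prop := ∀ {V : Type} [AddCommGroup V] [Module F V] {ι κ : Type} [Fintype ι]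
  [DecidableEq ι] [Fintype κ] [DecidableEq κ] (a : Basis ι F V) (f : Basis κ F V) (j : κ)
  (I : Finset ι) (v w w' c : ι), Sj a f j I → v ∈ I → nbr a f I v = {w, w'} → w ≠ w' →
  a w - a w' ∈ Dset (Tset f) → (∀ t, OT a I t → a v + t ∉ Dset (Tset f)) → c ∈ I → c ≠ v →
  -(a v + a c) ∈ Dset (Tset f) →
  (∀ i ∈ I, i ≠ v → -(a v + a i) ∈ Dset (Tset f) → i = c) → Succ (Tset a) (Tset f)

def S_C1 : Prop := ∀ {V : Type} [AddCommGroup V] [Module F V] {ι κ : Type} [Fintype ι]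
  [DecidableEq ι] [Fintype κ] [DecidableEq κ] (a : Basis ι F V) (f : Basis κ F V) (j : κ)
  (I : Finset ι) (v : ι) (l0 : κ), Sj a f j I → v ∈ I → a.repr (f j) v = 0 → l0 ≠ j →
  a.repr (f l0) v = 0 →
  ((∃ w, nbr a f I v = {w}) ∨
    ∃ w w', nbr a f I v = {w, w'} ∧ w ≠ w' ∧ a w - a w' ∈ Dset (Tset f)) →
  Succ (Tset a) (Tset f)

def S_C2 : Prop := ∀ {V : Type} [AddCommGroup V] [Module F V] {ι κ : Type} [Fintype ι]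
  [DecidableEq ι] [Fintype κ] [DecidableEq κ] (a : Basis ι F V) (f : Basis κ F V) (j : κ)
  (I : Finset ι) (u m m' : ι) (l0 z : κ), Sj a f j I → u ∈ I → m ∈ I → nbr a f I u = {m} →
  nbr a f I m = {u, m'} → m' ≠ u → a.repr (f j) m = 0 → l0 ≠ j → a.repr (f l0) m = 0 →
  a.repr (f l0) u ≠ 0 → z ≠ j → a.repr (f z) u = 0 → a.repr (f z) m = 0 →
  Succ (Tset a) (Tset f)

def S_CAP : Prop := ∀ {V : Type} [AddCommGroup V] [Module F V] {ι κ : Type} [Fintype ι]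
  [DecidableEq ι] [Fintype κ] [DecidableEq κ] (a : Basis ι F V) (f : Basis κ F V) (j : κ)
  (I : Finset ι) (u u' w w' : ι) (t t' : V), Sj a f j I → u ∈ I → u' ∈ I → u ≠ u' →
  (∃ v, nbr a f I u = {v}) → (∃ v, nbr a f I u' = {v}) → OT a I t → OT a I t' →
  a u + t ∈ Dset (Tset f) → a u' + t' ∈ Dset (Tset f) → w ∈ I → w ≠ u → w ≠ u' → w' ∈ I →
  w' ≠ u → w' ≠ u' → -(a u + a w) ∈ Dset (Tset f) → -(a u' + a w') ∈ Dset (Tset f) →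
  Succ (Tset a) (Tset f)

def S_TREE : Prop := ∀ {V : Type} [AddCommGroup V] [Module F V] {ι κ : Type} [Fintype ι]
  [DecidableEq ι] [Fintype κ] [DecidableEq κ] (a : Basis ι F V) (f : Basis κ F V) (j : κ)
  (I : Finset ι), Sj a f j I → 3 ≤ I.card →
  ∑ i ∈ I, (nbr a f I i).card + 2 ≤ 2 * I.card → Succ (Tset a) (Tset f)

def S_TRI : Prop := ∀ {V : Type} [AddCommGroup V] [Module F V] {ι κ : Type} [Fintype ι]
  [DecidableEq ι] [Fintype κ] [DecidableEq κ] (a : Basis ι F V) (f : Basis κ F V) (j : κ)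
  (I : Finset ι) (t1 t2 t3 : ι), Sj a f j I → t1 ∈ I → t2 ∈ nbr a f I t1 →
  t3 ∈ nbr a f I t1 → t3 ∈ nbr a f I t2 → ∑ i ∈ I, (nbr a f I i).card ≤ 2 * I.card →
  SD a f j I → Succ (Tset a) (Tset f)

def S_F1a : Prop := ∀ {V : Type} [AddCommGroup V] [Module F V] {ι κ : Type} [Fintype ι]
  [DecidableEq ι] [Fintype κ] [DecidableEq κ] (a : Basis ι F V) (f : Basis κ F V) (j : κ)
  (I : Finset ι) (C : Finset κ) (χ : V →ₗ[F] F) (l : κ), St a f j I → Spec a f j I C χ l →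
  SP a f j I C χ

def S_F1b : Prop := ∀ {V : Type} [AddCommGroup V] [Module F V] {ι κ : Type} [Fintype ι]
  [DecidableEq ι] [Fintype κ] [DecidableEq κ] (a : Basis ι F V) (f : Basis κ F V) (j : κ)
  (I : Finset ι) (C C' : Finset κ) (χ χ' : V →ₗ[F] F) (l l' : κ), Sj a f j I →
  Spec a f j I C χ l → Spec a f j I C' χ' l' → SP a f j I C χ → SP a f j I C' χ' →
  Disjoint C C' → False

def S_F1 : Prop := ∀ {V : Type} [AddCommGroup V] [Module F V] {ι κ : Type} [Fintype ι]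
  [DecidableEq ι] [Fintype κ] [DecidableEq κ] (a : Basis ι F V) (f : Basis κ F V) (j : κ)
  (I : Finset ι), St a f j I →
  ∑ i ∈ I, (nbr a f I i).card + 2 ≤ 2 * I.card ∨
  ∃ t1 t2 t3, t1 ∈ I ∧ t2 ∈ nbr a f I t1 ∧ t3 ∈ nbr a f I t1 ∧ t3 ∈ nbr a f I t2 ∧
    ∑ i ∈ I, (nbr a f I i).card ≤ 2 * I.card ∧ SD a f j I

def S_TWO : Prop := ∀ {V : Type} [AddCommGroup V] [Module F V] {ι κ : Type} [Fintype ι]
  [DecidableEq ι] [Fintype κ] [DecidableEq κ] (a : Basis ι F V) (f : Basis κ F V) (j : κ)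
  (i1 i2 : ι), i1 ≠ i2 → Sj a f j {i1, i2} → Succ (Tset a) (Tset f) ∨
  ∃ (f' : Basis κ F V) (y : κ) (s0 fw : V), Tset f' = Tset f ∧ Q2 a f' j i1 i2 y s0 fw

def S_R2a : Prop := ∀ {V : Type} [AddCommGroup V] [Module F V] {ι κ : Type} [Fintype ι]
  [DecidableEq ι] [Fintype κ] [DecidableEq κ] (a : Basis ι F V) (f : Basis κ F V) (j : κ)
  (i1 i2 : ι) (y : κ) (s0 fw : V), Q2 a f j i1 i2 y s0 fw → (s0 = fw ∨ s0 = -fw) →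
  Succ (Tset a) (Tset f)

/-- Structure of the edge set in the configuration `Q2`. -/
def S_QE : Prop := ∀ {V : Type} [AddCommGroup V] [Module F V] {ι κ : Type} [Fintype ι]
  [DecidableEq ι] [Fintype κ] [DecidableEq κ] (a : Basis ι F V) (f : Basis κ F V) (j : κ)
  (i1 i2 : ι) (y : κ) (s0 fw : V), Q2 a f j i1 i2 y s0 fw →
  (∀ e ∈ EE a f, e ∈ EK a f j i1 ∨ e ∈ EZ a f j i1 ∨ e = a i1 - a i2 ∨ e = -(a i1 - a i2) ∨
    e = a i1 + a i2 ∨ e = -(a i1 + a i2) ∨ ∃ l, l ≠ j ∧ a.repr (f l) i1 = 1 ∧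
      (e = f j - f l ∨ e = -(f j - f l) ∨ e = f j + f l ∨ e = -(f j + f l))) ∧
  (∀ e ∈ EK a f j i1 ∪ EZ a f j i1, a.repr e i1 = 0 ∧ a.repr e i2 = 0) ∧
  (∀ x, a.repr x i1 = 0 → (∀ l, f.repr x l ≠ 0 → l ≠ j ∧ a.repr (f l) i1 ≠ 0) →
    x ∈ span F (EK a f j i1)) ∧
  (∀ x, (∀ l, f.repr x l ≠ 0 → l ≠ j ∧ a.repr (f l) i1 = 0) → x ∈ span F (EZ a f j i1)) ∧
  (∀ l, l ≠ j → a.repr (f l) i1 = 1 → f j - f l = a i1 + (f y - f l - (s0 + fw)) ∧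
    f j + f l = a i2 + (f l - f y + (fw - s0)))

/-- Ring structure in the configuration `Q2`. -/
def S_RB : Prop := ∀ {V : Type} [AddCommGroup V] [Module F V] {ι κ : Type} [Fintype ι]
  [DecidableEq ι] [Fintype κ] [DecidableEq κ] (a : Basis ι F V) (f : Basis κ F V) (j : κ)
  (i1 i2 : ι) (y : κ) (s0 fw : V), Q2 a f j i1 i2 y s0 fw → s0 ≠ fw → s0 ≠ -fw →
  (∃ l, l ≠ j ∧ l ≠ y ∧ a.repr (f l) i1 ≠ 0) →
  ∃ (r r' : ℕ) (χ : Fin r → V →ₗ[F] F) (ψ : Fin r' → V →ₗ[F] F),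
    Rings a {i1, i2} (EK a f j i1) (EZ a f j i1) χ ψ ∧
    f j - f y ∉ Dset (Tset a) ∧ f j + f y ∉ Dset (Tset a)

/-- Cutting a ring at one cell. -/
def S_RING : Prop := ∀ {V : Type} [AddCommGroup V] [Module F V] {κ ρ ρ' : Type} [Fintype κ]
  [DecidableEq κ] [Fintype ρ] [DecidableEq ρ] [Fintype ρ'] [DecidableEq ρ'] (b : Basis κ F V)
  (M : Set κ) (E1 E2 : Set V) (χ : ρ → V →ₗ[F] F) (ψ : ρ' → V →ₗ[F] F) (q : ρ')
  (W : Submodule F V), Rings b M E1 E2 χ ψ → Big b (span F E2) ψ q →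
  W = span F (E1 ∪ {e | e ∈ E2 ∧ ∀ m, ψ q (b m) ≠ 0 → b.repr e m = 0}) →
  (∀ l, ψ q (b l) ≠ 0 → b l ∉ W) ∧
  (∀ e ∈ E1 ∪ E2, ∀ o o', b o ∈ W → b.repr e o ≠ 0 → b.repr e o' ≠ 0 → b o' ∈ W) ∧
  (∀ q' o o', χ q' (b o) ≠ 0 → χ q' (b o') ≠ 0 → b o ∈ W → b o' ∈ W) ∧
  (∀ q' o o', ψ q' (b o) ≠ 0 → ψ q' (b o') ≠ 0 → b o ∈ W → b o' ∈ W)

def S_R2b : Prop := ∀ {V : Type} [AddCommGroup V] [Module F V] {ι κ : Type} [Fintype ι]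
  [DecidableEq ι] [Fintype κ] [DecidableEq κ] (a : Basis ι F V) (f : Basis κ F V) (j : κ)
  (i1 i2 : ι) (y : κ) (s0 fw : V), Q2 a f j i1 i2 y s0 fw → s0 ≠ fw → s0 ≠ -fw →
  (∃ l, l ≠ j ∧ l ≠ y ∧ a.repr (f l) i1 ≠ 0) → Succ (Tset a) (Tset f)

/-- A four point line of edges is spanned by two joints. -/
def S_U24 : Prop := ∀ {V : Type} [AddCommGroup V] [Module F V] (G : Set V) (θ θ' : V),
  IsFrame G → (∀ c c' : F, c • θ + c' • θ' = 0 → c = 0 ∧ c' = 0) →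
  (∀ w, qpt θ θ' w ∈ Dset G) →
  ∃ w w' : Fin 4, w ≠ w' ∧ ∀ v, qpt θ θ' v ∈ G ↔ (v = w ∨ v = w')

/-- Lifting frames along the quad. -/
def S_QL : Prop := ∀ {V : Type} [AddCommGroup V] [Module F V] (A B : Set V)
  (U : Submodule F V) (α1 α2 : V →ₗ[F] F) (a1 a2 θ θ' : V), Qd A B U α1 α2 a1 a2 θ θ' →
  QL U a1 a2 θ θ' (Subtype.val ⁻¹' A) = A ∧ QL U a1 a2 θ θ' (Subtype.val ⁻¹' B) = B ∧
  (∀ G : Set ↥U, Ok (Subtype.val ⁻¹' A) (Subtype.val ⁻¹' B) G →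
    Ok A B (QL U a1 a2 θ θ' G)) ∧
  (∀ G H : Set ↥U, Ok (Subtype.val ⁻¹' A) (Subtype.val ⁻¹' B) G →
    Ok (Subtype.val ⁻¹' A) (Subtype.val ⁻¹' B) H →
    (Link G H ∨ ∃ w, (∃ z ∈ G, qpt θ θ' w = (z : V)) ∧ ∃ z ∈ H, qpt θ θ' w = (z : V)) →
    Share (QL U a1 a2 θ θ' G) (QL U a1 a2 θ θ' H))

/-- The connectivity theorem in dimension `n`. -/
def MainAt (n : ℕ) : Prop := ∀ {V : Type} [AddCommGroup V] [Module F V] (A B : Set V),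
  IsFrame A → IsFrame B → finrank F V = n → 4 ≤ n → Spans (Ed A B) → SConn A B A B

def S_QUAD : Prop := ∀ {V : Type} [AddCommGroup V] [Module F V] {ι κ : Type} [Fintype ι]
  [DecidableEq ι] [Fintype κ] [DecidableEq κ] (a : Basis ι F V) (f : Basis κ F V) (j : κ)
  (i1 i2 : ι) (y : κ) (s0 fw : V), Q2 a f j i1 i2 y s0 fw → s0 ≠ fw → s0 ≠ -fw →
  (∀ l, l ≠ j → a.repr (f l) i1 ≠ 0 → l = y) → (∀ m, m < Fintype.card ι → MainAt m) →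
  SConn (Tset a) (Tset f) (Tset a) (Tset f)

/-! ### Full supports -/

def S_AFP : Prop := ∀ {V : Type} [AddCommGroup V] [Module F V] {ι κ : Type} [Fintype ι]
  [DecidableEq ι] [Fintype κ] [DecidableEq κ] (a : Basis ι F V) (f : Basis κ F V), Tc a f →
  (∀ i l, f.repr (a i) l ≠ 0) → (∀ i l, a.repr (f l) i ≠ 0) →
  Even (Fintype.card ι) ∧ (∀ x ∈ Gm a, ∀ y ∈ Gm a, Even (Df f x y).card) ∧
  ∀ S : Finset ι, S.Nonempty → S ≠ Finset.univ →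
    ∃ i ∈ S, ∃ i', i' ∉ S ∧ (Adj f (a i) (a i') ∨ Adj f (a i) (-a i'))

def S_NC : Prop := ∀ {V : Type} [AddCommGroup V] [Module F V] {ι κ : Type} [Fintype ι]
  [DecidableEq ι] [Fintype κ] [DecidableEq κ] (a : Basis ι F V) (f : Basis κ F V),
  4 ≤ Fintype.card ι → Spans (EE a f) → (∀ i l, f.repr (a i) l ≠ 0) →
  (∀ x ∈ Gm a, ∀ y ∈ Gm a, Even (Df f x y).card) → NC a f ∨ Succ (Tset a) (Tset f)

def S_H4 : Prop := ∀ {V : Type} [AddCommGroup V] [Module F V] {ι κ : Type} [Fintype ι]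
  [DecidableEq ι] [Fintype κ] [DecidableEq κ] (a : Basis ι F V) (f : Basis κ F V),
  Fintype.card ι = 4 → (∀ i l, f.repr (a i) l ≠ 0) → (∀ i l, a.repr (f l) i ≠ 0) →
  (∀ x ∈ Gm a, ∀ y ∈ Gm a, Even (Df f x y).card) → CoreLink (Tset a) (Tset f)

def S_K6 : Prop := ∀ {V : Type} [AddCommGroup V] [Module F V] {ι κ : Type} [Fintype ι]
  [DecidableEq ι] [Fintype κ] [DecidableEq κ] (a : Basis ι F V) (f : Basis κ F V),
  Fintype.card ι = 6 → (∀ i l, f.repr (a i) l ≠ 0) → (∀ i l, a.repr (f l) i ≠ 0) →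
  (∀ x ∈ Gm a, ∀ y ∈ Gm a, Even (Df f x y).card) → CoreLink (Tset a) (Tset f)

/-- Elementary facts when all coefficients are nonzero. -/
def S_AFB : Prop := ∀ {V : Type} [AddCommGroup V] [Module F V] {ι κ : Type} [Fintype ι]
  [DecidableEq ι] [Fintype κ] [DecidableEq κ] (a : Basis ι F V) (f : Basis κ F V), Af a f →
  (∀ x ∈ Gm a, ∀ y ∈ Gm a, Adj f x y ↔ (Df f x y).card = 2) ∧
  (∀ x ∈ Gm a, ∀ y ∈ Gm a, ∀ z ∈ Gm a, ∀ w ∈ Gm a, Adj f x y → Adj f z w →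
    Df f x y = Df f z w → x - y = z - w ∨ x - y = w - z) ∧
  (∀ e ∈ EE a f, e ≠ 0 → ∃ x ∈ Gm a, ∃ y ∈ Gm a, Adj f x y ∧ e = x - y) ∧
  (∀ x ∈ Gm a, ∀ c, ∃ y ∈ Gm a, ∃ y' ∈ Gm a, y ≠ y' ∧ Adj f x y ∧ Adj f x y' ∧
    c ∉ Df f x y ∧ c ∉ Df f x y') ∧
  (∀ l, ∀ z ∈ Gm a, ∃ x ∈ Gm a, ∃ y ∈ Gm a, ∃ x' ∈ Gm a, ∃ y' ∈ Gm a, Adj f x y ∧
    Adj f x' y' ∧ l ∈ Df f x y ∧ l ∈ Df f x' y' ∧ x - y ≠ x' - y' ∧ x - y ≠ y' - x' ∧
    x ≠ z ∧ x ≠ -z ∧ y ≠ z ∧ y ≠ -z ∧ x' ≠ z ∧ x' ≠ -z ∧ y' ≠ z ∧ y' ≠ -z)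

def S_GEO : Prop := ∀ {V : Type} [AddCommGroup V] [Module F V] {ι κ : Type} [Fintype ι]
  [DecidableEq ι] [Fintype κ] [DecidableEq κ] (a : Basis ι F V) (f : Basis κ F V), Af a f →
  ∃ (x : ℤ → V) (L : ℕ) (r : ℕ) (χ : Fin r → V →ₗ[F] F), Gq a f x L χ

def S_G1 : Prop := ∀ {V : Type} [AddCommGroup V] [Module F V] {ι κ ρ : Type} [Fintype ι]
  [DecidableEq ι] [Fintype κ] [DecidableEq κ] [Fintype ρ] [DecidableEq ρ] (a : Basis ι F V)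
  (f : Basis κ F V) (x : ℤ → V) (L : ℕ) (χ : ρ → V →ₗ[F] F), Gq a f x L χ →
  Fintype.card ι ≤ 2 * L ∧ Fintype.card ρ + L = Fintype.card ι ∧
  {i | Off a x (a i)}.ncard = Fintype.card ρ ∧
  (∀ y ∈ Gm a, y ∈ span F (Set.range x) ↔ ∃ s, y = x s) ∧
  (∀ l, ∃ q, χ q (f l) ≠ 0) ∧
  (∀ l, Odd ((Finset.range L).filter fun s : ℕ => l ∈ Df f (x s) (x (s + 1))).card) ∧
  (∀ s, Disjoint (Df f (x (s - 1)) (x s)) (Df f (x s) (x (s + 1)))) ∧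
  (∀ y s, Off a x y → Adj f y (x s) → Adj f y (x (s + 2)) → Adj f y (x (s + 1)))

def S_CNT : Prop := ∀ {V : Type} [AddCommGroup V] [Module F V] {ι κ ρ : Type} [Fintype ι]
  [DecidableEq ι] [Fintype κ] [DecidableEq κ] [Fintype ρ] [DecidableEq ρ] (a : Basis ι F V)
  (f : Basis κ F V) (x : ℤ → V) (L : ℕ) (χ : ρ → V →ₗ[F] F), Gq a f x L χ →
  2 * L ≤ 3 * {i | Off a x (a i) ∧ ∃ s, Adj f (a i) (x s)}.ncard

/-- All rows light. -/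
def S_AL : Prop := ∀ {ι ρ : Type} [Fintype ι] [DecidableEq ι] [Fintype ρ] [DecidableEq ρ]
  (M : ι → ρ → F) (N : ρ → ι → F), OF M N → 3 ≤ Fintype.card ι → (∀ p, Wt2 (M p)) →
  (∀ p, (Finset.univ.filter fun q => M p q ≠ 0).card = 2) ∧
  (∀ q, (Finset.univ.filter fun p => M p q ≠ 0).card = 2) ∧
  (∀ (S : Set ι) (q0 : ρ), S.Nonempty → (∃ p, p ∉ S) →
    ∃ q, q ≠ q0 ∧ ∃ p ∈ S, ∃ p', p' ∉ S ∧ M p q ≠ 0 ∧ M p' q ≠ 0) ∧
  (∀ p p', Lk M p p' → (Finset.univ.filter fun q => M p q ≠ 0 ∧ M p' q ≠ 0).card = 1)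

/-- No heavy rows. -/
def S_HV : Prop := ∀ {ι ρ : Type} [Fintype ι] [DecidableEq ι] [Fintype ρ] [DecidableEq ρ]
  (M : ι → ρ → F) (N : ρ → ι → F), OF M N →
  (∀ p, ¬ Wt2 (M p) → ∃ p1 p2 p3, p1 ≠ p2 ∧ p1 ≠ p3 ∧ p2 ≠ p3 ∧ Lk M p p1 ∧ Lk M p p2 ∧
    Lk M p p3) →
  (∀ S : Set ι, S.Nonempty → (∀ p ∈ S, ¬ Wt2 (M p)) → ∃ p ∈ S, ∃ p', p' ∉ S ∧ Lk M p p') →
  4 ≤ {p | Wt2 (M p)}.ncard → ∀ p, Wt2 (M p)

def S_CLAW : Prop := ∀ {V : Type} [AddCommGroup V] [Module F V] {ι κ ρ : Type} [Fintype ι]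
  [DecidableEq ι] [Fintype κ] [DecidableEq κ] [Fintype ρ] [DecidableEq ρ] (a : Basis ι F V)
  (f : Basis κ F V) (x : ℤ → V) (χ : ρ → V →ₗ[F] F), Gq a f x 4 χ → Fintype.card ι = 8 →
  ∀ y, Off a x y → Wt2 fun q => χ q y

def S_LIGHT : Prop := ∀ {V : Type} [AddCommGroup V] [Module F V] {ι κ ρ : Type} [Fintype ι]
  [DecidableEq ι] [Fintype κ] [DecidableEq κ] [Fintype ρ] [DecidableEq ρ] (a : Basis ι F V)
  (f : Basis κ F V) (x : ℤ → V) (L : ℕ) (χ : ρ → V →ₗ[F] F), Gq a f x L χ →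
  4 ≤ Fintype.card ρ ∧ (∀ y, Off a x y → Wt2 fun q => χ q y) ∧
  ∃ N : ρ → {i // Off a x (a i)} → F, ∀ [Fintype {i // Off a x (a i)}],
    OF (fun (p : {i // Off a x (a i)}) q => χ q (a p)) N

def S_K2 : Prop := ∀ {V : Type} [AddCommGroup V] [Module F V] {ι κ ρ : Type} [Fintype ι]
  [DecidableEq ι] [Fintype κ] [DecidableEq κ] [Fintype ρ] [DecidableEq ρ] (a : Basis ι F V)
  (f : Basis κ F V) (x : ℤ → V) (L : ℕ) (χ : ρ → V →ₗ[F] F), Gq a f x L χ →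
  Fintype.card ι = 2 * L ∧
  ∀ y, Off a x y → ∀ q, χ q y ≠ 0 → ∀ c, χ q (f c) ≠ 0 →
    ∃ z ∈ Gm a, Adj f y z ∧ c ∈ Df f y z

def S_KC : Prop := ∀ {V : Type} [AddCommGroup V] [Module F V] {ι κ ρ : Type} [Fintype ι]
  [DecidableEq ι] [Fintype κ] [DecidableEq κ] [Fintype ρ] [DecidableEq ρ] (a : Basis ι F V)
  (f : Basis κ F V) (x : ℤ → V) (L : ℕ) (χ : ρ → V →ₗ[F] F), Gq a f x L χ →
  ∃ A B : ℤ → κ, Kc a f x L A B

/-- Position lemma: where the geodesic neighbour of a joint can be. -/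
def S_POS : Prop := ∀ {V : Type} [AddCommGroup V] [Module F V] {ι κ : Type} [Fintype ι]
  [DecidableEq ι] [Fintype κ] [DecidableEq κ] (a : Basis ι F V) (f : Basis κ F V)
  (x : ℤ → V) (L : ℕ) (A B : ℤ → κ), Kc a f x L A B →
  (∀ s t r : ℤ, s ≤ t → t ≤ s + L → (A r ∈ Df f (x s) (x t) ↔ ∃ r', s ≤ r' ∧ r' < t ∧
      (L : ℤ) ∣ r - r') ∧ (B r ∈ Df f (x s) (x t) ↔ A r ∈ Df f (x s) (x t))) ∧
  (∀ y ∈ Gm a, ∀ s r : ℤ, Mx f x A B y r ↔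
      ¬ (A r ∈ Df f y (x s) ↔ B r ∈ Df f y (x s))) ∧
  (∀ y, Off a x y → ∀ t r : ℤ, Adj f y (x t) → (Mx f x A B y r ↔
      (A r ∈ Df f y (x t) ∨ B r ∈ Df f y (x t)))) ∧
  (∀ y, Off a x y → ∀ t : ℤ, Adj f y (x t) → (Adj f y (x (t + 1)) ↔ Mx f x A B y t) ∧
      (Adj f y (x (t - 1)) ↔ Mx f x A B y (t - 1)))

def S_T2 : Prop := ∀ {V : Type} [AddCommGroup V] [Module F V] {ι κ : Type} [Fintype ι]
  [DecidableEq ι] [Fintype κ] [DecidableEq κ] (a : Basis ι F V) (f : Basis κ F V)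
  (x : ℤ → V) (L : ℕ) (A B : ℤ → κ) (y : V) (s : ℤ), Kc a f x L A B → Off a x y →
  Adj f y (x s) → Adj f y (x (s + 1)) → ¬ Adj f y (x (s - 1)) → ¬ Adj f y (x (s + 2)) →
  ∃ y' t, Ty1 a f x y' t

def S_T1 : Prop := ∀ {V : Type} [AddCommGroup V] [Module F V] {ι κ : Type} [Fintype ι]
  [DecidableEq ι] [Fintype κ] [DecidableEq κ] (a : Basis ι F V) (f : Basis κ F V)
  (x : ℤ → V) (L : ℕ) (A B : ℤ → κ) (y : V) (t : ℤ), Kc a f x L A B → Ty1 a f x y t →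
  (L ≠ 4 ∧ Loc1 a f x A B y t t (t - 1)) ∨ (L = 4 ∧ Loc1 a f x A B y t (t - 1) t)

def S_PET : Prop := ∀ {V : Type} [AddCommGroup V] [Module F V] {ι κ : Type} [Fintype ι]
  [DecidableEq ι] [Fintype κ] [DecidableEq κ] (a : Basis ι F V) (f : Basis κ F V)
  (x : ℤ → V) (L : ℕ) (A B : ℤ → κ) (y : V) (t : ℤ), Kc a f x L A B → L ≠ 4 →
  Ty1 a f x y t → Succ (Tset a) (Tset f)

def S_CUBE : Prop := ∀ {V : Type} [AddCommGroup V] [Module F V] {ι κ : Type} [Fintype ι]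
  [DecidableEq ι] [Fintype κ] [DecidableEq κ] (a : Basis ι F V) (f : Basis κ F V)
  (x : ℤ → V) (A B : ℤ → κ) (y : V) (t : ℤ), Kc a f x 4 A B →
  Ty1 a f x y t → Succ (Tset a) (Tset f)

def S_RNG : Prop := ∀ {V : Type} [AddCommGroup V] [Module F V] {ι κ : Type} [Fintype ι]
  [DecidableEq ι] [Fintype κ] [DecidableEq κ] (a : Basis ι F V) (f : Basis κ F V)
  (x : ℤ → V) (L : ℕ) (A B : ℤ → κ), Kc a f x L A B →
  (∀ y, Off a x y → ∃ s, Adj f y (x (s - 1)) ∧ Adj f y (x s) ∧ Adj f y (x (s + 1))) →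
  Succ (Tset a) (Tset f)

def S_AF8 : Prop := ∀ {V : Type} [AddCommGroup V] [Module F V] {ι κ : Type} [Fintype ι]
  [DecidableEq ι] [Fintype κ] [DecidableEq κ] (a : Basis ι F V) (f : Basis κ F V), Af a f →
  Succ (Tset a) (Tset f)

def S_MAIN : Prop := ∀ n, MainAt n

end Pool.Agent.P.MP_053557_co
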