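import Pool.Agent.P.MP_053557_co.Basic2
import Pool.Agent.P.MP_053557_co.Moves

/-! Statements leading from the connectivity theorem for frames to the final theorem. -/

namespace Pool.Agent.P.MP_053557_co

open Module Submodule

section defs

variable {V : Type} [AddCommGroup V] [Module F V] {ι : Type}

/-- A pair of frames given by one of the four matrices. -/
def CoreL (A B : Set V) : Prop :=
  ∃ (k : ℕ) (Z : Matrix (Fin k) (Fin k) F) (a b : Basis (Fin k) F V), Core k Z ∧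
    A = Tset a ∧ B = Tset b ∧ ∀ l i, b.repr (a i) l = Z l i

/-- Triangular move between two bases with core `C` and level function `r`. -/
structure TMb (a b : Basis ι F V) (C : Set ι) (r : ι → ℕ) : Prop where
  tri : ∀ p, p ∉ C → b.coord p - a.coord p ∈ span F (a.coord '' {p' | p' ∉ C ∧ r p' < r p})
  core : C = ∅ ∨ ∃ (k : ℕ) (Z : Matrix (Fin k) (Fin k) F) (x : Fin k ↪ ι), Core k Z ∧
    Set.range x = C ∧
    ∀ l, b.coord (x l) - ∑ i, Z l i • a.coord (x i) ∈ span F (a.coord '' Cᶜ)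

def TM (A B : Set V) : Prop :=
  ∃ (ι : Type) (_ : Fintype ι) (_ : DecidableEq ι) (a b : Basis ι F V) (C : Set ι) (r : ι → ℕ),
    A = Tset a ∧ B = Tset b ∧ TMb a b C r

def TConn (A B : Set V) : Set V → Set V → Prop :=
  Relation.ReflTransGen fun G H => Ok A B G ∧ Ok A B H ∧ (TM G H ∨ TM H G)

/-- `G` is a lift of the frame `G'` of the kernel of the common star `σ`. -/
def Lf (A B : Set V) (σ : V →ₗ[F] F) (xA xB : V) (G' : Set ↥(LinearMap.ker σ)) (G : Set V) :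
    Prop :=
  ∃ u' : ↥(LinearMap.ker σ), (xA = xB → u' = 0) ∧
    (∀ y : ↥(LinearMap.ker σ), (y : V) ∈ A → (y : V) + (xA - xB) ∈ B → y + u' ∈ G') ∧
    G = {x | (∃ z ∈ G', x = (z : V)) ∨ x = xA - u' ∨ x = -(xA - u')}

/-- One explicit operation on frames. -/
def FStep (A B : Set V) : Prop :=
  ∃ (ι : Type) (_ : Fintype ι) (_ : DecidableEq ι) (a b : Basis ι F V),
    A = Tset a ∧ B = Tset b ∧ StarOp a.coord b.coord

def EConn (E0 : Set V) : Set V → Set V → Prop :=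
  Relation.ReflTransGen fun G H => E0 ⊆ Dset G ∧ E0 ⊆ Dset H ∧ (FStep G H ∨ FStep H G)

def Lit (a b : Basis ι F V) (C : Set ι) (v : ι) : Prop := v ∉ C ∧ b.coord v = a.coord v

def Lev1 (a b : Basis ι F V) (C : Set ι) (p : ι) : Prop :=
  p ∉ C ∧ b.coord p ≠ a.coord p ∧ b.coord p - a.coord p ∈ span F (a.coord '' {v | Lit a b C v})

def Bad (a b : Basis ι F V) (C : Set ι) (p v : ι) : Prop :=
  Lev1 a b C p ∧ Lit a b C v ∧ b.repr (a v) p ≠ 0

def Rig (a b : Basis ι F V) (p v : ι) : Prop :=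
  a p ≠ b p ∧ a p - b p ∈ Tset a ∧ a p - b p ∈ Tset b ∧
    (a v - b v = a p + b p ∨ a v - b v = -(a p + b p))

end defs

/-- Rank at most three. -/
def S_R3 : Prop := ∀ {V : Type} [AddCommGroup V] [Module F V] (A B : Set V),
  IsFrame A → IsFrame B → 1 ≤ finrank F V → finrank F V ≤ 3 →
  Share A B ∨ Succ A B ∨ CoreL A B ∨ CoreL B A

def S_LIFT : Prop := ∀ {V : Type} [AddCommGroup V] [Module F V] (A B : Set V)
  (σ : V →ₗ[F] F) (xA xB : V), IsFrame A → IsFrame B → xA ∈ A → σ xA = 1 →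
  (∀ y ∈ A, y ≠ xA → y ≠ -xA → σ y = 0) → xB ∈ B → σ xB = 1 →
  (∀ y ∈ B, y ≠ xB → y ≠ -xB → σ y = 0) →
  IsFrame (Subtype.val ⁻¹' A : Set ↥(LinearMap.ker σ)) ∧
  IsFrame (Subtype.val ⁻¹' B : Set ↥(LinearMap.ker σ)) ∧
  finrank F ↥(LinearMap.ker σ) + 1 = finrank F V ∧
  (Spans (Ed A B) →
    Spans (Ed (Subtype.val ⁻¹' A : Set ↥(LinearMap.ker σ)) (Subtype.val ⁻¹' B))) ∧
  Lf A B σ xA xB (Subtype.val ⁻¹' A) A ∧ Lf A B σ xA xB (Subtype.val ⁻¹' B) B ∧
  (∀ G', Ok (Subtype.val ⁻¹' A) (Subtype.val ⁻¹' B) G' →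
    (∃ G, Lf A B σ xA xB G' G) ∧ ∀ G, Lf A B σ xA xB G' G → Ok A B G) ∧
  (∀ G' H' G H, TM G' H' → Lf A B σ xA xB G' G → Lf A B σ xA xB H' H → TM G H)

def S_PN : Prop := ∀ {V : Type} [AddCommGroup V] [Module F V] (A B : Set V),
  IsFrame A → IsFrame B → Spans (Ed A B) → TConn A B A B

def S_FIXS : Prop := ∀ {V : Type} [AddCommGroup V] [Module F V] {ι : Type} [Fintype ι]
  [DecidableEq ι] (a b : Basis ι F V) (C : Set ι) (r : ι → ℕ) (E0 : Set V) (p v : ι),
  TMb a b C r → E0 ⊆ EE a b → Spans E0 → Bad a b C p v → ¬ Rig a b p v →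
  ∃ (a' b' : Basis ι F V) (r' : ι → ℕ), TMb a' b' C r' ∧ E0 ⊆ EE a' b' ∧
    EConn E0 (Tset a) (Tset a') ∧ EConn E0 (Tset b') (Tset b) ∧
    (∀ w, Lit a b C w → Lit a' b' C w) ∧
    ((∀ w, Lit a' b' C w → Lit a b C w) →
      {q : ι × ι | Bad a' b' C q.1 q.2}.ncard < {q : ι × ι | Bad a b C q.1 q.2}.ncard)

def S_ROTS : Prop := ∀ {V : Type} [AddCommGroup V] [Module F V] {ι : Type} [Fintype ι]
  [DecidableEq ι] (a b : Basis ι F V) (C : Set ι) (r : ι → ℕ) (E0 : Set V),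
  TMb a b C r → E0 ⊆ EE a b → (∃ p, p ∉ C ∧ ¬ Lit a b C p) →
  (∀ p v, Bad a b C p v → Rig a b p v) →
  ∃ (a' : Basis ι F V) (r' : ι → ℕ), TMb a' b C r' ∧ E0 ⊆ EE a' b ∧
    EConn E0 (Tset a) (Tset a') ∧ (∀ w, Lit a b C w → Lit a' b C w) ∧
    ∃ w, Lit a' b C w ∧ ¬ Lit a b C w

def S_ECONN : Prop := ∀ {V : Type} [AddCommGroup V] [Module F V] (A B E0 : Set V),
  IsFrame A → IsFrame B → E0 ⊆ Ed A B → Spans E0 → EConn E0 A B

/-- Real and ternary independence agree for incidence matrices of graphs. -/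
def S_J1 : Prop := ∀ {V E : Type} [Fintype V] [DecidableEq V] [Fintype E] [DecidableEq E]
  (G : E → Sym2 V) (S : Set E),
  LinearIndepOn ℝ (fun e v => (inc G v e : ℝ)) S ↔ LinearIndepOn F (fun e v => (inc G v e : F)) S

/-- Uniqueness of ternary representations. -/
def S_J2 : Prop := ∀ {E X Y : Type} [Fintype E] [DecidableEq E] [AddCommGroup X] [Module F X]
  [AddCommGroup Y] [Module F Y] (v : E → X) (w : E → Y),
  (∀ S : Set E, LinearIndepOn F v S ↔ LinearIndepOn F w S) →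
  ∃ ε : E → F, (∀ e, ε e ≠ 0) ∧
    ∀ c : E → F, ∑ e, c e • v e = 0 ↔ ∑ e, c e • (ε e • w e) = 0

/-- The steps do not change the matroid. -/
def S_SOUND : Prop := ∀ {ι E : Type} [Fintype ι] [DecidableEq ι] [Fintype E] [DecidableEq E]
  (M M' : ι → E → F), Relation.EqvGen Step M M' → ∀ S : Set E,
  LinearIndepOn F (fun e v => M v e) S ↔ LinearIndepOn F (fun e v => M' v e) S

/-- Removing dependent rows. -/
def S_ROOT : Prop := ∀ {ι E : Type} [Fintype ι] [DecidableEq ι] [Fintype E] [DecidableEq E]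
  (M : ι → E → F), IsSigned M → ∃ M' : ι → E → F, IsSigned M' ∧ Relation.EqvGen Step M M' ∧
    span F (Set.range M') = span F (Set.range M) ∧ LinearIndepOn F M' {v | M' v ≠ 0}

/-- Signed graphs with the same row space are equivalent. -/
def S_ROWS : Prop := ∀ {ι E : Type} [Fintype ι] [DecidableEq ι] [Fintype E] [DecidableEq E]
  (M M' : ι → E → F), IsSigned M → IsSigned M' →
  span F (Set.range M) = span F (Set.range M') → Relation.EqvGen Step M M'

end Pool.Agent.P.MP_053557_co
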