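import Pool.Agent.P.MP_053557_co.Basic2

/-! An abstract model for the local analysis at a joint of type one. -/

namespace Pool.Agent.P.MP_053557_co

namespace T1A

variable {V κ ι : Type} [Neg V]

/-- Mixed on the class of `l`. -/
def mu (D : V → κ → Prop) (op : κ → κ) (y : V) (l : κ) : Prop := ¬ (D y l ↔ D y (op l))

/-- Equal up to sign. -/
def PM (y z : V) : Prop := y = z ∨ y = -z

structure Md (a : ι → V) (x : ℤ → V) (G O : V → Prop) (Ad : V → V → Prop) (D : V → κ → Prop)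
    (L : ℤ) (c : κ → ℤ) (op : κ → κ) : Prop where
  four : 4 ≤ L
  c0 : ∀ l, 0 ≤ c l
  c1 : ∀ l, c l < L
  surj : ∀ i, 0 ≤ i → i < L → ∃ l, c l = i
  opne : ∀ l, op l ≠ l
  opc : ∀ l, c (op l) = c l
  eqc : ∀ k l, c k = c l → k = l ∨ k = op l
  aG : ∀ i, G (a i)
  idx : ∀ y, G y → ∃ i, PM y (a i)
  xG : ∀ s, G (x s)
  oG : ∀ y, O y → G y
  off : ∀ y, G y → (∀ s, y ≠ x s) → O y
  neg : ∀ y, G y → ∀ l, D (-y) l ↔ ¬ D y l
  symm : ∀ y z, Ad y z → Ad z y
  adj : ∀ y z, G y → G z → Ad y z → ∃ u w, u ≠ w ∧ ∀ l, D z l ↔ ¬ (D y l ↔ (l = u ∨ l = w))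
  geo : ∀ s, ∃ n : ℤ, (∀ l, D (x s) l ↔ c l < n) ∨ ∀ l, D (x s) l ↔ n ≤ c l
  two : ∀ y, O y → ∃ k k', c k ≠ c k' ∧ ∀ l, mu D op y l ↔ (c l = c k ∨ c l = c k')
  cell : ∀ l y1 y2 y3, G y1 → G y2 → G y3 → mu D op y1 l → mu D op y2 l → mu D op y3 l →
    PM y1 y2 ∨ PM y1 y3 ∨ PM y2 y3
  ex : ∀ l, ∃ i, mu D op (a i) l
  closed : ∀ P : V → Prop, (∀ i, P (a i) → O (a i)) → (∃ i, P (a i)) →
    (∃ i, ¬ P (a i) ∧ O (a i)) →
    ∃ l i i', P (a i) ∧ ¬ P (a i') ∧ mu D op (a i) l ∧ mu D op (a i') l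
  link : ∀ y z, O y → O z → Ad y z →
    ∃ l, mu D op y l ∧ mu D op z l ∧ ∀ k, mu D op y k → mu D op z k → c k = c l
  reach : ∀ y l, O y → mu D op y l → ∃ z, G z ∧ Ad y z ∧ ¬ (D y l ↔ D z l)
  cyc : ∀ y, O y → ∃ s, Ad y (x s)
  afb : ∀ y k, G y → ∃ z z', G z ∧ G z' ∧ z ≠ z' ∧ Ad y z ∧ Ad y z' ∧ (D y k ↔ D z k) ∧
    (D y k ↔ D z' k)
  par : ∀ y z p q, G y → G z → G p → G q →
    (∀ l, ((D y l ↔ D p l) ∧ (D z l ↔ D q l)) ∨ ((D y l ↔ D q l) ∧ (D z l ↔ D p l))) →
    y = p ∨ y = q ∨ p = -q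

variable {a : ι → V} {x : ℤ → V} {G O : V → Prop} {Ad : V → V → Prop} {D : V → κ → Prop}
  {L : ℤ} {c : κ → ℤ} {op : κ → κ}

namespace Md

theorem opop (H : Md a x G O Ad D L c op) (l : κ) : op (op l) = l := by
  rcases H.eqc l (op l) (H.opc l).symm with h | h
  · exact absurd h.symm (H.opne l)
  · exact h.symm

theorem ms (H : Md a x G O Ad D L c op) (l u : κ) : ¬ (l = u ↔ op l = u) ↔ c l = c u := by
  constructor
  · intro h
    by_contra hc
    refine h ⟨fun e => absurd (congrArg c e) hc, fun e => absurd ?_ hc⟩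
    rw [← e, H.opc]
  · intro h h1
    rcases H.eqc u l h.symm with e | e
    · exact H.opne l ((h1.1 e.symm).trans e)
    · exact H.opne l (e.symm.trans (h1.2 e.symm).symm)

theorem mu_flip (H : Md a x G O Ad D L c op) {y z : V} {u w : κ} (huw : u ≠ w)
    (h : ∀ l, D z l ↔ ¬ (D y l ↔ (l = u ∨ l = w))) (l : κ) :
    mu D op z l ↔ ¬ (mu D op y l ↔ ¬ (c l = c u ↔ c l = c w)) := by
  unfold mu
  rw [h l, h (op l), ← H.ms l u, ← H.ms l w]
  have h1 : ¬ (l = u ∧ l = w) := fun e => huw (e.1.symm.trans e.2)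
  have h2 : ¬ (op l = u ∧ op l = w) := fun e => huw (e.1.symm.trans e.2)
  generalize D y l = p1 at *
  generalize D y (op l) = p2 at *
  generalize (l = u) = p3 at *
  generalize (l = w) = p4 at *
  generalize (op l = u) = p5 at *
  generalize (op l = w) = p6 at *
  grind

theorem adj' (H : Md a x G O Ad D L c op) {y z : V} (hy : G y) (hz : G z) (h : Ad y z) {k : κ}
    (hk : ¬ (D y k ↔ D z k)) : ∃ w, k ≠ w ∧ ∀ l, D z l ↔ ¬ (D y l ↔ (l = k ∨ l = w)) := by
  obtain ⟨u, w, huw, h1⟩ := H.adj y z hy hz h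
  have h2 : k = u ∨ k = w := by
    have := h1 k
    grind
  rcases h2 with rfl | rfl
  · exact ⟨w, huw, h1⟩
  · exact ⟨u, huw.symm, fun l => by rw [h1 l, or_comm]⟩

theorem not_mu_geo (H : Md a x G O Ad D L c op) (s : ℤ) (l : κ) : ¬ mu D op (x s) l := by
  unfold mu
  obtain ⟨n, h | h⟩ := H.geo s <;> rw [h, h, H.opc] <;> simp

theorem off_of_mu (H : Md a x G O Ad D L c op) {y : V} (hy : G y) {l : κ} (h : mu D op y l) :
    O y := H.off y hy fun s e => H.not_mu_geo s l (e ▸ h)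

theorem mu_pm (H : Md a x G O Ad D L c op) {y z : V} (hz : G z) (h : PM y z) (l : κ) :
    mu D op y l ↔ mu D op z l := by
  rcases h with rfl | rfl
  · rfl
  · unfold mu
    rw [H.neg z hz, H.neg z hz]
    grind

theorem ne_of_c {k l : κ} (h : c k ≠ c l) : k ≠ l := fun e => h (congrArg c e)

/-- A geodesic joint containing a class contains the first or the last class. -/
theorem geo_end (H : Md a x G O Ad D L c op) (s : ℤ) {k : κ} (hk : D (x s) k) :
    (∀ l, c l ≤ c k → D (x s) l) ∨ ∀ l, c k ≤ c l → D (x s) l := by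
  obtain ⟨n, h | h⟩ := H.geo s
  · exact Or.inl fun l hl => (h l).2 (lt_of_le_of_lt hl ((h k).1 hk))
  · exact Or.inr fun l hl => (h l).2 (((h k).1 hk).trans hl)

theorem mu_pair (H : Md a x G O Ad D L c op) {y : V} {g h : κ} (hgh : c g ≠ c h)
    (hD : ∀ l, D y l ↔ (l = g ∨ l = h)) (l : κ) : mu D op y l ↔ (c l = c g ∨ c l = c h) := by
  unfold mu
  rw [hD l, hD (op l)]
  have h0 := ne_of_c hgh
  have h1 : ¬ (l = g ∧ l = h) := fun e => h0 (e.1.symm.trans e.2)
  have h2 : ¬ (op l = g ∧ op l = h) := fun e => h0 (e.1.symm.trans e.2)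
  have h3 : ¬ (c l = c g ∧ c l = c h) := fun e => hgh (e.1.symm.trans e.2)
  have h4 := H.ms l g
  have h5 := H.ms l h
  grind

/-- The link flipping the second vertex of a mixed class. -/
theorem link1 (H : Md a x G O Ad D L c op) {y : V} {g h : κ} (hy : O y) (hgh : c g ≠ c h)
    (hD : ∀ l, D y l ↔ (l = g ∨ l = h)) (hg0 : c g ≠ 0) (hg1 : c g ≠ L - 1) (hh0 : c h ≠ 0)
    (hh1 : c h ≠ L - 1) :
    ∃ p m, O p ∧ Ad y p ∧ (∀ l, D p l ↔ ¬ (D y l ↔ (l = op g ∨ l = m))) ∧
      (∀ l, D p l ↔ (c l = c g ∨ l = h ∨ l = m)) ∧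
      (∀ l, mu D op p l ↔ (c l = c h ∨ c l = c m)) ∧
      ((c m = 0 ∧ (c g = 1 ∨ (c h = 1 ∧ c g = 2))) ∨
        (c m = L - 1 ∧ (c g = L - 2 ∨ (c h = L - 2 ∧ c g = L - 3)))) := by
  have hmy := H.mu_pair hgh hD
  have hL := H.four
  obtain ⟨p, hp, had, hfl⟩ := H.reach y (op g) hy ((hmy _).2 (Or.inl (H.opc g)))
  obtain ⟨m, hm, hDp⟩ := H.adj' (H.oG y hy) hp had hfl
  have hmp := H.mu_flip hm hDp
  simp only [hmy, H.opc] at hmp
  have hog : op g ≠ g := H.opne g
  have hoh : op g ≠ h := ne_of_c (c := c) (by rw [H.opc]; exact hgh)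
  have hO : O p := by
    refine H.off p hp fun s e => ?_
    subst e
    have h1 : D (x s) (op g) := by
      rw [hDp, hD]
      grind
    have h2 : ∀ l, c l ≠ c g → c l ≠ c h → D (x s) l → l = m := by
      intro l h3 h4 h5
      rw [hDp, hD] at h5
      have e1 := ne_of_c h3
      have e2 := ne_of_c h4
      have e3 : l ≠ op g := ne_of_c (c := c) (by rw [H.opc]; exact h3)
      grind
    rcases H.geo_end s h1 with h3 | h3
    · obtain ⟨l, hl⟩ := H.surj 0 le_rfl (by omega)
      have e1 := H.c0 (op g)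
      have e2 := H.opc l
      have e3 := h2 l (by omega) (by omega) (h3 l (by omega))
      have e4 := h2 (op l) (by omega) (by omega) (h3 _ (by omega))
      exact H.opne l (e4.trans e3.symm)
    · obtain ⟨l, hl⟩ := H.surj (L - 1) (by omega) (by omega)
      have e1 := H.c1 (op g)
      have e2 := H.opc l
      have e3 := h2 l (by omega) (by omega) (h3 l (by omega))
      have e4 := h2 (op l) (by omega) (by omega) (h3 _ (by omega))
      exact H.opne l (e4.trans e3.symm)
  obtain ⟨l0, h1, h2, h3⟩ := H.link y p hy hO had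
  have hmg : c m ≠ c g := by
    intro e
    have e1 := h3 g ((hmy g).2 (Or.inl rfl)) (by rw [hmp, e]; grind)
    have e2 := h3 h ((hmy h).2 (Or.inr rfl)) (by rw [hmp, e]; grind)
    exact hgh (e1.trans e2.symm)
  have hmh : c m ≠ c h := by
    intro e
    rw [hmp, e] at h2
    have h4 : ¬ (c l0 = c g ∧ c l0 = c h) := fun e => hgh (e.1.symm.trans e.2)
    grind
  have hmp' : ∀ l, mu D op p l ↔ (c l = c h ∨ c l = c m) := by
    intro l
    rw [hmp]
    have h4 : ¬ (c l = c g ∧ c l = c h) := fun e => hgh (e.1.symm.trans e.2)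
    have h5 : ¬ (c l = c m ∧ c l = c h) := fun e => hmh (e.1.symm.trans e.2)
    have h6 : ¬ (c l = c m ∧ c l = c g) := fun e => hmg (e.1.symm.trans e.2)
    grind
  have hDp' : ∀ l, D p l ↔ (c l = c g ∨ l = h ∨ l = m) := by
    intro l
    rw [hDp, hD]
    have e1 : c l = c g ↔ (l = g ∨ l = op g) :=
      ⟨H.eqc l g, fun e => e.elim (congrArg c) fun e => by rw [e, H.opc]⟩
    have e2 : ¬ (l = g ∧ l = op g) := fun e => hog (e.2.symm.trans e.1)
    have e3 : ¬ (l = h ∧ l = op g) := fun e => hoh (e.2.symm.trans e.1)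
    have e4 : ¬ (l = g ∧ l = m) := fun e => ne_of_c hmg (e.2.symm.trans e.1)
    have e5 : ¬ (l = h ∧ l = m) := fun e => ne_of_c hmh (e.2.symm.trans e.1)
    rw [e1]
    grind
  refine ⟨p, m, hO, had, hDp, hDp', hmp', ?_⟩
  obtain ⟨s, hs⟩ := H.cyc p hO
  obtain ⟨u, w, huw, hDs⟩ := H.adj p (x s) hp (H.xG s) hs
  have hms := H.mu_flip huw hDs
  have f1 := hms h
  have f2 := hms m
  rw [hmp'] at f1 f2
  have f3 := H.not_mu_geo s h
  have f4 := H.not_mu_geo s m
  have f5 : (c u = c h ∧ c w = c m) ∨ (c u = c m ∧ c w = c h) := by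
    have f6 : ¬ (c h = c u ↔ c h = c w) := by grind
    have f7 : ¬ (c m = c u ↔ c m = c w) := by grind
    omega
  have g1 : D (x s) g := by
    have e1 : g ≠ u := ne_of_c (c := c) (by omega)
    have e2 : g ≠ w := ne_of_c (c := c) (by omega)
    rw [hDs, hDp']
    grind
  have g2 : ∀ l, D (x s) l → c l = c g ∨ c l = c h ∨ c l = c m := by
    intro l hl
    by_contra hc
    have e1 : l ≠ u := ne_of_c (c := c) (by omega)
    have e2 : l ≠ w := ne_of_c (c := c) (by omega)
    have e3 : l ≠ h := ne_of_c (c := c) (by omega)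
    have e4 : l ≠ m := ne_of_c (c := c) (by omega)
    rw [hDs, hDp'] at hl
    grind
  have e0 := H.c0 g
  have e1 := H.c1 g
  rcases H.geo_end s g1 with h4 | h4
  · have key : ∀ i, 0 ≤ i → i ≤ c g → i = c g ∨ i = c h ∨ i = c m := by
      intro i h5 h6
      obtain ⟨l, rfl⟩ := H.surj i h5 (by omega)
      exact g2 l (h4 l h6)
    have k0 := key 0 le_rfl e0
    have k1 := key 1 (by omega) (by omega)
    by_cases h5 : c g = 1
    · omega
    · have k2 := key 2 (by omega) (by omega)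
      omega
  · have key : ∀ i, c g ≤ i → i < L → i = c g ∨ i = c h ∨ i = c m := by
      intro i h5 h6
      obtain ⟨l, rfl⟩ := H.surj i (by omega) h6
      exact g2 l (h4 l h5)
    have k0 := key (L - 1) (by omega) (by omega)
    have k1 := key (L - 2) (by omega) (by omega)
    by_cases h5 : c g = L - 2
    · omega
    · have k2 := key (L - 3) (by omega) (by omega)
      omega

/-- Three joints cannot form a closed triangle of classes. -/
theorem no_tri (H : Md a x G O Ad D L c op) {y p q : V} {g h m : κ} (hy : G y) (hp : G p)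
    (hq : G q) (hgh : c g ≠ c h) (hgm : c g ≠ c m) (hhm : c h ≠ c m)
    (my : ∀ l, mu D op y l ↔ (c l = c g ∨ c l = c h))
    (mp : ∀ l, mu D op p l ↔ (c l = c h ∨ c l = c m))
    (mq : ∀ l, mu D op q l ↔ (c l = c g ∨ c l = c m)) : False := by
  have hL := H.four
  have n1 : ¬ PM y p := fun e => by
    have := H.mu_pm hp e g
    rw [my, mp] at this
    omega
  have n2 : ¬ PM y q := fun e => by
    have := H.mu_pm hq e h
    rw [my, mq] at this
    omega
  have n3 : ¬ PM p q := fun e => by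
    have := H.mu_pm hq e h
    rw [mp, mq] at this
    omega
  obtain ⟨l, i, i', h1, h2, h3, h4⟩ := H.closed
    (fun v => O v ∧ ∀ l, mu D op v l → c l = c g ∨ c l = c h ∨ c l = c m) (fun _ h => h.1)
    (by
      obtain ⟨i, hi⟩ := H.idx y hy
      have e := H.mu_pm (H.aG i) hi
      refine ⟨i, H.off_of_mu (H.aG i) ((e g).1 ((my g).2 (Or.inl rfl))), fun l hl => ?_⟩
      have := (my l).1 ((e l).2 hl)
      omega)
    (by
      have : ∃ j : ℤ, 0 ≤ j ∧ j < L ∧ j ≠ c g ∧ j ≠ c h ∧ j ≠ c m := by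
        by_contra hc
        have k0 : ¬ ((0 : ℤ) ≠ c g ∧ (0 : ℤ) ≠ c h ∧ (0 : ℤ) ≠ c m) :=
          fun e => hc ⟨0, by omega, by omega, e⟩
        have k1 : ¬ ((1 : ℤ) ≠ c g ∧ (1 : ℤ) ≠ c h ∧ (1 : ℤ) ≠ c m) :=
          fun e => hc ⟨1, by omega, by omega, e⟩
        have k2 : ¬ ((2 : ℤ) ≠ c g ∧ (2 : ℤ) ≠ c h ∧ (2 : ℤ) ≠ c m) :=
          fun e => hc ⟨2, by omega, by omega, e⟩
        have k3 : ¬ ((3 : ℤ) ≠ c g ∧ (3 : ℤ) ≠ c h ∧ (3 : ℤ) ≠ c m) :=
          fun e => hc ⟨3, by omega, by omega, e⟩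
        omega
      obtain ⟨j, h0, h1, h2⟩ := this
      obtain ⟨l, rfl⟩ := H.surj j h0 h1
      obtain ⟨i, hi⟩ := H.ex l
      refine ⟨i, fun e => ?_, H.off_of_mu (H.aG i) hi⟩
      have := e.2 l hi
      omega)
  refine h2 ⟨H.off_of_mu (H.aG i') h4, fun k hk => ?_⟩
  have hG := H.aG i'
  have key : PM y (a i') ∨ PM p (a i') ∨ PM q (a i') := by
    rcases h1.2 l h3 with e | e | e
    · have := H.cell l y q _ hy hq hG ((my l).2 (Or.inl e)) ((mq l).2 (Or.inl e)) h4
      grind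
    · have := H.cell l y p _ hy hp hG ((my l).2 (Or.inr e)) ((mp l).2 (Or.inl e)) h4
      grind
    · have := H.cell l p q _ hp hq hG ((mp l).2 (Or.inr e)) ((mq l).2 (Or.inr e)) h4
      grind
  rcases key with e | e | e
  · have := (my k).1 ((H.mu_pm hG e k).2 hk)
    omega
  · have := (mp k).1 ((H.mu_pm hG e k).2 hk)
    omega
  · have := (mq k).1 ((H.mu_pm hG e k).2 hk)
    omega

/-- The second link in the case of four classes. -/
theorem link2 (H : Md a x G O Ad D L c op) {y p q : V} {g h m m' : κ} (hL : L = 4) (hy : G y)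
    (hp : O p) (hq : G q)
    (hc : (c g = 1 ∧ c h = 2 ∧ c m = 0 ∧ c m' = 3) ∨ (c g = 2 ∧ c h = 1 ∧ c m = 3 ∧ c m' = 0))
    (dy : ∀ l, D y l ↔ (l = g ∨ l = h)) (dp : ∀ l, D p l ↔ (c l = c g ∨ l = h ∨ l = m))
    (my : ∀ l, mu D op y l ↔ (c l = c g ∨ c l = c h))
    (mp : ∀ l, mu D op p l ↔ (c l = c h ∨ c l = c m))
    (mq : ∀ l, mu D op q l ↔ (c l = c g ∨ c l = c m')) :
    ∃ z e e', O z ∧ c e = c h ∧ c e' = c m' ∧ (∀ l, D z l ↔ ¬ (D p l ↔ (l = e ∨ l = e'))) ∧
      ∀ l, mu D op z l ↔ (c l = c m ∨ c l = c m') := by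
  have hpG := H.oG p hp
  obtain ⟨z, hz, hzy, had, hk⟩ : ∃ z, G z ∧ z ≠ y ∧ Ad p z ∧ (D p (op m) ↔ D z (op m)) := by
    obtain ⟨z, z', h1, h2, h3, h4, h5, h6, h7⟩ := H.afb p (op m) hpG
    by_cases e : z = y
    · exact ⟨z', h2, fun e' => h3 (e.trans e'.symm), h5, h7⟩
    · exact ⟨z, h1, e, h4, h6⟩
  have e0 := H.opc m
  have hpm : ¬ D p (op m) := by
    rw [dp]
    have e1 : op m ≠ h := ne_of_c (c := c) (by omega)
    have e2 := H.opne m
    have e3 : c (op m) ≠ c g := by omega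
    grind
  have hzm : ¬ D z (op m) := fun e => hpm (hk.2 e)
  obtain ⟨u, w, huw, dz⟩ := H.adj p z hpG hz had
  have mz := H.mu_flip huw dz
  have hO : O z := by
    refine H.off z hz fun s e => ?_
    subst e
    have f1 := mz h
    have f2 := mz m
    rw [mp] at f1 f2
    have f3 := H.not_mu_geo s h
    have f4 := H.not_mu_geo s m
    have f6 : ¬ (c h = c u ↔ c h = c w) := by grind
    have f7 : ¬ (c m = c u ↔ c m = c w) := by grind
    have g1 : D (x s) g := by
      have e1 : g ≠ u := ne_of_c (c := c) (by omega)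
      have e2 : g ≠ w := ne_of_c (c := c) (by omega)
      rw [dz, dp]
      grind
    have g2 : ¬ D (x s) m' := by
      have e1 : m' ≠ u := ne_of_c (c := c) (by omega)
      have e2 : m' ≠ w := ne_of_c (c := c) (by omega)
      have e3 : m' ≠ h := ne_of_c (c := c) (by omega)
      have e4 : m' ≠ m := ne_of_c (c := c) (by omega)
      have e5 : c m' ≠ c g := by omega
      rw [dz, dp]
      grind
    rcases H.geo_end s g1 with h4 | h4
    · have k1 := mt (h4 m') g2
      have k2 := mt (h4 (op m)) hzm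
      omega
    · have k1 := mt (h4 m') g2
      have k2 := mt (h4 (op m)) hzm
      omega
  obtain ⟨l0, h1, h2, h3⟩ := H.link p z hp hO had
  have npz : ¬ PM p z := fun e => by
    have e1 := (mp h).2 (Or.inl rfl)
    have e2 := (mp m).2 (Or.inr rfl)
    have e3 := h3 h e1 ((H.mu_pm hz e h).1 e1)
    have e4 := h3 m e2 ((H.mu_pm hz e m).1 e2)
    omega
  have zh : ¬ mu D op z h := fun e => by
    rcases H.cell h y p z hy hpG hz ((my h).2 (Or.inr rfl)) ((mp h).2 (Or.inl rfl)) e with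
      e1 | e1 | e1
    · have := H.mu_pm hpG e1 g
      rw [my, mp] at this
      omega
    · rcases e1 with e1 | e1
      · exact hzy e1.symm
      · have e2 := H.neg z hz (op m)
        rw [← e1, dy] at e2
        have e3 : op m ≠ g := ne_of_c (c := c) (by omega)
        have e4 : op m ≠ h := ne_of_c (c := c) (by omega)
        grind
    · exact npz e1
  have same : ∀ k l, c k = c l → (mu D op z k ↔ mu D op z l) := fun k l e => by
    rw [mz, mz, mp, mp, e]
  have zm : mu D op z m := by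
    rcases (mp l0).1 h1 with e | e
    · exact absurd ((same _ _ e).1 h2) zh
    · exact (same _ _ e).1 h2
  have zg : ¬ mu D op z g := fun e => by
    rcases H.cell g y q z hy hq hz ((my g).2 (Or.inl rfl)) ((mq g).2 (Or.inl rfl)) e with
      e1 | e1 | e1
    · have := H.mu_pm hq e1 h
      rw [my, mq] at this
      omega
    · have := (H.mu_pm hz e1 m).2 zm
      rw [my] at this
      omega
    · have := (H.mu_pm hz e1 m).2 zm
      rw [mq] at this
      omega
  obtain ⟨k, k', hkk, mz'⟩ := H.two z hO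
  rw [mz'] at zh zm zg
  have b1 := H.c0 k
  have b2 := H.c1 k
  have b3 := H.c0 k'
  have b4 := H.c1 k'
  have mz2 : ∀ l, mu D op z l ↔ (c l = c m ∨ c l = c m') := fun l => by
    rw [mz']
    omega
  have f1 := mz h
  have f2 := mz m'
  rw [mp, mz2] at f1 f2
  have f3 : ¬ (c h = c m ∨ c h = c m') := by omega
  have f4 : ¬ (c m' = c h ∨ c m' = c m) := by omega
  have f6 : ¬ (c h = c u ↔ c h = c w) := by grind
  have f7 : ¬ (c m' = c u ↔ c m' = c w) := by grind
  by_cases e : c u = c h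
  · exact ⟨z, u, w, hO, e, by omega, dz, mz2⟩
  · exact ⟨z, w, u, hO, by omega, by omega, fun l => by rw [dz, or_comm], mz2⟩

/-- The configuration that cannot occur with four classes. -/
theorem excl (H : Md a x G O Ad D L c op) {y p q : V} {g h m m' : κ} (hL : L = 4) (hy : G y)
    (hp : O p) (hq : O q) (cg : c g = 1) (ch : c h = 2) (cm : c m = 0) (cm' : c m' = 3)
    (dy : ∀ l, D y l ↔ (l = g ∨ l = h))
    (fp : ∀ l, D p l ↔ ¬ (D y l ↔ (l = op g ∨ l = m)))
    (fq : ∀ l, D q l ↔ ¬ (D y l ↔ (l = op h ∨ l = m')))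
    (dp : ∀ l, D p l ↔ (c l = c g ∨ l = h ∨ l = m))
    (dq : ∀ l, D q l ↔ (c l = c h ∨ l = g ∨ l = m'))
    (mp : ∀ l, mu D op p l ↔ (c l = c h ∨ c l = c m))
    (mq : ∀ l, mu D op q l ↔ (c l = c g ∨ c l = c m')) : False := by
  have hpG := H.oG p hp
  have hqG := H.oG q hq
  have my := H.mu_pair (by omega : c g ≠ c h) dy
  obtain ⟨z, e2, e3, hz, ce2, ce3, dz, mz⟩ :=
    H.link2 hL hy hp hqG (Or.inl ⟨cg, ch, cm, cm'⟩) dy dp my mp mq
  obtain ⟨z', e1, e0, hz', ce1, ce0, dz', mz'⟩ :=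
    H.link2 hL hy hq hpG (Or.inr ⟨ch, cg, cm', cm⟩) (fun l => by rw [dy, or_comm]) dq
      (fun l => by rw [my, or_comm]) mq mp
  have hzG := H.oG z hz
  have hzG' := H.oG z' hz'
  have og := H.opc g
  have oh := H.opc h
  have ne : ∀ {k l : κ}, c k ≠ c l → k ≠ l := fun h => ne_of_c h
  have z1 : ∀ l, c l = 2 → D z' l := fun l hl => by
    have k1 : l ≠ e1 := ne (by omega)
    have k2 : l ≠ e0 := ne (by omega)
    have k3 : c l = c h := by omega
    rw [dz', dq]
    grind
  have z2 : D z' m' := by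
    have k1 : m' ≠ e1 := ne (by omega)
    have k2 : m' ≠ e0 := ne (by omega)
    rw [dz', dq]
    grind
  have z3 : ∀ l, c l = 1 → D z l := fun l hl => by
    have k1 : l ≠ e2 := ne (by omega)
    have k2 : l ≠ e3 := ne (by omega)
    have k3 : c l = c g := by omega
    rw [dz, dp]
    grind
  have pm' : ¬ D p m' := by
    have k1 : m' ≠ h := ne (by omega)
    have k2 : m' ≠ m := ne (by omega)
    have k3 : c m' ≠ c g := by omega
    rw [dp]
    grind
  have npz : ∀ v, G v → (∀ l, mu D op v l → c l = 0 ∨ c l = 3) → ¬ PM p v := fun v hv h1 e => by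
    have := h1 h ((H.mu_pm hv e h).1 ((mp h).2 (Or.inl rfl)))
    omega
  have nqz : ∀ v, G v → (∀ l, mu D op v l → c l = 0 ∨ c l = 3) → ¬ PM q v := fun v hv h1 e => by
    have := h1 g ((H.mu_pm hv e g).1 ((mq g).2 (Or.inl rfl)))
    omega
  have mz0 : ∀ l, mu D op z l → c l = 0 ∨ c l = 3 := fun l hl => by
    rw [mz] at hl
    omega
  have mz0' : ∀ l, mu D op z' l → c l = 0 ∨ c l = 3 := fun l hl => by
    rw [mz'] at hl
    omega
  rcases H.cell m p z z' hpG hzG hzG' ((mp m).2 (Or.inr rfl)) ((mz m).2 (Or.inl rfl))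
    ((mz' m).2 (Or.inr rfl)) with e | e | e | e
  · exact npz z hzG mz0 e
  · exact npz z' hzG' mz0' e
  · subst e
    have k1 : op h = e2 := by
      have k2 := z1 (op h) (by omega)
      have k3 : op h ≠ e3 := ne (by omega)
      have k4 : op h ≠ m := ne (by omega)
      have k5 := H.opne h
      have k6 : c (op h) ≠ c g := by omega
      rw [dz, dp] at k2
      grind
    have k2 : m' = e3 := by
      have k3 : m' ≠ e2 := ne (by omega)
      rw [dz] at z2
      grind
    subst k1 k2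
    have k3 := H.par y z p q hy hzG hpG hqG fun l => by
      have k4 : ¬ ((l = op g ∨ l = m) ∧ (l = op h ∨ l = m')) := by
        rintro ⟨e | e, e' | e'⟩ <;> have := congrArg c (e.symm.trans e') <;> omega
      rw [dz, fp, fq]
      generalize (l = op g ∨ l = m) = P1 at k4 ⊢
      generalize (l = op h ∨ l = m') = P2 at k4 ⊢
      generalize D y l = P3
      clear * - k4
      grind
    rcases k3 with e | e | e
    · have := H.mu_pm hpG (Or.inl e) g
      rw [my, mp] at this
      omega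
    · have := H.mu_pm hqG (Or.inl e) h
      rw [my, mq] at this
      omega
    · have := H.mu_pm hqG (Or.inr e) h
      rw [mp, mq] at this
      omega
  · have dn : ∀ l, D z l ↔ ¬ D z' l := fun l => by rw [e, H.neg z' hzG']
    have zm' : ¬ D z m' := fun k => (dn m').1 k z2
    have zh : ∀ l, c l = 2 → ¬ D z l := fun l hl k => (dn l).1 k (z1 l hl)
    obtain ⟨w, hw, had, hfl⟩ := H.reach z m' hz ((mz m').2 (Or.inr rfl))
    obtain ⟨u, hu, dw⟩ := H.adj' hzG hw had hfl
    have wm' : D w m' := by grind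
    have twice : ∀ l, c l ≠ 3 → (D z l ↔ D w l) ∨ (D z (op l) ↔ D w (op l)) := fun l hl => by
      have k0 := H.opc l
      have k1 : l ≠ m' := ne (by omega)
      have k2 : op l ≠ m' := ne (by omega)
      have k3 : ¬ (l = u ∧ op l = u) := fun k => H.opne l (k.2.trans k.1.symm)
      rw [dw, dw]
      generalize D z l = P1
      generalize D z (op l) = P2
      clear * - k1 k2 k3
      grind
    by_cases hO : O w
    · obtain ⟨l0, h1, h2, h3⟩ := H.link z w hz hO had
      have nzw : ¬ PM z w := fun e => by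
        have k1 := (mz m).2 (Or.inl rfl)
        have k2 := (mz m').2 (Or.inr rfl)
        have k3 := h3 m k1 ((H.mu_pm hw e m).1 k1)
        have k4 := h3 m' k2 ((H.mu_pm hw e m').1 k2)
        omega
      rcases (mz l0).1 h1 with k | k
      · rcases H.cell l0 p z w hpG hzG hw ((mp l0).2 (Or.inr k)) h1 h2 with e | (e | e) | e
        · exact npz z hzG mz0 e
        · exact pm' (e ▸ wm')
        · have k1 := H.neg w hw g
          have k2 := H.neg w hw (op g)
          rw [← e] at k1 k2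
          have k3 := (dp g).2 (Or.inl rfl)
          have k4 := (dp (op g)).2 (Or.inl og)
          have k5 := z3 g cg
          have k6 := z3 (op g) (by omega)
          have k7 := twice g (by omega)
          clear * - k1 k2 k3 k4 k5 k6 k7
          grind
        · exact nzw e
      · rcases H.cell l0 q z w hqG hzG hw ((mq l0).2 (Or.inr k)) h1 h2 with e | (e | e) | e
        · exact nqz z hzG mz0 e
        · have k3 := (dq h).2 (Or.inl rfl)
          have k4 := (dq (op h)).2 (Or.inl oh)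
          rw [e] at k3 k4
          have k5 := zh h ch
          have k6 := zh (op h) (by omega)
          have k7 := twice h (by omega)
          clear * - k3 k4 k5 k6 k7
          grind
        · have k1 := H.neg w hw m'
          rw [← e] at k1
          exact k1.1 ((dq m').2 (Or.inr (Or.inr rfl))) wm'
        · exact nzw e
    · obtain ⟨s, rfl⟩ : ∃ s, w = x s := by
        by_contra hc
        exact hO (H.off w hw fun s e => hc ⟨s, e⟩)
      have k1 := H.not_mu_geo s g
      have k2 := H.not_mu_geo s h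
      unfold mu at k1 k2
      have k5 := z3 g cg
      have k6 := z3 (op g) (by omega)
      have k7 := twice g (by omega)
      have k8 := zh h ch
      have k9 := zh (op h) (by omega)
      have k10 := twice h (by omega)
      have g1 : D (x s) g := by
        clear * - k1 k5 k6 k7
        grind
      have g2 : ¬ D (x s) h := by
        clear * - k2 k8 k9 k10
        grind
      obtain ⟨n, k | k⟩ := H.geo s <;> rw [k] at g1 g2 wm' <;> omega

/-- The local structure. -/
theorem main (H : Md a x G O Ad D L c op) {y : V} {g h : κ} (hy : O y) (hgh : c g ≠ c h)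
    (hD : ∀ l, D y l ↔ (l = g ∨ l = h)) (hg0 : c g ≠ 0) (hg1 : c g ≠ L - 1) (hh0 : c h ≠ 0)
    (hh1 : c h ≠ L - 1) :
    ∃ g h m m' p q, (∀ l, D y l ↔ (l = g ∨ l = h)) ∧ O p ∧ O q ∧
      (∀ l, D p l ↔ ¬ (D y l ↔ (l = op g ∨ l = m))) ∧
      (∀ l, D q l ↔ ¬ (D y l ↔ (l = op h ∨ l = m'))) ∧ c g = 1 ∧ c h = L - 2 ∧
      ((L ≠ 4 ∧ c m = 0 ∧ c m' = L - 1) ∨ (L = 4 ∧ c m = L - 1 ∧ c m' = 0)) := by
  have hL := H.four
  have hD' : ∀ l, D y l ↔ (l = h ∨ l = g) := fun l => by rw [hD, or_comm]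
  have hyG := H.oG y hy
  obtain ⟨p, m, hp, -, fp, dp, mp, cp⟩ := H.link1 hy hgh hD hg0 hg1 hh0 hh1
  obtain ⟨q, m', hq, -, fq, dq, mq, cq⟩ := H.link1 hy hgh.symm hD' hh0 hh1 hg0 hg1
  have hmm : c m ≠ c m' := fun e =>
    H.no_tri hyG (H.oG p hp) (H.oG q hq) hgh (by omega) (by omega) (H.mu_pair hgh hD) mp
      fun l => by rw [mq, e]
  by_cases h1 : c g = 1
  · refine ⟨g, h, m, m', p, q, hD, hp, hq, fp, fq, h1, by omega, ?_⟩
    by_cases h4 : L = 4
    · by_cases h5 : c m = 0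
      · exact (H.excl h4 hyG hp hq h1 (by omega) h5 (by omega) hD fp fq dp dq mp mq).elim
      · omega
    · omega
  · refine ⟨h, g, m', m, q, p, hD', hq, hp, fq, fp, by omega, by omega, ?_⟩
    by_cases h4 : L = 4
    · by_cases h5 : c m' = 0
      · exact (H.excl h4 hyG hq hp (by omega) (by omega) h5 (by omega) hD' fq fp dq dp mq mp).elim
      · omega
    · omega

end Md

end T1A

end Pool.Agent.P.MP_053557_co
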